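import Mathlib

/-!
# Pseudohalfplanes: common definitions (problem MP_1180db_co)

`Sys ι` is a combinatorial record of a (possibly not complete) arrangement of curves
indexed by `ι`: sign vectors of cells (`T`, where `X i = true` means that the cell lies in the
pseudohalfplane `i`), the pairs that cross (`cr`), the crossing times `τ i j` of curve `i`
(parametrised by the reals) with curve `j`, and the sign `v i ε j` of `j` at the end `ε` of `i`
(`ε = false` is the end at minus infinity, `ε = true` the end at plus infinity).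
-/

namespace PHP

open Finset

open Classical in
/-- the signs along the curve `i` at time `t` (just before the crossing at time `t`, if any) -/
noncomputable def vecOf {ι : Type} (cr : ι → ι → Prop) (τ : ι → ι → ℝ) (v : ι → Bool → ι → Bool)
    (i : ι) (t : ℝ) (k : ι) : Bool :=
  if cr i k ∧ τ i k < t then v i true k else v i false k

structure Sys (ι : Type) where
  T : Set (ι → Bool)
  cr : ι → ι → Prop
  τ : ι → ι → ℝ
  v : ι → Bool → ι → Bool
  cr_symm : ∀ {i j}, cr i j → cr j i
  cr_irrefl : ∀ i, ¬ cr i i
  τ_inj : ∀ {i j k}, cr i j → cr i k → τ i j = τ i k → j = k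
  v_cr : ∀ {i j}, cr i j → v i true j = !(v i false j)
  v_ncr : ∀ {i j}, i ≠ j → ¬ cr i j → v i true j = v i false j
  /-- both cells along every edge of every curve are present -/
  edge : ∀ (i : ι) (t : ℝ) (X : ι → Bool), (∀ k, k ≠ i → X k = vecOf cr τ v i t k) → X ∈ T
  /-- every triple misses a pattern -/
  triple : ∀ {i j k}, i ≠ j → j ≠ k → i ≠ k →
    ∃ p q r, ∀ X ∈ T, ¬ (X i = p ∧ X j = q ∧ X k = r)
  /-- a pair that does not cross misses a pattern -/
  pair : ∀ {i j}, i ≠ j → ¬ cr i j → ∀ X ∈ T, ¬ (X i = !(v j true i) ∧ X j = !(v i true j))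

variable {ι κ : Type}

/-- the signs along the curve `i` at time `t` -/
noncomputable def Sys.vec (S : Sys ι) (i : ι) (t : ℝ) (k : ι) : Bool :=
  vecOf S.cr S.τ S.v i t k

/-- `S.Walk F l`: starting at the sign vector `F` one can cross successively, at infinity,
the ends in the list `l`. -/
def Sys.Walk [DecidableEq ι] (S : Sys ι) : (ι → Bool) → List (ι × Bool) → Prop
  | _, [] => True
  | F, e :: l => (∀ j, j ≠ e.1 → F j = S.v e.1 e.2 j) ∧
      S.Walk (Function.update F e.1 (!(F e.1))) l

/-- `S.Circ F l`: `l` lists all ends in circular order at infinity, starting from the cell `F`. -/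
def Sys.Circ [DecidableEq ι] (S : Sys ι) (F : ι → Bool) (l : List (ι × Bool)) : Prop :=
  S.Walk F l ∧ l.Nodup ∧ ∀ e, e ∈ l

def Sys.Complete (S : Sys ι) : Prop := ∀ i j, i ≠ j → S.cr i j

/-- number of elements containing the cell -/
def dep [Fintype ι] (X : ι → Bool) : ℕ := (univ.filter (fun i => X i = true)).card

/-- number of elements of `R` containing the cell -/
def hit (R : Finset ι) (X : ι → Bool) : ℕ := (R.filter (fun i => X i = true)).card

/-- the statement `P(m)` for a family of cells -/
def Good [Fintype ι] (T : Set (ι → Bool)) (m : ℕ) : Prop :=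
  ∃ R : Finset ι, ∀ X ∈ T, m ≤ dep X → 1 ≤ hit R X ∧ hit R X + m ≤ dep X + 2

/-- A (lazy) sweep: the words `pos 0, pos 1, ..., pos N` (`pos s i` is the position of the
letter `i` at time `s`); each step does nothing or exchanges two adjacent letters that are still in
their initial order; at time `N` everything is reversed. -/
structure Sweep (ι : Type) [Fintype ι] where
  N : ℕ
  pos : ℕ → ι → ℕ
  lt : ∀ s i, pos s i < Fintype.card ι
  inj : ∀ s, Function.Injective (pos s)
  step : ∀ s, pos (s+1) = pos s ∨ ∃ x y, pos s y = pos s x + 1 ∧ pos 0 x < pos 0 y ∧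
    pos (s+1) x = pos s y ∧ pos (s+1) y = pos s x ∧
    ∀ z, z ≠ x → z ≠ y → pos (s+1) z = pos s z
  rev : ∀ i, pos N i + pos 0 i + 1 = Fintype.card ι

/-- The cell at time `s` between the positions `p-1` and `p`, for starting signs `F`. -/
def Sweep.cell [Fintype ι] (W : Sweep ι) (F : ι → Bool) (s p : ℕ) (i : ι) : Bool :=
  xor (F i) (decide (W.pos s i < p))

/-- all cells of a sweep -/
def Sweep.cells [Fintype ι] (W : Sweep ι) (F : ι → Bool) : Set (ι → Bool) :=
  {X | ∃ s p, X = W.cell F s p}

/-- A periodic sweep (full turns of a meridian, half-turn length `N`). -/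
structure PSweep (ι : Type) [Fintype ι] where
  N : ℕ
  pos : ℕ → ι → ℕ
  lt : ∀ s i, pos s i < Fintype.card ι
  inj : ∀ s, Function.Injective (pos s)
  step : ∀ s, pos (s+1) = pos s ∨ ∃ x y, pos s y = pos s x + 1 ∧
    pos (s+1) x = pos s y ∧ pos (s+1) y = pos s x ∧
    ∀ z, z ≠ x → z ≠ y → pos (s+1) z = pos s z
  anti : ∀ s i, pos (s+N) i + pos s i + 1 = Fintype.card ι
  once : ∀ s x y, pos s x < pos s y → pos (s+1) y < pos (s+1) x →
    ∀ r, s < r → r ≤ s + N → pos r y < pos r x

def PSweep.cell [Fintype ι] (W : PSweep ι) (F : ι → Bool) (s p : ℕ) (i : ι) : Bool :=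
  xor (F i) (decide (W.pos s i < p))

end PHP
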