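import Mathlib

/-!
# Topological lines with their two sides
-/

namespace PHP

open Filter Topology Set

/-- A properly embedded copy of the real line in the plane together with the two regions
(open, connected, nonempty, disjoint) into which it divides the plane. -/
structure TLine where
  γ : ℝ → ℂ
  cont : Continuous γ
  inj : Function.Injective γ
  proper : Tendsto γ (cocompact ℝ) (cocompact ℂ)
  side : Bool → Set ℂ
  side_open : ∀ b, IsOpen (side b)
  side_conn : ∀ b, IsConnected (side b)
  side_disj : Disjoint (side true) (side false)
  side_union : side true ∪ side false = (range γ)ᶜ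

/-- `L` and `M` meet exactly once, at `L.γ s = M.γ t`, and cross there: each of them passes from one
side of the other to the other side. -/
def TLine.Crosses (L M : TLine) (s t : ℝ) : Prop :=
  L.γ s = M.γ t ∧ (∀ s' t', L.γ s' = M.γ t' → s' = s ∧ t' = t) ∧
  (∃ c, (∀ u < s, L.γ u ∈ M.side (!c)) ∧ (∀ u > s, L.γ u ∈ M.side c)) ∧
  (∃ c, (∀ u < t, M.γ u ∈ L.side (!c)) ∧ (∀ u > t, M.γ u ∈ L.side c))

end PHP
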