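import Mathlib
import Pool.Agent.PHP.Defs
import Pool.Agent.PHP.LineDefs

/-!
# Pseudohalfplane arrangements: definitions
-/

namespace PHP

open Filter Topology Set

/-- A pseudohalfplane arrangement: the chosen region of the line `i` is `(L i).side true`. -/
structure PHArr (ι : Type) where
  L : ι → TLine
  meet : ∀ i j, i ≠ j →
    Disjoint (range (L i).γ) (range (L j).γ) ∨ ∃ s t, (L i).Crosses (L j) s t
  no3 : ∀ i j k, i ≠ j → j ≠ k → i ≠ k →
    range (L i).γ ∩ range (L j).γ ∩ range (L k).γ = ∅

variable {ι : Type}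

/-- sign vectors of the points off the curves -/
def PHArr.cells (A : PHArr ι) : Set (ι → Bool) :=
  {X | ∃ z, ∀ i, z ∈ (A.L i).side (X i)}

end PHP
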