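import Mathlib

/-!
# Plane topology by continuous logarithms: the definition
-/

namespace PHP

open Filter Topology Set

/-- `(z - a)/(z - b)` has a continuous logarithm on `K`, tending to `0` at infinity along `K`. -/
def HasLog (K : Set ℂ) (a b : ℂ) : Prop :=
  ∃ g : ℂ → ℂ, ContinuousOn g K ∧ (∀ z ∈ K, Complex.exp (g z) = (z - a) / (z - b)) ∧
    Tendsto g (cocompact ℂ ⊓ 𝓟 K) (𝓝 0)

end PHP
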