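import Mathlib
import Pool.Agent.PHP.PlaneDefs

/-!
# Log equivalence, easy half

PROOF (`hasLog_of_preconnected`). Let `Log K a b := HasLog K a b`.
(1) reflexive: `g = 0` (`z - a ≠ 0` on `K` if `a ∉ K`). (2) symmetric: `-g`. (3) transitive: sum
(for `a b c ∉ K`; `exp (g+g') = (z-a)/(z-b) * ((z-b)/(z-c))`). (4) local: if `a ∉ K`, `K` closed, there is `δ > 0` with
`ball a δ ∩ K = ∅`; for `dist a b < δ/2` one has `|(z-a)/(z-b) - 1| = |b-a|/|z-b| < 1` for `z ∈ K`, so
`g z = Complex.log ((z-a)/(z-b))` is continuous on `K` (slit plane), and `(z-a)/(z-b) → 1` at infinity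
so `g → log 1 = 0`. Hence `{c ∈ U | Log K a c}` and `{c ∈ U | ¬ Log K a c}` are relatively open in the
preconnected set `U` and disjoint, so the second is empty.
-/

namespace PHP

open Filter Topology Set

private theorem planeEasy_symm {K : Set ℂ} {a b : ℂ} (h : HasLog K a b) : HasLog K b a := by
  obtain ⟨g, h1, h2, h3⟩ := h
  refine ⟨fun z => -g z, h1.neg, ?_, ?_⟩
  · intro z hz
    rw [Complex.exp_neg, h2 z hz, inv_div]
  · have := h3.neg
    rwa [neg_zero] at this

private theorem planeEasy_trans {K : Set ℂ} {a b c : ℂ} (hb : b ∉ K) (h : HasLog K a b)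
    (h' : HasLog K b c) : HasLog K a c := by
  obtain ⟨g, h1, h2, h3⟩ := h
  obtain ⟨g', h1', h2', h3'⟩ := h'
  refine ⟨fun z => g z + g' z, h1.add h1', ?_, ?_⟩
  · intro z hz
    have hzb : z - b ≠ 0 := by
      rw [sub_ne_zero]
      rintro rfl
      exact hb hz
    rw [Complex.exp_add, h2 z hz, h2' z hz, div_mul_div_cancel₀ hzb]
  · have := h3.add h3'
    rwa [add_zero] at this

private theorem planeEasy_local {K : Set ℂ} (hK : IsClosed K) {a : ℂ} (ha : a ∉ K) :
    ∀ᶠ b in 𝓝 a, HasLog K a b := by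
  obtain ⟨δ, hδ, hball⟩ := Metric.isOpen_iff.mp hK.isOpen_compl a ha
  filter_upwards [Metric.ball_mem_nhds a (half_pos hδ)] with b hb
  have hab : ‖b - a‖ < δ / 2 := by
    rw [← dist_eq_norm]; exact hb
  have hzb : ∀ z ∈ K, δ / 2 < ‖z - b‖ := by
    intro z hz
    have h1 : δ ≤ ‖z - a‖ := by
      by_contra hcon
      push Not at hcon
      have : z ∈ Kᶜ := hball (by rw [Metric.mem_ball, dist_eq_norm]; exact hcon)
      exact this hz
    have h2 : ‖z - a‖ ≤ ‖z - b‖ + ‖b - a‖ := by
      have := norm_add_le (z - b) (b - a)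
      simpa using this
    linarith
  have hzb0 : ∀ z ∈ K, z - b ≠ 0 := by
    intro z hz h0
    have := hzb z hz
    rw [h0, norm_zero] at this
    linarith
  have hform : ∀ z ∈ K, (z - a) / (z - b) = 1 + (b - a) / (z - b) := by
    intro z hz
    have := hzb0 z hz
    field_simp
    ring
  have hslit : ∀ z ∈ K, (z - a) / (z - b) ∈ Complex.slitPlane := by
    intro z hz
    rw [hform z hz]
    apply Complex.mem_slitPlane_of_norm_lt_one
    rw [norm_div, div_lt_one (by have := hzb z hz; linarith)]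
    have := hzb z hz
    linarith
  refine ⟨fun z => Complex.log ((z - a) / (z - b)), ?_, ?_, ?_⟩
  · apply ContinuousOn.clog
    · apply ContinuousOn.div (by fun_prop) (by fun_prop)
      exact hzb0
    · exact hslit
  · intro z hz
    rw [Complex.exp_log (Complex.slitPlane_ne_zero (hslit z hz))]
  · have h1 : Tendsto (fun z : ℂ => 1 + (b - a) * (z - b)⁻¹) (cocompact ℂ) (𝓝 (1 + (b - a) * 0)) := by
      apply Tendsto.const_add
      apply Tendsto.const_mul
      rw [← Metric.cobounded_eq_cocompact]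
      exact tendsto_inv₀_cobounded.comp (tendsto_sub_const_cobounded b)
    have h2 : Tendsto (fun z : ℂ => (z - a) / (z - b)) (cocompact ℂ ⊓ 𝓟 K) (𝓝 1) := by
      rw [mul_zero, add_zero] at h1
      refine (h1.mono_left inf_le_left).congr' ?_
      have : ∀ᶠ z in cocompact ℂ ⊓ 𝓟 K, z ∈ K := mem_inf_of_right (mem_principal_self K)
      filter_upwards [this] with z hz
      rw [hform z hz, div_eq_mul_inv]
    have h3 : Tendsto Complex.log (𝓝 1) (𝓝 (Complex.log 1)) :=
      (continuousAt_clog (by simp)).tendsto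
    rw [Complex.log_one] at h3
    exact h3.comp h2

/-- Points in the same connected set missing `K` are log-equivalent. -/
theorem hasLog_of_preconnected {K U : Set ℂ} (hK : IsClosed K) (hU : IsPreconnected U)
    (hd : Disjoint U K) {a b : ℂ} (ha : a ∈ U) (hb : b ∈ U) : HasLog K a b := by
  have hn : ∀ x ∈ U, x ∉ K := fun x hx hxK => Set.disjoint_left.mp hd hx hxK
  refine hU.induction₂ (HasLog K) ?_ ?_ ?_ ha hb
  · intro x hx
    exact mem_nhdsWithin_of_mem_nhds (planeEasy_local hK (hn x hx))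
  · intro x y z _ hy _ h1 h2
    exact planeEasy_trans (hn y hy) h1 h2
  · intro x y _ _ h
    exact planeEasy_symm h

end PHP
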