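import Mathlib
import Pool.Agent.PHP.PlaneDefs

/-!
# Gluing of logarithms and logarithms on rays

PROOF of `HasLog.union`. Let `g`, `g'` be the two logarithms, `W := {z ∈ K ∩ M | g z ≠ g' z}`. On `K ∩ M`,
`exp (g z - g' z) = 1`, so `g z - g' z ∈ 2πiℤ` (`Complex.exp_eq_one_iff`); it is continuous on `K ∩ M`, so
`W` and its complement in `K ∩ M` are relatively open (`W = {‖g - g'‖ > 1}` and the complement is
`{‖g - g'‖ < 1}` in `K ∩ M`). As `g, g' → 0` at infinity, `W` is bounded; it is relatively closed in the closed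
set `K ∩ M`, hence compact. So `W = ∅` by `hW`, `g = g'` on `K ∩ M`, and the function equal to `g` on `K`
and to `g'` on `M \ K` is continuous on `K ∪ M` (`ContinuousOn.union_of_isClosed`-like gluing on closed sets), etc.

PROOF of `hasLog_rays`. `f t = (γ t - a)/(γ t - b)` is continuous `ℝ → ℂ`, without zeros; so `f = exp ∘ h`
with `h : ℝ → ℂ` continuous (`Complex.isCoveringMapOn_exp`, `IsCoveringMapOn.existsUnique_continuousMap_lifts`; `ℝ` simply connected).
As `t → ±∞`, `γ t → ∞` so `f t → 1`; eventually `h t - Complex.log (f t) ∈ 2πiℤ` is continuous, hence constant: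
`h → 2πi k₊` at `+∞` and `h → 2πi k₋` at `-∞`. Define `g (γ t) = h t - 2πi k₋` for `t ≤ p` and
`h t - 2πi k₊` for `t ≥ q` (use `Function.invFun γ` or `γ` closed embedding; `γ` is a closed embedding because it is
injective, continuous and proper: `Topology.IsClosedEmbedding` via `isProperMap_iff_tendsto_cocompact`).
-/

namespace PHP

open Filter Topology Set

private theorem PlaneGlue_const {X : Type*} [TopologicalSpace X] {S : Set X} (hS : IsPreconnected S)
    {k : X → ℂ} (hk : ContinuousOn k S) (he : ∀ t ∈ S, Complex.exp (k t) = 1) :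
    ∀ s ∈ S, ∀ t ∈ S, k s = k t := by
  have hn : ∀ t ∈ S, ∃ n : ℤ, k t = n * (2 * Real.pi * Complex.I) := fun t ht =>
    Complex.exp_eq_one_iff.1 (he t ht)
  have him : ContinuousOn (fun t => (k t).im) S := Complex.continuous_im.comp_continuousOn hk
  have him2 : ∀ (t : X) (n : ℤ), k t = n * (2 * Real.pi * Complex.I) →
      (k t).im = n * (2 * Real.pi) := by
    intro t n h
    rw [h]
    simp
  have key : ∀ s ∈ S, ∀ t ∈ S, ∀ n m : ℤ, k s = n * (2 * Real.pi * Complex.I) →
      k t = m * (2 * Real.pi * Complex.I) → ¬ n < m := by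
    intro s hs t ht n m h1 h2 hlt
    have hpi := Real.pi_pos
    have h3 := hS.intermediate_value hs ht him
    have h4 : (n : ℝ) * (2 * Real.pi) + Real.pi ∈ Icc (k s).im (k t).im := by
      rw [him2 s n h1, him2 t m h2]
      have h5 : (n : ℝ) + 1 ≤ m := by exact_mod_cast hlt
      constructor
      · linarith
      · nlinarith
    obtain ⟨u, hu, hu2⟩ := h3 h4
    obtain ⟨l, hl⟩ := hn u hu
    have h6 := him2 u l hl
    simp only at hu2
    rw [h6] at hu2
    have h7 : (2 * l : ℝ) = 2 * n + 1 := by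
      have : (2 * (l : ℝ)) * Real.pi = (2 * n + 1) * Real.pi := by linarith
      exact mul_right_cancel₀ hpi.ne' this
    have h8 : 2 * l = 2 * n + 1 := by exact_mod_cast h7
    omega
  intro s hs t ht
  obtain ⟨n, h1⟩ := hn s hs
  obtain ⟨m, h2⟩ := hn t ht
  have h3 := key s hs t ht n m h1 h2
  have h4 := key t ht s hs m n h2 h1
  have h5 : n = m := by omega
  rw [h1, h2, h5]

private theorem PlaneGlue_ratio (a b : ℂ) :
    Tendsto (fun z : ℂ => (z - a) / (z - b)) (cocompact ℂ) (𝓝 1) := by
  rw [← Metric.cobounded_eq_cocompact]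
  have h1 : Tendsto (fun z : ℂ => 1 + (b - a) * (z - b)⁻¹) (Bornology.cobounded ℂ) (𝓝 (1 + (b - a) * 0)) :=
    tendsto_const_nhds.add (tendsto_const_nhds.mul
      (tendsto_inv₀_cobounded.comp (tendsto_sub_const_cobounded b)))
  rw [mul_zero, add_zero] at h1
  refine h1.congr' ?_
  have h2 : ∀ᶠ z : ℂ in Bornology.cobounded ℂ, z ≠ b := by
    rw [Metric.cobounded_eq_cocompact]
    exact (isCompact_singleton (x := b)).compl_mem_cocompact
  filter_upwards [h2] with z hz
  have h3 : z - b ≠ 0 := sub_ne_zero.2 hz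
  field_simp
  ring

/-- Gluing of logarithms: if `K ∩ M` has no nonempty compact relatively open subset
(that is, `K ∩ M` together with infinity is connected) then logarithms glue. -/
theorem HasLog.union {K M : Set ℂ} (hK : IsClosed K) (hM : IsClosed M) {a b : ℂ}
    (haK : a ∉ K) (hbK : b ∉ K) (haM : a ∉ M) (hbM : b ∉ M)
    (h1 : HasLog K a b) (h2 : HasLog M a b)
    (hW : ∀ W ⊆ K ∩ M, IsCompact W → (∃ O, IsOpen O ∧ W = O ∩ (K ∩ M)) → W = ∅) :
    HasLog (K ∪ M) a b := by
  classical
  obtain ⟨g, hgc, hge, hgt⟩ := h1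
  obtain ⟨g', hgc', hge', hgt'⟩ := h2
  have hI : IsClosed (K ∩ M) := hK.inter hM
  have hdc : ContinuousOn (fun z => ‖g z - g' z‖) (K ∩ M) :=
    ((hgc.mono inter_subset_left).sub (hgc'.mono inter_subset_right)).norm
  have hbig : ∀ z ∈ K ∩ M, g z ≠ g' z → 1 < ‖g z - g' z‖ := by
    intro z hz hne
    have h3 : Complex.exp (g z - g' z) = 1 := by
      rw [Complex.exp_sub, hge z hz.1, hge' z hz.2, div_self]
      rw [← hge z hz.1]
      exact Complex.exp_ne_zero _
    obtain ⟨n, hn⟩ := Complex.exp_eq_one_iff.1 h3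
    have hn0 : n ≠ 0 := by
      rintro rfl
      apply hne
      simpa [sub_eq_zero] using hn
    have h4 : (1 : ℝ) ≤ |(n : ℝ)| := by
      have := Int.one_le_abs hn0
      exact_mod_cast this
    rw [hn, norm_mul, norm_mul, norm_mul, Complex.norm_intCast, Complex.norm_I]
    have h5 : ‖(2 : ℂ)‖ = 2 := by simp
    have h6 : ‖(Real.pi : ℂ)‖ = Real.pi := by
      rw [Complex.norm_real, Real.norm_of_nonneg Real.pi_pos.le]
    rw [h5, h6]
    have := Real.pi_gt_three
    nlinarith
  set W : Set ℂ := {z ∈ K ∩ M | 1 ≤ ‖g z - g' z‖} with hWdef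
  have hWI : W ⊆ K ∩ M := fun z hz => hz.1
  have hWc : IsClosed W := by
    have := hdc.preimage_isClosed_of_isClosed hI (isClosed_Ici (a := (1 : ℝ)))
    exact this
  have hV : IsClosed {z ∈ K ∩ M | ‖g z - g' z‖ ≤ 1 / 2} := by
    have := hdc.preimage_isClosed_of_isClosed hI (isClosed_Iic (a := (1 / 2 : ℝ)))
    exact this
  have hWo : ∃ O, IsOpen O ∧ W = O ∩ (K ∩ M) := by
    refine ⟨{z ∈ K ∩ M | ‖g z - g' z‖ ≤ 1 / 2}ᶜ, hV.isOpen_compl, ?_⟩
    ext z
    constructor
    · intro hz
      refine ⟨fun hz2 => ?_, hz.1⟩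
      have h3 := hz.2
      have h4 := hz2.2
      linarith
    · rintro ⟨hz1, hz2⟩
      refine ⟨hz2, ?_⟩
      by_contra hc
      apply hz1
      refine ⟨hz2, ?_⟩
      have h5 : g z = g' z := by
        by_contra hne
        exact hc (hbig z hz2 hne).le
      rw [h5, sub_self, norm_zero]
      norm_num
  have hWk : IsCompact W := by
    have ht : Tendsto (fun z => ‖g z - g' z‖) (cocompact ℂ ⊓ 𝓟 (K ∩ M)) (𝓝 0) := by
      have h3 : Tendsto (fun z => g z - g' z) (cocompact ℂ ⊓ 𝓟 (K ∩ M)) (𝓝 (0 - 0)) :=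
        (hgt.mono_left (inf_le_inf_left _ (principal_mono.2 inter_subset_left))).sub
          (hgt'.mono_left (inf_le_inf_left _ (principal_mono.2 inter_subset_right)))
      rw [sub_zero] at h3
      simpa using h3.norm
    have h4 := ht.eventually (gt_mem_nhds (show (0 : ℝ) < 1 by norm_num))
    rw [eventually_inf_principal] at h4
    obtain ⟨C, hC, hCs⟩ := mem_cocompact.1 h4
    refine hC.of_isClosed_subset hWc fun z hz => ?_
    by_contra hzC
    have h5 : ‖g z - g' z‖ < 1 := hCs hzC hz.1
    exact absurd hz.2 (not_le.2 h5)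
  have hW0 := hW W hWI hWk hWo
  have heq : ∀ z ∈ K ∩ M, g z = g' z := by
    intro z hz
    by_contra hne
    have : z ∈ W := ⟨hz, (hbig z hz hne).le⟩
    rw [hW0] at this
    exact this
  have hGK : ∀ z ∈ K, (if z ∈ K then g z else g' z) = g z := fun z hz => if_pos hz
  have hGM : ∀ z ∈ M, (if z ∈ K then g z else g' z) = g' z := by
    intro z hz
    by_cases hzK : z ∈ K
    · rw [if_pos hzK, heq z ⟨hzK, hz⟩]
    · rw [if_neg hzK]
  refine ⟨fun z => if z ∈ K then g z else g' z, ?_, ?_, ?_⟩
  · exact (hgc.congr hGK).union_of_isClosed (hgc'.congr hGM) hK hM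
  · rintro z (hz | hz)
    · simp only [hGK z hz, hge z hz]
    · simp only [hGM z hz, hge' z hz]
  · rw [← sup_principal, inf_sup_left]
    refine Tendsto.sup ?_ ?_
    · refine hgt.congr' ?_
      rw [EventuallyEq, eventually_inf_principal]
      exact Eventually.of_forall fun z hz => (hGK z hz).symm
    · refine hgt'.congr' ?_
      rw [EventuallyEq, eventually_inf_principal]
      exact Eventually.of_forall fun z hz => (hGM z hz).symm

/-- A proper curve with an open arc removed does not separate the plane (logarithmic form). -/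
theorem hasLog_rays {γ : ℝ → ℂ} (hc : Continuous γ) (hi : Function.Injective γ)
    (hp : Tendsto γ (cocompact ℝ) (cocompact ℂ)) {p q : ℝ} (hpq : p < q) {a b : ℂ}
    (ha : a ∉ range γ) (hb : b ∉ range γ) : HasLog (γ '' (Iic p ∪ Ici q)) a b := by
  classical
  have hane : ∀ t, γ t - a ≠ 0 := fun t => sub_ne_zero.2 fun h => ha ⟨t, h⟩
  have hbne : ∀ t, γ t - b ≠ 0 := fun t => sub_ne_zero.2 fun h => hb ⟨t, h⟩
  have hfc : Continuous (fun t => (γ t - a) / (γ t - b)) :=
    (hc.sub continuous_const).div (hc.sub continuous_const) hbne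
  have hf0 : ∀ t, (γ t - a) / (γ t - b) ≠ 0 := fun t => div_ne_zero (hane t) (hbne t)
  -- the lift
  obtain ⟨h, hhc, hhe⟩ : ∃ h : ℝ → ℂ, Continuous h ∧
      ∀ t, Complex.exp (h t) = (γ t - a) / (γ t - b) := by
    rcases Complex.isCoveringMapOn_exp.existsUnique_continuousMap_lifts
      (⟨fun t => (γ t - a) / (γ t - b), hfc⟩ : C(ℝ, ℂ)) (a₀ := 0)
      (Complex.exp_log (hf0 0)) (fun t => hf0 t) with ⟨F, ⟨-, hF⟩, -⟩
    exact ⟨F, F.continuous, fun t => congrFun hF t⟩
  -- the ends
  have hft : Tendsto (fun t => (γ t - a) / (γ t - b)) (cocompact ℝ) (𝓝 1) :=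
    (PlaneGlue_ratio a b).comp hp
  have hslit : ∀ᶠ w in 𝓝 (1 : ℂ), w ∈ Complex.slitPlane :=
    Complex.isOpen_slitPlane.mem_nhds Complex.one_mem_slitPlane
  have hlogc : ∀ t, (γ t - a) / (γ t - b) ∈ Complex.slitPlane →
      ContinuousAt (fun t => h t - Complex.log ((γ t - a) / (γ t - b))) t := by
    intro t ht
    exact hhc.continuousAt.sub (hfc.continuousAt.clog ht)
  have hk1 : ∀ t, Complex.exp (h t - Complex.log ((γ t - a) / (γ t - b))) = 1 := by
    intro t
    rw [Complex.exp_sub, hhe, Complex.exp_log (hf0 t), div_self (hf0 t)]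
  have hlog0 : Tendsto (fun t => Complex.log ((γ t - a) / (γ t - b))) (cocompact ℝ) (𝓝 0) := by
    have h3 : Tendsto Complex.log (𝓝 1) (𝓝 (Complex.log 1)) :=
      (continuousAt_clog Complex.one_mem_slitPlane)
    rw [Complex.log_one] at h3
    exact h3.comp hft
  have hev : ∀ᶠ t in cocompact ℝ, (γ t - a) / (γ t - b) ∈ Complex.slitPlane :=
    hft.eventually hslit
  have hco : cocompact ℝ = atBot ⊔ atTop := cocompact_eq_atBot_atTop
  rw [hco] at hev hlog0
  obtain ⟨T1, hT1⟩ := eventually_atBot.1 (hev.filter_mono le_sup_left)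
  obtain ⟨T2, hT2⟩ := eventually_atTop.1 (hev.filter_mono le_sup_right)
  have hc1 : ∀ t ≤ T1, h t - Complex.log ((γ t - a) / (γ t - b)) =
      h T1 - Complex.log ((γ T1 - a) / (γ T1 - b)) := fun t ht =>
    PlaneGlue_const isPreconnected_Iic
      (fun s hs => (hlogc s (hT1 s hs)).continuousWithinAt) (fun s _ => hk1 s) t ht T1
      (le_refl T1)
  have hc2 : ∀ t ≥ T2, h t - Complex.log ((γ t - a) / (γ t - b)) =
      h T2 - Complex.log ((γ T2 - a) / (γ T2 - b)) := fun t ht =>
    PlaneGlue_const isPreconnected_Ici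
      (fun s hs => (hlogc s (hT2 s hs)).continuousWithinAt) (fun s _ => hk1 s) t ht T2
      (le_refl T2)
  set c1 := h T1 - Complex.log ((γ T1 - a) / (γ T1 - b)) with hc1def
  set c2 := h T2 - Complex.log ((γ T2 - a) / (γ T2 - b)) with hc2def
  have hec1 : Complex.exp c1 = 1 := hk1 T1
  have hec2 : Complex.exp c2 = 1 := hk1 T2
  -- the function on the line
  set hh : ℝ → ℂ := fun t => if t ≤ p then h t - c1 else h t - c2 with hhdef
  have hhcont : ContinuousOn hh (Iic p ∪ Ici q) := by
    refine ContinuousOn.union_of_isClosed ?_ ?_ isClosed_Iic isClosed_Ici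
    · refine (hhc.sub continuous_const : Continuous fun t => h t - c1).continuousOn.congr ?_
      intro t ht
      exact if_pos ht
    · refine (hhc.sub continuous_const : Continuous fun t => h t - c2).continuousOn.congr ?_
      intro t ht
      exact if_neg (not_le.2 (lt_of_lt_of_le hpq ht))
  have hhexp : ∀ t, Complex.exp (hh t) = (γ t - a) / (γ t - b) := by
    intro t
    simp only [hhdef]
    split_ifs
    · rw [Complex.exp_sub, hhe, hec1, div_one]
    · rw [Complex.exp_sub, hhe, hec2, div_one]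
  have hht : Tendsto hh (cocompact ℝ) (𝓝 0) := by
    rw [hco]
    refine Tendsto.sup ?_ ?_
    · refine (hlog0.mono_left le_sup_left).congr' ?_
      filter_upwards [eventually_le_atBot p, eventually_le_atBot T1] with t ht1 ht2
      have h4 := hc1 t ht2
      simp only [hhdef, if_pos ht1]
      rw [← h4]
      ring
    · refine (hlog0.mono_left le_sup_right).congr' ?_
      filter_upwards [eventually_gt_atTop p, eventually_ge_atTop T2] with t ht1 ht2
      have h4 := hc2 t ht2
      simp only [hhdef, if_neg (not_le.2 ht1)]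
      rw [← h4]
      ring
  -- the inverse of `γ`
  have hemb : IsClosedEmbedding γ := by
    have hprop : IsProperMap γ := isProperMap_iff_tendsto_cocompact.2 ⟨hc, hp⟩
    exact IsClosedEmbedding.of_continuous_injective_isClosedMap hc hi hprop.isClosedMap
  have hinv : ∀ t, Function.invFun γ (γ t) = t := Function.leftInverse_invFun hi
  have hinvc : ContinuousOn (Function.invFun γ) (range γ) := by
    rw [continuousOn_iff_continuous_domRestrict]
    have h5 : (range γ).domRestrict (Function.invFun γ) = hemb.isEmbedding.toHomeomorph.symm := by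
      funext z
      obtain ⟨z, t, rfl⟩ := z
      have h6 : hemb.isEmbedding.toHomeomorph.symm ⟨γ t, t, rfl⟩ = t := by
        rw [Homeomorph.symm_apply_eq]
        rfl
      rw [h6]
      exact hinv t
    rw [h5]
    exact Homeomorph.continuous _
  have hinvt : Tendsto (Function.invFun γ) (cocompact ℂ ⊓ 𝓟 (range γ)) (cocompact ℝ) := by
    intro s hs
    obtain ⟨C, hC, hCs⟩ := mem_cocompact.1 hs
    rw [mem_map, mem_inf_principal]
    refine mem_of_superset (hC.image hc).compl_mem_cocompact ?_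
    rintro z hz ⟨t, rfl⟩
    rw [mem_preimage, hinv]
    exact hCs fun htC => hz ⟨t, htC, rfl⟩
  have hsub : γ '' (Iic p ∪ Ici q) ⊆ range γ := image_subset_range _ _
  refine ⟨hh ∘ Function.invFun γ, ?_, ?_, ?_⟩
  · refine hhcont.comp (hinvc.mono hsub) ?_
    rintro z ⟨t, ht, rfl⟩
    rw [hinv]
    exact ht
  · rintro z ⟨t, ht, rfl⟩
    rw [Function.comp_apply, hinv]
    exact hhexp t
  · exact hht.comp (hinvt.mono_left (inf_le_inf_left _ (principal_mono.2 hsub)))

end PHP
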