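import Mathlib
import Pool.Agent.PHP.PlaneDefs

/-!
# Eilenberg's criterion, hard half

PROOF. Suppose `b` is not in `U := connectedComponentIn Kᶜ a`. `U` is open (locally connected
space, `Kᶜ` open), `a ∈ U`, and `closure U ⊆ U ∪ K` (a point of `closure U` in `Kᶜ` lies in `U`).
Let `g` be the logarithm on `K`.
(1) TIETZE. There is a continuous `G : ℂ → ℂ` with `G = g` on `K` and `G → 0` at infinity
(`Tendsto G (cocompact ℂ) (𝓝 0)`): extend `g` by `0` at infinity to a continuous function on the closed set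
`K ∪ {∞}` of `OnePoint ℂ` (compact Hausdorff, hence normal) and use Tietze
(`ContinuousMap.exists_restrict_eq` / `ContinuousMap.exists_extension` or similar; `ℂ` is a `TietzeExtension`).
Alternative without `OnePoint`: apply Tietze to get any continuous extension `G₀` and multiply by a cutoff
which is `1` on `K` and small off `K`... (the OnePoint way is cleaner; another way: only the values of `G` on the set `U ∪ K` matter).
(2) Put `Φ z = (z - b) * exp (G z)` for `z ∈ U ∪ K` and `Φ z = z - a` for `z ∉ U`. On `K` both formulas agree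
(`exp (g z) = (z-a)/(z-b)`). `U ∪ K` is closed (`closure U ⊆ U ∪ K`), `Uᶜ` is closed, so `Φ` is continuous on `ℂ`;
`Φ` has no zero (`b ∉ U ∪ K`, `a ∈ U`).
(3) Hence `Φ = exp ∘ H` with `H : ℂ → ℂ` continuous
(`Complex.isCoveringMapOn_exp` and `IsCoveringMapOn.existsUnique_continuousMap_lifts`, `ℂ` simply connected,
see `Mathlib/Analysis/Complex/CoveringMap.lean`, `Mathlib/Topology/Homotopy/Lifting.lean`).
(4) `Φ z / z → 1` as `z → ∞` (both formulas; `G → 0`). Choose `R > 0` with `‖Φ z / z - 1‖ < 1` for `‖z‖ = R`. For `θ ∈ [0, 2π]`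
put `k θ = H (R e^{iθ}) - log R - i θ - Complex.log (Φ z / z)` (`z = R e^{iθ}`): continuous with values in `2πiℤ`
(`exp (k θ) = 1`), so constant on `[0, 2π]` (or on all of ℝ); but `k 0 - k (2π) = 2πi ≠ 0`. Contradiction.
-/

namespace PHP

open Filter Topology Set

/-- Tietze extension with decay at infinity -/
private theorem PlaneHard_tietze {K : Set ℂ} (hK : IsClosed K) {g : ℂ → ℂ}
    (hg : ContinuousOn g K) (h0 : Tendsto g (cocompact ℂ ⊓ 𝓟 K) (𝓝 0)) :
    ∃ G : ℂ → ℂ, Continuous G ∧ (∀ z ∈ K, G z = g z) ∧ Tendsto G (cocompact ℂ) (𝓝 0) := by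
  classical
  set K' : Set (OnePoint ℂ) := insert OnePoint.infty ((fun z : ℂ => (z : OnePoint ℂ)) '' K)
    with hK'
  have hpre : (fun z : ℂ => (z : OnePoint ℂ)) ⁻¹' K' = K := by
    ext z
    simp only [hK', mem_preimage, mem_insert_iff, mem_image]
    constructor
    · rintro (h | ⟨w, hw, h⟩)
      · exact absurd h (OnePoint.coe_ne_infty z)
      · rw [OnePoint.coe_eq_coe] at h
        rw [← h]; exact hw
    · intro h
      exact Or.inr ⟨z, h, rfl⟩
  have hcl : IsClosed K' := by
    rw [OnePoint.isClosed_iff_of_mem (mem_insert _ _)]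
    have : ((↑) : ℂ → OnePoint ℂ) ⁻¹' K' = K := hpre
    rw [this]
    exact hK
  set F : OnePoint ℂ → ℂ := fun x => OnePoint.elim x (0 : ℂ) g with hF
  have hFz : ∀ z : ℂ, F (z : OnePoint ℂ) = g z := fun z => rfl
  have hFi : F OnePoint.infty = 0 := rfl
  have hFc : ContinuousOn F K' := by
    intro x hx
    induction x using OnePoint.rec with
    | infty =>
      unfold ContinuousWithinAt
      rw [hFi]
      rw [nhdsWithin, OnePoint.nhds_infty_eq, coclosedCompact_eq_cocompact, inf_sup_right,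
        tendsto_sup]
      constructor
      · intro s hs
        have h1 := h0 hs
        rw [mem_map, mem_inf_principal] at h1
        rw [mem_map, mem_inf_principal, mem_map]
        filter_upwards [h1] with z hz hzK
        show F (z : OnePoint ℂ) ∈ s
        rw [hFz]
        apply hz
        have : z ∈ (fun z : ℂ => (z : OnePoint ℂ)) ⁻¹' K' := hzK
        rw [hpre] at this
        exact this
      · refine Tendsto.mono_left ?_ inf_le_left
        intro s hs
        rw [mem_map]
        show F OnePoint.infty ∈ s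
        rw [hFi]
        exact mem_of_mem_nhds hs
    | coe z =>
      unfold ContinuousWithinAt
      rw [OnePoint.nhdsWithin_coe, tendsto_map'_iff]
      have h1 : ((↑) : ℂ → OnePoint ℂ) ⁻¹' K' = K := hpre
      rw [h1]
      have hz : z ∈ K := by
        have : z ∈ (fun z : ℂ => (z : OnePoint ℂ)) ⁻¹' K' := hx
        rw [hpre] at this
        exact this
      exact hg z hz
  obtain ⟨G, hG⟩ := ContinuousMap.exists_restrict_eq hcl
    (⟨K'.domRestrict F, continuousOn_iff_continuous_domRestrict.mp hFc⟩ : C(K', ℂ))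
  have hGe : ∀ x (hx : x ∈ K'), G x = F x := by
    intro x hx
    have := DFunLike.congr_fun hG ⟨x, hx⟩
    exact this
  refine ⟨fun z => G (z : OnePoint ℂ), G.continuous.comp OnePoint.continuous_coe, ?_, ?_⟩
  · intro z hz
    rw [← hFz]
    exact hGe _ (Or.inr ⟨z, hz, rfl⟩)
  · have h2 : Tendsto G (𝓝 (OnePoint.infty : OnePoint ℂ)) (𝓝 (G OnePoint.infty)) :=
      G.continuous.tendsto _
    rw [hGe OnePoint.infty (mem_insert _ _), hFi, OnePoint.tendsto_nhds_infty',
      coclosedCompact_eq_cocompact] at h2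
    exact h2.2

private theorem PlaneHard_closure {K : Set ℂ} (hK : IsClosed K) {a : ℂ} :
    closure (connectedComponentIn Kᶜ a) ⊆ connectedComponentIn Kᶜ a ∪ K := by
  intro z hz
  by_cases hzK : z ∈ K
  · exact Or.inr hzK
  left
  have ho : IsOpen (connectedComponentIn Kᶜ z) := hK.isOpen_compl.connectedComponentIn
  have hzm : z ∈ connectedComponentIn Kᶜ z := mem_connectedComponentIn hzK
  obtain ⟨w, hw1, hw2⟩ := mem_closure_iff.mp hz _ ho hzm
  have e1 := connectedComponentIn_eq hw1
  have e2 := connectedComponentIn_eq hw2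
  rw [e2, ← e1]
  exact hzm

private theorem PlaneHard_lift (Φ : ℂ → ℂ) (hΦ : Continuous Φ) (h0 : ∀ z, Φ z ≠ 0) :
    ∃ H : ℂ → ℂ, Continuous H ∧ ∀ z, Complex.exp (H z) = Φ z := by
  obtain ⟨F, ⟨_, hF⟩, _⟩ := Complex.isCoveringMapOn_exp.existsUnique_continuousMap_lifts
    (⟨Φ, hΦ⟩ : C(ℂ, ℂ)) (a₀ := 0) (e₀ := Complex.log (Φ 0))
    (Complex.exp_log (h0 0)) (fun z => h0 z)
  exact ⟨F, F.continuous, fun z => congrFun hF z⟩

/-- no continuous nonvanishing function on the plane looks like `z` at a big circle -/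
private theorem PlaneHard_wind (Φ : ℂ → ℂ) (hΦ : Continuous Φ) (h0 : ∀ z, Φ z ≠ 0) {R : ℝ}
    (hR : 0 < R) (hw : ∀ z : ℂ, ‖z‖ = R → ‖Φ z / z - 1‖ < 1) : False := by
  obtain ⟨H, hH, hHe⟩ := PlaneHard_lift Φ hΦ h0
  set c : ℝ → ℂ := fun θ => R * Complex.exp (θ * Complex.I) with hc
  have hcc : Continuous c := by rw [hc]; fun_prop
  have hcn : ∀ θ, ‖c θ‖ = R := by
    intro θ
    simp only [hc, norm_mul, Complex.norm_exp_ofReal_mul_I, mul_one, Complex.norm_real,
      Real.norm_eq_abs, abs_of_pos hR]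
  have hc0 : ∀ θ, c θ ≠ 0 := by
    intro θ h
    have := hcn θ
    rw [h, norm_zero] at this
    exact hR.ne this
  have hslit : ∀ θ, Φ (c θ) / c θ ∈ Complex.slitPlane := by
    intro θ
    have h1 := Complex.mem_slitPlane_of_norm_lt_one (hw _ (hcn θ))
    rwa [add_sub_cancel] at h1
  set g1 : ℝ → ℂ := fun θ => H (c θ) with hg1
  set g0 : ℝ → ℂ := fun θ => Real.log R + θ * Complex.I + Complex.log (Φ (c θ) / c θ) with hg0
  have hg1c : Continuous g1 := hH.comp hcc
  have hg0c : Continuous g0 := by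
    have h1 : Continuous (fun θ : ℝ => Φ (c θ) / c θ) := (hΦ.comp hcc).div hcc hc0
    have h2 : Continuous (fun θ : ℝ => Complex.log (Φ (c θ) / c θ)) := h1.clog hslit
    rw [hg0]
    exact (continuous_const.add (Complex.continuous_ofReal.mul continuous_const)).add h2
  have he1 : ∀ θ, Complex.exp (g1 θ) = Φ (c θ) := fun θ => hHe _
  have he0 : ∀ θ, Complex.exp (g0 θ) = Φ (c θ) := by
    intro θ
    simp only [hg0, Complex.exp_add]
    rw [Complex.exp_log (Complex.slitPlane_ne_zero (hslit θ)), ← Complex.ofReal_exp,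
      Real.exp_log hR]
    have : (R : ℂ) * Complex.exp (θ * Complex.I) = c θ := rfl
    rw [this, mul_div_cancel₀ _ (hc0 θ)]
  set d : ℂ := g1 0 - g0 0 with hd
  have hed : Complex.exp d = 1 := by
    rw [hd, Complex.exp_sub, he1, he0, div_self (h0 _)]
  have hkey : g1 = fun θ => g0 θ + d := by
    apply Complex.isCoveringMap_exp.eq_of_comp_eq hg1c (hg0c.add continuous_const) _ 0
    · show g1 0 = g0 0 + d
      rw [hd]; ring
    · funext θ
      apply Subtype.ext
      show Complex.exp (g1 θ) = Complex.exp (g0 θ + d)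
      rw [Complex.exp_add, hed, mul_one, he1, he0]
  have h2π : c (2 * Real.pi) = c 0 := by
    simp only [hc]
    push_cast
    rw [Complex.exp_two_pi_mul_I]
    simp
  have e1 : g1 (2 * Real.pi) = g1 0 := by simp only [hg1, h2π]
  have e0 : g0 (2 * Real.pi) = g0 0 + 2 * Real.pi * Complex.I := by
    simp only [hg0, h2π]
    push_cast
    ring
  have e2 : g1 (2 * Real.pi) = g0 (2 * Real.pi) + d := congrFun hkey _
  have e3 : g1 0 = g0 0 + d := congrFun hkey _
  rw [e1, e0, e3] at e2
  have : (2 * Real.pi * Complex.I : ℂ) = 0 := by linear_combination -e2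
  simp [Real.pi_ne_zero] at this

/-- Eilenberg's criterion, hard half. -/
theorem mem_component_of_hasLog {K : Set ℂ} (hK : IsClosed K) {a b : ℂ} (ha : a ∉ K) (hb : b ∉ K)
    (h : HasLog K a b) : b ∈ connectedComponentIn Kᶜ a := by
  classical
  by_contra hbU
  obtain ⟨g, hg, hge, hg0⟩ := h
  obtain ⟨G, hG, hGK, hG0⟩ := PlaneHard_tietze hK hg hg0
  set U := connectedComponentIn Kᶜ a with hU
  have hUo : IsOpen U := hK.isOpen_compl.connectedComponentIn
  have haU : a ∈ U := mem_connectedComponentIn ha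
  have hcl : closure U ⊆ U ∪ K := PlaneHard_closure hK
  set f1 : ℂ → ℂ := fun z => (z - b) * Complex.exp (G z) with hf1
  set f2 : ℂ → ℂ := fun z => z - a with hf2
  have hc1 : Continuous f1 := by rw [hf1]; fun_prop
  have hc2 : Continuous f2 := by rw [hf2]; fun_prop
  have hfr : ∀ z ∈ frontier U, f1 z = f2 z := by
    intro z hz
    rw [hUo.frontier_eq] at hz
    have hzK : z ∈ K := by
      rcases hcl hz.1 with h | h
      · exact absurd h hz.2
      · exact h
    have hzb : z - b ≠ 0 := by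
      intro h
      rw [sub_eq_zero] at h
      exact hb (h ▸ hzK)
    simp only [hf1, hf2]
    rw [hGK z hzK, hge z hzK]
    field_simp
  have hΦ : Continuous (U.piecewise f1 f2) := hc1.piecewise hfr hc2
  have hΦ0 : ∀ z, U.piecewise f1 f2 z ≠ 0 := by
    intro z
    by_cases hz : z ∈ U
    · rw [piecewise_eq_of_mem _ _ _ hz]
      apply mul_ne_zero _ (Complex.exp_ne_zero _)
      intro h
      rw [sub_eq_zero] at h
      exact hbU (h ▸ hz)
    · rw [piecewise_eq_of_notMem _ _ _ hz]
      intro h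
      simp only [hf2] at h
      rw [sub_eq_zero] at h
      exact hz (h ▸ haU)
  have hinv : Tendsto (fun z : ℂ => z⁻¹) (cocompact ℂ) (𝓝 0) := by
    rw [← Metric.cobounded_eq_cocompact]; exact tendsto_inv₀_cobounded
  have t1 : Tendsto (fun z : ℂ => (1 - b * z⁻¹) * Complex.exp (G z)) (cocompact ℂ) (𝓝 1) := by
    have h1 : Tendsto (fun z : ℂ => 1 - b * z⁻¹) (cocompact ℂ) (𝓝 (1 - b * 0)) :=
      tendsto_const_nhds.sub (tendsto_const_nhds.mul hinv)
    have h2 : Tendsto (fun z : ℂ => Complex.exp (G z)) (cocompact ℂ) (𝓝 (Complex.exp 0)) :=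
      (Complex.continuous_exp.tendsto 0).comp hG0
    have h3 := h1.mul h2
    simpa using h3
  have t2 : Tendsto (fun z : ℂ => 1 - a * z⁻¹) (cocompact ℂ) (𝓝 1) := by
    have h1 : Tendsto (fun z : ℂ => 1 - a * z⁻¹) (cocompact ℂ) (𝓝 (1 - a * 0)) :=
      tendsto_const_nhds.sub (tendsto_const_nhds.mul hinv)
    simpa using h1
  have hball : Metric.ball (1 : ℂ) 1 ∈ 𝓝 (1 : ℂ) := Metric.ball_mem_nhds _ one_pos
  have hev := (t1.eventually_mem hball).and (t2.eventually_mem hball)
  rw [← Metric.cobounded_eq_cocompact, hasBasis_cobounded_norm.eventually_iff] at hev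
  obtain ⟨r, _, hr⟩ := hev
  have hRpos : 0 < max r 1 := lt_max_of_lt_right one_pos
  refine PlaneHard_wind _ hΦ hΦ0 hRpos (fun z hz => ?_)
  have hz0 : z ≠ 0 := by
    intro h
    rw [h, norm_zero] at hz
    exact hRpos.ne hz
  have hzr : r ≤ ‖z‖ := by rw [hz]; exact le_max_left _ _
  obtain ⟨b1, b2⟩ := hr hzr
  rw [Metric.mem_ball, Complex.dist_eq] at b1 b2
  by_cases hzU : z ∈ U
  · rw [piecewise_eq_of_mem _ _ _ hzU]
    have : f1 z / z = (1 - b * z⁻¹) * Complex.exp (G z) := by
      simp only [hf1]; field_simp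
    rw [this]; exact b1
  · rw [piecewise_eq_of_notMem _ _ _ hzU]
    have : f2 z / z = 1 - a * z⁻¹ := by
      simp only [hf2]; field_simp
    rw [this]; exact b2

end PHP
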