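import Mathlib
import Pool.Agent.PHP.LineDefs
import Pool.Agent.PHP.PlaneEasy
import Pool.Agent.PHP.PlaneHard
import Pool.Agent.PHP.PlaneGlue

/-!
# Topological lines: closedness, common boundary, connected sectors

PROOFS. `isClosed_image`: `γ` is a closed map (continuous, proper).

`mem_closure_side`. Suppose `p = γ t₀ ∉ closure (side b)`. By continuity there is an open interval `(t₀-ε, t₀+ε)` with
`γ '' Ioo ∩ closure (side b) = ∅`. Put `K = γ '' (Iic (t₀-ε) ∪ Ici (t₀+ε))`, closed. Choose
`x ∈ side b`, `y ∈ side (!b)` (neither is on the curve). `hasLog_rays` and `mem_component_of_hasLog` give that `x`, `y` lie in one connected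
set `Q = connectedComponentIn Kᶜ x ⊆ Kᶜ = side b ∪ side (!b) ∪ γ '' Ioo`. But `Q ∩ side b` and `Q \ closure (side b)` are
both open in `Q`, nonempty, disjoint and cover `Q` (`closure (side b) ∩ Kᶜ ⊆ side b`, as `closure (side b)` misses
`side (!b)` (open, disjoint) and misses `γ '' Ioo`). Contradiction.

`sector_preconnected`. Let `U = L.side a`, `V = M.side b`, `K = Uᶜ`, `K' = Vᶜ` (closed). For `x, y ∈ U ∩ V`:
`HasLog K x y` and `HasLog K' x y` by `hasLog_of_preconnected` (`U`, `V` connected). `HasLog (K ∪ K') x y` by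
`HasLog.union`, and then `mem_component_of_hasLog` gives `y ∈ connectedComponentIn (U ∩ V) x`; so `U ∩ V` is preconnected
(`isPreconnected_of_forall_pair` or similar). Condition `hW`: let `W ⊆ K ∩ K'` be compact, `W = O ∩ (K ∩ K')`, `O` open.
(i) `W` misses the curve `range L.γ`: `{u | L.γ u ∈ K'}` is `Iic s` or `Ici s` (crossing; the point `L.γ s` is on `M`), a ray; the set
`{u ∈ ray | L.γ u ∈ W}` is relatively open and relatively closed in the ray (connected), and bounded (`W` compact, `L` proper), so it is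
not the whole ray and hence empty. (ii) the same for `M`. (iii) So `W ⊆ L.side (!a) ∩ M.side (!b)` and then
`W = O ∩ L.side (!a) ∩ M.side (!b)` is open; it is also compact (closed), so `W = ∅` or `W = univ`; `univ` is not compact.
-/

namespace PHP

open Filter Topology Set

private theorem lines_proper (L : TLine) : IsProperMap L.γ :=
  isProperMap_iff_tendsto_cocompact.mpr ⟨L.cont, L.proper⟩

theorem TLine.isClosed_image (L : TLine) {A : Set ℝ} (hA : IsClosed A) : IsClosed (L.γ '' A) :=
  (lines_proper L).isClosedMap A hA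

private theorem lines_not_side (L : TLine) (u : ℝ) (a : Bool) : L.γ u ∉ L.side a := by
  intro h
  have h1 : L.γ u ∈ (range L.γ)ᶜ := by
    rw [← L.side_union]
    cases a
    · exact Or.inr h
    · exact Or.inl h
  exact h1 (mem_range_self u)

private theorem lines_disj (L : TLine) (a : Bool) : Disjoint (L.side a) (L.side (!a)) := by
  cases a
  · exact L.side_disj.symm
  · exact L.side_disj

private theorem lines_cases (L : TLine) (a : Bool) {z : ℂ} (h1 : z ∉ L.side a)
    (h2 : z ∉ range L.γ) : z ∈ L.side (!a) := by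
  have h3 : z ∈ L.side true ∪ L.side false := by
    rw [L.side_union]; exact h2
  cases a
  · rcases h3 with h | h
    · exact h
    · exact absurd h h1
  · rcases h3 with h | h
    · exact absurd h h1
    · exact h

/-- Every point of the curve is in the closure of both sides. -/
theorem TLine.mem_closure_side (L : TLine) (t : ℝ) (b : Bool) : L.γ t ∈ closure (L.side b) := by
  by_contra hcon
  have hopen : IsOpen (L.γ ⁻¹' (closure (L.side b))ᶜ) :=
    isClosed_closure.isOpen_compl.preimage L.cont
  obtain ⟨ε, hε, hball⟩ := Metric.isOpen_iff.mp hopen t hcon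
  have hK : IsClosed (L.γ '' (Iic (t - ε) ∪ Ici (t + ε))) :=
    L.isClosed_image (isClosed_Iic.union isClosed_Ici)
  obtain ⟨x, hx⟩ := (L.side_conn b).nonempty
  obtain ⟨y, hy⟩ := (L.side_conn (!b)).nonempty
  have hnr : ∀ z (a : Bool), z ∈ L.side a → z ∉ range L.γ := by
    rintro z a hz ⟨u, rfl⟩
    exact lines_not_side L u a hz
  have hlog := hasLog_rays L.cont L.inj L.proper (p := t - ε) (q := t + ε) (by linarith)
    (hnr x b hx) (hnr y _ hy)
  have hxK : x ∉ L.γ '' (Iic (t - ε) ∪ Ici (t + ε)) :=
    fun h => hnr x b hx (image_subset_range _ _ h)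
  have hyK : y ∉ L.γ '' (Iic (t - ε) ∪ Ici (t + ε)) :=
    fun h => hnr y _ hy (image_subset_range _ _ h)
  have hyQ := mem_component_of_hasLog hK hxK hyK hlog
  have hxQ : x ∈ connectedComponentIn (L.γ '' (Iic (t - ε) ∪ Ici (t + ε)))ᶜ x :=
    mem_connectedComponentIn hxK
  have hpre : IsPreconnected (connectedComponentIn (L.γ '' (Iic (t - ε) ∪ Ici (t + ε)))ᶜ x) :=
    isPreconnected_connectedComponentIn
  have hdisj : ∀ z ∈ L.side (!b), z ∉ closure (L.side b) := by
    intro z hz hz2
    have h1 := (lines_disj L b).closure_left (L.side_open (!b))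
    exact Set.disjoint_left.mp h1 hz2 hz
  have hcover : connectedComponentIn (L.γ '' (Iic (t - ε) ∪ Ici (t + ε)))ᶜ x ⊆
      L.side b ∪ (closure (L.side b))ᶜ := by
    intro z hz
    have hzK := connectedComponentIn_subset _ _ hz
    by_cases h1 : z ∈ range L.γ
    · right
      obtain ⟨u, rfl⟩ := h1
      apply hball
      rw [Metric.mem_ball, Real.dist_eq, abs_lt]
      constructor
      · by_contra hcon2
        push Not at hcon2
        exact hzK ⟨u, Or.inl (by rw [mem_Iic]; linarith), rfl⟩
      · by_contra hcon2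
        push Not at hcon2
        exact hzK ⟨u, Or.inr (by rw [mem_Ici]; linarith), rfl⟩
    · by_cases h2 : z ∈ L.side b
      · exact Or.inl h2
      · exact Or.inr (hdisj z (lines_cases L b h2 h1))
  obtain ⟨z, -, hz1, hz2⟩ := hpre (L.side b) (closure (L.side b))ᶜ (L.side_open b)
    isClosed_closure.isOpen_compl hcover ⟨x, hxQ, hx⟩ ⟨y, hyQ, hdisj y hy⟩
  exact hz2 (subset_closure hz1)

private theorem lines_ray (L : TLine) {R : Set ℝ} (hR : IsPreconnected R) (hRc : IsClosed R)
    (hRn : ¬ IsCompact R) {C W O : Set ℂ} (hC : ∀ u, L.γ u ∈ C ↔ u ∈ R) (hW : IsCompact W)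
    (hO : IsOpen O) (hWO : W = O ∩ C) (u : ℝ) : L.γ u ∉ W := by
  intro hu
  have huR : u ∈ R := by
    rw [hWO] at hu
    exact (hC u).mp hu.2
  have hcomp : IsCompact (L.γ ⁻¹' W) := (lines_proper L).isCompact_preimage hW
  by_cases hsub : R ⊆ L.γ ⁻¹' W
  · exact hRn (hcomp.of_isClosed_subset hRc hsub)
  · obtain ⟨v, hvR, hvW⟩ := Set.not_subset.mp hsub
    have huO : L.γ u ∈ O := by
      rw [hWO] at hu
      exact hu.1
    have hcover : R ⊆ L.γ ⁻¹' O ∪ (L.γ ⁻¹' W)ᶜ := by
      intro z hz
      by_cases h1 : L.γ z ∈ W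
      · left
        show L.γ z ∈ O
        rw [hWO] at h1
        exact h1.1
      · right
        exact h1
    obtain ⟨w, hwR, hwO, hwW⟩ := hR (L.γ ⁻¹' O) (L.γ ⁻¹' W)ᶜ (hO.preimage L.cont)
      hcomp.isClosed.isOpen_compl hcover ⟨u, huR, huO⟩ ⟨v, hvR, hvW⟩
    apply hwW
    show L.γ w ∈ W
    rw [hWO]
    exact ⟨hwO, (hC w).mpr hwR⟩

private theorem lines_not_compact_Iic (s : ℝ) : ¬ IsCompact (Iic s) := by
  intro h
  obtain ⟨x, hx⟩ := h.bddBelow
  have h1 : min x s - 1 ∈ Iic s := by
    rw [mem_Iic]; linarith [min_le_right x s]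
  have := hx h1
  linarith [min_le_left x s]

private theorem lines_not_compact_Ici (s : ℝ) : ¬ IsCompact (Ici s) := by
  intro h
  obtain ⟨x, hx⟩ := h.bddAbove
  have h1 : max x s + 1 ∈ Ici s := by
    rw [mem_Ici]; linarith [le_max_right x s]
  have := hx h1
  linarith [le_max_left x s]

/-- the curve `L` misses `W`. -/
private theorem lines_miss (L M : TLine) {s t : ℝ} (hst : L.γ s = M.γ t)
    (hc : ∃ c, (∀ u < s, L.γ u ∈ M.side (!c)) ∧ (∀ u > s, L.γ u ∈ M.side c)) (b : Bool)
    {C W O : Set ℂ} (hC : ∀ u, L.γ u ∈ C ↔ L.γ u ∉ M.side b) (hW : IsCompact W)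
    (hO : IsOpen O) (hWO : W = O ∩ C) (u : ℝ) : L.γ u ∉ W := by
  obtain ⟨c, h1, h2⟩ := hc
  have hs : L.γ s ∉ M.side b := by
    rw [hst]; exact lines_not_side M t b
  by_cases hcb : c = b
  · subst hcb
    refine lines_ray L (R := Iic s) isPreconnected_Iic isClosed_Iic (lines_not_compact_Iic s)
      (C := C) ?_ hW hO hWO u
    intro v
    rw [hC, mem_Iic]
    constructor
    · intro hv
      by_contra hcon
      push Not at hcon
      exact hv (h2 v hcon)
    · intro hv hv2
      rcases lt_or_eq_of_le hv with h | h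
      · exact Set.disjoint_left.mp (lines_disj M c) hv2 (h1 v h)
      · rw [h] at hv2
        exact hs hv2
  · have hcb' : (!c) = b := by
      cases c <;> cases b <;> simp_all
    subst hcb'
    refine lines_ray L (R := Ici s) isPreconnected_Ici isClosed_Ici (lines_not_compact_Ici s)
      (C := C) ?_ hW hO hWO u
    intro v
    rw [hC, mem_Ici]
    constructor
    · intro hv
      by_contra hcon
      push Not at hcon
      exact hv (h1 v hcon)
    · intro hv hv2
      rcases lt_or_eq_of_le hv with h | h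
      · exact Set.disjoint_left.mp (lines_disj M c) (h2 v h) hv2
      · rw [← h] at hv2
        exact hs hv2

/-- The four sectors of two crossing curves are connected. -/
theorem TLine.sector_preconnected (L M : TLine) {s t : ℝ} (h : L.Crosses M s t) (a b : Bool) :
    IsPreconnected (L.side a ∩ M.side b) := by
  obtain ⟨hst, -, hLM, hML⟩ := h
  apply isPreconnected_of_forall_pair
  intro x hx y hy
  have hK : IsClosed (L.side a)ᶜ := (L.side_open a).isClosed_compl
  have hK' : IsClosed (M.side b)ᶜ := (M.side_open b).isClosed_compl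
  have h1 : HasLog (L.side a)ᶜ x y :=
    hasLog_of_preconnected hK (L.side_conn a).isPreconnected disjoint_compl_right hx.1 hy.1
  have h2 : HasLog (M.side b)ᶜ x y :=
    hasLog_of_preconnected hK' (M.side_conn b).isPreconnected disjoint_compl_right hx.2 hy.2
  have h3 : HasLog ((L.side a)ᶜ ∪ (M.side b)ᶜ) x y := by
    refine HasLog.union hK hK' (fun h => h hx.1) (fun h => h hy.1) (fun h => h hx.2)
      (fun h => h hy.2) h1 h2 ?_
    rintro W hWsub hW ⟨O, hO, hWO⟩
    have hm1 : ∀ u, L.γ u ∉ W := by
      refine lines_miss L M hst hLM b (C := (L.side a)ᶜ ∩ (M.side b)ᶜ) ?_ hW hO hWO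
      intro u
      constructor
      · intro h; exact h.2
      · intro h; exact ⟨lines_not_side L u a, h⟩
    have hm2 : ∀ u, M.γ u ∉ W := by
      refine lines_miss M L hst.symm hML a (C := (L.side a)ᶜ ∩ (M.side b)ᶜ) ?_ hW hO hWO
      intro u
      constructor
      · intro h; exact h.1
      · intro h; exact ⟨h, lines_not_side M u b⟩
    have hWeq : W = O ∩ (L.side (!a) ∩ M.side (!b)) := by
      apply Set.Subset.antisymm
      · intro z hz
        have hz2 := hz
        rw [hWO] at hz2
        refine ⟨hz2.1, lines_cases L a hz2.2.1 ?_, lines_cases M b hz2.2.2 ?_⟩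
        · rintro ⟨u, rfl⟩
          exact hm1 u hz
        · rintro ⟨u, rfl⟩
          exact hm2 u hz
      · intro z hz
        rw [hWO]
        exact ⟨hz.1, fun h => Set.disjoint_left.mp (lines_disj L a) h hz.2.1,
          fun h => Set.disjoint_left.mp (lines_disj M b) h hz.2.2⟩
    have hopen : IsOpen W := by
      rw [hWeq]
      exact hO.inter ((L.side_open _).inter (M.side_open _))
    rcases isClopen_iff.mp ⟨hW.isClosed, hopen⟩ with h | h
    · exact h
    · exfalso
      rw [h] at hW
      exact noncompact_univ ℂ hW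
  have hcl : IsClosed ((L.side a)ᶜ ∪ (M.side b)ᶜ) := hK.union hK'
  have hcompl : ((L.side a)ᶜ ∪ (M.side b)ᶜ)ᶜ = L.side a ∩ M.side b := by
    rw [compl_union, compl_compl, compl_compl]
  have hxn : x ∉ (L.side a)ᶜ ∪ (M.side b)ᶜ := by
    rintro (h | h)
    · exact h hx.1
    · exact h hx.2
  have hyn : y ∉ (L.side a)ᶜ ∪ (M.side b)ᶜ := by
    rintro (h | h)
    · exact h hy.1
    · exact h hy.2
  have h4 := mem_component_of_hasLog hcl hxn hyn h3
  rw [hcompl] at h4
  exact ⟨connectedComponentIn (L.side a ∩ M.side b) x, connectedComponentIn_subset _ _,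
    mem_connectedComponentIn hx, h4, isPreconnected_connectedComponentIn⟩

end PHP
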