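import Mathlib
import Pool.Agent.PHP.ArrDefs
import Pool.Agent.PHP.Lines

/-!
# Connectivity at infinity

PROOF. Choose `r > 0` such that for all `i` and `t` with `‖γ_i t‖ ≥ r`, `t` is smaller than all crossing times of `i` or larger than all of them (the middle part is compact). `O = {z | r < ‖z‖}` is connected (complement of a closed ball in the plane). For an end `e = (i, ε)` its tail is the set of
`γ_i t` with `t` larger (`ε = true`) resp. smaller (`ε = false`) than all crossing times (if `i` has no crossing at all: `t > 0` resp. `t ≤ 0`, say; or treat the point at which both tails meet separately: choose `r` also larger than `‖γ_i 0‖` and restrict the tails to `t > 0`/`t < 0`).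
For a set `E` of ends let `U_E` be the set of `z ∈ O` that lie on the tail of an end in `E`, or that are off all curves with a sign vector of the form `update (v e.1 e.2) e.1 s`, `e ∈ E`. Suppose the conclusion is false. Then `U_E` and `O \ U_E` are both open:
a point `z ∈ O` off the curves has a small ball with the same signs; a point `z` on the tail of `e = (i, ε)` is on no other curve (no crossing in a tail) and not on the rest of the curve `i` (closed set, injectivity), so there is a small ball in which every point is on this tail or off all curves with the signs of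
`v e.1 e.2` off `i` (sides are open; the signs at `z` are `S.vec i t j = v i ε j`). As the vertex sets of `E` and `Eᶜ` are disjoint, points near a tail of `Eᶜ` are not in `U_E`. A point off the curves whose sign vector is not a vertex of `E` has a ball outside `U_E`. Both are nonempty: tails are unbounded. Contradiction to connectedness of `O`.
-/

namespace PHP

open Filter Topology Set

variable {ι : Type}

namespace ArrConn

theorem outer_preconnected (r : ℝ) : IsPreconnected {z : ℂ | r < ‖z‖} := by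
  have h : {z : ℂ | r < ‖z‖} =
      (fun p : ℝ × ℝ => (p.1 : ℂ) * Complex.exp (p.2 * Complex.I)) '' (Ioi r ×ˢ univ) := by
    ext z
    constructor
    · intro hz
      exact ⟨(‖z‖, Complex.arg z), ⟨hz, mem_univ _⟩, Complex.norm_mul_exp_arg_mul_I z⟩
    · rintro ⟨⟨ρ, θ⟩, ⟨h1, -⟩, rfl⟩
      have h1' : r < ρ := h1
      simp only [mem_ofPred_eq, norm_mul, Complex.norm_exp_ofReal_mul_I, mul_one,
        Complex.norm_real, Real.norm_eq_abs]
      exact lt_of_lt_of_le h1' (le_abs_self ρ)
  rw [h]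
  apply IsPreconnected.image
  · exact isPreconnected_Ioi.prod isPreconnected_univ
  · apply Continuous.continuousOn
    fun_prop

/-- the times of a tail -/
def tl (B : ℝ) : Bool → Set ℝ
  | true => Ioi B
  | false => Iio (-B)

theorem tl_closed_compl (B : ℝ) (ε : Bool) : IsClosed (tl B ε)ᶜ := by
  cases ε
  · exact (isOpen_Iio).isClosed_compl
  · exact (isOpen_Ioi).isClosed_compl

theorem side_of_not_mem (L : TLine) {z : ℂ} (h : z ∉ range L.γ) : ∃ b, z ∈ L.side b := by
  have : z ∈ L.side true ∪ L.side false := by rw [L.side_union]; exact h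
  rcases this with h | h
  · exact ⟨true, h⟩
  · exact ⟨false, h⟩

theorem not_mem_range (L : TLine) {z : ℂ} {b : Bool} (h : z ∈ L.side b) : z ∉ range L.γ := by
  have : z ∈ L.side true ∪ L.side false := by cases b <;> simp [h]
  rw [L.side_union] at this
  exact this

theorem side_unique (L : TLine) {z : ℂ} {b c : Bool} (h : z ∈ L.side b) (h' : z ∈ L.side c) :
    b = c := by
  by_contra hne
  have hd := L.side_disj
  rw [Set.disjoint_left] at hd
  cases b <;> cases c
  · exact hne rfl
  · exact hd h' h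
  · exact hd h h'
  · exact hne rfl

/-- a tail is unbounded -/
theorem tail_unbdd (L : TLine) (B r : ℝ) (ε : Bool) : ∃ t ∈ tl B ε, r < ‖L.γ t‖ := by
  have h1 : Tendsto (fun t => ‖L.γ t‖) (cocompact ℝ) atTop :=
    (tendsto_norm_cocompact_atTop).comp L.proper
  have h2 : ∀ᶠ t in cocompact ℝ, r < ‖L.γ t‖ := h1.eventually_gt_atTop r
  rw [cocompact_eq_atBot_atTop] at h2
  rw [eventually_sup] at h2
  cases ε
  · obtain ⟨t, ht1, ht2⟩ := (h2.1.and (eventually_lt_atBot (-B))).exists
    exact ⟨t, ht2, ht1⟩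
  · obtain ⟨t, ht1, ht2⟩ := (h2.2.and (eventually_gt_atTop B)).exists
    exact ⟨t, ht2, ht1⟩

end ArrConn

open ArrConn

/-- Connectivity at infinity. -/
theorem PHArr.conn_infty [Fintype ι] [DecidableEq ι] (A : PHArr ι) (S : Sys ι) (hT : S.T = A.cells)
    (hcr : ∀ i j, i ≠ j → (S.cr i j ↔ ∃ s t, (A.L i).Crosses (A.L j) s t))
    (hτ : ∀ i j, S.cr i j → (A.L i).γ (S.τ i j) = (A.L j).γ (S.τ j i))
    (hv : ∀ i j, i ≠ j → ∀ t, (S.cr i j → S.τ i j ≠ t) →
      (A.L i).γ t ∈ (A.L j).side (S.vec i t j))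
    (E : Set (ι × Bool)) (h1 : E.Nonempty) (h2 : Eᶜ.Nonempty) :
    ∃ e ∈ E, ∃ f ∈ Eᶜ, ∃ s t,
      Function.update (S.v e.1 e.2) e.1 s = Function.update (S.v f.1 f.2) f.1 t := by
  by_contra hcon
  push Not at hcon
  -- bound of the crossing times
  obtain ⟨B, hB0, hB⟩ : ∃ B : ℝ, 0 ≤ B ∧ ∀ i j, |S.τ i j| ≤ B := by
    refine ⟨∑ i, ∑ j, |S.τ i j|, Finset.sum_nonneg fun i _ => Finset.sum_nonneg fun j _ =>
      abs_nonneg _, fun i j => ?_⟩
    calc |S.τ i j| ≤ ∑ j, |S.τ i j| :=
          Finset.single_le_sum (f := fun j => |S.τ i j|) (fun j _ => abs_nonneg _)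
            (Finset.mem_univ j)
      _ ≤ ∑ i, ∑ j, |S.τ i j| :=
          Finset.single_le_sum (f := fun i => ∑ j, |S.τ i j|)
            (fun i _ => Finset.sum_nonneg fun j _ => abs_nonneg _) (Finset.mem_univ i)
  obtain ⟨r, hr0, hr⟩ : ∃ r : ℝ, 0 ≤ r ∧ ∀ i t, |t| ≤ B → ‖(A.L i).γ t‖ ≤ r := by
    have : ∀ i, ∃ r : ℝ, 0 ≤ r ∧ ∀ t, |t| ≤ B → ‖(A.L i).γ t‖ ≤ r := by
      intro i
      have hc : IsCompact ((A.L i).γ '' Icc (-B) B) := isCompact_Icc.image (A.L i).cont
      obtain ⟨r, hr⟩ := hc.isBounded.exists_norm_le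
      refine ⟨max r 0, le_max_right _ _, fun t ht => ?_⟩
      exact le_trans (hr _ ⟨t, abs_le.1 ht, rfl⟩) (le_max_left _ _)
    choose ρ hρ0 hρ using this
    refine ⟨∑ i, ρ i, Finset.sum_nonneg fun i _ => hρ0 i, fun i t ht => ?_⟩
    exact le_trans (hρ i t ht) (Finset.single_le_sum (f := ρ) (fun j _ => hρ0 j)
      (Finset.mem_univ i))
  -- times of points far away are in a tail
  have htail : ∀ i t, r < ‖(A.L i).γ t‖ → ∃ ε, t ∈ tl B ε := by
    intro i t ht
    by_contra hne
    push Not at hne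
    have ha : ¬ B < t := fun h => hne true h
    have hb : ¬ t < -B := fun h => hne false h
    have := hr i t (abs_le.2 ⟨not_lt.1 hb, not_lt.1 ha⟩)
    linarith
  have htl_uniq : ∀ t ε ε', t ∈ tl B ε → t ∈ tl B ε' → ε = ε' := by
    intro t ε ε' h h'
    cases ε <;> cases ε' <;> simp only [tl, mem_Ioi, mem_Iio] at h h'
    · rfl
    · linarith
    · linarith
    · rfl
  -- no crossing in a tail
  have hnocr : ∀ i j ε t, t ∈ tl B ε → S.cr i j → S.τ i j ≠ t := by
    intro i j ε t ht _ he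
    have := abs_le.1 (hB i j)
    cases ε <;> simp only [tl, mem_Ioi, mem_Iio] at ht <;> linarith
  -- the signs on a tail
  have hsgn : ∀ i j ε t, i ≠ j → t ∈ tl B ε → (A.L i).γ t ∈ (A.L j).side (S.v i ε j) := by
    intro i j ε t hij ht
    have h := hv i j hij t (hnocr i j ε t ht)
    have hvec : S.vec i t j = S.v i ε j := by
      have hb := abs_le.1 (hB i j)
      unfold Sys.vec vecOf
      cases ε
      · have ht' : t < -B := ht
        have : ¬ (S.cr i j ∧ S.τ i j < t) := by
          rintro ⟨-, h⟩; linarith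
        rw [if_neg this]
      · have ht' : B < t := ht
        by_cases hc : S.cr i j
        · rw [if_pos ⟨hc, by linarith⟩]
        · rw [if_neg (fun h => hc h.1), S.v_ncr hij hc]
    rwa [hvec] at h
  set O : Set ℂ := {z : ℂ | r < ‖z‖} with hO
  have hOopen : IsOpen O := isOpen_lt continuous_const continuous_norm
  set G : Set ℂ := {z | z ∈ O ∧ ((∃ e ∈ E, ∃ t ∈ tl B e.2, z = (A.L e.1).γ t) ∨
    (∃ X : ι → Bool, (∀ i, z ∈ (A.L i).side (X i)) ∧ ∃ e ∈ E, ∃ s,
      X = Function.update (S.v e.1 e.2) e.1 s))} with hG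
  -- uniqueness of sign vectors
  have hX : ∀ z (X Y : ι → Bool), (∀ i, z ∈ (A.L i).side (X i)) → (∀ i, z ∈ (A.L i).side (Y i)) →
      X = Y := by
    intro z X Y h h'
    funext i
    exact side_unique (A.L i) (h i) (h' i)
  -- neighbourhoods of points off all curves
  have hoff : ∀ z ∈ O, ∀ X : ι → Bool, (∀ i, z ∈ (A.L i).side (X i)) →
      ∃ N : Set ℂ, IsOpen N ∧ z ∈ N ∧ N ⊆ O ∧ ∀ w ∈ N, (w ∈ G ↔ z ∈ G) := by
    intro z hz X hzX
    have key : ∀ w ∈ O, (∀ i, w ∈ (A.L i).side (X i)) → (w ∈ G ↔ ∃ e ∈ E, ∃ s,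
        X = Function.update (S.v e.1 e.2) e.1 s) := by
      intro w hw hwX
      constructor
      · rintro ⟨-, ⟨e, he, t, ht, rfl⟩ | ⟨Y, hY, e, he, s, hs⟩⟩
        · exact absurd ⟨t, rfl⟩ (not_mem_range (A.L e.1) (hwX e.1))
        · exact ⟨e, he, s, by rw [hX w X Y hwX hY]; exact hs⟩
      · rintro ⟨e, he, s, hs⟩
        exact ⟨hw, Or.inr ⟨X, hwX, e, he, s, hs⟩⟩
    refine ⟨O ∩ ⋂ i, (A.L i).side (X i), hOopen.inter (isOpen_iInter_of_finite fun i =>
      (A.L i).side_open _), ⟨hz, mem_iInter.2 hzX⟩, inter_subset_left, ?_⟩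
    rintro w ⟨hw, hw'⟩
    rw [mem_iInter] at hw'
    rw [key w hw hw', key z hz hzX]
  -- neighbourhoods of points on tails
  have hon : ∀ z ∈ O, ∀ i ε t, t ∈ tl B ε → z = (A.L i).γ t →
      ∃ N : Set ℂ, IsOpen N ∧ z ∈ N ∧ N ⊆ O ∧ ∀ w ∈ N, (w ∈ G ↔ (i, ε) ∈ E) := by
    intro z hz i ε t ht hzt
    refine ⟨O ∩ (⋂ j, if j = i then univ else (A.L j).side (S.v i ε j)) ∩
      ((A.L i).γ '' (tl B ε)ᶜ)ᶜ, ?_, ⟨⟨hz, ?_⟩, ?_⟩, ?_, ?_⟩
    · refine (hOopen.inter (isOpen_iInter_of_finite fun j => ?_)).inter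
        ((A.L i).isClosed_image (tl_closed_compl B ε)).isOpen_compl
      split_ifs
      · exact isOpen_univ
      · exact (A.L j).side_open _
    · rw [mem_iInter]
      intro j
      split_ifs with h
      · exact mem_univ _
      · rw [hzt]; exact hsgn i j ε t (Ne.symm h) ht
    · rintro ⟨t', ht', he⟩
      rw [hzt] at he
      exact ht' ((A.L i).inj he ▸ ht)
    · exact fun w hw => hw.1.1
    · rintro w ⟨⟨hw, hw'⟩, hw''⟩
      rw [mem_iInter] at hw'
      have hws : ∀ j, j ≠ i → w ∈ (A.L j).side (S.v i ε j) := by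
        intro j hj
        have := hw' j
        rwa [if_neg hj] at this
      by_cases hwi : w ∈ range (A.L i).γ
      · obtain ⟨t', rfl⟩ := hwi
        have ht' : t' ∈ tl B ε := by
          by_contra hne
          exact hw'' ⟨t', hne, rfl⟩
        constructor
        · rintro ⟨-, ⟨e, he, u, hu, heq⟩ | ⟨Y, hY, -⟩⟩
          · by_cases hei : e.1 = i
            · have h3 : t' = u := by
                apply (A.L i).inj
                rw [heq, hei]
              have h4 : ε = e.2 := htl_uniq t' ε e.2 ht' (h3 ▸ hu)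
              have : e = (i, ε) := Prod.ext hei h4.symm
              rwa [this] at he
            · exact absurd ⟨u, heq.symm⟩ (not_mem_range _ (hws e.1 hei))
          · exact absurd ⟨t', rfl⟩ (not_mem_range _ (hY i))
        · intro he
          exact ⟨hw, Or.inl ⟨(i, ε), he, t', ht', rfl⟩⟩
      · obtain ⟨s, hs⟩ := side_of_not_mem (A.L i) hwi
        have hwX : ∀ j, w ∈ (A.L j).side (Function.update (S.v i ε) i s j) := by
          intro j
          by_cases hj : j = i
          · subst hj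
            rw [Function.update_self]; exact hs
          · rw [Function.update_of_ne hj]; exact hws j hj
        constructor
        · rintro ⟨-, ⟨e, he, u, hu, heq⟩ | ⟨Y, hY, e, he, s', hs'⟩⟩
          · exact absurd ⟨u, heq.symm⟩ (not_mem_range _ (hwX e.1))
          · by_contra hne
            refine hcon e he (i, ε) hne s' s ?_
            rw [← hs']
            exact hX w _ _ hY hwX
        · intro he
          exact ⟨hw, Or.inr ⟨_, hwX, (i, ε), he, s, rfl⟩⟩
  -- every point of `O` has a neighbourhood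
  have hall : ∀ z ∈ O, ∃ N : Set ℂ, IsOpen N ∧ z ∈ N ∧ N ⊆ O ∧ ∀ w ∈ N, (w ∈ G ↔ z ∈ G) := by
    intro z hz
    by_cases h : ∀ i, z ∉ range (A.L i).γ
    · choose X hXz using fun i => side_of_not_mem (A.L i) (h i)
      exact hoff z hz X hXz
    · push Not at h
      obtain ⟨i, t, rfl⟩ := h
      obtain ⟨ε, hε⟩ := htail i t hz
      obtain ⟨N, hN1, hN2, hN3, hN4⟩ := hon _ hz i ε t hε rfl
      refine ⟨N, hN1, hN2, hN3, fun w hw => ?_⟩
      rw [hN4 w hw, hN4 _ hN2]
  have hGopen : IsOpen G := by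
    rw [isOpen_iff_mem_nhds]
    intro z hz
    obtain ⟨N, hN1, hN2, hN3, hN4⟩ := hall z hz.1
    exact mem_of_superset (hN1.mem_nhds hN2) fun w hw => (hN4 w hw).2 hz
  have hG'open : IsOpen (O \ G) := by
    rw [isOpen_iff_mem_nhds]
    intro z hz
    obtain ⟨N, hN1, hN2, hN3, hN4⟩ := hall z hz.1
    exact mem_of_superset (hN1.mem_nhds hN2) fun w hw =>
      ⟨hN3 hw, fun h => hz.2 ((hN4 w hw).1 h)⟩
  have hpre := outer_preconnected r
  obtain ⟨e, he⟩ := h1
  obtain ⟨f, hf⟩ := h2
  obtain ⟨te, hte, hte'⟩ := tail_unbdd (A.L e.1) B r e.2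
  obtain ⟨tf, htf, htf'⟩ := tail_unbdd (A.L f.1) B r f.2
  have hz1 : (A.L e.1).γ te ∈ G := ⟨hte', Or.inl ⟨e, he, te, hte, rfl⟩⟩
  have hz2 : (A.L f.1).γ tf ∉ G := by
    obtain ⟨N, hN1, hN2, hN3, hN4⟩ := hon _ htf' f.1 f.2 tf htf rfl
    rw [hN4 _ hN2]
    exact hf
  obtain ⟨w, -, hw1, hw2⟩ := hpre G (O \ G) hGopen hG'open
    (fun z hz => by
      by_cases h : z ∈ G
      · exact Or.inl h
      · exact Or.inr ⟨hz, h⟩)
    ⟨_, hte', hz1⟩ ⟨_, htf', ⟨htf', hz2⟩⟩
  exact hw2.2 hw1

end PHP
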