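import Mathlib
import Pool.Agent.PHP.ArrDefs
import Pool.Agent.PHP.Lines

/-!
# The combinatorial system of an arrangement

CONSTRUCTION. `T = A.cells`, `cr i j := i ≠ j ∧ ∃ s t, (A.L i).Crosses (A.L j) s t`; `Crosses` is symmetric (`L.Crosses M s t ↔ M.Crosses L t s`) and `s, t` are unique. `τ i j` := that `s`. `v i ε j` for `i ≠ j`: if `cr i j`, the side `c` of `j` with
`γ_i u ∈ side c` for `u > s` if `ε = true`, `!c` if `ε = false`; if not `cr i j`: the side of `j` containing the curve `i` (connected, disjoint from the curve `j`). `v i ε i := true`.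
`τ_inj`: no three curves share a point. `edge`: given `i`, `t`, choose `t' ≤ t` with `{k | cr i k ∧ τ i k < t'} = {k | cr i k ∧ τ i k < t}` and `t' ≠ τ i k` for all crossing `k` (finitely many crossings). The point `γ_i t'` is off all other curves; a small ball around it misses the other curves
(closed sets) and by `mem_closure_side` contains points of both sides of `i`; their other signs are those of `γ_i t'` (a ball inside `side`, open).
`pair`: if `¬ cr i j` the curves are disjoint; let `c = v j true i` (the curve `j` lies in the side `c` of `i`) and `c' = v i true j`. A point in `side_i (!c) ∩ side_j (!c')`: the set `side_i (!c)` is connected and misses the curve `j` (which is in `side_i c`), so it lies in one side of `j`;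
by `mem_closure_side` it has points near the curve `i`, which lies in the open set `side_j c'`; so `side_i (!c) ⊆ side_j c'`: contradiction.
`triple`: if one of the three pairs does not cross, use `pair`. If all three cross: let `a` be the side of `i` containing the point `jk` (crossing point of `j` and `k`), `b` the side of `j` containing `ik`, `c` the side of `k` containing `ij`. The missing pattern is `(!a, !b, !c)`: the curve `k` meets `i` at `ik` and `j` at `jk`. Along `k`: the part
of `k` strictly beyond `ik` (on the other side than `jk`) is in `side_i (!a)`, and on this part the side of `j` is the one at `ik`, i.e. `b`; the part on the `jk` side of `ik` is in `side_i a`. So the curve `k` never meets `side_i (!a) ∩ side_j (!b)`. This sector is connected (`sector_preconnected`), so it lies in one side of `k`; it contains points near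
the crossing point `ij` (all four sectors do: points near `γ_i t` for `t` close to the crossing time, on the correct side of `j`, and close to the curve from either side of `i`), which is in the open set `side_k c`. So it lies in `side_k c`.
-/

namespace PHP

open Filter Topology Set

variable {ι : Type}

theorem ArrSys_side_eq (L : TLine) {z : ℂ} {b c : Bool} (h1 : z ∈ L.side b) (h2 : z ∈ L.side c) :
    b = c := by
  have hd := L.side_disj
  rw [Set.disjoint_left] at hd
  cases b <;> cases c
  · rfl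
  · exact absurd h1 (hd h2)
  · exact absurd h2 (hd h1)
  · rfl

theorem ArrSys_not_range (L : TLine) {z : ℂ} {b : Bool} (h : z ∈ L.side b) : z ∉ range L.γ := by
  have h2 : z ∈ (range L.γ)ᶜ := by
    rw [← L.side_union]
    cases b
    · exact Or.inr h
    · exact Or.inl h
  exact h2

theorem ArrSys_exists_side (L : TLine) {z : ℂ} (h : z ∉ range L.γ) : ∃ b, z ∈ L.side b := by
  have h2 : z ∈ L.side true ∪ L.side false := by
    rw [L.side_union]
    exact h
  rcases h2 with h | h
  · exact ⟨true, h⟩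
  · exact ⟨false, h⟩

theorem ArrSys_subset (M : TLine) {S : Set ℂ} (hS : IsPreconnected S)
    (hmiss : ∀ z ∈ S, z ∉ range M.γ) {b : Bool} {z : ℂ} (hz : z ∈ S) (hzb : z ∈ M.side b) :
    S ⊆ M.side b := by
  refine hS.subset_left_of_subset_union (M.side_open b) (M.side_open (!b)) ?_ ?_ ⟨z, hz, hzb⟩
  · rw [Set.disjoint_left]
    intro w h1 h2
    have := ArrSys_side_eq M h1 h2
    cases b <;> simp at this
  · intro w hw
    obtain ⟨c, hc⟩ := ArrSys_exists_side M (hmiss w hw)
    by_cases h : c = b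
    · subst h
      exact Or.inl hc
    · right
      have : c = !b := by
        cases b <;> cases c <;> simp at h ⊢
      rwa [this] at hc

theorem ArrSys_cross_symm {L M : TLine} {s t : ℝ} (h : L.Crosses M s t) : M.Crosses L t s :=
  ⟨h.1.symm, fun s' t' h' => (h.2.1 t' s' h'.symm).symm, h.2.2.2, h.2.2.1⟩

/-- one of the lines is in one side of the other if they are disjoint -/
theorem ArrSys_disj_side (L M : TLine) (h : Disjoint (range L.γ) (range M.γ)) :
    ∃ c, ∀ u, L.γ u ∈ M.side c := by
  rw [Set.disjoint_left] at h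
  obtain ⟨c, hc⟩ := ArrSys_exists_side M (h (mem_range_self (0 : ℝ)))
  refine ⟨c, fun u => ?_⟩
  exact ArrSys_subset M (isPreconnected_range L.cont) (fun z hz => h hz) (mem_range_self 0) hc
    (mem_range_self u)

/-- two disjoint lines miss a pattern -/
theorem ArrSys_pair (L M : TLine) {c c' : Bool} (h1 : ∀ u, M.γ u ∈ L.side c)
    (h2 : ∀ u, L.γ u ∈ M.side c') {z : ℂ} (hz1 : z ∈ L.side (!c)) (hz2 : z ∈ M.side (!c')) :
    False := by
  have hmiss : ∀ w ∈ L.side (!c), w ∉ range M.γ := by
    rintro w hw ⟨u, rfl⟩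
    have := ArrSys_side_eq L hw (h1 u)
    cases c <;> simp at this
  have h3 : L.γ 0 ∈ closure (L.side (!c)) := L.mem_closure_side 0 (!c)
  obtain ⟨w, hw1, hw2⟩ := mem_closure_iff.1 h3 (M.side c') (M.side_open c') (h2 0)
  have h4 := ArrSys_subset M (L.side_conn (!c)).isPreconnected hmiss hw2 hw1
  have := ArrSys_side_eq M (h4 hz1) hz2
  cases c' <;> simp at this

/-- three pairwise crossing lines miss a pattern -/
theorem ArrSys_triple (L M N : TLine) {s t s' u' t'' u'' : ℝ} (hLM : L.Crosses M s t)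
    (hLN : L.Crosses N s' u') (hMN : M.Crosses N t'' u'')
    (hno : range L.γ ∩ range M.γ ∩ range N.γ = ∅) :
    ∃ p q r, ∀ z, ¬ (z ∈ L.side p ∧ z ∈ M.side q ∧ z ∈ N.side r) := by
  have hno' : ∀ z, z ∈ range L.γ → z ∈ range M.γ → z ∈ range N.γ → False := by
    intro z h1 h2 h3
    have : z ∈ range L.γ ∩ range M.γ ∩ range N.γ := ⟨⟨h1, h2⟩, h3⟩
    rw [hno] at this
    exact this
  -- the crossing points
  obtain ⟨a, ha⟩ := ArrSys_exists_side L (z := N.γ u'')
    (fun h => hno' _ h (hMN.1 ▸ mem_range_self t'') (mem_range_self _))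
  obtain ⟨b, hb⟩ := ArrSys_exists_side M (z := N.γ u')
    (fun h => hno' _ (hLN.1 ▸ mem_range_self s') h (mem_range_self _))
  obtain ⟨c, hc⟩ := ArrSys_exists_side N (z := L.γ s)
    (fun h => hno' _ (mem_range_self _) (hLM.1.symm ▸ mem_range_self t) h)
  refine ⟨!a, !b, !c, ?_⟩
  -- the curve `N` misses the sector
  have hmiss : ∀ w ∈ L.side (!a) ∩ M.side (!b), w ∉ range N.γ := by
    rintro w ⟨hw1, hw2⟩ ⟨u, rfl⟩
    have hne : u' ≠ u'' := by
      intro h
      rw [← h] at ha
      exact ArrSys_not_range L ha (hLN.1 ▸ mem_range_self s')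
    have hu' : u ≠ u' := by
      intro h
      rw [h] at hw1
      exact ArrSys_not_range L hw1 (hLN.1 ▸ mem_range_self s')
    have hu'' : u ≠ u'' := by
      intro h
      rw [h] at hw2
      exact ArrSys_not_range M hw2 (hMN.1 ▸ mem_range_self t'')
    obtain ⟨d, hd1, hd2⟩ := hLN.2.2.2
    obtain ⟨e, he1, he2⟩ := hMN.2.2.2
    rcases lt_or_gt_of_ne hne with hlt | hlt
    · -- `u' < u''`
      have h1 : d = a := ArrSys_side_eq L (hd2 u'' hlt) ha
      have h2 : (!e) = b := ArrSys_side_eq M (he1 u' hlt) hb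
      rcases lt_or_gt_of_ne hu' with h3 | h3
      · have h4 := he1 u (h3.trans hlt)
        have h5 := ArrSys_side_eq M h4 hw2
        rw [h2] at h5
        cases b <;> simp at h5
      · have h4 := hd2 u h3
        have h5 := ArrSys_side_eq L h4 hw1
        rw [h1] at h5
        cases a <;> simp at h5
    · -- `u'' < u'`
      have h1 : (!d) = a := ArrSys_side_eq L (hd1 u'' hlt) ha
      have h2 : e = b := ArrSys_side_eq M (he2 u' hlt) hb
      rcases lt_or_gt_of_ne hu' with h3 | h3
      · have h4 := hd1 u h3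
        have h5 := ArrSys_side_eq L h4 hw1
        rw [h1] at h5
        cases a <;> simp at h5
      · have h4 := he2 u (hlt.trans h3)
        have h5 := ArrSys_side_eq M h4 hw2
        rw [h2] at h5
        cases b <;> simp at h5
  -- a point of the curve `L` near the crossing point
  have hopen : ∀ᶠ x in 𝓝 s, L.γ x ∈ N.side c :=
    L.cont.continuousAt.eventually ((N.side_open c).mem_nhds hc)
  obtain ⟨x, hx1, hx2⟩ : ∃ x, L.γ x ∈ N.side c ∧ L.γ x ∈ M.side (!b) := by
    obtain ⟨d, hd1, hd2⟩ := hLM.2.2.1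
    by_cases h : d = !b
    · have h1 : ∀ᶠ x in 𝓝[>] s, L.γ x ∈ N.side c := nhdsWithin_le_nhds hopen
      obtain ⟨x, hx, hx'⟩ := (h1.and self_mem_nhdsWithin).exists
      exact ⟨x, hx, h ▸ hd2 x hx'⟩
    · have h1 : ∀ᶠ x in 𝓝[<] s, L.γ x ∈ N.side c := nhdsWithin_le_nhds hopen
      obtain ⟨x, hx, hx'⟩ := (h1.and self_mem_nhdsWithin).exists
      have h2 : (!d) = !b := by
        cases d <;> cases b <;> simp at h ⊢
      exact ⟨x, hx, h2 ▸ hd1 x hx'⟩
  have h3 : L.γ x ∈ closure (L.side (!a)) := L.mem_closure_side x (!a)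
  obtain ⟨w, ⟨hw1, hw2⟩, hw3⟩ := mem_closure_iff.1 h3 (N.side c ∩ M.side (!b))
    ((N.side_open c).inter (M.side_open (!b))) ⟨hx1, hx2⟩
  have h4 := ArrSys_subset N (L.sector_preconnected M hLM (!a) (!b)) hmiss ⟨hw3, hw2⟩ hw1
  rintro z ⟨hz1, hz2, hz3⟩
  have := ArrSys_side_eq N (h4 ⟨hz1, hz2⟩) hz3
  cases c <;> simp at this

/-- The combinatorial system of an arrangement; at crossing points the signs of the other lines
are consistent. -/
theorem PHArr.exists_sys [Fintype ι] [DecidableEq ι] (A : PHArr ι) :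
    ∃ S : Sys ι, S.T = A.cells ∧
      (∀ i j, i ≠ j → (S.cr i j ↔ ∃ s t, (A.L i).Crosses (A.L j) s t)) ∧
      (∀ i j, S.cr i j → (A.L i).γ (S.τ i j) = (A.L j).γ (S.τ j i)) ∧
      (∀ i j, i ≠ j → ∀ t, (S.cr i j → S.τ i j ≠ t) → (A.L i).γ t ∈ (A.L j).side (S.vec i t j)) := by
  classical
  obtain ⟨cr, hcr⟩ : ∃ cr : ι → ι → Prop, ∀ i j, cr i j ↔
      (i ≠ j ∧ ∃ s t, (A.L i).Crosses (A.L j) s t) := ⟨_, fun _ _ => Iff.rfl⟩
  have hτ0 : ∀ i j, ∃ s, cr i j → ∃ t, (A.L i).Crosses (A.L j) s t := by
    intro i j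
    by_cases h : cr i j
    · obtain ⟨_, s, t, hst⟩ := (hcr i j).1 h
      exact ⟨s, fun _ => ⟨t, hst⟩⟩
    · exact ⟨0, fun h' => absurd h' h⟩
  choose τ hτ using hτ0
  have hsymm : ∀ {i j}, cr i j → cr j i := by
    intro i j h
    obtain ⟨h1, s, t, hst⟩ := (hcr i j).1 h
    exact (hcr j i).2 ⟨h1.symm, t, s, ArrSys_cross_symm hst⟩
  have hcross : ∀ i j, cr i j → (A.L i).Crosses (A.L j) (τ i j) (τ j i) := by
    intro i j h
    obtain ⟨t, ht⟩ := hτ i j h
    obtain ⟨t', ht'⟩ := hτ j i (hsymm h)
    have h1 := (ArrSys_cross_symm ht').1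
    have h2 := ht.2.1 _ _ h1
    have h3 : τ j i = t := h2.2
    rw [h3]
    exact ht
  have hdisj : ∀ i j, i ≠ j → ¬ cr i j → Disjoint (range (A.L i).γ) (range (A.L j).γ) := by
    intro i j hij h
    rcases A.meet i j hij with h1 | h1
    · exact h1
    · exact absurd ((hcr i j).2 ⟨hij, h1⟩) h
  have hv0 : ∀ i j, ∃ f : Bool → Bool, i ≠ j → ((cr i j → f true = !(f false) ∧
      (∀ u < τ i j, (A.L i).γ u ∈ (A.L j).side (f false)) ∧
      (∀ u > τ i j, (A.L i).γ u ∈ (A.L j).side (f true))) ∧
      (¬ cr i j → f true = f false ∧ ∀ u, (A.L i).γ u ∈ (A.L j).side (f true))) := by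
    intro i j
    by_cases hij : i = j
    · exact ⟨fun _ => true, fun h => absurd hij h⟩
    by_cases h : cr i j
    · obtain ⟨c, hc1, hc2⟩ := (hcross i j h).2.2.1
      refine ⟨fun ε => if ε = true then c else !c, fun _ => ⟨fun _ => ⟨?_, ?_, ?_⟩, ?_⟩⟩
      · simp
      · intro u hu
        simpa using hc1 u hu
      · intro u hu
        simpa using hc2 u hu
      · intro h'
        exact absurd h h'
    · obtain ⟨c, hc⟩ := ArrSys_disj_side _ _ (hdisj i j hij h)
      exact ⟨fun _ => c, fun _ => ⟨fun h' => absurd h' h, fun _ => ⟨rfl, hc⟩⟩⟩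
  choose v' hv' using hv0
  have hmem : ∀ i j, i ≠ j → ∀ t, (cr i j → τ i j ≠ t) →
      (A.L i).γ t ∈ (A.L j).side (vecOf cr τ (fun i ε j => v' i j ε) i t j) := by
    intro i j hij t ht
    obtain ⟨h1, h2⟩ := hv' i j hij
    unfold vecOf
    by_cases h : cr i j
    · obtain ⟨e1, e2, e3⟩ := h1 h
      by_cases h' : τ i j < t
      · rw [if_pos ⟨h, h'⟩]
        exact e3 t h'
      · rw [if_neg (fun hh => h' hh.2)]
        exact e2 t (lt_of_le_of_ne (not_lt.1 h') (ht h).symm)
    · rw [if_neg (fun hh => h hh.1)]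
      obtain ⟨e1, e2⟩ := h2 h
      show (A.L i).γ t ∈ (A.L j).side (v' i j false)
      rw [← e1]
      exact e2 t
  have hpair : ∀ {i j}, i ≠ j → ¬ cr i j → ∀ z, ¬ (z ∈ (A.L i).side (!(v' j i true)) ∧
      z ∈ (A.L j).side (!(v' i j true))) := by
    intro i j hij h z hz
    have h1 := ((hv' i j hij).2 h).2
    have h2 := ((hv' j i hij.symm).2 (fun h' => h (hsymm h'))).2
    exact ArrSys_pair (A.L i) (A.L j) h2 h1 hz.1 hz.2
  refine ⟨⟨A.cells, cr, τ, fun i ε j => v' i j ε, hsymm, ?_, ?_, ?_, ?_, ?_, ?_, ?_⟩, rfl, ?_, ?_, ?_⟩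
  · intro i h
    exact ((hcr i i).1 h).1 rfl
  · intro i j k hij hik h
    by_contra hjk
    have h1 := hcross i j hij
    have h2 := hcross i k hik
    have h3 : (A.L i).γ (τ i j) ∈
        range (A.L i).γ ∩ range (A.L j).γ ∩ range (A.L k).γ := by
      refine ⟨⟨mem_range_self _, ?_⟩, ?_⟩
      · rw [h1.1]
        exact mem_range_self _
      · rw [h, h2.1]
        exact mem_range_self _
    rw [A.no3 i j k ((hcr i j).1 hij).1 hjk ((hcr i k).1 hik).1] at h3
    exact h3
  · intro i j h
    exact ((hv' i j ((hcr i j).1 h).1).1 h).1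
  · intro i j hij h
    exact ((hv' i j hij).2 h).1
  · intro i t X hX
    have hev : ∀ᶠ t' in 𝓝[<] t, ∀ k, (τ i k < t → τ i k < t') := by
      rw [Filter.eventually_all]
      intro k
      by_cases h : τ i k < t
      · have h1 : ∀ᶠ t' in 𝓝 t, τ i k < t' := eventually_gt_nhds h
        filter_upwards [nhdsWithin_le_nhds h1] with t' ht' _ using ht'
      · exact Filter.Eventually.of_forall fun t' h' => absurd h' h
    obtain ⟨t', ht1, ht2⟩ := (hev.and self_mem_nhdsWithin).exists
    have ht2' : t' < t := ht2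
    have hp : ∀ k, k ≠ i → (A.L i).γ t' ∈ (A.L k).side (X k) := by
      intro k hk
      rw [hX k hk]
      have h1 := hmem i k hk.symm t' (by
        intro _ h
        rcases lt_or_ge (τ i k) t with h2 | h2
        · have := ht1 k h2
          linarith
        · linarith)
      have h2 : vecOf cr τ (fun i ε j => v' i j ε) i t' k =
          vecOf cr τ (fun i ε j => v' i j ε) i t k := by
        unfold vecOf
        have h3 : τ i k < t' ↔ τ i k < t := ⟨fun h => h.trans ht2', ht1 k⟩
        by_cases h4 : cr i k ∧ τ i k < t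
        · rw [if_pos h4, if_pos ⟨h4.1, h3.2 h4.2⟩]
        · rw [if_neg h4, if_neg (fun h5 => h4 ⟨h5.1, h3.1 h5.2⟩)]
      rwa [h2] at h1
    have hev2 : ∀ᶠ z in 𝓝 ((A.L i).γ t'), ∀ k, k ≠ i → z ∈ (A.L k).side (X k) := by
      rw [Filter.eventually_all]
      intro k
      by_cases hk : k = i
      · exact Filter.Eventually.of_forall fun z h => absurd hk h
      · filter_upwards [((A.L k).side_open (X k)).mem_nhds (hp k hk)] with z hz _ using hz
    have hfr := mem_closure_iff_frequently.1 ((A.L i).mem_closure_side t' (X i))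
    obtain ⟨z, hz1, hz2⟩ := (hfr.and_eventually hev2).exists
    refine ⟨z, fun k => ?_⟩
    by_cases hk : k = i
    · subst hk
      exact hz1
    · exact hz2 k hk
  · intro i j k hij hjk hik
    by_cases h1 : cr i j
    · by_cases h2 : cr i k
      · by_cases h3 : cr j k
        · obtain ⟨p, q, r, h⟩ := ArrSys_triple (A.L i) (A.L j) (A.L k) (hcross i j h1)
            (hcross i k h2) (hcross j k h3) (A.no3 i j k hij hjk hik)
          refine ⟨p, q, r, ?_⟩
          rintro X ⟨z, hz⟩ ⟨e1, e2, e3⟩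
          exact h z ⟨e1 ▸ hz i, e2 ▸ hz j, e3 ▸ hz k⟩
        · refine ⟨true, !(v' k j true), !(v' j k true), ?_⟩
          rintro X ⟨z, hz⟩ ⟨e1, e2, e3⟩
          exact hpair hjk h3 z ⟨e2 ▸ hz j, e3 ▸ hz k⟩
      · refine ⟨!(v' k i true), true, !(v' i k true), ?_⟩
        rintro X ⟨z, hz⟩ ⟨e1, e2, e3⟩
        exact hpair hik h2 z ⟨e1 ▸ hz i, e3 ▸ hz k⟩
    · refine ⟨!(v' j i true), !(v' i j true), true, ?_⟩
      rintro X ⟨z, hz⟩ ⟨e1, e2, e3⟩
      exact hpair hij h1 z ⟨e1 ▸ hz i, e2 ▸ hz j⟩
  · rintro i j hij h X ⟨z, hz⟩ ⟨e1, e2⟩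
    exact hpair hij h z ⟨e1 ▸ hz i, e2 ▸ hz j⟩
  · intro i j hij
    exact ⟨fun h => ((hcr i j).1 h).2, fun h => (hcr i j).2 ⟨hij, h⟩⟩
  · intro i j h
    exact (hcross i j h).1
  · intro i j hij t ht
    exact hmem i j hij t ht

end PHP
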