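import Mathlib

/-!
# Euler circuits in finite multigraphs

Edges `E`, the edge `e` joins the vertices `p e false` and `p e true`.

PROOF. Take a closed trail (`Trail p F l F`, `l.Nodup`) with `l` of maximal length (bounded by `Fintype.card E`;
the empty trail exists). Suppose some edge is not in `l`. (i) Some unused edge has an endpoint on the trail: if `l = []` choose
any edge and take `F` one of its endpoints, else apply `hconn` to the set of used edges. Rotate the trail so that it starts at that vertex `F`
(lemma: `Trail p F (l₁ ++ l₂) G ↔ ∃ H, Trail p F l₁ H ∧ Trail p H l₂ G`). (ii) Take a maximal (longest) `Nodup` list `l'` of unused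
edges with `Trail p F l' G` for some `G`; it is nonempty. PARITY: in a trail from `F` to `G`, the number of pairs
`(e, b)` with `e` in the list and `p e b = v` is even for all `v` if `F = G`, and for `F ≠ G` it is odd exactly for `v = F` and `v = G` (induction on the list). If `G ≠ F`, the number of used
pairs at `G` (in `l` and `l'`) is odd, the total number is even (`heven`), so there is an unused pair
`(e, b)` at `G` and the trail `l' ++ [e]` is longer: contradiction. So `G = F` and `l ++ l'` is a longer closed trail. Contradiction.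
-/

namespace PHP

open Finset

variable {E V : Type}

/-- `Trail p F l G`: the list of edges `l` can be walked through from `F` to `G`. -/
def Trail (p : E → Bool → V) : V → List E → V → Prop
  | F, [], G => F = G
  | F, e :: l, G => ∃ b, p e b = F ∧ Trail p (p e (!b)) l G

theorem Euler_trail_append (p : E → Bool → V) (F G : V) (l₁ l₂ : List E) :
    Trail p F (l₁ ++ l₂) G ↔ ∃ H, Trail p F l₁ H ∧ Trail p H l₂ G := by
  induction l₁ generalizing F with
  | nil => simp [Trail]
  | cons e l ih =>
    simp only [List.cons_append, Trail, ih]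
    constructor
    · rintro ⟨b, hb, H, h1, h2⟩
      exact ⟨H, ⟨b, hb, h1⟩, h2⟩
    · rintro ⟨H, ⟨b, hb, h1⟩, h2⟩
      exact ⟨b, hb, H, h1, h2⟩

/-- the number of ends of the edge `e` at `v`. -/
private def dg [DecidableEq V] (p : E → Bool → V) (v : V) (e : E) : ℕ :=
  (if p e false = v then 1 else 0) + (if p e true = v then 1 else 0)

private lemma par [DecidableEq V] (p : E → Bool → V) (v : V) (l : List E) (F G : V)
    (h : Trail p F l G) :
    Even ((l.map (dg p v)).sum + (if F = v then 1 else 0) + (if G = v then 1 else 0)) := by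
  induction l generalizing F with
  | nil =>
    have h2 : F = G := h
    subst h2
    simp only [List.map_nil, List.sum_nil, zero_add]
    exact Even.add_self _
  | cons e l ih =>
    obtain ⟨b, hb, h⟩ := h
    have h3 := ih _ h
    have e1 : dg p v e = (if F = v then 1 else 0) + (if p e (!b) = v then 1 else 0) := by
      cases b <;> simp [dg, ← hb, add_comm]
    rw [List.map_cons, List.sum_cons, e1]
    rw [Nat.even_iff] at h3 ⊢
    omega

private lemma tot [Fintype E] [DecidableEq V] (p : E → Bool → V) (v : V)
    (heven : Even ((univ : Finset (E × Bool)).filter (fun x => p x.1 x.2 = v)).card) :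
    Even (∑ e, dg p v e) := by
  have h : ((univ : Finset (E × Bool)).filter (fun x => p x.1 x.2 = v)).card =
      ∑ e, dg p v e := by
    rw [card_filter, ← univ_product_univ, sum_product]
    refine sum_congr rfl fun e _ => ?_
    rw [Fintype.sum_bool]
    simp only [dg]
    rw [add_comm]
  rwa [h] at heven

private lemma find_edge [Fintype E] [DecidableEq E] [DecidableEq V] (p : E → Bool → V)
    (heven : ∀ v, Even ((univ : Finset (E × Bool)).filter (fun x => p x.1 x.2 = v)).card)
    (l l' : List E) (F F' G : V) (hn : (l ++ l').Nodup) (h : Trail p F l F)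
    (h' : Trail p F' l' G) (hG : G ≠ F') : ∃ e, e ∉ l ++ l' ∧ ∃ b, p e b = G := by
  by_contra hcon
  push Not at hcon
  have h1 := tot p G (heven G)
  have h2 : ∑ e, dg p G e = ∑ e ∈ (l ++ l').toFinset, dg p G e := by
    symm
    apply sum_subset (subset_univ _)
    intro e _ he
    rw [List.mem_toFinset] at he
    have h3 := hcon e he
    simp [dg, h3 false, h3 true]
  have h5 : ∑ e ∈ (l ++ l').toFinset, dg p G e =
      (l.map (dg p G)).sum + (l'.map (dg p G)).sum := by
    rw [List.sum_toFinset _ hn, List.map_append, List.sum_append]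
  rw [h2, h5] at h1
  have h3 := par p G l F F h
  have h4 := par p G l' F' G h'
  rw [if_neg hG.symm, if_pos rfl] at h4
  rw [Nat.even_iff] at h1 h3 h4
  split_ifs at h3 <;> omega

private lemma close_up [Fintype E] [DecidableEq E] [DecidableEq V] (p : E → Bool → V)
    (heven : ∀ v, Even ((univ : Finset (E × Bool)).filter (fun x => p x.1 x.2 = v)).card)
    (l : List E) (F : V) (h : Trail p F l F) (n : ℕ) :
    ∀ (l' : List E) (G : V), Fintype.card E - (l ++ l').length ≤ n → l' ≠ [] →
      (l ++ l').Nodup → Trail p F l' G →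
      ∃ l'' : List E, l'' ≠ [] ∧ (l ++ l'').Nodup ∧ Trail p F l'' F := by
  induction n with
  | zero =>
    intro l' G hc hne hn ht
    by_cases hG : G = F
    · subst hG; exact ⟨l', hne, hn, ht⟩
    · obtain ⟨e, he, -⟩ := find_edge p heven l l' F F G hn h ht hG
      have h1 : (e :: (l ++ l')).Nodup := List.nodup_cons.2 ⟨he, hn⟩
      have h2 := h1.length_le_card
      rw [List.length_cons] at h2
      omega
  | succ n ih =>
    intro l' G hc hne hn ht
    by_cases hG : G = F
    · subst hG; exact ⟨l', hne, hn, ht⟩
    · obtain ⟨e, he, b, hb⟩ := find_edge p heven l l' F F G hn h ht hG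
      refine ih (l' ++ [e]) (p e (!b)) ?_ (by simp) ?_ ?_
      · simp only [List.length_append, List.length_cons, List.length_nil] at hc ⊢
        omega
      · rw [← List.append_assoc]
        refine List.nodup_append.2 ⟨hn, List.nodup_singleton e, ?_⟩
        intro a ha b' hb'
        rw [List.mem_singleton] at hb'
        subst hb'
        rintro rfl
        exact he ha
      · rw [Euler_trail_append]
        exact ⟨G, ht, b, hb, rfl⟩

private lemma longer [Fintype E] [DecidableEq E] [DecidableEq V] (p : E → Bool → V)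
    (heven : ∀ v, Even ((univ : Finset (E × Bool)).filter (fun x => p x.1 x.2 = v)).card)
    (hconn : ∀ A : Set E, A.Nonempty → Aᶜ.Nonempty →
      ∃ a ∈ A, ∃ b ∈ Aᶜ, ∃ s t, p a s = p b t)
    (l : List E) (F : V) (hn : l.Nodup) (h : Trail p F l F) (e : E) (he : e ∉ l) :
    ∃ (l' : List E) (F' : V), l'.Nodup ∧ Trail p F' l' F' ∧ l.length < l'.length := by
  obtain ⟨l₁, F₁, hp, ht, e₀, b₀, he₀, hb₀⟩ : ∃ (l₁ : List E) (F₁ : V), l₁.Perm l ∧
      Trail p F₁ l₁ F₁ ∧ ∃ (e₀ : E) (b₀ : Bool), e₀ ∉ l ∧ p e₀ b₀ = F₁ := by
    rcases l.eq_nil_or_concat with rfl | ⟨_, _, hl⟩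
    · exact ⟨[], p e false, List.Perm.refl _, rfl, e, false, he, rfl⟩
    · have hne : l ≠ [] := by rw [hl]; simp
      obtain ⟨a₀, ha₀⟩ := List.exists_mem_of_ne_nil l hne
      obtain ⟨a, ha, b, hb, s, t, hst⟩ := hconn {x | x ∈ l} ⟨a₀, ha₀⟩ ⟨e, he⟩
      obtain ⟨l₁, l₂, rfl⟩ := List.append_of_mem ha
      rw [Euler_trail_append] at h
      obtain ⟨H, h1, b', hb', h2⟩ := h
      by_cases hs : s = b'
      · refine ⟨(a :: l₂) ++ l₁, H, List.perm_append_comm, ?_, b, t, hb, ?_⟩
        · rw [Euler_trail_append]
          exact ⟨F, ⟨b', hb', h2⟩, h1⟩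
        · rw [← hst, hs, hb']
      · have hs' : s = !b' := by
          cases s <;> cases b' <;> simp_all
        refine ⟨l₂ ++ (l₁ ++ [a]), p a (!b'), ?_, ?_, b, t, hb, ?_⟩
        · rw [← List.append_assoc]
          refine (List.perm_append_comm (l₁ := l₂ ++ l₁) (l₂ := [a])).trans ?_
          rw [List.singleton_append]
          refine (List.Perm.cons a List.perm_append_comm).trans ?_
          exact List.perm_middle.symm
        · rw [Euler_trail_append]
          refine ⟨F, h2, ?_⟩
          rw [Euler_trail_append]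
          exact ⟨H, h1, b', hb', rfl⟩
        · rw [← hst, hs']
  have hn₁ : l₁.Nodup := hp.nodup_iff.2 hn
  have he₁ : e₀ ∉ l₁ := fun h => he₀ (hp.mem_iff.1 h)
  obtain ⟨l'', h1, h2, h3⟩ := close_up p heven l₁ F₁ ht _ [e₀] (p e₀ (!b₀)) le_rfl (by simp)
    (List.nodup_append.2 ⟨hn₁, List.nodup_singleton _, by
      intro a ha b' hb'
      rw [List.mem_singleton] at hb'
      subst hb'
      rintro rfl
      exact he₁ ha⟩) ⟨b₀, hb₀, rfl⟩
  refine ⟨l₁ ++ l'', F₁, h2, ?_, ?_⟩
  · rw [Euler_trail_append]
    exact ⟨F₁, ht, h3⟩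
  · rw [List.length_append, hp.length_eq]
    have := List.length_pos_iff.2 h1
    omega

theorem exists_euler [Fintype E] [DecidableEq E] [DecidableEq V] [Nonempty E]
    (p : E → Bool → V) (hne : ∀ e, p e false ≠ p e true)
    (heven : ∀ v, Even ((univ : Finset (E × Bool)).filter (fun x => p x.1 x.2 = v)).card)
    (hconn : ∀ A : Set E, A.Nonempty → Aᶜ.Nonempty →
      ∃ a ∈ A, ∃ b ∈ Aᶜ, ∃ s t, p a s = p b t) :
    ∃ (l : List E) (F : V), l.Nodup ∧ (∀ e, e ∈ l) ∧ Trail p F l F := by
  obtain ⟨e₁⟩ := ‹Nonempty E›
  have key : ∀ (n : ℕ) (l : List E) (F : V), Fintype.card E - l.length ≤ n → l.Nodup →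
      Trail p F l F → ∃ (l : List E) (F : V), l.Nodup ∧ (∀ e, e ∈ l) ∧ Trail p F l F := by
    intro n
    induction n with
    | zero =>
      intro l F hc hn ht
      by_cases hall : ∀ e, e ∈ l
      · exact ⟨l, F, hn, hall, ht⟩
      · push Not at hall
        obtain ⟨e, he⟩ := hall
        obtain ⟨l', F', hn', ht', hlt⟩ := longer p heven hconn l F hn ht e he
        have := hn'.length_le_card
        omega
    | succ n ih =>
      intro l F hc hn ht
      by_cases hall : ∀ e, e ∈ l
      · exact ⟨l, F, hn, hall, ht⟩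
      · push Not at hall
        obtain ⟨e, he⟩ := hall
        obtain ⟨l', F', hn', ht', hlt⟩ := longer p heven hconn l F hn ht e he
        exact ih l' F' (by omega) hn' ht'
  exact key _ [] (p e₁ false) le_rfl List.nodup_nil rfl

end PHP
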