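import Mathlib
import Pool.Agent.PHP.Defs

/-!
# Parity of the number of ends at a cell

PROOF. Fix `X`. For a line `i` and a time `t` let `I i t` be `1` if `X j = S.vec i t j` for all `j ≠ i`, else `0`; `I i (-∞)`, `I i (+∞)` similarly with `S.v i false`, `S.v i true`
(these are the values for `t` below / above all crossing times of `i`; on non-crossing lines `v_ncr`).
For a crossing line `j` of `i` let `J i j = 1` if `X k = S.vec i (τ i j) k` for all `k ≠ i, j`, else `0`. By `hv` and symmetry `J i j = J j i`.
Along `i` exactly one sign (that of `j`) changes at the crossing with `j`, so `J i j` is the sum of the values of `I` just before and just after this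
crossing (exactly one of them has the right sign at `j`). Telescoping over the sorted crossings of `i`:
`I i (-∞) + I i (+∞) ≡ ∑_{j crosses i} J i j (mod 2)`. Summing over `i`: the number of ends at `X` is `≡ ∑_i ∑_{j crosses i} J i j = 2 ∑_{pairs} ≡ 0`.
Formalisation hint for the telescoping: work in `ZMod 2` or with `Even`, and use `Finset.induction_on_max_value` on the set of crossing lines of `i` ordered by `τ i`
(for a lower set `A` of crossing lines: `I_A + I_∅ = ∑_{j ∈ A} J i j`, where `I_A` is the indicator for the vector which is `v i true` on `A` and `v i false` off `A`).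
-/

namespace PHP

open Finset

variable {ι κ : Type} [DecidableEq ι] [DecidableEq κ]

open Classical in
/-- indicator with values modulo two -/
private noncomputable def pInd (p : Prop) : ZMod 2 := if p then 1 else 0

private theorem pInd_true {p : Prop} (h : p) : pInd p = 1 := by
  unfold pInd; exact if_pos h

private theorem pInd_false {p : Prop} (h : ¬ p) : pInd p = 0 := by
  unfold pInd; exact if_neg h

private theorem pInd_congr {p q : Prop} (h : p ↔ q) : pInd p = pInd q := by
  have : p = q := propext h
  rw [this]

/-- the signs along `i` after the crossings with the lines in `A` -/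
private def pW (S : Sys ι) (i : ι) (A : Finset ι) (k : ι) : Bool :=
  if k ∈ A then S.v i true k else S.v i false k

private noncomputable def pI (S : Sys ι) (X : ι → Bool) (i : ι) (A : Finset ι) : ZMod 2 :=
  pInd (∀ j, j ≠ i → X j = pW S i A j)

private noncomputable def pJ (S : Sys ι) (X : ι → Bool) (i j : ι) : ZMod 2 :=
  pInd (∀ k, k ≠ i → k ≠ j → X k = S.vec i (S.τ i j) k)

private theorem p_step (S : Sys ι) (X : ι → Bool) (i a : ι) (A : Finset ι) (ha : a ∉ A)
    (hcr : S.cr i a) (hA : ∀ k, k ∈ A ↔ S.cr i k ∧ S.τ i k < S.τ i a) :
    pI S X i (insert a A) + pI S X i A = pJ S X i a := by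
  have hai : a ≠ i := by
    rintro rfl
    exact S.cr_irrefl _ hcr
  have hvec : ∀ k, S.vec i (S.τ i a) k = pW S i A k := by
    intro k
    unfold Sys.vec vecOf pW
    by_cases hk : k ∈ A
    · rw [if_pos hk, if_pos ((hA k).1 hk)]
    · rw [if_neg hk, if_neg (fun h => hk ((hA k).2 h))]
  have hins : ∀ k, k ≠ a → pW S i (insert a A) k = pW S i A k := by
    intro k hk
    unfold pW
    by_cases hkA : k ∈ A
    · rw [if_pos hkA, if_pos (Finset.mem_insert_of_mem hkA)]
    · rw [if_neg hkA, if_neg (fun h => by
        rcases Finset.mem_insert.1 h with h | h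
        · exact hk h
        · exact hkA h)]
  have h1 : pW S i (insert a A) a = S.v i true a := by
    unfold pW; rw [if_pos (Finset.mem_insert_self a A)]
  have h0 : pW S i A a = S.v i false a := by
    unfold pW; rw [if_neg ha]
  have hflip := S.v_cr hcr
  by_cases hJ : ∀ k, k ≠ i → k ≠ a → X k = S.vec i (S.τ i a) k
  · have eJ : pJ S X i a = 1 := pInd_true hJ
    rw [eJ]
    by_cases hX : X a = S.v i true a
    · have e1 : pI S X i (insert a A) = 1 := by
        apply pInd_true
        intro j hj
        by_cases hja : j = a
        · rw [hja, h1, hX]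
        · rw [hins j hja, ← hvec j]
          exact hJ j hj hja
      have e2 : pI S X i A = 0 := by
        apply pInd_false
        intro h
        have h2 := h a hai
        rw [h0, hX, hflip] at h2
        cases hb : S.v i false a <;> rw [hb] at h2 <;> simp at h2
      rw [e1, e2, add_zero]
    · have e1 : pI S X i (insert a A) = 0 := by
        apply pInd_false
        intro h
        have h2 := h a hai
        rw [h1] at h2
        exact hX h2
      have e2 : pI S X i A = 1 := by
        apply pInd_true
        intro j hj
        by_cases hja : j = a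
        · rw [hja, h0]
          rw [hflip] at hX
          cases hb : S.v i false a <;> cases hb' : X a <;> rw [hb, hb'] at hX <;> simp at hX ⊢
        · rw [← hvec j]
          exact hJ j hj hja
      rw [e1, e2, zero_add]
  · have eJ : pJ S X i a = 0 := pInd_false hJ
    have e1 : pI S X i (insert a A) = 0 := by
      apply pInd_false
      intro h
      apply hJ
      intro k hki hka
      rw [h k hki, hins k hka, hvec k]
    have e2 : pI S X i A = 0 := by
      apply pInd_false
      intro h
      apply hJ
      intro k hki hka
      rw [h k hki, hvec k]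
    rw [eJ, e1, e2, add_zero]

private theorem p_chain (S : Sys ι) (X : ι → Bool) (i : ι) (A : Finset ι) :
    (∀ a ∈ A, S.cr i a) → (∀ a ∈ A, ∀ k, S.cr i k → S.τ i k < S.τ i a → k ∈ A) →
    pI S X i A + pI S X i ∅ = ∑ j ∈ A, pJ S X i j := by
  refine Finset.induction_on_max_value (fun k => S.τ i k) A ?_ ?_
  · intro _ _
    rw [Finset.sum_empty]
    exact CharTwo.add_self_eq_zero _
  · intro a B ha hmax ih hcr hlow
    have hcrB : ∀ b ∈ B, S.cr i b := fun b hb => hcr b (Finset.mem_insert_of_mem hb)
    have hlowB : ∀ b ∈ B, ∀ k, S.cr i k → S.τ i k < S.τ i b → k ∈ B := by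
      intro b hb k hk hlt
      have h1 := hlow b (Finset.mem_insert_of_mem hb) k hk hlt
      rcases Finset.mem_insert.1 h1 with h2 | h2
      · exfalso
        have h3 := hmax b hb
        rw [h2] at hlt
        exact absurd hlt (not_lt.2 h3)
      · exact h2
    have hcra := hcr a (Finset.mem_insert_self a B)
    have hiff : ∀ k, k ∈ B ↔ S.cr i k ∧ S.τ i k < S.τ i a := by
      intro k
      constructor
      · intro hk
        refine ⟨hcrB k hk, lt_of_le_of_ne (hmax k hk) ?_⟩
        intro heq
        have := S.τ_inj (hcrB k hk) hcra heq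
        rw [this] at hk
        exact ha hk
      · rintro ⟨h1, h2⟩
        have h3 := hlow a (Finset.mem_insert_self a B) k h1 h2
        rcases Finset.mem_insert.1 h3 with h4 | h4
        · rw [h4] at h2
          exact absurd h2 (lt_irrefl _)
        · exact h4
    have hs := p_step S X i a B ha hcra hiff
    have ih' := ih hcrB hlowB
    rw [Finset.sum_insert ha, ← ih', ← hs]
    have h2 : pI S X i B + pI S X i B = 0 := CharTwo.add_self_eq_zero _
    calc pI S X i (insert a B) + pI S X i ∅
        = pI S X i (insert a B) + (pI S X i B + pI S X i B) + pI S X i ∅ := by rw [h2, add_zero]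
      _ = _ := by ring

/-- Parity of the number of ends at a cell (`hv`: at a crossing point the signs of the other
lines are the same whether they are computed along `i` or along `j`). -/
theorem Sys.even_ends [Fintype ι] (S : Sys ι)
    (hv : ∀ i j, S.cr i j → ∀ k, k ≠ i → k ≠ j → S.vec i (S.τ i j) k = S.vec j (S.τ j i) k)
    (X : ι → Bool) (D : Finset (ι × Bool))
    (hD : ∀ e, e ∈ D ↔ ∀ j, j ≠ e.1 → X j = S.v e.1 e.2 j) : Even D.card := by
  classical
  rw [← ZMod.natCast_eq_zero_iff_even]
  have hcard : (D.card : ZMod 2) = ∑ e : ι × Bool, pInd (∀ j, j ≠ e.1 → X j = S.v e.1 e.2 j) := by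
    have h1 : D = Finset.univ.filter (fun e : ι × Bool => ∀ j, j ≠ e.1 → X j = S.v e.1 e.2 j) := by
      ext e
      rw [Finset.mem_filter, hD]
      simp
    rw [h1, Finset.card_filter, Nat.cast_sum]
    apply Finset.sum_congr rfl
    intro e _
    by_cases he : ∀ j, j ≠ e.1 → X j = S.v e.1 e.2 j
    · rw [if_pos he, pInd_true he, Nat.cast_one]
    · rw [if_neg he, pInd_false he, Nat.cast_zero]
  rw [hcard, Fintype.sum_prod_type]
  have hrow : ∀ i, ∑ ε : Bool, pInd (∀ j, j ≠ i → X j = S.v i ε j) =
      ∑ j, if S.cr i j then pJ S X i j else 0 := by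
    intro i
    have hch := p_chain S X i (Finset.univ.filter (fun k => S.cr i k))
      (fun a ha => (Finset.mem_filter.1 ha).2)
      (fun a _ k hk _ => Finset.mem_filter.2 ⟨Finset.mem_univ k, hk⟩)
    rw [Finset.sum_filter] at hch
    rw [← hch, Fintype.sum_bool]
    congr 1
    · apply pInd_congr
      refine forall_congr' fun j => ?_
      refine imp_congr_right fun hj => ?_
      have h2 : pW S i (Finset.univ.filter (fun k => S.cr i k)) j = S.v i true j := by
        unfold pW
        by_cases hcr : S.cr i j
        · rw [if_pos (Finset.mem_filter.2 ⟨Finset.mem_univ j, hcr⟩)]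
        · rw [if_neg (fun h => hcr (Finset.mem_filter.1 h).2)]
          exact (S.v_ncr (Ne.symm hj) hcr).symm
      rw [h2]
  rw [Finset.sum_congr rfl (fun i _ => hrow i), ← Fintype.sum_prod_type
    (f := fun x : ι × ι => if S.cr x.1 x.2 then pJ S X x.1 x.2 else 0)]
  refine Finset.sum_involution (fun x _ => (x.2, x.1)) ?_ ?_ ?_ ?_
  · intro x _
    by_cases hcr : S.cr x.1 x.2
    · have hcr' : S.cr x.2 x.1 := S.cr_symm hcr
      simp only
      rw [if_pos hcr, if_pos hcr']
      have h3 : pJ S X x.2 x.1 = pJ S X x.1 x.2 := by
        apply pInd_congr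
        constructor
        · intro h k h1 h2
          rw [h k h2 h1, hv x.1 x.2 hcr k h1 h2]
        · intro h k h1 h2
          rw [h k h2 h1, hv x.1 x.2 hcr k h2 h1]
      rw [h3]
      exact CharTwo.add_self_eq_zero _
    · have hcr' : ¬ S.cr x.2 x.1 := fun h => hcr (S.cr_symm h)
      simp only
      rw [if_neg hcr, if_neg hcr', add_zero]
  · intro x _ hne heq
    apply hne
    have h4 : x.2 = x.1 := congrArg Prod.fst heq
    rw [if_neg]
    rw [h4]
    exact S.cr_irrefl _
  · intro x _
    exact Finset.mem_univ _
  · intro x _
    rfl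

end PHP
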