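import Mathlib
import Pool.Agent.PHP.ArrSys
import Pool.Agent.PHP.ArrConn
import Pool.Agent.PHP.Euler
import Pool.Agent.PHP.SysParity

/-!
# The circular list of an arrangement

PROOF. `exists_euler` with edges `ι × Bool`, `p e b = Function.update (S.v e.1 e.2) e.1 b`, evenness from `Sys.even_ends` (the number of pairs `(e, b)` with `p e b = X` is the number of `e` with `X = v e.1 e.2` off `e.1`; the hypothesis `hv` of `even_ends`: the crossing point `γ_i (τ i j) = γ_j (τ j i)` lies on exactly one side
of `k`, given by both formulas), connectivity from `conn_infty`. A closed trail is a `Walk` (induction on the list).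
-/

namespace PHP

open Filter Topology Set

variable {ι : Type}

theorem ArrCirc_walk [DecidableEq ι] (S : Sys ι) (l : List (ι × Bool)) : ∀ (F G : ι → Bool),
    Trail (fun (e : ι × Bool) (b : Bool) => Function.update (S.v e.1 e.2) e.1 b) F l G →
    S.Walk F l := by
  induction l with
  | nil => intro F G _; trivial
  | cons e l ih =>
    rintro F G ⟨b, hb, ht⟩
    refine ⟨fun j hj => ?_, ?_⟩
    · rw [← hb]
      simp only
      rw [Function.update_of_ne hj]
    · have h1 : F e.1 = b := by
        rw [← hb]
        simp only
        rw [Function.update_self]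
      have h2 : Function.update F e.1 (!(F e.1)) =
          Function.update (S.v e.1 e.2) e.1 (!b) := by
        rw [h1, ← hb]
        simp only
        rw [Function.update_idem]
      rw [h2]
      exact ih _ _ ht

theorem ArrCirc_side_unique (L : TLine) {z : ℂ} {a b : Bool} (ha : z ∈ L.side a)
    (hb : z ∈ L.side b) : a = b := by
  by_contra hab
  have h := L.side_disj
  cases a <;> cases b <;> simp at hab
  · exact Set.disjoint_left.mp h hb ha
  · exact Set.disjoint_left.mp h ha hb

/-- The system of an arrangement has a circular list of ends at infinity. -/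
theorem PHArr.exists_circ [Fintype ι] [DecidableEq ι] [Nonempty ι] (A : PHArr ι) :
    ∃ (S : Sys ι) (F : ι → Bool) (l : List (ι × Bool)), S.T = A.cells ∧ S.Circ F l := by
  classical
  obtain ⟨S, hT, hcr, hτ, hside⟩ := A.exists_sys
  have hv : ∀ i j, S.cr i j → ∀ k, k ≠ i → k ≠ j →
      S.vec i (S.τ i j) k = S.vec j (S.τ j i) k := by
    intro i j hij k hki hkj
    have h1 := hside i k (Ne.symm hki) (S.τ i j) (fun hik h => hkj (S.τ_inj hik hij h))
    have h2 := hside j k (Ne.symm hkj) (S.τ j i)
      (fun hjk h => hki (S.τ_inj hjk (S.cr_symm hij) h))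
    rw [hτ i j hij] at h1
    exact ArrCirc_side_unique _ h1 h2
  have key := exists_euler
    (fun (e : ι × Bool) (b : Bool) => Function.update (S.v e.1 e.2) e.1 b) ?_ ?_ ?_
  · obtain ⟨l, F, hnd, hall, htr⟩ := key
    exact ⟨S, F, l, hT, ArrCirc_walk S l F F htr, hnd, hall⟩
  · intro e h
    have := congrFun h e.1
    simp at this
  · intro X
    have h1 := Sys.even_ends S hv X
      (Finset.univ.filter fun e : ι × Bool => ∀ j, j ≠ e.1 → X j = S.v e.1 e.2 j)
      (fun e => by simp)
    have h2 : (Finset.univ : Finset ((ι × Bool) × Bool)).filter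
        (fun x => Function.update (S.v x.1.1 x.1.2) x.1.1 x.2 = X) =
        (Finset.univ.filter fun e : ι × Bool => ∀ j, j ≠ e.1 → X j = S.v e.1 e.2 j).image
          (fun e => (e, X e.1)) := by
      ext ⟨e, b⟩
      simp only [Finset.mem_filter, Finset.mem_univ, true_and, Finset.mem_image, Prod.mk.injEq]
      constructor
      · intro h
        refine ⟨e, fun j hj => ?_, rfl, ?_⟩
        · rw [← h, Function.update_of_ne hj]
        · rw [← h, Function.update_self]
      · rintro ⟨e', h, rfl, rfl⟩
        funext j
        by_cases hj : j = e'.1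
        · subst hj; rw [Function.update_self]
        · rw [Function.update_of_ne hj, h j hj]
    rw [h2, Finset.card_image_of_injective _ (fun a b h => (Prod.mk.inj h).1)]
    exact h1
  · intro E h1 h2
    exact A.conn_infty S hT hcr hτ hside E h1 h2

end PHP
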