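import Mathlib
import Pool.Agent.PHP.Defs

/-!
# The number of cells (Sauer-Shelah)
-/

namespace PHP

open Finset

theorem asym_sum_choose (n d : ℕ) (hd : d ≤ 2) :
    ∑ k ∈ Iic d, n.choose k ≤ (n + 1) ^ 2 := by
  have h1 : Iic d ⊆ Iic 2 := Iic_subset_Iic.2 hd
  have h2 : ∑ k ∈ Iic d, n.choose k ≤ ∑ k ∈ Iic 2, n.choose k :=
    sum_le_sum_of_subset h1
  have h3 : (Iic 2 : Finset ℕ) = {0, 1, 2} := by
    ext x
    simp only [mem_Iic, mem_insert, mem_singleton]
    omega
  have h4 : n.choose 2 ≤ n ^ 2 := Nat.choose_le_pow n 2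
  rw [h3] at h2
  rw [sum_insert (by simp), sum_insert (by simp), sum_singleton, Nat.choose_zero_right,
    Nat.choose_one_right] at h2
  nlinarith

/-- A set family without a shattered triple is small. -/
theorem asym_card_family {κ : Type} [Fintype κ] [DecidableEq κ] (A : Finset (Finset κ))
    (hA : ∀ s : Finset κ, s.card = 3 → ¬ A.Shatters s) :
    A.card ≤ (Fintype.card κ + 1) ^ 2 := by
  have hvc : A.vcDim ≤ 2 := by
    unfold Finset.vcDim
    apply Finset.sup_le
    intro s hs
    rw [mem_shatterer] at hs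
    by_contra hcon
    obtain ⟨t, ht1, ht2⟩ := Finset.exists_subset_card_eq (s := s) (n := 3) (by omega)
    exact hA t ht2 (hs.mono_right ht1)
  exact (card_le_card_shatterer A).trans
    ((card_shatterer_le_sum_vcDim).trans (asym_sum_choose _ _ hvc))

/-- The number of cells of a system on `n` elements is at most `(n+1)^2`. -/
theorem Sys.asym_card_cells {κ : Type} [Fintype κ] [DecidableEq κ] (S : Sys κ)
    (A : Finset (Finset κ)) (hA : ∀ a ∈ A, ∃ X ∈ S.T, ∀ i, i ∈ a ↔ X i = false) :
    A.card ≤ (Fintype.card κ + 1) ^ 2 := by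
  apply asym_card_family
  intro s hs hsh
  obtain ⟨i, j, k, hij, hik, hjk, rfl⟩ := card_eq_three.1 hs
  obtain ⟨p, q, r, hpqr⟩ := S.triple hij hjk hik
  obtain ⟨u, hu, hu2⟩ := hsh (t := ({i, j, k} : Finset κ).filter
    (fun x => (x = i ∧ p = false) ∨ (x = j ∧ q = false) ∨ (x = k ∧ r = false)))
    (filter_subset _ _)
  obtain ⟨X, hX, hXu⟩ := hA u hu
  have key : ∀ x ∈ ({i, j, k} : Finset κ), (X x = false ↔
      ((x = i ∧ p = false) ∨ (x = j ∧ q = false) ∨ (x = k ∧ r = false))) := by
    intro x hx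
    rw [← hXu x]
    have h1 : x ∈ ({i, j, k} : Finset κ) ∩ u ↔ x ∈ ({i, j, k} : Finset κ).filter
        (fun x => (x = i ∧ p = false) ∨ (x = j ∧ q = false) ∨ (x = k ∧ r = false)) := by
      rw [hu2]
    rw [mem_inter, mem_filter] at h1
    tauto
  apply hpqr X hX
  have e1 := key i (by simp)
  have e2 := key j (by simp)
  have e3 := key k (by simp)
  refine ⟨?_, ?_, ?_⟩
  · cases hp : p
    · exact e1.2 (Or.inl ⟨rfl, hp⟩)
    · by_contra hcon
      have h0 : X i = false := by simpa using hcon
      rcases e1.1 h0 with h | h | h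
      · rw [hp] at h; exact absurd h.2 (by simp)
      · exact hij h.1
      · exact hik h.1
  · cases hq : q
    · exact e2.2 (Or.inr (Or.inl ⟨rfl, hq⟩))
    · by_contra hcon
      have h0 : X j = false := by simpa using hcon
      rcases e2.1 h0 with h | h | h
      · exact hij h.1.symm
      · rw [hq] at h; exact absurd h.2 (by simp)
      · exact hjk h.1
  · cases hr : r
    · exact e3.2 (Or.inr (Or.inr ⟨rfl, hr⟩))
    · by_contra hcon
      have h0 : X k = false := by simpa using hcon
      rcases e3.1 h0 with h | h | h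
      · exact hik h.1.symm
      · exact hjk h.1.symm
      · rw [hr] at h; exact absurd h.2 (by simp)

end PHP
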