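import Mathlib

/-!
# Sampling one fifth of a family (Chernoff bound and union bound)
-/

namespace PHP

open Finset

/-- the centred weight: `4` on the sampled class, `-1` elsewhere -/
noncomputable def smpG (a : Fin 5) : ℝ := if a = 0 then 4 else -1

theorem smp_exp (u : ℝ) (hu : |u| ≤ 1 / 4) :
    Real.exp (4 * u) + 4 * Real.exp (-u) ≤ 5 * Real.exp (4 * u ^ 2) := by
  have h1 : |4 * u| ≤ 1 := by
    rw [abs_mul]
    norm_num
    linarith
  have h2 : |(-u)| ≤ 1 := by
    rw [abs_neg]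
    linarith
  have e1 := (abs_le.1 (Real.abs_exp_sub_one_sub_id_le h1)).2
  have e2 := (abs_le.1 (Real.abs_exp_sub_one_sub_id_le h2)).2
  have e3 := Real.add_one_le_exp (4 * u ^ 2)
  nlinarith

theorem smp_fin5 (u : ℝ) :
    ∑ a : Fin 5, Real.exp (smpG a * u) = Real.exp (4 * u) + 4 * Real.exp (-u) := by
  simp only [Fin.sum_univ_five, smpG]
  have h1 : ((1 : Fin 5) = 0) = False := by decide
  have h2 : ((2 : Fin 5) = 0) = False := by decide
  have h3 : ((3 : Fin 5) = 0) = False := by decide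
  have h4 : ((4 : Fin 5) = 0) = False := by decide
  simp only [h1, h2, h3, h4, if_false, if_true]
  ring_nf

theorem smp_mgf {α : Type} [Fintype α] [DecidableEq α] (w : α → ℝ) (lam : ℝ)
    (hlam : 0 ≤ lam) (hlam2 : lam ≤ 1 / 12) (hw : ∀ t, |w t| ≤ 3) :
    ∑ f : α → Fin 5, Real.exp (lam * ∑ t, smpG (f t) * w t) ≤
      5 ^ Fintype.card α * Real.exp (36 * lam ^ 2 * Fintype.card α) := by
  have h1 : ∀ f : α → Fin 5, Real.exp (lam * ∑ t, smpG (f t) * w t) =
      ∏ t, Real.exp (smpG (f t) * (lam * w t)) := by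
    intro f
    rw [← Real.exp_sum, mul_sum]
    congr 1
    apply sum_congr rfl
    intro t _
    ring
  rw [sum_congr rfl (fun f _ => h1 f)]
  have h2 : ∑ f : α → Fin 5, ∏ t, Real.exp (smpG (f t) * (lam * w t)) =
      ∏ t, ∑ a : Fin 5, Real.exp (smpG a * (lam * w t)) := by
    rw [Finset.prod_univ_sum, Fintype.piFinset_univ]
  rw [h2]
  have h3 : ∀ t ∈ (univ : Finset α), ∑ a : Fin 5, Real.exp (smpG a * (lam * w t)) ≤
      5 * Real.exp (36 * lam ^ 2) := by
    intro t _
    rw [smp_fin5]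
    have habs : |lam * w t| ≤ 1 / 4 := by
      rw [abs_mul, abs_of_nonneg hlam]
      have := hw t
      nlinarith [abs_nonneg (w t)]
    refine (smp_exp _ habs).trans ?_
    have h5 : 4 * (lam * w t) ^ 2 ≤ 36 * lam ^ 2 := by
      have h6 : (w t) ^ 2 ≤ 9 := by
        have := hw t
        rw [← sq_abs]
        nlinarith [abs_nonneg (w t)]
      nlinarith [sq_nonneg lam]
    have := Real.exp_le_exp.2 h5
    linarith
  refine (Finset.prod_le_prod (fun t _ => sum_nonneg fun a _ => (Real.exp_pos _).le) h3).trans ?_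
  rw [prod_const, card_univ, mul_pow, ← Real.exp_nat_mul]
  apply le_of_eq
  congr 2
  ring

theorem smp_tail {α : Type} [Fintype α] [DecidableEq α] (w : α → ℝ) (lam s : ℝ)
    (hlam : 0 ≤ lam) (hlam2 : lam ≤ 1 / 12) (hw : ∀ t, |w t| ≤ 3) :
    ((univ.filter (fun f : α → Fin 5 => s ≤ ∑ t, smpG (f t) * w t)).card : ℝ) ≤
      5 ^ Fintype.card α * Real.exp (36 * lam ^ 2 * Fintype.card α - lam * s) := by
  have h1 : ((univ.filter (fun f : α → Fin 5 => s ≤ ∑ t, smpG (f t) * w t)).card : ℝ) *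
      Real.exp (lam * s) ≤ ∑ f : α → Fin 5, Real.exp (lam * ∑ t, smpG (f t) * w t) := by
    rw [← nsmul_eq_mul, ← sum_const]
    refine (sum_le_sum (g := fun f : α → Fin 5 => Real.exp (lam * ∑ t, smpG (f t) * w t))
      ?_).trans (sum_le_sum_of_subset_of_nonneg (filter_subset _ _)
        (fun f _ _ => (Real.exp_pos _).le))
    intro f hf
    rw [mem_filter] at hf
    exact Real.exp_le_exp.2 (mul_le_mul_of_nonneg_left hf.2 hlam)
  have h2 := h1.trans (smp_mgf w lam hlam hlam2 hw)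
  have h3 : Real.exp (36 * lam ^ 2 * Fintype.card α) =
      Real.exp (36 * lam ^ 2 * Fintype.card α - lam * s) * Real.exp (lam * s) := by
    rw [← Real.exp_add]
    congr 1
    ring
  rw [h3, ← mul_assoc] at h2
  exact le_of_mul_le_mul_right h2 (Real.exp_pos _)

theorem smp_sum {α : Type} [Fintype α] [DecidableEq α] (w : α → ℝ) (f : α → Fin 5) :
    ∑ t, smpG (f t) * w t = 5 * ∑ t ∈ univ.filter (fun t => f t = 0), w t - ∑ t, w t := by
  rw [sum_filter, mul_sum, ← sum_sub_distrib]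
  apply sum_congr rfl
  intro t _
  unfold smpG
  split_ifs <;> ring

/-- the size from which sampling works -/
def smpN : ℕ := 1800000000

theorem smp_num (N : ℕ) (hN : smpN ≤ N) :
    (((3 * (N : ℝ) + 1) ^ 2 + 1)) * Real.exp (-((N : ℝ) / 36000000)) < 1 := by
  have hN' : (1800000000 : ℝ) ≤ N := by
    have : ((smpN : ℕ) : ℝ) ≤ N := by exact_mod_cast hN
    unfold smpN at this
    push_cast at this
    exact this
  set x : ℝ := (N : ℝ) / 36000000 with hx
  have hx50 : 50 ≤ x := by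
    rw [hx, le_div_iff₀ (by norm_num)]
    linarith
  have hNx : (N : ℝ) = 36000000 * x := by
    rw [hx]
    ring
  have h1 := Real.pow_div_factorial_le_exp x (by linarith) 40
  have h2 : (((3 * (N : ℝ) + 1) ^ 2 + 1)) < Real.exp x := by
    refine lt_of_lt_of_le ?_ h1
    have h4 : (((3 * (N : ℝ) + 1) ^ 2 + 1)) ≤ 17 * (N : ℝ) ^ 2 := by nlinarith
    have h5 : 17 * (N : ℝ) ^ 2 < x ^ 40 / (Nat.factorial 40 : ℝ) := by
      have hf : (0 : ℝ) < (Nat.factorial 40 : ℝ) := by positivity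
      rw [lt_div_iff₀ hf, hNx]
      have h6 : x ^ 40 = x ^ 2 * x ^ 38 := by rw [← pow_add]
      have h7 : (50 : ℝ) ^ 38 ≤ x ^ 38 := pow_le_pow_left₀ (by norm_num) hx50 38
      have h8 : (17 : ℝ) * 36000000 ^ 2 * (Nat.factorial 40 : ℝ) < 50 ^ 38 := by
        norm_num [Nat.factorial]
      have h9 : 0 < x ^ 2 := by positivity
      rw [h6]
      calc 17 * (36000000 * x) ^ 2 * (Nat.factorial 40 : ℝ)
          = x ^ 2 * (17 * 36000000 ^ 2 * (Nat.factorial 40 : ℝ)) := by ring
        _ < x ^ 2 * x ^ 38 := mul_lt_mul_of_pos_left (h8.trans_le h7) h9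
    linarith
  rw [Real.exp_neg, ← div_eq_mul_inv, div_lt_one (Real.exp_pos _)]
  exact h2

/-- **Sampling.** One fifth of a large family can be chosen so that every given bounded weight
function (there are few) has at most its share on it. -/
theorem smp_exists {α : Type} [Fintype α] [DecidableEq α] (W : Finset (α → ℕ))
    (hW : ∀ w ∈ W, ∀ t, w t ≤ 3) (hcard : W.card ≤ (3 * Fintype.card α + 1) ^ 2)
    (hN : smpN ≤ Fintype.card α) :
    ∃ Q : Finset α, 499 * Fintype.card α ≤ 2500 * Q.card ∧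
      ∀ w ∈ W, 2500 * ∑ t ∈ Q, w t ≤ 500 * ∑ t, w t + Fintype.card α := by
  set N := Fintype.card α with hNdef
  set lam : ℝ := 1 / 36000 with hlam
  set s : ℝ := (N : ℝ) / 500 with hs
  -- the bad choices
  let bad : (α → ℝ) → Finset (α → Fin 5) := fun w =>
    univ.filter (fun f : α → Fin 5 => s ≤ ∑ t, smpG (f t) * w t)
  have hbad : ∀ w : α → ℝ, (∀ t, |w t| ≤ 3) →
      ((bad w).card : ℝ) ≤ 5 ^ N * Real.exp (-((N : ℝ) / 36000000)) := by
    intro w hw
    refine (smp_tail w lam s (by positivity) (by rw [hlam]; norm_num) hw).trans ?_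
    apply le_of_eq
    congr 2
    rw [hlam, hs]
    ring
  let Bad : Finset (α → Fin 5) := bad (fun _ => -1) ∪ W.biUnion (fun w => bad (fun t => (w t : ℝ)))
  have hBad : (Bad.card : ℝ) < 5 ^ N := by
    have h1 : (Bad.card : ℝ) ≤ (bad (fun _ => -1)).card +
        ∑ w ∈ W, ((bad (fun t => (w t : ℝ))).card : ℝ) := by
      have h2 : Bad.card ≤ (bad (fun _ => -1)).card +
        ∑ w ∈ W, (bad (fun t => (w t : ℝ))).card :=
        (card_union_le _ _).trans (Nat.add_le_add_left card_biUnion_le _)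
      exact_mod_cast h2
    have h3 : ((bad (fun _ => -1)).card : ℝ) ≤ 5 ^ N * Real.exp (-((N : ℝ) / 36000000)) :=
      hbad _ (fun t => by norm_num)
    have h4 : ∑ w ∈ W, ((bad (fun t => (w t : ℝ))).card : ℝ) ≤
        (3 * (N : ℝ) + 1) ^ 2 * (5 ^ N * Real.exp (-((N : ℝ) / 36000000))) := by
      refine (sum_le_sum (fun w hw => hbad _ (fun t => ?_))).trans ?_
      · rw [abs_of_nonneg (Nat.cast_nonneg _)]
        exact_mod_cast hW w hw t
      · rw [sum_const, nsmul_eq_mul]
        apply mul_le_mul_of_nonneg_right _ (by positivity)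
        exact_mod_cast hcard
    have h5 := smp_num N hN
    have h6 : (0 : ℝ) < 5 ^ N := by positivity
    calc (Bad.card : ℝ) ≤ _ := h1
      _ ≤ 5 ^ N * Real.exp (-((N : ℝ) / 36000000)) +
        (3 * (N : ℝ) + 1) ^ 2 * (5 ^ N * Real.exp (-((N : ℝ) / 36000000))) := add_le_add h3 h4
      _ = 5 ^ N * (((3 * (N : ℝ) + 1) ^ 2 + 1) * Real.exp (-((N : ℝ) / 36000000))) := by ring
      _ < 5 ^ N * 1 := mul_lt_mul_of_pos_left h5 h6
      _ = 5 ^ N := mul_one _
  have hBad2 : Bad.card < (univ : Finset (α → Fin 5)).card := by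
    rw [card_univ, Fintype.card_fun, Fintype.card_fin]
    exact_mod_cast hBad
  obtain ⟨f, -, hf⟩ := exists_mem_notMem_of_card_lt_card hBad2
  have hf1 : f ∉ bad (fun _ => -1) := fun h => hf (mem_union_left _ h)
  have hf2 : ∀ w ∈ W, f ∉ bad (fun t => (w t : ℝ)) := fun w hw h =>
    hf (mem_union_right _ (mem_biUnion.2 ⟨w, hw, h⟩))
  refine ⟨univ.filter (fun t => f t = 0), ?_, ?_⟩
  · simp only [bad, mem_filter, mem_univ, true_and, not_le] at hf1
    rw [smp_sum] at hf1
    simp only [sum_const, card_univ, nsmul_eq_mul, mul_neg, mul_one] at hf1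
    rw [hs, ← hNdef] at hf1
    have h7 : (499 : ℝ) * N ≤ 2500 * ((univ.filter (fun t => f t = 0)).card : ℝ) := by linarith
    exact_mod_cast h7
  · intro w hw
    have h8 := hf2 w hw
    simp only [bad, mem_filter, mem_univ, true_and, not_le] at h8
    rw [smp_sum, hs] at h8
    have h9 : (2500 : ℝ) * ∑ t ∈ univ.filter (fun t => f t = 0), (w t : ℝ) ≤
        500 * ∑ t, (w t : ℝ) + N := by linarith
    exact_mod_cast h9

end PHP
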