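import Mathlib
import Pool.Agent.PHP.Defs

/-!
# Sweeps: basic facts

Write `x < y` for `pos 0 x < pos 0 y`. Each step only swaps pairs in initial order, so for `x < y` there is at most one step at which their order changes; by `rev` there is exactly one,
`exists_swap_time` gives it. For a cell `X = cell F s p`, `X̂ i = decide (pos s i < p)` is the relative sign: if `x < y`, `X̂ x`, `¬ X̂ y` then `s ≤ t x y`; if `¬ X̂ x`, `X̂ y` then `t x y < s`.

PROOF of `swap_between` (three letters `a < b < c`, swap times `t`): at the step at which `a`, `c` are swapped they are adjacent, so `b` is before both (then `a b` have been swapped and `b c` not yet)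
or after both. So `t a b < t a c < t b c` or `t b c < t a c < t a b`.

PROOF of `triple`: for `a < b < c`; in the first case no cell has `X̂ = (1, 0, 1)` (it would need `s ≤ t a b` and `t b c < s`), in the second case no cell has `X̂ = (0, 1, 0)`
(it would need `t a b < s ≤ t b c`). Translate with `F` and permute.

PROOF of `exists_step`. Let `X` be the cell `(s, p)`, `Y` the cell `(s', p')`; all cells are prefix sets `X̂ = {i | pos s i < p}`. By taking for `s` a time at which `X̂` is a prefix set and which is as close as possible to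
a time at which `Ŷ` is a prefix set we may assume: either a common time `s = s'` exists: then `p ≠ p'` and the letter at position `p` (if `p < p'`) or `p-1` (if `p' < p`) can be flipped. Or there is none; say all times of `X̂` are
before those of `Ŷ` (the set of times of a prefix set is an interval; let `s` be the last time of `X̂`; the mirror case is similar with the first time): the step at time `s` destroys the prefix `X̂`, so it swaps the letters `x` (last letter in `X̂`) and `y` (first letter not in `X̂`). The prefix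
sets `X̂ \ {x}` and `X̂ ∪ {y}` are cells at time `s`. After time `s` the letter `y` is before `x` for ever, so not (`x ∈ Ŷ` and `y ∉ Ŷ`): if `x ∉ Ŷ` flip `x`, if `y ∈ Ŷ` flip `y`.
-/

namespace PHP

open Finset

variable {ι : Type} [Fintype ι] [DecidableEq ι]

set_option linter.unusedSectionVars false

omit [DecidableEq ι] in
/-- if the order of a pair changes in one step then this pair is swapped -/
private theorem SweepBasic_adj (W : Sweep ι) {s : ℕ} {x y : ι} (h1 : W.pos s x < W.pos s y)
    (h2 : W.pos (s+1) y < W.pos (s+1) x) :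
    W.pos s y = W.pos s x + 1 ∧ W.pos 0 x < W.pos 0 y ∧
    W.pos (s+1) x = W.pos s y ∧ W.pos (s+1) y = W.pos s x ∧
    ∀ z, z ≠ x → z ≠ y → W.pos (s+1) z = W.pos s z := by
  rcases W.step s with h | ⟨a, b, hab, h0, ha, hb, hz⟩
  · rw [h] at h2
    omega
  · have hxy : x ≠ y := by
      rintro rfl
      omega
    by_cases hxa : x = a
    · subst hxa
      by_cases hyb : y = b
      · subst hyb
        exact ⟨hab, h0, ha, hb, hz⟩
      · have h3 := hz y hxy.symm hyb
        have h4 : W.pos s y ≠ W.pos s b := fun h => hyb (W.inj s h)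
        omega
    · by_cases hxb : x = b
      · subst hxb
        by_cases hya : y = a
        · subst hya
          omega
        · have h3 := hz y hya hxy.symm
          omega
      · have h3 := hz x hxa hxb
        by_cases hya : y = a
        · subst hya
          omega
        · by_cases hyb : y = b
          · subst hyb
            have h4 : W.pos s x ≠ W.pos s a := fun h => hxa (W.inj s h)
            omega
          · have h5 := hz y hya hyb
            omega

omit [DecidableEq ι] in
private theorem SweepBasic_mono (W : Sweep ι) {x y : ι} (h : W.pos 0 x < W.pos 0 y) {s : ℕ}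
    (hs : W.pos s y < W.pos s x) : W.pos (s+1) y < W.pos (s+1) x := by
  by_contra hc
  have hne : x ≠ y := by
    rintro rfl
    omega
  have h1 : W.pos (s+1) x ≠ W.pos (s+1) y := fun h => hne (W.inj _ h)
  have h2 := SweepBasic_adj W hs (by omega)
  omega

omit [DecidableEq ι] in
private theorem SweepBasic_mono' (W : Sweep ι) {x y : ι} (h : W.pos 0 x < W.pos 0 y) {s : ℕ}
    (hs : W.pos s y < W.pos s x) (r : ℕ) (hr : s ≤ r) : W.pos r y < W.pos r x := by
  induction r, hr using Nat.le_induction with
  | base => exact hs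
  | succ r _ ih => exact SweepBasic_mono W h ih

/-- the swap time of a pair -/
theorem Sweep.exists_swap_time (W : Sweep ι) {x y : ι} (h : W.pos 0 x < W.pos 0 y) :
    ∃ t, t < W.N ∧ (∀ s, s ≤ t → W.pos s x < W.pos s y) ∧ (∀ s, t < s → W.pos s y < W.pos s x) := by
  classical
  have hne : x ≠ y := by
    rintro rfl
    omega
  have hex : ∃ s, W.pos s y < W.pos s x := by
    refine ⟨W.N, ?_⟩
    have h1 := W.rev x
    have h2 := W.rev y
    omega
  have hN : Nat.find hex ≤ W.N := by
    apply Nat.find_min'
    have h1 := W.rev x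
    have h2 := W.rev y
    omega
  have h0 : Nat.find hex ≠ 0 := by
    intro h0
    have h1 := Nat.find_spec hex
    rw [h0] at h1
    omega
  refine ⟨Nat.find hex - 1, by omega, ?_, ?_⟩
  · intro s hs
    have h1 : ¬ W.pos s y < W.pos s x := Nat.find_min hex (by omega)
    have h2 : W.pos s x ≠ W.pos s y := fun h => hne (W.inj _ h)
    omega
  · intro s hs
    exact SweepBasic_mono' W h (Nat.find_spec hex) s (by omega)

/-- three letters -/
theorem Sweep.swap_between (W : Sweep ι) {a b c : ι} (hab : W.pos 0 a < W.pos 0 b)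
    (hbc : W.pos 0 b < W.pos 0 c) {t₁ t₂ t₃ : ℕ}
    (h1 : (∀ s, s ≤ t₁ → W.pos s a < W.pos s b) ∧ (∀ s, t₁ < s → W.pos s b < W.pos s a))
    (h2 : (∀ s, s ≤ t₂ → W.pos s a < W.pos s c) ∧ (∀ s, t₂ < s → W.pos s c < W.pos s a))
    (h3 : (∀ s, s ≤ t₃ → W.pos s b < W.pos s c) ∧ (∀ s, t₃ < s → W.pos s c < W.pos s b)) :
    (t₁ < t₂ ∧ t₂ < t₃) ∨ (t₃ < t₂ ∧ t₂ < t₁) := by
  obtain ⟨k1, -, k2, k3, k4⟩ := SweepBasic_adj W (h2.1 t₂ le_rfl) (h2.2 (t₂ + 1) (by omega))
  have hba : b ≠ a := by
    rintro rfl
    omega
  have hbc' : b ≠ c := by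
    rintro rfl
    omega
  have k5 := k4 b hba hbc'
  have n1 : W.pos t₂ b ≠ W.pos t₂ a := fun h => hba (W.inj _ h)
  have n2 : W.pos t₂ b ≠ W.pos t₂ c := fun h => hbc' (W.inj _ h)
  rcases Nat.lt_or_ge (W.pos t₂ b) (W.pos t₂ a) with hb | hb
  · left
    constructor
    · by_contra hc
      have := h1.1 t₂ (by omega)
      omega
    · by_contra hc
      have := h3.2 (t₂ + 1) (by omega)
      omega
  · right
    constructor
    · by_contra hc
      have := h3.1 t₂ (by omega)
      omega
    · by_contra hc
      have := h1.2 (t₂ + 1) (by omega)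
      omega

private theorem SweepBasic_triple (W : Sweep ι) (F : ι → Bool) {a b c : ι}
    (hab : W.pos 0 a < W.pos 0 b) (hbc : W.pos 0 b < W.pos 0 c) :
    ∃ p q r, ∀ X ∈ W.cells F, ¬ (X a = p ∧ X b = q ∧ X c = r) := by
  obtain ⟨t₁, -, h1⟩ := W.exists_swap_time hab
  obtain ⟨t₂, -, h2⟩ := W.exists_swap_time (hab.trans hbc)
  obtain ⟨t₃, -, h3⟩ := W.exists_swap_time hbc
  rcases W.swap_between hab hbc h1 h2 h3 with h | h
  · refine ⟨xor (F a) true, xor (F b) false, xor (F c) true, ?_⟩
    rintro X ⟨s, p, rfl⟩ ⟨ha, hb, hc⟩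
    simp only [Sweep.cell, Bool.xor_right_inj, decide_eq_true_eq, decide_eq_false_iff_not]
      at ha hb hc
    have e1 : s ≤ t₁ := by
      by_contra hh
      have := h1.2 s (by omega)
      omega
    have e2 : t₃ < s := by
      by_contra hh
      have := h3.1 s (by omega)
      omega
    omega
  · refine ⟨xor (F a) false, xor (F b) true, xor (F c) false, ?_⟩
    rintro X ⟨s, p, rfl⟩ ⟨ha, hb, hc⟩
    simp only [Sweep.cell, Bool.xor_right_inj, decide_eq_true_eq, decide_eq_false_iff_not]
      at ha hb hc
    have e1 : t₁ < s := by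
      by_contra hh
      have := h1.1 s (by omega)
      omega
    have e2 : s ≤ t₃ := by
      by_contra hh
      have := h3.2 s (by omega)
      omega
    omega

/-- Every triple misses a pattern. -/
theorem Sweep.triple (W : Sweep ι) (F : ι → Bool) {i j k : ι} (hij : i ≠ j) (hjk : j ≠ k)
    (hik : i ≠ k) :
    ∃ p q r, ∀ X ∈ W.cells F, ¬ (X i = p ∧ X j = q ∧ X k = r) := by
  have n1 : W.pos 0 i ≠ W.pos 0 j := fun h => hij (W.inj _ h)
  have n2 : W.pos 0 j ≠ W.pos 0 k := fun h => hjk (W.inj _ h)
  have n3 : W.pos 0 i ≠ W.pos 0 k := fun h => hik (W.inj _ h)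
  rcases Nat.lt_or_gt_of_ne n1 with h1 | h1
  · rcases Nat.lt_or_gt_of_ne n2 with h2 | h2
    · exact SweepBasic_triple W F h1 h2
    · rcases Nat.lt_or_gt_of_ne n3 with h3 | h3
      · obtain ⟨p, q, r, h⟩ := SweepBasic_triple W F h3 h2
        exact ⟨p, r, q, fun X hX h' => h X hX ⟨h'.1, h'.2.2, h'.2.1⟩⟩
      · obtain ⟨p, q, r, h⟩ := SweepBasic_triple W F h3 h1
        exact ⟨q, r, p, fun X hX h' => h X hX ⟨h'.2.2, h'.1, h'.2.1⟩⟩
  · rcases Nat.lt_or_gt_of_ne n2 with h2 | h2
    · rcases Nat.lt_or_gt_of_ne n3 with h3 | h3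
      · obtain ⟨p, q, r, h⟩ := SweepBasic_triple W F h1 h3
        exact ⟨q, p, r, fun X hX h' => h X hX ⟨h'.2.1, h'.1, h'.2.2⟩⟩
      · obtain ⟨p, q, r, h⟩ := SweepBasic_triple W F h2 h3
        exact ⟨r, p, q, fun X hX h' => h X hX ⟨h'.2.1, h'.2.2, h'.1⟩⟩
    · obtain ⟨p, q, r, h⟩ := SweepBasic_triple W F h2 h1
      exact ⟨r, q, p, fun X hX h' => h X hX ⟨h'.2.2, h'.2.1, h'.1⟩⟩

private theorem SweepBasic_flip (W : Sweep ι) (F : ι → Bool) {s p s' p' q : ℕ} {z : ι}
    (h1 : W.pos s z < p ↔ ¬ W.pos s' z < p') (h2 : W.pos s' z < p' ↔ W.pos s z < q)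
    (h3 : ∀ i, i ≠ z → (W.pos s i < p ↔ W.pos s i < q)) :
    ∃ z, W.cell F s p z ≠ W.cell F s' p' z ∧
      Function.update (W.cell F s p) z (W.cell F s' p' z) ∈ W.cells F := by
  refine ⟨z, ?_, s, q, ?_⟩
  · simp only [Sweep.cell, ne_eq, Bool.xor_right_inj, decide_eq_decide]
    tauto
  · funext i
    by_cases hi : i = z
    · subst hi
      rw [Function.update_self]
      simp only [Sweep.cell, Bool.xor_right_inj, decide_eq_decide]
      exact h2
    · rw [Function.update_of_ne hi]
      simp only [Sweep.cell, Bool.xor_right_inj, decide_eq_decide]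
      exact h3 i hi

omit [DecidableEq ι] in
private theorem SweepBasic_same (W : Sweep ι) (F : ι → Bool) {s p : ℕ}
    (h : ∀ x y, W.pos s y = W.pos s x + 1 → W.pos 0 x < W.pos 0 y → W.pos (s+1) x = W.pos s y →
      W.pos (s+1) y = W.pos s x → W.pos s y ≠ p) : W.cell F s p = W.cell F (s+1) p := by
  funext i
  simp only [Sweep.cell, Bool.xor_right_inj, decide_eq_decide]
  rcases W.step s with h1 | ⟨a, b, hab, h0, ha, hb, hz⟩
  · rw [h1]
  · have hne := h a b hab h0 ha hb
    by_cases hia : i = a
    · subst hia
      omega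
    · by_cases hib : i = b
      · subst hib
        omega
      · rw [hz i hia hib]

private theorem SweepBasic_eqtime (W : Sweep ι) (F : ι → Bool) {s p p' : ℕ}
    (hne : W.cell F s p ≠ W.cell F s p') :
    ∃ z, W.cell F s p z ≠ W.cell F s p' z ∧
      Function.update (W.cell F s p) z (W.cell F s p' z) ∈ W.cells F := by
  have hex : (univ.filter (fun i => W.cell F s p i ≠ W.cell F s p' i)).Nonempty := by
    by_contra hc
    apply hne
    funext i
    by_contra hi
    exact hc ⟨i, by simpa using hi⟩
  rcases le_total p p' with hpp | hpp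
  · obtain ⟨z, hz, hmin⟩ := exists_min_image _ (W.pos s) hex
    have hmem : ∀ i, i ∈ univ.filter (fun i => W.cell F s p i ≠ W.cell F s p' i) ↔
        (p ≤ W.pos s i ∧ W.pos s i < p') := by
      intro i
      simp only [mem_filter, mem_univ, true_and, Sweep.cell, ne_eq, Bool.xor_right_inj,
        decide_eq_decide]
      constructor
      · intro h
        by_contra hc
        apply h
        omega
      · intro h h'
        omega
    have hz' := (hmem z).1 hz
    refine SweepBasic_flip W F (q := W.pos s z + 1) (z := z) (by omega) (by omega) ?_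
    intro i hi
    have hi' : W.pos s i ≠ W.pos s z := fun h => hi (W.inj _ h)
    by_cases h4 : p ≤ W.pos s i ∧ W.pos s i < p'
    · have := hmin i ((hmem i).2 h4)
      omega
    · omega
  · obtain ⟨z, hz, hmax⟩ := exists_max_image _ (W.pos s) hex
    have hmem : ∀ i, i ∈ univ.filter (fun i => W.cell F s p i ≠ W.cell F s p' i) ↔
        (p' ≤ W.pos s i ∧ W.pos s i < p) := by
      intro i
      simp only [mem_filter, mem_univ, true_and, Sweep.cell, ne_eq, Bool.xor_right_inj,
        decide_eq_decide]
      constructor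
      · intro h
        by_contra hc
        apply h
        omega
      · intro h h'
        omega
    have hz' := (hmem z).1 hz
    refine SweepBasic_flip W F (q := W.pos s z) (z := z) (by omega) (by omega) ?_
    intro i hi
    have hi' : W.pos s i ≠ W.pos s z := fun h => hi (W.inj _ h)
    by_cases h4 : p' ≤ W.pos s i ∧ W.pos s i < p
    · have := hmax i ((hmem i).2 h4)
      omega
    · omega

private theorem SweepBasic_fwd (W : Sweep ι) (F : ι → Bool) (d : ℕ) : ∀ {s p p' : ℕ},
    W.cell F s p ≠ W.cell F (s + d) p' →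
    ∃ z, W.cell F s p z ≠ W.cell F (s + d) p' z ∧
      Function.update (W.cell F s p) z (W.cell F (s + d) p' z) ∈ W.cells F := by
  induction d with
  | zero =>
    intro s p p' hne
    exact SweepBasic_eqtime W F hne
  | succ d ih =>
    intro s p p' hne
    by_cases hs : ∀ x y, W.pos s y = W.pos s x + 1 → W.pos 0 x < W.pos 0 y →
        W.pos (s+1) x = W.pos s y → W.pos (s+1) y = W.pos s x → W.pos s y ≠ p
    · have h1 := SweepBasic_same W F hs
      rw [h1]
      have h2 : s + (d + 1) = (s + 1) + d := by ring
      rw [h1, h2] at hne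
      rw [h2]
      exact ih hne
    · push Not at hs
      obtain ⟨x, y, hxy, h0, hx, hy, hp⟩ := hs
      have hlt : W.pos (s + (d + 1)) y < W.pos (s + (d + 1)) x :=
        SweepBasic_mono' W h0 (s := s + 1) (by omega) _ (by omega)
      by_cases hxY : W.pos (s + (d + 1)) x < p'
      · refine SweepBasic_flip W F (q := p + 1) (z := y) (by omega) (by omega) ?_
        intro i hi
        have hi' : W.pos s i ≠ W.pos s y := fun h => hi (W.inj _ h)
        omega
      · refine SweepBasic_flip W F (q := p - 1) (z := x) (by omega) (by omega) ?_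
        intro i hi
        have hi' : W.pos s i ≠ W.pos s x := fun h => hi (W.inj _ h)
        omega

private theorem SweepBasic_bwd (W : Sweep ι) (F : ι → Bool) (d : ℕ) : ∀ {s p p' : ℕ},
    W.cell F (s + d) p ≠ W.cell F s p' →
    ∃ z, W.cell F (s + d) p z ≠ W.cell F s p' z ∧
      Function.update (W.cell F (s + d) p) z (W.cell F s p' z) ∈ W.cells F := by
  induction d with
  | zero =>
    intro s p p' hne
    exact SweepBasic_eqtime W F hne
  | succ d ih =>
    intro s p p' hne
    by_cases hs : ∀ x y, W.pos (s + d) y = W.pos (s + d) x + 1 → W.pos 0 x < W.pos 0 y →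
        W.pos (s+d+1) x = W.pos (s + d) y → W.pos (s+d+1) y = W.pos (s+d) x → W.pos (s+d) y ≠ p
    · have h1 := SweepBasic_same W F hs
      have h2 : s + (d + 1) = s + d + 1 := by ring
      rw [h2, ← h1]
      rw [h2, ← h1] at hne
      exact ih hne
    · push Not at hs
      obtain ⟨x, y, hxy, h0, hx, hy, hp⟩ := hs
      have h2 : s + (d + 1) = s + d + 1 := by ring
      rw [h2]
      have hlt : W.pos s x < W.pos s y := by
        by_contra hc
        have hne' : x ≠ y := by
          rintro rfl
          omega
        have hc' : W.pos s x ≠ W.pos s y := fun h => hne' (W.inj _ h)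
        have := SweepBasic_mono' W h0 (s := s) (by omega) (s + d) (by omega)
        omega
      by_cases hyY : W.pos s y < p'
      · refine SweepBasic_flip W F (q := p + 1) (z := x) (by omega) (by omega) ?_
        intro i hi
        have hi' : W.pos (s+d+1) i ≠ W.pos (s+d+1) x := fun h => hi (W.inj _ h)
        omega
      · refine SweepBasic_flip W F (q := p - 1) (z := y) (by omega) (by omega) ?_
        intro i hi
        have hi' : W.pos (s+d+1) i ≠ W.pos (s+d+1) y := fun h => hi (W.inj _ h)
        omega

/-- Any two different cells of a sweep: from the first one can cross one separating line and get a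
cell again. -/
theorem Sweep.exists_step (W : Sweep ι) (F : ι → Bool) {X Y : ι → Bool} (hX : X ∈ W.cells F)
    (hY : Y ∈ W.cells F) (hne : X ≠ Y) :
    ∃ z, X z ≠ Y z ∧ Function.update X z (Y z) ∈ W.cells F := by
  obtain ⟨s, p, rfl⟩ := hX
  obtain ⟨s', p', rfl⟩ := hY
  rcases le_total s s' with h | h
  · obtain ⟨d, rfl⟩ := Nat.exists_eq_add_of_le h
    exact SweepBasic_fwd W F d hne
  · obtain ⟨d, rfl⟩ := Nat.exists_eq_add_of_le h
    exact SweepBasic_bwd W F d hne

end PHP
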