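import Mathlib
import Pool.Agent.PHP.Defs
import Pool.Agent.PHP.SweepBasic

/-!
# Four lines

PROOF by brute force: let `t a b` be the swap times of the six pairs (`exists_swap_time`), case distinction on the initial order of the four letters (24 cases) and on the four signs `F x, F y, F z, F w` (16
cases); for every triple `a < b < c` one has `t a b < t a c < t b c` or `t b c < t a c < t a b` (`swap_between`); each of the six cells `C_k = cell F s_k p_k` gives for every pair `a < b`: if the relative signs (`xor` with `F`) are `(1,0)` then `s_k ≤ t a b`, if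
they are `(0,1)` then `t a b < s_k`. The hypothesis `hmid`: if `t a b < t a c < t b c` then there is a cell with relative pattern `(0,1,0)` on `a < b < c` (at time `t b c`, the prefix up to `b`), if `t b c < t a c < t a b` there is one
with relative pattern `(1,0,1)` (at time `t a b`: order `a`, `b` with `c` ... take the cell after `a` and `c`, before `b`: at time `s` with `t a c < s ≤ t a b` the order is `c a b`, prefix up to `a`). So `hmid` excludes one of the two possibilities for the triple `{x, y, z}`. Then `omega`.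
It has been checked by computer that the statement is true (all sweeps of 4 letters). One may reduce the number of cases using the symmetry `x ↔ z` or
by finding a better argument. Reasonable approach: a purely arithmetic lemma about six natural numbers and booleans proved by `decide`/`omega`, then apply it.
-/

set_option linter.unusedSectionVars false

namespace PHP

open Finset

variable {ι : Type} [Fintype ι] [DecidableEq ι]

/-- the missing pattern on a triple in initial order is `(σ, !σ, σ)`, relative to `F`; all other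
patterns occur -/
def NFTri (W : Sweep ι) (F : ι → Bool) (a b c : ι) (σ : Bool) : Prop :=
  (∀ X ∈ W.cells F, ¬ (xor (F a) (X a) = σ ∧ xor (F b) (X b) = !σ ∧ xor (F c) (X c) = σ)) ∧
  (∀ ra rb rc : Bool, ¬ (ra = σ ∧ rb = !σ ∧ rc = σ) → ∃ X ∈ W.cells F,
    xor (F a) (X a) = ra ∧ xor (F b) (X b) = rb ∧ xor (F c) (X c) = rc)

theorem nf_xor (W : Sweep ι) (F : ι → Bool) (s p : ℕ) (i : ι) :
    xor (F i) (W.cell F s p i) = decide (W.pos s i < p) := by
  unfold Sweep.cell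
  cases F i <;> simp

theorem nf_tri (W : Sweep ι) (F : ι → Bool) {a b c : ι} (hab : W.pos 0 a < W.pos 0 b)
    (hbc : W.pos 0 b < W.pos 0 c) {t₁ t₂ t₃ : ℕ}
    (h1 : (∀ s, s ≤ t₁ → W.pos s a < W.pos s b) ∧ (∀ s, t₁ < s → W.pos s b < W.pos s a))
    (h2 : (∀ s, s ≤ t₂ → W.pos s a < W.pos s c) ∧ (∀ s, t₂ < s → W.pos s c < W.pos s a))
    (h3 : (∀ s, s ≤ t₃ → W.pos s b < W.pos s c) ∧ (∀ s, t₃ < s → W.pos s c < W.pos s b)) :
    NFTri W F a b c (decide (t₁ < t₂)) := by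
  have hsw := W.swap_between hab hbc h1 h2 h3
  have hra := W.rev a
  have hrb := W.rev b
  have hrc := W.rev c
  have hla := W.lt 0 a
  have hlb := W.lt 0 b
  have hlc := W.lt 0 c
  constructor
  · rintro X ⟨s, p, rfl⟩ ⟨ha, hb, hc⟩
    rw [nf_xor] at ha hb hc
    clear hra hrb hrc hla hlb hlc
    rcases hsw with ⟨h12, h23⟩ | ⟨h32, h21⟩
    · rw [decide_eq_true h12] at ha hb hc
      simp only [Bool.not_true, decide_eq_true_eq, decide_eq_false_iff_not, not_lt] at ha hb hc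
      have e1 : ¬ t₁ < s := fun h => by have := h1.2 s h; omega
      have e2 : ¬ s ≤ t₃ := fun h => by have := h3.1 s h; omega
      omega
    · rw [decide_eq_false (show ¬ t₁ < t₂ by omega)] at ha hb hc
      simp only [Bool.not_false, decide_eq_true_eq, decide_eq_false_iff_not, not_lt] at ha hb hc
      have e1 : ¬ s ≤ t₁ := fun h => by have := h1.1 s h; omega
      have e2 : ¬ t₃ < s := fun h => by have := h3.2 s h; omega
      omega
  · intro ra rb rc hne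
    have key : ∀ s p, decide (W.pos s a < p) = ra → decide (W.pos s b < p) = rb →
        decide (W.pos s c < p) = rc → ∃ X ∈ W.cells F,
        xor (F a) (X a) = ra ∧ xor (F b) (X b) = rb ∧ xor (F c) (X c) = rc := by
      intro s p e1 e2 e3
      exact ⟨W.cell F s p, ⟨s, p, rfl⟩, by rw [nf_xor, e1], by rw [nf_xor, e2], by rw [nf_xor, e3]⟩
    cases ra <;> cases rb <;> cases rc
    · exact key 0 0 (by simp) (by simp) (by simp)
    · refine key W.N (W.pos W.N c + 1) ?_ ?_ ?_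
      · exact decide_eq_false (by omega)
      · exact decide_eq_false (by omega)
      · exact decide_eq_true (by omega)
    · rcases hsw with ⟨h12, h23⟩ | ⟨h32, h21⟩
      · have e1 := h1.2 t₃ (by omega)
        have e2 := h3.1 t₃ le_rfl
        refine key t₃ (W.pos t₃ b + 1) ?_ ?_ ?_
        · exact decide_eq_false (by omega)
        · exact decide_eq_true (by omega)
        · exact decide_eq_false (by omega)
      · exfalso
        apply hne
        rw [decide_eq_false (show ¬ t₁ < t₂ by omega)]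
        simp
    · refine key W.N (W.pos W.N b + 1) ?_ ?_ ?_
      · exact decide_eq_false (by omega)
      · exact decide_eq_true (by omega)
      · exact decide_eq_true (by omega)
    · refine key 0 (W.pos 0 a + 1) ?_ ?_ ?_
      · exact decide_eq_true (by omega)
      · exact decide_eq_false (by omega)
      · exact decide_eq_false (by omega)
    · rcases hsw with ⟨h12, h23⟩ | ⟨h32, h21⟩
      · exfalso
        apply hne
        rw [decide_eq_true h12]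
        simp
      · have e1 := h1.1 t₁ le_rfl
        have e2 := h2.2 t₁ (by omega)
        refine key t₁ (W.pos t₁ a + 1) ?_ ?_ ?_
        · exact decide_eq_true (by omega)
        · exact decide_eq_false (by omega)
        · exact decide_eq_true (by omega)
    · refine key 0 (W.pos 0 b + 1) ?_ ?_ ?_
      · exact decide_eq_true (by omega)
      · exact decide_eq_true (by omega)
      · exact decide_eq_false (by omega)
    · refine key 0 (W.pos 0 c + 1) ?_ ?_ ?_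
      · exact decide_eq_true (by omega)
      · exact decide_eq_true (by omega)
      · exact decide_eq_true (by omega)

/-- monotone sequences of four signs -/
def nfMono (s1 s2 s3 s4 : Bool) : Bool :=
  (s1 == s2 && s2 == s3) || (s2 == s3 && s3 == s4) || (s1 == s2 && s3 == s4)

theorem nf_signo (W : Sweep ι) (F : ι → Bool) {a b c d : ι} (hab : W.pos 0 a < W.pos 0 b)
    (hbc : W.pos 0 b < W.pos 0 c) (hcd : W.pos 0 c < W.pos 0 d) :
    ∃ s1 s2 s3 s4 : Bool, nfMono s1 s2 s3 s4 = true ∧ NFTri W F a b c s1 ∧ NFTri W F a b d s2 ∧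
      NFTri W F a c d s3 ∧ NFTri W F b c d s4 := by
  obtain ⟨t12, -, h12⟩ := W.exists_swap_time hab
  obtain ⟨t13, -, h13⟩ := W.exists_swap_time (hab.trans hbc)
  obtain ⟨t14, -, h14⟩ := W.exists_swap_time ((hab.trans hbc).trans hcd)
  obtain ⟨t23, -, h23⟩ := W.exists_swap_time hbc
  obtain ⟨t24, -, h24⟩ := W.exists_swap_time (hbc.trans hcd)
  obtain ⟨t34, -, h34⟩ := W.exists_swap_time hcd
  refine ⟨decide (t12 < t13), decide (t12 < t14), decide (t13 < t14), decide (t23 < t24), ?_,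
    nf_tri W F hab hbc h12 h13 h23, nf_tri W F hab (hbc.trans hcd) h12 h14 h24,
    nf_tri W F (hab.trans hbc) hcd h13 h14 h34, nf_tri W F hbc hcd h23 h24 h34⟩
  have e1 := W.swap_between hab hbc h12 h13 h23
  have e2 := W.swap_between hab (hbc.trans hcd) h12 h14 h24
  have e3 := W.swap_between (hab.trans hbc) hcd h13 h14 h34
  have e4 := W.swap_between hbc hcd h23 h24 h34
  by_cases c1 : t12 < t13 <;> by_cases c2 : t12 < t14 <;> by_cases c3 : t13 < t14 <;>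
    by_cases c4 : t23 < t24 <;> simp only [c1, c2, c3, c4, decide_true, decide_false] <;>
    first | rfl | (exfalso; omega)

/-- the alternating pattern -/
def nfB (fa va fb vb fc vc s : Bool) : Bool :=
  (xor fa va == s) && (xor fb vb == !s) && (xor fc vc == s)

theorem nfB_iff (fa va fb vb fc vc s : Bool) : nfB fa va fb vb fc vc s = true ↔
    (xor fa va = s ∧ xor fb vb = !s ∧ xor fc vc = s) := by
  unfold nfB
  simp only [Bool.and_eq_true, beq_iff_eq, and_assoc]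

theorem nf_pres {W : Sweep ι} {F : ι → Bool} {a b c : ι} {σ : Bool} (T : NFTri W F a b c σ)
    (va vb vc : Bool)
    (h : ∀ X ∈ W.cells F, X a = va → X b = vb → X c = vc → False) :
    nfB (F a) va (F b) vb (F c) vc σ = true := by
  rw [nfB_iff]
  by_contra hcon
  obtain ⟨X, hX, ha, hb, hc⟩ := T.2 _ _ _ hcon
  exact h X hX (Bool.xor_right_inj.mp ha) (Bool.xor_right_inj.mp hb) (Bool.xor_right_inj.mp hc)

theorem nf_abs {W : Sweep ι} {F : ι → Bool} {a b c : ι} {σ : Bool} (T : NFTri W F a b c σ)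
    {X : ι → Bool} (hX : X ∈ W.cells F) {va vb vc : Bool} (ha : X a = va) (hb : X b = vb)
    (hc : X c = vc) :
    nfB (F a) va (F b) vb (F c) vc σ = false := by
  have := T.1 X hX
  rw [ha, hb, hc, ← nfB_iff] at this
  exact Bool.eq_false_iff.mpr this

theorem nf_check_0 : ∀ fx fy fz fw s1 s2 s3 s4 : Bool, (nfMono s1 s2 s3 s4 &&
    nfB fx true fy false fz true s1 &&
    !(nfB fx false fy false fz false s1) &&
    !(nfB fx true fy false fz false s1) &&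
    !(nfB fx false fy true fz false s1) &&
    !(nfB fx false fy false fz true s1) &&
    !(nfB fx true fy true fz true s1) &&
    !(nfB fx false fy false fw false s2) &&
    !(nfB fx true fy false fw false s2) &&
    !(nfB fx false fy true fw false s2) &&
    !(nfB fx true fy true fw false s2) &&
    !(nfB fx false fy true fw true s2) &&
    !(nfB fx false fz false fw false s3) &&
    !(nfB fx true fz false fw false s3) &&
    !(nfB fx false fz true fw false s3) &&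
    !(nfB fx true fz true fw false s3) &&
    !(nfB fx false fz false fw true s3) &&
    !(nfB fy false fz false fw false s4) &&
    !(nfB fy true fz false fw false s4) &&
    !(nfB fy false fz true fw false s4) &&
    !(nfB fy true fz true fw false s4) &&
    !(nfB fy true fz false fw true s4)) = false := by
  decide

theorem nf_check_1 : ∀ fx fy fz fw s1 s2 s3 s4 : Bool, (nfMono s1 s2 s3 s4 &&
    !(nfB fx false fy false fw false s1) &&
    !(nfB fx true fy false fw false s1) &&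
    !(nfB fx false fy true fw false s1) &&
    !(nfB fx true fy true fw false s1) &&
    !(nfB fx false fy true fw true s1) &&
    nfB fx true fy false fz true s2 &&
    !(nfB fx false fy false fz false s2) &&
    !(nfB fx true fy false fz false s2) &&
    !(nfB fx false fy true fz false s2) &&
    !(nfB fx false fy false fz true s2) &&
    !(nfB fx true fy true fz true s2) &&
    !(nfB fx false fw false fz false s3) &&
    !(nfB fx true fw false fz false s3) &&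
    !(nfB fx false fw false fz true s3) &&
    !(nfB fx true fw false fz true s3) &&
    !(nfB fx false fw true fz false s3) &&
    !(nfB fy false fw false fz false s4) &&
    !(nfB fy true fw false fz false s4) &&
    !(nfB fy false fw false fz true s4) &&
    !(nfB fy true fw false fz true s4) &&
    !(nfB fy true fw true fz false s4)) = false := by
  decide

theorem nf_check_2 : ∀ fx fy fz fw s1 s2 s3 s4 : Bool, (nfMono s1 s2 s3 s4 &&
    nfB fx true fz true fy false s1 &&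
    !(nfB fx false fz false fy false s1) &&
    !(nfB fx true fz false fy false s1) &&
    !(nfB fx false fz false fy true s1) &&
    !(nfB fx false fz true fy false s1) &&
    !(nfB fx true fz true fy true s1) &&
    !(nfB fx false fz false fw false s2) &&
    !(nfB fx true fz false fw false s2) &&
    !(nfB fx false fz true fw false s2) &&
    !(nfB fx true fz true fw false s2) &&
    !(nfB fx false fz false fw true s2) &&
    !(nfB fx false fy false fw false s3) &&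
    !(nfB fx true fy false fw false s3) &&
    !(nfB fx false fy true fw false s3) &&
    !(nfB fx true fy true fw false s3) &&
    !(nfB fx false fy true fw true s3) &&
    !(nfB fz false fy false fw false s4) &&
    !(nfB fz false fy true fw false s4) &&
    !(nfB fz true fy false fw false s4) &&
    !(nfB fz true fy true fw false s4) &&
    !(nfB fz false fy true fw true s4)) = false := by
  decide

theorem nf_check_3 : ∀ fx fy fz fw s1 s2 s3 s4 : Bool, (nfMono s1 s2 s3 s4 &&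
    !(nfB fx false fz false fw false s1) &&
    !(nfB fx true fz false fw false s1) &&
    !(nfB fx false fz true fw false s1) &&
    !(nfB fx true fz true fw false s1) &&
    !(nfB fx false fz false fw true s1) &&
    nfB fx true fz true fy false s2 &&
    !(nfB fx false fz false fy false s2) &&
    !(nfB fx true fz false fy false s2) &&
    !(nfB fx false fz false fy true s2) &&
    !(nfB fx false fz true fy false s2) &&
    !(nfB fx true fz true fy true s2) &&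
    !(nfB fx false fw false fy false s3) &&
    !(nfB fx true fw false fy false s3) &&
    !(nfB fx false fw false fy true s3) &&
    !(nfB fx true fw false fy true s3) &&
    !(nfB fx false fw true fy true s3) &&
    !(nfB fz false fw false fy false s4) &&
    !(nfB fz false fw false fy true s4) &&
    !(nfB fz true fw false fy false s4) &&
    !(nfB fz true fw false fy true s4) &&
    !(nfB fz false fw true fy true s4)) = false := by
  decide

theorem nf_check_4 : ∀ fx fy fz fw s1 s2 s3 s4 : Bool, (nfMono s1 s2 s3 s4 &&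
    !(nfB fx false fw false fy false s1) &&
    !(nfB fx true fw false fy false s1) &&
    !(nfB fx false fw false fy true s1) &&
    !(nfB fx true fw false fy true s1) &&
    !(nfB fx false fw true fy true s1) &&
    !(nfB fx false fw false fz false s2) &&
    !(nfB fx true fw false fz false s2) &&
    !(nfB fx false fw false fz true s2) &&
    !(nfB fx true fw false fz true s2) &&
    !(nfB fx false fw true fz false s2) &&
    nfB fx true fy false fz true s3 &&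
    !(nfB fx false fy false fz false s3) &&
    !(nfB fx true fy false fz false s3) &&
    !(nfB fx false fy true fz false s3) &&
    !(nfB fx false fy false fz true s3) &&
    !(nfB fx true fy true fz true s3) &&
    !(nfB fw false fy false fz false s4) &&
    !(nfB fw false fy true fz false s4) &&
    !(nfB fw false fy false fz true s4) &&
    !(nfB fw false fy true fz true s4) &&
    !(nfB fw true fy true fz false s4)) = false := by
  decide

theorem nf_check_5 : ∀ fx fy fz fw s1 s2 s3 s4 : Bool, (nfMono s1 s2 s3 s4 &&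
    !(nfB fx false fw false fz false s1) &&
    !(nfB fx true fw false fz false s1) &&
    !(nfB fx false fw false fz true s1) &&
    !(nfB fx true fw false fz true s1) &&
    !(nfB fx false fw true fz false s1) &&
    !(nfB fx false fw false fy false s2) &&
    !(nfB fx true fw false fy false s2) &&
    !(nfB fx false fw false fy true s2) &&
    !(nfB fx true fw false fy true s2) &&
    !(nfB fx false fw true fy true s2) &&
    nfB fx true fz true fy false s3 &&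
    !(nfB fx false fz false fy false s3) &&
    !(nfB fx true fz false fy false s3) &&
    !(nfB fx false fz false fy true s3) &&
    !(nfB fx false fz true fy false s3) &&
    !(nfB fx true fz true fy true s3) &&
    !(nfB fw false fz false fy false s4) &&
    !(nfB fw false fz false fy true s4) &&
    !(nfB fw false fz true fy false s4) &&
    !(nfB fw false fz true fy true s4) &&
    !(nfB fw true fz false fy true s4)) = false := by
  decide

theorem nf_check_6 : ∀ fx fy fz fw s1 s2 s3 s4 : Bool, (nfMono s1 s2 s3 s4 &&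
    nfB fy false fx true fz true s1 &&
    !(nfB fy false fx false fz false s1) &&
    !(nfB fy false fx true fz false s1) &&
    !(nfB fy true fx false fz false s1) &&
    !(nfB fy false fx false fz true s1) &&
    !(nfB fy true fx true fz true s1) &&
    !(nfB fy false fx false fw false s2) &&
    !(nfB fy false fx true fw false s2) &&
    !(nfB fy true fx false fw false s2) &&
    !(nfB fy true fx true fw false s2) &&
    !(nfB fy true fx false fw true s2) &&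
    !(nfB fy false fz false fw false s3) &&
    !(nfB fy true fz false fw false s3) &&
    !(nfB fy false fz true fw false s3) &&
    !(nfB fy true fz true fw false s3) &&
    !(nfB fy true fz false fw true s3) &&
    !(nfB fx false fz false fw false s4) &&
    !(nfB fx true fz false fw false s4) &&
    !(nfB fx false fz true fw false s4) &&
    !(nfB fx true fz true fw false s4) &&
    !(nfB fx false fz false fw true s4)) = false := by
  decide

theorem nf_check_7 : ∀ fx fy fz fw s1 s2 s3 s4 : Bool, (nfMono s1 s2 s3 s4 &&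
    !(nfB fy false fx false fw false s1) &&
    !(nfB fy false fx true fw false s1) &&
    !(nfB fy true fx false fw false s1) &&
    !(nfB fy true fx true fw false s1) &&
    !(nfB fy true fx false fw true s1) &&
    nfB fy false fx true fz true s2 &&
    !(nfB fy false fx false fz false s2) &&
    !(nfB fy false fx true fz false s2) &&
    !(nfB fy true fx false fz false s2) &&
    !(nfB fy false fx false fz true s2) &&
    !(nfB fy true fx true fz true s2) &&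
    !(nfB fy false fw false fz false s3) &&
    !(nfB fy true fw false fz false s3) &&
    !(nfB fy false fw false fz true s3) &&
    !(nfB fy true fw false fz true s3) &&
    !(nfB fy true fw true fz false s3) &&
    !(nfB fx false fw false fz false s4) &&
    !(nfB fx true fw false fz false s4) &&
    !(nfB fx false fw false fz true s4) &&
    !(nfB fx true fw false fz true s4) &&
    !(nfB fx false fw true fz false s4)) = false := by
  decide

theorem nf_check_8 : ∀ fx fy fz fw s1 s2 s3 s4 : Bool, (nfMono s1 s2 s3 s4 &&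
    nfB fy false fz true fx true s1 &&
    !(nfB fy false fz false fx false s1) &&
    !(nfB fy false fz false fx true s1) &&
    !(nfB fy true fz false fx false s1) &&
    !(nfB fy false fz true fx false s1) &&
    !(nfB fy true fz true fx true s1) &&
    !(nfB fy false fz false fw false s2) &&
    !(nfB fy true fz false fw false s2) &&
    !(nfB fy false fz true fw false s2) &&
    !(nfB fy true fz true fw false s2) &&
    !(nfB fy true fz false fw true s2) &&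
    !(nfB fy false fx false fw false s3) &&
    !(nfB fy false fx true fw false s3) &&
    !(nfB fy true fx false fw false s3) &&
    !(nfB fy true fx true fw false s3) &&
    !(nfB fy true fx false fw true s3) &&
    !(nfB fz false fx false fw false s4) &&
    !(nfB fz false fx true fw false s4) &&
    !(nfB fz true fx false fw false s4) &&
    !(nfB fz true fx true fw false s4) &&
    !(nfB fz false fx false fw true s4)) = false := by
  decide

theorem nf_check_9 : ∀ fx fy fz fw s1 s2 s3 s4 : Bool, (nfMono s1 s2 s3 s4 &&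
    !(nfB fy false fz false fw false s1) &&
    !(nfB fy true fz false fw false s1) &&
    !(nfB fy false fz true fw false s1) &&
    !(nfB fy true fz true fw false s1) &&
    !(nfB fy true fz false fw true s1) &&
    nfB fy false fz true fx true s2 &&
    !(nfB fy false fz false fx false s2) &&
    !(nfB fy false fz false fx true s2) &&
    !(nfB fy true fz false fx false s2) &&
    !(nfB fy false fz true fx false s2) &&
    !(nfB fy true fz true fx true s2) &&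
    !(nfB fy false fw false fx false s3) &&
    !(nfB fy false fw false fx true s3) &&
    !(nfB fy true fw false fx false s3) &&
    !(nfB fy true fw false fx true s3) &&
    !(nfB fy true fw true fx false s3) &&
    !(nfB fz false fw false fx false s4) &&
    !(nfB fz false fw false fx true s4) &&
    !(nfB fz true fw false fx false s4) &&
    !(nfB fz true fw false fx true s4) &&
    !(nfB fz false fw true fx false s4)) = false := by
  decide

theorem nf_check_10 : ∀ fx fy fz fw s1 s2 s3 s4 : Bool, (nfMono s1 s2 s3 s4 &&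
    !(nfB fy false fw false fx false s1) &&
    !(nfB fy false fw false fx true s1) &&
    !(nfB fy true fw false fx false s1) &&
    !(nfB fy true fw false fx true s1) &&
    !(nfB fy true fw true fx false s1) &&
    !(nfB fy false fw false fz false s2) &&
    !(nfB fy true fw false fz false s2) &&
    !(nfB fy false fw false fz true s2) &&
    !(nfB fy true fw false fz true s2) &&
    !(nfB fy true fw true fz false s2) &&
    nfB fy false fx true fz true s3 &&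
    !(nfB fy false fx false fz false s3) &&
    !(nfB fy false fx true fz false s3) &&
    !(nfB fy true fx false fz false s3) &&
    !(nfB fy false fx false fz true s3) &&
    !(nfB fy true fx true fz true s3) &&
    !(nfB fw false fx false fz false s4) &&
    !(nfB fw false fx true fz false s4) &&
    !(nfB fw false fx false fz true s4) &&
    !(nfB fw false fx true fz true s4) &&
    !(nfB fw true fx false fz false s4)) = false := by
  decide

theorem nf_check_11 : ∀ fx fy fz fw s1 s2 s3 s4 : Bool, (nfMono s1 s2 s3 s4 &&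
    !(nfB fy false fw false fz false s1) &&
    !(nfB fy true fw false fz false s1) &&
    !(nfB fy false fw false fz true s1) &&
    !(nfB fy true fw false fz true s1) &&
    !(nfB fy true fw true fz false s1) &&
    !(nfB fy false fw false fx false s2) &&
    !(nfB fy false fw false fx true s2) &&
    !(nfB fy true fw false fx false s2) &&
    !(nfB fy true fw false fx true s2) &&
    !(nfB fy true fw true fx false s2) &&
    nfB fy false fz true fx true s3 &&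
    !(nfB fy false fz false fx false s3) &&
    !(nfB fy false fz false fx true s3) &&
    !(nfB fy true fz false fx false s3) &&
    !(nfB fy false fz true fx false s3) &&
    !(nfB fy true fz true fx true s3) &&
    !(nfB fw false fz false fx false s4) &&
    !(nfB fw false fz false fx true s4) &&
    !(nfB fw false fz true fx false s4) &&
    !(nfB fw false fz true fx true s4) &&
    !(nfB fw true fz false fx false s4)) = false := by
  decide

theorem nf_check_12 : ∀ fx fy fz fw s1 s2 s3 s4 : Bool, (nfMono s1 s2 s3 s4 &&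
    nfB fz true fx true fy false s1 &&
    !(nfB fz false fx false fy false s1) &&
    !(nfB fz false fx true fy false s1) &&
    !(nfB fz false fx false fy true s1) &&
    !(nfB fz true fx false fy false s1) &&
    !(nfB fz true fx true fy true s1) &&
    !(nfB fz false fx false fw false s2) &&
    !(nfB fz false fx true fw false s2) &&
    !(nfB fz true fx false fw false s2) &&
    !(nfB fz true fx true fw false s2) &&
    !(nfB fz false fx false fw true s2) &&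
    !(nfB fz false fy false fw false s3) &&
    !(nfB fz false fy true fw false s3) &&
    !(nfB fz true fy false fw false s3) &&
    !(nfB fz true fy true fw false s3) &&
    !(nfB fz false fy true fw true s3) &&
    !(nfB fx false fy false fw false s4) &&
    !(nfB fx true fy false fw false s4) &&
    !(nfB fx false fy true fw false s4) &&
    !(nfB fx true fy true fw false s4) &&
    !(nfB fx false fy true fw true s4)) = false := by
  decide

theorem nf_check_13 : ∀ fx fy fz fw s1 s2 s3 s4 : Bool, (nfMono s1 s2 s3 s4 &&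
    !(nfB fz false fx false fw false s1) &&
    !(nfB fz false fx true fw false s1) &&
    !(nfB fz true fx false fw false s1) &&
    !(nfB fz true fx true fw false s1) &&
    !(nfB fz false fx false fw true s1) &&
    nfB fz true fx true fy false s2 &&
    !(nfB fz false fx false fy false s2) &&
    !(nfB fz false fx true fy false s2) &&
    !(nfB fz false fx false fy true s2) &&
    !(nfB fz true fx false fy false s2) &&
    !(nfB fz true fx true fy true s2) &&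
    !(nfB fz false fw false fy false s3) &&
    !(nfB fz false fw false fy true s3) &&
    !(nfB fz true fw false fy false s3) &&
    !(nfB fz true fw false fy true s3) &&
    !(nfB fz false fw true fy true s3) &&
    !(nfB fx false fw false fy false s4) &&
    !(nfB fx true fw false fy false s4) &&
    !(nfB fx false fw false fy true s4) &&
    !(nfB fx true fw false fy true s4) &&
    !(nfB fx false fw true fy true s4)) = false := by
  decide

theorem nf_check_14 : ∀ fx fy fz fw s1 s2 s3 s4 : Bool, (nfMono s1 s2 s3 s4 &&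
    nfB fz true fy false fx true s1 &&
    !(nfB fz false fy false fx false s1) &&
    !(nfB fz false fy false fx true s1) &&
    !(nfB fz false fy true fx false s1) &&
    !(nfB fz true fy false fx false s1) &&
    !(nfB fz true fy true fx true s1) &&
    !(nfB fz false fy false fw false s2) &&
    !(nfB fz false fy true fw false s2) &&
    !(nfB fz true fy false fw false s2) &&
    !(nfB fz true fy true fw false s2) &&
    !(nfB fz false fy true fw true s2) &&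
    !(nfB fz false fx false fw false s3) &&
    !(nfB fz false fx true fw false s3) &&
    !(nfB fz true fx false fw false s3) &&
    !(nfB fz true fx true fw false s3) &&
    !(nfB fz false fx false fw true s3) &&
    !(nfB fy false fx false fw false s4) &&
    !(nfB fy false fx true fw false s4) &&
    !(nfB fy true fx false fw false s4) &&
    !(nfB fy true fx true fw false s4) &&
    !(nfB fy true fx false fw true s4)) = false := by
  decide

theorem nf_check_15 : ∀ fx fy fz fw s1 s2 s3 s4 : Bool, (nfMono s1 s2 s3 s4 &&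
    !(nfB fz false fy false fw false s1) &&
    !(nfB fz false fy true fw false s1) &&
    !(nfB fz true fy false fw false s1) &&
    !(nfB fz true fy true fw false s1) &&
    !(nfB fz false fy true fw true s1) &&
    nfB fz true fy false fx true s2 &&
    !(nfB fz false fy false fx false s2) &&
    !(nfB fz false fy false fx true s2) &&
    !(nfB fz false fy true fx false s2) &&
    !(nfB fz true fy false fx false s2) &&
    !(nfB fz true fy true fx true s2) &&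
    !(nfB fz false fw false fx false s3) &&
    !(nfB fz false fw false fx true s3) &&
    !(nfB fz true fw false fx false s3) &&
    !(nfB fz true fw false fx true s3) &&
    !(nfB fz false fw true fx false s3) &&
    !(nfB fy false fw false fx false s4) &&
    !(nfB fy false fw false fx true s4) &&
    !(nfB fy true fw false fx false s4) &&
    !(nfB fy true fw false fx true s4) &&
    !(nfB fy true fw true fx false s4)) = false := by
  decide

theorem nf_check_16 : ∀ fx fy fz fw s1 s2 s3 s4 : Bool, (nfMono s1 s2 s3 s4 &&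
    !(nfB fz false fw false fx false s1) &&
    !(nfB fz false fw false fx true s1) &&
    !(nfB fz true fw false fx false s1) &&
    !(nfB fz true fw false fx true s1) &&
    !(nfB fz false fw true fx false s1) &&
    !(nfB fz false fw false fy false s2) &&
    !(nfB fz false fw false fy true s2) &&
    !(nfB fz true fw false fy false s2) &&
    !(nfB fz true fw false fy true s2) &&
    !(nfB fz false fw true fy true s2) &&
    nfB fz true fx true fy false s3 &&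
    !(nfB fz false fx false fy false s3) &&
    !(nfB fz false fx true fy false s3) &&
    !(nfB fz false fx false fy true s3) &&
    !(nfB fz true fx false fy false s3) &&
    !(nfB fz true fx true fy true s3) &&
    !(nfB fw false fx false fy false s4) &&
    !(nfB fw false fx true fy false s4) &&
    !(nfB fw false fx false fy true s4) &&
    !(nfB fw false fx true fy true s4) &&
    !(nfB fw true fx false fy true s4)) = false := by
  decide

theorem nf_check_17 : ∀ fx fy fz fw s1 s2 s3 s4 : Bool, (nfMono s1 s2 s3 s4 &&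
    !(nfB fz false fw false fy false s1) &&
    !(nfB fz false fw false fy true s1) &&
    !(nfB fz true fw false fy false s1) &&
    !(nfB fz true fw false fy true s1) &&
    !(nfB fz false fw true fy true s1) &&
    !(nfB fz false fw false fx false s2) &&
    !(nfB fz false fw false fx true s2) &&
    !(nfB fz true fw false fx false s2) &&
    !(nfB fz true fw false fx true s2) &&
    !(nfB fz false fw true fx false s2) &&
    nfB fz true fy false fx true s3 &&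
    !(nfB fz false fy false fx false s3) &&
    !(nfB fz false fy false fx true s3) &&
    !(nfB fz false fy true fx false s3) &&
    !(nfB fz true fy false fx false s3) &&
    !(nfB fz true fy true fx true s3) &&
    !(nfB fw false fy false fx false s4) &&
    !(nfB fw false fy false fx true s4) &&
    !(nfB fw false fy true fx false s4) &&
    !(nfB fw false fy true fx true s4) &&
    !(nfB fw true fy true fx false s4)) = false := by
  decide

theorem nf_check_18 : ∀ fx fy fz fw s1 s2 s3 s4 : Bool, (nfMono s1 s2 s3 s4 &&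
    !(nfB fw false fx false fy false s1) &&
    !(nfB fw false fx true fy false s1) &&
    !(nfB fw false fx false fy true s1) &&
    !(nfB fw false fx true fy true s1) &&
    !(nfB fw true fx false fy true s1) &&
    !(nfB fw false fx false fz false s2) &&
    !(nfB fw false fx true fz false s2) &&
    !(nfB fw false fx false fz true s2) &&
    !(nfB fw false fx true fz true s2) &&
    !(nfB fw true fx false fz false s2) &&
    !(nfB fw false fy false fz false s3) &&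
    !(nfB fw false fy true fz false s3) &&
    !(nfB fw false fy false fz true s3) &&
    !(nfB fw false fy true fz true s3) &&
    !(nfB fw true fy true fz false s3) &&
    nfB fx true fy false fz true s4 &&
    !(nfB fx false fy false fz false s4) &&
    !(nfB fx true fy false fz false s4) &&
    !(nfB fx false fy true fz false s4) &&
    !(nfB fx false fy false fz true s4) &&
    !(nfB fx true fy true fz true s4)) = false := by
  decide

theorem nf_check_19 : ∀ fx fy fz fw s1 s2 s3 s4 : Bool, (nfMono s1 s2 s3 s4 &&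
    !(nfB fw false fx false fz false s1) &&
    !(nfB fw false fx true fz false s1) &&
    !(nfB fw false fx false fz true s1) &&
    !(nfB fw false fx true fz true s1) &&
    !(nfB fw true fx false fz false s1) &&
    !(nfB fw false fx false fy false s2) &&
    !(nfB fw false fx true fy false s2) &&
    !(nfB fw false fx false fy true s2) &&
    !(nfB fw false fx true fy true s2) &&
    !(nfB fw true fx false fy true s2) &&
    !(nfB fw false fz false fy false s3) &&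
    !(nfB fw false fz false fy true s3) &&
    !(nfB fw false fz true fy false s3) &&
    !(nfB fw false fz true fy true s3) &&
    !(nfB fw true fz false fy true s3) &&
    nfB fx true fz true fy false s4 &&
    !(nfB fx false fz false fy false s4) &&
    !(nfB fx true fz false fy false s4) &&
    !(nfB fx false fz false fy true s4) &&
    !(nfB fx false fz true fy false s4) &&
    !(nfB fx true fz true fy true s4)) = false := by
  decide

theorem nf_check_20 : ∀ fx fy fz fw s1 s2 s3 s4 : Bool, (nfMono s1 s2 s3 s4 &&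
    !(nfB fw false fy false fx false s1) &&
    !(nfB fw false fy false fx true s1) &&
    !(nfB fw false fy true fx false s1) &&
    !(nfB fw false fy true fx true s1) &&
    !(nfB fw true fy true fx false s1) &&
    !(nfB fw false fy false fz false s2) &&
    !(nfB fw false fy true fz false s2) &&
    !(nfB fw false fy false fz true s2) &&
    !(nfB fw false fy true fz true s2) &&
    !(nfB fw true fy true fz false s2) &&
    !(nfB fw false fx false fz false s3) &&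
    !(nfB fw false fx true fz false s3) &&
    !(nfB fw false fx false fz true s3) &&
    !(nfB fw false fx true fz true s3) &&
    !(nfB fw true fx false fz false s3) &&
    nfB fy false fx true fz true s4 &&
    !(nfB fy false fx false fz false s4) &&
    !(nfB fy false fx true fz false s4) &&
    !(nfB fy true fx false fz false s4) &&
    !(nfB fy false fx false fz true s4) &&
    !(nfB fy true fx true fz true s4)) = false := by
  decide

theorem nf_check_21 : ∀ fx fy fz fw s1 s2 s3 s4 : Bool, (nfMono s1 s2 s3 s4 &&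
    !(nfB fw false fy false fz false s1) &&
    !(nfB fw false fy true fz false s1) &&
    !(nfB fw false fy false fz true s1) &&
    !(nfB fw false fy true fz true s1) &&
    !(nfB fw true fy true fz false s1) &&
    !(nfB fw false fy false fx false s2) &&
    !(nfB fw false fy false fx true s2) &&
    !(nfB fw false fy true fx false s2) &&
    !(nfB fw false fy true fx true s2) &&
    !(nfB fw true fy true fx false s2) &&
    !(nfB fw false fz false fx false s3) &&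
    !(nfB fw false fz false fx true s3) &&
    !(nfB fw false fz true fx false s3) &&
    !(nfB fw false fz true fx true s3) &&
    !(nfB fw true fz false fx false s3) &&
    nfB fy false fz true fx true s4 &&
    !(nfB fy false fz false fx false s4) &&
    !(nfB fy false fz false fx true s4) &&
    !(nfB fy true fz false fx false s4) &&
    !(nfB fy false fz true fx false s4) &&
    !(nfB fy true fz true fx true s4)) = false := by
  decide

theorem nf_check_22 : ∀ fx fy fz fw s1 s2 s3 s4 : Bool, (nfMono s1 s2 s3 s4 &&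
    !(nfB fw false fz false fx false s1) &&
    !(nfB fw false fz false fx true s1) &&
    !(nfB fw false fz true fx false s1) &&
    !(nfB fw false fz true fx true s1) &&
    !(nfB fw true fz false fx false s1) &&
    !(nfB fw false fz false fy false s2) &&
    !(nfB fw false fz false fy true s2) &&
    !(nfB fw false fz true fy false s2) &&
    !(nfB fw false fz true fy true s2) &&
    !(nfB fw true fz false fy true s2) &&
    !(nfB fw false fx false fy false s3) &&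
    !(nfB fw false fx true fy false s3) &&
    !(nfB fw false fx false fy true s3) &&
    !(nfB fw false fx true fy true s3) &&
    !(nfB fw true fx false fy true s3) &&
    nfB fz true fx true fy false s4 &&
    !(nfB fz false fx false fy false s4) &&
    !(nfB fz false fx true fy false s4) &&
    !(nfB fz false fx false fy true s4) &&
    !(nfB fz true fx false fy false s4) &&
    !(nfB fz true fx true fy true s4)) = false := by
  decide

theorem nf_check_23 : ∀ fx fy fz fw s1 s2 s3 s4 : Bool, (nfMono s1 s2 s3 s4 &&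
    !(nfB fw false fz false fy false s1) &&
    !(nfB fw false fz false fy true s1) &&
    !(nfB fw false fz true fy false s1) &&
    !(nfB fw false fz true fy true s1) &&
    !(nfB fw true fz false fy true s1) &&
    !(nfB fw false fz false fx false s2) &&
    !(nfB fw false fz false fx true s2) &&
    !(nfB fw false fz true fx false s2) &&
    !(nfB fw false fz true fx true s2) &&
    !(nfB fw true fz false fx false s2) &&
    !(nfB fw false fy false fx false s3) &&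
    !(nfB fw false fy false fx true s3) &&
    !(nfB fw false fy true fx false s3) &&
    !(nfB fw false fy true fx true s3) &&
    !(nfB fw true fy true fx false s3) &&
    nfB fz true fy false fx true s4 &&
    !(nfB fz false fy false fx false s4) &&
    !(nfB fz false fy false fx true s4) &&
    !(nfB fz false fy true fx false s4) &&
    !(nfB fz true fy false fx false s4) &&
    !(nfB fz true fy true fx true s4)) = false := by
  decide

theorem nf_leaf_0 (W : Sweep ι) (F : ι → Bool) {x y z w : ι}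
    (o1 : W.pos 0 x < W.pos 0 y) (o2 : W.pos 0 y < W.pos 0 z)
    (o3 : W.pos 0 z < W.pos 0 w)
    (hmid : ∀ X ∈ W.cells F, ¬ (X x = true ∧ X y = false ∧ X z = true))
    {C0 C1 C2 C3 C4 C5 : ι → Bool}
    (h0 : C0 ∈ W.cells F) (h1 : C1 ∈ W.cells F) (h2 : C2 ∈ W.cells F) (h3 : C3 ∈ W.cells F)
    (h4 : C4 ∈ W.cells F) (h5 : C5 ∈ W.cells F)
    (e0 : C0 x = false ∧ C0 y = false ∧ C0 z = false ∧ C0 w = false)
    (e1 : C1 x = true ∧ C1 y = false ∧ C1 z = false ∧ C1 w = false)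
    (e2 : C2 x = false ∧ C2 y = true ∧ C2 z = false ∧ C2 w = false)
    (e3 : C3 x = false ∧ C3 y = false ∧ C3 z = true ∧ C3 w = false)
    (e4 : C4 x = true ∧ C4 y = true ∧ C4 z = true ∧ C4 w = false)
    (e5 : C5 x = false ∧ C5 y = true ∧ C5 z = false ∧ C5 w = true) : False := by
  obtain ⟨s1, s2, s3, s4, hs, T1, T2, T3, T4⟩ := nf_signo W F o1 o2 o3
  have key := nf_check_0 (F x) (F y) (F z) (F w) s1 s2 s3 s4
  rw [hs,
    nf_pres (F := F) T1 true false true (fun X hX ea eb ec => hmid X hX ⟨ea, eb, ec⟩),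
    nf_abs T1 h0 e0.1 e0.2.1 e0.2.2.1,
    nf_abs T1 h1 e1.1 e1.2.1 e1.2.2.1,
    nf_abs T1 h2 e2.1 e2.2.1 e2.2.2.1,
    nf_abs T1 h3 e3.1 e3.2.1 e3.2.2.1,
    nf_abs T1 h4 e4.1 e4.2.1 e4.2.2.1,
    nf_abs T2 h0 e0.1 e0.2.1 e0.2.2.2,
    nf_abs T2 h1 e1.1 e1.2.1 e1.2.2.2,
    nf_abs T2 h2 e2.1 e2.2.1 e2.2.2.2,
    nf_abs T2 h4 e4.1 e4.2.1 e4.2.2.2,
    nf_abs T2 h5 e5.1 e5.2.1 e5.2.2.2,
    nf_abs T3 h0 e0.1 e0.2.2.1 e0.2.2.2,
    nf_abs T3 h1 e1.1 e1.2.2.1 e1.2.2.2,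
    nf_abs T3 h3 e3.1 e3.2.2.1 e3.2.2.2,
    nf_abs T3 h4 e4.1 e4.2.2.1 e4.2.2.2,
    nf_abs T3 h5 e5.1 e5.2.2.1 e5.2.2.2,
    nf_abs T4 h0 e0.2.1 e0.2.2.1 e0.2.2.2,
    nf_abs T4 h2 e2.2.1 e2.2.2.1 e2.2.2.2,
    nf_abs T4 h3 e3.2.1 e3.2.2.1 e3.2.2.2,
    nf_abs T4 h4 e4.2.1 e4.2.2.1 e4.2.2.2,
    nf_abs T4 h5 e5.2.1 e5.2.2.1 e5.2.2.2] at key
  exact absurd key (by decide)

theorem nf_leaf_1 (W : Sweep ι) (F : ι → Bool) {x y z w : ι}
    (o1 : W.pos 0 x < W.pos 0 y) (o2 : W.pos 0 y < W.pos 0 w)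
    (o3 : W.pos 0 w < W.pos 0 z)
    (hmid : ∀ X ∈ W.cells F, ¬ (X x = true ∧ X y = false ∧ X z = true))
    {C0 C1 C2 C3 C4 C5 : ι → Bool}
    (h0 : C0 ∈ W.cells F) (h1 : C1 ∈ W.cells F) (h2 : C2 ∈ W.cells F) (h3 : C3 ∈ W.cells F)
    (h4 : C4 ∈ W.cells F) (h5 : C5 ∈ W.cells F)
    (e0 : C0 x = false ∧ C0 y = false ∧ C0 z = false ∧ C0 w = false)
    (e1 : C1 x = true ∧ C1 y = false ∧ C1 z = false ∧ C1 w = false)
    (e2 : C2 x = false ∧ C2 y = true ∧ C2 z = false ∧ C2 w = false)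
    (e3 : C3 x = false ∧ C3 y = false ∧ C3 z = true ∧ C3 w = false)
    (e4 : C4 x = true ∧ C4 y = true ∧ C4 z = true ∧ C4 w = false)
    (e5 : C5 x = false ∧ C5 y = true ∧ C5 z = false ∧ C5 w = true) : False := by
  obtain ⟨s1, s2, s3, s4, hs, T1, T2, T3, T4⟩ := nf_signo W F o1 o2 o3
  have key := nf_check_1 (F x) (F y) (F z) (F w) s1 s2 s3 s4
  rw [hs,
    nf_abs T1 h0 e0.1 e0.2.1 e0.2.2.2,
    nf_abs T1 h1 e1.1 e1.2.1 e1.2.2.2,
    nf_abs T1 h2 e2.1 e2.2.1 e2.2.2.2,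
    nf_abs T1 h4 e4.1 e4.2.1 e4.2.2.2,
    nf_abs T1 h5 e5.1 e5.2.1 e5.2.2.2,
    nf_pres (F := F) T2 true false true (fun X hX ea eb ec => hmid X hX ⟨ea, eb, ec⟩),
    nf_abs T2 h0 e0.1 e0.2.1 e0.2.2.1,
    nf_abs T2 h1 e1.1 e1.2.1 e1.2.2.1,
    nf_abs T2 h2 e2.1 e2.2.1 e2.2.2.1,
    nf_abs T2 h3 e3.1 e3.2.1 e3.2.2.1,
    nf_abs T2 h4 e4.1 e4.2.1 e4.2.2.1,
    nf_abs T3 h0 e0.1 e0.2.2.2 e0.2.2.1,
    nf_abs T3 h1 e1.1 e1.2.2.2 e1.2.2.1,
    nf_abs T3 h3 e3.1 e3.2.2.2 e3.2.2.1,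
    nf_abs T3 h4 e4.1 e4.2.2.2 e4.2.2.1,
    nf_abs T3 h5 e5.1 e5.2.2.2 e5.2.2.1,
    nf_abs T4 h0 e0.2.1 e0.2.2.2 e0.2.2.1,
    nf_abs T4 h2 e2.2.1 e2.2.2.2 e2.2.2.1,
    nf_abs T4 h3 e3.2.1 e3.2.2.2 e3.2.2.1,
    nf_abs T4 h4 e4.2.1 e4.2.2.2 e4.2.2.1,
    nf_abs T4 h5 e5.2.1 e5.2.2.2 e5.2.2.1] at key
  exact absurd key (by decide)

theorem nf_leaf_2 (W : Sweep ι) (F : ι → Bool) {x y z w : ι}
    (o1 : W.pos 0 x < W.pos 0 z) (o2 : W.pos 0 z < W.pos 0 y)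
    (o3 : W.pos 0 y < W.pos 0 w)
    (hmid : ∀ X ∈ W.cells F, ¬ (X x = true ∧ X y = false ∧ X z = true))
    {C0 C1 C2 C3 C4 C5 : ι → Bool}
    (h0 : C0 ∈ W.cells F) (h1 : C1 ∈ W.cells F) (h2 : C2 ∈ W.cells F) (h3 : C3 ∈ W.cells F)
    (h4 : C4 ∈ W.cells F) (h5 : C5 ∈ W.cells F)
    (e0 : C0 x = false ∧ C0 y = false ∧ C0 z = false ∧ C0 w = false)
    (e1 : C1 x = true ∧ C1 y = false ∧ C1 z = false ∧ C1 w = false)
    (e2 : C2 x = false ∧ C2 y = true ∧ C2 z = false ∧ C2 w = false)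
    (e3 : C3 x = false ∧ C3 y = false ∧ C3 z = true ∧ C3 w = false)
    (e4 : C4 x = true ∧ C4 y = true ∧ C4 z = true ∧ C4 w = false)
    (e5 : C5 x = false ∧ C5 y = true ∧ C5 z = false ∧ C5 w = true) : False := by
  obtain ⟨s1, s2, s3, s4, hs, T1, T2, T3, T4⟩ := nf_signo W F o1 o2 o3
  have key := nf_check_2 (F x) (F y) (F z) (F w) s1 s2 s3 s4
  rw [hs,
    nf_pres (F := F) T1 true true false (fun X hX ea eb ec => hmid X hX ⟨ea, ec, eb⟩),
    nf_abs T1 h0 e0.1 e0.2.2.1 e0.2.1,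
    nf_abs T1 h1 e1.1 e1.2.2.1 e1.2.1,
    nf_abs T1 h2 e2.1 e2.2.2.1 e2.2.1,
    nf_abs T1 h3 e3.1 e3.2.2.1 e3.2.1,
    nf_abs T1 h4 e4.1 e4.2.2.1 e4.2.1,
    nf_abs T2 h0 e0.1 e0.2.2.1 e0.2.2.2,
    nf_abs T2 h1 e1.1 e1.2.2.1 e1.2.2.2,
    nf_abs T2 h3 e3.1 e3.2.2.1 e3.2.2.2,
    nf_abs T2 h4 e4.1 e4.2.2.1 e4.2.2.2,
    nf_abs T2 h5 e5.1 e5.2.2.1 e5.2.2.2,
    nf_abs T3 h0 e0.1 e0.2.1 e0.2.2.2,
    nf_abs T3 h1 e1.1 e1.2.1 e1.2.2.2,
    nf_abs T3 h2 e2.1 e2.2.1 e2.2.2.2,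
    nf_abs T3 h4 e4.1 e4.2.1 e4.2.2.2,
    nf_abs T3 h5 e5.1 e5.2.1 e5.2.2.2,
    nf_abs T4 h0 e0.2.2.1 e0.2.1 e0.2.2.2,
    nf_abs T4 h2 e2.2.2.1 e2.2.1 e2.2.2.2,
    nf_abs T4 h3 e3.2.2.1 e3.2.1 e3.2.2.2,
    nf_abs T4 h4 e4.2.2.1 e4.2.1 e4.2.2.2,
    nf_abs T4 h5 e5.2.2.1 e5.2.1 e5.2.2.2] at key
  exact absurd key (by decide)

theorem nf_leaf_3 (W : Sweep ι) (F : ι → Bool) {x y z w : ι}
    (o1 : W.pos 0 x < W.pos 0 z) (o2 : W.pos 0 z < W.pos 0 w)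
    (o3 : W.pos 0 w < W.pos 0 y)
    (hmid : ∀ X ∈ W.cells F, ¬ (X x = true ∧ X y = false ∧ X z = true))
    {C0 C1 C2 C3 C4 C5 : ι → Bool}
    (h0 : C0 ∈ W.cells F) (h1 : C1 ∈ W.cells F) (h2 : C2 ∈ W.cells F) (h3 : C3 ∈ W.cells F)
    (h4 : C4 ∈ W.cells F) (h5 : C5 ∈ W.cells F)
    (e0 : C0 x = false ∧ C0 y = false ∧ C0 z = false ∧ C0 w = false)
    (e1 : C1 x = true ∧ C1 y = false ∧ C1 z = false ∧ C1 w = false)
    (e2 : C2 x = false ∧ C2 y = true ∧ C2 z = false ∧ C2 w = false)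
    (e3 : C3 x = false ∧ C3 y = false ∧ C3 z = true ∧ C3 w = false)
    (e4 : C4 x = true ∧ C4 y = true ∧ C4 z = true ∧ C4 w = false)
    (e5 : C5 x = false ∧ C5 y = true ∧ C5 z = false ∧ C5 w = true) : False := by
  obtain ⟨s1, s2, s3, s4, hs, T1, T2, T3, T4⟩ := nf_signo W F o1 o2 o3
  have key := nf_check_3 (F x) (F y) (F z) (F w) s1 s2 s3 s4
  rw [hs,
    nf_abs T1 h0 e0.1 e0.2.2.1 e0.2.2.2,
    nf_abs T1 h1 e1.1 e1.2.2.1 e1.2.2.2,
    nf_abs T1 h3 e3.1 e3.2.2.1 e3.2.2.2,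
    nf_abs T1 h4 e4.1 e4.2.2.1 e4.2.2.2,
    nf_abs T1 h5 e5.1 e5.2.2.1 e5.2.2.2,
    nf_pres (F := F) T2 true true false (fun X hX ea eb ec => hmid X hX ⟨ea, ec, eb⟩),
    nf_abs T2 h0 e0.1 e0.2.2.1 e0.2.1,
    nf_abs T2 h1 e1.1 e1.2.2.1 e1.2.1,
    nf_abs T2 h2 e2.1 e2.2.2.1 e2.2.1,
    nf_abs T2 h3 e3.1 e3.2.2.1 e3.2.1,
    nf_abs T2 h4 e4.1 e4.2.2.1 e4.2.1,
    nf_abs T3 h0 e0.1 e0.2.2.2 e0.2.1,
    nf_abs T3 h1 e1.1 e1.2.2.2 e1.2.1,
    nf_abs T3 h2 e2.1 e2.2.2.2 e2.2.1,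
    nf_abs T3 h4 e4.1 e4.2.2.2 e4.2.1,
    nf_abs T3 h5 e5.1 e5.2.2.2 e5.2.1,
    nf_abs T4 h0 e0.2.2.1 e0.2.2.2 e0.2.1,
    nf_abs T4 h2 e2.2.2.1 e2.2.2.2 e2.2.1,
    nf_abs T4 h3 e3.2.2.1 e3.2.2.2 e3.2.1,
    nf_abs T4 h4 e4.2.2.1 e4.2.2.2 e4.2.1,
    nf_abs T4 h5 e5.2.2.1 e5.2.2.2 e5.2.1] at key
  exact absurd key (by decide)

theorem nf_leaf_4 (W : Sweep ι) (F : ι → Bool) {x y z w : ι}
    (o1 : W.pos 0 x < W.pos 0 w) (o2 : W.pos 0 w < W.pos 0 y)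
    (o3 : W.pos 0 y < W.pos 0 z)
    (hmid : ∀ X ∈ W.cells F, ¬ (X x = true ∧ X y = false ∧ X z = true))
    {C0 C1 C2 C3 C4 C5 : ι → Bool}
    (h0 : C0 ∈ W.cells F) (h1 : C1 ∈ W.cells F) (h2 : C2 ∈ W.cells F) (h3 : C3 ∈ W.cells F)
    (h4 : C4 ∈ W.cells F) (h5 : C5 ∈ W.cells F)
    (e0 : C0 x = false ∧ C0 y = false ∧ C0 z = false ∧ C0 w = false)
    (e1 : C1 x = true ∧ C1 y = false ∧ C1 z = false ∧ C1 w = false)
    (e2 : C2 x = false ∧ C2 y = true ∧ C2 z = false ∧ C2 w = false)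
    (e3 : C3 x = false ∧ C3 y = false ∧ C3 z = true ∧ C3 w = false)
    (e4 : C4 x = true ∧ C4 y = true ∧ C4 z = true ∧ C4 w = false)
    (e5 : C5 x = false ∧ C5 y = true ∧ C5 z = false ∧ C5 w = true) : False := by
  obtain ⟨s1, s2, s3, s4, hs, T1, T2, T3, T4⟩ := nf_signo W F o1 o2 o3
  have key := nf_check_4 (F x) (F y) (F z) (F w) s1 s2 s3 s4
  rw [hs,
    nf_abs T1 h0 e0.1 e0.2.2.2 e0.2.1,
    nf_abs T1 h1 e1.1 e1.2.2.2 e1.2.1,
    nf_abs T1 h2 e2.1 e2.2.2.2 e2.2.1,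
    nf_abs T1 h4 e4.1 e4.2.2.2 e4.2.1,
    nf_abs T1 h5 e5.1 e5.2.2.2 e5.2.1,
    nf_abs T2 h0 e0.1 e0.2.2.2 e0.2.2.1,
    nf_abs T2 h1 e1.1 e1.2.2.2 e1.2.2.1,
    nf_abs T2 h3 e3.1 e3.2.2.2 e3.2.2.1,
    nf_abs T2 h4 e4.1 e4.2.2.2 e4.2.2.1,
    nf_abs T2 h5 e5.1 e5.2.2.2 e5.2.2.1,
    nf_pres (F := F) T3 true false true (fun X hX ea eb ec => hmid X hX ⟨ea, eb, ec⟩),
    nf_abs T3 h0 e0.1 e0.2.1 e0.2.2.1,
    nf_abs T3 h1 e1.1 e1.2.1 e1.2.2.1,
    nf_abs T3 h2 e2.1 e2.2.1 e2.2.2.1,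
    nf_abs T3 h3 e3.1 e3.2.1 e3.2.2.1,
    nf_abs T3 h4 e4.1 e4.2.1 e4.2.2.1,
    nf_abs T4 h0 e0.2.2.2 e0.2.1 e0.2.2.1,
    nf_abs T4 h2 e2.2.2.2 e2.2.1 e2.2.2.1,
    nf_abs T4 h3 e3.2.2.2 e3.2.1 e3.2.2.1,
    nf_abs T4 h4 e4.2.2.2 e4.2.1 e4.2.2.1,
    nf_abs T4 h5 e5.2.2.2 e5.2.1 e5.2.2.1] at key
  exact absurd key (by decide)

theorem nf_leaf_5 (W : Sweep ι) (F : ι → Bool) {x y z w : ι}
    (o1 : W.pos 0 x < W.pos 0 w) (o2 : W.pos 0 w < W.pos 0 z)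
    (o3 : W.pos 0 z < W.pos 0 y)
    (hmid : ∀ X ∈ W.cells F, ¬ (X x = true ∧ X y = false ∧ X z = true))
    {C0 C1 C2 C3 C4 C5 : ι → Bool}
    (h0 : C0 ∈ W.cells F) (h1 : C1 ∈ W.cells F) (h2 : C2 ∈ W.cells F) (h3 : C3 ∈ W.cells F)
    (h4 : C4 ∈ W.cells F) (h5 : C5 ∈ W.cells F)
    (e0 : C0 x = false ∧ C0 y = false ∧ C0 z = false ∧ C0 w = false)
    (e1 : C1 x = true ∧ C1 y = false ∧ C1 z = false ∧ C1 w = false)
    (e2 : C2 x = false ∧ C2 y = true ∧ C2 z = false ∧ C2 w = false)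
    (e3 : C3 x = false ∧ C3 y = false ∧ C3 z = true ∧ C3 w = false)
    (e4 : C4 x = true ∧ C4 y = true ∧ C4 z = true ∧ C4 w = false)
    (e5 : C5 x = false ∧ C5 y = true ∧ C5 z = false ∧ C5 w = true) : False := by
  obtain ⟨s1, s2, s3, s4, hs, T1, T2, T3, T4⟩ := nf_signo W F o1 o2 o3
  have key := nf_check_5 (F x) (F y) (F z) (F w) s1 s2 s3 s4
  rw [hs,
    nf_abs T1 h0 e0.1 e0.2.2.2 e0.2.2.1,
    nf_abs T1 h1 e1.1 e1.2.2.2 e1.2.2.1,
    nf_abs T1 h3 e3.1 e3.2.2.2 e3.2.2.1,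
    nf_abs T1 h4 e4.1 e4.2.2.2 e4.2.2.1,
    nf_abs T1 h5 e5.1 e5.2.2.2 e5.2.2.1,
    nf_abs T2 h0 e0.1 e0.2.2.2 e0.2.1,
    nf_abs T2 h1 e1.1 e1.2.2.2 e1.2.1,
    nf_abs T2 h2 e2.1 e2.2.2.2 e2.2.1,
    nf_abs T2 h4 e4.1 e4.2.2.2 e4.2.1,
    nf_abs T2 h5 e5.1 e5.2.2.2 e5.2.1,
    nf_pres (F := F) T3 true true false (fun X hX ea eb ec => hmid X hX ⟨ea, ec, eb⟩),
    nf_abs T3 h0 e0.1 e0.2.2.1 e0.2.1,
    nf_abs T3 h1 e1.1 e1.2.2.1 e1.2.1,
    nf_abs T3 h2 e2.1 e2.2.2.1 e2.2.1,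
    nf_abs T3 h3 e3.1 e3.2.2.1 e3.2.1,
    nf_abs T3 h4 e4.1 e4.2.2.1 e4.2.1,
    nf_abs T4 h0 e0.2.2.2 e0.2.2.1 e0.2.1,
    nf_abs T4 h2 e2.2.2.2 e2.2.2.1 e2.2.1,
    nf_abs T4 h3 e3.2.2.2 e3.2.2.1 e3.2.1,
    nf_abs T4 h4 e4.2.2.2 e4.2.2.1 e4.2.1,
    nf_abs T4 h5 e5.2.2.2 e5.2.2.1 e5.2.1] at key
  exact absurd key (by decide)

theorem nf_leaf_6 (W : Sweep ι) (F : ι → Bool) {x y z w : ι}
    (o1 : W.pos 0 y < W.pos 0 x) (o2 : W.pos 0 x < W.pos 0 z)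
    (o3 : W.pos 0 z < W.pos 0 w)
    (hmid : ∀ X ∈ W.cells F, ¬ (X x = true ∧ X y = false ∧ X z = true))
    {C0 C1 C2 C3 C4 C5 : ι → Bool}
    (h0 : C0 ∈ W.cells F) (h1 : C1 ∈ W.cells F) (h2 : C2 ∈ W.cells F) (h3 : C3 ∈ W.cells F)
    (h4 : C4 ∈ W.cells F) (h5 : C5 ∈ W.cells F)
    (e0 : C0 x = false ∧ C0 y = false ∧ C0 z = false ∧ C0 w = false)
    (e1 : C1 x = true ∧ C1 y = false ∧ C1 z = false ∧ C1 w = false)
    (e2 : C2 x = false ∧ C2 y = true ∧ C2 z = false ∧ C2 w = false)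
    (e3 : C3 x = false ∧ C3 y = false ∧ C3 z = true ∧ C3 w = false)
    (e4 : C4 x = true ∧ C4 y = true ∧ C4 z = true ∧ C4 w = false)
    (e5 : C5 x = false ∧ C5 y = true ∧ C5 z = false ∧ C5 w = true) : False := by
  obtain ⟨s1, s2, s3, s4, hs, T1, T2, T3, T4⟩ := nf_signo W F o1 o2 o3
  have key := nf_check_6 (F x) (F y) (F z) (F w) s1 s2 s3 s4
  rw [hs,
    nf_pres (F := F) T1 false true true (fun X hX ea eb ec => hmid X hX ⟨eb, ea, ec⟩),
    nf_abs T1 h0 e0.2.1 e0.1 e0.2.2.1,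
    nf_abs T1 h1 e1.2.1 e1.1 e1.2.2.1,
    nf_abs T1 h2 e2.2.1 e2.1 e2.2.2.1,
    nf_abs T1 h3 e3.2.1 e3.1 e3.2.2.1,
    nf_abs T1 h4 e4.2.1 e4.1 e4.2.2.1,
    nf_abs T2 h0 e0.2.1 e0.1 e0.2.2.2,
    nf_abs T2 h1 e1.2.1 e1.1 e1.2.2.2,
    nf_abs T2 h2 e2.2.1 e2.1 e2.2.2.2,
    nf_abs T2 h4 e4.2.1 e4.1 e4.2.2.2,
    nf_abs T2 h5 e5.2.1 e5.1 e5.2.2.2,
    nf_abs T3 h0 e0.2.1 e0.2.2.1 e0.2.2.2,
    nf_abs T3 h2 e2.2.1 e2.2.2.1 e2.2.2.2,
    nf_abs T3 h3 e3.2.1 e3.2.2.1 e3.2.2.2,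
    nf_abs T3 h4 e4.2.1 e4.2.2.1 e4.2.2.2,
    nf_abs T3 h5 e5.2.1 e5.2.2.1 e5.2.2.2,
    nf_abs T4 h0 e0.1 e0.2.2.1 e0.2.2.2,
    nf_abs T4 h1 e1.1 e1.2.2.1 e1.2.2.2,
    nf_abs T4 h3 e3.1 e3.2.2.1 e3.2.2.2,
    nf_abs T4 h4 e4.1 e4.2.2.1 e4.2.2.2,
    nf_abs T4 h5 e5.1 e5.2.2.1 e5.2.2.2] at key
  exact absurd key (by decide)

theorem nf_leaf_7 (W : Sweep ι) (F : ι → Bool) {x y z w : ι}
    (o1 : W.pos 0 y < W.pos 0 x) (o2 : W.pos 0 x < W.pos 0 w)
    (o3 : W.pos 0 w < W.pos 0 z)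
    (hmid : ∀ X ∈ W.cells F, ¬ (X x = true ∧ X y = false ∧ X z = true))
    {C0 C1 C2 C3 C4 C5 : ι → Bool}
    (h0 : C0 ∈ W.cells F) (h1 : C1 ∈ W.cells F) (h2 : C2 ∈ W.cells F) (h3 : C3 ∈ W.cells F)
    (h4 : C4 ∈ W.cells F) (h5 : C5 ∈ W.cells F)
    (e0 : C0 x = false ∧ C0 y = false ∧ C0 z = false ∧ C0 w = false)
    (e1 : C1 x = true ∧ C1 y = false ∧ C1 z = false ∧ C1 w = false)
    (e2 : C2 x = false ∧ C2 y = true ∧ C2 z = false ∧ C2 w = false)
    (e3 : C3 x = false ∧ C3 y = false ∧ C3 z = true ∧ C3 w = false)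
    (e4 : C4 x = true ∧ C4 y = true ∧ C4 z = true ∧ C4 w = false)
    (e5 : C5 x = false ∧ C5 y = true ∧ C5 z = false ∧ C5 w = true) : False := by
  obtain ⟨s1, s2, s3, s4, hs, T1, T2, T3, T4⟩ := nf_signo W F o1 o2 o3
  have key := nf_check_7 (F x) (F y) (F z) (F w) s1 s2 s3 s4
  rw [hs,
    nf_abs T1 h0 e0.2.1 e0.1 e0.2.2.2,
    nf_abs T1 h1 e1.2.1 e1.1 e1.2.2.2,
    nf_abs T1 h2 e2.2.1 e2.1 e2.2.2.2,
    nf_abs T1 h4 e4.2.1 e4.1 e4.2.2.2,
    nf_abs T1 h5 e5.2.1 e5.1 e5.2.2.2,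
    nf_pres (F := F) T2 false true true (fun X hX ea eb ec => hmid X hX ⟨eb, ea, ec⟩),
    nf_abs T2 h0 e0.2.1 e0.1 e0.2.2.1,
    nf_abs T2 h1 e1.2.1 e1.1 e1.2.2.1,
    nf_abs T2 h2 e2.2.1 e2.1 e2.2.2.1,
    nf_abs T2 h3 e3.2.1 e3.1 e3.2.2.1,
    nf_abs T2 h4 e4.2.1 e4.1 e4.2.2.1,
    nf_abs T3 h0 e0.2.1 e0.2.2.2 e0.2.2.1,
    nf_abs T3 h2 e2.2.1 e2.2.2.2 e2.2.2.1,
    nf_abs T3 h3 e3.2.1 e3.2.2.2 e3.2.2.1,
    nf_abs T3 h4 e4.2.1 e4.2.2.2 e4.2.2.1,
    nf_abs T3 h5 e5.2.1 e5.2.2.2 e5.2.2.1,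
    nf_abs T4 h0 e0.1 e0.2.2.2 e0.2.2.1,
    nf_abs T4 h1 e1.1 e1.2.2.2 e1.2.2.1,
    nf_abs T4 h3 e3.1 e3.2.2.2 e3.2.2.1,
    nf_abs T4 h4 e4.1 e4.2.2.2 e4.2.2.1,
    nf_abs T4 h5 e5.1 e5.2.2.2 e5.2.2.1] at key
  exact absurd key (by decide)

theorem nf_leaf_8 (W : Sweep ι) (F : ι → Bool) {x y z w : ι}
    (o1 : W.pos 0 y < W.pos 0 z) (o2 : W.pos 0 z < W.pos 0 x)
    (o3 : W.pos 0 x < W.pos 0 w)
    (hmid : ∀ X ∈ W.cells F, ¬ (X x = true ∧ X y = false ∧ X z = true))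
    {C0 C1 C2 C3 C4 C5 : ι → Bool}
    (h0 : C0 ∈ W.cells F) (h1 : C1 ∈ W.cells F) (h2 : C2 ∈ W.cells F) (h3 : C3 ∈ W.cells F)
    (h4 : C4 ∈ W.cells F) (h5 : C5 ∈ W.cells F)
    (e0 : C0 x = false ∧ C0 y = false ∧ C0 z = false ∧ C0 w = false)
    (e1 : C1 x = true ∧ C1 y = false ∧ C1 z = false ∧ C1 w = false)
    (e2 : C2 x = false ∧ C2 y = true ∧ C2 z = false ∧ C2 w = false)
    (e3 : C3 x = false ∧ C3 y = false ∧ C3 z = true ∧ C3 w = false)
    (e4 : C4 x = true ∧ C4 y = true ∧ C4 z = true ∧ C4 w = false)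
    (e5 : C5 x = false ∧ C5 y = true ∧ C5 z = false ∧ C5 w = true) : False := by
  obtain ⟨s1, s2, s3, s4, hs, T1, T2, T3, T4⟩ := nf_signo W F o1 o2 o3
  have key := nf_check_8 (F x) (F y) (F z) (F w) s1 s2 s3 s4
  rw [hs,
    nf_pres (F := F) T1 false true true (fun X hX ea eb ec => hmid X hX ⟨ec, ea, eb⟩),
    nf_abs T1 h0 e0.2.1 e0.2.2.1 e0.1,
    nf_abs T1 h1 e1.2.1 e1.2.2.1 e1.1,
    nf_abs T1 h2 e2.2.1 e2.2.2.1 e2.1,
    nf_abs T1 h3 e3.2.1 e3.2.2.1 e3.1,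
    nf_abs T1 h4 e4.2.1 e4.2.2.1 e4.1,
    nf_abs T2 h0 e0.2.1 e0.2.2.1 e0.2.2.2,
    nf_abs T2 h2 e2.2.1 e2.2.2.1 e2.2.2.2,
    nf_abs T2 h3 e3.2.1 e3.2.2.1 e3.2.2.2,
    nf_abs T2 h4 e4.2.1 e4.2.2.1 e4.2.2.2,
    nf_abs T2 h5 e5.2.1 e5.2.2.1 e5.2.2.2,
    nf_abs T3 h0 e0.2.1 e0.1 e0.2.2.2,
    nf_abs T3 h1 e1.2.1 e1.1 e1.2.2.2,
    nf_abs T3 h2 e2.2.1 e2.1 e2.2.2.2,
    nf_abs T3 h4 e4.2.1 e4.1 e4.2.2.2,
    nf_abs T3 h5 e5.2.1 e5.1 e5.2.2.2,
    nf_abs T4 h0 e0.2.2.1 e0.1 e0.2.2.2,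
    nf_abs T4 h1 e1.2.2.1 e1.1 e1.2.2.2,
    nf_abs T4 h3 e3.2.2.1 e3.1 e3.2.2.2,
    nf_abs T4 h4 e4.2.2.1 e4.1 e4.2.2.2,
    nf_abs T4 h5 e5.2.2.1 e5.1 e5.2.2.2] at key
  exact absurd key (by decide)

theorem nf_leaf_9 (W : Sweep ι) (F : ι → Bool) {x y z w : ι}
    (o1 : W.pos 0 y < W.pos 0 z) (o2 : W.pos 0 z < W.pos 0 w)
    (o3 : W.pos 0 w < W.pos 0 x)
    (hmid : ∀ X ∈ W.cells F, ¬ (X x = true ∧ X y = false ∧ X z = true))
    {C0 C1 C2 C3 C4 C5 : ι → Bool}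
    (h0 : C0 ∈ W.cells F) (h1 : C1 ∈ W.cells F) (h2 : C2 ∈ W.cells F) (h3 : C3 ∈ W.cells F)
    (h4 : C4 ∈ W.cells F) (h5 : C5 ∈ W.cells F)
    (e0 : C0 x = false ∧ C0 y = false ∧ C0 z = false ∧ C0 w = false)
    (e1 : C1 x = true ∧ C1 y = false ∧ C1 z = false ∧ C1 w = false)
    (e2 : C2 x = false ∧ C2 y = true ∧ C2 z = false ∧ C2 w = false)
    (e3 : C3 x = false ∧ C3 y = false ∧ C3 z = true ∧ C3 w = false)
    (e4 : C4 x = true ∧ C4 y = true ∧ C4 z = true ∧ C4 w = false)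
    (e5 : C5 x = false ∧ C5 y = true ∧ C5 z = false ∧ C5 w = true) : False := by
  obtain ⟨s1, s2, s3, s4, hs, T1, T2, T3, T4⟩ := nf_signo W F o1 o2 o3
  have key := nf_check_9 (F x) (F y) (F z) (F w) s1 s2 s3 s4
  rw [hs,
    nf_abs T1 h0 e0.2.1 e0.2.2.1 e0.2.2.2,
    nf_abs T1 h2 e2.2.1 e2.2.2.1 e2.2.2.2,
    nf_abs T1 h3 e3.2.1 e3.2.2.1 e3.2.2.2,
    nf_abs T1 h4 e4.2.1 e4.2.2.1 e4.2.2.2,
    nf_abs T1 h5 e5.2.1 e5.2.2.1 e5.2.2.2,
    nf_pres (F := F) T2 false true true (fun X hX ea eb ec => hmid X hX ⟨ec, ea, eb⟩),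
    nf_abs T2 h0 e0.2.1 e0.2.2.1 e0.1,
    nf_abs T2 h1 e1.2.1 e1.2.2.1 e1.1,
    nf_abs T2 h2 e2.2.1 e2.2.2.1 e2.1,
    nf_abs T2 h3 e3.2.1 e3.2.2.1 e3.1,
    nf_abs T2 h4 e4.2.1 e4.2.2.1 e4.1,
    nf_abs T3 h0 e0.2.1 e0.2.2.2 e0.1,
    nf_abs T3 h1 e1.2.1 e1.2.2.2 e1.1,
    nf_abs T3 h2 e2.2.1 e2.2.2.2 e2.1,
    nf_abs T3 h4 e4.2.1 e4.2.2.2 e4.1,
    nf_abs T3 h5 e5.2.1 e5.2.2.2 e5.1,
    nf_abs T4 h0 e0.2.2.1 e0.2.2.2 e0.1,
    nf_abs T4 h1 e1.2.2.1 e1.2.2.2 e1.1,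
    nf_abs T4 h3 e3.2.2.1 e3.2.2.2 e3.1,
    nf_abs T4 h4 e4.2.2.1 e4.2.2.2 e4.1,
    nf_abs T4 h5 e5.2.2.1 e5.2.2.2 e5.1] at key
  exact absurd key (by decide)

theorem nf_leaf_10 (W : Sweep ι) (F : ι → Bool) {x y z w : ι}
    (o1 : W.pos 0 y < W.pos 0 w) (o2 : W.pos 0 w < W.pos 0 x)
    (o3 : W.pos 0 x < W.pos 0 z)
    (hmid : ∀ X ∈ W.cells F, ¬ (X x = true ∧ X y = false ∧ X z = true))
    {C0 C1 C2 C3 C4 C5 : ι → Bool}
    (h0 : C0 ∈ W.cells F) (h1 : C1 ∈ W.cells F) (h2 : C2 ∈ W.cells F) (h3 : C3 ∈ W.cells F)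
    (h4 : C4 ∈ W.cells F) (h5 : C5 ∈ W.cells F)
    (e0 : C0 x = false ∧ C0 y = false ∧ C0 z = false ∧ C0 w = false)
    (e1 : C1 x = true ∧ C1 y = false ∧ C1 z = false ∧ C1 w = false)
    (e2 : C2 x = false ∧ C2 y = true ∧ C2 z = false ∧ C2 w = false)
    (e3 : C3 x = false ∧ C3 y = false ∧ C3 z = true ∧ C3 w = false)
    (e4 : C4 x = true ∧ C4 y = true ∧ C4 z = true ∧ C4 w = false)
    (e5 : C5 x = false ∧ C5 y = true ∧ C5 z = false ∧ C5 w = true) : False := by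
  obtain ⟨s1, s2, s3, s4, hs, T1, T2, T3, T4⟩ := nf_signo W F o1 o2 o3
  have key := nf_check_10 (F x) (F y) (F z) (F w) s1 s2 s3 s4
  rw [hs,
    nf_abs T1 h0 e0.2.1 e0.2.2.2 e0.1,
    nf_abs T1 h1 e1.2.1 e1.2.2.2 e1.1,
    nf_abs T1 h2 e2.2.1 e2.2.2.2 e2.1,
    nf_abs T1 h4 e4.2.1 e4.2.2.2 e4.1,
    nf_abs T1 h5 e5.2.1 e5.2.2.2 e5.1,
    nf_abs T2 h0 e0.2.1 e0.2.2.2 e0.2.2.1,
    nf_abs T2 h2 e2.2.1 e2.2.2.2 e2.2.2.1,
    nf_abs T2 h3 e3.2.1 e3.2.2.2 e3.2.2.1,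
    nf_abs T2 h4 e4.2.1 e4.2.2.2 e4.2.2.1,
    nf_abs T2 h5 e5.2.1 e5.2.2.2 e5.2.2.1,
    nf_pres (F := F) T3 false true true (fun X hX ea eb ec => hmid X hX ⟨eb, ea, ec⟩),
    nf_abs T3 h0 e0.2.1 e0.1 e0.2.2.1,
    nf_abs T3 h1 e1.2.1 e1.1 e1.2.2.1,
    nf_abs T3 h2 e2.2.1 e2.1 e2.2.2.1,
    nf_abs T3 h3 e3.2.1 e3.1 e3.2.2.1,
    nf_abs T3 h4 e4.2.1 e4.1 e4.2.2.1,
    nf_abs T4 h0 e0.2.2.2 e0.1 e0.2.2.1,
    nf_abs T4 h1 e1.2.2.2 e1.1 e1.2.2.1,
    nf_abs T4 h3 e3.2.2.2 e3.1 e3.2.2.1,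
    nf_abs T4 h4 e4.2.2.2 e4.1 e4.2.2.1,
    nf_abs T4 h5 e5.2.2.2 e5.1 e5.2.2.1] at key
  exact absurd key (by decide)

theorem nf_leaf_11 (W : Sweep ι) (F : ι → Bool) {x y z w : ι}
    (o1 : W.pos 0 y < W.pos 0 w) (o2 : W.pos 0 w < W.pos 0 z)
    (o3 : W.pos 0 z < W.pos 0 x)
    (hmid : ∀ X ∈ W.cells F, ¬ (X x = true ∧ X y = false ∧ X z = true))
    {C0 C1 C2 C3 C4 C5 : ι → Bool}
    (h0 : C0 ∈ W.cells F) (h1 : C1 ∈ W.cells F) (h2 : C2 ∈ W.cells F) (h3 : C3 ∈ W.cells F)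
    (h4 : C4 ∈ W.cells F) (h5 : C5 ∈ W.cells F)
    (e0 : C0 x = false ∧ C0 y = false ∧ C0 z = false ∧ C0 w = false)
    (e1 : C1 x = true ∧ C1 y = false ∧ C1 z = false ∧ C1 w = false)
    (e2 : C2 x = false ∧ C2 y = true ∧ C2 z = false ∧ C2 w = false)
    (e3 : C3 x = false ∧ C3 y = false ∧ C3 z = true ∧ C3 w = false)
    (e4 : C4 x = true ∧ C4 y = true ∧ C4 z = true ∧ C4 w = false)
    (e5 : C5 x = false ∧ C5 y = true ∧ C5 z = false ∧ C5 w = true) : False := by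
  obtain ⟨s1, s2, s3, s4, hs, T1, T2, T3, T4⟩ := nf_signo W F o1 o2 o3
  have key := nf_check_11 (F x) (F y) (F z) (F w) s1 s2 s3 s4
  rw [hs,
    nf_abs T1 h0 e0.2.1 e0.2.2.2 e0.2.2.1,
    nf_abs T1 h2 e2.2.1 e2.2.2.2 e2.2.2.1,
    nf_abs T1 h3 e3.2.1 e3.2.2.2 e3.2.2.1,
    nf_abs T1 h4 e4.2.1 e4.2.2.2 e4.2.2.1,
    nf_abs T1 h5 e5.2.1 e5.2.2.2 e5.2.2.1,
    nf_abs T2 h0 e0.2.1 e0.2.2.2 e0.1,
    nf_abs T2 h1 e1.2.1 e1.2.2.2 e1.1,
    nf_abs T2 h2 e2.2.1 e2.2.2.2 e2.1,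
    nf_abs T2 h4 e4.2.1 e4.2.2.2 e4.1,
    nf_abs T2 h5 e5.2.1 e5.2.2.2 e5.1,
    nf_pres (F := F) T3 false true true (fun X hX ea eb ec => hmid X hX ⟨ec, ea, eb⟩),
    nf_abs T3 h0 e0.2.1 e0.2.2.1 e0.1,
    nf_abs T3 h1 e1.2.1 e1.2.2.1 e1.1,
    nf_abs T3 h2 e2.2.1 e2.2.2.1 e2.1,
    nf_abs T3 h3 e3.2.1 e3.2.2.1 e3.1,
    nf_abs T3 h4 e4.2.1 e4.2.2.1 e4.1,
    nf_abs T4 h0 e0.2.2.2 e0.2.2.1 e0.1,
    nf_abs T4 h1 e1.2.2.2 e1.2.2.1 e1.1,
    nf_abs T4 h3 e3.2.2.2 e3.2.2.1 e3.1,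
    nf_abs T4 h4 e4.2.2.2 e4.2.2.1 e4.1,
    nf_abs T4 h5 e5.2.2.2 e5.2.2.1 e5.1] at key
  exact absurd key (by decide)

theorem nf_leaf_12 (W : Sweep ι) (F : ι → Bool) {x y z w : ι}
    (o1 : W.pos 0 z < W.pos 0 x) (o2 : W.pos 0 x < W.pos 0 y)
    (o3 : W.pos 0 y < W.pos 0 w)
    (hmid : ∀ X ∈ W.cells F, ¬ (X x = true ∧ X y = false ∧ X z = true))
    {C0 C1 C2 C3 C4 C5 : ι → Bool}
    (h0 : C0 ∈ W.cells F) (h1 : C1 ∈ W.cells F) (h2 : C2 ∈ W.cells F) (h3 : C3 ∈ W.cells F)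
    (h4 : C4 ∈ W.cells F) (h5 : C5 ∈ W.cells F)
    (e0 : C0 x = false ∧ C0 y = false ∧ C0 z = false ∧ C0 w = false)
    (e1 : C1 x = true ∧ C1 y = false ∧ C1 z = false ∧ C1 w = false)
    (e2 : C2 x = false ∧ C2 y = true ∧ C2 z = false ∧ C2 w = false)
    (e3 : C3 x = false ∧ C3 y = false ∧ C3 z = true ∧ C3 w = false)
    (e4 : C4 x = true ∧ C4 y = true ∧ C4 z = true ∧ C4 w = false)
    (e5 : C5 x = false ∧ C5 y = true ∧ C5 z = false ∧ C5 w = true) : False := by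
  obtain ⟨s1, s2, s3, s4, hs, T1, T2, T3, T4⟩ := nf_signo W F o1 o2 o3
  have key := nf_check_12 (F x) (F y) (F z) (F w) s1 s2 s3 s4
  rw [hs,
    nf_pres (F := F) T1 true true false (fun X hX ea eb ec => hmid X hX ⟨eb, ec, ea⟩),
    nf_abs T1 h0 e0.2.2.1 e0.1 e0.2.1,
    nf_abs T1 h1 e1.2.2.1 e1.1 e1.2.1,
    nf_abs T1 h2 e2.2.2.1 e2.1 e2.2.1,
    nf_abs T1 h3 e3.2.2.1 e3.1 e3.2.1,
    nf_abs T1 h4 e4.2.2.1 e4.1 e4.2.1,
    nf_abs T2 h0 e0.2.2.1 e0.1 e0.2.2.2,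
    nf_abs T2 h1 e1.2.2.1 e1.1 e1.2.2.2,
    nf_abs T2 h3 e3.2.2.1 e3.1 e3.2.2.2,
    nf_abs T2 h4 e4.2.2.1 e4.1 e4.2.2.2,
    nf_abs T2 h5 e5.2.2.1 e5.1 e5.2.2.2,
    nf_abs T3 h0 e0.2.2.1 e0.2.1 e0.2.2.2,
    nf_abs T3 h2 e2.2.2.1 e2.2.1 e2.2.2.2,
    nf_abs T3 h3 e3.2.2.1 e3.2.1 e3.2.2.2,
    nf_abs T3 h4 e4.2.2.1 e4.2.1 e4.2.2.2,
    nf_abs T3 h5 e5.2.2.1 e5.2.1 e5.2.2.2,
    nf_abs T4 h0 e0.1 e0.2.1 e0.2.2.2,
    nf_abs T4 h1 e1.1 e1.2.1 e1.2.2.2,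
    nf_abs T4 h2 e2.1 e2.2.1 e2.2.2.2,
    nf_abs T4 h4 e4.1 e4.2.1 e4.2.2.2,
    nf_abs T4 h5 e5.1 e5.2.1 e5.2.2.2] at key
  exact absurd key (by decide)

theorem nf_leaf_13 (W : Sweep ι) (F : ι → Bool) {x y z w : ι}
    (o1 : W.pos 0 z < W.pos 0 x) (o2 : W.pos 0 x < W.pos 0 w)
    (o3 : W.pos 0 w < W.pos 0 y)
    (hmid : ∀ X ∈ W.cells F, ¬ (X x = true ∧ X y = false ∧ X z = true))
    {C0 C1 C2 C3 C4 C5 : ι → Bool}
    (h0 : C0 ∈ W.cells F) (h1 : C1 ∈ W.cells F) (h2 : C2 ∈ W.cells F) (h3 : C3 ∈ W.cells F)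
    (h4 : C4 ∈ W.cells F) (h5 : C5 ∈ W.cells F)
    (e0 : C0 x = false ∧ C0 y = false ∧ C0 z = false ∧ C0 w = false)
    (e1 : C1 x = true ∧ C1 y = false ∧ C1 z = false ∧ C1 w = false)
    (e2 : C2 x = false ∧ C2 y = true ∧ C2 z = false ∧ C2 w = false)
    (e3 : C3 x = false ∧ C3 y = false ∧ C3 z = true ∧ C3 w = false)
    (e4 : C4 x = true ∧ C4 y = true ∧ C4 z = true ∧ C4 w = false)
    (e5 : C5 x = false ∧ C5 y = true ∧ C5 z = false ∧ C5 w = true) : False := by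
  obtain ⟨s1, s2, s3, s4, hs, T1, T2, T3, T4⟩ := nf_signo W F o1 o2 o3
  have key := nf_check_13 (F x) (F y) (F z) (F w) s1 s2 s3 s4
  rw [hs,
    nf_abs T1 h0 e0.2.2.1 e0.1 e0.2.2.2,
    nf_abs T1 h1 e1.2.2.1 e1.1 e1.2.2.2,
    nf_abs T1 h3 e3.2.2.1 e3.1 e3.2.2.2,
    nf_abs T1 h4 e4.2.2.1 e4.1 e4.2.2.2,
    nf_abs T1 h5 e5.2.2.1 e5.1 e5.2.2.2,
    nf_pres (F := F) T2 true true false (fun X hX ea eb ec => hmid X hX ⟨eb, ec, ea⟩),
    nf_abs T2 h0 e0.2.2.1 e0.1 e0.2.1,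
    nf_abs T2 h1 e1.2.2.1 e1.1 e1.2.1,
    nf_abs T2 h2 e2.2.2.1 e2.1 e2.2.1,
    nf_abs T2 h3 e3.2.2.1 e3.1 e3.2.1,
    nf_abs T2 h4 e4.2.2.1 e4.1 e4.2.1,
    nf_abs T3 h0 e0.2.2.1 e0.2.2.2 e0.2.1,
    nf_abs T3 h2 e2.2.2.1 e2.2.2.2 e2.2.1,
    nf_abs T3 h3 e3.2.2.1 e3.2.2.2 e3.2.1,
    nf_abs T3 h4 e4.2.2.1 e4.2.2.2 e4.2.1,
    nf_abs T3 h5 e5.2.2.1 e5.2.2.2 e5.2.1,
    nf_abs T4 h0 e0.1 e0.2.2.2 e0.2.1,
    nf_abs T4 h1 e1.1 e1.2.2.2 e1.2.1,
    nf_abs T4 h2 e2.1 e2.2.2.2 e2.2.1,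
    nf_abs T4 h4 e4.1 e4.2.2.2 e4.2.1,
    nf_abs T4 h5 e5.1 e5.2.2.2 e5.2.1] at key
  exact absurd key (by decide)

theorem nf_leaf_14 (W : Sweep ι) (F : ι → Bool) {x y z w : ι}
    (o1 : W.pos 0 z < W.pos 0 y) (o2 : W.pos 0 y < W.pos 0 x)
    (o3 : W.pos 0 x < W.pos 0 w)
    (hmid : ∀ X ∈ W.cells F, ¬ (X x = true ∧ X y = false ∧ X z = true))
    {C0 C1 C2 C3 C4 C5 : ι → Bool}
    (h0 : C0 ∈ W.cells F) (h1 : C1 ∈ W.cells F) (h2 : C2 ∈ W.cells F) (h3 : C3 ∈ W.cells F)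
    (h4 : C4 ∈ W.cells F) (h5 : C5 ∈ W.cells F)
    (e0 : C0 x = false ∧ C0 y = false ∧ C0 z = false ∧ C0 w = false)
    (e1 : C1 x = true ∧ C1 y = false ∧ C1 z = false ∧ C1 w = false)
    (e2 : C2 x = false ∧ C2 y = true ∧ C2 z = false ∧ C2 w = false)
    (e3 : C3 x = false ∧ C3 y = false ∧ C3 z = true ∧ C3 w = false)
    (e4 : C4 x = true ∧ C4 y = true ∧ C4 z = true ∧ C4 w = false)
    (e5 : C5 x = false ∧ C5 y = true ∧ C5 z = false ∧ C5 w = true) : False := by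
  obtain ⟨s1, s2, s3, s4, hs, T1, T2, T3, T4⟩ := nf_signo W F o1 o2 o3
  have key := nf_check_14 (F x) (F y) (F z) (F w) s1 s2 s3 s4
  rw [hs,
    nf_pres (F := F) T1 true false true (fun X hX ea eb ec => hmid X hX ⟨ec, eb, ea⟩),
    nf_abs T1 h0 e0.2.2.1 e0.2.1 e0.1,
    nf_abs T1 h1 e1.2.2.1 e1.2.1 e1.1,
    nf_abs T1 h2 e2.2.2.1 e2.2.1 e2.1,
    nf_abs T1 h3 e3.2.2.1 e3.2.1 e3.1,
    nf_abs T1 h4 e4.2.2.1 e4.2.1 e4.1,
    nf_abs T2 h0 e0.2.2.1 e0.2.1 e0.2.2.2,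
    nf_abs T2 h2 e2.2.2.1 e2.2.1 e2.2.2.2,
    nf_abs T2 h3 e3.2.2.1 e3.2.1 e3.2.2.2,
    nf_abs T2 h4 e4.2.2.1 e4.2.1 e4.2.2.2,
    nf_abs T2 h5 e5.2.2.1 e5.2.1 e5.2.2.2,
    nf_abs T3 h0 e0.2.2.1 e0.1 e0.2.2.2,
    nf_abs T3 h1 e1.2.2.1 e1.1 e1.2.2.2,
    nf_abs T3 h3 e3.2.2.1 e3.1 e3.2.2.2,
    nf_abs T3 h4 e4.2.2.1 e4.1 e4.2.2.2,
    nf_abs T3 h5 e5.2.2.1 e5.1 e5.2.2.2,
    nf_abs T4 h0 e0.2.1 e0.1 e0.2.2.2,
    nf_abs T4 h1 e1.2.1 e1.1 e1.2.2.2,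
    nf_abs T4 h2 e2.2.1 e2.1 e2.2.2.2,
    nf_abs T4 h4 e4.2.1 e4.1 e4.2.2.2,
    nf_abs T4 h5 e5.2.1 e5.1 e5.2.2.2] at key
  exact absurd key (by decide)

theorem nf_leaf_15 (W : Sweep ι) (F : ι → Bool) {x y z w : ι}
    (o1 : W.pos 0 z < W.pos 0 y) (o2 : W.pos 0 y < W.pos 0 w)
    (o3 : W.pos 0 w < W.pos 0 x)
    (hmid : ∀ X ∈ W.cells F, ¬ (X x = true ∧ X y = false ∧ X z = true))
    {C0 C1 C2 C3 C4 C5 : ι → Bool}
    (h0 : C0 ∈ W.cells F) (h1 : C1 ∈ W.cells F) (h2 : C2 ∈ W.cells F) (h3 : C3 ∈ W.cells F)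
    (h4 : C4 ∈ W.cells F) (h5 : C5 ∈ W.cells F)
    (e0 : C0 x = false ∧ C0 y = false ∧ C0 z = false ∧ C0 w = false)
    (e1 : C1 x = true ∧ C1 y = false ∧ C1 z = false ∧ C1 w = false)
    (e2 : C2 x = false ∧ C2 y = true ∧ C2 z = false ∧ C2 w = false)
    (e3 : C3 x = false ∧ C3 y = false ∧ C3 z = true ∧ C3 w = false)
    (e4 : C4 x = true ∧ C4 y = true ∧ C4 z = true ∧ C4 w = false)
    (e5 : C5 x = false ∧ C5 y = true ∧ C5 z = false ∧ C5 w = true) : False := by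
  obtain ⟨s1, s2, s3, s4, hs, T1, T2, T3, T4⟩ := nf_signo W F o1 o2 o3
  have key := nf_check_15 (F x) (F y) (F z) (F w) s1 s2 s3 s4
  rw [hs,
    nf_abs T1 h0 e0.2.2.1 e0.2.1 e0.2.2.2,
    nf_abs T1 h2 e2.2.2.1 e2.2.1 e2.2.2.2,
    nf_abs T1 h3 e3.2.2.1 e3.2.1 e3.2.2.2,
    nf_abs T1 h4 e4.2.2.1 e4.2.1 e4.2.2.2,
    nf_abs T1 h5 e5.2.2.1 e5.2.1 e5.2.2.2,
    nf_pres (F := F) T2 true false true (fun X hX ea eb ec => hmid X hX ⟨ec, eb, ea⟩),
    nf_abs T2 h0 e0.2.2.1 e0.2.1 e0.1,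
    nf_abs T2 h1 e1.2.2.1 e1.2.1 e1.1,
    nf_abs T2 h2 e2.2.2.1 e2.2.1 e2.1,
    nf_abs T2 h3 e3.2.2.1 e3.2.1 e3.1,
    nf_abs T2 h4 e4.2.2.1 e4.2.1 e4.1,
    nf_abs T3 h0 e0.2.2.1 e0.2.2.2 e0.1,
    nf_abs T3 h1 e1.2.2.1 e1.2.2.2 e1.1,
    nf_abs T3 h3 e3.2.2.1 e3.2.2.2 e3.1,
    nf_abs T3 h4 e4.2.2.1 e4.2.2.2 e4.1,
    nf_abs T3 h5 e5.2.2.1 e5.2.2.2 e5.1,
    nf_abs T4 h0 e0.2.1 e0.2.2.2 e0.1,
    nf_abs T4 h1 e1.2.1 e1.2.2.2 e1.1,
    nf_abs T4 h2 e2.2.1 e2.2.2.2 e2.1,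
    nf_abs T4 h4 e4.2.1 e4.2.2.2 e4.1,
    nf_abs T4 h5 e5.2.1 e5.2.2.2 e5.1] at key
  exact absurd key (by decide)

theorem nf_leaf_16 (W : Sweep ι) (F : ι → Bool) {x y z w : ι}
    (o1 : W.pos 0 z < W.pos 0 w) (o2 : W.pos 0 w < W.pos 0 x)
    (o3 : W.pos 0 x < W.pos 0 y)
    (hmid : ∀ X ∈ W.cells F, ¬ (X x = true ∧ X y = false ∧ X z = true))
    {C0 C1 C2 C3 C4 C5 : ι → Bool}
    (h0 : C0 ∈ W.cells F) (h1 : C1 ∈ W.cells F) (h2 : C2 ∈ W.cells F) (h3 : C3 ∈ W.cells F)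
    (h4 : C4 ∈ W.cells F) (h5 : C5 ∈ W.cells F)
    (e0 : C0 x = false ∧ C0 y = false ∧ C0 z = false ∧ C0 w = false)
    (e1 : C1 x = true ∧ C1 y = false ∧ C1 z = false ∧ C1 w = false)
    (e2 : C2 x = false ∧ C2 y = true ∧ C2 z = false ∧ C2 w = false)
    (e3 : C3 x = false ∧ C3 y = false ∧ C3 z = true ∧ C3 w = false)
    (e4 : C4 x = true ∧ C4 y = true ∧ C4 z = true ∧ C4 w = false)
    (e5 : C5 x = false ∧ C5 y = true ∧ C5 z = false ∧ C5 w = true) : False := by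
  obtain ⟨s1, s2, s3, s4, hs, T1, T2, T3, T4⟩ := nf_signo W F o1 o2 o3
  have key := nf_check_16 (F x) (F y) (F z) (F w) s1 s2 s3 s4
  rw [hs,
    nf_abs T1 h0 e0.2.2.1 e0.2.2.2 e0.1,
    nf_abs T1 h1 e1.2.2.1 e1.2.2.2 e1.1,
    nf_abs T1 h3 e3.2.2.1 e3.2.2.2 e3.1,
    nf_abs T1 h4 e4.2.2.1 e4.2.2.2 e4.1,
    nf_abs T1 h5 e5.2.2.1 e5.2.2.2 e5.1,
    nf_abs T2 h0 e0.2.2.1 e0.2.2.2 e0.2.1,
    nf_abs T2 h2 e2.2.2.1 e2.2.2.2 e2.2.1,
    nf_abs T2 h3 e3.2.2.1 e3.2.2.2 e3.2.1,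
    nf_abs T2 h4 e4.2.2.1 e4.2.2.2 e4.2.1,
    nf_abs T2 h5 e5.2.2.1 e5.2.2.2 e5.2.1,
    nf_pres (F := F) T3 true true false (fun X hX ea eb ec => hmid X hX ⟨eb, ec, ea⟩),
    nf_abs T3 h0 e0.2.2.1 e0.1 e0.2.1,
    nf_abs T3 h1 e1.2.2.1 e1.1 e1.2.1,
    nf_abs T3 h2 e2.2.2.1 e2.1 e2.2.1,
    nf_abs T3 h3 e3.2.2.1 e3.1 e3.2.1,
    nf_abs T3 h4 e4.2.2.1 e4.1 e4.2.1,
    nf_abs T4 h0 e0.2.2.2 e0.1 e0.2.1,
    nf_abs T4 h1 e1.2.2.2 e1.1 e1.2.1,
    nf_abs T4 h2 e2.2.2.2 e2.1 e2.2.1,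
    nf_abs T4 h4 e4.2.2.2 e4.1 e4.2.1,
    nf_abs T4 h5 e5.2.2.2 e5.1 e5.2.1] at key
  exact absurd key (by decide)

theorem nf_leaf_17 (W : Sweep ι) (F : ι → Bool) {x y z w : ι}
    (o1 : W.pos 0 z < W.pos 0 w) (o2 : W.pos 0 w < W.pos 0 y)
    (o3 : W.pos 0 y < W.pos 0 x)
    (hmid : ∀ X ∈ W.cells F, ¬ (X x = true ∧ X y = false ∧ X z = true))
    {C0 C1 C2 C3 C4 C5 : ι → Bool}
    (h0 : C0 ∈ W.cells F) (h1 : C1 ∈ W.cells F) (h2 : C2 ∈ W.cells F) (h3 : C3 ∈ W.cells F)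
    (h4 : C4 ∈ W.cells F) (h5 : C5 ∈ W.cells F)
    (e0 : C0 x = false ∧ C0 y = false ∧ C0 z = false ∧ C0 w = false)
    (e1 : C1 x = true ∧ C1 y = false ∧ C1 z = false ∧ C1 w = false)
    (e2 : C2 x = false ∧ C2 y = true ∧ C2 z = false ∧ C2 w = false)
    (e3 : C3 x = false ∧ C3 y = false ∧ C3 z = true ∧ C3 w = false)
    (e4 : C4 x = true ∧ C4 y = true ∧ C4 z = true ∧ C4 w = false)
    (e5 : C5 x = false ∧ C5 y = true ∧ C5 z = false ∧ C5 w = true) : False := by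
  obtain ⟨s1, s2, s3, s4, hs, T1, T2, T3, T4⟩ := nf_signo W F o1 o2 o3
  have key := nf_check_17 (F x) (F y) (F z) (F w) s1 s2 s3 s4
  rw [hs,
    nf_abs T1 h0 e0.2.2.1 e0.2.2.2 e0.2.1,
    nf_abs T1 h2 e2.2.2.1 e2.2.2.2 e2.2.1,
    nf_abs T1 h3 e3.2.2.1 e3.2.2.2 e3.2.1,
    nf_abs T1 h4 e4.2.2.1 e4.2.2.2 e4.2.1,
    nf_abs T1 h5 e5.2.2.1 e5.2.2.2 e5.2.1,
    nf_abs T2 h0 e0.2.2.1 e0.2.2.2 e0.1,
    nf_abs T2 h1 e1.2.2.1 e1.2.2.2 e1.1,
    nf_abs T2 h3 e3.2.2.1 e3.2.2.2 e3.1,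
    nf_abs T2 h4 e4.2.2.1 e4.2.2.2 e4.1,
    nf_abs T2 h5 e5.2.2.1 e5.2.2.2 e5.1,
    nf_pres (F := F) T3 true false true (fun X hX ea eb ec => hmid X hX ⟨ec, eb, ea⟩),
    nf_abs T3 h0 e0.2.2.1 e0.2.1 e0.1,
    nf_abs T3 h1 e1.2.2.1 e1.2.1 e1.1,
    nf_abs T3 h2 e2.2.2.1 e2.2.1 e2.1,
    nf_abs T3 h3 e3.2.2.1 e3.2.1 e3.1,
    nf_abs T3 h4 e4.2.2.1 e4.2.1 e4.1,
    nf_abs T4 h0 e0.2.2.2 e0.2.1 e0.1,
    nf_abs T4 h1 e1.2.2.2 e1.2.1 e1.1,
    nf_abs T4 h2 e2.2.2.2 e2.2.1 e2.1,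
    nf_abs T4 h4 e4.2.2.2 e4.2.1 e4.1,
    nf_abs T4 h5 e5.2.2.2 e5.2.1 e5.1] at key
  exact absurd key (by decide)

theorem nf_leaf_18 (W : Sweep ι) (F : ι → Bool) {x y z w : ι}
    (o1 : W.pos 0 w < W.pos 0 x) (o2 : W.pos 0 x < W.pos 0 y)
    (o3 : W.pos 0 y < W.pos 0 z)
    (hmid : ∀ X ∈ W.cells F, ¬ (X x = true ∧ X y = false ∧ X z = true))
    {C0 C1 C2 C3 C4 C5 : ι → Bool}
    (h0 : C0 ∈ W.cells F) (h1 : C1 ∈ W.cells F) (h2 : C2 ∈ W.cells F) (h3 : C3 ∈ W.cells F)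
    (h4 : C4 ∈ W.cells F) (h5 : C5 ∈ W.cells F)
    (e0 : C0 x = false ∧ C0 y = false ∧ C0 z = false ∧ C0 w = false)
    (e1 : C1 x = true ∧ C1 y = false ∧ C1 z = false ∧ C1 w = false)
    (e2 : C2 x = false ∧ C2 y = true ∧ C2 z = false ∧ C2 w = false)
    (e3 : C3 x = false ∧ C3 y = false ∧ C3 z = true ∧ C3 w = false)
    (e4 : C4 x = true ∧ C4 y = true ∧ C4 z = true ∧ C4 w = false)
    (e5 : C5 x = false ∧ C5 y = true ∧ C5 z = false ∧ C5 w = true) : False := by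
  obtain ⟨s1, s2, s3, s4, hs, T1, T2, T3, T4⟩ := nf_signo W F o1 o2 o3
  have key := nf_check_18 (F x) (F y) (F z) (F w) s1 s2 s3 s4
  rw [hs,
    nf_abs T1 h0 e0.2.2.2 e0.1 e0.2.1,
    nf_abs T1 h1 e1.2.2.2 e1.1 e1.2.1,
    nf_abs T1 h2 e2.2.2.2 e2.1 e2.2.1,
    nf_abs T1 h4 e4.2.2.2 e4.1 e4.2.1,
    nf_abs T1 h5 e5.2.2.2 e5.1 e5.2.1,
    nf_abs T2 h0 e0.2.2.2 e0.1 e0.2.2.1,
    nf_abs T2 h1 e1.2.2.2 e1.1 e1.2.2.1,
    nf_abs T2 h3 e3.2.2.2 e3.1 e3.2.2.1,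
    nf_abs T2 h4 e4.2.2.2 e4.1 e4.2.2.1,
    nf_abs T2 h5 e5.2.2.2 e5.1 e5.2.2.1,
    nf_abs T3 h0 e0.2.2.2 e0.2.1 e0.2.2.1,
    nf_abs T3 h2 e2.2.2.2 e2.2.1 e2.2.2.1,
    nf_abs T3 h3 e3.2.2.2 e3.2.1 e3.2.2.1,
    nf_abs T3 h4 e4.2.2.2 e4.2.1 e4.2.2.1,
    nf_abs T3 h5 e5.2.2.2 e5.2.1 e5.2.2.1,
    nf_pres (F := F) T4 true false true (fun X hX ea eb ec => hmid X hX ⟨ea, eb, ec⟩),
    nf_abs T4 h0 e0.1 e0.2.1 e0.2.2.1,
    nf_abs T4 h1 e1.1 e1.2.1 e1.2.2.1,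
    nf_abs T4 h2 e2.1 e2.2.1 e2.2.2.1,
    nf_abs T4 h3 e3.1 e3.2.1 e3.2.2.1,
    nf_abs T4 h4 e4.1 e4.2.1 e4.2.2.1] at key
  exact absurd key (by decide)

theorem nf_leaf_19 (W : Sweep ι) (F : ι → Bool) {x y z w : ι}
    (o1 : W.pos 0 w < W.pos 0 x) (o2 : W.pos 0 x < W.pos 0 z)
    (o3 : W.pos 0 z < W.pos 0 y)
    (hmid : ∀ X ∈ W.cells F, ¬ (X x = true ∧ X y = false ∧ X z = true))
    {C0 C1 C2 C3 C4 C5 : ι → Bool}
    (h0 : C0 ∈ W.cells F) (h1 : C1 ∈ W.cells F) (h2 : C2 ∈ W.cells F) (h3 : C3 ∈ W.cells F)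
    (h4 : C4 ∈ W.cells F) (h5 : C5 ∈ W.cells F)
    (e0 : C0 x = false ∧ C0 y = false ∧ C0 z = false ∧ C0 w = false)
    (e1 : C1 x = true ∧ C1 y = false ∧ C1 z = false ∧ C1 w = false)
    (e2 : C2 x = false ∧ C2 y = true ∧ C2 z = false ∧ C2 w = false)
    (e3 : C3 x = false ∧ C3 y = false ∧ C3 z = true ∧ C3 w = false)
    (e4 : C4 x = true ∧ C4 y = true ∧ C4 z = true ∧ C4 w = false)
    (e5 : C5 x = false ∧ C5 y = true ∧ C5 z = false ∧ C5 w = true) : False := by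
  obtain ⟨s1, s2, s3, s4, hs, T1, T2, T3, T4⟩ := nf_signo W F o1 o2 o3
  have key := nf_check_19 (F x) (F y) (F z) (F w) s1 s2 s3 s4
  rw [hs,
    nf_abs T1 h0 e0.2.2.2 e0.1 e0.2.2.1,
    nf_abs T1 h1 e1.2.2.2 e1.1 e1.2.2.1,
    nf_abs T1 h3 e3.2.2.2 e3.1 e3.2.2.1,
    nf_abs T1 h4 e4.2.2.2 e4.1 e4.2.2.1,
    nf_abs T1 h5 e5.2.2.2 e5.1 e5.2.2.1,
    nf_abs T2 h0 e0.2.2.2 e0.1 e0.2.1,
    nf_abs T2 h1 e1.2.2.2 e1.1 e1.2.1,
    nf_abs T2 h2 e2.2.2.2 e2.1 e2.2.1,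
    nf_abs T2 h4 e4.2.2.2 e4.1 e4.2.1,
    nf_abs T2 h5 e5.2.2.2 e5.1 e5.2.1,
    nf_abs T3 h0 e0.2.2.2 e0.2.2.1 e0.2.1,
    nf_abs T3 h2 e2.2.2.2 e2.2.2.1 e2.2.1,
    nf_abs T3 h3 e3.2.2.2 e3.2.2.1 e3.2.1,
    nf_abs T3 h4 e4.2.2.2 e4.2.2.1 e4.2.1,
    nf_abs T3 h5 e5.2.2.2 e5.2.2.1 e5.2.1,
    nf_pres (F := F) T4 true true false (fun X hX ea eb ec => hmid X hX ⟨ea, ec, eb⟩),
    nf_abs T4 h0 e0.1 e0.2.2.1 e0.2.1,
    nf_abs T4 h1 e1.1 e1.2.2.1 e1.2.1,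
    nf_abs T4 h2 e2.1 e2.2.2.1 e2.2.1,
    nf_abs T4 h3 e3.1 e3.2.2.1 e3.2.1,
    nf_abs T4 h4 e4.1 e4.2.2.1 e4.2.1] at key
  exact absurd key (by decide)

theorem nf_leaf_20 (W : Sweep ι) (F : ι → Bool) {x y z w : ι}
    (o1 : W.pos 0 w < W.pos 0 y) (o2 : W.pos 0 y < W.pos 0 x)
    (o3 : W.pos 0 x < W.pos 0 z)
    (hmid : ∀ X ∈ W.cells F, ¬ (X x = true ∧ X y = false ∧ X z = true))
    {C0 C1 C2 C3 C4 C5 : ι → Bool}
    (h0 : C0 ∈ W.cells F) (h1 : C1 ∈ W.cells F) (h2 : C2 ∈ W.cells F) (h3 : C3 ∈ W.cells F)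
    (h4 : C4 ∈ W.cells F) (h5 : C5 ∈ W.cells F)
    (e0 : C0 x = false ∧ C0 y = false ∧ C0 z = false ∧ C0 w = false)
    (e1 : C1 x = true ∧ C1 y = false ∧ C1 z = false ∧ C1 w = false)
    (e2 : C2 x = false ∧ C2 y = true ∧ C2 z = false ∧ C2 w = false)
    (e3 : C3 x = false ∧ C3 y = false ∧ C3 z = true ∧ C3 w = false)
    (e4 : C4 x = true ∧ C4 y = true ∧ C4 z = true ∧ C4 w = false)
    (e5 : C5 x = false ∧ C5 y = true ∧ C5 z = false ∧ C5 w = true) : False := by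
  obtain ⟨s1, s2, s3, s4, hs, T1, T2, T3, T4⟩ := nf_signo W F o1 o2 o3
  have key := nf_check_20 (F x) (F y) (F z) (F w) s1 s2 s3 s4
  rw [hs,
    nf_abs T1 h0 e0.2.2.2 e0.2.1 e0.1,
    nf_abs T1 h1 e1.2.2.2 e1.2.1 e1.1,
    nf_abs T1 h2 e2.2.2.2 e2.2.1 e2.1,
    nf_abs T1 h4 e4.2.2.2 e4.2.1 e4.1,
    nf_abs T1 h5 e5.2.2.2 e5.2.1 e5.1,
    nf_abs T2 h0 e0.2.2.2 e0.2.1 e0.2.2.1,
    nf_abs T2 h2 e2.2.2.2 e2.2.1 e2.2.2.1,
    nf_abs T2 h3 e3.2.2.2 e3.2.1 e3.2.2.1,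
    nf_abs T2 h4 e4.2.2.2 e4.2.1 e4.2.2.1,
    nf_abs T2 h5 e5.2.2.2 e5.2.1 e5.2.2.1,
    nf_abs T3 h0 e0.2.2.2 e0.1 e0.2.2.1,
    nf_abs T3 h1 e1.2.2.2 e1.1 e1.2.2.1,
    nf_abs T3 h3 e3.2.2.2 e3.1 e3.2.2.1,
    nf_abs T3 h4 e4.2.2.2 e4.1 e4.2.2.1,
    nf_abs T3 h5 e5.2.2.2 e5.1 e5.2.2.1,
    nf_pres (F := F) T4 false true true (fun X hX ea eb ec => hmid X hX ⟨eb, ea, ec⟩),
    nf_abs T4 h0 e0.2.1 e0.1 e0.2.2.1,
    nf_abs T4 h1 e1.2.1 e1.1 e1.2.2.1,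
    nf_abs T4 h2 e2.2.1 e2.1 e2.2.2.1,
    nf_abs T4 h3 e3.2.1 e3.1 e3.2.2.1,
    nf_abs T4 h4 e4.2.1 e4.1 e4.2.2.1] at key
  exact absurd key (by decide)

theorem nf_leaf_21 (W : Sweep ι) (F : ι → Bool) {x y z w : ι}
    (o1 : W.pos 0 w < W.pos 0 y) (o2 : W.pos 0 y < W.pos 0 z)
    (o3 : W.pos 0 z < W.pos 0 x)
    (hmid : ∀ X ∈ W.cells F, ¬ (X x = true ∧ X y = false ∧ X z = true))
    {C0 C1 C2 C3 C4 C5 : ι → Bool}
    (h0 : C0 ∈ W.cells F) (h1 : C1 ∈ W.cells F) (h2 : C2 ∈ W.cells F) (h3 : C3 ∈ W.cells F)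
    (h4 : C4 ∈ W.cells F) (h5 : C5 ∈ W.cells F)
    (e0 : C0 x = false ∧ C0 y = false ∧ C0 z = false ∧ C0 w = false)
    (e1 : C1 x = true ∧ C1 y = false ∧ C1 z = false ∧ C1 w = false)
    (e2 : C2 x = false ∧ C2 y = true ∧ C2 z = false ∧ C2 w = false)
    (e3 : C3 x = false ∧ C3 y = false ∧ C3 z = true ∧ C3 w = false)
    (e4 : C4 x = true ∧ C4 y = true ∧ C4 z = true ∧ C4 w = false)
    (e5 : C5 x = false ∧ C5 y = true ∧ C5 z = false ∧ C5 w = true) : False := by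
  obtain ⟨s1, s2, s3, s4, hs, T1, T2, T3, T4⟩ := nf_signo W F o1 o2 o3
  have key := nf_check_21 (F x) (F y) (F z) (F w) s1 s2 s3 s4
  rw [hs,
    nf_abs T1 h0 e0.2.2.2 e0.2.1 e0.2.2.1,
    nf_abs T1 h2 e2.2.2.2 e2.2.1 e2.2.2.1,
    nf_abs T1 h3 e3.2.2.2 e3.2.1 e3.2.2.1,
    nf_abs T1 h4 e4.2.2.2 e4.2.1 e4.2.2.1,
    nf_abs T1 h5 e5.2.2.2 e5.2.1 e5.2.2.1,
    nf_abs T2 h0 e0.2.2.2 e0.2.1 e0.1,
    nf_abs T2 h1 e1.2.2.2 e1.2.1 e1.1,
    nf_abs T2 h2 e2.2.2.2 e2.2.1 e2.1,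
    nf_abs T2 h4 e4.2.2.2 e4.2.1 e4.1,
    nf_abs T2 h5 e5.2.2.2 e5.2.1 e5.1,
    nf_abs T3 h0 e0.2.2.2 e0.2.2.1 e0.1,
    nf_abs T3 h1 e1.2.2.2 e1.2.2.1 e1.1,
    nf_abs T3 h3 e3.2.2.2 e3.2.2.1 e3.1,
    nf_abs T3 h4 e4.2.2.2 e4.2.2.1 e4.1,
    nf_abs T3 h5 e5.2.2.2 e5.2.2.1 e5.1,
    nf_pres (F := F) T4 false true true (fun X hX ea eb ec => hmid X hX ⟨ec, ea, eb⟩),
    nf_abs T4 h0 e0.2.1 e0.2.2.1 e0.1,
    nf_abs T4 h1 e1.2.1 e1.2.2.1 e1.1,
    nf_abs T4 h2 e2.2.1 e2.2.2.1 e2.1,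
    nf_abs T4 h3 e3.2.1 e3.2.2.1 e3.1,
    nf_abs T4 h4 e4.2.1 e4.2.2.1 e4.1] at key
  exact absurd key (by decide)

theorem nf_leaf_22 (W : Sweep ι) (F : ι → Bool) {x y z w : ι}
    (o1 : W.pos 0 w < W.pos 0 z) (o2 : W.pos 0 z < W.pos 0 x)
    (o3 : W.pos 0 x < W.pos 0 y)
    (hmid : ∀ X ∈ W.cells F, ¬ (X x = true ∧ X y = false ∧ X z = true))
    {C0 C1 C2 C3 C4 C5 : ι → Bool}
    (h0 : C0 ∈ W.cells F) (h1 : C1 ∈ W.cells F) (h2 : C2 ∈ W.cells F) (h3 : C3 ∈ W.cells F)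
    (h4 : C4 ∈ W.cells F) (h5 : C5 ∈ W.cells F)
    (e0 : C0 x = false ∧ C0 y = false ∧ C0 z = false ∧ C0 w = false)
    (e1 : C1 x = true ∧ C1 y = false ∧ C1 z = false ∧ C1 w = false)
    (e2 : C2 x = false ∧ C2 y = true ∧ C2 z = false ∧ C2 w = false)
    (e3 : C3 x = false ∧ C3 y = false ∧ C3 z = true ∧ C3 w = false)
    (e4 : C4 x = true ∧ C4 y = true ∧ C4 z = true ∧ C4 w = false)
    (e5 : C5 x = false ∧ C5 y = true ∧ C5 z = false ∧ C5 w = true) : False := by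
  obtain ⟨s1, s2, s3, s4, hs, T1, T2, T3, T4⟩ := nf_signo W F o1 o2 o3
  have key := nf_check_22 (F x) (F y) (F z) (F w) s1 s2 s3 s4
  rw [hs,
    nf_abs T1 h0 e0.2.2.2 e0.2.2.1 e0.1,
    nf_abs T1 h1 e1.2.2.2 e1.2.2.1 e1.1,
    nf_abs T1 h3 e3.2.2.2 e3.2.2.1 e3.1,
    nf_abs T1 h4 e4.2.2.2 e4.2.2.1 e4.1,
    nf_abs T1 h5 e5.2.2.2 e5.2.2.1 e5.1,
    nf_abs T2 h0 e0.2.2.2 e0.2.2.1 e0.2.1,
    nf_abs T2 h2 e2.2.2.2 e2.2.2.1 e2.2.1,
    nf_abs T2 h3 e3.2.2.2 e3.2.2.1 e3.2.1,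
    nf_abs T2 h4 e4.2.2.2 e4.2.2.1 e4.2.1,
    nf_abs T2 h5 e5.2.2.2 e5.2.2.1 e5.2.1,
    nf_abs T3 h0 e0.2.2.2 e0.1 e0.2.1,
    nf_abs T3 h1 e1.2.2.2 e1.1 e1.2.1,
    nf_abs T3 h2 e2.2.2.2 e2.1 e2.2.1,
    nf_abs T3 h4 e4.2.2.2 e4.1 e4.2.1,
    nf_abs T3 h5 e5.2.2.2 e5.1 e5.2.1,
    nf_pres (F := F) T4 true true false (fun X hX ea eb ec => hmid X hX ⟨eb, ec, ea⟩),
    nf_abs T4 h0 e0.2.2.1 e0.1 e0.2.1,
    nf_abs T4 h1 e1.2.2.1 e1.1 e1.2.1,
    nf_abs T4 h2 e2.2.2.1 e2.1 e2.2.1,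
    nf_abs T4 h3 e3.2.2.1 e3.1 e3.2.1,
    nf_abs T4 h4 e4.2.2.1 e4.1 e4.2.1] at key
  exact absurd key (by decide)

theorem nf_leaf_23 (W : Sweep ι) (F : ι → Bool) {x y z w : ι}
    (o1 : W.pos 0 w < W.pos 0 z) (o2 : W.pos 0 z < W.pos 0 y)
    (o3 : W.pos 0 y < W.pos 0 x)
    (hmid : ∀ X ∈ W.cells F, ¬ (X x = true ∧ X y = false ∧ X z = true))
    {C0 C1 C2 C3 C4 C5 : ι → Bool}
    (h0 : C0 ∈ W.cells F) (h1 : C1 ∈ W.cells F) (h2 : C2 ∈ W.cells F) (h3 : C3 ∈ W.cells F)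
    (h4 : C4 ∈ W.cells F) (h5 : C5 ∈ W.cells F)
    (e0 : C0 x = false ∧ C0 y = false ∧ C0 z = false ∧ C0 w = false)
    (e1 : C1 x = true ∧ C1 y = false ∧ C1 z = false ∧ C1 w = false)
    (e2 : C2 x = false ∧ C2 y = true ∧ C2 z = false ∧ C2 w = false)
    (e3 : C3 x = false ∧ C3 y = false ∧ C3 z = true ∧ C3 w = false)
    (e4 : C4 x = true ∧ C4 y = true ∧ C4 z = true ∧ C4 w = false)
    (e5 : C5 x = false ∧ C5 y = true ∧ C5 z = false ∧ C5 w = true) : False := by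
  obtain ⟨s1, s2, s3, s4, hs, T1, T2, T3, T4⟩ := nf_signo W F o1 o2 o3
  have key := nf_check_23 (F x) (F y) (F z) (F w) s1 s2 s3 s4
  rw [hs,
    nf_abs T1 h0 e0.2.2.2 e0.2.2.1 e0.2.1,
    nf_abs T1 h2 e2.2.2.2 e2.2.2.1 e2.2.1,
    nf_abs T1 h3 e3.2.2.2 e3.2.2.1 e3.2.1,
    nf_abs T1 h4 e4.2.2.2 e4.2.2.1 e4.2.1,
    nf_abs T1 h5 e5.2.2.2 e5.2.2.1 e5.2.1,
    nf_abs T2 h0 e0.2.2.2 e0.2.2.1 e0.1,
    nf_abs T2 h1 e1.2.2.2 e1.2.2.1 e1.1,
    nf_abs T2 h3 e3.2.2.2 e3.2.2.1 e3.1,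
    nf_abs T2 h4 e4.2.2.2 e4.2.2.1 e4.1,
    nf_abs T2 h5 e5.2.2.2 e5.2.2.1 e5.1,
    nf_abs T3 h0 e0.2.2.2 e0.2.1 e0.1,
    nf_abs T3 h1 e1.2.2.2 e1.2.1 e1.1,
    nf_abs T3 h2 e2.2.2.2 e2.2.1 e2.1,
    nf_abs T3 h4 e4.2.2.2 e4.2.1 e4.1,
    nf_abs T3 h5 e5.2.2.2 e5.2.1 e5.1,
    nf_pres (F := F) T4 true false true (fun X hX ea eb ec => hmid X hX ⟨ec, eb, ea⟩),
    nf_abs T4 h0 e0.2.2.1 e0.2.1 e0.1,
    nf_abs T4 h1 e1.2.2.1 e1.2.1 e1.1,
    nf_abs T4 h2 e2.2.2.1 e2.2.1 e2.1,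
    nf_abs T4 h3 e3.2.2.1 e3.2.1 e3.1,
    nf_abs T4 h4 e4.2.2.1 e4.2.1 e4.1] at key
  exact absurd key (by decide)

/-- Four lines. -/
theorem Sweep.no_four (W : Sweep ι) (F : ι → Bool) {x y z w : ι} (hxy : x ≠ y) (hxz : x ≠ z)
    (hxw : x ≠ w) (hyz : y ≠ z) (hyw : y ≠ w) (hzw : z ≠ w)
    (hmid : ∀ X ∈ W.cells F, ¬ (X x = true ∧ X y = false ∧ X z = true))
    {C0 C1 C2 C3 C4 C5 : ι → Bool}
    (h0 : C0 ∈ W.cells F) (h1 : C1 ∈ W.cells F) (h2 : C2 ∈ W.cells F) (h3 : C3 ∈ W.cells F)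
    (h4 : C4 ∈ W.cells F) (h5 : C5 ∈ W.cells F)
    (e0 : C0 x = false ∧ C0 y = false ∧ C0 z = false ∧ C0 w = false)
    (e1 : C1 x = true ∧ C1 y = false ∧ C1 z = false ∧ C1 w = false)
    (e2 : C2 x = false ∧ C2 y = true ∧ C2 z = false ∧ C2 w = false)
    (e3 : C3 x = false ∧ C3 y = false ∧ C3 z = true ∧ C3 w = false)
    (e4 : C4 x = true ∧ C4 y = true ∧ C4 z = true ∧ C4 w = false)
    (e5 : C5 x = false ∧ C5 y = true ∧ C5 z = false ∧ C5 w = true) : False := by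

  have nxy : W.pos 0 x ≠ W.pos 0 y := fun h => hxy (W.inj 0 h)
  have nxz : W.pos 0 x ≠ W.pos 0 z := fun h => hxz (W.inj 0 h)
  have nxw : W.pos 0 x ≠ W.pos 0 w := fun h => hxw (W.inj 0 h)
  have nyz : W.pos 0 y ≠ W.pos 0 z := fun h => hyz (W.inj 0 h)
  have nyw : W.pos 0 y ≠ W.pos 0 w := fun h => hyw (W.inj 0 h)
  have nzw : W.pos 0 z ≠ W.pos 0 w := fun h => hzw (W.inj 0 h)
  rcases lt_or_gt_of_ne nxy with a0 | a0
  · rcases lt_or_gt_of_ne nxz with a1 | a1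
    · rcases lt_or_gt_of_ne nxw with a2 | a2
      · rcases lt_or_gt_of_ne nyz with a3 | a3
        · rcases lt_or_gt_of_ne nyw with a4 | a4
          · rcases lt_or_gt_of_ne nzw with a5 | a5
            · exact nf_leaf_0 W F a0 a3 a5 hmid h0 h1 h2 h3 h4 h5 e0 e1 e2 e3 e4 e5
            · exact nf_leaf_1 W F a0 a4 a5 hmid h0 h1 h2 h3 h4 h5 e0 e1 e2 e3 e4 e5
          · rcases lt_or_gt_of_ne nzw with a5 | a5
            · omega
            · exact nf_leaf_4 W F a2 a4 a3 hmid h0 h1 h2 h3 h4 h5 e0 e1 e2 e3 e4 e5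
        · rcases lt_or_gt_of_ne nyw with a4 | a4
          · rcases lt_or_gt_of_ne nzw with a5 | a5
            · exact nf_leaf_2 W F a1 a3 a4 hmid h0 h1 h2 h3 h4 h5 e0 e1 e2 e3 e4 e5
            · omega
          · rcases lt_or_gt_of_ne nzw with a5 | a5
            · exact nf_leaf_3 W F a1 a5 a4 hmid h0 h1 h2 h3 h4 h5 e0 e1 e2 e3 e4 e5
            · exact nf_leaf_5 W F a2 a5 a3 hmid h0 h1 h2 h3 h4 h5 e0 e1 e2 e3 e4 e5
      · rcases lt_or_gt_of_ne nyz with a3 | a3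
        · rcases lt_or_gt_of_ne nyw with a4 | a4
          · rcases lt_or_gt_of_ne nzw with a5 | a5
            · omega
            · omega
          · rcases lt_or_gt_of_ne nzw with a5 | a5
            · omega
            · exact nf_leaf_18 W F a2 a0 a3 hmid h0 h1 h2 h3 h4 h5 e0 e1 e2 e3 e4 e5
        · rcases lt_or_gt_of_ne nyw with a4 | a4
          · rcases lt_or_gt_of_ne nzw with a5 | a5
            · omega
            · omega
          · rcases lt_or_gt_of_ne nzw with a5 | a5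
            · omega
            · exact nf_leaf_19 W F a2 a1 a3 hmid h0 h1 h2 h3 h4 h5 e0 e1 e2 e3 e4 e5
    · rcases lt_or_gt_of_ne nxw with a2 | a2
      · rcases lt_or_gt_of_ne nyz with a3 | a3
        · rcases lt_or_gt_of_ne nyw with a4 | a4
          · rcases lt_or_gt_of_ne nzw with a5 | a5
            · omega
            · omega
          · rcases lt_or_gt_of_ne nzw with a5 | a5
            · omega
            · omega
        · rcases lt_or_gt_of_ne nyw with a4 | a4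
          · rcases lt_or_gt_of_ne nzw with a5 | a5
            · exact nf_leaf_12 W F a1 a0 a4 hmid h0 h1 h2 h3 h4 h5 e0 e1 e2 e3 e4 e5
            · omega
          · rcases lt_or_gt_of_ne nzw with a5 | a5
            · exact nf_leaf_13 W F a1 a2 a4 hmid h0 h1 h2 h3 h4 h5 e0 e1 e2 e3 e4 e5
            · omega
      · rcases lt_or_gt_of_ne nyz with a3 | a3
        · rcases lt_or_gt_of_ne nyw with a4 | a4
          · rcases lt_or_gt_of_ne nzw with a5 | a5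
            · omega
            · omega
          · rcases lt_or_gt_of_ne nzw with a5 | a5
            · omega
            · omega
        · rcases lt_or_gt_of_ne nyw with a4 | a4
          · rcases lt_or_gt_of_ne nzw with a5 | a5
            · omega
            · omega
          · rcases lt_or_gt_of_ne nzw with a5 | a5
            · exact nf_leaf_16 W F a5 a2 a0 hmid h0 h1 h2 h3 h4 h5 e0 e1 e2 e3 e4 e5
            · exact nf_leaf_22 W F a5 a1 a0 hmid h0 h1 h2 h3 h4 h5 e0 e1 e2 e3 e4 e5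
  · rcases lt_or_gt_of_ne nxz with a1 | a1
    · rcases lt_or_gt_of_ne nxw with a2 | a2
      · rcases lt_or_gt_of_ne nyz with a3 | a3
        · rcases lt_or_gt_of_ne nyw with a4 | a4
          · rcases lt_or_gt_of_ne nzw with a5 | a5
            · exact nf_leaf_6 W F a0 a1 a5 hmid h0 h1 h2 h3 h4 h5 e0 e1 e2 e3 e4 e5
            · exact nf_leaf_7 W F a0 a2 a5 hmid h0 h1 h2 h3 h4 h5 e0 e1 e2 e3 e4 e5
          · rcases lt_or_gt_of_ne nzw with a5 | a5
            · omega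
            · omega
        · rcases lt_or_gt_of_ne nyw with a4 | a4
          · rcases lt_or_gt_of_ne nzw with a5 | a5
            · omega
            · omega
          · rcases lt_or_gt_of_ne nzw with a5 | a5
            · omega
            · omega
      · rcases lt_or_gt_of_ne nyz with a3 | a3
        · rcases lt_or_gt_of_ne nyw with a4 | a4
          · rcases lt_or_gt_of_ne nzw with a5 | a5
            · omega
            · exact nf_leaf_10 W F a4 a2 a1 hmid h0 h1 h2 h3 h4 h5 e0 e1 e2 e3 e4 e5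
          · rcases lt_or_gt_of_ne nzw with a5 | a5
            · omega
            · exact nf_leaf_20 W F a4 a0 a1 hmid h0 h1 h2 h3 h4 h5 e0 e1 e2 e3 e4 e5
        · rcases lt_or_gt_of_ne nyw with a4 | a4
          · rcases lt_or_gt_of_ne nzw with a5 | a5
            · omega
            · omega
          · rcases lt_or_gt_of_ne nzw with a5 | a5
            · omega
            · omega
    · rcases lt_or_gt_of_ne nxw with a2 | a2
      · rcases lt_or_gt_of_ne nyz with a3 | a3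
        · rcases lt_or_gt_of_ne nyw with a4 | a4
          · rcases lt_or_gt_of_ne nzw with a5 | a5
            · exact nf_leaf_8 W F a3 a1 a2 hmid h0 h1 h2 h3 h4 h5 e0 e1 e2 e3 e4 e5
            · omega
          · rcases lt_or_gt_of_ne nzw with a5 | a5
            · omega
            · omega
        · rcases lt_or_gt_of_ne nyw with a4 | a4
          · rcases lt_or_gt_of_ne nzw with a5 | a5
            · exact nf_leaf_14 W F a3 a0 a2 hmid h0 h1 h2 h3 h4 h5 e0 e1 e2 e3 e4 e5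
            · omega
          · rcases lt_or_gt_of_ne nzw with a5 | a5
            · omega
            · omega
      · rcases lt_or_gt_of_ne nyz with a3 | a3
        · rcases lt_or_gt_of_ne nyw with a4 | a4
          · rcases lt_or_gt_of_ne nzw with a5 | a5
            · exact nf_leaf_9 W F a3 a5 a2 hmid h0 h1 h2 h3 h4 h5 e0 e1 e2 e3 e4 e5
            · exact nf_leaf_11 W F a4 a5 a1 hmid h0 h1 h2 h3 h4 h5 e0 e1 e2 e3 e4 e5
          · rcases lt_or_gt_of_ne nzw with a5 | a5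
            · omega
            · exact nf_leaf_21 W F a4 a3 a1 hmid h0 h1 h2 h3 h4 h5 e0 e1 e2 e3 e4 e5
        · rcases lt_or_gt_of_ne nyw with a4 | a4
          · rcases lt_or_gt_of_ne nzw with a5 | a5
            · exact nf_leaf_15 W F a3 a4 a2 hmid h0 h1 h2 h3 h4 h5 e0 e1 e2 e3 e4 e5
            · omega
          · rcases lt_or_gt_of_ne nzw with a5 | a5
            · exact nf_leaf_17 W F a5 a4 a0 hmid h0 h1 h2 h3 h4 h5 e0 e1 e2 e3 e4 e5
            · exact nf_leaf_23 W F a5 a3 a0 hmid h0 h1 h2 h3 h4 h5 e0 e1 e2 e3 e4 e5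

end PHP
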