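import Mathlib
import Pool.Agent.PHP.Defs
import Pool.Agent.PHP.SweepBasic
import Pool.Agent.PHP.NoFour

/-!
# The case of an uncovered cell

PROOF. `T = W.cells F`, `O = (fun _ => false) ∈ T`. Let `V = {x | {x} ∈ T}` (the cell containing only `x`: `Function.update O x true ∈ T`). Every `X ∈ T`, `X ≠ O`, contains some `x ∈ V`: `exists_step` from `O` towards `X`. So `V` hits every
`X` with `dep X ≥ m ≥ 1`. Let `R ⊆ V` be inclusion-minimal such that `R` hits every `X ∈ T` with `dep X ≥ m`. By minimality each `y ∈ R` has a private cell `P y ∈ T`, `dep (P y) ≥ m`, whose only element in `R` is `y`.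
Let `X ∈ T`, `dep X ≥ m`, `hit R X ≥ 3`: take distinct `x, y, z ∈ R` in `X`. The patterns `∅, {x}, {y}, {z}, {x,y,z}` on `{x,y,z}` occur (`O`, singles, `X`), some pattern is missing (`triple`), so one of `{x,y}, {y,z}, {x,z}` is missing; rename so that it is `{x,z}` (with `y` not).
If some `w ∈ P y` is not in `X` then `w ∉ {x,y,z}` and `no_four` applies to `O, {x}, {y}, {z}, X, P y`: contradiction. So `P y ⊆ X`, and `X` contains `P y` and the other `hit R X - 1` elements of `R` in `X` (not in `P y`), so `dep X ≥ m + hit R X - 1`.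
-/

namespace PHP

open Finset

variable {ι : Type} [Fintype ι] [DecidableEq ι]

/-- The case in which the middle element `y` of a triple has a private cell. -/
theorem GoodZero_core (W : Sweep ι) (F : ι → Bool) (h0 : (fun _ => false) ∈ W.cells F)
    {m : ℕ} {R : Finset ι} {x y z : ι} (hxy : x ≠ y) (hxz : x ≠ z) (hyz : y ≠ z)
    (hxR : x ∈ R) (hyR : y ∈ R) (hzR : z ∈ R)
    (hx : Function.update (fun _ => false) x true ∈ W.cells F)
    (hy : Function.update (fun _ => false) y true ∈ W.cells F)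
    (hz : Function.update (fun _ => false) z true ∈ W.cells F)
    (hmid : ∀ X ∈ W.cells F, ¬ (X x = true ∧ X y = false ∧ X z = true))
    {X P : ι → Bool} (hX : X ∈ W.cells F) (hP : P ∈ W.cells F)
    (hXx : X x = true) (hXy : X y = true) (hXz : X z = true) (hPm : m ≤ dep P) (hPy : P y = true)
    (hPR : ∀ u ∈ R, u ≠ y → P u = false) : hit R X + m ≤ dep X + 1 := by
  classical
  have hsub : ∀ w, P w = true → X w = true := by
    intro w hw
    by_contra hcon
    have hXw : X w = false := by simpa using hcon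
    have hPx := hPR x hxR hxy
    have hPz := hPR z hzR hyz.symm
    have hxw : x ≠ w := by
      rintro rfl
      rw [hPx] at hw
      exact Bool.false_ne_true hw
    have hzw : z ≠ w := by
      rintro rfl
      rw [hPz] at hw
      exact Bool.false_ne_true hw
    have hyw : y ≠ w := by
      rintro rfl
      rw [hXy] at hXw
      exact Bool.false_ne_true hXw.symm
    refine W.no_four F hxy hxz hxw hyz hyw hzw hmid h0 hx hy hz hX hP ⟨rfl, rfl, rfl, rfl⟩
      ⟨?_, ?_, ?_, ?_⟩ ⟨?_, ?_, ?_, ?_⟩ ⟨?_, ?_, ?_, ?_⟩ ⟨hXx, hXy, hXz, hXw⟩ ⟨hPx, hPy, hPz, hw⟩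
    · exact Function.update_self _ _ _
    · exact Function.update_of_ne hxy.symm _ _
    · exact Function.update_of_ne hxz.symm _ _
    · exact Function.update_of_ne hxw.symm _ _
    · exact Function.update_of_ne hxy _ _
    · exact Function.update_self _ _ _
    · exact Function.update_of_ne hyz.symm _ _
    · exact Function.update_of_ne hyw.symm _ _
    · exact Function.update_of_ne hxz _ _
    · exact Function.update_of_ne hyz _ _
    · exact Function.update_self _ _ _
    · exact Function.update_of_ne hzw.symm _ _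
  have hdisj : Disjoint (univ.filter (fun i => P i = true))
      ((R.filter (fun i => X i = true)).erase y) := by
    rw [Finset.disjoint_left]
    intro u hu hu'
    rw [Finset.mem_filter] at hu
    rw [Finset.mem_erase, Finset.mem_filter] at hu'
    have := hPR u hu'.2.1 hu'.1
    rw [hu.2] at this
    exact Bool.false_ne_true this.symm
  have hsubset : (univ.filter (fun i => P i = true)) ∪ ((R.filter (fun i => X i = true)).erase y) ⊆
      univ.filter (fun i => X i = true) := by
    intro u hu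
    rw [Finset.mem_union, Finset.mem_filter, Finset.mem_erase, Finset.mem_filter] at hu
    rw [Finset.mem_filter]
    refine ⟨Finset.mem_univ _, ?_⟩
    rcases hu with hu | hu
    · exact hsub u hu.2
    · exact hu.2.2
  have hcard := Finset.card_le_card hsubset
  rw [Finset.card_union_of_disjoint hdisj, Finset.card_erase_of_mem
    (Finset.mem_filter.2 ⟨hyR, hXy⟩)] at hcard
  have hpos : 1 ≤ (R.filter (fun i => X i = true)).card :=
    Finset.card_pos.2 ⟨y, Finset.mem_filter.2 ⟨hyR, hXy⟩⟩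
  unfold hit
  unfold dep at hPm ⊢
  omega

/-- Strong form of `P(m)` if some cell is in no pseudohalfplane. -/
theorem Sweep.good_zero (W : Sweep ι) (F : ι → Bool) (h0 : (fun _ => false) ∈ W.cells F)
    {m : ℕ} (hm : 1 ≤ m) :
    ∃ R : Finset ι, ∀ X ∈ W.cells F, m ≤ dep X →
      1 ≤ hit R X ∧ (hit R X ≤ 2 ∨ hit R X + m ≤ dep X + 1) := by
  classical
  obtain ⟨V, hV⟩ : ∃ V : Finset ι, ∀ x, x ∈ V ↔
      Function.update (fun _ => false) x true ∈ W.cells F :=
    ⟨univ.filter (fun x => Function.update (fun _ => false) x true ∈ W.cells F), by simp⟩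
  have hne : ∀ X : ι → Bool, m ≤ dep X → (fun _ => false) ≠ X := by
    rintro X hX rfl
    unfold dep at hX
    simp at hX
    omega
  have hVhit : ∀ X ∈ W.cells F, m ≤ dep X → 1 ≤ hit V X := by
    intro X hX hXm
    obtain ⟨z, hz1, hz2⟩ := W.exists_step F h0 hX (hne X hXm)
    have hz3 : X z = true := by
      cases h : X z
      · rw [h] at hz1
        exact absurd rfl hz1
      · rfl
    rw [hz3] at hz2
    unfold hit
    exact Finset.card_pos.2 ⟨z, Finset.mem_filter.2 ⟨(hV z).2 hz2, hz3⟩⟩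
  obtain ⟨R, hR, hRmin⟩ := (univ.filter (fun R : Finset ι => R ⊆ V ∧
    ∀ X ∈ W.cells F, m ≤ dep X → 1 ≤ hit R X)).exists_min_image Finset.card
      ⟨V, Finset.mem_filter.2 ⟨Finset.mem_univ _, subset_rfl, hVhit⟩⟩
  rw [Finset.mem_filter] at hR
  obtain ⟨_, hRV, hRhit⟩ := hR
  have hpriv : ∀ y ∈ R, ∃ P ∈ W.cells F, m ≤ dep P ∧ P y = true ∧ ∀ u ∈ R, u ≠ y → P u = false := by
    intro y hy
    by_contra hcon
    push Not at hcon
    have h1 : R.erase y ∈ univ.filter (fun R : Finset ι => R ⊆ V ∧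
        ∀ X ∈ W.cells F, m ≤ dep X → 1 ≤ hit R X) := by
      refine Finset.mem_filter.2 ⟨Finset.mem_univ _, (Finset.erase_subset _ _).trans hRV, ?_⟩
      intro X hX hXm
      by_contra h2
      have h3 : hit (R.erase y) X = 0 := by omega
      unfold hit at h3
      rw [Finset.card_eq_zero, Finset.filter_eq_empty_iff] at h3
      have h4 := hRhit X hX hXm
      unfold hit at h4
      obtain ⟨u, hu⟩ := Finset.card_pos.1 (Nat.lt_of_lt_of_le Nat.zero_lt_one h4)
      rw [Finset.mem_filter] at hu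
      have huy : u = y := by
        by_contra h5
        exact h3 (Finset.mem_erase.2 ⟨h5, hu.1⟩) hu.2
      obtain ⟨u', hu', hne', hu''⟩ := hcon X hX hXm (huy ▸ hu.2)
      exact h3 (Finset.mem_erase.2 ⟨hne', hu'⟩) (by simpa using hu'')
    have h2 := hRmin _ h1
    have h3 := Finset.card_erase_lt_of_mem hy
    omega
  refine ⟨R, fun X hX hXm => ⟨hRhit X hX hXm, ?_⟩⟩
  by_cases hle : hit R X ≤ 2
  · exact Or.inl hle
  right
  have h3 : 2 < (R.filter (fun i => X i = true)).card := by
    unfold hit at hle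
    omega
  obtain ⟨x, hx, y, hy, z, hz, hxy, hxz, hyz⟩ := Finset.two_lt_card.1 h3
  rw [Finset.mem_filter] at hx hy hz
  have hxs := (hV x).1 (hRV hx.1)
  have hys := (hV y).1 (hRV hy.1)
  have hzs := (hV z).1 (hRV hz.1)
  obtain ⟨Px, hPx, hPxm, hPxx, hPxR⟩ := hpriv x hx.1
  obtain ⟨Py, hPy, hPym, hPyy, hPyR⟩ := hpriv y hy.1
  obtain ⟨Pz, hPz, hPzm, hPzz, hPzR⟩ := hpriv z hz.1
  obtain ⟨p, q, r, hpqr⟩ := W.triple F hxy hyz hxz
  have e0 := hpqr _ h0
  have e1 := hpqr _ hxs
  have e2 := hpqr _ hys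
  have e3 := hpqr _ hzs
  have e4 := hpqr _ hX
  rw [Function.update_self, Function.update_of_ne hxy.symm, Function.update_of_ne hxz.symm] at e1
  rw [Function.update_self, Function.update_of_ne hxy, Function.update_of_ne hyz.symm] at e2
  rw [Function.update_self, Function.update_of_ne hxz, Function.update_of_ne hyz] at e3
  rw [hx.2, hy.2, hz.2] at e4
  cases p <;> cases q <;> cases r
  · exact absurd ⟨rfl, rfl, rfl⟩ e0
  · exact absurd ⟨rfl, rfl, rfl⟩ e3
  · exact absurd ⟨rfl, rfl, rfl⟩ e2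
  · -- `{y, z}` missing
    exact GoodZero_core W F h0 hxy.symm hyz hxz hy.1 hx.1 hz.1 hys hxs hzs
      (fun Y hY h => hpqr Y hY ⟨h.2.1, h.1, h.2.2⟩) hX hPx hy.2 hx.2 hz.2 hPxm hPxx hPxR
  · exact absurd ⟨rfl, rfl, rfl⟩ e1
  · -- `{x, z}` missing
    exact GoodZero_core W F h0 hxy hxz hyz hx.1 hy.1 hz.1 hxs hys hzs
      (fun Y hY h => hpqr Y hY ⟨h.1, h.2.1, h.2.2⟩) hX hPy hx.2 hy.2 hz.2 hPym hPyy hPyR
  · -- `{x, y}` missing
    exact GoodZero_core W F h0 hxz hxy hyz.symm hx.1 hz.1 hy.1 hxs hzs hys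
      (fun Y hY h => hpqr Y hY ⟨h.1, h.2.2, h.2.1⟩) hX hPz hx.2 hz.2 hy.2 hPzm hPzz hPzR
  · exact absurd ⟨rfl, rfl, rfl⟩ e4

end PHP
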