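import Mathlib
import Pool.Agent.PHP.Defs
import Pool.Agent.PHP.SweepBasic

/-!
# A covering triple whose intersection is deep

PROOF. Letters `x ≠ s`. Let `W'` be the following words on the letters `x ≠ s`: `pos' t x = pos t x` if `pos t x < pos t s`, and `pos' t x = r x` otherwise, where `r x` is the rank of `x` among the letters `≠ s` in the order of their swap times with `s` (every letter is swapped
exactly once with `s`, which goes from the bottom to the top; at time `t` the letters before `s` are exactly the first `pos t s` letters in this order). So `W'` starts at time `0` with the order in which `s` meets the others, and each step of `W` is idle for `W'` unless it swaps two letters that are both before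
`s`, in which case it swaps the same two adjacent letters. (These are the words of a sweep of the right hand side of the line `s`, starting with the line `s` itself.) In `W'` every pair is swapped at most once, from the order of `r` to the reverse order.
`X = cell F t p` contains `s` iff `p ≤ pos t s` (`F s = true`); then `X` is the cell `(t, p)` of `W'` together with `s`.
`U` letters (`F x = false`) lie in the cells after them, `D` letters (`F x = true`) in the cells before them. Coverage of a cell of `W'` := number of `x ≠ s` containing it = `dep X - 1`.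
COVERAGE OF THE LINE `s`: at time `0` of `W'` (order `r`), every position `q` (prefix `{x | r x < q}`) has coverage at least `d`: let `t` be the time with `pos t s = q` (it exists); the cell `(t, q+1)` of `W` (just after `s`) does not contain `s`, has depth `≥ d`, and
agrees with this position off `s`. 
SLOTS: for `i = 1, .., d` let `P_i` be the `i`-th U letter in the order `r`, `Q_i` the `(d+1-i)`-th D letter from the right end. They exist (coverage at the two ends) and `P_i` is before `Q_i` (else the position just before `P_i`
would be covered by at most `i-1` U letters and at most `d-i` D letters). The `P_i` are distinct, the `Q_i` are distinct.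
The cell `z ∋ s` has only `d-1` elements besides `s`, so some slot has neither element in `z`; at the time `t` of `z` in `W'` this slot is in the order `Q_i` before `P_i`: swapped. So some slot is swapped in `W'` at some step; let `p = P_i`, `q = Q_i` be the FIRST slot to be swapped, at step `t*` (of `W`;
at most one pair is swapped per step). At the time `t*` both are before `s` in `W`.
(i) cells `X ∌ s` contain `p` or `q`: `X = cell (t, k)`, `s` in the prefix; if `p, q ∉ X` then `p` is not in the prefix, `q` is, so `q` before `p` at time `t`. They are swapped from `p q` to `q p` exactly once in `W'`. In `W`: `q` before `s`... at time `t` `q` is before `k`, `s` is before `k`, `p` is not; so `p` is after `s`, so `t ≤ t*` (at `t*` and later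
`p` is before `s`: letters before `s` stay before `s`), but at times `≤ t*`: if `p` and `q` are in the order `q, s, p`: then `q` was met by `s` before `p`, i.e. `r q < r p`, contradicting `r p < r q`; if the order is `s, q, p` or `q` before `s`..: consider all cases with `r p < r q`: `q` before `s` at time `t` implies `p` before `s`; so `q` is after `s` too, order `s, q, p`; at time `t*` they are both before `s` in the order `p, q`;
`s` meets `p` first (`r p < r q`), at which time `p` is adjacent after `s`, so `p` is before `q`: so between `t` and that time the pair went from `q p` to `p q`, and at step `t*` from `p q` to `q p`: two swaps, impossible.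
(ii) cells `X ∋ s, p, q`: `X` is a cell of `W'` at time `t` with `p` before `q`, so `t ≤ t*`; at this time all other `d-1` slots are in their original order `P_j` before `Q_j`, and hence cover `X`; so `dep X ≥ 3 + (d-1) = d+2`.
-/

namespace PHP

open Finset

variable {ι : Type} [Fintype ι] [DecidableEq ι]


/-- matching of two finite sets of numbers -/
private theorem PThree_match (A B : Finset ℕ) (d : ℕ) (hAB : Disjoint A B)
    (h : ∀ t : ℕ, d ≤ (A.filter (fun x => x < t)).card + (B.filter (fun x => t ≤ x)).card) :
    ∃ a b : Fin d → ℕ, Function.Injective a ∧ Function.Injective b ∧ (∀ i, a i ∈ A) ∧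
      (∀ i, b i ∈ B) ∧ ∀ i, a i < b i := by
  classical
  have hB : d ≤ B.card := by
    have h0 := h 0
    simpa using h0
  have hA : d ≤ A.card := by
    have h0 := h (B.sup id + 1)
    have h1 : B.filter (fun x => B.sup id + 1 ≤ x) = ∅ := by
      rw [Finset.filter_eq_empty_iff]
      intro x hx
      have : id x ≤ B.sup id := Finset.le_sup hx
      simp only [id] at this
      omega
    rw [h1, Finset.card_empty, add_zero] at h0
    exact h0.trans (Finset.card_le_card (Finset.filter_subset _ _))
  set a0 := A.orderEmbOfFin rfl with ha0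
  set b0 := B.orderEmbOfFin rfl with hb0
  have ha : ∀ i : Fin d, (i : ℕ) < A.card := fun i => lt_of_lt_of_le i.2 hA
  have hb : ∀ i : Fin d, B.card - d + (i : ℕ) < B.card := fun i => by have := i.2; omega
  refine ⟨fun i => a0 ⟨i, ha i⟩, fun i => b0 ⟨B.card - d + i, hb i⟩, ?_, ?_, ?_, ?_, ?_⟩
  · intro i j hij
    have := a0.injective hij
    rw [Fin.mk.injEq] at this
    exact Fin.ext this
  · intro i j hij
    have := b0.injective hij
    rw [Fin.mk.injEq] at this
    apply Fin.ext
    omega
  · intro i
    exact Finset.orderEmbOfFin_mem A rfl _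
  · intro i
    exact Finset.orderEmbOfFin_mem B rfl _
  · intro i
    by_contra hcon
    have hle : b0 ⟨B.card - d + i, hb i⟩ ≤ a0 ⟨i, ha i⟩ := not_lt.mp hcon
    have hne : b0 ⟨B.card - d + i, hb i⟩ ≠ a0 ⟨i, ha i⟩ := by
      intro heq
      have m1 : a0 ⟨i, ha i⟩ ∈ A := Finset.orderEmbOfFin_mem A rfl _
      have m2 : b0 ⟨B.card - d + i, hb i⟩ ∈ B := Finset.orderEmbOfFin_mem B rfl _
      rw [heq] at m2
      exact (Finset.disjoint_left.mp hAB) m1 m2
    have hlt : b0 ⟨B.card - d + i, hb i⟩ < a0 ⟨i, ha i⟩ := lt_of_le_of_ne hle hne
    have h0 := h (a0 ⟨i, ha i⟩)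
    have h1 : (A.filter (fun x => x < a0 ⟨i, ha i⟩)).card ≤ i := by
      have hsub : A.filter (fun x => x < a0 ⟨i, ha i⟩) ⊆
          (Finset.Iio (⟨i, ha i⟩ : Fin A.card)).image a0 := by
        intro x hx
        rw [Finset.mem_filter] at hx
        have hr : x ∈ Set.range a0 := by
          rw [ha0, Finset.range_orderEmbOfFin]; exact hx.1
        obtain ⟨j, hj⟩ := hr
        rw [Finset.mem_image]
        refine ⟨j, ?_, hj⟩
        rw [Finset.mem_Iio]
        rw [← hj] at hx
        exact a0.lt_iff_lt.mp hx.2
      refine (Finset.card_le_card hsub).trans (Finset.card_image_le.trans ?_)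
      rw [Fin.card_Iio]
    have h2 : (B.filter (fun x => a0 ⟨i, ha i⟩ ≤ x)).card ≤ d - 1 - i := by
      have hsub : B.filter (fun x => a0 ⟨i, ha i⟩ ≤ x) ⊆
          (Finset.Ioi (⟨B.card - d + i, hb i⟩ : Fin B.card)).image b0 := by
        intro x hx
        rw [Finset.mem_filter] at hx
        have hr : x ∈ Set.range b0 := by
          rw [hb0, Finset.range_orderEmbOfFin]; exact hx.1
        obtain ⟨j, hj⟩ := hr
        rw [Finset.mem_image]
        refine ⟨j, ?_, hj⟩
        rw [Finset.mem_Ioi]
        rw [← hj] at hx
        exact b0.lt_iff_lt.mp (lt_of_lt_of_le hlt hx.2)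
      refine (Finset.card_le_card hsub).trans (Finset.card_image_le.trans ?_)
      rw [Fin.card_Ioi]
      simp only
      have := i.2
      omega
    have := i.2
    omega

/-- if a pair changes its order at a step then the step is the exchange of this pair -/
private theorem PThree_step (W : Sweep ι) {t : ℕ} {x y : ι} (h1 : W.pos t x < W.pos t y)
    (h2 : W.pos (t + 1) y < W.pos (t + 1) x) :
    W.pos t y = W.pos t x + 1 ∧ W.pos (t + 1) x = W.pos t y ∧ W.pos (t + 1) y = W.pos t x ∧
      ∀ z, z ≠ x → z ≠ y → W.pos (t + 1) z = W.pos t z := by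
  rcases W.step t with h | ⟨u, w, hw, _, hu', hw', hz⟩
  · rw [h] at h2; omega
  · by_cases hxu : x = u
    · subst hxu
      by_cases hyw : y = w
      · subst hyw
        exact ⟨hw, hu', hw', hz⟩
      · have hyx : y ≠ x := by rintro rfl; omega
        have := hz y hyx hyw
        omega
    · by_cases hxw : x = w
      · subst hxw
        by_cases hyu : y = u
        · subst hyu; omega
        · have hyx : y ≠ x := by rintro rfl; omega
          have := hz y hyu hyx
          omega
      · have hx := hz x hxu hxw
        by_cases hyu : y = u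
        · subst hyu; omega
        · by_cases hyw : y = w
          · subst hyw; omega
          · have hy := hz y hyu hyw
            omega

/-- counting -/
private theorem PThree_count {d : ℕ} {F : ι → Bool} {P Q : Fin d → ι}
    (hPi : Function.Injective P) (hQi : Function.Injective Q) (hPF : ∀ i, F (P i) = false)
    (hQF : ∀ i, F (Q i) = true) (X : ι → Bool) (J : Finset (Fin d))
    (hJ : ∀ j ∈ J, X (P j) = true ∨ X (Q j) = true) (E : Finset ι)
    (hE : ∀ e ∈ E, X e = true) (hEJ : ∀ e ∈ E, ∀ j ∈ J, e ≠ P j ∧ e ≠ Q j) :
    E.card + J.card ≤ dep X := by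
  classical
  set c : Fin d → ι := fun j => if X (P j) = true then P j else Q j with hc
  have hcc : ∀ j, c j = P j ∨ c j = Q j := by
    intro j
    simp only [hc]
    split_ifs
    · exact Or.inl rfl
    · exact Or.inr rfl
  have hPQ : ∀ i j, P i ≠ Q j := by
    intro i j h
    have h1 := hPF i
    rw [h, hQF j] at h1
    exact Bool.noConfusion h1
  have hci : Function.Injective c := by
    intro i j hij
    rcases hcc i with h1 | h1 <;> rcases hcc j with h2 | h2 <;> rw [h1, h2] at hij
    · exact hPi hij
    · exact absurd hij (hPQ i j)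
    · exact absurd hij.symm (hPQ j i)
    · exact hQi hij
  have hdis : Disjoint E (J.image c) := by
    rw [Finset.disjoint_left]
    intro e he hej
    rw [Finset.mem_image] at hej
    obtain ⟨j, hj, hje⟩ := hej
    rcases hcc j with h1 | h1
    · exact (hEJ e he j hj).1 (by rw [← hje, h1])
    · exact (hEJ e he j hj).2 (by rw [← hje, h1])
  have hsub : E ∪ J.image c ⊆ univ.filter (fun i => X i = true) := by
    intro e he
    rw [Finset.mem_filter]
    refine ⟨Finset.mem_univ _, ?_⟩
    rw [Finset.mem_union] at he
    rcases he with he | he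
    · exact hE e he
    · rw [Finset.mem_image] at he
      obtain ⟨j, hj, hje⟩ := he
      rw [← hje]
      simp only [hc]
      split_ifs with h
      · exact h
      · exact (hJ j hj).resolve_left h
  have h1 := Finset.card_le_card hsub
  rw [Finset.card_union_of_disjoint hdis, Finset.card_image_of_injective _ hci] at h1
  exact h1

/-- Let all cells have depth at least `d`, let `z` be a cell of depth `d` inside the line `s`,
where `s` is the lowest letter of the starting word and `F s = true`. Then there is a covering triple
`s, p, q` whose triple intersection has depth at least `d + 2`. -/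
theorem Sweep.exists_covering (W : Sweep ι) (F : ι → Bool) {s : ι} (hs : W.pos 0 s = 0)
    (hF : F s = true) {d : ℕ} (hd : ∀ X ∈ W.cells F, d ≤ dep X) {z : ι → Bool}
    (hz : z ∈ W.cells F) (hzd : dep z = d) (hzs : z s = true) :
    ∃ p q : ι, p ≠ q ∧ p ≠ s ∧ q ≠ s ∧
      (∀ X ∈ W.cells F, X s = true ∨ X p = true ∨ X q = true) ∧
      (∀ X ∈ W.cells F, X s = true → X p = true → X q = true → d + 2 ≤ dep X) := by
  classical
  -- the times of the crossings with `s`
  have hex : ∀ x, ∃ t, x ≠ s → (∀ s', s' ≤ t → W.pos s' s < W.pos s' x) ∧
      (∀ s', t < s' → W.pos s' x < W.pos s' s) := by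
    intro x
    by_cases hx : x = s
    · exact ⟨0, fun h => absurd hx h⟩
    · have h0 : W.pos 0 s < W.pos 0 x := by
        have : W.pos 0 x ≠ W.pos 0 s := fun h => hx (W.inj 0 h)
        omega
      obtain ⟨t, _, h1, h2⟩ := W.exists_swap_time h0
      exact ⟨t, fun _ => ⟨h1, h2⟩⟩
  choose τ hτ using hex
  have hτ1 : ∀ x, x ≠ s → ∀ t, t ≤ τ x → W.pos t s < W.pos t x := fun x hx => (hτ x hx).1
  have hτ2 : ∀ x, x ≠ s → ∀ t, τ x < t → W.pos t x < W.pos t s := fun x hx => (hτ x hx).2
  have hτinj : ∀ x y, x ≠ s → y ≠ s → τ x = τ y → x = y := by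
    intro x y hx hy hxy
    by_contra hne
    have e1 := PThree_step W (hτ1 x hx (τ x) le_rfl) (hτ2 x hx (τ x + 1) (by omega))
    have e2 := PThree_step W (hτ1 y hy (τ y) le_rfl) (hτ2 y hy (τ y + 1) (by omega))
    rw [hxy] at e1
    have := W.inj (τ y) (e1.1.trans e2.1.symm)
    exact hne this
  -- coverage of the line
  set U := univ.filter (fun x => x ≠ s ∧ F x = false) with hU
  set D := univ.filter (fun x => x ≠ s ∧ F x = true) with hD
  have hcov : ∀ t, d ≤ (U.filter (fun x => τ x < t)).card + (D.filter (fun x => t ≤ τ x)).card := by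
    intro t
    have h1 := hd (W.cell F t (W.pos t s + 1)) ⟨t, _, rfl⟩
    refine h1.trans ?_
    unfold dep
    refine (Finset.card_le_card ?_).trans (Finset.card_union_le _ _)
    intro i hi
    rw [Finset.mem_filter] at hi
    have hi2 := hi.2
    unfold Sweep.cell at hi2
    have his : i ≠ s := by
      rintro rfl
      rw [hF] at hi2
      simp at hi2
    have hpne : W.pos t i ≠ W.pos t s := fun h => his (W.inj t h)
    have hUi : ∀ i, i ∈ U ↔ i ∈ (univ : Finset ι) ∧ i ≠ s ∧ F i = false :=
      fun i => Finset.mem_filter
    have hDi : ∀ i, i ∈ D ↔ i ∈ (univ : Finset ι) ∧ i ≠ s ∧ F i = true :=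
      fun i => Finset.mem_filter
    have hgoal : i ∈ U.filter (fun x => τ x < t) ∪ D.filter (fun x => t ≤ τ x) ↔
        ((i ∈ (univ : Finset ι) ∧ i ≠ s ∧ F i = false) ∧ τ i < t) ∨
        ((i ∈ (univ : Finset ι) ∧ i ≠ s ∧ F i = true) ∧ t ≤ τ i) := by
      rw [← hUi, ← hDi, Finset.mem_union]
      exact or_congr Finset.mem_filter Finset.mem_filter
    rw [hgoal]
    rcases hFi : F i with _ | _
    · left
      rw [hFi] at hi2
      simp only [Bool.false_xor, decide_eq_true_eq] at hi2
      refine ⟨⟨Finset.mem_univ _, his, rfl⟩, ?_⟩
      by_contra hcon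
      have := hτ1 i his t (by omega)
      omega
    · right
      rw [hFi] at hi2
      simp only [Bool.true_xor, Bool.not_eq_true', decide_eq_false_iff_not] at hi2
      refine ⟨⟨Finset.mem_univ _, his, rfl⟩, ?_⟩
      by_contra hcon
      have := hτ2 i his t (by omega)
      omega
  have hUm : ∀ x ∈ U, x ≠ s ∧ F x = false := fun x hx => (Finset.mem_filter.mp hx).2
  have hDm : ∀ x ∈ D, x ≠ s ∧ F x = true := fun x hx => (Finset.mem_filter.mp hx).2
  obtain ⟨a, b, ha, hb, haA, hbB, hab⟩ := PThree_match (U.image τ) (D.image τ) d
    (by
      rw [Finset.disjoint_left]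
      intro n h1 h2
      rw [Finset.mem_image] at h1 h2
      obtain ⟨x, hx, hxn⟩ := h1
      obtain ⟨y, hy, hyn⟩ := h2
      have := hτinj x y (hUm x hx).1 (hDm y hy).1 (hxn.trans hyn.symm)
      have h3 := (hUm x hx).2
      rw [this, (hDm y hy).2] at h3
      exact Bool.noConfusion h3)
    (by
      intro t
      have e1 : (U.filter (fun x => τ x < t)).card ≤
          ((U.image τ).filter (fun x => x < t)).card := by
        rw [← Finset.card_image_of_injOn (s := U.filter (fun x => τ x < t)) (f := τ)]
        · apply Finset.card_le_card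
          intro n hn
          rw [Finset.mem_image] at hn
          obtain ⟨x, hx, rfl⟩ := hn
          rw [Finset.mem_filter] at hx ⊢
          exact ⟨Finset.mem_image_of_mem _ hx.1, hx.2⟩
        · intro x hx y hy hxy
          rw [Finset.mem_coe, Finset.mem_filter] at hx hy
          exact hτinj x y (hUm x hx.1).1 (hUm y hy.1).1 hxy
      have e2 : (D.filter (fun x => t ≤ τ x)).card ≤
          ((D.image τ).filter (fun x => t ≤ x)).card := by
        rw [← Finset.card_image_of_injOn (s := D.filter (fun x => t ≤ τ x)) (f := τ)]
        · apply Finset.card_le_card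
          intro n hn
          rw [Finset.mem_image] at hn
          obtain ⟨x, hx, rfl⟩ := hn
          rw [Finset.mem_filter] at hx ⊢
          exact ⟨Finset.mem_image_of_mem _ hx.1, hx.2⟩
        · intro x hx y hy hxy
          rw [Finset.mem_coe, Finset.mem_filter] at hx hy
          exact hτinj x y (hDm x hx.1).1 (hDm y hy.1).1 hxy
      have := hcov t
      omega)
  have hP : ∀ i, ∃ x ∈ U, τ x = a i := fun i => Finset.mem_image.mp (haA i)
  have hQ : ∀ i, ∃ x ∈ D, τ x = b i := fun i => Finset.mem_image.mp (hbB i)
  choose P hPU hPa using hP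
  choose Q hQD hQb using hQ
  have hPs : ∀ i, P i ≠ s := fun i => (hUm _ (hPU i)).1
  have hQs : ∀ i, Q i ≠ s := fun i => (hDm _ (hQD i)).1
  have hPF : ∀ i, F (P i) = false := fun i => (hUm _ (hPU i)).2
  have hQF : ∀ i, F (Q i) = true := fun i => (hDm _ (hQD i)).2
  have hPi : Function.Injective P := fun i j hij => ha (by rw [← hPa, ← hPa, hij])
  have hQi : Function.Injective Q := fun i j hij => hb (by rw [← hQb, ← hQb, hij])
  have hPQ : ∀ i j, P i ≠ Q j := by
    intro i j h
    have h1 := hPF i
    rw [h, hQF j] at h1
    exact Bool.noConfusion h1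
  have hτPQ : ∀ i, τ (P i) < τ (Q i) := fun i => by rw [hPa, hQb]; exact hab i
  -- swap times of the slots
  have hmex : ∀ i, ∃ m, W.pos 0 (P i) < W.pos 0 (Q i) →
      (∀ s', s' ≤ m → W.pos s' (P i) < W.pos s' (Q i)) ∧
      (∀ s', m < s' → W.pos s' (Q i) < W.pos s' (P i)) := by
    intro i
    by_cases h : W.pos 0 (P i) < W.pos 0 (Q i)
    · obtain ⟨m, _, h1, h2⟩ := W.exists_swap_time h
      exact ⟨m, fun _ => ⟨h1, h2⟩⟩
    · exact ⟨0, fun h' => absurd h' h⟩
  choose m hm using hmex
  have hS1 : ∀ i, W.pos 0 (P i) < W.pos 0 (Q i) → τ (Q i) < m i := by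
    intro i hi
    have e := PThree_step W (hτ1 _ (hQs i) (τ (Q i)) le_rfl)
      (hτ2 _ (hQs i) (τ (Q i) + 1) (by omega))
    have e1 := hτ2 _ (hPs i) (τ (Q i)) (hτPQ i)
    have e2 := e.2.2.2 (P i) (hPs i) (hPQ i i)
    by_contra hcon
    have e3 := (hm i hi).2 (τ (Q i) + 1) (by omega)
    omega
  have hS2 : ∀ i t, τ (Q i) < t → W.pos t (Q i) < W.pos t (P i) →
      W.pos 0 (P i) < W.pos 0 (Q i) ∧ m i < t := by
    intro i t ht hlt
    have h0 : W.pos 0 (P i) < W.pos 0 (Q i) := by
      by_contra hcon
      have hne : W.pos 0 (P i) ≠ W.pos 0 (Q i) := fun h => hPQ i i (W.inj 0 h)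
      obtain ⟨m', _, h1, h2⟩ := W.exists_swap_time
        (x := Q i) (y := P i) (by omega)
      have e := PThree_step W (hτ1 _ (hPs i) (τ (P i)) le_rfl)
        (hτ2 _ (hPs i) (τ (P i) + 1) (by omega))
      have e1 := hτ1 _ (hQs i) (τ (P i)) (hτPQ i).le
      have e2 : W.pos (τ (P i)) (P i) ≠ W.pos (τ (P i)) (Q i) :=
        fun h => hPQ i i (W.inj _ h)
      have e3 : m' < τ (P i) := by
        by_contra hc
        have := h1 (τ (P i)) (by omega)
        omega
      have := h2 t (by have := hτPQ i; omega)
      omega
    refine ⟨h0, ?_⟩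
    by_contra hcon
    have := (hm i h0).1 t (by omega)
    omega
  -- cells in which both letters of a slot are missing
  have hmiss : ∀ (i : Fin d) (t k : ℕ), W.cell F t k (P i) = false → W.cell F t k (Q i) = false →
      W.pos t (Q i) < k ∧ k ≤ W.pos t (P i) := by
    intro i t k h1 h2
    unfold Sweep.cell at h1 h2
    rw [hPF i] at h1
    rw [hQF i] at h2
    simp only [Bool.false_xor, decide_eq_false_iff_not, Bool.true_xor, Bool.not_eq_false',
      decide_eq_true_eq] at h1 h2
    omega
  have hs_true : ∀ t k : ℕ, W.cell F t k s = true → k ≤ W.pos t s := by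
    intro t k h
    unfold Sweep.cell at h
    rw [hF] at h
    simp only [Bool.true_xor, Bool.not_eq_true', decide_eq_false_iff_not] at h
    omega
  have hs_false : ∀ t k : ℕ, ¬ W.cell F t k s = true → W.pos t s < k := by
    intro t k h
    unfold Sweep.cell at h
    rw [hF] at h
    simp only [Bool.true_xor, Bool.not_eq_true', decide_eq_false_iff_not, not_not] at h
    omega
  -- a slot missing at a cell inside `s` has been swapped before
  have hsw : ∀ (i : Fin d) (t k : ℕ), W.cell F t k s = true → W.cell F t k (P i) = false →
      W.cell F t k (Q i) = false → W.pos 0 (P i) < W.pos 0 (Q i) ∧ m i < t := by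
    intro i t k h0 h1 h2
    have e1 := hmiss i t k h1 h2
    have e2 := hs_true t k h0
    apply hS2 i t
    · by_contra hcon
      have := hτ1 _ (hQs i) t (by omega)
      omega
    · omega
  -- there is a swapped slot
  set S0 : Finset (Fin d) := univ.filter (fun i => W.pos 0 (P i) < W.pos 0 (Q i)) with hS0
  have hne : S0.Nonempty := by
    obtain ⟨t0, k0, rfl⟩ := hz
    by_contra hcon
    rw [Finset.not_nonempty_iff_eq_empty] at hcon
    have hall : ∀ j ∈ (univ : Finset (Fin d)), W.cell F t0 k0 (P j) = true ∨
        W.cell F t0 k0 (Q j) = true := by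
      intro j _
      by_contra hc
      push Not at hc
      have h1 := hsw j t0 k0 hzs (by simpa using hc.1) (by simpa using hc.2)
      have : j ∈ S0 := by
        rw [hS0, Finset.mem_filter]; exact ⟨Finset.mem_univ _, h1.1⟩
      rw [hcon] at this
      exact absurd this (Finset.notMem_empty _)
    have hcount := PThree_count hPi hQi hPF hQF _ univ hall {s}
      (by intro e he; rw [Finset.mem_singleton] at he; rw [he]; exact hzs)
      (by
        intro e he j _
        rw [Finset.mem_singleton] at he
        rw [he]
        exact ⟨(hPs j).symm, (hQs j).symm⟩)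
    rw [hzd, Finset.card_singleton, Finset.card_univ, Fintype.card_fin] at hcount
    omega
  obtain ⟨i, hi, hmin⟩ := Finset.exists_min_image S0 m hne
  have hi0 : W.pos 0 (P i) < W.pos 0 (Q i) := (Finset.mem_filter.mp hi).2
  refine ⟨P i, Q i, hPQ i i, hPs i, hQs i, ?_, ?_⟩
  · rintro X ⟨t, k, rfl⟩
    by_contra hcon
    push Not at hcon
    obtain ⟨h0, h1, h2⟩ := hcon
    have e0 := hs_false t k h0
    have e1 := hmiss i t k (by simpa using h1) (by simpa using h2)
    have e2 : m i < t := by
      by_contra hc
      have := (hm i hi0).1 t (by omega)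
      omega
    have e3 := hS1 i hi0
    have e4 := hτ2 _ (hPs i) t (by have := hτPQ i; omega)
    omega
  · rintro X ⟨t, k, rfl⟩ h0 h1 h2
    have e0 := hs_true t k h0
    have e1 : W.pos t (P i) < k := by
      unfold Sweep.cell at h1
      rw [hPF i] at h1
      simpa using h1
    have e2 : k ≤ W.pos t (Q i) := by
      unfold Sweep.cell at h2
      rw [hQF i] at h2
      simpa using h2
    have e3 : t ≤ m i := by
      by_contra hc
      have := (hm i hi0).2 t (by omega)
      omega
    have hall : ∀ j ∈ (univ.erase i : Finset (Fin d)), W.cell F t k (P j) = true ∨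
        W.cell F t k (Q j) = true := by
      intro j _
      by_contra hc
      push Not at hc
      have h1 := hsw j t k h0 (by simpa using hc.1) (by simpa using hc.2)
      have hj : j ∈ S0 := by
        rw [hS0, Finset.mem_filter]; exact ⟨Finset.mem_univ _, h1.1⟩
      have := hmin j hj
      omega
    have hcount := PThree_count hPi hQi hPF hQF _ (univ.erase i) hall {s, P i, Q i}
      (by
        intro e he
        simp only [Finset.mem_insert, Finset.mem_singleton] at he
        rcases he with rfl | rfl | rfl
        · exact h0
        · exact h1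
        · exact h2)
      (by
        intro e he j hj
        rw [Finset.mem_erase] at hj
        simp only [Finset.mem_insert, Finset.mem_singleton] at he
        rcases he with rfl | rfl | rfl
        · exact ⟨(hPs j).symm, (hQs j).symm⟩
        · exact ⟨fun h => hj.1 (hPi h).symm, hPQ i j⟩
        · exact ⟨fun h => hPQ j i h.symm, fun h => hj.1 (hQi h).symm⟩)
    have hc3 : ({s, P i, Q i} : Finset ι).card = 3 := by
      rw [Finset.card_insert_of_notMem, Finset.card_insert_of_notMem, Finset.card_singleton]
      · rw [Finset.mem_singleton]; exact hPQ i i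
      · rw [Finset.mem_insert, Finset.mem_singleton]
        rintro (h | h)
        · exact hPs i h.symm
        · exact hQs i h.symm
    rw [hc3, Finset.card_erase_of_mem (Finset.mem_univ _), Finset.card_univ,
      Fintype.card_fin] at hcount
    have hdpos := i.2
    omega

end PHP
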