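import Mathlib
import Pool.Agent.PHP.Defs

/-!
# Order data of a complete system

PROOF of `exists_order`. For a line `i` let `a i < b i` be the indices in `l` of its two ends (each line has exactly two), `o i` the `Bool` of the end with index `a i`.
The vector before the end with index `t` is `F` flipped at `j` iff exactly one end of `j` has index `< t`. For `i ≠ j`: `cr i j`, so the signs of `j` at the two ends of `i` differ (`v_cr`),
so exactly one end of `j` lies between the two ends of `i`: if `a i < a j` then `a j < b i < b j`. Hence also `b i < b j ↔ a i < a j`, and all `a`'s are smaller than all `b`'s.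
The sign of `j` at the end `(i, o i)` is flipped iff `a j < a i` (as `b j > a i`), at the other end iff `b i < b j` (as `a j < b i`) iff `a i < a j`.
`f i` := number of `j` with `a j < a i`. If `l = e :: l'` then `a e.1 = 0`.
-/

namespace PHP

open Finset

variable {ι : Type} [Fintype ι] [DecidableEq ι]

omit [Fintype ι] in
private theorem sysOrder_idx_cons_ne {e f : ι × Bool} {l : List (ι × Bool)} (h : e ≠ f) :
    (f :: l).idxOf e = l.idxOf e + 1 := by
  rw [List.idxOf_cons_ne _ (Ne.symm h)]

omit [Fintype ι] in
private theorem sysOrder_walk {S : Sys ι} (l : List (ι × Bool)) : ∀ (F : ι → Bool),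
    S.Walk F l → l.Nodup → ∀ e ∈ l, ∀ j, j ≠ e.1 →
    S.v e.1 e.2 j = xor (F j) (xor (decide (l.idxOf (j, false) < l.idxOf e))
      (decide (l.idxOf (j, true) < l.idxOf e))) := by
  induction l with
  | nil => intro F _ _ e he; simp at he
  | cons e' l' ih =>
    intro F hW hN e he j hj
    obtain ⟨h1, h2⟩ := hW
    rw [List.nodup_cons] at hN
    by_cases hee : e = e'
    · subst hee
      rw [← h1 j hj]
      simp
    · have he' : e ∈ l' := by
        rcases List.mem_cons.1 he with h | h
        · exact absurd h hee
        · exact h
      have hi := ih _ h2 hN.2 e he' j hj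
      rw [hi, sysOrder_idx_cons_ne hee]
      have hlt : l'.idxOf e < l'.length := List.idxOf_lt_length_of_mem he'
      by_cases hje : j = e'.1
      · subst hje
        rw [Function.update_self]
        have hnot : l'.idxOf e' = l'.length := List.idxOf_eq_length hN.1
        rcases e' with ⟨a, ε⟩
        simp only at hj hnot ⊢
        cases ε
        · rw [sysOrder_idx_cons_ne (e := (a, true)) (by simp), List.idxOf_cons_self, hnot]
          have h3 : decide (l'.length < List.idxOf e l') = false := by simp; omega
          have h4 : decide (0 < List.idxOf e l' + 1) = true := by simp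
          have h5 : decide (List.idxOf (a, true) l' + 1 < List.idxOf e l' + 1) =
            decide (List.idxOf (a, true) l' < List.idxOf e l') := by simp
          rw [h3, h4, h5]
          cases F a <;> simp
        · rw [sysOrder_idx_cons_ne (e := (a, false)) (by simp), List.idxOf_cons_self, hnot]
          have h3 : decide (l'.length < List.idxOf e l') = false := by simp; omega
          have h4 : decide (0 < List.idxOf e l' + 1) = true := by simp
          have h5 : decide (List.idxOf (a, false) l' + 1 < List.idxOf e l' + 1) =
            decide (List.idxOf (a, false) l' < List.idxOf e l') := by simp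
          rw [h3, h4, h5]
          cases F a <;> simp
      · rw [Function.update_of_ne hje]
        have h3 : ((j, false) : ι × Bool) ≠ e' := fun h => hje (by rw [← h])
        have h4 : ((j, true) : ι × Bool) ≠ e' := fun h => hje (by rw [← h])
        rw [sysOrder_idx_cons_ne h3, sysOrder_idx_cons_ne h4]
        simp

/-- Order data of a complete system with a circular list: `f i` is the rank of the line `i`
(order of the first ends) and `o i` the orientation of its parameter, such that, for `i ≠ j`,
the sign of `j` at the first end of `i` is flipped (compared with `F`) iff `f j < f i`, and at the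
last end iff `f i < f j`. -/
theorem Sys.Circ.exists_order {S : Sys ι} {F : ι → Bool} {l : List (ι × Bool)}
    (h : S.Circ F l) (hc : S.Complete) :
    ∃ (f : ι → ℕ) (o : ι → Bool), (∀ i, f i < Fintype.card ι) ∧ Function.Injective f ∧
      (∀ i j, i ≠ j → S.v i (o i) j = xor (F j) (decide (f j < f i))) ∧
      (∀ i j, i ≠ j → S.v i (!(o i)) j = xor (F j) (decide (f i < f j))) ∧
      (∀ e l', l = e :: l' → f e.1 = 0) := by
  obtain ⟨hW, hN, hall⟩ := h
  -- positions
  have hinj : ∀ e f : ι × Bool, l.idxOf e = l.idxOf f → e = f := by
    intro e f hef
    exact (List.idxOf_inj (hall e)).1 hef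
  have hex : ∀ i, ∃ ε, l.idxOf (i, ε) < l.idxOf (i, !ε) := by
    intro i
    rcases lt_trichotomy (l.idxOf (i, false)) (l.idxOf (i, true)) with h1 | h1 | h1
    · exact ⟨false, h1⟩
    · have := hinj _ _ h1; simp at this
    · exact ⟨true, h1⟩
  choose o ho using hex
  set a : ι → ℕ := fun i => l.idxOf (i, o i) with ha
  set b : ι → ℕ := fun i => l.idxOf (i, !(o i)) with hb
  have hab : ∀ i, a i < b i := ho
  have hne : ∀ i j, i ≠ j → a i ≠ a j := by
    intro i j hij h1
    exact hij (congrArg Prod.fst (hinj _ _ h1))
  have hne2 : ∀ i j, i ≠ j → b i ≠ b j := by
    intro i j hij h1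
    exact hij (congrArg Prod.fst (hinj _ _ h1))
  have hne3 : ∀ i j, i ≠ j → a i ≠ b j := by
    intro i j hij h1
    exact hij (congrArg Prod.fst (hinj _ _ h1))
  have hv : ∀ (i : ι) (ε : Bool) (j : ι), j ≠ i → S.v i ε j =
      xor (F j) (xor (decide (a j < l.idxOf (i, ε))) (decide (b j < l.idxOf (i, ε)))) := by
    intro i ε j hij
    have h1 := sysOrder_walk l F hW hN (i, ε) (hall _) j hij
    simp only at h1
    rw [h1]
    let D : Bool → Bool := fun x => decide (l.idxOf (j, x) < l.idxOf (i, ε))
    change xor (F j) (xor (D false) (D true)) = xor (F j) (xor (D (o j)) (D (!(o j))))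
    cases o j
    · rfl
    · simp only [Bool.not_true]
      rw [Bool.xor_comm (D false)]
  have hvcr : ∀ i j, i ≠ j → S.v i (!(o i)) j = !(S.v i (o i) j) := by
    intro i j hij
    have h1 := S.v_cr (hc i j hij)
    cases o i
    · exact h1
    · simp only [Bool.not_true]
      rw [h1, Bool.not_not]
  have hkey : ∀ i j, i ≠ j → a i < a j → a j < b i ∧ b i < b j := by
    intro i j hij hlt
    have h1 := hvcr i j hij
    rw [hv i _ j hij.symm, hv i _ j hij.symm] at h1
    change xor (F j) (xor (decide (a j < b i)) (decide (b j < b i))) =
      !(xor (F j) (xor (decide (a j < a i)) (decide (b j < a i)))) at h1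
    have h2 : decide (a j < a i) = false := by simp; omega
    have h3 : decide (b j < a i) = false := by
      have := hab j
      simp; omega
    rw [h2, h3] at h1
    have h5 := hab j
    have h6 := hne2 i j hij
    by_cases h4 : a j < b i
    · refine ⟨h4, ?_⟩
      by_contra h7
      have h8 : b j < b i := by omega
      simp only [h4, h8, decide_true] at h1
      revert h1
      cases F j <;> simp
    · exfalso
      have h8 : ¬ b j < b i := by omega
      simp only [h4, h8, decide_false] at h1
      revert h1
      cases F j <;> simp
  have hcross : ∀ i j, a i < b j := by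
    intro i j
    by_cases hij : i = j
    · subst hij; exact hab i
    · rcases lt_trichotomy (a i) (a j) with h1 | h1 | h1
      · have := hab j; omega
      · exact absurd h1 (hne i j hij)
      · exact (hkey j i (Ne.symm hij) h1).1
  have hbb : ∀ i j, i ≠ j → (b j < b i ↔ a j < a i) := by
    intro i j hij
    constructor
    · intro h1
      by_contra h2
      have h3 := hne i j hij
      have := (hkey i j hij (by omega)).2
      omega
    · intro h1
      exact (hkey j i (Ne.symm hij) h1).2
  -- ranks
  let f : ι → ℕ := fun i => (univ.filter (fun j => a j < a i)).card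
  have hf : ∀ i j, a i < a j → f i < f j := by
    intro i j hij
    apply Finset.card_lt_card
    rw [Finset.ssubset_iff_of_subset]
    · exact ⟨i, by simpa using hij, by simp⟩
    · intro k hk
      simp only [mem_filter, mem_univ, true_and] at hk ⊢
      omega
  have hf' : ∀ i j, i ≠ j → (f i < f j ↔ a i < a j) := by
    intro i j hij
    constructor
    · intro h1
      by_contra h2
      have h3 := hne i j hij
      have := hf j i (by omega)
      omega
    · exact hf i j
  refine ⟨f, o, ?_, ?_, ?_, ?_, ?_⟩
  · intro i
    have h1 : (univ.filter (fun j => a j < a i)) ⊂ univ := by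
      rw [Finset.ssubset_iff_of_subset (Finset.subset_univ _)]
      exact ⟨i, mem_univ _, by simp⟩
    exact Finset.card_lt_card h1
  · intro i j hij
    by_contra hne'
    rcases lt_trichotomy (a i) (a j) with h1 | h1 | h1
    · have := hf _ _ h1; omega
    · exact hne i j hne' h1
    · have := hf _ _ h1; omega
  · intro i j hij
    rw [hv i _ j hij.symm]
    change xor (F j) (xor (decide (a j < a i)) (decide (b j < a i))) = _
    have h1 : decide (b j < a i) = false := by
      have := hcross i j
      simp; omega
    have h2 : decide (a j < a i) = decide (f j < f i) := by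
      rw [decide_eq_decide]
      exact (hf' j i hij.symm).symm
    rw [h1, h2, Bool.xor_false]
  · intro i j hij
    rw [hv i _ j hij.symm]
    change xor (F j) (xor (decide (a j < b i)) (decide (b j < b i))) = _
    have h1 : decide (a j < b i) = true := by
      have := hcross j i
      simpa using this
    have h2 : decide (b j < b i) = !(decide (f i < f j)) := by
      by_cases h3 : a j < a i
      · have h4 := (hbb i j hij).2 h3
        have h5 := (hf' j i hij.symm).2 h3
        have h6 : ¬ f i < f j := by omega
        simp [h4, h6]
      · have h4 : ¬ b j < b i := fun h => h3 ((hbb i j hij).1 h)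
        have h7 := hne i j hij
        have h5 := (hf' i j hij).2 (by omega)
        simp [h4, h5]
    rw [h1, h2]
    cases F j <;> cases decide (f i < f j) <;> rfl
  · intro e l' hl
    have h0 : l.idxOf e = 0 := by rw [hl]; simp
    have h1 : a e.1 = 0 := by
      by_contra hne0
      have h2 : a e.1 < b e.1 := hab e.1
      have h3 : l.idxOf e = a e.1 ∨ l.idxOf e = b e.1 := by
        rcases e with ⟨x, ε⟩
        simp only [ha, hb]
        by_cases h4 : ε = o x
        · left; rw [h4]
        · right
          have h5 : ε = !(o x) := by
            revert h4
            cases ε <;> cases o x <;> simp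
          rw [h5]
      rcases h3 with h3 | h3 <;> omega
    show (univ.filter (fun j => a j < a e.1)).card = 0
    rw [h1]
    simp

end PHP
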