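import Mathlib
import Pool.Agent.PHP.Defs
import Pool.Agent.PHP.SysOrder

/-!
# A complete system has a sweep

PROOF of `exists_sweep`. Let `f`, `o` be as in `exists_order`, `n = card ι`. Order the lines by `f`: write `i < j` for `f i < f j`. Replace `τ i` by `τ' i j = τ i j` if `o i = false`
and `-τ i j` if `o i = true` (so every line is run through from its first end to its last end); `B i j k :⇔ τ' i j < τ' i k` (on the line `i`, `j` is crossed before `k`), a strict linear
order on the lines `≠ i`. Signs relative to `F` (`X̂ j = xor (F j) (X j)`): along `i` they start with `{j | j < i}` and end with `{j | j > i}`, `j` being flipped when it is crossed.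
SIGNOTOPE: for `i < j < k`: `B j i k → {j}`-pattern present (some `X ∈ T` has `X̂ = (0,1,0)` on `(i,j,k)`), `¬ B j i k → {i,k}`-pattern present; both are edges on `j`. In the same way on `i`:
`B i j k → {j}` present, `¬ → {i,k}` present; on `k`: `B k i j → {j}` present, `¬ → {i,k}` present. The other six patterns `∅, {i}, {i,j}, {i,j,k}, {j,k}, {k}` are present (edges at the ends). By `triple`
not both of `{j}`, `{i,k}` are present. So `B i j k ↔ B j i k ↔ B k i j =: σ i j k`, and no `X ∈ T` has the pattern `{i,k}` if `σ i j k`, resp. `{j}` if `¬ σ i j k`.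
STATE at a time: a bijection `pos : ι → {0..n-1}` such that for every line `i` the set `D i = {j | (i, j) swapped}` (swapped: the order of `pos` differs from the order `<`) is closed downwards for `B i`.
SWEEP LEMMA: if some pair is not yet swapped then there are lines `x`, `y` with `pos y = pos x + 1`, `x < y`, such that `y` is the `B x`-first line not in `D x` and `x` is the `B y`-first line not in `D y`.
Proof: call `x` unfinished if `D x` is not everything, `nx x` := the `B x`-first line not in `D x`; the arrow of `x` is up if `pos (nx x) > pos x`, else down. If `x` is finished then every line above `x` is `< x`, every line below `x` is `> x`, so no unswapped pair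
is separated by `x`. Take an unfinished `x` with minimal `pos`, its arrow is up; take the largest `p` such that all positions from `pos x` to `p` are unfinished with arrow up; the letter at `p` is not the last of its block of
consecutive unfinished letters (its `nx` is above it and no finished letter separates them), so the letter `y` at `p+1` is unfinished with arrow down. Rename `x` := letter at `p`. If `nx x = z ≠ y`: `z` above `y`, `x < z` unswapped. If `z < y` (so `y, z` are already swapped, `x < z < y`):
`B x z y` (as `z` is first), so `σ x z y`, so `B y x z`; but `z ∈ D y`, `x ∉ D y`, contradicting downward closedness. So `y < z`, `x < y < z`, `B x z y`, so `¬ σ x y z`. Similarly if `nx y = w ≠ x` then `w < x < y` and `B y w x`, i.e. `σ w x y`.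
If `nx y = x` but `nx x = z ≠ y`: `x<y<z`, `¬ σ x y z` so `B y z x`, and `z ∉ D y` (y before z, y<z), contradicting that `x` is first for `y`. Similarly in the mirror case. If both: `w < x < y < z`, `σ w x y`, `¬ σ x y z`;
on `x` both `w` and `z` are not in `D x` and `z` is first: `B x z w`, so `¬ σ w x z`; on `y`: `w` first, `z ∉ D y`: `B y w z`, so `σ w y z`. On the line `w`: `B w x y` (σ w x y), `B w y z` (σ w y z), `B w z x` (¬ σ w x z): a cycle. Contradiction.
Swap such a pair: the new state satisfies the closedness. After `n(n-1)/2` steps everything is swapped (then stay constant). This gives `W : Sweep ι` with `pos 0 = f`.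
CELLS: `W.cells F ⊆ S.T`: a cell at time `s`, position `p`: if `p < n` let `x` be the letter at position `p` (for `p ≥ n` take the last letter `x`): the cell agrees off `x` with `F` flipped at the letters before `x`; the letters before `x` are `{j < x, j ∉ D x} ∪ {j > x, j ∈ D x}`,
which is the vector along the line `x` at the parameter `t` with `{j | τ' x j before t} = D x` (downward closed): an edge, in `T` by `S.edge` (take care of `o x = true`, where the parameter runs backwards and the
convention `τ < t` is not symmetric: choose `t` between the last crossed and the first uncrossed time).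
`S.T ⊆ W.cells F`: let `X ∈ T`, `X̂` as above. A pair `x < y` is of type A if `y ∈ X̂`, `x ∉ X̂`, of type B if `x ∈ X̂`, `y ∉ X̂`. `X̂` is a prefix (`{i | pos s i < p}`) at time `s` iff all type A pairs and no type B pair have been swapped.
Let `s` be the last time at which no type B pair has been swapped (`s = N` if there is none at all). If `s < N` then at step `s` a type B pair `x < y` (adjacent) is swapped. Suppose a type A pair `u < v` is not yet swapped at time `s` (`u` before `v`, `u ∉ X̂`, `v ∈ X̂`). If `v` is after `y`: then `y` is before `v`, `y ∉ X̂`, `v ∈ X̂`; `v < y` would be a swapped type B pair,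
so `y < v` unswapped, `x < y < v`, `X̂ = {x, v}` on this triple so `¬ σ x y v`: on the line `y`, `B y v x`, but `x` is the first uncrossed on `y`: contradiction. Otherwise `v` is `x` or before `x`, so `u` is before `x`; in the same way `u < x` unswapped, `u < x < y`, `X̂ = {x}`, so `σ u x y`, `B x u y`, but `y` is the first uncrossed line on `x`: contradiction.
So all type A pairs are swapped at time `s` and `X̂` is a prefix. (At time `N` all pairs are swapped.)
-/

set_option linter.unusedSectionVars false
set_option linter.unusedVariables false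

namespace PHP

open Finset

variable {ι : Type} [Fintype ι] [DecidableEq ι]

namespace SweepExists

/-- the pair `x, a` is swapped -/
def Sw (f pos : ι → ℕ) (x a : ι) : Prop := ¬ (pos a < pos x ↔ f a < f x)

/-- states of the sweep -/
structure St (f : ι → ℕ) (u : ι → ι → ℝ) (pos : ι → ℕ) : Prop where
  inj : Function.Injective pos
  lt : ∀ i, pos i < Fintype.card ι
  cl : ∀ x a b, a ≠ x → b ≠ x → Sw f pos x a → ¬ Sw f pos x b → u x a < u x b

/-- the signotope property -/
def Sig (f : ι → ℕ) (u : ι → ι → ℝ) : Prop := ∀ i j k, f i < f j → f j < f k →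
  (u j i < u j k ∧ u i j < u i k ∧ u k i < u k j) ∨
  (u j k < u j i ∧ u i k < u i j ∧ u k j < u k i)

/-- `z` is the first line not yet crossed on `x` -/
def Fst (f : ι → ℕ) (u : ι → ι → ℝ) (pos : ι → ℕ) (x z : ι) : Prop :=
  z ≠ x ∧ ¬ Sw f pos x z ∧ ∀ w, w ≠ x → ¬ Sw f pos x w → w ≠ z → u x z < u x w

theorem exists_pos {pos : ι → ℕ} (hinj : Function.Injective pos)
    (hlt : ∀ i, pos i < Fintype.card ι) {p : ℕ} (hp : p < Fintype.card ι) : ∃ i, pos i = p := by
  let g : ι → Fin (Fintype.card ι) := fun i => ⟨pos i, hlt i⟩
  have hg : Function.Injective g := by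
    intro a b hab
    apply hinj
    have := congrArg Fin.val hab
    exact this
  have hb : Function.Bijective g := by
    rw [Fintype.bijective_iff_injective_and_card]
    exact ⟨hg, by simp⟩
  obtain ⟨i, hi⟩ := hb.2 ⟨p, hp⟩
  exact ⟨i, congrArg Fin.val hi⟩

theorem Sw.symm {f pos : ι → ℕ} (hf : Function.Injective f) (hp : Function.Injective pos)
    {x a : ι} (hne : a ≠ x) (h : Sw f pos x a) : Sw f pos a x := by
  have h1 : f a ≠ f x := fun e => hne (hf e)
  have h2 : pos a ≠ pos x := fun e => hne (hp e)
  unfold Sw at *
  omega

theorem not_Sw_symm {f pos : ι → ℕ} (hf : Function.Injective f) (hp : Function.Injective pos)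
    {x a : ι} (hne : a ≠ x) (h : ¬ Sw f pos x a) : ¬ Sw f pos a x :=
  fun h' => h (Sw.symm hf hp hne.symm h')

theorem exists_fst {f : ι → ℕ} {u : ι → ι → ℝ} {pos : ι → ℕ}
    (hu : ∀ i j k, j ≠ i → k ≠ i → u i j = u i k → j = k) {x a : ι} (ha : a ≠ x)
    (h : ¬ Sw f pos x a) : ∃ z, Fst f u pos x z := by
  classical
  obtain ⟨z, hz, hmin⟩ := Finset.exists_min_image
    (univ.filter (fun z => z ≠ x ∧ ¬ Sw f pos x z)) (u x) ⟨a, by simp [ha, h]⟩
  simp only [mem_filter, mem_univ, true_and] at hz hmin
  refine ⟨z, hz.1, hz.2, ?_⟩
  intro w hw hw' hwz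
  rcases lt_or_eq_of_le (hmin w ⟨hw, hw'⟩) with h' | h'
  · exact h'
  · exact absurd (hu x z w hz.1 hw h').symm hwz

theorem exists_pair {f : ι → ℕ} {u : ι → ι → ℝ} {pos : ι → ℕ} (hf : Function.Injective f)
    (hu : ∀ i j k, j ≠ i → k ≠ i → u i j = u i k → j = k) (sig : Sig f u)
    (st : St f u pos) (hex : ∃ x y, f x < f y ∧ pos x < pos y) :
    ∃ x y, pos y = pos x + 1 ∧ f x < f y ∧ Fst f u pos x y ∧ Fst f u pos y x := by
  classical
  -- an unfinished letter with minimal position
  have hup : ∃ x z, Fst f u pos x z ∧ pos x < pos z := by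
    obtain ⟨x₀, y₀, h1, h2⟩ := hex
    obtain ⟨x, hx, hmin⟩ := Finset.exists_min_image
      (univ.filter (fun x => ∃ a, a ≠ x ∧ ¬ Sw f pos x a)) pos
      ⟨x₀, by
        simp only [mem_filter, mem_univ, true_and]
        refine ⟨y₀, ?_, ?_⟩
        · rintro rfl; omega
        · unfold Sw; omega⟩
    simp only [mem_filter, mem_univ, true_and] at hx hmin
    obtain ⟨a, ha, ha'⟩ := hx
    obtain ⟨z, hz⟩ := exists_fst hu ha ha'
    refine ⟨x, z, hz, ?_⟩
    have h3 := hmin z ⟨x, hz.1.symm, not_Sw_symm hf st.inj hz.1 hz.2.1⟩
    have h4 : pos x ≠ pos z := fun e => hz.1 (st.inj e).symm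
    omega
  obtain ⟨x₀, z₀, hx₀⟩ := hup
  obtain ⟨x, hx, hmax⟩ := Finset.exists_max_image
      (univ.filter (fun x => ∃ z, Fst f u pos x z ∧ pos x < pos z)) pos
      ⟨x₀, by
        simp only [mem_filter, mem_univ, true_and]
        exact ⟨z₀, hx₀⟩⟩
  simp only [mem_filter, mem_univ, true_and] at hx hmax
  obtain ⟨z, hz, hxz⟩ := hx
  have hzlt := st.lt z
  obtain ⟨y, hy⟩ := exists_pos st.inj st.lt (p := pos x + 1) (by omega)
  have hyx : y ≠ x := by rintro rfl; omega
  have hfxz : f x < f z := by
    have := hz.2.1
    have h1 : f x ≠ f z := fun e => hz.1 (hf e).symm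
    unfold Sw at this
    omega
  have hunf : ∃ a, a ≠ y ∧ ¬ Sw f pos y a := by
    by_contra hcon
    push Not at hcon
    by_cases hyz : y = z
    · subst hyz
      exact not_Sw_symm hf st.inj hz.1 hz.2.1 (hcon x hyx.symm)
    · have h1 := hcon x hyx.symm
      have h2 := hcon z (fun e => hyz e.symm)
      have h3 : pos y ≠ pos z := fun e => hyz (st.inj e)
      have h4 : f y ≠ f z := fun e => hyz (hf e)
      have h5 : f y ≠ f x := fun e => hyx (hf e)
      unfold Sw at h1 h2
      omega
  obtain ⟨a, ha, ha'⟩ := hunf
  obtain ⟨w, hw⟩ := exists_fst hu ha ha'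
  have hwy : pos w < pos y := by
    by_contra hcon
    have h1 : pos w ≠ pos y := fun e => hw.1 (st.inj e)
    have h2 := hmax y ⟨w, hw, by omega⟩
    omega
  have hfwy : f w < f y := by
    have := hw.2.1
    have h1 : f w ≠ f y := fun e => hw.1 (hf e)
    unfold Sw at this
    omega
  obtain ⟨hz1, hz2, hz3⟩ := hz
  obtain ⟨hw1, hw2, hw3⟩ := hw
  have hfyx : f y ≠ f x := fun e => hyx (hf e)
  rcases Nat.lt_or_gt_of_ne hfyx with hfyx' | hfyx'
  · -- `x, y` are swapped
    exfalso
    have hzy : z ≠ y := by rintro rfl; omega
    have hwx : w ≠ x := by rintro rfl; omega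
    have hpz : pos z ≠ pos y := fun e => hzy (st.inj e)
    have hpw : pos w ≠ pos x := fun e => hwx (st.inj e)
    have hwz : w ≠ z := by rintro rfl; omega
    -- on y : w first, z not swapped
    have e1 : u y w < u y z := hw3 z hzy (by unfold Sw; omega) hwz.symm
    have s1 := sig w y z (by omega) (by omega)
    -- on x : z first, w not swapped
    have e2 : u x z < u x w := hz3 w hwx (by unfold Sw; omega) hwz
    have s2 := sig w x z (by omega) (by omega)
    -- on x : y swapped, w not
    have e3 : u x y < u x w := st.cl x y w hyx hwx (by unfold Sw; omega) (by unfold Sw; omega)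
    have s3 := sig w y x (by omega) (by omega)
    rcases s1 with s1 | s1
    · rcases s2 with s2 | s2
      · linarith [s2.1]
      · rcases s3 with s3 | s3
        · linarith [s3.2.2]
        · linarith [s1.2.1, s2.2.1, s3.2.1]
    · linarith [s1.1]
  · -- `f x < f y`
    have hxy : ¬ Sw f pos x y := by unfold Sw; omega
    have hyx2 : ¬ Sw f pos y x := by unfold Sw; omega
    -- not (f x < f w)
    have hw4 : w ≠ x → pos w < pos x ∧ f w < f x ∧ u y w < u y x ∧ u x w < u x y ∧ u w x < u w y := by
      intro hwx
      have hpw : pos w ≠ pos x := fun e => hwx (st.inj e)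
      have hfw : f w ≠ f x := fun e => hwx (hf e)
      have e1 : u y w < u y x := hw3 x hyx.symm hyx2 hwx.symm
      have hfw' : f w < f x := by
        by_contra hcon
        have s1 := sig x w y (by omega) (by omega)
        have e2 : u x w < u x y := st.cl x w y hwx hyx (by unfold Sw; omega) hxy
        rcases s1 with s1 | s1
        · linarith [s1.2.2]
        · linarith [s1.2.1]
      have s2 := sig w x y (by omega) (by omega)
      rcases s2 with s2 | s2
      · exact ⟨by omega, hfw', e1, s2.1, s2.2.1⟩
      · linarith [s2.2.2]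
    have hz4 : z ≠ y → pos y < pos z ∧ f y < f z ∧ u x z < u x y ∧ u y z < u y x := by
      intro hzy
      have hpz : pos z ≠ pos y := fun e => hzy (st.inj e)
      have hfz : f z ≠ f y := fun e => hzy (hf e)
      have e1 : u x z < u x y := hz3 y hyx hxy hzy.symm
      have hfz' : f y < f z := by
        by_contra hcon
        have s1 := sig x z y (by omega) (by omega)
        have e2 : u y z < u y x := st.cl y z x hzy hyx.symm (by unfold Sw; omega) hyx2
        rcases s1 with s1 | s1
        · linarith [s1.2.2]
        · linarith [s1.2.1]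
      have s2 := sig x y z (by omega) (by omega)
      rcases s2 with s2 | s2
      · linarith [s2.2.1]
      · exact ⟨by omega, hfz', e1, s2.1⟩
    by_cases hzy : z = y
    · by_cases hwx : w = x
      · subst hzy
        subst hwx
        exact ⟨w, z, hy, hfyx', ⟨hz1, hz2, hz3⟩, ⟨hw1, hw2, hw3⟩⟩
      · exfalso
        obtain ⟨q1, q2, q3, q4, q5⟩ := hw4 hwx
        have e1 : u x z < u x w := hz3 w hwx (by unfold Sw; omega) (by rintro rfl; omega)
        rw [hzy] at e1
        linarith
    · exfalso
      obtain ⟨r1, r2, r3, r4⟩ := hz4 hzy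
      by_cases hwx : w = x
      · have e1 : u y w < u y z := hw3 z hzy (by unfold Sw; omega) (by rw [hwx]; exact hz1)
        rw [hwx] at e1
        linarith
      · obtain ⟨q1, q2, q3, q4, q5⟩ := hw4 hwx
        have hwz : w ≠ z := by rintro rfl; omega
        have e1 : u x z < u x w := hz3 w hwx (by unfold Sw; omega) hwz
        have s1 := sig w x z (by omega) (by omega)
        have e2 : u y w < u y z := hw3 z hzy (by unfold Sw; omega) hwz.symm
        have s2 := sig w y z (by omega) (by omega)
        rcases s1 with s1 | s1
        · linarith [s1.1]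
        · rcases s2 with s2 | s2
          · linarith [s1.2.1, s2.2.1]
          · linarith [s2.1]

/-- one step -/
def Step (f : ι → ℕ) (u : ι → ι → ℝ) (pos pos' : ι → ℕ) : Prop :=
  (pos' = pos ∧ ¬ ∃ x y, f x < f y ∧ pos x < pos y) ∨
  ∃ x y, pos y = pos x + 1 ∧ f x < f y ∧ Fst f u pos x y ∧ Fst f u pos y x ∧
    pos' x = pos y ∧ pos' y = pos x ∧ ∀ z, z ≠ x → z ≠ y → pos' z = pos z

theorem exists_next {f : ι → ℕ} {u : ι → ι → ℝ} {pos : ι → ℕ} (hf : Function.Injective f)
    (hu : ∀ i j k, j ≠ i → k ≠ i → u i j = u i k → j = k) (sig : Sig f u)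
    (st : St f u pos) : ∃ pos', St f u pos' ∧ Step f u pos pos' := by
  classical
  by_cases hex : ∃ x y, f x < f y ∧ pos x < pos y
  · obtain ⟨x, y, h1, h2, h3, h4⟩ := exists_pair hf hu sig st hex
    have hxy : x ≠ y := by rintro rfl; omega
    set pos' : ι → ℕ := fun z => if z = x then pos y else if z = y then pos x else pos z
      with hpos'
    have e1 : pos' x = pos y := by simp [hpos']
    have e2 : pos' y = pos x := by simp [hpos', hxy.symm]
    have e3 : ∀ z, z ≠ x → z ≠ y → pos' z = pos z := by
      intro z hz1 hz2
      simp [hpos', hz1, hz2]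
    refine ⟨pos', ⟨?_, ?_, ?_⟩, Or.inr ⟨x, y, h1, h2, h3, h4, e1, e2, e3⟩⟩
    · intro a b hab
      by_cases hax : a = x
      · subst hax
        by_cases hbx : b = a
        · exact hbx.symm
        · by_cases hby : b = y
          · subst hby
            rw [e1, e2] at hab
            exact (st.inj hab).symm
          · rw [e1, e3 b hbx hby] at hab
            exact absurd (st.inj hab).symm hby
      · by_cases hay : a = y
        · subst hay
          by_cases hbx : b = x
          · subst hbx
            rw [e1, e2] at hab
            exact (st.inj hab).symm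
          · by_cases hby : b = a
            · exact hby.symm
            · rw [e2, e3 b hbx hby] at hab
              exact absurd (st.inj hab).symm hbx
        · by_cases hbx : b = x
          · subst hbx
            rw [e1, e3 a hax hay] at hab
            exact absurd (st.inj hab) hay
          · by_cases hby : b = y
            · subst hby
              rw [e2, e3 a hax hay] at hab
              exact absurd (st.inj hab) hax
            · rw [e3 a hax hay, e3 b hbx hby] at hab
              exact st.inj hab
    · intro i
      by_cases hix : i = x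
      · subst hix; rw [e1]; exact st.lt _
      · by_cases hiy : i = y
        · subst hiy; rw [e2]; exact st.lt _
        · rw [e3 i hix hiy]; exact st.lt _
    · -- how `Sw` changes
      have key : ∀ c d, c ≠ d → ¬ (c = x ∧ d = y) → ¬ (c = y ∧ d = x) →
          (pos' d < pos' c ↔ pos d < pos c) := by
        intro c d hcd n1 n2
        have hp : pos c ≠ pos d := fun e => hcd (st.inj e)
        by_cases hcx : c = x
        · subst hcx
          have hdc : d ≠ c := hcd.symm
          have hdy : d ≠ y := fun e => n1 ⟨rfl, e⟩
          have : pos d ≠ pos y := fun e => hdy (st.inj e)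
          rw [e1, e3 d hdc hdy]
          omega
        · by_cases hcy : c = y
          · subst hcy
            have hdx : d ≠ x := fun e => n2 ⟨rfl, e⟩
            have : pos d ≠ pos x := fun e => hdx (st.inj e)
            rw [e2, e3 d hdx hcd.symm]
            omega
          · have q1 : pos c ≠ pos x := fun e => hcx (st.inj e)
            have q2 : pos c ≠ pos y := fun e => hcy (st.inj e)
            rw [e3 c hcx hcy]
            by_cases hdx : d = x
            · subst hdx
              rw [e1]
              omega
            · by_cases hdy : d = y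
              · subst hdy
                rw [e2]
                omega
              · rw [e3 d hdx hdy]
      intro c a b hac hbc ha hb
      by_cases hca : (c = x ∧ a = y) ∨ (c = y ∧ a = x)
      · -- `a` is the line just crossed
        have hcb : ¬ Sw f pos c b ∧ b ≠ a := by
          constructor
          · intro hcon
            apply hb
            have : ¬ (c = x ∧ b = y) ∧ ¬ (c = y ∧ b = x) := by
              constructor
              · rintro ⟨rfl, rfl⟩
                exact h3.2.1 hcon
              · rintro ⟨rfl, rfl⟩
                exact h4.2.1 hcon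
            unfold Sw at *
            rw [key c b hbc.symm this.1 this.2]
            exact hcon
          · rintro rfl
            exact hb ha
        rcases hca with ⟨rfl, rfl⟩ | ⟨rfl, rfl⟩
        · exact h3.2.2 b hbc hcb.1 hcb.2
        · exact h4.2.2 b hbc hcb.1 hcb.2
      · push Not at hca
        have ha' : Sw f pos c a := by
          unfold Sw at *
          rw [← key c a hac.symm (fun e => hca.1 e.1 e.2) (fun e => hca.2 e.1 e.2)]
          exact ha
        have hb' : ¬ Sw f pos c b := by
          intro hcon
          apply hb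
          have : ¬ (c = x ∧ b = y) ∧ ¬ (c = y ∧ b = x) := by
            constructor
            · rintro ⟨rfl, rfl⟩
              exact h3.2.1 hcon
            · rintro ⟨rfl, rfl⟩
              exact h4.2.1 hcon
          unfold Sw at *
          rw [key c b hbc.symm this.1 this.2]
          exact hcon
        exact st.cl c a b hac hbc ha' hb'
  · exact ⟨pos, st, Or.inl ⟨rfl, hex⟩⟩

/-- number of pairs not yet swapped -/
def M (f pos : ι → ℕ) : ℕ :=
  (univ.filter (fun q : ι × ι => f q.1 < f q.2 ∧ pos q.1 < pos q.2)).card

theorem step_order {f : ι → ℕ} {u : ι → ι → ℝ} {pos pos' : ι → ℕ} (hp : Function.Injective pos)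
    {x y : ι} (h1 : pos y = pos x + 1)
    (e1 : pos' x = pos y) (e2 : pos' y = pos x) (e3 : ∀ z, z ≠ x → z ≠ y → pos' z = pos z)
    {c d : ι} (hcd : c ≠ d) (n1 : ¬ (c = x ∧ d = y)) (n2 : ¬ (c = y ∧ d = x)) :
    (pos' d < pos' c ↔ pos d < pos c) := by
  have hp' : pos c ≠ pos d := fun e => hcd (hp e)
  by_cases hcx : c = x
  · subst hcx
    have hdc : d ≠ c := hcd.symm
    have hdy : d ≠ y := fun e => n1 ⟨rfl, e⟩
    have : pos d ≠ pos y := fun e => hdy (hp e)
    rw [e1, e3 d hdc hdy]
    omega
  · by_cases hcy : c = y
    · subst hcy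
      have hdx : d ≠ x := fun e => n2 ⟨rfl, e⟩
      have : pos d ≠ pos x := fun e => hdx (hp e)
      rw [e2, e3 d hdx hcd.symm]
      omega
    · have q1 : pos c ≠ pos x := fun e => hcx (hp e)
      have q2 : pos c ≠ pos y := fun e => hcy (hp e)
      rw [e3 c hcx hcy]
      by_cases hdx : d = x
      · subst hdx
        rw [e1]
        omega
      · by_cases hdy : d = y
        · subst hdy
          rw [e2]
          omega
        · rw [e3 d hdx hdy]

theorem M_step {f : ι → ℕ} {u : ι → ι → ℝ} {pos pos' : ι → ℕ} (hp : Function.Injective pos)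
    (h : Step f u pos pos') : M f pos = 0 ∧ M f pos' = 0 ∨ M f pos' + 1 ≤ M f pos := by
  rcases h with ⟨rfl, h⟩ | ⟨x, y, h1, h2, -, -, e1, e2, e3⟩
  · left
    have : M f pos' = 0 := by
      unfold M
      rw [Finset.card_eq_zero, Finset.filter_eq_empty_iff]
      intro q _ hq
      exact h ⟨q.1, q.2, hq⟩
    exact ⟨this, this⟩
  · right
    unfold M
    apply Nat.succ_le_of_lt
    apply Finset.card_lt_card
    rw [Finset.ssubset_iff_of_subset]
    · refine ⟨(x, y), ?_, ?_⟩
      · simp; omega
      · simp; omega
    · intro q hq
      simp only [mem_filter, mem_univ, true_and] at hq ⊢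
      refine ⟨hq.1, ?_⟩
      have hne : q.2 ≠ q.1 := by
        intro e; rw [e] at hq; omega
      rw [← step_order (f := f) (u := u) hp h1 e1 e2 e3 hne ?_ ?_]
      · exact hq.2
      · rintro ⟨r1, r2⟩
        rw [r1, r2] at hq
        omega
      · rintro ⟨r1, r2⟩
        rw [r1, r2] at hq
        omega

theorem exists_seq {f : ι → ℕ} {u : ι → ι → ℝ} (hf : Function.Injective f)
    (hlt : ∀ i, f i < Fintype.card ι)
    (hu : ∀ i j k, j ≠ i → k ≠ i → u i j = u i k → j = k) (sig : Sig f u) :
    ∃ P : ℕ → ι → ℕ, P 0 = f ∧ (∀ s, St f u (P s)) ∧ (∀ s, Step f u (P s) (P (s+1))) ∧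
      ∃ N, ∀ x y, f x < f y → P N y < P N x := by
  classical
  have hnext : ∀ st : {pos : ι → ℕ // St f u pos}, ∃ st' : {pos : ι → ℕ // St f u pos},
      Step f u st.1 st'.1 := by
    intro st
    obtain ⟨p', h1, h2⟩ := exists_next hf hu sig st.2
    exact ⟨⟨p', h1⟩, h2⟩
  choose nxt hnxt using hnext
  have h0 : St f u f := by
    refine ⟨hf, hlt, ?_⟩
    intro x a b _ _ h _
    exact absurd Iff.rfl h
  let Q : ℕ → {pos : ι → ℕ // St f u pos} := fun s => Nat.rec ⟨f, h0⟩ (fun _ st => nxt st) s
  have hQ : ∀ s, Q (s+1) = nxt (Q s) := fun s => rfl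
  have hstep : ∀ s, Step f u (Q s).1 (Q (s+1)).1 := by
    intro s
    rw [hQ]
    exact hnxt _
  refine ⟨fun s => (Q s).1, rfl, fun s => (Q s).2, hstep, M f f, ?_⟩
  have hM : ∀ s, s + M f (Q s).1 ≤ M f f ∨ M f (Q s).1 = 0 := by
    intro s
    induction s with
    | zero => left; show 0 + M f f ≤ M f f; omega
    | succ s ih =>
      rcases M_step (Q s).2.inj (hstep s) with h | h
      · right; exact h.2
      · rcases ih with ih | ih
        · left; omega
        · omega
  have hM0 : M f (Q (M f f)).1 = 0 := by
    rcases hM (M f f) with h | h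
    · omega
    · exact h
  intro x y hxy
  by_contra hcon
  have hne : (Q (M f f)).1 x ≠ (Q (M f f)).1 y := by
    intro e
    have := (Q (M f f)).2.inj e
    rw [this] at hxy
    omega
  unfold M at hM0
  rw [Finset.card_eq_zero, Finset.filter_eq_empty_iff] at hM0
  refine hM0 (mem_univ (x, y)) ⟨hxy, ?_⟩
  change ¬ ((Q (M f f)).1 y < (Q (M f f)).1 x) at hcon
  show (Q (M f f)).1 x < (Q (M f f)).1 y
  omega

theorem card_lt_eq {g : ι → ℕ} (hinj : Function.Injective g)
    (hlt : ∀ i, g i < Fintype.card ι) (i : ι) :
    (univ.filter (fun j => g j < g i)).card = g i := by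
  classical
  have : (univ.filter (fun j => g j < g i)).image g = range (g i) := by
    ext p
    simp only [mem_image, mem_filter, mem_univ, true_and, mem_range]
    constructor
    · rintro ⟨j, hj, rfl⟩; exact hj
    · intro hp
      obtain ⟨j, hj⟩ := exists_pos hinj hlt (hp.trans (hlt i))
      exact ⟨j, by omega, hj⟩
  rw [← Finset.card_image_of_injective _ hinj, this, card_range]

theorem rev_of {f g : ι → ℕ} (hf : Function.Injective f) (hflt : ∀ i, f i < Fintype.card ι)
    (hg : Function.Injective g) (hglt : ∀ i, g i < Fintype.card ι)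
    (h : ∀ x y, f x < f y → g y < g x) (i : ι) : g i + f i + 1 = Fintype.card ι := by
  classical
  have h1 := card_lt_eq hf hflt i
  have h2 := card_lt_eq hg hglt i
  have h3 : univ.filter (fun j => g j < g i) = univ.filter (fun j => f i < f j) := by
    ext j
    simp only [mem_filter, mem_univ, true_and]
    constructor
    · intro hj
      by_contra hcon
      by_cases hij : j = i
      · subst hij; omega
      · have : f j ≠ f i := fun e => hij (hf e)
        have := h j i (by omega)
        omega
    · intro hj
      exact h i j hj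
  have h4 : univ.filter (fun j => ¬ (f j < f i)) = insert i (univ.filter (fun j => f i < f j)) := by
    ext j
    simp only [mem_filter, mem_univ, true_and, mem_insert]
    constructor
    · intro hj
      by_cases hij : j = i
      · left; exact hij
      · right
        have : f j ≠ f i := fun e => hij (hf e)
        omega
    · rintro (rfl | hj)
      · omega
      · omega
  have h5 := Finset.card_filter_add_card_filter_not (s := (univ : Finset ι)) (fun j => f j < f i)
  rw [h4, Finset.card_insert_of_notMem (by simp), ← h3, h1, h2, Finset.card_univ] at h5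
  omega

theorem exists_threshold (x : ι) (g : ι → ℝ) (L : ι → Prop)
    (hL : ∀ a b, a ≠ x → b ≠ x → L a → ¬ L b → g a < g b) :
    ∃ t : ℝ, ∀ k, k ≠ x → (g k < t ↔ L k) := by
  classical
  by_cases h : ∃ b, b ≠ x ∧ ¬ L b
  · obtain ⟨b₀, hb₀⟩ := h
    obtain ⟨b, hb, hmin⟩ := Finset.exists_min_image
      (univ.filter (fun b => b ≠ x ∧ ¬ L b)) g ⟨b₀, by simp [hb₀]⟩
    simp only [mem_filter, mem_univ, true_and] at hb hmin
    refine ⟨g b, fun k hk => ⟨fun hlt => ?_, fun hLk => hL k b hk hb.1 hLk hb.2⟩⟩
    by_contra hcon
    exact absurd (hmin k ⟨hk, hcon⟩) (not_le.mpr hlt)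
  · push Not at h
    obtain ⟨m, hm⟩ := (Set.finite_range g).bddAbove
    refine ⟨m + 1, fun k hk => ⟨fun _ => h k hk, fun _ => ?_⟩⟩
    have := hm ⟨k, rfl⟩
    linarith

variable {S : Sys ι} {F : ι → Bool} {f : ι → ℕ} {o : ι → Bool}

theorem edge' (hc : S.Complete) (hf : Function.Injective f)
    (h1 : ∀ i j, i ≠ j → S.v i (o i) j = xor (F j) (decide (f j < f i)))
    (h2 : ∀ i j, i ≠ j → S.v i (!(o i)) j = xor (F j) (decide (f i < f j)))
    (x : ι) (L : ι → Prop)
    (hL : ∀ a b, a ≠ x → b ≠ x → L a → ¬ L b →
      (if o x = true then - S.τ x a else S.τ x a) < (if o x = true then - S.τ x b else S.τ x b))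
    (X : ι → Bool)
    (hX : ∀ k, k ≠ x → ((L k → X k = xor (F k) (decide (f x < f k))) ∧
      (¬ L k → X k = xor (F k) (decide (f k < f x))))) : X ∈ S.T := by
  classical
  by_cases ho : o x = true
  · simp only [ho, if_true] at hL
    obtain ⟨t, ht⟩ := exists_threshold x (S.τ x) (fun k => ¬ L k) (by
      intro a b ha hb h3 h4
      have := hL b a hb ha (not_not.mp h4) h3
      linarith)
    apply S.edge x t X
    intro k hk
    have hcr : S.cr x k := hc x k hk.symm
    unfold vecOf
    by_cases hLk : L k
    · rw [if_neg (by rintro ⟨_, h5⟩; exact (ht k hk).mp h5 hLk)]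
      have := h2 x k hk.symm
      rw [ho] at this
      rw [(hX k hk).1 hLk]
      exact this.symm
    · rw [if_pos ⟨hcr, (ht k hk).mpr hLk⟩]
      have := h1 x k hk.symm
      rw [ho] at this
      rw [(hX k hk).2 hLk]
      exact this.symm
  · have ho' : o x = false := by simpa using ho
    simp only [ho', Bool.false_eq_true, if_false] at hL
    obtain ⟨t, ht⟩ := exists_threshold x (S.τ x) L hL
    apply S.edge x t X
    intro k hk
    have hcr : S.cr x k := hc x k hk.symm
    unfold vecOf
    by_cases hLk : L k
    · rw [if_pos ⟨hcr, (ht k hk).mpr hLk⟩]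
      have := h2 x k hk.symm
      rw [ho'] at this
      rw [(hX k hk).1 hLk]
      exact this.symm
    · rw [if_neg (by rintro ⟨_, h5⟩; exact hLk ((ht k hk).mp h5))]
      have := h1 x k hk.symm
      rw [ho'] at this
      rw [(hX k hk).2 hLk]
      exact this.symm

/-- oriented times -/
def U (S : Sys ι) (o : ι → Bool) (i j : ι) : ℝ := if o i = true then - S.τ i j else S.τ i j

theorem U_inj (hc : S.Complete) : ∀ i j k, j ≠ i → k ≠ i → U S o i j = U S o i k → j = k := by
  intro i j k hj hk h
  have : S.τ i j = S.τ i k := by
    unfold U at h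
    split at h
    · linarith
    · exact h
  exact S.τ_inj (hc i j hj.symm) (hc i k hk.symm) this

theorem present (hc : S.Complete) (hf : Function.Injective f)
    (h1 : ∀ i j, i ≠ j → S.v i (o i) j = xor (F j) (decide (f j < f i)))
    (h2 : ∀ i j, i ≠ j → S.v i (!(o i)) j = xor (F j) (decide (f i < f j)))
    (x : ι) (L : ι → Prop)
    (hL : ∀ a b, a ≠ x → b ≠ x → L a → ¬ L b → U S o x a < U S o x b) (b : Bool) :
    ∃ X ∈ S.T, X x = xor (F x) b ∧
    (∀ k, k ≠ x → ((L k → X k = xor (F k) (decide (f x < f k))) ∧
      (¬ L k → X k = xor (F k) (decide (f k < f x))))) := by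
  classical
  refine ⟨fun k => if k = x then xor (F x) b else if L k then xor (F k) (decide (f x < f k)) else
    xor (F k) (decide (f k < f x)), ?_, ?_, ?_⟩
  · apply edge' hc hf h1 h2 x L hL
    intro k hk
    refine ⟨fun h => ?_, fun h => ?_⟩
    · simp [hk, h]
    · simp [hk, h]
  · simp
  · intro k hk
    refine ⟨fun h => ?_, fun h => ?_⟩
    · simp [hk, h]
    · simp [hk, h]

/-- a pattern (relative to `F`) is present -/
def Pr (S : Sys ι) (F : ι → Bool) (i j k : ι) (a b c : Bool) : Prop :=
  ∃ X ∈ S.T, X i = xor (F i) a ∧ X j = xor (F j) b ∧ X k = xor (F k) c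

theorem xdec_false (a : Bool) {p : Prop} [Decidable p] (h : ¬ p) :
    xor a (decide p) = xor a false := by
  rw [decide_eq_false h]

theorem xdec_true (a : Bool) {p : Prop} [Decidable p] (h : p) :
    xor a (decide p) = xor a true := by
  rw [decide_eq_true h]

theorem sigX (hc : S.Complete) (hf : Function.Injective f)
    (h1 : ∀ i j, i ≠ j → S.v i (o i) j = xor (F j) (decide (f j < f i)))
    (h2 : ∀ i j, i ≠ j → S.v i (!(o i)) j = xor (F j) (decide (f i < f j)))
    (i j k : ι) (hij : f i < f j) (hjk : f j < f k) :
    ((U S o j i < U S o j k ∧ U S o i j < U S o i k ∧ U S o k i < U S o k j) ∧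
      ¬ Pr S F i j k true false true) ∨
    ((U S o j k < U S o j i ∧ U S o i k < U S o i j ∧ U S o k j < U S o k i) ∧
      ¬ Pr S F i j k false true false) := by
  have nij : i ≠ j := by rintro rfl; omega
  have njk : j ≠ k := by rintro rfl; omega
  have nik : i ≠ k := by rintro rfl; omega
  -- end patterns
  have p1 : ∀ b, Pr S F i j k b false false := by
    intro b
    obtain ⟨X, hX, hx1, hx2⟩ := present (S := S) (F := F) (f := f) (o := o) hc hf h1 h2 i
      (fun _ => False) (fun _ _ _ _ h => h.elim) b
    refine ⟨X, hX, hx1, ?_, ?_⟩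
    · rw [(hx2 j nij.symm).2 (fun h => h)]
      first
        | exact xdec_false _ (by omega)
        | exact xdec_true _ (by omega)
    · rw [(hx2 k nik.symm).2 (fun h => h)]
      first
        | exact xdec_false _ (by omega)
        | exact xdec_true _ (by omega)
  have p2 : ∀ b, Pr S F i j k b true true := by
    intro b
    obtain ⟨X, hX, hx1, hx2⟩ := present (S := S) (F := F) (f := f) (o := o) hc hf h1 h2 i
      (fun _ => True) (fun _ _ _ _ _ h => (h trivial).elim) b
    refine ⟨X, hX, hx1, ?_, ?_⟩
    · rw [(hx2 j nij.symm).1 trivial]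
      first
        | exact xdec_false _ (by omega)
        | exact xdec_true _ (by omega)
    · rw [(hx2 k nik.symm).1 trivial]
      first
        | exact xdec_false _ (by omega)
        | exact xdec_true _ (by omega)
  have p3 : ∀ b, Pr S F i j k true true b := by
    intro b
    obtain ⟨X, hX, hx1, hx2⟩ := present (S := S) (F := F) (f := f) (o := o) hc hf h1 h2 k
      (fun _ => False) (fun _ _ _ _ h => h.elim) b
    refine ⟨X, hX, ?_, ?_, hx1⟩
    · rw [(hx2 i nik).2 (fun h => h)]
      first
        | exact xdec_false _ (by omega)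
        | exact xdec_true _ (by omega)
    · rw [(hx2 j njk).2 (fun h => h)]
      first
        | exact xdec_false _ (by omega)
        | exact xdec_true _ (by omega)
  have p4 : ∀ b, Pr S F i j k false false b := by
    intro b
    obtain ⟨X, hX, hx1, hx2⟩ := present (S := S) (F := F) (f := f) (o := o) hc hf h1 h2 k
      (fun _ => True) (fun _ _ _ _ _ h => (h trivial).elim) b
    refine ⟨X, hX, ?_, ?_, hx1⟩
    · rw [(hx2 i nik).1 trivial]
      first
        | exact xdec_false _ (by omega)
        | exact xdec_true _ (by omega)
    · rw [(hx2 j njk).1 trivial]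
      first
        | exact xdec_false _ (by omega)
        | exact xdec_true _ (by omega)
  have cut : ∀ x c : ι, ∀ a b, a ≠ x → b ≠ x → (U S o x a ≤ U S o x c) →
      ¬ (U S o x b ≤ U S o x c) → U S o x a < U S o x b := by
    intro x c a b _ _ ha hb
    exact lt_of_le_of_lt ha (not_le.mp hb)
  have q1 : U S o j i < U S o j k → Pr S F i j k false true false := by
    intro hlt
    obtain ⟨X, hX, hx1, hx2⟩ := present (S := S) (F := F) (f := f) (o := o) hc hf h1 h2 j
      (fun a => U S o j a ≤ U S o j i) (cut j i) true
    refine ⟨X, hX, ?_, hx1, ?_⟩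
    · rw [(hx2 i nij).1 le_rfl]
      first
        | exact xdec_false _ (by omega)
        | exact xdec_true _ (by omega)
    · rw [(hx2 k njk.symm).2 (not_le.mpr hlt)]
      first
        | exact xdec_false _ (by omega)
        | exact xdec_true _ (by omega)
  have q2 : U S o j k < U S o j i → Pr S F i j k true false true := by
    intro hlt
    obtain ⟨X, hX, hx1, hx2⟩ := present (S := S) (F := F) (f := f) (o := o) hc hf h1 h2 j
      (fun a => U S o j a ≤ U S o j k) (cut j k) false
    refine ⟨X, hX, ?_, hx1, ?_⟩
    · rw [(hx2 i nij).2 (not_le.mpr hlt)]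
      first
        | exact xdec_false _ (by omega)
        | exact xdec_true _ (by omega)
    · rw [(hx2 k njk.symm).1 le_rfl]
      first
        | exact xdec_false _ (by omega)
        | exact xdec_true _ (by omega)
  have q3 : U S o i j < U S o i k → Pr S F i j k false true false := by
    intro hlt
    obtain ⟨X, hX, hx1, hx2⟩ := present (S := S) (F := F) (f := f) (o := o) hc hf h1 h2 i
      (fun a => U S o i a ≤ U S o i j) (cut i j) false
    refine ⟨X, hX, hx1, ?_, ?_⟩
    · rw [(hx2 j nij.symm).1 le_rfl]
      first
        | exact xdec_false _ (by omega)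
        | exact xdec_true _ (by omega)
    · rw [(hx2 k nik.symm).2 (not_le.mpr hlt)]
      first
        | exact xdec_false _ (by omega)
        | exact xdec_true _ (by omega)
  have q4 : U S o i k < U S o i j → Pr S F i j k true false true := by
    intro hlt
    obtain ⟨X, hX, hx1, hx2⟩ := present (S := S) (F := F) (f := f) (o := o) hc hf h1 h2 i
      (fun a => U S o i a ≤ U S o i k) (cut i k) true
    refine ⟨X, hX, hx1, ?_, ?_⟩
    · rw [(hx2 j nij.symm).2 (not_le.mpr hlt)]
      first
        | exact xdec_false _ (by omega)
        | exact xdec_true _ (by omega)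
    · rw [(hx2 k nik.symm).1 le_rfl]
      first
        | exact xdec_false _ (by omega)
        | exact xdec_true _ (by omega)
  have q5 : U S o k i < U S o k j → Pr S F i j k false true false := by
    intro hlt
    obtain ⟨X, hX, hx1, hx2⟩ := present (S := S) (F := F) (f := f) (o := o) hc hf h1 h2 k
      (fun a => U S o k a ≤ U S o k i) (cut k i) false
    refine ⟨X, hX, ?_, ?_, hx1⟩
    · rw [(hx2 i nik).1 le_rfl]
      first
        | exact xdec_false _ (by omega)
        | exact xdec_true _ (by omega)
    · rw [(hx2 j njk).2 (not_le.mpr hlt)]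
      first
        | exact xdec_false _ (by omega)
        | exact xdec_true _ (by omega)
  have q6 : U S o k j < U S o k i → Pr S F i j k true false true := by
    intro hlt
    obtain ⟨X, hX, hx1, hx2⟩ := present (S := S) (F := F) (f := f) (o := o) hc hf h1 h2 k
      (fun a => U S o k a ≤ U S o k j) (cut k j) true
    refine ⟨X, hX, ?_, ?_, hx1⟩
    · rw [(hx2 i nik).2 (not_le.mpr hlt)]
      first
        | exact xdec_false _ (by omega)
        | exact xdec_true _ (by omega)
    · rw [(hx2 j njk).1 le_rfl]
      first
        | exact xdec_false _ (by omega)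
        | exact xdec_true _ (by omega)
  have tri : ¬ (Pr S F i j k true false true ∧ Pr S F i j k false true false) := by
    rintro ⟨t1, t2⟩
    obtain ⟨p, q, r, hpqr⟩ := S.triple nij njk nik
    have hall : ∀ a b c, Pr S F i j k a b c := by
      intro a b c
      cases a <;> cases b <;> cases c
      · exact p1 _
      · exact p4 _
      · exact t2
      · exact p2 _
      · exact p1 _
      · exact t1
      · exact p3 _
      · exact p2 _
    obtain ⟨X, hX, r1, r2, r3⟩ := hall (xor (F i) p) (xor (F j) q) (xor (F k) r)
    apply hpqr X hX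
    refine ⟨?_, ?_, ?_⟩
    · rw [r1]; cases F i <;> cases p <;> rfl
    · rw [r2]; cases F j <;> cases q <;> rfl
    · rw [r3]; cases F k <;> cases r <;> rfl
  have n1 : U S o j i ≠ U S o j k := fun e => nik (U_inj hc j i k nij njk.symm e)
  have n2 : U S o i j ≠ U S o i k := fun e => njk (U_inj hc i j k nij.symm nik.symm e)
  have n3 : U S o k i ≠ U S o k j := fun e => nij (U_inj hc k i j nik njk e)
  by_cases ht : Pr S F i j k true false true
  · right
    have ht' : ¬ Pr S F i j k false true false := fun h => tri ⟨ht, h⟩
    refine ⟨⟨?_, ?_, ?_⟩, ht'⟩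
    · rcases lt_or_gt_of_ne n1 with h | h
      · exact absurd (q1 h) ht'
      · exact h
    · rcases lt_or_gt_of_ne n2 with h | h
      · exact absurd (q3 h) ht'
      · exact h
    · rcases lt_or_gt_of_ne n3 with h | h
      · exact absurd (q5 h) ht'
      · exact h
  · left
    refine ⟨⟨?_, ?_, ?_⟩, ht⟩
    · rcases lt_or_gt_of_ne n1 with h | h
      · exact h
      · exact absurd (q2 h) ht
    · rcases lt_or_gt_of_ne n2 with h | h
      · exact h
      · exact absurd (q4 h) ht
    · rcases lt_or_gt_of_ne n3 with h | h
      · exact h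
      · exact absurd (q6 h) ht

theorem cell_mem (hc : S.Complete) (hf : Function.Injective f)
    (h1 : ∀ i j, i ≠ j → S.v i (o i) j = xor (F j) (decide (f j < f i)))
    (h2 : ∀ i j, i ≠ j → S.v i (!(o i)) j = xor (F j) (decide (f i < f j)))
    (hne : Nonempty ι) {pos : ι → ℕ} (st : St f (U S o) pos) (p : ℕ) :
    (fun i => xor (F i) (decide (pos i < p))) ∈ S.T := by
  have hcard : 0 < Fintype.card ι := Fintype.card_pos
  obtain ⟨x, hx⟩ : ∃ x, ∀ k, k ≠ x → (pos k < p ↔ pos k < pos x) := by
    by_cases hp : p < Fintype.card ι
    · obtain ⟨x, hx⟩ := exists_pos st.inj st.lt hp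
      exact ⟨x, fun k _ => by rw [hx]⟩
    · obtain ⟨x, hx⟩ := exists_pos st.inj st.lt (p := Fintype.card ι - 1) (by omega)
      refine ⟨x, fun k hk => ?_⟩
      have h3 := st.lt k
      have h4 : pos k ≠ pos x := fun e => hk (st.inj e)
      omega
  apply edge' hc hf h1 h2 x (Sw f pos x) (fun a b ha hb h3 h4 => st.cl x a b ha hb h3 h4)
  intro k hk
  have h3 := hx k hk
  have h4 : f k ≠ f x := fun e => hk (hf e)
  constructor
  · intro hs
    unfold Sw at hs
    congr 1
    rw [decide_eq_decide]
    omega
  · intro hs
    unfold Sw at hs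
    congr 1
    rw [decide_eq_decide]
    omega

theorem mem_cell (hc : S.Complete) (hf : Function.Injective f)
    (h1 : ∀ i j, i ≠ j → S.v i (o i) j = xor (F j) (decide (f j < f i)))
    (h2 : ∀ i j, i ≠ j → S.v i (!(o i)) j = xor (F j) (decide (f i < f j)))
    {P : ℕ → ι → ℕ} (hP0 : P 0 = f) (hst : ∀ s, St f (U S o) (P s))
    (hstep : ∀ s, Step f (U S o) (P s) (P (s+1)))
    {N : ℕ} (hN : ∀ x y, f x < f y → P N y < P N x) {X : ι → Bool} (hX : X ∈ S.T) :
    ∃ s p, X = fun i => xor (F i) (decide (P s i < p)) := by
  classical
  obtain ⟨Y, hY⟩ : ∃ Y : ι → Bool, ∀ i, X i = xor (F i) (Y i) :=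
    ⟨fun i => xor (F i) (X i), fun i => by simp⟩
  -- a time with all pairs of type A and no pair of type B swapped
  suffices hs : ∃ s, (∀ x y, f x < f y → Y x = true → Y y = false → P s x < P s y) ∧
      (∀ x y, f x < f y → Y x = false → Y y = true → P s y < P s x) by
    obtain ⟨s, hB, hA⟩ := hs
    refine ⟨s, (univ.filter (fun i => Y i = true)).sup (fun i => P s i + 1), ?_⟩
    funext i
    rw [hY i]
    congr 1
    cases hYi : Y i with
    | true =>
      symm
      rw [decide_eq_true_eq]
      have : P s i + 1 ≤ (univ.filter (fun i => Y i = true)).sup (fun i => P s i + 1) :=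
        Finset.le_sup (f := fun i => P s i + 1) (by simp [hYi])
      omega
    | false =>
      symm
      rw [decide_eq_false_iff_not]
      push Not
      apply Finset.sup_le
      intro a ha
      simp only [mem_filter, mem_univ, true_and] at ha
      have hai : a ≠ i := by rintro rfl; rw [ha] at hYi; cases hYi
      have hfai : f a ≠ f i := fun e => hai (hf e)
      have : P s a < P s i := by
        rcases Nat.lt_or_gt_of_ne hfai with h | h
        · exact hB a i h ha hYi
        · exact hA i a h hYi ha
      omega
  have hdich : ∀ n, (∀ x y, f x < f y → Y x = true → Y y = false → P n x < P n y) ∨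
      ∃ s, (∀ x y, f x < f y → Y x = true → Y y = false → P s x < P s y) ∧
        ¬ (∀ x y, f x < f y → Y x = true → Y y = false → P (s+1) x < P (s+1) y) := by
    intro n
    induction n with
    | zero => left; intro x y hxy _ _; rw [hP0]; exact hxy
    | succ n ih =>
      rcases ih with ih | ih
      · by_cases h : ∀ x y, f x < f y → Y x = true → Y y = false → P (n+1) x < P (n+1) y
        · left; exact h
        · right; exact ⟨n, ih, h⟩
      · right; exact ih
  rcases hdich N with h | ⟨s, hB, hnB⟩
  · refine ⟨N, h, fun x y hxy _ _ => hN x y hxy⟩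
  · refine ⟨s, hB, ?_⟩
    push Not at hnB
    obtain ⟨x, y, hxy, hYx, hYy, hle⟩ := hnB
    have hne : x ≠ y := by rintro rfl; omega
    rcases hstep s with ⟨h3, _⟩ | ⟨x', y', g1, g2, g3, g4, g5, g6, g7⟩
    · rw [h3] at hle
      have := hB x y hxy hYx hYy
      omega
    · have hlt := hB x y hxy hYx hYy
      have hne' : P (s+1) x ≠ P (s+1) y := fun e => hne ((hst (s+1)).inj e)
      have hxx : x = x' ∧ y = y' := by
        by_contra hcon
        have hcon2 : ¬ (x = y' ∧ y = x') := by
          rintro ⟨rfl, rfl⟩
          omega
        have := step_order (f := f) (u := U S o) (hst s).inj g1 g5 g6 g7 hne hcon hcon2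
        omega
      obtain ⟨rfl, rfl⟩ := hxx
      intro u v huv hYu hYv
      by_contra hcon
      have huv' : u ≠ v := by rintro rfl; omega
      have hpuv : P s u ≠ P s v := fun e => huv' ((hst s).inj e)
      have hux : u ≠ x := by rintro rfl; rw [hYu] at hYx; cases hYx
      have hvy : v ≠ y := by rintro rfl; rw [hYv] at hYy; cases hYy
      have hpux : P s u ≠ P s x := fun e => hux ((hst s).inj e)
      have hpvy : P s v ≠ P s y := fun e => hvy ((hst s).inj e)
      have hfux : f u ≠ f x := fun e => hux (hf e)
      have hfvy : f v ≠ f y := fun e => hvy (hf e)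
      have hpuv' : P s u < P s v := by omega
      by_cases hcase : P s y < P s v
      · -- `y` before `v`
        have hfyv : f y < f v := by
          by_contra hcon'
          have := hB v y (by omega) hYv hYy
          omega
        have hvx : v ≠ x := by rintro rfl; omega
        rcases sigX hc hf h1 h2 x y v hxy hfyv with h | h
        · apply h.2
          exact ⟨X, hX, by rw [hY, hYx], by rw [hY, hYy], by rw [hY, hYv]⟩
        · have e1 : U S o y x < U S o y v := g4.2.2 v hvy (by unfold Sw; omega) hvx
          linarith [h.1.1]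
      · -- `u` before `x`
        have hpux' : P s u < P s x := by omega
        have hfux' : f u < f x := by
          by_contra hcon'
          have := hB x u (by omega) hYx hYu
          omega
        have huy : u ≠ y := by rintro rfl; omega
        rcases sigX hc hf h1 h2 u x y hfux' hxy with h | h
        · have e1 : U S o x y < U S o x u := g3.2.2 u hux (by unfold Sw; omega) huy
          linarith [h.1.1]
        · apply h.2
          exact ⟨X, hX, by rw [hY, hYu], by rw [hY, hYx], by rw [hY, hYy]⟩

end SweepExists

/-- A complete system (with a circular list at infinity, starting at `F`) has a sweep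
whose cells are exactly the cells of the system; the line of the first end in the list is the
lowest letter of the starting word. -/
theorem Sys.Circ.exists_sweep {S : Sys ι} {F : ι → Bool} {l : List (ι × Bool)}
    (h : S.Circ F l) (hc : S.Complete) (hne : Nonempty ι) :
    ∃ W : Sweep ι, W.cells F = S.T ∧ ∀ e l', l = e :: l' → W.pos 0 e.1 = 0 := by
  classical
  obtain ⟨f, o, hlt, hf, h1, h2, h3⟩ := h.exists_order hc
  have sig : SweepExists.Sig f (SweepExists.U S o) := by
    intro i j k hij hjk
    rcases SweepExists.sigX hc hf h1 h2 i j k hij hjk with h | h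
    · exact Or.inl h.1
    · exact Or.inr h.1
  obtain ⟨P, hP0, hst, hstep, N, hN⟩ := SweepExists.exists_seq hf hlt
    (SweepExists.U_inj (o := o) hc) sig
  let W : Sweep ι :=
    { N := N
      pos := P
      lt := fun s i => (hst s).lt i
      inj := fun s => (hst s).inj
      step := by
        intro s
        rcases hstep s with h | ⟨x, y, g1, g2, _, _, g5, g6, g7⟩
        · left; exact h.1
        · right
          exact ⟨x, y, g1, by rw [hP0]; exact g2, g5, g6, g7⟩
      rev := by
        intro i
        rw [hP0]
        exact SweepExists.rev_of hf hlt (hst N).inj (hst N).lt hN i }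
  refine ⟨W, ?_, ?_⟩
  · ext X
    constructor
    · rintro ⟨s, p, rfl⟩
      exact SweepExists.cell_mem hc hf h1 h2 hne (hst s) p
    · intro hX
      obtain ⟨s, p, hsp⟩ := SweepExists.mem_cell hc hf h1 h2 hP0 hst hstep hN hX
      exact ⟨s, p, hsp⟩
  · intro e l' hl
    show P 0 e.1 = 0
    rw [hP0]
    exact h3 e l' hl

end PHP
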