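import Mathlib
import Pool.Agent.PHP.Defs

/-!
# Circular lists at infinity: basic facts

NOTATION `flip F i = Function.update F i (!(F i))`.

PROOFS. `mem_T`: if `l = e :: l'`, `e = (i, ε)`, then `F` agrees off `i` with `S.v i ε`, and `S.v i ε` agrees off `i` with
`vecOf .. i t` for `t` larger than all `τ i k` (`ε = true`) or smaller than all of them (`ε = false`); for this a finiteness is needed: `ι` is finite
because the list `l` contains all ends (or add `[Finite ι]`, harmless: obtain it from `h.2.2`); for non-crossing `k` use `v_ncr`.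
`mem_T_flip`: the same with the flipped value of `F i` (the edge axiom leaves the value at `i` free).

`rotate`: lemma: walking through a list `l` from `F` one arrives at `F'` with `F' i = xor (F i) (parity of the number of entries of `l` with first component `i`)`.
The full list contains each `i` exactly twice (`(i,false)` and `(i,true)`, `Nodup`, all ends), so after `e :: l` one is back at `F`;
`Walk (l₁ ++ l₂)` splits at the vector reached. The condition for `e` at the end is the same as at the start.

`exists_start`: rotate to `(s, ε) :: l'` for one of the ends; if `F' s = false` there, continue to rotate to the other end of `s`: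
there the sign of `s` is `true` (it is flipped only at the ends of `s`).

`exists_adj`: CLAIM, by strong induction on `m.length`: if (a rotation of the list is) `e :: m ++ f :: r`, `Circ F`, `a = e.1 ≠ b = f.1`, `¬ cr a b`, then the
conclusion holds. `m = []`: done. `m` contains an end `c` with `c.1 = a`, `m = m₁ ++ c :: m₂`: rotate to `c :: m₂ ++ f :: ...`, shorter. `m` contains `c` with
`c.1 = b`: `e :: m₁ ++ c :: ..`, shorter. Otherwise let `c` be the first element of `m`, `x = c.1`. If `¬ cr a x`: `e, c` adjacent, done.
If `¬ cr x b`: rotate, `c :: m' ++ f :: ..`, shorter. Else `cr a x`, `cr x b`: contradiction: let `F₀` be the sign vector before `e`.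
The sign of `b` along `a` is `F₀ b` (`v a _ b`, both ends, `v_ncr`), the sign of `a` along `b` is `!F₀ a` (the vector before `f`; `a` and `b` are not
flipped in `m`). So by `pair` no `X ∈ T` has `X a = F₀ a ∧ X b = !F₀ b`. At the end `c` of `x` the signs of `a`, `b` are `!F₀ a`, `F₀ b`; as `x` crosses `a` and `b`, at the
other end of `x` they are `F₀ a`, `!F₀ b` (`v_cr`), and this end is an edge, so there is such an `X ∈ T` (use `mem_T` like argument). Contradiction.
-/

namespace PHP

open Finset

variable {ι κ : Type} [DecidableEq ι] [DecidableEq κ]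

/-- `ι` is finite if a list contains all ends -/
theorem SysBasic_finite {l : List (ι × Bool)} (h : ∀ e, e ∈ l) : Finite ι := by
  have h1 : {e : ι × Bool | e ∈ l}.Finite := List.finite_toSet l
  have h2 : {e : ι × Bool | e ∈ l} = Set.univ := by
    ext e
    simp [h e]
  rw [h2] at h1
  have h3 : Finite (ι × Bool) := Set.finite_univ_iff.1 h1
  exact Finite.of_injective (fun i : ι => (i, true)) (fun i j hij => by simpa using hij)

/-- a vector which agrees with an end of `i` off `i` is a cell -/
theorem SysBasic_edge [Finite ι] (S : Sys ι) (i : ι) (ε : Bool) (X : ι → Bool)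
    (hX : ∀ k, k ≠ i → X k = S.v i ε k) : X ∈ S.T := by
  classical
  have : Fintype ι := Fintype.ofFinite ι
  cases ε with
  | true =>
    obtain ⟨t, ht⟩ : ∃ t : ℝ, ∀ k, S.τ i k < t := by
      obtain ⟨M, hM⟩ := (Set.finite_range (S.τ i)).bddAbove
      exact ⟨M + 1, fun k => lt_of_le_of_lt (hM ⟨k, rfl⟩) (by linarith)⟩
    apply S.edge i t
    intro k hk
    rw [hX k hk]
    unfold vecOf
    by_cases hc : S.cr i k
    · rw [if_pos ⟨hc, ht k⟩]
    · rw [if_neg (fun h => hc h.1)]
      exact S.v_ncr hk.symm hc
  | false =>
    obtain ⟨t, ht⟩ : ∃ t : ℝ, ∀ k, t ≤ S.τ i k := by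
      obtain ⟨M, hM⟩ := (Set.finite_range (S.τ i)).bddBelow
      exact ⟨M, fun k => hM ⟨k, rfl⟩⟩
    apply S.edge i t
    intro k hk
    rw [hX k hk]
    unfold vecOf
    rw [if_neg (fun h => absurd h.2 (not_lt.2 (ht k)))]

/-- The cell at which one starts is a cell. -/
theorem Sys.Circ.mem_T {S : Sys ι} {F : ι → Bool} {l : List (ι × Bool)} (h : S.Circ F l)
    (hl : l ≠ []) : F ∈ S.T := by
  obtain ⟨e, l', rfl⟩ := List.exists_cons_of_ne_nil hl
  have := SysBasic_finite h.2.2
  exact SysBasic_edge S e.1 e.2 F (fun k hk => h.1.1 k hk)

/-- the neighbouring cell across the first end is a cell too -/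
theorem Sys.Circ.mem_T_flip {S : Sys ι} {F : ι → Bool} {e : ι × Bool} {l : List (ι × Bool)}
    (h : S.Circ F (e :: l)) : Function.update F e.1 (!(F e.1)) ∈ S.T := by
  have := SysBasic_finite h.2.2
  apply SysBasic_edge S e.1 e.2
  intro k hk
  rw [Function.update_of_ne hk]
  exact h.1.1 k hk

/-- the vector reached after a list of ends -/
def SysBasic_endv : (ι → Bool) → List (ι × Bool) → (ι → Bool)
  | F, [] => F
  | F, e :: l => SysBasic_endv (Function.update F e.1 (!(F e.1))) l

theorem SysBasic_walk_append (S : Sys ι) (l₁ l₂ : List (ι × Bool)) : ∀ F : ι → Bool,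
    S.Walk F (l₁ ++ l₂) ↔ S.Walk F l₁ ∧ S.Walk (SysBasic_endv F l₁) l₂ := by
  induction l₁ with
  | nil =>
    intro F
    simp [Sys.Walk, SysBasic_endv]
  | cons e l ih =>
    intro F
    rw [List.cons_append, Sys.Walk, Sys.Walk, ih, SysBasic_endv, and_assoc]

theorem SysBasic_endv_apply (l : List (ι × Bool)) (j : ι) : ∀ F : ι → Bool,
    SysBasic_endv F l j = if Even (l.countP (fun x => decide (x.1 = j))) then F j else !(F j) := by
  induction l with
  | nil =>
    intro F
    simp [SysBasic_endv]
  | cons e l ih =>
    intro F
    rw [SysBasic_endv, ih, List.countP_cons]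
    by_cases hj : e.1 = j
    · subst hj
      rw [Function.update_self]
      by_cases he : Even (l.countP (fun x => decide (x.1 = e.1)))
      · have h1 : ¬ Even (l.countP (fun x => decide (x.1 = e.1)) +
            if decide (e.1 = e.1) = true then 1 else 0) := by
          simp [Nat.even_add_one, he]
        rw [if_pos he, if_neg h1]
      · have h1 : Even (l.countP (fun x => decide (x.1 = e.1)) +
            if decide (e.1 = e.1) = true then 1 else 0) := by
          simp [Nat.even_add_one, he]
        rw [if_neg he, if_pos h1, Bool.not_not]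
    · rw [Function.update_of_ne (Ne.symm hj)]
      simp [hj]

theorem SysBasic_count {l : List (ι × Bool)} (hn : l.Nodup) (hl : ∀ e, e ∈ l) (j : ι) :
    l.countP (fun x => decide (x.1 = j)) = 2 := by
  rw [List.countP_eq_length_filter, ← List.toFinset_card_of_nodup (hn.filter _)]
  have h1 : (l.filter (fun x => decide (x.1 = j))).toFinset = {(j, true), (j, false)} := by
    ext ⟨a, b⟩
    simp only [List.mem_toFinset, List.mem_filter, decide_eq_true_eq, Finset.mem_insert,
      Finset.mem_singleton, Prod.mk.injEq]
    constructor
    · rintro ⟨_, rfl⟩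
      cases b <;> simp
    · rintro (⟨rfl, rfl⟩ | ⟨rfl, rfl⟩)
      · exact ⟨hl _, rfl⟩
      · exact ⟨hl _, rfl⟩
  rw [h1, Finset.card_pair]
  simp

/-- Rotation of the circular list (every line occurs exactly twice, hence one returns to `F`). -/
theorem Sys.Circ.rotate {S : Sys ι} {F : ι → Bool} {e : ι × Bool} {l : List (ι × Bool)}
    (h : S.Circ F (e :: l)) : S.Circ (Function.update F e.1 (!(F e.1))) (l ++ [e]) := by
  obtain ⟨hw, hn, hl⟩ := h
  refine ⟨?_, ?_, ?_⟩
  · rw [SysBasic_walk_append]
    refine ⟨hw.2, ?_, trivial⟩
    intro j hj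
    have h1 := SysBasic_count hn hl j
    rw [List.countP_cons] at h1
    have h2 : (if decide (e.1 = j) = true then 1 else 0) = 0 := by
      simp [Ne.symm hj]
    rw [h2, add_zero] at h1
    rw [SysBasic_endv_apply, h1, if_pos (by decide), Function.update_of_ne hj]
    exact hw.1 j hj
  · have h1 : ([e] ++ l).Nodup := hn
    exact List.nodup_append_comm.1 h1
  · intro x
    have h1 := hl x
    rw [List.mem_cons] at h1
    rw [List.mem_append, List.mem_singleton]
    exact h1.symm

/-- rotation by an initial segment -/
theorem SysBasic_rot {S : Sys ι} (l₁ : List (ι × Bool)) : ∀ (l₂ : List (ι × Bool))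
    (F : ι → Bool), S.Circ F (l₁ ++ l₂) → S.Circ (SysBasic_endv F l₁) (l₂ ++ l₁) := by
  induction l₁ with
  | nil =>
    intro l₂ F h
    rw [List.append_nil]
    exact h
  | cons e l ih =>
    intro l₂ F h
    rw [List.cons_append] at h
    have h1 := h.rotate
    rw [List.append_assoc] at h1
    have h2 := ih (l₂ ++ [e]) _ h1
    rw [List.append_assoc, List.singleton_append] at h2
    exact h2

/-- One can start at any end. -/
theorem Sys.Circ.exists_rotate {S : Sys ι} {F : ι → Bool} {l : List (ι × Bool)}
    (h : S.Circ F l) (e : ι × Bool) :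
    ∃ (F' : ι → Bool) (l' : List (ι × Bool)), S.Circ F' (e :: l') := by
  obtain ⟨l₁, l₂, rfl⟩ := List.append_of_mem (h.2.2 e)
  have h1 := SysBasic_rot l₁ (e :: l₂) F h
  exact ⟨_, _, h1⟩

/-- For each line `s` one can start just before an end of `s` with `F s = true`. -/
theorem Sys.Circ.exists_start {S : Sys ι} {F : ι → Bool} {l : List (ι × Bool)}
    (h : S.Circ F l) (s : ι) :
    ∃ (F' : ι → Bool) (ε : Bool) (l' : List (ι × Bool)), S.Circ F' ((s, ε) :: l') ∧ F' s = true := by
  obtain ⟨F', l', h'⟩ := h.exists_rotate (s, true)
  by_cases hs : F' s = true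
  · exact ⟨F', true, l', h', hs⟩
  · have hmem : (s, false) ∈ l' := by
      have h1 := h'.2.2 (s, false)
      rw [List.mem_cons] at h1
      rcases h1 with h1 | h1
      · simp at h1
      · exact h1
    obtain ⟨m₁, m₂, rfl⟩ := List.append_of_mem hmem
    have hc := SysBasic_count h'.2.1 h'.2.2 s
    have h2 := SysBasic_rot ((s, true) :: m₁) ((s, false) :: m₂) F' h'
    refine ⟨_, false, _, h2, ?_⟩
    rw [SysBasic_endv_apply]
    have e1 : ((s, true) :: (m₁ ++ (s, false) :: m₂)) = ((s, true) :: m₁) ++ ((s, false) :: m₂) := by
      simp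
    have h4 : ((s, false) :: m₂).countP (fun x => decide (x.1 = s)) =
        m₂.countP (fun x => decide (x.1 = s)) + 1 := by
      rw [List.countP_cons]
      simp
    have h5 : ((s, true) :: m₁).countP (fun x => decide (x.1 = s)) =
        m₁.countP (fun x => decide (x.1 = s)) + 1 := by
      rw [List.countP_cons]
      simp
    have h3 : ((s, true) :: m₁).countP (fun x => decide (x.1 = s)) = 1 := by
      rw [e1, List.countP_append] at hc
      omega
    rw [h3, if_neg (by decide)]
    simpa using hs

theorem SysBasic_adj {S : Sys ι} (n : ℕ) : ∀ (m : List (ι × Bool)), m.length = n →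
    ∀ (F : ι → Bool) (e f : ι × Bool) (r : List (ι × Bool)), S.Circ F (e :: (m ++ f :: r)) →
    e.1 ≠ f.1 → ¬ S.cr e.1 f.1 →
    ∃ (F' : ι → Bool) (e f : ι × Bool) (r : List (ι × Bool)),
      S.Circ F' (e :: f :: r) ∧ e.1 ≠ f.1 ∧ ¬ S.cr e.1 f.1 := by
  induction n using Nat.strong_induction_on with
  | _ n ih =>
    intro m hm F e f r hC hef hcr
    by_cases h1 : ∃ c ∈ m, c.1 = e.1
    · obtain ⟨c, hc, hce⟩ := h1
      obtain ⟨m₁, m₂, rfl⟩ := List.append_of_mem hc
      have h2 : S.Circ F ((e :: m₁) ++ (c :: (m₂ ++ f :: r))) := by
        simpa using hC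
      have h3 := SysBasic_rot _ _ _ h2
      have h4 : (c :: (m₂ ++ f :: r)) ++ (e :: m₁) = c :: (m₂ ++ f :: (r ++ e :: m₁)) := by
        simp
      rw [h4] at h3
      refine ih m₂.length ?_ m₂ rfl _ c f _ h3 (by rw [hce]; exact hef) (by rw [hce]; exact hcr)
      rw [← hm, List.length_append, List.length_cons]
      omega
    by_cases h1' : ∃ c ∈ m, c.1 = f.1
    · obtain ⟨c, hc, hcf⟩ := h1'
      obtain ⟨m₁, m₂, rfl⟩ := List.append_of_mem hc
      have h2 : S.Circ F (e :: (m₁ ++ c :: (m₂ ++ f :: r))) := by
        simpa using hC
      refine ih m₁.length ?_ m₁ rfl _ e c _ h2 (by rw [hcf]; exact hef) (by rw [hcf]; exact hcr)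
      rw [← hm, List.length_append, List.length_cons]
      omega
    push Not at h1 h1'
    cases m with
    | nil => exact ⟨F, e, f, r, hC, hef, hcr⟩
    | cons c m' =>
      have hca : c.1 ≠ e.1 := h1 c List.mem_cons_self
      have hcb : c.1 ≠ f.1 := h1' c List.mem_cons_self
      by_cases h2 : S.cr e.1 c.1
      · by_cases h3 : S.cr c.1 f.1
        · exfalso
          have hfin := SysBasic_finite hC.2.2
          have hw := hC.1
          have w1 := hw.1
          have w2 := hw.2.1
          have hsplit : S.Walk F ((e :: c :: m') ++ (f :: r)) := hw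
          rw [SysBasic_walk_append] at hsplit
          have w3 := hsplit.2.1
          have ea : SysBasic_endv F (e :: c :: m') e.1 = !(F e.1) := by
            rw [SysBasic_endv_apply]
            have hz : (c :: m').countP (fun x => decide (x.1 = e.1)) = 0 := by
              rw [List.countP_eq_zero]
              intro x hx
              simpa using h1 x hx
            rw [List.countP_cons, hz]
            simp
          have va : S.v f.1 f.2 e.1 = !(F e.1) := by
            rw [← w3 e.1 hef, ea]
          have vb : S.v e.1 e.2 f.1 = F f.1 := (w1 f.1 hef.symm).symm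
          have hncr' : ¬ S.cr f.1 e.1 := fun h => hcr (S.cr_symm h)
          have va' : S.v f.1 true e.1 = !(F e.1) := by
            have := S.v_ncr hef.symm hncr'
            cases hf2 : f.2
            · rw [hf2] at va
              rw [this, va]
            · rw [hf2] at va
              exact va
          have vb' : S.v e.1 true f.1 = F f.1 := by
            have := S.v_ncr hef hcr
            cases he2 : e.2
            · rw [he2] at vb
              rw [this, vb]
            · rw [he2] at vb
              exact vb
          have hpair := S.pair hef hcr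
          have xa : S.v c.1 c.2 e.1 = !(F e.1) := by
            rw [← w2 e.1 hca.symm, Function.update_self]
          have xb : S.v c.1 c.2 f.1 = F f.1 := by
            rw [← w2 f.1 hcb.symm, Function.update_of_ne hef.symm]
          have xa' : S.v c.1 (!c.2) e.1 = F e.1 := by
            have := S.v_cr (S.cr_symm h2)
            cases hc2 : c.2
            · rw [hc2] at xa
              simp only [Bool.not_false]
              rw [this, xa, Bool.not_not]
            · rw [hc2, this] at xa
              simp only [Bool.not_true]
              simpa using xa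
          have xb' : S.v c.1 (!c.2) f.1 = !(F f.1) := by
            have := S.v_cr h3
            cases hc2 : c.2
            · rw [hc2] at xb
              simp only [Bool.not_false]
              rw [this, xb]
            · rw [hc2, this] at xb
              simp only [Bool.not_true]
              rw [← xb, Bool.not_not]
          have hX : (fun k => S.v c.1 (!c.2) k) ∈ S.T :=
            SysBasic_edge S c.1 (!c.2) _ (fun _ _ => rfl)
          apply hpair _ hX
          refine ⟨?_, ?_⟩
          · show S.v c.1 (!c.2) e.1 = !(S.v f.1 true e.1)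
            rw [xa', va', Bool.not_not]
          · show S.v c.1 (!c.2) f.1 = !(S.v e.1 true f.1)
            rw [xb', vb']
        · have h4 : S.Circ F ([e] ++ (c :: (m' ++ f :: r))) := by
            simpa using hC
          have h5 := SysBasic_rot _ _ _ h4
          have h6 : (c :: (m' ++ f :: r)) ++ [e] = c :: (m' ++ f :: (r ++ [e])) := by
            simp
          rw [h6] at h5
          refine ih m'.length ?_ m' rfl _ c f _ h5 hcb h3
          rw [← hm, List.length_cons]
          omega
      · exact ⟨F, e, c, m' ++ f :: r, hC, hca.symm, h2⟩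

/-- If not all pairs cross then, after rotation, the first two ends belong to two distinct
lines that do not cross. -/
theorem Sys.Circ.exists_adj {S : Sys ι} {F : ι → Bool} {l : List (ι × Bool)}
    (h : S.Circ F l) {a b : ι} (hab : a ≠ b) (hn : ¬ S.cr a b) :
    ∃ (F' : ι → Bool) (e f : ι × Bool) (r : List (ι × Bool)),
      S.Circ F' (e :: f :: r) ∧ e.1 ≠ f.1 ∧ ¬ S.cr e.1 f.1 := by
  obtain ⟨F', l', h'⟩ := h.exists_rotate (a, true)
  have hmem : (b, true) ∈ l' := by
    have h1 := h'.2.2 (b, true)
    rw [List.mem_cons] at h1
    rcases h1 with h1 | h1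
    · exact absurd (congrArg Prod.fst h1).symm hab
    · exact h1
  obtain ⟨m, r, rfl⟩ := List.append_of_mem hmem
  exact SysBasic_adj m.length m rfl F' (a, true) (b, true) r h' hab hn

end PHP
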