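import Mathlib
import Pool.Agent.PHP.Defs
import Pool.Agent.PHP.SysBasic
import Pool.Agent.PHP.SysOrder

/-!
# A balanced starting cell at infinity

PROOF. Let `f`, `o` be as in `Sys.Circ.exists_order` (`f` is a bijection onto `{0, .., n-1}`, `n = card ι`), and let `P r` be `F` flipped at the lines `j` with
`f j < r` (`0 ≤ r ≤ n`). For the line `i` with `f i = r`, `exists_rotate` gives `Circ F' ((i, o i) :: l')`; by the walk condition `F'` agrees off `i` with `v i (o i)`, hence with
`P r` and with `P (r+1)`, which differ exactly at `i`; so `F'` is one of them and the rotation by one step (`rotate`) starts at the other one. Hence every `P r`, `0 ≤ r ≤ n`, is the starting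
cell of a circular list. `dep (P r)` changes by exactly one in each step and `dep (P 0) + dep (P n) = n = 2μ - 1`, so one of the two is `≤ μ-1` and the other `≥ μ`; by discrete
continuity some `P r` has depth `μ` or `μ - 1`.
-/

namespace PHP

open Finset

variable {ι κ : Type} [DecidableEq ι] [DecidableEq κ]

theorem SysBal_dep_update [Fintype ι] (X : ι → Bool) (i : ι) (b : Bool) :
    dep (Function.update X i b) ≤ dep X + 1 := by
  unfold dep
  refine (Finset.card_le_card (t := insert i (univ.filter (fun j => X j = true))) ?_).trans
    (Finset.card_insert_le _ _)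
  intro j hj
  rw [Finset.mem_filter] at hj
  rw [Finset.mem_insert, Finset.mem_filter]
  by_cases hji : j = i
  · exact Or.inl hji
  · right
    refine ⟨Finset.mem_univ j, ?_⟩
    have := hj.2
    rwa [Function.update_of_ne hji] at this

theorem SysBal_dep_update' [Fintype ι] (X : ι → Bool) (i : ι) (b : Bool) :
    dep X ≤ dep (Function.update X i b) + 1 := by
  have h := SysBal_dep_update (Function.update X i b) i (X i)
  rwa [Function.update_idem, Function.update_eq_self] at h

theorem SysBal_surj [Fintype ι] {f : ι → ℕ} (h1 : ∀ i, f i < Fintype.card ι)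
    (h2 : Function.Injective f) {r : ℕ} (hr : r < Fintype.card ι) : ∃ i, f i = r := by
  have h3 : Function.Bijective (fun i => (⟨f i, h1 i⟩ : Fin (Fintype.card ι))) := by
    rw [Fintype.bijective_iff_injective_and_card]
    refine ⟨fun i j hij => h2 (congrArg Fin.val hij), by simp⟩
  obtain ⟨i, hi⟩ := h3.2 ⟨r, hr⟩
  exact ⟨i, congrArg Fin.val hi⟩

/-- In a complete system with an odd number of lines some starting cell at infinity is balanced. -/
theorem Sys.Circ.exists_balanced [Fintype ι] {S : Sys ι} {F : ι → Bool} {l : List (ι × Bool)}
    (h : S.Circ F l) (hc : S.Complete) {μ : ℕ} (hμ : Fintype.card ι + 1 = 2 * μ) :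
    ∃ (F' : ι → Bool) (l' : List (ι × Bool)), S.Circ F' l' ∧ (dep F' = μ ∨ dep F' + 1 = μ) := by
  obtain ⟨f, o, hf1, hf2, hv, -, -⟩ := h.exists_order hc
  -- the cells `P r`
  set P : ℕ → ι → Bool := fun r i => xor (F i) (decide (f i < r)) with hP
  have step : ∀ i, P (f i + 1) = Function.update (P (f i)) i (!(P (f i) i)) := by
    intro i
    funext j
    by_cases hji : j = i
    · subst hji
      simp [hP]
    · rw [Function.update_of_ne hji]
      have hne : f j ≠ f i := fun hc => hji (hf2 hc)
      have hiff : (f j < f i + 1) ↔ (f j < f i) := by omega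
      simp only [hP, hiff]
  have step' : ∀ i, P (f i) = Function.update (P (f i + 1)) i (!(P (f i + 1) i)) := by
    intro i
    rw [step i, Function.update_idem, Function.update_self, Bool.not_not,
      Function.update_eq_self]
  have hcirc : ∀ r, r < Fintype.card ι →
      (∃ l', S.Circ (P r) l') ∧ (∃ l', S.Circ (P (r + 1)) l') := by
    intro r hr
    obtain ⟨i, rfl⟩ := SysBal_surj hf1 hf2 hr
    obtain ⟨F', l', hF'⟩ := h.exists_rotate (i, o i)
    have hw : ∀ j, j ≠ i → F' j = P (f i) j := by
      intro j hj
      have h1 := hF'.1.1 j hj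
      rw [h1]
      exact hv i j (Ne.symm hj)
    have hrot := hF'.rotate
    by_cases hFi : F' i = P (f i) i
    · have e1 : F' = P (f i) := by
        funext j
        by_cases hj : j = i
        · rw [hj, hFi]
        · exact hw j hj
      subst e1
      refine ⟨⟨_, hF'⟩, ⟨l' ++ [(i, o i)], ?_⟩⟩
      rw [step i]
      exact hrot
    · have hFi' : F' i = !(P (f i) i) := by
        revert hFi
        cases F' i <;> cases P (f i) i <;> simp
      have e1 : F' = P (f i + 1) := by
        rw [step i]
        funext j
        by_cases hj : j = i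
        · subst hj
          rw [Function.update_self, hFi']
        · rw [Function.update_of_ne hj]
          exact hw j hj
      subst e1
      refine ⟨⟨l' ++ [(i, o i)], ?_⟩, ⟨_, hF'⟩⟩
      rw [step' i]
      exact hrot
  have hcirc' : ∀ r, r ≤ Fintype.card ι → ∃ l', S.Circ (P r) l' := by
    intro r hr
    rcases Nat.lt_or_ge r (Fintype.card ι) with h1 | h1
    · exact (hcirc r h1).1
    · obtain ⟨m, rfl⟩ : ∃ m, r = m + 1 := ⟨r - 1, by omega⟩
      exact (hcirc m (by omega)).2
  have hup : ∀ r, r < Fintype.card ι → dep (P (r + 1)) ≤ dep (P r) + 1 := by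
    intro r hr
    obtain ⟨i, rfl⟩ := SysBal_surj hf1 hf2 hr
    rw [step i]
    exact SysBal_dep_update _ _ _
  have hdn : ∀ r, r < Fintype.card ι → dep (P r) ≤ dep (P (r + 1)) + 1 := by
    intro r hr
    obtain ⟨i, rfl⟩ := SysBal_surj hf1 hf2 hr
    rw [step i]
    exact SysBal_dep_update' _ _ _
  have hsum : dep (P 0) + dep (P (Fintype.card ι)) = Fintype.card ι := by
    have e1 : dep (P (Fintype.card ι)) = (univ.filter (fun i => ¬ (P 0 i = true))).card := by
      unfold dep
      congr 1
      refine Finset.filter_congr fun i _ => ?_
      simp [hP, hf1 i]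
    rw [e1]
    unfold dep
    rw [Finset.card_filter_add_card_filter_not, Finset.card_univ]
  by_contra hcon
  push Not at hcon
  have hne : ∀ r, r ≤ Fintype.card ι → dep (P r) ≠ μ ∧ dep (P r) + 1 ≠ μ := by
    intro r hr
    obtain ⟨l', hl'⟩ := hcirc' r hr
    exact hcon _ _ hl'
  rcases Nat.lt_or_ge (dep (P 0)) μ with h0 | h0
  · have hall : ∀ r, r ≤ Fintype.card ι → dep (P r) + 1 < μ := by
      intro r
      induction r with
      | zero =>
        intro hr
        have := hne 0 hr
        omega
      | succ r ih =>
        intro hr
        have h1 := ih (by omega)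
        have h2 := hup r (by omega)
        have h3 := hne (r + 1) hr
        omega
    have := hall _ le_rfl
    omega
  · have hall : ∀ r, r ≤ Fintype.card ι → μ < dep (P r) := by
      intro r
      induction r with
      | zero =>
        intro hr
        have := hne 0 hr
        omega
      | succ r ih =>
        intro hr
        have h1 := ih (by omega)
        have h2 := hdn r (by omega)
        have h3 := hne (r + 1) hr
        omega
    have := hall _ le_rfl
    omega

end PHP
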