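import Mathlib
import Pool.Agent.PHP.Defs

/-!
# Restriction and padding

PROOF of `comap`: `T' = {Y ∘ f | Y ∈ T}`, `cr' a b = cr (f a) (f b)`, `τ' a b = τ (f a) (f b)`, `v' a ε b = v (f a) ε (f b)`. `edge`: given `X` on `κ`, extend it to
`Y` on `ι` by `vecOf .. (f a) t` outside the range of `f` and apply `S.edge`. Circular list: `l' = l.filterMap (fun e => if e.1 = f a then (a, e.2))`
(`f` injective; write with a partial inverse). Walk: an entry not in the range of `f` does not change `F ∘ f`.

PROOF of `pad`: `T' = {o.elim false X | X ∈ T} ∪ {o.elim true F}`, `cr'` only between old lines, `v' none ε (some j) = F j`, `v' (some i) ε none = false`,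
`v' (some i) ε (some j) = v i ε j`, `v' none ε none = false`, `τ' (some i) (some j) = τ i j`, `τ' = 0` otherwise; `F' = o.elim false F`,
`l' = (none,false) :: (none,true) :: l.map (fun e => (some e.1, e.2))`. `edge` for `none`: the two cells are `elim false F`, `elim true F`.
`pair` for `none`, `some j`: only `elim true F` has value `true` at `none`, and there the value at `j` is `F j = v none true j`.
`triple` with `none`: the pattern `none = true`, `j = !(F j)` is missing.
-/

namespace PHP

open Finset

variable {ι κ : Type} [DecidableEq ι] [DecidableEq κ]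

omit [DecidableEq ι] [DecidableEq κ] in
private theorem sm_partialInv (f : κ ↪ ι) (x : κ) (y : ι) :
    Function.partialInv f y = some x ↔ f x = y :=
  f.injective.isPartialInv x y

/-- the restricted system -/
private noncomputable def smRes (S : Sys ι) (f : κ ↪ ι) : Sys κ where
  T := {X | ∃ Y ∈ S.T, X = Y ∘ f}
  cr a b := S.cr (f a) (f b)
  τ a b := S.τ (f a) (f b)
  v a ε b := S.v (f a) ε (f b)
  cr_symm h := S.cr_symm h
  cr_irrefl i := S.cr_irrefl (f i)
  τ_inj h1 h2 h := f.injective (S.τ_inj h1 h2 h)
  v_cr h := S.v_cr h
  v_ncr hij h := S.v_ncr (fun e => hij (f.injective e)) h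
  edge i t X hX := by
    refine ⟨Function.extend f X (vecOf S.cr S.τ S.v (f i) t), S.edge (f i) t _ fun k hk => ?_, ?_⟩
    · by_cases hb : ∃ b, f b = k
      · obtain ⟨b, rfl⟩ := hb
        rw [f.injective.extend_apply, hX b (fun e => hk (by rw [e]))]
        rfl
      · rw [Function.extend_apply' _ _ _ hb]
    · funext b
      rw [Function.comp_apply, f.injective.extend_apply]
  triple hij hjk hik := by
    obtain ⟨p, q, r, h⟩ := S.triple (fun e => hij (f.injective e))
      (fun e => hjk (f.injective e)) (fun e => hik (f.injective e))
    refine ⟨p, q, r, ?_⟩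
    rintro X ⟨Y, hY, rfl⟩
    exact h Y hY
  pair hij h := by
    rintro X ⟨Y, hY, rfl⟩
    exact S.pair (fun e => hij (f.injective e)) h Y hY

/-- the restricted list -/
private noncomputable def smL (f : κ ↪ ι) (e : ι × Bool) : Option (κ × Bool) :=
  (Function.partialInv f e.1).map (fun a => (a, e.2))

omit [DecidableEq ι] [DecidableEq κ] in
private theorem smL_some {f : κ ↪ ι} {e : ι × Bool} {e' : κ × Bool} :
    smL f e = some e' ↔ f e'.1 = e.1 ∧ e'.2 = e.2 := by
  unfold smL
  rw [Option.map_eq_some_iff]
  constructor
  · rintro ⟨a, ha, rfl⟩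
    exact ⟨(sm_partialInv f a e.1).1 ha, rfl⟩
  · rintro ⟨h1, h2⟩
    exact ⟨e'.1, (sm_partialInv f e'.1 e.1).2 h1, by rw [← h2]⟩

private theorem smRes_walk (S : Sys ι) (f : κ ↪ ι) (l : List (ι × Bool)) :
    ∀ F : ι → Bool, S.Walk F l → (smRes S f).Walk (F ∘ f) (l.filterMap (smL f)) := by
  induction l with
  | nil => intro F _; trivial
  | cons e l ih =>
    intro F h
    obtain ⟨h1, h2⟩ := h
    have h3 := ih _ h2
    rcases he : smL f e with _ | e'
    · rw [List.filterMap_cons_none he]
      have h4 : Function.update F e.1 (!(F e.1)) ∘ f = F ∘ f := by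
        funext b
        have hb : f b ≠ e.1 := by
          intro hb
          have := (smL_some (f := f) (e := e) (e' := (b, e.2))).2 ⟨hb, rfl⟩
          rw [he] at this
          exact absurd this (by simp)
        rw [Function.comp_apply, Function.update_of_ne hb, Function.comp_apply]
      rwa [h4] at h3
    · rw [List.filterMap_cons_some he]
      obtain ⟨h4, h5⟩ := smL_some.1 he
      refine ⟨fun b hb => ?_, ?_⟩
      · have := h1 (f b) (by rw [← h4]; exact fun e => hb (f.injective e))
        rw [Function.comp_apply, this]
        change S.v e.1 e.2 (f b) = S.v (f e'.1) e'.2 (f b)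
        rw [h4, h5]
      · have h6 : Function.update F e.1 (!(F e.1)) ∘ f =
            Function.update (F ∘ f) e'.1 (!((F ∘ f) e'.1)) := by
          rw [← h4]
          exact Function.update_comp_eq_of_injective F f.injective e'.1 _
        rwa [h6] at h3

/-- Restriction to a subset of the lines. -/
theorem Sys.Circ.comap {S : Sys ι} {F : ι → Bool} {l : List (ι × Bool)}
    (h : S.Circ F l) (f : κ ↪ ι) :
    ∃ (S' : Sys κ) (l' : List (κ × Bool)),
      S'.Circ (F ∘ f) l' ∧ (∀ X, X ∈ S'.T ↔ ∃ Y ∈ S.T, X = Y ∘ f) ∧
      (∀ a b, S'.cr a b ↔ S.cr (f a) (f b)) := by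
  obtain ⟨h1, h2, h3⟩ := h
  refine ⟨smRes S f, l.filterMap (smL f), ⟨smRes_walk S f l F h1, ?_, ?_⟩, fun X => Iff.rfl,
    fun a b => Iff.rfl⟩
  · refine List.Nodup.filterMap (fun a a' b hb hb' => ?_) h2
    obtain ⟨g1, g2⟩ := smL_some.1 (Option.mem_def.1 hb)
    obtain ⟨g3, g4⟩ := smL_some.1 (Option.mem_def.1 hb')
    exact Prod.ext (g1.symm.trans g3) (g2.symm.trans g4)
  · rintro ⟨a, ε⟩
    rw [List.mem_filterMap]
    exact ⟨(f a, ε), h3 _, smL_some.2 ⟨rfl, rfl⟩⟩

private def smCr (S : Sys ι) : Option ι → Option ι → Prop
  | some i, some j => S.cr i j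
  | _, _ => False

private def smTau (S : Sys ι) : Option ι → Option ι → ℝ
  | some i, some j => S.τ i j
  | _, _ => 0

private def smV (S : Sys ι) (F : ι → Bool) : Option ι → Bool → Option ι → Bool
  | some i, ε, some j => S.v i ε j
  | none, _, some j => F j
  | _, _, none => false

omit [DecidableEq ι] in
private theorem sm_elim_mem {S : Sys ι} {F : ι → Bool} (hF : F ∈ S.T) {X : Option ι → Bool}
    (hX : (∃ Y ∈ S.T, X = fun o => o.elim false Y) ∨ X = fun o => o.elim true F) :
    (fun i => X (some i)) ∈ S.T := by
  rcases hX with ⟨Y, hY, rfl⟩ | rfl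
  · exact hY
  · exact hF

omit [DecidableEq ι] in
private theorem sm_elim_none {S : Sys ι} {F : ι → Bool} {X : Option ι → Bool}
    (hX : (∃ Y ∈ S.T, X = fun o => o.elim false Y) ∨ X = fun o => o.elim true F)
    (h : X none = true) (j : ι) : X (some j) = F j := by
  rcases hX with ⟨Y, hY, rfl⟩ | rfl
  · exact absurd h (by simp)
  · rfl

/-- the system with one more line -/
private noncomputable def smPad (S : Sys ι) (F : ι → Bool) (hF : F ∈ S.T) : Sys (Option ι) where
  T := {X | (∃ Y ∈ S.T, X = fun o => o.elim false Y) ∨ X = fun o => o.elim true F}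
  cr := smCr S
  τ := smTau S
  v := smV S F
  cr_symm := by
    rintro (_ | i) (_ | j) h
    · exact h
    · exact h
    · exact h
    · exact S.cr_symm h
  cr_irrefl := by
    rintro (_ | i) h
    · exact h
    · exact S.cr_irrefl i h
  τ_inj := by
    rintro (_ | i) (_ | j) (_ | k) h1 h2 h
    all_goals first | exact absurd h1 id | exact absurd h2 id | skip
    exact congrArg some (S.τ_inj h1 h2 h)
  v_cr := by
    rintro (_ | i) (_ | j) h
    all_goals first | exact absurd h id | skip
    exact S.v_cr h
  v_ncr := by
    rintro (_ | i) (_ | j) hij h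
    · rfl
    · rfl
    · rfl
    · exact S.v_ncr (fun e => hij (congrArg some e)) h
  edge := by
    rintro (_ | i) t X hX
    · have h1 : ∀ k : ι, X (some k) = F k := by
        intro k
        rw [hX (some k) (by simp)]
        unfold vecOf
        split_ifs <;> rfl
      rcases h : X none with _ | _
      · left
        refine ⟨F, hF, ?_⟩
        funext o
        rcases o with _ | k
        · exact h
        · exact h1 k
      · right
        funext o
        rcases o with _ | k
        · exact h
        · exact h1 k
    · left
      refine ⟨fun k => X (some k), S.edge i t _ fun k hk => ?_, ?_⟩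
      · rw [hX (some k) (fun e => hk (Option.some.inj e))]
        rfl
      · funext o
        rcases o with _ | k
        · rw [hX none (by simp)]
          unfold vecOf
          split_ifs <;> rfl
        · rfl
  triple := by
    rintro (_ | i) (_ | j) (_ | k) hij hjk hik
    · exact absurd rfl hij
    · exact absurd rfl hij
    · exact absurd rfl hik
    · refine ⟨true, !(F j), true, fun X hX h => ?_⟩
      have := sm_elim_none hX h.1 j
      rw [h.2.1] at this
      cases hj : F j <;> simp [hj] at this
    · exact absurd rfl hjk
    · refine ⟨!(F i), true, true, fun X hX h => ?_⟩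
      have := sm_elim_none hX h.2.1 i
      rw [h.1] at this
      cases hj : F i <;> simp [hj] at this
    · refine ⟨!(F i), true, true, fun X hX h => ?_⟩
      have := sm_elim_none hX h.2.2 i
      rw [h.1] at this
      cases hj : F i <;> simp [hj] at this
    · obtain ⟨p, q, r, h⟩ := S.triple (fun e => hij (congrArg some e))
        (fun e => hjk (congrArg some e)) (fun e => hik (congrArg some e))
      exact ⟨p, q, r, fun X hX => h _ (sm_elim_mem hF hX)⟩
  pair := by
    rintro (_ | i) (_ | j) hij hcr X hX h
    · exact absurd rfl hij
    · have h1 : X none = true := h.1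
      have h2 : X (some j) = !(F j) := h.2
      rw [sm_elim_none hX h1 j] at h2
      cases hj : F j <;> simp [hj] at h2
    · have h1 : X none = true := h.2
      have h2 : X (some i) = !(F i) := h.1
      rw [sm_elim_none hX h1 i] at h2
      cases hj : F i <;> simp [hj] at h2
    · exact S.pair (fun e => hij (congrArg some e)) hcr _ (sm_elim_mem hF hX) h

private theorem smPad_walk (S : Sys ι) (F₀ : ι → Bool) (hF : F₀ ∈ S.T) (l : List (ι × Bool)) :
    ∀ F : ι → Bool, S.Walk F l →
      (smPad S F₀ hF).Walk (fun o => o.elim false F) (l.map (fun e => (some e.1, e.2))) := by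
  induction l with
  | nil => intro F _; trivial
  | cons e l ih =>
    intro F h
    obtain ⟨h1, h2⟩ := h
    have h3 := ih _ h2
    rw [List.map_cons]
    refine ⟨?_, ?_⟩
    · rintro (_ | k) hk
      · rfl
      · exact h1 k (fun e => hk (congrArg some e))
    · have h4 : (fun o : Option ι => o.elim false (Function.update F e.1 (!(F e.1)))) =
          Function.update (fun o : Option ι => o.elim false F) (some e.1) (!(F e.1)) := by
        funext o
        rcases o with _ | k
        · rw [Function.update_of_ne (by simp)]
          rfl
        · by_cases hk : k = e.1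
          · subst hk
            rw [Function.update_self]
            simp
          · rw [Function.update_of_ne (fun h => hk (Option.some.inj h))]
            simp [Function.update_of_ne hk]
      rw [h4] at h3
      exact h3

/-- Adding a new line (`none`) that meets no other line and contains no old cell. -/
theorem Sys.Circ.pad {S : Sys ι} {F : ι → Bool} {l : List (ι × Bool)}
    (h : S.Circ F l) (hF : F ∈ S.T) :
    ∃ (S' : Sys (Option ι)) (F' : Option ι → Bool) (l' : List (Option ι × Bool)),
      S'.Circ F' l' ∧ ∀ X ∈ S.T, (fun o => o.elim false X) ∈ S'.T := by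
  obtain ⟨h1, h2, h3⟩ := h
  refine ⟨smPad S F hF, fun o => o.elim false F,
    (none, false) :: (none, true) :: l.map (fun e => (some e.1, e.2)), ⟨?_, ?_, ?_⟩,
    fun X hX => Or.inl ⟨X, hX, rfl⟩⟩
  · refine ⟨?_, ?_, ?_⟩
    · rintro (_ | k) hk
      · exact absurd rfl hk
      · rfl
    · rintro (_ | k) hk
      · exact absurd rfl hk
      · rw [Function.update_of_ne hk]
        rfl
    · have h4 : Function.update (Function.update (fun o : Option ι => o.elim false F) none
          (!((fun o : Option ι => o.elim false F) none))) none
          (!(Function.update (fun o : Option ι => o.elim false F) none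
          (!((fun o : Option ι => o.elim false F) none)) none)) =
          (fun o : Option ι => o.elim false F) := by
        funext o
        rcases o with _ | k
        · simp
        · simp
      change (smPad S F hF).Walk (Function.update (Function.update
        (fun o : Option ι => o.elim false F) none
          (!((fun o : Option ι => o.elim false F) none))) none
          (!(Function.update (fun o : Option ι => o.elim false F) none
          (!((fun o : Option ι => o.elim false F) none)) none))) _
      rw [h4]
      exact smPad_walk S F hF l F h1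
  · rw [List.nodup_cons, List.nodup_cons]
    refine ⟨?_, ?_, ?_⟩
    · simp
    · simp
    · refine List.Nodup.map (fun a b hab => ?_) h2
      have h4 := congrArg Prod.fst hab
      have h5 := congrArg Prod.snd hab
      exact Prod.ext (Option.some.inj h4) h5
  · rintro ⟨_ | i, ε⟩
    · cases ε <;> simp
    · rw [List.mem_cons, List.mem_cons]
      right
      right
      exact List.mem_map.2 ⟨(i, ε), h3 _, rfl⟩

end PHP
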