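import Mathlib
import Pool.Agent.PHP.Defs
import Pool.Agent.PHP.SweepBasic

/-!
# Continue a sweep periodically

`pos' t i = W.pos (t % N) i` if `t / N` is even and `card ι - 1 - W.pos (t % N) i` if `t / N` is odd (`N = W.N`; if `N = 0` then `card ι ≤ 1` and everything is trivial; treat it
separately, e.g. constant). At `t % N = N - 1 → 0` the step is the step `N-1 → N` of `W` because `pos N i = card ι - 1 - pos 0 i`.
`once`: in the first half turn a pair swapped at step `s` was in its initial order before and stays in the reversed order up to time `N` (every step of `W` only swaps pairs in initial order);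
then for `r = N + r'`, `r' ≤ s`, the order is the reverse of the order at `r'`, which is the initial order. Do the case distinction on the parity of `s / N` by symmetry.
-/

set_option linter.unusedSectionVars false

namespace PHP

open Finset

variable {ι : Type} [Fintype ι] [DecidableEq ι]

/-- the periodic continuation -/
def periodicPos (W : Sweep ι) (t : ℕ) (i : ι) : ℕ :=
  if (t / W.N) % 2 = 0 then W.pos (t % W.N) i else Fintype.card ι - 1 - W.pos (t % W.N) i

theorem periodicPos_eq (W : Sweep ι) (hN : 0 < W.N) (q r : ℕ) (hr : r ≤ W.N) (i : ι) :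
    periodicPos W (W.N * q + r) i =
      if q % 2 = 0 then W.pos r i else Fintype.card ι - 1 - W.pos r i := by
  have hrev := W.rev i
  have h0 := W.lt 0 i
  have hNn := W.lt W.N i
  rcases Nat.lt_or_ge r W.N with h | h
  · unfold periodicPos
    have h1 : (W.N * q + r) / W.N = q := by
      rw [Nat.mul_add_div hN, Nat.div_eq_of_lt h, add_zero]
    have h2 : (W.N * q + r) % W.N = r := by
      rw [Nat.mul_add_mod, Nat.mod_eq_of_lt h]
    rw [h1, h2]
  · have hrN : r = W.N := le_antisymm hr h
    subst hrN
    unfold periodicPos
    have h1 : (W.N * q + W.N) / W.N = q + 1 := by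
      rw [Nat.mul_add_div hN, Nat.div_self hN]
    have h2 : (W.N * q + W.N) % W.N = 0 := by
      rw [Nat.mul_add_mod, Nat.mod_self]
    rw [h1, h2]
    by_cases hq : q % 2 = 0
    · rw [if_neg (by omega), if_pos hq]; omega
    · rw [if_pos (by omega), if_neg hq]; omega

theorem sweep_once (W : Sweep ι) {x y : ι} {s : ℕ} (h1 : W.pos s x < W.pos s y)
    (h2 : W.pos (s + 1) y < W.pos (s + 1) x) :
    (∀ r, r ≤ s → W.pos r x < W.pos r y) ∧ (∀ r, s < r → W.pos r y < W.pos r x) := by
  have hxy : x ≠ y := by
    rintro rfl
    exact lt_irrefl _ h1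
  rcases lt_trichotomy (W.pos 0 x) (W.pos 0 y) with h | h | h
  · obtain ⟨t, -, ha, hb⟩ := W.exists_swap_time h
    have hst : t = s := by
      have h3 : ¬ t < s := fun hc => absurd (hb s hc) (by omega)
      have h4 : ¬ s + 1 ≤ t := fun hc => absurd (ha (s + 1) hc) (by omega)
      omega
    subst hst
    exact ⟨ha, hb⟩
  · exact absurd (W.inj 0 h) hxy
  · obtain ⟨t, -, ha, hb⟩ := W.exists_swap_time h
    exfalso
    have h3 : ¬ s ≤ t := fun hc => absurd (ha s hc) (by omega)
    have h4 := hb (s + 1) (by omega)
    omega

/-- Continue a sweep periodically (second half turn: reversed words). -/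
theorem Sweep.exists_psweep (W : Sweep ι) :
    ∃ W' : PSweep ι, W'.N = W.N ∧ ∀ s, s ≤ W.N → W'.pos s = W.pos s := by
  rcases Nat.eq_zero_or_pos W.N with hN0 | hN
  · refine ⟨{ N := W.N
              pos := fun _ => W.pos 0
              lt := fun _ i => W.lt 0 i
              inj := fun _ => W.inj 0
              step := fun _ => Or.inl rfl
              anti := fun _ i => by
                have := W.rev i
                rw [hN0] at this
                exact this
              once := fun s x y _ _ r h1 h2 => by
                rw [hN0] at h2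
                omega }, rfl, fun s hs => ?_⟩
    have : s = 0 := by omega
    subst this
    rfl
  have hdec : ∀ s : ℕ, ∃ q r, s = W.N * q + r ∧ r < W.N := fun s =>
    ⟨s / W.N, s % W.N, (Nat.div_add_mod s W.N).symm, Nat.mod_lt _ hN⟩
  refine ⟨{ N := W.N
            pos := periodicPos W
            lt := ?_
            inj := ?_
            step := ?_
            anti := ?_
            once := ?_ }, rfl, fun s hs => ?_⟩
  · intro s i
    obtain ⟨q, r, rfl, hr⟩ := hdec s
    rw [periodicPos_eq W hN q r hr.le]
    have := W.lt r i
    split_ifs <;> omega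
  · intro s i j hij
    obtain ⟨q, r, rfl, hr⟩ := hdec s
    rw [periodicPos_eq W hN q r hr.le, periodicPos_eq W hN q r hr.le] at hij
    have h1 := W.lt r i
    have h2 := W.lt r j
    apply W.inj r
    split_ifs at hij <;> omega
  · intro s
    obtain ⟨q, r, rfl, hr⟩ := hdec s
    have e1 : ∀ i, periodicPos W (W.N * q + r) i =
      if q % 2 = 0 then W.pos r i else Fintype.card ι - 1 - W.pos r i :=
      periodicPos_eq W hN q r hr.le
    have e2 : ∀ i, periodicPos W (W.N * q + r + 1) i =
      if q % 2 = 0 then W.pos (r + 1) i else Fintype.card ι - 1 - W.pos (r + 1) i := by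
      intro i
      rw [add_assoc]
      exact periodicPos_eq W hN q (r + 1) hr i
    rcases W.step r with h | ⟨x, y, hxy, -, h1, h2, h3⟩
    · left
      funext i
      rw [e1, e2, h]
    · right
      by_cases hq : q % 2 = 0
      · refine ⟨x, y, ?_, ?_, ?_, fun z hzx hzy => ?_⟩
        · rw [e1, e1, if_pos hq, if_pos hq]; exact hxy
        · rw [e2, e1, if_pos hq, if_pos hq]; exact h1
        · rw [e2, e1, if_pos hq, if_pos hq]; exact h2
        · rw [e2, e1, if_pos hq, if_pos hq]; exact h3 z hzx hzy
      · have h4 := W.lt r x
        have h5 := W.lt r y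
        refine ⟨y, x, ?_, ?_, ?_, fun z hzy hzx => ?_⟩
        · rw [e1, e1, if_neg hq, if_neg hq]; omega
        · rw [e2, e1, if_neg hq, if_neg hq]; omega
        · rw [e2, e1, if_neg hq, if_neg hq]; omega
        · rw [e2, e1, if_neg hq, if_neg hq, h3 z hzx hzy]
  · intro s i
    obtain ⟨q, r, rfl, hr⟩ := hdec s
    have e2 : periodicPos W (W.N * q + r + W.N) i =
      if (q + 1) % 2 = 0 then W.pos r i else Fintype.card ι - 1 - W.pos r i := by
      have : W.N * q + r + W.N = W.N * (q + 1) + r := by ring
      rw [this]
      exact periodicPos_eq W hN (q + 1) r hr.le i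
    rw [e2, periodicPos_eq W hN q r hr.le]
    have := W.lt r i
    by_cases hq : q % 2 = 0
    · rw [if_neg (by omega), if_pos hq]; omega
    · rw [if_pos (by omega), if_neg hq]; omega
  · intro s x y h1 h2 t hst hts
    obtain ⟨q, r, rfl, hr⟩ := hdec s
    have e1 : ∀ i, periodicPos W (W.N * q + r) i =
      if q % 2 = 0 then W.pos r i else Fintype.card ι - 1 - W.pos r i :=
      periodicPos_eq W hN q r hr.le
    have e2 : ∀ i, periodicPos W (W.N * q + r + 1) i =
      if q % 2 = 0 then W.pos (r + 1) i else Fintype.card ι - 1 - W.pos (r + 1) i := by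
      intro i
      rw [add_assoc]
      exact periodicPos_eq W hN q (r + 1) hr i
    rw [e1, e1] at h1
    rw [e2, e2] at h2
    by_cases hq : q % 2 = 0
    · rw [if_pos hq, if_pos hq] at h1 h2
      obtain ⟨ha, hb⟩ := sweep_once W h1 h2
      by_cases hc : t ≤ W.N * q + W.N
      · obtain ⟨r', hr'⟩ : ∃ r', t = W.N * q + r' := ⟨t - W.N * q, by omega⟩
        subst hr'
        rw [periodicPos_eq W hN q r' (by omega), periodicPos_eq W hN q r' (by omega), if_pos hq,
          if_pos hq]
        exact hb r' (by omega)
      · obtain ⟨r', hr'⟩ : ∃ r', t = W.N * (q + 1) + r' :=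
          ⟨t - W.N * (q + 1), by rw [Nat.mul_add, Nat.mul_one]; omega⟩
        subst hr'
        rw [Nat.mul_add, Nat.mul_one] at hts
        rw [periodicPos_eq W hN (q + 1) r' (by omega), periodicPos_eq W hN (q + 1) r' (by omega),
          if_neg (by omega), if_neg (by omega)]
        have h3 := ha r' (by omega)
        have h4 := W.lt r' y
        omega
    · rw [if_neg hq, if_neg hq] at h1 h2
      have hx0 := W.lt r x
      have hy0 := W.lt r y
      have hx1 := W.lt (r + 1) x
      have hy1 := W.lt (r + 1) y
      obtain ⟨ha, hb⟩ := sweep_once W (x := y) (y := x) (s := r) (by omega) (by omega)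
      by_cases hc : t ≤ W.N * q + W.N
      · obtain ⟨r', hr'⟩ : ∃ r', t = W.N * q + r' := ⟨t - W.N * q, by omega⟩
        subst hr'
        rw [periodicPos_eq W hN q r' (by omega), periodicPos_eq W hN q r' (by omega), if_neg hq,
          if_neg hq]
        have h3 := hb r' (by omega)
        have h4 := W.lt r' y
        omega
      · obtain ⟨r', hr'⟩ : ∃ r', t = W.N * (q + 1) + r' :=
          ⟨t - W.N * (q + 1), by rw [Nat.mul_add, Nat.mul_one]; omega⟩
        subst hr'
        rw [Nat.mul_add, Nat.mul_one] at hts
        rw [periodicPos_eq W hN (q + 1) r' (by omega), periodicPos_eq W hN (q + 1) r' (by omega),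
          if_pos (by omega), if_pos (by omega)]
        exact ha r' (by omega)
  · funext i
    have := periodicPos_eq W hN 0 s hs i
    rw [mul_zero, zero_add] at this
    show periodicPos W s i = W.pos s i
    rw [this, if_pos rfl]

end PHP
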