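import Mathlib
import Pool.Agent.PHP.Defs

/-!
# The majority triple (potential argument)

NOTATION. `U` letters: `F i = false`, `D` letters: `F i = true`. `h0 = dep F - μ ∈ {0, -1}` (integers). `lev s p = h0 + #{U : pos < p} - #{D : pos < p}`; then
`dep (cell s p) = μ + lev s p` (`F`-flipped at the letters before `p`). `n = card ι = 2μ - 1`. `lev (s+N) (n-p) = -1 - lev s p`.
`u s x = #{U z : pos s z ≤ pos s x}`, `e s y = #{D z : pos s z < pos s y}`, `A s x y = h0 + u s x - e s y`; `active s x y`: `x` a U, `y` a D, `pos s x < pos s y`, `1 ≤ A s x y`.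
FACT 1: if `active s x y` and `pos s x < p ≤ pos s y` then `lev s p ≥ A s x y ≥ 1`.
FACT 2 (run): if `x, y` are swapped at step `s` (`x` before `y` at `s`, after at `s+1`) then `x` is before `y` at all times in `(s-N, s]` (if `≥ 0`), `y` before `x` on `(s, s+N]`, and if they were swapped back at step
`t < s`, `y` before `x` at `t`, with no swap in between, then `s = t + N`. (From `once` and `anti`.) Period: `pos (s + 2N) = pos s`.
ASSUME there is no good triple. Define
`Z0 s x y`: `∃ t < s, ¬ (pos t x < pos t y) ∧ ∀ s', t < s' → s' ≤ s → active s' x y`;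
`Z1 s x y`: `(∃ c t, t < s, c a U, c ≠ x, Z0 t c y, pos t x < pos t y, ∀ s' ∈ (t, s], active s' x y) ∨ (∃ q t, t < s, q a D, q ≠ y, Z0 t x q, pos t x < pos t y, ∀ s' ∈ (t, s], active s' x y)`.
`φ s x y = 0` if not active, `1` if `Z0`, `0` if `Z1` (and not `Z0`), `-1` otherwise. `B s = ∑ φ s x y` (all pairs); `|B s| ≤ n²`.
CLAIM 1: if `x` (U), `y` (D) are swapped at step `s` from `x y` to `y x` and `active s x y` then neither `Z0 s x y` nor `Z1 s x y` (so `φ = -1`). `Z0`: birth at `t` (last `t` with `y` before `x`), then `s = t + N`; every cell `(s', p)` containing `x` and `y` has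
`pos s' x < p ≤ pos s' y`; shift `s'` by multiples of `2N` into `(t, t+2N]`; it must lie in `(t, s]` (otherwise `y` is before `x`), so it is active and `dep ≥ μ+1`: `x, y` and any third element is a good triple.
`Z1` with `c`, time `t₁`, and birth time `t` of `(c, y)` (swap at step `t`, active on `(t, t₁]`): let the cell `(s', p)` contain `x, c, y`; shift `s'` into `(t, t + 2N]`; `c` before `y` at `s'` gives `s' ∈ (t, t+N]`; `x` before `y` on `(t₁, s]` and at `t₁`, and `y` before `x` on `(s, s+N]`;
`t + N ≤ t₁ + N ≤ s + N`, so `s' ∈ (s, t+N]` is impossible, `s' ≤ s`. If `s' ≤ t₁`: `(c, y)` is active at `s'`, `pos c < p ≤ pos y`, so `lev ≥ 1`. If `s' > t₁`: `(x, y)` is active. So `{x, c, y}` is good: contradiction. The other case is the mirror image.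
CLAIM 2: for a step `s` exchanging the adjacent letters `l` (left) and `r` (right), let `a` be the level of the two mixed cells: `a = lev s (pos s l)` (level before both) if the types differ and `a = lev s (pos s l + 1)` (between) if the types agree.
Then `B (s+1) - B s ≥ δ s` where `δ s = 1` if the types differ and `a ≥ 0`, `-1` if the types agree and `a ≥ 0`, `0` if `a < 0`. (Idle steps: `δ = 0`, `B` does not decrease.) General: if a pair is active at `s` and `s+1` then `φ` does not decrease (`Z0`, `Z1` persist).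
 `U U`, `l = x`, `r = c`: `u` of `x` goes up by one, `u` of `c` goes down by one, all other `u`, all `e` and the order of unlike pairs are unchanged. The only pair that can become inactive is `(c, y*)` with `A s c y* = 1`, i.e. `e y* = h0 + u s c - 1`
 (unique `y*`); it exists only if `a ≥ 0` (FACT 1 at the cell after `c`, whose level is `a+1`); then `(x, y*)` has `A s x y* = 0` and is inactive at `s` and active at `s+1`; `φ (s+1) x y* ≥ φ s c y* - 1` (if `Z0 s c y*` then `Z1 (s+1) x y*` with `t = s`). 
 `D D`: mirror image. `D U → U D` (`l = y` a D, `r = x` a U): `A` is unchanged for all pairs, only the order of `(x, y)` changes; `A (x,y) = a + 1`; if `a ≥ 0` it becomes active with `Z0` (`t = s`), `φ = 1`. 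
 `U D → D U`: only `(x, y)` changes; `A = a + 1`; if `a ≥ 0` it was active with `φ = -1` by CLAIM 1, and becomes inactive: `B` goes up by one.
CLAIM 3: `∑_{s < 2N} δ (s₀ + s) = #U·#D·... = μ - 1 ≥ 1`: the steps `s` and `s + N` exchange the same letters and their `a`'s are `a` and `-1-a`, so `δ s + δ (s+N) = ±1` (`+1` iff the types differ, `0` for idle steps); in `N` consecutive steps each pair of letters is exchanged exactly once,
so the sum is `#{unlike pairs} - #{like pairs} = μ(μ-1) - [μ(μ-1)/2 + (μ-1)(μ-2)/2] = μ - 1`. (Counting: by induction on `r ≤ N` the number of unlike exchanges in the steps `0..r-1` is the number of pairs (U, D) whose order at time `r` differs from that at time `0`; the same for like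
pairs; at time `N` all orders are reversed by `anti`.)
END: `B (2Nk) ≥ B 0 + k (μ-1)` for all `k`, but `|B| ≤ n²`: contradiction for `k = 2n²+1`.
-/

namespace PHP

open Finset

set_option linter.unusedSectionVars false

namespace Tri

variable {ι : Type} [Fintype ι] [DecidableEq ι]

/-- number of U letters before position `p` -/
def cu (W : PSweep ι) (F : ι → Bool) (s p : ℕ) : ℤ :=
  ∑ z, if F z = false ∧ W.pos s z < p then (1 : ℤ) else 0

/-- number of D letters before position `p` -/
def cd (W : PSweep ι) (F : ι → Bool) (s p : ℕ) : ℤ :=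
  ∑ z, if F z = true ∧ W.pos s z < p then (1 : ℤ) else 0

def lev (W : PSweep ι) (F : ι → Bool) (h : ℤ) (s p : ℕ) : ℤ := h + cu W F s p - cd W F s p

def A (W : PSweep ι) (F : ι → Bool) (h : ℤ) (s : ℕ) (x y : ι) : ℤ :=
  h + cu W F s (W.pos s x + 1) - cd W F s (W.pos s y)

def act (W : PSweep ι) (F : ι → Bool) (h : ℤ) (s : ℕ) (x y : ι) : Prop :=
  F x = false ∧ F y = true ∧ W.pos s x < W.pos s y ∧ 1 ≤ A W F h s x y

def Z0 (W : PSweep ι) (F : ι → Bool) (h : ℤ) (s : ℕ) (x y : ι) : Prop :=
  ∃ t < s, ¬ (W.pos t x < W.pos t y) ∧ ∀ s', t < s' → s' ≤ s → act W F h s' x y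

def Z1 (W : PSweep ι) (F : ι → Bool) (h : ℤ) (s : ℕ) (x y : ι) : Prop :=
  (∃ c, ∃ t < s, F c = false ∧ c ≠ x ∧ Z0 W F h t c y ∧
    ∀ s', t < s' → s' ≤ s → act W F h s' x y) ∨
  (∃ c, ∃ t < s, F c = true ∧ c ≠ y ∧ Z0 W F h t x c ∧
    ∀ s', t < s' → s' ≤ s → act W F h s' x y)

open Classical in
noncomputable def φ (W : PSweep ι) (F : ι → Bool) (h : ℤ) (s : ℕ) (x y : ι) : ℤ :=
  if act W F h s x y then (if Z0 W F h s x y then 1 else if Z1 W F h s x y then 0 else -1) else 0

noncomputable def B (W : PSweep ι) (F : ι → Bool) (h : ℤ) (s : ℕ) : ℤ :=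
  ∑ x, ∑ y, φ W F h s x y

structure IsSwap (W : PSweep ι) (s : ℕ) (x y : ι) : Prop where
  h1 : W.pos s y = W.pos s x + 1
  h2 : W.pos (s+1) x = W.pos s y
  h3 : W.pos (s+1) y = W.pos s x
  h4 : ∀ z, z ≠ x → z ≠ y → W.pos (s+1) z = W.pos s z

variable {W : PSweep ι} {F : ι → Bool} {h : ℤ}

theorem IsSwap.ne {s : ℕ} {x y : ι} (hs : IsSwap W s x y) : x ≠ y := by
  rintro rfl; have := hs.h1; omega

theorem cu_mono {s p p' : ℕ} (hp : p ≤ p') : cu W F s p ≤ cu W F s p' := by
  unfold cu
  apply Finset.sum_le_sum
  intro z _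
  split_ifs with h1 h2 h2
  · exact le_refl _
  · exact absurd ⟨h1.1, lt_of_lt_of_le h1.2 hp⟩ h2
  · norm_num
  · exact le_refl _

theorem cd_mono {s p p' : ℕ} (hp : p ≤ p') : cd W F s p ≤ cd W F s p' := by
  unfold cd
  apply Finset.sum_le_sum
  intro z _
  split_ifs with h1 h2 h2
  · exact le_refl _
  · exact absurd ⟨h1.1, lt_of_lt_of_le h1.2 hp⟩ h2
  · norm_num
  · exact le_refl _

theorem cu_succ {s q : ℕ} {x : ι} (hx : W.pos s x = q) :
    cu W F s (q+1) = cu W F s q + if F x = false then 1 else 0 := by
  unfold cu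
  rw [show (if F x = false then (1:ℤ) else 0) =
    ∑ z, if z = x then (if F x = false then (1:ℤ) else 0) else 0 by simp]
  rw [← Finset.sum_add_distrib]
  apply Finset.sum_congr rfl
  intro z _
  by_cases hz : z = x
  · subst hz
    simp [hx]
  · have : W.pos s z ≠ q := fun h => hz (W.inj s (by rw [h, hx]))
    have h2 : W.pos s z < q + 1 ↔ W.pos s z < q := by omega
    simp [hz, h2]

theorem cd_succ {s q : ℕ} {x : ι} (hx : W.pos s x = q) :
    cd W F s (q+1) = cd W F s q + if F x = true then 1 else 0 := by
  unfold cd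
  rw [show (if F x = true then (1:ℤ) else 0) =
    ∑ z, if z = x then (if F x = true then (1:ℤ) else 0) else 0 by simp]
  rw [← Finset.sum_add_distrib]
  apply Finset.sum_congr rfl
  intro z _
  by_cases hz : z = x
  · subst hz
    simp [hx]
  · have : W.pos s z ≠ q := fun h => hz (W.inj s (by rw [h, hx]))
    have h2 : W.pos s z < q + 1 ↔ W.pos s z < q := by omega
    simp [hz, h2]

theorem IsSwap.lt_iff {s : ℕ} {x y : ι} (hs : IsSwap W s x y) {p : ℕ} (hp : p ≠ W.pos s x + 1)
    (z : ι) : W.pos (s+1) z < p ↔ W.pos s z < p := by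
  have h1 := hs.h1; have h2 := hs.h2; have h3 := hs.h3
  by_cases hzx : z = x
  · subst hzx; omega
  · by_cases hzy : z = y
    · subst hzy; omega
    · rw [hs.h4 z hzx hzy]

theorem IsSwap.cu_eq {s : ℕ} {x y : ι} (hs : IsSwap W s x y) {p : ℕ} (hp : p ≠ W.pos s x + 1) :
    cu W F (s+1) p = cu W F s p := by
  unfold cu
  apply Finset.sum_congr rfl
  intro z _
  simp only [hs.lt_iff hp z]

theorem IsSwap.cd_eq {s : ℕ} {x y : ι} (hs : IsSwap W s x y) {p : ℕ} (hp : p ≠ W.pos s x + 1) :
    cd W F (s+1) p = cd W F s p := by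
  unfold cd
  apply Finset.sum_congr rfl
  intro z _
  simp only [hs.lt_iff hp z]

/-- rank of a letter not involved in the swap -/
theorem IsSwap.u_eq {s : ℕ} {x y : ι} (hs : IsSwap W s x y) {z : ι} (hx : z ≠ x) (hy : z ≠ y) :
    cu W F (s+1) (W.pos (s+1) z + 1) = cu W F s (W.pos s z + 1) := by
  rw [hs.h4 z hx hy]
  apply hs.cu_eq
  intro h; exact hx (W.inj s (by omega))

theorem IsSwap.e_eq {s : ℕ} {x y : ι} (hs : IsSwap W s x y) {z : ι} (hx : z ≠ x) (hy : z ≠ y) :
    cd W F (s+1) (W.pos (s+1) z) = cd W F s (W.pos s z) := by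
  rw [hs.h4 z hx hy]
  apply hs.cd_eq
  intro h; exact hy (W.inj s (by rw [h, hs.h1]))

theorem IsSwap.ord {s : ℕ} {x y : ι} (hs : IsSwap W s x y) {a b : ι} (h1 : ¬ (a = x ∧ b = y))
    (h2 : ¬ (a = y ∧ b = x)) : W.pos (s+1) a < W.pos (s+1) b ↔ W.pos s a < W.pos s b := by
  have e1 := hs.h1; have e2 := hs.h2; have e3 := hs.h3
  have key : ∀ c, c ≠ x → c ≠ y → W.pos (s+1) c = W.pos s c ∧ W.pos s c ≠ W.pos s x ∧
      W.pos s c ≠ W.pos s y := fun c hc hc' =>
    ⟨hs.h4 c hc hc', fun h => hc (W.inj s h), fun h => hc' (W.inj s h)⟩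
  by_cases hax : a = x
  · subst hax
    by_cases hba : b = a
    · subst hba; simp
    · have hby : b ≠ y := fun h => h1 ⟨rfl, h⟩
      obtain ⟨k1, k2, k3⟩ := key b hba hby
      omega
  · by_cases hay : a = y
    · subst hay
      by_cases hbx : b = x
      · exact absurd ⟨rfl, hbx⟩ h2
      · by_cases hba : b = a
        · subst hba; simp
        · obtain ⟨k1, k2, k3⟩ := key b hbx hba
          omega
    · obtain ⟨k1, k2, k3⟩ := key a hax hay
      by_cases hbx : b = x
      · subst hbx; omega
      · by_cases hby : b = y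
        · subst hby; omega
        · obtain ⟨l1, l2, l3⟩ := key b hbx hby
          omega

theorem fact1 {s p : ℕ} {x y : ι} (hact : act W F h s x y) (h1 : W.pos s x < p)
    (h2 : p ≤ W.pos s y) : 1 ≤ lev W F h s p := by
  obtain ⟨_, _, _, hA⟩ := hact
  unfold A at hA
  unfold lev
  have := cu_mono (W := W) (F := F) (s := s) (show W.pos s x + 1 ≤ p by omega)
  have := cd_mono (W := W) (F := F) (s := s) h2
  omega

theorem dep_cell (μ : ℕ) (s p : ℕ) :
    (dep (W.cell F s p) : ℤ) = μ + lev W F ((dep F : ℤ) - μ) s p := by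
  have e1 : (dep (W.cell F s p) : ℤ) = ∑ z, if W.cell F s p z = true then (1 : ℤ) else 0 := by
    unfold dep; simp
  have e2 : (dep F : ℤ) = ∑ z, if F z = true then (1 : ℤ) else 0 := by
    unfold dep; simp
  unfold lev cu cd
  rw [e1, e2]
  have : ∑ z, (if W.cell F s p z = true then (1 : ℤ) else 0) =
      ∑ z, ((if F z = true then (1 : ℤ) else 0) + (if F z = false ∧ W.pos s z < p then (1 : ℤ) else 0)
        - (if F z = true ∧ W.pos s z < p then (1 : ℤ) else 0)) := by
    apply Finset.sum_congr rfl
    intro z _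
    unfold PSweep.cell
    by_cases hp : W.pos s z < p
    · cases hF : F z <;> simp [hp]
    · cases hF : F z <;> simp [hp]
  rw [this, Finset.sum_sub_distrib, Finset.sum_add_distrib]
  ring

theorem period (s : ℕ) : W.pos (s + 2 * W.N) = W.pos s := by
  funext i
  have h1 := W.anti s i
  have h2 := W.anti (s + W.N) i
  rw [show s + W.N + W.N = s + 2 * W.N by ring] at h2
  omega

theorem period_mul (s k : ℕ) : W.pos (s + 2 * W.N * k) = W.pos s := by
  induction k with
  | zero => simp
  | succ k ih =>
    rw [show s + 2 * W.N * (k+1) = (s + 2 * W.N * k) + 2 * W.N by ring, period, ih]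

theorem shift (hN : 0 < W.N) (s' t : ℕ) : ∃ s'', t < s'' ∧ s'' ≤ t + 2 * W.N ∧
    W.pos s'' = W.pos s' := by
  set M := 2 * W.N with hM
  have hMp : 0 < M := by omega
  -- r = (s' + M * (t+1) - (t+1)) % M
  set K := s' + M * (t + 1) - (t + 1) with hK
  have hKle : t + 1 ≤ s' + M * (t+1) := by nlinarith
  refine ⟨t + 1 + K % M, by omega, ?_, ?_⟩
  · have := Nat.mod_lt K hMp; omega
  · -- t + 1 + K % M + M * (K / M) = s' + M * (t+1)
    have h1 : K % M + M * (K / M) = K := Nat.mod_add_div K M
    have h2 : t + 1 + K % M + 2 * W.N * (K / M) = s' + 2 * W.N * (t + 1) := by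
      rw [← hM]; omega
    have h3 := period_mul (W := W) (t + 1 + K % M) (K / M)
    rw [h2, period_mul] at h3
    exact h3.symm

theorem anti_lt {s : ℕ} {a b : ι} : W.pos (s + W.N) a < W.pos (s + W.N) b ↔
    W.pos s b < W.pos s a := by
  have h1 := W.anti s a
  have h2 := W.anti s b
  omega

theorem run_bwd {s : ℕ} {x y : ι} (h1 : W.pos s x < W.pos s y)
    (h2 : W.pos (s+1) y < W.pos (s+1) x) {r : ℕ} (hr : r ≤ s) (hr' : s < r + W.N) :
    W.pos r x < W.pos r y := by
  have := W.once s x y h1 h2 (r + W.N) hr' (by omega)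
  exact anti_lt.1 this

theorem lt_of_not {s : ℕ} {x y : ι} (hxy : x ≠ y) (h1 : ¬ (W.pos s x < W.pos s y)) :
    W.pos s y < W.pos s x := by
  have : W.pos s x ≠ W.pos s y := fun h => hxy (W.inj s h)
  omega

/-- no good triple -/
def NoTriple (W : PSweep ι) (F : ι → Bool) (h : ℤ) : Prop :=
  ∀ a b c : ι, a ≠ b → b ≠ c → a ≠ c → ∃ s p, W.cell F s p a = true ∧ W.cell F s p b = true ∧
    W.cell F s p c = true ∧ lev W F h s p ≤ 0

theorem cell_U {s p : ℕ} {x : ι} (hx : F x = false) : W.cell F s p x = true ↔ W.pos s x < p := by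
  unfold PSweep.cell; rw [hx]; simp

theorem cell_D {s p : ℕ} {x : ι} (hx : F x = true) : W.cell F s p x = true ↔ p ≤ W.pos s x := by
  unfold PSweep.cell; rw [hx]; simp

theorem lev_congr {s s' : ℕ} (hs : W.pos s = W.pos s') (p : ℕ) :
    lev W F h s p = lev W F h s' p := by
  unfold lev cu cd; rw [hs]

/-- after a birth at step `t`: order on the next full turn -/
theorem birth_order {t : ℕ} {x y : ι} (hxy : x ≠ y) (h1 : ¬ (W.pos t x < W.pos t y))
    (h2 : W.pos (t+1) x < W.pos (t+1) y) {r : ℕ} (_hr : t < r) (hr' : r ≤ t + 2 * W.N)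
    (ho : W.pos r x < W.pos r y) : r ≤ t + W.N := by
  by_contra hc
  push Not at hc
  have h3 := lt_of_not hxy h1
  have := W.once t y x h3 h2 (r - W.N) (by omega) (by omega)
  have h4 : r = (r - W.N) + W.N := by omega
  have h5 := (anti_lt (W := W) (s := r - W.N) (a := y) (b := x)).2 this
  rw [← h4] at h5
  omega

theorem claim_Z0 (hN : 0 < W.N) (hno : NoTriple W F h) (hcard : 3 ≤ Fintype.card ι)
    {s : ℕ} {x y : ι} (h1 : W.pos s x < W.pos s y)
    (h2 : W.pos (s+1) y < W.pos (s+1) x) (hz : Z0 W F h s x y) : False := by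
  obtain ⟨t, hts, hb, hact⟩ := hz
  have hxy : x ≠ y := by rintro rfl; omega
  have hU := (hact (t+1) (by omega) (by omega)).1
  have hD := (hact (t+1) (by omega) (by omega)).2.1
  have ho := (hact (t+1) (by omega) (by omega)).2.2.1
  -- s ≤ t + N
  have hs1 : s ≤ t + W.N := by
    by_contra hc
    push Not at hc
    have := (hact (t + W.N + 1) (by omega) (by omega)).2.2.1
    have h5 := (anti_lt (W := W) (s := t + 1) (a := y) (b := x)).2 ho
    rw [show t + 1 + W.N = t + W.N + 1 by ring] at h5
    omega
  have hs2 : t + W.N ≤ s := by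
    by_contra hc
    push Not at hc
    have := run_bwd (W := W) h1 h2 (r := t) (by omega) (by omega)
    exact hb this
  obtain ⟨z, hz⟩ : ∃ z : ι, z ≠ x ∧ z ≠ y := by
    by_contra hc
    push Not at hc
    have hsub : (univ : Finset ι) ⊆ {x, y} := by
      intro z _
      by_cases hzx : z = x
      · simp [hzx]
      · simp [hc z hzx]
    have := Finset.card_le_card hsub
    rw [Finset.card_univ, Finset.card_pair hxy] at this
    omega
  obtain ⟨s', p, c1, c2, _, c4⟩ := hno x y z hxy (Ne.symm hz.2) (Ne.symm hz.1)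
  rw [cell_U hU] at c1
  rw [cell_D hD] at c2
  obtain ⟨r, hr1, hr2, hr3⟩ := shift hN s' t
  rw [← hr3] at c1 c2
  have hle := birth_order hxy hb ho hr1 hr2 (by omega)
  have hA := hact r hr1 (by omega)
  have := fact1 hA c1 c2
  rw [lev_congr hr3] at this
  omega

theorem claim_Z1 (hN : 0 < W.N) (hno : NoTriple W F h)
    {s : ℕ} {x y : ι} (h1 : W.pos s x < W.pos s y)
    (h2 : W.pos (s+1) y < W.pos (s+1) x) (hz : Z1 W F h s x y) : False := by
  have hxy : x ≠ y := by rintro rfl; omega
  rcases hz with ⟨c, t₁, ht₁, hc, hcx, hz0, hact⟩ | ⟨c, t₁, ht₁, hc, hcy, hz0, hact⟩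
  · obtain ⟨t, ht, hb, hact0⟩ := hz0
    have hU := (hact (t₁+1) (by omega) (by omega)).1
    have hD := (hact (t₁+1) (by omega) (by omega)).2.1
    have ho := (hact0 (t+1) (by omega) (by omega)).2.2.1
    have hcy : c ≠ y := by rintro rfl; rw [hc] at hD; exact absurd hD (by simp)
    obtain ⟨s', p, c1, c2, c3, c4⟩ := hno x c y (Ne.symm hcx) hcy hxy
    rw [cell_U hU] at c1
    rw [cell_U hc] at c2
    rw [cell_D hD] at c3
    obtain ⟨r, hr1, hr2, hr3⟩ := shift hN s' t
    rw [← hr3] at c1 c2 c3
    have hle := birth_order hcy hb ho hr1 hr2 (by omega)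
    have hrs : r ≤ s := by
      by_contra hcon
      push Not at hcon
      have := W.once s x y h1 h2 r hcon (by omega)
      omega
    by_cases hrt : r ≤ t₁
    · have := fact1 (hact0 r hr1 hrt) c2 c3
      rw [lev_congr hr3] at this
      omega
    · have := fact1 (hact r (by omega) hrs) c1 c3
      rw [lev_congr hr3] at this
      omega
  · obtain ⟨t, ht, hb, hact0⟩ := hz0
    have hU := (hact (t₁+1) (by omega) (by omega)).1
    have hD := (hact (t₁+1) (by omega) (by omega)).2.1
    have ho := (hact0 (t+1) (by omega) (by omega)).2.2.1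
    have hcx : x ≠ c := by rintro rfl; rw [hc] at hU; exact absurd hU (by simp)
    obtain ⟨s', p, c1, c2, c3, c4⟩ := hno x c y hcx hcy hxy
    rw [cell_U hU] at c1
    rw [cell_D hc] at c2
    rw [cell_D hD] at c3
    obtain ⟨r, hr1, hr2, hr3⟩ := shift hN s' t
    rw [← hr3] at c1 c2 c3
    have hle := birth_order hcx hb ho hr1 hr2 (by omega)
    have hrs : r ≤ s := by
      by_contra hcon
      push Not at hcon
      have := W.once s x y h1 h2 r hcon (by omega)
      omega
    by_cases hrt : r ≤ t₁
    · have := fact1 (hact0 r hr1 hrt) c1 c2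
      rw [lev_congr hr3] at this
      omega
    · have := fact1 (hact r (by omega) hrs) c1 c3
      rw [lev_congr hr3] at this
      omega

theorem phi_le_one (s : ℕ) (x y : ι) : φ W F h s x y ≤ 1 := by
  unfold φ; split_ifs <;> norm_num

theorem neg_one_le_phi (s : ℕ) (x y : ι) : -1 ≤ φ W F h s x y := by
  unfold φ; split_ifs <;> norm_num

theorem phi_of_not_act {s : ℕ} {x y : ι} (hn : ¬ act W F h s x y) : φ W F h s x y = 0 := by
  unfold φ; rw [if_neg hn]

theorem Z0_succ {s : ℕ} {x y : ι} (hz : Z0 W F h s x y) (ha : act W F h (s+1) x y) :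
    Z0 W F h (s+1) x y := by
  obtain ⟨t, ht, hb, hact⟩ := hz
  refine ⟨t, by omega, hb, fun s' h1 h2 => ?_⟩
  rcases Nat.lt_or_ge s s' with h3 | h3
  · have : s' = s + 1 := by omega
    rw [this]; exact ha
  · exact hact s' h1 h3

theorem Z1_succ {s : ℕ} {x y : ι} (hz : Z1 W F h s x y) (ha : act W F h (s+1) x y) :
    Z1 W F h (s+1) x y := by
  rcases hz with ⟨c, t, ht, hc, hcx, hz0, hact⟩ | ⟨c, t, ht, hc, hcx, hz0, hact⟩
  · refine Or.inl ⟨c, t, by omega, hc, hcx, hz0, fun s' h1 h2 => ?_⟩
    rcases Nat.lt_or_ge s s' with h3 | h3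
    · have : s' = s + 1 := by omega
      rw [this]; exact ha
    · exact hact s' h1 h3
  · refine Or.inr ⟨c, t, by omega, hc, hcx, hz0, fun s' h1 h2 => ?_⟩
    rcases Nat.lt_or_ge s s' with h3 | h3
    · have : s' = s + 1 := by omega
      rw [this]; exact ha
    · exact hact s' h1 h3

theorem phi_mono {s : ℕ} {x y : ι} (hi : act W F h s x y ↔ act W F h (s+1) x y) :
    φ W F h s x y ≤ φ W F h (s+1) x y := by
  by_cases ha : act W F h s x y
  · have ha' := hi.1 ha
    unfold φ
    rw [if_pos ha, if_pos ha']
    by_cases h0 : Z0 W F h s x y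
    · rw [if_pos h0, if_pos (Z0_succ h0 ha')]
    · rw [if_neg h0]
      by_cases h1 : Z1 W F h s x y
      · rw [if_pos h1]
        split_ifs with h2 h3
        · norm_num
        · exact le_refl _
        · exact absurd (Z1_succ h1 ha') h3
      · rw [if_neg h1]
        split_ifs <;> norm_num
  · have ha' : ¬ act W F h (s+1) x y := fun h' => ha (hi.2 h')
    rw [phi_of_not_act ha, phi_of_not_act ha']

theorem IsSwap.u_unlike {s : ℕ} {x y : ι} (hs : IsSwap W s x y) (hne : F x ≠ F y) {a : ι}
    (ha : F a = false) :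
    cu W F (s+1) (W.pos (s+1) a + 1) = cu W F s (W.pos s a + 1) := by
  by_cases hax : a = x
  · subst hax
    have hy : F y = true := by
      cases hF : F y
      · exact absurd (by rw [ha, hF]) hne
      · rfl
    rw [hs.h2, hs.cu_eq (by rw [hs.h1]; omega), cu_succ (x := y) rfl, hy, hs.h1]
    simp
  · by_cases hay : a = y
    · subst hay
      have hx : F x = true := by
        cases hF : F x
        · exact absurd (by rw [ha, hF]) hne
        · rfl
      rw [hs.h1, cu_succ (x := a) (q := W.pos s x + 1) hs.h1, cu_succ (x := x) rfl, hx,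
        cu_succ (s := s+1) (x := a) rfl, hs.h3, hs.cu_eq (by omega)]
      simp
    · exact hs.u_eq hax hay

theorem IsSwap.e_unlike {s : ℕ} {x y : ι} (hs : IsSwap W s x y) (hne : F x ≠ F y) {b : ι}
    (hb : F b = true) :
    cd W F (s+1) (W.pos (s+1) b) = cd W F s (W.pos s b) := by
  by_cases hbx : b = x
  · subst hbx
    have hy : F y = false := by
      cases hF : F y
      · rfl
      · exact absurd (by rw [hb, hF]) hne
    rw [hs.h2, hs.h1, cd_succ (s := s+1) (x := y) hs.h3, hy, hs.cd_eq (by omega)]
    simp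
  · by_cases hby : b = y
    · subst hby
      have hx : F x = false := by
        cases hF : F x
        · rfl
        · exact absurd (by rw [hb, hF]) hne
      rw [hs.h3, hs.h1, hs.cd_eq (by omega), cd_succ (s := s) (x := x) rfl, hx]
      simp
    · exact hs.e_eq hbx hby

theorem IsSwap.A_unlike {s : ℕ} {x y : ι} (hs : IsSwap W s x y) (hne : F x ≠ F y) {a b : ι}
    (ha : F a = false) (hb : F b = true) : A W F h (s+1) a b = A W F h s a b := by
  unfold A
  rw [hs.u_unlike hne ha, hs.e_unlike hne hb]

theorem sum_single (x y : ι) (c : ℤ) :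
    ∑ a : ι, ∑ b : ι, (if a = x ∧ b = y then c else 0) = c := by
  rw [Finset.sum_eq_single x]
  · rw [Finset.sum_eq_single y]
    · simp
    · intro b _ hb; simp [hb]
    · intro hb; exact absurd (mem_univ _) hb
  · intro a _ ha
    apply Finset.sum_eq_zero
    intro b _; simp [ha]
  · intro hb; exact absurd (mem_univ _) hb

theorem step_idle {s : ℕ} (hs : W.pos (s+1) = W.pos s) : B W F h s ≤ B W F h (s+1) := by
  unfold B
  apply Finset.sum_le_sum
  intro a _
  apply Finset.sum_le_sum
  intro b _
  apply phi_mono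
  unfold act A cu cd
  rw [hs]

theorem step_unlike (hN : 0 < W.N) (hno : NoTriple W F h) (hcard : 3 ≤ Fintype.card ι)
    {s : ℕ} {x y : ι} (hs : IsSwap W s x y) (hne : F x ≠ F y) :
    B W F h s + (if 0 ≤ lev W F h s (W.pos s x) then 1 else 0) ≤ B W F h (s+1) := by
  have hord : ∀ a b, F a = false → F b = true → ¬ (a = x ∧ b = y) → ¬ (a = y ∧ b = x) →
      (act W F h s a b ↔ act W F h (s+1) a b) := by
    intro a b ha hb h1 h2
    unfold act
    rw [hs.A_unlike hne ha hb, hs.ord h1 h2]
  have hord' : ∀ a b, ¬ (a = x ∧ b = y) → ¬ (a = y ∧ b = x) →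
      φ W F h s a b ≤ φ W F h (s+1) a b := by
    intro a b h1 h2
    by_cases hab : F a = false ∧ F b = true
    · exact phi_mono (hord a b hab.1 hab.2 h1 h2)
    · rw [phi_of_not_act (fun hh => hab ⟨hh.1, hh.2.1⟩),
        phi_of_not_act (fun hh => hab ⟨hh.1, hh.2.1⟩)]
  have p1 := hs.h1; have p2 := hs.h2; have p3 := hs.h3
  cases hFx : F x
  · -- x is U, y is D : death
    have hFy : F y = true := by
      cases hF : F y
      · exact absurd (by rw [hFx, hF]) hne
      · rfl
    have hA : A W F h s x y = lev W F h s (W.pos s x) + 1 := by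
      unfold A lev
      rw [hs.h1, cu_succ (x := x) rfl, cd_succ (x := x) rfl, hFx]
      simp; ring
    rw [← sum_single x y (if 0 ≤ lev W F h s (W.pos s x) then (1:ℤ) else 0)]
    unfold B
    rw [← Finset.sum_add_distrib]
    apply Finset.sum_le_sum
    intro a _
    rw [← Finset.sum_add_distrib]
    apply Finset.sum_le_sum
    intro b _
    by_cases hab : a = x ∧ b = y
    · obtain ⟨rfl, rfl⟩ := hab
      have hn' : ¬ act W F h (s+1) a b := by
        intro hh; have := hh.2.2.1; omega
      rw [phi_of_not_act hn']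
      simp only [and_self, if_true]
      by_cases hl : 0 ≤ lev W F h s (W.pos s a)
      · rw [if_pos hl]
        have ha : act W F h s a b := ⟨hFx, hFy, by omega, by omega⟩
        unfold φ
        rw [if_pos ha]
        have n0 : ¬ Z0 W F h s a b := fun hz => claim_Z0 hN hno hcard (by omega) (by omega) hz
        have n1 : ¬ Z1 W F h s a b := fun hz => claim_Z1 hN hno (by omega) (by omega) hz
        rw [if_neg n0, if_neg n1]
        norm_num
      · rw [if_neg hl]
        rw [phi_of_not_act (fun hh => by have := hh.2.2.2; omega)]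
        norm_num
    · by_cases hab' : a = y ∧ b = x
      · obtain ⟨rfl, rfl⟩ := hab'
        rw [phi_of_not_act (fun hh => by have := hh.1; rw [hFy] at this; exact absurd this (by simp)),
          phi_of_not_act (fun hh => by have := hh.1; rw [hFy] at this; exact absurd this (by simp))]
        simp [hab]
      · simp only [hab, if_false, add_zero]
        exact hord' a b hab hab'
  · -- x is D, y is U : birth
    have hFy : F y = false := by
      cases hF : F y
      · rfl
      · exact absurd (by rw [hFx, hF]) hne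
    have hA : A W F h (s+1) y x = lev W F h s (W.pos s x) + 1 := by
      unfold A lev
      rw [hs.h2, hs.h1, cu_succ (s := s+1) (x := y) rfl, hs.h3, hs.cu_eq (by omega),
        cd_succ (s := s+1) (x := y) hs.h3, hs.cd_eq (by omega), hFy]
      simp; ring
    rw [← sum_single y x (if 0 ≤ lev W F h s (W.pos s x) then (1:ℤ) else 0)]
    unfold B
    rw [← Finset.sum_add_distrib]
    apply Finset.sum_le_sum
    intro a _
    rw [← Finset.sum_add_distrib]
    apply Finset.sum_le_sum
    intro b _
    by_cases hab : a = y ∧ b = x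
    · obtain ⟨rfl, rfl⟩ := hab
      have hn' : ¬ act W F h s a b := by
        intro hh; have := hh.2.2.1; omega
      rw [phi_of_not_act hn']
      simp only [and_self, if_true]
      by_cases hl : 0 ≤ lev W F h s (W.pos s b)
      · rw [if_pos hl]
        have ha : act W F h (s+1) a b := ⟨hFy, hFx, by omega, by omega⟩
        unfold φ
        rw [if_pos ha]
        have z0 : Z0 W F h (s+1) a b := by
          refine ⟨s, by omega, by omega, fun s' h1 h2 => ?_⟩
          have : s' = s + 1 := by omega
          rw [this]; exact ha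
        rw [if_pos z0]
        norm_num
      · rw [if_neg hl]
        rw [phi_of_not_act (fun hh => by have := hh.2.2.2; omega)]
        norm_num
    · by_cases hab' : a = x ∧ b = y
      · obtain ⟨rfl, rfl⟩ := hab'
        rw [phi_of_not_act (fun hh => by have := hh.1; rw [hFx] at this; exact absurd this (by simp)),
          phi_of_not_act (fun hh => by have := hh.1; rw [hFx] at this; exact absurd this (by simp))]
        simp [hab]
      · simp only [hab, if_false, add_zero]
        exact hord' a b hab' hab

theorem sum_two_rows (x y : ι) (G1 G2 : ι → ℤ) :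
    ∑ a : ι, ∑ b : ι, ((if a = x then G1 b else 0) + (if a = y then G2 b else 0)) =
      ∑ b, (G1 b + G2 b) := by
  rw [Finset.sum_comm]
  apply Finset.sum_congr rfl
  intro b _
  rw [Finset.sum_add_distrib]
  simp

theorem sum_two_cols (x y : ι) (G1 G2 : ι → ℤ) :
    ∑ a : ι, ∑ b : ι, ((if b = x then G1 a else 0) + (if b = y then G2 a else 0)) =
      ∑ a, (G1 a + G2 a) := by
  apply Finset.sum_congr rfl
  intro b _
  rw [Finset.sum_add_distrib]
  simp

open Classical in
theorem sum_K (K : ι → Prop) (h1 : ∀ a b, K a → K b → a = b) (G : ι → ℤ)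
    (hG : ∀ b, K b → -1 ≤ G b) (hG' : ∀ b, ¬ K b → G b = 0) :
    (if ∃ b, K b then (-1 : ℤ) else 0) ≤ ∑ b, G b := by
  split_ifs with hK
  · obtain ⟨b, hb⟩ := hK
    rw [Finset.sum_eq_single b]
    · exact hG b hb
    · intro c _ hc
      exact hG' c (fun hh => hc (h1 c b hh hb))
    · intro hh; exact absurd (mem_univ _) hh
  · rw [Finset.sum_eq_zero]
    intro b _
    exact hG' b (fun hh => hK ⟨b, hh⟩)

theorem step_UU {s : ℕ} {x y : ι} (hs : IsSwap W s x y) (hFx : F x = false)
    (hFy : F y = false) :
    B W F h s + (if 0 ≤ lev W F h s (W.pos s x + 1) then -1 else 0) ≤ B W F h (s+1) := by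
  classical
  have p1 := hs.h1; have p2 := hs.h2; have p3 := hs.h3
  have ux : cu W F (s+1) (W.pos (s+1) x + 1) = cu W F s (W.pos s x + 1) + 1 := by
    rw [hs.h2, hs.cu_eq (by rw [hs.h1]; omega), cu_succ (x := y) rfl, hFy, hs.h1]; simp
  have uy : cu W F (s+1) (W.pos (s+1) y + 1) + 1 = cu W F s (W.pos s y + 1) := by
    rw [cu_succ (s := s+1) (x := y) rfl, hs.h3, hs.cu_eq (by omega), hFy,
      cu_succ (s := s) (x := y) rfl, hFy, hs.h1, cu_succ (s := s) (x := x) rfl, hFx]
    simp
  have uxy : cu W F s (W.pos s y + 1) = cu W F s (W.pos s x + 1) + 1 := by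
    rw [cu_succ (s := s) (x := y) rfl, hFy, hs.h1]; simp
  have hD : ∀ b, F b = true → b ≠ x ∧ b ≠ y := by
    intro b hb
    constructor
    · rintro rfl; rw [hFx] at hb; exact absurd hb (by simp)
    · rintro rfl; rw [hFy] at hb; exact absurd hb (by simp)
  have eb : ∀ b, F b = true → cd W F (s+1) (W.pos (s+1) b) = cd W F s (W.pos s b) :=
    fun b hb => hs.e_eq (hD b hb).1 (hD b hb).2
  have Ax : ∀ b, F b = true → A W F h (s+1) x b = A W F h s x b + 1 := by
    intro b hb; unfold A; rw [ux, eb b hb]; ring
  have Ay : ∀ b, F b = true → A W F h (s+1) y b + 1 = A W F h s y b := by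
    intro b hb; unfold A; rw [eb b hb]; omega
  have Axy : ∀ b, A W F h s y b = A W F h s x b + 1 := by
    intro b; unfold A; omega
  have pb : ∀ b, F b = true → W.pos (s+1) b = W.pos s b ∧ W.pos s b ≠ W.pos s x ∧
      W.pos s b ≠ W.pos s y := by
    intro b hb
    obtain ⟨h1, h2⟩ := hD b hb
    exact ⟨hs.h4 b h1 h2, fun h => h1 (W.inj s h), fun h => h2 (W.inj s h)⟩
  set K : ι → Prop := fun b => act W F h s y b ∧ ¬ act W F h (s+1) y b with hK
  have K1 : ∀ b, K b → F b = true ∧ W.pos s y < W.pos s b ∧ A W F h s y b = 1 := by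
    rintro b ⟨ha, hn⟩
    obtain ⟨a1, a2, a3, a4⟩ := ha
    refine ⟨a2, a3, ?_⟩
    by_contra hne
    apply hn
    have := Ay b a2
    have := pb b a2
    exact ⟨a1, a2, by omega, by omega⟩
  have K2 : ∀ b, F b = true → W.pos s y < W.pos s b → A W F h s y b = 1 → K b := by
    intro b b1 b2 b3
    refine ⟨⟨hFy, b1, b2, by omega⟩, fun hh => ?_⟩
    have := hh.2.2.2
    have := Ay b b1
    omega
  have Kuniq : ∀ a b, K a → K b → a = b := by
    intro a b ha hb
    obtain ⟨a1, a2, a3⟩ := K1 a ha
    obtain ⟨b1, b2, b3⟩ := K1 b hb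
    by_contra hab
    have hne : W.pos s a ≠ W.pos s b := fun hh => hab (W.inj s hh)
    have e : cd W F s (W.pos s a) = cd W F s (W.pos s b) := by
      unfold A at a3 b3; omega
    rcases Nat.lt_or_gt_of_ne hne with hlt | hlt
    · have m := cd_mono (W := W) (F := F) (s := s) (show W.pos s a + 1 ≤ W.pos s b by omega)
      rw [cd_succ (x := a) rfl, a1] at m
      simp at m; omega
    · have m := cd_mono (W := W) (F := F) (s := s) (show W.pos s b + 1 ≤ W.pos s a by omega)
      rw [cd_succ (x := b) rfl, b1] at m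
      simp at m; omega
  have hxy := hs.ne
  have main : B W F h s + ∑ b, ((if K b then φ W F h (s+1) x b else 0) +
      (if K b then - φ W F h s y b else 0)) ≤ B W F h (s+1) := by
    rw [← sum_two_rows x y (fun b => if K b then φ W F h (s+1) x b else 0)
      (fun b => if K b then - φ W F h s y b else 0)]
    unfold B
    rw [← Finset.sum_add_distrib]
    apply Finset.sum_le_sum
    intro a _
    rw [← Finset.sum_add_distrib]
    apply Finset.sum_le_sum
    intro b _
    by_cases hb : F b = true
    · by_cases hax : a = x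
      · subst hax
        simp only [if_true, if_neg hxy, add_zero]
        by_cases hKb : K b
        · rw [if_pos hKb]
          rw [phi_of_not_act (s := s)]
          · simp
          · intro hh
            have := (K1 b hKb).2.2
            have := Axy b
            have := hh.2.2.2
            omega
        · rw [if_neg hKb, add_zero]
          apply phi_mono
          constructor
          · rintro ⟨a1, a2, a3, a4⟩
            have := Ax b a2
            have := pb b a2
            exact ⟨a1, a2, by omega, by omega⟩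
          · rintro ⟨a1, a2, a3, a4⟩
            have e1 := Ax b a2
            have e2 := pb b a2
            have e3 := Axy b
            refine ⟨a1, a2, by omega, ?_⟩
            by_contra hcon
            exact hKb (K2 b a2 (by omega) (by omega))
      · by_cases hay : a = y
        · subst hay
          simp only [if_true, if_neg hax, zero_add]
          by_cases hKb : K b
          · rw [if_pos hKb]
            rw [phi_of_not_act hKb.2]
            simp
          · rw [if_neg hKb, add_zero]
            apply phi_mono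
            constructor
            · intro hh
              by_contra hn
              exact hKb ⟨hh, hn⟩
            · rintro ⟨a1, a2, a3, a4⟩
              have := Ay b a2
              have := pb b a2
              exact ⟨a1, a2, by omega, by omega⟩
        · simp only [if_neg hax, if_neg hay, add_zero]
          apply phi_mono
          have hu := hs.u_eq (F := F) hax hay
          have ho := hs.ord (a := a) (b := b) (fun hh => hax hh.1) (fun hh => hay hh.1)
          unfold act A
          rw [ho, hu, eb b hb]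
    · have hK' : ¬ K b := fun hh => hb (K1 b hh).1
      simp only [if_neg hK', ite_self, add_zero]
      rw [phi_of_not_act (fun hh => hb hh.2.1), phi_of_not_act (fun hh => hb hh.2.1)]
  have hsum := sum_K K Kuniq (fun b => (if K b then φ W F h (s+1) x b else 0) +
      (if K b then - φ W F h s y b else 0)) (by
        intro b hKb
        simp only [if_pos hKb]
        have hle := neg_one_le_phi (W := W) (F := F) (h := h) (s+1) x b
        by_cases hz : Z0 W F h s y b
        · have hact : act W F h (s+1) x b := by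
            obtain ⟨b1, b2, b3⟩ := K1 b hKb
            have := Ax b b1
            have := Axy b
            have := pb b b1
            exact ⟨hFx, b1, by omega, by omega⟩
          have hz1 : Z1 W F h (s+1) x b := by
            refine Or.inl ⟨y, s, by omega, hFy, Ne.symm hxy, hz, fun s' h1 h2 => ?_⟩
            have : s' = s + 1 := by omega
            rw [this]; exact hact
          have : 0 ≤ φ W F h (s+1) x b := by
            unfold φ
            rw [if_pos hact]
            by_cases h0 : Z0 W F h (s+1) x b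
            · rw [if_pos h0]; norm_num
            · rw [if_neg h0, if_pos hz1]
          have := phi_le_one (W := W) (F := F) (h := h) s y b
          omega
        · have : φ W F h s y b ≤ 0 := by
            unfold φ
            split_ifs <;> norm_num
          omega) (by
        intro b hKb
        simp [hKb])
  have hlev : (∃ b, K b) → 0 ≤ lev W F h s (W.pos s x + 1) := by
    rintro ⟨b, hKb⟩
    obtain ⟨b1, b2, b3⟩ := K1 b hKb
    have m := cd_mono (W := W) (F := F) (s := s) (show W.pos s x + 1 ≤ W.pos s b by omega)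
    unfold lev
    unfold A at b3
    omega
  by_cases c2 : ∃ b, K b
  · rw [if_pos c2] at hsum
    rw [if_pos (hlev c2)]
    linarith
  · rw [if_neg c2] at hsum
    split_ifs <;> linarith

theorem step_DD {s : ℕ} {x y : ι} (hs : IsSwap W s x y) (hFx : F x = true)
    (hFy : F y = true) :
    B W F h s + (if 0 ≤ lev W F h s (W.pos s x + 1) then -1 else 0) ≤ B W F h (s+1) := by
  classical
  have p1 := hs.h1; have p2 := hs.h2; have p3 := hs.h3
  have ex : cd W F (s+1) (W.pos (s+1) x) = cd W F s (W.pos s x) + 1 := by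
    rw [hs.h2, hs.h1, cd_succ (s := s+1) (x := y) hs.h3, hFy, hs.cd_eq (by omega)]; simp
  have ey : cd W F (s+1) (W.pos (s+1) y) + 1 = cd W F s (W.pos s y) := by
    rw [hs.h3, hs.cd_eq (by omega), hs.h1, cd_succ (s := s) (x := x) rfl, hFx]; simp
  have exy : cd W F s (W.pos s y) = cd W F s (W.pos s x) + 1 := by
    rw [hs.h1, cd_succ (s := s) (x := x) rfl, hFx]; simp
  have hU : ∀ a, F a = false → a ≠ x ∧ a ≠ y := by
    intro b hb
    constructor
    · rintro rfl; rw [hFx] at hb; exact absurd hb (by simp)
    · rintro rfl; rw [hFy] at hb; exact absurd hb (by simp)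
  have ua : ∀ a, F a = false → cu W F (s+1) (W.pos (s+1) a + 1) = cu W F s (W.pos s a + 1) :=
    fun b hb => hs.u_eq (hU b hb).1 (hU b hb).2
  have Ax : ∀ a, F a = false → A W F h (s+1) a x + 1 = A W F h s a x := by
    intro b hb; unfold A; rw [ex, ua b hb]; ring
  have Ay : ∀ a, F a = false → A W F h (s+1) a y = A W F h s a y + 1 := by
    intro b hb; unfold A; rw [ua b hb]; omega
  have Axy : ∀ a, A W F h s a x = A W F h s a y + 1 := by
    intro b; unfold A; omega
  have pa : ∀ a, F a = false → W.pos (s+1) a = W.pos s a ∧ W.pos s a ≠ W.pos s x ∧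
      W.pos s a ≠ W.pos s y := by
    intro b hb
    obtain ⟨h1, h2⟩ := hU b hb
    exact ⟨hs.h4 b h1 h2, fun h => h1 (W.inj s h), fun h => h2 (W.inj s h)⟩
  set K : ι → Prop := fun a => act W F h s a x ∧ ¬ act W F h (s+1) a x with hK
  have K1 : ∀ a, K a → F a = false ∧ W.pos s a < W.pos s x ∧ A W F h s a x = 1 := by
    rintro b ⟨ha, hn⟩
    obtain ⟨a1, a2, a3, a4⟩ := ha
    refine ⟨a1, a3, ?_⟩
    by_contra hne
    apply hn
    have := Ax b a1
    have := pa b a1
    exact ⟨a1, a2, by omega, by omega⟩
  have K2 : ∀ a, F a = false → W.pos s a < W.pos s x → A W F h s a x = 1 → K a := by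
    intro b b1 b2 b3
    refine ⟨⟨b1, hFx, b2, by omega⟩, fun hh => ?_⟩
    have := hh.2.2.2
    have := Ax b b1
    omega
  have Kuniq : ∀ a b, K a → K b → a = b := by
    intro a b ha hb
    obtain ⟨a1, a2, a3⟩ := K1 a ha
    obtain ⟨b1, b2, b3⟩ := K1 b hb
    by_contra hab
    have hne : W.pos s a ≠ W.pos s b := fun hh => hab (W.inj s hh)
    have e : cu W F s (W.pos s a + 1) = cu W F s (W.pos s b + 1) := by
      unfold A at a3 b3; omega
    rcases Nat.lt_or_gt_of_ne hne with hlt | hlt
    · have m := cu_mono (W := W) (F := F) (s := s) (show W.pos s a + 1 ≤ W.pos s b by omega)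
      rw [cu_succ (x := b) rfl, b1] at e
      simp at e; omega
    · have m := cu_mono (W := W) (F := F) (s := s) (show W.pos s b + 1 ≤ W.pos s a by omega)
      rw [cu_succ (x := a) rfl, a1] at e
      simp at e; omega
  have hxy := hs.ne
  have main : B W F h s + ∑ a, ((if K a then - φ W F h s a x else 0) +
      (if K a then φ W F h (s+1) a y else 0)) ≤ B W F h (s+1) := by
    rw [← sum_two_cols x y (fun a => if K a then - φ W F h s a x else 0)
      (fun a => if K a then φ W F h (s+1) a y else 0)]
    unfold B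
    rw [← Finset.sum_add_distrib]
    apply Finset.sum_le_sum
    intro a _
    rw [← Finset.sum_add_distrib]
    apply Finset.sum_le_sum
    intro b _
    by_cases ha : F a = false
    · by_cases hby : b = y
      · subst hby
        simp only [if_true, if_neg (Ne.symm hxy), zero_add]
        by_cases hKa : K a
        · rw [if_pos hKa]
          rw [phi_of_not_act (s := s)]
          · simp
          · intro hh
            have := (K1 a hKa).2.2
            have := Axy a
            have := hh.2.2.2
            omega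
        · rw [if_neg hKa, add_zero]
          apply phi_mono
          constructor
          · rintro ⟨a1, a2, a3, a4⟩
            have := Ay a a1
            have := pa a a1
            exact ⟨a1, a2, by omega, by omega⟩
          · rintro ⟨a1, a2, a3, a4⟩
            have e1 := Ay a a1
            have e2 := pa a a1
            have e3 := Axy a
            refine ⟨a1, a2, by omega, ?_⟩
            by_contra hcon
            exact hKa (K2 a a1 (by omega) (by omega))
      · by_cases hbx : b = x
        · subst hbx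
          simp only [if_true, if_neg hby, add_zero]
          by_cases hKa : K a
          · rw [if_pos hKa]
            rw [phi_of_not_act hKa.2]
            simp
          · rw [if_neg hKa, add_zero]
            apply phi_mono
            constructor
            · intro hh
              by_contra hn
              exact hKa ⟨hh, hn⟩
            · rintro ⟨a1, a2, a3, a4⟩
              have := Ax a a1
              have := pa a a1
              exact ⟨a1, a2, by omega, by omega⟩
        · simp only [if_neg hbx, if_neg hby, add_zero]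
          apply phi_mono
          have hu := hs.e_eq (F := F) hbx hby
          have ho := hs.ord (a := a) (b := b) (fun hh => hby hh.2) (fun hh => hbx hh.2)
          unfold act A
          rw [ho, hu, ua a ha]
    · have hK' : ¬ K a := fun hh => ha (K1 a hh).1
      simp only [if_neg hK', ite_self, add_zero]
      rw [phi_of_not_act (fun hh => ha hh.1), phi_of_not_act (fun hh => ha hh.1)]
  have hsum := sum_K K Kuniq (fun a => (if K a then - φ W F h s a x else 0) +
      (if K a then φ W F h (s+1) a y else 0)) (by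
        intro a hKa
        simp only [if_pos hKa]
        have hle := neg_one_le_phi (W := W) (F := F) (h := h) (s+1) a y
        by_cases hz : Z0 W F h s a x
        · have hact : act W F h (s+1) a y := by
            obtain ⟨b1, b2, b3⟩ := K1 a hKa
            have := Ay a b1
            have := Axy a
            have := pa a b1
            exact ⟨b1, hFy, by omega, by omega⟩
          have hz1 : Z1 W F h (s+1) a y := by
            refine Or.inr ⟨x, s, by omega, hFx, hxy, hz, fun s' h1 h2 => ?_⟩
            have : s' = s + 1 := by omega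
            rw [this]; exact hact
          have : 0 ≤ φ W F h (s+1) a y := by
            unfold φ
            rw [if_pos hact]
            by_cases h0 : Z0 W F h (s+1) a y
            · rw [if_pos h0]; norm_num
            · rw [if_neg h0, if_pos hz1]
          have := phi_le_one (W := W) (F := F) (h := h) s a x
          omega
        · have : φ W F h s a x ≤ 0 := by
            unfold φ
            split_ifs <;> norm_num
          omega) (by
        intro a hKa
        simp [hKa])
  have hlev : (∃ a, K a) → 0 ≤ lev W F h s (W.pos s x + 1) := by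
    rintro ⟨a, hKa⟩
    obtain ⟨b1, b2, b3⟩ := K1 a hKa
    have m := cu_mono (W := W) (F := F) (s := s) (show W.pos s a + 1 ≤ W.pos s x by omega)
    unfold lev
    rw [cu_succ (x := x) rfl, cd_succ (x := x) rfl, hFx]
    unfold A at b3
    simp
    omega
  by_cases c2 : ∃ b, K b
  · rw [if_pos c2] at hsum
    rw [if_pos (hlev c2)]
    linarith
  · rw [if_neg c2] at hsum
    split_ifs <;> linarith

theorem step_like {s : ℕ} {x y : ι} (hs : IsSwap W s x y) (he : F x = F y) :
    B W F h s + (if 0 ≤ lev W F h s (W.pos s x + 1) then -1 else 0) ≤ B W F h (s+1) := by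
  cases hFx : F x
  · exact step_UU hs hFx (by rw [← he, hFx])
  · exact step_DD hs hFx (by rw [← he, hFx])

/-- levels half a turn later -/
theorem lev_anti {μ : ℕ} (hn : Fintype.card ι + 1 = 2 * μ) {s p : ℕ}
    (hp : p ≤ Fintype.card ι) :
    lev W F ((dep F : ℤ) - μ) (s + W.N) (Fintype.card ι - p) =
      -1 - lev W F ((dep F : ℤ) - μ) s p := by
  have hdep : (dep F : ℤ) = ∑ z, if F z = true then (1 : ℤ) else 0 := by
    unfold dep; simp
  have hcard : (Fintype.card ι : ℤ) = ∑ _z : ι, (1 : ℤ) := by simp
  have key : cu W F (s + W.N) (Fintype.card ι - p) + cu W F s p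
      - cd W F (s + W.N) (Fintype.card ι - p) - cd W F s p =
      (Fintype.card ι : ℤ) - 2 * dep F := by
    unfold cu cd
    rw [hdep, hcard, Finset.mul_sum, ← Finset.sum_sub_distrib, ← Finset.sum_add_distrib,
      ← Finset.sum_sub_distrib, ← Finset.sum_sub_distrib]
    apply Finset.sum_congr rfl
    intro z _
    have ha := W.anti s z
    have hl := W.lt s z
    by_cases hz : W.pos s z < p
    · have : ¬ W.pos (s + W.N) z < Fintype.card ι - p := by omega
      cases hF : F z <;> simp [hz, this]
    · have : W.pos (s + W.N) z < Fintype.card ι - p := by omega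
      cases hF : F z <;> simp [hz, this]
  unfold lev
  have : (Fintype.card ι : ℤ) + 1 = 2 * μ := by exact_mod_cast hn
  linarith

theorem IsSwap.anti {s : ℕ} {x y : ι} (hs : IsSwap W s x y) : IsSwap W (s + W.N) y x := by
  have p1 := hs.h1; have p2 := hs.h2; have p3 := hs.h3
  have a1 := W.anti s x; have a2 := W.anti s y
  have a3 := W.anti (s+1) x; have a4 := W.anti (s+1) y
  rw [show s + 1 + W.N = s + W.N + 1 by ring] at a3 a4
  refine ⟨by omega, by omega, by omega, fun z hz1 hz2 => ?_⟩
  have b1 := W.anti s z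
  have b2 := W.anti (s+1) z
  rw [show s + 1 + W.N = s + W.N + 1 by ring] at b2
  have := hs.h4 z hz2 hz1
  omega

/-- the combined potential -/
noncomputable def B2 (W : PSweep ι) (F : ι → Bool) (h : ℤ) (s : ℕ) : ℤ :=
  B W F h s + B W F h (s + W.N)

theorem B2_unlike (hN : 0 < W.N) {μ : ℕ} (hn : Fintype.card ι + 1 = 2 * μ)
    (hno : NoTriple W F ((dep F : ℤ) - μ)) (hcard : 3 ≤ Fintype.card ι)
    {s : ℕ} {x y : ι} (hs : IsSwap W s x y) (hne : F x ≠ F y) :
    B2 W F ((dep F : ℤ) - μ) s + 1 ≤ B2 W F ((dep F : ℤ) - μ) (s+1) := by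
  have e1 := step_unlike hN hno hcard hs hne
  have e2 := step_unlike hN hno hcard hs.anti (Ne.symm hne)
  have p1 := hs.h1
  have hl := W.lt s y
  have hy : W.pos (s + W.N) y = Fintype.card ι - (W.pos s y + 1) := by
    have := W.anti s y; omega
  rw [hy, lev_anti hn (by omega)] at e2
  have hlv : lev W F ((dep F : ℤ) - μ) s (W.pos s y + 1) =
      lev W F ((dep F : ℤ) - μ) s (W.pos s x) := by
    unfold lev
    rw [cu_succ (x := y) rfl, cd_succ (x := y) rfl, hs.h1, cu_succ (x := x) rfl,
      cd_succ (x := x) rfl]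
    cases hFx : F x <;> cases hFy : F y
    · exact absurd (by rw [hFx, hFy]) hne
    · simp; ring
    · simp; ring
    · exact absurd (by rw [hFx, hFy]) hne
  rw [hlv] at e2
  unfold B2
  rw [show s + 1 + W.N = s + W.N + 1 by ring]
  split_ifs at e1 e2 <;> omega

theorem B2_like {μ : ℕ} (hn : Fintype.card ι + 1 = 2 * μ)
    {s : ℕ} {x y : ι} (hs : IsSwap W s x y) (he : F x = F y) :
    B2 W F ((dep F : ℤ) - μ) s - 1 ≤ B2 W F ((dep F : ℤ) - μ) (s+1) := by
  have e1 := step_like (h := (dep F : ℤ) - μ) hs he
  have e2 := step_like (h := (dep F : ℤ) - μ) hs.anti he.symm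
  have p1 := hs.h1
  have hl := W.lt s y
  have hy : W.pos (s + W.N) y + 1 = Fintype.card ι - (W.pos s x + 1) := by
    have := W.anti s y; omega
  rw [hy, lev_anti hn (by omega)] at e2
  unfold B2
  rw [show s + 1 + W.N = s + W.N + 1 by ring]
  split_ifs at e1 e2 <;> omega

theorem B2_idle {s : ℕ} (hs : W.pos (s+1) = W.pos s) :
    B2 W F h s ≤ B2 W F h (s+1) := by
  have e1 := step_idle (F := F) (h := h) hs
  have hs' : W.pos (s + W.N + 1) = W.pos (s + W.N) := by
    funext i
    have a1 := W.anti s i
    have a3 := W.anti (s+1) i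
    rw [show s + 1 + W.N = s + W.N + 1 by ring, hs] at a3
    omega
  have e2 := step_idle (F := F) (h := h) hs'
  unfold B2
  rw [show s + 1 + W.N = s + W.N + 1 by ring]
  omega

def sg (F : ι → Bool) (a : ι) : ℤ := if F a = true then -1 else 1

def R (W : PSweep ι) (s0 s : ℕ) (a b : ι) : Prop :=
  (W.pos s0 a < W.pos s0 b ∧ W.pos s b < W.pos s a) ∨
  (W.pos s0 b < W.pos s0 a ∧ W.pos s a < W.pos s b)

instance (s0 s : ℕ) (a b : ι) : Decidable (R W s0 s a b) := by unfold R; infer_instance

def inv2 (W : PSweep ι) (F : ι → Bool) (s0 s : ℕ) : ℤ :=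
  ∑ a, ∑ b, if R W s0 s a b then - (sg F a * sg F b) else 0

theorem inv2_self (s0 : ℕ) : inv2 W F s0 s0 = 0 := by
  unfold inv2
  apply Finset.sum_eq_zero; intro a _
  apply Finset.sum_eq_zero; intro b _
  rw [if_neg]
  unfold R
  omega

theorem inv2_idle {s0 s : ℕ} (hs : W.pos (s+1) = W.pos s) :
    inv2 W F s0 (s+1) = inv2 W F s0 s := by
  unfold inv2 R
  simp only [hs]

theorem inv2_swap {s0 s : ℕ} {x y : ι} (hs : IsSwap W s x y) (h1 : s0 ≤ s)
    (h2 : s < s0 + W.N) :
    inv2 W F s0 (s+1) = inv2 W F s0 s + 2 * (- (sg F x * sg F y)) := by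
  have p1 := hs.h1; have p2 := hs.h2; have p3 := hs.h3
  have ho : W.pos s0 x < W.pos s0 y := run_bwd (by omega) (by omega) h1 h2
  have hxy := hs.ne
  have e : 2 * (- (sg F x * sg F y)) = ∑ a : ι, ∑ b : ι,
      ((if a = x ∧ b = y then - (sg F x * sg F y) else 0) +
        (if a = y ∧ b = x then - (sg F x * sg F y) else 0)) := by
    have : ∀ a : ι, ∑ b : ι, ((if a = x ∧ b = y then - (sg F x * sg F y) else 0) +
        (if a = y ∧ b = x then - (sg F x * sg F y) else 0)) =
        ∑ b : ι, (if a = x ∧ b = y then - (sg F x * sg F y) else 0) +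
        ∑ b : ι, (if a = y ∧ b = x then - (sg F x * sg F y) else 0) :=
      fun a => Finset.sum_add_distrib
    rw [Finset.sum_congr rfl (fun a _ => this a), Finset.sum_add_distrib, sum_single, sum_single]
    ring
  rw [e]
  unfold inv2
  rw [← Finset.sum_add_distrib]
  apply Finset.sum_congr rfl
  intro a _
  rw [← Finset.sum_add_distrib]
  apply Finset.sum_congr rfl
  intro b _
  by_cases c1 : a = x ∧ b = y
  · obtain ⟨rfl, rfl⟩ := c1
    have r1 : R W s0 (s+1) a b := Or.inl ⟨ho, by omega⟩
    have r2 : ¬ R W s0 s a b := by unfold R; omega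
    rw [if_pos r1, if_neg r2]
    simp [hxy]
  · by_cases c2 : a = y ∧ b = x
    · obtain ⟨rfl, rfl⟩ := c2
      have r1 : R W s0 (s+1) a b := Or.inr ⟨ho, by omega⟩
      have r2 : ¬ R W s0 s a b := by unfold R; omega
      rw [if_pos r1, if_neg r2]
      simp [hxy.symm]
      ring
    · have o1 := hs.ord c1 c2
      have o2 := hs.ord (a := b) (b := a) (fun hh => c2 ⟨hh.2, hh.1⟩) (fun hh => c1 ⟨hh.2, hh.1⟩)
      have : R W s0 (s+1) a b ↔ R W s0 s a b := by
        unfold R; rw [o1, o2]
      simp only [c1, c2, if_false, add_zero]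
      by_cases hr : R W s0 s a b
      · rw [if_pos hr, if_pos (this.2 hr)]
      · rw [if_neg hr, if_neg (fun hh => hr (this.1 hh))]

theorem inv2_full {μ : ℕ} (hn : Fintype.card ι + 1 = 2 * μ)
    (hb : dep F = μ ∨ dep F + 1 = μ) (s0 : ℕ) :
    inv2 W F s0 (s0 + W.N) = Fintype.card ι - 1 := by
  have hR : ∀ a b, R W s0 (s0 + W.N) a b ↔ a ≠ b := by
    intro a b
    have a1 := anti_lt (W := W) (s := s0) (a := a) (b := b)
    have a2 := anti_lt (W := W) (s := s0) (a := b) (b := a)
    unfold R
    rw [a1, a2]
    constructor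
    · rintro h rfl; omega
    · intro hne
      have : W.pos s0 a ≠ W.pos s0 b := fun hh => hne (W.inj s0 hh)
      omega
  have e1 : inv2 W F s0 (s0 + W.N) =
      ∑ a : ι, ∑ b : ι, (- (sg F a * sg F b) + if a = b then sg F a * sg F b else 0) := by
    unfold inv2
    apply Finset.sum_congr rfl; intro a _
    apply Finset.sum_congr rfl; intro b _
    by_cases hab : a = b
    · rw [if_neg (fun hh => (hR a b).1 hh hab), if_pos hab]; ring
    · rw [if_pos ((hR a b).2 hab), if_neg hab]; ring
  have e2 : ∀ a : ι, ∑ b : ι, (- (sg F a * sg F b) + if a = b then sg F a * sg F b else 0) =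
      - (sg F a * ∑ b, sg F b) + 1 := by
    intro a
    rw [Finset.sum_add_distrib, Finset.sum_neg_distrib, Finset.mul_sum]
    congr 1
    rw [Finset.sum_ite_eq]
    simp only [mem_univ, if_true]
    unfold sg; split_ifs <;> norm_num
  have e3 : ∑ a, sg F a = (Fintype.card ι : ℤ) - 2 * dep F := by
    have hdep : (dep F : ℤ) = ∑ z, if F z = true then (1 : ℤ) else 0 := by
      unfold dep; simp
    have hcard : (Fintype.card ι : ℤ) = ∑ _z : ι, (1 : ℤ) := by simp
    rw [hdep, hcard, Finset.mul_sum, ← Finset.sum_sub_distrib]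
    apply Finset.sum_congr rfl; intro a _
    unfold sg; split_ifs <;> norm_num
  rw [e1, Finset.sum_congr rfl (fun a _ => e2 a), Finset.sum_add_distrib,
    Finset.sum_neg_distrib, ← Finset.sum_mul, e3]
  have hn' : (Fintype.card ι : ℤ) + 1 = 2 * μ := by exact_mod_cast hn
  simp only [Finset.sum_const, Finset.card_univ, nsmul_eq_mul, mul_one]
  rcases hb with hb | hb
  · have hb' : (dep F : ℤ) = μ := by exact_mod_cast hb
    rw [hb']
    have : (Fintype.card ι : ℤ) = 2 * μ - 1 := by linarith
    rw [this]; ring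
  · have hb' : (dep F : ℤ) + 1 = μ := by exact_mod_cast hb
    have h2 : (dep F : ℤ) = μ - 1 := by linarith
    rw [h2]
    have : (Fintype.card ι : ℤ) = 2 * μ - 1 := by linarith
    rw [this]; ring

theorem B2_gain (hN : 0 < W.N) {μ : ℕ} (hn : Fintype.card ι + 1 = 2 * μ)
    (hb : dep F = μ ∨ dep F + 1 = μ)
    (hno : NoTriple W F ((dep F : ℤ) - μ)) (hcard : 3 ≤ Fintype.card ι) (s0 : ℕ) :
    B2 W F ((dep F : ℤ) - μ) s0 + 1 ≤ B2 W F ((dep F : ℤ) - μ) (s0 + W.N) := by
  have key : ∀ r, r ≤ W.N → 2 * B2 W F ((dep F : ℤ) - μ) s0 + inv2 W F s0 (s0 + r) ≤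
      2 * B2 W F ((dep F : ℤ) - μ) (s0 + r) := by
    intro r
    induction r with
    | zero => intro _; simp [inv2_self]
    | succ r ih =>
      intro hr
      have ih' := ih (by omega)
      rcases W.step (s0 + r) with hid | ⟨x, y, q1, q2, q3, q4⟩
      · have b1 := B2_idle (F := F) (h := (dep F : ℤ) - μ) hid
        have b2 := inv2_idle (F := F) (s0 := s0) hid
        rw [show s0 + (r + 1) = s0 + r + 1 by ring, b2]
        linarith
      · have hs : IsSwap W (s0 + r) x y := ⟨q1, q2, q3, q4⟩
        have b2 := inv2_swap (F := F) hs (by omega : s0 ≤ s0 + r) (by omega)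
        rw [show s0 + (r + 1) = s0 + r + 1 by ring, b2]
        by_cases he : F x = F y
        · have b1 := B2_like hn hs he
          have : sg F x * sg F y = 1 := by
            unfold sg; rw [he]; split_ifs <;> norm_num
          rw [this]; linarith
        · have b1 := B2_unlike hN hn hno hcard hs he
          have : sg F x * sg F y = -1 := by
            unfold sg
            cases hFx : F x <;> cases hFy : F y
            · exact absurd (by rw [hFx, hFy]) he
            · simp
            · simp
            · exact absurd (by rw [hFx, hFy]) he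
          rw [this]; linarith
  have k := key W.N le_rfl
  rw [inv2_full hn hb] at k
  have : (3 : ℤ) ≤ Fintype.card ι := by exact_mod_cast hcard
  omega

theorem B_bound (s : ℕ) : B W F h s ≤ (Fintype.card ι : ℤ) * Fintype.card ι ∧
    - ((Fintype.card ι : ℤ) * Fintype.card ι) ≤ B W F h s := by
  unfold B
  constructor
  · calc ∑ x, ∑ y, φ W F h s x y ≤ ∑ _x : ι, ∑ _y : ι, (1 : ℤ) :=
          Finset.sum_le_sum (fun x _ => Finset.sum_le_sum (fun y _ => phi_le_one s x y))
      _ = _ := by simp
  · calc - ((Fintype.card ι : ℤ) * Fintype.card ι) = ∑ _x : ι, ∑ _y : ι, (-1 : ℤ) := by simp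
      _ ≤ _ := Finset.sum_le_sum (fun x _ => Finset.sum_le_sum (fun y _ => neg_one_le_phi s x y))

end Tri

open Tri in
/-- The majority triple theorem for an odd number `2μ-1` of signed pseudolines on the sphere. -/
theorem PSweep.exists_triple {ι : Type} [Fintype ι] [DecidableEq ι]
    (W : PSweep ι) (F : ι → Bool) (μ : ℕ) (hμ : 2 ≤ μ)
    (hn : Fintype.card ι + 1 = 2 * μ) (hb : dep F = μ ∨ dep F + 1 = μ) :
    ∃ a b c : ι, a ≠ b ∧ b ≠ c ∧ a ≠ c ∧ ∀ s p, W.cell F s p a = true → W.cell F s p b = true →
      W.cell F s p c = true → μ + 1 ≤ dep (W.cell F s p) := by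
  by_contra hcon
  push Not at hcon
  have hno : NoTriple W F ((dep F : ℤ) - μ) := by
    intro a b c hab hbc hac
    obtain ⟨s, p, h1, h2, h3, h4⟩ := hcon a b c hab hbc hac
    refine ⟨s, p, h1, h2, h3, ?_⟩
    have := dep_cell (W := W) (F := F) μ s p
    have h4' : (dep (W.cell F s p) : ℤ) < μ + 1 := by exact_mod_cast h4
    linarith
  have hcard : 3 ≤ Fintype.card ι := by omega
  have hN : 0 < W.N := by
    rcases Nat.eq_zero_or_pos W.N with h0 | h0
    · exfalso
      have hcard1 : 1 < Fintype.card ι := by omega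
      obtain ⟨x, y, hxy⟩ := Fintype.one_lt_card_iff.1 hcard1
      have a1 := W.anti 0 x
      have a2 := W.anti 0 y
      rw [h0] at a1 a2
      apply hxy
      apply W.inj 0
      simp only [Nat.add_zero] at a1 a2
      omega
    · exact h0
  have grow : ∀ k : ℕ, B2 W F ((dep F : ℤ) - μ) 0 + k ≤ B2 W F ((dep F : ℤ) - μ) (k * W.N) := by
    intro k
    induction k with
    | zero => simp
    | succ k ih =>
      have := B2_gain hN hn hb hno hcard (k * W.N)
      rw [show k * W.N + W.N = (k + 1) * W.N by ring] at this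
      push_cast
      linarith
  have g := grow (4 * Fintype.card ι * Fintype.card ι + 1)
  have b1 := B_bound (W := W) (F := F) (h := (dep F : ℤ) - μ) 0
  have b2 := B_bound (W := W) (F := F) (h := (dep F : ℤ) - μ) (0 + W.N)
  set k := 4 * Fintype.card ι * Fintype.card ι + 1 with hk
  have b3 := B_bound (W := W) (F := F) (h := (dep F : ℤ) - μ) (k * W.N)
  have b4 := B_bound (W := W) (F := F) (h := (dep F : ℤ) - μ) (k * W.N + W.N)
  unfold B2 at g
  have hk' : (k : ℤ) = 4 * Fintype.card ι * Fintype.card ι + 1 := by rw [hk]; push_cast; ring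
  rw [hk'] at g
  nlinarith [b1.1, b1.2, b2.1, b2.2, b3.1, b3.2, b4.1, b4.2]

end PHP
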