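import Mathlib
import Pool.Agent.PHP.Periodic
import Pool.Agent.PHP.Triple

/-!
# The majority triple for a plain sweep

Let `W'` be the periodic continuation. A cell `(s, p)` of `W` with `s ≤ N` (for `s > N` nothing is left to swap, `W.pos s = W.pos N`: a step would swap a pair in initial order) and `p ≤ n` is the cell `(s, p)` of `W'`, and its complement is the cell
`(s + N, n - p)` of `W'` (`pos (s+N) i = n - 1 - pos s i < n - p ↔ p ≤ pos s i`), of depth `n - dep X`; `n - dep X ≥ μ + 1` gives `dep X ≤ μ - 2`.
-/

namespace PHP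

open Finset

variable {ι : Type} [Fintype ι] [DecidableEq ι]

theorem TripleAff_dep (X : ι → Bool) : dep (fun i => !(X i)) + dep X = Fintype.card ι := by
  unfold dep
  have h := Finset.card_filter_add_card_filter_not (s := (univ : Finset ι)) (fun i => X i = true)
  have h2 : (univ.filter (fun i => (!(X i)) = true)) = univ.filter (fun i => ¬ (X i = true)) := by
    apply Finset.filter_congr
    intro i _
    cases X i <;> simp
  rw [h2, ← Finset.card_univ, ← h, add_comm]

/-- nothing is left to swap after the time `N` -/
theorem TripleAff_late (W : Sweep ι) (t : ℕ) : W.pos (W.N + t) = W.pos W.N := by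
  induction t with
  | zero => rfl
  | succ t ih =>
    rcases W.step (W.N + t) with h | ⟨x, y, h1, h2, _⟩
    · rw [← add_assoc, h, ih]
    · exfalso
      rw [ih] at h1
      have hx := W.rev x
      have hy := W.rev y
      omega

/-- The same for a plain sweep: cells containing the triple have depth at least `μ+1` and cells
missing all three have depth at most `μ-2`. -/
theorem Sweep.exists_triple (W : Sweep ι) (F : ι → Bool) (μ : ℕ) (hμ : 2 ≤ μ)
    (hn : Fintype.card ι + 1 = 2 * μ) (hb : dep F = μ ∨ dep F + 1 = μ) :
    ∃ a b c : ι, a ≠ b ∧ b ≠ c ∧ a ≠ c ∧ ∀ X ∈ W.cells F,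
      (X a = true → X b = true → X c = true → μ + 1 ≤ dep X) ∧
      (X a = false → X b = false → X c = false → dep X + 2 ≤ μ) := by
  obtain ⟨W', hN, hpos⟩ := W.exists_psweep
  obtain ⟨a, b, c, hab, hbc, hac, h⟩ := W'.exists_triple F μ hμ hn hb
  refine ⟨a, b, c, hab, hbc, hac, ?_⟩
  rintro X ⟨s, p, rfl⟩
  -- reduce to `s ≤ N`
  obtain ⟨s', hs', hss⟩ : ∃ s', s' ≤ W.N ∧ W.pos s = W.pos s' := by
    rcases le_total s W.N with h1 | h1
    · exact ⟨s, h1, rfl⟩
    · obtain ⟨t, rfl⟩ := Nat.exists_eq_add_of_le h1
      exact ⟨W.N, le_rfl, TripleAff_late W t⟩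
  have hcell : W.cell F s p = W'.cell F s' p := by
    funext i
    unfold Sweep.cell PSweep.cell
    rw [hss, hpos s' hs']
  have hcompl : W'.cell F (s' + W'.N) (Fintype.card ι - min p (Fintype.card ι)) =
      fun i => !(W'.cell F s' p i) := by
    funext i
    unfold PSweep.cell
    have h1 := W'.anti s' i
    have h2 := W'.lt s' i
    have h3 : decide (W'.pos (s' + W'.N) i < Fintype.card ι - min p (Fintype.card ι)) =
        !(decide (W'.pos s' i < p)) := by
      by_cases h4 : W'.pos s' i < p
      · rw [decide_eq_true h4, Bool.not_true, decide_eq_false_iff_not]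
        omega
      · rw [decide_eq_false h4, Bool.not_false, decide_eq_true_iff]
        omega
    rw [h3]
    cases F i <;> cases decide (W'.pos s' i < p) <;> rfl
  rw [hcell]
  refine ⟨fun ha hb' hc => h s' p ha hb' hc, fun ha hb' hc => ?_⟩
  have h1 := h (s' + W'.N) (Fintype.card ι - min p (Fintype.card ι))
  rw [hcompl] at h1
  have h2 := h1 (by simp only [ha, Bool.not_false]) (by simp only [hb', Bool.not_false])
    (by simp only [hc, Bool.not_false])
  have h3 := TripleAff_dep (W'.cell F s' p)
  omega

end PHP
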