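import Mathlib
import Pool.Agent.PHP.SysBasic
import Pool.Agent.PHP.SysJoin
import Pool.Agent.PHP.SysMaps
import Pool.Agent.PHP.SysBal
import Pool.Agent.PHP.SweepExists
import Pool.Agent.PHP.TripleAff
import Pool.Agent.PHP.GoodZero
import Pool.Agent.PHP.PThree

/-!
# Consequences for systems

PROOFS. `good_of_card_le`: induction on `2m+1 - card ι`. If `card ι = 2m+1`: complete (`exists_complete`), balance (`exists_balanced`, `μ = m+1`), sweep (`exists_sweep`), `Sweep.exists_triple`; `R = {a, b, c}`. If `card ι < 2m+1`: pad (`pad`, new element `none` contained in no old cell), apply the induction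
hypothesis, `R = {i | some i ∈ R'}`; `dep` and `hit` do not change.
`good_of_dep_le_one`: complete, sweep, `good_zero` if `dep O = 0`. If `dep O = 1`, `O = {g}`: for `m = 1` take `R = univ`; for `m ≥ 2` restrict (`comap`) to `{i // i ≠ g}`, where the restriction of `O` is the empty cell, and use `good_zero` with `m - 1`: `R` works (`dep (X restricted) ≥ dep X - 1`).
`exists_covering`: choose `s` with `z s = true`; `exists_start`, `exists_sweep`, `Sweep.exists_covering`.
`good_three`: complete; if some depth is `≤ 1` use the previous results (`m = 3`), else let `d ≥ 2` be the minimal depth, `R = {a,b,c}` from `exists_covering`: hits everything; if `hit = 3` then `dep ≥ d + 2 ≥ 4`.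
`exists_three_shallow`: complete; if some cell has depth `0` use `good_zero`; else `R = {a,b,c}` covering.
`split`: induction on `k ≥ 2` in the form: for all finite `ι`, all systems with a circular list. `k = 2`: `good_three`: colour `R` with `0` and the rest with `1`. Step: `exists_three_shallow` with `m = 3(k+1) - 3`, colour `R` with the new colour, restrict (`comap`) to the complement of `R`
(`{i // i ∉ R}`), where all depths of the restricted cells are at least `3k - 3`.
-/

set_option linter.unusedSectionVars false

namespace PHP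

open Finset

variable {ι : Type} [Fintype ι] [DecidableEq ι]

theorem main_dep_elim (X : ι → Bool) :
    dep (fun o : Option ι => o.elim false X) = dep X := by
  unfold dep
  have : (univ.filter (fun o : Option ι => o.elim false X = true)) =
      (univ.filter (fun i => X i = true)).map Function.Embedding.some := by
    ext o
    rcases o with _ | i <;> simp
  rw [this, card_map]

theorem main_hit_elim (R : Finset (Option ι)) (X : ι → Bool) :
    hit R (fun o : Option ι => o.elim false X) =
      hit (univ.filter (fun i => some i ∈ R)) X := by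
  unfold hit
  have : (R.filter (fun o : Option ι => o.elim false X = true)) =
      ((univ.filter (fun i => some i ∈ R)).filter (fun i => X i = true)).map
        Function.Embedding.some := by
    ext o
    rcases o with _ | i <;> simp
  rw [this, card_map]

theorem main_good_mono {T T' : Set (ι → Bool)} {m : ℕ} (h : T ⊆ T') (hg : Good T' m) :
    Good T m := by
  obtain ⟨R, hR⟩ := hg
  exact ⟨R, fun X hX => hR X (h hX)⟩

theorem main_good_of_small {T : Set (ι → Bool)} {m : ℕ} (h : ∀ X ∈ T, dep X < m) :
    Good T m := by
  refine ⟨∅, fun X hX hm => ?_⟩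
  have := h X hX
  omega

theorem main_dep_le (X : ι → Bool) : dep X ≤ Fintype.card ι := by
  unfold dep
  exact (card_filter_le _ _)

theorem main_ne_nil {S : Sys ι} {F : ι → Bool} {l : List (ι × Bool)}
    (h : S.Circ F l) (hne : Nonempty ι) : l ≠ [] := by
  obtain ⟨i⟩ := hne
  intro hl
  have := h.2.2 (i, false)
  rw [hl] at this
  exact absurd this (by simp)

theorem main_hit_le_three (X : ι → Bool) (a b c : ι) : hit {a, b, c} X ≤ 3 := by
  unfold hit
  exact (card_filter_le _ _).trans card_le_three

theorem main_hit_three {X : ι → Bool} {a b c : ι}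
    (h : ¬ (X a = true ∧ X b = true ∧ X c = true)) : hit {a, b, c} X ≤ 2 := by
  unfold hit
  by_cases ha : X a = true
  · by_cases hb : X b = true
    · have hc : ¬ X c = true := fun hc => h ⟨ha, hb, hc⟩
      refine (card_le_card (t := {a, b}) ?_).trans card_le_two
      intro i hi
      simp only [mem_filter, mem_insert, mem_singleton] at hi ⊢
      rcases hi with ⟨rfl | rfl | rfl, hi⟩
      · left; rfl
      · right; rfl
      · exact absurd hi hc
    · refine (card_le_card (t := {a, c}) ?_).trans card_le_two
      intro i hi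
      simp only [mem_filter, mem_insert, mem_singleton] at hi ⊢
      rcases hi with ⟨rfl | rfl | rfl, hi⟩
      · left; rfl
      · exact absurd hi hb
      · right; rfl
  · refine (card_le_card (t := {b, c}) ?_).trans card_le_two
    intro i hi
    simp only [mem_filter, mem_insert, mem_singleton] at hi ⊢
    rcases hi with ⟨rfl | rfl | rfl, hi⟩
    · exact absurd hi ha
    · left; rfl
    · right; rfl

theorem main_one_le_hit {R : Finset ι} {X : ι → Bool} {i : ι} (hi : i ∈ R) (hX : X i = true) :
    1 ≤ hit R X := by
  unfold hit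
  exact card_pos.mpr ⟨i, by simp [hi, hX]⟩

theorem main_exists_of_hit {R : Finset ι} {X : ι → Bool} (h : 1 ≤ hit R X) :
    ∃ i ∈ R, X i = true := by
  unfold hit at h
  obtain ⟨i, hi⟩ := card_pos.mp h
  rw [mem_filter] at hi
  exact ⟨i, hi.1, hi.2⟩

/-- restriction to the complement of `R` -/
theorem main_dep_compl (R : Finset ι) (X : ι → Bool) :
    dep (X ∘ (Function.Embedding.subtype (fun i => i ∉ R))) + hit R X = dep X := by
  unfold dep hit
  have h1 : ((univ : Finset {i // i ∉ R}).filter
      (fun i => (X ∘ (Function.Embedding.subtype (fun i => i ∉ R))) i = true)).card =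
      ((univ.filter (fun i => X i = true)).filter (fun i => i ∉ R)).card := by
    rw [← card_map (Function.Embedding.subtype (fun i => i ∉ R))]
    congr 1
    ext i
    simp only [mem_map, mem_filter, mem_univ, true_and, Function.comp_apply,
      Function.Embedding.subtype_apply]
    constructor
    · rintro ⟨a, ha, rfl⟩
      exact ⟨ha, a.2⟩
    · rintro ⟨hX, hi⟩
      exact ⟨⟨i, hi⟩, hX, rfl⟩
  have h2 : (R.filter (fun i => X i = true)).card =
      ((univ.filter (fun i => X i = true)).filter (fun i => ¬ i ∉ R)).card := by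
    congr 1
    ext i
    simp only [mem_filter, mem_univ, true_and, not_not]
    exact and_comm
  rw [h1, h2]
  exact card_filter_add_card_filter_not _

theorem main_hit_map (R : Finset ι) (R' : Finset {i // i ∉ R}) (X : ι → Bool) :
    hit (R'.map (Function.Embedding.subtype (fun i => i ∉ R))) X =
      hit R' (X ∘ (Function.Embedding.subtype (fun i => i ∉ R))) := by
  unfold hit
  rw [filter_map, card_map]
  rfl

theorem main_card_aux (m : ℕ) (hm : 1 ≤ m) : ∀ (n : ℕ) (ι : Type) [Fintype ι] [DecidableEq ι]
    (S : Sys ι) (F : ι → Bool) (l : List (ι × Bool)), S.Circ F l →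
    Fintype.card ι + n = 2 * m + 1 → Good S.T m := by
  intro n
  induction n with
  | zero =>
    intro ι _ _ S F l h hn
    have hne : Nonempty ι := Fintype.card_pos_iff.mp (by omega)
    obtain ⟨S', F', l', h', hT, hc⟩ := h.exists_complete
    obtain ⟨F'', l'', h'', hb⟩ := h'.exists_balanced hc (μ := m + 1) (by omega)
    obtain ⟨W, hW, -⟩ := h''.exists_sweep hc hne
    obtain ⟨a, b, c, -, -, -, habc⟩ := W.exists_triple F'' (m + 1) (by omega) (by omega) hb
    rw [hW] at habc
    refine ⟨{a, b, c}, fun X hX hmX => ?_⟩
    obtain ⟨h3, h0⟩ := habc X (hT hX)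
    constructor
    · by_cases ha : X a = true
      · exact main_one_le_hit (by simp) ha
      · by_cases hb : X b = true
        · exact main_one_le_hit (by simp) hb
        · by_cases hc : X c = true
          · exact main_one_le_hit (by simp) hc
          · have := h0 (by simpa using ha) (by simpa using hb) (by simpa using hc)
            omega
    · by_cases hall : X a = true ∧ X b = true ∧ X c = true
      · have := h3 hall.1 hall.2.1 hall.2.2
        have := main_hit_le_three X a b c
        omega
      · have := main_hit_three hall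
        omega
  | succ n ih =>
    intro ι _ _ S F l h hn
    by_cases hne : Nonempty ι
    · have hF := h.mem_T (main_ne_nil h hne)
      obtain ⟨S', F', l', h', hT⟩ := h.pad hF
      obtain ⟨R, hR⟩ := ih (Option ι) S' F' l' h' (by rw [Fintype.card_option]; omega)
      refine ⟨univ.filter (fun i => some i ∈ R), fun X hX hmX => ?_⟩
      have := hR _ (hT X hX) (by rw [main_dep_elim]; exact hmX)
      rw [main_dep_elim, main_hit_elim] at this
      exact this
    · apply main_good_of_small
      intro X _
      have h1 := main_dep_le X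
      have h2 : Fintype.card ι = 0 := Fintype.card_eq_zero_iff.mpr (not_nonempty_iff.mp hne)
      omega

/-- `P(m)` if there are at most `2m+1` lines. -/
theorem Sys.Circ.good_of_card_le {S : Sys ι} {F : ι → Bool} {l : List (ι × Bool)}
    (h : S.Circ F l) {m : ℕ} (hm : 1 ≤ m) (hn : Fintype.card ι ≤ 2 * m + 1) : Good S.T m :=
  main_card_aux m hm (2 * m + 1 - Fintype.card ι) ι S F l h (by omega)

/-- `P(m)` if some cell has depth at most one. -/
theorem Sys.Circ.good_of_dep_le_one {S : Sys ι} {F : ι → Bool} {l : List (ι × Bool)}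
    (h : S.Circ F l) {m : ℕ} (hm : 1 ≤ m) {O : ι → Bool} (hO : O ∈ S.T) (hd : dep O ≤ 1) :
    Good S.T m := by
  by_cases hne : Nonempty ι
  swap
  · apply main_good_of_small
    intro X _
    have h1 := main_dep_le X
    have h2 : Fintype.card ι = 0 := Fintype.card_eq_zero_iff.mpr (not_nonempty_iff.mp hne)
    omega
  obtain ⟨S', F', l', h', hT, hc⟩ := h.exists_complete
  rcases Nat.eq_zero_or_pos (dep O) with hd0 | hd1
  · obtain ⟨W, hW, -⟩ := h'.exists_sweep hc hne
    have hO0 : O = fun _ => false := by
      funext i
      unfold dep at hd0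
      rw [card_eq_zero, filter_eq_empty_iff] at hd0
      have := hd0 (mem_univ i)
      simpa using this
    obtain ⟨R, hR⟩ := W.good_zero F' (by rw [hW, ← hO0]; exact hT hO) hm
    rw [hW] at hR
    refine ⟨R, fun X hX hmX => ?_⟩
    obtain ⟨h1, h2⟩ := hR X (hT hX) hmX
    exact ⟨h1, by omega⟩
  · have hdO : dep O = 1 := by omega
    by_cases hm1 : m = 1
    · subst hm1
      refine ⟨univ, fun X hX hmX => ?_⟩
      have : hit univ X = dep X := rfl
      omega
    · have hd' := hdO
      unfold dep at hdO
      obtain ⟨g, hg⟩ := card_eq_one.mp hdO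
      have hog : ∀ i, O i = true ↔ i = g := by
        intro i
        have := congrArg (fun s => i ∈ s) hg
        simpa using this
      obtain ⟨S'', l'', h'', hT'', hcr⟩ :=
        h'.comap (Function.Embedding.subtype (fun i => i ∉ ({g} : Finset ι)))
      have hcomp : ∀ X : ι → Bool, dep (X ∘ (Function.Embedding.subtype
          (fun i => i ∉ ({g} : Finset ι)))) + hit {g} X = dep X := main_dep_compl {g}
      have hhit : ∀ X : ι → Bool, hit {g} X ≤ 1 := by
        intro X
        unfold hit
        exact (card_filter_le _ _).trans (by simp)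
      by_cases hne' : Nonempty {i // i ∉ ({g} : Finset ι)}
      swap
      · apply main_good_of_small
        intro X _
        have h0 : dep (X ∘ (Function.Embedding.subtype (fun i => i ∉ ({g} : Finset ι)))) = 0 := by
          have h1 := main_dep_le (X ∘ (Function.Embedding.subtype (fun i => i ∉ ({g} : Finset ι))))
          have h2 : Fintype.card {i // i ∉ ({g} : Finset ι)} = 0 :=
            Fintype.card_eq_zero_iff.mpr (not_nonempty_iff.mp hne')
          omega
        have := hcomp X
        have := hhit X
        omega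
      · have hc'' : S''.Complete := by
          intro a b hab
          rw [hcr]
          exact hc _ _ (fun hh => hab (Subtype.ext hh))
        obtain ⟨W, hW, -⟩ := h''.exists_sweep hc'' hne'
        have hO0 : (fun _ => false) = O ∘ (Function.Embedding.subtype
            (fun i => i ∉ ({g} : Finset ι))) := by
          funext i
          have h1 : ¬ O i.1 = true := by
            rw [hog]
            exact fun hh => i.2 (by simp [hh])
          simp only [Function.comp_apply, Function.Embedding.subtype_apply]
          simpa using h1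
        obtain ⟨R, hR⟩ := W.good_zero _ (m := m - 1)
          (by rw [hW, hT'']; exact ⟨O, hT hO, hO0⟩) (by omega)
        rw [hW] at hR
        refine ⟨R.map (Function.Embedding.subtype (fun i => i ∉ ({g} : Finset ι))),
          fun X hX hmX => ?_⟩
        have h1 := hcomp X
        have h2 := hhit X
        obtain ⟨h3, h4⟩ := hR (X ∘ (Function.Embedding.subtype (fun i => i ∉ ({g} : Finset ι))))
          (by rw [hT'']; exact ⟨X, hT hX, rfl⟩) (by omega)
        rw [main_hit_map]
        exact ⟨h3, by omega⟩

/-- In a complete system with all depths at least one there is a covering triple whose triple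
intersection has depth at least two more than the minimal depth. -/
theorem Sys.Circ.exists_covering {S : Sys ι} {F : ι → Bool} {l : List (ι × Bool)}
    (h : S.Circ F l) (hc : S.Complete) {d : ℕ} (hd1 : 1 ≤ d) (hd : ∀ X ∈ S.T, d ≤ dep X)
    {z : ι → Bool} (hz : z ∈ S.T) (hzd : dep z = d) :
    ∃ a b c : ι, a ≠ b ∧ b ≠ c ∧ a ≠ c ∧
      (∀ X ∈ S.T, X a = true ∨ X b = true ∨ X c = true) ∧
      (∀ X ∈ S.T, X a = true → X b = true → X c = true → d + 2 ≤ dep X) := by
  obtain ⟨s, hs⟩ : ∃ s, z s = true := by
    rw [← hzd] at hd1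
    unfold dep at hd1
    obtain ⟨s, hs⟩ := card_pos.mp hd1
    rw [mem_filter] at hs
    exact ⟨s, hs.2⟩
  obtain ⟨F', ε, l', h', hF'⟩ := h.exists_start s
  obtain ⟨W, hW, hW0⟩ := h'.exists_sweep hc ⟨s⟩
  have h0 : W.pos 0 s = 0 := hW0 (s, ε) l' rfl
  obtain ⟨p, q, hpq, hps, hqs, h1, h2⟩ := W.exists_covering F' h0 hF' (d := d)
    (by rw [hW]; exact hd) (z := z) (by rw [hW]; exact hz) hzd hs
  rw [hW] at h1 h2
  exact ⟨s, p, q, hps.symm, hpq, hqs.symm, h1, h2⟩

theorem main_exists_min {T : Set (ι → Bool)} (hT : T.Nonempty) :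
    ∃ z ∈ T, ∀ X ∈ T, dep z ≤ dep X := by
  have hne : (dep '' T).Nonempty := hT.image _
  obtain ⟨z, hz, hzd⟩ := Nat.sInf_mem hne
  exact ⟨z, hz, fun X hX => by rw [hzd]; exact Nat.sInf_le ⟨X, hX, rfl⟩⟩

/-- `P(3)` always holds. -/
theorem Sys.Circ.good_three {S : Sys ι} {F : ι → Bool} {l : List (ι × Bool)}
    (h : S.Circ F l) : Good S.T 3 := by
  obtain ⟨S', F', l', h', hT, hc⟩ := h.exists_complete
  refine main_good_mono hT ?_
  by_cases hle : ∃ X ∈ S'.T, dep X ≤ 1
  · obtain ⟨O, hO, hd⟩ := hle
    exact h'.good_of_dep_le_one (by norm_num) hO hd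
  · push Not at hle
    by_cases hne : S'.T.Nonempty
    swap
    · rw [Set.not_nonempty_iff_eq_empty] at hne
      apply main_good_of_small
      intro X hX
      rw [hne] at hX
      exact absurd hX (by simp)
    obtain ⟨z, hz, hzm⟩ := main_exists_min hne
    have hz2 := hle z hz
    obtain ⟨a, b, c, -, -, -, hcov, hdeep⟩ :=
      h'.exists_covering hc (d := dep z) (by omega) hzm hz rfl
    refine ⟨{a, b, c}, fun X hX hmX => ?_⟩
    constructor
    · rcases hcov X hX with h1 | h1 | h1
      · exact main_one_le_hit (by simp) h1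
      · exact main_one_le_hit (by simp) h1
      · exact main_one_le_hit (by simp) h1
    · by_cases hall : X a = true ∧ X b = true ∧ X c = true
      · have := hdeep X hX hall.1 hall.2.1 hall.2.2
        have := main_hit_le_three X a b c
        omega
      · have := main_hit_three hall
        omega

/-- Losing three at a time is always possible. -/
theorem Sys.Circ.exists_three_shallow {S : Sys ι} {F : ι → Bool} {l : List (ι × Bool)}
    (h : S.Circ F l) {m : ℕ} (hm : 1 ≤ m) :
    ∃ R : Finset ι, ∀ X ∈ S.T, m ≤ dep X → 1 ≤ hit R X ∧ hit R X + m ≤ dep X + 3 := by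
  obtain ⟨S', F', l', h', hT, hc⟩ := h.exists_complete
  by_cases hle : ∃ X ∈ S'.T, dep X ≤ 0
  · obtain ⟨O, hO, hd⟩ := hle
    obtain ⟨R, hR⟩ := h'.good_of_dep_le_one hm hO (by omega)
    refine ⟨R, fun X hX hmX => ?_⟩
    obtain ⟨h1, h2⟩ := hR X (hT hX) hmX
    exact ⟨h1, by omega⟩
  · push Not at hle
    by_cases hne : S'.T.Nonempty
    swap
    · rw [Set.not_nonempty_iff_eq_empty] at hne
      refine ⟨∅, fun X hX => ?_⟩
      have := hT hX
      rw [hne] at this
      exact absurd this (by simp)
    obtain ⟨z, hz, hzm⟩ := main_exists_min hne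
    have hz2 := hle z hz
    obtain ⟨a, b, c, -, -, -, hcov, hdeep⟩ :=
      h'.exists_covering hc (d := dep z) (by omega) hzm hz rfl
    refine ⟨{a, b, c}, fun X hX hmX => ?_⟩
    constructor
    · rcases hcov X (hT hX) with h1 | h1 | h1
      · exact main_one_le_hit (by simp) h1
      · exact main_one_le_hit (by simp) h1
      · exact main_one_le_hit (by simp) h1
    · have := main_hit_le_three X a b c
      omega

theorem main_split_aux : ∀ (k : ℕ) (_ : 2 ≤ k) (ι : Type) [Fintype ι] [DecidableEq ι]
    (S : Sys ι) (F : ι → Bool) (l : List (ι × Bool)), S.Circ F l →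
    ∀ (T' : Set (ι → Bool)), T' ⊆ S.T → (∀ X ∈ T', 3 * k ≤ dep X + 3) →
    ∃ c : ι → Fin k, ∀ X ∈ T', ∀ j, ∃ i, c i = j ∧ X i = true := by
  intro k hk
  induction k, hk using Nat.le_induction with
  | base =>
    intro ι _ _ S F l h T' hT hcov
    obtain ⟨R, hR⟩ := h.good_three
    refine ⟨fun i => if i ∈ R then 0 else 1, fun X hX j => ?_⟩
    have h1 := hcov X hX
    obtain ⟨h2, h3⟩ := hR X (hT hX) (by omega)
    have hj : j = 0 ∨ j = 1 := by fin_cases j <;> simp
    rcases hj with rfl | rfl
    · obtain ⟨i, hi, hXi⟩ := main_exists_of_hit h2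
      exact ⟨i, by simp [hi], hXi⟩
    · have h4 := main_dep_compl R X
      have h5 : 0 < dep (X ∘ (Function.Embedding.subtype (fun i => i ∉ R))) := by omega
      unfold dep at h5
      obtain ⟨i, hi⟩ := card_pos.mp h5
      rw [mem_filter] at hi
      exact ⟨i.1, by simp [i.2], hi.2⟩
  | succ k hk ih =>
    intro ι _ _ S F l h T' hT hcov
    obtain ⟨R, hR⟩ := h.exists_three_shallow (m := 3 * k) (by omega)
    obtain ⟨S'', l'', h'', hT'', -⟩ :=
      h.comap (Function.Embedding.subtype (fun i => i ∉ R))
    obtain ⟨c, hc⟩ := ih {i // i ∉ R} S'' _ l'' h''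
      ((fun X : ι → Bool => X ∘ (Function.Embedding.subtype (fun i => i ∉ R))) '' T')
      (by
        rintro _ ⟨X, hX, rfl⟩
        rw [hT'']
        exact ⟨X, hT hX, rfl⟩)
      (by
        rintro _ ⟨X, hX, rfl⟩
        have h1 := hcov X hX
        obtain ⟨-, h3⟩ := hR X (hT hX) (by omega)
        have h4 := main_dep_compl R X
        simp only
        omega)
    refine ⟨fun i => if hi : i ∈ R then Fin.last k else (c ⟨i, hi⟩).castSucc,
      fun X hX j => ?_⟩
    have h1 := hcov X hX
    obtain ⟨h2, h3⟩ := hR X (hT hX) (by omega)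
    induction j using Fin.lastCases with
    | last =>
      obtain ⟨i, hi, hXi⟩ := main_exists_of_hit h2
      exact ⟨i, by simp [hi], hXi⟩
    | cast j =>
      obtain ⟨i, hi, hXi⟩ := hc _ ⟨X, hX, rfl⟩ j
      refine ⟨i.1, ?_, hXi⟩
      show (if hi : i.1 ∈ R then Fin.last k else (c ⟨i.1, hi⟩).castSucc) = j.castSucc
      rw [dif_neg i.2, ← hi]

/-- Main combinatorial statement: `3k-3` suffices for `k ≥ 2`. -/
theorem Sys.Circ.split {S : Sys ι} {F : ι → Bool} {l : List (ι × Bool)}
    (h : S.Circ F l) (k : ℕ) (hk : 2 ≤ k) (T' : Set (ι → Bool)) (hT : T' ⊆ S.T)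
    (hcov : ∀ X ∈ T', 3 * k ≤ dep X + 3) :
    ∃ c : ι → Fin k, ∀ X ∈ T', ∀ j, ∃ i, c i = j ∧ X i = true :=
  main_split_aux k hk ι S F l h T' hT hcov

end PHP
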