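import Mathlib
import Pool.Agent.PHP.Main

/-!
# Splitting when some cell has depth at most `d`

`2k-2+d` suffices for `k` colours. Step: if some cell of the completed system has depth at most one,
use `P(m)` (loss two, and the condition is inherited with `d = 1`); otherwise remove a covering
triple (loss at most three) which also lowers the depth of the given cell, so `d` becomes `d-1`.
-/

namespace PHP

open Finset

theorem mainD_colour {ι : Type} [Fintype ι] [DecidableEq ι] {k : ℕ} (R : Finset ι)
    (T' : Set (ι → Bool)) (hR : ∀ X ∈ T', 1 ≤ hit R X) (c : {i // i ∉ R} → Fin k)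
    (hc : ∀ X ∈ (fun X : ι → Bool => X ∘ (Function.Embedding.subtype (fun i => i ∉ R))) '' T',
      ∀ j, ∃ i, c i = j ∧ X i = true) :
    ∃ c : ι → Fin (k+1), ∀ X ∈ T', ∀ j, ∃ i, c i = j ∧ X i = true := by
  refine ⟨fun i => if hi : i ∈ R then Fin.last k else (c ⟨i, hi⟩).castSucc,
    fun X hX j => ?_⟩
  induction j using Fin.lastCases with
  | last =>
    obtain ⟨i, hi, hXi⟩ := main_exists_of_hit (hR X hX)
    exact ⟨i, by simp [hi], hXi⟩
  | cast j =>
    obtain ⟨i, hi, hXi⟩ := hc _ ⟨X, hX, rfl⟩ j
    refine ⟨i.1, ?_, hXi⟩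
    show (if hi : i.1 ∈ R then Fin.last k else (c ⟨i.1, hi⟩).castSucc) = j.castSucc
    rw [dif_neg i.2, ← hi]

theorem mainD_aux : ∀ (k : ℕ) (_ : 1 ≤ k) (ι : Type) [Fintype ι] [DecidableEq ι]
    (S : Sys ι) (F : ι → Bool) (l : List (ι × Bool)), S.Circ F l →
    ∀ (d : ℕ) (_ : 1 ≤ d) (O : ι → Bool), O ∈ S.T → dep O ≤ d →
    ∀ (T' : Set (ι → Bool)), T' ⊆ S.T → (∀ X ∈ T', 2 * k + d ≤ dep X + 2) →
    ∃ c : ι → Fin k, ∀ X ∈ T', ∀ j, ∃ i, c i = j ∧ X i = true := by
  intro k hk
  induction k, hk using Nat.le_induction with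
  | base =>
    intro ι _ _ S F l h d hd O hO hOd T' hT hcov
    refine ⟨fun _ => 0, fun X hX j => ?_⟩
    have h1 := hcov X hX
    have h5 : 0 < dep X := by omega
    unfold dep at h5
    obtain ⟨i, hi⟩ := card_pos.mp h5
    rw [mem_filter] at hi
    exact ⟨i, Subsingleton.elim _ _, hi.2⟩
  | succ k hk ih =>
    intro ι _ _ S F l h d hd O hO hOd T' hT hcov
    obtain ⟨S', F', l', h', hTT, hc⟩ := h.exists_complete
    by_cases hle : ∃ X ∈ S'.T, dep X ≤ 1
    · obtain ⟨O', hO', hO'd⟩ := hle
      obtain ⟨R, hR⟩ := h'.good_of_dep_le_one (m := 2 * k + d) (by omega) hO' hO'd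
      obtain ⟨S'', l'', h'', hT'', -⟩ :=
        h'.comap (Function.Embedding.subtype (fun i => i ∉ R))
      obtain ⟨c, hc⟩ := ih {i // i ∉ R} S'' _ l'' h'' 1 le_rfl
        (O' ∘ (Function.Embedding.subtype (fun i => i ∉ R)))
        (by rw [hT'']; exact ⟨O', hO', rfl⟩)
        (by have := main_dep_compl R O'; omega)
        ((fun X : ι → Bool => X ∘ (Function.Embedding.subtype (fun i => i ∉ R))) '' T')
        (by
          rintro _ ⟨X, hX, rfl⟩
          rw [hT'']
          exact ⟨X, hTT (hT hX), rfl⟩)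
        (by
          rintro _ ⟨X, hX, rfl⟩
          have h1 := hcov X hX
          obtain ⟨-, h3⟩ := hR X (hTT (hT hX)) (by omega)
          have h4 := main_dep_compl R X
          simp only
          omega)
      exact mainD_colour R T' (fun X hX => (hR X (hTT (hT hX)) (by
        have := hcov X hX; omega)).1) c hc
    · push Not at hle
      have hO2 := hle O (hTT hO)
      obtain ⟨z, hz, hzm⟩ := main_exists_min (T := S'.T) ⟨O, hTT hO⟩
      have hz2 := hle z hz
      obtain ⟨a, b, c, -, -, -, hcv, -⟩ :=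
        h'.exists_covering hc (d := dep z) (by omega) hzm hz rfl
      have hhit : ∀ X ∈ S'.T, 1 ≤ hit {a, b, c} X := by
        intro X hX
        rcases hcv X hX with h1 | h1 | h1
        · exact main_one_le_hit (by simp) h1
        · exact main_one_le_hit (by simp) h1
        · exact main_one_le_hit (by simp) h1
      obtain ⟨S'', l'', h'', hT'', -⟩ :=
        h'.comap (Function.Embedding.subtype (fun i => i ∉ ({a, b, c} : Finset ι)))
      obtain ⟨cc, hcc⟩ := ih {i // i ∉ ({a, b, c} : Finset ι)} S'' _ l'' h'' (d-1) (by omega)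
        (O ∘ (Function.Embedding.subtype (fun i => i ∉ ({a, b, c} : Finset ι))))
        (by rw [hT'']; exact ⟨O, hTT hO, rfl⟩)
        (by
          have h1 := main_dep_compl {a, b, c} O
          have h2 := hhit O (hTT hO)
          omega)
        ((fun X : ι → Bool =>
          X ∘ (Function.Embedding.subtype (fun i => i ∉ ({a, b, c} : Finset ι)))) '' T')
        (by
          rintro _ ⟨X, hX, rfl⟩
          rw [hT'']
          exact ⟨X, hTT (hT hX), rfl⟩)
        (by
          rintro _ ⟨X, hX, rfl⟩
          have h1 := hcov X hX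
          have h3 := main_hit_le_three X a b c
          have h4 := main_dep_compl {a, b, c} X
          simp only
          omega)
      exact mainD_colour {a, b, c} T' (fun X hX => hhit X (hTT (hT hX))) cc hcc

end PHP
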