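import Mathlib
import Pool.Agent.PHP.MainD

/-!
# Splitting a system with few elements, and splitting a part that misses a cell

`Sys.Circ.split_small`: if `6k + n ≤ 4m + 5` then `k` colours are possible for cells of depth `≥ m`:
as long as `n ≤ 2m+1` one uses `P(m)` (`good_of_card_le`), afterwards `3k-3` suffices.
-/

namespace PHP

open Finset

variable {ι : Type}

theorem asym_hit_le_card (R : Finset ι) (X : ι → Bool) : hit R X ≤ R.card := by
  unfold hit
  exact card_filter_le _ _

theorem asym_split_small : ∀ (k : ℕ) (_ : 1 ≤ k) (ι : Type) [Fintype ι] [DecidableEq ι]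
    (S : Sys ι) (F : ι → Bool) (l : List (ι × Bool)), S.Circ F l →
    ∀ (m : ℕ) (T' : Set (ι → Bool)), T' ⊆ S.T → (∀ X ∈ T', m ≤ dep X) →
    6 * k + Fintype.card ι ≤ 4 * m + 5 →
    ∃ c : ι → Fin k, ∀ X ∈ T', ∀ j, ∃ i, c i = j ∧ X i = true := by
  intro k hk
  induction k, hk using Nat.le_induction with
  | base =>
    intro ι _ _ S F l h m T' hT hm hn
    refine ⟨fun _ => 0, fun X hX j => ?_⟩
    have h1 := hm X hX
    have h5 : 0 < dep X := by omega
    unfold dep at h5
    obtain ⟨i, hi⟩ := card_pos.mp h5
    rw [mem_filter] at hi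
    exact ⟨i, Subsingleton.elim _ _, hi.2⟩
  | succ k hk ih =>
    intro ι _ _ S F l h m T' hT hm hn
    by_cases hbig : Fintype.card ι ≤ 2 * m + 1
    · obtain ⟨R, hR⟩ := h.good_of_card_le (m := m) (by omega) hbig
      by_cases hne : T'.Nonempty
      swap
      · rw [Set.not_nonempty_iff_eq_empty] at hne
        subst hne
        exact ⟨fun _ => 0, fun X hX => absurd hX (by simp)⟩
      obtain ⟨X₀, hX₀⟩ := hne
      obtain ⟨S'', l'', h'', hT'', -⟩ :=
        h.comap (Function.Embedding.subtype (fun i => i ∉ R))
      have hcard : Fintype.card {i // i ∉ R} + R.card = Fintype.card ι := by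
        have h1 := Fintype.card_subtype_compl (fun i => i ∈ R)
        have h2 : Fintype.card {i // i ∈ R} = R.card := Fintype.card_coe R
        have h3 : R.card ≤ Fintype.card ι := Finset.card_le_univ R
        have h4 : Fintype.card {i // i ∉ R} = Fintype.card ι - R.card := by
          rw [← h2, ← h1]
        omega
      -- the new lower bound
      have hRpos : 1 ≤ R.card := (hR X₀ (hT hX₀) (hm X₀ hX₀)).1.trans (asym_hit_le_card R X₀)
      obtain ⟨c, hc⟩ := ih {i // i ∉ R} S'' _ l'' h'' (if R.card = 1 then m - 1 else m - 2)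
        ((fun X : ι → Bool => X ∘ (Function.Embedding.subtype (fun i => i ∉ R))) '' T')
        (by
          rintro _ ⟨X, hX, rfl⟩
          rw [hT'']
          exact ⟨X, hT hX, rfl⟩)
        (by
          rintro _ ⟨X, hX, rfl⟩
          have h1 := hm X hX
          obtain ⟨-, h3⟩ := hR X (hT hX) h1
          have h4 := main_dep_compl R X
          have h5 := asym_hit_le_card R X
          simp only
          split_ifs with hif <;> omega)
        (by split_ifs with hif <;> omega)
      exact mainD_colour R T' (fun X hX => (hR X (hT hX) (hm X hX)).1) c hc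
    · obtain ⟨c, hc⟩ := h.split (k + 1) (by omega) T' hT (fun X hX => by
        have := hm X hX
        omega)
      exact ⟨c, hc⟩

end PHP
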