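import Mathlib
import Pool.Agent.PHP.AsymT

/-!
# Colouring only a subset of the elements
-/

namespace PHP

open Finset

variable {ι : Type} [Fintype ι] [DecidableEq ι]

theorem asym_dep_sub (V : Finset ι) (X : ι → Bool) :
    dep (X ∘ (Function.Embedding.subtype (fun i => i ∈ V))) = hit V X := by
  unfold dep hit
  rw [← card_map (Function.Embedding.subtype (fun i => i ∈ V))]
  congr 1
  ext i
  simp only [mem_map, mem_filter, mem_univ, true_and, Function.comp_apply,
    Function.Embedding.subtype_apply]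
  constructor
  · rintro ⟨a, ha, rfl⟩
    exact ⟨a.2, ha⟩
  · rintro ⟨hi, hX⟩
    exact ⟨⟨i, hi⟩, hX, rfl⟩

/-- extend a colouring of `V` -/
theorem asym_extend {k : ℕ} (hk : 1 ≤ k) (V : Finset ι) (T' : Set (ι → Bool))
    (c : {i // i ∈ V} → Fin k)
    (hc : ∀ X ∈ (fun X : ι → Bool => X ∘ (Function.Embedding.subtype (fun i => i ∈ V))) '' T',
      ∀ j, ∃ i, c i = j ∧ X i = true) :
    ∃ c : ι → Fin k, ∀ X ∈ T', ∀ j, ∃ i ∈ V, c i = j ∧ X i = true := by
  refine ⟨fun i => if hi : i ∈ V then c ⟨i, hi⟩ else ⟨0, hk⟩, fun X hX j => ?_⟩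
  obtain ⟨i, hi, hXi⟩ := hc _ ⟨X, hX, rfl⟩ j
  refine ⟨i.1, i.2, ?_, hXi⟩
  simp only
  rw [dif_pos i.2, ← hi]

/-- few elements -/
theorem Sys.Circ.asym_small {S : Sys ι} {F : ι → Bool} {l : List (ι × Bool)}
    (h : S.Circ F l) {k m : ℕ} (hk : 1 ≤ k) (V : Finset ι) (T' : Set (ι → Bool)) (hT : T' ⊆ S.T)
    (hm : ∀ X ∈ T', m ≤ hit V X) (hn : 6 * k + V.card ≤ 4 * m + 5) :
    ∃ c : ι → Fin k, ∀ X ∈ T', ∀ j, ∃ i ∈ V, c i = j ∧ X i = true := by
  obtain ⟨S'', l'', h'', hT'', -⟩ :=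
    h.comap (Function.Embedding.subtype (fun i => i ∈ V))
  obtain ⟨c, hc⟩ := asym_split_small k hk {i // i ∈ V} S'' _ l'' h'' m
    ((fun X : ι → Bool => X ∘ (Function.Embedding.subtype (fun i => i ∈ V))) '' T')
    (by
      rintro _ ⟨X, hX, rfl⟩
      rw [hT'']
      exact ⟨X, hT hX, rfl⟩)
    (by
      rintro _ ⟨X, hX, rfl⟩
      simp only
      rw [asym_dep_sub]
      exact hm X hX)
    (by
      have h2 : Fintype.card {i // i ∈ V} = V.card := Fintype.card_coe V
      omega)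
  exact asym_extend hk V T' c hc

/-- a part that misses a cell -/
theorem Sys.Circ.asym_zero {S : Sys ι} {F : ι → Bool} {l : List (ι × Bool)}
    (h : S.Circ F l) {k : ℕ} (hk : 1 ≤ k) (V : Finset ι) {z : ι → Bool} (hz : z ∈ S.T)
    (hzV : ∀ i ∈ V, z i = false) (T' : Set (ι → Bool)) (hT : T' ⊆ S.T)
    (hm : ∀ X ∈ T', 2 * k ≤ hit V X + 1) :
    ∃ c : ι → Fin k, ∀ X ∈ T', ∀ j, ∃ i ∈ V, c i = j ∧ X i = true := by
  obtain ⟨S'', l'', h'', hT'', -⟩ :=
    h.comap (Function.Embedding.subtype (fun i => i ∈ V))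
  obtain ⟨c, hc⟩ := mainD_aux k hk {i // i ∈ V} S'' _ l'' h'' 1 le_rfl
    (z ∘ (Function.Embedding.subtype (fun i => i ∈ V)))
    (by rw [hT'']; exact ⟨z, hz, rfl⟩)
    (by
      rw [asym_dep_sub]
      unfold hit
      have : V.filter (fun i => z i = true) = ∅ := by
        rw [filter_eq_empty_iff]
        intro i hi
        rw [hzV i hi]
        simp
      rw [this]
      simp)
    ((fun X : ι → Bool => X ∘ (Function.Embedding.subtype (fun i => i ∈ V))) '' T')
    (by
      rintro _ ⟨X, hX, rfl⟩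
      rw [hT'']
      exact ⟨X, hT hX, rfl⟩)
    (by
      rintro _ ⟨X, hX, rfl⟩
      simp only
      rw [asym_dep_sub]
      have := hm X hX
      omega)
  exact asym_extend hk V T' c hc

/-- a covering triple inside a part that hits every cell -/
theorem Sys.Circ.asym_covering {S : Sys ι} {F : ι → Bool} {l : List (ι × Bool)}
    (h : S.Circ F l) (hc : S.Complete) (hne : S.T.Nonempty) (V : Finset ι)
    (hV : ∀ X ∈ S.T, 1 ≤ hit V X) :
    ∃ t : Finset ι, t ⊆ V ∧ t.card = 3 ∧ ∀ X ∈ S.T, 1 ≤ hit t X := by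
  obtain ⟨S'', l'', h'', hT'', hcr⟩ :=
    h.comap (Function.Embedding.subtype (fun i => i ∈ V))
  have hc'' : S''.Complete := by
    intro a b hab
    rw [hcr]
    exact hc _ _ (fun hh => hab (Subtype.ext hh))
  have hne'' : S''.T.Nonempty := by
    obtain ⟨X, hX⟩ := hne
    exact ⟨X ∘ (Function.Embedding.subtype (fun i => i ∈ V)), by rw [hT'']; exact ⟨X, hX, rfl⟩⟩
  obtain ⟨z, hz, hzm⟩ := main_exists_min hne''
  have hz1 : 1 ≤ dep z := by
    rw [hT''] at hz
    obtain ⟨X, hX, rfl⟩ := hz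
    rw [asym_dep_sub]
    exact hV X hX
  obtain ⟨a, b, c, hab, hbc, hac, hcv, -⟩ :=
    h''.exists_covering hc'' (d := dep z) hz1 hzm hz rfl
  refine ⟨{a.1, b.1, c.1}, ?_, ?_, ?_⟩
  · intro i hi
    simp only [mem_insert, mem_singleton] at hi
    rcases hi with rfl | rfl | rfl
    · exact a.2
    · exact b.2
    · exact c.2
  · rw [card_eq_three]
    exact ⟨a.1, b.1, c.1, fun hh => hab (Subtype.ext hh), fun hh => hac (Subtype.ext hh),
      fun hh => hbc (Subtype.ext hh), rfl⟩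
  · intro X hX
    have h1 := hcv (X ∘ (Function.Embedding.subtype (fun i => i ∈ V)))
      (by rw [hT'']; exact ⟨X, hX, rfl⟩)
    simp only [Function.comp_apply, Function.Embedding.subtype_apply] at h1
    rcases h1 with h1 | h1 | h1
    · exact main_one_le_hit (by simp) h1
    · exact main_one_le_hit (by simp) h1
    · exact main_one_le_hit (by simp) h1

/-- A maximal family of disjoint covering triples; what remains misses a cell. -/
theorem Sys.Circ.asym_packing {S : Sys ι} {F : ι → Bool} {l : List (ι × Bool)}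
    (h : S.Circ F l) (hc : S.Complete) (hne : S.T.Nonempty) :
    ∃ P : Finset (Finset ι), (∀ t ∈ P, t.card = 3 ∧ ∀ X ∈ S.T, 1 ≤ hit t X) ∧
      (P : Set (Finset ι)).PairwiseDisjoint id ∧
      ∃ z ∈ S.T, ∀ i, i ∉ P.biUnion id → z i = false := by
  classical
  obtain ⟨P, hP, hPmax⟩ := (univ.filter (fun P : Finset (Finset ι) =>
      (∀ t ∈ P, t.card = 3 ∧ ∀ X ∈ S.T, 1 ≤ hit t X) ∧
      (P : Set (Finset ι)).PairwiseDisjoint id)).exists_max_image Finset.card
      ⟨∅, by simp⟩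
  rw [mem_filter] at hP
  refine ⟨P, hP.2.1, hP.2.2, ?_⟩
  by_contra hcon
  push Not at hcon
  obtain ⟨t, ht1, ht2, ht3⟩ := h.asym_covering hc hne (univ \ P.biUnion id) (by
    intro X hX
    obtain ⟨i, hi, hi2⟩ := hcon X hX
    exact main_one_le_hit (i := i) (by simpa using hi) (by simpa using hi2))
  have hdis : ∀ s ∈ P, Disjoint s t := by
    intro s hs
    rw [Finset.disjoint_left]
    intro i hi1 hi2
    have h1 := ht1 hi2
    rw [mem_sdiff] at h1
    exact h1.2 (mem_biUnion.2 ⟨s, hs, hi1⟩)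
  have htP : t ∉ P := by
    intro htP
    have h1 := hdis t htP
    rw [disjoint_self_iff_empty] at h1
    rw [h1] at ht2
    simp at ht2
  have h1 := hPmax (insert t P) (by
    rw [mem_filter]
    refine ⟨mem_univ _, ?_, ?_⟩
    · intro s hs
      rw [mem_insert] at hs
      rcases hs with rfl | hs
      · exact ⟨ht2, ht3⟩
      · exact hP.2.1 s hs
    · rw [coe_insert]
      rw [Set.pairwiseDisjoint_insert_of_notMem (by simpa using htP)]
      exact ⟨hP.2.2, fun s hs => (hdis s hs).symm⟩)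
  rw [card_insert_of_notMem htP] at h1
  omega

end PHP
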