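import Mathlib
import Pool.Agent.PHP.AsymSub
import Pool.Agent.PHP.AsymCount
import Pool.Agent.PHP.AsymSample

/-!
# A leading constant below three

Take a maximal family `P` of disjoint covering triples; the rest `V` misses a cell. Few triples: the
triples and `V` give all colours. Many triples: sample one fifth `Q` of them; cells which are shallow
on the union of `P` are deep on `V` and conversely the others are deep on the union of `Q`.
-/

namespace PHP

open Finset

variable {ι : Type} [DecidableEq ι]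

/-- number of elements of `R` missing the cell -/
def asymMis (R : Finset ι) (X : ι → Bool) : ℕ := (R.filter (fun i => X i = false)).card

theorem asym_hit_add_mis (R : Finset ι) (X : ι → Bool) : hit R X + asymMis R X = R.card := by
  unfold hit asymMis
  have h := card_filter_add_card_filter_not (s := R) (fun i => X i = true)
  simp only [Bool.not_eq_true] at h
  exact h

theorem asym_mis_biUnion {P : Finset (Finset ι)} (hP : (P : Set (Finset ι)).PairwiseDisjoint id)
    (X : ι → Bool) : asymMis (P.biUnion id) X = ∑ t ∈ P, asymMis t X := by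
  unfold asymMis
  rw [filter_biUnion, card_biUnion]
  · rfl
  · intro s hs t ht hst
    exact (hP hs ht hst).mono (filter_subset _ _) (filter_subset _ _)

theorem asym_card_biUnion {P : Finset (Finset ι)} (hP : (P : Set (Finset ι)).PairwiseDisjoint id)
    (h3 : ∀ t ∈ P, t.card = 3) : (P.biUnion id).card = 3 * P.card := by
  rw [card_biUnion hP]
  rw [sum_congr rfl (fun t ht => (h3 t ht : (id t).card = 3))]
  simp [mul_comm]

/-- add a colour class -/
theorem asym_glue_one [Fintype ι] {κ : ℕ} {V t : Finset ι} {T' : Set (ι → Bool)} (hd : Disjoint V t)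
    (h : ∃ c : ι → ℕ, ∀ X ∈ T', ∀ j < κ, ∃ i ∈ V, c i = j ∧ X i = true)
    (ht : ∀ X ∈ T', 1 ≤ hit t X) :
    ∃ c : ι → ℕ, ∀ X ∈ T', ∀ j < κ + 1, ∃ i ∈ V ∪ t, c i = j ∧ X i = true := by
  obtain ⟨c, hc⟩ := h
  refine ⟨fun i => if i ∈ t then κ else c i, fun X hX j hj => ?_⟩
  by_cases hjk : j = κ
  · obtain ⟨i, hi, hXi⟩ := main_exists_of_hit (ht X hX)
    exact ⟨i, mem_union_right _ hi, by simp [hi, hjk], hXi⟩
  · obtain ⟨i, hi, hci, hXi⟩ := hc X hX j (by omega)
    refine ⟨i, mem_union_left _ hi, ?_, hXi⟩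
    simp only
    rw [if_neg (disjoint_left.1 hd hi)]
    exact hci

/-- add several colour classes -/
theorem asym_glue [Fintype ι] {T' : Set (ι → Bool)} (P : Finset (Finset ι)) :
    (P : Set (Finset ι)).PairwiseDisjoint id → (∀ t ∈ P, ∀ X ∈ T', 1 ≤ hit t X) →
    ∀ (κ : ℕ) (V : Finset ι), (∀ t ∈ P, Disjoint V t) →
    (∃ c : ι → ℕ, ∀ X ∈ T', ∀ j < κ, ∃ i ∈ V, c i = j ∧ X i = true) →
    ∃ c : ι → ℕ, ∀ X ∈ T', ∀ j < κ + P.card, ∃ i, c i = j ∧ X i = true := by
  induction P using Finset.induction_on with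
  | empty =>
    intro _ _ κ V _ ⟨c, hc⟩
    refine ⟨c, fun X hX j hj => ?_⟩
    obtain ⟨i, -, h1, h2⟩ := hc X hX j (by simpa using hj)
    exact ⟨i, h1, h2⟩
  | insert t P htP ih =>
    intro hPd hPc κ V hV hc
    rw [coe_insert, Set.pairwiseDisjoint_insert_of_notMem (by simpa using htP)] at hPd
    have h1 := asym_glue_one (hV t (mem_insert_self _ _)) hc (hPc t (mem_insert_self _ _))
    obtain ⟨c', hc'⟩ := ih hPd.1 (fun s hs => hPc s (mem_insert_of_mem hs)) (κ + 1) (V ∪ t)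
      (fun s hs => by
        rw [disjoint_union_left]
        exact ⟨hV s (mem_insert_of_mem hs), hPd.2 s hs⟩) h1
    refine ⟨c', fun X hX j hj => hc' X hX j ?_⟩
    rw [card_insert_of_notMem htP] at hj
    omega

/-- two parts, each good for some of the cells -/
theorem asym_glue_or {κ : ℕ} {V₁ V₂ : Finset ι} {T' T₁ T₂ : Set (ι → Bool)}
    (hd : Disjoint V₁ V₂) (hT : T' ⊆ T₁ ∪ T₂)
    (h₁ : ∃ c : ι → Fin κ, ∀ X ∈ T₁, ∀ j, ∃ i ∈ V₁, c i = j ∧ X i = true)
    (h₂ : ∃ c : ι → Fin κ, ∀ X ∈ T₂, ∀ j, ∃ i ∈ V₂, c i = j ∧ X i = true) :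
    ∃ c : ι → ℕ, ∀ X ∈ T', ∀ j < κ, ∃ i ∈ V₁ ∪ V₂, c i = j ∧ X i = true := by
  obtain ⟨c₁, hc₁⟩ := h₁
  obtain ⟨c₂, hc₂⟩ := h₂
  refine ⟨fun i => if i ∈ V₁ then (c₁ i : ℕ) else c₂ i, fun X hX j hj => ?_⟩
  rcases hT hX with h | h
  · obtain ⟨i, hi, hci, hXi⟩ := hc₁ X h ⟨j, hj⟩
    refine ⟨i, mem_union_left _ hi, ?_, hXi⟩
    simp only
    rw [if_pos hi, hci]
  · obtain ⟨i, hi, hci, hXi⟩ := hc₂ X h ⟨j, hj⟩
    refine ⟨i, mem_union_right _ hi, ?_, hXi⟩
    simp only
    rw [if_neg (disjoint_right.1 hd hi), hci]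

theorem asym_to_fin {k : ℕ} (hk : 1 ≤ k) {T' : Set (ι → Bool)}
    (h : ∃ c : ι → ℕ, ∀ X ∈ T', ∀ j < k, ∃ i, c i = j ∧ X i = true) :
    ∃ c : ι → Fin k, ∀ X ∈ T', ∀ j, ∃ i, c i = j ∧ X i = true := by
  obtain ⟨c, hc⟩ := h
  refine ⟨fun i => if hi : c i < k then ⟨c i, hi⟩ else ⟨0, hk⟩, fun X hX j => ?_⟩
  obtain ⟨i, hi, hXi⟩ := hc X hX j j.2
  refine ⟨i, ?_, hXi⟩
  simp only
  rw [dif_pos (by rw [hi]; exact j.2)]
  exact Fin.ext hi

/-- the sampled triples -/
theorem asym_sample [Fintype ι] {S : Sys ι} {F : ι → Bool} {l : List (ι × Bool)}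
    (h : S.Circ F l) {P : Finset (Finset ι)} (hPd : (P : Set (Finset ι)).PairwiseDisjoint id)
    (h3 : ∀ t ∈ P, t.card = 3) (hN : smpN ≤ P.card) :
    ∃ Q : Finset (Finset ι), Q ⊆ P ∧ 499 * P.card ≤ 2500 * Q.card ∧
      ∀ X ∈ S.T, 2500 * asymMis (Q.biUnion id) X ≤ 500 * asymMis (P.biUnion id) X + P.card := by
  classical
  set B := P.biUnion id with hB
  obtain ⟨S'', l'', h'', hT'', -⟩ := h.comap (Function.Embedding.subtype (fun i => i ∈ B))
  let A : Finset (Finset {i // i ∈ B}) := univ.filter (fun a => ∃ X ∈ S''.T, ∀ i, i ∈ a ↔ X i = false)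
  have hA : A.card ≤ (3 * P.card + 1) ^ 2 := by
    have h1 := S''.asym_card_cells A (fun a ha => by
      rw [mem_filter] at ha
      exact ha.2)
    have h2 : Fintype.card {i // i ∈ B} = B.card := Fintype.card_coe B
    have h4 : B.card = 3 * P.card := asym_card_biUnion hPd h3
    rw [h2, h4] at h1
    exact h1
  let wt : Finset {i // i ∈ B} → ({t // t ∈ P} → ℕ) := fun a t =>
    (t.1 ∩ a.map (Function.Embedding.subtype _)).card
  have hcardα : Fintype.card {t // t ∈ P} = P.card := Fintype.card_coe P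
  obtain ⟨Q, hQ1, hQ2⟩ := smp_exists (α := {t // t ∈ P}) (A.image wt)
    (by
      intro w hw t
      obtain ⟨a, -, rfl⟩ := mem_image.1 hw
      calc (t.1 ∩ a.map (Function.Embedding.subtype _)).card ≤ t.1.card :=
            card_le_card inter_subset_left
        _ = 3 := h3 _ t.2
        _ ≤ 3 := le_rfl)
    (by
      rw [hcardα]
      exact card_image_le.trans hA)
    (by rw [hcardα]; exact hN)
  rw [hcardα] at hQ1 hQ2
  have hsub : Q.map (Function.Embedding.subtype _) ⊆ P := by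
    intro t ht
    rw [mem_map] at ht
    obtain ⟨s, -, rfl⟩ := ht
    exact s.2
  refine ⟨Q.map (Function.Embedding.subtype _), hsub, by rw [card_map]; exact hQ1, ?_⟩
  intro X hX
  set a : Finset {i // i ∈ B} := univ.filter (fun i => X i.1 = false) with ha
  have haA : a ∈ A := by
    rw [mem_filter]
    refine ⟨mem_univ _, X ∘ (Function.Embedding.subtype (fun i => i ∈ B)), ?_, ?_⟩
    · rw [hT'']
      exact ⟨X, hX, rfl⟩
    · intro i
      rw [ha, mem_filter]
      simp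
  have hwt : ∀ t : {t // t ∈ P}, wt a t = asymMis t.1 X := by
    intro t
    show (t.1 ∩ a.map (Function.Embedding.subtype _)).card = (t.1.filter _).card
    congr 1
    ext i
    rw [mem_inter, mem_map, mem_filter]
    constructor
    · rintro ⟨h1, x, hx, rfl⟩
      rw [ha, mem_filter] at hx
      exact ⟨h1, hx.2⟩
    · rintro ⟨h1, h2⟩
      refine ⟨h1, ⟨i, mem_biUnion.2 ⟨t.1, t.2, h1⟩⟩, ?_, rfl⟩
      rw [ha, mem_filter]
      exact ⟨mem_univ _, h2⟩
  have h5 := hQ2 (wt a) (mem_image_of_mem _ haA)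
  rw [asym_mis_biUnion (hPd.subset (by exact_mod_cast hsub)) X, asym_mis_biUnion hPd X, sum_map]
  rw [← Finset.sum_coe_sort P (fun t => asymMis t X)]
  simpa [hwt] using h5

theorem asym_main [Fintype ι] {S : Sys ι} {F : ι → Bool} {l : List (ι × Bool)}
    (h : S.Circ F l) (hcomp : S.Complete) {k m : ℕ} (hk : 1 ≤ k)
    (hm : 739 * k + 250 * smpN ≤ 250 * m) (T' : Set (ι → Bool)) (hT : T' ⊆ S.T)
    (hdep : ∀ X ∈ T', m ≤ dep X) :
    ∃ c : ι → Fin k, ∀ X ∈ T', ∀ j, ∃ i, c i = j ∧ X i = true := by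
  classical
  by_cases hne : T'.Nonempty
  swap
  · rw [Set.not_nonempty_iff_eq_empty] at hne
    subst hne
    exact ⟨fun _ => ⟨0, hk⟩, fun X hX => absurd hX (by simp)⟩
  obtain ⟨X₀, hX₀⟩ := hne
  obtain ⟨P, hP, hPd, z, hz, hzP⟩ := h.asym_packing hcomp ⟨X₀, hT hX₀⟩
  have h3 : ∀ t ∈ P, t.card = 3 := fun t ht => (hP t ht).1
  have hcov : ∀ t ∈ P, ∀ X ∈ T', 1 ≤ hit t X := fun t ht X hX => (hP t ht).2 X (hT hX)
  set B := P.biUnion id with hB
  have hBcard : B.card = 3 * P.card := asym_card_biUnion hPd h3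
  set V : Finset ι := univ \ B with hV
  have hzV : ∀ i ∈ V, z i = false := by
    intro i hi
    rw [hV, mem_sdiff] at hi
    exact hzP i hi.2
  have hVt : ∀ t ∈ P, Disjoint V t := by
    intro t ht
    rw [disjoint_left]
    intro i hi hit
    rw [hV, mem_sdiff] at hi
    exact hi.2 (mem_biUnion.2 ⟨t, ht, hit⟩)
  -- depth on V and misses on B
  have hVB : ∀ X : ι → Bool, hit V X + hit B X = dep X := by
    intro X
    unfold hit dep
    rw [hV, ← card_union_of_disjoint, ← filter_union, sdiff_union_of_subset (subset_univ _)]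
    exact (disjoint_sdiff_self_left).mono (filter_subset _ _) (filter_subset _ _)
  have hdeep : ∀ X ∈ T', m + asymMis B X ≤ hit V X + 3 * P.card := by
    intro X hX
    have h1 := hdep X hX
    have h2 := hVB X
    have h3 := asym_hit_add_mis B X
    omega
  apply asym_to_fin hk
  by_cases hbig : k ≤ P.card
  · -- enough triples
    obtain ⟨c, hc⟩ := asym_glue P hPd hcov 0 ∅ (fun t _ => disjoint_empty_left t)
      ⟨fun _ => 0, fun X _ j hj => absurd hj (by omega)⟩
    exact ⟨c, fun X hX j hj => hc X hX j (by omega)⟩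
  push Not at hbig
  by_cases hsm : 2 * k + P.card ≤ m + 1
  · -- few triples
    obtain ⟨c, hc⟩ := h.asym_zero (k := k - P.card) (by omega) V hz hzV T' hT (fun X hX => by
      have := hdeep X hX
      omega)
    obtain ⟨c', hc'⟩ := asym_glue P hPd hcov (k - P.card) V hVt
      ⟨fun i => (c i : ℕ), fun X hX j hj => by
        obtain ⟨i, hi, hci, hXi⟩ := hc X hX ⟨j, hj⟩
        exact ⟨i, hi, by simp only; rw [hci], hXi⟩⟩
    exact ⟨c', fun X hX j hj => hc' X hX j (by omega)⟩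
  push Not at hsm
  -- many triples
  obtain ⟨Q, hQP, hQ1, hQ2⟩ := asym_sample h hPd h3 (by omega)
  have hQd : (Q : Set (Finset ι)).PairwiseDisjoint id := hPd.subset (by exact_mod_cast hQP)
  have hQcard : (Q.biUnion id).card = 3 * Q.card :=
    asym_card_biUnion hQd (fun t ht => h3 t (hQP ht))
  have hqle : Q.card ≤ P.card := card_le_card hQP
  obtain ⟨κ, hκ⟩ : ∃ κ, κ + P.card = k + Q.card := ⟨k + Q.card - P.card, by omega⟩
  have hκ1 : 1 ≤ κ := by omega
  have h₁ := h.asym_zero hκ1 V hz hzV {X ∈ T' | 2 * κ ≤ hit V X + 1}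
    (fun X hX => hT hX.1) (fun X hX => hX.2)
  have h₂ := h.asym_small (k := κ) (m := (6 * κ + 3 * Q.card - 2) / 4) hκ1 (Q.biUnion id)
    {X ∈ T' | ¬ (2 * κ ≤ hit V X + 1)} (fun X hX => hT hX.1)
    (fun X hX => by
      obtain ⟨hX1, hX2⟩ := hX
      have e1 := hdeep X hX1
      have e2 := asym_hit_add_mis (Q.biUnion id) X
      have e3 := hQ2 X (hT hX1)
      rw [hQcard] at e2
      rw [← hB] at e3
      have e4 : 6 * κ + 3 * Q.card ≤ 4 * hit (Q.biUnion id) X + 5 := by
        push Not at hX2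
        by_contra hcon
        push Not at hcon
        have e5 : hit V X + 2 ≤ 2 * κ := by omega
        have e6 : 4 * hit (Q.biUnion id) X + 6 ≤ 6 * κ + 3 * Q.card := by omega
        have e7 : m + 2 ≤ 2 * k + P.card := by omega
        clear_value B V
        linarith
      omega)
    (by rw [hQcard]; omega)
  have hQV : Disjoint V (Q.biUnion id) := by
    rw [disjoint_left]
    intro i hi hi2
    obtain ⟨t, ht, hit⟩ := mem_biUnion.1 hi2
    exact disjoint_left.1 (hVt t (hQP ht)) hi hit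
  have hglue := asym_glue_or (T' := T') hQV (fun X hX => by
    by_cases hx : 2 * κ ≤ hit V X + 1
    · exact Or.inl ⟨hX, hx⟩
    · exact Or.inr ⟨hX, hx⟩) h₁ h₂
  obtain ⟨c, hc⟩ := asym_glue (P \ Q) (hPd.subset (by
      rw [coe_sdiff]
      exact Set.sdiff_subset)) (fun t ht => hcov t (mem_sdiff.1 ht).1) κ
    (V ∪ Q.biUnion id) (fun t ht => by
      rw [mem_sdiff] at ht
      rw [disjoint_union_left]
      refine ⟨hVt t ht.1, ?_⟩
      rw [disjoint_biUnion_left]
      intro s hs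
      exact hPd (hQP hs) ht.1 (fun hst => ht.2 (hst ▸ hs))) hglue
  refine ⟨c, fun X hX j hj => hc X hX j ?_⟩
  rw [card_sdiff_of_subset hQP]
  omega

/-- **Asymptotics.** `2.956 k + 1.8·10⁹` suffices. -/
theorem Sys.Circ.asym_split [Fintype ι] {S : Sys ι} {F : ι → Bool} {l : List (ι × Bool)}
    (h : S.Circ F l) {k m : ℕ} (hk : 1 ≤ k)
    (hm : 739 * k + 250 * smpN ≤ 250 * m) (T' : Set (ι → Bool)) (hT : T' ⊆ S.T)
    (hdep : ∀ X ∈ T', m ≤ dep X) :
    ∃ c : ι → Fin k, ∀ X ∈ T', ∀ j, ∃ i, c i = j ∧ X i = true := by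
  obtain ⟨S', F', l', h', hTT, hc⟩ := h.exists_complete
  exact asym_main h' hc hk hm T' (hT.trans hTT) hdep

end PHP
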