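import Pool.Agent.PHP.BipDefs

/-!
# Minimal pairs: adjacent hull edges around the two blue letters (MP_1180db_co)
-/

namespace PHP

open Finset

namespace CapSys

variable {ι : Type} [DecidableEq ι] {C : CapSys ι}

theorem Bip.x1 {S : Finset ι} {b1 b2 : ι} (h : Bip C S b1 b2) {x : ι} (hx : x ∈ S) : x ≠ b1 :=
  fun hh => h.notin1 (hh ▸ hx)

theorem Bip.x2 {S : Finset ι} {b1 b2 : ι} (h : Bip C S b1 b2) {x : ι} (hx : x ∈ S) : x ≠ b2 :=
  fun hh => h.notin2 (hh ▸ hx)

/-- a cap through `b2` inside the hull edge of `S` without `m` -/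
theorem Bip.adj_aux {S : Finset ι} {b1 b2 : ι} {p m q p' q' : ι}
    (e1 : Edge C S b1 p m) (e2 : Edge C S b2 m q) (hpq : p ≠ q)
    (e' : Edge C (S.erase m) b1 p' q') {P : ι → Prop} (hP : C.Has P) (hb2 : P b2)
    (hS : ∀ i, P i → i ∈ S → i = p' ∨ i = q') (hp' : P p') (hq' : P q') : False := by
  have p'S := mem_of_mem_erase e'.hullp.mem
  have q'S := mem_of_mem_erase e'.hullq.mem
  have hmP : ¬ P m := by
    intro hm
    rcases hS m hm e1.hullq.mem with h1 | h1
    · exact (mem_erase.1 e'.hullp.mem).1 h1.symm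
    · exact (mem_erase.1 e'.hullq.mem).1 h1.symm
  have hqP : P q := by
    rcases e2.has hP hb2 with h1 | h1
    · exact absurd h1 hmP
    · exact h1
  rcases hS q hqP e2.hullq.mem with h1 | h1
  · subst h1
    rcases lt_total (C := C) hpq with h2 | h2
    · exact e1.nearp q e2.hullq h2 e'.pb
    · have h3 : C.lt p q' := lt_mid_left e'.pb e'.bq e'.pq h2 e1.pb
      have h4 := hP.between e1.hullp hp' hq' e2.hullq.mem q'S h2 h3 e'.pq
      rcases hS p h4 e1.hullp.mem with h5 | h5
      · exact hpq h5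
      · exact lt_ne h3 h5
  · subst h1
    have h3 : C.lt p' m := lt_mid_right e'.pb e'.bq e'.pq e1.bq e2.pq
    exact hmP (hP.between e1.hullq hp' hq' p'S e2.hullq.mem h3 e2.pq e'.pq)

/-- the caps `{m, q, b1}` and `{m, b2}` exclude each other -/
theorem Bip.adj_B {S : Finset ι} {b1 b2 : ι} (h : Bip C S b1 b2) {p m q : ι}
    (e1 : Edge C S b1 p m) (e2 : Edge C S b2 m q) (hA : C.cA b2 m) (hB : C.cB b1 m q) : False := by
  have mS := e1.hullq.mem
  have qS := e2.hullq.mem
  have h1 : C.lt b1 q := hB.trans (by simp) (by simp) (by simp) e1.bq e2.pq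
  have h2 : C.lt b1 b2 := lt_mid_right e1.bq e2.pq h1 e2.pb e2.bq
  have n1 := lt_ne e2.pq
  have n2 := h.x1 mS
  have n3 := h.x2 qS
  have n4 := h.ne
  have n5 := h.x2 mS
  exact hB.cp hA (a := b1) (b := b2) (c := q) (by simp) (by simp [n2.symm, n4]) (by simp)
    (by simp [n5.symm, n3.symm, n4.symm]) (by simp) (by simp [n1.symm, n3]) h2 e2.bq h1

/-- case: the cap `{m, b2}` -/
theorem Bip.adj_caseA {S : Finset ι} {b1 b2 : ι} (h : Bip C S b1 b2) {p m q : ι}
    (e1 : Edge C S b1 p m) (e2 : Edge C S b2 m q) (hpq : p ≠ q) (hA : C.eA b1 b2 b2 m) :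
    False := by
  have pS := e1.hullp.mem
  have mS := e1.hullq.mem
  have qS := e2.hullq.mem
  have npm := lt_ne e1.pq
  have nmq := lt_ne e2.pq
  have hq : C.eA b1 b2 b2 q → False := by
    intro hq
    rcases h.fail2 Subset.rfl e2 with h1 | h1 | h1 | h1
    · exact h.tri1 m mS h1 hA
    · exact h.tri1 q qS h1 hq
    · exact h.adj_B e1 e2 hA.1 h1
    · exact h.tri3 m mS q qS nmq hA hq h1
  obtain ⟨p', q', e'⟩ := h.edge_erase (m := m)
    (fun hh => h.tri1 m mS ⟨hh, hA.2⟩ hA) hA.2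
  have p'S := mem_of_mem_erase e'.hullp.mem
  have q'S := mem_of_mem_erase e'.hullq.mem
  have np'm := (mem_erase.1 e'.hullp.mem).1
  have nq'm := (mem_erase.1 e'.hullq.mem).1
  rcases h.fail1 (erase_subset m S) e' with h1 | h1 | h1 | h1
  · rcases e2.has h1.1 (by simp) with h2 | h2
    · rcases h2 with h2 | h2
      · exact np'm h2.symm
      · exact h.x2 mS h2
    · rcases h2 with h2 | h2
      · exact hq (h2 ▸ h1)
      · exact h.x2 qS h2
  · rcases e2.has h1.1 (by simp) with h2 | h2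
    · rcases h2 with h2 | h2
      · exact nq'm h2.symm
      · exact h.x2 mS h2
    · rcases h2 with h2 | h2
      · exact hq (h2 ▸ h1)
      · exact h.x2 qS h2
  · refine Bip.adj_aux e1 e2 hpq e' h1 (by simp) (fun i hi hiS => ?_) (by simp) (by simp)
    rcases hi with h2 | h2 | h2
    · exact Or.inl h2
    · exact Or.inr h2
    · exact absurd h2 (h.x2 hiS)
  · refine Bip.adj_aux e1 e2 hpq e' h1.1 (by simp) (fun i hi hiS => ?_) (by simp) (by simp)
    rcases hi with h2 | h2 | h2 | h2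
    · exact Or.inl h2
    · exact Or.inr h2
    · exact absurd h2 (h.x1 hiS)
    · exact absurd h2 (h.x2 hiS)

/-- if `m` is not a cell and `{m, b1}` is not a cap then `{q, b2}` is a cap -/
theorem Bip.adj_caseC {S : Finset ι} {b1 b2 : ι} (h : Bip C S b1 b2) {p m q : ι}
    (e1 : Edge C S b1 p m) (e2 : Edge C S b2 m q) (hpq : p ≠ q) (hJ : ¬ C.cJ b1 b2 m)
    (hA : ¬ C.cA b1 m) : C.eA b1 b2 b2 q := by
  have mS := e1.hullq.mem
  have qS := e2.hullq.mem
  obtain ⟨p', q', e'⟩ := h.edge_erase (m := m) hA hJ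
  have np'm := (mem_erase.1 e'.hullp.mem).1
  have nq'm := (mem_erase.1 e'.hullq.mem).1
  rcases h.fail1 (erase_subset m S) e' with h1 | h1 | h1 | h1
  · rcases e2.has h1.1 (by simp) with h2 | h2
    · rcases h2 with h2 | h2
      · exact absurd h2.symm np'm
      · exact absurd h2 (h.x2 mS)
    · rcases h2 with h2 | h2
      · exact h2 ▸ h1
      · exact absurd h2 (h.x2 qS)
  · rcases e2.has h1.1 (by simp) with h2 | h2
    · rcases h2 with h2 | h2
      · exact absurd h2.symm nq'm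
      · exact absurd h2 (h.x2 mS)
    · rcases h2 with h2 | h2
      · exact h2 ▸ h1
      · exact absurd h2 (h.x2 qS)
  · exfalso
    refine Bip.adj_aux e1 e2 hpq e' h1 (by simp) (fun i hi hiS => ?_) (by simp) (by simp)
    rcases hi with h2 | h2 | h2
    · exact Or.inl h2
    · exact Or.inr h2
    · exact absurd h2 (h.x2 hiS)
  · exfalso
    refine Bip.adj_aux e1 e2 hpq e' h1.1 (by simp) (fun i hi hiS => ?_) (by simp) (by simp)
    rcases hi with h2 | h2 | h2 | h2
    · exact Or.inl h2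
    · exact Or.inr h2
    · exact absurd h2 (h.x1 hiS)
    · exact absurd h2 (h.x2 hiS)

/-- the walk from `{p, b1}` to `{m, q, b1, b2}` -/
theorem Bip.adj_walk {S : Finset ι} {b1 b2 : ι} (h : Bip C S b1 b2) {p m q : ι}
    (e1 : Edge C S b1 p m) (e2 : Edge C S b2 m q) (hpq : p ≠ q)
    (hp : C.eA b1 b2 b1 p) (hq : C.eA b1 b2 b2 q) (hD : C.eD b1 b2 m q) (hB : C.cB b2 p m)
    (hA : ¬ C.cA b1 m) : False := by
  have pS := e1.hullp.mem
  have mS := e1.hullq.mem
  have qS := e2.hullq.mem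
  have npm := lt_ne e1.pq
  have nmq := lt_ne e2.pq
  have np1 := h.x1 pS
  have np2 := h.x2 pS
  have nm1 := h.x1 mS
  have nm2 := h.x2 mS
  have nq1 := h.x1 qS
  have nq2 := h.x2 qS
  have n12 := h.ne
  have hbq : C.lt b1 q := hD.1.trans (by simp) (by simp) (by simp) e1.bq e2.pq
  have hbb : C.lt b1 b2 := lt_mid_right e1.bq e2.pq hbq e2.pb e2.bq
  obtain ⟨z, hz | hz⟩ := h.walk hp.1 hD.1 (y := p) (by simp) (by simp [npm, hpq, np1, np2])
  · obtain ⟨z1, z2, z3⟩ := hz
    rcases z1 with rfl | rfl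
    · obtain ⟨H, hH, h4⟩ := z3
      obtain ⟨y, hy⟩ := h.meet1 H hH ((h4 b1).2 ⟨by simp, np1.symm⟩)
      rw [mem_inter, h4] at hy
      obtain ⟨⟨hy1 | hy1, hy2⟩, hyS⟩ := hy
      · exact hy2 hy1
      · exact h.x1 hyS hy1
    · exact z2 (by simp)
  obtain ⟨z1, z2, z3⟩ := hz
  rcases z2 with rfl | rfl | rfl | rfl
  · -- `z = m`
    have hP : C.cB b1 p z := z3.congr (fun i => by tauto)
    obtain ⟨w, hw | hw⟩ := h.walk hP hD.1 (y := p) (by simp) (by simp [npm, hpq, np1, np2])
    · obtain ⟨w1, w2, w3⟩ := hw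
      rcases w1 with rfl | rfl | rfl
      · refine hA (w3.congr (fun i => ?_))
        constructor
        · rintro ⟨h1 | h1 | h1, h2⟩
          · exact absurd h1 h2
          · exact Or.inl h1
          · exact Or.inr h1
        · rintro (h1 | h1)
          · exact ⟨Or.inr (Or.inl h1), h1 ▸ npm.symm⟩
          · exact ⟨Or.inr (Or.inr h1), h1 ▸ np1.symm⟩
      · exact w2 (by simp)
      · exact w2 (by simp)
    · obtain ⟨w1, w2, w3⟩ := hw
      rcases w2 with rfl | rfl | rfl | rfl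
      · exact w1 (by simp)
      · -- `w = q`
        exact w3.cp hB (a := b1) (b := b2) (c := w) (by simp) (by simp [np1.symm, nm1.symm, n12])
          (by simp) (by simp [np2.symm, nm2.symm, nq2.symm, n12.symm]) (by simp)
          (by simp [hpq.symm, nmq.symm, nq2]) hbb e2.bq hbq
      · exact w1 (by simp)
      · -- `w = b2`
        refine h.pent p pS z mS q qS npm nmq hpq hp ⟨w3.congr (fun i => by tauto), hp.2, hD.2.1⟩
          hD hq
  · -- `z = q`
    have hpz : C.lt p z := z3.trans (by simp) (by simp) (by simp) e1.pb hbq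
    have := z3.between e1.hullq (x := p) (y := z) (by simp) (by simp) pS qS e1.pq e2.pq hpz
    rcases this with h1 | h1 | h1
    · exact nmq h1
    · exact npm h1.symm
    · exact nm1 h1
  · exact z1 (by simp)
  · exact hp.2 (z3.congr (fun i => by tauto))

/-- adjacent hull edges -/
theorem Bip.case_adj {S : Finset ι} {b1 b2 : ι} (h : Bip C S b1 b2) {p m q : ι}
    (e1 : Edge C S b1 p m) (e2 : Edge C S b2 m q) (hpq : p ≠ q) : False := by
  have pS := e1.hullp.mem
  have mS := e1.hullq.mem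
  have qS := e2.hullq.mem
  have npm := lt_ne e1.pq
  have nmq := lt_ne e2.pq
  have np1 := h.x1 pS
  have np2 := h.x2 pS
  have nm1 := h.x1 mS
  have nm2 := h.x2 mS
  have nq1 := h.x1 qS
  have nq2 := h.x2 qS
  have n12 := h.ne
  have f1 : C.eA b1 b2 b2 m ∨ C.cB b2 p m ∨ C.eD b1 b2 p m := by
    rcases h.fail1 Subset.rfl e1 with h1 | h1
    · exfalso
      rcases e2.has h1.1 (by simp) with h2 | h2
      · rcases h2 with h2 | h2
        · exact npm h2.symm
        · exact nm2 h2
      · rcases h2 with h2 | h2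
        · exact hpq h2.symm
        · exact nq2 h2
    · exact h1
  have f2 : C.eA b1 b2 b1 m ∨ C.cB b1 m q ∨ C.eD b1 b2 m q := by
    rcases h.fail2 Subset.rfl e2 with h1 | h1 | h1
    · exact Or.inl h1
    · exfalso
      rcases e1.has h1.1 (by simp) with h2 | h2
      · rcases h2 with h2 | h2
        · exact hpq h2
        · exact np1 h2
      · rcases h2 with h2 | h2
        · exact nmq h2
        · exact nm1 h2
    · exact Or.inr h1
  have two : C.cB b2 p m → C.cB b1 m q → False := by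
    intro hB1 hB2
    have h1 : C.lt p b2 := hB1.trans (by simp) (by simp) (by simp) e1.pq e2.pb
    have h2 : C.lt b1 b2 := lt_mid_left e1.pq e2.pb h1 e1.pb e1.bq
    exact hB1.cp hB2 (a := p) (b := b1) (c := b2) (by simp) (by simp [npm, hpq, np1]) (by simp)
      (by simp [np1.symm, nm1.symm, n12]) (by simp) (by simp [nm2.symm, nq2.symm, n12.symm])
      e1.pb h2 h1
  by_cases hJ : C.cJ b1 b2 m
  · rcases f1 with h1 | h1 | h1
    · exact h1.2 hJ
    · rcases f2 with h2 | h2 | h2
      · exact h2.2 hJ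
      · exact two h1 h2
      · exact h2.2.1 hJ
    · exact h1.2.2 hJ
  by_cases hA1 : C.cA b1 m
  · refine h.symm.mirror.adj_caseA e2.mirror e1.mirror hpq.symm ?_
    exact ⟨hA1, fun hh => hJ (cJ_swap.1 hh)⟩
  by_cases hA2 : C.cA b2 m
  · exact h.adj_caseA e1 e2 hpq ⟨hA2, hJ⟩
  have hq := h.adj_caseC e1 e2 hpq hJ hA1
  have hp : C.eA b1 b2 b1 p := by
    have := h.symm.mirror.adj_caseC e2.mirror e1.mirror hpq.symm
      (fun hh => hJ (cJ_swap.1 hh)) hA2
    exact eA_swap.1 this
  rcases f1 with h1 | h1 | h1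
  · exact hA2 h1.1
  · rcases f2 with h2 | h2 | h2
    · exact hA1 h2.1
    · exact two h1 h2
    · exact h.adj_walk e1 e2 hpq hp hq h2 h1 hA1
  · rcases f2 with h2 | h2 | h2
    · exact hA1 h2.1
    · refine h.symm.mirror.adj_walk e2.mirror e1.mirror hpq.symm ?_ ?_ ?_ ?_ hA2
      · exact eA_swap.1 hq
      · exact eA_swap.1 hp
      · exact eD_comm (eD_swap.1 h1)
      · exact cB_comm h2
    · exact h.pent p pS m mS q qS npm nmq hpq hp h1 h2 hq

end CapSys

end PHP
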