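import Pool.Agent.PHP.CapEdge

/-!
# Cap systems with two blue letters: minimal pairs (MP_1180db_co)

`CapSys.mirror`: the reflected cap system. `Bip C S b1 b2`: the blue letters are `b1, b2`, the red letters are those
of `S`, every cap through a blue letter meets `S`, and NO pair `u, v` of red letters gives a good first class
`{b1, u, v}` or `{b2, u, v}`; moreover the graph of minimal pairs has no triangle and no pentagon (through `b1 b2`).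

A cap with member set `{u, b1}` is the cell `{u, b2}`; `{u, v, b1}` is the cell `{u, v, b2}`; `{u, v, b1, b2}` is the cell
`{u, v}`; `{u, b1, b2}` is the cell `{u}`.
-/

namespace PHP

open Finset

namespace CapSys

variable {ι : Type} [DecidableEq ι]

/-- the reflected half turn -/
def mirC (n c : ℕ) : ℕ := if c ≤ n then n - c else 3 * n - c

theorem inHalf_mir {n c x : ℕ} (hc : c < 2 * n) (hx : x < 2 * n) :
    inHalf n (mirC n c) (2 * n - 1 - x) ↔ inHalf n c x := by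
  unfold inHalf mirC
  split_ifs <;> omega

theorem mirC_lt {n c : ℕ} (hc : c < 2 * n) : mirC n c < 2 * n := by
  unfold mirC
  split_ifs <;> omega

theorem mirC_mir {n c : ℕ} (hc : c < 2 * n) : inHalf n (mirC n (mirC n c)) = inHalf n c := by
  have : mirC n (mirC n c) = c := by
    unfold mirC
    split_ifs <;> omega
  rw [this]

/-- the reflected cap system -/
def mirror (C : CapSys ι) : CapSys ι where
  n := C.n
  ang i := 2 * C.n - 1 - C.ang i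
  lt_ang i := by
    have := C.lt_ang i
    omega
  inj {i j} hij := by
    have h1 := C.lt_ang i
    have h2 := C.lt_ang j
    have h3 := C.inj hij
    omega
  caps := C.caps
  empty_mem := C.empty_mem
  cp {H G} hH hG := by
    obtain ⟨c, hc, h1, h2⟩ := C.cp hH hG
    refine ⟨mirC C.n c, mirC_lt hc, fun i hi hi' => ?_, fun i hi hi' => ?_⟩
    · rw [inHalf_mir hc (C.lt_ang i)]
      exact h1 i hi hi'
    · rw [inHalf_mir hc (C.lt_ang i)]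
      exact h2 i hi hi'
  step := C.step
  half c hc := by
    obtain ⟨P, hP, h1⟩ := C.half (mirC C.n c) (mirC_lt hc)
    refine ⟨P, hP, fun i => ?_⟩
    rw [h1, ← inHalf_mir (mirC_lt hc) (C.lt_ang i), mirC_mir hc]

variable {C : CapSys ι}

theorem mirror_lt {a b : ι} : C.mirror.lt a b ↔ C.lt b a := by
  have h1 := C.lt_ang a
  have h2 := C.lt_ang b
  have h3 : C.mirror.ang a = 2 * C.n - 1 - C.ang a := rfl
  have h4 : C.mirror.ang b = 2 * C.n - 1 - C.ang b := rfl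
  have h5 : C.mirror.n = C.n := rfl
  unfold lt
  rw [h3, h4, h5]
  omega

theorem Edge.mirror {Q : Finset ι} {b p q : ι} (h : Edge C Q b p q) :
    Edge C.mirror Q b q p where
  hullp := h.hullq
  hullq := h.hullp
  pb := mirror_lt.2 h.bq
  bq := mirror_lt.2 h.pb
  pq := mirror_lt.2 h.pq
  nearp := fun r hr h1 h2 => h.nearq r hr (mirror_lt.1 h2) (mirror_lt.1 h1)
  nearq := fun r hr h1 h2 => h.nearp r hr (mirror_lt.1 h2) (mirror_lt.1 h1)
  hit := fun H hH hb => (h.hit H hH hb).symm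

/-- there is a cap with the given member set -/
def Has (C : CapSys ι) (P : ι → Prop) : Prop := ∃ H ∈ C.caps, ∀ i, i ∈ H ↔ P i

theorem Has.congr {P Q : ι → Prop} (h : C.Has P) (hPQ : ∀ i, P i ↔ Q i) : C.Has Q := by
  obtain ⟨H, hH, h1⟩ := h
  exact ⟨H, hH, fun i => (h1 i).trans (hPQ i)⟩

theorem Has.cp {P Q : ι → Prop} (hP : C.Has P) (hQ : C.Has Q) {a b c : ι} (ha : P a) (ha' : ¬ Q a)
    (hb : Q b) (hb' : ¬ P b) (hc : P c) (hc' : ¬ Q c) (h1 : C.lt a b) (h2 : C.lt b c)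
    (h3 : C.lt a c) : False := by
  obtain ⟨H, hH, h4⟩ := hP
  obtain ⟨G, hG, h5⟩ := hQ
  exact btw hH hG ((h4 a).2 ha) (fun h => ha' ((h5 a).1 h)) ((h5 b).2 hb)
    (fun h => hb' ((h4 b).1 h)) ((h4 c).2 hc) (fun h => hc' ((h5 c).1 h)) h1 h2 h3

theorem Has.trans {P : ι → Prop} (hP : C.Has P) {a b c : ι} (ha : P a) (hb : P b) (hc : P c)
    (h1 : C.lt a b) (h2 : C.lt b c) : C.lt a c := by
  obtain ⟨H, hH, h4⟩ := hP
  exact CapSys.trans hH ((h4 a).2 ha) ((h4 b).2 hb) ((h4 c).2 hc) h1 h2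

theorem Has.between {P : ι → Prop} (hP : C.Has P) {Q : Finset ι} {m : ι} (hm : C.Hull Q m)
    {x y : ι} (hx : P x) (hy : P y) (hxQ : x ∈ Q) (hyQ : y ∈ Q) (h1 : C.lt x m) (h2 : C.lt m y)
    (h3 : C.lt x y) : P m := by
  obtain ⟨H, hH, h4⟩ := hP
  exact (h4 m).1 (Hull.between hm hH ((h4 x).2 hx) ((h4 y).2 hy) hxQ hyQ h1 h2 h3)

theorem Edge.has {P : ι → Prop} (hP : C.Has P) {Q : Finset ι} {b p q : ι} (h : Edge C Q b p q)
    (hb : P b) : P p ∨ P q := by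
  obtain ⟨H, hH, h4⟩ := hP
  rcases h.hit H hH ((h4 b).2 hb) with h1 | h1
  · exact Or.inl ((h4 p).1 h1)
  · exact Or.inr ((h4 q).1 h1)

/-- the cell `{u}`, seen from the pole `{b1, b2}` -/
def cJ (C : CapSys ι) (b1 b2 u : ι) : Prop := C.Has (fun i => i = u ∨ i = b1 ∨ i = b2)

/-- the cap `{u, b}` -/
def cA (C : CapSys ι) (b u : ι) : Prop := C.Has (fun i => i = u ∨ i = b)

/-- the cap `{u, v, b}` -/
def cB (C : CapSys ι) (b u v : ι) : Prop := C.Has (fun i => i = u ∨ i = v ∨ i = b)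

/-- the cell `{u, v}`, seen from the pole `{b1, b2}` -/
def cD (C : CapSys ι) (b1 b2 u v : ι) : Prop :=
  C.Has (fun i => i = u ∨ i = v ∨ i = b1 ∨ i = b2)

/-- minimal pair given by the cap `{u, b}` (`b` one of `b1, b2`) -/
def eA (C : CapSys ι) (b1 b2 b u : ι) : Prop := C.cA b u ∧ ¬ C.cJ b1 b2 u

/-- minimal pair `{u, v}` -/
def eD (C : CapSys ι) (b1 b2 u v : ι) : Prop := C.cD b1 b2 u v ∧ ¬ C.cJ b1 b2 u ∧ ¬ C.cJ b1 b2 v

theorem cJ_swap {b1 b2 u : ι} : C.cJ b1 b2 u ↔ C.cJ b2 b1 u := by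
  unfold cJ
  exact ⟨fun h => h.congr (fun i => by tauto), fun h => h.congr (fun i => by tauto)⟩

theorem cD_swap {b1 b2 u v : ι} : C.cD b1 b2 u v ↔ C.cD b2 b1 u v := by
  unfold cD
  exact ⟨fun h => h.congr (fun i => by tauto), fun h => h.congr (fun i => by tauto)⟩

theorem eA_swap {b1 b2 b u : ι} : C.eA b1 b2 b u ↔ C.eA b2 b1 b u := by
  unfold eA
  rw [cJ_swap]

theorem eD_swap {b1 b2 u v : ι} : C.eD b1 b2 u v ↔ C.eD b2 b1 u v := by
  unfold eD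
  rw [cJ_swap, cJ_swap (u := v), cD_swap]

theorem cB_comm {b u v : ι} (h : C.cB b u v) : C.cB b v u := h.congr (fun i => by tauto)

theorem eD_comm {b1 b2 u v : ι} (h : C.eD b1 b2 u v) : C.eD b1 b2 v u :=
  ⟨h.1.congr (fun i => by tauto), h.2.2, h.2.1⟩

/-- no good triple with one of the blue letters, and no triangle or pentagon of minimal pairs -/
structure Bip (C : CapSys ι) (S : Finset ι) (b1 b2 : ι) : Prop where
  ne : b1 ≠ b2
  notin1 : b1 ∉ S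
  notin2 : b2 ∉ S
  all : ∀ i, i ∈ S ∨ i = b1 ∨ i = b2
  meet1 : ∀ H ∈ C.caps, b1 ∈ H → (H ∩ S).Nonempty
  meet2 : ∀ H ∈ C.caps, b2 ∈ H → (H ∩ S).Nonempty
  geo : ∀ H ∈ C.caps, ∀ G ∈ C.caps, H ≠ G → ∃ z, (z ∈ H ∧ z ∉ G ∧ H.erase z ∈ C.caps) ∨
    (z ∉ H ∧ z ∈ G ∧ insert z H ∈ C.caps)
  st1 : ∀ u ∈ S, ∀ v ∈ S, u ≠ v → (∀ H ∈ C.caps, b1 ∈ H → u ∈ H ∨ v ∈ H) →
    C.eA b1 b2 b2 u ∨ C.eA b1 b2 b2 v ∨ C.cB b2 u v ∨ C.eD b1 b2 u v
  st2 : ∀ u ∈ S, ∀ v ∈ S, u ≠ v → (∀ H ∈ C.caps, b2 ∈ H → u ∈ H ∨ v ∈ H) →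
    C.eA b1 b2 b1 u ∨ C.eA b1 b2 b1 v ∨ C.cB b1 u v ∨ C.eD b1 b2 u v
  tri1 : ∀ u ∈ S, C.eA b1 b2 b1 u → C.eA b1 b2 b2 u → False
  tri2 : ∀ u ∈ S, ∀ v ∈ S, u ≠ v → C.eA b1 b2 b1 u → C.eA b1 b2 b1 v → C.eD b1 b2 u v → False
  tri3 : ∀ u ∈ S, ∀ v ∈ S, u ≠ v → C.eA b1 b2 b2 u → C.eA b1 b2 b2 v → C.eD b1 b2 u v → False
  tri4 : ∀ u ∈ S, ∀ v ∈ S, ∀ w ∈ S, u ≠ v → v ≠ w → u ≠ w → C.eD b1 b2 u v →
    C.eD b1 b2 v w → C.eD b1 b2 u w → False
  pent : ∀ u ∈ S, ∀ v ∈ S, ∀ w ∈ S, u ≠ v → v ≠ w → u ≠ w → C.eA b1 b2 b1 u →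
    C.eD b1 b2 u v → C.eD b1 b2 v w → C.eA b1 b2 b2 w → False

theorem Bip.symm {S : Finset ι} {b1 b2 : ι} (h : Bip C S b1 b2) : Bip C S b2 b1 where
  ne := h.ne.symm
  notin1 := h.notin2
  notin2 := h.notin1
  all := fun i => by
    rcases h.all i with h1 | h1 | h1
    · exact Or.inl h1
    · exact Or.inr (Or.inr h1)
    · exact Or.inr (Or.inl h1)
  meet1 := h.meet2
  meet2 := h.meet1
  geo := h.geo
  st1 := fun u hu v hv huv hh => by
    rcases h.st2 u hu v hv huv hh with h1 | h1 | h1 | h1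
    · exact Or.inl (eA_swap.1 h1)
    · exact Or.inr (Or.inl (eA_swap.1 h1))
    · exact Or.inr (Or.inr (Or.inl h1))
    · exact Or.inr (Or.inr (Or.inr (eD_swap.1 h1)))
  st2 := fun u hu v hv huv hh => by
    rcases h.st1 u hu v hv huv hh with h1 | h1 | h1 | h1
    · exact Or.inl (eA_swap.1 h1)
    · exact Or.inr (Or.inl (eA_swap.1 h1))
    · exact Or.inr (Or.inr (Or.inl h1))
    · exact Or.inr (Or.inr (Or.inr (eD_swap.1 h1)))
  tri1 := fun u hu h1 h2 => h.tri1 u hu (eA_swap.2 h2) (eA_swap.2 h1)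
  tri2 := fun u hu v hv huv h1 h2 h3 =>
    h.tri3 u hu v hv huv (eA_swap.2 h1) (eA_swap.2 h2) (eD_swap.2 h3)
  tri3 := fun u hu v hv huv h1 h2 h3 =>
    h.tri2 u hu v hv huv (eA_swap.2 h1) (eA_swap.2 h2) (eD_swap.2 h3)
  tri4 := fun u hu v hv w hw h1 h2 h3 h4 h5 h6 =>
    h.tri4 u hu v hv w hw h1 h2 h3 (eD_swap.2 h4) (eD_swap.2 h5) (eD_swap.2 h6)
  pent := fun u hu v hv w hw h1 h2 h3 h4 h5 h6 h7 =>
    h.pent w hw v hv u hu h2.symm h1.symm h3.symm (eA_swap.2 h7) (eD_comm (eD_swap.2 h6))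
      (eD_comm (eD_swap.2 h5)) (eA_swap.2 h4)

theorem Bip.mirror {S : Finset ι} {b1 b2 : ι} (h : Bip C S b1 b2) : Bip C.mirror S b1 b2 :=
  ⟨h.ne, h.notin1, h.notin2, h.all, h.meet1, h.meet2, h.geo, h.st1, h.st2, h.tri1, h.tri2, h.tri3,
    h.tri4, h.pent⟩

/-- hull edges of `S` without one letter exist -/
theorem Bip.meet_erase {S : Finset ι} {b1 b2 : ι} (h : Bip C S b1 b2) {m : ι}
    (h1 : ¬ C.cA b1 m) (h2 : ¬ C.cJ b1 b2 m) :
    ∀ H ∈ C.caps, b1 ∈ H → (H ∩ S.erase m).Nonempty := by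
  intro H hH hb
  obtain ⟨y, hy⟩ := h.meet1 H hH hb
  rw [mem_inter] at hy
  by_contra hemp
  have key : ∀ i ∈ H, i ∈ S → i = m := by
    intro i hi hiS
    by_contra him
    exact hemp ⟨i, mem_inter.2 ⟨hi, mem_erase.2 ⟨him, hiS⟩⟩⟩
  have hym := key y hy.1 hy.2
  subst hym
  by_cases hb2 : b2 ∈ H
  · refine h2 ⟨H, hH, fun i => ⟨fun hi => ?_, ?_⟩⟩
    · rcases h.all i with h3 | h3 | h3
      · exact Or.inl (key i hi h3)
      · exact Or.inr (Or.inl h3)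
      · exact Or.inr (Or.inr h3)
    · rintro (rfl | rfl | rfl)
      · exact hy.1
      · exact hb
      · exact hb2
  · refine h1 ⟨H, hH, fun i => ⟨fun hi => ?_, ?_⟩⟩
    · rcases h.all i with h3 | h3 | h3
      · exact Or.inl (key i hi h3)
      · exact Or.inr h3
      · exact absurd (h3 ▸ hi) hb2
    · rintro (rfl | rfl)
      · exact hy.1
      · exact hb

/-- the hull edge around `b1` of `S` without `m` -/
theorem Bip.edge_erase {S : Finset ι} {b1 b2 : ι} (h : Bip C S b1 b2) {m : ι}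
    (h1 : ¬ C.cA b1 m) (h2 : ¬ C.cJ b1 b2 m) : ∃ p q, Edge C (S.erase m) b1 p q :=
  exists_edge (fun hh => h.notin1 (mem_of_mem_erase hh)) (h.meet_erase h1 h2)

/-- the triple `{b1, p, q}` of a hull edge is not good -/
theorem Bip.fail1 {S Q : Finset ι} {b1 b2 : ι} (h : Bip C S b1 b2) (hQ : Q ⊆ S) {p q : ι}
    (e : Edge C Q b1 p q) :
    C.eA b1 b2 b2 p ∨ C.eA b1 b2 b2 q ∨ C.cB b2 p q ∨ C.eD b1 b2 p q :=
  h.st1 p (hQ e.hullp.mem) q (hQ e.hullq.mem) (lt_ne e.pq) e.hit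

theorem Bip.fail2 {S Q : Finset ι} {b1 b2 : ι} (h : Bip C S b1 b2) (hQ : Q ⊆ S) {p q : ι}
    (e : Edge C Q b2 p q) :
    C.eA b1 b2 b1 p ∨ C.eA b1 b2 b1 q ∨ C.cB b1 p q ∨ C.eD b1 b2 p q :=
  h.st2 p (hQ e.hullp.mem) q (hQ e.hullq.mem) (lt_ne e.pq) e.hit

/-- one step of a walk from the cap `P` to the cap `Q` -/
theorem Bip.walk {S : Finset ι} {b1 b2 : ι} (h : Bip C S b1 b2) {P Q : ι → Prop}
    (hP : C.Has P) (hQ : C.Has Q) {y : ι} (hy : P y) (hy' : ¬ Q y) :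
    ∃ z, (P z ∧ ¬ Q z ∧ C.Has (fun i => P i ∧ i ≠ z)) ∨
      (¬ P z ∧ Q z ∧ C.Has (fun i => i = z ∨ P i)) := by
  obtain ⟨H, hH, h4⟩ := hP
  obtain ⟨G, hG, h5⟩ := hQ
  have hne : H ≠ G := by
    rintro rfl
    exact hy' ((h5 y).1 ((h4 y).2 hy))
  obtain ⟨z, hz | hz⟩ := h.geo H hH G hG hne
  · obtain ⟨z1, z2, z3⟩ := hz
    refine ⟨z, Or.inl ⟨(h4 z).1 z1, fun hh => z2 ((h5 z).2 hh), _, z3, fun i => ?_⟩⟩
    rw [mem_erase, h4]
    tauto
  · obtain ⟨z1, z2, z3⟩ := hz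
    refine ⟨z, Or.inr ⟨fun hh => z1 ((h4 z).2 hh), (h5 z).1 z2, _, z3, fun i => ?_⟩⟩
    rw [mem_insert, h4]

end CapSys

end PHP
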