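import Pool.Agent.PHP.BipAdj

/-!
# Minimal pairs: both blue letters in the same hull edge (MP_1180db_co)
-/

namespace PHP

open Finset

namespace CapSys

variable {ι : Type} [DecidableEq ι] {C : CapSys ι}

section

variable {S : Finset ι} {b1 b2 p q : ι}

theorem Bip.same_L1 (h : Bip C S b1 b2) (e1 : Edge C S b1 p q) (e2 : Edge C S b2 p q)
    (hbb : C.lt b1 b2) (hA : C.cA b1 q) (hB : C.cB b2 p q) : False := by
  have npq := lt_ne e1.pq
  have np1 := h.x1 e1.hullp.mem
  have nq1 := h.x1 e1.hullq.mem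
  have nq2 := h.x2 e1.hullq.mem
  have n12 := h.ne
  exact hB.cp hA (a := p) (b := b1) (c := b2) (by simp) (by simp [npq, np1]) (by simp)
    (by simp [np1.symm, nq1.symm, n12]) (by simp) (by simp [nq2.symm, n12.symm]) e1.pb hbb e2.pb

theorem Bip.same_L2 (h : Bip C S b1 b2) (e1 : Edge C S b1 p q) (e2 : Edge C S b2 p q)
    (hbb : C.lt b1 b2) (hA : C.cA b1 q) (hB : C.cA b2 p) : False := by
  have npq := lt_ne e1.pq
  have np1 := h.x1 e1.hullp.mem
  have nq2 := h.x2 e1.hullq.mem
  have n12 := h.ne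
  exact hB.cp hA (a := p) (b := b1) (c := b2) (by simp) (by simp [npq, np1]) (by simp)
    (by simp [np1.symm, n12]) (by simp) (by simp [nq2.symm, n12.symm]) e1.pb hbb e2.pb

/-- the key lemma: caps through `b2` with red parts `{p}` and `{x}` (up to `q`), both before `b2` -/
theorem Bip.same_key (h : Bip C S b1 b2) {x : ι} (hpb : C.lt p b2) (hxb : C.lt x b2)
    (hpx : p ≠ x) {P1 P2 : ι → Prop} (h1 : C.Has P1) (h2 : C.Has P2) (hb1 : P1 b2) (hb2 : P2 b2)
    (hP1 : ∀ i ∈ S, P1 i → i = p ∨ i = q) (hP2 : ∀ i ∈ S, P2 i → i = x ∨ i = q)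
    (hJ : ¬ C.cJ b1 b2 q) : C.cA b2 q := by
  by_contra hA
  obtain ⟨u, v, e⟩ := h.symm.edge_erase (m := q) hA (fun hh => hJ (cJ_swap.1 hh))
  have uS := mem_of_mem_erase e.hullp.mem
  have vS := mem_of_mem_erase e.hullq.mem
  have nuq := (mem_erase.1 e.hullp.mem).1
  have nvq := (mem_erase.1 e.hullq.mem).1
  have hu : u = p := by
    rcases e.has h1 hb1 with h3 | h3
    · rcases hP1 u uS h3 with h4 | h4
      · exact h4
      · exact absurd h4 nuq
    · rcases hP1 v vS h3 with h4 | h4
      · exact absurd (h4 ▸ e.bq) (lt_asymm hpb)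
      · exact absurd h4 nvq
  subst hu
  rcases e.has h2 hb2 with h3 | h3
  · rcases hP2 u uS h3 with h4 | h4
    · exact hpx h4
    · exact nuq h4
  · rcases hP2 v vS h3 with h4 | h4
    · exact lt_asymm hxb (h4 ▸ e.bq)
    · exact nvq h4

/-- case: the cap `{q, b1}` -/
theorem Bip.same_caseB (h : Bip C S b1 b2) (e1 : Edge C S b1 p q) (e2 : Edge C S b2 p q)
    (hbb : C.lt b1 b2) (hA : C.eA b1 b2 b1 q) : False := by
  have pS := e1.hullp.mem
  have qS := e1.hullq.mem
  have npq := lt_ne e1.pq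
  have np1 := h.x1 pS
  have np2 := h.x2 pS
  have nq1 := h.x1 qS
  have nq2 := h.x2 qS
  have n12 := h.ne
  have hD : C.eD b1 b2 p q := by
    rcases h.fail1 Subset.rfl e1 with h1 | h1 | h1 | h1
    · exact absurd h1.1 (fun hh => h.same_L2 e1 e2 hbb hA.1 hh)
    · exact absurd h1 (fun hh => h.tri1 q qS hA hh)
    · exact absurd h1 (fun hh => h.same_L1 e1 e2 hbb hA.1 hh)
    · exact h1
  -- the hull edge of `S - p` around `b1`
  obtain ⟨u, v, e⟩ := h.edge_erase (m := p)
    (fun hh => h.tri2 p pS q qS npq ⟨hh, hD.2.1⟩ hA hD) hD.2.1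
  have uS := mem_of_mem_erase e.hullp.mem
  have nup := (mem_erase.1 e.hullp.mem).1
  have nu1 := h.x1 uS
  have nu2 := h.x2 uS
  have hv : v = q := by
    rcases e.has hA.1 (by simp) with h1 | h1
    · rcases h1 with h1 | h1
      · exact absurd (h1 ▸ e.pb) (lt_asymm e1.bq)
      · exact absurd h1 nu1
    · rcases h1 with h1 | h1
      · exact h1
      · exact absurd h1 (h.x1 (mem_of_mem_erase e.hullq.mem))
  subst hv
  have nuv := lt_ne e.pq
  have hub : C.lt u b2 := lt_mid_right e.pb e.bq e.pq hbb e2.bq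
  have hDu : C.eD b1 b2 u v := by
    rcases h.fail1 (erase_subset p S) e with h1 | h1 | h1 | h1
    · exfalso
      rcases e2.has h1.1 (by simp) with h2 | h2
      · rcases h2 with h2 | h2
        · exact nup h2.symm
        · exact np2 h2
      · rcases h2 with h2 | h2
        · exact nuv h2.symm
        · exact nq2 h2
    · exact absurd h1 (fun hh => h.tri1 v qS hA hh)
    · exfalso
      exact h1.cp hA.1 (a := u) (b := b1) (c := b2) (by simp) (by simp [nuv, nu1]) (by simp)
        (by simp [nu1.symm, nq1.symm, n12]) (by simp) (by simp [nq2.symm, n12.symm]) e.pb hbb hub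
    · exact h1
  -- the hull edge of `S - q` around `b2`
  have hA2 : ¬ C.cA b2 v := fun hh => h.tri1 v qS hA ⟨hh, hD.2.2⟩
  obtain ⟨s, t, e'⟩ := h.symm.edge_erase (m := v) hA2 (fun hh => hD.2.2 (cJ_swap.1 hh))
  have sS := mem_of_mem_erase e'.hullp.mem
  have tS := mem_of_mem_erase e'.hullq.mem
  have ntv := (mem_erase.1 e'.hullq.mem).1
  have nsv := (mem_erase.1 e'.hullp.mem).1
  have nt1 := h.x1 tS
  have nt2 := h.x2 tS
  have hs : s = p := by
    rcases e'.has hD.1 (by simp) with h1 | h1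
    · rcases h1 with h1 | h1 | h1 | h1
      · exact h1
      · exact absurd h1 nsv
      · exact absurd h1 (h.x1 sS)
      · exact absurd h1 (h.x2 sS)
    · rcases h1 with h1 | h1 | h1 | h1
      · exact absurd (h1 ▸ e'.bq) (lt_asymm e2.pb)
      · exact absurd h1 ntv
      · exact absurd h1 nt1
      · exact absurd h1 nt2
  subst hs
  have nst := lt_ne e'.pq
  have nut : u ≠ t := by
    intro hh
    exact lt_asymm hub (hh ▸ e'.bq)
  have hpu : C.lt s u := by
    rcases lt_total (C := C) nup with h1 | h1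
    · exfalso
      have := hDu.1.between e1.hullp (x := u) (y := v) (by simp) (by simp) uS qS h1 e1.pq e.pq
      rcases this with h2 | h2 | h2 | h2
      · exact nup h2.symm
      · exact npq h2
      · exact np1 h2
      · exact np2 h2
    · exact h1
  rcases h.fail2 (erase_subset v S) e' with h1 | h1 | h1 | h1
  · exact h.tri2 s pS v qS npq h1 hA hD
  · rcases e1.has h1.1 (by simp) with h2 | h2
    · rcases h2 with h2 | h2
      · exact nst h2
      · exact np1 h2
    · rcases h2 with h2 | h2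
      · exact ntv h2.symm
      · exact nq1 h2
  · exact h1.cp hDu.1 (a := s) (b := b2) (c := t) (by simp) (by simp [nup.symm, npq, np1, np2])
      (by simp) (by simp [np2.symm, nt2.symm, n12.symm]) (by simp)
      (by simp [nut.symm, ntv, nt1, nt2]) e2.pb e'.bq e'.pq
  · exact h1.1.cp hDu.1 (a := s) (b := u) (c := t) (by simp) (by simp [nup.symm, npq, np1, np2])
      (by simp) (by simp [nup, nut, nu1, nu2]) (by simp) (by simp [nut.symm, ntv, nt1, nt2])
      hpu (lt_mid_left e2.pb e'.bq e'.pq hpu hub) e'.pq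

/-- the hull edge of `S - q` around `b1` fails -/
theorem Bip.same_fail (h : Bip C S b1 b2) (e1 : Edge C S b1 p q) (e2 : Edge C S b2 p q)
    (hnp : ¬ C.eA b1 b2 b2 p) {u x : ι} (e : Edge C (S.erase q) b1 u x) :
    u = p ∧ (C.cB b2 p x ∨ C.eD b1 b2 p x) := by
  have pS := e1.hullp.mem
  have qS := e1.hullq.mem
  have np2 := h.x2 pS
  have nq2 := h.x2 qS
  have np1 := h.x1 pS
  have nq1 := h.x1 qS
  have nuq := (mem_erase.1 e.hullp.mem).1
  have nxq := (mem_erase.1 e.hullq.mem).1
  have nxp : x ≠ p := fun hh => lt_asymm e1.pb (hh ▸ e.bq)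
  rcases h.fail1 (erase_subset q S) e with h1 | h1 | h1 | h1
  · exfalso
    rcases e2.has h1.1 (by simp) with h2 | h2
    · rcases h2 with h2 | h2
      · exact hnp (h2 ▸ h1)
      · exact np2 h2
    · rcases h2 with h2 | h2
      · exact nuq h2.symm
      · exact nq2 h2
  · exfalso
    rcases e2.has h1.1 (by simp) with h2 | h2
    · rcases h2 with h2 | h2
      · exact nxp h2.symm
      · exact np2 h2
    · rcases h2 with h2 | h2
      · exact nxq h2.symm
      · exact nq2 h2
  · have : u = p := by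
      rcases e2.has h1 (by simp) with h2 | h2
      · rcases h2 with h2 | h2 | h2
        · exact h2.symm
        · exact absurd h2.symm nxp
        · exact absurd h2 np2
      · rcases h2 with h2 | h2 | h2
        · exact absurd h2.symm nuq
        · exact absurd h2.symm nxq
        · exact absurd h2 nq2
    exact ⟨this, Or.inl (this ▸ h1)⟩
  · have : u = p := by
      rcases e2.has h1.1 (by simp) with h2 | h2
      · rcases h2 with h2 | h2 | h2 | h2
        · exact h2.symm
        · exact absurd h2.symm nxp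
        · exact absurd h2 np1
        · exact absurd h2 np2
      · rcases h2 with h2 | h2 | h2 | h2
        · exact absurd h2.symm nuq
        · exact absurd h2.symm nxq
        · exact absurd h2 nq1
        · exact absurd h2 nq2
    exact ⟨this, Or.inr (this ▸ h1)⟩

/-- case: the cell `{p, x, b1}` and the minimal pair `{x, q}` -/
theorem Bip.same_L (h : Bip C S b1 b2) (e1 : Edge C S b1 p q) (e2 : Edge C S b2 p q)
    (hbb : C.lt b1 b2) {x : ι} (hxS : x ∈ S) (nxp : x ≠ p) (nxq : x ≠ q) (hbx : C.lt b1 x)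
    (hxb : C.lt x b2) (hxq : C.lt x q) (hJq : ¬ C.cJ b1 b2 q)
    (f1 : C.eA b1 b2 b2 q ∨ C.cB b2 p q ∨ C.eD b1 b2 p q)
    (f2 : C.eA b1 b2 b1 p ∨ C.cB b1 p q ∨ C.eD b1 b2 p q)
    (hL : C.cB b2 p x) (hR : C.eD b1 b2 x q) : False := by
  have pS := e1.hullp.mem
  have qS := e1.hullq.mem
  have npq := lt_ne e1.pq
  have np1 := h.x1 pS
  have np2 := h.x2 pS
  have nq1 := h.x1 qS
  have nq2 := h.x2 qS
  have nx1 := h.x1 hxS
  have nx2 := h.x2 hxS
  have n12 := h.ne
  have ncB : C.cB b1 p q → False := fun h1 =>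
    h1.cp hL (a := b1) (b := b2) (c := q) (by simp) (by simp [np1.symm, nx1.symm, n12])
      (by simp) (by simp [np2.symm, nq2.symm, n12.symm]) (by simp)
      (by simp [npq.symm, nxq.symm, nq2]) hbb e2.bq e1.bq
  have neD : C.eD b1 b2 p q → False := fun h1 =>
    h1.1.cp hL (a := b1) (b := x) (c := q) (by simp) (by simp [np1.symm, nx1.symm, n12])
      (by simp) (by simp [nxp, nxq, nx1, nx2]) (by simp)
      (by simp [npq.symm, nxq.symm, nq2]) hbx hxq e1.bq
  have hp : C.eA b1 b2 b1 p := by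
    rcases f2 with h1 | h1 | h1
    · exact h1
    · exact absurd h1 ncB
    · exact absurd h1 neD
  have hq : C.eA b1 b2 b2 q := by
    rcases f1 with h1 | h1 | h1
    · exact h1
    · refine ⟨h.same_key e2.pb hxb nxp.symm h1 hR.1 (by simp) (by simp) ?_ ?_ hJq, hJq⟩
      · rintro i hi (h2 | h2 | h2)
        · exact Or.inl h2
        · exact Or.inr h2
        · exact absurd h2 (h.x2 hi)
      · rintro i hi (h2 | h2 | h2 | h2)
        · exact Or.inl h2
        · exact Or.inr h2
        · exact absurd h2 (h.x1 hi)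
        · exact absurd h2 (h.x2 hi)
    · exact absurd h1 neD
  obtain ⟨z, hz | hz⟩ := h.walk hp.1 hR.1 (y := p) (by simp) (by simp [nxp.symm, npq, np1, np2])
  · obtain ⟨z1, z2, z3⟩ := hz
    rcases z1 with rfl | rfl
    · obtain ⟨H, hH, h4⟩ := z3
      obtain ⟨y, hy⟩ := h.meet1 H hH ((h4 b1).2 ⟨by simp, np1.symm⟩)
      rw [mem_inter, h4] at hy
      obtain ⟨⟨hy1 | hy1, hy2⟩, hyS⟩ := hy
      · exact hy2 hy1
      · exact h.x1 hyS hy1
    · exact z2 (by simp)
  obtain ⟨z1, z2, z3⟩ := hz
  rcases z2 with rfl | rfl | rfl | rfl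
  · -- `z = x`
    have hP : C.cB b1 p z := z3.congr (fun i => by tauto)
    obtain ⟨w, hw | hw⟩ := h.walk hP hR.1 (y := p) (by simp) (by simp [nxp.symm, npq, np1, np2])
    · obtain ⟨w1, w2, w3⟩ := hw
      rcases w1 with rfl | rfl | rfl
      · rcases e1.has w3 ⟨by simp, np1.symm⟩ with h1 | h1
        · exact h1.2 rfl
        · rcases h1.1 with h2 | h2 | h2
          · exact npq h2.symm
          · exact nxq h2.symm
          · exact nq1 h2
      · exact w2 (by simp)
      · exact w2 (by simp)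
    · obtain ⟨w1, w2, w3⟩ := hw
      rcases w2 with rfl | rfl | rfl | rfl
      · exact w1 (by simp)
      · -- `w = q`
        exact w3.cp hL (a := b1) (b := b2) (c := w) (by simp) (by simp [np1.symm, nx1.symm, n12])
          (by simp) (by simp [np2.symm, nx2.symm, nq2.symm, n12.symm]) (by simp)
          (by simp [npq.symm, nxq.symm, nq2]) hbb e2.bq e1.bq
      · exact w1 (by simp)
      · refine h.pent p pS z hxS q qS nxp.symm nxq npq hp
          ⟨w3.congr (fun i => by tauto), hp.2, hR.2.1⟩ hR hq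
  · -- `z = q`
    exact ncB (z3.congr (fun i => by tauto))
  · exact z1 (by simp)
  · exact hp.2 (z3.congr (fun i => by tauto))

/-- case: neither `p` nor `q` is a cell -/
theorem Bip.same_main (h : Bip C S b1 b2) (e1 : Edge C S b1 p q) (e2 : Edge C S b2 p q)
    (hbb : C.lt b1 b2) (hJp : ¬ C.cJ b1 b2 p) (hJq : ¬ C.cJ b1 b2 q) : False := by
  have pS := e1.hullp.mem
  have qS := e1.hullq.mem
  have npq := lt_ne e1.pq
  have np1 := h.x1 pS
  have np2 := h.x2 pS
  have nq1 := h.x1 qS
  have nq2 := h.x2 qS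
  have n12 := h.ne
  have hnq : ¬ C.eA b1 b2 b1 q := fun hh => h.same_caseB e1 e2 hbb hh
  have hnp : ¬ C.eA b1 b2 b2 p := fun hh =>
    h.symm.mirror.same_caseB e2.mirror e1.mirror (mirror_lt.2 hbb) (eA_swap.1 hh)
  have f1 : C.eA b1 b2 b2 q ∨ C.cB b2 p q ∨ C.eD b1 b2 p q := by
    rcases h.fail1 Subset.rfl e1 with h1 | h1
    · exact absurd h1 hnp
    · exact h1
  have f2 : C.eA b1 b2 b1 p ∨ C.cB b1 p q ∨ C.eD b1 b2 p q := by
    rcases h.fail2 Subset.rfl e2 with h1 | h1 | h1
    · exact Or.inl h1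
    · exact absurd h1 hnq
    · exact Or.inr h1
  obtain ⟨u, x, e⟩ := h.edge_erase (m := q) (fun hh => hnq ⟨hh, hJq⟩) hJq
  obtain ⟨rfl, hL⟩ := h.same_fail e1 e2 hnp e
  obtain ⟨y, v, e'⟩ := h.symm.edge_erase (m := u) (fun hh => hnp ⟨hh, hJp⟩)
    (fun hh => hJp (cJ_swap.1 hh))
  obtain ⟨hvq, hR⟩ := h.symm.mirror.same_fail e2.mirror e1.mirror
    (fun hh => hnq (eA_swap.1 hh)) e'.mirror
  subst hvq
  have hR' : C.cB b1 v y ∨ C.eD b1 b2 v y := by
    rcases hR with h1 | h1
    · exact Or.inl h1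
    · exact Or.inr (eD_swap.1 h1)
  have xS := mem_of_mem_erase e.hullq.mem
  have yS := mem_of_mem_erase e'.hullp.mem
  have nxq := (mem_erase.1 e.hullq.mem).1
  have nyp := (mem_erase.1 e'.hullp.mem).1
  have nx1 := h.x1 xS
  have nx2 := h.x2 xS
  have ny1 := h.x1 yS
  have ny2 := h.x2 yS
  have hxy : x = y := by
    rcases hR' with h1 | h1
    · rcases e.has h1 (by simp) with h2 | h2
      · rcases h2 with h2 | h2 | h2
        · exact absurd h2 npq
        · exact absurd h2.symm nyp
        · exact absurd h2 np1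
      · rcases h2 with h2 | h2 | h2
        · exact absurd h2 nxq
        · exact h2
        · exact absurd h2 nx1
    · rcases e.has h1.1 (by simp) with h2 | h2
      · rcases h2 with h2 | h2 | h2 | h2
        · exact absurd h2 npq
        · exact absurd h2.symm nyp
        · exact absurd h2 np1
        · exact absurd h2 np2
      · rcases h2 with h2 | h2 | h2 | h2
        · exact absurd h2 nxq
        · exact h2
        · exact absurd h2 nx1
        · exact absurd h2 nx2
  subst hxy
  have hpx := e.pq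
  have hbx := e.bq
  have hxb := e'.pb
  have hxq := e'.pq
  rcases hL with hL | hL <;> rcases hR' with hR | hR
  · exact hL.cp hR (a := u) (b := b1) (c := b2) (by simp) (by simp [npq, nyp.symm, np1])
      (by simp) (by simp [np1.symm, nx1.symm, n12]) (by simp)
      (by simp [nq2.symm, nx2.symm, n12.symm]) e1.pb hbb e2.pb
  · exact h.same_L e1 e2 hbb xS nyp nxq hbx hxb hxq hJq f1 f2 hL (eD_comm hR)
  · have g1 : C.mirror.eA b2 b1 b1 u ∨ C.mirror.cB b1 v u ∨ C.mirror.eD b2 b1 v u := by
      rcases f2 with h1 | h1 | h1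
      · exact Or.inl (eA_swap.1 h1)
      · exact Or.inr (Or.inl (cB_comm h1))
      · exact Or.inr (Or.inr (eD_comm (eD_swap.1 h1)))
    have g2 : C.mirror.eA b2 b1 b2 v ∨ C.mirror.cB b2 v u ∨ C.mirror.eD b2 b1 v u := by
      rcases f1 with h1 | h1 | h1
      · exact Or.inl (eA_swap.1 h1)
      · exact Or.inr (Or.inl (cB_comm h1))
      · exact Or.inr (Or.inr (eD_comm (eD_swap.1 h1)))
    exact h.symm.mirror.same_L e2.mirror e1.mirror (mirror_lt.2 hbb) xS nxq nyp
      (mirror_lt.2 hxb) (mirror_lt.2 hbx) (mirror_lt.2 hpx) (fun hh => hJp (cJ_swap.1 hh)) g1 g2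
      hR (eD_comm (eD_swap.1 hL))
  · -- both are minimal pairs
    have kq : C.cB b2 u v → C.cA b2 v := fun h1 => by
      refine h.same_key e2.pb hxb nyp.symm h1 hR.1 (by simp) (by simp) ?_ ?_ hJq
      · rintro i hi (h2 | h2 | h2)
        · exact Or.inl h2
        · exact Or.inr h2
        · exact absurd h2 (h.x2 hi)
      · rintro i hi (h2 | h2 | h2 | h2)
        · exact Or.inr h2
        · exact Or.inl h2
        · exact absurd h2 (h.x1 hi)
        · exact absurd h2 (h.x2 hi)
    have kp : C.cB b1 u v → C.cA b1 u := fun h1 => by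
      refine h.symm.mirror.same_key (q := u) (p := v) (x := x) (mirror_lt.2 e1.bq)
        (mirror_lt.2 hbx) nxq.symm
        (P1 := fun i => i = u ∨ i = v ∨ i = b1) (P2 := fun i => i = u ∨ i = x ∨ i = b1 ∨ i = b2)
        h1 hL.1 (by simp) (by simp) ?_ ?_ (fun hh => hJp (cJ_swap.1 hh))
      · rintro i hi (h2 | h2 | h2)
        · exact Or.inr h2
        · exact Or.inl h2
        · exact absurd h2 (h.x1 hi)
      · rintro i hi (h2 | h2 | h2 | h2)
        · exact Or.inr h2
        · exact Or.inl h2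
        · exact absurd h2 (h.x1 hi)
        · exact absurd h2 (h.x2 hi)
    have hD : C.eD b1 b2 u v → False := fun h1 =>
      h.tri4 u pS x xS v qS nyp.symm nxq npq hL (eD_comm hR) h1
    have hq : C.eA b1 b2 b2 v := by
      rcases f1 with h1 | h1 | h1
      · exact h1
      · exact ⟨kq h1, hJq⟩
      · exact absurd h1 hD
    have hp : C.eA b1 b2 b1 u := by
      rcases f2 with h1 | h1 | h1
      · exact h1
      · exact ⟨kp h1, hJp⟩
      · exact absurd h1 hD
    exact h.pent u pS x xS v qS nyp.symm nxq npq hp hL (eD_comm hR) hq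

/-- case: `q` is a cell, `p` is not -/
theorem Bip.same_caseJ (h : Bip C S b1 b2) (e1 : Edge C S b1 p q) (e2 : Edge C S b2 p q)
    (hbb : C.lt b1 b2) (hJp : ¬ C.cJ b1 b2 p) (hJq : C.cJ b1 b2 q)
    (hG : (∃ u, C.eA b1 b2 b1 u) ∨ (∃ u, C.eA b1 b2 b2 u) ∨
      ∃ u ∈ S, ∃ v ∈ S, u ≠ v ∧ C.eD b1 b2 u v) : False := by
  have pS := e1.hullp.mem
  have qS := e1.hullq.mem
  have npq := lt_ne e1.pq
  have np1 := h.x1 pS
  have np2 := h.x2 pS
  have nq1 := h.x1 qS
  have nq2 := h.x2 qS
  have n12 := h.ne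
  have hnp : ¬ C.eA b1 b2 b2 p := fun hh =>
    h.symm.mirror.same_caseB e2.mirror e1.mirror (mirror_lt.2 hbb) (eA_swap.1 hh)
  have f1 : C.cB b2 p q := by
    rcases h.fail1 Subset.rfl e1 with h1 | h1 | h1 | h1
    · exact absurd h1 hnp
    · exact absurd hJq h1.2
    · exact h1
    · exact absurd hJq h1.2.2
  by_cases hp : C.eA b1 b2 b1 p
  · -- the hull edge of `S - p` around `b2`
    obtain ⟨y, v, e⟩ := h.symm.edge_erase (m := p) (fun hh => hnp ⟨hh, hJp⟩)
      (fun hh => hJp (cJ_swap.1 hh))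
    have yS := mem_of_mem_erase e.hullp.mem
    have nyp := (mem_erase.1 e.hullp.mem).1
    have nvp := (mem_erase.1 e.hullq.mem).1
    have hv : v = q := by
      rcases e.has f1 (by simp) with h1 | h1
      · rcases h1 with h1 | h1 | h1
        · exact absurd h1 nyp
        · exact absurd (h1 ▸ e.pb) (lt_asymm e2.bq)
        · exact absurd h1 (h.x2 yS)
      · rcases h1 with h1 | h1 | h1
        · exact absurd h1 nvp
        · exact h1
        · exact absurd h1 (h.x2 (mem_of_mem_erase e.hullq.mem))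
    subst hv
    have nyv := lt_ne e.pq
    have ny2 := h.x2 yS
    rcases h.fail2 (erase_subset p S) e with h1 | h1 | h1 | h1
    · rcases e1.has h1.1 (by simp) with h2 | h2
      · rcases h2 with h2 | h2
        · exact nyp h2.symm
        · exact np1 h2
      · rcases h2 with h2 | h2
        · exact nyv h2.symm
        · exact nq1 h2
    · exact h1.2 hJq
    · exact f1.cp h1 (a := p) (b := b1) (c := b2) (by simp) (by simp [nyp.symm, npq, np1])
        (by simp) (by simp [np1.symm, nq1.symm, n12]) (by simp)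
        (by simp [ny2.symm, nq2.symm, n12.symm]) e1.pb hbb e2.pb
    · exact h1.2.2 hJq
  · have f2 : C.cB b1 p q := by
      rcases h.fail2 Subset.rfl e2 with h1 | h1 | h1 | h1
      · exact absurd h1 hp
      · exact absurd hJq h1.2
      · exact h1
      · exact absurd hJq h1.2.2
    -- the second minimal pair is `{p, x}`
    have hx : ∃ x ∈ S, p ≠ x ∧ C.eD b1 b2 p x := by
      rcases hG with ⟨u, hu⟩ | ⟨u, hu⟩ | ⟨u, huS, v, hvS, huv, hD⟩
      · exfalso
        rcases e1.has hu.1 (by simp) with h2 | h2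
        · rcases h2 with h2 | h2
          · exact hp (h2 ▸ hu)
          · exact np1 h2
        · rcases h2 with h2 | h2
          · exact hu.2 (h2 ▸ hJq)
          · exact nq1 h2
      · exfalso
        rcases e2.has hu.1 (by simp) with h2 | h2
        · rcases h2 with h2 | h2
          · exact hnp (h2 ▸ hu)
          · exact np2 h2
        · rcases h2 with h2 | h2
          · exact hu.2 (h2 ▸ hJq)
          · exact nq2 h2
      · rcases e1.has hD.1 (by simp) with h2 | h2
        · rcases h2 with h2 | h2 | h2 | h2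
          · exact ⟨v, hvS, h2 ▸ huv, h2 ▸ hD⟩
          · exact ⟨u, huS, fun hh => huv (hh.symm.trans h2), h2 ▸ eD_comm hD⟩
          · exact absurd h2 np1
          · exact absurd h2 np2
        · rcases h2 with h2 | h2 | h2 | h2
          · exact absurd (h2 ▸ hJq) hD.2.1
          · exact absurd (h2 ▸ hJq) hD.2.2
          · exact absurd h2 nq1
          · exact absurd h2 nq2
    obtain ⟨x, xS, npx, hD⟩ := hx
    have nxq : x ≠ q := fun hh => hD.2.2 (hh ▸ hJq)
    have nx1 := h.x1 xS
    have nx2 := h.x2 xS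
    obtain ⟨u, v, e⟩ := h.edge_erase (m := p) (fun hh => hp ⟨hh, hJp⟩) hJp
    have uS := mem_of_mem_erase e.hullp.mem
    have vS := mem_of_mem_erase e.hullq.mem
    have nup := (mem_erase.1 e.hullp.mem).1
    have nvp := (mem_erase.1 e.hullq.mem).1
    have hv : v = q := by
      rcases e.has f2 (by simp) with h1 | h1
      · rcases h1 with h1 | h1 | h1
        · exact absurd h1 nup
        · exact absurd (h1 ▸ e.pb) (lt_asymm e1.bq)
        · exact absurd h1 (h.x1 uS)
      · rcases h1 with h1 | h1 | h1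
        · exact absurd h1 nvp
        · exact h1
        · exact absurd h1 (h.x1 vS)
    subst hv
    have hu : u = x := by
      rcases e.has hD.1 (by simp) with h1 | h1
      · rcases h1 with h1 | h1 | h1 | h1
        · exact absurd h1 nup
        · exact h1
        · exact absurd h1 (h.x1 uS)
        · exact absurd h1 (h.x2 uS)
      · rcases h1 with h1 | h1 | h1 | h1
        · exact absurd h1 nvp
        · exact absurd h1.symm nxq
        · exact absurd h1 nq1
        · exact absurd h1 nq2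
    subst hu
    have hub : C.lt u b2 := hD.1.trans (by simp) (by simp) (by simp) e.pb hbb
    rcases h.fail1 (erase_subset p S) e with h1 | h1 | h1 | h1
    · rcases e2.has h1.1 (by simp) with h2 | h2
      · rcases h2 with h2 | h2
        · exact nup h2.symm
        · exact np2 h2
      · rcases h2 with h2 | h2
        · exact nxq h2.symm
        · exact nq2 h2
    · exact h1.2 hJq
    · exact h1.cp f2 (a := u) (b := b1) (c := b2) (by simp) (by simp [nup, nxq, nx1])
        (by simp) (by simp [nx1.symm, nq1.symm, n12]) (by simp)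
        (by simp [np2.symm, nq2.symm, n12.symm]) e.pb hbb hub
    · exact h1.2.2 hJq

/-- both blue letters in the same hull edge -/
theorem Bip.case_same (h : Bip C S b1 b2) (e1 : Edge C S b1 p q) (e2 : Edge C S b2 p q)
    (hbb : C.lt b1 b2)
    (hG : (∃ u, C.eA b1 b2 b1 u) ∨ (∃ u, C.eA b1 b2 b2 u) ∨
      ∃ u ∈ S, ∃ v ∈ S, u ≠ v ∧ C.eD b1 b2 u v) : False := by
  by_cases hJp : C.cJ b1 b2 p <;> by_cases hJq : C.cJ b1 b2 q
  · have np1 := h.x1 e1.hullp.mem
    have np2 := h.x2 e1.hullp.mem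
    have nq1 := h.x1 e1.hullq.mem
    have nq2 := h.x2 e1.hullq.mem
    rcases hG with ⟨u, hu⟩ | ⟨u, hu⟩ | ⟨u, huS, v, hvS, huv, hD⟩
    · rcases e1.has hu.1 (by simp) with h2 | h2
      · rcases h2 with h2 | h2
        · exact hu.2 (h2 ▸ hJp)
        · exact np1 h2
      · rcases h2 with h2 | h2
        · exact hu.2 (h2 ▸ hJq)
        · exact nq1 h2
    · rcases e2.has hu.1 (by simp) with h2 | h2
      · rcases h2 with h2 | h2
        · exact hu.2 (h2 ▸ hJp)
        · exact np2 h2
      · rcases h2 with h2 | h2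
        · exact hu.2 (h2 ▸ hJq)
        · exact nq2 h2
    · rcases e1.has hD.1 (by simp) with h2 | h2
      · rcases h2 with h2 | h2 | h2 | h2
        · exact hD.2.1 (h2 ▸ hJp)
        · exact hD.2.2 (h2 ▸ hJp)
        · exact np1 h2
        · exact np2 h2
      · rcases h2 with h2 | h2 | h2 | h2
        · exact hD.2.1 (h2 ▸ hJq)
        · exact hD.2.2 (h2 ▸ hJq)
        · exact nq1 h2
        · exact nq2 h2
  · refine h.symm.mirror.same_caseJ e2.mirror e1.mirror (mirror_lt.2 hbb)
      (fun hh => hJq (cJ_swap.1 hh)) (cJ_swap.1 hJp) ?_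
    rcases hG with ⟨u, hu⟩ | ⟨u, hu⟩ | ⟨u, huS, v, hvS, huv, hD⟩
    · exact Or.inr (Or.inl ⟨u, eA_swap.1 hu⟩)
    · exact Or.inl ⟨u, eA_swap.1 hu⟩
    · exact Or.inr (Or.inr ⟨u, huS, v, hvS, huv, eD_swap.1 hD⟩)
  · exact h.same_caseJ e1 e2 hbb hJp hJq hG
  · exact h.same_main e1 e2 hbb hJp hJq

/-- MAIN THEOREM (abstract form) -/
theorem Bip.false (h : Bip C S b1 b2)
    (hG : (∃ u, C.eA b1 b2 b1 u) ∨ (∃ u, C.eA b1 b2 b2 u) ∨
      ∃ u ∈ S, ∃ v ∈ S, u ≠ v ∧ C.eD b1 b2 u v) : False := by
  obtain ⟨p1, q1, e1⟩ := exists_edge h.notin1 h.meet1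
  obtain ⟨p2, q2, e2⟩ := exists_edge h.notin2 h.meet2
  have hG' : (∃ u, C.eA b2 b1 b2 u) ∨ (∃ u, C.eA b2 b1 b1 u) ∨
      ∃ u ∈ S, ∃ v ∈ S, u ≠ v ∧ C.eD b2 b1 u v := by
    rcases hG with ⟨u, hu⟩ | ⟨u, hu⟩ | ⟨u, huS, v, hvS, huv, hD⟩
    · exact Or.inr (Or.inl ⟨u, eA_swap.1 hu⟩)
    · exact Or.inl ⟨u, eA_swap.1 hu⟩
    · exact Or.inr (Or.inr ⟨u, huS, v, hvS, huv, eD_swap.1 hD⟩)
  by_cases hpp : p1 = p2
  · subst hpp
    have := Edge.q_unique h.notin1 h.notin2 e1 e2
    subst this
    rcases lt_total (C := C) h.ne with hbb | hbb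
    · exact h.case_same e1 e2 hbb hG
    · exact h.symm.case_same e2 e1 hbb hG'
  by_cases hqq : q1 = q2
  · subst hqq
    exact hpp (Edge.p_unique h.notin1 h.notin2 e1 e2)
  by_cases hqp : q1 = p2
  · subst hqp
    refine h.case_adj e1 e2 ?_
    rintro rfl
    exact lt_asymm e1.pq e2.pq
  by_cases hpq : p1 = q2
  · subst hpq
    refine h.symm.case_adj e2 e1 ?_
    rintro rfl
    exact lt_asymm e1.pq e2.pq
  -- disjoint hull edges
  have nq1 := h.x2 e2.hullp.mem
  have nq2 := h.x2 e2.hullq.mem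
  have np1 := h.x1 e2.hullp.mem
  have np2 := h.x1 e2.hullq.mem
  rcases h.fail1 Subset.rfl e1 with h1 | h1 | h1 | h1
  · rcases e2.has h1.1 (by simp) with h2 | h2
    · rcases h2 with h2 | h2
      · exact hpp h2.symm
      · exact nq1 h2
    · rcases h2 with h2 | h2
      · exact hpq h2.symm
      · exact nq2 h2
  · rcases e2.has h1.1 (by simp) with h2 | h2
    · rcases h2 with h2 | h2
      · exact hqp h2.symm
      · exact nq1 h2
    · rcases h2 with h2 | h2
      · exact hqq h2.symm
      · exact nq2 h2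
  · rcases e2.has h1 (by simp) with h2 | h2
    · rcases h2 with h2 | h2 | h2
      · exact hpp h2.symm
      · exact hqp h2.symm
      · exact nq1 h2
    · rcases h2 with h2 | h2 | h2
      · exact hpq h2.symm
      · exact hqq h2.symm
      · exact nq2 h2
  · rcases e2.has h1.1 (by simp) with h2 | h2
    · rcases h2 with h2 | h2 | h2 | h2
      · exact hpp h2.symm
      · exact hqp h2.symm
      · exact np1 h2
      · exact nq1 h2
    · rcases h2 with h2 | h2 | h2 | h2
      · exact hpq h2.symm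
      · exact hqq h2.symm
      · exact np2 h2
      · exact nq2 h2

end

end CapSys

end PHP
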