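import Mathlib

/-!
# Cap systems (problem MP_1180db_co)

The cells of a complete pseudoline arrangement seen from one of its cells `O`: `caps` are the sets of
lines which separate a cell from `O`, `ang i` is the direction of the line `i` (in units of a half turn divided by
`n`, so all angles are numbers `< 2 * n`). Bridge from the systems `Sys`: file `CapBridge`.

Properties: `cp` (two caps `H`, `G`: some half turn contains the directions of `H \ G` and none of those of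
`G \ H`), `step` (relative to a set `Q` of letters: a cap meeting `Q` contains a hull letter of `Q`),
`half` (every half turn of directions is a cap: the unbounded cells).

`C.lt a b`: the direction of `b` is in the open half turn after that of `a`.
-/

namespace PHP

open Finset

/-- `x` lies in the half turn `[c, c+n)` of a circle of length `2n` -/
def inHalf (n c x : ℕ) : Prop := (c ≤ x ∧ x < c + n) ∨ x + n < c

structure CapSys (ι : Type) [DecidableEq ι] where
  n : ℕ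
  ang : ι → ℕ
  lt_ang : ∀ i, ang i < 2 * n
  inj : ∀ {i j}, i ≠ j → ang i ≠ ang j ∧ ang i ≠ ang j + n ∧ ang j ≠ ang i + n
  caps : Set (Finset ι)
  empty_mem : ∅ ∈ caps
  cp : ∀ {H G}, H ∈ caps → G ∈ caps → ∃ c, c < 2 * n ∧
    (∀ i ∈ H, i ∉ G → inHalf n c (ang i)) ∧ (∀ i ∈ G, i ∉ H → ¬ inHalf n c (ang i))
  step : ∀ (Q : Finset ι) {H}, H ∈ caps → (H ∩ Q).Nonempty → ∃ p ∈ H, ∃ P ∈ caps, P ∩ Q = {p}
  half : ∀ c, c < 2 * n → ∃ P ∈ caps, ∀ i, i ∈ P ↔ inHalf n c (ang i)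

variable {ι : Type} [DecidableEq ι]

namespace CapSys

variable (C : CapSys ι)

/-- the direction of `b` is in the open half turn after that of `a` -/
def lt (a b : ι) : Prop :=
  (C.ang a < C.ang b ∧ C.ang b < C.ang a + C.n) ∨ C.ang b + C.n < C.ang a

/-- `p` is a hull letter of `Q` -/
def Hull (Q : Finset ι) (p : ι) : Prop := ∃ P ∈ C.caps, P ∩ Q = {p}

variable {C}

theorem lt_irrefl {a : ι} : ¬ C.lt a a := by
  unfold lt
  omega

theorem lt_ne {a b : ι} (h : C.lt a b) : a ≠ b := by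
  rintro rfl
  exact lt_irrefl h

theorem lt_asymm {a b : ι} (h : C.lt a b) : ¬ C.lt b a := by
  have h1 := C.lt_ang a
  have h2 := C.lt_ang b
  unfold lt at *
  omega

theorem lt_total {a b : ι} (h : a ≠ b) : C.lt a b ∨ C.lt b a := by
  have h1 := C.lt_ang a
  have h2 := C.lt_ang b
  have h3 := C.inj h
  unfold lt
  omega

/-- local transitivity, successors of `a` -/
theorem lt_out {a b c d : ι} (h1 : C.lt a b) (h2 : C.lt a c) (h3 : C.lt a d) (h4 : C.lt b c)
    (h5 : C.lt c d) : C.lt b d := by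
  have g1 := C.lt_ang a
  have g2 := C.lt_ang b
  have g3 := C.lt_ang c
  have g4 := C.lt_ang d
  unfold lt at *
  omega

/-- local transitivity, predecessors of `a` -/
theorem lt_in {a b c d : ι} (h1 : C.lt b a) (h2 : C.lt c a) (h3 : C.lt d a) (h4 : C.lt b c)
    (h5 : C.lt c d) : C.lt b d := by
  have g1 := C.lt_ang a
  have g2 := C.lt_ang b
  have g3 := C.lt_ang c
  have g4 := C.lt_ang d
  unfold lt at *
  omega

/-- `b` is strictly between `a` and `c`, `d` is between `a` and `b` -/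
theorem lt_mid_left {a b c d : ι} (h1 : C.lt a b) (h2 : C.lt b c) (h3 : C.lt a c) (h4 : C.lt a d)
    (h5 : C.lt d b) : C.lt d c := by
  have g1 := C.lt_ang a
  have g2 := C.lt_ang b
  have g3 := C.lt_ang c
  have g4 := C.lt_ang d
  unfold lt at *
  omega

theorem lt_mid_right {a b c d : ι} (h1 : C.lt a b) (h2 : C.lt b c) (h3 : C.lt a c) (h4 : C.lt b d)
    (h5 : C.lt d c) : C.lt a d := by
  have g1 := C.lt_ang a
  have g2 := C.lt_ang b
  have g3 := C.lt_ang c
  have g4 := C.lt_ang d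
  unfold lt at *
  omega

/-- the letters of `H` outside `G` are linearly ordered -/
theorem trans_sdiff {H G : Finset ι} (hH : H ∈ C.caps) (hG : G ∈ C.caps) {a b c : ι}
    (ha : a ∈ H) (ha' : a ∉ G) (hb : b ∈ H) (hb' : b ∉ G) (hc : c ∈ H) (hc' : c ∉ G)
    (h1 : C.lt a b) (h2 : C.lt b c) : C.lt a c := by
  obtain ⟨t, ht, h3, -⟩ := C.cp hH hG
  have g1 := C.lt_ang a
  have g2 := C.lt_ang b
  have g3 := C.lt_ang c
  have k1 := h3 a ha ha'
  have k2 := h3 b hb hb'
  have k3 := h3 c hc hc'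
  unfold inHalf at k1 k2 k3
  unfold lt at *
  omega

/-- the letters of a cap are linearly ordered -/
theorem trans {H : Finset ι} (hH : H ∈ C.caps) {a b c : ι} (ha : a ∈ H) (hb : b ∈ H) (hc : c ∈ H)
    (h1 : C.lt a b) (h2 : C.lt b c) : C.lt a c :=
  trans_sdiff hH C.empty_mem ha (by simp) hb (by simp) hc (by simp) h1 h2

/-- CP: no letter of `G \ H` is between two letters of `H \ G` -/
theorem btw {H G : Finset ι} (hH : H ∈ C.caps) (hG : G ∈ C.caps) {a b c : ι}
    (ha : a ∈ H) (ha' : a ∉ G) (hb : b ∈ G) (hb' : b ∉ H) (hc : c ∈ H) (hc' : c ∉ G)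
    (h1 : C.lt a b) (h2 : C.lt b c) (h3 : C.lt a c) : False := by
  obtain ⟨t, ht, h4, h5⟩ := C.cp hH hG
  have g1 := C.lt_ang a
  have g2 := C.lt_ang b
  have g3 := C.lt_ang c
  have k1 := h4 a ha ha'
  have k2 := h5 b hb hb'
  have k3 := h4 c hc hc'
  unfold inHalf at k1 k2 k3
  unfold lt at *
  omega

theorem Hull.mem {Q : Finset ι} {p : ι} (h : C.Hull Q p) : p ∈ Q := by
  obtain ⟨P, -, hP⟩ := h
  have : p ∈ P ∩ Q := by rw [hP]; exact mem_singleton_self p
  exact (mem_inter.1 this).2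

theorem Hull.mono {Q Q' : Finset ι} {p : ι} (h : C.Hull Q p) (hQ : Q' ⊆ Q) (hp : p ∈ Q') :
    C.Hull Q' p := by
  obtain ⟨P, hP, hPQ⟩ := h
  refine ⟨P, hP, ?_⟩
  ext x
  have h1 : ∀ y, y ∈ P ∩ Q ↔ y = p := fun y => by rw [hPQ, mem_singleton]
  simp only [mem_inter] at h1
  simp only [mem_inter, mem_singleton]
  constructor
  · rintro ⟨hx1, hx2⟩
    exact (h1 x).1 ⟨hx1, hQ hx2⟩
  · rintro rfl
    exact ⟨((h1 x).2 rfl).1, hp⟩

theorem Hull.of_step {Q : Finset ι} {H : Finset ι} (hH : H ∈ C.caps) (h : (H ∩ Q).Nonempty) :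
    ∃ p ∈ H, C.Hull Q p := by
  obtain ⟨p, hp, P, hP, hPQ⟩ := C.step Q hH h
  exact ⟨p, hp, P, hP, hPQ⟩

/-- a letter `b` all of whose caps meet `Q` does not change the hull -/
theorem Hull.insert {Q : Finset ι} {b p : ι} (hb : ∀ H ∈ C.caps, b ∈ H → (H ∩ Q).Nonempty)
    (h : C.Hull Q p) : C.Hull (insert b Q) p := by
  by_cases hbQ : b ∈ Q
  · rw [insert_eq_of_mem hbQ]
    exact h
  obtain ⟨P, hP, hPQ⟩ := h
  have h1 : ∀ y, y ∈ P ∩ Q ↔ y = p := fun y => by rw [hPQ, mem_singleton]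
  have hpP := (mem_inter.1 ((h1 p).2 rfl)).1
  have hpQ := (mem_inter.1 ((h1 p).2 rfl)).2
  obtain ⟨r, hr, P', hP', hr'⟩ := Hull.of_step (Q := Insert.insert b Q) hP
    ⟨p, mem_inter.2 ⟨hpP, mem_insert_of_mem hpQ⟩⟩
  have h2 : ∀ y, y ∈ P' ∩ Insert.insert b Q ↔ y = r := fun y => by rw [hr', mem_singleton]
  have hrP' := (mem_inter.1 ((h2 r).2 rfl)).1
  rcases mem_insert.1 (mem_inter.1 ((h2 r).2 rfl)).2 with hrb | hrQ
  · exfalso
    subst hrb
    obtain ⟨y, hy⟩ := hb P' hP' hrP'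
    rw [mem_inter] at hy
    have := (h2 y).1 (mem_inter.2 ⟨hy.1, mem_insert_of_mem hy.2⟩)
    subst this
    exact hbQ hy.2
  · have : r = p := (h1 r).1 (mem_inter.2 ⟨hr, hrQ⟩)
    subst this
    exact ⟨P', hP', hr'⟩

/-- HL: a hull letter between two letters of a cap is in the cap -/
theorem Hull.between {Q : Finset ι} {p : ι} (h : C.Hull Q p) {H : Finset ι} (hH : H ∈ C.caps)
    {x y : ι} (hx : x ∈ H) (hy : y ∈ H) (hxQ : x ∈ Q) (hyQ : y ∈ Q) (h1 : C.lt x p)
    (h2 : C.lt p y) (h3 : C.lt x y) : p ∈ H := by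
  by_contra hp
  obtain ⟨P, hP, hPQ⟩ := h
  have h4 : ∀ y, y ∈ P ∩ Q ↔ y = p := fun y => by rw [hPQ, mem_singleton]
  have hpP := (mem_inter.1 ((h4 p).2 rfl)).1
  have hxP : x ∉ P := fun hxP => lt_ne h1 ((h4 x).1 (mem_inter.2 ⟨hxP, hxQ⟩))
  have hyP : y ∉ P := fun hyP => lt_ne h2 ((h4 y).1 (mem_inter.2 ⟨hyP, hyQ⟩)).symm
  exact btw hH hP hx hxP hpP hp hy hyP h1 h2 h3

/-- (IN): `a, c` hull letters of `Q` in `H \ G`, `b` in `H ∩ G ∩ Q` between them: then `G ∩ Q ⊆ H`, and all letters of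
`G ∩ Q` are between `a` and `c`. -/
theorem priv {Q : Finset ι} {a b c : ι} (ha : C.Hull Q a) (hc : C.Hull Q c) (hbQ : b ∈ Q)
    {H G : Finset ι} (hH : H ∈ C.caps) (hG : G ∈ C.caps) (haH : a ∈ H) (hcH : c ∈ H)
    (haG : a ∉ G) (hcG : c ∉ G) (hbG : b ∈ G) (h1 : C.lt a b) (h2 : C.lt b c) (h3 : C.lt a c)
    {r : ι} (hr : r ∈ G) (hrQ : r ∈ Q) : r ∈ H ∧ C.lt a r ∧ C.lt r c := by
  have hra : r ≠ a := fun h => haG (h ▸ hr)
  have hrc : r ≠ c := fun h => hcG (h ▸ hr)
  have key : C.lt a r ∧ C.lt r c := by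
    by_cases hrb : r = b
    · subst hrb
      exact ⟨h1, h2⟩
    rcases lt_total (C := C) hrb with h | h
    · -- `r` before `b`
      have har : C.lt a r := by
        rcases lt_total (C := C) hra with h5 | h5
        · exact absurd (Hull.between ha hG hr hbG hrQ hbQ h5 h1 h) haG
        · exact h5
      exact ⟨har, lt_mid_left h1 h2 h3 har h⟩
    · have hrc' : C.lt r c := by
        rcases lt_total (C := C) hrc with h5 | h5
        · exact h5
        · exact absurd (Hull.between hc hG hbG hr hbQ hrQ h2 h5 h) hcG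
      exact ⟨lt_mid_right h1 h2 h3 h hrc', hrc'⟩
  refine ⟨?_, key⟩
  by_contra hrH
  exact btw hH hG haH haG hr hrH hcH hcG key.1 key.2 h3

end CapSys

end PHP
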