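import Mathlib
import Pool.Agent.PHP.Defs
import Pool.Agent.PHP.SweepBasic
import Pool.Agent.PHP.SweepExists
import Pool.Agent.PHP.SysMaps
import Pool.Agent.PHP.CapDefs

/-!
# The cells of a complete system seen from one of its cells form a cap system
-/

namespace PHP

open Finset

namespace CapBridge

variable {ι : Type} [Fintype ι]

/-- letters that change from below to above precede (in the starting word) those that change from above to below -/
theorem up_lt_down (W : Sweep ι) {s s' p p' : ℕ} (hs : s ≤ s') {i j : ι}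
    (hi : W.pos s i < p) (hi' : ¬ W.pos s' i < p') (hj : ¬ W.pos s j < p) (hj' : W.pos s' j < p') :
    W.pos 0 i < W.pos 0 j := by
  classical
  by_contra hc
  have hne : W.pos 0 j ≠ W.pos 0 i := by
    intro h
    have := W.inj 0 h
    subst this
    exact hj hi
  obtain ⟨t, -, h1, h2⟩ := W.exists_swap_time (x := j) (y := i) (by omega)
  rcases Nat.lt_or_ge t s with h | h
  · have := h2 s' (by omega)
    omega
  · have := h1 s h
    omega

theorem exists_threshold (f : ι → ℕ) (n : ℕ) (hf : ∀ i, f i < n) (U D : ι → Prop)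
    (h : ∀ i j, U i → D j → f i < f j) :
    ∃ m, m ≤ n ∧ (∀ i, U i → f i < m) ∧ (∀ i, D i → m ≤ f i) := by
  classical
  refine ⟨(univ.filter U).sup (fun i => f i + 1), ?_, ?_, ?_⟩
  · apply Finset.sup_le
    intro i _
    have := hf i
    omega
  · intro i hi
    have : f i + 1 ≤ (univ.filter U).sup (fun i => f i + 1) :=
      Finset.le_sup (f := fun i => f i + 1) (mem_filter.2 ⟨mem_univ i, hi⟩)
    omega
  · intro j hj
    apply Finset.sup_le
    intro i hi
    exact h i j (mem_filter.1 hi).2 hj

/-- the angle of a letter -/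
def angOf (n : ℕ) (f : ι → ℕ) (F O : ι → Bool) (i : ι) : ℕ := f i + if O i = F i then 0 else n

end CapBridge

open CapBridge in
/-- A complete system (with a circular list at infinity), seen from its cell `O`. -/
theorem Sys.Circ.exists_capSys {ι : Type} [Fintype ι] [DecidableEq ι] {S : Sys ι} {F : ι → Bool}
    {l : List (ι × Bool)} (h : S.Circ F l) (hc : S.Complete) (hne : Nonempty ι) {O : ι → Bool}
    (hO : O ∈ S.T) :
    ∃ C : CapSys ι, ∀ H : Finset ι, H ∈ C.caps ↔ ∃ X ∈ S.T, ∀ i, i ∈ H ↔ X i ≠ O i := by
  classical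
  obtain ⟨W, hW, -⟩ := h.exists_sweep hc hne
  have hn : 0 < Fintype.card ι := Fintype.card_pos
  have hcell : ∀ (s p : ℕ) (i : ι), W.cell F s p i = xor (F i) (decide (W.pos s i < p)) :=
    fun _ _ _ => rfl
  refine ⟨{
    n := Fintype.card ι
    ang := angOf (Fintype.card ι) (W.pos 0) F O
    lt_ang := ?_
    inj := ?_
    caps := {H | ∃ X ∈ S.T, ∀ i, i ∈ H ↔ X i ≠ O i}
    empty_mem := ⟨O, hO, fun i => by simp⟩
    cp := ?_
    step := ?_
    half := ?_ }, fun H => Iff.rfl⟩
  · intro i
    have := W.lt 0 i
    unfold angOf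
    split_ifs <;> omega
  · intro i j hij
    have h1 := W.lt 0 i
    have h2 := W.lt 0 j
    have h3 : W.pos 0 i ≠ W.pos 0 j := fun h => hij (W.inj 0 h)
    unfold angOf
    split_ifs <;> omega
  · rintro H G ⟨X, hX, hHX⟩ ⟨Y, hY, hGY⟩
    rw [← hW] at hX hY
    obtain ⟨s, p, rfl⟩ := hX
    obtain ⟨s', p', rfl⟩ := hY
    simp only [hcell] at hHX hGY
    rcases le_total s s' with hs | hs
    · obtain ⟨m, hm, h1, h2⟩ := exists_threshold (W.pos 0) (Fintype.card ι) (W.lt 0)
        (fun i => W.pos s i < p ∧ ¬ W.pos s' i < p') (fun i => ¬ W.pos s i < p ∧ W.pos s' i < p')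
        (fun i j hi hj => up_lt_down W hs hi.1 hi.2 hj.1 hj.2)
      refine ⟨if m < Fintype.card ι then m + Fintype.card ι else 0, by split_ifs <;> omega,
        fun i hi hi' => ?_, fun i hi hi' => ?_⟩
      · rw [hHX] at hi
        rw [hGY] at hi'
        have hl := W.lt 0 i
        have h3 := h1 i
        have h4 := h2 i
        simp only [not_and, not_lt] at h3 h4
        unfold inHalf angOf
        by_cases hA : W.pos s i < p <;> by_cases hB : W.pos s' i < p' <;>
          cases hFi : F i <;> cases hOi : O i <;>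
          simp [hA, hB, hFi, hOi] at hi hi' <;> simp <;> simp [hA, hB] at h3 h4 <;>
          split_ifs <;> omega
      · rw [hGY] at hi
        rw [hHX] at hi'
        have hl := W.lt 0 i
        have h3 := h1 i
        have h4 := h2 i
        simp only [not_and, not_lt] at h3 h4
        unfold inHalf angOf
        by_cases hA : W.pos s i < p <;> by_cases hB : W.pos s' i < p' <;>
          cases hFi : F i <;> cases hOi : O i <;>
          simp [hA, hB, hFi, hOi] at hi hi' <;> simp <;> simp [hA, hB] at h3 h4 <;>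
          split_ifs <;> omega
    · obtain ⟨m, hm, h1, h2⟩ := exists_threshold (W.pos 0) (Fintype.card ι) (W.lt 0)
        (fun i => W.pos s' i < p' ∧ ¬ W.pos s i < p) (fun i => ¬ W.pos s' i < p' ∧ W.pos s i < p)
        (fun i j hi hj => up_lt_down W hs hi.1 hi.2 hj.1 hj.2)
      refine ⟨m, by omega, fun i hi hi' => ?_, fun i hi hi' => ?_⟩
      · rw [hHX] at hi
        rw [hGY] at hi'
        have hl := W.lt 0 i
        have h3 := h1 i
        have h4 := h2 i
        simp only [not_and, not_lt] at h3 h4
        unfold inHalf angOf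
        by_cases hA : W.pos s i < p <;> by_cases hB : W.pos s' i < p' <;>
          cases hFi : F i <;> cases hOi : O i <;>
          simp [hA, hB, hFi, hOi] at hi hi' <;> simp <;> simp [hA, hB] at h3 h4 <;>
          omega
      · rw [hGY] at hi
        rw [hHX] at hi'
        have hl := W.lt 0 i
        have h3 := h1 i
        have h4 := h2 i
        simp only [not_and, not_lt] at h3 h4
        unfold inHalf angOf
        by_cases hA : W.pos s i < p <;> by_cases hB : W.pos s' i < p' <;>
          cases hFi : F i <;> cases hOi : O i <;>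
          simp [hA, hB, hFi, hOi] at hi hi' <;> simp <;> simp [hA, hB] at h3 h4 <;>
          omega
  · rintro Q H ⟨X, hX, hHX⟩ ⟨q, hq⟩
    rw [mem_inter] at hq
    have hqX := (hHX q).1 hq.1
    obtain ⟨S', l', h', hT', hcr⟩ := h.comap (Function.Embedding.subtype (fun i => i ∈ Q))
    have hc' : S'.Complete := by
      intro a b hab
      rw [hcr]
      exact hc _ _ (fun h => hab (Subtype.ext h))
    obtain ⟨W', hW', -⟩ := h'.exists_sweep hc' ⟨⟨q, hq.2⟩⟩
    obtain ⟨z, hz1, hz2⟩ := W'.exists_step (F ∘ (Function.Embedding.subtype (fun i => i ∈ Q)))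
      (X := O ∘ (Function.Embedding.subtype (fun i => i ∈ Q)))
      (Y := X ∘ (Function.Embedding.subtype (fun i => i ∈ Q)))
      (by rw [hW', hT']; exact ⟨O, hO, rfl⟩) (by rw [hW', hT']; exact ⟨X, hX, rfl⟩)
      (fun he => hqX (congrFun he ⟨q, hq.2⟩).symm)
    rw [hW', hT'] at hz2
    obtain ⟨Y, hY, hYz⟩ := hz2
    have hY1 : ∀ i (hi : i ∈ Q), Y i = if i = z.1 then X z.1 else O i := by
      intro i hi
      have h1 := congrFun hYz ⟨i, hi⟩
      simp only [Function.comp_apply, Function.Embedding.subtype_apply] at h1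
      rw [← h1]
      by_cases hiz : i = z.1
      · have : (⟨i, hi⟩ : {i // i ∈ Q}) = z := Subtype.ext hiz
        rw [if_pos hiz, this, Function.update_self]
      · have : (⟨i, hi⟩ : {i // i ∈ Q}) ≠ z := fun h => hiz (congrArg Subtype.val h)
        rw [if_neg hiz, Function.update_of_ne this]
        rfl
    refine ⟨z.1, (hHX z.1).2 (fun he => hz1 he.symm), univ.filter (fun i => Y i ≠ O i),
      ⟨Y, hY, fun i => by simp⟩, ?_⟩
    ext i
    simp only [mem_inter, mem_filter, mem_univ, true_and, mem_singleton]
    constructor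
    · rintro ⟨h1, h2⟩
      by_contra hiz
      rw [hY1 i h2, if_neg hiz] at h1
      exact h1 rfl
    · rintro rfl
      refine ⟨?_, z.2⟩
      rw [hY1 z.1 z.2, if_pos rfl]
      exact fun he => hz1 he.symm
  · intro c hc2
    rcases le_or_gt c (Fintype.card ι) with hcn | hcn
    · refine ⟨univ.filter (fun i => W.cell F W.N (Fintype.card ι - c) i ≠ O i),
        ⟨W.cell F W.N (Fintype.card ι - c), by rw [← hW]; exact ⟨_, _, rfl⟩, fun i => by simp⟩,
        fun i => ?_⟩
      have h1 := W.rev i
      have h2 : W.pos W.N i < Fintype.card ι - c ↔ c ≤ W.pos 0 i := by omega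
      have h3 := W.lt 0 i
      simp only [mem_filter, mem_univ, true_and, hcell, h2]
      unfold inHalf angOf
      by_cases hA : c ≤ W.pos 0 i <;> cases hFi : F i <;> cases hOi : O i <;>
        simp [hA] <;> omega
    · refine ⟨univ.filter (fun i => W.cell F 0 (c - Fintype.card ι) i ≠ O i),
        ⟨W.cell F 0 (c - Fintype.card ι), by rw [← hW]; exact ⟨_, _, rfl⟩, fun i => by simp⟩,
        fun i => ?_⟩
      have h3 := W.lt 0 i
      simp only [mem_filter, mem_univ, true_and, hcell]
      unfold inHalf angOf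
      by_cases hA : W.pos 0 i < c - Fintype.card ι <;> cases hFi : F i <;> cases hOi : O i <;>
        simp [hA] <;> omega

end PHP
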