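import Pool.Agent.PHP.CapEdge

/-!
# Cap systems: the final 2-colouring for two blue letters (MP_1180db_co, d = 2, part 3)

`S` red letters, `b1, b2` blue letters, every cap containing a blue letter meets `S`. Demands: caps `H ∈ D`;
a demand containing `b1` has to meet `S1`, a demand containing `b2` has to meet `S \ S1`.
-/

namespace PHP

open Finset

namespace CapSys

variable {ι : Type} [DecidableEq ι] {C : CapSys ι}

/-- the demands of the final step -/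
structure Final (C : CapSys ι) (S : Finset ι) (b1 b2 : ι) (D : Set (Finset ι)) : Prop where
  caps : D ⊆ C.caps
  ne : b1 ≠ b2
  notin1 : b1 ∉ S
  notin2 : b2 ∉ S
  two : ∀ H ∈ D, b1 ∈ H ∨ b2 ∈ H → 2 ≤ (H ∩ S).card
  /-- exceptional demands: a partner cap without blue letters, and both blue letters are on one side -/
  exc : ∀ H ∈ D, b1 ∈ H → b2 ∈ H → 3 ≤ (H ∩ S).card ∨
    ((∃ G ∈ C.caps, b1 ∉ G ∧ b2 ∉ G ∧ G ∩ S = H ∩ S) ∧
      ∀ x ∈ H ∩ S, ∀ y ∈ H ∩ S, (C.lt x b1 → C.lt y b1) ∧ (C.lt x b2 → C.lt y b2))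

theorem Final.symm {S : Finset ι} {b1 b2 : ι} {D : Set (Finset ι)} (h : Final C S b1 b2 D) :
    Final C S b2 b1 D where
  caps := h.caps
  ne := h.ne.symm
  notin1 := h.notin2
  notin2 := h.notin1
  two := fun H hH h' => h.two H hH h'.symm
  exc := by
    intro H hH h2 h1
    rcases h.exc H hH h1 h2 with h3 | ⟨⟨G, hG, g1, g2, g3⟩, h4⟩
    · exact Or.inl h3
    · exact Or.inr ⟨⟨G, hG, g2, g1, g3⟩, fun x hx y hy => ⟨(h4 x hx y hy).2, (h4 x hx y hy).1⟩⟩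

/-- if no demand of `b2` has red part `{p, q}` then `{p, q}` is a good class of `b1` -/
theorem Final.pair {S : Finset ι} {b1 b2 : ι} {D : Set (Finset ι)} (h : Final C S b1 b2 D)
    {p q : ι} (he : Edge C S b1 p q) (hno : ∀ H ∈ D, b2 ∈ H → H ∩ S ≠ {p, q}) :
    ∃ S1 ⊆ S, (∀ H ∈ D, b1 ∈ H → (H ∩ S1).Nonempty) ∧
      ∀ H ∈ D, b2 ∈ H → (H ∩ (S \ S1)).Nonempty := by
  refine ⟨{p, q}, ?_, ?_, ?_⟩
  · intro x hx
    rcases mem_insert.1 hx with rfl | hx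
    · exact he.hullp.mem
    · rw [mem_singleton.1 hx]
      exact he.hullq.mem
  · intro H hH hb
    rcases he.hit H (h.caps hH) hb with h1 | h1
    · exact ⟨p, mem_inter.2 ⟨h1, by simp⟩⟩
    · exact ⟨q, mem_inter.2 ⟨h1, by simp⟩⟩
  · intro H hH hb
    by_contra hemp
    rw [not_nonempty_iff_eq_empty] at hemp
    have hsub : H ∩ S ⊆ {p, q} := by
      intro x hx
      rw [mem_inter] at hx
      by_contra hx2
      have : x ∈ H ∩ (S \ {p, q}) := mem_inter.2 ⟨hx.1, mem_sdiff.2 ⟨hx.2, hx2⟩⟩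
      rw [hemp] at this
      exact absurd this (notMem_empty x)
    apply hno H hH hb
    apply eq_of_subset_of_card_le hsub
    exact le_trans card_le_two (h.two H hH (Or.inr hb))

/-- a demand of `b2` whose red part is the hull edge around `b1` does not contain `b1` -/
theorem Final.notMem {S : Finset ι} {b1 b2 : ι} {D : Set (Finset ι)} (h : Final C S b1 b2 D)
    {p q : ι} (he : Edge C S b1 p q) {H : Finset ι} (hH : H ∈ D) (hb : b2 ∈ H)
    (hpq : H ∩ S = {p, q}) : b1 ∉ H := by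
  intro hb1
  rcases h.exc H hH hb1 hb with h1 | ⟨-, h1⟩
  · rw [hpq] at h1
    exact absurd (le_trans h1 card_le_two) (by norm_num)
  · have h2 := (h1 p (by rw [hpq]; simp) q (by rw [hpq]; simp)).1 he.pb
    exact lt_asymm h2 he.bq

theorem mem_of_inter_eq {H S : Finset ι} {p q : ι} (h : H ∩ S = {p, q}) :
    (p ∈ H ∧ p ∈ S) ∧ (q ∈ H ∧ q ∈ S) ∧ ∀ x ∈ S, x ∈ H → x = p ∨ x = q := by
  have h1 : ∀ x, x ∈ H ∩ S ↔ x = p ∨ x = q := by
    intro x
    rw [h]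
    simp
  refine ⟨mem_inter.1 ((h1 p).2 (Or.inl rfl)), mem_inter.1 ((h1 q).2 (Or.inr rfl)), ?_⟩
  intro x hx hx2
  exact (h1 x).1 (mem_inter.2 ⟨hx2, hx⟩)

/-- two different hull edges with a common vertex `m`: contradiction -/
theorem Final.two_edges_aux {S : Finset ι} {b1 b2 : ι} {D : Set (Finset ι)}
    (h : Final C S b1 b2 D) {p m q : ι} (h1 : Edge C S b1 p m) (h2 : Edge C S b2 m q)
    (hpq : p ≠ q)
    {H2 : Finset ι} (hH2 : H2 ∈ D) (hb2 : b2 ∈ H2) (hS2 : H2 ∩ S = {p, m})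
    {H1 : Finset ι} (hH1 : H1 ∈ D) (hb1 : b1 ∈ H1) (hS1 : H1 ∩ S = {m, q}) : False := by
  have n1 : b1 ∉ H2 := h.notMem h1 hH2 hb2 hS2
  have n2 : b2 ∉ H1 := h.symm.notMem h2 hH1 hb1 hS1
  obtain ⟨⟨pH2, pS⟩, ⟨mH2, -⟩, -⟩ := mem_of_inter_eq hS2
  obtain ⟨-, -, h3⟩ := mem_of_inter_eq hS1
  have pH1 : p ∉ H1 := by
    intro hp
    rcases h3 p pS hp with h4 | h4
    · exact lt_ne h1.pq h4
    · exact hpq h4
  have hmb : C.lt m b2 := h2.pb
  have hpb : C.lt p b2 := trans (h.caps hH2) pH2 mH2 hb2 h1.pq hmb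
  have hbb : C.lt b1 b2 := lt_mid_left h1.pq hmb hpb h1.pb h1.bq
  exact btw (h.caps hH2) (h.caps hH1) pH2 pH1 hb1 n1 hb2 n2 h1.pb hbb hpb

theorem Final.two_edges {S : Finset ι} {b1 b2 : ι} {D : Set (Finset ι)}
    (h : Final C S b1 b2 D) {p1 q1 p2 q2 : ι} (h1 : Edge C S b1 p1 q1) (h2 : Edge C S b2 p2 q2)
    (hne : p1 ≠ p2 ∨ q1 ≠ q2) :
    ∃ S1 ⊆ S, (∀ H ∈ D, b1 ∈ H → (H ∩ S1).Nonempty) ∧
      ∀ H ∈ D, b2 ∈ H → (H ∩ (S \ S1)).Nonempty := by
  have hp : p1 ≠ p2 := by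
    rintro rfl
    rcases hne with h3 | h3
    · exact h3 rfl
    · exact h3 (Edge.q_unique h.notin1 h.notin2 h1 h2)
  have hq : q1 ≠ q2 := by
    rintro rfl
    exact hp (Edge.p_unique h.notin1 h.notin2 h1 h2)
  by_cases hA : ∀ H ∈ D, b2 ∈ H → H ∩ S ≠ {p1, q1}
  · exact h.pair h1 hA
  by_cases hB : ∀ H ∈ D, b1 ∈ H → H ∩ S ≠ {p2, q2}
  · obtain ⟨S1, hS1, h3, h4⟩ := h.symm.pair h2 hB
    refine ⟨S \ S1, sdiff_subset, h4, ?_⟩
    intro H hH hb
    obtain ⟨x, hx⟩ := h3 H hH hb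
    rw [mem_inter] at hx
    refine ⟨x, mem_inter.2 ⟨hx.1, mem_sdiff.2 ⟨hS1 hx.2, ?_⟩⟩⟩
    intro h5
    exact (mem_sdiff.1 h5).2 hx.2
  exfalso
  push Not at hA hB
  obtain ⟨H2, hH2, hb2, hS2⟩ := hA
  obtain ⟨H1, hH1, hb1, hS1⟩ := hB
  obtain ⟨⟨p1H, p1S⟩, ⟨q1H, q1S⟩, h5⟩ := mem_of_inter_eq hS2
  rcases h2.hit H2 (h.caps hH2) hb2 with h3 | h3
  · rcases h5 p2 h2.hullp.mem h3 with h4 | h4
    · exact hp h4.symm
    · -- p2 = q1
      subst h4
      refine h.two_edges_aux h1 h2 ?_ hH2 hb2 hS2 hH1 hb1 hS1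
      rintro rfl
      exact lt_asymm h1.pq h2.pq
  · rcases h5 q2 h2.hullq.mem h3 with h4 | h4
    · -- q2 = p1
      subst h4
      refine h.symm.two_edges_aux h2 h1 ?_ hH1 hb1 hS1 hH2 hb2 hS2
      rintro rfl
      exact lt_asymm h1.pq h2.pq
    · exact hq h4.symm

/-- the exceptional letters at `p` (left side) -/
def ExcL (S : Finset ι) (b1 b2 : ι) (D : Set (Finset ι)) (p y : ι) : Prop :=
  y ∈ S ∧ y ≠ p ∧ ∃ H ∈ D, b1 ∈ H ∧ b2 ∈ H ∧ H ∩ S = {p, y}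

theorem Final.excL {S : Finset ι} {b1 b2 : ι} {D : Set (Finset ι)}
    (h : Final C S b1 b2 D) {p q y : ι} (h1 : Edge C S b1 p q) (hy : ExcL S b1 b2 D p y) :
    C.lt y b1 ∧ ∀ H ∈ C.caps, b1 ∈ H → y ∉ H → ∀ g ∈ H, g ∈ S → g ≠ p →
      C.rel b1 y < C.rel b1 g := by
  obtain ⟨hyS, hyp, H0, hH0, hb1, hb2, hS0⟩ := hy
  rcases h.exc H0 hH0 hb1 hb2 with h2 | ⟨⟨G, hG, g1, -, g3⟩, h4⟩
  · rw [hS0] at h2
    exact absurd (le_trans h2 card_le_two) (by norm_num)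
  have hyb : C.lt y b1 := (h4 p (by rw [hS0]; simp) y (by rw [hS0]; simp)).1 h1.pb
  refine ⟨hyb, ?_⟩
  intro H hH hbH hyH g hg hgS hgp
  rw [hS0] at g3
  obtain ⟨-, ⟨yG, -⟩, g4⟩ := mem_of_inter_eq g3
  have hgy : g ≠ y := fun h' => hyH (h' ▸ hg)
  have hgG : g ∉ G := by
    intro hgG
    rcases g4 g hgS hgG with h5 | h5
    · exact hgp h5
    · exact hgy h5
  have hy0 := rel_neg.2 hyb
  by_contra hcon
  have h6 : C.rel b1 g ≠ C.rel b1 y := fun h' => hgy (rel_inj h')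
  have h7 : C.rel b1 g < C.rel b1 y := by omega
  have h8 := (rel_bound' (C := C) (b := b1) (g := g)).1
  have hgy' : C.lt g y := lt_of_rel h7 (by omega)
  have hgb : C.lt g b1 := rel_neg.1 (by omega)
  exact btw hH hG hg hgG yG hyH hbH g1 hgy' hyb hgb

theorem Final.excR {S : Finset ι} {b1 b2 : ι} {D : Set (Finset ι)}
    (h : Final C S b1 b2 D) {p q y : ι} (h1 : Edge C S b1 p q) (h2 : Edge C S b2 p q)
    (hbb : C.lt b1 b2) (hy : ExcL S b1 b2 D q y) :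
    C.rel b1 b2 < C.rel b1 y ∧ ∀ H ∈ C.caps, b2 ∈ H → y ∉ H → ∀ g ∈ H, g ∈ S → g ≠ q →
      C.rel b1 g < C.rel b1 y := by
  obtain ⟨hyS, hyp, H0, hH0, hb1, hb2, hS0⟩ := hy
  rcases h.exc H0 hH0 hb1 hb2 with h3 | ⟨⟨G, hG, -, g2, g3⟩, h4⟩
  · rw [hS0] at h3
    exact absurd (le_trans h3 card_le_two) (by norm_num)
  have hyb1 : C.lt b1 y := by
    have hne : b1 ≠ y := fun h' => h.notin1 (h' ▸ hyS)
    rcases lt_total (C := C) hne with h5 | h5
    · exact h5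
    · exact absurd ((h4 y (by rw [hS0]; simp) q (by rw [hS0]; simp)).1 h5) (lt_asymm h1.bq)
  have hyb2 : C.lt b2 y := by
    have hne : b2 ≠ y := fun h' => h.notin2 (h' ▸ hyS)
    rcases lt_total (C := C) hne with h5 | h5
    · exact h5
    · exact absurd ((h4 y (by rw [hS0]; simp) q (by rw [hS0]; simp)).2 h5) (lt_asymm h2.bq)
  have r1 := rel_pos.2 hyb1
  have r2 := rel_pos.2 hbb
  have r3 : C.rel b1 b2 < C.rel b1 y := by
    by_contra hcon
    have h6 : C.rel b1 b2 ≠ C.rel b1 y := fun h' => h.notin2 (rel_inj h' ▸ hyS)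
    have h8 := (rel_bound' (C := C) (b := b1) (g := b2)).2
    exact lt_asymm hyb2 (lt_of_rel (b := b1) (by omega) (by omega))
  refine ⟨r3, ?_⟩
  intro H hH hbH hyH g hg hgS hgq
  rw [hS0] at g3
  obtain ⟨-, ⟨yG, -⟩, g4⟩ := mem_of_inter_eq g3
  have hgy : g ≠ y := fun h' => hyH (h' ▸ hg)
  have hgG : g ∉ G := by
    intro hgG
    rcases g4 g hgS hgG with h5 | h5
    · exact hgq h5
    · exact hgy h5
  by_contra hcon
  have h6 : C.rel b1 g ≠ C.rel b1 y := fun h' => hgy (rel_inj h')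
  have h7 : C.rel b1 y < C.rel b1 g := by omega
  have h8 := (rel_bound' (C := C) (b := b1) (g := g)).2
  have h9 : C.lt y g := lt_of_rel h7 (by omega)
  have h10 : C.lt b2 g := lt_of_rel (b := b1) (by omega) (by omega)
  exact btw hH hG hbH g2 yG hyH hg hgG hyb2 h9 h10

/-- both blue letters have the same hull edge -/
theorem Final.same_edge {S : Finset ι} {b1 b2 : ι} {D : Set (Finset ι)}
    (h : Final C S b1 b2 D) {p q : ι} (h1 : Edge C S b1 p q) (h2 : Edge C S b2 p q)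
    (hbb : C.lt b1 b2) :
    ∃ S1 ⊆ S, (∀ H ∈ D, b1 ∈ H → (H ∩ S1).Nonempty) ∧
      ∀ H ∈ D, b2 ∈ H → (H ∩ (S \ S1)).Nonempty := by
  classical
  by_cases hA : ∀ H ∈ D, b2 ∈ H → H ∩ S ≠ {p, q}
  · exact h.pair h1 hA
  by_cases hB : ∀ H ∈ D, b1 ∈ H → H ∩ S ≠ {p, q}
  · obtain ⟨S1, hS1, h3, h4⟩ := h.symm.pair h2 hB
    refine ⟨S \ S1, sdiff_subset, h4, ?_⟩
    intro H hH hb
    obtain ⟨x, hx⟩ := h3 H hH hb
    rw [mem_inter] at hx
    refine ⟨x, mem_inter.2 ⟨hx.1, mem_sdiff.2 ⟨hS1 hx.2, ?_⟩⟩⟩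
    intro h5
    exact (mem_sdiff.1 h5).2 hx.2
  push Not at hA hB
  obtain ⟨H2, hH2, hb2, hS2⟩ := hA
  obtain ⟨H1, hH1, hb1, hS1⟩ := hB
  have n1 : b1 ∉ H2 := h.notMem h1 hH2 hb2 hS2
  have n2 : b2 ∉ H1 := h.symm.notMem h2 hH1 hb1 hS1
  obtain ⟨⟨pH2, pS⟩, ⟨qH2, qS⟩, -⟩ := mem_of_inter_eq hS2
  obtain ⟨⟨pH1, -⟩, ⟨qH1, -⟩, -⟩ := mem_of_inter_eq hS1
  have hpb2 := h2.pb
  have hb1q := h1.bq
  have hpq' : p ≠ q := lt_ne h1.pq
  -- claims 1 and 2
  have cl1 : ∀ H ∈ C.caps, b2 ∈ H → p ∈ H → q ∉ H → b1 ∈ H := by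
    intro H hH hb hp hq
    by_contra hn
    exact btw (h.caps hH1) hH hb1 hn hb n2 qH1 hq hbb h2.bq hb1q
  have cl2 : ∀ H ∈ C.caps, b1 ∈ H → q ∈ H → p ∉ H → b2 ∈ H := by
    intro H hH hb hq hp
    by_contra hn
    exact btw (h.caps hH2) hH pH2 hp hb n1 hb2 hn h1.pb hbb hpb2
  -- exceptional letters
  have fL : ∀ y, ExcL S b1 b2 D p y → _ := fun y hy => h.excL h1 hy
  have fR : ∀ y, ExcL S b1 b2 D q y → _ := fun y hy => h.excR h1 h2 hbb hy
  have uL : ∀ y y', ExcL S b1 b2 D p y → ExcL S b1 b2 D p y' → y = y' := by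
    intro y y' hy hy'
    by_contra hne
    obtain ⟨hyS, hyp, H, hH, a1, a2, a3⟩ := hy
    obtain ⟨hyS', hyp', H', hH', a1', a2', a3'⟩ := hy'
    obtain ⟨-, ⟨yH, -⟩, a4⟩ := mem_of_inter_eq a3
    obtain ⟨-, ⟨yH', -⟩, a4'⟩ := mem_of_inter_eq a3'
    have k1 := (fL y ⟨hyS, hyp, H, hH, a1, a2, a3⟩).2 H' (h.caps hH') a1' (by
      intro h5
      rcases a4' y hyS h5 with h6 | h6
      · exact hyp h6
      · exact hne h6) y' yH' hyS' hyp'
    have k2 := (fL y' ⟨hyS', hyp', H', hH', a1', a2', a3'⟩).2 H (h.caps hH) a1 (by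
      intro h5
      rcases a4 y' hyS' h5 with h6 | h6
      · exact hyp' h6
      · exact hne h6.symm) y yH hyS hyp
    omega
  have uR : ∀ y y', ExcL S b1 b2 D q y → ExcL S b1 b2 D q y' → y = y' := by
    intro y y' hy hy'
    by_contra hne
    obtain ⟨hyS, hyp, H, hH, a1, a2, a3⟩ := hy
    obtain ⟨hyS', hyp', H', hH', a1', a2', a3'⟩ := hy'
    obtain ⟨-, ⟨yH, -⟩, a4⟩ := mem_of_inter_eq a3
    obtain ⟨-, ⟨yH', -⟩, a4'⟩ := mem_of_inter_eq a3'
    have k1 := (fR y ⟨hyS, hyp, H, hH, a1, a2, a3⟩).2 H' (h.caps hH') a2' (by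
      intro h5
      rcases a4' y hyS h5 with h6 | h6
      · exact hyp h6
      · exact hne h6) y' yH' hyS' hyp'
    have k2 := (fR y' ⟨hyS', hyp', H', hH', a1', a2', a3'⟩).2 H (h.caps hH) a2 (by
      intro h5
      rcases a4 y' hyS' h5 with h6 | h6
      · exact hyp' h6
      · exact hne h6.symm) y yH hyS hyp
    omega
  -- `RR` demands without exceptional letter `y`
  let RR : Finset ι → Prop := fun H => H ∈ D ∧ b1 ∈ H ∧ b2 ∈ H ∧ q ∈ H ∧ p ∉ H ∧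
    ∀ y, ExcL S b1 b2 D q y → y ∉ H
  let LL : Finset ι → Prop := fun H => H ∈ D ∧ b1 ∈ H ∧ b2 ∈ H ∧ p ∈ H ∧ q ∉ H ∧
    ∀ y, ExcL S b1 b2 D p y → y ∉ H
  -- `T H`: letters of `H ∩ S` different from `q` (resp. `p`) and from the exceptional letter of the other side
  let TR : Finset ι → Finset ι := fun H =>
    (H ∩ S).filter (fun g => g ≠ q ∧ ¬ ExcL S b1 b2 D p g)
  let TL : Finset ι → Finset ι := fun H =>
    (H ∩ S).filter (fun g => g ≠ p ∧ ¬ ExcL S b1 b2 D q g)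
  -- the colouring
  let S1 : Finset ι := S.filter (fun g => g = p ∨ ExcL S b1 b2 D q g ∨
    (g ≠ q ∧ ¬ ExcL S b1 b2 D p g ∧ ∃ H, RR H ∧ ∀ t ∈ TR H, C.rel b1 t ≤ C.rel b1 g))
  -- position of the letters
  have posR : ∀ H, RR H → ∀ g ∈ H, g ∈ S → C.rel b1 p < C.rel b1 g := by
    intro H hR g hg hgS
    obtain ⟨hD, a1, a2, a3, a4, -⟩ := hR
    by_contra hcon
    have hne : g ≠ p := fun h' => a4 (h' ▸ hg)
    have h3 : C.rel b1 g ≠ C.rel b1 p := fun h' => hne (rel_inj h')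
    have h4 := rel_neg.2 h1.pb
    have h5 := (rel_bound' (C := C) (b := b1) (g := g)).1
    have h6 : C.lt g p := lt_of_rel (b := b1) (by omega) (by omega)
    have h7 := rel_pos.2 hb1q
    have h8 : C.lt g q := (lt_iff_rel (h.caps hD) a1 hg a3).2 (by omega)
    exact a4 (Hull.between h1.hullp (h.caps hD) hg a3 hgS qS h6 h1.pq h8)
  have key : ∀ H H', RR H → LL H' → ∀ e ∈ H, e ∈ S → e ∉ H' → ∀ e' ∈ H', e' ∉ H →
      ¬ C.rel b1 e < C.rel b1 e' := by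
    intro H H' hR hL e he heS he' e' hee hee' hlt
    have h3 := posR H hR e he heS
    obtain ⟨hD, a1, a2, a3, a4, -⟩ := hR
    obtain ⟨hD', a1', a2', a3', a4', -⟩ := hL
    have h4 := rel_window (h.caps hD') a1' a3' hee
    exact btw (h.caps hD') (h.caps hD) a3' a4 he he' hee hee' (lt_of_rel h3 (by omega))
      (lt_of_rel hlt (by omega)) ((lt_iff_rel (h.caps hD') a1' a3' hee).2 (by omega))
  have cardR : ∀ H, RR H → 3 ≤ (H ∩ S).card := by
    intro H hR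
    obtain ⟨hD, a1, a2, a3, a4, a5⟩ := hR
    rcases h.exc H hD a1 a2 with h3 | ⟨-, -⟩
    · exact h3
    · by_contra hcon
      have h4 := h.two H hD (Or.inl a1)
      have h5 : (H ∩ S).card = 2 := by omega
      have h6 : q ∈ H ∩ S := mem_inter.2 ⟨a3, qS⟩
      obtain ⟨y, hy⟩ : ∃ y, (H ∩ S).erase q = {y} := by
        apply card_eq_one.1
        rw [card_erase_of_mem h6, h5]
      have h7 : y ∈ (H ∩ S).erase q := by rw [hy]; exact mem_singleton_self y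
      rw [mem_erase, mem_inter] at h7
      refine a5 y ⟨h7.2.2, h7.1, H, hD, a1, a2, ?_⟩ h7.2.1
      rw [← insert_erase h6, hy]
  have cardL : ∀ H, LL H → 3 ≤ (H ∩ S).card := by
    intro H hR
    obtain ⟨hD, a1, a2, a3, a4, a5⟩ := hR
    rcases h.exc H hD a1 a2 with h3 | ⟨-, -⟩
    · exact h3
    · by_contra hcon
      have h4 := h.two H hD (Or.inl a1)
      have h5 : (H ∩ S).card = 2 := by omega
      have h6 : p ∈ H ∩ S := mem_inter.2 ⟨a3, pS⟩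
      obtain ⟨y, hy⟩ : ∃ y, (H ∩ S).erase p = {y} := by
        apply card_eq_one.1
        rw [card_erase_of_mem h6, h5]
      have h7 : y ∈ (H ∩ S).erase p := by rw [hy]; exact mem_singleton_self y
      rw [mem_erase, mem_inter] at h7
      refine a5 y ⟨h7.2.2, h7.1, H, hD, a1, a2, ?_⟩ h7.2.1
      rw [← insert_erase h6, hy]
  -- given `g0 ∈ H ∩ S`, another letter
  have another : ∀ H : Finset ι, 3 ≤ (H ∩ S).card → ∀ x g0 : ι, ∃ e ∈ H, e ∈ S ∧ e ≠ x ∧ e ≠ g0 := by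
    intro H hc x g0
    by_contra hcon
    push Not at hcon
    have : H ∩ S ⊆ {x, g0} := by
      intro e he
      rw [mem_inter] at he
      by_cases hx : e = x
      · simp [hx]
      · simp [hcon e he.1 he.2 hx]
    exact absurd (le_trans (le_trans hc (card_le_card this)) card_le_two) (by norm_num)
  have neR : ∀ H, RR H → (TR H).Nonempty := by
    intro H hR
    by_cases hex : ∃ y, ExcL S b1 b2 D p y
    · obtain ⟨y, hy⟩ := hex
      obtain ⟨e, he, heS, hne1, hne2⟩ := another H (cardR H hR) q y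
      exact ⟨e, mem_filter.2 ⟨mem_inter.2 ⟨he, heS⟩, hne1, fun h' => hne2 (uL _ _ h' hy)⟩⟩
    · obtain ⟨e, he, heS, hne1, -⟩ := another H (cardR H hR) q q
      exact ⟨e, mem_filter.2 ⟨mem_inter.2 ⟨he, heS⟩, hne1, fun h' => hex ⟨e, h'⟩⟩⟩
  have neL : ∀ H, LL H → (TL H).Nonempty := by
    intro H hR
    by_cases hex : ∃ y, ExcL S b1 b2 D q y
    · obtain ⟨y, hy⟩ := hex
      obtain ⟨e, he, heS, hne1, hne2⟩ := another H (cardL H hR) p y
      exact ⟨e, mem_filter.2 ⟨mem_inter.2 ⟨he, heS⟩, hne1, fun h' => hne2 (uR _ _ h' hy)⟩⟩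
    · obtain ⟨e, he, heS, hne1, -⟩ := another H (cardL H hR) p p
      exact ⟨e, mem_filter.2 ⟨mem_inter.2 ⟨he, heS⟩, hne1, fun h' => hex ⟨e, h'⟩⟩⟩
  -- main contradiction
  have main : ∀ H H', RR H → LL H' → (∀ t ∈ TR H, ∀ t' ∈ TL H', C.rel b1 t ≤ C.rel b1 t') →
      False := by
    intro H H' hR hL hle
    have key' := key H H' hR hL
    have hR' := hR
    have hL' := hL
    obtain ⟨hD, a1, a2, a3, a4, a5⟩ := hR
    obtain ⟨hD', a1', a2', a3', a4', a5'⟩ := hL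
    -- an element `e` of `H \ H'`: in `TR H` or exceptional
    have e1 : ∃ e ∈ H, e ∈ S ∧ e ∉ H' ∧ (e ∈ TR H ∨ ExcL S b1 b2 D p e) := by
      by_contra hcon
      push Not at hcon
      have g1 : ∀ t ∈ TR H, t ∈ H' := by
        intro t ht
        by_contra ht'
        have ht2 := mem_inter.1 (mem_filter.1 ht).1
        exact (hcon t ht2.1 ht2.2 ht').1 ht
      have g2 : ∀ t ∈ TR H, t ∈ TL H' := by
        intro t ht
        have ht2 := mem_inter.1 (mem_filter.1 ht).1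
        exact mem_filter.2 ⟨mem_inter.2 ⟨g1 t ht, ht2.2⟩, fun h' => a4 (h' ▸ ht2.1),
          fun h' => a5 t h' ht2.1⟩
      obtain ⟨g0, hg0⟩ := neR H hR'
      have g3 : ∀ t ∈ TR H, t = g0 := by
        intro t ht
        have k1 := hle t ht g0 (g2 g0 hg0)
        have k2 := hle g0 hg0 t (g2 t ht)
        exact rel_inj (le_antisymm k1 k2)
      obtain ⟨e, he, heS, hne1, hne2⟩ := another H (cardR H hR') q g0
      have g4 : ExcL S b1 b2 D p e := by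
        by_contra hex
        exact hne2 (g3 e (mem_filter.2 ⟨mem_inter.2 ⟨he, heS⟩, hne1, hex⟩))
      exact (hcon e he heS (a5' e g4)).2 g4
    have e2 : ∃ e ∈ H', e ∈ S ∧ e ∉ H ∧ (e ∈ TL H' ∨ ExcL S b1 b2 D q e) := by
      by_contra hcon
      push Not at hcon
      have g1 : ∀ t ∈ TL H', t ∈ H := by
        intro t ht
        by_contra ht'
        have ht2 := mem_inter.1 (mem_filter.1 ht).1
        exact (hcon t ht2.1 ht2.2 ht').1 ht
      have g2 : ∀ t ∈ TL H', t ∈ TR H := by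
        intro t ht
        have ht2 := mem_inter.1 (mem_filter.1 ht).1
        exact mem_filter.2 ⟨mem_inter.2 ⟨g1 t ht, ht2.2⟩, fun h' => a4' (h' ▸ ht2.1),
          fun h' => a5' t h' ht2.1⟩
      obtain ⟨g0, hg0⟩ := neL H' hL'
      have g3 : ∀ t ∈ TL H', t = g0 := by
        intro t ht
        have k1 := hle t (g2 t ht) g0 hg0
        have k2 := hle g0 (g2 g0 hg0) t ht
        exact rel_inj (le_antisymm k1 k2)
      obtain ⟨e, he, heS, hne1, hne2⟩ := another H' (cardL H' hL') p g0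
      have g4 : ExcL S b1 b2 D q e := by
        by_contra hex
        exact hne2 (g3 e (mem_filter.2 ⟨mem_inter.2 ⟨he, heS⟩, hne1, hex⟩))
      exact (hcon e he heS (a5 e g4)).2 g4
    obtain ⟨e, he, heS, heH', he3⟩ := e1
    obtain ⟨e', he', heS', heH, he3'⟩ := e2
    have hneee : e ≠ e' := fun h' => heH' (h' ▸ he')
    have hrel : C.rel b1 e ≠ C.rel b1 e' := fun h' => hneee (rel_inj h')
    apply key' e he heS heH' e' he' heH
    rcases he3 with he4 | he4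
    · rcases he3' with he5 | he5
      · have := hle e he4 e' he5
        omega
      · -- e in TR H, e' exceptional at q
        exact (fR e' he5).2 H (h.caps hD) a2 heH e he heS (mem_filter.1 he4).2.1
    · rcases he3' with he5 | he5
      · exact (fL e he4).2 H' (h.caps hD') a1' heH' e' he' heS' (mem_filter.1 he5).2.1
      · have k1 := rel_neg.2 (fL e he4).1
        have k2 := (fR e' he5).1
        have k3 := rel_pos.2 hbb
        omega
  refine ⟨S1, filter_subset _ _, ?_, ?_⟩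
  · -- demands of b1
    intro H hH hb
    by_cases hp : p ∈ H
    · exact ⟨p, mem_inter.2 ⟨hp, mem_filter.2 ⟨pS, Or.inl rfl⟩⟩⟩
    have hq : q ∈ H := by
      rcases h1.hit H (h.caps hH) hb with h3 | h3
      · exact absurd h3 hp
      · exact h3
    have hb2' := cl2 H (h.caps hH) hb hq hp
    by_cases hex : ∃ y, ExcL S b1 b2 D q y ∧ y ∈ H
    · obtain ⟨y, hy, hyH⟩ := hex
      exact ⟨y, mem_inter.2 ⟨hyH, mem_filter.2 ⟨hy.1, Or.inr (Or.inl hy)⟩⟩⟩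
    push Not at hex
    have hRR : RR H := ⟨hH, hb, hb2', hq, hp, hex⟩
    obtain ⟨g, hg, hgmax⟩ := exists_max_image (TR H) (fun t => C.rel b1 t) (neR H hRR)
    obtain ⟨hg1, hg2, hg3⟩ := mem_filter.1 hg
    refine ⟨g, mem_inter.2 ⟨(mem_inter.1 hg1).1, mem_filter.2 ⟨(mem_inter.1 hg1).2,
      Or.inr (Or.inr ⟨hg2, hg3, H, hRR, hgmax⟩)⟩⟩⟩
  · -- demands of b2
    intro H hH hb
    by_cases hq : q ∈ H
    · refine ⟨q, mem_inter.2 ⟨hq, mem_sdiff.2 ⟨qS, ?_⟩⟩⟩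
      intro h3
      rcases (mem_filter.1 h3).2 with h4 | h4 | h4
      · exact hpq' h4.symm
      · exact h4.2.1 rfl
      · exact h4.1 rfl
    have hp : p ∈ H := by
      rcases h2.hit H (h.caps hH) hb with h3 | h3
      · exact h3
      · exact absurd h3 hq
    have hb1' := cl1 H (h.caps hH) hb hp hq
    by_cases hex : ∃ y, ExcL S b1 b2 D p y ∧ y ∈ H
    · obtain ⟨y, hy, hyH⟩ := hex
      refine ⟨y, mem_inter.2 ⟨hyH, mem_sdiff.2 ⟨hy.1, ?_⟩⟩⟩
      intro h3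
      rcases (mem_filter.1 h3).2 with h4 | h4 | h4
      · exact hy.2.1 h4
      · have k1 := rel_neg.2 (fL y hy).1
        have k2 := (fR y h4).1
        have k3 := rel_pos.2 hbb
        omega
      · exact h4.2.1 hy
    push Not at hex
    have hLL : LL H := ⟨hH, hb1', hb, hp, hq, hex⟩
    obtain ⟨g, hg, hgmin⟩ := exists_min_image (TL H) (fun t => C.rel b1 t) (neL H hLL)
    obtain ⟨hg1, hg2, hg3⟩ := mem_filter.1 hg
    refine ⟨g, mem_inter.2 ⟨(mem_inter.1 hg1).1, mem_sdiff.2 ⟨(mem_inter.1 hg1).2, ?_⟩⟩⟩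
    intro h3
    rcases (mem_filter.1 h3).2 with h4 | h4 | ⟨-, -, H', hRR', h5⟩
    · exact hg2 h4
    · exact hg3 h4
    · exact main H' H hRR' hLL fun t ht t' ht' => le_trans (h5 t ht) (hgmin t' ht')

/-- FINAL STEP for two blue letters -/
theorem Final.exists_split {S : Finset ι} {b1 b2 : ι} {D : Set (Finset ι)}
    (h : Final C S b1 b2 D) (hJ1 : ∀ H ∈ C.caps, b1 ∈ H → (H ∩ S).Nonempty)
    (hJ2 : ∀ H ∈ C.caps, b2 ∈ H → (H ∩ S).Nonempty) :
    ∃ S1 ⊆ S, (∀ H ∈ D, b1 ∈ H → (H ∩ S1).Nonempty) ∧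
      ∀ H ∈ D, b2 ∈ H → (H ∩ (S \ S1)).Nonempty := by
  obtain ⟨p1, q1, h1⟩ := exists_edge h.notin1 hJ1
  obtain ⟨p2, q2, h2⟩ := exists_edge h.notin2 hJ2
  by_cases hne : p1 ≠ p2 ∨ q1 ≠ q2
  · exact h.two_edges h1 h2 hne
  push Not at hne
  obtain ⟨rfl, rfl⟩ := hne
  rcases lt_total (C := C) h.ne with hbb | hbb
  · exact h.same_edge h1 h2 hbb
  · obtain ⟨S1, hS1, h3, h4⟩ := h.symm.same_edge h2 h1 hbb
    refine ⟨S \ S1, sdiff_subset, h4, ?_⟩
    intro H hH hb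
    obtain ⟨x, hx⟩ := h3 H hH hb
    rw [mem_inter] at hx
    refine ⟨x, mem_inter.2 ⟨hx.1, mem_sdiff.2 ⟨hS1 hx.2, ?_⟩⟩⟩
    intro h5
    exact (mem_sdiff.1 h5).2 hx.2

end CapSys

end PHP
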