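import Pool.Agent.PHP.CapStage
import Pool.Agent.PHP.CapTwo

/-!
# The last stage of the peeling when every cap through a blue letter meets the reds (MP_1180db_co, d = 2)
-/

namespace PHP

open Finset

variable {ι : Type} [DecidableEq ι]

namespace CapSys

theorem Stage.final_linear {C : CapSys ι} {b b' : ι} {Q : Finset ι} {Rel : Set (Finset ι)}
    (h : Stage C b b' Q Rel 0) (hJ : ∀ P ∈ C.caps, b ∈ P → (P ∩ Q).Nonempty)
    (hJ' : ∀ P ∈ C.caps, b' ∈ P → (P ∩ Q).Nonempty) :
    ∃ c : ι → Fin 2, ∀ H ∈ Rel, Poly Q {b, b'} c H := by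
  classical
  have hF : Final C Q b b' Rel :=
    { caps := h.sub
      ne := h.ne
      notin1 := h.nb
      notin2 := h.nb'
      two := fun H hH hb => by
        have := h.inv1 H hH hb
        omega
      exc := by
        intro H hH h1 h2
        by_cases h3 : 3 ≤ (H ∩ Q).card
        · exact Or.inl h3
        right
        have h4 := h.inv1 H hH (Or.inl h1)
        have h5 : (H ∩ Q).card = 2 * 0 + 2 := by omega
        obtain ⟨G, hG, g1, g2, g3⟩ := h.low H hH h1 h2 h5
        refine ⟨⟨G, h.sub hG, g1, g2, g3⟩, ?_⟩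
        intro x hx y hy
        rw [mem_inter] at hx hy
        constructor
        · intro h6
          have hne : y ≠ b := fun h' => h.nb (h' ▸ hy.2)
          rcases lt_total (C := C) hne with h7 | h7
          · exact h7
          · exact absurd (h.out H hH h1 h2 h5 hJ x hx.1 hx.2 y hy.1 hy.2 h6 h7) id
        · intro h6
          have hne : y ≠ b' := fun h' => h.nb' (h' ▸ hy.2)
          rcases lt_total (C := C) hne with h7 | h7
          · exact h7
          · exact absurd (h.out' H hH h1 h2 h5 hJ' x hx.1 hx.2 y hy.1 hy.2 h6 h7) id }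
  obtain ⟨S1, hS1, h1, h2⟩ := hF.exists_split hJ hJ'
  refine ⟨fun x => if x = b ∨ x ∈ S1 then 0 else 1, ?_⟩
  intro H hH j
  fin_cases j
  · by_cases hb : b ∈ H
    · obtain ⟨x, hx⟩ := h1 H hH hb
      rw [mem_inter] at hx
      exact ⟨x, by simp [hx.2], Or.inl ⟨hS1 hx.2, hx.1⟩⟩
    · exact ⟨b, by simp, Or.inr ⟨by simp, hb⟩⟩
  · by_cases hb : b' ∈ H
    · obtain ⟨x, hx⟩ := h2 H hH hb
      rw [mem_inter, mem_sdiff] at hx
      have hne : x ≠ b := fun h' => h.nb (h' ▸ hx.2.1)
      exact ⟨x, by simp [hx.2.2, hne], Or.inl ⟨hx.2.1, hx.1⟩⟩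
    · have hne : b' ≠ b := h.ne.symm
      have hn : b' ∉ S1 := fun h' => h.nb' (hS1 h')
      exact ⟨b', by simp [hne, hn], Or.inr ⟨by simp, hb⟩⟩

end CapSys

end PHP
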