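import Mathlib
import Pool.Agent.PHP.CapDefs

/-!
# Peeling around a cell with two members (problem MP_1180db_co): definitions

`Poly Q B c H`: all colours occur in the cell of the cap `H`, whose members are the reds `H ∩ Q` and the blues
`B \ H`.

`Stage C b b' Q Rel K`: the state of the peeling when `K` hull classes are still to be removed from the reds `Q`
(blues `b`, `b'`, relevant caps `Rel`, `K + 2` colours in all).
-/

namespace PHP

open Finset

variable {ι : Type} [DecidableEq ι]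

namespace CapSys

/-- all colours occur in the cell of `H` (reds `Q`, blues `B`) -/
def Poly {k : ℕ} (Q B : Finset ι) (c : ι → Fin k) (H : Finset ι) : Prop :=
  ∀ j, ∃ x, c x = j ∧ ((x ∈ Q ∧ x ∈ H) ∨ (x ∈ B ∧ x ∉ H))

/-- State of the peeling. `low`: a relevant cap which contains both blues and has the smallest possible size
`2 * K + 2` has a partner without blues; `out`, `out'`: no blue (all of whose caps meet `Q`) is between two
of its reds. -/
structure Stage (C : CapSys ι) (b b' : ι) (Q : Finset ι) (Rel : Set (Finset ι)) (K : ℕ) : Prop where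
  sub : Rel ⊆ C.caps
  ne : b ≠ b'
  nb : b ∉ Q
  nb' : b' ∉ Q
  inv0 : ∀ H ∈ Rel, 2 * K + 1 ≤ (H ∩ Q).card
  inv1 : ∀ H ∈ Rel, (b ∈ H ∨ b' ∈ H) → 2 * K + 2 ≤ (H ∩ Q).card
  low : ∀ H ∈ Rel, b ∈ H → b' ∈ H → (H ∩ Q).card = 2 * K + 2 →
    ∃ G ∈ Rel, b ∉ G ∧ b' ∉ G ∧ G ∩ Q = H ∩ Q
  out : ∀ H ∈ Rel, b ∈ H → b' ∈ H → (H ∩ Q).card = 2 * K + 2 →
    (∀ P ∈ C.caps, b ∈ P → (P ∩ Q).Nonempty) →
    ∀ x ∈ H, x ∈ Q → ∀ y ∈ H, y ∈ Q → C.lt x b → C.lt b y → False
  out' : ∀ H ∈ Rel, b ∈ H → b' ∈ H → (H ∩ Q).card = 2 * K + 2 →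
    (∀ P ∈ C.caps, b' ∈ P → (P ∩ Q).Nonempty) →
    ∀ x ∈ H, x ∈ Q → ∀ y ∈ H, y ∈ Q → C.lt x b' → C.lt b' y → False

end CapSys

end PHP
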