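import Mathlib
import Pool.Agent.PHP.CapStage

/-!
# Peeling around a cell with two members (problem MP_1180db_co)

`exists_hull_cover`: inclusion-minimal covers consisting of hull letters. `mid`: if such a cover has three
letters in a cap `H`, then a private cap of a middle one is inside `H`. `d1`: the theorem for a cell with one member.
`tlemma`: the triple `b, a, c`. `Stage.colour`: the induction.
-/

namespace PHP

open Finset

variable {ι : Type} [DecidableEq ι]

namespace CapSys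

variable {C : CapSys ι}

/-- a numbering of the letters of a cap -/
theorem exists_key {H : Finset ι} (hH : H ∈ C.caps) :
    ∃ f : ι → ℕ, ∀ a ∈ H, ∀ b ∈ H, (C.lt a b ↔ f a < f b) := by
  obtain ⟨t, ht, h1, -⟩ := C.cp hH C.empty_mem
  refine ⟨fun i => if t ≤ C.ang i then C.ang i - t else C.ang i + 2 * C.n - t,
    fun a ha b hb => ?_⟩
  have k1 := h1 a ha (by simp)
  have k2 := h1 b hb (by simp)
  have g1 := C.lt_ang a
  have g2 := C.lt_ang b
  unfold inHalf at k1 k2
  unfold lt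
  dsimp only
  split_ifs <;> omega

/-- three consecutive letters -/
theorem exists_triple {M H : Finset ι} (hH : H ∈ C.caps) (hM : M ⊆ H) (h3 : 3 ≤ M.card) :
    ∃ a ∈ M, ∃ m ∈ M, ∃ c ∈ M, C.lt a m ∧ C.lt m c ∧ C.lt a c ∧
      ∀ e ∈ M, C.lt a e → C.lt e c → e = m := by
  obtain ⟨f, hf⟩ := exists_key hH
  have hinj : ∀ x ∈ M, ∀ y ∈ M, x ≠ y → f x ≠ f y := by
    intro x hx y hy hxy heq
    rcases lt_total (C := C) hxy with h | h
    · rw [hf x (hM hx) y (hM hy)] at h
      omega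
    · rw [hf y (hM hy) x (hM hx)] at h
      omega
  obtain ⟨a, ha, hamin⟩ := exists_min_image M f (card_pos.1 (by omega))
  have h4 : 2 ≤ (M.erase a).card := by
    rw [card_erase_of_mem ha]
    omega
  obtain ⟨m, hm, hmmin⟩ := exists_min_image (M.erase a) f (card_pos.1 (by omega))
  have h5 : 1 ≤ ((M.erase a).erase m).card := by
    rw [card_erase_of_mem hm]
    omega
  obtain ⟨c, hc, hcmin⟩ := exists_min_image ((M.erase a).erase m) f (card_pos.1 (by omega))
  have hm' := mem_erase.1 hm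
  have hc' := mem_erase.1 hc
  have hc'' := mem_erase.1 hc'.2
  have e1 : f a < f m := lt_of_le_of_ne (hamin m hm'.2) (hinj a ha m hm'.2 (Ne.symm hm'.1))
  have e2 : f m < f c := lt_of_le_of_ne (hmmin c hc'.2) (hinj m hm'.2 c hc''.2 (Ne.symm hc'.1))
  refine ⟨a, ha, m, hm'.2, c, hc''.2, (hf a (hM ha) m (hM hm'.2)).2 e1,
    (hf m (hM hm'.2) c (hM hc''.2)).2 e2, (hf a (hM ha) c (hM hc''.2)).2 (by omega), ?_⟩
  intro e he h6 h7
  rw [hf a (hM ha) e (hM he)] at h6
  rw [hf e (hM he) c (hM hc''.2)] at h7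
  by_contra hne
  have h8 : e ∈ (M.erase a).erase m := by
    rw [mem_erase, mem_erase]
    refine ⟨hne, ?_, he⟩
    rintro rfl
    omega
  have := hcmin e h8
  omega

/-- inclusion-minimal covers inside the hull -/
theorem exists_hull_cover {Q : Finset ι} {Rel : Set (Finset ι)} (hsub : Rel ⊆ C.caps)
    (hne : ∀ H ∈ Rel, (H ∩ Q).Nonempty) :
    ∃ N ⊆ Q, (∀ p ∈ N, C.Hull Q p) ∧ (∀ H ∈ Rel, (H ∩ N).Nonempty) ∧
      ∀ m ∈ N, ∃ G ∈ Rel, G ∩ N = {m} := by
  classical
  set S : Finset (Finset ι) := Q.powerset.filter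
    (fun N => (∀ p ∈ N, C.Hull Q p) ∧ ∀ H ∈ Rel, (H ∩ N).Nonempty) with hS
  have hSne : S.Nonempty := by
    refine ⟨Q.filter (fun p => C.Hull Q p), ?_⟩
    rw [hS, mem_filter, mem_powerset]
    refine ⟨filter_subset _ _, fun p hp => (mem_filter.1 hp).2, fun H hH => ?_⟩
    obtain ⟨p, hp, hp2⟩ := Hull.of_step (hsub hH) (hne H hH)
    exact ⟨p, mem_inter.2 ⟨hp, mem_filter.2 ⟨hp2.mem, hp2⟩⟩⟩
  obtain ⟨N, hN, hmin⟩ := exists_min_image S card hSne
  rw [hS, mem_filter, mem_powerset] at hN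
  refine ⟨N, hN.1, hN.2.1, hN.2.2, fun m hm => ?_⟩
  by_contra hcon
  push Not at hcon
  have h1 : N.erase m ∈ S := by
    rw [hS, mem_filter, mem_powerset]
    refine ⟨(erase_subset _ _).trans hN.1, fun p hp => hN.2.1 p (mem_of_mem_erase hp),
      fun H hH => ?_⟩
    by_contra hemp
    rw [not_nonempty_iff_eq_empty] at hemp
    apply hcon H hH
    obtain ⟨y, hy⟩ := hN.2.2 H hH
    have key : ∀ z, z ∈ H → z ∈ N → z = m := by
      intro z hz hzN
      by_contra hzm
      have : z ∈ H ∩ N.erase m := mem_inter.2 ⟨hz, mem_erase.2 ⟨hzm, hzN⟩⟩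
      rw [hemp] at this
      simp at this
    ext z
    rw [mem_inter, mem_singleton]
    constructor
    · rintro ⟨hz, hzN⟩
      exact key z hz hzN
    · rintro rfl
      rw [mem_inter] at hy
      have := key y hy.1 hy.2
      subst this
      exact hy
  have h2 := hmin _ h1
  rw [card_erase_of_mem hm] at h2
  have := card_pos.2 ⟨m, hm⟩
  omega

theorem card_split {Q N H : Finset ι} (hN : N ⊆ Q) :
    (H ∩ Q).card = (H ∩ N).card + (H ∩ (Q \ N)).card := by
  rw [← card_union_of_disjoint]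
  · congr 1
    ext x
    simp only [mem_inter, mem_union, mem_sdiff]
    constructor
    · rintro ⟨h1, h2⟩
      by_cases h3 : x ∈ N
      · exact Or.inl ⟨h1, h3⟩
      · exact Or.inr ⟨h1, h2, h3⟩
    · rintro (⟨h1, h2⟩ | ⟨h1, h2, -⟩)
      · exact ⟨h1, hN h2⟩
      · exact ⟨h1, h2⟩
  · rw [Finset.disjoint_left]
    intro x hx hx'
    rw [mem_inter] at hx
    rw [mem_inter, mem_sdiff] at hx'
    exact hx'.2.2 hx.2

/-- three letters of a hull cover in a cap: the private cap of the middle one -/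
theorem mid {Q N : Finset ι} {Rel : Set (Finset ι)} (hsub : Rel ⊆ C.caps) (hNQ : N ⊆ Q)
    (hull : ∀ p ∈ N, C.Hull Q p) (hmin : ∀ m ∈ N, ∃ G ∈ Rel, G ∩ N = {m})
    {H : Finset ι} (hH : H ∈ C.caps) (h3 : 3 ≤ (H ∩ N).card) :
    ∃ a ∈ N, ∃ m ∈ N, ∃ c ∈ N, ∃ G ∈ Rel, a ∈ H ∧ m ∈ H ∧ c ∈ H ∧ C.lt a m ∧ C.lt m c ∧
      C.lt a c ∧ (∀ e ∈ N, C.lt a e → C.lt e c → e = m) ∧ G ∩ N = {m} := by
  obtain ⟨a, ha, m, hm, c, hc, h1, h2, h4, h5⟩ := exists_triple hH (inter_subset_left) h3
  rw [mem_inter] at ha hm hc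
  obtain ⟨G, hG, hGN⟩ := hmin m hm.2
  refine ⟨a, ha.2, m, hm.2, c, hc.2, G, hG, ha.1, hm.1, hc.1, h1, h2, h4, ?_, hGN⟩
  intro e he h6 h7
  apply h5 e _ h6 h7
  rw [mem_inter]
  exact ⟨(hull e he).between hH ha.1 hc.1 (hNQ ha.2) (hNQ hc.2) h6 h7 h4, he⟩

/-- the letters of a private cap -/
theorem priv' {Q N : Finset ι} (hNQ : N ⊆ Q)
    (hull : ∀ p ∈ N, C.Hull Q p) {H G : Finset ι} (hH : H ∈ C.caps) (hG : G ∈ C.caps)
    {a m c : ι} (ha : a ∈ N) (hm : m ∈ N) (hc : c ∈ N) (haH : a ∈ H) (hcH : c ∈ H)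
    (h1 : C.lt a m) (h2 : C.lt m c) (h3 : C.lt a c) (hGN : G ∩ N = {m}) :
    (∀ r ∈ G, r ∈ Q → r ∈ H ∧ C.lt a r ∧ C.lt r c) ∧
      (G ∩ Q).card = (G ∩ (Q \ N)).card + 1 ∧
      G ∩ (Q \ N) ⊆ H ∩ (Q \ N) := by
  have h4 : ∀ y, y ∈ G ∩ N ↔ y = m := fun y => by rw [hGN, mem_singleton]
  have hmG : m ∈ G := (mem_inter.1 ((h4 m).2 rfl)).1
  have haG : a ∉ G := fun h => lt_ne h1 ((h4 a).1 (mem_inter.2 ⟨h, ha⟩))
  have hcG : c ∉ G := fun h => lt_ne h2 ((h4 c).1 (mem_inter.2 ⟨h, hc⟩)).symm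
  have key : ∀ r ∈ G, r ∈ Q → r ∈ H ∧ C.lt a r ∧ C.lt r c := fun r hr hrQ =>
    priv (hull a ha) (hull c hc) (hNQ hm) hH hG haH hcH haG hcG hmG h1 h2 h3 hr hrQ
  refine ⟨key, ?_, ?_⟩
  · have := card_split (H := G) hNQ
    rw [hGN, card_singleton] at this
    omega
  · intro x hx
    rw [mem_inter] at hx ⊢
    exact ⟨(key x hx.1 (mem_sdiff.1 hx.2).1).1, hx.2⟩

/-- a colour class is added -/
theorem Poly.extend {k : ℕ} {Q B N M H : Finset ι} {c : ι → Fin k} (hN : N ⊆ Q) (hM : M ⊆ B)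
    (hNB : Disjoint N B) (hMQ : Disjoint M Q)
    (hc : Poly (Q \ N) (B \ M) c H) (hh : (∃ x ∈ N, x ∈ H) ∨ ∃ x ∈ M, x ∉ H) :
    Poly Q B (fun x => if x ∈ N ∪ M then Fin.last k else (c x).castSucc) H := by
  intro j
  induction j using Fin.lastCases with
  | last =>
    rcases hh with ⟨x, hx, hxH⟩ | ⟨x, hx, hxH⟩
    · exact ⟨x, if_pos (mem_union_left _ hx), Or.inl ⟨hN hx, hxH⟩⟩
    · exact ⟨x, if_pos (mem_union_right _ hx), Or.inr ⟨hM hx, hxH⟩⟩
  | cast j =>
    obtain ⟨x, hx, hx2⟩ := hc j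
    refine ⟨x, ?_, ?_⟩
    · show (if x ∈ N ∪ M then Fin.last k else (c x).castSucc) = j.castSucc
      rw [if_neg, hx]
      rw [mem_union]
      rintro (h | h)
      · rcases hx2 with ⟨h1, -⟩ | ⟨h1, -⟩
        · exact (mem_sdiff.1 h1).2 h
        · exact Finset.disjoint_left.1 hNB h (mem_sdiff.1 h1).1
      · rcases hx2 with ⟨h1, -⟩ | ⟨h1, -⟩
        · exact Finset.disjoint_left.1 hMQ h (mem_sdiff.1 h1).1
        · exact (mem_sdiff.1 h1).2 h
    · rcases hx2 with ⟨h1, h2⟩ | ⟨h1, h2⟩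
      · exact Or.inl ⟨(mem_sdiff.1 h1).1, h2⟩
      · exact Or.inr ⟨(mem_sdiff.1 h1).1, h2⟩

/-- The theorem for a cell with one member `b`. -/
theorem d1 (b : ι) {Rel : Set (Finset ι)} (hsub : Rel ⊆ C.caps) : ∀ (K : ℕ) (Q : Finset ι),
    b ∉ Q → (∀ H ∈ Rel, 2 * K ≤ (H ∩ Q).card) → (∀ H ∈ Rel, b ∈ H → 2 * K + 1 ≤ (H ∩ Q).card) →
    ∃ c : ι → Fin (K + 1), ∀ H ∈ Rel, Poly Q {b} c H := by
  intro K
  induction K with
  | zero =>
    intro Q hb h0 h1
    refine ⟨fun _ => 0, fun H hH j => ?_⟩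
    by_cases hbH : b ∈ H
    · have := h1 H hH hbH
      obtain ⟨x, hx⟩ := card_pos.1 (by omega : 0 < (H ∩ Q).card)
      rw [mem_inter] at hx
      exact ⟨x, Fin.ext (by omega), Or.inl ⟨hx.2, hx.1⟩⟩
    · exact ⟨b, Fin.ext (by omega), Or.inr ⟨mem_singleton_self b, hbH⟩⟩
  | succ K ih =>
    intro Q hb h0 h1
    obtain ⟨N, hNQ, hull, hcov, hmin⟩ := exists_hull_cover (C := C) (Q := Q) hsub
      (fun H hH => card_pos.1 (by have := h0 H hH; omega))
    have key : ∀ H ∈ Rel, 2 * K ≤ (H ∩ (Q \ N)).card ∧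
        (b ∈ H → 2 * K + 1 ≤ (H ∩ (Q \ N)).card) := by
      intro H hH
      have e1 := card_split (H := H) hNQ
      by_cases h3 : 3 ≤ (H ∩ N).card
      · obtain ⟨a, ha, m, hm, c, hc, G, hG, haH, hmH, hcH, l1, l2, l3, -, hGN⟩ :=
          mid hsub hNQ hull hmin (hsub hH) h3
        obtain ⟨-, e2, e3⟩ := priv' hNQ hull (hsub hH) (hsub hG) ha hm hc haH hcH l1 l2 l3 hGN
        have e4 := card_le_card e3
        have e5 := h0 G hG
        omega
      · have e2 := h0 H hH
        refine ⟨by omega, fun hbH => ?_⟩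
        have := h1 H hH hbH
        omega
    obtain ⟨c, hc⟩ := ih (Q \ N) (fun h => hb (mem_sdiff.1 h).1) (fun H hH => (key H hH).1)
      (fun H hH => (key H hH).2)
    refine ⟨_, fun H hH => Poly.extend (N := N) (M := ∅) (c := c) hNQ (empty_subset _) ?_ ?_ ?_ ?_⟩
    · rw [disjoint_singleton_right]
      exact fun h => hb (hNQ h)
    · exact disjoint_empty_left _
    · rw [sdiff_empty]
      exact hc H hH
    · obtain ⟨x, hx⟩ := hcov H hH
      rw [mem_inter] at hx
      exact Or.inl ⟨x, hx.2, hx.1⟩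

/-- T-LEMMA: the class `b, a, c`, the rest is coloured with `d1`. -/
theorem tlemma {b b' : ι} (hbb : b ≠ b') {Rel : Set (Finset ι)} (hsub : Rel ⊆ C.caps) {K : ℕ}
    {Q N : Finset ι} (nb : b ∉ Q) (nb' : b' ∉ Q) (inv0 : ∀ H ∈ Rel, 2 * K + 3 ≤ (H ∩ Q).card)
    (inv1 : ∀ H ∈ Rel, (b ∈ H ∨ b' ∈ H) → 2 * K + 4 ≤ (H ∩ Q).card)
    (hNQ : N ⊆ Q) (hull : ∀ p ∈ N, C.Hull Q p) (hcov : ∀ H ∈ Rel, (H ∩ N).Nonempty)
    (hJ : ∀ P ∈ C.caps, b ∈ P → (P ∩ Q).Nonempty)
    {H G : Finset ι} (hH : H ∈ C.caps) (hlow : (H ∩ (Q \ N)).card ≤ 2 * K + 2) (hG : G ∈ Rel)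
    {a m c : ι} (ha : a ∈ N) (hm : m ∈ N) (hc : c ∈ N) (haH : a ∈ H)
    (hcH : c ∈ H) (l1 : C.lt a m) (l2 : C.lt m c) (l3 : C.lt a c)
    (cons : ∀ e ∈ N, C.lt a e → C.lt e c → e = m) (hGN : G ∩ N = {m})
    (hab : C.lt a b) (hbc : C.lt b c) :
    ∃ col : ι → Fin (K + 3), ∀ Y ∈ Rel, Poly Q {b, b'} col Y := by
  have h4 : ∀ y, y ∈ G ∩ N ↔ y = m := fun y => by rw [hGN, mem_singleton]
  have haG : a ∉ G := fun h => lt_ne l1 ((h4 a).1 (mem_inter.2 ⟨h, ha⟩))
  have hcG : c ∉ G := fun h => lt_ne l2 ((h4 c).1 (mem_inter.2 ⟨h, hc⟩)).symm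
  obtain ⟨pr, e2, e3⟩ := priv' hNQ hull hH (hsub hG) ha hm hc haH hcH l1 l2 l3 hGN
  have haQ := hNQ ha
  have hcQ := hNQ hc
  have hac : a ≠ c := lt_ne l3
  have hacQ : ({a, c} : Finset ι) ⊆ Q := by
    intro x hx
    rw [mem_insert, mem_singleton] at hx
    rcases hx with rfl | rfl
    · exact haQ
    · exact hcQ
  -- every relevant cap with `b` contains `a` or `c`
  have cover : ∀ Y ∈ Rel, b ∈ Y → a ∈ Y ∨ c ∈ Y := by
    intro Y hY hbY
    by_contra hcon
    push Not at hcon
    obtain ⟨haY, hcY⟩ := hcon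
    by_cases hpr : Y ∩ N = {m}
    · obtain ⟨-, f2, f3⟩ := priv' hNQ hull hH (hsub hY) ha hm hc haH hcH l1 l2 l3 hpr
      have f4 := card_le_card f3
      have f5 := inv1 Y hY (Or.inl hbY)
      omega
    · -- a letter `e` of `N ∩ Y` outside `[a, c]`
      obtain ⟨e, he, hem⟩ : ∃ e ∈ Y ∩ N, e ≠ m := by
        by_contra hall
        push Not at hall
        apply hpr
        obtain ⟨y, hy⟩ := hcov Y hY
        have hym := hall y hy
        subst hym
        ext z
        rw [mem_singleton]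
        constructor
        · exact hall z
        · rintro rfl
          exact hy
      rw [mem_inter] at he
      have hea : e ≠ a := fun h => haY (h ▸ he.1)
      have hec : e ≠ c := fun h => hcY (h ▸ he.1)
      have heb : e ≠ b := fun h => nb (h ▸ hNQ he.2)
      have heQ := hNQ he.2
      have ha' : C.Hull (insert b Q) a := Hull.insert hJ (hull a ha)
      have hc' : C.Hull (insert b Q) c := Hull.insert hJ (hull c hc)
      rcases lt_total (C := C) heb with h | h
      · -- `e` before `b`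
        rcases lt_total (C := C) hea with h5 | h5
        · exact haY (ha'.between (hsub hY) he.1 hbY (mem_insert_of_mem heQ)
            (mem_insert_self _ _) h5 hab h)
        · exact hem (cons e he.2 h5 (lt_mid_left hab hbc l3 h5 h))
      · rcases lt_total (C := C) hec with h5 | h5
        · exact hem (cons e he.2 (lt_mid_right hab hbc l3 h h5) h5)
        · exact hcY (hc'.between (hsub hY) hbY he.1 (mem_insert_self _ _)
            (mem_insert_of_mem heQ) hbc h5 h)
  -- the sizes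
  have sizes : ∀ Y ∈ Rel, 2 * (K + 1) ≤ (Y ∩ (Q \ {a, c})).card ∧
      (b' ∈ Y → 2 * (K + 1) + 1 ≤ (Y ∩ (Q \ {a, c})).card) := by
    intro Y hY
    have e1 := card_split (H := Y) hacQ
    by_cases haY : a ∈ Y
    · by_cases hcY : c ∈ Y
      · have h6 : G ∩ Q ⊆ Y ∩ (Q \ {a, c}) := by
          intro x hx
          rw [mem_inter] at hx
          have hxa : x ≠ a := fun h => haG (h ▸ hx.1)
          have hxc : x ≠ c := fun h => hcG (h ▸ hx.1)
          rw [mem_inter, mem_sdiff, mem_insert, mem_singleton]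
          refine ⟨?_, hx.2, ?_⟩
          · by_contra hxY
            obtain ⟨-, k1, k2⟩ := pr x hx.1 hx.2
            exact btw (hsub hY) (hsub hG) haY haG hx.1 hxY hcY hcG k1 k2 l3
          · rintro (h | h)
            · exact hxa h
            · exact hxc h
        have h7 := card_le_card h6
        have h8 := inv0 G hG
        omega
      · have h6 : Y ∩ {a, c} = {a} := by
          ext x
          simp only [mem_inter, mem_insert, mem_singleton]
          constructor
          · rintro ⟨h1, h2 | h2⟩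
            · exact h2
            · exact absurd (h2 ▸ h1) hcY
          · rintro rfl
            exact ⟨haY, Or.inl rfl⟩
        rw [h6, card_singleton] at e1
        have h8 := inv0 Y hY
        refine ⟨by omega, fun hb' => ?_⟩
        have h9 := inv1 Y hY (Or.inr hb')
        omega
    · by_cases hcY : c ∈ Y
      · have h6 : Y ∩ {a, c} = {c} := by
          ext x
          simp only [mem_inter, mem_insert, mem_singleton]
          constructor
          · rintro ⟨h1, h2 | h2⟩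
            · exact absurd (h2 ▸ h1) haY
            · exact h2
          · rintro rfl
            exact ⟨hcY, Or.inr rfl⟩
        rw [h6, card_singleton] at e1
        have h8 := inv0 Y hY
        refine ⟨by omega, fun hb' => ?_⟩
        have h9 := inv1 Y hY (Or.inr hb')
        omega
      · have h6 : Y ∩ {a, c} = ∅ := by
          ext x
          simp only [mem_inter, mem_insert, mem_singleton]
          constructor
          · rintro ⟨h1, h2 | h2⟩
            · exact absurd (h2 ▸ h1) haY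
            · exact absurd (h2 ▸ h1) hcY
          · intro h
            simp at h
        rw [h6, card_empty] at e1
        have h8 := inv0 Y hY
        omega
  obtain ⟨col, hcol⟩ := d1 (C := C) b' hsub (K + 1) (Q \ {a, c})
    (fun h => nb' (mem_sdiff.1 h).1) (fun Y hY => (sizes Y hY).1) (fun Y hY => (sizes Y hY).2)
  refine ⟨_, fun Y hY => Poly.extend (N := {a, c}) (M := {b}) (c := col) hacQ ?_ ?_ ?_ ?_ ?_⟩
  · intro x hx
    rw [mem_singleton] at hx
    subst hx
    exact mem_insert_self _ _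
  · rw [Finset.disjoint_left]
    intro x hx hx'
    have hxQ := hacQ hx
    rw [mem_insert, mem_singleton] at hx'
    rcases hx' with rfl | rfl
    · exact nb hxQ
    · exact nb' hxQ
  · rw [disjoint_singleton_left]
    exact nb
  · have h9 : ({b, b'} : Finset ι) \ {b} = {b'} := by
      ext x
      simp only [mem_sdiff, mem_insert, mem_singleton]
      constructor
      · rintro ⟨h1 | h1, h2⟩
        · exact absurd h1 h2
        · exact h1
      · rintro rfl
        exact ⟨Or.inr rfl, Ne.symm hbb⟩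
    rw [h9]
    exact hcol Y hY
  · by_cases hbY : b ∈ Y
    · left
      rcases cover Y hY hbY with h | h
      · exact ⟨a, by simp, h⟩
      · exact ⟨c, by simp, h⟩
    · right
      exact ⟨b, mem_singleton_self _, hbY⟩

/-- THE INDUCTION. `hfin` is the final 2-colouring. -/
theorem Stage.colour {b b' : ι} {Rel : Set (Finset ι)}
    (hfin : ∀ Q : Finset ι, Stage C b b' Q Rel 0 →
      ∃ c : ι → Fin 2, ∀ H ∈ Rel, Poly Q {b, b'} c H) :
    ∀ (K : ℕ) (Q : Finset ι), Stage C b b' Q Rel K →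
      ∃ c : ι → Fin (K + 2), ∀ H ∈ Rel, Poly Q {b, b'} c H := by
  intro K
  induction K with
  | zero =>
    intro Q h
    exact hfin Q h
  | succ K ih =>
    intro Q h
    have hsub := h.sub
    obtain ⟨N, hNQ, hull, hcov, hmin⟩ := exists_hull_cover (C := C) (Q := Q) hsub
      (fun H hH => card_pos.1 (by have := h.inv0 H hH; omega))
    have inv0 : ∀ H ∈ Rel, 2 * K + 3 ≤ (H ∩ Q).card := fun H hH => by
      have := h.inv0 H hH
      omega
    have inv1 : ∀ H ∈ Rel, (b ∈ H ∨ b' ∈ H) → 2 * K + 4 ≤ (H ∩ Q).card := fun H hH hb => by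
      have := h.inv1 H hH hb
      omega
    by_cases hT : ∃ H ∈ Rel, b ∈ H ∧ b' ∈ H ∧ (H ∩ (Q \ N)).card = 2 * K + 2 ∧
        ∃ a ∈ N, ∃ m ∈ N, ∃ c ∈ N, ∃ G ∈ Rel, a ∈ H ∧ m ∈ H ∧ c ∈ H ∧ C.lt a m ∧ C.lt m c ∧
        C.lt a c ∧ (∀ e ∈ N, C.lt a e → C.lt e c → e = m) ∧ G ∩ N = {m} ∧
        (((∀ P ∈ C.caps, b ∈ P → (P ∩ Q).Nonempty) ∧ C.lt a b ∧ C.lt b c) ∨
          ((∀ P ∈ C.caps, b' ∈ P → (P ∩ Q).Nonempty) ∧ C.lt a b' ∧ C.lt b' c))
    · obtain ⟨H, hH, -, -, hlow, a, ha, m, hm, c, hc, G, hG, haH, -, hcH, l1, l2, l3, cons, hGN,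
        hcase⟩ := hT
      rcases hcase with ⟨hJ, hab, hbc⟩ | ⟨hJ, hab, hbc⟩
      · exact tlemma h.ne hsub h.nb h.nb' inv0 inv1 hNQ hull hcov hJ (hsub hH) hlow.le hG ha hm
          hc haH hcH l1 l2 l3 cons hGN hab hbc
      · have := tlemma h.ne.symm hsub h.nb' h.nb inv0 (fun H hH hb => inv1 H hH hb.symm) hNQ hull
          hcov hJ (hsub hH) hlow.le hG ha hm hc haH hcH l1 l2 l3 cons hGN hab hbc
        rw [pair_comm]
        exact this
    · have hstage : Stage C b b' (Q \ N) Rel K := by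
        have hJmono : ∀ x : ι, (∀ P ∈ C.caps, x ∈ P → (P ∩ (Q \ N)).Nonempty) →
            ∀ P ∈ C.caps, x ∈ P → (P ∩ Q).Nonempty := by
          intro x hx P hP hxP
          obtain ⟨y, hy⟩ := hx P hP hxP
          rw [mem_inter, mem_sdiff] at hy
          exact ⟨y, mem_inter.2 ⟨hy.1, hy.2.1⟩⟩
        -- the analysis of a low cap
        have hlow : ∀ H ∈ Rel, b ∈ H → b' ∈ H → (H ∩ (Q \ N)).card = 2 * K + 2 →
            (∃ G ∈ Rel, b ∉ G ∧ b' ∉ G ∧ G ∩ (Q \ N) = H ∩ (Q \ N)) ∧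
            ((∀ P ∈ C.caps, b ∈ P → (P ∩ (Q \ N)).Nonempty) →
              ∀ x ∈ H, x ∈ Q \ N → ∀ y ∈ H, y ∈ Q \ N → C.lt x b → C.lt b y → False) ∧
            ((∀ P ∈ C.caps, b' ∈ P → (P ∩ (Q \ N)).Nonempty) →
              ∀ x ∈ H, x ∈ Q \ N → ∀ y ∈ H, y ∈ Q \ N → C.lt x b' → C.lt b' y → False) := by
          intro H hH hb hb' hcard
          have e1 := card_split (H := H) hNQ
          by_cases h3 : 3 ≤ (H ∩ N).card
          · obtain ⟨a, ha, m, hm, c, hc, G, hG, haH, hmH, hcH, l1, l2, l3, cons, hGN⟩ :=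
              mid hsub hNQ hull hmin (hsub hH) h3
            obtain ⟨pr, e2, e3⟩ := priv' hNQ hull (hsub hH) (hsub hG) ha hm hc haH hcH l1 l2 l3 hGN
            have e4 := card_le_card e3
            have e5 := inv0 G hG
            have e6 : G ∩ (Q \ N) = H ∩ (Q \ N) := eq_of_subset_of_card_le e3 (by omega)
            have hbG : ¬ (b ∈ G ∨ b' ∈ G) := fun hh => by
              have := inv1 G hG hh
              rw [e6] at e2
              omega
            push Not at hbG
            have inside : ∀ x ∈ H, x ∈ Q \ N → C.lt a x ∧ C.lt x c := by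
              intro x hx hxQ
              have : x ∈ G ∩ (Q \ N) := by
                rw [e6]
                exact mem_inter.2 ⟨hx, hxQ⟩
              exact (pr x (mem_inter.1 this).1 (mem_sdiff.1 hxQ).1).2
            refine ⟨⟨G, hG, hbG.1, hbG.2, e6⟩, ?_, ?_⟩
            · intro hJ x hx hxQ y hy hyQ h1 h2
              have i1 := (inside x hx hxQ).1
              have i2 := (inside y hy hyQ).2
              have hHc := hsub hH
              apply hT
              exact ⟨H, hH, hb, hb', hcard, a, ha, m, hm, c, hc, G, hG, haH, hmH, hcH, l1, l2, l3,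
                cons, hGN, Or.inl ⟨hJmono b hJ, trans hHc haH hx hb i1 h1,
                  trans hHc hb hy hcH h2 i2⟩⟩
            · intro hJ x hx hxQ y hy hyQ h1 h2
              have i1 := (inside x hx hxQ).1
              have i2 := (inside y hy hyQ).2
              have hHc := hsub hH
              apply hT
              exact ⟨H, hH, hb, hb', hcard, a, ha, m, hm, c, hc, G, hG, haH, hmH, hcH, l1, l2, l3,
                cons, hGN, Or.inr ⟨hJmono b' hJ, trans hHc haH hx hb' i1 h1,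
                  trans hHc hb' hy hcH h2 i2⟩⟩
          · have e2 := inv1 H hH (Or.inl hb)
            have e3 : (H ∩ Q).card = 2 * (K + 1) + 2 := by omega
            obtain ⟨G, hG, g1, g2, g3⟩ := h.low H hH hb hb' e3
            have hsd : ∀ x, x ∈ Q \ N → x ∈ Q := fun x hx => (mem_sdiff.1 hx).1
            refine ⟨⟨G, hG, g1, g2, ?_⟩, ?_, ?_⟩
            · ext x
              rw [mem_inter, mem_inter]
              constructor
              · rintro ⟨h1, h2⟩
                have : x ∈ H ∩ Q := by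
                  rw [← g3]
                  exact mem_inter.2 ⟨h1, hsd x h2⟩
                exact ⟨(mem_inter.1 this).1, h2⟩
              · rintro ⟨h1, h2⟩
                have : x ∈ G ∩ Q := by
                  rw [g3]
                  exact mem_inter.2 ⟨h1, hsd x h2⟩
                exact ⟨(mem_inter.1 this).1, h2⟩
            · intro hJ x hx hxQ y hy hyQ
              exact h.out H hH hb hb' e3 (hJmono b hJ) x hx (hsd x hxQ) y hy (hsd y hyQ)
            · intro hJ x hx hxQ y hy hyQ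
              exact h.out' H hH hb hb' e3 (hJmono b' hJ) x hx (hsd x hxQ) y hy (hsd y hyQ)
        refine ⟨hsub, h.ne, fun hh => h.nb (mem_sdiff.1 hh).1, fun hh => h.nb' (mem_sdiff.1 hh).1,
          ?_, ?_, fun H hH hb hb' hc => (hlow H hH hb hb' hc).1,
          fun H hH hb hb' hc => (hlow H hH hb hb' hc).2.1,
          fun H hH hb hb' hc => (hlow H hH hb hb' hc).2.2⟩
        · intro H hH
          have e1 := card_split (H := H) hNQ
          by_cases h3 : 3 ≤ (H ∩ N).card
          · obtain ⟨a, ha, m, hm, c, hc, G, hG, haH, hmH, hcH, l1, l2, l3, -, hGN⟩ :=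
              mid hsub hNQ hull hmin (hsub hH) h3
            obtain ⟨-, e2, e3⟩ := priv' hNQ hull (hsub hH) (hsub hG) ha hm hc haH hcH l1 l2 l3 hGN
            have e4 := card_le_card e3
            have e5 := inv0 G hG
            omega
          · have := inv0 H hH
            omega
        · intro H hH hb
          have e1 := card_split (H := H) hNQ
          by_cases h3 : 3 ≤ (H ∩ N).card
          · obtain ⟨a, ha, m, hm, c, hc, G, hG, haH, hmH, hcH, l1, l2, l3, -, hGN⟩ :=
              mid hsub hNQ hull hmin (hsub hH) h3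
            obtain ⟨-, e2, e3⟩ := priv' hNQ hull (hsub hH) (hsub hG) ha hm hc haH hcH l1 l2 l3 hGN
            have e4 := card_le_card e3
            have e5 := inv0 G hG
            omega
          · have := inv1 H hH hb
            omega
      obtain ⟨c, hc⟩ := ih (Q \ N) hstage
      refine ⟨_, fun H hH => Poly.extend (N := N) (M := ∅) (c := c) hNQ (empty_subset _) ?_ ?_ ?_ ?_⟩
      · rw [Finset.disjoint_left]
        intro x hx hx'
        have hxQ := hNQ hx
        rw [mem_insert, mem_singleton] at hx'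
        rcases hx' with rfl | rfl
        · exact h.nb hxQ
        · exact h.nb' hxQ
      · exact disjoint_empty_left _
      · rw [sdiff_empty]
        exact hc H hH
      · obtain ⟨x, hx⟩ := hcov H hH
        rw [mem_inter] at hx
        exact Or.inl ⟨x, hx.2, hx.1⟩

end CapSys

end PHP
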