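import Mathlib
import Pool.Agent.PHP.Main
import Pool.Agent.PHP.CapBridge
import Pool.Agent.PHP.CapPeel

/-!
# Some point is covered exactly twice (problem MP_1180db_co): assembly

`split_two_of`: the splitting theorem from the two final 2-colourings (files `CapLinear`, `CapPole`).
-/

namespace PHP

open Finset

theorem cap_count {ι : Type} [Fintype ι] [DecidableEq ι] {O X : ι → Bool} {b b' : ι} (hbb : b ≠ b')
    (hO : ∀ i, O i = true ↔ i = b ∨ i = b') {H : Finset ι} (hH : ∀ i, i ∈ H ↔ X i ≠ O i) :
    dep X + (if b ∈ H then 1 else 0) + (if b' ∈ H then 1 else 0) =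
      (H ∩ (univ \ {b, b'})).card + 2 := by
  classical
  have hb : O b = true := (hO b).2 (Or.inl rfl)
  have hb' : O b' = true := (hO b').2 (Or.inr rfl)
  have key : (univ.filter (fun i => X i = true)) =
      (H ∩ (univ \ {b, b'})) ∪ (({b, b'} : Finset ι).filter (fun i => i ∉ H)) := by
    ext i
    simp only [mem_filter, mem_univ, true_and, mem_union, mem_inter, mem_sdiff, mem_insert,
      mem_singleton]
    have h1 := hH i
    have h2 := hO i
    by_cases h3 : i = b ∨ i = b'
    · have h4 : O i = true := h2.2 h3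
      rw [h4] at h1
      constructor
      · intro h5
        exact Or.inr ⟨h3, fun h6 => (h1.1 h6) h5⟩
      · rintro (⟨-, h5⟩ | ⟨-, h5⟩)
        · exact absurd h3 h5
        · by_contra h6
          exact h5 (h1.2 h6)
    · have h4 : O i = false := by
        cases h5 : O i
        · rfl
        · exact absurd (h2.1 h5) h3
      rw [h4] at h1
      constructor
      · intro h5
        left
        refine ⟨h1.2 (by rw [h5]; decide), h3⟩
      · rintro (⟨h5, -⟩ | ⟨h5, -⟩)
        · have := h1.1 h5
          cases h6 : X i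
          · rw [h6] at this
            exact absurd rfl this
          · rfl
        · exact absurd h5 h3
  unfold dep
  rw [key, card_union_of_disjoint]
  · have h5 : (({b, b'} : Finset ι).filter (fun i => i ∉ H)).card +
        (if b ∈ H then 1 else 0) + (if b' ∈ H then 1 else 0) = 2 := by
      by_cases h6 : b ∈ H
      · by_cases h7 : b' ∈ H
        · rw [filter_insert, filter_singleton, if_neg (by simpa using h6), if_neg (by simpa using h7),
            if_pos h6, if_pos h7]
          simp
        · rw [filter_insert, filter_singleton, if_neg (by simpa using h6), if_pos (by simpa using h7),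
            if_pos h6, if_neg h7]
          simp
      · by_cases h7 : b' ∈ H
        · rw [filter_insert, filter_singleton, if_pos (by simpa using h6), if_neg (by simpa using h7),
            if_neg h6, if_pos h7]
          simp
        · rw [filter_insert, filter_singleton, if_pos (by simpa using h6), if_pos (by simpa using h7),
            if_neg h6, if_neg h7]
          rw [card_insert_of_notMem (by simpa using hbb)]
          simp
    omega
  · rw [Finset.disjoint_left]
    intro x hx hx'
    rw [mem_inter, mem_sdiff] at hx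
    rw [mem_filter] at hx'
    exact hx.2.2 hx'.1

/-- The splitting theorem for a cell with exactly two members, from the two final statements. -/
theorem Sys.Circ.split_two_of {ι : Type} [Fintype ι] [DecidableEq ι] {S : Sys ι} {F : ι → Bool}
    {l : List (ι × Bool)} (h : S.Circ F l) (hc : S.Complete) {k : ℕ} (hk : 1 ≤ k) {O : ι → Bool}
    (hO : O ∈ S.T) (hd : dep O = 2) (T' : Set (ι → Bool)) (hT : T' ⊆ S.T)
    (hcov : ∀ X ∈ T', 2 * k - 1 ≤ dep X)
    (hfin : ∀ (b b' : ι), (∀ i, O i = true ↔ i = b ∨ i = b') → ∀ (C : CapSys ι),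
      (∀ H : Finset ι, H ∈ C.caps ↔ ∃ X ∈ S.T, ∀ i, i ∈ H ↔ X i ≠ O i) →
      ∀ (Q : Finset ι) (Rel : Set (Finset ι)), C.Stage b b' Q Rel 0 →
      ∃ c : ι → Fin 2, ∀ H ∈ Rel, CapSys.Poly Q {b, b'} c H) :
    ∃ c : ι → Fin k, ∀ X ∈ T', ∀ j, ∃ i, c i = j ∧ X i = true := by
  classical
  obtain ⟨b, b', hbb, hbO⟩ := card_eq_two.1 hd
  have hO2 : ∀ i, O i = true ↔ i = b ∨ i = b' := by
    intro i
    have : i ∈ (univ.filter (fun i => O i = true)) ↔ i ∈ ({b, b'} : Finset ι) := by rw [hbO]
    simpa using this
  rcases Nat.lt_or_ge k 2 with hk2 | hk2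
  · obtain rfl : k = 1 := by omega
    refine ⟨fun _ => 0, fun X hX j => ?_⟩
    have h1 := hcov X hX
    have h5 : 0 < dep X := by omega
    unfold dep at h5
    obtain ⟨i, hi⟩ := card_pos.mp h5
    rw [mem_filter] at hi
    exact ⟨i, Subsingleton.elim _ _, hi.2⟩
  obtain ⟨K, rfl⟩ : ∃ K, k = K + 2 := ⟨k - 2, by omega⟩
  obtain ⟨C, hC⟩ := h.exists_capSys hc ⟨b⟩ hO
  set Rel : Set (Finset ι) := {H | ∃ X ∈ T', ∀ i, i ∈ H ↔ X i ≠ O i} with hRel
  have hsize : ∀ H ∈ Rel, 2 * K + 1 + (if b ∈ H then 1 else 0) + (if b' ∈ H then 1 else 0) ≤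
      (H ∩ (univ \ {b, b'})).card := by
    rintro H ⟨X, hX, hHX⟩
    have h1 := cap_count hbb hO2 hHX
    have h2 := hcov X hX
    omega
  have hst : C.Stage b b' (univ \ {b, b'}) Rel K := by
    refine ⟨?_, hbb, by simp, by simp, ?_, ?_, ?_, ?_, ?_⟩
    · rintro H ⟨X, hX, hHX⟩
      exact (hC H).2 ⟨X, hT hX, hHX⟩
    · intro H hH
      have := hsize H hH
      omega
    · intro H hH hb
      have := hsize H hH
      rcases hb with hb | hb
      · rw [if_pos hb] at this
        omega
      · rw [if_pos hb] at this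
        omega
    · intro H hH hb hb' hcard
      have := hsize H hH
      rw [if_pos hb, if_pos hb'] at this
      omega
    · intro H hH hb hb' hcard
      have := hsize H hH
      rw [if_pos hb, if_pos hb'] at this
      omega
    · intro H hH hb hb' hcard
      have := hsize H hH
      rw [if_pos hb, if_pos hb'] at this
      omega
  obtain ⟨c, hcol⟩ := CapSys.Stage.colour (fun Q hQ => hfin b b' hO2 C hC Q Rel hQ) K _ hst
  refine ⟨c, fun X hX j => ?_⟩
  have hH : (univ.filter (fun i => X i ≠ O i)) ∈ Rel := ⟨X, hX, fun i => by simp⟩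
  obtain ⟨x, hx, hx2⟩ := hcol _ hH j
  refine ⟨x, hx, ?_⟩
  have h2 := hO2 x
  rcases hx2 with ⟨h3, h4⟩ | ⟨h3, h4⟩
  · rw [mem_filter] at h4
    have h5 : ¬ (x = b ∨ x = b') := by
      intro h6
      exact (mem_sdiff.1 h3).2 (by rw [mem_insert, mem_singleton]; exact h6)
    have h6 : O x = false := by
      cases h7 : O x
      · rfl
      · exact absurd (h2.1 h7) h5
    have h7 := h4.2
    rw [h6] at h7
    cases h8 : X x
    · exact absurd h8 h7
    · rfl
  · rw [mem_insert, mem_singleton] at h3
    have h5 := h2.2 h3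
    by_contra h6
    apply h4
    rw [mem_filter]
    refine ⟨mem_univ _, ?_⟩
    rw [h5]
    exact h6

end PHP
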