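import Mathlib
import Pool.Agent.PHP.CapPeel
import Pool.Agent.PHP.CapBridge

/-!
# The final 2-colouring when some cap contains a blue and no red (problem MP_1180db_co)

Let `P` be a cap with `b ∈ P`, `P ∩ Q = ∅`. We look from the cell of `P`: caps `H' = H ∆ P`, reds
`R = Q ∪ ({b, b'} ∩ P)`. Demands: `H'` for `H ∈ Rel`; all have at least two letters of `R`. `b₀` is a hull letter in
`P ∩ R`. A minimal hull cover `N` which contains `b₀`, or contains no exceptional pair, is a colour class.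
-/

namespace PHP

open Finset

variable {ι : Type} [DecidableEq ι]

namespace CapSys

/-- minimal covers inside a given cover -/
theorem exists_min_cover {A : Finset ι} {Rel : Set (Finset ι)} (hA : ∀ H ∈ Rel, (H ∩ A).Nonempty) :
    ∃ N ⊆ A, (∀ H ∈ Rel, (H ∩ N).Nonempty) ∧ ∀ m ∈ N, ∃ G ∈ Rel, G ∩ N = {m} := by
  classical
  set S : Finset (Finset ι) := A.powerset.filter (fun N => ∀ H ∈ Rel, (H ∩ N).Nonempty) with hS
  have hSne : S.Nonempty := ⟨A, by rw [hS, mem_filter, mem_powerset]; exact ⟨Subset.refl _, hA⟩⟩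
  obtain ⟨N, hN, hmin⟩ := exists_min_image S card hSne
  rw [hS, mem_filter, mem_powerset] at hN
  refine ⟨N, hN.1, hN.2, fun m hm => ?_⟩
  by_contra hcon
  push Not at hcon
  have h1 : N.erase m ∈ S := by
    rw [hS, mem_filter, mem_powerset]
    refine ⟨(erase_subset _ _).trans hN.1, fun H hH => ?_⟩
    by_contra hemp
    rw [not_nonempty_iff_eq_empty] at hemp
    apply hcon H hH
    obtain ⟨y, hy⟩ := hN.2 H hH
    have key : ∀ z, z ∈ H → z ∈ N → z = m := by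
      intro z hz hzN
      by_contra hzm
      have : z ∈ H ∩ N.erase m := mem_inter.2 ⟨hz, mem_erase.2 ⟨hzm, hzN⟩⟩
      rw [hemp] at this
      simp at this
    ext z
    rw [mem_inter, mem_singleton]
    constructor
    · rintro ⟨hz, hzN⟩
      exact key z hz hzN
    · rintro rfl
      rw [mem_inter] at hy
      have := key y hy.1 hy.2
      subst this
      exact hy
  have h2 := hmin _ h1
  rw [card_erase_of_mem hm] at h2
  have := card_pos.2 ⟨m, hm⟩
  omega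

/-- `b₀, x, y` hull letters in a cap `G` whose letters in `R` other than these three are few: a demand cap with `x`,
without `b₀` and `y`, has only letters between `b₀` and `y`. -/
theorem between_cap {C : CapSys ι} {R : Finset ι} {a x c : ι} (ha : C.Hull R a) (hc : C.Hull R c)
    (hxR : x ∈ R) {G D : Finset ι} (hG : G ∈ C.caps) (hD : D ∈ C.caps) (haG : a ∈ G) (hcG : c ∈ G)
    (haD : a ∉ D) (hcD : c ∉ D) (hxD : x ∈ D)
    (hord : (C.lt a x ∧ C.lt x c ∧ C.lt a c) ∨ (C.lt c x ∧ C.lt x a ∧ C.lt c a)) :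
    D ∩ R ⊆ G := by
  intro r hr
  rw [mem_inter] at hr
  rcases hord with ⟨h1, h2, h3⟩ | ⟨h1, h2, h3⟩
  · exact (priv ha hc hxR hG hD haG hcG haD hcD hxD h1 h2 h3 hr.1 hr.2).1
  · exact (priv hc ha hxR hG hD hcG haG hcD haD hxD h1 h2 h3 hr.1 hr.2).1

/-- the middle letter of the three hull letters `b₀, x, y` of a cap, `b₀` not between `x` and `y` -/
theorem exists_middle {C : CapSys ι} {R : Finset ι} {b₀ x y : ι} (hb₀ : C.Hull R b₀)
    (hxR : x ∈ R) (hyR : y ∈ R) (hxy : x ≠ y) (hxb : x ≠ b₀) (hyb : y ≠ b₀) {G D : Finset ι}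
    (hG : G ∈ C.caps) (hD : D ∈ C.caps) (hbG : b₀ ∈ G) (hxG : x ∈ G) (hyG : y ∈ G)
    (hbD : b₀ ∉ D) (hxD : x ∈ D) (hyD : y ∈ D) :
    ((C.lt b₀ x ∧ C.lt x y ∧ C.lt b₀ y) ∨ (C.lt y x ∧ C.lt x b₀ ∧ C.lt y b₀)) ∨
      ((C.lt b₀ y ∧ C.lt y x ∧ C.lt b₀ x) ∨ (C.lt x y ∧ C.lt y b₀ ∧ C.lt x b₀)) := by
  rcases lt_total (C := C) hxb with h1 | h1
  · rcases lt_total (C := C) hyb with h2 | h2
    · rcases lt_total (C := C) hxy with h3 | h3
      · exact Or.inr (Or.inr ⟨h3, h2, h1⟩)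
      · exact Or.inl (Or.inr ⟨h3, h1, h2⟩)
    · exact absurd (hb₀.between hD hxD hyD hxR hyR h1 h2 (trans hG hxG hbG hyG h1 h2)) hbD
  · rcases lt_total (C := C) hyb with h2 | h2
    · exact absurd (hb₀.between hD hyD hxD hyR hxR h2 h1 (trans hG hyG hbG hxG h2 h1)) hbD
    · rcases lt_total (C := C) hxy with h3 | h3
      · exact Or.inl (Or.inl ⟨h1, h3, h2⟩)
      · exact Or.inr (Or.inl ⟨h2, h3, h1⟩)

/-- The class `N`. `Exc`: the exceptional demands. -/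
theorem pole_split {C : CapSys ι} {R Q : Finset ι} {Dem Exc : Set (Finset ι)} (hQR : Q ⊆ R)
    (hsub : Dem ⊆ C.caps) (two : ∀ D ∈ Dem, 2 ≤ (D ∩ R).card) {b₀ : ι} (hb₀ : C.Hull R b₀)
    (two' : ∀ D ∈ Dem, b₀ ∉ D → 2 ≤ (D ∩ Q).card)
    (hExc : ∀ D ∈ Exc, D ∈ C.caps ∧ b₀ ∉ D ∧ ∃ x y, x ≠ y ∧ D ∩ R = {x, y} ∧ x ∈ Q ∧ y ∈ Q ∧
      ∃ G ∈ C.caps, b₀ ∈ G ∧ G ∩ Q = {x, y}) :
    ∃ N ⊆ R, (∀ D ∈ Dem, (D ∩ N).Nonempty) ∧
      ∀ D ∈ Dem, D ∩ R ⊆ N → (D ∩ R).card = 2 ∧ D ∉ Exc := by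
  classical
  -- the data of an exceptional pair inside a set of hull letters
  have data : ∀ N : Finset ι, (∀ p ∈ N, C.Hull R p) → ∀ D ∈ Exc, D ∩ R ⊆ N →
      ∃ u ∈ N, ∃ v ∈ N, u ≠ v ∧ u ≠ b₀ ∧ ∀ D' ∈ Dem, b₀ ∉ D' → v ∉ D' → u ∈ D' → False := by
    intro N hull D hD hDN
    obtain ⟨hDc, hbD, x, y, hxy, hDR, hxQ, hyQ, G, hG, hbG, hGQ⟩ := hExc D hD
    have h1 : ∀ z, z ∈ D ∩ R ↔ z = x ∨ z = y := fun z => by
      rw [hDR, mem_insert, mem_singleton]
    have h2 : ∀ z, z ∈ G ∩ Q ↔ z = x ∨ z = y := fun z => by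
      rw [hGQ, mem_insert, mem_singleton]
    have hxD := (mem_inter.1 ((h1 x).2 (Or.inl rfl))).1
    have hyD := (mem_inter.1 ((h1 y).2 (Or.inr rfl))).1
    have hxN := hDN ((h1 x).2 (Or.inl rfl))
    have hyN := hDN ((h1 y).2 (Or.inr rfl))
    have hxG := (mem_inter.1 ((h2 x).2 (Or.inl rfl))).1
    have hyG := (mem_inter.1 ((h2 y).2 (Or.inr rfl))).1
    have hxb : x ≠ b₀ := fun h => hbD (h ▸ hxD)
    have hyb : y ≠ b₀ := fun h => hbD (h ▸ hyD)
    -- the contradiction for a middle letter `u`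
    have fin : ∀ u v, (u = x ∧ v = y) ∨ (u = y ∧ v = x) →
        ((C.lt b₀ u ∧ C.lt u v ∧ C.lt b₀ v) ∨ (C.lt v u ∧ C.lt u b₀ ∧ C.lt v b₀)) →
        ∀ D' ∈ Dem, b₀ ∉ D' → v ∉ D' → u ∈ D' → False := by
      intro u v huv hord D' hD' hbD' hvD' huD'
      have huQ : u ∈ Q := by
        rcases huv with ⟨rfl, -⟩ | ⟨rfl, -⟩
        · exact hxQ
        · exact hyQ
      have hvN : v ∈ N := by
        rcases huv with ⟨-, rfl⟩ | ⟨-, rfl⟩
        · exact hyN
        · exact hxN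
      have hvG : v ∈ G := by
        rcases huv with ⟨-, rfl⟩ | ⟨-, rfl⟩
        · exact hyG
        · exact hxG
      have h3 := between_cap hb₀ (hull v hvN) (hQR huQ) hG (hsub hD') hbG hvG hbD' hvD' huD' hord
      have h4 : D' ∩ Q ⊆ {u} := by
        intro r hr
        rw [mem_inter] at hr
        have hrG : r ∈ G := h3 (mem_inter.2 ⟨hr.1, hQR hr.2⟩)
        have h5 := (h2 r).1 (mem_inter.2 ⟨hrG, hr.2⟩)
        have hrv : r ≠ v := fun h => hvD' (h ▸ hr.1)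
        rw [mem_singleton]
        rcases huv with ⟨rfl, rfl⟩ | ⟨rfl, rfl⟩
        · exact h5.resolve_right hrv
        · exact h5.resolve_left hrv
      have h5 := card_le_card h4
      rw [card_singleton] at h5
      have := two' D' hD' hbD'
      omega
    rcases exists_middle hb₀ (hQR hxQ) (hQR hyQ) hxy hxb hyb hG hDc hbG hxG hyG hbD hxD hyD
      with h3 | h3
    · exact ⟨x, hxN, y, hyN, hxy, hxb, fin x y (Or.inl ⟨rfl, rfl⟩) h3⟩
    · exact ⟨y, hyN, x, hxN, hxy.symm, hyb, fin y x (Or.inr ⟨rfl, rfl⟩) h3⟩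
  -- a good minimal cover
  obtain ⟨N, hN, hcov, hmin, hno⟩ : ∃ N : Finset ι, (∀ p ∈ N, C.Hull R p) ∧
      (∀ D ∈ Dem, (D ∩ N).Nonempty) ∧ (∀ m ∈ N, ∃ G ∈ Dem, G ∩ N = {m}) ∧
      ∀ D ∈ Exc, ¬ D ∩ R ⊆ N := by
    obtain ⟨N₁, -, hull₁, hcov₁, hmin₁⟩ := exists_hull_cover (C := C) (Q := R) hsub
      (fun D hD => card_pos.1 (by have := two D hD; omega))
    by_cases hno : ∀ D ∈ Exc, ¬ D ∩ R ⊆ N₁
    · exact ⟨N₁, hull₁, hcov₁, hmin₁, hno⟩
    -- a minimal cover containing `b₀` has no exceptional pair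
    have claim : ∀ N : Finset ι, (∀ p ∈ N, C.Hull R p) → (∀ m ∈ N, ∃ G ∈ Dem, G ∩ N = {m}) →
        b₀ ∈ N → ∀ D ∈ Exc, ¬ D ∩ R ⊆ N := by
      intro N hull hmin hbN D hD hDN
      obtain ⟨u, hu, v, hv, huv, hub, hfin⟩ := data N hull D hD hDN
      obtain ⟨G, hG, hGN⟩ := hmin u hu
      have h4 : ∀ y, y ∈ G ∩ N ↔ y = u := fun y => by rw [hGN, mem_singleton]
      exact hfin G hG (fun h => hub ((h4 b₀).1 (mem_inter.2 ⟨h, hbN⟩)).symm)
        (fun h => huv ((h4 v).1 (mem_inter.2 ⟨h, hv⟩)).symm) (mem_inter.1 ((h4 u).2 rfl)).1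
    push Not at hno
    obtain ⟨D, hD, hDN⟩ := hno
    by_cases hbN : b₀ ∈ N₁
    · exact absurd hDN (claim N₁ hull₁ hmin₁ hbN D hD)
    obtain ⟨u, hu, v, hv, huv, hub, hfin⟩ := data N₁ hull₁ D hD hDN
    have hcov₂ : ∀ D' ∈ Dem, (D' ∩ insert b₀ (N₁.erase u)).Nonempty := by
      intro D' hD'
      by_contra hemp
      rw [not_nonempty_iff_eq_empty] at hemp
      have h5 : ∀ z, z ∈ D' → z ∉ insert b₀ (N₁.erase u) := by
        intro z hz hz2
        have : z ∈ D' ∩ insert b₀ (N₁.erase u) := mem_inter.2 ⟨hz, hz2⟩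
        rw [hemp] at this
        simp at this
      obtain ⟨z, hz⟩ := hcov₁ D' hD'
      rw [mem_inter] at hz
      have hzu : z = u := by
        by_contra h
        exact h5 z hz.1 (mem_insert_of_mem (mem_erase.2 ⟨h, hz.2⟩))
      subst hzu
      exact hfin D' hD' (fun h => h5 b₀ h (mem_insert_self _ _))
        (fun h => h5 v h (mem_insert_of_mem (mem_erase.2 ⟨huv.symm, hv⟩))) hz.1
    obtain ⟨N₃, hN₃, hcov₃, hmin₃⟩ := exists_min_cover hcov₂
    have hull₃ : ∀ p ∈ N₃, C.Hull R p := by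
      intro p hp
      rcases mem_insert.1 (hN₃ hp) with h | h
      · rw [h]
        exact hb₀
      · exact hull₁ p (mem_of_mem_erase h)
    have hb₃ : b₀ ∈ N₃ := by
      by_contra hb
      obtain ⟨G, hG, hGN⟩ := hmin₁ u hu
      have h4 : ∀ y, y ∈ G ∩ N₁ ↔ y = u := fun y => by rw [hGN, mem_singleton]
      obtain ⟨z, hz⟩ := hcov₃ G hG
      rw [mem_inter] at hz
      rcases mem_insert.1 (hN₃ hz.2) with h | h
      · exact hb (h ▸ hz.2)
      · rw [mem_erase] at h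
        exact h.1 ((h4 z).1 (mem_inter.2 ⟨hz.1, h.2⟩))
    exact ⟨N₃, hull₃, hcov₃, hmin₃, claim N₃ hull₃ hmin₃ hb₃⟩
  have hNR : N ⊆ R := fun p hp => (hN p hp).mem
  refine ⟨N, hNR, hcov, fun D hD hDN => ⟨?_, fun hE => hno D hE hDN⟩⟩
  have h2 := two D hD
  by_contra h3
  have h4 : D ∩ R ⊆ D ∩ N := fun z hz => mem_inter.2 ⟨(mem_inter.1 hz).1, hDN hz⟩
  have h5 := card_le_card h4
  obtain ⟨a, ha, m, hm, c, hc, G, hG, haD, -, hcD, l1, l2, l3, -, hGN⟩ :=
    mid hsub hNR hN hmin (hsub hD) (by omega : 3 ≤ (D ∩ N).card)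
  obtain ⟨pr, -, -⟩ := priv' hNR hN (hsub hD) (hsub hG) ha hm hc haD hcD l1 l2 l3 hGN
  have h6 : G ∩ R ⊆ {m} := by
    intro r hr
    rw [mem_inter] at hr
    have h7 := (pr r hr.1 hr.2).1
    have h8 := hDN (mem_inter.2 ⟨h7, hr.2⟩)
    rw [← hGN]
    exact mem_inter.2 ⟨hr.1, h8⟩
  have h7 := card_le_card h6
  rw [card_singleton] at h7
  have := two G hG
  omega

/-- the two blues are interchangeable -/
theorem Stage.swap {C : CapSys ι} {b b' : ι} {Q : Finset ι} {Rel : Set (Finset ι)} {K : ℕ}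
    (hs : C.Stage b b' Q Rel K) : C.Stage b' b Q Rel K where
  sub := hs.sub
  ne := hs.ne.symm
  nb := hs.nb'
  nb' := hs.nb
  inv0 := hs.inv0
  inv1 := fun H hH h => hs.inv1 H hH h.symm
  low := fun H hH h1 h2 h3 => by
    obtain ⟨G, hG, g1, g2, g3⟩ := hs.low H hH h2 h1 h3
    exact ⟨G, hG, g2, g1, g3⟩
  out := fun H hH h1 h2 h3 => hs.out' H hH h2 h1 h3
  out' := fun H hH h1 h2 h3 => hs.out H hH h2 h1 h3

/-- the final 2-colouring from a system `C'` in which the caps of `C` are seen from the cap `P` -/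
theorem pole_final {C C' : CapSys ι} {b b' : ι} {Q : Finset ι} {Rel : Set (Finset ι)}
    (hs : C.Stage b b' Q Rel 0) {P : Finset ι} (hbP : b ∈ P) (hPQ : ∀ x ∈ Q, x ∉ P)
    (hC' : ∀ H ∈ C.caps, symmDiff H P ∈ C'.caps) :
    ∃ c : ι → Fin 2, ∀ H ∈ Rel, Poly Q {b, b'} c H := by
  classical
  set R : Finset ι := Q ∪ (({b, b'} : Finset ι) ∩ P) with hR
  have memR : ∀ x, x ∈ R ↔ x ∈ Q ∨ ((x = b ∨ x = b') ∧ x ∈ P) := by
    intro x
    rw [hR, mem_union, mem_inter, mem_insert, mem_singleton]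
  have memD : ∀ (H : Finset ι) x, x ∈ symmDiff H P ↔ (x ∈ H ∧ x ∉ P) ∨ (x ∈ P ∧ x ∉ H) := by
    intro H x
    rw [mem_symmDiff]
  have memDQ : ∀ (H : Finset ι) x, x ∈ Q → (x ∈ symmDiff H P ↔ x ∈ H) := by
    intro H x hx
    rw [memD]
    have := hPQ x hx
    tauto
  have memDP : ∀ (H : Finset ι) x, x ∈ P → (x ∈ symmDiff H P ↔ x ∉ H) := by
    intro H x hx
    rw [memD]
    tauto
  have hbR : b ∈ R := (memR b).2 (Or.inr ⟨Or.inl rfl, hbP⟩)
  have hQR : Q ⊆ R := fun x hx => (memR x).2 (Or.inl hx)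
  have interQ : ∀ H : Finset ι, symmDiff H P ∩ Q = H ∩ Q := by
    intro H
    ext x
    rw [mem_inter, mem_inter]
    constructor
    · rintro ⟨h1, h2⟩
      exact ⟨(memDQ H x h2).1 h1, h2⟩
    · rintro ⟨h1, h2⟩
      exact ⟨(memDQ H x h2).2 h1, h2⟩
  have subR : ∀ H : Finset ι, H ∩ Q ⊆ symmDiff H P ∩ R := by
    intro H x hx
    rw [mem_inter] at hx ⊢
    exact ⟨(memDQ H x hx.2).2 hx.1, hQR hx.2⟩
  -- the hull letter `b₀`
  obtain ⟨b₀, hb₀P, hb₀⟩ : ∃ b₀ ∈ P, C'.Hull R b₀ := by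
    have h1 : symmDiff ∅ P ∈ C'.caps := hC' ∅ C.empty_mem
    have h2 : symmDiff (∅ : Finset ι) P = P := by
      ext x
      rw [memD]
      simp
    rw [h2] at h1
    exact Hull.of_step h1 ⟨b, mem_inter.2 ⟨hbP, hbR⟩⟩
  have hb₀Q : b₀ ∉ Q := fun h => hPQ b₀ h hb₀P
  have hb₀b : b₀ = b ∨ b₀ = b' := by
    rcases (memR b₀).1 hb₀.mem with h | h
    · exact absurd h hb₀Q
    · exact h.1
  -- demands
  have h3 : ∀ H ∈ Rel, ∀ z ∈ R, z ∈ symmDiff H P → z ∉ Q → (H ∩ Q).card + 1 ≤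
      (symmDiff H P ∩ R).card := by
    intro H hH z hzR hzD hzQ
    have h1 : insert z (H ∩ Q) ⊆ symmDiff H P ∩ R := by
      intro x hx
      rcases mem_insert.1 hx with rfl | hx
      · exact mem_inter.2 ⟨hzD, hzR⟩
      · exact subR H hx
    have h2 := card_le_card h1
    rwa [card_insert_of_notMem (fun h => hzQ (mem_inter.1 h).2)] at h2
  set Dem : Set (Finset ι) := {D | ∃ H ∈ Rel, D = symmDiff H P} with hDem
  set Exc : Set (Finset ι) :=
    {D | ∃ H ∈ Rel, D = symmDiff H P ∧ b ∈ H ∧ b' ∈ H ∧ (H ∩ Q).card = 2} with hExc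
  have hsub : Dem ⊆ C'.caps := by
    rintro D ⟨H, hH, rfl⟩
    exact hC' H (hs.sub hH)
  have two : ∀ D ∈ Dem, 2 ≤ (D ∩ R).card := by
    rintro D ⟨H, hH, rfl⟩
    by_cases hb : b ∈ H
    · have h1 := hs.inv1 H hH (Or.inl hb)
      have h2 := card_le_card (subR H)
      omega
    · have h1 := hs.inv0 H hH
      have h2 := h3 H hH b hbR ((memDP H b hbP).2 hb) hs.nb
      omega
  have two' : ∀ D ∈ Dem, b₀ ∉ D → 2 ≤ (D ∩ Q).card := by
    rintro D ⟨H, hH, rfl⟩ hb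
    rw [interQ]
    have h1 : b₀ ∈ H := by
      by_contra h
      exact hb ((memDP H b₀ hb₀P).2 h)
    have h2 : b ∈ H ∨ b' ∈ H := by
      rcases hb₀b with h | h
      · exact Or.inl (h ▸ h1)
      · exact Or.inr (h ▸ h1)
    have := hs.inv1 H hH h2
    omega
  obtain ⟨N, hNR, hcov, hN⟩ := pole_split (C := C') (R := R) (Q := Q) (Dem := Dem) (Exc := Exc)
    hQR hsub two hb₀ two' (by
      rintro D ⟨H, hH, rfl, hbH, hb'H, hcard⟩
      have hb₀H : b₀ ∈ H := by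
        rcases hb₀b with h | h
        · exact h ▸ hbH
        · exact h ▸ hb'H
      refine ⟨hC' H (hs.sub hH), fun h => (memDP H b₀ hb₀P).1 h hb₀H, ?_⟩
      obtain ⟨x, y, hxy, hHxy⟩ := card_eq_two.1 hcard
      have h1 : ∀ z, z ∈ H ∩ Q ↔ z = x ∨ z = y := fun z => by
        rw [hHxy, mem_insert, mem_singleton]
      obtain ⟨G, hG, g1, g2, g3⟩ := hs.low H hH hbH hb'H (by omega)
      refine ⟨x, y, hxy, ?_, (mem_inter.1 ((h1 x).2 (Or.inl rfl))).2,
        (mem_inter.1 ((h1 y).2 (Or.inr rfl))).2, symmDiff G P, hC' G (hs.sub hG), ?_, ?_⟩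
      · ext z
        rw [mem_inter, mem_insert, mem_singleton, ← h1, mem_inter]
        constructor
        · rintro ⟨k1, k2⟩
          rcases (memR z).1 k2 with k3 | ⟨k3, k4⟩
          · exact ⟨(memDQ H z k3).1 k1, k3⟩
          · exfalso
            apply (memDP H z k4).1 k1
            rcases k3 with k3 | k3
            · exact k3 ▸ hbH
            · exact k3 ▸ hb'H
        · rintro ⟨k1, k2⟩
          exact ⟨(memDQ H z k2).2 k1, hQR k2⟩
      · refine (memDP G b₀ hb₀P).2 ?_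
        rcases hb₀b with h | h
        · exact h ▸ g1
        · exact h ▸ g2
      · rw [interQ, g3, hHxy])
  refine ⟨fun x => if x ∈ N then 0 else 1, fun H hH j => ?_⟩
  have hDH : symmDiff H P ∈ Dem := ⟨H, hH, rfl⟩
  have hj : j = 0 ∨ j = 1 := by
    rcases j with ⟨j, hj⟩
    have : j = 0 ∨ j = 1 := by omega
    rcases this with rfl | rfl
    · exact Or.inl rfl
    · exact Or.inr rfl
  rcases hj with rfl | rfl
  · obtain ⟨x, hx⟩ := hcov _ hDH
    rw [mem_inter] at hx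
    refine ⟨x, if_pos hx.2, ?_⟩
    rcases (memR x).1 (hNR hx.2) with h1 | ⟨h1, h2⟩
    · exact Or.inl ⟨h1, (memDQ H x h1).1 hx.1⟩
    · refine Or.inr ⟨?_, (memDP H x h2).1 hx.1⟩
      rw [mem_insert, mem_singleton]
      exact h1
  · by_contra hcon
    have hall : ∀ y, ((y ∈ Q ∧ y ∈ H) ∨ (y ∈ ({b, b'} : Finset ι) ∧ y ∉ H)) → y ∈ N := by
      intro y hy
      by_contra hyN
      exact hcon ⟨y, if_neg hyN, hy⟩
    have hDN : symmDiff H P ∩ R ⊆ N := by
      intro x hx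
      rw [mem_inter] at hx
      apply hall
      rcases (memR x).1 hx.2 with h1 | ⟨h1, h2⟩
      · exact Or.inl ⟨h1, (memDQ H x h1).1 hx.1⟩
      · refine Or.inr ⟨?_, (memDP H x h2).1 hx.1⟩
        rw [mem_insert, mem_singleton]
        exact h1
    obtain ⟨hc2, hnE⟩ := hN _ hDH hDN
    by_cases hb : b ∈ H
    · by_cases hb' : b' ∈ H
      · apply hnE
        refine ⟨H, hH, rfl, hb, hb', ?_⟩
        have h1 := hs.inv1 H hH (Or.inl hb)
        have h2 := card_le_card (subR H)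
        omega
      · have h1 : b' ∈ N := hall b' (Or.inr ⟨by simp, hb'⟩)
        have h2 := (memR b').1 (hNR h1)
        rcases h2 with h2 | ⟨-, h2⟩
        · exact hs.nb' h2
        have h4 := h3 H hH b' (hNR h1) ((memDP H b' h2).2 hb') hs.nb'
        have h5 := hs.inv1 H hH (Or.inl hb)
        omega
    · by_cases hb' : b' ∈ H
      · have h4 := h3 H hH b hbR ((memDP H b hbP).2 hb) hs.nb
        have h5 := hs.inv1 H hH (Or.inr hb')
        omega
      · have h1 : b' ∈ N := hall b' (Or.inr ⟨by simp, hb'⟩)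
        have h2 := (memR b').1 (hNR h1)
        rcases h2 with h2 | ⟨-, h2⟩
        · exact hs.nb' h2
        obtain ⟨x, hx⟩ := card_pos.1 (by have := hs.inv0 H hH; omega : 0 < (H ∩ Q).card)
        rw [mem_inter] at hx
        have k1 : ({b, b', x} : Finset ι) ⊆ symmDiff H P ∩ R := by
          intro z hz
          rw [mem_insert, mem_insert, mem_singleton] at hz
          rcases hz with rfl | rfl | rfl
          · exact mem_inter.2 ⟨(memDP H _ hbP).2 hb, hbR⟩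
          · exact mem_inter.2 ⟨(memDP H _ h2).2 hb', hNR h1⟩
          · exact subR H (mem_inter.2 hx)
        have k2 := card_le_card k1
        have k3 : b ≠ x := fun h => hs.nb (h ▸ hx.2)
        have k4 : b' ≠ x := fun h => hs.nb' (h ▸ hx.2)
        have k5 : ({b, b', x} : Finset ι).card = 3 := by
          rw [card_insert_of_notMem, card_pair k4]
          rw [mem_insert, mem_singleton]
          rintro (h | h)
          · exact hs.ne h
          · exact k3 h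
        omega

end CapSys

/-- some cap contains a blue and no red -/
theorem Sys.Circ.final_pole [Fintype ι] {S : Sys ι} {F : ι → Bool} {l : List (ι × Bool)}
    (h : S.Circ F l) (hc : S.Complete) {O : ι → Bool} {b b' : ι} (C : CapSys ι)
    (hC : ∀ H : Finset ι, H ∈ C.caps ↔ ∃ X ∈ S.T, ∀ i, i ∈ H ↔ X i ≠ O i) {Q : Finset ι}
    {Rel : Set (Finset ι)} (hs : C.Stage b b' Q Rel 0) (P : Finset ι) (hP : P ∈ C.caps)
    (hbP : b ∈ P ∨ b' ∈ P) (hPQ : P ∩ Q = ∅) :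
    ∃ c : ι → Fin 2, ∀ H ∈ Rel, CapSys.Poly Q {b, b'} c H := by
  classical
  obtain ⟨X₀, hX₀, hX₀P⟩ := (hC P).1 hP
  obtain ⟨C', hC'⟩ := h.exists_capSys hc ⟨b⟩ hX₀
  have hPQ' : ∀ x ∈ Q, x ∉ P := by
    intro x hx hxP
    have : x ∈ P ∩ Q := mem_inter.2 ⟨hxP, hx⟩
    rw [hPQ] at this
    simp at this
  have key : ∀ H ∈ C.caps, symmDiff H P ∈ C'.caps := by
    intro H hH
    obtain ⟨X, hX, hXH⟩ := (hC H).1 hH
    refine (hC' _).2 ⟨X, hX, fun i => ?_⟩
    rw [mem_symmDiff, hXH, hX₀P]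
    cases X i <;> cases O i <;> cases X₀ i <;> simp
  rcases hbP with hbP | hbP
  · exact CapSys.pole_final hs hbP hPQ' key
  · obtain ⟨c, hc⟩ := CapSys.pole_final hs.swap hbP hPQ' key
    refine ⟨c, fun H hH => ?_⟩
    rw [pair_comm]
    exact hc H hH

end PHP
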