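import Mathlib
import Pool.Agent.PHP.CapMainOf
import Pool.Agent.PHP.CapLinear
import Pool.Agent.PHP.CapPole

/-!
# Some point is covered exactly twice: `k` classes for cells of depth at least `2 * k - 1` (problem MP_1180db_co)
-/

namespace PHP

open Finset

/-- A complete system with a cell `O` that has exactly two members: every family of cells with at least `2 * k - 1`
members has a colouring by `k` colours in which all colours occur in all its cells. -/
theorem Sys.Circ.split_two {ι : Type} [Fintype ι] [DecidableEq ι] {S : Sys ι} {F : ι → Bool}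
    {l : List (ι × Bool)} (h : S.Circ F l) (hc : S.Complete) {k : ℕ} (hk : 1 ≤ k) {O : ι → Bool}
    (hO : O ∈ S.T) (hd : dep O = 2) (T' : Set (ι → Bool)) (hT : T' ⊆ S.T)
    (hcov : ∀ X ∈ T', 2 * k - 1 ≤ dep X) :
    ∃ c : ι → Fin k, ∀ X ∈ T', ∀ j, ∃ i, c i = j ∧ X i = true := by
  refine h.split_two_of hc hk hO hd T' hT hcov fun b b' _ C hC Q Rel hs => ?_
  by_cases hP : ∃ P ∈ C.caps, (b ∈ P ∨ b' ∈ P) ∧ P ∩ Q = ∅
  · obtain ⟨P, hP, hbP, hPQ⟩ := hP
    exact h.final_pole hc C hC hs P hP hbP hPQ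
  · refine hs.final_linear (fun P hPc hb => ?_) (fun P hPc hb => ?_)
    · rw [nonempty_iff_ne_empty]
      exact fun h1 => hP ⟨P, hPc, Or.inl hb, h1⟩
    · rw [nonempty_iff_ne_empty]
      exact fun h1 => hP ⟨P, hPc, Or.inr hb, h1⟩

end PHP
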