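import Mathlib
import Pool.Agent.PHP.MainD

/-!
# From depth two to depth `d ≥ 2`: `2k-3+d` suffices

`SplitTwo` is the theorem for a cell of depth exactly two. If some cell of the completed system has depth at most two
it is used (or `mainD_aux` for depth at most one); otherwise a covering triple is removed.
-/

namespace PHP

open Finset

/-- the theorem for a cell of depth two (proved in the files `Cap*`) -/
def SplitTwo : Prop :=
  ∀ (k : ℕ), 1 ≤ k → ∀ (ι : Type) [Fintype ι] [DecidableEq ι] (S : Sys ι) (F : ι → Bool)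
    (l : List (ι × Bool)), S.Circ F l → S.Complete → ∀ O ∈ S.T, dep O = 2 →
    ∀ T' : Set (ι → Bool), T' ⊆ S.T → (∀ X ∈ T', 2 * k ≤ dep X + 1) →
    ∃ c : ι → Fin k, ∀ X ∈ T', ∀ j, ∃ i, c i = j ∧ X i = true

theorem mainE_le_two (H : SplitTwo) {k : ℕ} (hk : 1 ≤ k) {ι : Type} [Fintype ι] [DecidableEq ι]
    {S : Sys ι} {F : ι → Bool} {l : List (ι × Bool)} (h : S.Circ F l) (hc : S.Complete)
    {O : ι → Bool} (hO : O ∈ S.T) (hd : dep O ≤ 2) (T' : Set (ι → Bool)) (hT : T' ⊆ S.T)
    (hcov : ∀ X ∈ T', 2 * k ≤ dep X + 1) :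
    ∃ c : ι → Fin k, ∀ X ∈ T', ∀ j, ∃ i, c i = j ∧ X i = true := by
  rcases Nat.lt_or_ge (dep O) 2 with h1 | h1
  · exact mainD_aux k hk ι S F l h 1 le_rfl O hO (by omega) T' hT (fun X hX => by
      have := hcov X hX
      omega)
  · exact H k hk ι S F l h hc O hO (by omega) T' hT hcov

theorem mainE_aux (H : SplitTwo) : ∀ (k : ℕ) (_ : 1 ≤ k) (ι : Type) [Fintype ι] [DecidableEq ι]
    (S : Sys ι) (F : ι → Bool) (l : List (ι × Bool)), S.Circ F l →
    ∀ (d : ℕ) (_ : 2 ≤ d) (O : ι → Bool), O ∈ S.T → dep O ≤ d →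
    ∀ (T' : Set (ι → Bool)), T' ⊆ S.T → (∀ X ∈ T', 2 * k + d ≤ dep X + 3) →
    ∃ c : ι → Fin k, ∀ X ∈ T', ∀ j, ∃ i, c i = j ∧ X i = true := by
  intro k hk
  induction k, hk using Nat.le_induction with
  | base =>
    intro ι _ _ S F l h d hd O hO hOd T' hT hcov
    refine ⟨fun _ => 0, fun X hX j => ?_⟩
    have h1 := hcov X hX
    have h5 : 0 < dep X := by omega
    unfold dep at h5
    obtain ⟨i, hi⟩ := card_pos.mp h5
    rw [mem_filter] at hi
    exact ⟨i, Subsingleton.elim _ _, hi.2⟩
  | succ k hk ih =>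
    intro ι _ _ S F l h d hd O hO hOd T' hT hcov
    obtain ⟨S', F', l', h', hTT, hc⟩ := h.exists_complete
    by_cases hle : ∃ X ∈ S'.T, dep X ≤ 2
    · obtain ⟨O', hO', hO'd⟩ := hle
      exact mainE_le_two H (by omega) h' hc hO' hO'd T' (fun X hX => hTT (hT hX)) (fun X hX => by
        have := hcov X hX
        omega)
    · push Not at hle
      have hO2 := hle O (hTT hO)
      obtain ⟨z, hz, hzm⟩ := main_exists_min (T := S'.T) ⟨O, hTT hO⟩
      have hz2 := hle z hz
      obtain ⟨a, b, c, -, -, -, hcv, -⟩ :=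
        h'.exists_covering hc (d := dep z) (by omega) hzm hz rfl
      have hhit : ∀ X ∈ S'.T, 1 ≤ hit {a, b, c} X := by
        intro X hX
        rcases hcv X hX with h1 | h1 | h1
        · exact main_one_le_hit (by simp) h1
        · exact main_one_le_hit (by simp) h1
        · exact main_one_le_hit (by simp) h1
      obtain ⟨S'', l'', h'', hT'', -⟩ :=
        h'.comap (Function.Embedding.subtype (fun i => i ∉ ({a, b, c} : Finset ι)))
      obtain ⟨cc, hcc⟩ := ih {i // i ∉ ({a, b, c} : Finset ι)} S'' _ l'' h'' (d-1) (by omega)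
        (O ∘ (Function.Embedding.subtype (fun i => i ∉ ({a, b, c} : Finset ι))))
        (by rw [hT'']; exact ⟨O, hTT hO, rfl⟩)
        (by
          have h1 := main_dep_compl {a, b, c} O
          have h2 := hhit O (hTT hO)
          omega)
        ((fun X : ι → Bool =>
          X ∘ (Function.Embedding.subtype (fun i => i ∉ ({a, b, c} : Finset ι)))) '' T')
        (by
          rintro _ ⟨X, hX, rfl⟩
          rw [hT'']
          exact ⟨X, hTT (hT hX), rfl⟩)
        (by
          rintro _ ⟨X, hX, rfl⟩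
          have h1 := hcov X hX
          have h3 := main_hit_le_three X a b c
          have h4 := main_dep_compl {a, b, c} X
          simp only
          omega)
      exact mainD_colour {a, b, c} T' (fun X hX => hhit X (hTT (hT hX))) cc hcc

end PHP
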