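import Mathlib
import Pool.Agent.PHP.Defs
import Pool.Agent.PHP.SysBasic

/-!
# Completion without lowering the minimal depth

`joinW` is `Sys.Circ.join` (file `SysJoin.lean`, with the same proof) with the list of the new
cells: only `N = Function.update F f.1 (!(F f.1))`. `exists_complete_deep`: if no two
pseudohalfplanes cover the plane then the completion does not lower the minimal depth: in a step
the new cell `N` has the missing pattern of the pair `{e.1, f.1}`, which is not `(false, false)`,
so it has one element more than one of its two neighbours `F` and `F₂`.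
-/

namespace PHP

open Finset

variable {ι κ : Type} [DecidableEq ι] [DecidableEq κ]

omit [DecidableEq ι] in
private theorem sj_time [Fintype ι] (g : ι → ℝ) (ω : Bool) :
    ∃ t : ℝ, (ω = true → ∀ k, g k < t) ∧ (ω = false → ∀ k, t < g k) := by
  have hf : (Set.range g).Finite := Set.finite_range g
  cases ω with
  | true =>
    obtain ⟨B, hB⟩ := hf.bddAbove
    refine ⟨B + 1, fun _ k => ?_, fun h => absurd h (by simp)⟩
    have := hB ⟨k, rfl⟩
    linarith
  | false =>
    obtain ⟨B, hB⟩ := hf.bddBelow
    refine ⟨B - 1, fun h => absurd h (by simp), fun _ k => ?_⟩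
    have := hB ⟨k, rfl⟩
    linarith

private theorem sj_walk_congr {S S' : Sys ι} {l : List (ι × Bool)} :
    ∀ {F : ι → Bool}, (∀ e ∈ l, ∀ k, S'.v e.1 e.2 k = S.v e.1 e.2 k) → S.Walk F l →
      S'.Walk F l := by
  induction l with
  | nil => intro F _ _; trivial
  | cons e l ih =>
    intro F hv h
    obtain ⟨h1, h2⟩ := h
    refine ⟨fun j hj => ?_, ih (fun e' he' => hv e' (List.mem_cons_of_mem _ he')) h2⟩
    rw [hv e List.mem_cons_self]
    exact h1 j hj

omit [DecidableEq ι] in
private theorem sj_ncr (S : Sys ι) {a b : ι} (h : a ≠ b) (hn : ¬ S.cr a b) (ω ω' : Bool) :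
    S.v a ω b = S.v a ω' b := by
  have := S.v_ncr h hn
  cases ω <;> cases ω' <;> simp [this]

omit [DecidableEq ι] in
private theorem sj_cr (S : Sys ι) {a b : ι} (h : S.cr a b) {ω ω' : Bool} (hω : ω ≠ ω') :
    S.v a ω b = !(S.v a ω' b) := by
  have := S.v_cr h
  cases ω <;> cases ω' <;> simp_all

/-- Adding the crossing of two consecutive ends of lines that do not cross. -/
theorem Sys.Circ.joinW [Fintype ι] {S : Sys ι} {F : ι → Bool} {e f : ι × Bool}
    {r : List (ι × Bool)} (h : S.Circ F (e :: f :: r)) (hef : e.1 ≠ f.1) (hn : ¬ S.cr e.1 f.1) :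
    ∃ S' : Sys ι, S'.Circ F (f :: e :: r) ∧ S.T ⊆ S'.T ∧
      (∀ a b, S'.cr a b ↔ (S.cr a b ∨ (a = e.1 ∧ b = f.1) ∨ (a = f.1 ∧ b = e.1))) ∧
      ∀ X ∈ S'.T, X ∈ S.T ∨ X = Function.update F f.1 (!(F f.1)) := by
  have hF0 : F ∈ S.T := h.mem_T (by simp)
  have hrot := h.rotate
  have hF2 : Function.update (Function.update F e.1 (!(F e.1))) f.1
      (!(Function.update F e.1 (!(F e.1)) f.1)) ∈ S.T := hrot.mem_T_flip
  obtain ⟨hw, hnd, hall⟩ := h
  obtain ⟨hw1, hw2, hw3⟩ := hw
  obtain ⟨i, ε⟩ := e
  obtain ⟨j, δ⟩ := f
  simp only at hef hn hF2 hw1 hw2 hw3 ⊢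
  have hji : j ≠ i := Ne.symm hef
  have hn' : ¬ S.cr j i := fun hh => hn (S.cr_symm hh)
  rw [Function.update_of_ne hji] at hF2 hw3
  -- facts about signs
  have vi : ∀ k, k ≠ i → F k = S.v i ε k := hw1
  have vj : ∀ k, k ≠ j → k ≠ i → F k = S.v j δ k := by
    intro k hk hk'
    have := hw2 k hk
    rwa [Function.update_of_ne hk'] at this
  have vji : S.v j δ i = !(F i) := by
    have := hw2 i hef
    rw [Function.update_self] at this
    exact this.symm
  have vij : S.v i ε j = F j := (vi j hji).symm
  obtain ⟨ti, hti1, hti2⟩ := sj_time (S.τ i) ε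
  obtain ⟨tj, htj1, htj2⟩ := sj_time (S.τ j) δ
  -- new data
  let N : ι → Bool := Function.update F j (!(F j))
  let cr' : ι → ι → Prop := fun a b => S.cr a b ∨ (a = i ∧ b = j) ∨ (a = j ∧ b = i)
  let τ' : ι → ι → ℝ := fun a b =>
    if a = i ∧ b = j then ti else if a = j ∧ b = i then tj else S.τ a b
  let v' : ι → Bool → ι → Bool := fun a ω b =>
    if (a = i ∧ b = j) ∧ ω = ε then !(S.v a ω b) else
      if (a = j ∧ b = i) ∧ ω = δ then !(S.v a ω b) else S.v a ω b
  have hNj : N j = !(F j) := Function.update_self _ _ _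
  have hNk : ∀ k, k ≠ j → N k = F k := fun k hk => Function.update_of_ne hk _ _
  have hold : ∀ a b, ¬ (a = i ∧ b = j) → ¬ (a = j ∧ b = i) →
      τ' a b = S.τ a b ∧ (∀ ω, v' a ω b = S.v a ω b) ∧ (cr' a b ↔ S.cr a b) := by
    intro a b h1 h2
    refine ⟨?_, fun ω => ?_, ?_⟩
    · simp only [τ', if_neg h1, if_neg h2]
    · simp only [v']
      rw [if_neg (fun hh => h1 hh.1), if_neg (fun hh => h2 hh.1)]
    · simp only [cr']
      constructor
      · rintro (hh | hh | hh)
        · exact hh
        · exact absurd hh h1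
        · exact absurd hh h2
      · exact Or.inl
  have hτij : τ' i j = ti := by simp [τ']
  have hτji : τ' j i = tj := by simp [τ', hji]
  have hcij : cr' i j := Or.inr (Or.inl ⟨rfl, rfl⟩)
  have hcji : cr' j i := Or.inr (Or.inr ⟨rfl, rfl⟩)
  have hvij : v' i ε j = !(F j) := by simp [v', vij]
  have hvij' : ∀ ω, ω ≠ ε → v' i ω j = F j := by
    intro ω hω
    have h1 : v' i ω j = S.v i ω j := by simp [v', hω, hef]
    rw [h1, ← vij]
    exact sj_ncr S hef hn _ _
  have hvji : v' j δ i = F i := by simp [v', vji, hji]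
  have hvji' : ∀ ω, ω ≠ δ → v' j ω i = !(F i) := by
    intro ω hω
    have h1 : v' j ω i = S.v j ω i := by simp [v', hω, hji]
    rw [h1, ← vji]
    exact sj_ncr S hji hn' _ _
  -- the extreme vector
  have hvi_all : ∀ k, k ≠ i → ¬ S.cr i k → ∀ ω, S.v i ω k = F k := by
    intro k hk hck ω
    rw [vi k hk]
    exact sj_ncr S (Ne.symm hk) hck _ _
  have hvj_all : ∀ k, k ≠ j → k ≠ i → ¬ S.cr j k → ∀ ω, S.v j ω k = F k := by
    intro k hk hki hck ω
    rw [vj k hk hki]
    exact sj_ncr S (Ne.symm hk) hck _ _
  -- the vectors along `i`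
  have vec_old : ∀ a t k, ¬ (a = i ∧ k = j) → ¬ (a = j ∧ k = i) →
      vecOf cr' τ' v' a t k = vecOf S.cr S.τ S.v a t k := by
    intro a t k h1 h2
    obtain ⟨g1, g2, g3⟩ := hold a k h1 h2
    simp only [vecOf]
    rw [g2, g2]
    by_cases hc : S.cr a k ∧ S.τ a k < t
    · rw [if_pos hc, if_pos ⟨g3.mpr hc.1, by rw [g1]; exact hc.2⟩]
    · rw [if_neg hc, if_neg (fun hh => hc ⟨g3.mp hh.1, by rw [← g1]; exact hh.2⟩)]
  have vec_i : ∀ t, (vecOf cr' τ' v' i t j = vecOf S.cr S.τ S.v i t j) ∨
      (vecOf cr' τ' v' i t j = !(F j) ∧ ∀ k, k ≠ i → k ≠ j → vecOf S.cr S.τ S.v i t k = F k) := by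
    intro t
    have hov : vecOf S.cr S.τ S.v i t j = F j := by
      simp only [vecOf]
      rw [if_neg (fun hh => hn hh.1)]
      exact hvi_all j hji hn _
    rw [hov]
    simp only [vecOf]
    rw [hτij]
    cases hε : ε with
    | true =>
      by_cases ht : ti < t
      · right
        rw [if_pos ⟨hcij, ht⟩]
        constructor
        · rw [hε] at hvij; exact hvij
        · intro k hk hkj
          by_cases hc : S.cr i k
          · rw [if_pos ⟨hc, lt_trans (hti1 hε k) ht⟩, vi k hk, hε]
          · rw [if_neg (fun hh => hc hh.1)]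
            exact hvi_all k hk hc _
      · left
        rw [if_neg (fun hh => ht hh.2)]
        exact hvij' false (by rw [hε]; simp)
    | false =>
      by_cases ht : ti < t
      · left
        rw [if_pos ⟨hcij, ht⟩]
        exact hvij' true (by rw [hε]; simp)
      · right
        rw [if_neg (fun hh => ht hh.2)]
        constructor
        · rw [hε] at hvij; exact hvij
        · intro k hk hkj
          rw [if_neg (fun hh => ht (lt_trans (hti2 hε k) hh.2)), vi k hk, hε]
  have vec_j : ∀ t, (vecOf cr' τ' v' j t i = vecOf S.cr S.τ S.v j t i) ∨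
      (vecOf cr' τ' v' j t i = F i ∧ ∀ k, k ≠ i → k ≠ j → vecOf S.cr S.τ S.v j t k = F k) := by
    intro t
    have hov : vecOf S.cr S.τ S.v j t i = !(F i) := by
      simp only [vecOf]
      rw [if_neg (fun hh => hn' hh.1), ← vji]
      exact sj_ncr S hji hn' _ _
    rw [hov]
    simp only [vecOf]
    rw [hτji]
    cases hδ : δ with
    | true =>
      by_cases ht : tj < t
      · right
        rw [if_pos ⟨hcji, ht⟩]
        constructor
        · rw [hδ] at hvji; exact hvji
        · intro k hk hkj
          by_cases hc : S.cr j k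
          · rw [if_pos ⟨hc, lt_trans (htj1 hδ k) ht⟩, vj k hkj hk, hδ]
          · rw [if_neg (fun hh => hc hh.1)]
            exact hvj_all k hkj hk hc _
      · left
        rw [if_neg (fun hh => ht hh.2)]
        exact hvji' false (by rw [hδ]; simp)
    | false =>
      by_cases ht : tj < t
      · left
        rw [if_pos ⟨hcji, ht⟩]
        exact hvji' true (by rw [hδ]; simp)
      · right
        rw [if_neg (fun hh => ht hh.2)]
        constructor
        · rw [hδ] at hvji; exact hvji
        · intro k hk hkj
          rw [if_neg (fun hh => ht (lt_trans (htj2 hδ k) hh.2)), vj k hkj hk, hδ]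
  let F2 : ι → Bool := Function.update (Function.update F i (!(F i))) j (!(F j))
  have hF2i : F2 i = !(F i) := by simp [F2, Function.update_of_ne hef]
  have hF2j : F2 j = !(F j) := by simp [F2]
  have hF2k : ∀ k, k ≠ i → k ≠ j → F2 k = F k := by
    intro k hk hkj
    simp [F2, Function.update_of_ne hk, Function.update_of_ne hkj]
  have hF2T : F2 ∈ S.T := hF2
  have hti : ∀ k, ti ≠ S.τ i k := by
    intro k
    rcases Bool.eq_false_or_eq_true ε with hε | hε
    · exact (hti1 hε k).ne'
    · exact (hti2 hε k).ne
  have htj : ∀ k, tj ≠ S.τ j k := by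
    intro k
    rcases Bool.eq_false_or_eq_true δ with hδ | hδ
    · exact (htj1 hδ k).ne'
    · exact (htj2 hδ k).ne
  -- triples
  have q12 : ∀ a b c, (∃ p q r : Bool, ∀ X : ι → Bool, (X ∈ S.T ∨ X = N) →
      ¬ (X a = p ∧ X b = q ∧ X c = r)) → (∃ p q r : Bool, ∀ X : ι → Bool, (X ∈ S.T ∨ X = N) →
      ¬ (X b = p ∧ X a = q ∧ X c = r)) := by
    rintro a b c ⟨p, q, r, hh⟩
    exact ⟨q, p, r, fun X hX hc => hh X hX ⟨hc.2.1, hc.1, hc.2.2⟩⟩
  have q23 : ∀ a b c, (∃ p q r : Bool, ∀ X : ι → Bool, (X ∈ S.T ∨ X = N) →
      ¬ (X a = p ∧ X b = q ∧ X c = r)) → (∃ p q r : Bool, ∀ X : ι → Bool, (X ∈ S.T ∨ X = N) →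
      ¬ (X a = p ∧ X c = q ∧ X b = r)) := by
    rintro a b c ⟨p, q, r, hh⟩
    exact ⟨p, r, q, fun X hX hc => hh X hX ⟨hc.1, hc.2.2, hc.2.1⟩⟩
  have qbase : ∀ k, k ≠ i → k ≠ j → (∃ p q r : Bool, ∀ X : ι → Bool, (X ∈ S.T ∨ X = N) →
      ¬ (X i = p ∧ X j = q ∧ X k = r)) := by
    intro k hk hkj
    refine ⟨!(S.v j true i), !(S.v i true j), !(N k), ?_⟩
    rintro X (hX | rfl) ⟨c1, c2, c3⟩
    · exact S.pair hef hn X hX ⟨c1, c2⟩
    · revert c3
      cases N k <;> simp
  have qoffj : ∀ a b c, a ≠ b → b ≠ c → a ≠ c → a ≠ j → b ≠ j → c ≠ j →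
      (∃ p q r : Bool, ∀ X : ι → Bool, (X ∈ S.T ∨ X = N) →
      ¬ (X a = p ∧ X b = q ∧ X c = r)) := by
    intro a b c hab hbc hac ha hb hc
    obtain ⟨p, q, r, hh⟩ := S.triple hab hbc hac
    refine ⟨p, q, r, ?_⟩
    rintro X (hX | rfl) ⟨c1, c2, c3⟩
    · exact hh X hX ⟨c1, c2, c3⟩
    · rw [hNk a ha] at c1
      rw [hNk b hb] at c2
      rw [hNk c hc] at c3
      exact hh F hF0 ⟨c1, c2, c3⟩
  have hN2 : ∀ k, k ≠ i → N k = F2 k := by
    intro k hk
    by_cases hkj : k = j
    · rw [hkj, hNj, hF2j]
    · rw [hNk k hkj, hF2k k hk hkj]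
  have qoffi : ∀ a b c, a ≠ b → b ≠ c → a ≠ c → a ≠ i → b ≠ i → c ≠ i →
      (∃ p q r : Bool, ∀ X : ι → Bool, (X ∈ S.T ∨ X = N) →
      ¬ (X a = p ∧ X b = q ∧ X c = r)) := by
    intro a b c hab hbc hac ha hb hc
    obtain ⟨p, q, r, hh⟩ := S.triple hab hbc hac
    refine ⟨p, q, r, ?_⟩
    rintro X (hX | rfl) ⟨c1, c2, c3⟩
    · exact hh X hX ⟨c1, c2, c3⟩
    · rw [hN2 a ha] at c1
      rw [hN2 b hb] at c2
      rw [hN2 c hc] at c3
      exact hh F2 hF2T ⟨c1, c2, c3⟩
  let S' : Sys ι :=
    { T := {X | X ∈ S.T ∨ X = N}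
      cr := cr'
      τ := τ'
      v := v'
      cr_symm := by
        rintro a b (hh | ⟨rfl, rfl⟩ | ⟨rfl, rfl⟩)
        · exact Or.inl (S.cr_symm hh)
        · exact hcji
        · exact hcij
      cr_irrefl := by
        rintro a (hh | ⟨rfl, hh⟩ | ⟨rfl, hh⟩)
        · exact S.cr_irrefl a hh
        · exact hef hh
        · exact hji hh
      τ_inj := by
        intro a b c hab hac hτ
        by_cases h1 : a = i ∧ b = j
        · obtain ⟨rfl, rfl⟩ := h1
          by_cases h3 : c = b
          · exact h3.symm
          · obtain ⟨g1, g2, g3⟩ := hold a c (fun hh => h3 hh.2) (fun hh => hef hh.1)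
            rw [hτij, g1] at hτ
            exact absurd hτ (hti c)
        · by_cases h2 : a = j ∧ b = i
          · obtain ⟨rfl, rfl⟩ := h2
            by_cases h3 : c = b
            · exact h3.symm
            · obtain ⟨g1, g2, g3⟩ := hold a c (fun hh => hji hh.1) (fun hh => h3 hh.2)
              rw [hτji, g1] at hτ
              exact absurd hτ (htj c)
          · obtain ⟨g1, g2, g3⟩ := hold a b h1 h2
            by_cases h3 : a = i ∧ c = j
            · obtain ⟨rfl, rfl⟩ := h3
              rw [hτij, g1] at hτ
              exact absurd hτ.symm (hti b)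
            · by_cases h4 : a = j ∧ c = i
              · obtain ⟨rfl, rfl⟩ := h4
                rw [hτji, g1] at hτ
                exact absurd hτ.symm (htj b)
              · obtain ⟨k1, k2, k3⟩ := hold a c h3 h4
                rw [g1, k1] at hτ
                exact S.τ_inj (g3.mp hab) (k3.mp hac) hτ
      v_cr := by
        intro a b hab
        by_cases h1 : a = i ∧ b = j
        · obtain ⟨rfl, rfl⟩ := h1
          rcases Bool.eq_false_or_eq_true ε with hε | hε
          · rw [hvij' false (by rw [hε]; simp)]
            rw [hε] at hvij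
            exact hvij
          · rw [hvij' true (by rw [hε]; simp)]
            rw [hε] at hvij
            rw [hvij, Bool.not_not]
        · by_cases h2 : a = j ∧ b = i
          · obtain ⟨rfl, rfl⟩ := h2
            rcases Bool.eq_false_or_eq_true δ with hδ | hδ
            · rw [hvji' false (by rw [hδ]; simp)]
              rw [hδ] at hvji
              rw [hvji, Bool.not_not]
            · rw [hvji' true (by rw [hδ]; simp)]
              rw [hδ] at hvji
              rw [hvji]
          · obtain ⟨g1, g2, g3⟩ := hold a b h1 h2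
            rw [g2, g2]
            exact S.v_cr (g3.mp hab)
      v_ncr := by
        intro a b hab hnc
        have h1 : ¬ (a = i ∧ b = j) := fun hh => hnc (Or.inr (Or.inl hh))
        have h2 : ¬ (a = j ∧ b = i) := fun hh => hnc (Or.inr (Or.inr hh))
        obtain ⟨g1, g2, g3⟩ := hold a b h1 h2
        rw [g2, g2]
        exact S.v_ncr hab (fun hh => hnc (g3.mpr hh))
      edge := by
        intro a t X hX
        by_cases ha : a = i
        · rw [ha] at hX
          rcases vec_i t with h1 | ⟨h1, h2⟩
          · left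
            refine S.edge i t X (fun k hk => ?_)
            by_cases hkj : k = j
            · rw [hkj, hX j hji, h1]
            · rw [hX k hk, vec_old i t k (fun hh => hkj hh.2) (fun hh => hef hh.1)]
          · have hXj : X j = !(F j) := by rw [hX j hji, h1]
            have hXk : ∀ k, k ≠ i → k ≠ j → X k = F k := by
              intro k hk hkj
              rw [hX k hk, vec_old i t k (fun hh => hkj hh.2) (fun hh => hef hh.1), h2 k hk hkj]
            by_cases hXi : X i = F i
            · right
              funext k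
              by_cases hkj : k = j
              · rw [hkj, hXj, hNj]
              · rw [hNk k hkj]
                by_cases hk : k = i
                · rw [hk, hXi]
                · exact hXk k hk hkj
            · left
              have : X = F2 := by
                funext k
                by_cases hkj : k = j
                · rw [hkj, hXj, hF2j]
                · by_cases hk : k = i
                  · rw [hk, hF2i]
                    revert hXi
                    cases X i <;> cases F i <;> simp
                  · rw [hXk k hk hkj, hF2k k hk hkj]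
              rw [this]
              exact hF2T
        · by_cases ha' : a = j
          · rw [ha'] at hX
            rcases vec_j t with h1 | ⟨h1, h2⟩
            · left
              refine S.edge j t X (fun k hk => ?_)
              by_cases hki : k = i
              · rw [hki, hX i hef, h1]
              · rw [hX k hk, vec_old j t k (fun hh => hji hh.1) (fun hh => hki hh.2)]
            · have hXi : X i = F i := by rw [hX i hef, h1]
              have hXk : ∀ k, k ≠ i → k ≠ j → X k = F k := by
                intro k hk hkj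
                rw [hX k hkj, vec_old j t k (fun hh => hji hh.1) (fun hh => hk hh.2), h2 k hk hkj]
              by_cases hXj : X j = F j
              · left
                have : X = F := by
                  funext k
                  by_cases hkj : k = j
                  · rw [hkj, hXj]
                  · by_cases hk : k = i
                    · rw [hk, hXi]
                    · exact hXk k hk hkj
                rw [this]
                exact hF0
              · right
                funext k
                by_cases hkj : k = j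
                · rw [hkj, hNj]
                  revert hXj
                  cases X j <;> cases F j <;> simp
                · rw [hNk k hkj]
                  by_cases hk : k = i
                  · rw [hk, hXi]
                  · exact hXk k hk hkj
          · left
            refine S.edge a t X (fun k hk => ?_)
            rw [hX k hk, vec_old a t k (fun hh => ha hh.1) (fun hh => ha' hh.1)]
      triple := by
        intro a b c hab hbc hac
        by_cases aj : a ≠ j ∧ b ≠ j ∧ c ≠ j
        · exact qoffj a b c hab hbc hac aj.1 aj.2.1 aj.2.2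
        by_cases ai : a ≠ i ∧ b ≠ i ∧ c ≠ i
        · exact qoffi a b c hab hbc hac ai.1 ai.2.1 ai.2.2
        have hj3 : a = j ∨ b = j ∨ c = j := by
          by_contra hh
          push Not at hh
          exact aj hh
        have hi3 : a = i ∨ b = i ∨ c = i := by
          by_contra hh
          push Not at hh
          exact ai hh
        rcases hi3 with rfl | rfl | rfl
        · rcases hj3 with hh | rfl | rfl
          · exact absurd hh hef
          · exact qbase c hac.symm hbc.symm
          · exact q23 _ _ _ (qbase b hab.symm hbc)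
        · rcases hj3 with rfl | hh | rfl
          · exact q12 _ _ _ (qbase c hbc.symm hac.symm)
          · exact absurd hh hef
          · exact q12 _ _ _ (q23 _ _ _ (qbase a hab hac))
        · rcases hj3 with rfl | rfl | hh
          · exact q23 _ _ _ (q12 _ _ _ (qbase b hbc hab.symm))
          · exact q12 _ _ _ (q23 _ _ _ (q12 _ _ _ (qbase a hac hab)))
          · exact absurd hh hef
      pair := by
        intro a b hab hnc X hX
        have h1 : ¬ (a = i ∧ b = j) := fun hh => hnc (Or.inr (Or.inl hh))
        have h2 : ¬ (a = j ∧ b = i) := fun hh => hnc (Or.inr (Or.inr hh))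
        obtain ⟨g1, g2, g3⟩ := hold a b h1 h2
        obtain ⟨k1, k2, k3⟩ := hold b a (fun hh => h2 ⟨hh.2, hh.1⟩) (fun hh => h1 ⟨hh.2, hh.1⟩)
        rw [g2, k2]
        have hp := S.pair hab (fun hh => hnc (g3.mpr hh))
        rcases hX with hX | hX
        · exact hp X hX
        · rw [hX]
          by_cases ha : a = j
          · have hb : b ≠ i := fun hh => h2 ⟨ha, hh⟩
            have ha' : a ≠ i := by rw [ha]; exact hji
            rw [hN2 a ha', hN2 b hb]
            exact hp F2 hF2T
          · by_cases hb : b = j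
            · have ha' : a ≠ i := fun hh => h1 ⟨hh, hb⟩
              have hb' : b ≠ i := by rw [hb]; exact hji
              rw [hN2 a ha', hN2 b hb']
              exact hp F2 hF2T
            · rw [hNk a ha, hNk b hb]
              exact hp F hF0 }
  refine ⟨S', ?_, fun X hX => Or.inl hX, fun a b => Iff.rfl, fun X hX => hX⟩
  have hnd1 := List.nodup_cons.mp hnd
  have hnd2 := List.nodup_cons.mp hnd1.2
  have hperm : List.Perm ((i, ε) :: (j, δ) :: r) ((j, δ) :: (i, ε) :: r) :=
    List.Perm.swap _ _ _
  refine ⟨⟨?_, ?_, ?_⟩, hperm.nodup_iff.mp hnd, fun e => hperm.mem_iff.mp (hall e)⟩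
  · intro k hk
    change F k = v' j δ k
    by_cases hki : k = i
    · rw [hki, hvji]
    · rw [(hold j k (fun hh => hji hh.1) (fun hh => hki hh.2)).2.1, vj k hk hki]
  · intro k hk
    change N k = v' i ε k
    by_cases hkj : k = j
    · rw [hkj, hvij, hNj]
    · rw [(hold i k (fun hh => hkj hh.2) (fun hh => hef hh.1)).2.1, hNk k hkj, vi k hk]
  · have hfin : Function.update N i (!(N i)) = F2 := by
      funext k
      by_cases hki : k = i
      · rw [hki, Function.update_self, hNk i hef, hF2i]
      · rw [Function.update_of_ne hki, hN2 k hki]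
    change S'.Walk (Function.update N i (!(N i))) r
    rw [hfin]
    refine sj_walk_congr (S := S) ?_ hw3
    intro e' he' k
    change v' e'.1 e'.2 k = S.v e'.1 e'.2 k
    have n1 : ¬ (e'.1 = i ∧ e'.2 = ε) := by
      rintro ⟨c1, c2⟩
      apply hnd1.1
      refine List.mem_cons_of_mem _ ?_
      have : e' = (i, ε) := Prod.ext c1 c2
      rw [← this]
      exact he'
    have n2 : ¬ (e'.1 = j ∧ e'.2 = δ) := by
      rintro ⟨c1, c2⟩
      apply hnd2.1
      have : e' = (j, δ) := Prod.ext c1 c2
      rw [← this]
      exact he'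
    simp only [v']
    rw [if_neg (fun hh => n1 ⟨hh.1.1, hh.2⟩), if_neg (fun hh => n2 ⟨hh.1.1, hh.2⟩)]

theorem joinW_dep_update_false [Fintype ι] {X : ι → Bool} {i : ι} (h : X i = false) :
    dep (Function.update X i true) = dep X + 1 := by
  unfold dep
  have : (univ.filter (fun k => Function.update X i true k = true)) =
      insert i (univ.filter (fun k => X k = true)) := by
    ext k
    by_cases hk : k = i
    · subst hk; simp
    · simp [hk]
  rw [this, card_insert_of_notMem (by simp [h])]

/-- If no pair covers the plane, the new cell is not shallower. -/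
theorem Sys.Circ.joinW_deep [Fintype ι] {S : Sys ι} {F : ι → Bool} {e f : ι × Bool}
    {r : List (ι × Bool)} (h : S.Circ F (e :: f :: r)) (hef : e.1 ≠ f.1) (hn : ¬ S.cr e.1 f.1)
    (hnc : ∃ X ∈ S.T, X e.1 = false ∧ X f.1 = false) {d : ℕ} (hd : ∀ X ∈ S.T, d ≤ dep X) :
    d ≤ dep (Function.update F f.1 (!(F f.1))) := by
  have hF0 : F ∈ S.T := h.mem_T (by simp)
  have hrot := h.rotate
  have hF2 : Function.update (Function.update F e.1 (!(F e.1))) f.1
      (!(Function.update F e.1 (!(F e.1)) f.1)) ∈ S.T := hrot.mem_T_flip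
  obtain ⟨hw, hnd, hall⟩ := h
  obtain ⟨hw1, hw2, hw3⟩ := hw
  have hji : f.1 ≠ e.1 := Ne.symm hef
  rw [Function.update_of_ne hji] at hF2
  have v1 : S.v e.1 e.2 f.1 = F f.1 := (hw1 _ hji).symm
  have v2 : S.v f.1 f.2 e.1 = !(F e.1) := by
    have := hw2 _ hef
    rw [Function.update_self] at this
    exact this.symm
  have w1 : S.v e.1 true f.1 = F f.1 := by rw [← v1]; exact sj_ncr S hef hn _ _
  have w2 : S.v f.1 true e.1 = !(F e.1) := by
    rw [← v2]; exact sj_ncr S hji (fun hh => hn (S.cr_symm hh)) _ _
  have hpair := S.pair hef hn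
  rw [w1, w2, Bool.not_not] at hpair
  by_cases hj : F f.1 = false
  · rw [hj, Bool.not_false, joinW_dep_update_false hj]
    have := hd F hF0
    omega
  · rw [Bool.not_eq_false] at hj
    by_cases hi : F e.1 = true
    · rw [hi, hj] at hF2
      have h1 := hd _ hF2
      have h2 : Function.update F f.1 (!(F f.1)) = Function.update
          (Function.update (Function.update F e.1 (!true)) f.1 (!true)) e.1 true := by
        rw [hj]
        funext k
        by_cases hk : k = e.1
        · subst hk
          rw [Function.update_self, Function.update_of_ne hef, hi]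
        · rw [Function.update_of_ne hk]
          by_cases hk' : k = f.1
          · subst hk'
            rw [Function.update_self, Function.update_self]
          · rw [Function.update_of_ne hk', Function.update_of_ne hk', Function.update_of_ne hk]
      rw [h2, joinW_dep_update_false (by
        rw [Function.update_of_ne hef, Function.update_self]; rfl)]
      omega
    · rw [Bool.not_eq_true] at hi
      obtain ⟨X, hX, hX1, hX2⟩ := hnc
      exact absurd ⟨by rw [hX1, hi], by rw [hX2, hj]; rfl⟩ (hpair X hX)

/-- If no two pseudohalfplanes cover the plane, completion does not lower the minimal depth. -/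
theorem Sys.Circ.exists_complete_deep [Fintype ι] {S : Sys ι} {F : ι → Bool}
    {l : List (ι × Bool)} (h : S.Circ F l)
    (hnc : ∀ i j, i ≠ j → ∃ X ∈ S.T, X i = false ∧ X j = false) {d : ℕ}
    (hd : ∀ X ∈ S.T, d ≤ dep X) :
    ∃ (S' : Sys ι) (F' : ι → Bool) (l' : List (ι × Bool)),
      S'.Circ F' l' ∧ S.T ⊆ S'.T ∧ S'.Complete ∧ ∀ X ∈ S'.T, d ≤ dep X := by
  classical
  have key : ∀ (n : ℕ) (S : Sys ι) (F : ι → Bool) (l : List (ι × Bool)), S.Circ F l →
      (∀ i j, i ≠ j → ∃ X ∈ S.T, X i = false ∧ X j = false) → (∀ X ∈ S.T, d ≤ dep X) →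
      ((univ : Finset (ι × ι)).filter (fun p => p.1 ≠ p.2 ∧ ¬ S.cr p.1 p.2)).card ≤ n →
      ∃ (S' : Sys ι) (F' : ι → Bool) (l' : List (ι × Bool)),
        S'.Circ F' l' ∧ S.T ⊆ S'.T ∧ S'.Complete ∧ ∀ X ∈ S'.T, d ≤ dep X := by
    intro n
    induction n with
    | zero =>
      intro S F l hl hnc hd hcard
      refine ⟨S, F, l, hl, le_refl _, ?_, hd⟩
      intro a b hab
      by_contra hc
      have : (a, b) ∈ (univ : Finset (ι × ι)).filter (fun p => p.1 ≠ p.2 ∧ ¬ S.cr p.1 p.2) := by
        simp [hab, hc]
      rw [Finset.card_eq_zero.mp (Nat.le_zero.mp hcard)] at this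
      exact absurd this (Finset.notMem_empty _)
    | succ n ih =>
      intro S F l hl hnc hd hcard
      by_cases hcomp : S.Complete
      · exact ⟨S, F, l, hl, le_refl _, hcomp, hd⟩
      · have : ∃ a b, a ≠ b ∧ ¬ S.cr a b := by
          by_contra hh
          push Not at hh
          exact hcomp (fun a b hab => hh a b hab)
        obtain ⟨a, b, hab, hn⟩ := this
        obtain ⟨F', e, f, r, hC, hef, hnef⟩ := hl.exists_adj hab hn
        obtain ⟨S1, hS1, hT, hcr, hnew⟩ := hC.joinW hef hnef
        have hdeep := hC.joinW_deep hef hnef (hnc _ _ hef) hd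
        have hlt : ((univ : Finset (ι × ι)).filter (fun p => p.1 ≠ p.2 ∧ ¬ S1.cr p.1 p.2)).card <
            ((univ : Finset (ι × ι)).filter (fun p => p.1 ≠ p.2 ∧ ¬ S.cr p.1 p.2)).card := by
          apply Finset.card_lt_card
          rw [Finset.ssubset_iff_of_subset]
          · refine ⟨(e.1, f.1), by simp [hef, hnef], ?_⟩
            intro hmem
            have := (Finset.mem_filter.mp hmem).2.2
            exact this ((hcr _ _).mpr (Or.inr (Or.inl ⟨rfl, rfl⟩)))
          · intro p hp
            rw [Finset.mem_filter] at hp ⊢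
            exact ⟨hp.1, hp.2.1, fun hh => hp.2.2 ((hcr _ _).mpr (Or.inl hh))⟩
        obtain ⟨S2, F2, l2, h1, h2, h3, h4⟩ := ih S1 _ _ hS1
          (fun i j hij => by
            obtain ⟨X, hX, hX'⟩ := hnc i j hij
            exact ⟨X, hT hX, hX'⟩)
          (fun X hX => by
            rcases hnew X hX with h | h
            · exact hd X h
            · rw [h]; exact hdeep) (by omega)
        exact ⟨S2, F2, l2, h1, hT.trans h2, h3, h4⟩
  exact key _ S F l h hnc hd (le_refl _)

end PHP
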