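import Mathlib
import Pool.Agent.PHP.MainD
import Pool.Agent.PHP.SysJoinW

/-!
# Coverings of the whole plane

If every cell has depth at least `2k-2`, every set of cells of depth at least `2k-1` can be
split into `k` coverings. Step: if two pseudohalfplanes cover the plane, remove them (loss at most
two). Otherwise the completed system has the same minimal depth `d` (`exists_complete_deep`), and
the covering triple of `exists_covering` has loss at most two on the cells of depth `≤ d + 1`.
-/

namespace PHP

open Finset

/-- Some `R` hits every cell and takes at most two elements of every cell whose depth is at most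
the minimal depth plus one. -/
theorem Sys.Circ.exists_loss_two {ι : Type} [Fintype ι] [DecidableEq ι] {S : Sys ι}
    {F : ι → Bool} {l : List (ι × Bool)} (h : S.Circ F l) {m : ℕ} (hm : 1 ≤ m)
    (hd : ∀ X ∈ S.T, m ≤ dep X) :
    ∃ R : Finset ι, ∀ X ∈ S.T, 1 ≤ hit R X ∧ (hit R X ≤ 2 ∨ (hit R X ≤ 3 ∧ m + 2 ≤ dep X)) := by
  by_cases hnc : ∀ i j, i ≠ j → ∃ X ∈ S.T, X i = false ∧ X j = false
  · obtain ⟨S', F', l', h', hTT, hc, hd'⟩ := h.exists_complete_deep hnc hd
    by_cases hne : S'.T.Nonempty
    swap
    · rw [Set.not_nonempty_iff_eq_empty] at hne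
      refine ⟨∅, fun X hX => ?_⟩
      have := hTT hX
      rw [hne] at this
      exact absurd this (by simp)
    obtain ⟨z, hz, hzm⟩ := main_exists_min hne
    have hz2 := hd' z hz
    obtain ⟨a, b, c, -, -, -, hcv, hdeep⟩ :=
      h'.exists_covering hc (d := dep z) (by omega) hzm hz rfl
    refine ⟨{a, b, c}, fun X hX => ⟨?_, ?_⟩⟩
    · rcases hcv X (hTT hX) with h1 | h1 | h1
      · exact main_one_le_hit (by simp) h1
      · exact main_one_le_hit (by simp) h1
      · exact main_one_le_hit (by simp) h1
    · by_cases hall : X a = true ∧ X b = true ∧ X c = true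
      · right
        have := hdeep X (hTT hX) hall.1 hall.2.1 hall.2.2
        exact ⟨main_hit_le_three X a b c, by omega⟩
      · left
        have := main_hit_three hall
        omega
  · push Not at hnc
    obtain ⟨i, j, hij, hcov⟩ := hnc
    refine ⟨{i, j}, fun X hX => ⟨?_, Or.inl ?_⟩⟩
    · by_cases h1 : X i = false
      · have h2 := hcov X hX h1
        exact main_one_le_hit (i := j) (by simp) (by simpa using h2)
      · exact main_one_le_hit (i := i) (by simp) (by simpa using h1)
    · unfold hit
      exact (card_filter_le _ _).trans card_le_two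

theorem mainW_aux : ∀ (k : ℕ) (_ : 1 ≤ k) (ι : Type) [Fintype ι] [DecidableEq ι]
    (S : Sys ι) (F : ι → Bool) (l : List (ι × Bool)), S.Circ F l →
    (∀ X ∈ S.T, 2 * k ≤ dep X + 2) →
    ∀ (T' : Set (ι → Bool)), T' ⊆ S.T → (∀ X ∈ T', 2 * k ≤ dep X + 1) →
    ∃ c : ι → Fin k, ∀ X ∈ T', ∀ j, ∃ i, c i = j ∧ X i = true := by
  intro k hk
  induction k, hk using Nat.le_induction with
  | base =>
    intro ι _ _ S F l h hd T' hT hcov
    refine ⟨fun _ => 0, fun X hX j => ?_⟩
    have h1 := hcov X hX
    have h5 : 0 < dep X := by omega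
    unfold dep at h5
    obtain ⟨i, hi⟩ := card_pos.mp h5
    rw [mem_filter] at hi
    exact ⟨i, Subsingleton.elim _ _, hi.2⟩
  | succ k hk ih =>
    intro ι _ _ S F l h hd T' hT hcov
    obtain ⟨R, hR⟩ := h.exists_loss_two (m := 2 * k) (by omega) (fun X hX => by
      have := hd X hX; omega)
    obtain ⟨S'', l'', h'', hT'', -⟩ :=
      h.comap (Function.Embedding.subtype (fun i => i ∉ R))
    obtain ⟨c, hc⟩ := ih {i // i ∉ R} S'' _ l'' h''
      (by
        intro Y hY
        rw [hT''] at hY
        obtain ⟨X, hX, rfl⟩ := hY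
        have h1 := hd X hX
        have h3 := (hR X hX).2
        have h4 := main_dep_compl R X
        omega)
      ((fun X : ι → Bool => X ∘ (Function.Embedding.subtype (fun i => i ∉ R))) '' T')
      (by
        rintro _ ⟨X, hX, rfl⟩
        rw [hT'']
        exact ⟨X, hT hX, rfl⟩)
      (by
        rintro _ ⟨X, hX, rfl⟩
        have h1 := hcov X hX
        have h3 := (hR X (hT hX)).2
        have h4 := main_dep_compl R X
        simp only
        omega)
    exact mainD_colour R T' (fun X hX => (hR X (hT hX)).1) c hc

end PHP
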