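import Mathlib
import Pool.Agent.PHP.SideTriple

/-!
# A covering triple that meets a given cell of minimal depth exactly once

`Sys.Circ.td_pole` (delete lines outside `O` as long as the minimal depth stays `d`; then a side `s` of
`O` lies in a cell of depth `d`, and `Sys.Circ.exists_side` applies to `s`).
`Sys.Circ.split_of_first`: if all cells have depth at least `2k-3` and there is a covering triple
whose triple intersection has depth at least `2k-1`, with at most one cell of depth `2k-1`, and which
meets every cell of depth `2k-3` at most once, then the cells of depth at least `2k-1` can be split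
into `k` coverings.
-/

set_option linter.unusedSectionVars false

namespace PHP

open Finset

theorem td_antipode {ι : Type} [Fintype ι] [DecidableEq ι] [Nonempty ι] {S : Sys ι} {F : ι → Bool}
    {l : List (ι × Bool)} (h : S.Circ F l) (hc : S.Complete) :
    F ∈ S.T ∧ (fun i => !(F i)) ∈ S.T := by
  obtain ⟨W, hW, -⟩ := h.exists_sweep hc inferInstance
  constructor
  · rw [← hW]
    refine ⟨0, 0, ?_⟩
    funext i
    unfold Sweep.cell
    simp
  · rw [← hW]
    refine ⟨0, Fintype.card ι, ?_⟩
    funext i
    unfold Sweep.cell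
    rw [decide_eq_true (W.lt 0 i)]
    simp

theorem td_dep_not {ι : Type} [Fintype ι] [DecidableEq ι] (X : ι → Bool) :
    dep X + dep (fun i => !(X i)) = Fintype.card ι := by
  unfold dep
  have : (univ.filter (fun i => (!(X i)) = true)) = univ.filter (fun i => ¬ X i = true) := by
    ext i
    simp
  rw [this, card_filter_add_card_filter_not]
  rfl

theorem td_hit_insert {ι : Type} [Fintype ι] [DecidableEq ι] (D : Finset ι) (X : ι → Bool) {x : ι}
    (hx : x ∉ D) : hit (insert x D) X = hit D X + (if X x = true then 1 else 0) := by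
  unfold hit
  rw [filter_insert]
  split_ifs with h
  · rw [card_insert_of_notMem]
    intro h1
    exact hx (mem_filter.mp h1).1
  · rfl

variable {ι : Type} [Fintype ι] [DecidableEq ι]

/-- `TD-POLE`: in a complete system of minimal depth `d ≥ 1` every cell `O` of depth `d` is met exactly
once by some covering triple whose triple intersection has depth at least `d + 2`. -/
theorem Sys.Circ.td_pole {S : Sys ι} {F : ι → Bool} {l : List (ι × Bool)}
    (h : S.Circ F l) (hc : S.Complete) {d : ℕ} (hd1 : 1 ≤ d) (hd : ∀ X ∈ S.T, d ≤ dep X)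
    {O : ι → Bool} (hO : O ∈ S.T) (hOd : dep O = d) :
    ∃ R : Finset ι, hit R O = 1 ∧
      ∀ X ∈ S.T, 1 ≤ hit R X ∧ (hit R X ≤ 2 ∨ (hit R X ≤ 3 ∧ d + 2 ≤ dep X)) := by
  classical
  -- a maximal set of deletable lines outside `O`
  set P : Finset ι → Prop := fun D => (∀ i ∈ D, O i = false) ∧ ∀ X ∈ S.T, d + hit D X ≤ dep X with hP
  have hP0 : P ∅ := ⟨fun i hi => absurd hi (notMem_empty i), fun X hX => by
    have := hd X hX
    unfold hit
    simpa using this⟩
  obtain ⟨D, hDP, hDmax⟩ := Finset.exists_max_image (univ.filter P) Finset.card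
    ⟨∅, by rw [mem_filter]; exact ⟨mem_univ _, hP0⟩⟩
  rw [mem_filter] at hDP
  obtain ⟨-, hDO, hDd⟩ := hDP
  have hcrit : ∀ x, x ∉ D → O x = false → ∃ X ∈ S.T, X x = true ∧ dep X = d + hit D X := by
    intro x hxD hxO
    by_contra hcon
    push Not at hcon
    have hins : P (insert x D) := by
      refine ⟨?_, ?_⟩
      · intro i hi
        rw [mem_insert] at hi
        rcases hi with rfl | hi
        · exact hxO
        · exact hDO i hi
      · intro X hX
        rw [td_hit_insert D X hxD]
        have h1 := hDd X hX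
        split_ifs with hXx
        · have h2 := hcon X hX hXx
          omega
        · omega
    have := hDmax (insert x D) (by rw [mem_filter]; exact ⟨mem_univ _, hins⟩)
    rw [card_insert_of_notMem hxD] at this
    omega
  obtain ⟨S', l', h', hT', hcr⟩ := h.comap (Function.Embedding.subtype (fun i => i ∉ D))
  set f : {i // i ∉ D} ↪ ι := Function.Embedding.subtype (fun i => i ∉ D) with hf
  have hdep : ∀ X : ι → Bool, dep (X ∘ f) + hit D X = dep X := fun X => main_dep_compl D X
  have hc' : S'.Complete := by
    intro i j hij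
    rw [hcr]
    exact hc _ _ (fun hh => hij (f.injective hh))
  have hd' : ∀ Y ∈ S'.T, d ≤ dep Y := by
    intro Y hY
    rw [hT'] at hY
    obtain ⟨X, hX, rfl⟩ := hY
    have h1 := hDd X hX
    have h2 := hdep X
    omega
  have hhitO : hit D O = 0 := by
    unfold hit
    rw [card_eq_zero, filter_eq_empty_iff]
    intro i hi
    rw [hDO i hi]
    simp
  have hO' : O ∘ f ∈ S'.T := by rw [hT']; exact ⟨O, hO, rfl⟩
  have hOd' : dep (O ∘ f) = d := by
    have := hdep O
    omega
  -- a line outside `O`
  have hex : ∃ x, x ∉ D ∧ O x = false := by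
    by_contra hcon
    push Not at hcon
    have hall : ∀ i : {i // i ∉ D}, (O ∘ f) i = true := by
      intro i
      have := hcon i.1 i.2
      simpa [hf] using this
    have hcard : Fintype.card {i // i ∉ D} = d := by
      rw [← hOd']
      unfold dep
      rw [filter_true_of_mem (fun i _ => hall i)]
      rfl
    have hne : Nonempty {i // i ∉ D} := by
      rw [← Fintype.card_pos_iff, hcard]
      omega
    obtain ⟨g1, g2⟩ := td_antipode h' hc'
    have e1 := hd' _ g1
    have e2 := hd' _ g2
    have e3 := td_dep_not (F ∘ f)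
    rw [hcard] at e3
    omega
  obtain ⟨x, hxD, hxO⟩ := hex
  obtain ⟨e, he, hex, hed⟩ := hcrit x hxD hxO
  have he' : e ∘ f ∈ S'.T := by rw [hT']; exact ⟨e, he, rfl⟩
  have hed' : dep (e ∘ f) = d := by
    have := hdep e
    omega
  have hne : O ∘ f ≠ e ∘ f := by
    intro hh
    have := congrFun hh ⟨x, hxD⟩
    simp only [Function.comp_apply, hf, Function.Embedding.subtype_apply] at this
    rw [hxO, hex] at this
    exact Bool.noConfusion this
  -- a side of `O` in direction of `e`
  obtain ⟨s, hs1, hs2, hs3⟩ : ∃ s, (O ∘ f) s = false ∧ (e ∘ f) s = true ∧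
      Function.update (O ∘ f) s true ∈ S'.T := by
    obtain ⟨W, hW, -⟩ := h'.exists_sweep hc' ⟨⟨x, hxD⟩⟩
    obtain ⟨s, hs, hs'⟩ := W.exists_step (F ∘ f) (X := O ∘ f) (Y := e ∘ f)
      (by rw [hW]; exact hO') (by rw [hW]; exact he') hne
    rw [hW] at hs'
    rcases hOs : (O ∘ f) s with _ | _
    · rcases hes : (e ∘ f) s with _ | _
      · rw [hOs, hes] at hs
        exact absurd rfl hs
      · rw [hes] at hs'
        exact ⟨s, hOs, hes, hs'⟩
    · rcases hes : (e ∘ f) s with _ | _
      · rw [hes] at hs'
        have h1 := hd' _ hs'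
        have h2 : dep (Function.update (O ∘ f) s false) < dep (O ∘ f) := by
          unfold dep
          apply card_lt_card
          rw [ssubset_iff_of_subset]
          · refine ⟨s, by rw [mem_filter]; exact ⟨mem_univ _, hOs⟩, ?_⟩
            rw [mem_filter, Function.update_self]
            simp
          · intro i hi
            rw [mem_filter] at hi ⊢
            refine ⟨mem_univ _, ?_⟩
            by_cases his : i = s
            · subst his
              exact hOs
            · have := hi.2
              rwa [Function.update_of_ne his] at this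
        omega
      · rw [hOs, hes] at hs
        exact absurd rfl hs
  obtain ⟨p, q, hpq, hps, hqs, h1, h2, h3⟩ := h'.exists_side hc' (s := s) (d := d)
    (fun X hX _ _ => hd' X hX) (z := e ∘ f) he' hed'.le hs2
  refine ⟨{f s, f p, f q}, ?_, ?_⟩
  · have g1 := h1 _ hO'
    have g3 := h3 _ hO' hs1 hs3 hOd'.le
    simp only [Function.comp_apply] at g1 g3 hs1
    rcases hp : O (f p) with _ | _
    · have hq : O (f q) = true := by
        rcases g1 with g1 | g1 | g1
        · rw [hs1] at g1; exact absurd g1 (by simp)
        · rw [hp] at g1; exact absurd g1 (by simp)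
        · exact g1
      unfold hit
      rw [card_eq_one]
      refine ⟨f q, ?_⟩
      ext i
      simp only [mem_filter, mem_insert, mem_singleton]
      constructor
      · rintro ⟨rfl | rfl | rfl, hi⟩
        · rw [hs1] at hi; exact absurd hi (by simp)
        · rw [hp] at hi; exact absurd hi (by simp)
        · rfl
      · rintro rfl
        exact ⟨Or.inr (Or.inr rfl), hq⟩
    · have hq : O (f q) = false := by
        rcases hq : O (f q) with _ | _
        · rfl
        · exact absurd ⟨hp, hq⟩ g3
      unfold hit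
      rw [card_eq_one]
      refine ⟨f p, ?_⟩
      ext i
      simp only [mem_filter, mem_insert, mem_singleton]
      constructor
      · rintro ⟨rfl | rfl | rfl, hi⟩
        · rw [hs1] at hi; exact absurd hi (by simp)
        · rfl
        · rw [hq] at hi; exact absurd hi (by simp)
      · rintro rfl
        exact ⟨Or.inr (Or.inl rfl), hp⟩
  · intro X hX
    have hX' : X ∘ f ∈ S'.T := by rw [hT']; exact ⟨X, hX, rfl⟩
    have g1 := h1 _ hX'
    simp only [Function.comp_apply] at g1
    refine ⟨?_, ?_⟩
    · rcases g1 with g1 | g1 | g1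
      · exact main_one_le_hit (by simp) g1
      · exact main_one_le_hit (by simp) g1
      · exact main_one_le_hit (by simp) g1
    · by_cases hall : X (f s) = true ∧ X (f p) = true ∧ X (f q) = true
      · right
        have g2 := h2 _ hX' hall.1 hall.2.1 hall.2.2
        have g4 := hdep X
        exact ⟨main_hit_le_three X _ _ _, by omega⟩
      · left
        exact main_hit_three hall

/-- Splitting from a first covering triple. -/
theorem Sys.Circ.split_of_first {j : ℕ} (hj : 1 ≤ j) {S : Sys ι} {F : ι → Bool}
    {l : List (ι × Bool)} (h : S.Circ F l) (hc : S.Complete)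
    (hd : ∀ X ∈ S.T, 2 * j + 1 ≤ dep X) {a b c : ι}
    (hcov : ∀ X ∈ S.T, X a = true ∨ X b = true ∨ X c = true)
    (hlf : ∀ X ∈ S.T, X a = true → X b = true → X c = true → 2 * j + 3 ≤ dep X)
    (hJ : ∀ X ∈ S.T, dep X = 2 * j + 1 → hit {a, b, c} X ≤ 1)
    (huniq : ∀ X ∈ S.T, ∀ Y ∈ S.T, X a = true → X b = true → X c = true → Y a = true →
      Y b = true → Y c = true → dep X = 2 * j + 3 → dep Y = 2 * j + 3 → X = Y)
    (T' : Set (ι → Bool)) (hT : T' ⊆ S.T) (hT' : ∀ X ∈ T', 2 * j + 3 ≤ dep X) :
    ∃ c : ι → Fin (j + 2), ∀ X ∈ T', ∀ i, ∃ v, c v = i ∧ X v = true := by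
  classical
  set R : Finset ι := {a, b, c} with hR
  have hhit1 : ∀ X ∈ S.T, 1 ≤ hit R X := by
    intro X hX
    rcases hcov X hX with h1 | h1 | h1
    · exact main_one_le_hit (by simp [hR]) h1
    · exact main_one_le_hit (by simp [hR]) h1
    · exact main_one_le_hit (by simp [hR]) h1
  have hhit3 : ∀ X ∈ S.T, hit R X ≤ 2 ∨ (hit R X ≤ 3 ∧ 2 * j + 3 ≤ dep X ∧ X a = true ∧
      X b = true ∧ X c = true) := by
    intro X hX
    by_cases hall : X a = true ∧ X b = true ∧ X c = true
    · right
      exact ⟨main_hit_le_three X a b c, hlf X hX hall.1 hall.2.1 hall.2.2, hall⟩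
    · left
      exact main_hit_three hall
  obtain ⟨S1, l1, h1, hT1, hcr1⟩ := h.comap (Function.Embedding.subtype (fun i => i ∉ R))
  set f : {i // i ∉ R} ↪ ι := Function.Embedding.subtype (fun i => i ∉ R) with hf
  have hdep : ∀ X : ι → Bool, dep (X ∘ f) + hit R X = dep X := fun X => main_dep_compl R X
  have hc1 : S1.Complete := by
    intro i j hij
    rw [hcr1]
    exact hc _ _ (fun hh => hij (f.injective hh))
  have hmin1 : ∀ Y ∈ S1.T, 2 * j ≤ dep Y := by
    intro Y hY
    rw [hT1] at hY
    obtain ⟨X, hX, rfl⟩ := hY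
    have g1 := hd X hX
    have g2 := hdep X
    have g3 := hhit3 X hX
    have g4 := hJ X hX
    by_cases hX1 : dep X = 2 * j + 1
    · have := g4 hX1
      omega
    · omega
  set T1 : Set ({i // i ∉ R} → Bool) := (fun X : ι → Bool => X ∘ f) '' T' with hT1'
  have hT1S : T1 ⊆ S1.T := by
    rintro _ ⟨X, hX, rfl⟩
    rw [hT1]
    exact ⟨X, hT hX, rfl⟩
  -- it is enough to colour the rest
  suffices hsuff : ∃ c : {i // i ∉ R} → Fin (j + 1), ∀ X ∈ T1, ∀ i, ∃ v, c v = i ∧ X v = true by
    obtain ⟨c, hc⟩ := hsuff
    exact mainD_colour R T' (fun X hX => hhit1 X (hT hX)) c hc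
  by_cases hE : ∃ E ∈ S.T, E a = true ∧ E b = true ∧ E c = true ∧ dep E = 2 * j + 3
  · obtain ⟨E, hE, hEa, hEb, hEc, hEd⟩ := hE
    have hEhit : hit R E ≤ 3 := main_hit_le_three E a b c
    by_cases hE2 : hit R E ≤ 2
    · -- degenerate triple: nothing is lost
      have hdem : ∀ Y ∈ T1, 2 * (j + 1) ≤ dep Y + 1 := by
        rintro _ ⟨X, hX, rfl⟩
        have g1 := hT' X hX
        have g2 := hdep X
        have g3 := hhit3 X (hT hX)
        by_cases hX3 : dep X = 2 * j + 3 ∧ X a = true ∧ X b = true ∧ X c = true
        · have := huniq X (hT hX) E hE hX3.2.1 hX3.2.2.1 hX3.2.2.2 hEa hEb hEc hX3.1 hEd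
          rw [this] at g2 g3 ⊢
          simp only
          omega
        · simp only
          rcases g3 with g3 | ⟨g3, g4, g5⟩
          · omega
          · have : dep X ≠ 2 * j + 3 := fun hh => hX3 ⟨hh, g5⟩
            omega
      exact mainW_aux (j + 1) (by omega) _ S1 _ l1 h1 (fun X hX => by
        have := hmin1 X hX; omega) T1 hT1S hdem
    · have hE3 : hit R E = 3 := by omega
      have hEd1 : dep (E ∘ f) = 2 * j := by
        have := hdep E
        omega
      have hE1 : E ∘ f ∈ S1.T := by rw [hT1]; exact ⟨E, hE, rfl⟩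
      obtain ⟨R2, hR2E, hR2⟩ := h1.td_pole hc1 (d := 2 * j) (by omega) hmin1 hE1 hEd1
      obtain ⟨S2, l2, h2, hT2, -⟩ :=
        h1.comap (Function.Embedding.subtype (fun i => i ∉ R2))
      obtain ⟨c, hc⟩ := mainW_aux j hj {i // i ∉ R2} S2 _ l2 h2
        (by
          intro Y hY
          rw [hT2] at hY
          obtain ⟨X, hX, rfl⟩ := hY
          have g1 := hmin1 X hX
          have g3 := (hR2 X hX).2
          have g4 := main_dep_compl R2 X
          omega)
        ((fun X : {i // i ∉ R} → Bool =>
          X ∘ (Function.Embedding.subtype (fun i => i ∉ R2))) '' T1)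
        (by
          rintro _ ⟨X, hX, rfl⟩
          rw [hT2]
          exact ⟨X, hT1S hX, rfl⟩)
        (by
          rintro _ ⟨_, ⟨X, hX, rfl⟩, rfl⟩
          have g1 := hT' X hX
          have g2 := hdep X
          have g3 := hhit3 X (hT hX)
          have g4 := main_dep_compl R2 (X ∘ f)
          have g5 := (hR2 (X ∘ f) (by rw [hT1]; exact ⟨X, hT hX, rfl⟩)).2
          simp only
          by_cases hX3 : dep X = 2 * j + 3 ∧ X a = true ∧ X b = true ∧ X c = true
          · have := huniq X (hT hX) E hE hX3.2.1 hX3.2.2.1 hX3.2.2.2 hEa hEb hEc hX3.1 hEd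
            subst this
            rw [hR2E] at g4
            omega
          · have hge : 2 * j + 1 ≤ dep (X ∘ f) := by
              rcases g3 with g3 | ⟨g3, g4', g5'⟩
              · omega
              · have : dep X ≠ 2 * j + 3 := fun hh => hX3 ⟨hh, g5'⟩
                omega
            omega)
      exact mainD_colour R2 T1 (fun X hX => (hR2 X (hT1S hX)).1) c hc
  · push Not at hE
    have hdem : ∀ Y ∈ T1, 2 * (j + 1) ≤ dep Y + 1 := by
      rintro _ ⟨X, hX, rfl⟩
      have g1 := hT' X hX
      have g2 := hdep X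
      have g3 := hhit3 X (hT hX)
      simp only
      rcases g3 with g3 | ⟨g3, g4, g5⟩
      · omega
      · have := hE X (hT hX) g5.1 g5.2.1 g5.2.2
        omega
    exact mainW_aux (j + 1) (by omega) _ S1 _ l1 h1 (fun X hX => by
      have := hmin1 X hX; omega) T1 hT1S hdem

end PHP
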