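import Mathlib
import Pool.Agent.PHP.TdPole
import Pool.Agent.PHP.CapMain
import Pool.Agent.PHP.MainE

/-!
# Two disjoint covering triples from one triple and one line (problem MP_1180db_co)

`Sys.StarPlus S j`: there are a covering triple `{a, b, c}` all of whose full cells have depth at least `2j+3` and a line
`s` outside it such that, after the deletion of the triple, (i) all cells just outside `s` have depth at least `2j`,
(ii) some cell in `s` has depth at most `2j`, (iii) every full cell of depth exactly `2j+3` is just outside `s`.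

`Sys.Circ.split_of_star`: then a second covering triple `{s, p, q}` can be removed such that the loss is at most four on
the cells of depth at most `2j+3`, at most five on those of depth `2j+4`. `splitW_aux`: the induction.
-/

set_option linter.unusedSectionVars false

namespace PHP

open Finset

variable {ι : Type} [Fintype ι] [DecidableEq ι]

/-- a covering triple all of whose full cells have depth at least `e` -/
def Sys.Triple (S : Sys ι) (e : ℕ) (a b c : ι) : Prop :=
  (∀ X ∈ S.T, X a = true ∨ X b = true ∨ X c = true) ∧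
    ∀ X ∈ S.T, X a = true → X b = true → X c = true → e ≤ dep X

/-- after the deletion of `R` the cell of `X` is just outside the line `s` -/
def Sys.Outside (S : Sys ι) (R : Finset ι) (s : ι) (X : ι → Bool) : Prop :=
  X s = false ∧ ∃ X' ∈ S.T, X' s = true ∧ ∀ i, i ∉ R → i ≠ s → X' i = X i

/-- condition (STAR+) -/
def Sys.StarPlus (S : Sys ι) (j : ℕ) : Prop :=
  ∃ a b c s : ι, S.Triple (2 * j + 3) a b c ∧ s ∉ ({a, b, c} : Finset ι) ∧
    (∀ X ∈ S.T, S.Outside {a, b, c} s X → 2 * j + hit {a, b, c} X ≤ dep X) ∧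
    (∃ X ∈ S.T, X s = true ∧ dep X ≤ 2 * j + hit {a, b, c} X) ∧
    ∀ X ∈ S.T, X a = true → X b = true → X c = true → dep X = 2 * j + 3 →
      S.Outside {a, b, c} s X

theorem Sys.Triple.one_le_hit {S : Sys ι} {e : ℕ} {a b c : ι} (h : S.Triple e a b c) {X : ι → Bool}
    (hX : X ∈ S.T) : 1 ≤ hit {a, b, c} X := by
  rcases h.1 X hX with h1 | h1 | h1
  · exact main_one_le_hit (by simp) h1
  · exact main_one_le_hit (by simp) h1
  · exact main_one_le_hit (by simp) h1

theorem Sys.Triple.hit_le {S : Sys ι} {e : ℕ} {a b c : ι} (h : S.Triple e a b c) {X : ι → Bool}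
    (hX : X ∈ S.T) : hit {a, b, c} X ≤ 2 ∨
      (hit {a, b, c} X ≤ 3 ∧ e ≤ dep X ∧ X a = true ∧ X b = true ∧ X c = true) := by
  by_cases hall : X a = true ∧ X b = true ∧ X c = true
  · right
    exact ⟨main_hit_le_three X a b c, h.2 X hX hall.1 hall.2.1 hall.2.2, hall⟩
  · left
    exact main_hit_three hall

/-- The double step. -/
theorem Sys.Circ.split_of_star {j : ℕ} (hj : 1 ≤ j) {S : Sys ι} {F : ι → Bool}
    {l : List (ι × Bool)} (h : S.Circ F l) (hc : S.Complete)
    (hd : ∀ X ∈ S.T, 2 * j + 1 ≤ dep X) (hs : S.StarPlus j)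
    (ih : ∀ (κ : Type) [Fintype κ] [DecidableEq κ] (S' : Sys κ) (F' : κ → Bool)
      (l' : List (κ × Bool)), S'.Circ F' l' → (∀ X ∈ S'.T, 2 * j ≤ dep X + 3) →
      ∀ (T' : Set (κ → Bool)), T' ⊆ S'.T → (∀ X ∈ T', 2 * j ≤ dep X + 1) →
      ∃ c : κ → Fin j, ∀ X ∈ T', ∀ i, ∃ v, c v = i ∧ X v = true)
    (T' : Set (ι → Bool)) (hT : T' ⊆ S.T) (hT' : ∀ X ∈ T', 2 * j + 3 ≤ dep X) :
    ∃ c : ι → Fin (j + 2), ∀ X ∈ T', ∀ i, ∃ v, c v = i ∧ X v = true := by
  classical
  obtain ⟨a, b, c, s, htr, hsR, hi, ⟨e, he, hes, hed⟩, hiii⟩ := hs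
  set R : Finset ι := {a, b, c} with hR
  obtain ⟨S1, l1, h1, hT1, hcr1⟩ := h.comap (Function.Embedding.subtype (fun i => i ∉ R))
  set f : {i // i ∉ R} ↪ ι := Function.Embedding.subtype (fun i => i ∉ R) with hf
  have hdep : ∀ X : ι → Bool, dep (X ∘ f) + hit R X = dep X := fun X => main_dep_compl R X
  have hc1 : S1.Complete := by
    intro i j hij
    rw [hcr1]
    exact hc _ _ (fun hh => hij (f.injective hh))
  set s1 : {i // i ∉ R} := ⟨s, hsR⟩ with hs1
  have hfs : f s1 = s := rfl
  -- cells just outside `s` in the two systems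
  have hout : ∀ X ∈ S.T, (X ∘ f) s1 = false → Function.update (X ∘ f) s1 true ∈ S1.T →
      S.Outside R s X := by
    intro X hX hXs hup
    refine ⟨hXs, ?_⟩
    rw [hT1] at hup
    obtain ⟨X', hX', hX'e⟩ := hup
    refine ⟨X', hX', ?_, ?_⟩
    · have := congrFun hX'e s1
      rw [Function.update_self] at this
      exact this.symm
    · intro i hiR his
      have := congrFun hX'e ⟨i, hiR⟩
      rw [Function.update_of_ne (by
        intro hh
        exact his (congrArg Subtype.val hh))] at this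
      exact this.symm
  have hout' : ∀ X ∈ S.T, S.Outside R s X →
      (X ∘ f) s1 = false ∧ Function.update (X ∘ f) s1 true ∈ S1.T := by
    rintro X hX ⟨hXs, X', hX', hX's, hag⟩
    refine ⟨hXs, ?_⟩
    rw [hT1]
    refine ⟨X', hX', ?_⟩
    funext i
    by_cases his : i = s1
    · subst his
      rw [Function.update_self]
      exact hX's.symm
    · rw [Function.update_of_ne his]
      exact (hag i.1 i.2 (fun hh => his (Subtype.ext hh))).symm
  obtain ⟨p, q, hpq, hps, hqs, g1, g2, g3⟩ := h1.exists_side hc1 (s := s1) (d := 2 * j)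
    (by
      intro Y hY hYs hYu
      rw [hT1] at hY
      obtain ⟨X, hX, rfl⟩ := hY
      have e1 := hi X hX (hout X hX hYs hYu)
      have e2 := hdep X
      omega)
    (z := e ∘ f) (by rw [hT1]; exact ⟨e, he, rfl⟩)
    (by have := hdep e; omega) hes
  set R2 : Finset {i // i ∉ R} := {s1, p, q} with hR2
  have htr2 : S1.Triple (2 * j + 2) s1 p q := ⟨g1, g2⟩
  obtain ⟨S2, l2, h2, hT2, -⟩ := h1.comap (Function.Embedding.subtype (fun i => i ∉ R2))
  set g : {i // i ∉ R2} ↪ {i // i ∉ R} := Function.Embedding.subtype (fun i => i ∉ R2) with hg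
  have hdep2 : ∀ Y : {i // i ∉ R} → Bool, dep (Y ∘ g) + hit R2 Y = dep Y :=
    fun Y => main_dep_compl R2 Y
  have hmem1 : ∀ X ∈ S.T, X ∘ f ∈ S1.T := fun X hX => by rw [hT1]; exact ⟨X, hX, rfl⟩
  -- an exact full cell is met once by the second triple
  have hex : ∀ X ∈ S.T, X a = true → X b = true → X c = true → dep X = 2 * j + 3 →
      hit R X = 3 → hit R2 (X ∘ f) ≤ 1 := by
    intro X hX ha hb hcc hd3 hh3
    obtain ⟨e1, e2⟩ := hout' X hX (hiii X hX ha hb hcc hd3)
    have e3 := hdep X
    have e4 := g3 (X ∘ f) (hmem1 X hX) e1 e2 (by omega)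
    rw [hR2]
    by_contra hcon
    push Not at hcon
    unfold hit at hcon
    obtain ⟨u, hu, v, hv, huv⟩ := one_lt_card.mp hcon
    rw [mem_filter] at hu hv
    simp only [mem_insert, mem_singleton] at hu hv
    have hus : u ≠ s1 := by
      rintro rfl
      rw [e1] at hu
      exact absurd hu.2 (by simp)
    have hvs : v ≠ s1 := by
      rintro rfl
      rw [e1] at hv
      exact absurd hv.2 (by simp)
    apply e4
    rcases hu.1 with hu1 | hu1 | hu1
    · exact absurd hu1 hus
    · rcases hv.1 with hv1 | hv1 | hv1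
      · exact absurd hv1 hvs
      · exact absurd (hu1.trans hv1.symm) huv
      · rw [← hu1, ← hv1]; exact ⟨hu.2, hv.2⟩
    · rcases hv.1 with hv1 | hv1 | hv1
      · exact absurd hv1 hvs
      · rw [← hu1, ← hv1]; exact ⟨hv.2, hu.2⟩
      · exact absurd (hu1.trans hv1.symm) huv
  -- the loss
  have hloss : ∀ X ∈ S.T, 2 * j ≤ dep ((X ∘ f) ∘ g) + 3 ∧
      (2 * j + 3 ≤ dep X → 2 * j ≤ dep ((X ∘ f) ∘ g) + 1) := by
    intro X hX
    have d0 := hd X hX
    have d1 := hdep X
    have d2 := hdep2 (X ∘ f)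
    have t1 := htr.hit_le hX
    have t2 := htr2.hit_le (hmem1 X hX)
    rw [← hR] at t1
    rw [← hR2] at t2
    rcases t1 with t1 | ⟨t1, t1', ta, tb, tc⟩
    · rcases t2 with t2 | ⟨t2, t2', -⟩
      · exact ⟨by omega, fun _ => by omega⟩
      · exact ⟨by omega, fun _ => by omega⟩
    · rcases t2 with t2 | ⟨t2, t2', -⟩
      · by_cases hd3 : dep X = 2 * j + 3
        · by_cases hh3 : hit R X = 3
          · have := hex X hX ta tb tc hd3 hh3
            exact ⟨by omega, fun _ => by omega⟩
          · exact ⟨by omega, fun _ => by omega⟩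
        · exact ⟨by omega, fun _ => by omega⟩
      · by_cases hd3 : dep X = 2 * j + 3
        · by_cases hh3 : hit R X = 3
          · have := hex X hX ta tb tc hd3 hh3
            exact ⟨by omega, fun _ => by omega⟩
          · exact ⟨by omega, fun _ => by omega⟩
        · exact ⟨by omega, fun _ => by omega⟩
  set T1 : Set ({i // i ∉ R} → Bool) := (fun X : ι → Bool => X ∘ f) '' T' with hT1'
  have hT1S : T1 ⊆ S1.T := by
    rintro _ ⟨X, hX, rfl⟩
    exact hmem1 X (hT hX)
  obtain ⟨cc, hcc⟩ := ih {i // i ∉ R2} S2 _ l2 h2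
    (by
      intro Y hY
      rw [hT2] at hY
      obtain ⟨Z, hZ, rfl⟩ := hY
      rw [hT1] at hZ
      obtain ⟨X, hX, rfl⟩ := hZ
      exact (hloss X hX).1)
    ((fun Y : {i // i ∉ R} → Bool => Y ∘ g) '' T1)
    (by
      rintro _ ⟨Y, hY, rfl⟩
      rw [hT2]
      exact ⟨Y, hT1S hY, rfl⟩)
    (by
      rintro _ ⟨_, ⟨X, hX, rfl⟩, rfl⟩
      exact (hloss X (hT hX)).2 (hT' X hX))
  obtain ⟨c2, hc2⟩ := mainD_colour R2 T1 (fun Y hY => htr2.one_le_hit (hT1S hY)) cc hcc
  exact mainD_colour R T' (fun X hX => htr.one_le_hit (hT hX)) c2 hc2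

/-- two classes: cells of depth at least three -/
theorem splitW_two {ι : Type} [Fintype ι] [DecidableEq ι] {S : Sys ι} {F : ι → Bool}
    {l : List (ι × Bool)} (h : S.Circ F l) (T' : Set (ι → Bool)) (hT : T' ⊆ S.T)
    (hT' : ∀ X ∈ T', 3 ≤ dep X) :
    ∃ c : ι → Fin 2, ∀ X ∈ T', ∀ i, ∃ v, c v = i ∧ X v = true := by
  by_cases hne : S.T.Nonempty
  swap
  · rw [Set.not_nonempty_iff_eq_empty] at hne
    refine ⟨fun _ => 0, fun X hX => ?_⟩
    have := hT hX
    rw [hne] at this
    exact absurd this (by simp)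
  obtain ⟨S', F', l', h', hTT, hc⟩ := h.exists_complete
  by_cases hle : ∃ X ∈ S'.T, dep X ≤ 2
  · obtain ⟨O', hO', hO'd⟩ := hle
    rcases Nat.lt_or_ge (dep O') 2 with h1 | h1
    · exact mainD_aux 2 (by norm_num) ι S' F' l' h' 1 le_rfl O' hO' (by omega) T'
        (fun X hX => hTT (hT hX)) (fun X hX => by
          have := hT' X hX
          omega)
    · exact h'.split_two hc (by norm_num) hO' (by omega) T' (fun X hX => hTT (hT hX))
        (fun X hX => by
          have := hT' X hX
          omega)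
  · push Not at hle
    exact mainW_aux 2 (by norm_num) ι S' F' l' h' (fun X hX => by
      have := hle X hX
      omega) T' (fun X hX => hTT (hT hX)) (fun X hX => by
        have := hT' X hX
        omega)

/-- what is missing: a complete system of minimal depth `2j+1` has a covering triple all of whose full cells have depth
at least `2j+4`, or (STAR+) holds -/
def StarHyp (j : ℕ) : Prop :=
  ∀ (ι : Type) [Fintype ι] [DecidableEq ι] (S : Sys ι) (F : ι → Bool) (l : List (ι × Bool)),
    S.Circ F l → S.Complete → (∀ X ∈ S.T, 2 * j + 1 ≤ dep X) → (∃ X ∈ S.T, dep X = 2 * j + 1) →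
    (∃ a b c, S.Triple (2 * j + 4) a b c) ∨ S.StarPlus j

/-- the induction: all cells have depth at least `2k-3` -/
theorem splitW_aux : ∀ (k : ℕ) (_ : 1 ≤ k) (_ : ∀ j, 1 ≤ j → j + 2 ≤ k → StarHyp j)
    (ι : Type) [Fintype ι] [DecidableEq ι]
    (S : Sys ι) (F : ι → Bool) (l : List (ι × Bool)), S.Circ F l →
    (∀ X ∈ S.T, 2 * k ≤ dep X + 3) →
    ∀ (T' : Set (ι → Bool)), T' ⊆ S.T → (∀ X ∈ T', 2 * k ≤ dep X + 1) →
    ∃ c : ι → Fin k, ∀ X ∈ T', ∀ j, ∃ i, c i = j ∧ X i = true := by
  intro k
  induction k using Nat.strong_induction_on with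
  | _ k ihk =>
  intro hk H ι _ _ S F l h hd T' hT hT'
  classical
  rcases Nat.lt_or_ge k 3 with hk3 | hk3
  · have h12 : k = 1 ∨ k = 2 := by omega
    rcases h12 with rfl | rfl
    · refine ⟨fun _ => 0, fun X hX j => ?_⟩
      have h1 := hT' X hX
      have h5 : 0 < dep X := by omega
      unfold dep at h5
      obtain ⟨i, hi⟩ := card_pos.mp h5
      rw [mem_filter] at hi
      exact ⟨i, Subsingleton.elim _ _, hi.2⟩
    · exact splitW_two h T' hT (fun X hX => by
        have := hT' X hX
        omega)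
  obtain ⟨j, rfl⟩ : ∃ j, k = j + 2 := ⟨k - 2, by omega⟩
  have hj : 1 ≤ j := by omega
  -- a set `R` that meets every cell, with small loss, is removed
  have step : ∀ (S' : Sys ι) (F' : ι → Bool) (l' : List (ι × Bool)), S'.Circ F' l' →
      T' ⊆ S'.T → ∀ R : Finset ι,
      (∀ X ∈ S'.T, 2 * (j + 2) ≤ dep X + 3 ∧ 1 ≤ hit R X ∧
        (hit R X ≤ 2 ∨ (hit R X ≤ 3 ∧ 2 * j + 4 ≤ dep X))) →
      ∃ c : ι → Fin (j + 2), ∀ X ∈ T', ∀ j, ∃ i, c i = j ∧ X i = true := by
    intro S' F' l' h' hTS R hR
    obtain ⟨S'', l'', h'', hT'', -⟩ :=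
      h'.comap (Function.Embedding.subtype (fun i => i ∉ R))
    obtain ⟨c, hc⟩ := ihk (j + 1) (by omega) (by omega)
      (fun i hi1 hi2 => H i hi1 (by omega)) {i // i ∉ R} S'' _ l'' h''
      (by
        intro Y hY
        rw [hT''] at hY
        obtain ⟨X, hX, rfl⟩ := hY
        have h1 := hR X hX
        have h4 := main_dep_compl R X
        omega)
      ((fun X : ι → Bool => X ∘ (Function.Embedding.subtype (fun i => i ∉ R))) '' T')
      (by
        rintro _ ⟨X, hX, rfl⟩
        rw [hT'']
        exact ⟨X, hTS hX, rfl⟩)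
      (by
        rintro _ ⟨X, hX, rfl⟩
        have h1 := hR X (hTS hX)
        have h2 := hT' X hX
        have h4 := main_dep_compl R X
        simp only
        omega)
    exact mainD_colour R T' (fun X hX => (hR X (hTS hX)).2.1) c hc
  by_cases hnc : ∀ i j, i ≠ j → ∃ X ∈ S.T, X i = false ∧ X j = false
  · obtain ⟨S', F', l', h', hTT, hc, hd'⟩ :=
      h.exists_complete_deep (d := 2 * j + 1) hnc (fun X hX => by
        have := hd X hX
        omega)
    by_cases hmin : ∃ X ∈ S'.T, dep X = 2 * j + 1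
    · rcases H j hj le_rfl ι S' F' l' h' hc hd' hmin with ⟨a, b, c, htr⟩ | hstar
      · refine step S' F' l' h' (fun X hX => hTT (hT hX)) {a, b, c} fun X hX => ?_
        have g1 := hd' X hX
        have g2 := htr.one_le_hit hX
        have g3 := htr.hit_le hX
        refine ⟨by omega, g2, ?_⟩
        rcases g3 with g3 | ⟨g3, g4, -⟩
        · exact Or.inl g3
        · exact Or.inr ⟨g3, g4⟩
      · refine h'.split_of_star hj hc hd' hstar
          (fun κ _ _ S'' F'' l'' h'' hd'' T'' hT'' hT''' =>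
            ihk j (by omega) hj (fun i hi1 hi2 => H i hi1 (by omega)) κ S'' F'' l'' h''
              hd'' T'' hT'' hT''')
          T' (fun X hX => hTT (hT hX)) (fun X hX => by
            have := hT' X hX
            omega)
    · push Not at hmin
      exact mainW_aux (j + 2) (by omega) ι S' F' l' h' (fun X hX => by
        have h1 := hd' X hX
        have h2 := hmin X hX
        omega) T' (fun X hX => hTT (hT hX)) hT'
  · push Not at hnc
    obtain ⟨i, i', hij, hcov⟩ := hnc
    refine step S F l h hT {i, i'} fun X hX => ⟨hd X hX, ?_, Or.inl ?_⟩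
    · by_cases h1 : X i = false
      · have h2 := hcov X hX h1
        exact main_one_le_hit (i := i') (by simp) (by simpa using h2)
      · exact main_one_le_hit (i := i) (by simp) (by simpa using h1)
    · unfold hit
      exact (card_filter_le _ _).trans card_le_two

end PHP
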