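import Mathlib
import Pool.Agent.PHP.CapBridge
import Pool.Agent.PHP.CapTwo
import Pool.Agent.PHP.MainD

/-!
# Two colours, one inclusion-minimal pair (problem MP_1180db_co)

`Sys.Circ.split_pair`: if `{b1, b2}` is a cell of a complete system and no cell is strictly inside it, then there is a
2-colouring with `b1`, `b2` of different colours and both colours in every cell with at least three members.

`Sys.Circ.split_of_pair`: consequence for three colours. Let `R` be any finite set (of colour 3) and suppose that, after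
the deletion of `R`, `{b1, b2}` is a cell and no cell is strictly inside it. Then the family of all cells which meet `R`
and either keep three members outside `R` or contain `b1` and `b2` splits into three coverings.
-/

namespace PHP

open Finset

variable {ι : Type} [Fintype ι] [DecidableEq ι]

/-- Theorem E -/
theorem Sys.Circ.split_pair {S : Sys ι} {F : ι → Bool} {l : List (ι × Bool)} (h : S.Circ F l)
    (hc : S.Complete) {b1 b2 : ι} (hb : b1 ≠ b2) {O : ι → Bool} (hO : O ∈ S.T)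
    (hO' : ∀ i, O i = true ↔ i = b1 ∨ i = b2)
    (hmin : ∀ X ∈ S.T, (∀ i, X i = true → i = b1 ∨ i = b2) → X b1 = true ∧ X b2 = true) :
    ∃ c : ι → Bool, c b1 = true ∧ c b2 = false ∧
      ∀ X ∈ S.T, 3 ≤ dep X → ∀ j, ∃ i, c i = j ∧ X i = true := by
  classical
  obtain ⟨C, hC⟩ := h.exists_capSys hc ⟨b1⟩ hO
  have hO1 : O b1 = true := (hO' b1).2 (Or.inl rfl)
  have hO2 : O b2 = true := (hO' b2).2 (Or.inr rfl)
  have hOS : ∀ i, i ≠ b1 → i ≠ b2 → O i = false := by
    intro i h1 h2
    by_contra h3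
    rcases (hO' i).1 (by simpa using h3) with h4 | h4
    · exact h1 h4
    · exact h2 h4
  set R : Finset ι := univ.filter (fun i => i ≠ b1 ∧ i ≠ b2) with hR
  have hRm : ∀ i, i ∈ R ↔ i ≠ b1 ∧ i ≠ b2 := by
    intro i
    rw [hR, mem_filter]
    simp
  -- the red part of a cap is the set of red members of the cell
  have hred : ∀ (H : Finset ι) (X : ι → Bool), (∀ i, i ∈ H ↔ X i ≠ O i) →
      ∀ i, i ∈ H ∩ R ↔ i ∈ R ∧ X i = true := by
    intro H X hHX i
    rw [mem_inter, hHX]
    constructor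
    · rintro ⟨h1, h2⟩
      refine ⟨h2, ?_⟩
      rw [hOS i ((hRm i).1 h2).1 ((hRm i).1 h2).2] at h1
      simpa using h1
    · rintro ⟨h1, h2⟩
      refine ⟨?_, h1⟩
      rw [hOS i ((hRm i).1 h1).1 ((hRm i).1 h1).2, h2]
      simp
  have hcard : ∀ (H : Finset ι) (X : ι → Bool), (∀ i, i ∈ H ↔ X i ≠ O i) →
      dep X = (H ∩ R).card + ((if b1 ∈ H then 0 else 1) + (if b2 ∈ H then 0 else 1)) := by
    intro H X hHX
    have h1 : univ.filter (fun i => X i = true) =
        (H ∩ R) ∪ (({b1, b2} : Finset ι).filter (fun i => i ∉ H)) := by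
      ext i
      rw [mem_union, hred H X hHX, mem_filter_univ,
        mem_filter (s := ({b1, b2} : Finset ι)), mem_insert, mem_singleton]
      constructor
      · intro h2
        by_cases h3 : i = b1 ∨ i = b2
        · right
          refine ⟨h3, ?_⟩
          rw [hHX, (hO' i).2 h3, h2]
          simp
        · left
          refine ⟨?_, h2⟩
          rw [hRm]
          tauto
      · rintro (⟨-, h2⟩ | ⟨h2, h3⟩)
        · exact h2
        · rw [hHX, (hO' i).2 h2] at h3
          simpa using h3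
    have h2 : Disjoint (H ∩ R) (({b1, b2} : Finset ι).filter (fun i => i ∉ H)) := by
      rw [Finset.disjoint_left]
      intro i h3 h4
      exact (mem_filter.1 h4).2 (mem_inter.1 h3).1
    unfold dep
    rw [h1, card_union_of_disjoint h2]
    congr 1
    rw [filter_insert, filter_singleton]
    by_cases g1 : b1 ∈ H <;> by_cases g2 : b2 ∈ H <;> simp [g1, g2, hb]
  have hcap : ∀ H ∈ C.caps, ∃ X ∈ S.T, ∀ i, i ∈ H ↔ X i ≠ O i := fun H hH => (hC H).1 hH
  let D : Set (Finset ι) := {H | ∃ X ∈ S.T, 3 ≤ dep X ∧ ∀ i, i ∈ H ↔ X i ≠ O i}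
  have hfin : CapSys.Final C R b1 b2 D := by
    refine ⟨?_, hb, ?_, ?_, ?_, ?_⟩
    · rintro H ⟨X, hX, -, hHX⟩
      exact (hC H).2 ⟨X, hX, hHX⟩
    · intro h1
      exact ((hRm b1).1 h1).1 rfl
    · intro h1
      exact ((hRm b2).1 h1).2 rfl
    · rintro H ⟨X, hX, hd, hHX⟩ h1
      have h2 := hcard H X hHX
      rcases h1 with h1 | h1
      · rw [if_pos h1] at h2
        split_ifs at h2 <;> omega
      · rw [if_pos h1] at h2
        split_ifs at h2 <;> omega
    · rintro H ⟨X, hX, hd, hHX⟩ h1 h2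
      left
      have h3 := hcard H X hHX
      rw [if_pos h1, if_pos h2] at h3
      omega
  have hJ : ∀ b, (b = b1 ∨ b = b2) → ∀ H ∈ C.caps, b ∈ H → (H ∩ R).Nonempty := by
    intro b hbb H hH hbH
    obtain ⟨X, hX, hHX⟩ := hcap H hH
    by_contra hemp
    have h1 := hmin X hX (by
      intro i hi
      by_contra h2
      apply hemp
      refine ⟨i, (hred H X hHX i).2 ⟨?_, hi⟩⟩
      rw [hRm]
      tauto)
    rw [hHX, (hO' b).2 hbb] at hbH
    rcases hbb with rfl | rfl
    · exact hbH h1.1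
    · exact hbH h1.2
  obtain ⟨S1, hS1, h1, h2⟩ := hfin.exists_split (hJ b1 (Or.inl rfl)) (hJ b2 (Or.inr rfl))
  refine ⟨fun i => decide (i = b1 ∨ i ∈ S1), by simp, ?_, ?_⟩
  · have h3 : ¬ (b2 = b1 ∨ b2 ∈ S1) := by
      rintro (h3 | h3)
      · exact hb h3.symm
      · exact ((hRm b2).1 (hS1 h3)).2 rfl
    simpa using h3
  · intro X hX hd j
    set H : Finset ι := univ.filter (fun i => X i ≠ O i) with hHdef
    have hHX : ∀ i, i ∈ H ↔ X i ≠ O i := by
      intro i
      rw [hHdef, mem_filter]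
      simp
    have hHD : H ∈ D := ⟨X, hX, hd, hHX⟩
    cases j with
    | true =>
      by_cases g : b1 ∈ H
      · obtain ⟨i, hi⟩ := h1 H hHD g
        have h3 := (hred H X hHX i).1 (mem_inter.2 ⟨(mem_inter.1 hi).1, hS1 (mem_inter.1 hi).2⟩)
        exact ⟨i, by simp [(mem_inter.1 hi).2], h3.2⟩
      · refine ⟨b1, by simp, ?_⟩
        rw [hHX, hO1] at g
        simpa using g
    | false =>
      by_cases g : b2 ∈ H
      · obtain ⟨i, hi⟩ := h2 H hHD g
        have hi1 := (mem_sdiff.1 (mem_inter.1 hi).2)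
        have h3 := (hred H X hHX i).1 (mem_inter.2 ⟨(mem_inter.1 hi).1, hi1.1⟩)
        refine ⟨i, ?_, h3.2⟩
        have h4 : ¬ (i = b1 ∨ i ∈ S1) := by
          rintro (h4 | h4)
          · exact ((hRm i).1 hi1.1).1 h4
          · exact hi1.2 h4
        simpa using h4
      · refine ⟨b2, ?_, ?_⟩
        · have h3 : ¬ (b2 = b1 ∨ b2 ∈ S1) := by
            rintro (h3 | h3)
            · exact hb h3.symm
            · exact ((hRm b2).1 (hS1 h3)).2 rfl
          simpa using h3
        · rw [hHX, hO2] at g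
          simpa using g

/-- Consequence of Theorem E: three colours, the third one is `R`. -/
theorem Sys.Circ.split_of_pair {S : Sys ι} {F : ι → Bool} {l : List (ι × Bool)}
    (h : S.Circ F l) (hc : S.Complete) (R : Finset ι) {b1 b2 : ι} (hb : b1 ≠ b2) (hb1 : b1 ∉ R)
    (hb2 : b2 ∉ R) {O : ι → Bool} (hO : O ∈ S.T)
    (hO' : ∀ i, i ∉ R → (O i = true ↔ i = b1 ∨ i = b2))
    (hmin : ∀ X ∈ S.T, (∀ i, i ∉ R → X i = true → i = b1 ∨ i = b2) →
      X b1 = true ∧ X b2 = true)
    (T' : Set (ι → Bool)) (hT : T' ⊆ S.T) (hR : ∀ X ∈ T', 1 ≤ hit R X)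
    (h3 : ∀ X ∈ T', hit R X + 3 ≤ dep X ∨ (X b1 = true ∧ X b2 = true)) :
    ∃ c : ι → Fin 3, ∀ X ∈ T', ∀ j, ∃ i, c i = j ∧ X i = true := by
  classical
  obtain ⟨S1, l1, h1, hT1, hcr1⟩ := h.comap (Function.Embedding.subtype (fun i => i ∉ R))
  set f : {i // i ∉ R} ↪ ι := Function.Embedding.subtype (fun i => i ∉ R) with hf
  have hc1 : S1.Complete := by
    intro i j hij
    rw [hcr1]
    exact hc _ _ (fun hh => hij (f.injective hh))
  obtain ⟨c, g1, g2, g3⟩ := h1.split_pair hc1 (b1 := ⟨b1, hb1⟩) (b2 := ⟨b2, hb2⟩)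
    (fun hh => hb (congrArg Subtype.val hh)) (O := O ∘ f)
    (by rw [hT1]; exact ⟨O, hO, rfl⟩)
    (by
      rintro ⟨i, hi⟩
      rw [Subtype.mk.injEq, Subtype.mk.injEq]
      exact hO' i hi)
    (by
      intro Y hY hYs
      rw [hT1] at hY
      obtain ⟨X, hX, rfl⟩ := hY
      refine hmin X hX fun i hi hXi => ?_
      have := hYs ⟨i, hi⟩ hXi
      rw [Subtype.mk.injEq, Subtype.mk.injEq] at this
      exact this)
  refine mainD_colour (k := 2) R T' hR (fun i => if c i = true then 0 else 1) ?_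
  rintro _ ⟨X, hX, rfl⟩ j
  have key : ∀ b : Bool, ∃ i : {i // i ∉ R}, c i = b ∧ (X ∘ f) i = true := by
    intro b
    rcases h3 X hX with h4 | ⟨h4, h5⟩
    · refine g3 (X ∘ f) (by rw [hT1]; exact ⟨X, hT hX, rfl⟩) ?_ b
      have := main_dep_compl R X
      rw [← hf] at this
      omega
    · cases b with
      | true => exact ⟨⟨b1, hb1⟩, g1, h4⟩
      | false => exact ⟨⟨b2, hb2⟩, g2, h5⟩
  have hj : j = 0 ∨ j = 1 := by
    fin_cases j <;> simp
  rcases hj with rfl | rfl
  · obtain ⟨i, hi, hXi⟩ := key true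
    exact ⟨i, by simp [hi], hXi⟩
  · obtain ⟨i, hi, hXi⟩ := key false
    exact ⟨i, by simp [hi], hXi⟩

end PHP
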