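import Mathlib
import Pool.Agent.PHP.BipSame
import Pool.Agent.PHP.CapBridge
import Pool.Agent.PHP.ThmE
import Pool.Agent.PHP.StarPlus

/-!
# Minimal pairs: the 2-colouring theorem for complete systems (MP_1180db_co)

`S.Pair u v`: `{u, v}` is a cell and no cell is strictly inside it. `Sys.Circ.exists_pair_triple`: if there are at least
two minimal pairs and no closed walk of length five of minimal pairs (i.e. neither a triangle nor a pentagon), then
some covering triple contains no minimal pair and is not a cell. `Sys.Circ.split_bip`: a complete system has a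
2-colouring in which all cells with at least three members and all minimal pairs are bichromatic if and only if the
graph of minimal pairs is bipartite, if and only if this graph has neither a triangle nor a pentagon.
-/

namespace PHP

open Finset

variable {ι : Type} [Fintype ι] [DecidableEq ι]

/-- `{u, v}` is a cell and no cell is strictly inside it -/
def Sys.Pair (S : Sys ι) (u v : ι) : Prop :=
  u ≠ v ∧ (∃ X ∈ S.T, ∀ i, X i = true ↔ i = u ∨ i = v) ∧
    ∀ Y ∈ S.T, (∀ i, Y i = true → i = u ∨ i = v) → Y u = true ∧ Y v = true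

omit [Fintype ι] [DecidableEq ι] in
theorem Sys.Pair.symm {S : Sys ι} {u v : ι} (h : S.Pair u v) : S.Pair v u := by
  obtain ⟨h1, ⟨X, hX, h2⟩, h3⟩ := h
  refine ⟨h1.symm, ⟨X, hX, fun i => (h2 i).trans or_comm⟩, fun Y hY hi => ?_⟩
  exact (h3 Y hY (fun i hh => (hi i hh).symm)).symm

section Aux

variable {S : Sys ι} {C : CapSys ι} {O : ι → Bool} {b b' : ι}

omit [Fintype ι] [DecidableEq ι] in
theorem bip_val (hO : ∀ i, O i = true ↔ i = b ∨ i = b') {X : ι → Bool} {P : ι → Prop}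
    (h : ∀ i, X i ≠ O i ↔ P i) (i : ι) : X i = true ↔ (P i ↔ ¬ (i = b ∨ i = b')) := by
  rw [← h, ← hO]
  cases X i <;> cases O i <;> simp

omit [Fintype ι] in
theorem bip_cell (hC : ∀ H : Finset ι, H ∈ C.caps ↔ ∃ X ∈ S.T, ∀ i, i ∈ H ↔ X i ≠ O i)
    (hO : ∀ i, O i = true ↔ i = b ∨ i = b') {P : ι → Prop} (h : C.Has P) :
    ∃ X ∈ S.T, ∀ i, X i = true ↔ (P i ↔ ¬ (i = b ∨ i = b')) := by
  obtain ⟨H, hH, h1⟩ := h
  obtain ⟨X, hX, h2⟩ := (hC H).1 hH
  exact ⟨X, hX, bip_val hO (fun i => (h2 i).symm.trans (h1 i))⟩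

theorem bip_has (hC : ∀ H : Finset ι, H ∈ C.caps ↔ ∃ X ∈ S.T, ∀ i, i ∈ H ↔ X i ≠ O i)
    (hO : ∀ i, O i = true ↔ i = b ∨ i = b') {P : ι → Prop} {X : ι → Bool} (hX : X ∈ S.T)
    (h : ∀ i, X i = true ↔ (P i ↔ ¬ (i = b ∨ i = b'))) : C.Has P := by
  classical
  refine ⟨univ.filter (fun i => X i ≠ O i), (hC _).2 ⟨X, hX, fun i => by simp⟩, fun i => ?_⟩
  rw [mem_filter_univ]
  have h1 := h i
  have h2 := hO i
  by_cases hP : P i
  · rw [iff_true_left hP] at h1
    rw [← h2] at h1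
    cases hx : X i <;> cases ho : O i <;> simp [hx, ho] at h1 ⊢ <;> exact hP
  · rw [iff_false_left hP, not_not, ← h2] at h1
    cases hx : X i <;> cases ho : O i <;> simp [hx, ho] at h1 ⊢ <;> exact hP

omit [Fintype ι] in
theorem bip_pairA (hC : ∀ H : Finset ι, H ∈ C.caps ↔ ∃ X ∈ S.T, ∀ i, i ∈ H ↔ X i ≠ O i)
    (hO : ∀ i, O i = true ↔ i = b ∨ i = b') (hE : S.Pair b b') {u : ι} (hu : u ≠ b)
    (hu' : u ≠ b') (h : C.cA b u)
    (hJ : ¬ ∃ X ∈ S.T, ∀ i, X i = true ↔ i = u) : S.Pair u b' := by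
  obtain ⟨X, hX, h1⟩ := bip_cell hC hO h
  have hbb := hE.1
  refine ⟨hu', ⟨X, hX, fun i => ?_⟩, fun Y hY hi => ?_⟩
  · rw [h1]
    by_cases h2 : i = b
    · subst h2
      simp [hu.symm, hbb]
    · by_cases h3 : i = b'
      · subst h3
        simp [hu'.symm, hbb.symm]
      · simp [h2, h3]
  · have h2 : Y u = true := by
      by_contra h3
      have h4 := hE.2.2 Y hY (fun i hh => by
        rcases hi i hh with h5 | h5
        · exact absurd (h5 ▸ hh) h3
        · exact Or.inr h5)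
      rcases hi b h4.1 with h5 | h5
      · exact hu h5.symm
      · exact hbb h5
    refine ⟨h2, ?_⟩
    by_contra h3
    refine hJ ⟨Y, hY, fun i => ⟨fun hh => ?_, fun hh => hh ▸ h2⟩⟩
    rcases hi i hh with h5 | h5
    · exact h5
    · exact absurd (h5 ▸ hh) h3

omit [Fintype ι] in
theorem bip_pairD (hC : ∀ H : Finset ι, H ∈ C.caps ↔ ∃ X ∈ S.T, ∀ i, i ∈ H ↔ X i ≠ O i)
    (hO : ∀ i, O i = true ↔ i = b ∨ i = b') (hE : S.Pair b b') {u v : ι} (huv : u ≠ v)
    (hu : u ≠ b) (hu' : u ≠ b') (hv : v ≠ b) (hv' : v ≠ b') (h : C.cD b b' u v)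
    (hJ : ¬ ∃ X ∈ S.T, ∀ i, X i = true ↔ i = u) (hJ' : ¬ ∃ X ∈ S.T, ∀ i, X i = true ↔ i = v) :
    S.Pair u v := by
  obtain ⟨X, hX, h1⟩ := bip_cell hC hO h
  have hbb := hE.1
  have key : ∀ {x y : ι}, x ≠ b → y ≠ b → (¬ ∃ X ∈ S.T, ∀ i, X i = true ↔ i = x) →
      ∀ Y ∈ S.T, (∀ i, Y i = true → i = x ∨ i = y) → Y y = true := by
    intro x y hx hy hJx Y hY hi
    by_contra h3
    have h6 : ∀ i, Y i = true → i = x := fun i hh => by
      rcases hi i hh with h5 | h5
      · exact h5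
      · exact absurd (h5 ▸ hh) h3
    have h2 : Y x = true := by
      by_contra h4
      have h7 := hE.2.2 Y hY (fun i hh => absurd (h6 i hh ▸ hh) h4)
      exact hx (h6 b h7.1).symm
    exact hJx ⟨Y, hY, fun i => ⟨h6 i, fun hh => hh ▸ h2⟩⟩
  refine ⟨huv, ⟨X, hX, fun i => ?_⟩, fun Y hY hi => ⟨?_, ?_⟩⟩
  · rw [h1]
    by_cases h2 : i = b
    · subst h2
      simp [hu.symm, hv.symm]
    · by_cases h3 : i = b'
      · subst h3
        simp [hu'.symm, hv'.symm]
      · simp [h2, h3]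
  · exact key hv hu hJ' Y hY (fun i hh => (hi i hh).symm)
  · exact key hu hv hJ Y hY hi

/-- a cell `{u}` from `cJ` and conversely -/
theorem bip_J (hC : ∀ H : Finset ι, H ∈ C.caps ↔ ∃ X ∈ S.T, ∀ i, i ∈ H ↔ X i ≠ O i)
    (hO : ∀ i, O i = true ↔ i = b ∨ i = b') {u : ι} (hu : u ≠ b) (hu' : u ≠ b') :
    C.cJ b b' u ↔ ∃ X ∈ S.T, ∀ i, X i = true ↔ i = u := by
  constructor
  · intro h
    obtain ⟨X, hX, h1⟩ := bip_cell hC hO h
    refine ⟨X, hX, fun i => ?_⟩
    rw [h1]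
    by_cases h2 : i = b
    · subst h2
      simp [hu.symm]
    · by_cases h3 : i = b'
      · subst h3
        simp [hu'.symm]
      · simp [h2, h3]
  · rintro ⟨X, hX, h1⟩
    refine bip_has hC hO hX (fun i => ?_)
    rw [h1]
    by_cases h2 : i = b
    · subst h2
      simp [hu.symm]
    · by_cases h3 : i = b'
      · subst h3
        simp [hu'.symm]
      · simp [h2, h3]

/-- the triple `{b, u, v}` is not good -/
theorem bip_st (hC : ∀ H : Finset ι, H ∈ C.caps ↔ ∃ X ∈ S.T, ∀ i, i ∈ H ↔ X i ≠ O i)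
    (hO : ∀ i, O i = true ↔ i = b ∨ i = b') (hE : S.Pair b b')
    (hno : ∀ T : Finset ι, T.card = 3 → (∀ X ∈ S.T, ∃ i ∈ T, X i = true) →
      (∀ X ∈ S.T, 3 ≤ dep X → ∃ i, i ∉ T ∧ X i = true) → ∃ u v, S.Pair u v ∧ u ∈ T ∧ v ∈ T)
    {u v : ι} (hu : u ≠ b) (hu' : u ≠ b') (hv : v ≠ b) (hv' : v ≠ b') (huv : u ≠ v)
    (hhit : ∀ H ∈ C.caps, b ∈ H → u ∈ H ∨ v ∈ H) :
    C.eA b b' b' u ∨ C.eA b b' b' v ∨ C.cB b' u v ∨ C.eD b b' u v := by
  classical
  have hbb := hE.1
  have eA_of : ∀ x, x ≠ b → x ≠ b' → S.Pair b x → C.eA b b' b' x := by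
    intro x hx hx' hP
    obtain ⟨-, ⟨X, hX, h1⟩, h2⟩ := hP
    refine ⟨bip_has hC hO hX (fun i => ?_), fun hJ => ?_⟩
    · rw [h1]
      by_cases h3 : i = b
      · subst h3
        simp [hx.symm, hbb]
      · by_cases h4 : i = b'
        · subst h4
          simp [hx'.symm, hbb.symm]
        · simp [h3, h4]
    · obtain ⟨Y, hY, h3⟩ := (bip_J hC hO hx hx').1 hJ
      have h4 := (h2 Y hY (fun i hh => Or.inr ((h3 i).1 hh))).1
      exact hx ((h3 b).1 h4).symm
  have eD_of : S.Pair u v → C.eD b b' u v := by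
    intro hP
    obtain ⟨-, ⟨X, hX, h1⟩, h2⟩ := hP
    refine ⟨bip_has hC hO hX (fun i => ?_), fun hJ => ?_, fun hJ => ?_⟩
    · rw [h1]
      by_cases h3 : i = b
      · subst h3
        simp [hu.symm, hv.symm]
      · by_cases h4 : i = b'
        · subst h4
          simp [hu'.symm, hv'.symm]
        · simp [h3, h4]
    · obtain ⟨Y, hY, h3⟩ := (bip_J hC hO hu hu').1 hJ
      have h4 := (h2 Y hY (fun i hh => Or.inl ((h3 i).1 hh))).2
      exact huv ((h3 v).1 h4).symm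
    · obtain ⟨Y, hY, h3⟩ := (bip_J hC hO hv hv').1 hJ
      have h4 := (h2 Y hY (fun i hh => Or.inr ((h3 i).1 hh))).1
      exact huv ((h3 u).1 h4)
  have hcard : ({b, u, v} : Finset ι).card = 3 := by
    rw [card_insert_of_notMem, card_insert_of_notMem, card_singleton]
    · simpa using huv
    · simp [hu.symm, hv.symm]
  have hcov : ∀ X ∈ S.T, ∃ i ∈ ({b, u, v} : Finset ι), X i = true := by
    intro X hX
    by_cases h1 : X b = true
    · exact ⟨b, by simp, h1⟩
    · have h2 : univ.filter (fun i => X i ≠ O i) ∈ C.caps := (hC _).2 ⟨X, hX, fun i => by simp⟩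
      have hOb : O b = true := (hO b).2 (Or.inl rfl)
      have h3 : b ∈ univ.filter (fun i => X i ≠ O i) := by
        rw [mem_filter_univ, hOb]
        exact h1
      have hOx : ∀ x, x ≠ b → x ≠ b' → O x = false := by
        intro x hx hx'
        by_contra h4
        rcases (hO x).1 (by simpa using h4) with h5 | h5
        · exact hx h5
        · exact hx' h5
      rcases hhit _ h2 h3 with h4 | h4
      · rw [mem_filter_univ, hOx u hu hu'] at h4
        exact ⟨u, by simp, by simpa using h4⟩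
      · rw [mem_filter_univ, hOx v hv hv'] at h4
        exact ⟨v, by simp, by simpa using h4⟩
  by_cases hd : ∀ X ∈ S.T, 3 ≤ dep X → ∃ i, i ∉ ({b, u, v} : Finset ι) ∧ X i = true
  · obtain ⟨x, y, hP, hx, hy⟩ := hno _ hcard hcov hd
    simp only [mem_insert, mem_singleton] at hx hy
    rcases hx with rfl | rfl | rfl <;> rcases hy with rfl | rfl | rfl
    · exact absurd rfl hP.1
    · exact Or.inl (eA_of _ hu hu' hP)
    · exact Or.inr (Or.inl (eA_of _ hv hv' hP))
    · exact Or.inl (eA_of _ hu hu' hP.symm)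
    · exact absurd rfl hP.1
    · exact Or.inr (Or.inr (Or.inr (eD_of hP)))
    · exact Or.inr (Or.inl (eA_of _ hv hv' hP.symm))
    · exact Or.inr (Or.inr (Or.inr (eD_of hP.symm)))
    · exact absurd rfl hP.1
  · push Not at hd
    obtain ⟨X, hX, hd3, hin⟩ := hd
    refine Or.inr (Or.inr (Or.inl ?_))
    have h1 : univ.filter (fun i => X i = true) = {b, u, v} := by
      apply eq_of_subset_of_card_le
      · intro i hi
        by_contra h2
        exact hin i h2 (mem_filter_univ i |>.1 hi)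
      · rw [hcard]
        exact hd3
    have h2 : ∀ i, X i = true ↔ i = b ∨ i = u ∨ i = v := by
      intro i
      have : i ∈ univ.filter (fun i => X i = true) ↔ i ∈ ({b, u, v} : Finset ι) := by rw [h1]
      rw [mem_filter_univ] at this
      rw [this]
      simp
    refine bip_has hC hO hX (fun i => ?_)
    rw [h2]
    by_cases h3 : i = b
    · subst h3
      simp [hu.symm, hv.symm, hbb]
    · by_cases h4 : i = b'
      · subst h4
        simp [hu'.symm, hv'.symm, hbb.symm]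
      · simp [h3, h4]

end Aux

/-- MAIN THEOREM, pair form: two minimal pairs and no closed walk of length five of minimal pairs -/
theorem Sys.Circ.exists_pair_triple {S : Sys ι} {F : ι → Bool} {l : List (ι × Bool)}
    (h : S.Circ F l) (hc : S.Complete) {b1 b2 : ι} (hE : S.Pair b1 b2)
    (hG : ∃ u v, S.Pair u v ∧ ¬ (u = b1 ∧ v = b2) ∧ ¬ (u = b2 ∧ v = b1))
    (hodd : ∀ a b c d e, S.Pair a b → S.Pair b c → S.Pair c d → S.Pair d e → S.Pair e a →
      False) :
    ∃ T : Finset ι, T.card = 3 ∧ (∀ X ∈ S.T, ∃ i ∈ T, X i = true) ∧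
      (∀ X ∈ S.T, 3 ≤ dep X → ∃ i, i ∉ T ∧ X i = true) ∧
      ∀ u v, S.Pair u v → u ∈ T → v ∉ T := by
  classical
  by_contra hcon
  have hno : ∀ T : Finset ι, T.card = 3 → (∀ X ∈ S.T, ∃ i ∈ T, X i = true) →
      (∀ X ∈ S.T, 3 ≤ dep X → ∃ i, i ∉ T ∧ X i = true) →
      ∃ u v, S.Pair u v ∧ u ∈ T ∧ v ∈ T := by
    intro T h1 h2 h3
    by_contra h4
    push Not at h4
    exact hcon ⟨T, h1, h2, h3, h4⟩
  obtain ⟨O, hO, hO'⟩ := hE.2.1
  obtain ⟨C, hC⟩ := h.exists_capSys hc ⟨b1⟩ hO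
  obtain ⟨W, hW, -⟩ := h.exists_sweep hc ⟨b1⟩
  have hbb := hE.1
  have hO'' : ∀ i, O i = true ↔ i = b2 ∨ i = b1 := fun i => (hO' i).trans or_comm
  have tri : ∀ u v w, S.Pair u v → S.Pair v w → S.Pair w u → False := fun u v w h1 h2 h3 =>
    hodd u v w u v h1 h2 h3 h1 h1.symm
  set R : Finset ι := univ.filter (fun i => i ≠ b1 ∧ i ≠ b2) with hR
  have hRm : ∀ i, i ∈ R ↔ i ≠ b1 ∧ i ≠ b2 := fun i => by rw [hR, mem_filter_univ]
  have toA1 : ∀ u ∈ R, C.eA b1 b2 b1 u → S.Pair u b2 := by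
    intro u hu h1
    have hu' := (hRm u).1 hu
    exact bip_pairA hC hO' hE hu'.1 hu'.2 h1.1 (fun hh => h1.2 ((bip_J hC hO' hu'.1 hu'.2).2 hh))
  have toA2 : ∀ u ∈ R, C.eA b1 b2 b2 u → S.Pair u b1 := by
    intro u hu h1
    have hu' := (hRm u).1 hu
    exact bip_pairA hC hO'' hE.symm hu'.2 hu'.1 h1.1
      (fun hh => h1.2 ((bip_J hC hO' hu'.1 hu'.2).2 hh))
  have toD : ∀ u ∈ R, ∀ v ∈ R, u ≠ v → C.eD b1 b2 u v → S.Pair u v := by
    intro u hu v hv huv h1
    have hu' := (hRm u).1 hu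
    have hv' := (hRm v).1 hv
    exact bip_pairD hC hO' hE huv hu'.1 hu'.2 hv'.1 hv'.2 h1.1
      (fun hh => h1.2.1 ((bip_J hC hO' hu'.1 hu'.2).2 hh))
      (fun hh => h1.2.2 ((bip_J hC hO' hv'.1 hv'.2).2 hh))
  have hOf : ∀ x, x ≠ b1 → x ≠ b2 → O x = false := by
    intro x hx hx'
    by_contra h4
    rcases (hO' x).1 (by simpa using h4) with h5 | h5
    · exact hx h5
    · exact hx' h5
  have hmeet : ∀ b, (b = b1 ∨ b = b2) → ∀ H ∈ C.caps, b ∈ H → (H ∩ R).Nonempty := by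
    intro b hb H hH hbH
    obtain ⟨X, hX, hHX⟩ := (hC H).1 hH
    by_contra hemp
    have h1 := hE.2.2 X hX (fun i hi => by
      by_contra h2
      push Not at h2
      refine hemp ⟨i, mem_inter.2 ⟨(hHX i).2 ?_, (hRm i).2 h2⟩⟩
      rw [hi, hOf i h2.1 h2.2]
      simp)
    rw [hHX, (hO' b).2 hb] at hbH
    rcases hb with rfl | rfl
    · exact hbH h1.1
    · exact hbH h1.2
  have hB : CapSys.Bip C R b1 b2 := by
    refine ⟨hbb, fun hh => ((hRm b1).1 hh).1 rfl, fun hh => ((hRm b2).1 hh).2 rfl, fun i => ?_,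
      hmeet b1 (Or.inl rfl), hmeet b2 (Or.inr rfl), ?_, ?_, ?_, ?_, ?_, ?_, ?_, ?_⟩
    · rw [hRm]
      tauto
    · -- walks
      intro H hH G hG' hne
      obtain ⟨X, hX, hHX⟩ := (hC H).1 hH
      obtain ⟨Y, hY, hGY⟩ := (hC G).1 hG'
      have hXY : X ≠ Y := by
        rintro rfl
        exact hne (by ext i; rw [hHX, hGY])
      obtain ⟨z, hz1, hz2⟩ := W.exists_step F (X := X) (Y := Y) (by rw [hW]; exact hX)
        (by rw [hW]; exact hY) hXY
      rw [hW] at hz2
      refine ⟨z, ?_⟩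
      by_cases hzH : z ∈ H
      · left
        have h1 := (hHX z).1 hzH
        have h2 : Y z = O z := by
          cases h3 : X z <;> cases h4 : Y z <;> cases h5 : O z <;> simp_all
        refine ⟨hzH, fun hh => (hGY z).1 hh h2, (hC _).2 ⟨_, hz2, fun i => ?_⟩⟩
        by_cases hi : i = z
        · subst hi
          rw [Function.update_self, h2]
          simp
        · rw [Function.update_of_ne hi, mem_erase, hHX]
          simp [hi]
      · right
        have h1 : X z = O z := by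
          by_contra h2
          exact hzH ((hHX z).2 h2)
        have h2 : Y z ≠ O z := by
          rw [← h1]
          exact fun h3 => hz1 h3.symm
        refine ⟨hzH, (hGY z).2 h2, (hC _).2 ⟨_, hz2, fun i => ?_⟩⟩
        by_cases hi : i = z
        · subst hi
          rw [Function.update_self]
          simp [h2]
        · rw [Function.update_of_ne hi, mem_insert, hHX]
          simp [hi]
    · intro u hu v hv huv hh
      have hu' := (hRm u).1 hu
      have hv' := (hRm v).1 hv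
      exact bip_st hC hO' hE hno hu'.1 hu'.2 hv'.1 hv'.2 huv hh
    · intro u hu v hv huv hh
      have hu' := (hRm u).1 hu
      have hv' := (hRm v).1 hv
      rcases bip_st hC hO'' hE.symm hno hu'.2 hu'.1 hv'.2 hv'.1 huv hh with h1 | h1 | h1 | h1
      · exact Or.inl (CapSys.eA_swap.1 h1)
      · exact Or.inr (Or.inl (CapSys.eA_swap.1 h1))
      · exact Or.inr (Or.inr (Or.inl h1))
      · exact Or.inr (Or.inr (Or.inr (CapSys.eD_swap.1 h1)))
    · intro u hu h1 h2
      exact tri u b2 b1 (toA1 u hu h1) hE.symm (toA2 u hu h2).symm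
    · intro u hu v hv huv h1 h2 h3
      exact tri u b2 v (toA1 u hu h1) (toA1 v hv h2).symm (toD u hu v hv huv h3).symm
    · intro u hu v hv huv h1 h2 h3
      exact tri u b1 v (toA2 u hu h1) (toA2 v hv h2).symm (toD u hu v hv huv h3).symm
    · intro u hu v hv w hw huv hvw huw h1 h2 h3
      exact tri u v w (toD u hu v hv huv h1) (toD v hv w hw hvw h2) (toD u hu w hw huw h3).symm
    · intro u hu v hv w hw huv hvw huw h1 h2 h3 h4
      exact hodd u v w b1 b2 (toD u hu v hv huv h2) (toD v hv w hw hvw h3) (toA2 w hw h4) hE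
        (toA1 u hu h1).symm
  refine hB.false ?_
  obtain ⟨u, v, hP, hn1, hn2⟩ := hG
  -- translate the second minimal pair
  have eA1_of : ∀ x, x ≠ b1 → x ≠ b2 → S.Pair b2 x → C.eA b1 b2 b1 x := by
    intro x hx hx' hP
    obtain ⟨-, ⟨X, hX, h1⟩, h2⟩ := hP
    refine ⟨bip_has hC hO' hX (fun i => ?_), fun hJ => ?_⟩
    · rw [h1]
      by_cases h3 : i = b1
      · subst h3
        simp [hx.symm, hbb]
      · by_cases h4 : i = b2
        · subst h4
          simp [hx'.symm, hbb.symm]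
        · simp [h3, h4]
    · obtain ⟨Y, hY, h3⟩ := (bip_J hC hO' hx hx').1 hJ
      have h4 := (h2 Y hY (fun i hh => Or.inr ((h3 i).1 hh))).1
      exact hx' ((h3 b2).1 h4).symm
  have eA2_of : ∀ x, x ≠ b1 → x ≠ b2 → S.Pair b1 x → C.eA b1 b2 b2 x := by
    intro x hx hx' hP
    obtain ⟨-, ⟨X, hX, h1⟩, h2⟩ := hP
    refine ⟨bip_has hC hO' hX (fun i => ?_), fun hJ => ?_⟩
    · rw [h1]
      by_cases h3 : i = b1
      · subst h3
        simp [hx.symm, hbb]
      · by_cases h4 : i = b2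
        · subst h4
          simp [hx'.symm, hbb.symm]
        · simp [h3, h4]
    · obtain ⟨Y, hY, h3⟩ := (bip_J hC hO' hx hx').1 hJ
      have h4 := (h2 Y hY (fun i hh => Or.inr ((h3 i).1 hh))).1
      exact hx ((h3 b1).1 h4).symm
  by_cases hu1 : u = b1
  · have hv1 : v ≠ b1 := fun hh => hP.1 (hu1.trans hh.symm)
    have hv2 : v ≠ b2 := fun hh => hn1 ⟨hu1, hh⟩
    exact Or.inr (Or.inl ⟨v, eA2_of v hv1 hv2 (hu1 ▸ hP)⟩)
  by_cases hu2 : u = b2
  · have hv2 : v ≠ b2 := fun hh => hP.1 (hu2.trans hh.symm)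
    have hv1 : v ≠ b1 := fun hh => hn2 ⟨hu2, hh⟩
    exact Or.inl ⟨v, eA1_of v hv1 hv2 (hu2 ▸ hP)⟩
  by_cases hv1 : v = b1
  · exact Or.inr (Or.inl ⟨u, eA2_of u hu1 hu2 (hv1 ▸ hP.symm)⟩)
  by_cases hv2 : v = b2
  · exact Or.inl ⟨u, eA1_of u hu1 hu2 (hv2 ▸ hP.symm)⟩
  · obtain ⟨huv, ⟨X, hX, h1⟩, h2⟩ := hP
    refine Or.inr (Or.inr ⟨u, (hRm u).2 ⟨hu1, hu2⟩, v, (hRm v).2 ⟨hv1, hv2⟩, huv,
      bip_has hC hO' hX (fun i => ?_), fun hJ => ?_, fun hJ => ?_⟩)
    · rw [h1]
      by_cases h3 : i = b1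
      · subst h3
        simp [Ne.symm hu1, Ne.symm hv1]
      · by_cases h4 : i = b2
        · subst h4
          simp [Ne.symm hu2, Ne.symm hv2]
        · simp [h3, h4]
    · obtain ⟨Y, hY, h3⟩ := (bip_J hC hO' hu1 hu2).1 hJ
      have h4 := (h2 Y hY (fun i hh => Or.inl ((h3 i).1 hh))).2
      exact huv ((h3 v).1 h4).symm
    · obtain ⟨Y, hY, h3⟩ := (bip_J hC hO' hv1 hv2).1 hJ
      have h4 := (h2 Y hY (fun i hh => Or.inr ((h3 i).1 hh))).1
      exact huv ((h3 u).1 h4)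

/-- THEOREM (BIP): no closed walk of length five of minimal pairs => 2-colouring -/
theorem Sys.Circ.split_bip {S : Sys ι} {F : ι → Bool} {l : List (ι × Bool)}
    (h : S.Circ F l) (hc : S.Complete)
    (hodd : ∀ a b c d e, S.Pair a b → S.Pair b c → S.Pair c d → S.Pair d e → S.Pair e a →
      False) :
    ∃ c : ι → Bool, (∀ u v, S.Pair u v → c u ≠ c v) ∧
      ∀ X ∈ S.T, 3 ≤ dep X → ∀ j, ∃ i, c i = j ∧ X i = true := by
  classical
  by_cases hE : ∃ b1 b2, S.Pair b1 b2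
  · obtain ⟨b1, b2, hE⟩ := hE
    by_cases hG : ∃ u v, S.Pair u v ∧ ¬ (u = b1 ∧ v = b2) ∧ ¬ (u = b2 ∧ v = b1)
    · obtain ⟨T, -, h1, h2, h3⟩ := h.exists_pair_triple hc hE hG hodd
      refine ⟨fun i => decide (i ∈ T), fun u v hP => ?_, fun X hX hd j => ?_⟩
      · have h5 := h3 u v hP
        obtain ⟨huv, ⟨X, hX, h4⟩, -⟩ := hP
        obtain ⟨i, hi, hXi⟩ := h1 X hX
        rcases (h4 i).1 hXi with rfl | rfl
        · have := h5 hi
          simp [hi, this]
        · have : u ∉ T := fun hh => h5 hh hi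
          simp [hi, this]
      · cases j with
        | true =>
          obtain ⟨i, hi, hXi⟩ := h1 X hX
          exact ⟨i, by simpa using hi, hXi⟩
        | false =>
          obtain ⟨i, hi, hXi⟩ := h2 X hX hd
          exact ⟨i, by simpa using hi, hXi⟩
    · push Not at hG
      obtain ⟨hbb, ⟨O, hO, hO'⟩, hmin⟩ := hE
      obtain ⟨c, h1, h2, h3⟩ := h.split_pair hc hbb hO hO' hmin
      refine ⟨c, fun u v hP => ?_, h3⟩
      by_cases h4 : u = b1 ∧ v = b2
      · rw [h4.1, h4.2, h1, h2]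
        simp
      · have h5 := hG u v hP (fun h6 h7 => h4 ⟨h6, h7⟩)
        rw [h5.1, h5.2, h1, h2]
        simp
  · push Not at hE
    obtain ⟨c, h1⟩ := splitW_two h {X | X ∈ S.T ∧ 3 ≤ dep X} (fun X hX => hX.1)
      (fun X hX => hX.2)
    refine ⟨fun i => decide (c i = 0), fun u v hP => absurd hP (hE u v), fun X hX hd j => ?_⟩
    cases j with
    | true =>
      obtain ⟨i, hi, hXi⟩ := h1 X ⟨hX, hd⟩ 0
      exact ⟨i, by simp [hi], hXi⟩
    | false =>
      obtain ⟨i, hi, hXi⟩ := h1 X ⟨hX, hd⟩ 1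
      exact ⟨i, by simp [hi], hXi⟩

end PHP
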