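import Mathlib
import Pool.Agent.PHP.BipMain

/-!
# Three colours from a set `R` and the minimal pairs outside it (MP_1180db_co)

`S.PairOff R u v`: after the deletion of `R`, `{u, v}` is a cell and no cell is strictly inside it.
`Sys.Circ.split_of_bip`: if every cell of the family `T'` meets `R` and either keeps three members outside `R` or
contains both members of a minimal pair (off `R`), and the minimal pairs off `R` have no closed walk of length five,
then `T'` splits into three coverings.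
-/

namespace PHP

open Finset

variable {ι : Type} [Fintype ι] [DecidableEq ι]

/-- after the deletion of `R`, `{u, v}` is a cell and no cell is strictly inside it -/
def Sys.PairOff (S : Sys ι) (R : Finset ι) (u v : ι) : Prop :=
  u ≠ v ∧ u ∉ R ∧ v ∉ R ∧ (∃ X ∈ S.T, ∀ i, i ∉ R → (X i = true ↔ i = u ∨ i = v)) ∧
    ∀ Y ∈ S.T, (∀ i, i ∉ R → Y i = true → i = u ∨ i = v) → Y u = true ∧ Y v = true

/-- the system without the lines of `R` -/
theorem Sys.Circ.exists_off {S : Sys ι} {F : ι → Bool} {l : List (ι × Bool)}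
    (h : S.Circ F l) (hc : S.Complete) (R : Finset ι) :
    ∃ (S1 : Sys {i // i ∉ R}) (F1 : {i // i ∉ R} → Bool) (l1 : List ({i // i ∉ R} × Bool)),
      S1.Circ F1 l1 ∧ S1.Complete ∧
      (∀ X, X ∈ S1.T ↔ ∃ Y ∈ S.T, X = Y ∘ (Function.Embedding.subtype (fun i => i ∉ R))) ∧
      ∀ u v, S1.Pair u v ↔ S.PairOff R u.1 v.1 := by
  classical
  obtain ⟨S1, l1, h1, hT1, hcr1⟩ := h.comap (Function.Embedding.subtype (fun i => i ∉ R))
  set f : {i // i ∉ R} ↪ ι := Function.Embedding.subtype (fun i => i ∉ R) with hf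
  refine ⟨S1, F ∘ f, l1, h1, ?_, hT1, ?_⟩
  · intro i j hij
    rw [hcr1]
    exact hc _ _ (fun hh => hij (f.injective hh))
  · rintro ⟨u, hu⟩ ⟨v, hv⟩
    constructor
    · rintro ⟨g1, ⟨X, hX, g2⟩, g3⟩
      refine ⟨fun hh => g1 (Subtype.ext hh), hu, hv, ?_, ?_⟩
      · obtain ⟨Y, hY, rfl⟩ := (hT1 X).1 hX
        refine ⟨Y, hY, fun i hi => ?_⟩
        have := g2 ⟨i, hi⟩
        rw [Subtype.mk.injEq, Subtype.mk.injEq] at this
        exact this
      · intro Y hY hi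
        exact g3 (Y ∘ f) ((hT1 _).2 ⟨Y, hY, rfl⟩) (by
          rintro ⟨i, hiR⟩ hh
          rw [Subtype.mk.injEq, Subtype.mk.injEq]
          exact hi i hiR hh)
    · rintro ⟨g1, -, -, ⟨Y, hY, g2⟩, g3⟩
      refine ⟨fun hh => g1 (congrArg Subtype.val hh), ⟨Y ∘ f, (hT1 _).2 ⟨Y, hY, rfl⟩, ?_⟩, ?_⟩
      · rintro ⟨i, hi⟩
        rw [Subtype.mk.injEq, Subtype.mk.injEq]
        exact g2 i hi
      · intro Z hZ hi
        obtain ⟨Y', hY', rfl⟩ := (hT1 Z).1 hZ
        refine g3 Y' hY' fun i hiR hh => ?_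
        have := hi ⟨i, hiR⟩ hh
        rw [Subtype.mk.injEq, Subtype.mk.injEq] at this
        exact this

/-- Three colours: the third one is `R`, the other two come from the minimal pairs off `R`. -/
theorem Sys.Circ.split_of_bip {S : Sys ι} {F : ι → Bool} {l : List (ι × Bool)}
    (h : S.Circ F l) (hc : S.Complete) (R : Finset ι)
    (hodd : ∀ a b c d e, S.PairOff R a b → S.PairOff R b c → S.PairOff R c d →
      S.PairOff R d e → S.PairOff R e a → False)
    (T' : Set (ι → Bool)) (hT : T' ⊆ S.T) (hR : ∀ X ∈ T', 1 ≤ hit R X)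
    (h3 : ∀ X ∈ T', hit R X + 3 ≤ dep X ∨
      ∃ u v, S.PairOff R u v ∧ X u = true ∧ X v = true) :
    ∃ c : ι → Fin 3, ∀ X ∈ T', ∀ j, ∃ i, c i = j ∧ X i = true := by
  classical
  obtain ⟨S1, F1, l1, h1, hc1, hT1, hP⟩ := h.exists_off hc R
  obtain ⟨c, g1, g2⟩ := h1.split_bip hc1 (fun a b c d e k1 k2 k3 k4 k5 =>
    hodd a.1 b.1 c.1 d.1 e.1 ((hP _ _).1 k1) ((hP _ _).1 k2) ((hP _ _).1 k3) ((hP _ _).1 k4)
      ((hP _ _).1 k5))
  set f : {i // i ∉ R} ↪ ι := Function.Embedding.subtype (fun i => i ∉ R) with hf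
  refine mainD_colour (k := 2) R T' hR (fun i => if c i = true then 0 else 1) ?_
  rintro _ ⟨X, hX, rfl⟩ j
  have key : ∀ b : Bool, ∃ i : {i // i ∉ R}, c i = b ∧ (X ∘ f) i = true := by
    intro b
    rcases h3 X hX with h4 | ⟨u, v, h4, hu, hv⟩
    · refine g2 (X ∘ f) ((hT1 _).2 ⟨X, hT hX, rfl⟩) ?_ b
      have := main_dep_compl R X
      rw [← hf] at this
      omega
    · have h5 := g1 ⟨u, h4.2.1⟩ ⟨v, h4.2.2.1⟩ ((hP _ _).2 h4)
      by_cases h6 : c ⟨u, h4.2.1⟩ = b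
      · exact ⟨⟨u, h4.2.1⟩, h6, hu⟩
      · refine ⟨⟨v, h4.2.2.1⟩, ?_, hv⟩
        cases h7 : c ⟨u, h4.2.1⟩ <;> cases h8 : c ⟨v, h4.2.2.1⟩ <;> cases b <;> simp_all
  have hj : j = 0 ∨ j = 1 := by
    fin_cases j <;> simp
  rcases hj with rfl | rfl
  · obtain ⟨i, hi, hXi⟩ := key true
    exact ⟨i, by simp [hi], hXi⟩
  · obtain ⟨i, hi, hXi⟩ := key false
    exact ⟨i, by simp [hi], hXi⟩

end PHP
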