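import Pool.Agent.PHP.CapDefs

/-!
# Cap systems: relative positions, the hull edge around a letter (MP_1180db_co, d = 2, part 3a)
-/

namespace PHP

open Finset

namespace CapSys

variable {ι : Type} [DecidableEq ι] (C : CapSys ι)

/-- the direction of `g` relative to that of `b`, a number in `(-n, n)` -/
def rel (b g : ι) : ℤ :=
  if (C.ang g : ℤ) - C.ang b < -(C.n : ℤ) then (C.ang g : ℤ) - C.ang b + 2 * C.n
  else if (C.n : ℤ) < (C.ang g : ℤ) - C.ang b then (C.ang g : ℤ) - C.ang b - 2 * C.n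
  else (C.ang g : ℤ) - C.ang b

variable {C}

theorem rel_self (b : ι) : C.rel b b = 0 := by
  unfold rel
  split_ifs <;> omega

theorem rel_bound {b g : ι} (h : b ≠ g) : -(C.n : ℤ) < C.rel b g ∧ C.rel b g < C.n := by
  have h1 := C.lt_ang b
  have h2 := C.lt_ang g
  have h3 := C.inj h
  unfold rel
  split_ifs <;> omega

theorem rel_bound' {b g : ι} : -(C.n : ℤ) < C.rel b g ∧ C.rel b g < C.n := by
  by_cases h : b = g
  · subst h
    rw [rel_self]
    have h1 := C.lt_ang b
    omega
  · exact rel_bound h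

theorem rel_inj {b g g' : ι} (h : C.rel b g = C.rel b g') : g = g' := by
  by_contra hne
  have h1 := C.lt_ang b
  have h2 := C.lt_ang g
  have h3 := C.lt_ang g'
  have h4 := C.inj hne
  unfold rel at h
  split_ifs at h <;> omega

theorem rel_pos {b g : ι} : 0 < C.rel b g ↔ C.lt b g := by
  have h1 := C.lt_ang b
  have h2 := C.lt_ang g
  by_cases hne : b = g
  · subst hne
    rw [rel_self]
    constructor
    · intro h
      omega
    · intro h
      exact absurd h lt_irrefl
  have h4 := C.inj hne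
  unfold rel lt
  split_ifs <;> omega

theorem rel_neg {b g : ι} : C.rel b g < 0 ↔ C.lt g b := by
  have h1 := C.lt_ang b
  have h2 := C.lt_ang g
  by_cases hne : b = g
  · subst hne
    rw [rel_self]
    constructor
    · intro h
      omega
    · intro h
      exact absurd h lt_irrefl
  have h4 := C.inj hne
  unfold rel lt
  split_ifs <;> omega

theorem lt_of_rel {b a c : ι} (h : C.rel b a < C.rel b c) (h' : C.rel b c < C.rel b a + C.n) :
    C.lt a c := by
  have h1 := C.lt_ang b
  have h2 := C.lt_ang a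
  have h3 := C.lt_ang c
  by_cases hne : a = c
  · subst hne
    omega
  have h4 := C.inj hne
  unfold rel at h h'
  unfold lt
  split_ifs at h h' <;> omega

theorem rel_window {H : Finset ι} (hH : H ∈ C.caps) {b a c : ι} (hb : b ∈ H) (ha : a ∈ H)
    (hc : c ∈ H) : C.rel b c < C.rel b a + C.n := by
  obtain ⟨t, ht, h1, -⟩ := C.cp hH C.empty_mem
  have k1 := h1 b hb (by simp)
  have k2 := h1 a ha (by simp)
  have k3 := h1 c hc (by simp)
  have g1 := C.lt_ang b
  have g2 := C.lt_ang a
  have g3 := C.lt_ang c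
  unfold inHalf at k1 k2 k3
  unfold rel
  split_ifs <;> omega

/-- for letters of a cap through `b`, `lt` is the order of the relative positions -/
theorem lt_iff_rel {H : Finset ι} (hH : H ∈ C.caps) {b a c : ι} (hb : b ∈ H) (ha : a ∈ H)
    (hc : c ∈ H) : C.lt a c ↔ C.rel b a < C.rel b c := by
  constructor
  · intro h
    by_contra h2
    have h3 : C.rel b a ≠ C.rel b c := fun h3 => lt_ne h (rel_inj h3)
    have h4 : C.rel b c < C.rel b a := by omega
    exact lt_asymm h (lt_of_rel h4 (rel_window hH hb hc ha))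
  · intro h
    exact lt_of_rel h (rel_window hH hb ha hc)

/-- the hull edge `(p, q)` of `S` around `b` -/
structure Edge (C : CapSys ι) (S : Finset ι) (b p q : ι) : Prop where
  hullp : C.Hull S p
  hullq : C.Hull S q
  pb : C.lt p b
  bq : C.lt b q
  pq : C.lt p q
  nearp : ∀ r, C.Hull S r → C.lt p r → C.lt r b → False
  nearq : ∀ r, C.Hull S r → C.lt b r → C.lt r q → False
  hit : ∀ H ∈ C.caps, b ∈ H → p ∈ H ∨ q ∈ H

theorem exists_edge {S : Finset ι} {b : ι} (hb : b ∉ S)
    (hJ : ∀ H ∈ C.caps, b ∈ H → (H ∩ S).Nonempty) : ∃ p q, Edge C S b p q := by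
  classical
  have hlt := C.lt_ang b
  -- hull letters on the right
  have hR : ∃ r ∈ S, C.Hull S r ∧ C.lt b r := by
    obtain ⟨P, hP, hPi⟩ := C.half (C.ang b) hlt
    have hbP : b ∈ P := (hPi b).2 (by unfold inHalf; omega)
    obtain ⟨r, hr, hr2⟩ := Hull.of_step hP (hJ P hP hbP)
    refine ⟨r, hr2.mem, hr2, ?_⟩
    have h1 := (hPi r).1 hr
    have hne : b ≠ r := fun h => hb (h ▸ hr2.mem)
    have h2 := C.inj hne
    have h3 := C.lt_ang r
    unfold inHalf at h1
    unfold lt
    omega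
  have hL : ∃ r ∈ S, C.Hull S r ∧ C.lt r b := by
    obtain ⟨P, hP, hPi⟩ := C.half (if C.n ≤ C.ang b + 1 then C.ang b + 1 - C.n else
      C.ang b + 1 + C.n) (by split_ifs <;> omega)
    have hbP : b ∈ P := (hPi b).2 (by unfold inHalf; split_ifs <;> omega)
    obtain ⟨r, hr, hr2⟩ := Hull.of_step hP (hJ P hP hbP)
    refine ⟨r, hr2.mem, hr2, ?_⟩
    have h1 := (hPi r).1 hr
    have hne : b ≠ r := fun h => hb (h ▸ hr2.mem)
    have h2 := C.inj hne
    have h3 := C.lt_ang r
    unfold inHalf at h1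
    unfold lt
    split_ifs at h1 <;> omega
  -- nearest ones
  let RS : Finset ι := S.filter (fun r => C.Hull S r ∧ C.lt b r)
  let LS : Finset ι := S.filter (fun r => C.Hull S r ∧ C.lt r b)
  have hRS : RS.Nonempty := by
    obtain ⟨r, h1, h2⟩ := hR
    exact ⟨r, mem_filter.2 ⟨h1, h2⟩⟩
  have hLS : LS.Nonempty := by
    obtain ⟨r, h1, h2⟩ := hL
    exact ⟨r, mem_filter.2 ⟨h1, h2⟩⟩
  obtain ⟨q, hq, hqmin⟩ := exists_min_image RS (fun r => C.rel b r) hRS
  obtain ⟨p, hp, hpmax⟩ := exists_max_image LS (fun r => C.rel b r) hLS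
  obtain ⟨hqS, hqh, hbq⟩ := mem_filter.1 hq
  obtain ⟨hpS, hph, hpb⟩ := mem_filter.1 hp
  have hnearp : ∀ r, C.Hull S r → C.lt p r → C.lt r b → False := by
    intro r hr h1 h2
    have h3 := hpmax r (mem_filter.2 ⟨hr.mem, hr, h2⟩)
    have h4 : C.rel b r ≠ C.rel b p := fun h => lt_ne h1 (rel_inj h).symm
    have h5 : C.rel b r < C.rel b p := by omega
    have h6 := rel_neg.2 hpb
    have h7 := (rel_bound' (C := C) (b := b) (g := r)).1
    exact lt_asymm h1 (lt_of_rel h5 (by omega))
  have hnearq : ∀ r, C.Hull S r → C.lt b r → C.lt r q → False := by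
    intro r hr h1 h2
    have h3 := hqmin r (mem_filter.2 ⟨hr.mem, hr, h1⟩)
    have h4 : C.rel b r ≠ C.rel b q := fun h => lt_ne h2 (rel_inj h)
    have h5 : C.rel b q < C.rel b r := by omega
    have h6 := rel_pos.2 hbq
    have h7 := (rel_bound' (C := C) (b := b) (g := r)).2
    exact lt_asymm h2 (lt_of_rel h5 (by omega))
  have hhit : ∀ H ∈ C.caps, b ∈ H → p ∈ H ∨ q ∈ H := by
    intro H hH hbH
    obtain ⟨r, hr, hrh⟩ := Hull.of_step hH (hJ H hH hbH)
    have hne : b ≠ r := fun h => hb (h ▸ hrh.mem)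
    rcases lt_total (C := C) hne with h1 | h1
    · -- right of `b`
      right
      by_cases hrq : r = q
      · exact hrq ▸ hr
      rcases lt_total (C := C) (fun h => hrq h : r ≠ q) with h2 | h2
      · exact absurd (hnearq r hrh h1 h2) id
      · exact Hull.between (Hull.insert hJ hqh) hH hbH hr (mem_insert_self _ _)
          (mem_insert_of_mem hrh.mem) hbq h2 h1
    · left
      by_cases hrp : r = p
      · exact hrp ▸ hr
      rcases lt_total (C := C) (fun h => hrp h : r ≠ p) with h2 | h2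
      · exact Hull.between (Hull.insert hJ hph) hH hr hbH
          (mem_insert_of_mem hrh.mem) (mem_insert_self _ _) h2 hpb h1
      · exact absurd (hnearp r hrh h2 h1) id
  refine ⟨p, q, hph, hqh, hpb, hbq, ?_, hnearp, hnearq, hhit⟩
  -- `p` before `q`
  have hpq : p ≠ q := by
    rintro rfl
    exact lt_asymm hpb hbq
  rcases lt_total (C := C) hpq with h | h
  · exact h
  exfalso
  have hq2 := C.lt_ang q
  have hp2 := C.lt_ang p
  obtain ⟨P, hP, hPi⟩ := C.half (if C.n ≤ C.ang q then C.ang q - C.n else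
      C.ang q + C.n) (by split_ifs <;> omega)
  have hbP : b ∈ P := (hPi b).2 (by unfold lt at hbq hpb h; unfold inHalf; split_ifs <;> omega)
  rcases hhit P hP hbP with h1 | h1
  · have h2 := (hPi p).1 h1
    unfold inHalf at h2
    unfold lt at hbq hpb h
    split_ifs at h2 <;> omega
  · have h2 := (hPi q).1 h1
    unfold inHalf at h2
    split_ifs at h2 <;> omega

theorem Edge.q_aux {S : Finset ι} {b2 p q1 q2 : ι} (hb2 : b2 ∉ S) (hq1 : C.Hull S q1)
    (hp : C.lt p q1) (h2 : Edge C S b2 p q2) (h : C.lt q1 q2) : False := by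
  have hne : b2 ≠ q1 := fun h' => hb2 (h' ▸ hq1.mem)
  rcases lt_total (C := C) hne with h3 | h3
  · exact h2.nearq q1 hq1 h3 h
  · exact h2.nearp q1 hq1 hp h3

theorem Edge.p_aux {S : Finset ι} {b1 p1 p2 q : ι} (hb1 : b1 ∉ S) (hp2 : C.Hull S p2)
    (hq : C.lt p2 q) (h1 : Edge C S b1 p1 q) (h : C.lt p1 p2) : False := by
  have hne : b1 ≠ p2 := fun h' => hb1 (h' ▸ hp2.mem)
  rcases lt_total (C := C) hne with h3 | h3
  · exact h1.nearq p2 hp2 h3 hq
  · exact h1.nearp p2 hp2 h h3

theorem Edge.q_unique {S : Finset ι} {b1 b2 p q1 q2 : ι} (hb1 : b1 ∉ S) (hb2 : b2 ∉ S)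
    (h1 : Edge C S b1 p q1) (h2 : Edge C S b2 p q2) : q1 = q2 := by
  by_contra hne
  rcases lt_total (C := C) hne with h | h
  · exact Edge.q_aux hb2 h1.hullq h1.pq h2 h
  · exact Edge.q_aux hb1 h2.hullq h2.pq h1 h

theorem Edge.p_unique {S : Finset ι} {b1 b2 p1 p2 q : ι} (hb1 : b1 ∉ S) (hb2 : b2 ∉ S)
    (h1 : Edge C S b1 p1 q) (h2 : Edge C S b2 p2 q) : p1 = p2 := by
  by_contra hne
  rcases lt_total (C := C) hne with h | h
  · exact Edge.p_aux hb1 h2.hullp h2.pq h1 h
  · exact Edge.p_aux hb2 h1.hullp h1.pq h2 h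

end CapSys

end PHP
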