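import Pool.Agent.PHP.CapEdge

/-!
# Cap systems: the final 2-colouring with two exceptional pairs (MP_1180db_co, k = 3)

`S` red letters, `f, g` blue letters, `h` a red letter that has to get the colour of `g`: there is a cap
`G` with `g ∈ G`, `G ∩ S = {h}`. Every cap through `g` meets `S`, every cap through `f` meets `S` without `h`.
-/

namespace PHP

open Finset

namespace CapSys

variable {ι : Type} [DecidableEq ι] {C : CapSys ι}

/-- FINAL STEP with two exceptional pairs `{f, g}`, `{f, h}`: the letters of `A` get the colour of `f`, the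
letters of `S \ A` (one of them is `h`) the colour of `g`. -/
theorem exists_pair_split {S : Finset ι} {f g h : ι} {D : Set (Finset ι)} (hD : D ⊆ C.caps)
    (hfS : f ∉ S) (hgS : g ∉ S)
    (hJg : ∀ H ∈ C.caps, g ∈ H → (H ∩ S).Nonempty)
    (hJf : ∀ H ∈ C.caps, f ∈ H → (H ∩ S.erase h).Nonempty)
    (hG : ∃ G ∈ C.caps, g ∈ G ∧ f ∉ G ∧ G ∩ S = {h})
    (h2 : ∀ H ∈ D, f ∈ H ∨ g ∈ H → 2 ≤ (H ∩ S).card)
    (h3 : ∀ H ∈ D, f ∈ H → g ∈ H → 3 ≤ (H ∩ S).card) :
    ∃ A ⊆ S, h ∉ A ∧ (∀ H ∈ D, f ∈ H → (H ∩ A).Nonempty) ∧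
      ∀ H ∈ D, g ∈ H → (H ∩ (S \ A)).Nonempty := by
  classical
  obtain ⟨G, hGc, hgG, hfG, hGS⟩ := hG
  have hmem : ∀ x, x ∈ S → x ∈ G → x = h := by
    intro x hx hxG
    have h5 : x ∈ G ∩ S := mem_inter.2 ⟨hxG, hx⟩
    rw [hGS] at h5
    exact mem_singleton.1 h5
  have hhS : h ∈ S := by
    have h5 : h ∈ G ∩ S := by rw [hGS]; exact mem_singleton_self h
    exact (mem_inter.1 h5).2
  obtain ⟨p, q, he⟩ := exists_edge hgS hJg
  -- the hull edge around `g` is `{h, r}`
  obtain ⟨r, hrS, hrh, hhit, hbt⟩ : ∃ r ∈ S, r ≠ h ∧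
      (∀ H ∈ C.caps, g ∈ H → h ∈ H ∨ r ∈ H) ∧
      ((C.lt h g ∧ C.lt g r ∧ C.lt h r) ∨ (C.lt r g ∧ C.lt g h ∧ C.lt r h)) := by
    rcases he.hit G hGc hgG with h5 | h5
    · have h6 := hmem p he.hullp.mem h5
      subst h6
      exact ⟨q, he.hullq.mem, (lt_ne he.pq).symm, he.hit, Or.inl ⟨he.pb, he.bq, he.pq⟩⟩
    · have h6 := hmem q he.hullq.mem h5
      subst h6
      exact ⟨p, he.hullp.mem, lt_ne he.pq, fun H hH hg => (he.hit H hH hg).symm,
        Or.inr ⟨he.pb, he.bq, he.pq⟩⟩
  by_cases hK : ∃ K ∈ D, f ∈ K ∧ K ∩ S = {h, r}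
  · obtain ⟨K, hKD, hfK, hKS⟩ := hK
    have hKc := hD hKD
    have hcard : (K ∩ S).card = 2 := by rw [hKS, card_pair hrh.symm]
    have hgK : g ∉ K := by
      intro h5
      have h6 := h3 K hKD hfK h5
      omega
    have hhK : h ∈ K := by
      have h5 : h ∈ K ∩ S := by rw [hKS]; exact mem_insert_self _ _
      exact (mem_inter.1 h5).1
    have hrK : r ∈ K := by
      have h5 : r ∈ K ∩ S := by rw [hKS]; exact mem_insert_of_mem (mem_singleton_self _)
      exact (mem_inter.1 h5).1
    have hKmem : ∀ x, x ∈ S → x ≠ h → x ∈ K → x = r := by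
      intro x hx hxh hxK
      have h5 : x ∈ K ∩ S := mem_inter.2 ⟨hxK, hx⟩
      rw [hKS, mem_insert, mem_singleton] at h5
      exact h5.resolve_left hxh
    obtain ⟨u, v, he2⟩ := exists_edge (S := S.erase h) (fun h5 => hfS (mem_of_mem_erase h5)) hJf
    have huS : u ∈ S := mem_of_mem_erase he2.hullp.mem
    have hvS : v ∈ S := mem_of_mem_erase he2.hullq.mem
    have huh : u ≠ h := ne_of_mem_erase he2.hullp.mem
    have hvh : v ≠ h := ne_of_mem_erase he2.hullq.mem
    have hruv : r = u ∨ r = v := by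
      rcases he2.hit K hKc hfK with h5 | h5
      · exact Or.inl (hKmem u huS huh h5).symm
      · exact Or.inr (hKmem v hvS hvh h5).symm
    refine ⟨{u, v}, ?_, ?_, ?_, ?_⟩
    · intro x hx
      rw [mem_insert, mem_singleton] at hx
      rcases hx with rfl | rfl
      · exact huS
      · exact hvS
    · rw [mem_insert, mem_singleton]
      rintro (h5 | h5)
      · exact huh h5.symm
      · exact hvh h5.symm
    · intro H hH hfH
      rcases he2.hit H (hD hH) hfH with h5 | h5
      · exact ⟨u, mem_inter.2 ⟨h5, mem_insert_self _ _⟩⟩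
      · exact ⟨v, mem_inter.2 ⟨h5, mem_insert_of_mem (mem_singleton_self _)⟩⟩
    · intro L hL hgL
      by_contra hemp
      rw [not_nonempty_iff_eq_empty] at hemp
      have hLc := hD hL
      have hsub : L ∩ S ⊆ {u, v} := by
        intro x hx
        rw [mem_inter] at hx
        by_contra hx2
        have h5 : x ∈ L ∩ (S \ {u, v}) := mem_inter.2 ⟨hx.1, mem_sdiff.2 ⟨hx.2, hx2⟩⟩
        rw [hemp] at h5
        exact absurd h5 (notMem_empty x)
      have hLcard := le_trans (card_le_card hsub) card_le_two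
      have hLeq : L ∩ S = {u, v} :=
        eq_of_subset_of_card_le hsub (le_trans card_le_two (h2 L hL (Or.inr hgL)))
      have hfL : f ∉ L := by
        intro h5
        have h6 := h3 L hL h5 hgL
        omega
      have hhL : h ∉ L := by
        intro h5
        have h6 := hsub (mem_inter.2 ⟨h5, hhS⟩)
        rw [mem_insert, mem_singleton] at h6
        rcases h6 with h6 | h6
        · exact huh h6.symm
        · exact hvh h6.symm
      have hrL : r ∈ L := by
        have h5 : r ∈ L ∩ S := by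
          rw [hLeq, mem_insert, mem_singleton]
          exact hruv
        exact (mem_inter.1 h5).1
      have hrG : r ∉ G := fun h5 => hrh (hmem r hrS h5)
      obtain ⟨c1, hc1, i1, j1⟩ := C.cp hKc hLc
      obtain ⟨c2, hc2, i2, j2⟩ := C.cp hKc hGc
      obtain ⟨c3, hc3, i3, -⟩ := C.cp hKc C.empty_mem
      have a1 := i1 h hhK hhL
      have a2 := i1 f hfK hfL
      have a3 := j1 g hgL hgK
      have b1 := i2 f hfK hfG
      have b2 := i2 r hrK hrG
      have b3 := j2 g hgG hgK
      have d1 := i3 h hhK (by simp)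
      have d2 := i3 r hrK (by simp)
      have d3 := i3 f hfK (by simp)
      have e1 := C.lt_ang g
      have e2 := C.lt_ang h
      have e3 := C.lt_ang r
      have e4 := C.lt_ang f
      unfold inHalf at a1 a2 a3 b1 b2 b3 d1 d2 d3
      unfold lt at hbt
      omega
  · refine ⟨S \ {h, r}, sdiff_subset, ?_, ?_, ?_⟩
    · intro h5
      exact (mem_sdiff.1 h5).2 (mem_insert_self _ _)
    · intro H hH hfH
      by_contra hemp
      rw [not_nonempty_iff_eq_empty] at hemp
      have hsub : H ∩ S ⊆ {h, r} := by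
        intro x hx
        rw [mem_inter] at hx
        by_contra hx2
        have h5 : x ∈ H ∩ (S \ {h, r}) := mem_inter.2 ⟨hx.1, mem_sdiff.2 ⟨hx.2, hx2⟩⟩
        rw [hemp] at h5
        exact absurd h5 (notMem_empty x)
      exact hK ⟨H, hH, hfH, eq_of_subset_of_card_le hsub
        (le_trans card_le_two (h2 H hH (Or.inl hfH)))⟩
    · intro H hH hgH
      rcases hhit H (hD hH) hgH with h5 | h5
      · refine ⟨h, mem_inter.2 ⟨h5, mem_sdiff.2 ⟨hhS, ?_⟩⟩⟩
        intro h6
        exact (mem_sdiff.1 h6).2 (mem_insert_self _ _)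
      · refine ⟨r, mem_inter.2 ⟨h5, mem_sdiff.2 ⟨hrS, ?_⟩⟩⟩
        intro h6
        exact (mem_sdiff.1 h6).2 (mem_insert_of_mem (mem_singleton_self _))

end CapSys

end PHP
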