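import Mathlib

/-!
# Fractional decomposition: one exchange step

Tokens are indexed by pairs of ranks `(i, j)` with `i + j < m`. A token `a` sits at the index
`σ a`; `R a` is the set of letters it has used so far.
-/

set_option linter.unusedSectionVars false

namespace PHP

open Finset

/-- index pairs of tokens -/
abbrev Tok (m : ℕ) : Type := {p : Fin m × Fin m // p.1.val + p.2.val < m}

variable {ι : Type} [Fintype ι] [DecidableEq ι]

/-- number of tokens using the letter `v` -/
def cnt {m : ℕ} (R : Tok m → Finset ι) (v : ι) : ℕ := (univ.filter (fun a => v ∈ R a)).card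

/-- every token has used the letters of the ranks at which it sits -/
def TokInv {m : ℕ} (rU rD : ι → ℕ) (R : Tok m → Finset ι) (σ : Tok m → Tok m) : Prop :=
  Function.Injective σ ∧ ∀ a v, (rU v = (σ a).1.1.val → v ∈ R a) ∧ (rD v = (σ a).1.2.val → v ∈ R a)

/-- the move of the indices at an exchange of the ranks `i` and `i+1` of the first kind -/
def tau (m i : ℕ) (p : Tok m) : Tok m :=
  if h : p.1.1.val = i ∧ i + 1 + p.1.2.val < m then
    ⟨(⟨i + 1, by omega⟩, p.1.2), by simpa using h.2⟩
  else if h' : p.1.1.val = i + 1 then
    ⟨(⟨i, by have := p.1.1.2; omega⟩, p.1.2), by have := p.2; simp only; omega⟩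
  else p

theorem tau_tau (m i : ℕ) (p : Tok m) : tau m i (tau m i p) = p := by
  obtain ⟨⟨⟨x, hx⟩, ⟨y, hy⟩⟩, hp⟩ := p
  simp only at hp
  unfold tau
  by_cases h1 : x = i ∧ i + 1 + y < m
  · obtain ⟨rfl, h2⟩ := h1
    simp [h2]
  · by_cases h2 : x = i + 1
    · subst h2
      simp [hp]
    · simp [h1, h2]

theorem tau_inj (m i : ℕ) : Function.Injective (tau m i) := by
  intro p q h
  rw [← tau_tau m i p, h, tau_tau]

theorem tau_snd (m i : ℕ) (p : Tok m) : (tau m i p).1.2 = p.1.2 := by
  unfold tau
  split_ifs <;> rfl

/-- One exchange of the letters `x` (rank `i`) and `y` (rank `i+1`) of the first kind. -/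
theorem step_first {m : ℕ} {rU rD rU' : ι → ℕ} {R : Tok m → Finset ι} {σ : Tok m → Tok m}
    (h : TokInv rU rD R σ) {x y : ι} {i : ℕ} (hx : rU x = i) (hy : rU y = i + 1)
    (hx' : rU' x = i + 1) (hy' : rU' y = i) (hz : ∀ z, z ≠ x → z ≠ y → rU' z = rU z)
    (hux : ∀ z, rU z = i → i < m → z = x) (huy : ∀ z, rU z = i + 1 → i + 1 < m → z = y) :
    ∃ (R' : Tok m → Finset ι) (σ' : Tok m → Tok m), TokInv rU' rD R' σ' ∧ (∀ a, R a ⊆ R' a) ∧
      (∀ v, v ≠ y → cnt R' v = cnt R v) ∧ cnt R' y ≤ cnt R y + (if i < m then 1 else 0) := by
  classical
  obtain ⟨hinj, hR⟩ := h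
  have hxy : x ≠ y := by
    rintro rfl
    omega
  refine ⟨fun a => if (σ a).1.1.val = i ∧ (σ a).1.1.val + (σ a).1.2.val + 1 = m
    then insert y (R a) else R a, fun a => tau m i (σ a), ⟨(tau_inj m i).comp hinj, ?_⟩, ?_, ?_, ?_⟩
  · intro a v
    dsimp only
    have hsub : v ∈ R a → v ∈ (if (σ a).1.1.val = i ∧ (σ a).1.1.val + (σ a).1.2.val + 1 = m
        then insert y (R a) else R a) := by
      intro hv
      split_ifs
      · exact mem_insert_of_mem hv
      · exact hv
    constructor
    · intro hv
      by_cases h1 : (σ a).1.1.val = i ∧ i + 1 + (σ a).1.2.val < m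
      · -- the token moves to rank i+1
        have ht : (tau m i (σ a)).1.1.val = i + 1 := by
          unfold tau
          rw [dif_pos h1]
        rw [ht] at hv
        have hvx : v = x := by
          by_contra hne
          by_cases hvy : v = y
          · subst hvy
            omega
          · rw [hz v hne hvy] at hv
            exact hvy (huy v hv (by omega))
        apply hsub
        apply (hR a v).1
        rw [hvx, hx, h1.1]
      · by_cases h2 : (σ a).1.1.val = i + 1
        · have ht : (tau m i (σ a)).1.1.val = i := by
            unfold tau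
            rw [dif_neg h1, dif_pos h2]
          rw [ht] at hv
          have hvy : v = y := by
            by_contra hne
            by_cases hvx : v = x
            · subst hvx
              omega
            · rw [hz v hvx hne] at hv
              have := (σ a).2
              exact hvx (hux v hv (by omega))
          apply hsub
          apply (hR a v).1
          rw [hvy, hy, h2]
        · have ht : tau m i (σ a) = σ a := by
            unfold tau
            rw [dif_neg h1, dif_neg h2]
          rw [ht] at hv
          by_cases h3 : (σ a).1.1.val = i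
          · have h4 : (σ a).1.1.val = i ∧ (σ a).1.1.val + (σ a).1.2.val + 1 = m := by
              refine ⟨h3, ?_⟩
              have := (σ a).2
              have h5 : ¬ (i + 1 + (σ a).1.2.val < m) := fun h => h1 ⟨h3, h⟩
              omega
            rw [if_pos h4]
            have hvy : v = y := by
              by_contra hne
              by_cases hvx : v = x
              · subst hvx
                omega
              · rw [hz v hvx hne] at hv
                exact hvx (hux v (by omega) (by have := (σ a).2; omega))
            rw [hvy]
            exact mem_insert_self _ _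
          · apply hsub
            apply (hR a v).1
            by_cases hvx : v = x
            · subst hvx
              omega
            · by_cases hvy : v = y
              · subst hvy
                omega
              · rw [← hz v hvx hvy]
                exact hv
    · intro hv
      rw [tau_snd] at hv
      exact hsub ((hR a v).2 hv)
  · intro a
    dsimp only
    split_ifs
    · exact subset_insert _ _
    · exact Subset.refl _
  · intro v hvy
    unfold cnt
    congr 1
    ext a
    simp only [mem_filter, mem_univ, true_and]
    split_ifs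
    · simp [hvy]
    · rfl
  · unfold cnt
    by_cases him : i < m
    · rw [if_pos him]
      have hsub : (univ.filter (fun a => y ∈ (if (σ a).1.1.val = i ∧
          (σ a).1.1.val + (σ a).1.2.val + 1 = m then insert y (R a) else R a))) ⊆
          (univ.filter (fun a => y ∈ R a)) ∪
          (univ.filter (fun a => (σ a).1.1.val = i ∧ (σ a).1.1.val + (σ a).1.2.val + 1 = m)) := by
        intro a ha
        simp only [mem_filter, mem_univ, true_and, mem_union] at ha ⊢
        by_cases hc : (σ a).1.1.val = i ∧ (σ a).1.1.val + (σ a).1.2.val + 1 = m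
        · right; exact hc
        · left
          rw [if_neg hc] at ha
          exact ha
      refine (card_le_card hsub).trans ((card_union_le _ _).trans ?_)
      have : (univ.filter (fun a => (σ a).1.1.val = i ∧
          (σ a).1.1.val + (σ a).1.2.val + 1 = m)).card ≤ 1 := by
        rw [card_le_one]
        intro a ha b hb
        simp only [mem_filter, mem_univ, true_and] at ha hb
        apply hinj
        apply Subtype.ext
        apply Prod.ext
        · apply Fin.ext
          omega
        · apply Fin.ext
          omega
      omega
    · rw [if_neg him, Nat.add_zero]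
      apply card_le_card
      intro a ha
      simp only [mem_filter, mem_univ, true_and] at ha ⊢
      have hc : ¬ ((σ a).1.1.val = i ∧ (σ a).1.1.val + (σ a).1.2.val + 1 = m) := by
        rintro ⟨h1, -⟩
        have := (σ a).1.1.2
        omega
      rw [if_neg hc] at ha
      exact ha

/-- transposition of the indices -/
def tr {m : ℕ} (p : Tok m) : Tok m := ⟨(p.1.2, p.1.1), by have := p.2; simp only; omega⟩

theorem tr_tr {m : ℕ} (p : Tok m) : tr (tr p) = p := rfl

theorem tr_inj {m : ℕ} : Function.Injective (tr (m := m)) := by
  intro p q h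
  rw [← tr_tr p, h, tr_tr]

theorem TokInv.transpose {m : ℕ} {rU rD : ι → ℕ} {R : Tok m → Finset ι} {σ : Tok m → Tok m}
    (h : TokInv rU rD R σ) : TokInv rD rU R (fun a => tr (σ a)) := by
  refine ⟨tr_inj.comp h.1, fun a v => ⟨fun hv => (h.2 a v).2 hv, fun hv => (h.2 a v).1 hv⟩⟩

theorem step_second {m : ℕ} {rU rD rD' : ι → ℕ} {R : Tok m → Finset ι} {σ : Tok m → Tok m}
    (h : TokInv rU rD R σ) {x y : ι} {i : ℕ} (hx : rD x = i) (hy : rD y = i + 1)
    (hx' : rD' x = i + 1) (hy' : rD' y = i) (hz : ∀ z, z ≠ x → z ≠ y → rD' z = rD z)
    (hux : ∀ z, rD z = i → i < m → z = x) (huy : ∀ z, rD z = i + 1 → i + 1 < m → z = y) :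
    ∃ (R' : Tok m → Finset ι) (σ' : Tok m → Tok m), TokInv rU rD' R' σ' ∧ (∀ a, R a ⊆ R' a) ∧
      (∀ v, v ≠ y → cnt R' v = cnt R v) ∧ cnt R' y ≤ cnt R y + (if i < m then 1 else 0) := by
  obtain ⟨R', σ', h1, h2, h3, h4⟩ := step_first h.transpose hx hy hx' hy' hz hux huy
  exact ⟨R', _, h1.transpose, h2, h3, h4⟩

/-- number of tokens with a given first rank -/
theorem card_fst (m r : ℕ) :
    (univ.filter (fun a : Tok m => a.1.1.val = r)).card = m - r := by
  by_cases hr : r < m
  · have : (univ.filter (fun a : Tok m => a.1.1.val = r)).card = (range (m - r)).card := by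
      symm
      apply card_bij (fun j hj => (⟨(⟨r, hr⟩, ⟨j, by rw [mem_range] at hj; omega⟩),
        by rw [mem_range] at hj; simp only; omega⟩ : Tok m))
      · intro j hj
        simp
      · intro j hj j' hj' h
        have := congrArg (fun a : Tok m => a.1.2.val) h
        simpa using this
      · intro a ha
        rw [mem_filter] at ha
        refine ⟨a.1.2.val, ?_, ?_⟩
        · rw [mem_range]
          have := a.2
          omega
        · apply Subtype.ext
          apply Prod.ext
          · apply Fin.ext
            exact ha.2.symm
          · rfl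
    rw [this, card_range]
  · rw [Nat.sub_eq_zero_of_le (by omega), card_eq_zero, filter_eq_empty_iff]
    intro a _ ha
    have := a.1.1.2
    omega

theorem card_snd (m r : ℕ) :
    (univ.filter (fun a : Tok m => a.1.2.val = r)).card = m - r := by
  rw [← card_fst m r]
  apply card_bij (fun a _ => tr a)
  · intro a ha
    simpa [tr] using ha
  · intro a _ b _ h
    exact tr_inj h
  · intro b hb
    exact ⟨tr b, by simpa [tr] using hb, tr_tr b⟩

theorem card_tok_two (m : ℕ) : 2 * Fintype.card (Tok m) = m * (m + 1) := by
  have h1 : Fintype.card (Tok m) = ∑ r ∈ range m, (m - r) := by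
    rw [← card_univ, card_eq_sum_card_fiberwise (f := fun a : Tok m => a.1.1.val) (t := range m)]
    · exact sum_congr rfl (fun r _ => card_fst m r)
    · intro a _
      simp
  have h2 : ∑ r ∈ range m, (m - r) = ∑ r ∈ range m, (r + 1) := by
    rw [← sum_range_reflect]
    apply sum_congr rfl
    intro r hr
    rw [mem_range] at hr
    omega
  rw [h1, h2, sum_add_distrib, sum_const, card_range, smul_eq_mul, mul_one, mul_add, mul_comm 2,
    sum_range_id_mul_two]
  rcases m with _ | m
  · rfl
  · simp only [Nat.add_sub_cancel]
    ring

theorem card_tok (m : ℕ) : Fintype.card (Tok m) = m * (m + 1) / 2 := by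
  have := card_tok_two m
  omega

end PHP
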