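import Mathlib
import Pool.Agent.PHP.FracStep
import Pool.Agent.PHP.Defs
import Pool.Agent.PHP.TripleAff

/-!
# Fractional decomposition of a sweep

Letters with `F i = false` (U letters) contain the cells below them, letters with `F i = true`
(D letters) the cells above them. The token `a` always holds the U letter of rank `i` from above
and the D letter of rank `j` from below, `i + j < m`; a cell missed by both has depth at most
`i + j < m`. At an exchange of two letters of the same kind only the tokens with `i + j + 1 = m`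
change their letter. Every letter is used by at most `m` of the `m (m+1) / 2` tokens.
-/

set_option linter.unusedSectionVars false

namespace PHP

open Finset

variable {ι : Type} [Fintype ι] [DecidableEq ι]

/-- rank of `v` among the letters with `P`, for the order `g` -/
def rk (P : ι → Bool) (g : ι → ℕ) (v : ι) : ℕ :=
  (univ.filter (fun u => P u = true ∧ g u < g v)).card

/-- number of letters before `v`, both now and at the beginning -/
def al (P : ι → Bool) (g g0 : ι → ℕ) (v : ι) : ℕ :=
  (univ.filter (fun u => P u = true ∧ g u < g v ∧ g0 u < g0 v)).card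

theorem al_le_rk (P : ι → Bool) (g g0 : ι → ℕ) (v : ι) : al P g g0 v ≤ rk P g v := by
  unfold al rk
  apply card_le_card
  intro u hu
  simp only [mem_filter, mem_univ, true_and] at hu ⊢
  exact ⟨hu.1, hu.2.1⟩

theorem al_self (P : ι → Bool) (g : ι → ℕ) (v : ι) : al P g g v = rk P g v := by
  unfold al rk
  congr 1
  ext u
  simp only [mem_filter, mem_univ, true_and]
  tauto

theorem rk_lt {P : ι → Bool} {g : ι → ℕ} {v w : ι} (hv : P v = true) (h : g v < g w) :
    rk P g v < rk P g w := by
  unfold rk
  apply card_lt_card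
  rw [ssubset_iff_of_subset]
  · exact ⟨v, by simp [hv, h], by simp⟩
  · intro u hu
    simp only [mem_filter, mem_univ, true_and] at hu ⊢
    exact ⟨hu.1, hu.2.trans h⟩

theorem rk_inj {P : ι → Bool} {g : ι → ℕ} (hg : Function.Injective g) {v w : ι}
    (hv : P v = true) (hw : P w = true) (h : rk P g v = rk P g w) : v = w := by
  by_contra hne
  rcases lt_trichotomy (g v) (g w) with h1 | h1 | h1
  · have := rk_lt hv h1
    omega
  · exact hne (hg h1)
  · have := rk_lt hw h1
    omega

theorem exists_rank {P : ι → Bool} {g : ι → ℕ} (hg : Function.Injective g) {p i : ℕ}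
    (h : i < (univ.filter (fun u => P u = true ∧ g u < p)).card) :
    ∃ v, P v = true ∧ g v < p ∧ rk P g v = i := by
  classical
  set S := univ.filter (fun u => P u = true ∧ g u < p) with hS
  have hmap : ∀ v ∈ S, rk P g v ∈ range S.card := by
    intro v hv
    rw [mem_range]
    rw [hS, mem_filter] at hv
    unfold rk
    apply card_lt_card
    rw [ssubset_iff_of_subset]
    · exact ⟨v, by rw [hS, mem_filter]; exact hv, by simp⟩
    · intro u hu
      rw [hS]
      simp only [mem_filter, mem_univ, true_and] at hu ⊢
      exact ⟨hu.1, hu.2.trans hv.2.2⟩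
  have hinj : ∀ v ∈ S, ∀ w ∈ S, rk P g v = rk P g w → v = w := by
    intro v hv w hw
    rw [hS, mem_filter] at hv hw
    exact rk_inj hg hv.2.1 hw.2.1
  have himg : S.image (rk P g) = range S.card := by
    apply eq_of_subset_of_card_le
    · intro r hr
      obtain ⟨v, hv, rfl⟩ := mem_image.1 hr
      exact hmap v hv
    · rw [card_range, card_image_of_injOn (fun v hv w hw => hinj v hv w hw)]
  have : i ∈ S.image (rk P g) := by
    rw [himg, mem_range]
    exact h
  obtain ⟨v, hv, hvi⟩ := mem_image.1 this
  rw [hS, mem_filter] at hv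
  exact ⟨v, hv.2.1, hv.2.2, hvi⟩

/-- an adjacent exchange -/
structure Exch (g g' : ι → ℕ) (x y : ι) : Prop where
  inj : Function.Injective g
  adj : g y = g x + 1
  x' : g' x = g y
  y' : g' y = g x
  z' : ∀ z, z ≠ x → z ≠ y → g' z = g z

namespace Exch

variable {g g' : ι → ℕ} {x y : ι}

theorem ne (h : Exch g g' x y) : x ≠ y := by
  intro hxy
  have := h.adj
  rw [hxy] at this
  omega

theorem gz (h : Exch g g' x y) {z : ι} (hzx : z ≠ x) (hzy : z ≠ y) : g z ≠ g x ∧ g z ≠ g y :=
  ⟨fun hh => hzx (h.inj hh), fun hh => hzy (h.inj hh)⟩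

/-- comparisons with a letter that does not move -/
theorem lt_iff_z (h : Exch g g' x y) {z : ι} (hzx : z ≠ x) (hzy : z ≠ y) (u : ι) :
    g' u < g' z ↔ g u < g z := by
  have h1 := h.z' z hzx hzy
  have h2 := h.gz hzx hzy
  have h3 := h.adj
  by_cases hux : u = x
  · subst hux
    rw [h.x', h1]
    omega
  · by_cases huy : u = y
    · subst huy
      rw [h.y', h1]
      omega
    · rw [h.z' u hux huy, h1]

theorem lt_iff_x (h : Exch g g' x y) (u : ι) : g' u < g' x ↔ (g u < g x ∨ u = y) := by
  have h3 := h.adj
  by_cases hux : u = x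
  · subst hux
    have := h.ne
    simp [this]
  · by_cases huy : u = y
    · subst huy
      rw [h.y', h.x']
      simp [h3]
    · rw [h.z' u hux huy, h.x']
      have := h.gz hux huy
      simp only [huy, or_false]
      omega

theorem lt_iff_y (h : Exch g g' x y) (u : ι) : g' u < g' y ↔ g u < g x := by
  have h3 := h.adj
  by_cases hux : u = x
  · subst hux
    rw [h.x', h.y']
    omega
  · by_cases huy : u = y
    · subst huy
      rw [h.y']
      omega
    · rw [h.z' u hux huy, h.y']

theorem lt_iff_y_old (h : Exch g g' x y) (u : ι) : g u < g y ↔ (g u < g x ∨ u = x) := by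
  have h3 := h.adj
  by_cases hux : u = x
  · subst hux
    simp [h3]
  · have : g u ≠ g x := fun hh => hux (h.inj hh)
    simp only [hux, or_false]
    omega

theorem rk_z (h : Exch g g' x y) (P : ι → Bool) {z : ι} (hzx : z ≠ x) (hzy : z ≠ y) :
    rk P g' z = rk P g z := by
  unfold rk
  congr 1
  ext u
  simp only [mem_filter, mem_univ, true_and, h.lt_iff_z hzx hzy u]

theorem rk_x (h : Exch g g' x y) {P : ι → Bool} (hy : P y = true) :
    rk P g' x = rk P g x + 1 := by
  unfold rk
  have : (univ.filter (fun u => P u = true ∧ g' u < g' x)) =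
      insert y (univ.filter (fun u => P u = true ∧ g u < g x)) := by
    ext u
    simp only [mem_filter, mem_univ, true_and, mem_insert, h.lt_iff_x u]
    constructor
    · rintro ⟨h1, h2 | h2⟩
      · right; exact ⟨h1, h2⟩
      · left; exact h2
    · rintro (h1 | h1)
      · rw [h1]; exact ⟨hy, Or.inr rfl⟩
      · exact ⟨h1.1, Or.inl h1.2⟩
  rw [this, card_insert_of_notMem]
  simp only [mem_filter, mem_univ, true_and, not_and, not_lt]
  intro _
  have := h.adj
  omega

theorem rk_x_not (h : Exch g g' x y) {P : ι → Bool} (hy : P y = false) :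
    rk P g' x = rk P g x := by
  unfold rk
  congr 1
  ext u
  simp only [mem_filter, mem_univ, true_and, h.lt_iff_x u]
  constructor
  · rintro ⟨h1, h2 | h2⟩
    · exact ⟨h1, h2⟩
    · rw [h2, hy] at h1
      exact absurd h1 (by simp)
  · rintro ⟨h1, h2⟩
    exact ⟨h1, Or.inl h2⟩

theorem rk_y (h : Exch g g' x y) (P : ι → Bool) : rk P g' y = rk P g x := by
  unfold rk
  congr 1
  ext u
  simp only [mem_filter, mem_univ, true_and, h.lt_iff_y u]

theorem rk_y_old (h : Exch g g' x y) {P : ι → Bool} (hx : P x = true) :
    rk P g y = rk P g x + 1 := by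
  unfold rk
  have : (univ.filter (fun u => P u = true ∧ g u < g y)) =
      insert x (univ.filter (fun u => P u = true ∧ g u < g x)) := by
    ext u
    simp only [mem_filter, mem_univ, true_and, mem_insert, h.lt_iff_y_old u]
    constructor
    · rintro ⟨h1, h2 | h2⟩
      · right; exact ⟨h1, h2⟩
      · left; exact h2
    · rintro (h1 | h1)
      · rw [h1]; exact ⟨hx, Or.inr rfl⟩
      · exact ⟨h1.1, Or.inl h1.2⟩
  rw [this, card_insert_of_notMem]
  simp

theorem rk_y_not (h : Exch g g' x y) {P : ι → Bool} (hx : P x = false) :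
    rk P g' y = rk P g y := by
  unfold rk
  congr 1
  ext u
  simp only [mem_filter, mem_univ, true_and, h.lt_iff_y u, h.lt_iff_y_old u]
  constructor
  · rintro ⟨h1, h2⟩
    exact ⟨h1, Or.inl h2⟩
  · rintro ⟨h1, h2 | h2⟩
    · exact ⟨h1, h2⟩
    · rw [h2, hx] at h1
      exact absurd h1 (by simp)

theorem al_le (h : Exch g g' x y) {g0 : ι → ℕ} (h0 : g0 x < g0 y) (P : ι → Bool) (v : ι) :
    al P g' g0 v ≤ al P g g0 v := by
  unfold al
  apply card_le_card
  intro u hu
  simp only [mem_filter, mem_univ, true_and] at hu ⊢
  refine ⟨hu.1, ?_, hu.2.2⟩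
  have h1 := hu.2.1
  by_cases hvx : v = x
  · subst hvx
    rw [h.lt_iff_x] at h1
    rcases h1 with h1 | h1
    · exact h1
    · subst h1
      have := hu.2.2
      omega
  · by_cases hvy : v = y
    · subst hvy
      rw [h.lt_iff_y] at h1
      have := h.adj
      omega
    · rwa [h.lt_iff_z hvx hvy] at h1

theorem al_y (h : Exch g g' x y) {g0 : ι → ℕ} (h0 : g0 x < g0 y) {P : ι → Bool}
    (hx : P x = true) : al P g' g0 y + 1 ≤ al P g g0 y := by
  unfold al
  rw [Nat.add_one_le_iff]
  apply card_lt_card
  rw [ssubset_iff_of_subset]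
  · refine ⟨x, ?_, ?_⟩
    · simp only [mem_filter, mem_univ, true_and]
      exact ⟨hx, by rw [h.adj]; omega, h0⟩
    · simp only [mem_filter, mem_univ, true_and, h.lt_iff_y]
      simp
  · intro u hu
    simp only [mem_filter, mem_univ, true_and, h.lt_iff_y] at hu
    simp only [mem_filter, mem_univ, true_and]
    have := h.adj
    exact ⟨hu.1, by omega, hu.2.2⟩

end Exch

/-- the rank function of one kind, with the value `m` for the letters of the other kind -/
def rkm (m : ℕ) (P : ι → Bool) (g : ι → ℕ) (v : ι) : ℕ := if P v = true then rk P g v else m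

theorem rkm_unique {m : ℕ} {P : ι → Bool} {g : ι → ℕ} (hg : Function.Injective g) {x z : ι}
    (hx : P x = true) (h : rkm m P g z = rk P g x) (hm : rk P g x < m) : z = x := by
  unfold rkm at h
  split_ifs at h with hz
  · exact rk_inj hg hz hx h
  · omega

/-- the bound for the number of tokens using a letter of a given kind -/
def CntBd (m : ℕ) (P : ι → Bool) (g g0 : ι → ℕ) (R : Tok m → Finset ι) : Prop :=
  ∀ v, P v = true → cnt R v ≤ m - al P g g0 v

theorem exch_first {m : ℕ} {P : ι → Bool} {g g' g0 : ι → ℕ} {x y : ι} (h : Exch g g' x y)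
    (h0 : g0 x < g0 y) {rD : ι → ℕ} {R : Tok m → Finset ι} {σ : Tok m → Tok m}
    (hI : TokInv (rkm m P g) rD R σ) (hB : CntBd m P g g0 R) :
    ∃ (R' : Tok m → Finset ι) (σ' : Tok m → Tok m), TokInv (rkm m P g') rD R' σ' ∧
      (∀ a, R a ⊆ R' a) ∧ (∀ v, P v = false → cnt R' v = cnt R v) ∧ CntBd m P g' g0 R' := by
  by_cases hxy : P x = true ∧ P y = true
  · obtain ⟨hx, hy⟩ := hxy
    obtain ⟨R', σ', h1, h2, h3, h4⟩ := step_first (rU' := rkm m P g') hI (x := x) (y := y)
      (i := rk P g x)
      (by unfold rkm; rw [if_pos hx])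
      (by unfold rkm; rw [if_pos hy, h.rk_y_old hx])
      (by unfold rkm; rw [if_pos hx, h.rk_x hy])
      (by unfold rkm; rw [if_pos hy, h.rk_y])
      (by
        intro z hzx hzy
        unfold rkm
        rw [h.rk_z P hzx hzy])
      (fun z hz hm => rkm_unique h.inj hx hz hm)
      (fun z hz hm => by
        rw [← h.rk_y_old hx] at hz hm
        exact rkm_unique h.inj hy hz hm)
    refine ⟨R', σ', h1, h2, ?_, ?_⟩
    · intro v hv
      apply h3
      rintro rfl
      rw [hy] at hv
      exact absurd hv (by simp)
    · intro v hv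
      by_cases hvy : v = y
      · subst hvy
        have h5 := hB v hv
        have h6 := h.al_y h0 hx
        have h7 := al_le_rk P g' g0 v
        rw [h.rk_y] at h7
        split_ifs at h4 with hm
        · omega
        · omega
      · rw [h3 v hvy]
        have h5 := hB v hv
        have h6 := h.al_le h0 P v
        omega
  · have hr : rkm m P g' = rkm m P g := by
      funext z
      unfold rkm
      by_cases hz : P z = true
      · rw [if_pos hz, if_pos hz]
        by_cases hzx : z = x
        · subst hzx
          apply h.rk_x_not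
          by_contra hy
          exact hxy ⟨hz, by simpa using hy⟩
        · by_cases hzy : z = y
          · subst hzy
            apply h.rk_y_not
            by_contra hx
            exact hxy ⟨by simpa using hx, hz⟩
          · exact h.rk_z P hzx hzy
      · rw [if_neg hz, if_neg hz]
    refine ⟨R, σ, by rw [hr]; exact hI, fun a => Subset.refl _, fun v _ => rfl, ?_⟩
    intro v hv
    have h5 := hB v hv
    have h6 := h.al_le h0 P v
    omega

theorem exch_second {m : ℕ} {P : ι → Bool} {g g' g0 : ι → ℕ} {x y : ι} (h : Exch g g' x y)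
    (h0 : g0 x < g0 y) {rU : ι → ℕ} {R : Tok m → Finset ι} {σ : Tok m → Tok m}
    (hI : TokInv rU (rkm m P g) R σ) (hB : CntBd m P g g0 R) :
    ∃ (R' : Tok m → Finset ι) (σ' : Tok m → Tok m), TokInv rU (rkm m P g') R' σ' ∧
      (∀ a, R a ⊆ R' a) ∧ (∀ v, P v = false → cnt R' v = cnt R v) ∧ CntBd m P g' g0 R' := by
  obtain ⟨R', σ', h1, h2, h3, h4⟩ := exch_first h h0 hI.transpose hB
  exact ⟨R', _, h1.transpose, h2, h3, h4⟩

/-- the starting family -/
theorem start_inv (m : ℕ) (P Q : ι → Bool) (g g0 : ι → ℕ) (hPQ : ∀ v, Q v = !(P v)) :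
    ∃ (R : Tok m → Finset ι) (σ : Tok m → Tok m), TokInv (rkm m P g) (rkm m Q g0) R σ ∧
      (∀ v, P v = true → cnt R v ≤ m - rk P g v) ∧ (∀ v, Q v = true → cnt R v ≤ m - rk Q g0 v) := by
  classical
  refine ⟨fun a => univ.filter (fun v => rkm m P g v = a.1.1.val ∨ rkm m Q g0 v = a.1.2.val), id,
    ⟨Function.injective_id, fun a v => ⟨fun h => ?_, fun h => ?_⟩⟩, fun v hv => ?_, fun v hv => ?_⟩
  · simp only [mem_filter, mem_univ, true_and]
    exact Or.inl h
  · simp only [mem_filter, mem_univ, true_and]
    exact Or.inr h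
  · rw [← card_fst m (rk P g v)]
    unfold cnt
    apply card_le_card
    intro a ha
    simp only [mem_filter, mem_univ, true_and] at ha ⊢
    have hq : Q v = false := by rw [hPQ, hv]; rfl
    rcases ha with ha | ha
    · unfold rkm at ha
      rw [if_pos hv] at ha
      exact ha.symm
    · unfold rkm at ha
      rw [if_neg (by rw [hq]; simp)] at ha
      have := a.1.2.2
      omega
  · rw [← card_snd m (rk Q g0 v)]
    unfold cnt
    apply card_le_card
    intro a ha
    simp only [mem_filter, mem_univ, true_and] at ha ⊢
    have hp : P v = false := by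
      have := hPQ v
      rw [hv] at this
      cases hh : P v
      · rfl
      · rw [hh] at this
        exact absurd this (by simp)
    rcases ha with ha | ha
    · unfold rkm at ha
      rw [if_neg (by rw [hp]; simp)] at ha
      have := a.1.1.2
      omega
    · unfold rkm at ha
      rw [if_pos hv] at ha
      exact ha.symm

/-- the order from below -/
def Sweep.neg (W : Sweep ι) (s : ℕ) (i : ι) : ℕ := Fintype.card ι - 1 - W.pos s i

theorem Sweep.neg_lt (W : Sweep ι) (s : ℕ) (i j : ι) :
    W.neg s i < W.neg s j ↔ W.pos s j < W.pos s i := by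
  unfold Sweep.neg
  have := W.lt s i
  have := W.lt s j
  omega

theorem Sweep.neg_inj (W : Sweep ι) (s : ℕ) : Function.Injective (W.neg s) := by
  intro i j h
  apply W.inj s
  unfold Sweep.neg at h
  have := W.lt s i
  have := W.lt s j
  omega

/-- a family of tokens at the time `s` hits all deep cells of that time -/
theorem Sweep.hit_of_inv (W : Sweep ι) (F : ι → Bool) {m : ℕ} {s : ℕ} {R : Tok m → Finset ι}
    {σ : Tok m → Tok m}
    (hI : TokInv (rkm m (fun i => !(F i)) (W.pos s)) (rkm m F (W.neg s)) R σ) (a : Tok m) (p : ℕ)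
    (hd : m ≤ dep (W.cell F s p)) : 1 ≤ hit (R a) (W.cell F s p) := by
  classical
  by_contra hno
  have hnone : ∀ i ∈ R a, W.cell F s p i = false := by
    intro i hi
    by_contra hc
    apply hno
    unfold hit
    exact card_pos.2 ⟨i, by simp [hi, hc]⟩
  have hU : (univ.filter (fun u => (!(F u)) = true ∧ W.pos s u < p)).card ≤ (σ a).1.1.val := by
    by_contra h
    rw [not_le] at h
    obtain ⟨v, hv1, hv2, hv3⟩ := exists_rank (W.inj s) h
    have := hnone v ((hI.2 a v).1 (by unfold rkm; rw [if_pos hv1]; exact hv3))
    unfold Sweep.cell at this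
    have hF : F v = false := by simpa using hv1
    rw [hF] at this
    simp [hv2] at this
  have hD : (univ.filter (fun u => F u = true ∧ W.neg s u < Fintype.card ι - p)).card ≤
      (σ a).1.2.val := by
    by_contra h
    rw [not_le] at h
    obtain ⟨v, hv1, hv2, hv3⟩ := exists_rank (W.neg_inj s) h
    have := hnone v ((hI.2 a v).2 (by unfold rkm; rw [if_pos hv1]; exact hv3))
    unfold Sweep.cell at this
    rw [hv1] at this
    have hp : ¬ (W.pos s v < p) := by
      unfold Sweep.neg at hv2
      have := W.lt s v
      omega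
    simp [hp] at this
  have hdep : dep (W.cell F s p) ≤ (univ.filter (fun u => (!(F u)) = true ∧ W.pos s u < p)).card +
      (univ.filter (fun u => F u = true ∧ W.neg s u < Fintype.card ι - p)).card := by
    unfold dep
    refine (card_le_card ?_).trans (card_union_le _ _)
    intro i hi
    simp only [mem_filter, mem_univ, true_and, mem_union] at hi ⊢
    unfold Sweep.cell at hi
    have h1 := W.lt s i
    cases hF : F i
    · left
      rw [hF] at hi
      exact ⟨rfl, by simpa using hi⟩
    · right
      rw [hF] at hi
      have hp : p ≤ W.pos s i := by simpa using hi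
      refine ⟨rfl, ?_⟩
      unfold Sweep.neg
      omega
  have := (σ a).2
  omega

/-- The fractional decomposition: `m (m+1) / 2` sets hitting all cells of depth at least `m`, each
letter in at most `m` of them. -/
theorem Sweep.exists_family (W : Sweep ι) (F : ι → Bool) (m : ℕ) :
    ∃ R : Tok m → Finset ι, (∀ a, ∀ X ∈ W.cells F, m ≤ dep X → 1 ≤ hit (R a) X) ∧
      ∀ v, cnt R v ≤ m := by
  classical
  have key : ∀ s, ∃ (R : Tok m → Finset ι) (σ : Tok m → Tok m),
      TokInv (rkm m (fun i => !(F i)) (W.pos s)) (rkm m F (W.neg s)) R σ ∧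
      (∀ s' ≤ s, ∀ p a, m ≤ dep (W.cell F s' p) → 1 ≤ hit (R a) (W.cell F s' p)) ∧
      CntBd m (fun i => !(F i)) (W.pos s) (W.pos 0) R ∧ CntBd m F (W.neg s) (W.neg 0) R := by
    intro s
    induction s with
    | zero =>
      obtain ⟨R, σ, h1, h2, h3⟩ := start_inv m (fun i => !(F i)) F (W.pos 0) (W.neg 0) (by simp)
      refine ⟨R, σ, h1, ?_, ?_, ?_⟩
      · intro s' hs' p a hd
        obtain rfl : s' = 0 := by omega
        exact W.hit_of_inv F h1 a p hd
      · intro v hv
        rw [al_self]
        exact h2 v hv
      · intro v hv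
        rw [al_self]
        exact h3 v hv
    | succ s ih =>
      obtain ⟨R, σ, h1, h2, h3, h4⟩ := ih
      rcases W.step s with hs | ⟨x, y, hxy, h0, hx, hy, hz⟩
      · have hneg : W.neg (s + 1) = W.neg s := by
          funext i
          unfold Sweep.neg
          rw [hs]
        have h1' : TokInv (rkm m (fun i => !(F i)) (W.pos (s+1))) (rkm m F (W.neg (s+1))) R σ := by
          rw [hs, hneg]
          exact h1
        refine ⟨R, σ, h1', ?_, by rw [hs]; exact h3, by rw [hneg]; exact h4⟩
        intro s' hs' p a hd
        rcases Nat.lt_or_ge s' (s + 1) with h | h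
        · exact h2 s' (by omega) p a hd
        · obtain rfl : s' = s + 1 := by omega
          exact W.hit_of_inv F h1' a p hd
      · have e1 : Exch (W.pos s) (W.pos (s+1)) x y := ⟨W.inj s, hxy, hx, hy, hz⟩
        have e2 : Exch (W.neg s) (W.neg (s+1)) y x := by
          have := W.lt s x
          have := W.lt s y
          refine ⟨W.neg_inj s, ?_, ?_, ?_, ?_⟩
          · unfold Sweep.neg
            omega
          · unfold Sweep.neg
            rw [hy]
          · unfold Sweep.neg
            rw [hx]
          · intro z hzy hzx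
            unfold Sweep.neg
            rw [hz z hzx hzy]
        have h0' : W.neg 0 y < W.neg 0 x := by rw [W.neg_lt]; exact h0
        obtain ⟨R1, σ1, a1, a2, a3, a4⟩ := exch_first (P := fun i => !(F i)) e1 h0 h1 h3
        have h4' : CntBd m F (W.neg s) (W.neg 0) R1 := by
          intro v hv
          rw [a3 v (by simp [hv])]
          exact h4 v hv
        obtain ⟨R2, σ2, b1, b2, b3, b4⟩ := exch_second e2 h0' a1 h4'
        refine ⟨R2, σ2, b1, ?_, ?_, b4⟩
        · intro s' hs' p a hd
          rcases Nat.lt_or_ge s' (s + 1) with h | h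
          · have h5 := h2 s' (by omega) p a hd
            refine h5.trans ?_
            unfold hit
            apply card_le_card
            apply filter_subset_filter
            exact (a2 a).trans (b2 a)
          · obtain rfl : s' = s + 1 := by omega
            exact W.hit_of_inv F b1 a p hd
        · intro v hv
          have hv' : F v = false := by simpa using hv
          rw [b3 v hv']
          exact a4 v hv
  obtain ⟨R, σ, h1, h2, h3, h4⟩ := key W.N
  refine ⟨R, ?_, ?_⟩
  · rintro a X ⟨s, p, rfl⟩ hd
    rcases le_total s W.N with hs | hs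
    · exact h2 s hs p a hd
    · obtain ⟨t, rfl⟩ := Nat.exists_eq_add_of_le hs
      have : W.cell F (W.N + t) p = W.cell F W.N p := by
        funext i
        unfold Sweep.cell
        rw [TripleAff_late W t]
      rw [this] at hd ⊢
      exact h2 W.N le_rfl p a hd
  · intro v
    cases hF : F v
    · have := h3 v (by simp [hF])
      omega
    · have := h4 v hF
      omega

end PHP
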