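import Mathlib

/-!
# Rounding a fractional packing: the greedy choice of the tokens

`H a`, `a : α`, is a family of sets in which every element is in at most `m` sets, where
`2 |α| = m (m+1)`. The sets are examined one after the other; a set is kept if it has at most `B`
elements and is disjoint from the sets kept before. An exponential potential controls the number of
elements used in every `X` of a family `𝒳`.
-/

namespace PHP

open Finset

/-- chord bound for the exponential -/
theorem nib_chord {l y B : ℝ} (hB : 0 < B) (hy0 : 0 ≤ y) (hyB : y ≤ B) :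
    Real.exp (l * y) ≤ 1 + y / B * (Real.exp (l * B) - 1) := by
  have h1 : y / B ≤ 1 := (div_le_one hB).2 hyB
  have h0 : 0 ≤ y / B := by positivity
  have h := convexOn_exp.2 (Set.mem_univ (0 : ℝ)) (Set.mem_univ (l * B))
    (show (0 : ℝ) ≤ 1 - y / B by linarith) h0 (by ring)
  simp only [smul_eq_mul, mul_zero, zero_add, Real.exp_zero, mul_one] at h
  have h2 : y / B * (l * B) = l * y := by
    field_simp
  rw [h2] at h
  linarith

/-- the moment generating function of a bounded function on a finite type -/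
theorem nib_mgf {α : Type} [Fintype α] (Y : α → ℝ) {B s y : ℝ} (hB : 0 < B) (hs0 : 0 ≤ s)
    (hs1 : s ≤ 1) (h0 : ∀ a, 0 ≤ Y a) (h1 : ∀ a, Y a ≤ B)
    (hy : ∑ a, Y a ≤ Fintype.card α * y) :
    ∑ a, Real.exp (s / B * Y a) ≤ Fintype.card α * Real.exp (s / B * ((1 + s) * y)) := by
  have hsB : s / B * B = s := by field_simp
  have he : Real.exp s - 1 ≤ s * (1 + s) := by
    have := Real.abs_exp_sub_one_sub_id_le (x := s) (by rw [abs_of_nonneg hs0]; exact hs1)
    have := (abs_le.1 this).2
    nlinarith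
  have he0 : 0 ≤ Real.exp s - 1 := by
    have := Real.add_one_le_exp s
    linarith
  have hS0 : 0 ≤ ∑ a, Y a := Finset.sum_nonneg (fun a _ => h0 a)
  calc ∑ a, Real.exp (s / B * Y a)
      ≤ ∑ a, (1 + Y a / B * (Real.exp s - 1)) := by
        apply Finset.sum_le_sum
        intro a _
        have := nib_chord (l := s / B) hB (h0 a) (h1 a)
        rw [hsB] at this
        exact this
    _ = Fintype.card α + (∑ a, Y a) / B * (Real.exp s - 1) := by
        rw [Finset.sum_add_distrib, ← Finset.sum_mul, ← Finset.sum_div]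
        simp
    _ ≤ Fintype.card α + (Fintype.card α * y) / B * (s * (1 + s)) := by
        have h2 : (∑ a, Y a) / B ≤ (Fintype.card α * y) / B := by gcongr
        have h3 : 0 ≤ (∑ a, Y a) / B := by positivity
        have h4 : 0 ≤ (Fintype.card α * y) / B := h3.trans h2
        have : (∑ a, Y a) / B * (Real.exp s - 1) ≤ (Fintype.card α * y) / B * (s * (1 + s)) :=
          mul_le_mul h2 he he0 h4
        linarith
    _ = Fintype.card α * (s / B * ((1 + s) * y) + 1) := by ring
    _ ≤ Fintype.card α * Real.exp (s / B * ((1 + s) * y)) := by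
        apply mul_le_mul_of_nonneg_left _ (by positivity)
        exact Real.add_one_le_exp _

variable {α ι : Type} [Fintype α] [DecidableEq ι]

/-- double counting -/
theorem nib_dc (H : α → Finset ι) {m : ℕ}
    (hcnt : ∀ v, (univ.filter (fun a => v ∈ H a)).card ≤ m) (S : Finset ι) :
    ∑ a, ((S ∩ H a).card : ℝ) ≤ S.card * m := by
  have h1 : ∀ a, ((S ∩ H a).card : ℝ) = ∑ v ∈ S, if v ∈ H a then (1 : ℝ) else 0 := by
    intro a
    rw [← Finset.filter_mem_eq_inter, Finset.card_filter]
    push_cast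
    rfl
  rw [Finset.sum_congr rfl (fun a _ => h1 a), Finset.sum_comm]
  have h2 : ∀ v ∈ S, (∑ a, if v ∈ H a then (1 : ℝ) else 0) ≤ m := by
    intro v _
    have := hcnt v
    rw [Finset.card_filter] at this
    exact_mod_cast this
  calc ∑ v ∈ S, (∑ a, if v ∈ H a then (1 : ℝ) else 0) ≤ ∑ v ∈ S, (m : ℝ) :=
        Finset.sum_le_sum h2
    _ = S.card * m := by simp

/-- the potential -/
noncomputable def nibPhi (𝒳 : Finset (Finset ι)) (lam c : ℝ) (V U : Finset ι) (t : ℕ) : ℝ :=
  ∑ X ∈ 𝒳, Real.exp (lam * (((U ∩ X).card : ℝ) - c * t * ((X ∩ V).card : ℝ)))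

theorem nib_one (H : α → Finset ι) {V U : Finset ι} (hHV : ∀ a, H a ⊆ V) {m : ℕ} (hm : 1 ≤ m)
    (hT : 2 * Fintype.card α = m * (m + 1))
    (hcnt : ∀ v, (univ.filter (fun a => v ∈ H a)).card ≤ m) (𝒳 : Finset (Finset ι)) {s : ℝ}
    {B : ℕ} (hB : 1 ≤ B) (hs0 : 0 ≤ s) (hs1 : s ≤ 1) {w : ℝ} (hw : 0 ≤ w) (t : ℕ) :
    ∃ a, (((H a).card ≤ B ∧ Disjoint U (H a)) ∧
        nibPhi 𝒳 (s / B) ((1 + s) * (2 / (m + 1))) V (U ∪ H a) (t + 1) ≤
        nibPhi 𝒳 (s / B) ((1 + s) * (2 / (m + 1))) V U t +
          w * (2 / (m + 1) * (V.card / B + U.card))) ∨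
      w + nibPhi 𝒳 (s / B) ((1 + s) * (2 / (m + 1))) V U (t + 1) ≤
        nibPhi 𝒳 (s / B) ((1 + s) * (2 / (m + 1))) V U t +
          w * (2 / (m + 1) * (V.card / B + U.card)) := by
  classical
  set T : ℝ := (Fintype.card α : ℝ) with hTdef
  have hB' : (0 : ℝ) < B := by exact_mod_cast hB
  have hm' : (1 : ℝ) ≤ m := by exact_mod_cast hm
  have hT' : 2 * T = m * (m + 1) := by rw [hTdef]; exact_mod_cast hT
  have hTpos : 0 < T := by nlinarith
  set c : ℝ := (1 + s) * (2 / (m + 1)) with hc
  set lam : ℝ := s / B with hlam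
  let suit : α → Prop := fun a => (H a).card ≤ B ∧ Disjoint U (H a)
  let Y : Finset ι → α → ℝ := fun X a => if suit a then (((X ∩ V) ∩ H a).card : ℝ) else 0
  let bad : α → ℝ := fun a => ((V ∩ H a).card : ℝ) / B + ((U ∩ H a).card : ℝ)
  let F : α → ℝ := fun a => if suit a then nibPhi 𝒳 lam c V (U ∪ H a) (t + 1)
    else w + nibPhi 𝒳 lam c V U (t + 1)
  have hF : ∀ a, F a ≤ w * bad a + ∑ X ∈ 𝒳,
      Real.exp (lam * (((U ∩ X).card : ℝ) - c * (t + 1 : ℕ) * ((X ∩ V).card : ℝ))) *
        Real.exp (lam * Y X a) := by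
    intro a
    have hbad0 : 0 ≤ bad a := by positivity
    by_cases ha : suit a
    · have h1 : F a = ∑ X ∈ 𝒳,
          Real.exp (lam * (((U ∩ X).card : ℝ) - c * (t + 1 : ℕ) * ((X ∩ V).card : ℝ))) *
            Real.exp (lam * Y X a) := by
        simp only [F, if_pos ha, nibPhi]
        apply Finset.sum_congr rfl
        intro X _
        rw [← Real.exp_add]
        congr 1
        have h2 : Y X a = ((H a ∩ X).card : ℝ) := by
          simp only [Y, if_pos ha]
          congr 2
          ext v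
          simp only [mem_inter]
          constructor
          · rintro ⟨⟨h3, h4⟩, h5⟩
            exact ⟨h5, h3⟩
          · rintro ⟨h3, h4⟩
            exact ⟨⟨h4, hHV a h3⟩, h3⟩
        have h3 : (((U ∪ H a) ∩ X).card : ℝ) = ((U ∩ X).card : ℝ) + ((H a ∩ X).card : ℝ) := by
          rw [Finset.union_inter_distrib_right, Finset.card_union_of_disjoint]
          · push_cast
            rfl
          · exact ha.2.mono inter_subset_left inter_subset_left
        rw [h2, h3]
        ring
      rw [h1]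
      have : 0 ≤ w * bad a := mul_nonneg hw hbad0
      linarith
    · have h1 : F a = w + ∑ X ∈ 𝒳,
          Real.exp (lam * (((U ∩ X).card : ℝ) - c * (t + 1 : ℕ) * ((X ∩ V).card : ℝ))) *
            Real.exp (lam * Y X a) := by
        simp only [F, if_neg ha, nibPhi]
        congr 1
        apply Finset.sum_congr rfl
        intro X _
        simp [Y, if_neg ha]
      rw [h1]
      have h2 : 1 ≤ bad a := by
        simp only [suit, not_and_or] at ha
        rcases ha with ha | ha
        · have h3 : V ∩ H a = H a := inter_eq_right.2 (hHV a)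
          have h4 : (B : ℝ) ≤ ((V ∩ H a).card : ℝ) := by
            rw [h3]
            exact_mod_cast (by omega : B ≤ (H a).card)
          have h5 : 1 ≤ ((V ∩ H a).card : ℝ) / B := by
            rw [le_div_iff₀ hB']
            linarith
          have h6 : (0 : ℝ) ≤ ((U ∩ H a).card : ℝ) := by positivity
          simp only [bad]
          linarith
        · have h3 : 1 ≤ (U ∩ H a).card := by
            rw [Finset.one_le_card]
            rwa [Finset.not_disjoint_iff_nonempty_inter] at ha
          have h4 : (1 : ℝ) ≤ ((U ∩ H a).card : ℝ) := by exact_mod_cast h3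
          have h5 : 0 ≤ ((V ∩ H a).card : ℝ) / B := by positivity
          simp only [bad]
          linarith
      have : w ≤ w * bad a := by nlinarith
      linarith
  have hsum : ∑ a, F a ≤ ∑ a : α, (nibPhi 𝒳 lam c V U t +
      w * (2 / (m + 1) * (V.card / B + U.card))) := by
    have hTm : T * (2 / (m + 1)) = m := by
      field_simp
      linarith
    have hbad : ∑ a, bad a ≤ (V.card / B + U.card) * m := by
      simp only [bad]
      rw [Finset.sum_add_distrib, ← Finset.sum_div]
      have h1 := nib_dc H hcnt V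
      have h2 := nib_dc H hcnt U
      have h3 : (∑ a, ((V ∩ H a).card : ℝ)) / B ≤ (V.card * m) / B := by gcongr
      have h4 : ((V.card : ℝ) / B + U.card) * m = (V.card * m) / B + U.card * m := by ring
      rw [h4]
      linarith
    have hX : ∀ X ∈ 𝒳, ∑ a, Real.exp (lam * Y X a) ≤
        T * Real.exp (lam * (c * ((X ∩ V).card : ℝ))) := by
      intro X _
      have h1 := nib_mgf (Y X) (B := B) (s := s) (y := 2 / (m + 1) * ((X ∩ V).card : ℝ)) hB' hs0
        hs1 ?_ ?_ ?_
      · have h2 : (1 + s) * (2 / ((m : ℝ) + 1) * ((X ∩ V).card : ℝ)) =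
            c * ((X ∩ V).card : ℝ) := by
          rw [hc]; ring
        rw [h2] at h1
        exact h1
      · intro a
        simp only [Y]
        split_ifs <;> positivity
      · intro a
        simp only [Y]
        split_ifs with ha
        · have h2 : (((X ∩ V) ∩ H a).card) ≤ B :=
            (card_le_card inter_subset_right).trans ha.1
          exact_mod_cast h2
        · positivity
      · have h2 : ∑ a, Y X a ≤ ∑ a, (((X ∩ V) ∩ H a).card : ℝ) := by
          apply Finset.sum_le_sum
          intro a _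
          simp only [Y]
          split_ifs
          · exact le_refl _
          · positivity
        have h3 := nib_dc H hcnt (X ∩ V)
        have h4 : T * (2 / (m + 1) * ((X ∩ V).card : ℝ)) = ((X ∩ V).card : ℝ) * m := by
          rw [← mul_assoc, hTm]; ring
        rw [← hTdef, h4]
        linarith
    calc ∑ a, F a ≤ ∑ a, (w * bad a + ∑ X ∈ 𝒳,
          Real.exp (lam * (((U ∩ X).card : ℝ) - c * (t + 1 : ℕ) * ((X ∩ V).card : ℝ))) *
            Real.exp (lam * Y X a)) := Finset.sum_le_sum (fun a _ => hF a)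
      _ = w * ∑ a, bad a + ∑ X ∈ 𝒳,
          Real.exp (lam * (((U ∩ X).card : ℝ) - c * (t + 1 : ℕ) * ((X ∩ V).card : ℝ))) *
            ∑ a, Real.exp (lam * Y X a) := by
          rw [Finset.sum_add_distrib, ← Finset.mul_sum, Finset.sum_comm]
          congr 1
          apply Finset.sum_congr rfl
          intro X _
          rw [Finset.mul_sum]
      _ ≤ w * ((V.card / B + U.card) * m) + ∑ X ∈ 𝒳,
          Real.exp (lam * (((U ∩ X).card : ℝ) - c * (t + 1 : ℕ) * ((X ∩ V).card : ℝ))) *
            (T * Real.exp (lam * (c * ((X ∩ V).card : ℝ)))) := by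
          apply add_le_add
          · exact mul_le_mul_of_nonneg_left hbad hw
          · apply Finset.sum_le_sum
            intro X hX'
            exact mul_le_mul_of_nonneg_left (hX X hX') (Real.exp_pos _).le
      _ = T * nibPhi 𝒳 lam c V U t + T * (w * (2 / (m + 1) * (V.card / B + U.card))) := by
          have h1 : ∀ X ∈ 𝒳,
              Real.exp (lam * (((U ∩ X).card : ℝ) - c * (t + 1 : ℕ) * ((X ∩ V).card : ℝ))) *
              (T * Real.exp (lam * (c * ((X ∩ V).card : ℝ)))) =
              T * Real.exp (lam * (((U ∩ X).card : ℝ) - c * t * ((X ∩ V).card : ℝ))) := by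
            intro X _
            rw [mul_left_comm, ← Real.exp_add]
            congr 2
            push_cast
            ring
          rw [Finset.sum_congr rfl h1, ← Finset.mul_sum, nibPhi]
          have h2 : T * (w * (2 / (m + 1) * (V.card / B + U.card))) =
              w * ((V.card / B + U.card) * (T * (2 / (m + 1)))) := by ring
          rw [h2, hTm]
          ring
      _ = _ := by
          rw [Finset.sum_const, Finset.card_univ, nsmul_eq_mul]
          ring
  have hne : (univ : Finset α).Nonempty := by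
    rw [← Finset.card_pos, Finset.card_univ]
    have : (0 : ℝ) < (Fintype.card α : ℝ) := hTpos
    exact_mod_cast this
  obtain ⟨a, _, ha⟩ := Finset.exists_le_of_sum_le hne hsum
  refine ⟨a, ?_⟩
  by_cases h : suit a
  · left
    refine ⟨h, ?_⟩
    simp only [F, if_pos h] at ha
    exact ha
  · right
    simp only [F, if_neg h] at ha
    exact ha

theorem nib_greedy (H : α → Finset ι) {V : Finset ι} (hHV : ∀ a, H a ⊆ V) {m : ℕ} (hm : 1 ≤ m)
    (hT : 2 * Fintype.card α = m * (m + 1))
    (hcnt : ∀ v, (univ.filter (fun a => v ∈ H a)).card ≤ m) (𝒳 : Finset (Finset ι)) {s : ℝ}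
    {B : ℕ} (hB : 1 ≤ B) (hs0 : 0 ≤ s) (hs1 : s ≤ 1) {w : ℝ} (hw : 0 ≤ w) (r : ℕ) (t : ℕ)
    (ht : t ≤ r) :
    ∃ (l : List (Finset ι)) (U : Finset ι) (u : ℕ), l.length + u = t ∧ l.Pairwise Disjoint ∧
      (∀ h ∈ l, (∃ a, h = H a) ∧ h ⊆ U) ∧ U ⊆ V ∧ U.card ≤ t * B ∧
      w * u + nibPhi 𝒳 (s / B) ((1 + s) * (2 / (m + 1))) V U t ≤
        𝒳.card + w * (t * (2 / (m + 1) * (V.card / B + r * B))) := by
  classical
  induction t with
  | zero =>
    refine ⟨[], ∅, 0, rfl, List.Pairwise.nil, by simp, empty_subset _, by simp, ?_⟩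
    simp [nibPhi]
  | succ t ih =>
    obtain ⟨l, U, u, h1, h2, h3, h4, h5, h6⟩ := ih (by omega)
    have hm' : (1 : ℝ) ≤ m := by exact_mod_cast hm
    have hB' : (0 : ℝ) < B := by exact_mod_cast hB
    have hU : (U.card : ℝ) ≤ r * B := by
      have h7 : U.card ≤ r * B := h5.trans (Nat.mul_le_mul_right _ (by omega))
      exact_mod_cast h7
    have hθ : w * (2 / (m + 1) * (V.card / B + U.card)) ≤
        w * (2 / ((m : ℝ) + 1) * (V.card / B + r * B)) := by
      apply mul_le_mul_of_nonneg_left _ hw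
      apply mul_le_mul_of_nonneg_left _ (by positivity)
      linarith
    obtain ⟨a, ha⟩ := nib_one H (U := U) hHV hm hT hcnt 𝒳 hB hs0 hs1 hw t
    rcases ha with ⟨⟨ha1, ha2⟩, ha3⟩ | ha
    · refine ⟨H a :: l, U ∪ H a, u, by simp only [List.length_cons]; omega, ?_, ?_,
        union_subset h4 (hHV a), ?_, ?_⟩
      · rw [List.pairwise_cons]
        refine ⟨fun h hh => ?_, h2⟩
        exact (ha2.mono_left (h3 h hh).2).symm
      · intro h hh
        rw [List.mem_cons] at hh
        rcases hh with rfl | hh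
        · exact ⟨⟨a, rfl⟩, subset_union_right⟩
        · exact ⟨(h3 h hh).1, (h3 h hh).2.trans subset_union_left⟩
      · rw [Finset.card_union_of_disjoint ha2]
        rw [Nat.succ_mul]
        omega
      · push_cast
        have : w * ((t + 1) * (2 / ((m : ℝ) + 1) * (V.card / B + r * B))) =
            w * (t * (2 / ((m : ℝ) + 1) * (V.card / B + r * B))) +
            w * (2 / ((m : ℝ) + 1) * (V.card / B + r * B)) := by ring
        rw [this]
        linarith
    · refine ⟨l, U, u + 1, by omega, h2, h3, h4, ?_, ?_⟩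
      · rw [Nat.succ_mul]
        omega
      · push_cast
        have : w * ((t + 1) * (2 / ((m : ℝ) + 1) * (V.card / B + r * B))) =
            w * (t * (2 / ((m : ℝ) + 1) * (V.card / B + r * B))) +
            w * (2 / ((m : ℝ) + 1) * (V.card / B + r * B)) := by ring
        rw [this]
        linarith

/-- One efficient step: `g` disjoint members of the family for a loss of at most
`2 g / (1 - η)` of the depth. -/
theorem nib_step (H : α → Finset ι) {V : Finset ι} (hHV : ∀ a, H a ⊆ V) {m : ℕ} (hm : 1 ≤ m)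
    (hT : 2 * Fintype.card α = m * (m + 1))
    (hcnt : ∀ v, (univ.filter (fun a => v ∈ H a)).card ≤ m) (𝒳 : Finset (Finset ι)) {η : ℝ}
    (hη0 : 0 < η) (hη1 : η ≤ 1) {B r : ℕ} (hB : 1 ≤ B) (hr : 1 ≤ r)
    (h1 : 16 * (V.card : ℝ) ≤ η * m * B) (h2 : 16 * (r : ℝ) * B ≤ η * m) {Nc : ℝ}
    (hNc : (𝒳.card : ℝ) ≤ Nc) (hNc1 : 1 ≤ Nc)
    (h3 : 4 * B / η * Real.log (Nc * (1 + r)) + 3 ≤ η * r) :
    ∃ (l : List (Finset ι)) (L : ℕ) (U : Finset ι), l.Pairwise Disjoint ∧
      (∀ h ∈ l, (∃ a, h = H a) ∧ h ⊆ U) ∧ U ⊆ V ∧ 1 ≤ L ∧ L ≤ m ∧ (1 - η) * L ≤ 2 * l.length ∧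
      ∀ X ∈ 𝒳, m ≤ (X ∩ V).card → (U ∩ X).card + m ≤ L + (X ∩ V).card := by
  have hm' : (1 : ℝ) ≤ m := by exact_mod_cast hm
  have hB' : (1 : ℝ) ≤ B := by exact_mod_cast hB
  have hr' : (1 : ℝ) ≤ r := by exact_mod_cast hr
  obtain ⟨l, U, u, g1, g2, g3, g4, g5, g6⟩ := nib_greedy H hHV hm hT hcnt 𝒳 (s := η / 4) hB
    (by linarith) (by linarith) (w := Nc) (by linarith) r r (le_refl r)
  set θ : ℝ := 2 / (m + 1) * (V.card / B + r * B) with hθdef
  set c : ℝ := (1 + η / 4) * (2 / (m + 1)) with hc
  set D : ℝ := 4 * B / η * Real.log (Nc * (1 + r)) with hD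
  have hθ0 : 0 ≤ θ := by positivity
  have hθ : θ ≤ η / 4 := by
    have e1 : (V.card : ℝ) / B ≤ η * m / 16 := by
      rw [div_le_iff₀ (by linarith)]
      linarith
    have e2 : (r : ℝ) * B ≤ η * m / 16 := by linarith
    have e3 : (V.card : ℝ) / B + r * B ≤ η * m / 8 := by linarith
    calc θ ≤ 2 / (m + 1) * (η * m / 8) := by
          rw [hθdef]
          exact mul_le_mul_of_nonneg_left e3 (by positivity)
      _ = η / 4 * (m / (m + 1)) := by ring
      _ ≤ η / 4 * 1 := by
          apply mul_le_mul_of_nonneg_left _ (by linarith)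
          rw [div_le_one (by linarith)]
          linarith
      _ = η / 4 := by ring
  have hphi0 : 0 ≤ nibPhi 𝒳 (η / 4 / B) c V U r :=
    Finset.sum_nonneg (fun X _ => (Real.exp_pos _).le)
  have hu : (u : ℝ) ≤ 1 + r * θ := by
    have : Nc * u ≤ Nc * (1 + r * θ) := by
      have : Nc * (1 + r * θ) = Nc + Nc * (r * θ) := by ring
      rw [this]
      linarith
    exact le_of_mul_le_mul_left this (by linarith)
  have hphi : nibPhi 𝒳 (η / 4 / B) c V U r ≤ Nc * (1 + r) := by
    have e1 : Nc * (r * θ) ≤ Nc * r := by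
      apply mul_le_mul_of_nonneg_left _ (by linarith)
      have : (r : ℝ) * θ ≤ r * 1 := mul_le_mul_of_nonneg_left (by linarith) (by linarith)
      linarith
    have e2 : 0 ≤ Nc * (u : ℝ) := by positivity
    have e3 : Nc * (1 + r) = Nc + Nc * r := by ring
    rw [e3]
    linarith
  have hlen : (l.length : ℝ) = r - u := by
    have : ((l.length + u : ℕ) : ℝ) = r := by rw [g1]
    push_cast at this
    linarith
  have hD0 : 0 ≤ D := by
    have : 0 ≤ Real.log (Nc * (1 + r)) := by
      apply Real.log_nonneg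
      nlinarith
    positivity
  have hcr : c * r * (m + 1) = (1 + η / 4) * (2 * r) := by
    rw [hc]
    field_simp
  have hc0 : 0 ≤ c := by positivity
  have hcm : c * r * m ≤ (1 + η / 4) * (2 * r) := by
    have : 0 ≤ c * r := by positivity
    nlinarith
  have hrm : 16 * (r : ℝ) ≤ m := by nlinarith
  have hcr1 : c * r ≤ 1 := by
    by_contra hcon
    rw [not_le] at hcon
    have : (m : ℝ) + 1 < c * r * (m + 1) := by nlinarith
    rw [hcr] at this
    nlinarith
  have hceil := Nat.le_ceil ((1 + η / 4) * (2 * r) + D)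
  have hceil' := (Nat.ceil_lt_add_one (show 0 ≤ (1 + η / 4) * (2 * r) + D by positivity)).le
  set L : ℕ := ⌈(1 + η / 4) * (2 * r) + D⌉₊ with hL
  refine ⟨l, L, U, g2, g3, g4, ?_, ?_, ?_, ?_⟩
  · rw [hL, Nat.one_le_ceil_iff]
    positivity
  · have : (L : ℝ) ≤ m := by nlinarith
    exact_mod_cast this
  · rw [hlen]
    have e1 : (1 - η) * (L : ℝ) ≤ (1 - η) * ((1 + η / 4) * (2 * r) + D + 1) :=
      mul_le_mul_of_nonneg_left hceil' (by linarith)
    have e2 : (1 - η) * ((1 + η / 4) * (2 * r) + D + 1) ≤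
        (1 - η) * (1 + η / 4) * (2 * r) + D + 1 := by
      have : 0 ≤ η * (D + 1) := by positivity
      nlinarith
    have e3 : (1 - η) * (1 + η / 4) ≤ 1 - 3 / 4 * η := by nlinarith
    have e4 : (1 - η) * (1 + η / 4) * (2 * r) ≤ (1 - 3 / 4 * η) * (2 * r) :=
      mul_le_mul_of_nonneg_right e3 (by linarith)
    have e5 : (r : ℝ) * θ ≤ r * (η / 4) := mul_le_mul_of_nonneg_left hθ (by linarith)
    nlinarith
  · intro X hX hmX
    have hx : (m : ℝ) ≤ ((X ∩ V).card : ℝ) := by exact_mod_cast hmX
    have e1 : Real.exp (η / 4 / B * (((U ∩ X).card : ℝ) - c * r * ((X ∩ V).card : ℝ))) ≤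
        Nc * (1 + r) := by
      refine le_trans ?_ hphi
      exact Finset.single_le_sum (f := fun X => Real.exp (η / 4 / B * (((U ∩ X).card : ℝ) -
        c * r * ((X ∩ V).card : ℝ)))) (fun X _ => (Real.exp_pos _).le) hX
    have e2 : η / 4 / B * (((U ∩ X).card : ℝ) - c * r * ((X ∩ V).card : ℝ)) ≤
        Real.log (Nc * (1 + r)) := by
      rw [← Real.exp_le_exp, Real.exp_log (by positivity)]
      exact e1
    have e3 : ((U ∩ X).card : ℝ) - c * r * ((X ∩ V).card : ℝ) ≤ D := by
      have e4 : ((U ∩ X).card : ℝ) - c * r * ((X ∩ V).card : ℝ) =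
          4 * B / η * (η / 4 / B * (((U ∩ X).card : ℝ) - c * r * ((X ∩ V).card : ℝ))) := by
        field_simp
      rw [e4, hD]
      exact mul_le_mul_of_nonneg_left e2 (by positivity)
    have e5 : c * r * ((X ∩ V).card : ℝ) ≤ c * r * m + (((X ∩ V).card : ℝ) - m) := by
      have : c * r * (((X ∩ V).card : ℝ) - m) ≤ 1 * (((X ∩ V).card : ℝ) - m) :=
        mul_le_mul_of_nonneg_right hcr1 (by linarith)
      nlinarith
    have e6 : ((U ∩ X).card : ℝ) + m ≤ L + ((X ∩ V).card : ℝ) := by linarith
    exact_mod_cast e6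

end PHP
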