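import Mathlib
import Pool.Agent.PHP.FracStep
import Pool.Agent.PHP.NibStep

/-!
# Rounding a fractional packing: iteration

The efficient step is applied again and again, each time with a new fractional packing for the
elements that are left.
-/

namespace PHP

open Finset

variable {ι : Type} [DecidableEq ι]

/-- every part `V` has the fractional packing with the best constant -/
def FracFam (𝒳 : Finset (Finset ι)) : Prop :=
  ∀ (V : Finset ι) (m : ℕ), 1 ≤ m → ∃ H : Tok m → Finset ι, (∀ a, H a ⊆ V) ∧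
    (∀ a, ∀ X ∈ 𝒳, m ≤ (X ∩ V).card → (H a ∩ X).Nonempty) ∧
    ∀ v, (univ.filter (fun a => v ∈ H a)).card ≤ m

theorem nib_main {𝒳 : Finset (Finset ι)} (hF : FracFam 𝒳) {n m0 B r : ℕ} {η Nc : ℝ}
    (hη0 : 0 < η) (hη1 : η ≤ 1) (hB : 1 ≤ B) (hr : 1 ≤ r)
    (h1 : 16 * (n : ℝ) ≤ η * m0 * B) (h2 : 16 * (r : ℝ) * B ≤ η * m0)
    (hNc : (𝒳.card : ℝ) ≤ Nc) (hNc1 : 1 ≤ Nc)
    (h3 : 4 * B / η * Real.log (Nc * (1 + r)) + 3 ≤ η * r) (m : ℕ) :
    ∀ V : Finset ι, V.card ≤ n → ∃ l : List (Finset ι), l.Pairwise Disjoint ∧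
      (∀ h ∈ l, h ⊆ V ∧ ∀ X ∈ 𝒳, m ≤ (X ∩ V).card → (h ∩ X).Nonempty) ∧
      (1 - η) * ((m : ℝ) - m0) ≤ 2 * l.length := by
  classical
  induction m using Nat.strong_induction_on with
  | _ m ih =>
    intro V hV
    by_cases hm : m ≤ m0
    · refine ⟨[], List.Pairwise.nil, by simp, ?_⟩
      have : (m : ℝ) ≤ m0 := by exact_mod_cast hm
      have : (1 - η) * ((m : ℝ) - m0) ≤ 0 :=
        mul_nonpos_of_nonneg_of_nonpos (by linarith) (by linarith)
      simpa using this
    · rw [not_le] at hm
      have hm0m : (m0 : ℝ) ≤ m := by exact_mod_cast hm.le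
      have hn : (V.card : ℝ) ≤ n := by exact_mod_cast hV
      have hBr : (0 : ℝ) ≤ B := by positivity
      obtain ⟨H, hH1, hH2, hH3⟩ := hF V m (by omega)
      obtain ⟨l1, L, U, a1, a2, a3, a4, a5, a6, a7⟩ := nib_step H hH1 (by omega)
        (card_tok_two m) hH3 𝒳 hη0 hη1 hB hr (by
          have : η * m0 * B ≤ η * m * B := by gcongr
          linarith) (by
          have : η * m0 ≤ η * m := by gcongr
          linarith) hNc hNc1 h3
      obtain ⟨l2, b1, b2, b3⟩ := ih (m - L) (by omega) (V \ U)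
        ((card_le_card sdiff_subset).trans hV)
      refine ⟨l1 ++ l2, ?_, ?_, ?_⟩
      · rw [List.pairwise_append]
        refine ⟨a1, b1, fun x hx y hy => ?_⟩
        have hxU := (a2 x hx).2
        have hyU := (b2 y hy).1
        exact Disjoint.mono hxU hyU disjoint_sdiff
      · intro h hh
        rw [List.mem_append] at hh
        rcases hh with hh | hh
        · obtain ⟨⟨a, rfl⟩, -⟩ := a2 h hh
          exact ⟨hH1 a, hH2 a⟩
        · refine ⟨(b2 h hh).1.trans sdiff_subset, fun X hX hmX => (b2 h hh).2 X hX ?_⟩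
          have e1 := a7 X hX hmX
          have e2 : (X ∩ (V \ U)).card + (U ∩ X).card = (X ∩ V).card := by
            have e3 : X ∩ (V \ U) = (X ∩ V) \ (U ∩ X) := by
              ext v
              simp only [mem_inter, mem_sdiff]
              tauto
            have e4 : U ∩ X ⊆ X ∩ V := by
              intro v hv
              rw [mem_inter] at hv ⊢
              exact ⟨hv.2, a3 hv.1⟩
            rw [e3]
            exact card_sdiff_add_card_eq_card e4
          omega
      · rw [List.length_append]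
        rw [Nat.cast_sub a5] at b3
        push_cast
        nlinarith

/-- from disjoint transversals to a colouring -/
theorem nib_colour {l : List (Finset ι)} (hl : l.Pairwise Disjoint) {k : ℕ} (hk : 1 ≤ k)
    (hkl : k ≤ l.length) :
    ∃ c : ι → Fin k, ∀ j : Fin k, ∃ h ∈ l, ∀ i ∈ h, c i = j := by
  classical
  let f : Fin k → Finset ι := fun j => l[j.val]'(by omega)
  have hdisj : ∀ j j' : Fin k, j ≠ j' → Disjoint (f j) (f j') := by
    intro j j' hne
    rw [List.pairwise_iff_getElem] at hl
    rcases lt_or_gt_of_ne hne with h | h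
    · exact hl j.val j'.val (by omega) (by omega) h
    · exact (hl j'.val j.val (by omega) (by omega) h).symm
  refine ⟨fun i => if h : ∃ j, i ∈ f j then h.choose else ⟨0, by omega⟩, fun j => ?_⟩
  refine ⟨f j, List.getElem_mem _, fun i hi => ?_⟩
  have hex : ∃ j, i ∈ f j := ⟨j, hi⟩
  dsimp only
  rw [dif_pos hex]
  by_contra hne
  have h1 := hex.choose_spec
  exact Finset.disjoint_left.1 (hdisj _ _ hne) h1 hi

end PHP
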