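import Mathlib
import Pool.Agent.PHP.MainD
import Pool.Agent.PHP.ArrCirc

/-!
# From sign vectors back to points of the plane
-/

namespace PHP

open Set

variable {ι : Type}

/-- the sign vector of a point -/
noncomputable def PHArr.sign (A : PHArr ι) (z : ℂ) (i : ι) : Bool :=
  by classical exact decide (z ∈ (A.L i).side true)

theorem PHArr.sign_true (A : PHArr ι) (z : ℂ) (i : ι) :
    A.sign z i = true ↔ z ∈ (A.L i).side true := by
  unfold PHArr.sign; simp

theorem PHArr.sign_mem (A : PHArr ι) {z : ℂ} (hz : ∀ i, z ∉ range (A.L i).γ) :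
    A.sign z ∈ A.cells := by
  refine ⟨z, fun i => ?_⟩
  by_cases h : z ∈ (A.L i).side true
  · rw [(A.sign_true z i).2 h]; exact h
  · have h1 : A.sign z i = false := by
      rw [← Bool.not_eq_true]
      exact fun hh => h ((A.sign_true z i).1 hh)
    rw [h1]
    have h2 : z ∈ (A.L i).side true ∪ (A.L i).side false := by
      rw [(A.L i).side_union]; exact hz i
    rcases h2 with h2 | h2
    · exact absurd h2 h
    · exact h2

theorem PHArr.dep_sign [Fintype ι] (A : PHArr ι) (z : ℂ) :
    dep (A.sign z) = {i | z ∈ (A.L i).side true}.ncard := by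
  classical
  unfold dep
  rw [← Set.ncard_coe_finset]
  congr 1
  ext i
  simp [PHArr.sign_true]

end PHP
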