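import Mathlib
import Pool.Agent.PHP.Points
import Pool.Agent.PHP.Frac
import Pool.Agent.PHP.AsymCount
import Pool.Agent.PHP.NibMain

/-!
# The fractional packing of all parts of an arrangement
-/

namespace PHP

open Finset

variable {ι : Type}

/-- the part of an arrangement with index in `V` -/
def PHArr.part (A : PHArr ι) (V : Finset ι) : PHArr {i // i ∈ V} where
  L := fun i => A.L i.1
  meet := fun i j hij => A.meet i.1 j.1 (fun h => hij (Subtype.ext h))
  no3 := fun i j k hij hjk hik => A.no3 i.1 j.1 k.1 (fun h => hij (Subtype.ext h))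
    (fun h => hjk (Subtype.ext h)) (fun h => hik (Subtype.ext h))

open Classical in
/-- the members containing the point `z` -/
noncomputable def PHArr.abv [Fintype ι] (A : PHArr ι) (z : ℂ) : Finset ι :=
  univ.filter (fun i => z ∈ (A.L i).side true)

/-- `T(m)` coverings, each member in at most `m` of them -/
theorem PHArr.family [Fintype ι] [DecidableEq ι] (A : PHArr ι) (S : Set ℂ) (m : ℕ)
    (hS : ∀ z ∈ S, ∀ i, z ∉ Set.range (A.L i).γ) (hcov : ∀ z ∈ S, m ≤ (A.abv z).card)
    (hm : 1 ≤ m) :
    ∃ C : Tok m → Finset ι, (∀ a, ∀ z ∈ S, ∃ i ∈ C a, i ∈ A.abv z) ∧ ∀ i, cnt C i ≤ m := by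
  classical
  by_cases hne : Nonempty ι
  · obtain ⟨Sy, F, l, hT, hC⟩ := A.exists_circ
    obtain ⟨S', F', l', h', hTT, hc⟩ := hC.exists_complete
    obtain ⟨W, hW, -⟩ := h'.exists_sweep hc hne
    obtain ⟨R, hR, hcnt⟩ := W.exists_family F' m
    refine ⟨R, fun a z hz => ?_, hcnt⟩
    have h1 : A.sign z ∈ W.cells F' := by
      rw [hW]
      apply hTT
      rw [hT]
      exact A.sign_mem (hS z hz)
    have hdep : dep (A.sign z) = (A.abv z).card := by
      unfold dep PHArr.abv
      congr 1
      ext i
      simp [PHArr.sign_true]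
    have h2 := hR a _ h1 (by
      rw [hdep]
      exact hcov z hz)
    obtain ⟨i, hi, hX⟩ := main_exists_of_hit h2
    refine ⟨i, hi, ?_⟩
    unfold PHArr.abv
    rw [mem_filter]
    exact ⟨mem_univ _, (A.sign_true z i).1 hX⟩
  · rw [not_nonempty_iff] at hne
    refine ⟨fun _ => ∅, fun a z hz => ?_, fun i => (hne.false i).elim⟩
    have h1 := hcov z hz
    have h2 : (A.abv z).card = 0 := by
      rw [card_eq_zero]
      exact Finset.eq_empty_of_isEmpty _
    omega

open Classical in
/-- the traces of the points of `S` -/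
noncomputable def PHArr.traces [Fintype ι] (A : PHArr ι) (S : Set ℂ) : Finset (Finset ι) :=
  univ.filter (fun X => ∃ z ∈ S, X = A.abv z)

theorem PHArr.fracFam [Fintype ι] [DecidableEq ι] (A : PHArr ι) (S : Set ℂ)
    (hS : ∀ z ∈ S, ∀ i, z ∉ Set.range (A.L i).γ) : FracFam (A.traces S) := by
  classical
  intro V m hm
  have habv : ∀ z, ((A.part V).abv z).card = (A.abv z ∩ V).card := by
    intro z
    have : ((A.part V).abv z).map (Function.Embedding.subtype _) = A.abv z ∩ V := by
      ext i
      simp only [mem_map, Function.Embedding.coe_subtype, mem_inter, PHArr.abv, mem_filter,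
        mem_univ, true_and]
      constructor
      · rintro ⟨j, hj, rfl⟩
        exact ⟨hj, j.2⟩
      · rintro ⟨h1, h2⟩
        exact ⟨⟨i, h2⟩, h1, rfl⟩
    rw [← this, card_map]
  obtain ⟨C, hC, hcnt⟩ := (A.part V).family {z | z ∈ S ∧ m ≤ (A.abv z ∩ V).card} m
    (fun z hz i => hS z hz.1 i.1) (fun z hz => by rw [habv]; exact hz.2) hm
  refine ⟨fun a => (C a).map (Function.Embedding.subtype _), fun a v hv => ?_,
    fun a X hX hmX => ?_, fun v => ?_⟩
  · rw [mem_map] at hv
    obtain ⟨j, hj, rfl⟩ := hv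
    exact j.2
  · unfold PHArr.traces at hX
    rw [mem_filter] at hX
    obtain ⟨-, z, hz, rfl⟩ := hX
    obtain ⟨i, hi, hiz⟩ := hC a z ⟨hz, hmX⟩
    refine ⟨i.1, ?_⟩
    rw [mem_inter, mem_map]
    refine ⟨⟨i, hi, rfl⟩, ?_⟩
    simp only [PHArr.abv, mem_filter, mem_univ, true_and] at hiz ⊢
    exact hiz
  · by_cases hv : v ∈ V
    · refine le_trans (le_of_eq ?_) (hcnt ⟨v, hv⟩)
      unfold cnt
      congr 1
      ext a
      simp only [mem_filter, mem_univ, true_and, mem_map, Function.Embedding.coe_subtype]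
      constructor
      · rintro ⟨j, hj, hjv⟩
        have : j = ⟨v, hv⟩ := Subtype.ext hjv
        rw [← this]
        exact hj
      · intro h
        exact ⟨_, h, rfl⟩
    · have : (univ.filter (fun a => v ∈ (C a).map (Function.Embedding.subtype _))) = ∅ := by
        apply Finset.filter_eq_empty_iff.2
        intro a _ h
        rw [mem_map] at h
        obtain ⟨j, hj, rfl⟩ := h
        exact hv j.2
      rw [this]
      simp

theorem PHArr.card_traces [Fintype ι] (A : PHArr ι) (S : Set ℂ)
    (hS : ∀ z ∈ S, ∀ i, z ∉ Set.range (A.L i).γ) :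
    (A.traces S).card ≤ (Fintype.card ι + 1) ^ 2 := by
  classical
  by_cases hne : Nonempty ι
  · obtain ⟨Sy, F, l, hT, hC⟩ := A.exists_circ
    have h1 := Sy.asym_card_cells ((A.traces S).image (fun X => Xᶜ)) (by
      intro a ha
      rw [mem_image] at ha
      obtain ⟨X, hX, rfl⟩ := ha
      unfold PHArr.traces at hX
      rw [mem_filter] at hX
      obtain ⟨-, z, hz, rfl⟩ := hX
      refine ⟨A.sign z, ?_, fun i => ?_⟩
      · rw [hT]
        exact A.sign_mem (hS z hz)
      · rw [mem_compl, PHArr.abv, mem_filter, ← Bool.not_eq_true, A.sign_true]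
        simp)
    rwa [card_image_of_injective _ compl_injective] at h1
  · rw [not_nonempty_iff] at hne
    have h1 : (A.traces S).card ≤ (univ : Finset (Finset ι)).card := card_le_card (subset_univ _)
    rw [card_univ, Fintype.card_finset, Fintype.card_eq_zero] at h1
    rw [Fintype.card_eq_zero]
    simpa using h1

end PHP
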