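import Mathlib
import Pool.Agent.PHP.NibStep

/-!
# Rounding fractional packings of bounded width by multiplicative weights

`𝒳` is a family of sets. `WFrac 𝒳 q W m'`: for every set `V` of letters that leaves at least `m'`
elements in every member of `𝒳` there is a family of subsets of `V` which meet all members of `𝒳`,
each in at most `W` elements, such that every letter is in at most `2 / (q m')` of them. Removing such
sets one after the other, chosen by exponential weights, costs about `2 / q` per set.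
-/

namespace PHP

open Finset

variable {ι : Type} [DecidableEq ι]

/-- fractional packings of width `W` for all parts of depth `m'` -/
def WFrac (𝒳 : Finset (Finset ι)) (q W : ℝ) (m' : ℕ) : Prop :=
  ∀ V : Finset ι, (∀ X ∈ 𝒳, m' ≤ (X ∩ V).card) →
    ∃ (α : Type) (_ : Fintype α) (H : α → Finset ι), 0 < Fintype.card α ∧ (∀ a, H a ⊆ V) ∧
      (∀ a, ∀ X ∈ 𝒳, (H a ∩ X).Nonempty) ∧ (∀ a, ∀ X ∈ 𝒳, ((H a ∩ X).card : ℝ) ≤ W) ∧
      ∀ v, ((univ.filter (fun a => v ∈ H a)).card : ℝ) * (q * m') ≤ 2 * Fintype.card α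

/-- the sum of the weights -/
noncomputable def mwPhi (𝒳 : Finset (Finset ι)) (η : ℝ) (V : Finset ι) : ℝ :=
  ∑ X ∈ 𝒳, Real.exp (-(η * ((X ∩ V).card : ℝ)))

theorem mwPhi_pos {𝒳 : Finset (Finset ι)} (h : 𝒳.Nonempty) (η : ℝ) (V : Finset ι) :
    0 < mwPhi 𝒳 η V := Finset.sum_pos (fun _ _ => Real.exp_pos _) h

/-- the entropy inequality -/
theorem mw_entropy {𝒳 : Finset (Finset ι)} (h : 𝒳.Nonempty) {η N : ℝ} (hN : (𝒳.card : ℝ) ≤ N)
    (V : Finset ι) :
    η * ∑ X ∈ 𝒳, Real.exp (-(η * ((X ∩ V).card : ℝ))) * ((X ∩ V).card : ℝ) ≤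
      mwPhi 𝒳 η V * (Real.log N - Real.log (mwPhi 𝒳 η V)) := by
  set P : ℝ := mwPhi 𝒳 η V with hP
  have hPpos : 0 < P := mwPhi_pos h η V
  have hcard : (1 : ℝ) ≤ 𝒳.card := by exact_mod_cast h.card_pos
  have hNpos : 0 < N := by linarith
  have key : ∀ X ∈ 𝒳, Real.exp (-(η * ((X ∩ V).card : ℝ))) *
      (Real.log P - Real.log N + η * ((X ∩ V).card : ℝ)) ≤
      P / N - Real.exp (-(η * ((X ∩ V).card : ℝ))) := by
    intro X _
    set x : ℝ := η * ((X ∩ V).card : ℝ) with hx
    have he : 0 < Real.exp (-x) := Real.exp_pos _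
    have h1 : Real.log (P / (N * Real.exp (-x))) ≤ P / (N * Real.exp (-x)) - 1 :=
      Real.log_le_sub_one_of_pos (by positivity)
    have h2 : Real.log (P / (N * Real.exp (-x))) = Real.log P - Real.log N + x := by
      rw [Real.log_div hPpos.ne' (by positivity), Real.log_mul hNpos.ne' he.ne', Real.log_exp]
      ring
    rw [h2] at h1
    have h3 := mul_le_mul_of_nonneg_left h1 he.le
    have h4 : Real.exp (-x) * (P / (N * Real.exp (-x)) - 1) = P / N - Real.exp (-x) := by
      field_simp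
    rw [h4] at h3
    exact h3
  have hsum := Finset.sum_le_sum key
  rw [Finset.sum_sub_distrib, Finset.sum_const, nsmul_eq_mul] at hsum
  have h5 : ∑ X ∈ 𝒳, Real.exp (-(η * ((X ∩ V).card : ℝ))) *
      (Real.log P - Real.log N + η * ((X ∩ V).card : ℝ)) =
      P * (Real.log P - Real.log N) +
      η * ∑ X ∈ 𝒳, Real.exp (-(η * ((X ∩ V).card : ℝ))) * ((X ∩ V).card : ℝ) := by
    rw [hP, mwPhi, Finset.sum_mul, Finset.mul_sum, ← Finset.sum_add_distrib]
    apply Finset.sum_congr rfl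
    intro X _
    ring
  rw [h5] at hsum
  have h6 : (𝒳.card : ℝ) * (P / N) ≤ P := by
    have : (𝒳.card : ℝ) * (P / N) = 𝒳.card / N * P := by ring
    rw [this]
    have h7 : (𝒳.card : ℝ) / N ≤ 1 := (div_le_one hNpos).2 hN
    nlinarith
  have h8 : ∑ X ∈ 𝒳, Real.exp (-(η * ((X ∩ V).card : ℝ))) = P := rfl
  rw [h8] at hsum
  linarith

/-- the potential measured as a depth -/
noncomputable def mwDep (𝒳 : Finset (Finset ι)) (η N : ℝ) (V : Finset ι) : ℝ :=
  (Real.log N - Real.log (mwPhi 𝒳 η V)) / η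

theorem mwDep_le {𝒳 : Finset (Finset ι)} {η N : ℝ} (hη : 0 < η) {V X : Finset ι} (hX : X ∈ 𝒳) :
    mwDep 𝒳 η N V ≤ ((X ∩ V).card : ℝ) + Real.log N / η := by
  have h1 : Real.exp (-(η * ((X ∩ V).card : ℝ))) ≤ mwPhi 𝒳 η V :=
    Finset.single_le_sum (f := fun X => Real.exp (-(η * ((X ∩ V).card : ℝ))))
      (fun _ _ => (Real.exp_pos _).le) hX
  have h2 := Real.log_le_log (Real.exp_pos _) h1
  rw [Real.log_exp] at h2
  unfold mwDep
  rw [div_le_iff₀ hη, add_mul, div_mul_cancel₀ _ hη.ne']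
  linarith

theorem le_mwDep {𝒳 : Finset (Finset ι)} (h : 𝒳.Nonempty) {η N : ℝ} (hη : 0 < η)
    (hN : (𝒳.card : ℝ) ≤ N) {V : Finset ι} {m : ℕ} (hm : ∀ X ∈ 𝒳, m ≤ (X ∩ V).card) :
    (m : ℝ) ≤ mwDep 𝒳 η N V := by
  have hcard : (1 : ℝ) ≤ 𝒳.card := by exact_mod_cast h.card_pos
  have h1 : mwPhi 𝒳 η V ≤ N * Real.exp (-(η * m)) := by
    calc mwPhi 𝒳 η V ≤ ∑ X ∈ 𝒳, Real.exp (-(η * m)) := by
          apply Finset.sum_le_sum
          intro X hX
          apply Real.exp_le_exp.2
          have : (m : ℝ) ≤ ((X ∩ V).card : ℝ) := by exact_mod_cast hm X hX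
          nlinarith
      _ = 𝒳.card * Real.exp (-(η * m)) := by rw [Finset.sum_const, nsmul_eq_mul]
      _ ≤ _ := mul_le_mul_of_nonneg_right hN (Real.exp_pos _).le
  have h2 := Real.log_le_log (mwPhi_pos h η V) h1
  rw [Real.log_mul (by linarith) (Real.exp_pos _).ne', Real.log_exp] at h2
  unfold mwDep
  rw [le_div_iff₀ hη]
  linarith

/-- one round -/
theorem mw_step {𝒳 : Finset (Finset ι)} (h : 𝒳.Nonempty) {η N q W s : ℝ} (hη : 0 < η)
    (hN : (𝒳.card : ℝ) ≤ N) (hq : 0 < q) (hW : 1 ≤ W) (hs : η * W = s) (hs1 : s ≤ 1) {m' : ℕ}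
    (hm' : 1 ≤ m') (hF : WFrac 𝒳 q W m') {V : Finset ι} (hV : ∀ X ∈ 𝒳, m' ≤ (X ∩ V).card) :
    ∃ D : Finset ι, D ⊆ V ∧ (∀ X ∈ 𝒳, (D ∩ X).Nonempty) ∧
      mwDep 𝒳 η N V * (1 - 2 * (1 + s) / (q * m')) ≤ mwDep 𝒳 η N (V \ D) := by
  classical
  obtain ⟨α, _, H, hα, h1, h2, h3, h4⟩ := hF V hV
  have hm'r : (1 : ℝ) ≤ m' := by exact_mod_cast hm'
  set P : ℝ := mwPhi 𝒳 η V with hP
  have hPpos : 0 < P := mwPhi_pos h η V
  have hs0 : 0 < s := by rw [← hs]; positivity
  have hcard : (1 : ℝ) ≤ 𝒳.card := by exact_mod_cast h.card_pos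
  have hT : (0 : ℝ) < Fintype.card α := by exact_mod_cast hα
  set lam : Finset ι → ℝ := fun X => Real.exp (-(η * ((X ∩ V).card : ℝ))) with hlam
  set M : ℝ := ∑ X ∈ 𝒳, lam X * ((X ∩ V).card : ℝ) with hM
  -- a good member of the family
  have havg : ∑ a, ∑ X ∈ 𝒳, lam X * ((H a ∩ X).card : ℝ) ≤
      ∑ a : α, 2 / (q * m') * M := by
    rw [Finset.sum_comm, Finset.sum_const, Finset.card_univ, nsmul_eq_mul]
    have e1 : ∀ X ∈ 𝒳, ∑ a, lam X * ((H a ∩ X).card : ℝ) ≤
        lam X * (((X ∩ V).card : ℝ) * (2 * Fintype.card α / (q * m'))) := by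
      intro X _
      rw [← Finset.mul_sum]
      apply mul_le_mul_of_nonneg_left _ (Real.exp_pos _).le
      have e2 : ∀ a, ((H a ∩ X).card : ℝ) = ∑ v ∈ X ∩ V, if v ∈ H a then (1 : ℝ) else 0 := by
        intro a
        have e3 : H a ∩ X = (X ∩ V).filter (fun v => v ∈ H a) := by
          ext v
          simp only [mem_inter, mem_filter]
          constructor
          · rintro ⟨e4, e5⟩
            exact ⟨⟨e5, h1 a e4⟩, e4⟩
          · rintro ⟨⟨e4, e5⟩, e6⟩
            exact ⟨e6, e4⟩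
        rw [e3, Finset.card_filter]
        push_cast
        rfl
      rw [Finset.sum_congr rfl (fun a _ => e2 a), Finset.sum_comm]
      calc ∑ v ∈ X ∩ V, (∑ a, if v ∈ H a then (1 : ℝ) else 0)
          ≤ ∑ v ∈ X ∩ V, (2 * Fintype.card α / (q * m') : ℝ) := by
            apply Finset.sum_le_sum
            intro v _
            have e7 := h4 v
            rw [Finset.card_filter] at e7
            push_cast at e7
            rw [le_div_iff₀ (by positivity)]
            exact e7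
        _ = _ := by rw [Finset.sum_const, nsmul_eq_mul]
    calc ∑ X ∈ 𝒳, ∑ a, lam X * ((H a ∩ X).card : ℝ)
        ≤ ∑ X ∈ 𝒳, lam X * (((X ∩ V).card : ℝ) * (2 * Fintype.card α / (q * m'))) :=
          Finset.sum_le_sum e1
      _ = Fintype.card α * (2 / (q * m') * M) := by
          rw [hM, Finset.mul_sum, Finset.mul_sum]
          apply Finset.sum_congr rfl
          intro X _
          ring
  have hne : (univ : Finset α).Nonempty := by
    rw [← Finset.card_pos, Finset.card_univ]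
    exact hα
  obtain ⟨a, _, ha⟩ := Finset.exists_le_of_sum_le hne havg
  refine ⟨H a, h1 a, h2 a, ?_⟩
  -- the new potential
  have hnew : mwPhi 𝒳 η (V \ H a) ≤ P + (1 + s) * η * (2 / (q * m') * M) := by
    have e1 : ∀ X ∈ 𝒳, Real.exp (-(η * ((X ∩ (V \ H a)).card : ℝ))) ≤
        lam X + (1 + s) * η * (lam X * ((H a ∩ X).card : ℝ)) := by
      intro X hX
      have e2 : ((X ∩ V).card : ℝ) = ((X ∩ (V \ H a)).card : ℝ) + ((H a ∩ X).card : ℝ) := by
        have e3 : X ∩ (V \ H a) = (X ∩ V) \ (H a ∩ X) := by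
          ext v
          simp only [mem_inter, mem_sdiff]
          tauto
        have e4 : H a ∩ X ⊆ X ∩ V := by
          intro v hv
          rw [mem_inter] at hv ⊢
          exact ⟨hv.2, h1 a hv.1⟩
        rw [e3]
        exact_mod_cast (card_sdiff_add_card_eq_card e4).symm
      set y : ℝ := ((H a ∩ X).card : ℝ) with hy
      have hy0 : 0 ≤ y := by positivity
      have hyW : y ≤ W := h3 a X hX
      have e5 : Real.exp (η * y) ≤ 1 + (1 + s) * η * y := by
        have e6 := nib_chord (l := η) (y := y) (B := W) (by linarith) hy0 hyW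
        rw [hs] at e6
        have e7 : Real.exp s - 1 ≤ s * (1 + s) := by
          have := Real.abs_exp_sub_one_sub_id_le (x := s) (by rw [abs_of_nonneg hs0.le]; exact hs1)
          have := (abs_le.1 this).2
          nlinarith
        have e8 : y / W * (Real.exp s - 1) ≤ y / W * (s * (1 + s)) :=
          mul_le_mul_of_nonneg_left e7 (by positivity)
        have e9 : y / W * (s * (1 + s)) = (1 + s) * η * y := by
          rw [← hs]
          field_simp
        linarith
      have e10 : Real.exp (-(η * ((X ∩ (V \ H a)).card : ℝ))) = lam X * Real.exp (η * y) := by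
        rw [hlam]
        dsimp only
        rw [← Real.exp_add]
        congr 1
        rw [e2]
        ring
      rw [e10]
      calc lam X * Real.exp (η * y) ≤ lam X * (1 + (1 + s) * η * y) :=
            mul_le_mul_of_nonneg_left e5 (Real.exp_pos _).le
        _ = _ := by ring
    calc mwPhi 𝒳 η (V \ H a) ≤ ∑ X ∈ 𝒳, (lam X + (1 + s) * η * (lam X * ((H a ∩ X).card : ℝ))) :=
          Finset.sum_le_sum e1
      _ = P + (1 + s) * η * ∑ X ∈ 𝒳, lam X * ((H a ∩ X).card : ℝ) := by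
          rw [Finset.sum_add_distrib, Finset.mul_sum]
          rfl
      _ ≤ P + (1 + s) * η * (2 / (q * m') * M) := by
          have : (1 + s) * η * ∑ X ∈ 𝒳, lam X * ((H a ∩ X).card : ℝ) ≤
              (1 + s) * η * (2 / (q * m') * M) := mul_le_mul_of_nonneg_left ha (by positivity)
          linarith
  have hent := mw_entropy h (η := η) hN V
  have hent' : M ≤ P * mwDep 𝒳 η N V := by
    unfold mwDep
    have : P * ((Real.log N - Real.log (mwPhi 𝒳 η V)) / η) =
        (P * (Real.log N - Real.log (mwPhi 𝒳 η V))) / η := by ring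
    rw [this, le_div_iff₀ hη, mul_comm]
    exact hent
  set φ : ℝ := mwDep 𝒳 η N V with hφ
  have hφη : η * φ = Real.log N - Real.log P := by
    rw [hφ, hP]
    unfold mwDep
    field_simp
  have hnew2 : mwPhi 𝒳 η (V \ H a) ≤ P * (1 + η * (2 * (1 + s) / (q * m') * φ)) := by
    have : (1 + s) * η * (2 / (q * m') * M) ≤ (1 + s) * η * (2 / (q * m') * (P * φ)) := by
      apply mul_le_mul_of_nonneg_left _ (by positivity)
      exact mul_le_mul_of_nonneg_left hent' (by positivity)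
    calc mwPhi 𝒳 η (V \ H a) ≤ P + (1 + s) * η * (2 / (q * m') * (P * φ)) := by linarith
      _ = _ := by ring
  have hlog : Real.log (mwPhi 𝒳 η (V \ H a)) ≤
      Real.log P + η * (2 * (1 + s) / (q * m') * φ) := by
    have e1 := Real.add_one_le_exp (η * (2 * (1 + s) / (q * m') * φ))
    have e2 : mwPhi 𝒳 η (V \ H a) ≤ P * Real.exp (η * (2 * (1 + s) / (q * m') * φ)) := by
      refine hnew2.trans ?_
      apply mul_le_mul_of_nonneg_left _ hPpos.le
      linarith
    have e3 := Real.log_le_log (mwPhi_pos h η _) e2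
    rw [Real.log_mul hPpos.ne' (Real.exp_pos _).ne', Real.log_exp] at e3
    exact e3
  have e4 : mwDep 𝒳 η N (V \ H a) * η = Real.log N - Real.log (mwPhi 𝒳 η (V \ H a)) := by
    unfold mwDep
    field_simp
  have e5 : φ * (1 - 2 * (1 + s) / (q * m')) * η ≤ mwDep 𝒳 η N (V \ H a) * η := by
    rw [e4]
    have : φ * (1 - 2 * (1 + s) / (q * m')) * η =
        η * φ - η * (2 * (1 + s) / (q * m') * φ) := by ring
    rw [this, hφη]
    linarith
  exact le_of_mul_le_mul_right e5 hη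

/-- `t` disjoint transversals -/
theorem mw_main {𝒳 : Finset (Finset ι)} (h : 𝒳.Nonempty) {η N q W s e x0 : ℝ} {mmax : ℕ}
    (hη : 0 < η) (hN : (𝒳.card : ℝ) ≤ N) (hq : 0 < q) (hW : 1 ≤ W) (hs : η * W = s) (hs1 : s ≤ 1)
    (he1 : e < 1) (hx0 : Real.log N ≤ η * e * x0) (hx1 : 1 ≤ (1 - e) * x0) (he0 : 0 < e)
    (hmax : ∀ X ∈ 𝒳, X.card ≤ mmax)
    (hF : ∀ m' : ℕ, (1 - e) * x0 ≤ m' → m' ≤ mmax → WFrac 𝒳 q W m') (t : ℕ) :
    ∀ V : Finset ι, x0 + 2 * (1 + s) / (q * (1 - e)) * t ≤ mwDep 𝒳 η N V →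
      ∃ l : List (Finset ι), l.Pairwise Disjoint ∧
        (∀ D ∈ l, D ⊆ V ∧ ∀ X ∈ 𝒳, (D ∩ X).Nonempty) ∧ l.length = t := by
  classical
  have hs0 : 0 < s := by rw [← hs]; positivity
  have h1e : 0 < 1 - e := by linarith
  have hC0 : 0 < 2 * (1 + s) / (q * (1 - e)) := by positivity
  have hx0pos : 0 < x0 := by
    by_contra hcon
    rw [not_lt] at hcon
    nlinarith
  induction t with
  | zero => exact fun V _ => ⟨[], List.Pairwise.nil, by simp, rfl⟩
  | succ t ih =>
    intro V hV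
    set φ : ℝ := mwDep 𝒳 η N V with hφ
    have ht0 : (0 : ℝ) ≤ t := by positivity
    have hφ0 : x0 ≤ φ := by
      push_cast at hV
      nlinarith
    set m' : ℕ := ⌈φ - Real.log N / η⌉₊ with hm'
    have g1 : ∀ X ∈ 𝒳, m' ≤ (X ∩ V).card := by
      intro X hX
      rw [hm']
      apply Nat.ceil_le.2
      have := mwDep_le (N := N) hη (V := V) hX
      linarith
    have g2 : (1 - e) * φ ≤ m' := by
      have e1 : φ - Real.log N / η ≤ m' := Nat.le_ceil _
      have e2 : Real.log N / η ≤ e * φ := by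
        rw [div_le_iff₀ hη]
        have : η * e * x0 ≤ η * e * φ := by gcongr
        linarith
      linarith
    have g3 : (1 - e) * x0 ≤ m' := by nlinarith
    have g4 : (1 : ℝ) ≤ m' := by linarith
    have g5 : 1 ≤ m' := by exact_mod_cast g4
    obtain ⟨X0, hX0⟩ := h
    have g6 : m' ≤ mmax := (g1 X0 hX0).trans ((card_le_card inter_subset_left).trans (hmax X0 hX0))
    obtain ⟨D, d1, d2, d3⟩ := mw_step ⟨X0, hX0⟩ hη hN hq hW hs hs1 g5 (hF m' g3 g6) g1
    have g7 : 2 * (1 + s) / (q * m') * φ ≤ 2 * (1 + s) / (q * (1 - e)) := by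
      rw [div_mul_eq_mul_div, div_le_div_iff₀ (by positivity) (by positivity)]
      have : 2 * (1 + s) * φ * (q * (1 - e)) = (2 * (1 + s) * q) * ((1 - e) * φ) := by ring
      rw [this]
      have : 2 * (1 + s) * (q * m') = (2 * (1 + s) * q) * m' := by ring
      rw [this]
      exact mul_le_mul_of_nonneg_left g2 (by positivity)
    have g8 : x0 + 2 * (1 + s) / (q * (1 - e)) * t ≤ mwDep 𝒳 η N (V \ D) := by
      refine le_trans ?_ d3
      have e1 : φ * (1 - 2 * (1 + s) / (q * m')) = φ - 2 * (1 + s) / (q * m') * φ := by ring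
      rw [e1]
      push_cast at hV
      have e2 : 2 * (1 + s) / (q * (1 - e)) * ((t : ℝ) + 1) =
          2 * (1 + s) / (q * (1 - e)) * t + 2 * (1 + s) / (q * (1 - e)) := by ring
      rw [e2] at hV
      linarith
    obtain ⟨l, l1, l2, l3⟩ := ih (V \ D) g8
    refine ⟨D :: l, ?_, ?_, by simp [l3]⟩
    · rw [List.pairwise_cons]
      exact ⟨fun h hh => Disjoint.mono_right (l2 h hh).1 disjoint_sdiff, l1⟩
    · intro h hh
      rw [List.mem_cons] at hh
      rcases hh with rfl | hh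
      · exact ⟨d1, d2⟩
      · exact ⟨(l2 h hh).1.trans sdiff_subset, (l2 h hh).2⟩

end PHP
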