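import Mathlib
import Pool.Agent.PHP.Frac

/-!
# Width lemma, first part: windows of the greedy sequence

Letters with `P`, orders `g s` (`s` is the time), rank `rk P (g s) v`. Two letters cross at most once
(`hsc`), a rank changes by at most one in a step (`hst`). `x` is ahead of `y` at the time `s` if
`g s x < g s y`.
-/

set_option linter.unusedSectionVars false

namespace PHP

open Finset

variable {ι : Type} [Fintype ι] [DecidableEq ι]

/-- hypotheses on the orders -/
structure Ords (P : ι → Bool) (g : ℕ → ι → ℕ) : Prop where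
  inj : ∀ s, Function.Injective (g s)
  sc : ∀ x y, ∀ s1 s2 s3, s1 ≤ s2 → s2 ≤ s3 → g s1 x < g s1 y → g s3 x < g s3 y →
    g s2 x < g s2 y
  up : ∀ s v, P v = true → rk P (g (s + 1)) v ≤ rk P (g s) v + 1
  dn : ∀ s v, P v = true → rk P (g s) v ≤ rk P (g (s + 1)) v + 1

/-- the letters ahead of `v` -/
def ahd (P : ι → Bool) (g : ι → ℕ) (v : ι) : Finset ι :=
  univ.filter (fun u => P u = true ∧ g u < g v)

theorem card_ahd (P : ι → Bool) (g : ι → ℕ) (v : ι) : (ahd P g v).card = rk P g v := rfl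

theorem mem_ahd {P : ι → Bool} {g : ι → ℕ} {u v : ι} :
    u ∈ ahd P g v ↔ P u = true ∧ g u < g v := by
  unfold ahd
  simp

variable {P : ι → Bool} {g : ℕ → ι → ℕ}

theorem Ords.lt_or (h : Ords P g) {x y : ι} (hxy : x ≠ y) (s : ℕ) : g s x < g s y ∨ g s y < g s x :=
  lt_or_gt_of_ne (fun he => hxy (h.inj s he))

/-- intermediate values, upwards -/
theorem Ords.ivt_up (h : Ords P g) {v : ι} (hv : P v = true) {c : ℕ} {s1 : ℕ}
    (h1 : rk P (g s1) v < c) : ∀ s2, s1 ≤ s2 → c ≤ rk P (g s2) v →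
    ∃ s, s1 < s ∧ s ≤ s2 ∧ rk P (g s) v = c := by
  intro s2 hs
  induction s2, hs using Nat.le_induction with
  | base => intro h2; omega
  | succ t ht ih =>
    intro h2
    by_cases h3 : c ≤ rk P (g t) v
    · obtain ⟨s, a1, a2, a3⟩ := ih h3
      exact ⟨s, a1, by omega, a3⟩
    · have := h.up t v hv
      exact ⟨t + 1, by omega, le_rfl, by omega⟩

/-- intermediate values, downwards -/
theorem Ords.ivt_dn (h : Ords P g) {v : ι} (hv : P v = true) {c : ℕ} {s1 : ℕ}
    (h1 : c ≤ rk P (g s1) v) : ∀ s2, s1 ≤ s2 → rk P (g s2) v < c →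
    ∃ s, s1 ≤ s ∧ s < s2 ∧ rk P (g s) v = c := by
  intro s2 hs
  induction s2, hs using Nat.le_induction with
  | base => intro h2; omega
  | succ t ht ih =>
    intro h2
    by_cases h3 : rk P (g t) v < c
    · obtain ⟨s, a1, a2, a3⟩ := ih h3
      exact ⟨s, a1, by omega, a3⟩
    · have := h.dn t v hv
      exact ⟨t, ht, by omega, by omega⟩

/-- the pairs inside `Γ` that cross between `s` and `t` -/
def crs (g : ℕ → ι → ℕ) (Γ : Finset ι) (s t : ℕ) : Finset (ι × ι) :=
  (Γ ×ˢ Γ).filter (fun p => g s p.1 < g s p.2 ∧ g t p.2 < g t p.1)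

/-- the letters that pass `v` between `s` and `t` -/
def nw (P : ι → Bool) (g : ℕ → ι → ℕ) (v : ι) (s t : ℕ) : Finset ι :=
  univ.filter (fun x => P x = true ∧ g s v < g s x ∧ g t x < g t v)

theorem Ords.mem_nw (h : Ords P g) {v x : ι} {s t1 t2 t : ℕ} (h1 : s ≤ t1) (h2 : t1 ≤ t2)
    (h3 : t2 ≤ t) (hx : P x = true) (a1 : g t1 v < g t1 x) (a2 : g t2 x < g t2 v) :
    x ∈ nw P g v s t := by
  unfold nw
  rw [mem_filter]
  have hne : x ≠ v := by
    rintro rfl
    omega
  refine ⟨mem_univ _, hx, ?_, ?_⟩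
  · rcases h.lt_or hne s with h4 | h4
    · have := h.sc x v s t1 t2 h1 h2 h4 a2
      omega
    · exact h4
  · rcases h.lt_or hne t with h4 | h4
    · exact h4
    · have := h.sc v x t1 t2 t h2 h3 a1 h4
      omega

theorem Ords.mem_crs (h : Ords P g) {Γ : Finset ι} {x y : ι} {s t1 t2 t : ℕ} (h1 : s ≤ t1)
    (h2 : t1 ≤ t2) (h3 : t2 ≤ t) (hx : x ∈ Γ) (hy : y ∈ Γ) (a1 : g t1 x < g t1 y)
    (a2 : g t2 y < g t2 x) : (x, y) ∈ crs g Γ s t := by
  unfold crs
  rw [mem_filter, mem_product]
  have hne : x ≠ y := by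
    rintro rfl
    omega
  refine ⟨⟨hx, hy⟩, ?_, ?_⟩
  · rcases h.lt_or hne s with h4 | h4
    · exact h4
    · have := h.sc y x s t1 t2 h1 h2 h4 a2
      omega
  · rcases h.lt_or hne t with h4 | h4
    · have := h.sc x y t1 t2 t h2 h3 a1 h4
      omega
    · exact h4

/-- a letter whose rank grows is passed by many letters -/
theorem Ords.nw_of_rank (h : Ords P g) {v : ι} {s t1 t2 t : ℕ} (h1 : s ≤ t1) (h2 : t1 ≤ t2)
    (h3 : t2 ≤ t) : rk P (g t2) v ≤ rk P (g t1) v + (nw P g v s t).card := by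
  rw [← card_ahd, ← card_ahd]
  have hsub : ahd P (g t2) v ⊆ ahd P (g t1) v ∪ nw P g v s t := by
    intro x hx
    rw [mem_ahd] at hx
    rw [mem_union, mem_ahd]
    have hne : x ≠ v := by
      rintro rfl
      omega
    rcases h.lt_or hne t1 with h4 | h4
    · left
      exact ⟨hx.1, h4⟩
    · right
      exact h.mem_nw h1 h2 h3 hx.1 h4 hx.2
  exact (card_le_card hsub).trans (card_union_le _ _)

theorem Ords.mem_gam (h : Ords P g) {v x : ι} {a b s : ℕ} (h1 : a ≤ s) (h2 : s ≤ b)
    (hx : P x = true) (hs : g s x < g s v) : x ∈ ahd P (g a) v ∪ ahd P (g b) v := by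
  rw [mem_union, mem_ahd, mem_ahd]
  have hne : x ≠ v := by
    rintro rfl
    omega
  rcases h.lt_or hne a with h3 | h3
  · exact Or.inl ⟨hx, h3⟩
  · rcases h.lt_or hne b with h4 | h4
    · exact Or.inr ⟨hx, h4⟩
    · have := h.sc v x a s b h1 h2 h3 h4
      omega

/-- the window lemma -/
theorem Ords.window (h : Ords P g) {v u : ι} (hu : P u = true) {c k : ℕ}
    {a b s0 s1 s2 s3 : ℕ} (has : a ≤ s0) (h01 : s0 ≤ s1) (h12 : s1 ≤ s2) (h23 : s2 ≤ s3)
    (hsb : s3 ≤ b) (hu1 : rk P (g s1) u + 2 * k < c)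
    (hop : ∃ o, s0 ≤ o ∧ o < s1 ∧ rk P (g o) u = c)
    (ho : ∃ o, s1 < o ∧ o ≤ s2 ∧ rk P (g o) u = c)
    (hv1 : rk P (g s1) v < c → ∃ t, s1 ≤ t ∧ t ≤ s2 ∧ c ≤ rk P (g t) v)
    (hv2 : rk P (g s2) v < c → ∃ t, s2 ≤ t ∧ t ≤ s3 ∧ c ≤ rk P (g t) v) :
    k * (2 * k + 1) ≤ (crs g (ahd P (g a) v ∪ ahd P (g b) v) s0 s2).card ∨
      k ≤ (nw P g v s0 s3).card := by
  classical
  obtain ⟨p, p1, p2, p3⟩ := hop
  obtain ⟨o, o1, o2, o3⟩ := ho
  set Γ := ahd P (g a) v ∪ ahd P (g b) v with hΓ
  -- case 1: `v = u` or `v` is ahead of `u` at `s1`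
  by_cases hc1 : g s1 v ≤ g s1 u
  · right
    have e1 : rk P (g s1) v ≤ rk P (g s1) u := by
      rw [← card_ahd, ← card_ahd]
      apply card_le_card
      intro x hx
      rw [mem_ahd] at hx ⊢
      exact ⟨hx.1, by omega⟩
    obtain ⟨t, t1, t2, t3⟩ := hv1 (by omega)
    have e2 := h.nw_of_rank (v := v) (s := s0) (t1 := s1) (t2 := t) (t := s3) h01 t1 (by omega)
    omega
  rw [not_le] at hc1
  have hne : u ≠ v := by
    rintro rfl
    omega
  set O := ahd P (g p) u \ ahd P (g s1) u with hO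
  set Y := ahd P (g o) u \ ahd P (g s1) u with hY
  have hOc : 2 * k + 1 ≤ O.card := by
    have := le_card_sdiff (ahd P (g s1) u) (ahd P (g p) u)
    rw [card_ahd, card_ahd, p3, ← hO] at this
    omega
  have hYc : 2 * k + 1 ≤ Y.card := by
    have := le_card_sdiff (ahd P (g s1) u) (ahd P (g o) u)
    rw [card_ahd, card_ahd, o3, ← hY] at this
    omega
  have hOm : ∀ x ∈ O, P x = true ∧ g p x < g p u ∧ g s1 u < g s1 x ∧ g o u < g o x := by
    intro x hx
    rw [hO, mem_sdiff, mem_ahd, mem_ahd] at hx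
    obtain ⟨⟨hx1, hx2⟩, hx3⟩ := hx
    have hxu : x ≠ u := by
      rintro rfl
      omega
    have hx4 : g s1 u < g s1 x := by
      rcases h.lt_or hxu s1 with h4 | h4
      · exact absurd ⟨hx1, h4⟩ hx3
      · exact h4
    refine ⟨hx1, hx2, hx4, ?_⟩
    rcases h.lt_or hxu o with h4 | h4
    · have := h.sc x u p s1 o (by omega) (by omega) hx2 h4
      omega
    · exact h4
  have hYm : ∀ y ∈ Y, P y = true ∧ g o y < g o u ∧ g s1 u < g s1 y ∧ g p u < g p y := by
    intro x hx
    rw [hY, mem_sdiff, mem_ahd, mem_ahd] at hx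
    obtain ⟨⟨hx1, hx2⟩, hx3⟩ := hx
    have hxu : x ≠ u := by
      rintro rfl
      omega
    have hx4 : g s1 u < g s1 x := by
      rcases h.lt_or hxu s1 with h4 | h4
      · exact absurd ⟨hx1, h4⟩ hx3
      · exact h4
    refine ⟨hx1, hx2, hx4, ?_⟩
    rcases h.lt_or hxu p with h4 | h4
    · have := h.sc x u p s1 o (by omega) (by omega) h4 hx2
      omega
    · exact h4
  have hcross : ∀ (O' Y' : Finset ι), O' ⊆ O → Y' ⊆ Y → O' ⊆ Γ → Y' ⊆ Γ →
      O'.card * Y'.card ≤ (crs g Γ s0 s2).card := by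
    intro O' Y' a1 a2 a3 a4
    rw [← card_product]
    apply card_le_card
    rintro ⟨x, y⟩ hxy
    rw [mem_product] at hxy
    obtain ⟨hx, hy⟩ := hxy
    obtain ⟨b1, b2, b3, b4⟩ := hOm x (a1 hx)
    obtain ⟨c1, c2, c3, c4⟩ := hYm y (a2 hy)
    exact h.mem_crs (t1 := p) (t2 := o) p1 (by omega) o2 (a3 hx) (a4 hy) (by omega) (by omega)
  by_cases hp : g p u < g p v
  · have hOΓ : O ⊆ Γ := by
      intro x hx
      obtain ⟨b1, b2, b3, b4⟩ := hOm x hx
      exact h.mem_gam (s := p) (by omega) (by omega) b1 (by omega)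
    by_cases hoo : g o u < g o v
    · -- case 2a
      left
      have hYΓ : Y ⊆ Γ := by
        intro x hx
        obtain ⟨b1, b2, b3, b4⟩ := hYm x hx
        exact h.mem_gam (s := o) (by omega) (by omega) b1 (by omega)
      refine le_trans ?_ (hcross O Y (Subset.refl _) (Subset.refl _) hOΓ hYΓ)
      exact Nat.mul_le_mul (by omega) hYc
    · -- case 2b
      have hvo : g o v < g o u := (h.lt_or hne o).resolve_left hoo
      set Y1 := Y.filter (fun y => g o y < g o v) with hY1
      by_cases hk : k ≤ Y1.card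
      · left
        have hYΓ : Y1 ⊆ Γ := by
          intro x hx
          rw [hY1, mem_filter] at hx
          exact h.mem_gam (s := o) (by omega) (by omega) (hYm x hx.1).1 hx.2
        refine le_trans ?_ (hcross O Y1 (Subset.refl _) (filter_subset _ _) hOΓ hYΓ)
        rw [Nat.mul_comm]
        exact Nat.mul_le_mul hOc hk
      · right
        rw [not_le] at hk
        -- many letters between `v` and `u` at the time `o`
        have e1 : rk P (g o) v + k + 1 ≤ c := by
          have hsub : ahd P (g o) v ⊆ ahd P (g o) u \ (Y \ Y1) := by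
            intro x hx
            rw [mem_ahd] at hx
            rw [mem_sdiff, mem_ahd, mem_sdiff, hY1, mem_filter]
            exact ⟨⟨hx.1, by omega⟩, fun hh => hh.2 ⟨hh.1, hx.2⟩⟩
          have hsub2 : Y \ Y1 ⊆ ahd P (g o) u := sdiff_subset.trans (by
            rw [hY]; exact sdiff_subset)
          have e2 := card_le_card hsub
          rw [card_sdiff_of_subset hsub2, card_ahd, card_ahd, o3] at e2
          have e3 : (Y \ Y1).card = Y.card - Y1.card := card_sdiff_of_subset (filter_subset _ _)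
          have e4 := card_le_card hsub2
          rw [card_ahd, o3] at e4
          omega
        by_cases hs2 : rk P (g s2) v < c
        · obtain ⟨t, t1, t2, t3⟩ := hv2 hs2
          have e2 := h.nw_of_rank (v := v) (s := s0) (t1 := o) (t2 := t) (t := s3) (by omega)
            (by omega) t2
          omega
        · have e2 := h.nw_of_rank (v := v) (s := s0) (t1 := o) (t2 := s2) (t := s3) (by omega)
            (by omega) h23
          omega
  · -- case 2c
    have hvp : g p v < g p u := (h.lt_or hne p).resolve_left hp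
    have hoo : g o u < g o v := by
      rcases h.lt_or hne o with h4 | h4
      · exact h4
      · have := h.sc v u p s1 o (by omega) (by omega) hvp h4
        omega
    have hYΓ : Y ⊆ Γ := by
      intro x hx
      obtain ⟨b1, b2, b3, b4⟩ := hYm x hx
      exact h.mem_gam (s := o) (by omega) (by omega) b1 (by omega)
    set O1 := O.filter (fun y => g p y < g p v) with hO1
    by_cases hk : k ≤ O1.card
    · left
      have hOΓ : O1 ⊆ Γ := by
        intro x hx
        rw [hO1, mem_filter] at hx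
        exact h.mem_gam (s := p) (by omega) (by omega) (hOm x hx.1).1 hx.2
      refine le_trans ?_ (hcross O1 Y (filter_subset _ _) (Subset.refl _) hOΓ hYΓ)
      exact Nat.mul_le_mul hk hYc
    · right
      rw [not_le] at hk
      have e1 : rk P (g p) v + k + 1 ≤ c := by
        have hsub : ahd P (g p) v ⊆ ahd P (g p) u \ (O \ O1) := by
          intro x hx
          rw [mem_ahd] at hx
          rw [mem_sdiff, mem_ahd, mem_sdiff, hO1, mem_filter]
          exact ⟨⟨hx.1, by omega⟩, fun hh => hh.2 ⟨hh.1, hx.2⟩⟩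
        have hsub2 : O \ O1 ⊆ ahd P (g p) u := sdiff_subset.trans (by
          rw [hO]; exact sdiff_subset)
        have e2 := card_le_card hsub
        rw [card_sdiff_of_subset hsub2, card_ahd, card_ahd, p3] at e2
        have e3 : (O \ O1).card = O.card - O1.card := card_sdiff_of_subset (filter_subset _ _)
        have e4 := card_le_card hsub2
        rw [card_ahd, p3] at e4
        omega
      by_cases hs1 : rk P (g s1) v < c
      · obtain ⟨t, t1, t2, t3⟩ := hv1 hs1
        have e2 := h.nw_of_rank (v := v) (s := s0) (t1 := p) (t2 := t) (t := s3) p1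
          (by omega) (by omega)
        omega
      · have e2 := h.nw_of_rank (v := v) (s := s0) (t1 := p) (t2 := s1) (t := s3) p1
          (by omega) (by omega)
        omega

theorem card_le_of_close {s : Finset ℕ} {d : ℕ} (h : ∀ i ∈ s, ∀ j ∈ s, j ≤ i + d) :
    s.card ≤ d + 1 := by
  rcases s.eq_empty_or_nonempty with rfl | hs
  · simp
  · have hsub : s ⊆ Icc (s.min' hs) (s.min' hs + d) := by
      intro j hj
      rw [mem_Icc]
      exact ⟨s.min'_le j hj, h _ (s.min'_mem hs) j hj⟩
    refine (card_le_card hsub).trans ?_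
    rw [Nat.card_Icc]
    omega

/-- the number of windows is bounded -/
theorem Ords.count (h : Ords P g) {v : ι} {a b m k : ℕ} (hkm : k ≤ m)
    (ha : rk P (g a) v < m) (hb : rk P (g b) v < m) {th : ℕ → ℕ} (hmono : Monotone th)
    {J : Finset ℕ} (hJ : ∀ i ∈ J, 1 ≤ i ∧ a ≤ th (i - 1) ∧ th (i + 2) ≤ b ∧
      (k * (2 * k + 1) ≤
        (crs g (ahd P (g a) v ∪ ahd P (g b) v) (th (i - 1)) (th (i + 1))).card ∨
      k ≤ (nw P g v (th (i - 1)) (th (i + 2))).card)) :
    k ^ 2 * J.card ≤ 7 * m ^ 2 := by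
  classical
  set Γ := ahd P (g a) v ∪ ahd P (g b) v with hΓ
  have hΓc : Γ.card ≤ 2 * m := by
    have := card_union_le (ahd P (g a) v) (ahd P (g b) v)
    rw [card_ahd, card_ahd, ← hΓ] at this
    omega
  set JP := J.filter (fun i => k * (2 * k + 1) ≤ (crs g Γ (th (i - 1)) (th (i + 1))).card)
    with hJP
  set JN := J.filter (fun i => k ≤ (nw P g v (th (i - 1)) (th (i + 2))).card) with hJN
  have hJsub : J ⊆ JP ∪ JN := by
    intro i hi
    rw [mem_union, hJP, hJN, mem_filter, mem_filter]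
    rcases (hJ i hi).2.2.2 with h1 | h1
    · exact Or.inl ⟨hi, h1⟩
    · exact Or.inr ⟨hi, h1⟩
  have hJc : J.card ≤ JP.card + JN.card := (card_le_card hJsub).trans (card_union_le _ _)
  -- crossing pairs
  have h1 : JP.card * (k * (2 * k + 1)) ≤ (Γ ×ˢ Γ).card * 2 := by
    apply card_mul_le_card_mul (fun (i : ℕ) (p : ι × ι) => p ∈ crs g Γ (th (i - 1)) (th (i + 1)))
    · intro i hi
      rw [hJP, mem_filter] at hi
      refine hi.2.trans (card_le_card ?_)
      intro p hp
      rw [mem_bipartiteAbove]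
      refine ⟨?_, hp⟩
      unfold crs at hp
      rw [mem_filter] at hp
      exact hp.1
    · rintro ⟨x, y⟩ hp
      apply card_le_of_close (d := 1)
      intro i hi j hj
      rw [mem_bipartiteBelow] at hi hj
      by_contra hcon
      rw [not_le] at hcon
      obtain ⟨hiJ, hi2⟩ := hi
      obtain ⟨hjJ, hj2⟩ := hj
      rw [hJP, mem_filter] at hiJ hjJ
      unfold crs at hi2 hj2
      rw [mem_filter] at hi2 hj2
      have e1 : th (i + 1) ≤ th (j - 1) := hmono (by omega)
      have e2 : th (j - 1) ≤ th (j + 1) := hmono (by omega)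
      have := h.sc y x _ _ _ e1 e2 hi2.2.2 hj2.2.2
      have := hj2.2.1
      simp only at *
      omega
  -- new letters
  have h2 : JN.card * k ≤ (ahd P (g b) v).card * 3 := by
    apply card_mul_le_card_mul (fun (i : ℕ) (x : ι) => x ∈ nw P g v (th (i - 1)) (th (i + 2)))
    · intro i hi
      rw [hJN, mem_filter] at hi
      refine hi.2.trans (card_le_card ?_)
      intro x hx
      rw [mem_bipartiteAbove]
      refine ⟨?_, hx⟩
      unfold nw at hx
      rw [mem_filter] at hx
      obtain ⟨-, hx1, hx2, hx3⟩ := hx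
      rw [mem_ahd]
      refine ⟨hx1, ?_⟩
      have hne : x ≠ v := by
        rintro rfl
        omega
      rcases h.lt_or hne b with h4 | h4
      · exact h4
      · have := h.sc v x (th (i - 1)) (th (i + 2)) b (hmono (by omega)) (hJ i hi.1).2.2.1 hx2 h4
        omega
    · intro x _
      apply card_le_of_close (d := 2)
      intro i hi j hj
      rw [mem_bipartiteBelow] at hi hj
      by_contra hcon
      rw [not_le] at hcon
      obtain ⟨hiJ, hi2⟩ := hi
      obtain ⟨hjJ, hj2⟩ := hj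
      unfold nw at hi2 hj2
      rw [mem_filter] at hi2 hj2
      have e1 : th (i + 2) ≤ th (j - 1) := hmono (by omega)
      have e2 : th (j - 1) ≤ th (j + 2) := hmono (by omega)
      have := h.sc x v _ _ _ e1 e2 hi2.2.2.2 hj2.2.2.2
      have := hj2.2.2.1
      omega
  rw [card_product] at h1
  rw [card_ahd] at h2
  have e1 : Γ.card * Γ.card ≤ (2 * m) * (2 * m) := Nat.mul_le_mul hΓc hΓc
  have e2 : JP.card * (2 * k ^ 2) ≤ 8 * m ^ 2 := by
    calc JP.card * (2 * k ^ 2) ≤ JP.card * (k * (2 * k + 1)) := by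
          apply Nat.mul_le_mul_left
          nlinarith
      _ ≤ Γ.card * Γ.card * 2 := h1
      _ ≤ (2 * m) * (2 * m) * 2 := Nat.mul_le_mul_right _ e1
      _ = 8 * m ^ 2 := by ring
  have e3 : JN.card * k ^ 2 ≤ 3 * m ^ 2 := by
    calc JN.card * k ^ 2 = (JN.card * k) * k := by ring
      _ ≤ (m * 3) * m := Nat.mul_le_mul (h2.trans (Nat.mul_le_mul_right _ hb.le)) hkm
      _ = 3 * m ^ 2 := by ring
  calc k ^ 2 * J.card ≤ k ^ 2 * (JP.card + JN.card) := Nat.mul_le_mul_left _ hJc
    _ ≤ 7 * m ^ 2 := by nlinarith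

end PHP
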