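import Mathlib
import Pool.Agent.PHP.WidSeq

/-!
# Width lemma, second part: the greedy transversal

Demand times `Th` (all `≤ N`); at each demand time some letter of `H` has a rank less than
`c - 2 k`. The greedy transversal takes, whenever the current letter has left the first `c` ranks at
a demand time, the letter of `H` in the first `c` ranks which stays there longest (at the demand
times).
-/

set_option linter.unusedSectionVars false

namespace PHP

open Finset

variable {ι : Type} [Fintype ι] [DecidableEq ι] {P : ι → Bool} {g : ℕ → ι → ℕ}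

/-- `θ'` is an exit time of `w` -/
def Xt (P : ι → Bool) (g : ℕ → ι → ℕ) (c N : ℕ) (Th : ℕ → Prop) (w : ι) (s : ℕ) : Prop :=
  N < s ∨ (Th s ∧ c ≤ rk P (g s) w)

open Classical in
/-- first exit time from `s` on -/
noncomputable def xt (P : ι → Bool) (g : ℕ → ι → ℕ) (c N : ℕ) (Th : ℕ → Prop) (w : ι) (s : ℕ) :
    ℕ :=
  if h : ∃ t, s ≤ t ∧ Xt P g c N Th w t then Nat.find h else 0

theorem xt_spec (P : ι → Bool) (g : ℕ → ι → ℕ) (c N : ℕ) (Th : ℕ → Prop) (w : ι) (s : ℕ) :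
    s ≤ xt P g c N Th w s ∧ Xt P g c N Th w (xt P g c N Th w s) ∧
      ∀ t, s ≤ t → t < xt P g c N Th w s → ¬ Xt P g c N Th w t := by
  classical
  have h : ∃ t, s ≤ t ∧ Xt P g c N Th w t := ⟨max s (N + 1), le_max_left _ _, Or.inl (by
    have := le_max_right s (N + 1)
    omega)⟩
  unfold xt
  rw [dif_pos h]
  have h1 := Nat.find_spec h
  refine ⟨h1.1, h1.2, fun t ht1 ht2 ht3 => ?_⟩
  exact Nat.find_min h ht2 ⟨ht1, ht3⟩

theorem xt_le (P : ι → Bool) (g : ℕ → ι → ℕ) (c N : ℕ) (Th : ℕ → Prop) (w : ι) {s t : ℕ}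
    (h1 : s ≤ t) (h2 : Xt P g c N Th w t) : xt P g c N Th w s ≤ t := by
  by_contra hcon
  rw [not_le] at hcon
  exact (xt_spec P g c N Th w s).2.2 t h1 hcon h2

/-- the greedy choice -/
theorem exists_sel (H : Finset ι) (c N : ℕ) (Th : ℕ → Prop) {s : ℕ}
    (hs : ∃ w ∈ H, rk P (g s) w < c) :
    ∃ w ∈ H, rk P (g s) w < c ∧ ∀ w' ∈ H, rk P (g s) w' < c →
      xt P g c N Th w' s ≤ xt P g c N Th w s := by
  classical
  obtain ⟨w0, hw0, hw0'⟩ := hs
  obtain ⟨w, hw, hmax⟩ := exists_max_image (H.filter (fun w => rk P (g s) w < c))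
    (fun w => xt P g c N Th w s) ⟨w0, by rw [mem_filter]; exact ⟨hw0, hw0'⟩⟩
  rw [mem_filter] at hw
  exact ⟨w, hw.1, hw.2, fun w' h1 h2 => hmax w' (by rw [mem_filter]; exact ⟨h1, h2⟩)⟩

/-- the property of the greedy sequence -/
def Grd (P : ι → Bool) (g : ℕ → ι → ℕ) (H : Finset ι) (c N : ℕ) (Th : ℕ → Prop) (th : ℕ → ℕ)
    (w : ℕ → ι) : Prop :=
  ∀ i, (Th (th i) → w i ∈ H ∧
      rk P (g (th i)) (w i) < c ∧ (∀ w' ∈ H, rk P (g (th i)) w' < c →
        xt P g c N Th w' (th i) ≤ th (i + 1)) ∧ th (i + 1) = xt P g c N Th (w i) (th i)) ∧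
      (¬ Th (th i) → th (i + 1) = th i)

/-- the greedy sequence -/
theorem exists_seq (H : Finset ι) {c N : ℕ} {Th : ℕ → Prop}
    (hH : ∀ s, Th s → ∃ w ∈ H, rk P (g s) w < c) {s0 : ℕ} (hs0 : Th s0) :
    ∃ (th : ℕ → ℕ) (w : ℕ → ι), th 0 = s0 ∧ Grd P g H c N Th th w := by
  classical
  obtain ⟨w0, hw0, -⟩ := hH s0 hs0
  have hsel : ∀ s, ∃ w, Th s → w ∈ H ∧ rk P (g s) w < c ∧ ∀ w' ∈ H, rk P (g s) w' < c →
      xt P g c N Th w' s ≤ xt P g c N Th w s := by
    intro s
    by_cases h : Th s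
    · obtain ⟨w, h1, h2, h3⟩ := exists_sel (P := P) (g := g) H c N Th (hH s h)
      exact ⟨w, fun _ => ⟨h1, h2, h3⟩⟩
    · exact ⟨w0, fun hh => absurd hh h⟩
  choose sel hsel' using hsel
  let th : ℕ → ℕ := fun n => Nat.rec s0
    (fun _ s => if Th s then xt P g c N Th (sel s) s else s) n
  have hth : ∀ i, th (i + 1) = if Th (th i) then xt P g c N Th (sel (th i)) (th i) else th i :=
    fun i => rfl
  refine ⟨th, fun i => sel (th i), rfl, fun i => ⟨fun h => ?_, fun h => ?_⟩⟩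
  · obtain ⟨h1, h2, h3⟩ := hsel' (th i) h
    rw [hth, if_pos h]
    exact ⟨h1, h2, h3, rfl⟩
  · rw [hth, if_neg h]

theorem Grd.mono {H : Finset ι} {c N : ℕ} {Th : ℕ → Prop} {th : ℕ → ℕ} {w : ℕ → ι}
    (h : Grd P g H c N Th th w) : Monotone th := by
  apply monotone_nat_of_le_succ
  intro i
  by_cases hi : Th (th i)
  · obtain ⟨-, -, -, h4⟩ := (h i).1 hi
    rw [h4]
    exact (xt_spec P g c N Th (w i) (th i)).1
  · rw [(h i).2 hi]

theorem Grd.next {H : Finset ι} {c N : ℕ} {Th : ℕ → Prop} {th : ℕ → ℕ} {w : ℕ → ι}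
    (h : Grd P g H c N Th th w) {i : ℕ} (hi : Th (th i)) :
    Xt P g c N Th (w i) (th (i + 1)) := by
  obtain ⟨-, -, -, h4⟩ := (h i).1 hi
  rw [h4]
  exact (xt_spec P g c N Th (w i) (th i)).2.1

theorem Grd.lt {H : Finset ι} {c N : ℕ} {Th : ℕ → Prop} {th : ℕ → ℕ} {w : ℕ → ι}
    (hN : ∀ s, Th s → s ≤ N) (h : Grd P g H c N Th th w) {i : ℕ} (hi : Th (th i)) :
    th i < th (i + 1) := by
  obtain ⟨-, h2, -, -⟩ := (h i).1 hi
  have h5 := h.mono (Nat.le_succ i)
  rcases h.next hi with h6 | ⟨-, h6⟩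
  · have := hN _ hi
    omega
  · rcases Nat.lt_or_ge (th i) (th (i + 1)) with h7 | h7
    · exact h7
    · have h8 : th (i + 1) = th i := le_antisymm h7 h5
      rw [h8] at h6
      omega

theorem Grd.th_all {H : Finset ι} {c N : ℕ} {Th : ℕ → Prop} {th : ℕ → ℕ} {w : ℕ → ι}
    (h : Grd P g H c N Th th w) (h0 : Th (th 0)) : ∀ i, th i ≤ N → Th (th i) := by
  intro i
  induction i with
  | zero => intro _; exact h0
  | succ i ih =>
    intro hi
    have h1 := ih ((h.mono (Nat.le_succ i)).trans hi)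
    rcases h.next h1 with h2 | h2
    · omega
    · exact h2.1

theorem Grd.le_self {H : Finset ι} {c N : ℕ} {Th : ℕ → Prop} {th : ℕ → ℕ} {w : ℕ → ι}
    (hN : ∀ s, Th s → s ≤ N) (h : Grd P g H c N Th th w) (h0 : Th (th 0)) :
    ∀ i, th i ≤ N → i ≤ th i := by
  intro i
  induction i with
  | zero => intro _; omega
  | succ i ih =>
    intro hi
    have h1 : th i ≤ N := (h.mono (Nat.le_succ i)).trans hi
    have h2 := ih h1
    have h3 := h.lt hN (h.th_all h0 i h1)
    omega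

/-- the greedy sequence reaches every demand time -/
theorem Grd.cover {H : Finset ι} {c N : ℕ} {Th : ℕ → Prop} {th : ℕ → ℕ} {w : ℕ → ι}
    (hN : ∀ s, Th s → s ≤ N) (h : Grd P g H c N Th th w) (h0 : Th (th 0)) {s : ℕ}
    (hs : Th s) (hs0 : th 0 ≤ s) : ∃ i, Th (th i) ∧ th i ≤ s ∧ rk P (g s) (w i) < c := by
  classical
  have hex : ∃ j, s < th j := by
    refine ⟨s + 1, ?_⟩
    by_contra hcon
    rw [not_lt] at hcon
    have := h.le_self hN h0 (s + 1) (hcon.trans (hN s hs))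
    omega
  have h1 := Nat.find_spec hex
  have hne : Nat.find hex ≠ 0 := by
    intro hz
    rw [hz] at h1
    omega
  obtain ⟨i, hi⟩ := Nat.exists_eq_succ_of_ne_zero hne
  have h2 : th i ≤ s := by
    have := Nat.find_min hex (m := i) (by omega)
    omega
  have h3 : Th (th i) := h.th_all h0 i (h2.trans (hN s hs))
  rw [hi] at h1
  refine ⟨i, h3, h2, ?_⟩
  obtain ⟨-, -, -, h4⟩ := (h i).1 h3
  have h5 := (xt_spec P g c N Th (w i) (th i)).2.2 s h2 (by rw [← h4]; exact h1)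
  unfold Xt at h5
  by_contra hcon
  rw [not_lt] at hcon
  exact h5 (Or.inr ⟨hs, hcon⟩)

/-- the windows of the greedy sequence -/
theorem Grd.window {H : Finset ι} {c k N : ℕ} {Th : ℕ → Prop} {th : ℕ → ℕ} {w : ℕ → ι}
    (ho : Ords P g) (hHP : ∀ x ∈ H, P x = true)
    (hH : ∀ s, Th s → ∃ u ∈ H, rk P (g s) u + 2 * k < c)
    (h : Grd P g H c N Th th w) (h0 : Th (th 0)) {i : ℕ} (hi : 1 ≤ i) (hi2 : th (i + 2) ≤ N)
    {a b : ℕ} (ha : a ≤ th (i - 1)) (hb : th (i + 2) ≤ b) {v : ι} (hv : v ∈ H) :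
    k * (2 * k + 1) ≤
      (crs g (ahd P (g a) v ∪ ahd P (g b) v) (th (i - 1)) (th (i + 1))).card ∨
      k ≤ (nw P g v (th (i - 1)) (th (i + 2))).card := by
  have m1 : th (i - 1) ≤ th i := h.mono (by omega)
  have m2 : th i ≤ th (i + 1) := h.mono (by omega)
  have m3 : th (i + 1) ≤ th (i + 2) := h.mono (by omega)
  have t0 : Th (th (i - 1)) := h.th_all h0 _ (by omega)
  have t1 : Th (th i) := h.th_all h0 _ (by omega)
  have t2 : Th (th (i + 1)) := h.th_all h0 _ (by omega)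
  have hi1 : i - 1 + 1 = i := by omega
  obtain ⟨u, hu, hur⟩ := hH _ t1
  -- the exit of a letter of `H`
  have hex : ∀ j, Th (th j) → th (j + 1) ≤ N → ∀ x ∈ H, rk P (g (th j)) x < c →
      ∃ t, th j ≤ t ∧ t ≤ th (j + 1) ∧ c ≤ rk P (g t) x := by
    intro j hj hj2 x hx hxr
    have h1 := ((h j).1 hj).2.2.1 x hx hxr
    obtain ⟨h2, h3, -⟩ := xt_spec P g c N Th x (th j)
    refine ⟨_, h2, h1, ?_⟩
    rcases h3 with h3 | h3
    · omega
    · exact h3.2
  apply ho.window (hHP u hu) (c := c) ha m1 m2 m3 hb hur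
  · by_cases h1 : rk P (g (th (i - 1))) u < c
    · obtain ⟨t, a1, a2, a3⟩ := hex _ t0 (by rw [hi1]; omega) u hu h1
      rw [hi1] at a2
      obtain ⟨o, b1, b2, b3⟩ := ho.ivt_dn (hHP u hu) a3 (th i) a2 (by omega)
      exact ⟨o, by omega, b2, b3⟩
    · obtain ⟨o, b1, b2, b3⟩ := ho.ivt_dn (hHP u hu) (not_lt.mp h1) (th i) m1 (by omega)
      exact ⟨o, b1, b2, b3⟩
  · obtain ⟨t, a1, a2, a3⟩ := hex i t1 (by omega) u hu (by omega)
    obtain ⟨o, b1, b2, b3⟩ := ho.ivt_up (hHP u hu) (c := c) (by omega) t a1 a3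
    exact ⟨o, b1, by omega, b3⟩
  · intro hv1
    exact hex i t1 (by omega) v hv hv1
  · intro hv1
    exact hex (i + 1) t2 hi2 v hv hv1

/-- Lemma B: the greedy transversal -/
theorem Ords.lemmaB (ho : Ords P g) {H : Finset ι} (hHP : ∀ x ∈ H, P x = true) {c k m N : ℕ}
    {Th : ℕ → Prop} (hN : ∀ s, Th s → s ≤ N) (hcm : c ≤ m) (hkm : k ≤ m)
    (hH : ∀ s, Th s → ∃ u ∈ H, rk P (g s) u + 2 * k < c) :
    ∃ W ⊆ H, (∀ s, Th s → ∃ w ∈ W, rk P (g s) w < c) ∧
      ∀ s ≤ N, k ^ 2 * (W.filter (fun w => rk P (g s) w < m)).card ≤ 20 * m ^ 2 := by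
  classical
  by_cases hemp : ∃ s, Th s
  swap
  · refine ⟨∅, empty_subset _, fun s hs => absurd ⟨s, hs⟩ hemp, fun s _ => ?_⟩
    simp
  have hs0 := Nat.find_spec hemp
  obtain ⟨th, w, h00, h⟩ := exists_seq (P := P) (g := g) (N := N) H (c := c)
    (fun s hs => by
      obtain ⟨u, hu, hu2⟩ := hH s hs
      exact ⟨u, hu, by omega⟩) hs0
  have h0 : Th (th 0) := by rw [h00]; exact hs0
  set I0 := (range (N + 1)).filter (fun i => Th (th i)) with hI0
  refine ⟨I0.image w, ?_, ?_, ?_⟩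
  · intro x hx
    rw [mem_image] at hx
    obtain ⟨i, hi, rfl⟩ := hx
    rw [hI0, mem_filter] at hi
    exact ((h i).1 hi.2).1
  · intro s hs
    obtain ⟨i, h1, h2, h3⟩ := h.cover hN h0 hs (by
      rw [h00]
      exact Nat.find_le hs)
    refine ⟨w i, ?_, h3⟩
    rw [mem_image]
    refine ⟨i, ?_, rfl⟩
    rw [hI0, mem_filter, mem_range]
    have := h.le_self hN h0 i (h2.trans (hN s hs))
    have := hN s hs
    exact ⟨by omega, h1⟩
  · intro s hs
    set I := I0.filter (fun i => rk P (g s) (w i) < m) with hI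
    have hle : ((I0.image w).filter (fun w => rk P (g s) w < m)).card ≤ I.card := by
      have hsub : (I0.image w).filter (fun w => rk P (g s) w < m) ⊆ I.image w := by
        intro x hx
        rw [mem_filter, mem_image] at hx
        obtain ⟨⟨i, hi, rfl⟩, hx2⟩ := hx
        rw [mem_image]
        exact ⟨i, by rw [hI, mem_filter]; exact ⟨hi, hx2⟩, rfl⟩
      exact (card_le_card hsub).trans card_image_le
    have hIm : ∀ i ∈ I, Th (th i) ∧ w i ∈ H ∧ rk P (g (th i)) (w i) < c ∧ th i ≤ N ∧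
        rk P (g s) (w i) < m := by
      intro i hi
      rw [hI, mem_filter, hI0, mem_filter] at hi
      exact ⟨hi.1.2, ((h i).1 hi.1.2).1, ((h i).1 hi.1.2).2.1, hN _ hi.1.2, hi.2⟩
    -- a common bound
    have key : ∀ I' : Finset ℕ, I' ⊆ I → ∀ (v : ι) (a b : ℕ), v ∈ H → b ≤ N →
        rk P (g a) v < m → rk P (g b) v < m → (∀ i ∈ I', a ≤ th i ∧ th i ≤ b) →
        k ^ 2 * I'.card ≤ 10 * m ^ 2 := by
      intro I' hI' v a b hv hbN hva hvb hab
      rcases I'.eq_empty_or_nonempty with rfl | hne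
      · simp
      set i0 := I'.min' hne with hi0
      set i1 := I'.max' hne with hi1
      have a0 := hab i0 (I'.min'_mem hne)
      have a1 := hab i1 (I'.max'_mem hne)
      have hJ := ho.count (v := v) (a := a) (b := b) hkm hva hvb h.mono
        (J := Ico (i0 + 1) (i1 - 1)) (fun i hi => by
          rw [mem_Ico] at hi
          have e1 : a ≤ th (i - 1) := a0.1.trans (h.mono (by omega))
          have e2 : th (i + 2) ≤ b := (h.mono (show i + 2 ≤ i1 by omega)).trans a1.2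
          exact ⟨by omega, e1, e2, h.window ho hHP hH h0 (by omega) (e2.trans hbN) e1 e2 hv⟩)
      have hc : I'.card ≤ (Ico (i0 + 1) (i1 - 1)).card + 3 := by
        have hsub : I' ⊆ Icc i0 i1 := by
          intro i hi
          rw [mem_Icc]
          exact ⟨I'.min'_le i hi, I'.le_max' i hi⟩
        have := card_le_card hsub
        rw [Nat.card_Icc] at this
        rw [Nat.card_Ico]
        omega
      have e3 : k ^ 2 ≤ m ^ 2 := Nat.pow_le_pow_left hkm 2
      calc k ^ 2 * I'.card ≤ k ^ 2 * ((Ico (i0 + 1) (i1 - 1)).card + 3) :=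
            Nat.mul_le_mul_left _ hc
        _ = k ^ 2 * (Ico (i0 + 1) (i1 - 1)).card + 3 * k ^ 2 := by ring
        _ ≤ 10 * m ^ 2 := by omega
    have hpast : k ^ 2 * (I.filter (fun i => th i ≤ s)).card ≤ 10 * m ^ 2 := by
      rcases (I.filter (fun i => th i ≤ s)).eq_empty_or_nonempty with he | hne
      · rw [he]
        simp
      · have hm0 := min'_mem _ hne
        set i0 := (I.filter (fun i => th i ≤ s)).min' hne with hi0
        rw [mem_filter] at hm0
        obtain ⟨b1, b2, b3, b4, b5⟩ := hIm i0 hm0.1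
        apply key _ (filter_subset _ _) (w i0) (th i0) s b2 hs (by omega) b5
        intro i hi
        refine ⟨h.mono (min'_le _ i hi), ?_⟩
        rw [mem_filter] at hi
        exact hi.2
    have hfut : k ^ 2 * (I.filter (fun i => ¬ th i ≤ s)).card ≤ 10 * m ^ 2 := by
      rcases (I.filter (fun i => ¬ th i ≤ s)).eq_empty_or_nonempty with he | hne
      · rw [he]
        simp
      · have hm0 := max'_mem _ hne
        set i0 := (I.filter (fun i => ¬ th i ≤ s)).max' hne with hi0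
        rw [mem_filter] at hm0
        obtain ⟨b1, b2, b3, b4, b5⟩ := hIm i0 hm0.1
        apply key _ (filter_subset _ _) (w i0) s (th i0) b2 b4 b5 (by omega)
        intro i hi
        refine ⟨?_, h.mono (le_max' _ i hi)⟩
        rw [mem_filter] at hi
        omega
    have hsum : (I.filter (fun i => th i ≤ s)).card + (I.filter (fun i => ¬ th i ≤ s)).card =
        I.card := by
      exact card_filter_add_card_filter_not _
    calc k ^ 2 * ((I0.image w).filter (fun w => rk P (g s) w < m)).card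
        ≤ k ^ 2 * I.card := Nat.mul_le_mul_left _ hle
      _ = k ^ 2 * (I.filter (fun i => th i ≤ s)).card +
          k ^ 2 * (I.filter (fun i => ¬ th i ≤ s)).card := by rw [← hsum, Nat.mul_add]
      _ ≤ 20 * m ^ 2 := by omega

end PHP
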