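import Mathlib
import Pool.Agent.PHP.WidGreedy

/-!
# Width lemma, third part: all levels
-/

set_option linter.unusedSectionVars false

namespace PHP

open Finset

variable {ι : Type} [Fintype ι] [DecidableEq ι] {P : ι → Bool} {g : ℕ → ι → ℕ}

/-- the pruning lemma: every letter of `H` with a rank less than `m - 4 k` is replaced by a letter of
`W` with a rank at most `4 k` larger, and `W` has `O((m/k)^3)` letters in the first `m` ranks -/
theorem Ords.prune (ho : Ords P g) {H : Finset ι} (hHP : ∀ x ∈ H, P x = true) {k m : ℕ} (N : ℕ)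
    (hk : 1 ≤ k) (hkm : k ≤ m) :
    ∃ W ⊆ H, (∀ s ≤ N, ∀ u ∈ H, rk P (g s) u + 4 * k < m →
      ∃ w ∈ W, rk P (g s) w < rk P (g s) u + 4 * k) ∧
      ∀ s ≤ N, k ^ 3 * (W.filter (fun w => rk P (g s) w < m)).card ≤ 10 * m ^ 3 := by
  classical
  have hq : ∀ q : ℕ, ∃ W ⊆ H, q < m / (2 * k) →
      (∀ s, (s ≤ N ∧ ∃ u ∈ H, rk P (g s) u + 2 * k < 2 * k * (q + 1)) →
        ∃ w ∈ W, rk P (g s) w < 2 * k * (q + 1)) ∧
      ∀ s ≤ N, k ^ 2 * (W.filter (fun w => rk P (g s) w < m)).card ≤ 20 * m ^ 2 := by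
    intro q
    by_cases hqm : q < m / (2 * k)
    · have hcm : 2 * k * (q + 1) ≤ m := by
        calc 2 * k * (q + 1) ≤ 2 * k * (m / (2 * k)) := Nat.mul_le_mul_left _ hqm
          _ ≤ m := Nat.mul_div_le _ _
      obtain ⟨W, h1, h2, h3⟩ := ho.lemmaB hHP (c := 2 * k * (q + 1)) (k := k) (m := m) (N := N)
        (Th := fun s => s ≤ N ∧ ∃ u ∈ H, rk P (g s) u + 2 * k < 2 * k * (q + 1))
        (fun s hs => hs.1) hcm hkm (fun s hs => hs.2)
      exact ⟨W, h1, fun _ => ⟨h2, h3⟩⟩
    · exact ⟨∅, empty_subset _, fun h => absurd h hqm⟩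
  choose W hW1 hW2 using hq
  refine ⟨(range (m / (2 * k))).biUnion W, ?_, ?_, ?_⟩
  · intro x hx
    rw [mem_biUnion] at hx
    obtain ⟨q, -, hx⟩ := hx
    exact hW1 q hx
  · intro s hs u hu hum
    set q := rk P (g s) u / (2 * k) + 1 with hqd
    have h1 : 2 * k * (q + 1) ≤ rk P (g s) u + 4 * k := by
      have := Nat.mul_div_le (rk P (g s) u) (2 * k)
      rw [hqd]
      calc 2 * k * (rk P (g s) u / (2 * k) + 1 + 1)
          = 2 * k * (rk P (g s) u / (2 * k)) + 4 * k := by ring
        _ ≤ rk P (g s) u + 4 * k := by omega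
    have h2 : rk P (g s) u + 2 * k < 2 * k * (q + 1) := by
      have := Nat.lt_mul_div_succ (rk P (g s) u) (show 0 < 2 * k by omega)
      rw [hqd]
      calc rk P (g s) u + 2 * k < 2 * k * (rk P (g s) u / (2 * k) + 1) + 2 * k := by omega
        _ = 2 * k * (rk P (g s) u / (2 * k) + 1 + 1) := by ring
    have h3 : q < m / (2 * k) := by
      rw [Nat.lt_iff_add_one_le, Nat.le_div_iff_mul_le (by omega)]
      calc (q + 1) * (2 * k) = 2 * k * (q + 1) := by ring
        _ ≤ m := by omega
    obtain ⟨w, hw1, hw2⟩ := (hW2 q h3).1 s ⟨hs, u, hu, h2⟩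
    exact ⟨w, by rw [mem_biUnion]; exact ⟨q, by rw [mem_range]; exact h3, hw1⟩, by omega⟩
  · intro s hs
    have hle : (((range (m / (2 * k))).biUnion W).filter (fun w => rk P (g s) w < m)).card ≤
        ∑ q ∈ range (m / (2 * k)), ((W q).filter (fun w => rk P (g s) w < m)).card := by
      rw [filter_biUnion]
      exact card_biUnion_le
    calc k ^ 3 * (((range (m / (2 * k))).biUnion W).filter (fun w => rk P (g s) w < m)).card
        ≤ k ^ 3 * ∑ q ∈ range (m / (2 * k)), ((W q).filter (fun w => rk P (g s) w < m)).card :=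
          Nat.mul_le_mul_left _ hle
      _ = k * ∑ q ∈ range (m / (2 * k)),
            k ^ 2 * ((W q).filter (fun w => rk P (g s) w < m)).card := by
          rw [mul_sum, mul_sum]
          apply sum_congr rfl
          intro q _
          ring
      _ ≤ k * ∑ q ∈ range (m / (2 * k)), 20 * m ^ 2 := by
          apply Nat.mul_le_mul_left
          apply sum_le_sum
          intro q hq
          rw [mem_range] at hq
          exact (hW2 q hq).2 s hs
      _ = 10 * m ^ 2 * (2 * k * (m / (2 * k))) := by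
          rw [sum_const, card_range, smul_eq_mul]
          ring
      _ ≤ 10 * m ^ 2 * m := Nat.mul_le_mul_left _ (Nat.mul_div_le _ _)
      _ = 10 * m ^ 3 := by ring

end PHP
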