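import Mathlib
import Pool.Agent.PHP.WidLevels

/-!
# Tokens for the letters of a part

`up F V` are the U letters of `V`, `lw F V` the D letters of `V`.
-/

set_option linter.unusedSectionVars false

namespace PHP

open Finset

variable {ι : Type} [Fintype ι] [DecidableEq ι]

/-- the U letters of the part `V` -/
def up (F : ι → Bool) (V : Finset ι) (v : ι) : Bool := !(F v) && decide (v ∈ V)

/-- the D letters of the part `V` -/
def lw (F : ι → Bool) (V : Finset ι) (v : ι) : Bool := F v && decide (v ∈ V)

theorem up_iff {F : ι → Bool} {V : Finset ι} {v : ι} :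
    up F V v = true ↔ F v = false ∧ v ∈ V := by
  unfold up
  cases F v <;> simp

theorem lw_iff {F : ι → Bool} {V : Finset ι} {v : ι} :
    lw F V v = true ↔ F v = true ∧ v ∈ V := by
  unfold lw
  cases F v <;> simp

/-- the starting family, for two disjoint kinds -/
theorem start_inv' (m : ℕ) (P Q : ι → Bool) (g g0 : ι → ℕ) (hPQ : ∀ v, P v = true → Q v = false) :
    ∃ (R : Tok m → Finset ι) (σ : Tok m → Tok m), TokInv (rkm m P g) (rkm m Q g0) R σ ∧
      (∀ v, P v = true → cnt R v ≤ m - rk P g v) ∧ (∀ v, Q v = true → cnt R v ≤ m - rk Q g0 v) := by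
  classical
  refine ⟨fun a => univ.filter (fun v => rkm m P g v = a.1.1.val ∨ rkm m Q g0 v = a.1.2.val), id,
    ⟨Function.injective_id, fun a v => ⟨fun h => ?_, fun h => ?_⟩⟩, fun v hv => ?_, fun v hv => ?_⟩
  · simp only [mem_filter, mem_univ, true_and]
    exact Or.inl h
  · simp only [mem_filter, mem_univ, true_and]
    exact Or.inr h
  · rw [← card_fst m (rk P g v)]
    unfold cnt
    apply card_le_card
    intro a ha
    simp only [mem_filter, mem_univ, true_and] at ha ⊢
    have hq : Q v = false := hPQ v hv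
    rcases ha with ha | ha
    · unfold rkm at ha
      rw [if_pos hv] at ha
      exact ha.symm
    · unfold rkm at ha
      rw [if_neg (by rw [hq]; simp)] at ha
      have := a.1.2.2
      omega
  · rw [← card_snd m (rk Q g0 v)]
    unfold cnt
    apply card_le_card
    intro a ha
    simp only [mem_filter, mem_univ, true_and] at ha ⊢
    have hp : P v = false := by
      cases hh : P v
      · rfl
      · have := hPQ v hh
        rw [hv] at this
        exact absurd this (by simp)
    rcases ha with ha | ha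
    · unfold rkm at ha
      rw [if_neg (by rw [hp]; simp)] at ha
      have := a.1.1.2
      omega
    · unfold rkm at ha
      rw [if_pos hv] at ha
      exact ha.symm

theorem Sweep.pos_between (W : Sweep ι) {x y : ι} {s1 s2 s3 : ℕ} (h12 : s1 ≤ s2) (h23 : s2 ≤ s3)
    (h1 : W.pos s1 x < W.pos s1 y) (h3 : W.pos s3 x < W.pos s3 y) : W.pos s2 x < W.pos s2 y := by
  induction s2, h12 using Nat.le_induction with
  | base => exact h1
  | succ t ht ih =>
    have h4 := ih (by omega)
    by_contra hcon
    have hne : x ≠ y := by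
      rintro rfl
      omega
    have h5 : W.pos (t + 1) y < W.pos (t + 1) x := by
      rcases Nat.lt_trichotomy (W.pos (t + 1) x) (W.pos (t + 1) y) with h | h | h
      · exact absurd h hcon
      · exact absurd (W.inj _ h) hne
      · exact h
    have h6 := (sweep_once W h4 h5).2 s3 (by omega)
    omega

/-- a step of the sweep, as an exchange from above and from below -/
theorem Sweep.exch (W : Sweep ι) (s : ℕ) : (W.pos (s + 1) = W.pos s ∧ W.neg (s + 1) = W.neg s) ∨
    ∃ x y, W.pos 0 x < W.pos 0 y ∧ Exch (W.pos s) (W.pos (s + 1)) x y ∧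
      Exch (W.neg s) (W.neg (s + 1)) y x := by
  rcases W.step s with hs | ⟨x, y, hxy, h0, hx, hy, hz⟩
  · left
    refine ⟨hs, ?_⟩
    funext i
    unfold Sweep.neg
    rw [hs]
  · right
    refine ⟨x, y, h0, ⟨W.inj s, hxy, hx, hy, hz⟩, ?_⟩
    have := W.lt s x
    have := W.lt s y
    refine ⟨W.neg_inj s, ?_, ?_, ?_, ?_⟩
    · unfold Sweep.neg
      omega
    · unfold Sweep.neg
      rw [hy]
    · unfold Sweep.neg
      rw [hx]
    · intro z hzy hzx
      unfold Sweep.neg
      rw [hz z hzx hzy]

/-- rank changes of an exchange -/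
theorem Exch.rk_near {g g' : ι → ℕ} {x y : ι} (h : Exch g g' x y) {P : ι → Bool} (v : ι) :
    rk P g' v ≤ rk P g v + 1 ∧ rk P g v ≤ rk P g' v + 1 := by
  by_cases hvx : v = x
  · subst hvx
    by_cases hy : P y = true
    · rw [h.rk_x hy]
      omega
    · rw [h.rk_x_not (by simpa using hy)]
      omega
  · by_cases hvy : v = y
    · subst hvy
      by_cases hx : P x = true
      · rw [h.rk_y, h.rk_y_old hx]
        omega
      · rw [h.rk_y_not (by simpa using hx)]
        omega
    · rw [h.rk_z P hvx hvy]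
      omega

theorem Sweep.ords_pos (W : Sweep ι) (P : ι → Bool) : Ords P W.pos := by
  refine ⟨W.inj, fun x y s1 s2 s3 h12 h23 h1 h3 => W.pos_between h12 h23 h1 h3,
    fun s v _ => ?_, fun s v _ => ?_⟩
  · rcases W.exch s with h | ⟨x, y, -, h, -⟩
    · rw [h.1]
      omega
    · exact (h.rk_near v).1
  · rcases W.exch s with h | ⟨x, y, -, h, -⟩
    · rw [h.1]
      omega
    · exact (h.rk_near v).2

theorem Sweep.ords_neg (W : Sweep ι) (P : ι → Bool) : Ords P W.neg := by
  refine ⟨W.neg_inj, fun x y s1 s2 s3 h12 h23 h1 h3 => ?_, fun s v _ => ?_, fun s v _ => ?_⟩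
  · rw [W.neg_lt] at h1 h3 ⊢
    exact W.pos_between h12 h23 h1 h3
  · rcases W.exch s with h | ⟨x, y, -, -, h⟩
    · rw [h.2]
      omega
    · exact (h.rk_near v).1
  · rcases W.exch s with h | ⟨x, y, -, -, h⟩
    · rw [h.2]
      omega
    · exact (h.rk_near v).2

/-- the tokens of a part: the token `a` holds, at every time, the U letter of rank `i` and the D letter
of rank `j` with some `i + j < m` -/
theorem Sweep.tokens (W : Sweep ι) {P Q : ι → Bool} (hPQ : ∀ v, P v = true → Q v = false)
    (m : ℕ) : ∃ R : Tok m → Finset ι, (∀ v, P v = true ∨ Q v = true → cnt R v ≤ m) ∧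
      ∀ s ≤ W.N, ∀ a, ∃ i j, i + j < m ∧
        (∀ v, P v = true → rk P (W.pos s) v = i → v ∈ R a) ∧
        (∀ v, Q v = true → rk Q (W.neg s) v = j → v ∈ R a) := by
  classical
  have hQP : ∀ v, Q v = true → P v = false := by
    intro v hv
    cases hh : P v
    · rfl
    · have := hPQ v hh
      rw [hv] at this
      exact absurd this (by simp)
  have hnow : ∀ (s : ℕ) (R : Tok m → Finset ι) (σ : Tok m → Tok m),
      TokInv (rkm m P (W.pos s)) (rkm m Q (W.neg s)) R σ → ∀ a, ∃ i j, i + j < m ∧
        (∀ v, P v = true → rk P (W.pos s) v = i → v ∈ R a) ∧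
        (∀ v, Q v = true → rk Q (W.neg s) v = j → v ∈ R a) := by
    intro s R σ hI a
    refine ⟨(σ a).1.1.val, (σ a).1.2.val, (σ a).2, fun v hv hr => ?_, fun v hv hr => ?_⟩
    · apply (hI.2 a v).1
      unfold rkm
      rw [if_pos hv, hr]
    · apply (hI.2 a v).2
      unfold rkm
      rw [if_pos hv, hr]
  have key : ∀ s, ∃ (R : Tok m → Finset ι) (σ : Tok m → Tok m),
      TokInv (rkm m P (W.pos s)) (rkm m Q (W.neg s)) R σ ∧
      (∀ s' ≤ s, ∀ a, ∃ i j, i + j < m ∧
        (∀ v, P v = true → rk P (W.pos s') v = i → v ∈ R a) ∧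
        (∀ v, Q v = true → rk Q (W.neg s') v = j → v ∈ R a)) ∧
      CntBd m P (W.pos s) (W.pos 0) R ∧ CntBd m Q (W.neg s) (W.neg 0) R := by
    intro s
    induction s with
    | zero =>
      obtain ⟨R, σ, h1, h2, h3⟩ := start_inv' m P Q (W.pos 0) (W.neg 0) hPQ
      refine ⟨R, σ, h1, ?_, ?_, ?_⟩
      · intro s' hs' a
        obtain rfl : s' = 0 := by omega
        exact hnow 0 R σ h1 a
      · intro v hv
        rw [al_self]
        exact h2 v hv
      · intro v hv
        rw [al_self]
        exact h3 v hv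
    | succ s ih =>
      obtain ⟨R, σ, h1, h2, h3, h4⟩ := ih
      rcases W.exch s with ⟨hs, hneg⟩ | ⟨x, y, h0, e1, e2⟩
      · have h1' : TokInv (rkm m P (W.pos (s+1))) (rkm m Q (W.neg (s+1))) R σ := by
          rw [hs, hneg]
          exact h1
        refine ⟨R, σ, h1', ?_, by rw [hs]; exact h3, by rw [hneg]; exact h4⟩
        intro s' hs' a
        rcases Nat.lt_or_ge s' (s + 1) with h | h
        · exact h2 s' (by omega) a
        · obtain rfl : s' = s + 1 := by omega
          exact hnow _ R σ h1' a
      · have h0' : W.neg 0 y < W.neg 0 x := by rw [W.neg_lt]; exact h0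
        obtain ⟨R1, σ1, a1, a2, a3, a4⟩ := exch_first (P := P) e1 h0 h1 h3
        have h4' : CntBd m Q (W.neg s) (W.neg 0) R1 := by
          intro v hv
          rw [a3 v (hQP v hv)]
          exact h4 v hv
        obtain ⟨R2, σ2, b1, b2, b3, b4⟩ := exch_second e2 h0' a1 h4'
        refine ⟨R2, σ2, b1, ?_, ?_, b4⟩
        · intro s' hs' a
          rcases Nat.lt_or_ge s' (s + 1) with h | h
          · obtain ⟨i, j, c1, c2, c3⟩ := h2 s' (by omega) a
            exact ⟨i, j, c1, fun v hv hr => b2 a (a2 a (c2 v hv hr)),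
              fun v hv hr => b2 a (a2 a (c3 v hv hr))⟩
          · obtain rfl : s' = s + 1 := by omega
            exact hnow _ R2 σ2 b1 a
        · intro v hv
          rw [b3 v (hPQ v hv)]
          exact a4 v hv
  obtain ⟨R, σ, h1, h2, h3, h4⟩ := key W.N
  refine ⟨R, ?_, h2⟩
  intro v hv
  rcases hv with hv | hv
  · have := h3 v hv
    omega
  · have := h4 v hv
    omega

end PHP
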