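import Mathlib
import Pool.Agent.PHP.WidTok
import Pool.Agent.PHP.MwuMain

/-!
# Narrow coverings of virtual cells

`vc W F s a b` is the set of the first `a` U letters from above and the first `b` D letters from
below, at the time `s`.
-/

set_option linter.unusedSectionVars false

namespace PHP

open Finset

variable {ι : Type} [Fintype ι] [DecidableEq ι]

/-- a virtual cell -/
def vc (W : Sweep ι) (F : ι → Bool) (s a b : ℕ) : Finset ι :=
  univ.filter (fun v => (F v = false ∧ rk (fun u => !(F u)) (W.pos s) v < a) ∨
    (F v = true ∧ rk F (W.neg s) v < b))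

theorem card_rk_lt {P : ι → Bool} {g : ι → ℕ} (hg : Function.Injective g) (a : ℕ) :
    (univ.filter (fun v => P v = true ∧ rk P g v < a)).card ≤ a := by
  calc (univ.filter (fun v => P v = true ∧ rk P g v < a)).card ≤ (range a).card := by
        apply card_le_card_of_injOn (rk P g)
        · intro v hv
          rw [mem_coe, mem_filter] at hv
          rw [mem_coe, mem_range]
          exact hv.2.2
        · intro v hv w hw h
          rw [mem_coe, mem_filter] at hv hw
          exact rk_inj hg hv.2.1 hw.2.1 h
    _ = a := card_range a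

/-- an initial segment of the letters with `P0` cuts out an initial segment of the letters with `P` -/
theorem seg_iff {P P0 : ι → Bool} (hP : ∀ v, P v = true → P0 v = true) {g : ι → ℕ}
    (hg : Function.Injective g) {a : ℕ} {v : ι} (hv : P v = true) :
    rk P0 g v < a ↔ rk P g v <
      (univ.filter (fun u => P u = true ∧ rk P0 g u < a)).card := by
  constructor
  · intro h
    unfold rk at h ⊢
    apply card_lt_card
    rw [ssubset_iff_of_subset]
    · exact ⟨v, by simp [hv, h], by simp⟩
    · intro u hu
      rw [mem_filter] at hu ⊢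
      refine ⟨mem_univ _, hu.2.1, ?_⟩
      have h2 := rk_lt (P := P0) (g := g) (v := u) (w := v) (hP u hu.2.1) hu.2.2
      unfold rk at h2
      omega
  · intro h
    by_contra hcon
    rw [not_lt] at hcon
    have hsub : (univ.filter (fun u => P u = true ∧ rk P0 g u < a)).card ≤ rk P g v := by
      rw [rk]
      apply card_le_card
      intro u hu
      rw [mem_filter] at hu ⊢
      refine ⟨mem_univ _, hu.2.1, ?_⟩
      rcases lt_trichotomy (g u) (g v) with h1 | h1 | h1
      · exact h1
      · have := hg h1
        subst this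
        omega
      · have := rk_lt (P := P0) (g := g) (hP v hv) h1
        omega
    omega

/-- `card` is bounded by the size of the segment -/
theorem seg_card {P P0 : ι → Bool} (hP : ∀ v, P v = true → P0 v = true) {g : ι → ℕ}
    (hg : Function.Injective g) (a : ℕ) :
    (univ.filter (fun u => P u = true ∧ rk P0 g u < a)).card ≤ a := by
  refine (card_le_card ?_).trans (card_rk_lt (P := P0) hg a)
  intro u hu
  rw [mem_filter] at hu ⊢
  exact ⟨mem_univ _, hP u hu.2.1, hu.2.2⟩

/-- the fractional packings of narrow coverings -/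
theorem Sweep.wfrac (W : Sweep ι) (F : ι → Bool) {m k : ℕ} {𝒳 : Finset (Finset ι)}
    (h𝒳 : ∀ X ∈ 𝒳, ∃ s ≤ W.N, ∃ a b, a ≤ m ∧ b ≤ m ∧ X = vc W F s a b) (hk : 1 ≤ k)
    (hkm : k ≤ m) {q : ℝ} {m' : ℕ} (hq : 8 * (k : ℝ) ≤ (1 - q) * m')
    (hkm' : 8 * k < m') : WFrac 𝒳 q (20 * ((m : ℝ) / k) ^ 3) m' := by
  classical
  intro V hV
  set P := up F V with hPd
  set Q := lw F V with hQd
  have hPQ : ∀ v, P v = true → Q v = false := by
    intro v hv
    rw [hPd, up_iff] at hv
    rw [← Bool.not_eq_true, hQd, lw_iff]
    rintro ⟨h1, -⟩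
    rw [hv.1] at h1
    exact absurd h1 (by simp)
  obtain ⟨m1, hm1⟩ : ∃ m1, m' = m1 + 8 * k := ⟨m' - 8 * k, by omega⟩
  have hm1pos : 1 ≤ m1 := by omega
  obtain ⟨R, hRc, hR⟩ := W.tokens hPQ m1
  have oP := W.ords_pos P
  have oQ := W.ords_neg Q
  have hU := fun a => oP.prune (H := (R a).filter (fun v => P v = true))
    (fun x hx => (mem_filter.1 hx).2) W.N hk hkm
  have hD := fun a => oQ.prune (H := (R a).filter (fun v => Q v = true))
    (fun x hx => (mem_filter.1 hx).2) W.N hk hkm
  choose WU hU1 hU2 hU3 using hU
  choose WD hD1 hD2 hD3 using hD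
  have hWU : ∀ a, ∀ v ∈ WU a, v ∈ R a ∧ P v = true := fun a v hv => mem_filter.1 (hU1 a hv)
  have hWD : ∀ a, ∀ v ∈ WD a, v ∈ R a ∧ Q v = true := fun a v hv => mem_filter.1 (hD1 a hv)
  have hPF : ∀ v, P v = true → (fun u => !(F u)) v = true := by
    intro v hv
    rw [hPd, up_iff] at hv
    simp [hv.1]
  have hQF : ∀ v, Q v = true → F v = true := by
    intro v hv
    rw [hQd, lw_iff] at hv
    exact hv.1
  have hkR : (0 : ℝ) < k := by exact_mod_cast hk
  refine ⟨Tok m1, inferInstance, fun a => WU a ∪ WD a, ?_, ?_, ?_, ?_, ?_⟩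
  · have := card_tok_two m1
    by_contra hcon
    have h0 : Fintype.card (Tok m1) = 0 := by omega
    rw [h0] at this
    have : 0 < m1 * (m1 + 1) := by positivity
    omega
  · intro a v hv
    rw [mem_union] at hv
    rcases hv with hv | hv
    · have := (hWU a v hv).2
      rw [hPd, up_iff] at this
      exact this.2
    · have := (hWD a v hv).2
      rw [hQd, lw_iff] at this
      exact this.2
  · -- every virtual cell is hit
    intro a X hX
    obtain ⟨s, hs, a0, b0, ha0, hb0, rfl⟩ := h𝒳 X hX
    set A := (univ.filter (fun u => P u = true ∧ rk (fun u => !(F u)) (W.pos s) u < a0)) with hA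
    set B := (univ.filter (fun u => Q u = true ∧ rk F (W.neg s) u < b0)) with hB
    have hAc : A.card ≤ m := (seg_card hPF (W.inj s) a0).trans ha0
    have hBc : B.card ≤ m := (seg_card hQF (W.neg_inj s) b0).trans hb0
    have hsum : m' ≤ A.card + B.card := by
      refine (hV _ hX).trans ((card_le_card ?_).trans (card_union_le _ _))
      intro v hv
      unfold vc at hv
      rw [mem_inter, mem_filter] at hv
      rw [mem_union, hA, hB, mem_filter, mem_filter]
      obtain ⟨⟨-, h1 | h1⟩, h2⟩ := hv
      · left
        exact ⟨mem_univ _, by rw [hPd, up_iff]; exact ⟨h1.1, h2⟩, h1.2⟩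
      · right
        exact ⟨mem_univ _, by rw [hQd, lw_iff]; exact ⟨h1.1, h2⟩, h1.2⟩
    obtain ⟨i, j, hij, hRi, hRj⟩ := hR s hs a
    have hcase : i + 4 * k < A.card ∨ j + 4 * k < B.card := by omega
    rcases hcase with hc | hc
    · obtain ⟨u, hu1, -, hu3⟩ := exists_rank (P := P) (W.inj s) (p := Fintype.card ι) (i := i) (by
        refine lt_of_lt_of_le (show i < A.card by omega) (card_le_card ?_)
        intro u hu
        rw [hA, mem_filter] at hu
        rw [mem_filter]
        exact ⟨mem_univ _, hu.2.1, W.lt s u⟩)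
      obtain ⟨w, hw1, hw2⟩ := hU2 a s hs u (by
        rw [mem_filter]
        exact ⟨hRi u hu1 hu3, hu1⟩) (by omega)
      refine ⟨w, ?_⟩
      have hwP := (hWU a w hw1).2
      rw [mem_inter, mem_union]
      refine ⟨Or.inl hw1, ?_⟩
      unfold vc
      rw [mem_filter]
      refine ⟨mem_univ _, Or.inl ⟨?_, ?_⟩⟩
      · have := hPF w hwP
        simpa using this
      · rw [seg_iff hPF (W.inj s) hwP, ← hA]
        omega
    · obtain ⟨u, hu1, -, hu3⟩ := exists_rank (P := Q) (W.neg_inj s) (p := Fintype.card ι) (i := j)
        (by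
        refine lt_of_lt_of_le (show j < B.card by omega) (card_le_card ?_)
        intro u hu
        rw [hB, mem_filter] at hu
        rw [mem_filter]
        refine ⟨mem_univ _, hu.2.1, ?_⟩
        have := W.lt s u
        unfold Sweep.neg
        omega)
      obtain ⟨w, hw1, hw2⟩ := hD2 a s hs u (by
        rw [mem_filter]
        exact ⟨hRj u hu1 hu3, hu1⟩) (by omega)
      refine ⟨w, ?_⟩
      have hwP := (hWD a w hw1).2
      rw [mem_inter, mem_union]
      refine ⟨Or.inr hw1, ?_⟩
      unfold vc
      rw [mem_filter]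
      refine ⟨mem_univ _, Or.inr ⟨hQF w hwP, ?_⟩⟩
      rw [seg_iff hQF (W.neg_inj s) hwP, ← hB]
      omega
  · -- the width
    intro a X hX
    obtain ⟨s, hs, a0, b0, ha0, hb0, rfl⟩ := h𝒳 X hX
    have hsub : (WU a ∪ WD a) ∩ vc W F s a0 b0 ⊆
        (WU a).filter (fun w => rk P (W.pos s) w < m) ∪
        (WD a).filter (fun w => rk Q (W.neg s) w < m) := by
      intro w hw
      rw [mem_inter, mem_union] at hw
      unfold vc at hw
      rw [mem_filter] at hw
      rw [mem_union, mem_filter, mem_filter]
      obtain ⟨hw1 | hw1, -, hw2⟩ := hw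
      · left
        have hwP := (hWU a w hw1).2
        refine ⟨hw1, ?_⟩
        have hF : F w = false := by simpa using hPF w hwP
        have h3 : rk (fun u => !(F u)) (W.pos s) w < a0 := by
          rcases hw2 with h | h
          · exact h.2
          · rw [hF] at h
            exact absurd h.1 (by simp)
        rw [seg_iff hPF (W.inj s) hwP] at h3
        have := seg_card hPF (W.inj s) a0
        omega
      · right
        have hwP := (hWD a w hw1).2
        refine ⟨hw1, ?_⟩
        have hF : F w = true := hQF w hwP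
        have h3 : rk F (W.neg s) w < b0 := by
          rcases hw2 with h | h
          · rw [hF] at h
            exact absurd h.1 (by simp)
          · exact h.2
        rw [seg_iff hQF (W.neg_inj s) hwP] at h3
        have := seg_card hQF (W.neg_inj s) b0
        omega
    have h1 : (((WU a ∪ WD a) ∩ vc W F s a0 b0).card : ℝ) ≤
        ((WU a).filter (fun w => rk P (W.pos s) w < m)).card +
        ((WD a).filter (fun w => rk Q (W.neg s) w < m)).card := by
      exact_mod_cast (card_le_card hsub).trans (card_union_le _ _)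
    have h2 : (((WU a).filter (fun w => rk P (W.pos s) w < m)).card : ℝ) ≤
        10 * ((m : ℝ) / k) ^ 3 := by
      have := hU3 a s hs
      have h3 : (k : ℝ) ^ 3 * ((WU a).filter (fun w => rk P (W.pos s) w < m)).card ≤
          10 * (m : ℝ) ^ 3 := by exact_mod_cast this
      rw [div_pow, ← mul_div_assoc, le_div_iff₀ (by positivity)]
      linarith
    have h4 : (((WD a).filter (fun w => rk Q (W.neg s) w < m)).card : ℝ) ≤
        10 * ((m : ℝ) / k) ^ 3 := by
      have := hD3 a s hs
      have h3 : (k : ℝ) ^ 3 * ((WD a).filter (fun w => rk Q (W.neg s) w < m)).card ≤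
          10 * (m : ℝ) ^ 3 := by exact_mod_cast this
      rw [div_pow, ← mul_div_assoc, le_div_iff₀ (by positivity)]
      linarith
    linarith
  · -- the usage
    intro v
    have hle : (univ.filter (fun a => v ∈ WU a ∪ WD a)).card ≤ m1 := by
      by_cases hv : P v = true ∨ Q v = true
      · refine le_trans (card_le_card ?_) (hRc v hv)
        intro a ha
        rw [mem_filter, mem_union] at ha
        rw [mem_filter]
        refine ⟨mem_univ _, ?_⟩
        rcases ha.2 with h | h
        · exact (hWU a v h).1
        · exact (hWD a v h).1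
      · have : (univ.filter (fun a => v ∈ WU a ∪ WD a)) = ∅ := by
          rw [filter_eq_empty_iff]
          intro a _ ha
          rw [mem_union] at ha
          rcases ha with h | h
          · exact hv (Or.inl (hWU a v h).2)
          · exact hv (Or.inr (hWD a v h).2)
        rw [this]
        simp
    have h1 : (2 : ℝ) * Fintype.card (Tok m1) = m1 * (m1 + 1) := by
      exact_mod_cast card_tok_two m1
    rw [h1]
    have h2 : ((univ.filter (fun a => v ∈ WU a ∪ WD a)).card : ℝ) ≤ m1 := by exact_mod_cast hle
    have h3 : q * m' ≤ m1 + 1 := by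
      have : (m' : ℝ) = m1 + 8 * k := by exact_mod_cast hm1
      linarith
    calc ((univ.filter (fun a => v ∈ WU a ∪ WD a)).card : ℝ) * (q * m')
        ≤ ((univ.filter (fun a => v ∈ WU a ∪ WD a)).card : ℝ) * (m1 + 1) :=
          mul_le_mul_of_nonneg_left h3 (by positivity)
      _ ≤ m1 * (m1 + 1) := mul_le_mul_of_nonneg_right h2 (by positivity)

end PHP
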