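import Mathlib
import Pool.Agent.PHP.Points
import Pool.Agent.PHP.NibArr
import Pool.Agent.PHP.WidFrac

/-!
# Virtual cells below the points of an arrangement, and the splitting of coverings
-/

set_option linter.unusedSectionVars false

namespace PHP

open Finset

variable {ι : Type}

theorem card_seg [Fintype ι] [DecidableEq ι] {P : ι → Bool} {g : ι → ℕ}
    (hg : Function.Injective g) {p a : ℕ}
    (ha : a ≤ (univ.filter (fun u => P u = true ∧ g u < p)).card) :
    (univ.filter (fun v => P v = true ∧ rk P g v < a)).card = a := by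
  apply le_antisymm (card_rk_lt hg a)
  have hsub : range a ⊆ (univ.filter (fun v => P v = true ∧ rk P g v < a)).image (rk P g) := by
    intro i hi
    rw [mem_range] at hi
    obtain ⟨v, h1, -, h3⟩ := exists_rank hg (p := p) (i := i) (P := P) (by omega)
    rw [mem_image]
    exact ⟨v, by rw [mem_filter]; exact ⟨mem_univ _, h1, by omega⟩, h3⟩
  calc a = (range a).card := (card_range a).symm
    _ ≤ _ := (card_le_card hsub).trans card_image_le

theorem lt_of_rk_lt [Fintype ι] [DecidableEq ι] {P : ι → Bool} {g : ι → ℕ} {p a : ℕ} {v : ι}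
    (ha : a ≤ (univ.filter (fun u => P u = true ∧ g u < p)).card) (hv : rk P g v < a) :
    g v < p := by
  by_contra hcon
  rw [not_lt] at hcon
  have : (univ.filter (fun u => P u = true ∧ g u < p)).card ≤ rk P g v := by
    unfold rk
    apply card_le_card
    intro u hu
    rw [mem_filter] at hu ⊢
    exact ⟨mem_univ _, hu.2.1, by omega⟩
  omega

/-- a virtual cell of size `m` inside every cell of depth at least `m` -/
theorem Sweep.exists_vc [Fintype ι] [DecidableEq ι] (W : Sweep ι) (F : ι → Bool) {m : ℕ}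
    {X : ι → Bool} (hX : X ∈ W.cells F) (hm : m ≤ dep X) :
    ∃ s ≤ W.N, ∃ a b, a ≤ m ∧ b ≤ m ∧ (vc W F s a b).card = m ∧
      ∀ v ∈ vc W F s a b, X v = true := by
  classical
  obtain ⟨s, p, hXs⟩ : ∃ s p, s ≤ W.N ∧ X = W.cell F s p := by
    obtain ⟨s, p, rfl⟩ := hX
    rcases le_total s W.N with hs | hs
    · exact ⟨s, p, hs, rfl⟩
    · obtain ⟨t, rfl⟩ := Nat.exists_eq_add_of_le hs
      refine ⟨W.N, p, le_rfl, ?_⟩
      funext i
      unfold Sweep.cell
      rw [TripleAff_late W t]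
  obtain ⟨hs, rfl⟩ := hXs
  set U := univ.filter (fun u => (!(F u)) = true ∧ W.pos s u < p) with hU
  set D := univ.filter (fun u => F u = true ∧ W.neg s u < Fintype.card ι - p) with hD
  have hdep : dep (W.cell F s p) ≤ U.card + D.card := by
    unfold dep
    refine (card_le_card ?_).trans (card_union_le _ _)
    intro i hi
    simp only [mem_filter, mem_univ, true_and, mem_union, hU, hD] at hi ⊢
    unfold Sweep.cell at hi
    have h1 := W.lt s i
    cases hF : F i
    · left
      rw [hF] at hi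
      exact ⟨rfl, by simpa using hi⟩
    · right
      rw [hF] at hi
      have hp : p ≤ W.pos s i := by simpa using hi
      refine ⟨rfl, ?_⟩
      unfold Sweep.neg
      omega
  set a := min m U.card with ha
  set b := m - a with hb
  have ha' : a ≤ U.card := min_le_right _ _
  have hb' : b ≤ D.card := by omega
  refine ⟨s, hs, a, b, min_le_left _ _, Nat.sub_le _ _, ?_, ?_⟩
  · have h1 := card_seg (P := fun u => !(F u)) (W.inj s) ha'
    have h2 := card_seg (P := F) (W.neg_inj s) hb'
    have h3 : vc W F s a b = univ.filter (fun v => (fun u => !(F u)) v = true ∧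
        rk (fun u => !(F u)) (W.pos s) v < a) ∪
        univ.filter (fun v => F v = true ∧ rk F (W.neg s) v < b) := by
      ext v
      unfold vc
      simp only [mem_filter, mem_univ, true_and, mem_union]
      cases F v <;> simp
    rw [h3, card_union_of_disjoint, h1, h2]
    · omega
    · rw [disjoint_left]
      intro v h4 h5
      rw [mem_filter] at h4 h5
      have h6 : (!(F v)) = true := h4.2.1
      rw [h5.2.1] at h6
      exact absurd h6 (by simp)
  · intro v hv
    unfold vc at hv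
    rw [mem_filter] at hv
    unfold Sweep.cell
    rcases hv.2 with ⟨h1, h2⟩ | ⟨h1, h2⟩
    · have := lt_of_rk_lt ha' h2
      simp [h1, this]
    · have := lt_of_rk_lt hb' h2
      have hp : ¬ W.pos s v < p := by
        unfold Sweep.neg at this
        have := W.lt s v
        omega
      simp [h1, hp]

/-- virtual cells below all points of `S` -/
theorem PHArr.exists_vcells [Fintype ι] [DecidableEq ι] [Nonempty ι] (A : PHArr ι) (S : Set ℂ)
    (hS : ∀ z ∈ S, ∀ i, z ∉ Set.range (A.L i).γ) {m : ℕ} (hm : ∀ z ∈ S, m ≤ (A.abv z).card) :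
    ∃ (W : Sweep ι) (F : ι → Bool) (𝒳 : Finset (Finset ι)),
      𝒳.card ≤ (Fintype.card ι + 1) ^ 2 ∧
      (∀ X ∈ 𝒳, X.card = m ∧ ∃ s ≤ W.N, ∃ a b, a ≤ m ∧ b ≤ m ∧ X = vc W F s a b) ∧
      ∀ z ∈ S, ∃ X ∈ 𝒳, X ⊆ A.abv z := by
  classical
  obtain ⟨Sy, F, l, hT, hC⟩ := A.exists_circ
  obtain ⟨S', F', l', h', hTT, hc⟩ := hC.exists_complete
  obtain ⟨W, hW, -⟩ := h'.exists_sweep hc inferInstance
  have hex : ∀ T : Finset ι, ∃ X : Finset ι, T ∈ A.traces S →
      X ⊆ T ∧ X.card = m ∧ ∃ s ≤ W.N, ∃ a b, a ≤ m ∧ b ≤ m ∧ X = vc W F' s a b := by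
    intro T
    by_cases hTr : T ∈ A.traces S
    swap
    · exact ⟨∅, fun h => absurd h hTr⟩
    unfold PHArr.traces at hTr
    rw [mem_filter] at hTr
    obtain ⟨-, z, hz, rfl⟩ := hTr
    have h1 : A.sign z ∈ W.cells F' := by
      rw [hW]
      apply hTT
      rw [hT]
      exact A.sign_mem (hS z hz)
    have hdep : dep (A.sign z) = (A.abv z).card := by
      unfold dep PHArr.abv
      congr 1
      ext i
      simp [PHArr.sign_true]
    obtain ⟨s, hs, a, b, h2, h3, h4, h5⟩ := W.exists_vc F' h1 (m := m) (by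
      rw [hdep]
      exact hm z hz)
    refine ⟨vc W F' s a b, fun _ => ⟨?_, h4, s, hs, a, b, h2, h3, rfl⟩⟩
    intro v hv
    unfold PHArr.abv
    rw [mem_filter]
    exact ⟨mem_univ _, (A.sign_true z v).1 (h5 v hv)⟩
  choose f hf using hex
  refine ⟨W, F', (A.traces S).image f, card_image_le.trans (A.card_traces S hS), ?_, ?_⟩
  · intro X hX
    rw [mem_image] at hX
    obtain ⟨T, hT, rfl⟩ := hX
    exact (hf T hT).2
  · intro z hz
    have hT : A.abv z ∈ A.traces S := by
      unfold PHArr.traces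
      rw [mem_filter]
      exact ⟨mem_univ _, z, hz, rfl⟩
    exact ⟨f (A.abv z), mem_image_of_mem _ hT, (hf _ hT).1⟩

/-- the main inequality -/
theorem PHArr.split_list [Fintype ι] [DecidableEq ι] [Nonempty ι] (A : PHArr ι) (S : Set ℂ)
    (hS : ∀ z ∈ S, ∀ i, z ∉ Set.range (A.L i).γ) (hSne : S.Nonempty) {m : ℕ}
    (hm : ∀ z ∈ S, m ≤ (A.abv z).card) {e : ℝ} (he0 : 0 < e) (he1 : e ≤ 1 / 2)
    (hm1 : 16 / e ^ 2 ≤ m) (t : ℕ)
    (ht : 655360 / e ^ 8 * Real.log (((Fintype.card ι : ℝ) + 1) ^ 2) +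
      2 * (1 + e) / ((1 - e) * (1 - e)) * t ≤ (1 - e) * m) :
    ∃ l : List (Finset ι), l.Pairwise Disjoint ∧
      (∀ D ∈ l, ∀ z ∈ S, (D ∩ A.abv z).Nonempty) ∧ l.length = t := by
  classical
  obtain ⟨W, F, 𝒳, h1, h2, h3⟩ := A.exists_vcells S hS hm
  have hne : 𝒳.Nonempty := by
    obtain ⟨z, hz⟩ := hSne
    obtain ⟨X, hX, -⟩ := h3 z hz
    exact ⟨X, hX⟩
  have he2 : 0 < e ^ 2 := by positivity
  -- the margin
  set k : ℕ := ⌊e ^ 2 * m / 16⌋₊ with hk
  have hx : 1 ≤ e ^ 2 * m / 16 := by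
    rw [div_le_iff₀ he2] at hm1
    linarith
  have hk1 : 1 ≤ k := by
    rw [hk]
    apply Nat.le_floor
    exact_mod_cast hx
  have hk2 : (k : ℝ) ≤ e ^ 2 * m / 16 := Nat.floor_le (by linarith)
  have hk3 : e ^ 2 * m / 16 < k + 1 := Nat.lt_floor_add_one _
  have hk1' : (1 : ℝ) ≤ k := by exact_mod_cast hk1
  have hmk : (m : ℝ) ≤ 32 / e ^ 2 * k := by
    rw [div_mul_eq_mul_div, le_div_iff₀ he2]
    linarith
  have hm0 : (0 : ℝ) < m := by
    have : 0 < 16 / e ^ 2 := by positivity
    linarith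
  have hkm : k ≤ m := by
    have : (k : ℝ) ≤ m := by
      have h4 : e ^ 2 ≤ 1 := by nlinarith
      nlinarith
    exact_mod_cast this
  set Wd : ℝ := 20 * ((m : ℝ) / k) ^ 3 with hWd
  have hmk1 : 1 ≤ (m : ℝ) / k := by
    rw [le_div_iff₀ (by linarith)]
    have : (k : ℝ) ≤ m := by exact_mod_cast hkm
    linarith
  have hmk2 : (m : ℝ) / k ≤ 32 / e ^ 2 := by
    rw [div_le_iff₀ (by linarith)]
    exact hmk
  have hWd1 : 1 ≤ Wd := by
    have : (1 : ℝ) ≤ ((m : ℝ) / k) ^ 3 := one_le_pow₀ hmk1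
    linarith
  have hWd2 : Wd ≤ 655360 / e ^ 6 := by
    have h4 : ((m : ℝ) / k) ^ 3 ≤ (32 / e ^ 2) ^ 3 := pow_le_pow_left₀ (by positivity) hmk2 3
    have h5 : (20 : ℝ) * (32 / e ^ 2) ^ 3 = 655360 / e ^ 6 := by
      rw [div_pow]
      ring
    linarith
  set N : ℝ := ((Fintype.card ι : ℝ) + 1) ^ 2 with hN
  have hNlog : 0 ≤ Real.log N := by
    apply Real.log_nonneg
    rw [hN]
    have : (0 : ℝ) ≤ (Fintype.card ι : ℝ) := by positivity
    nlinarith
  have h1e : 1 / 2 ≤ 1 - e := by linarith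
  set x0 : ℝ := e * m + 655360 / e ^ 8 * Real.log N with hx0
  have hx0m : e * m ≤ x0 := by
    have : 0 ≤ 655360 / e ^ 8 * Real.log N := by positivity
    linarith
  obtain ⟨l, l1, l2, l3⟩ := mw_main hne (η := e / Wd) (N := N) (q := 1 - e) (W := Wd) (s := e)
    (e := e) (x0 := x0) (mmax := m) (by positivity)
    (by
      rw [hN]
      exact_mod_cast h1)
    (by linarith) hWd1 (by field_simp) (by linarith) (by linarith)
    (by
      have h4 : e / Wd * e * x0 ≥ e / Wd * e * (655360 / e ^ 8 * Real.log N) := by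
        apply mul_le_mul_of_nonneg_left _ (by positivity)
        have : 0 ≤ e * (m : ℝ) := by positivity
        linarith
      have h5 : e / Wd * e * (655360 / e ^ 8 * Real.log N) =
          (655360 / e ^ 6) / Wd * Real.log N := by
        field_simp
      have h6 : 1 ≤ (655360 / e ^ 6) / Wd := by
        rw [le_div_iff₀ (by linarith)]
        linarith
      have h7 : Real.log N ≤ (655360 / e ^ 6) / Wd * Real.log N := by nlinarith
      linarith)
    (by
      have h4 : 16 ≤ e ^ 2 * m := by linarith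
      have h5 : e ^ 2 * m ≤ e * m := by nlinarith
      nlinarith)
    he0
    (fun X hX => (h2 X hX).1.le)
    (by
      intro m' hm' _
      have h4 : e * m / 2 ≤ m' := by nlinarith
      have h5 : 8 * (k : ℝ) ≤ e * m' := by nlinarith
      apply W.wfrac F (fun X hX => (h2 X hX).2) hk1 hkm
      · linarith
      · have : 8 * (k : ℝ) < m' := by nlinarith
        exact_mod_cast this)
    t univ (by
      have h4 := le_mwDep hne (η := e / Wd) (N := N) (by positivity) (by
        rw [hN]
        exact_mod_cast h1) (V := univ) (m := m) (fun X hX => by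
          rw [inter_univ, (h2 X hX).1])
      linarith)
  refine ⟨l, l1, fun D hD z hz => ?_, l3⟩
  obtain ⟨X, hX, hXz⟩ := h3 z hz
  obtain ⟨v, hv⟩ := (l2 D hD).2 X hX
  rw [mem_inter] at hv
  exact ⟨v, by rw [mem_inter]; exact ⟨hv.1, hXz hv.2⟩⟩

end PHP
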