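import Mathlib
import Pool.Agent.PHP.WidArr

/-!
# Cells as sets, steps along a curve, closures

`W.alg F s z v`: the curve of `z` at the time `s` is inside the letter `v`. On the curve of `z` every
other letter is a ray; `W.rays F c z` are the `c` longest rays to the left and to the right.
-/

set_option linter.unusedSectionVars false

namespace PHP

open Finset

variable {ι : Type} [Fintype ι] [DecidableEq ι]

/-- membership along the curve `z` at the time `s` -/
def Sweep.alg (W : Sweep ι) (F : ι → Bool) (s : ℕ) (z v : ι) : Bool :=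
  xor (F v) (decide (W.pos s v < W.pos s z))

/-- `X` is a cell -/
def Sweep.Cel (W : Sweep ι) (F : ι → Bool) (X : Finset ι) : Prop :=
  (fun i => decide (i ∈ X)) ∈ W.cells F

theorem ClosCells_adj (W : Sweep ι) {s : ℕ} {x y : ι} (h1 : W.pos s x < W.pos s y)
    (h2 : W.pos (s+1) y < W.pos (s+1) x) :
    W.pos s y = W.pos s x + 1 ∧ W.pos 0 x < W.pos 0 y ∧
    W.pos (s+1) x = W.pos s y ∧ W.pos (s+1) y = W.pos s x ∧
    ∀ z, z ≠ x → z ≠ y → W.pos (s+1) z = W.pos s z := by
  rcases W.step s with h | ⟨a, b, hab, h0, ha, hb, hz⟩
  · rw [h] at h2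
    omega
  · have hxy : x ≠ y := by
      rintro rfl
      omega
    by_cases hxa : x = a
    · subst hxa
      by_cases hyb : y = b
      · subst hyb
        exact ⟨hab, h0, ha, hb, hz⟩
      · have h3 := hz y hxy.symm hyb
        have h4 : W.pos s y ≠ W.pos s b := fun h => hyb (W.inj s h)
        omega
    · by_cases hxb : x = b
      · subst hxb
        by_cases hya : y = a
        · subst hya
          omega
        · have h3 := hz y hya hxy.symm
          omega
      · have h3 := hz x hxa hxb
        by_cases hya : y = a
        · subst hya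
          omega
        · by_cases hyb : y = b
          · subst hyb
            have h4 : W.pos s x ≠ W.pos s a := fun h => hxa (W.inj s h)
            omega
          · have h5 := hz y hya hyb
            omega

theorem ClosCells_mono (W : Sweep ι) {x y : ι} (h : W.pos 0 x < W.pos 0 y) {s : ℕ}
    (hs : W.pos s y < W.pos s x) (r : ℕ) (hr : s ≤ r) : W.pos r y < W.pos r x := by
  have hne : x ≠ y := by
    rintro rfl
    omega
  obtain ⟨t, -, h1, h2⟩ := W.exists_swap_time h
  apply h2
  by_contra hcon
  have := h1 s (by omega)
  omega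

/-- the conclusion of a step from `X` towards `Y` -/
def StepTo (W : Sweep ι) (F : ι → Bool) (X Y : ι → Bool) : Prop :=
  ∃ z s, X z ≠ Y z ∧ Function.update X z (Y z) ∈ W.cells F ∧ ∀ i, i ≠ z → X i = W.alg F s z i

theorem ClosCells_flip (W : Sweep ι) (F : ι → Bool) {s p q : ℕ} {Y : ι → Bool} {z : ι}
    (h1 : W.pos s z < p ↔ ¬ W.pos s z < q) (h2 : Y z = xor (F z) (decide (W.pos s z < q)))
    (h3 : ∀ i, i ≠ z → (W.pos s i < p ↔ W.pos s i < q)) :
    StepTo W F (W.cell F s p) Y := by
  refine ⟨z, s, ?_, ⟨s, q, ?_⟩, ?_⟩
  · rw [h2]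
    simp only [Sweep.cell, ne_eq, Bool.xor_right_inj, decide_eq_decide]
    tauto
  · funext i
    by_cases hi : i = z
    · subst hi
      rw [Function.update_self, h2]
      rfl
    · rw [Function.update_of_ne hi]
      simp only [Sweep.cell, Bool.xor_right_inj, decide_eq_decide]
      exact h3 i hi
  · intro i hi
    have h4 := h3 i hi
    have h5 : W.pos s i ≠ W.pos s z := fun h => hi (W.inj s h)
    simp only [Sweep.cell, Sweep.alg, Bool.xor_right_inj, decide_eq_decide]
    constructor
    · intro h6
      by_contra h7
      have := h4.1 h6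
      omega
    · intro h6
      by_contra h7
      have : ¬ W.pos s i < q := fun h => h7 (h4.2 h)
      omega

theorem ClosCells_same (W : Sweep ι) (F : ι → Bool) {s p : ℕ}
    (h : ∀ x y, W.pos s y = W.pos s x + 1 → W.pos 0 x < W.pos 0 y → W.pos (s+1) x = W.pos s y →
      W.pos (s+1) y = W.pos s x → W.pos s y ≠ p) : W.cell F s p = W.cell F (s+1) p := by
  funext i
  simp only [Sweep.cell, Bool.xor_right_inj, decide_eq_decide]
  rcases W.step s with h1 | ⟨a, b, hab, h0, ha, hb, hz⟩
  · rw [h1]
  · have hne := h a b hab h0 ha hb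
    by_cases hia : i = a
    · subst hia
      omega
    · by_cases hib : i = b
      · subst hib
        omega
      · rw [hz i hia hib]

theorem ClosCells_eqtime (W : Sweep ι) (F : ι → Bool) {s p p' : ℕ}
    (hne : W.cell F s p ≠ W.cell F s p') : StepTo W F (W.cell F s p) (W.cell F s p') := by
  have hex : (univ.filter (fun i => W.cell F s p i ≠ W.cell F s p' i)).Nonempty := by
    by_contra hc
    apply hne
    funext i
    by_contra hi
    exact hc ⟨i, by simpa using hi⟩
  rcases le_total p p' with hpp | hpp
  · obtain ⟨z, hz, hmin⟩ := exists_min_image _ (W.pos s) hex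
    have hmem : ∀ i, i ∈ univ.filter (fun i => W.cell F s p i ≠ W.cell F s p' i) ↔
        (p ≤ W.pos s i ∧ W.pos s i < p') := by
      intro i
      simp only [mem_filter, mem_univ, true_and, Sweep.cell, ne_eq, Bool.xor_right_inj,
        decide_eq_decide]
      constructor
      · intro h
        by_contra hc
        apply h
        omega
      · intro h h'
        omega
    have hz' := (hmem z).1 hz
    refine ClosCells_flip W F (q := W.pos s z + 1) (z := z) (by omega) ?_ ?_
    · simp only [Sweep.cell, Bool.xor_right_inj, decide_eq_decide]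
      omega
    intro i hi
    have hi' : W.pos s i ≠ W.pos s z := fun h => hi (W.inj _ h)
    by_cases h4 : p ≤ W.pos s i ∧ W.pos s i < p'
    · have := hmin i ((hmem i).2 h4)
      omega
    · omega
  · obtain ⟨z, hz, hmax⟩ := exists_max_image _ (W.pos s) hex
    have hmem : ∀ i, i ∈ univ.filter (fun i => W.cell F s p i ≠ W.cell F s p' i) ↔
        (p' ≤ W.pos s i ∧ W.pos s i < p) := by
      intro i
      simp only [mem_filter, mem_univ, true_and, Sweep.cell, ne_eq, Bool.xor_right_inj,
        decide_eq_decide]
      constructor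
      · intro h
        by_contra hc
        apply h
        omega
      · intro h h'
        omega
    have hz' := (hmem z).1 hz
    refine ClosCells_flip W F (q := W.pos s z) (z := z) (by omega) ?_ ?_
    · simp only [Sweep.cell, Bool.xor_right_inj, decide_eq_decide]
      omega
    intro i hi
    have hi' : W.pos s i ≠ W.pos s z := fun h => hi (W.inj _ h)
    by_cases h4 : p' ≤ W.pos s i ∧ W.pos s i < p
    · have := hmax i ((hmem i).2 h4)
      omega
    · omega

theorem ClosCells_fwd (W : Sweep ι) (F : ι → Bool) (d : ℕ) : ∀ {s p p' : ℕ},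
    W.cell F s p ≠ W.cell F (s + d) p' →
    StepTo W F (W.cell F s p) (W.cell F (s + d) p') := by
  induction d with
  | zero =>
    intro s p p' hne
    exact ClosCells_eqtime W F hne
  | succ d ih =>
    intro s p p' hne
    by_cases hs : ∀ x y, W.pos s y = W.pos s x + 1 → W.pos 0 x < W.pos 0 y →
        W.pos (s+1) x = W.pos s y → W.pos (s+1) y = W.pos s x → W.pos s y ≠ p
    · have h1 := ClosCells_same W F hs
      rw [h1]
      have h2 : s + (d + 1) = (s + 1) + d := by ring
      rw [h1, h2] at hne
      rw [h2]
      exact ih hne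
    · push Not at hs
      obtain ⟨x, y, hxy, h0, hx, hy, hp⟩ := hs
      have hlt : W.pos (s + (d + 1)) y < W.pos (s + (d + 1)) x :=
        ClosCells_mono W h0 (s := s + 1) (by omega) _ (by omega)
      by_cases hxY : W.pos (s + (d + 1)) x < p'
      · refine ClosCells_flip W F (q := p + 1) (z := y) (by omega) ?_ ?_
        · simp only [Sweep.cell, Bool.xor_right_inj, decide_eq_decide]
          omega
        intro i hi
        have hi' : W.pos s i ≠ W.pos s y := fun h => hi (W.inj _ h)
        omega
      · refine ClosCells_flip W F (q := p - 1) (z := x) (by omega) ?_ ?_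
        · simp only [Sweep.cell, Bool.xor_right_inj, decide_eq_decide]
          omega
        intro i hi
        have hi' : W.pos s i ≠ W.pos s x := fun h => hi (W.inj _ h)
        omega

theorem ClosCells_bwd (W : Sweep ι) (F : ι → Bool) (d : ℕ) : ∀ {s p p' : ℕ},
    W.cell F (s + d) p ≠ W.cell F s p' →
    StepTo W F (W.cell F (s + d) p) (W.cell F s p') := by
  induction d with
  | zero =>
    intro s p p' hne
    exact ClosCells_eqtime W F hne
  | succ d ih =>
    intro s p p' hne
    by_cases hs : ∀ x y, W.pos (s + d) y = W.pos (s + d) x + 1 → W.pos 0 x < W.pos 0 y →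
        W.pos (s+d+1) x = W.pos (s + d) y → W.pos (s+d+1) y = W.pos (s+d) x → W.pos (s+d) y ≠ p
    · have h1 := ClosCells_same W F hs
      have h2 : s + (d + 1) = s + d + 1 := by ring
      rw [h2, ← h1]
      rw [h2, ← h1] at hne
      exact ih hne
    · push Not at hs
      obtain ⟨x, y, hxy, h0, hx, hy, hp⟩ := hs
      have h2 : s + (d + 1) = s + d + 1 := by ring
      rw [h2]
      have hlt : W.pos s x < W.pos s y := by
        by_contra hc
        have hne' : x ≠ y := by
          rintro rfl
          omega
        have hc' : W.pos s x ≠ W.pos s y := fun h => hne' (W.inj _ h)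
        have := ClosCells_mono W h0 (s := s) (by omega) (s + d) (by omega)
        omega
      by_cases hyY : W.pos s y < p'
      · refine ClosCells_flip W F (q := p + 1) (z := x) (by omega) ?_ ?_
        · simp only [Sweep.cell, Bool.xor_right_inj, decide_eq_decide]
          omega
        intro i hi
        have hi' : W.pos (s+d+1) i ≠ W.pos (s+d+1) x := fun h => hi (W.inj _ h)
        omega
      · refine ClosCells_flip W F (q := p - 1) (z := y) (by omega) ?_ ?_
        · simp only [Sweep.cell, Bool.xor_right_inj, decide_eq_decide]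
          omega
        intro i hi
        have hi' : W.pos (s+d+1) i ≠ W.pos (s+d+1) y := fun h => hi (W.inj _ h)
        omega

theorem Sweep.stepTo (W : Sweep ι) (F : ι → Bool) {X Y : ι → Bool} (hX : X ∈ W.cells F)
    (hY : Y ∈ W.cells F) (hne : X ≠ Y) : StepTo W F X Y := by
  obtain ⟨s, p, rfl⟩ := hX
  obtain ⟨s', p', rfl⟩ := hY
  rcases le_total s s' with h | h
  · obtain ⟨d, rfl⟩ := Nat.exists_eq_add_of_le h
    exact ClosCells_fwd W F d hne
  · obtain ⟨d, rfl⟩ := Nat.exists_eq_add_of_le h
    exact ClosCells_bwd W F d hne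

/-- flip the letter `z` -/
def flp (X : Finset ι) (z : ι) : Finset ι := if z ∈ X then X.erase z else insert z X

theorem mem_flp {X : Finset ι} {z v : ι} : v ∈ flp X z ↔ (v = z ∧ z ∉ X) ∨ (v ≠ z ∧ v ∈ X) := by
  unfold flp
  split_ifs with h
  · rw [mem_erase]
    tauto
  · rw [mem_insert]
    by_cases hv : v = z
    · subst hv
      simp [h]
    · simp [hv]

/-- the letters different from `z` containing the curve of `z` at the time `s` -/
def Sweep.along (W : Sweep ι) (F : ι → Bool) (s : ℕ) (z : ι) : Finset ι :=
  univ.filter (fun v => v ≠ z ∧ W.alg F s z v = true)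

/-- a step from a cell towards another cell -/
theorem Sweep.fstep (W : Sweep ι) (F : ι → Bool) {X Y : Finset ι} (hX : W.Cel F X)
    (hY : W.Cel F Y) (hne : X ≠ Y) :
    ∃ z s, (z ∈ X ↔ z ∉ Y) ∧ W.Cel F (flp X z) ∧ X.erase z = W.along F s z := by
  have hne' : (fun i => decide (i ∈ X)) ≠ (fun i => decide (i ∈ Y)) := by
    intro h
    apply hne
    ext i
    have := congrFun h i
    simpa using this
  obtain ⟨z, s, h1, h2, h3⟩ := W.stepTo F hX hY hne'
  have hz : z ∈ X ↔ z ∉ Y := by
    simp only [ne_eq, decide_eq_decide] at h1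
    tauto
  refine ⟨z, s, hz, ?_, ?_⟩
  · unfold Sweep.Cel
    convert h2 using 1
    funext i
    by_cases hi : i = z
    · subst hi
      rw [Function.update_self, decide_eq_decide, mem_flp]
      tauto
    · rw [Function.update_of_ne hi, decide_eq_decide, mem_flp]
      tauto
  · ext v
    rw [mem_erase, Sweep.along, mem_filter]
    constructor
    · rintro ⟨h4, h5⟩
      refine ⟨mem_univ _, h4, ?_⟩
      rw [← h3 v h4]
      simpa using h5
    · rintro ⟨-, h4, h5⟩
      refine ⟨h4, ?_⟩
      rw [← h3 v h4] at h5
      simpa using h5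

end PHP
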