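import Mathlib
import Pool.Agent.PHP.ClosCells

/-!
# Longest rays and closures
-/

set_option linter.unusedSectionVars false

namespace PHP

open Finset

variable {ι : Type} [Fintype ι] [DecidableEq ι]

theorem Sweep.exists_tau (W : Sweep ι) {z v : ι} (h : v ≠ z) :
    ∃ t, t < W.N ∧ (∀ s, s ≤ t → (W.pos s v < W.pos s z ↔ W.pos 0 v < W.pos 0 z)) ∧
      (∀ s, t < s → (W.pos s v < W.pos s z ↔ ¬ W.pos 0 v < W.pos 0 z)) := by
  rcases Nat.lt_trichotomy (W.pos 0 v) (W.pos 0 z) with h1 | h1 | h1
  · obtain ⟨t, ht, h2, h3⟩ := W.exists_swap_time h1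
    refine ⟨t, ht, fun s hs => ?_, fun s hs => ?_⟩
    · have := h2 s hs
      simp [this, h1]
    · have := h3 s hs
      omega
  · exact absurd (W.inj 0 h1) h
  · obtain ⟨t, ht, h2, h3⟩ := W.exists_swap_time h1
    refine ⟨t, ht, fun s hs => ?_, fun s hs => ?_⟩
    · have := h2 s hs
      omega
    · have := h3 s hs
      omega

open Classical in
/-- the time at which `v` and `z` cross, `N` if `v = z` -/
noncomputable def Sweep.tau (W : Sweep ι) (z v : ι) : ℕ :=
  if h : v ≠ z then (W.exists_tau h).choose else W.N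

theorem Sweep.tau_spec (W : Sweep ι) {z v : ι} (h : v ≠ z) :
    W.tau z v < W.N ∧
      (∀ s, s ≤ W.tau z v → (W.pos s v < W.pos s z ↔ W.pos 0 v < W.pos 0 z)) ∧
      (∀ s, W.tau z v < s → (W.pos s v < W.pos s z ↔ ¬ W.pos 0 v < W.pos 0 z)) := by
  unfold Sweep.tau
  rw [dif_pos h]
  exact (W.exists_tau h).choose_spec

theorem Sweep.tau_self (W : Sweep ι) (z : ι) : W.tau z z = W.N := by
  unfold Sweep.tau
  simp

theorem Sweep.tau_le (W : Sweep ι) (z v : ι) : W.tau z v ≤ W.N := by
  by_cases h : v = z
  · rw [h, W.tau_self]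
  · exact (W.tau_spec h).1.le

/-- the pair `v, z` is exchanged at the time `tau` -/
theorem Sweep.tau_swap (W : Sweep ι) {z v : ι} (h : v ≠ z) :
    ∀ w, w ≠ z → w ≠ v → W.pos (W.tau z v + 1) w = W.pos (W.tau z v) w := by
  obtain ⟨-, h1, h2⟩ := W.tau_spec h
  set t := W.tau z v with ht
  have h3 := h1 t le_rfl
  have h4 := h2 (t + 1) (by omega)
  rcases Nat.lt_trichotomy (W.pos 0 v) (W.pos 0 z) with h5 | h5 | h5
  · have h6 : W.pos t v < W.pos t z := h3.2 h5
    have h7 : W.pos (t + 1) z < W.pos (t + 1) v := by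
      have h8 : W.pos (t + 1) v ≠ W.pos (t + 1) z := fun hh => h (W.inj _ hh)
      have h9 : ¬ W.pos (t + 1) v < W.pos (t + 1) z := fun hh => (h4.1 hh) h5
      omega
    obtain ⟨-, -, -, -, h8⟩ := ClosCells_adj W h6 h7
    intro w hw1 hw2
    exact h8 w hw2 hw1
  · exact absurd (W.inj 0 h5) h
  · have h6 : W.pos t z < W.pos t v := by
      have h8 : W.pos t v ≠ W.pos t z := fun hh => h (W.inj _ hh)
      have h9 : ¬ W.pos t v < W.pos t z := fun hh => by
        have := h3.1 hh
        omega
      omega
    have h7 : W.pos (t + 1) v < W.pos (t + 1) z := h4.2 (by omega)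
    obtain ⟨-, -, -, -, h8⟩ := ClosCells_adj W h6 h7
    intro w hw1 hw2
    exact h8 w hw1 hw2

theorem Sweep.tau_inj (W : Sweep ι) (z : ι) : Function.Injective (W.tau z) := by
  intro v w hvw
  by_contra hne
  by_cases hv : v = z
  · subst hv
    have h1 := (W.tau_spec (z := v) (v := w) (fun h => hne h.symm)).1
    rw [W.tau_self] at hvw
    omega
  · by_cases hw : w = z
    · subst hw
      have h1 := (W.tau_spec hv).1
      rw [W.tau_self] at hvw
      omega
    · obtain ⟨-, h1, h2⟩ := W.tau_spec hv
      obtain ⟨-, h3, h4⟩ := W.tau_spec hw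
      have h5 := W.tau_swap hv w hw (fun h => hne h.symm)
      have h6 := W.tau_swap hw v hv hne
      rw [← hvw] at h3 h4 h6
      set t := W.tau z v with ht
      -- `z` moves over `v`, and over `w`
      have a1 := h1 t le_rfl
      have a2 := h2 (t + 1) (by omega)
      have a3 := h3 t le_rfl
      have a4 := h4 (t + 1) (by omega)
      rw [h5] at a4
      rw [h6] at a2
      have b1 : W.pos t v ≠ W.pos t z := fun hh => hv (W.inj _ hh)
      have b2 : W.pos t w ≠ W.pos t z := fun hh => hw (W.inj _ hh)
      have b3 : W.pos t v ≠ W.pos t w := fun hh => hne (W.inj _ hh)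
      -- the two exchanged letters
      rcases W.step t with hs | ⟨x, y, c1, c2, c3, c4, c5⟩
      · rw [hs] at a2 a4
        tauto
      · -- `z` changes its position by one, but both `v` and `w` are passed
        by_cases hzx : z = x
        · subst hzx
          rw [c3] at a2 a4
          by_cases hvy : v = y
          · subst hvy
            omega
          · by_cases hwy : w = y
            · subst hwy
              omega
            · have e1 : W.pos t v ≠ W.pos t y := fun hh => hvy (W.inj _ hh)
              omega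
        · by_cases hzy : z = y
          · subst hzy
            rw [c4] at a2 a4
            have e1 : W.pos t v ≠ W.pos t x ∨ v = x := by
              by_cases hh : v = x
              · exact Or.inr hh
              · exact Or.inl (fun hhh => hh (W.inj _ hhh))
            have e2 : W.pos t w ≠ W.pos t x ∨ w = x := by
              by_cases hh : w = x
              · exact Or.inr hh
              · exact Or.inl (fun hhh => hh (W.inj _ hhh))
            rcases e1 with e1 | e1
            · omega
            · rcases e2 with e2 | e2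
              · omega
              · exact hne (e1.trans e2.symm)
          · rw [c5 z hzx hzy] at a2 a4
            tauto

section Top

variable {P : ι → Bool} {g : ι → ℕ}

theorem top_small (c p : ℕ)
    (h : (univ.filter (fun v => P v = true ∧ g v < p)).card ≤ c) {v : ι} (hv : P v = true)
    (hvp : g v < p) : rk P g v < c := by
  refine lt_of_lt_of_le ?_ h
  unfold rk
  apply card_lt_card
  rw [ssubset_iff_of_subset]
  · exact ⟨v, by simp [hv, hvp], by simp⟩
  · intro u hu
    rw [mem_filter] at hu ⊢
    exact ⟨mem_univ _, hu.2.1, by omega⟩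

theorem top_big (hg : Function.Injective g) (c p : ℕ) :
    min (univ.filter (fun v => P v = true ∧ g v < p)).card c ≤
      (univ.filter (fun v => P v = true ∧ g v < p ∧ rk P g v < c)).card := by
  set a := min (univ.filter (fun v => P v = true ∧ g v < p)).card c with ha
  have ha1 : a ≤ (univ.filter (fun v => P v = true ∧ g v < p)).card := min_le_left _ _
  have ha2 : a ≤ c := min_le_right _ _
  rw [← card_seg (P := P) hg ha1]
  apply card_le_card
  intro v hv
  rw [mem_filter] at hv ⊢
  exact ⟨mem_univ _, hv.2.1, lt_of_rk_lt ha1 hv.2.2, by omega⟩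

end Top

/-- the rays containing the left end of the curve of `z` -/
def Sweep.lft (W : Sweep ι) (F : ι → Bool) (z v : ι) : Bool := decide (v ≠ z) && W.alg F 0 z v

/-- the rays containing the right end of the curve of `z` -/
def Sweep.rgt (W : Sweep ι) (F : ι → Bool) (z v : ι) : Bool := decide (v ≠ z) && !(W.alg F 0 z v)

/-- the `c` longest rays of both kinds -/
noncomputable def Sweep.rays (W : Sweep ι) (F : ι → Bool) (c : ℕ) (z : ι) : Finset ι :=
  univ.filter (fun v => W.lft F z v = true ∧ rk (W.lft F z) (fun u => W.N - W.tau z u) v < c) ∪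
  univ.filter (fun v => W.rgt F z v = true ∧ rk (W.rgt F z) (W.tau z) v < c)

theorem Sweep.inj_lft (W : Sweep ι) (z : ι) : Function.Injective (fun u => W.N - W.tau z u) := by
  intro u v h
  apply W.tau_inj z
  have h1 := W.tau_le z u
  have h2 := W.tau_le z v
  simp only at h
  omega

theorem Sweep.card_rays (W : Sweep ι) (F : ι → Bool) (c : ℕ) (z : ι) :
    (W.rays F c z).card ≤ 2 * c := by
  unfold Sweep.rays
  refine (card_union_le _ _).trans ?_
  have h1 := card_rk_lt (P := W.lft F z) (W.inj_lft z) c
  have h2 := card_rk_lt (P := W.rgt F z) (W.tau_inj z) c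
  omega

theorem Sweep.alg_iff (W : Sweep ι) (F : ι → Bool) {z v : ι} (h : v ≠ z) (s : ℕ) :
    W.alg F s z v = true ↔
      (W.lft F z v = true ∧ W.N - W.tau z v < W.N - s + 1) ∨
      (W.rgt F z v = true ∧ W.tau z v < s) := by
  obtain ⟨h1, h2, h3⟩ := W.tau_spec h
  have hl : W.lft F z v = W.alg F 0 z v := by
    unfold Sweep.lft
    simp [h]
  have hr : W.rgt F z v = !(W.alg F 0 z v) := by
    unfold Sweep.rgt
    simp [h]
  rw [hl, hr]
  rcases Nat.lt_or_ge (W.tau z v) s with h4 | h4
  · have h5 : W.alg F s z v = !(W.alg F 0 z v) := by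
      unfold Sweep.alg
      have h6 := h3 s h4
      have h7 : decide (W.pos s v < W.pos s z) = !(decide (W.pos 0 v < W.pos 0 z)) := by
        by_cases h8 : W.pos 0 v < W.pos 0 z
        · simp [h6, h8]
        · simp [h6, h8]
      rw [h7]
      cases F v <;> cases decide (W.pos 0 v < W.pos 0 z) <;> rfl
    rw [h5]
    constructor
    · intro h6
      exact Or.inr ⟨h6, h4⟩
    · rintro (⟨-, h6⟩ | ⟨h6, -⟩)
      · omega
      · exact h6
  · have h5 : W.alg F s z v = W.alg F 0 z v := by
      unfold Sweep.alg
      have h6 := h2 s h4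
      simp only [h6]
    rw [h5]
    constructor
    · intro h6
      exact Or.inl ⟨h6, by omega⟩
    · rintro (⟨h6, -⟩ | ⟨-, h6⟩)
      · exact h6
      · omega

theorem Sweep.along_eq (W : Sweep ι) (F : ι → Bool) (s : ℕ) (z : ι) :
    W.along F s z =
      univ.filter (fun v => W.lft F z v = true ∧ W.N - W.tau z v < W.N - s + 1) ∪
      univ.filter (fun v => W.rgt F z v = true ∧ W.tau z v < s) := by
  ext v
  unfold Sweep.along
  rw [mem_union, mem_filter, mem_filter, mem_filter]
  simp only [mem_univ, true_and]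
  by_cases h : v = z
  · subst h
    unfold Sweep.lft Sweep.rgt
    simp
  · rw [W.alg_iff F h s]
    simp [h]

theorem Sweep.disj_lr (W : Sweep ι) (F : ι → Bool) (z : ι) {A B : ι → Prop} [DecidablePred A]
    [DecidablePred B] : Disjoint (univ.filter (fun v => W.lft F z v = true ∧ A v))
      (univ.filter (fun v => W.rgt F z v = true ∧ B v)) := by
  rw [disjoint_left]
  intro v h1 h2
  rw [mem_filter] at h1 h2
  have h3 := h1.2.1
  have h4 := h2.2.1
  unfold Sweep.lft at h3
  unfold Sweep.rgt at h4
  cases h5 : W.alg F 0 z v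
  · rw [h5] at h3
    simp at h3
  · rw [h5] at h4
    simp at h4

/-- small cells along `z` consist of long rays -/
theorem Sweep.rays_small (W : Sweep ι) (F : ι → Bool) {c s : ℕ} {z : ι}
    (h : (W.along F s z).card ≤ c) : W.along F s z ⊆ W.rays F c z := by
  rw [W.along_eq] at h ⊢
  have h1 := card_le_card (s := univ.filter (fun v => W.lft F z v = true ∧
    W.N - W.tau z v < W.N - s + 1)) (subset_union_left (s₂ := univ.filter (fun v =>
      W.rgt F z v = true ∧ W.tau z v < s)))
  have h2 := card_le_card (s := univ.filter (fun v => W.rgt F z v = true ∧ W.tau z v < s))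
    (subset_union_right (s₁ := univ.filter (fun v => W.lft F z v = true ∧
    W.N - W.tau z v < W.N - s + 1)))
  intro v hv
  unfold Sweep.rays
  rw [mem_union, mem_filter, mem_filter] at hv ⊢
  rcases hv with hv | hv
  · left
    exact ⟨mem_univ _, hv.2.1, top_small c _ (h1.trans h) hv.2.1 hv.2.2⟩
  · right
    exact ⟨mem_univ _, hv.2.1, top_small c _ (h2.trans h) hv.2.1 hv.2.2⟩

/-- every cell along `z` contains many long rays -/
theorem Sweep.rays_big (W : Sweep ι) (F : ι → Bool) (c s : ℕ) (z : ι) :
    min (W.along F s z).card c ≤ (W.along F s z ∩ W.rays F c z).card := by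
  have h1 := top_big (P := W.lft F z) (W.inj_lft z) c (W.N - s + 1)
  have h2 := top_big (P := W.rgt F z) (W.tau_inj z) c s
  have hsub : univ.filter (fun v => W.lft F z v = true ∧ (W.N - W.tau z v < W.N - s + 1 ∧
        rk (W.lft F z) (fun u => W.N - W.tau z u) v < c)) ∪
      univ.filter (fun v => W.rgt F z v = true ∧ (W.tau z v < s ∧
        rk (W.rgt F z) (W.tau z) v < c)) ⊆ W.along F s z ∩ W.rays F c z := by
    intro v hv
    rw [W.along_eq, Sweep.rays, mem_inter, mem_union, mem_union]
    rw [mem_union, mem_filter, mem_filter] at hv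
    rw [mem_filter, mem_filter, mem_filter, mem_filter]
    tauto
  have h3 := card_le_card hsub
  rw [card_union_of_disjoint (W.disj_lr F z)] at h3
  have h4 : (W.along F s z).card =
      (univ.filter (fun v => W.lft F z v = true ∧ W.N - W.tau z v < W.N - s + 1)).card +
      (univ.filter (fun v => W.rgt F z v = true ∧ W.tau z v < s)).card := by
    rw [W.along_eq, card_union_of_disjoint (W.disj_lr F z)]
  omega

/-- the closure of a set of letters -/
noncomputable def Sweep.clo (W : Sweep ι) (F : ι → Bool) (c : ℕ) (S : Finset ι) : Finset ι :=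
  S ∪ S.biUnion (W.rays F c)

theorem Sweep.subset_clo (W : Sweep ι) (F : ι → Bool) (c : ℕ) (S : Finset ι) :
    S ⊆ W.clo F c S := subset_union_left

theorem Sweep.rays_subset_clo (W : Sweep ι) (F : ι → Bool) (c : ℕ) {S : Finset ι} {z : ι}
    (hz : z ∈ S) : W.rays F c z ⊆ W.clo F c S := by
  intro v hv
  unfold Sweep.clo
  rw [mem_union, mem_biUnion]
  exact Or.inr ⟨z, hz, hv⟩

theorem Sweep.card_clo (W : Sweep ι) (F : ι → Bool) (c : ℕ) (S : Finset ι) :
    (W.clo F c S).card ≤ (2 * c + 1) * S.card := by
  unfold Sweep.clo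
  refine (card_union_le _ _).trans ?_
  have h1 : (S.biUnion (W.rays F c)).card ≤ S.card * (2 * c) :=
    card_biUnion_le_card_mul _ _ _ (fun z _ => W.card_rays F c z)
  calc S.card + (S.biUnion (W.rays F c)).card ≤ S.card + S.card * (2 * c) := by omega
    _ = (2 * c + 1) * S.card := by ring

theorem card_symmDiff_flp {X Y : Finset ι} {z : ι} (h : z ∈ X ↔ z ∉ Y) :
    (symmDiff (flp X z) Y).card + 1 = (symmDiff X Y).card := by
  have h1 : symmDiff (flp X z) Y = (symmDiff X Y).erase z := by
    ext v
    rw [mem_erase, mem_symmDiff, mem_symmDiff, mem_flp]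
    by_cases hv : v = z
    · subst hv
      simp
      tauto
    · simp [hv]
  have h2 : z ∈ symmDiff X Y := by
    rw [mem_symmDiff]
    tauto
  rw [h1, card_erase_of_mem h2]
  have := card_pos.2 ⟨z, h2⟩
  omega

/-- the closure lemma -/
theorem Sweep.closure_lemma (W : Sweep ι) (F : ι → Bool) {c : ℕ} {S Y K : Finset ι} {v : ι}
    (hY : W.Cel F Y) (hYK : Y ⊆ K) (hK : K.card ≤ c) (hvY : v ∈ Y) (hv : v ∉ W.clo F c S) :
    ∀ n, ∀ X, (symmDiff X Y).card = n → W.Cel F X → X ⊆ K → v ∈ X → X ∩ S = Y ∩ S := by
  intro n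
  induction n with
  | zero =>
    intro X hn _ _ _
    rw [card_eq_zero] at hn
    have : X = Y := symmDiff_eq_bot.1 hn
    rw [this]
  | succ n ih =>
    intro X hn hX hXK hvX
    have hne : X ≠ Y := by
      rintro rfl
      simp at hn
    obtain ⟨z, s, h1, h2, h3⟩ := W.fstep F hX hY hne
    have hvz : v ≠ z := by
      rintro rfl
      tauto
    have hzS : z ∉ S := by
      intro hzS
      apply hv
      apply W.rays_subset_clo F c hzS
      have h4 : (W.along F s z).card ≤ c := by
        rw [← h3]
        exact (card_le_card ((erase_subset _ _).trans hXK)).trans hK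
      apply W.rays_small F h4
      rw [← h3, mem_erase]
      exact ⟨hvz, hvX⟩
    have h5 := card_symmDiff_flp h1
    have h6 := ih (flp X z) (by omega) h2 (by
      intro w hw
      rw [mem_flp] at hw
      rcases hw with ⟨hw1, hw2⟩ | ⟨-, hw⟩
      · subst hw1
        apply hYK
        tauto
      · exact hXK hw) (by
      rw [mem_flp]
      exact Or.inr ⟨hvz, hvX⟩)
    rw [← h6]
    ext w
    rw [mem_inter, mem_inter, mem_flp]
    constructor
    · rintro ⟨a1, a2⟩
      have : w ≠ z := by
        rintro rfl
        exact hzS a2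
      exact ⟨Or.inr ⟨this, a1⟩, a2⟩
    · rintro ⟨a1, a2⟩
      have : w ≠ z := by
        rintro rfl
        exact hzS a2
      rcases a1 with a1 | a1
      · exact absurd a1.1 this
      · exact ⟨a1.2, a2⟩

/-- the closure lemma, short form -/
theorem Sweep.closure_eq (W : Sweep ι) (F : ι → Bool) {c : ℕ} {S X Y : Finset ι} {v : ι}
    (hX : W.Cel F X) (hY : W.Cel F Y) (hc : (X ∪ Y).card ≤ c) (hvX : v ∈ X) (hvY : v ∈ Y)
    (hv : v ∉ W.clo F c S) : X ∩ S = Y ∩ S :=
  W.closure_lemma F hY subset_union_right hc hvY hv _ X rfl hX subset_union_left hvX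

/-- every deep cell contains a cell of size `m`, or a cell which is deep in the closure of `O` -/
theorem Sweep.reduce (W : Sweep ι) (F : ι → Bool) {c m : ℕ} (hcm : m ≤ c) {O : Finset ι}
    (hO : W.Cel F O) : ∀ n, ∀ X, (symmDiff X O).card = n → W.Cel F X → m ≤ X.card →
    ∃ Y, W.Cel F Y ∧ Y ⊆ X ∧ (Y.card = m ∨ m ≤ (Y ∩ W.clo F c O).card) := by
  intro n
  induction n with
  | zero =>
    intro X hn hX hm
    rw [card_eq_zero] at hn
    have : X = O := symmDiff_eq_bot.1 hn
    subst this
    refine ⟨X, hX, Subset.refl _, Or.inr ?_⟩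
    rw [inter_eq_left.2 (W.subset_clo F c X)]
    exact hm
  | succ n ih =>
    intro X hn hX hm
    have hne : X ≠ O := by
      rintro rfl
      simp at hn
    obtain ⟨z, s, h1, h2, h3⟩ := W.fstep F hX hO hne
    by_cases hz : z ∈ X
    · by_cases hm' : X.card = m
      · exact ⟨X, hX, Subset.refl _, Or.inl hm'⟩
      · have h4 : flp X z = X.erase z := by
          unfold flp
          rw [if_pos hz]
        have h5 := card_symmDiff_flp h1
        obtain ⟨Y, hY1, hY2, hY3⟩ := ih (flp X z) (by omega) h2 (by
          rw [h4, card_erase_of_mem hz]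
          omega)
        exact ⟨Y, hY1, hY2.trans (by rw [h4]; exact erase_subset _ _), hY3⟩
    · have hzO : z ∈ O := by tauto
      refine ⟨X, hX, Subset.refl _, Or.inr ?_⟩
      have h4 : X = W.along F s z := by
        rw [← h3, erase_eq_of_notMem hz]
      have h5 := W.rays_big F c s z
      rw [← h4] at h5
      have h6 : (X ∩ W.rays F c z).card ≤ (X ∩ W.clo F c O).card :=
        card_le_card (inter_subset_inter_left (W.rays_subset_clo F c hzO))
      omega

end PHP
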