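import Mathlib
import Pool.Agent.PHP.ClosRays
import Pool.Agent.PHP.NoFour

/-!
# Peeling the hull around a cell

`O` is a cell, `G` a set of letters not containing `O`, `T` a family of cells with letters in `G`.
-/

set_option linter.unusedSectionVars false

namespace PHP

open Finset

variable {ι : Type} [Fintype ι] [DecidableEq ι]

/-- the hull meets every set -/
theorem Sweep.hull_hit (W : Sweep ι) (F : ι → Bool) {X G : Finset ι} (hX : W.Cel F X)
    (hXG : (X ∩ G).Nonempty) : ∀ n, ∀ Z, (symmDiff Z X).card = n → W.Cel F Z → Disjoint Z G →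
    ∃ x ∈ X, x ∈ G ∧ ∃ Z', W.Cel F Z' ∧ Z' ∩ G = {x} := by
  intro n
  induction n with
  | zero =>
    intro Z hn _ hZG
    rw [card_eq_zero] at hn
    have : Z = X := symmDiff_eq_bot.1 hn
    subst this
    rw [disjoint_iff_inter_eq_empty.1 hZG] at hXG
    exact absurd hXG (by simp)
  | succ n ih =>
    intro Z hn hZ hZG
    have hne : Z ≠ X := by
      rintro rfl
      simp at hn
    obtain ⟨z, s, h1, h2, h3⟩ := W.fstep F hZ hX hne
    by_cases hz : z ∈ G
    · have hzZ : z ∉ Z := fun h => disjoint_left.1 hZG h hz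
      have hzX : z ∈ X := by tauto
      refine ⟨z, hzX, hz, flp Z z, h2, ?_⟩
      ext v
      rw [mem_inter, mem_flp, mem_singleton]
      constructor
      · rintro ⟨a1 | a1, a2⟩
        · exact a1.1
        · exact absurd a2 (disjoint_left.1 hZG a1.2)
      · rintro rfl
        exact ⟨Or.inl ⟨rfl, hzZ⟩, hz⟩
    · have h5 := card_symmDiff_flp h1
      refine ih (flp Z z) (by omega) h2 ?_
      rw [disjoint_left]
      intro v hv hvG
      rw [mem_flp] at hv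
      rcases hv with hv | hv
      · exact hz (hv.1 ▸ hvG)
      · exact disjoint_left.1 hZG hv.2 hvG

/-- the case in which the middle element of a triple has a private cell -/
theorem Sweep.hull_core (W : Sweep ι) (F : ι → Bool) {G R O : Finset ι} (hO : W.Cel F O)
    (hOG : Disjoint O G) (hRG : R ⊆ G) (hRh : ∀ x ∈ R, ∃ Z, W.Cel F Z ∧ Z ∩ G = {x})
    {x y z : ι} (hxy : x ≠ y) (hxz : x ≠ z) (hyz : y ≠ z) (hxR : x ∈ R) (hyR : y ∈ R)
    (hzR : z ∈ R) (hmid : ∀ X ∈ W.cells F, ¬ (X x = true ∧ X y = false ∧ X z = true))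
    {X P : Finset ι} (hX : W.Cel F X) (hP : W.Cel F P) (hxX : x ∈ X) (hyX : y ∈ X) (hzX : z ∈ X)
    (hPR : P ∩ R = {y}) : P ∩ G ⊆ X := by
  intro w hw
  rw [mem_inter] at hw
  by_contra hwX
  obtain ⟨Zx, hZx, hZx'⟩ := hRh x hxR
  obtain ⟨Zy, hZy, hZy'⟩ := hRh y hyR
  obtain ⟨Zz, hZz, hZz'⟩ := hRh z hzR
  have hO' : ∀ u ∈ G, u ∉ O := fun u hu h => disjoint_left.1 hOG h hu
  have hin : ∀ {Z : Finset ι} {a : ι}, Z ∩ G = {a} → ∀ u ∈ G, (u ∈ Z ↔ u = a) := by
    intro Z a h u hu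
    have : u ∈ Z ∩ G ↔ u ∈ ({a} : Finset ι) := by rw [h]
    rw [mem_inter, mem_singleton] at this
    tauto
  have hPR' : ∀ u ∈ R, (u ∈ P ↔ u = y) := by
    intro u hu
    have : u ∈ P ∩ R ↔ u ∈ ({y} : Finset ι) := by rw [hPR]
    rw [mem_inter, mem_singleton] at this
    tauto
  have hxw : x ≠ w := fun h => hwX (h ▸ hxX)
  have hyw : y ≠ w := fun h => hwX (h ▸ hyX)
  have hzw : z ≠ w := fun h => hwX (h ▸ hzX)
  refine W.no_four F hxy hxz hxw hyz hyw hzw hmid hO hZx hZy hZz hX hP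
    ⟨?_, ?_, ?_, ?_⟩ ⟨?_, ?_, ?_, ?_⟩ ⟨?_, ?_, ?_, ?_⟩ ⟨?_, ?_, ?_, ?_⟩ ⟨?_, ?_, ?_, ?_⟩
    ⟨?_, ?_, ?_, ?_⟩
  · exact decide_eq_false (hO' x (hRG hxR))
  · exact decide_eq_false (hO' y (hRG hyR))
  · exact decide_eq_false (hO' z (hRG hzR))
  · exact decide_eq_false (hO' w hw.2)
  · exact decide_eq_true ((hin hZx' x (hRG hxR)).2 rfl)
  · exact decide_eq_false (fun h => hxy ((hin hZx' y (hRG hyR)).1 h).symm)
  · exact decide_eq_false (fun h => hxz ((hin hZx' z (hRG hzR)).1 h).symm)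
  · exact decide_eq_false (fun h => hxw ((hin hZx' w hw.2).1 h).symm)
  · exact decide_eq_false (fun h => hxy ((hin hZy' x (hRG hxR)).1 h))
  · exact decide_eq_true ((hin hZy' y (hRG hyR)).2 rfl)
  · exact decide_eq_false (fun h => hyz ((hin hZy' z (hRG hzR)).1 h).symm)
  · exact decide_eq_false (fun h => hyw ((hin hZy' w hw.2).1 h).symm)
  · exact decide_eq_false (fun h => hxz ((hin hZz' x (hRG hxR)).1 h))
  · exact decide_eq_false (fun h => hyz ((hin hZz' y (hRG hyR)).1 h))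
  · exact decide_eq_true ((hin hZz' z (hRG hzR)).2 rfl)
  · exact decide_eq_false (fun h => hzw ((hin hZz' w hw.2).1 h).symm)
  · exact decide_eq_true hxX
  · exact decide_eq_true hyX
  · exact decide_eq_true hzX
  · exact decide_eq_false hwX
  · exact decide_eq_false (fun h => hxy ((hPR' x hxR).1 h))
  · exact decide_eq_true ((hPR' y hyR).2 rfl)
  · exact decide_eq_false (fun h => hyz ((hPR' z hzR).1 h).symm)
  · exact decide_eq_true hw.1

/-- peeling -/
theorem Sweep.peel (W : Sweep ι) (F : ι → Bool) {O G : Finset ι} (hO : W.Cel F O)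
    (hOG : Disjoint O G) (T : Finset ι → Prop) (hT : ∀ X, T X → W.Cel F X ∧ (X ∩ G).Nonempty) :
    ∃ R ⊆ G, (∀ X, T X → (X ∩ R).Nonempty) ∧ (∀ y ∈ R, ∃ P, T P ∧ P ∩ R = {y}) ∧
      ∀ X, W.Cel F X → (X ∩ R).card ≤ 2 ∨ ∃ P, T P ∧ (P ∩ R).card = 1 ∧ P ∩ G ⊆ X := by
  classical
  set V : Finset ι := G.filter (fun x => ∃ Z, W.Cel F Z ∧ Z ∩ G = {x}) with hV
  have hVhit : ∀ X, T X → (X ∩ V).Nonempty := by
    intro X hX
    obtain ⟨h1, h2⟩ := hT X hX
    obtain ⟨x, hx1, hx2, hx3⟩ := W.hull_hit F h1 h2 _ O rfl hO hOG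
    exact ⟨x, by rw [mem_inter, hV, mem_filter]; exact ⟨hx1, hx2, hx3⟩⟩
  obtain ⟨R, hR, hRmin⟩ := (univ.filter (fun R : Finset ι => R ⊆ V ∧
    ∀ X, T X → (X ∩ R).Nonempty)).exists_min_image Finset.card
      ⟨V, Finset.mem_filter.2 ⟨Finset.mem_univ _, subset_rfl, hVhit⟩⟩
  rw [Finset.mem_filter] at hR
  obtain ⟨_, hRV, hRhit⟩ := hR
  have hRG : R ⊆ G := hRV.trans (filter_subset _ _)
  have hRh : ∀ x ∈ R, ∃ Z, W.Cel F Z ∧ Z ∩ G = {x} := by
    intro x hx
    have := hRV hx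
    rw [hV, mem_filter] at this
    exact this.2
  have hpriv : ∀ y ∈ R, ∃ P, T P ∧ P ∩ R = {y} := by
    intro y hy
    by_contra hcon
    push Not at hcon
    have h1 : R.erase y ∈ univ.filter (fun R : Finset ι => R ⊆ V ∧
        ∀ X, T X → (X ∩ R).Nonempty) := by
      refine Finset.mem_filter.2 ⟨Finset.mem_univ _, (Finset.erase_subset _ _).trans hRV, ?_⟩
      intro X hX
      by_contra h2
      rw [not_nonempty_iff_eq_empty] at h2
      apply hcon X hX
      obtain ⟨u, hu⟩ := hRhit X hX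
      have hall : ∀ u, u ∈ X ∩ R → u = y := by
        intro u hu
        by_contra h5
        rw [mem_inter] at hu
        have : u ∈ X ∩ R.erase y := by
          rw [mem_inter, mem_erase]
          exact ⟨hu.1, h5, hu.2⟩
        rw [h2] at this
        exact absurd this (by simp)
      ext w
      rw [mem_singleton]
      constructor
      · exact hall w
      · rintro rfl
        rw [← hall u hu]
        exact hu
    have h2 := hRmin _ h1
    have h3 := Finset.card_erase_lt_of_mem hy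
    omega
  refine ⟨R, hRG, hRhit, hpriv, fun X hX => ?_⟩
  by_cases hle : (X ∩ R).card ≤ 2
  · exact Or.inl hle
  right
  rw [not_le] at hle
  obtain ⟨x, hx, y, hy, z, hz, hxy, hxz, hyz⟩ := Finset.two_lt_card.1 hle
  rw [mem_inter] at hx hy hz
  obtain ⟨Zx, hZx, hZx'⟩ := hRh x hx.2
  obtain ⟨Zy, hZy, hZy'⟩ := hRh y hy.2
  obtain ⟨Zz, hZz, hZz'⟩ := hRh z hz.2
  obtain ⟨Px, hPx, hPxR⟩ := hpriv x hx.2
  obtain ⟨Py, hPy, hPyR⟩ := hpriv y hy.2
  obtain ⟨Pz, hPz, hPzR⟩ := hpriv z hz.2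
  have hin : ∀ {Z : Finset ι} {a : ι}, Z ∩ G = {a} → ∀ u ∈ G, (u ∈ Z ↔ u = a) := by
    intro Z a h u hu
    have : u ∈ Z ∩ G ↔ u ∈ ({a} : Finset ι) := by rw [h]
    rw [mem_inter, mem_singleton] at this
    tauto
  have hO' : ∀ u ∈ G, decide (u ∈ O) = false :=
    fun u hu => decide_eq_false (fun h => disjoint_left.1 hOG h hu)
  obtain ⟨p, q, r, hpqr⟩ := W.triple F hxy hyz hxz
  have e0 := hpqr _ hO
  have e1 := hpqr _ hZx
  have e2 := hpqr _ hZy
  have e3 := hpqr _ hZz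
  have e4 := hpqr _ hX
  have gx := hRG hx.2
  have gy := hRG hy.2
  have gz := hRG hz.2
  simp only [hO' x gx, hO' y gy, hO' z gz] at e0
  have t1 : decide (x ∈ Zx) = true := decide_eq_true ((hin hZx' x gx).2 rfl)
  have t2 : decide (y ∈ Zx) = false := decide_eq_false (fun h => hxy ((hin hZx' y gy).1 h).symm)
  have t3 : decide (z ∈ Zx) = false := decide_eq_false (fun h => hxz ((hin hZx' z gz).1 h).symm)
  have t4 : decide (x ∈ Zy) = false := decide_eq_false (fun h => hxy ((hin hZy' x gx).1 h))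
  have t5 : decide (y ∈ Zy) = true := decide_eq_true ((hin hZy' y gy).2 rfl)
  have t6 : decide (z ∈ Zy) = false := decide_eq_false (fun h => hyz ((hin hZy' z gz).1 h).symm)
  have t7 : decide (x ∈ Zz) = false := decide_eq_false (fun h => hxz ((hin hZz' x gx).1 h))
  have t8 : decide (y ∈ Zz) = false := decide_eq_false (fun h => hyz ((hin hZz' y gy).1 h))
  have t9 : decide (z ∈ Zz) = true := decide_eq_true ((hin hZz' z gz).2 rfl)
  simp only [t1, t2, t3] at e1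
  simp only [t4, t5, t6] at e2
  simp only [t7, t8, t9] at e3
  have u1 : decide (x ∈ X) = true := decide_eq_true hx.1
  have u2 : decide (y ∈ X) = true := decide_eq_true hy.1
  have u3 : decide (z ∈ X) = true := decide_eq_true hz.1
  simp only [u1, u2, u3] at e4
  have fin : ∀ {P : Finset ι} {a : ι}, T P → P ∩ R = {a} → P ∩ G ⊆ X →
      ∃ P, T P ∧ (P ∩ R).card = 1 ∧ P ∩ G ⊆ X := by
    intro P a h1 h2 h3
    exact ⟨P, h1, by rw [h2, card_singleton], h3⟩
  cases p <;> cases q <;> cases r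
  · exact absurd ⟨rfl, rfl, rfl⟩ e0
  · exact absurd ⟨rfl, rfl, rfl⟩ e3
  · exact absurd ⟨rfl, rfl, rfl⟩ e2
  · -- `{y, z}` missing
    exact fin hPx hPxR (W.hull_core F hO hOG hRG hRh hxy.symm hyz hxz hy.2 hx.2 hz.2
      (fun Y hY h => hpqr Y hY ⟨h.2.1, h.1, h.2.2⟩) hX (hT _ hPx).1 hy.1 hx.1 hz.1 hPxR)
  · exact absurd ⟨rfl, rfl, rfl⟩ e1
  · -- `{x, z}` missing
    exact fin hPy hPyR (W.hull_core F hO hOG hRG hRh hxy hxz hyz hx.2 hy.2 hz.2
      (fun Y hY h => hpqr Y hY ⟨h.1, h.2.1, h.2.2⟩) hX (hT _ hPy).1 hx.1 hy.1 hz.1 hPyR)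
  · -- `{x, y}` missing
    exact fin hPz hPzR (W.hull_core F hO hOG hRG hRh hxz hxy hyz.symm hx.2 hz.2 hy.2
      (fun Y hY h => hpqr Y hY ⟨h.1, h.2.2, h.2.1⟩) hX (hT _ hPz).1 hx.1 hz.1 hy.1 hPzR)
  · exact absurd ⟨rfl, rfl, rfl⟩ e4

end PHP
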