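import Mathlib
import Pool.Agent.PHP.NibStep

/-!
# One round of multiplicative weights for a guarantee function

`G x` is a guarantee for the index `x`; a choice `a` lowers it by `dec a x`. If the average drop is at
most `C * G x` for all `x`, some choice lowers the potential depth by at most the factor
`1 - (1 + s) * C`.
-/

namespace PHP

open Finset

variable {κ : Type}

/-- the sum of the weights -/
noncomputable def gPhi (𝒳 : Finset κ) (η : ℝ) (G : κ → ℝ) : ℝ :=
  ∑ X ∈ 𝒳, Real.exp (-(η * G X))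

theorem gPhi_pos {𝒳 : Finset κ} (h : 𝒳.Nonempty) (η : ℝ) (G : κ → ℝ) :
    0 < gPhi 𝒳 η G := Finset.sum_pos (fun _ _ => Real.exp_pos _) h

/-- the entropy inequality -/
theorem g_entropy {𝒳 : Finset κ} (h : 𝒳.Nonempty) {η N : ℝ} (hN : (𝒳.card : ℝ) ≤ N)
    (G : κ → ℝ) :
    η * ∑ X ∈ 𝒳, Real.exp (-(η * G X)) * G X ≤
      gPhi 𝒳 η G * (Real.log N - Real.log (gPhi 𝒳 η G)) := by
  set P : ℝ := gPhi 𝒳 η G with hP
  have hPpos : 0 < P := gPhi_pos h η G
  have hcard : (1 : ℝ) ≤ 𝒳.card := by exact_mod_cast h.card_pos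
  have hNpos : 0 < N := by linarith
  have key : ∀ X ∈ 𝒳, Real.exp (-(η * G X)) *
      (Real.log P - Real.log N + η * G X) ≤
      P / N - Real.exp (-(η * G X)) := by
    intro X _
    set x : ℝ := η * G X with hx
    have he : 0 < Real.exp (-x) := Real.exp_pos _
    have h1 : Real.log (P / (N * Real.exp (-x))) ≤ P / (N * Real.exp (-x)) - 1 :=
      Real.log_le_sub_one_of_pos (by positivity)
    have h2 : Real.log (P / (N * Real.exp (-x))) = Real.log P - Real.log N + x := by
      rw [Real.log_div hPpos.ne' (by positivity), Real.log_mul hNpos.ne' he.ne', Real.log_exp]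
      ring
    rw [h2] at h1
    have h3 := mul_le_mul_of_nonneg_left h1 he.le
    have h4 : Real.exp (-x) * (P / (N * Real.exp (-x)) - 1) = P / N - Real.exp (-x) := by
      field_simp
    rw [h4] at h3
    exact h3
  have hsum := Finset.sum_le_sum key
  rw [Finset.sum_sub_distrib, Finset.sum_const, nsmul_eq_mul] at hsum
  have h5 : ∑ X ∈ 𝒳, Real.exp (-(η * G X)) *
      (Real.log P - Real.log N + η * G X) =
      P * (Real.log P - Real.log N) +
      η * ∑ X ∈ 𝒳, Real.exp (-(η * G X)) * G X := by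
    rw [hP, gPhi, Finset.sum_mul, Finset.mul_sum, ← Finset.sum_add_distrib]
    apply Finset.sum_congr rfl
    intro X _
    ring
  rw [h5] at hsum
  have h6 : (𝒳.card : ℝ) * (P / N) ≤ P := by
    have : (𝒳.card : ℝ) * (P / N) = 𝒳.card / N * P := by ring
    rw [this]
    have h7 : (𝒳.card : ℝ) / N ≤ 1 := (div_le_one hNpos).2 hN
    nlinarith
  have h8 : ∑ X ∈ 𝒳, Real.exp (-(η * G X)) = P := rfl
  rw [h8] at hsum
  linarith

/-- the potential measured as a depth -/
noncomputable def gDep (𝒳 : Finset κ) (η N : ℝ) (G : κ → ℝ) : ℝ :=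
  (Real.log N - Real.log (gPhi 𝒳 η G)) / η

theorem gDep_le {𝒳 : Finset κ} {η N : ℝ} (hη : 0 < η) {G : κ → ℝ} {X : κ} (hX : X ∈ 𝒳) :
    gDep 𝒳 η N G ≤ G X + Real.log N / η := by
  have h1 : Real.exp (-(η * G X)) ≤ gPhi 𝒳 η G :=
    Finset.single_le_sum (f := fun X => Real.exp (-(η * G X)))
      (fun _ _ => (Real.exp_pos _).le) hX
  have h2 := Real.log_le_log (Real.exp_pos _) h1
  rw [Real.log_exp] at h2
  unfold gDep
  rw [div_le_iff₀ hη, add_mul, div_mul_cancel₀ _ hη.ne']
  linarith

theorem le_gDep {𝒳 : Finset κ} (h : 𝒳.Nonempty) {η N : ℝ} (hη : 0 < η)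
    (hN : (𝒳.card : ℝ) ≤ N) {G : κ → ℝ} {m : ℝ} (hm : ∀ X ∈ 𝒳, m ≤ G X) :
    m ≤ gDep 𝒳 η N G := by
  have hcard : (1 : ℝ) ≤ 𝒳.card := by exact_mod_cast h.card_pos
  have h1 : gPhi 𝒳 η G ≤ N * Real.exp (-(η * m)) := by
    calc gPhi 𝒳 η G ≤ ∑ X ∈ 𝒳, Real.exp (-(η * m)) := by
          apply Finset.sum_le_sum
          intro X hX
          apply Real.exp_le_exp.2
          have := hm X hX
          nlinarith
      _ = 𝒳.card * Real.exp (-(η * m)) := by rw [Finset.sum_const, nsmul_eq_mul]
      _ ≤ _ := mul_le_mul_of_nonneg_right hN (Real.exp_pos _).le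
  have h2 := Real.log_le_log (gPhi_pos h η G) h1
  rw [Real.log_mul (by linarith) (Real.exp_pos _).ne', Real.log_exp] at h2
  unfold gDep
  rw [le_div_iff₀ hη]
  linarith

/-- one round -/
theorem g_step {𝒳 : Finset κ} (h : 𝒳.Nonempty) {η N W s C : ℝ} (hη : 0 < η)
    (hN : (𝒳.card : ℝ) ≤ N) (hW : 0 < W) (hs : η * W = s) (hs1 : s ≤ 1) (hC : 0 ≤ C)
    {α : Type} [Fintype α] (hα : 0 < Fintype.card α) {G : κ → ℝ} (dec : α → κ → ℝ)
    (hd0 : ∀ a, ∀ X ∈ 𝒳, 0 ≤ dec a X) (hdW : ∀ a, ∀ X ∈ 𝒳, dec a X ≤ W)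
    (hd : ∀ X ∈ 𝒳, ∑ a, dec a X ≤ Fintype.card α * (C * G X)) :
    ∃ a, gDep 𝒳 η N G * (1 - (1 + s) * C) ≤ gDep 𝒳 η N (fun X => G X - dec a X) := by
  classical
  set P : ℝ := gPhi 𝒳 η G with hP
  have hPpos : 0 < P := gPhi_pos h η G
  have hs0 : 0 < s := by rw [← hs]; positivity
  have hcard : (1 : ℝ) ≤ 𝒳.card := by exact_mod_cast h.card_pos
  have hT : (0 : ℝ) < Fintype.card α := by exact_mod_cast hα
  set lam : κ → ℝ := fun X => Real.exp (-(η * G X)) with hlam
  set M : ℝ := ∑ X ∈ 𝒳, lam X * G X with hM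
  have havg : ∑ a, ∑ X ∈ 𝒳, lam X * dec a X ≤ ∑ a : α, C * M := by
    rw [Finset.sum_comm, Finset.sum_const, Finset.card_univ, nsmul_eq_mul]
    calc ∑ X ∈ 𝒳, ∑ a, lam X * dec a X
        ≤ ∑ X ∈ 𝒳, lam X * (Fintype.card α * (C * G X)) := by
          apply Finset.sum_le_sum
          intro X hX
          rw [← Finset.mul_sum]
          exact mul_le_mul_of_nonneg_left (hd X hX) (Real.exp_pos _).le
      _ = Fintype.card α * (C * M) := by
          rw [hM, Finset.mul_sum, Finset.mul_sum]
          apply Finset.sum_congr rfl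
          intro X _
          ring
  have hne : (univ : Finset α).Nonempty := by
    rw [← Finset.card_pos, Finset.card_univ]
    exact hα
  obtain ⟨a, _, ha⟩ := Finset.exists_le_of_sum_le hne havg
  refine ⟨a, ?_⟩
  have hnew : gPhi 𝒳 η (fun X => G X - dec a X) ≤ P + (1 + s) * η * (C * M) := by
    have e1 : ∀ X ∈ 𝒳, Real.exp (-(η * (G X - dec a X))) ≤
        lam X + (1 + s) * η * (lam X * dec a X) := by
      intro X hX
      set y : ℝ := dec a X with hy
      have hy0 : 0 ≤ y := hd0 a X hX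
      have hyW : y ≤ W := hdW a X hX
      have e5 : Real.exp (η * y) ≤ 1 + (1 + s) * η * y := by
        have e6 := nib_chord (l := η) (y := y) (B := W) (by linarith) hy0 hyW
        rw [hs] at e6
        have e7 : Real.exp s - 1 ≤ s * (1 + s) := by
          have := Real.abs_exp_sub_one_sub_id_le (x := s) (by rw [abs_of_nonneg hs0.le]; exact hs1)
          have := (abs_le.1 this).2
          nlinarith
        have e8 : y / W * (Real.exp s - 1) ≤ y / W * (s * (1 + s)) :=
          mul_le_mul_of_nonneg_left e7 (by positivity)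
        have e9 : y / W * (s * (1 + s)) = (1 + s) * η * y := by
          rw [← hs]
          field_simp
        linarith
      have e10 : Real.exp (-(η * (G X - y))) = lam X * Real.exp (η * y) := by
        rw [hlam]
        dsimp only
        rw [← Real.exp_add]
        congr 1
        ring
      rw [e10]
      calc lam X * Real.exp (η * y) ≤ lam X * (1 + (1 + s) * η * y) :=
            mul_le_mul_of_nonneg_left e5 (Real.exp_pos _).le
        _ = _ := by ring
    calc gPhi 𝒳 η (fun X => G X - dec a X)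
        ≤ ∑ X ∈ 𝒳, (lam X + (1 + s) * η * (lam X * dec a X)) := Finset.sum_le_sum e1
      _ = P + (1 + s) * η * ∑ X ∈ 𝒳, lam X * dec a X := by
          rw [Finset.sum_add_distrib, Finset.mul_sum]
          rfl
      _ ≤ P + (1 + s) * η * (C * M) := by
          have : (1 + s) * η * ∑ X ∈ 𝒳, lam X * dec a X ≤
              (1 + s) * η * (C * M) := mul_le_mul_of_nonneg_left ha (by positivity)
          linarith
  have hent := g_entropy h (η := η) hN G
  have hent' : M ≤ P * gDep 𝒳 η N G := by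
    unfold gDep
    have : P * ((Real.log N - Real.log (gPhi 𝒳 η G)) / η) =
        (P * (Real.log N - Real.log (gPhi 𝒳 η G))) / η := by ring
    rw [this, le_div_iff₀ hη, mul_comm]
    exact hent
  set φ : ℝ := gDep 𝒳 η N G with hφ
  have hφη : η * φ = Real.log N - Real.log P := by
    rw [hφ, hP]
    unfold gDep
    field_simp
  have hnew2 : gPhi 𝒳 η (fun X => G X - dec a X) ≤ P * (1 + η * ((1 + s) * C * φ)) := by
    have : (1 + s) * η * (C * M) ≤ (1 + s) * η * (C * (P * φ)) := by
      apply mul_le_mul_of_nonneg_left _ (by positivity)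
      exact mul_le_mul_of_nonneg_left hent' hC
    calc gPhi 𝒳 η (fun X => G X - dec a X) ≤ P + (1 + s) * η * (C * (P * φ)) := by linarith
      _ = _ := by ring
  have hlog : Real.log (gPhi 𝒳 η (fun X => G X - dec a X)) ≤
      Real.log P + η * ((1 + s) * C * φ) := by
    have e1 := Real.add_one_le_exp (η * ((1 + s) * C * φ))
    have e2 : gPhi 𝒳 η (fun X => G X - dec a X) ≤ P * Real.exp (η * ((1 + s) * C * φ)) := by
      refine hnew2.trans ?_
      apply mul_le_mul_of_nonneg_left _ hPpos.le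
      linarith
    have e3 := Real.log_le_log (gPhi_pos h η _) e2
    rw [Real.log_mul hPpos.ne' (Real.exp_pos _).ne', Real.log_exp] at e3
    exact e3
  have e4 : gDep 𝒳 η N (fun X => G X - dec a X) * η =
      Real.log N - Real.log (gPhi 𝒳 η (fun X => G X - dec a X)) := by
    unfold gDep
    field_simp
  have e5 : φ * (1 - (1 + s) * C) * η ≤ gDep 𝒳 η N (fun X => G X - dec a X) * η := by
    rw [e4]
    have : φ * (1 - (1 + s) * C) * η = η * φ - η * ((1 + s) * C * φ) := by ring
    rw [this, hφη]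
    linarith
  exact le_of_mul_le_mul_right e5 hη

end PHP
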