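import Mathlib
import Pool.Agent.PHP.WidFrac

/-!
# Tokens of a part, with their positions

At every time the tokens occupy different positions `(i, j)`; hence few tokens miss a deep cell.
-/

set_option linter.unusedSectionVars false

namespace PHP

open Finset

variable {ι : Type} [Fintype ι] [DecidableEq ι]

theorem Sweep.tokens' (W : Sweep ι) {P Q : ι → Bool} (hPQ : ∀ v, P v = true → Q v = false)
    (m : ℕ) : ∃ R : Tok m → Finset ι, (∀ v, P v = true ∨ Q v = true → cnt R v ≤ m) ∧
      ∀ s ≤ W.N, ∃ σ : Tok m → Tok m, Function.Injective σ ∧ ∀ a,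
        (∀ v, P v = true → rk P (W.pos s) v = (σ a).1.1.val → v ∈ R a) ∧
        (∀ v, Q v = true → rk Q (W.neg s) v = (σ a).1.2.val → v ∈ R a) := by
  classical
  have hQP : ∀ v, Q v = true → P v = false := by
    intro v hv
    cases hh : P v
    · rfl
    · have := hPQ v hh
      rw [hv] at this
      exact absurd this (by simp)
  have hnow : ∀ (s : ℕ) (R : Tok m → Finset ι) (σ : Tok m → Tok m),
      TokInv (rkm m P (W.pos s)) (rkm m Q (W.neg s)) R σ →
      ∃ σ : Tok m → Tok m, Function.Injective σ ∧ ∀ a,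
        (∀ v, P v = true → rk P (W.pos s) v = (σ a).1.1.val → v ∈ R a) ∧
        (∀ v, Q v = true → rk Q (W.neg s) v = (σ a).1.2.val → v ∈ R a) := by
    intro s R σ hI
    refine ⟨σ, hI.1, fun a => ⟨fun v hv hr => ?_, fun v hv hr => ?_⟩⟩
    · apply (hI.2 a v).1
      unfold rkm
      rw [if_pos hv, hr]
    · apply (hI.2 a v).2
      unfold rkm
      rw [if_pos hv, hr]
  have key : ∀ s, ∃ (R : Tok m → Finset ι) (σ : Tok m → Tok m),
      TokInv (rkm m P (W.pos s)) (rkm m Q (W.neg s)) R σ ∧
      (∀ s' ≤ s, ∃ σ : Tok m → Tok m, Function.Injective σ ∧ ∀ a,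
        (∀ v, P v = true → rk P (W.pos s') v = (σ a).1.1.val → v ∈ R a) ∧
        (∀ v, Q v = true → rk Q (W.neg s') v = (σ a).1.2.val → v ∈ R a)) ∧
      CntBd m P (W.pos s) (W.pos 0) R ∧ CntBd m Q (W.neg s) (W.neg 0) R := by
    intro s
    induction s with
    | zero =>
      obtain ⟨R, σ, h1, h2, h3⟩ := start_inv' m P Q (W.pos 0) (W.neg 0) hPQ
      refine ⟨R, σ, h1, ?_, ?_, ?_⟩
      · intro s' hs'
        obtain rfl : s' = 0 := by omega
        exact hnow 0 R σ h1
      · intro v hv
        rw [al_self]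
        exact h2 v hv
      · intro v hv
        rw [al_self]
        exact h3 v hv
    | succ s ih =>
      obtain ⟨R, σ, h1, h2, h3, h4⟩ := ih
      rcases W.exch s with ⟨hs, hneg⟩ | ⟨x, y, h0, e1, e2⟩
      · have h1' : TokInv (rkm m P (W.pos (s+1))) (rkm m Q (W.neg (s+1))) R σ := by
          rw [hs, hneg]
          exact h1
        refine ⟨R, σ, h1', ?_, by rw [hs]; exact h3, by rw [hneg]; exact h4⟩
        intro s' hs'
        rcases Nat.lt_or_ge s' (s + 1) with h | h
        · exact h2 s' (by omega)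
        · obtain rfl : s' = s + 1 := by omega
          exact hnow _ R σ h1'
      · have h0' : W.neg 0 y < W.neg 0 x := by rw [W.neg_lt]; exact h0
        obtain ⟨R1, σ1, a1, a2, a3, a4⟩ := exch_first (P := P) e1 h0 h1 h3
        have h4' : CntBd m Q (W.neg s) (W.neg 0) R1 := by
          intro v hv
          rw [a3 v (hQP v hv)]
          exact h4 v hv
        obtain ⟨R2, σ2, b1, b2, b3, b4⟩ := exch_second e2 h0' a1 h4'
        refine ⟨R2, σ2, b1, ?_, ?_, b4⟩
        · intro s' hs'
          rcases Nat.lt_or_ge s' (s + 1) with h | h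
          · obtain ⟨τ, c1, c2⟩ := h2 s' (by omega)
            exact ⟨τ, c1, fun a => ⟨fun v hv hr => b2 a (a2 a ((c2 a).1 v hv hr)),
              fun v hv hr => b2 a (a2 a ((c2 a).2 v hv hr))⟩⟩
          · obtain rfl : s' = s + 1 := by omega
            exact hnow _ R2 σ2 b1
        · intro v hv
          rw [b3 v (hPQ v hv)]
          exact a4 v hv
  obtain ⟨R, σ, h1, h2, h3, h4⟩ := key W.N
  refine ⟨R, ?_, h2⟩
  intro v hv
  rcases hv with hv | hv
  · have := h3 v hv
    omega
  · have := h4 v hv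
    omega

/-- the number of positions above `(A, B)` -/
theorem card_above {m A B : ℕ} : 2 * (univ.filter (fun p : Tok m => A ≤ p.1.1.val ∧
    B ≤ p.1.2.val)).card ≤ (m - A - B) * (m - A - B + 1) := by
  classical
  rw [← card_tok_two (m - A - B), ← Fintype.card_subtype]
  apply Nat.mul_le_mul_left
  let f : {p : Tok m // A ≤ p.1.1.val ∧ B ≤ p.1.2.val} → Tok (m - A - B) := fun p =>
    ⟨(⟨p.1.1.1.val - A, by
        have := p.1.2
        have := p.2.1
        have := p.2.2
        omega⟩, ⟨p.1.1.2.val - B, by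
        have := p.1.2
        have := p.2.1
        have := p.2.2
        omega⟩), by
        have := p.1.2
        have := p.2.1
        have := p.2.2
        simp only
        omega⟩
  apply Fintype.card_le_of_injective f
  intro p q h
  have h1 : (f p).1.1.val = (f q).1.1.val := by rw [h]
  have h2 : (f p).1.2.val = (f q).1.2.val := by rw [h]
  simp only [f] at h1 h2
  have hp := p.2
  have hq := q.2
  apply Subtype.ext
  apply Subtype.ext
  apply Prod.ext
  · apply Fin.ext
    omega
  · apply Fin.ext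
    omega

theorem card_above_inj {m A B : ℕ} {σ : Tok m → Tok m} (hσ : Function.Injective σ) :
    2 * (univ.filter (fun a : Tok m => A ≤ (σ a).1.1.val ∧ B ≤ (σ a).1.2.val)).card ≤
      (m - A - B) * (m - A - B + 1) := by
  classical
  refine le_trans ?_ (card_above (m := m) (A := A) (B := B))
  apply Nat.mul_le_mul_left
  apply card_le_card_of_injOn σ
  · intro a ha
    rw [mem_coe, mem_filter] at ha ⊢
    exact ⟨mem_univ _, ha.2⟩
  · exact fun a _ b _ h => hσ h

/-- the cells of a part: the first `a` U letters and the first `b` D letters of `L` -/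
def Sweep.vcl (W : Sweep ι) (F : ι → Bool) (L : Finset ι) (s a b : ℕ) : Finset ι :=
  univ.filter (fun v => (up F L v = true ∧ rk (up F L) (W.pos s) v < a) ∨
    (lw F L v = true ∧ rk (lw F L) (W.neg s) v < b))

/-- narrow coverings for parts, with few misses -/
theorem Sweep.gfrac (W : Sweep ι) (F : ι → Bool) {L V : Finset ι} (hVL : V ⊆ L) {m1 k M : ℕ}
    (hm1 : 1 ≤ m1) (hk : 1 ≤ k) (hM : m1 + 4 * k ≤ M) {𝒳 : Finset (Finset ι)}
    (h𝒳 : ∀ X ∈ 𝒳, ∃ s ≤ W.N, ∃ a b, a ≤ M ∧ b ≤ M ∧ X = W.vcl F L s a b) :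
    ∃ H : Tok m1 → Finset ι, (∀ a, H a ⊆ V) ∧
      (∀ a, ∀ X ∈ 𝒳, m1 + 8 * k ≤ (X ∩ V).card → (H a ∩ X).Nonempty) ∧
      (∀ a, ∀ X ∈ 𝒳, ((H a ∩ X).card : ℝ) ≤ 20 * ((M : ℝ) / k) ^ 3) ∧
      (∀ X ∈ 𝒳, ∑ a, (H a ∩ X).card ≤ m1 * (X ∩ V).card) ∧
      ∀ X ∈ 𝒳, 2 * (univ.filter (fun a => H a ∩ X = ∅)).card ≤
        (m1 + 8 * k - (X ∩ V).card) * (m1 + 8 * k - (X ∩ V).card + 1) := by
  classical
  set P := up F V with hPd
  set Q := lw F V with hQd
  have hPQ : ∀ v, P v = true → Q v = false := by
    intro v hv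
    rw [hPd, up_iff] at hv
    rw [← Bool.not_eq_true, hQd, lw_iff]
    rintro ⟨h1, -⟩
    rw [hv.1] at h1
    exact absurd h1 (by simp)
  have hkM : k ≤ M := by omega
  obtain ⟨R, hRc, hR⟩ := W.tokens' hPQ m1
  have oP := W.ords_pos P
  have oQ := W.ords_neg Q
  have hU := fun a => oP.prune (H := (R a).filter (fun v => P v = true))
    (fun x hx => (mem_filter.1 hx).2) W.N hk hkM
  have hD := fun a => oQ.prune (H := (R a).filter (fun v => Q v = true))
    (fun x hx => (mem_filter.1 hx).2) W.N hk hkM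
  choose WU hU1 hU2 hU3 using hU
  choose WD hD1 hD2 hD3 using hD
  have hWU : ∀ a, ∀ v ∈ WU a, v ∈ R a ∧ P v = true := fun a v hv => mem_filter.1 (hU1 a hv)
  have hWD : ∀ a, ∀ v ∈ WD a, v ∈ R a ∧ Q v = true := fun a v hv => mem_filter.1 (hD1 a hv)
  have hPF : ∀ v, P v = true → up F L v = true := by
    intro v hv
    rw [hPd, up_iff] at hv
    rw [up_iff]
    exact ⟨hv.1, hVL hv.2⟩
  have hQF : ∀ v, Q v = true → lw F L v = true := by
    intro v hv
    rw [hQd, lw_iff] at hv
    rw [lw_iff]
    exact ⟨hv.1, hVL hv.2⟩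
  have hkR : (0 : ℝ) < k := by exact_mod_cast hk
  have hsub : ∀ a, WU a ∪ WD a ⊆ V := by
    intro a v hv
    rw [mem_union] at hv
    rcases hv with hv | hv
    · have := (hWU a v hv).2
      rw [hPd, up_iff] at this
      exact this.2
    · have := (hWD a v hv).2
      rw [hQd, lw_iff] at this
      exact this.2
  -- the position of the tokens decides whether a set is hit
  have hhit : ∀ s ≤ W.N, ∀ a0 b0, ∀ σ : Tok m1 → Tok m1, (∀ a,
        (∀ v, P v = true → rk P (W.pos s) v = (σ a).1.1.val → v ∈ R a) ∧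
        (∀ v, Q v = true → rk Q (W.neg s) v = (σ a).1.2.val → v ∈ R a)) → ∀ a,
      ((σ a).1.1.val + 4 * k < (univ.filter (fun u => P u = true ∧
          rk (up F L) (W.pos s) u < a0)).card ∨
        (σ a).1.2.val + 4 * k < (univ.filter (fun u => Q u = true ∧
          rk (lw F L) (W.neg s) u < b0)).card) →
      ((WU a ∪ WD a) ∩ W.vcl F L s a0 b0).Nonempty := by
    intro s hs a0 b0 σ hσ a hc
    set A := (univ.filter (fun u => P u = true ∧ rk (up F L) (W.pos s) u < a0)) with hA
    set B := (univ.filter (fun u => Q u = true ∧ rk (lw F L) (W.neg s) u < b0)) with hB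
    have hij := (σ a).2
    rcases hc with hc | hc
    · obtain ⟨u, hu1, -, hu3⟩ := exists_rank (P := P) (W.inj s) (p := Fintype.card ι)
        (i := (σ a).1.1.val) (by
        refine lt_of_lt_of_le (show (σ a).1.1.val < A.card by omega) (card_le_card ?_)
        intro u hu
        rw [hA, mem_filter] at hu
        rw [mem_filter]
        exact ⟨mem_univ _, hu.2.1, W.lt s u⟩)
      obtain ⟨w, hw1, hw2⟩ := hU2 a s hs u (by
        rw [mem_filter]
        exact ⟨(hσ a).1 u hu1 hu3, hu1⟩) (by omega)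
      refine ⟨w, ?_⟩
      have hwP := (hWU a w hw1).2
      rw [mem_inter, mem_union]
      refine ⟨Or.inl hw1, ?_⟩
      unfold Sweep.vcl
      rw [mem_filter]
      refine ⟨mem_univ _, Or.inl ⟨hPF w hwP, ?_⟩⟩
      rw [seg_iff hPF (W.inj s) hwP, ← hA]
      omega
    · obtain ⟨u, hu1, -, hu3⟩ := exists_rank (P := Q) (W.neg_inj s) (p := Fintype.card ι)
        (i := (σ a).1.2.val) (by
        refine lt_of_lt_of_le (show (σ a).1.2.val < B.card by omega) (card_le_card ?_)
        intro u hu
        rw [hB, mem_filter] at hu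
        rw [mem_filter]
        refine ⟨mem_univ _, hu.2.1, ?_⟩
        have := W.lt s u
        unfold Sweep.neg
        omega)
      obtain ⟨w, hw1, hw2⟩ := hD2 a s hs u (by
        rw [mem_filter]
        exact ⟨(hσ a).2 u hu1 hu3, hu1⟩) (by omega)
      refine ⟨w, ?_⟩
      have hwP := (hWD a w hw1).2
      rw [mem_inter, mem_union]
      refine ⟨Or.inr hw1, ?_⟩
      unfold Sweep.vcl
      rw [mem_filter]
      refine ⟨mem_univ _, Or.inr ⟨hQF w hwP, ?_⟩⟩
      rw [seg_iff hQF (W.neg_inj s) hwP, ← hB]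
      omega
  have hsum : ∀ s a0 b0, (W.vcl F L s a0 b0 ∩ V).card ≤
      (univ.filter (fun u => P u = true ∧ rk (up F L) (W.pos s) u < a0)).card +
      (univ.filter (fun u => Q u = true ∧ rk (lw F L) (W.neg s) u < b0)).card := by
    intro s a0 b0
    refine (card_le_card ?_).trans (card_union_le _ _)
    intro v hv
    unfold Sweep.vcl at hv
    rw [mem_inter, mem_filter] at hv
    rw [mem_union, mem_filter, mem_filter]
    obtain ⟨⟨-, h1 | h1⟩, h2⟩ := hv
    · left
      refine ⟨mem_univ _, ?_, h1.2⟩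
      rw [hPd, up_iff]
      exact ⟨(up_iff.1 h1.1).1, h2⟩
    · right
      refine ⟨mem_univ _, ?_, h1.2⟩
      rw [hQd, lw_iff]
      exact ⟨(lw_iff.1 h1.1).1, h2⟩
  refine ⟨fun a => WU a ∪ WD a, hsub, ?_, ?_, ?_, ?_⟩
  · -- deep sets are hit
    intro a X hX hXm
    obtain ⟨s, hs, a0, b0, -, -, rfl⟩ := h𝒳 X hX
    obtain ⟨σ, -, hσ⟩ := hR s hs
    apply hhit s hs a0 b0 σ hσ a
    have h1 := hsum s a0 b0
    have h2 := (σ a).2
    omega
  · -- the width
    intro a X hX
    obtain ⟨s, hs, a0, b0, ha0, hb0, rfl⟩ := h𝒳 X hX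
    have hsub' : (WU a ∪ WD a) ∩ W.vcl F L s a0 b0 ⊆
        (WU a).filter (fun w => rk P (W.pos s) w < M) ∪
        (WD a).filter (fun w => rk Q (W.neg s) w < M) := by
      intro w hw
      rw [mem_inter, mem_union] at hw
      unfold Sweep.vcl at hw
      rw [mem_filter] at hw
      rw [mem_union, mem_filter, mem_filter]
      obtain ⟨hw1 | hw1, -, hw2⟩ := hw
      · left
        have hwP := (hWU a w hw1).2
        refine ⟨hw1, ?_⟩
        have h3 : rk (up F L) (W.pos s) w < a0 := by
          rcases hw2 with h | h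
          · exact h.2
          · have h4 := (up_iff.1 (hPF w hwP)).1
            have h5 := (lw_iff.1 h.1).1
            rw [h4] at h5
            exact absurd h5 (by simp)
        rw [seg_iff hPF (W.inj s) hwP] at h3
        have := seg_card hPF (W.inj s) a0
        omega
      · right
        have hwP := (hWD a w hw1).2
        refine ⟨hw1, ?_⟩
        have h3 : rk (lw F L) (W.neg s) w < b0 := by
          rcases hw2 with h | h
          · have h4 := (lw_iff.1 (hQF w hwP)).1
            have h5 := (up_iff.1 h.1).1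
            rw [h4] at h5
            exact absurd h5 (by simp)
          · exact h.2
        rw [seg_iff hQF (W.neg_inj s) hwP] at h3
        have := seg_card hQF (W.neg_inj s) b0
        omega
    have h1 : (((WU a ∪ WD a) ∩ W.vcl F L s a0 b0).card : ℝ) ≤
        ((WU a).filter (fun w => rk P (W.pos s) w < M)).card +
        ((WD a).filter (fun w => rk Q (W.neg s) w < M)).card := by
      exact_mod_cast (card_le_card hsub').trans (card_union_le _ _)
    have h2 : (((WU a).filter (fun w => rk P (W.pos s) w < M)).card : ℝ) ≤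
        10 * ((M : ℝ) / k) ^ 3 := by
      have := hU3 a s hs
      have h3 : (k : ℝ) ^ 3 * ((WU a).filter (fun w => rk P (W.pos s) w < M)).card ≤
          10 * (M : ℝ) ^ 3 := by exact_mod_cast this
      rw [div_pow, ← mul_div_assoc, le_div_iff₀ (by positivity)]
      linarith
    have h4 : (((WD a).filter (fun w => rk Q (W.neg s) w < M)).card : ℝ) ≤
        10 * ((M : ℝ) / k) ^ 3 := by
      have := hD3 a s hs
      have h3 : (k : ℝ) ^ 3 * ((WD a).filter (fun w => rk Q (W.neg s) w < M)).card ≤
          10 * (M : ℝ) ^ 3 := by exact_mod_cast this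
      rw [div_pow, ← mul_div_assoc, le_div_iff₀ (by positivity)]
      linarith
    linarith
  · -- the usage
    intro X _
    have e1 : ∀ a, ((WU a ∪ WD a) ∩ X).card = ∑ v ∈ X ∩ V, if v ∈ WU a ∪ WD a then 1 else 0 := by
      intro a
      have e3 : (WU a ∪ WD a) ∩ X = (X ∩ V).filter (fun v => v ∈ WU a ∪ WD a) := by
        ext v
        rw [mem_inter, mem_filter, mem_inter]
        constructor
        · rintro ⟨e4, e5⟩
          exact ⟨⟨e5, hsub a e4⟩, e4⟩
        · rintro ⟨⟨e4, e5⟩, e6⟩
          exact ⟨e6, e4⟩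
      rw [e3, card_filter]
    calc ∑ a, ((WU a ∪ WD a) ∩ X).card
        = ∑ v ∈ X ∩ V, ∑ a, (if v ∈ WU a ∪ WD a then 1 else 0) := by
          rw [sum_congr rfl (fun a _ => e1 a), sum_comm]
      _ ≤ ∑ v ∈ X ∩ V, m1 := by
          apply sum_le_sum
          intro v hv
          rw [← card_filter]
          rw [mem_inter] at hv
          have hv' : P v = true ∨ Q v = true := by
            rw [hPd, hQd, up_iff, lw_iff]
            cases hF : F v
            · exact Or.inl ⟨rfl, hv.2⟩
            · exact Or.inr ⟨rfl, hv.2⟩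
          refine le_trans (card_le_card ?_) (hRc v hv')
          intro a ha
          rw [mem_filter, mem_union] at ha
          rw [mem_filter]
          refine ⟨mem_univ _, ?_⟩
          rcases ha.2 with h | h
          · exact (hWU a v h).1
          · exact (hWD a v h).1
      _ = m1 * (X ∩ V).card := by rw [sum_const, smul_eq_mul, Nat.mul_comm]
  · -- the misses
    intro X hX
    obtain ⟨s, hs, a0, b0, -, -, rfl⟩ := h𝒳 X hX
    obtain ⟨σ, hσi, hσ⟩ := hR s hs
    have h1 := hsum s a0 b0
    set A := (univ.filter (fun u => P u = true ∧ rk (up F L) (W.pos s) u < a0)) with hA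
    set B := (univ.filter (fun u => Q u = true ∧ rk (lw F L) (W.neg s) u < b0)) with hB
    have h2 := card_above_inj (A := A.card - 4 * k) (B := B.card - 4 * k) hσi
    have h3 : (univ.filter (fun a => (WU a ∪ WD a) ∩ W.vcl F L s a0 b0 = ∅)).card ≤
        (univ.filter (fun a : Tok m1 => A.card - 4 * k ≤ (σ a).1.1.val ∧
          B.card - 4 * k ≤ (σ a).1.2.val)).card := by
      apply card_le_card
      intro a ha
      rw [mem_filter] at ha ⊢
      refine ⟨mem_univ _, ?_⟩
      by_contra hcon
      have h4 := hhit s hs a0 b0 σ hσ a (by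
        rw [← hA, ← hB]
        omega)
      rw [ha.2] at h4
      exact absurd h4 (by simp)
    have h5 : m1 - (A.card - 4 * k) - (B.card - 4 * k) ≤
        m1 + 8 * k - (W.vcl F L s a0 b0 ∩ V).card := by omega
    calc 2 * (univ.filter (fun a => (WU a ∪ WD a) ∩ W.vcl F L s a0 b0 = ∅)).card
        ≤ (m1 - (A.card - 4 * k) - (B.card - 4 * k)) *
          (m1 - (A.card - 4 * k) - (B.card - 4 * k) + 1) := by omega
      _ ≤ _ := Nat.mul_le_mul h5 (by omega)

end PHP
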