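import Mathlib
import Pool.Agent.PHP.ClosHull
import Pool.Agent.PHP.ClosTok
import Pool.Agent.PHP.AsymCount

/-!
# Traces of cells on a set of letters
-/

set_option linter.unusedSectionVars false

namespace PHP

open Finset

variable {ι : Type} [Fintype ι] [DecidableEq ι]

/-- the number of traces on `L` -/
theorem Sweep.card_trace (W : Sweep ι) (F : ι → Bool) (L : Finset ι) (A : Finset (Finset ι))
    (hA : ∀ T ∈ A, ∃ X, W.Cel F X ∧ T = X ∩ L) : A.card ≤ (L.card + 1) ^ 2 := by
  classical
  have hsub : A.shatterer ⊆ (range 3).biUnion (fun d => powersetCard d L) := by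
    intro s hs
    rw [mem_shatterer] at hs
    have hsL : s ⊆ L := by
      obtain ⟨u, hu, hu2⟩ := hs (Subset.refl s)
      obtain ⟨X, -, rfl⟩ := hA u hu
      intro v hv
      rw [← hu2, mem_inter, mem_inter] at hv
      exact hv.2.2
    have hcard : s.card < 3 := by
      by_contra hcon
      obtain ⟨t, ht1, ht2⟩ := Finset.exists_subset_card_eq (s := s) (n := 3) (by omega)
      have hsh := hs.mono_right ht1
      obtain ⟨i, j, k, hij, hik, hjk, rfl⟩ := card_eq_three.1 ht2
      obtain ⟨p, q, r, hpqr⟩ := W.triple F hij hjk hik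
      obtain ⟨u, hu, hu2⟩ := hsh (t := ({i, j, k} : Finset ι).filter
        (fun x => (x = i ∧ p = true) ∨ (x = j ∧ q = true) ∨ (x = k ∧ r = true)))
        (filter_subset _ _)
      obtain ⟨X, hX, rfl⟩ := hA u hu
      have key : ∀ x ∈ ({i, j, k} : Finset ι), (x ∈ X ↔
          ((x = i ∧ p = true) ∨ (x = j ∧ q = true) ∨ (x = k ∧ r = true))) := by
        intro x hx
        have h1 : x ∈ ({i, j, k} : Finset ι) ∩ (X ∩ L) ↔ x ∈ ({i, j, k} : Finset ι).filter
            (fun x => (x = i ∧ p = true) ∨ (x = j ∧ q = true) ∨ (x = k ∧ r = true)) := by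
          rw [hu2]
        rw [mem_inter, mem_inter, mem_filter] at h1
        have h2 : x ∈ L := hsL (ht1 hx)
        tauto
      apply hpqr _ hX
      have e1 := key i (by simp)
      have e2 := key j (by simp)
      have e3 := key k (by simp)
      refine ⟨?_, ?_, ?_⟩
      · cases hp : p
        · rw [decide_eq_false_iff_not, e1]
          rintro (h | h | h)
          · rw [hp] at h; exact absurd h.2 (by simp)
          · exact hij h.1
          · exact hik h.1
        · rw [decide_eq_true_iff, e1]
          exact Or.inl ⟨rfl, hp⟩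
      · cases hq : q
        · rw [decide_eq_false_iff_not, e2]
          rintro (h | h | h)
          · exact hij h.1.symm
          · rw [hq] at h; exact absurd h.2 (by simp)
          · exact hjk h.1
        · rw [decide_eq_true_iff, e2]
          exact Or.inr (Or.inl ⟨rfl, hq⟩)
      · cases hr : r
        · rw [decide_eq_false_iff_not, e3]
          rintro (h | h | h)
          · exact hik h.1.symm
          · exact hjk h.1.symm
          · rw [hr] at h; exact absurd h.2 (by simp)
        · rw [decide_eq_true_iff, e3]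
          exact Or.inr (Or.inr ⟨rfl, hr⟩)
    rw [mem_biUnion]
    exact ⟨s.card, by rw [mem_range]; exact hcard, by rw [mem_powersetCard]; exact ⟨hsL, rfl⟩⟩
  calc A.card ≤ A.shatterer.card := card_le_card_shatterer A
    _ ≤ ((range 3).biUnion (fun d => powersetCard d L)).card := card_le_card hsub
    _ ≤ ∑ d ∈ range 3, (powersetCard d L).card := card_biUnion_le
    _ = ∑ d ∈ range 3, L.card.choose d := by
        apply sum_congr rfl
        intro d _
        rw [card_powersetCard]
    _ ≤ (L.card + 1) ^ 2 := by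
        have h4 : L.card.choose 2 ≤ L.card ^ 2 := Nat.choose_le_pow _ 2
        rw [sum_range_succ, sum_range_succ, sum_range_succ, sum_range_zero,
          Nat.choose_zero_right, Nat.choose_one_right]
        nlinarith

theorem lt_iff_rk {P : ι → Bool} {g : ι → ℕ} (hg : Function.Injective g) {p : ℕ} {v : ι}
    (hv : P v = true) :
    g v < p ↔ rk P g v < (univ.filter (fun u => P u = true ∧ g u < p)).card := by
  constructor
  · intro h
    exact top_small _ p le_rfl hv h
  · intro h
    exact lt_of_rk_lt le_rfl h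

/-- the part of a cell in `L` is given by initial segments -/
theorem Sweep.exists_vcl (W : Sweep ι) (F : ι → Bool) (L : Finset ι) {X : Finset ι}
    (hX : W.Cel F X) : ∃ s ≤ W.N, ∃ a b, a + b = (X ∩ L).card ∧ X ∩ L = W.vcl F L s a b ∧
      ∀ a' ≤ a, ∀ b' ≤ b, (W.vcl F L s a' b').card = a' + b' ∧ W.vcl F L s a' b' ⊆ X ∩ L := by
  classical
  obtain ⟨s, p, hs, hXs⟩ : ∃ s p, s ≤ W.N ∧ (fun i => decide (i ∈ X)) = W.cell F s p := by
    obtain ⟨s, p, h⟩ := hX
    rcases le_total s W.N with hs | hs
    · exact ⟨s, p, hs, h⟩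
    · obtain ⟨t, rfl⟩ := Nat.exists_eq_add_of_le hs
      refine ⟨W.N, p, le_rfl, ?_⟩
      rw [h]
      funext i
      unfold Sweep.cell
      rw [TripleAff_late W t]
  have hmem : ∀ v, v ∈ X ↔ xor (F v) (decide (W.pos s v < p)) = true := by
    intro v
    have := congrFun hXs v
    unfold Sweep.cell at this
    rw [← this]
    simp
  set A := univ.filter (fun u => up F L u = true ∧ W.pos s u < p) with hA
  set B := univ.filter (fun u => lw F L u = true ∧ W.neg s u < Fintype.card ι - p) with hB
  have hneg : ∀ v, (W.neg s v < Fintype.card ι - p ↔ ¬ W.pos s v < p) := by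
    intro v
    unfold Sweep.neg
    have := W.lt s v
    omega
  have hAB : X ∩ L = A ∪ B := by
    ext v
    rw [mem_inter, hmem, mem_union, hA, hB, mem_filter, mem_filter, up_iff, lw_iff, hneg]
    cases hF : F v
    · simp
      tauto
    · simp
      tauto
  have hdisj : ∀ (a b : ι → Prop) [DecidablePred a] [DecidablePred b],
      Disjoint (univ.filter (fun u => up F L u = true ∧ a u))
        (univ.filter (fun u => lw F L u = true ∧ b u)) := by
    intro a b _ _
    rw [disjoint_left]
    intro v h1 h2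
    rw [mem_filter, up_iff] at h1
    rw [mem_filter, lw_iff] at h2
    have h3 := h1.2.1.1
    rw [h2.2.1.1] at h3
    exact absurd h3 (by simp)
  have hcard : ∀ a' ≤ A.card, ∀ b' ≤ B.card, (W.vcl F L s a' b').card = a' + b' := by
    intro a' ha' b' hb'
    have h1 := card_seg (P := up F L) (W.inj s) (p := p) ha'
    have h2 := card_seg (P := lw F L) (W.neg_inj s) (p := Fintype.card ι - p) hb'
    have h3 : W.vcl F L s a' b' = univ.filter (fun v => up F L v = true ∧
        rk (up F L) (W.pos s) v < a') ∪
        univ.filter (fun v => lw F L v = true ∧ rk (lw F L) (W.neg s) v < b') := by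
      ext v
      unfold Sweep.vcl
      simp only [mem_filter, mem_univ, true_and, mem_union]
    rw [h3, card_union_of_disjoint (hdisj _ _), h1, h2]
  have heq : X ∩ L = W.vcl F L s A.card B.card := by
    rw [hAB]
    ext v
    unfold Sweep.vcl
    rw [mem_union, hA, hB, mem_filter, mem_filter, mem_filter]
    constructor
    · rintro (⟨-, h1, h2⟩ | ⟨-, h1, h2⟩)
      · exact ⟨mem_univ _, Or.inl ⟨h1, (lt_iff_rk (W.inj s) h1).1 h2⟩⟩
      · exact ⟨mem_univ _, Or.inr ⟨h1, (lt_iff_rk (W.neg_inj s) h1).1 h2⟩⟩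
    · rintro ⟨-, ⟨h1, h2⟩ | ⟨h1, h2⟩⟩
      · exact Or.inl ⟨mem_univ _, h1, (lt_iff_rk (W.inj s) h1).2 h2⟩
      · exact Or.inr ⟨mem_univ _, h1, (lt_iff_rk (W.neg_inj s) h1).2 h2⟩
  refine ⟨s, hs, A.card, B.card, ?_, heq, fun a' ha' b' hb' => ⟨hcard a' ha' b' hb', ?_⟩⟩
  · rw [heq, hcard _ le_rfl _ le_rfl]
  · rw [heq]
    intro v hv
    unfold Sweep.vcl at hv ⊢
    rw [mem_filter] at hv ⊢
    rcases hv.2 with h | h
    · exact ⟨mem_univ _, Or.inl ⟨h.1, by omega⟩⟩
    · exact ⟨mem_univ _, Or.inr ⟨h.1, by omega⟩⟩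

end PHP
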