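import Mathlib
import Pool.Agent.PHP.ClosTrace
import Pool.Agent.PHP.ClosMwu

/-!
# One colour

State at a level: `V` are the remaining letters, `G T` is a guarantee for the number of remaining
letters of all cells of size `m` with the trace `T` on `L = V0 ∩ S`.
-/

set_option linter.unusedSectionVars false

namespace PHP

open Finset

variable {ι : Type} [Fintype ι] [DecidableEq ι]

/-- the cell has few letters in the windows `S1 \ S` and `S2 \ S1` -/
def GoodC (S S1 S2 V0 : Finset ι) (t : ℕ) (X : Finset ι) : Prop :=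
  (X ∩ (S1 \ S) ∩ V0).card < t ∧ (X ∩ (S2 \ S1) ∩ V0).card < t

/-- the state at a level -/
structure LevSt (W : Sweep ι) (F : ι → Bool) (m μ : ℕ) (L V0 V : Finset ι)
    (𝒳 𝒳2 : Finset (Finset ι)) (G : Finset ι → ℝ) : Prop where
  sub : V ⊆ V0
  le : ∀ T ∈ 𝒳, ((T ∩ V).card : ℝ) ≤ G T
  one : ∀ X, W.Cel F X → X.card = m → (X ∩ L).card < μ → G (X ∩ L) ≤ (X ∩ V).card
  two : ∀ T ∈ 𝒳2, G T = (T ∩ V).card

/-- the index family of a level -/
structure LevFam (W : Sweep ι) (F : ι → Bool) (m μ M : ℕ) (L : Finset ι)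
    (𝒳 𝒳2 : Finset (Finset ι)) : Prop where
  vcl : ∀ T ∈ 𝒳, ∃ s ≤ W.N, ∃ a b, a ≤ M ∧ b ≤ M ∧ T = W.vcl F L s a b
  sub2 : 𝒳2 ⊆ 𝒳
  subL : ∀ T ∈ 𝒳2, T ⊆ L
  one : ∀ X, W.Cel F X → X.card = m → (X ∩ L).card < μ → X ∩ L ∈ 𝒳
  deep : ∀ X, W.Cel F X → μ ≤ (X ∩ L).card → ∃ T ∈ 𝒳2, T ⊆ X ∩ L
  rng : ∀ T ∈ 𝒳, (∃ X, W.Cel F X ∧ X.card = m ∧ (X ∩ L).card < μ ∧ T = X ∩ L) ∨
    (T ∈ 𝒳2 ∧ T.card ≤ m)

theorem lev_avg {m1 k t d c m' : ℕ} {q G : ℝ} (hm' : m1 + 2 * t + 8 * k = m') (hm1 : 1 ≤ m1)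
    (hq : 0 < q) (hq2 : q * (m' : ℝ) ^ 2 ≤ (m1 : ℝ) ^ 2) (hG : (m' : ℝ) ≤ G) (hdG : (d : ℝ) ≤ G)
    (hc : 2 * c = m1 * (m1 + 1)) :
    (m1 : ℝ) * d + ((m1 + 8 * k - d : ℕ) : ℝ) * (((m1 + 8 * k - d : ℕ) : ℝ) + 1) ≤
      c * (2 / (q * m') * G) := by
  have hm1' : (1 : ℝ) ≤ m1 := by exact_mod_cast hm1
  have hmm : (m1 : ℝ) ≤ m' := by
    have : m1 ≤ m' := by omega
    exact_mod_cast this
  have hm0 : (0 : ℝ) < m' := by linarith
  have hc' : (c : ℝ) * 2 = m1 * (m1 + 1) := by
    have : c * 2 = m1 * (m1 + 1) := by rw [← hc]; ring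
    exact_mod_cast this
  have e1 : (c : ℝ) * (2 / (q * m') * G) = m1 * (m1 + 1) * G / (q * m') := by
    rw [← hc']
    field_simp
  rw [e1, le_div_iff₀ (by positivity)]
  have hqm : q * m' ≤ m1 := by
    have e2 : q * m' * m' ≤ m1 * m' := by nlinarith
    exact le_of_mul_le_mul_right e2 hm0
  have hd0 : (0 : ℝ) ≤ d := by positivity
  rcases Nat.lt_or_ge d (m1 + 8 * k) with h | h
  · have h1 : ((m1 + 8 * k - d : ℕ) : ℝ) = m1 + 8 * k - d := by
      rw [Nat.cast_sub h.le]
      push_cast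
      ring
    rw [h1]
    set A : ℝ := m1 + 8 * k with hA
    have hdA : (d : ℝ) ≤ A := by
      have : (d : ℝ) ≤ ((m1 + 8 * k : ℕ) : ℝ) := by exact_mod_cast h.le
      rw [hA]
      push_cast at this
      exact this
    have hAm : A ≤ m' := by
      have : ((m1 + 8 * k : ℕ) : ℝ) ≤ m' := by
        have : m1 + 8 * k ≤ m' := by omega
        exact_mod_cast this
      rw [hA]
      push_cast at this
      exact this
    have hm1A : (m1 : ℝ) ≤ A := by
      rw [hA]
      have : (0 : ℝ) ≤ 8 * (k : ℝ) := by positivity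
      linarith
    have e2 : (m1 : ℝ) * d + (A - d) * (A - d + 1) ≤ A * (A + 1) := by nlinarith
    have e3 : A * (A + 1) * q ≤ m1 * (m1 + 1) := by
      have e4 : A * A * q ≤ m1 ^ 2 := by
        have : A * A * q ≤ m' * m' * q := by
          apply mul_le_mul_of_nonneg_right _ hq.le
          nlinarith
        nlinarith
      have e5 : A * q ≤ m1 := by
        have : A * q ≤ m' * q := mul_le_mul_of_nonneg_right hAm hq.le
        linarith
      nlinarith
    have hA0 : 0 ≤ A := by linarith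
    calc ((m1 : ℝ) * d + (A - d) * (A - d + 1)) * (q * m')
        ≤ (A * (A + 1)) * (q * m') := mul_le_mul_of_nonneg_right e2 (by positivity)
      _ = (A * (A + 1) * q) * m' := by ring
      _ ≤ (m1 * (m1 + 1)) * m' := mul_le_mul_of_nonneg_right e3 hm0.le
      _ ≤ m1 * (m1 + 1) * G := mul_le_mul_of_nonneg_left hG (by positivity)
  · have h1 : m1 + 8 * k - d = 0 := by omega
    rw [h1]
    have hG0 : 0 ≤ G := hm0.le.trans hG
    calc ((m1 : ℝ) * d + ((0 : ℕ) : ℝ) * (((0 : ℕ) : ℝ) + 1)) * (q * m')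
        = (m1 : ℝ) * d * (q * m') := by push_cast; ring
      _ ≤ (m1 : ℝ) * G * m1 := by
          apply mul_le_mul _ hqm (by positivity) (by positivity)
          exact mul_le_mul_of_nonneg_left hdG (by positivity)
      _ ≤ m1 * (m1 + 1) * G := by nlinarith

/-- one colour -/
theorem Sweep.lev_step (W : Sweep ι) (F : ι → Bool) {O S S1 S2 V0 : Finset ι} {m : ℕ}
    (hO : W.Cel F O) (hOS : O ⊆ S) (hS1 : S1 = W.clo F (2 * m) S)
    (hS2 : S2 = W.clo F (2 * m) S1) {μ M : ℕ} {𝒳 𝒳2 : Finset (Finset ι)}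
    (hfam : LevFam W F m μ M (V0 ∩ S) 𝒳 𝒳2) (hne : 𝒳.Nonempty) {V : Finset ι}
    {G : Finset ι → ℝ} (hst : LevSt W F m μ (V0 ∩ S) V0 V 𝒳 𝒳2 G)
    {m' m1 t k : ℕ} (hm' : m1 + 2 * t + 8 * k = m') (hm1 : 1 ≤ m1) (ht : 1 ≤ t) (hk : 1 ≤ k)
    (hM : m1 + 4 * k ≤ M) {q : ℝ} (hq : 0 < q) (hq2 : q * (m' : ℝ) ^ 2 ≤ (m1 : ℝ) ^ 2)
    (hG : ∀ T ∈ 𝒳, (m' : ℝ) ≤ G T) {η N Wd s : ℝ} (hη : 0 < η) (hN : (𝒳.card : ℝ) ≤ N)
    (hW2 : 2 ≤ Wd) (hWd : 20 * ((M : ℝ) / k) ^ 3 ≤ Wd) (hs : η * Wd = s) (hs1 : s ≤ 1) :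
    ∃ H ⊆ V, (∀ X, W.Cel F X → X.card = m → GoodC S S1 S2 V0 t X → (X ∩ H).Nonempty) ∧
      (∀ T ∈ 𝒳2, (T ∩ H).Nonempty) ∧
      ∃ G', LevSt W F m μ (V0 ∩ S) V0 (V \ H) 𝒳 𝒳2 G' ∧
        gDep 𝒳 η N G * (1 - (1 + s) * (2 / (q * m'))) ≤ gDep 𝒳 η N G' := by
  classical
  set L := V0 ∩ S with hL
  have hLS : L ⊆ S := inter_subset_right
  have hSS1 : S ⊆ S1 := by
    rw [hS1]
    exact W.subset_clo F _ S
  obtain ⟨H, hH1, hH2, hH3, hH4, hH5⟩ := W.gfrac F (L := L) (V := V ∩ L) inter_subset_right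
    hm1 hk hM hfam.vcl
  have hTL : ∀ T ∈ 𝒳, T ∩ (V ∩ L) = T ∩ V := by
    intro T hT
    obtain ⟨s0, -, a, b, -, -, rfl⟩ := hfam.vcl T hT
    ext v
    simp only [mem_inter]
    constructor
    · rintro ⟨h1, h2, -⟩
      exact ⟨h1, h2⟩
    · rintro ⟨h1, h2⟩
      refine ⟨h1, h2, ?_⟩
      unfold Sweep.vcl at h1
      rw [mem_filter, up_iff, lw_iff] at h1
      rcases h1.2 with h3 | h3
      · exact h3.1.2
      · exact h3.1.2
  have hcardTok := card_tok_two m1
  have hm1' : (1 : ℝ) ≤ m1 := by exact_mod_cast hm1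
  have hmm : (m1 : ℝ) ≤ m' := by
    have : m1 ≤ m' := by omega
    exact_mod_cast this
  have hm0 : (0 : ℝ) < m' := by linarith
  have htok : 0 < Fintype.card (Tok m1) := by
    by_contra hcon
    have h0 : Fintype.card (Tok m1) = 0 := by omega
    rw [h0] at hcardTok
    have : 0 < m1 * (m1 + 1) := by positivity
    omega
  -- the drop
  let dec : Tok m1 → Finset ι → ℝ := fun a T => ((H a ∩ T).card : ℝ) +
    (if H a ∩ T = ∅ then 2 else 0)
  obtain ⟨a, ha⟩ := g_step (κ := Finset ι) hne hη hN (W := Wd) (by linarith) hs hs1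
    (C := 2 / (q * m')) (by positivity) htok (G := G) dec
    (fun a T _ => by
      simp only [dec]
      split_ifs <;> positivity)
    (fun a T hT => by
      simp only [dec]
      split_ifs with h
      · rw [h]
        simp only [card_empty, Nat.cast_zero, zero_add]
        exact hW2
      · rw [add_zero]
        exact (hH3 a T hT).trans hWd)
    (fun T hT => by
      have h1 : ∑ a, dec a T = ((∑ a, (H a ∩ T).card : ℕ) : ℝ) +
          2 * ((univ.filter (fun a => H a ∩ T = ∅)).card : ℝ) := by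
        simp only [dec]
        rw [sum_add_distrib]
        congr 1
        · push_cast
          rfl
        · rw [sum_ite, sum_const, sum_const_zero, add_zero, nsmul_eq_mul]
          ring
      rw [h1]
      have h2 := hH4 T hT
      have h3 := hH5 T hT
      rw [hTL T hT] at h2 h3
      have h2' : ((∑ a, (H a ∩ T).card : ℕ) : ℝ) ≤ m1 * (T ∩ V).card := by exact_mod_cast h2
      have h3' : 2 * ((univ.filter (fun a => H a ∩ T = ∅)).card : ℝ) ≤
          ((m1 + 8 * k - (T ∩ V).card : ℕ) : ℝ) *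
            (((m1 + 8 * k - (T ∩ V).card : ℕ) : ℝ) + 1) := by
        exact_mod_cast h3
      have h4 := lev_avg (c := Fintype.card (Tok m1)) hm' hm1 hq hq2 (hG T hT) (hst.le T hT)
        hcardTok
      linarith)
  set K := H a with hK
  have hKV : K ⊆ V := (hH1 a).trans inter_subset_left
  have hKL : K ⊆ L := (hH1 a).trans inter_subset_right
  -- `K` misses only shallow traces
  have hmiss : ∀ T ∈ 𝒳, K ∩ T = ∅ → (T ∩ V).card < m1 + 8 * k := by
    intro T hT h
    by_contra hcon
    rw [not_lt] at hcon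
    have := hH2 a T hT (by rw [hTL T hT]; exact hcon)
    rw [← hK, h] at this
    exact absurd this (by simp)
  have hmissG : ∀ T ∈ 𝒳, K ∩ T = ∅ → ((T ∩ V).card : ℝ) + 2 * t < G T := by
    intro T hT h
    have h1 := hmiss T hT h
    have h2 : ((T ∩ V).card : ℝ) + 2 * t < m' := by
      have : (T ∩ V).card + 2 * t < m' := by omega
      exact_mod_cast this
    linarith [hG T hT]
  -- deep sets are hit
  have hdeep : ∀ T ∈ 𝒳2, (K ∩ T).Nonempty := by
    intro T hT
    by_contra hcon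
    rw [not_nonempty_iff_eq_empty] at hcon
    have h1 := hmissG T (hfam.sub2 hT) hcon
    rw [hst.two T hT] at h1
    have : (0 : ℝ) ≤ 2 * t := by positivity
    linarith
  -- the cells to be peeled
  let TT : Finset ι → Prop := fun X => W.Cel F X ∧ X.card = m ∧ K ∩ X = ∅ ∧ GoodC S S1 S2 V0 t X
  have hTT : ∀ X, TT X → (X ∩ L).card < μ ∧ K ∩ (X ∩ L) = ∅ ∧
      t < (X ∩ (V \ S1)).card := by
    rintro X ⟨h1, h2, h3, h4, h5⟩
    have hKX : K ∩ (X ∩ L) = ∅ := by
      rw [← subset_empty, ← h3]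
      exact inter_subset_inter_left inter_subset_left
    have hlt : (X ∩ L).card < μ := by
      by_contra hcon
      rw [not_lt] at hcon
      obtain ⟨T, hT, hTX⟩ := hfam.deep X h1 hcon
      obtain ⟨v, hv⟩ := hdeep T hT
      rw [mem_inter] at hv
      have : v ∈ K ∩ X := by
        rw [mem_inter]
        exact ⟨hv.1, (mem_inter.1 (hTX hv.2)).1⟩
      rw [h3] at this
      exact absurd this (by simp)
    refine ⟨hlt, hKX, ?_⟩
    have h6 := hmissG _ (hfam.one X h1 h2 hlt) hKX
    have h7 := hst.one X h1 h2 hlt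
    have h8 : (X ∩ L ∩ V).card + 2 * t < (X ∩ V).card := by
      have : ((X ∩ L ∩ V).card : ℝ) + 2 * t < (X ∩ V).card := by linarith
      exact_mod_cast this
    have h9 : X ∩ V ⊆ (X ∩ L ∩ V) ∪ ((X ∩ (S1 \ S) ∩ V0) ∪ (X ∩ (V \ S1))) := by
      intro v hv
      rw [mem_inter] at hv
      have hv0 := hst.sub hv.2
      rw [mem_union, mem_union, mem_inter, mem_inter, hL, mem_inter, mem_inter, mem_inter,
        mem_sdiff, mem_inter, mem_sdiff]
      tauto
    have h10 := (card_le_card h9).trans ((card_union_le _ _).trans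
      (Nat.add_le_add_left (card_union_le _ _) _))
    omega
  have hOG : Disjoint O (V \ S1) := by
    rw [disjoint_left]
    intro v hv hv2
    rw [mem_sdiff] at hv2
    exact hv2.2 (hSS1 (hOS hv))
  obtain ⟨R, hRG, hRhit, hRpriv, hRX⟩ := W.peel F hO hOG TT (fun X hX => ⟨hX.1, by
    rw [← card_pos]
    have := (hTT X hX).2.2
    omega⟩)
  have hRV : R ⊆ V := hRG.trans sdiff_subset
  have hRS1 : ∀ v ∈ R, v ∉ S1 := fun v hv => (mem_sdiff.1 (hRG hv)).2
  have hKR : Disjoint K R := by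
    rw [disjoint_left]
    intro v h1 h2
    exact hRS1 v h2 (hSS1 (hLS (hKL h1)))
  refine ⟨K ∪ R, union_subset hKV hRV, ?_, ?_, fun T => G T - dec a T, ⟨?_, ?_, ?_, ?_⟩, ha⟩
  · -- good cells are hit
    intro X hX hXm hXg
    by_cases h : K ∩ X = ∅
    · obtain ⟨v, hv⟩ := hRhit X ⟨hX, hXm, h, hXg⟩
      rw [mem_inter] at hv
      exact ⟨v, by rw [mem_inter, mem_union]; exact ⟨hv.1, Or.inr hv.2⟩⟩
    · obtain ⟨v, hv⟩ := nonempty_iff_ne_empty.2 h
      rw [mem_inter] at hv
      exact ⟨v, by rw [mem_inter, mem_union]; exact ⟨hv.2, Or.inl hv.1⟩⟩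
  · intro T hT
    obtain ⟨v, hv⟩ := hdeep T hT
    rw [mem_inter] at hv
    exact ⟨v, by rw [mem_inter, mem_union]; exact ⟨hv.2, Or.inl hv.1⟩⟩
  · exact sdiff_subset.trans hst.sub
  · -- the traces
    intro T hT
    simp only [dec]
    split_ifs with h
    · rw [h]
      simp only [card_empty, Nat.cast_zero, zero_add]
      have h1 := hmissG T hT h
      have h2 : ((T ∩ (V \ (K ∪ R))).card : ℝ) ≤ (T ∩ V).card := by
        exact_mod_cast card_le_card (inter_subset_inter_left sdiff_subset)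
      have h3 : (1 : ℝ) ≤ t := by exact_mod_cast ht
      linarith
    · rw [add_zero]
      have h1 : T ∩ (V \ (K ∪ R)) ⊆ (T ∩ V) \ (K ∩ T) := by
        intro v hv
        rw [mem_inter, mem_sdiff, mem_union] at hv
        rw [mem_sdiff, mem_inter, mem_inter]
        tauto
      have h2 : K ∩ T ⊆ T ∩ V := by
        intro v hv
        rw [mem_inter] at hv ⊢
        exact ⟨hv.2, hKV hv.1⟩
      have h3 := card_le_card h1
      rw [card_sdiff_of_subset h2] at h3
      have h4 := card_le_card h2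
      have h5 : ((T ∩ (V \ (K ∪ R))).card : ℝ) + (K ∩ T).card ≤ (T ∩ V).card := by
        have : (T ∩ (V \ (K ∪ R))).card + (K ∩ T).card ≤ (T ∩ V).card := by omega
        exact_mod_cast this
      have h6 := hst.le T hT
      linarith
  · -- cells of size `m`
    intro X hX hXm hXL
    have hTX := hfam.one X hX hXm hXL
    simp only [dec]
    split_ifs with h
    · -- missed
      rw [← hK, h]
      simp only [card_empty, Nat.cast_zero, zero_add]
      have hG1 := hst.one X hX hXm hXL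
      rcases hRX X hX with h1 | ⟨P, hP, hPR, hPX⟩
      · have h2 : X ∩ V ⊆ (X ∩ (V \ (K ∪ R))) ∪ (X ∩ R) := by
          intro v hv
          rw [mem_inter] at hv
          rw [mem_union, mem_inter, mem_sdiff, mem_union, mem_inter]
          by_cases hvR : v ∈ R
          · exact Or.inr ⟨hv.1, hvR⟩
          · left
            refine ⟨hv.1, hv.2, ?_⟩
            rintro (hvK | hvR')
            · have : v ∈ K ∩ (X ∩ L) := by
                rw [mem_inter, mem_inter]
                exact ⟨hvK, hv.1, hKL hvK⟩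
              rw [h] at this
              exact absurd this (by simp)
            · exact hvR hvR'
        have h3 := (card_le_card h2).trans (card_union_le _ _)
        have h4 : ((X ∩ V).card : ℝ) ≤ (X ∩ (V \ (K ∪ R))).card + 2 := by
          have : (X ∩ V).card ≤ (X ∩ (V \ (K ∪ R))).card + 2 := by omega
          exact_mod_cast this
        linarith
      · -- dominated by `P`
        obtain ⟨hPL, hPK, hPt⟩ := hTT P hP
        obtain ⟨hP1, hP2, hP3, hP4, hP5⟩ := hP
        -- a letter outside `S2`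
        obtain ⟨v, hvP, hvV, hvS2⟩ : ∃ v, v ∈ P ∧ v ∈ V \ S1 ∧ v ∉ S2 := by
          by_contra hcon
          push Not at hcon
          have h1 : P ∩ (V \ S1) ⊆ P ∩ (S2 \ S1) ∩ V0 := by
            intro v hv
            rw [mem_inter] at hv
            have h2 := hcon v hv.1 hv.2
            rw [mem_inter, mem_inter, mem_sdiff]
            rw [mem_sdiff] at hv
            exact ⟨⟨hv.1, h2, hv.2.2⟩, hst.sub hv.2.1⟩
          have h2 := card_le_card h1
          omega
        have hvX : v ∈ X := hPX (by rw [mem_inter]; exact ⟨hvP, hvV⟩)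
        have hcu : (X ∪ P).card ≤ 2 * m := (card_union_le _ _).trans (by omega)
        have hXP : X ∩ S1 = P ∩ S1 :=
          W.closure_eq F hX hP1 hcu hvX hvP (by rw [← hS2]; exact hvS2)
        have hXPm : ∀ w ∈ S1, (w ∈ X ↔ w ∈ P) := by
          intro w hw
          have : w ∈ X ∩ S1 ↔ w ∈ P ∩ S1 := by rw [hXP]
          rw [mem_inter, mem_inter] at this
          tauto
        have hXL' : X ∩ L = P ∩ L := by
          ext w
          rw [mem_inter (s₁ := X), mem_inter (s₁ := P)]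
          constructor
          · rintro ⟨h1, h2⟩
            exact ⟨(hXPm w (hSS1 (hLS h2))).1 h1, h2⟩
          · rintro ⟨h1, h2⟩
            exact ⟨(hXPm w (hSS1 (hLS h2))).2 h1, h2⟩
        have hPV : P ∩ V ⊆ X := by
          intro w hw
          rw [mem_inter] at hw
          by_cases hwS : w ∈ S1
          · exact (hXPm w hwS).2 hw.1
          · exact hPX (by rw [mem_inter, mem_sdiff]; exact ⟨hw.1, hw.2, hwS⟩)
        have hsub : P ∩ V ⊆ (X ∩ (V \ (K ∪ R))) ∪ (P ∩ R) := by
          intro w hw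
          have hwX := hPV hw
          rw [mem_inter] at hw
          rw [mem_union, mem_inter, mem_sdiff, mem_union, mem_inter]
          by_cases hwR : w ∈ R
          · exact Or.inr ⟨hw.1, hwR⟩
          · left
            refine ⟨hwX, hw.2, ?_⟩
            rintro (hwK | hwR')
            · have : w ∈ K ∩ P := by
                rw [mem_inter]
                exact ⟨hwK, hw.1⟩
              rw [hP3] at this
              exact absurd this (by simp)
            · exact hwR hwR'
        have h3 := (card_le_card hsub).trans (card_union_le _ _)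
        rw [hPR] at h3
        have h4 : ((P ∩ V).card : ℝ) ≤ (X ∩ (V \ (K ∪ R))).card + 1 := by exact_mod_cast h3
        have h5 := hst.one P hP1 hP2 hPL
        rw [hXL']
        linarith
    · -- hit: `R` does not meet `X`
      rw [add_zero]
      obtain ⟨w, hw⟩ := nonempty_iff_ne_empty.2 h
      rw [mem_inter, mem_inter] at hw
      have hXR : X ∩ R = ∅ := by
        rw [← not_nonempty_iff_eq_empty]
        rintro ⟨y, hy⟩
        rw [mem_inter] at hy
        obtain ⟨P, ⟨hP1, hP2, hP3, -⟩, hPR⟩ := hRpriv y hy.2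
        have hyP : y ∈ P := by
          have : y ∈ P ∩ R := by rw [hPR]; simp
          exact (mem_inter.1 this).1
        have hcu : (X ∪ P).card ≤ 2 * m := (card_union_le _ _).trans (by omega)
        have hXP : X ∩ S = P ∩ S :=
          W.closure_eq F hX hP1 hcu hy.1 hyP (by rw [← hS1]; exact hRS1 y hy.2)
        have hwP : w ∈ P := by
          have : w ∈ X ∩ S := by
            rw [mem_inter]
            exact ⟨hw.2.1, hLS hw.2.2⟩
          rw [hXP] at this
          exact (mem_inter.1 this).1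
        have : w ∈ K ∩ P := by
          rw [mem_inter]
          exact ⟨hw.1, hwP⟩
        rw [hP3] at this
        exact absurd this (by simp)
      have h2 : X ∩ V ⊆ (X ∩ (V \ (K ∪ R))) ∪ (K ∩ (X ∩ L)) := by
        intro v hv
        rw [mem_inter] at hv
        rw [mem_union, mem_inter, mem_sdiff, mem_union, mem_inter, mem_inter]
        by_cases hvK : v ∈ K
        · exact Or.inr ⟨hvK, hv.1, hKL hvK⟩
        · left
          refine ⟨hv.1, hv.2, ?_⟩
          rintro (hvK' | hvR)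
          · exact hvK hvK'
          · have : v ∈ X ∩ R := by
              rw [mem_inter]
              exact ⟨hv.1, hvR⟩
            rw [hXR] at this
            exact absurd this (by simp)
      have h3 := (card_le_card h2).trans (card_union_le _ _)
      have h4 : ((X ∩ V).card : ℝ) ≤ (X ∩ (V \ (K ∪ R))).card + (K ∩ (X ∩ L)).card := by
        exact_mod_cast h3
      have h5 := hst.one X hX hXm hXL
      linarith
  · -- deep traces
    intro T hT
    obtain ⟨w, hw⟩ := hdeep T hT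
    have hne' : H a ∩ T ≠ ∅ := nonempty_iff_ne_empty.1 ⟨w, hw⟩
    simp only [dec]
    rw [if_neg hne', add_zero, hst.two T hT]
    have h1 : T ∩ (V \ (K ∪ R)) = (T ∩ V) \ (K ∩ T) := by
      ext v
      rw [mem_inter, mem_sdiff, mem_union, mem_sdiff, mem_inter, mem_inter]
      constructor
      · tauto
      · rintro ⟨⟨h1, h2⟩, h3⟩
        refine ⟨h1, h2, ?_⟩
        rintro (h4 | h4)
        · exact h3 ⟨h4, h1⟩
        · exact hRS1 v h4 (hSS1 (hLS (hfam.subL T hT h1)))
    have h2 : K ∩ T ⊆ T ∩ V := by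
      intro v hv
      rw [mem_inter] at hv ⊢
      exact ⟨hv.2, hKV hv.1⟩
    rw [h1, card_sdiff_of_subset h2, Nat.cast_sub (card_le_card h2)]

end PHP
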