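import Mathlib
import Pool.Agent.PHP.ClosStep

/-!
# All colours of a level
-/

set_option linter.unusedSectionVars false

namespace PHP

open Finset

variable {ι : Type} [Fintype ι] [DecidableEq ι]

/-- the index family of a level exists -/
theorem Sweep.exists_fam (W : Sweep ι) (F : ι → Bool) {m μ : ℕ} (hμ : μ ≤ m)
    {V0 S : Finset ι} :
    ∃ 𝒳 𝒳2 : Finset (Finset ι), LevFam W F m μ m (V0 ∩ S) 𝒳 𝒳2 ∧
      𝒳.card ≤ 2 * (S.card + 1) ^ 2 ∧ (∀ T ∈ 𝒳2, T.card = μ) ∧ (∀ T ∈ 𝒳, T.card ≤ μ) := by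
  classical
  set L := V0 ∩ S with hL
  have hex : ∀ T : Finset ι, ∃ T' : Finset ι, (∃ X, W.Cel F X ∧ μ ≤ (X ∩ L).card ∧ T = X ∩ L) →
      (T' ⊆ T ∧ T'.card = μ ∧ ∃ s ≤ W.N, ∃ a b, a ≤ m ∧ b ≤ m ∧ T' = W.vcl F L s a b) := by
    intro T
    by_cases h : ∃ X, W.Cel F X ∧ μ ≤ (X ∩ L).card ∧ T = X ∩ L
    · obtain ⟨X, hX, hXμ, rfl⟩ := h
      obtain ⟨s, hs, a, b, h1, h2, h3⟩ := W.exists_vcl F L hX
      obtain ⟨h4, h5⟩ := h3 (min μ a) (min_le_right _ _) (μ - min μ a) (by omega)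
      refine ⟨_, fun _ => ⟨h5, by rw [h4]; omega, s, hs, min μ a, μ - min μ a, by omega, by omega,
        rfl⟩⟩
    · exact ⟨∅, fun hh => absurd hh h⟩
  choose f hf using hex
  set 𝒳1 : Finset (Finset ι) := univ.filter (fun T => ∃ X, W.Cel F X ∧ X.card = m ∧
    (X ∩ L).card < μ ∧ T = X ∩ L) with h𝒳1
  set 𝒯 : Finset (Finset ι) := univ.filter (fun T => ∃ X, W.Cel F X ∧ μ ≤ (X ∩ L).card ∧
    T = X ∩ L) with h𝒯
  have hcL : L.card ≤ S.card := card_le_card inter_subset_right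
  have hc1 : 𝒳1.card ≤ (S.card + 1) ^ 2 := by
    refine (W.card_trace F L 𝒳1 ?_).trans (Nat.pow_le_pow_left (by omega) 2)
    intro T hT
    rw [h𝒳1, mem_filter] at hT
    obtain ⟨-, X, h1, -, -, h2⟩ := hT
    exact ⟨X, h1, h2⟩
  have hc2 : 𝒯.card ≤ (S.card + 1) ^ 2 := by
    refine (W.card_trace F L 𝒯 ?_).trans (Nat.pow_le_pow_left (by omega) 2)
    intro T hT
    rw [h𝒯, mem_filter] at hT
    obtain ⟨-, X, h1, -, h2⟩ := hT
    exact ⟨X, h1, h2⟩
  have h2 : ∀ T ∈ 𝒯.image f, T.card = μ ∧ ∃ s ≤ W.N, ∃ a b, a ≤ m ∧ b ≤ m ∧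
      T = W.vcl F L s a b := by
    intro T hT
    rw [mem_image] at hT
    obtain ⟨T0, hT0, rfl⟩ := hT
    rw [h𝒯, mem_filter] at hT0
    exact (hf T0 hT0.2).2
  refine ⟨𝒳1 ∪ 𝒯.image f, 𝒯.image f, ⟨?_, subset_union_right, ?_, ?_, ?_, ?_⟩, ?_, ?_, ?_⟩
  · intro T hT
    rw [mem_union] at hT
    rcases hT with hT | hT
    · rw [h𝒳1, mem_filter] at hT
      obtain ⟨-, X, hX, -, h3, rfl⟩ := hT
      obtain ⟨s, hs, a, b, h4, h5, -⟩ := W.exists_vcl F L hX
      exact ⟨s, hs, a, b, by omega, by omega, h5⟩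
    · exact (h2 T hT).2
  · intro T hT v hv
    obtain ⟨-, s, -, a, b, -, -, rfl⟩ := h2 T hT
    unfold Sweep.vcl at hv
    rw [mem_filter, up_iff, lw_iff] at hv
    rcases hv.2 with h3 | h3
    · exact h3.1.2
    · exact h3.1.2
  · intro X hX hXm hXμ
    rw [mem_union, h𝒳1, mem_filter]
    exact Or.inl ⟨mem_univ _, X, hX, hXm, hXμ, rfl⟩
  · intro X hX hXμ
    have hT : X ∩ L ∈ 𝒯 := by
      rw [h𝒯, mem_filter]
      exact ⟨mem_univ _, X, hX, hXμ, rfl⟩
    exact ⟨f (X ∩ L), mem_image_of_mem _ hT, (hf _ ⟨X, hX, hXμ, rfl⟩).1⟩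
  · intro T hT
    rw [mem_union] at hT
    rcases hT with hT | hT
    · rw [h𝒳1, mem_filter] at hT
      exact Or.inl hT.2
    · exact Or.inr ⟨hT, by rw [(h2 T hT).1]; exact hμ⟩
  · calc (𝒳1 ∪ 𝒯.image f).card ≤ 𝒳1.card + (𝒯.image f).card := card_union_le _ _
      _ ≤ (S.card + 1) ^ 2 + (S.card + 1) ^ 2 := Nat.add_le_add hc1 (card_image_le.trans hc2)
      _ = 2 * (S.card + 1) ^ 2 := by ring
  · intro T hT
    exact (h2 T hT).1
  · intro T hT
    rw [mem_union] at hT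
    rcases hT with hT | hT
    · rw [h𝒳1, mem_filter] at hT
      obtain ⟨-, X, hX, -, h3, rfl⟩ := hT
      exact h3.le
    · exact (h2 T hT).1.le

/-- the colours of a level, one after the other -/
theorem Sweep.lev_iter (W : Sweep ι) (F : ι → Bool) {O S S1 S2 V0 : Finset ι} {m : ℕ}
    (hO : W.Cel F O) (hOS : O ⊆ S) (hS1 : S1 = W.clo F (2 * m) S)
    (hS2 : S2 = W.clo F (2 * m) S1) {μ : ℕ} {𝒳 𝒳2 : Finset (Finset ι)}
    (hfam : LevFam W F m μ m (V0 ∩ S) 𝒳 𝒳2) (hne : 𝒳.Nonempty)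
    {t k : ℕ} (ht : 1 ≤ t) (hk : 1 ≤ k) {e N Wd x0 : ℝ} (he0 : 0 < e) (he1 : e ≤ 1 / 2)
    (hN : (𝒳.card : ℝ) ≤ N) (hW2 : 2 ≤ Wd) (hWd : 20 * ((m : ℝ) / k) ^ 3 ≤ Wd)
    (h4 : Real.log N / (e / Wd) + 1 ≤ e * x0) (h5 : 2 * (t : ℝ) + 8 * k ≤ e * ((1 - e) * x0))
    (r : ℕ) : ∀ (V : Finset ι) (G : Finset ι → ℝ),
    LevSt W F m μ (V0 ∩ S) V0 V 𝒳 𝒳2 G →
    x0 + 2 * (1 + e) / (1 - e) ^ 3 * r ≤ gDep 𝒳 (e / Wd) N G →
    ∃ (l : List (Finset ι)) (V' : Finset ι), l.length = r ∧ l.Pairwise Disjoint ∧ V' ⊆ V ∧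
      (∀ H ∈ l, H ⊆ V ∧ Disjoint H V' ∧
        (∀ X, W.Cel F X → X.card = m → GoodC S S1 S2 V0 t X → (X ∩ H).Nonempty) ∧
        (∀ T ∈ 𝒳2, (T ∩ H).Nonempty)) ∧
      ∃ G', LevSt W F m μ (V0 ∩ S) V0 V' 𝒳 𝒳2 G' ∧
        gDep 𝒳 (e / Wd) N G - 2 * (1 + e) / (1 - e) ^ 3 * r ≤ gDep 𝒳 (e / Wd) N G' := by
  classical
  have hη : 0 < e / Wd := by positivity
  have h1e : 0 < 1 - e := by linarith
  have hC0 : 0 < 2 * (1 + e) / (1 - e) ^ 3 := by positivity
  have hlogN : 0 ≤ Real.log N := by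
    apply Real.log_nonneg
    have : (1 : ℝ) ≤ 𝒳.card := by exact_mod_cast hne.card_pos
    linarith
  have hx0 : 0 < x0 := by
    have : 0 ≤ Real.log N / (e / Wd) := by positivity
    by_contra hcon
    rw [not_lt] at hcon
    nlinarith
  induction r with
  | zero =>
    intro V G hst _
    refine ⟨[], V, rfl, List.Pairwise.nil, Subset.refl _, by simp, G, hst, by simp⟩
  | succ r ih =>
    intro V G hst hφ
    set φ : ℝ := gDep 𝒳 (e / Wd) N G with hφd
    have hr0 : (0 : ℝ) ≤ r := by positivity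
    have hφ0 : x0 ≤ φ := by
      push_cast at hφ
      nlinarith
    set m' : ℕ := ⌊φ - Real.log N / (e / Wd)⌋₊ with hm'
    have g0 : 0 ≤ φ - Real.log N / (e / Wd) := by nlinarith
    have g1 : (m' : ℝ) ≤ φ - Real.log N / (e / Wd) := Nat.floor_le g0
    have g2 : φ - Real.log N / (e / Wd) < m' + 1 := Nat.lt_floor_add_one _
    have g3 : (1 - e) * φ ≤ m' := by nlinarith
    have g4 : (1 - e) * x0 ≤ m' := by nlinarith
    have hGm : ∀ T ∈ 𝒳, (m' : ℝ) ≤ G T := by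
      intro T hT
      have := gDep_le (N := N) hη (G := G) hT
      linarith
    have g5 : 2 * (t : ℝ) + 8 * k ≤ e * m' := by nlinarith
    have hm'0 : (0 : ℝ) < m' := by nlinarith
    have g6 : 2 * t + 8 * k < m' := by
      have : (2 * (t : ℝ) + 8 * k) < m' := by nlinarith
      exact_mod_cast this
    obtain ⟨m1, hm1⟩ : ∃ m1, m1 + 2 * t + 8 * k = m' := ⟨m' - 2 * t - 8 * k, by omega⟩
    have hm1' : (m1 : ℝ) + 2 * t + 8 * k = m' := by exact_mod_cast hm1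
    have g7 : (1 - e) * m' ≤ m1 := by linarith
    have hm1m : m1 + 4 * k ≤ m := by
      obtain ⟨T, hT⟩ := hne
      have h7 : G T ≤ m := by
        rcases hfam.rng T hT with ⟨X, a1, a2, a3, rfl⟩ | ⟨a1, a2⟩
        · refine (hst.one X a1 a2 a3).trans ?_
          rw [← a2]
          exact_mod_cast card_le_card inter_subset_left
        · rw [hst.two T a1]
          exact_mod_cast (card_le_card inter_subset_left).trans a2
      have h8 := hGm T hT
      have h9 : m' ≤ m := by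
        have : (m' : ℝ) ≤ m := by linarith
        exact_mod_cast this
      omega
    have hWdpos : 0 < Wd := by linarith
    obtain ⟨H, hHV, c1, c2, G', hst', c3⟩ := W.lev_step F hO hOS hS1 hS2 hfam hne hst hm1
      (by omega) ht hk hm1m (q := (1 - e) ^ 2) (by positivity)
      (by
        rw [← mul_pow]
        exact pow_le_pow_left₀ (by positivity) g7 2)
      hGm hη hN hW2 hWd (s := e) (by field_simp) (by linarith)
    have g8 : φ * (1 - (1 + e) * (2 / ((1 - e) ^ 2 * m'))) ≥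
        φ - 2 * (1 + e) / (1 - e) ^ 3 := by
      have e1 : (1 + e) * (2 / ((1 - e) ^ 2 * m')) * φ ≤ 2 * (1 + e) / (1 - e) ^ 3 := by
        have e2 : (1 + e) * (2 / ((1 - e) ^ 2 * m')) * φ =
            2 * (1 + e) * φ / ((1 - e) ^ 2 * m') := by
          field_simp
        rw [e2, div_le_div_iff₀ (by positivity) (by positivity)]
        have e3 : 2 * (1 + e) * φ * (1 - e) ^ 3 = (2 * (1 + e) * (1 - e) ^ 2) * ((1 - e) * φ) := by
          ring
        have e4 : 2 * (1 + e) * ((1 - e) ^ 2 * m') = (2 * (1 + e) * (1 - e) ^ 2) * m' := by ring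
        rw [e3, e4]
        exact mul_le_mul_of_nonneg_left g3 (by positivity)
      have e5 : φ * (1 - (1 + e) * (2 / ((1 - e) ^ 2 * m'))) =
          φ - (1 + e) * (2 / ((1 - e) ^ 2 * m')) * φ := by ring
      rw [e5]
      linarith
    obtain ⟨l, V', d1, d2, d3, d4, G'', d5, d6⟩ := ih (V \ H) G' hst' (by
      push_cast at hφ
      have e1 : 2 * (1 + e) / (1 - e) ^ 3 * ((r : ℝ) + 1) =
          2 * (1 + e) / (1 - e) ^ 3 * r + 2 * (1 + e) / (1 - e) ^ 3 := by ring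
      rw [e1] at hφ
      linarith)
    refine ⟨H :: l, V', by simp [d1], ?_, d3.trans sdiff_subset, ?_, G'', d5, ?_⟩
    · rw [List.pairwise_cons]
      refine ⟨fun H' hH' => ?_, d2⟩
      have := (d4 H' hH').1
      rw [disjoint_left]
      intro v hv hv'
      exact (mem_sdiff.1 (this hv')).2 hv
    · intro H' hH'
      rw [List.mem_cons] at hH'
      rcases hH' with rfl | hH'
      · refine ⟨hHV, ?_, c1, c2⟩
        rw [disjoint_left]
        intro v hv hv'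
        exact (mem_sdiff.1 (d3 hv')).2 hv
      · obtain ⟨f1, f2, f3, f4⟩ := d4 H' hH'
        exact ⟨f1.trans sdiff_subset, f2, f3, f4⟩
    · push_cast
      have e1 : 2 * (1 + e) / (1 - e) ^ 3 * ((r : ℝ) + 1) =
          2 * (1 + e) / (1 - e) ^ 3 * r + 2 * (1 + e) / (1 - e) ^ 3 := by ring
      rw [e1]
      linarith

/-- a level -/
theorem Sweep.level (W : Sweep ι) (F : ι → Bool) {O S S1 S2 V0 : Finset ι} {m : ℕ}
    (hO : W.Cel F O) (hOS : O ⊆ S) (hS1 : S1 = W.clo F (2 * m) S)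
    (hS2 : S2 = W.clo F (2 * m) S1) {μ μ' r : ℕ} (hμ : μ ≤ m)
    {t k : ℕ} (ht : 1 ≤ t) (hk : 1 ≤ k) {e N Wd x0 : ℝ} (he0 : 0 < e) (he1 : e ≤ 1 / 2)
    (hN : 2 * ((S.card : ℝ) + 1) ^ 2 ≤ N) (hW2 : 2 ≤ Wd) (hWd : 20 * ((m : ℝ) / k) ^ 3 ≤ Wd)
    (h4 : Real.log N / (e / Wd) + 1 ≤ e * x0) (h5 : 2 * (t : ℝ) + 8 * k ≤ e * ((1 - e) * x0))
    (h6 : x0 + 2 * (1 + e) / (1 - e) ^ 3 * r ≤ μ)
    (h7 : (μ' : ℝ) ≤ μ - 2 * (1 + e) / (1 - e) ^ 3 * r - Real.log N / (e / Wd))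
    (hA : ∀ X, W.Cel F X → X.card = m → μ ≤ (X ∩ V0).card)
    {B : Finset ι → Prop} (hB : ∀ X, B X → W.Cel F X ∧ μ ≤ (X ∩ S ∩ V0).card) :
    ∃ (l : List (Finset ι)) (V' : Finset ι), l.length = r ∧ l.Pairwise Disjoint ∧ V' ⊆ V0 ∧
      (∀ H ∈ l, H ⊆ V0 ∧ Disjoint H V' ∧
        (∀ X, W.Cel F X → X.card = m → GoodC S S1 S2 V0 t X → (X ∩ H).Nonempty) ∧
        (∀ X, B X → (X ∩ H).Nonempty)) ∧
      (∀ X, W.Cel F X → X.card = m → μ' ≤ (X ∩ V').card) ∧
      (∀ X, B X → μ' ≤ (X ∩ S ∩ V').card) := by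
  classical
  obtain ⟨𝒳, 𝒳2, hfam, hcard, hc2, hc⟩ := W.exists_fam F hμ (V0 := V0) (S := S)
  have hB' : ∀ X, B X → W.Cel F X ∧ μ ≤ (X ∩ (V0 ∩ S)).card := by
    intro X hX
    obtain ⟨h1, h2⟩ := hB X hX
    refine ⟨h1, ?_⟩
    have : X ∩ (V0 ∩ S) = X ∩ S ∩ V0 := by
      ext v
      simp only [mem_inter]
      tauto
    rw [this]
    exact h2
  rcases 𝒳.eq_empty_or_nonempty with he | hne
  · -- there are no cells
    have hn1 : ∀ X, W.Cel F X → X.card = m → False := by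
      intro X hX hXm
      by_cases h : (X ∩ (V0 ∩ S)).card < μ
      · have := hfam.one X hX hXm h
        rw [he] at this
        exact absurd this (by simp)
      · obtain ⟨T, hT, -⟩ := hfam.deep X hX (not_lt.1 h)
        have := hfam.sub2 hT
        rw [he] at this
        exact absurd this (by simp)
    have hn2 : ∀ X, B X → False := by
      intro X hX
      obtain ⟨h1, h2⟩ := hB' X hX
      obtain ⟨T, hT, -⟩ := hfam.deep X h1 h2
      have := hfam.sub2 hT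
      rw [he] at this
      exact absurd this (by simp)
    refine ⟨List.replicate r ∅, V0, by simp, ?_, Subset.refl _, ?_, ?_, ?_⟩
    · rw [List.pairwise_replicate]
      right
      exact disjoint_empty_left _
    · intro H hH
      rw [List.mem_replicate] at hH
      rw [hH.2]
      exact ⟨empty_subset _, disjoint_empty_left _, fun X hX hXm _ => (hn1 X hX hXm).elim,
        fun X hX => (hn2 X hX).elim⟩
    · exact fun X hX hXm => (hn1 X hX hXm).elim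
    · exact fun X hX => (hn2 X hX).elim
  · have hNc : (𝒳.card : ℝ) ≤ N := by
      have : (𝒳.card : ℝ) ≤ 2 * ((S.card : ℝ) + 1) ^ 2 := by exact_mod_cast hcard
      linarith
    have hη : 0 < e / Wd := by positivity
    have hst : LevSt W F m μ (V0 ∩ S) V0 V0 𝒳 𝒳2 (fun _ => (μ : ℝ)) := by
      refine ⟨Subset.refl _, ?_, ?_, ?_⟩
      · intro T hT
        exact_mod_cast (card_le_card inter_subset_left).trans (hc T hT)
      · intro X hX hXm _
        exact_mod_cast hA X hX hXm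
      · intro T hT
        have h1 : T ∩ V0 = T := inter_eq_left.2 ((hfam.subL T hT).trans inter_subset_left)
        rw [h1, hc2 T hT]
    have hstart : (μ : ℝ) ≤ gDep 𝒳 (e / Wd) N (fun _ => (μ : ℝ)) :=
      le_gDep hne hη hNc (fun _ _ => le_rfl)
    obtain ⟨l, V', c1, c2, c3, c4, G', c5, c6⟩ := W.lev_iter F hO hOS hS1 hS2 hfam hne ht hk he0
      he1 hNc hW2 hWd h4 h5 r V0 _ hst (by linarith)
    have hG' : ∀ T ∈ 𝒳, (μ' : ℝ) ≤ G' T := by
      intro T hT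
      have := gDep_le (N := N) hη (G := G') hT
      linarith
    have hdeep : ∀ X, W.Cel F X → μ ≤ (X ∩ (V0 ∩ S)).card → ∃ T ∈ 𝒳2, T ⊆ X ∩ (V0 ∩ S) ∧
        μ' ≤ (T ∩ V').card := by
      intro X hX hXμ
      obtain ⟨T, hT, hTX⟩ := hfam.deep X hX hXμ
      refine ⟨T, hT, hTX, ?_⟩
      have := hG' T (hfam.sub2 hT)
      rw [c5.two T hT] at this
      exact_mod_cast this
    refine ⟨l, V', c1, c2, c3, ?_, ?_, ?_⟩
    · intro H hH
      obtain ⟨d1, d2, d3, d4⟩ := c4 H hH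
      refine ⟨d1, d2, d3, fun X hX => ?_⟩
      obtain ⟨h1, h2⟩ := hB' X hX
      obtain ⟨T, hT, hTX, -⟩ := hdeep X h1 h2
      obtain ⟨v, hv⟩ := d4 T hT
      rw [mem_inter] at hv
      exact ⟨v, by rw [mem_inter]; exact ⟨(mem_inter.1 (hTX hv.1)).1, hv.2⟩⟩
    · intro X hX hXm
      by_cases h : (X ∩ (V0 ∩ S)).card < μ
      · have h1 := c5.one X hX hXm h
        have h2 := hG' _ (hfam.one X hX hXm h)
        have : (μ' : ℝ) ≤ (X ∩ V').card := by linarith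
        exact_mod_cast this
      · obtain ⟨T, hT, hTX, h1⟩ := hdeep X hX (not_lt.1 h)
        refine h1.trans (card_le_card ?_)
        exact inter_subset_inter_right (hTX.trans inter_subset_left)
    · intro X hX
      obtain ⟨h1, h2⟩ := hB' X hX
      obtain ⟨T, hT, hTX, h3⟩ := hdeep X h1 h2
      refine h3.trans (card_le_card ?_)
      apply inter_subset_inter_right
      intro v hv
      have := hTX hv
      simp only [mem_inter] at this ⊢
      tauto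

end PHP
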