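import Mathlib

/-!
# A random reserve

Every element is put into the reserve with probability `1/q`, independently. The weights of the
subsets are written explicitly.
-/

namespace PHP

open Finset

/-- the weight of a subset -/
noncomputable def resW {ι : Type} [Fintype ι] [DecidableEq ι] (p : ℝ) (R : Finset ι) : ℝ :=
  (∏ _i ∈ R, p) * ∏ _i ∈ univ \ R, (1 - p)

theorem resW_nonneg {ι : Type} [Fintype ι] [DecidableEq ι] {p : ℝ} (h0 : 0 ≤ p) (h1 : p ≤ 1)
    (R : Finset ι) : 0 ≤ resW p R :=
  mul_nonneg (prod_nonneg fun _ _ => h0) (prod_nonneg fun _ _ => by linarith)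

theorem resW_mgf {ι : Type} [Fintype ι] [DecidableEq ι] (p c : ℝ) (X : Finset ι) :
    ∑ R ∈ (univ : Finset ι).powerset, resW p R * c ^ (X ∩ R).card = (1 + p * (c - 1)) ^ X.card := by
  have h1 := Finset.prod_add (fun i : ι => p * (if i ∈ X then c else 1)) (fun _ => 1 - p)
    (univ : Finset ι)
  have h2 : ∏ i ∈ (univ : Finset ι), ((fun i : ι => p * (if i ∈ X then c else 1)) i + (1 - p)) =
      (1 + p * (c - 1)) ^ X.card := by
    rw [← Finset.prod_const, ← Finset.prod_subset (Finset.subset_univ X)]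
    · refine Finset.prod_congr rfl fun i hi => ?_
      simp only [hi, if_true]
      ring
    · intro i _ hi
      simp only [hi, if_false]
      ring
  rw [← h2, h1]
  refine Finset.sum_congr rfl fun R _ => ?_
  rw [Finset.prod_mul_distrib]
  have h3 : ∏ i ∈ R, (if i ∈ X then c else (1 : ℝ)) = c ^ (X ∩ R).card := by
    rw [Finset.prod_ite, Finset.prod_const, Finset.prod_const_one, mul_one]
    congr 2
    ext i
    simp [and_comm]
  rw [h3]
  unfold resW
  ring

theorem clos_reserve {ι : Type} [Fintype ι] [DecidableEq ι] (q : ℕ) (hq : 2 ≤ q)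
    (U L : Finset (Finset ι)) (m t : ℝ) (hU : ∀ X ∈ U, (X.card : ℝ) ≤ m)
    (hL : ∀ X ∈ L, t ≤ (X.card : ℝ))
    (hb : (U.card : ℝ) * Real.exp (-(m / (16 * q))) + (L.card : ℝ) * Real.exp (-(t / (16 * q))) < 1)
    (hm : 0 < m) (ht : 0 < t) :
    ∃ Res : Finset ι, (∀ X ∈ U, ((X ∩ Res).card : ℝ) ≤ 2 * m / q) ∧
      (∀ X ∈ L, t / (2 * q) ≤ ((X ∩ Res).card : ℝ)) := by
  have hq0 : (0 : ℝ) < q := by
    have : (2 : ℝ) ≤ q := by exact_mod_cast hq
    linarith
  have hq2 : (2 : ℝ) ≤ q := by exact_mod_cast hq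
  set p : ℝ := 1 / q with hp
  have hp0 : 0 < p := by positivity
  have hp1 : p ≤ 1 := by
    rw [hp, div_le_one hq0]
    linarith
  by_contra hcon
  push Not at hcon
  -- the two exponentials
  set a : ℝ := Real.exp (1 / 2) with ha
  have ha0 : 0 < a := Real.exp_pos _
  have ha2 : a ^ 2 = Real.exp 1 := by
    rw [ha, ← Real.exp_nat_mul]
    norm_num
  have ha_lt : a ≤ 31 / 16 := by
    have := Real.exp_one_lt_d9
    nlinarith
  have ha_gt : 16 / 11 ≤ a := by
    have := Real.exp_one_gt_d9
    nlinarith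
  have hainv : a⁻¹ ≤ 11 / 16 := by
    rw [inv_le_comm₀ ha0 (by norm_num)]
    norm_num
    linarith
  have hpow : ∀ n : ℕ, a ^ n = Real.exp (n * (1 / 2)) := by
    intro n
    rw [ha, ← Real.exp_nat_mul]
  have hpow' : ∀ n : ℕ, (a⁻¹) ^ n = Real.exp (-(n * (1 / 2))) := by
    intro n
    rw [inv_pow, hpow, ← Real.exp_neg]
  have hsum1 : ∑ R ∈ (univ : Finset ι).powerset, resW p R = 1 := by
    have := resW_mgf p 1 (∅ : Finset ι)
    simpa using this
  have hkey : ∀ R ∈ (univ : Finset ι).powerset, (1 : ℝ) ≤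
      ∑ X ∈ U, Real.exp (-(m / q)) * a ^ (X ∩ R).card +
        ∑ X ∈ L, Real.exp (t / (4 * q)) * (a⁻¹) ^ (X ∩ R).card := by
    intro R _
    by_cases hR : ∀ X ∈ U, ((X ∩ R).card : ℝ) ≤ 2 * m / q
    · obtain ⟨X, hX, hlt⟩ := hcon R hR
      have h1 : (1 : ℝ) ≤ Real.exp (t / (4 * q)) * (a⁻¹) ^ (X ∩ R).card := by
        rw [hpow', ← Real.exp_add]
        apply Real.one_le_exp
        have h3 : t / (2 * q) = 2 * (t / (4 * q)) := by
          field_simp
          ring
        rw [h3] at hlt
        linarith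
      have h2 : Real.exp (t / (4 * q)) * (a⁻¹) ^ (X ∩ R).card ≤
          ∑ X ∈ L, Real.exp (t / (4 * q)) * (a⁻¹) ^ (X ∩ R).card :=
        Finset.single_le_sum (f := fun X : Finset ι => Real.exp (t / (4 * q)) * (a⁻¹) ^ (X ∩ R).card)
          (fun Y _ => by positivity) hX
      have h3 : 0 ≤ ∑ X ∈ U, Real.exp (-(m / q)) * a ^ (X ∩ R).card :=
        Finset.sum_nonneg fun Y _ => by positivity
      linarith
    · push Not at hR
      obtain ⟨X, hX, hlt⟩ := hR
      have h1 : (1 : ℝ) ≤ Real.exp (-(m / q)) * a ^ (X ∩ R).card := by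
        rw [hpow, ← Real.exp_add]
        apply Real.one_le_exp
        have h3 : 2 * m / q = 2 * (m / q) := by ring
        rw [h3] at hlt
        linarith
      have h2 : Real.exp (-(m / q)) * a ^ (X ∩ R).card ≤
          ∑ X ∈ U, Real.exp (-(m / q)) * a ^ (X ∩ R).card :=
        Finset.single_le_sum (f := fun X : Finset ι => Real.exp (-(m / q)) * a ^ (X ∩ R).card)
          (fun Y _ => by positivity) hX
      have h3 : 0 ≤ ∑ X ∈ L, Real.exp (t / (4 * q)) * (a⁻¹) ^ (X ∩ R).card :=
        Finset.sum_nonneg fun Y _ => by positivity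
      linarith
  have hle : (1 : ℝ) ≤ ∑ R ∈ (univ : Finset ι).powerset, resW p R *
      (∑ X ∈ U, Real.exp (-(m / q)) * a ^ (X ∩ R).card +
        ∑ X ∈ L, Real.exp (t / (4 * q)) * (a⁻¹) ^ (X ∩ R).card) := by
    calc (1 : ℝ) = ∑ R ∈ (univ : Finset ι).powerset, resW p R * 1 := by
          rw [← Finset.sum_mul, hsum1, one_mul]
      _ ≤ _ := Finset.sum_le_sum fun R hR =>
          mul_le_mul_of_nonneg_left (hkey R hR) (resW_nonneg hp0.le hp1 R)
  have heq : ∑ R ∈ (univ : Finset ι).powerset, resW p R *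
      (∑ X ∈ U, Real.exp (-(m / q)) * a ^ (X ∩ R).card +
        ∑ X ∈ L, Real.exp (t / (4 * q)) * (a⁻¹) ^ (X ∩ R).card) =
      ∑ X ∈ U, Real.exp (-(m / q)) * (1 + p * (a - 1)) ^ X.card +
        ∑ X ∈ L, Real.exp (t / (4 * q)) * (1 + p * (a⁻¹ - 1)) ^ X.card := by
    simp_rw [mul_add, Finset.sum_add_distrib, Finset.mul_sum]
    congr 1
    · rw [Finset.sum_comm]
      refine Finset.sum_congr rfl fun X _ => ?_
      rw [← resW_mgf, Finset.mul_sum]
      exact Finset.sum_congr rfl fun R _ => by ring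
    · rw [Finset.sum_comm]
      refine Finset.sum_congr rfl fun X _ => ?_
      rw [← resW_mgf, Finset.mul_sum]
      exact Finset.sum_congr rfl fun R _ => by ring
  rw [heq] at hle
  have hU' : ∑ X ∈ U, Real.exp (-(m / q)) * (1 + p * (a - 1)) ^ X.card ≤
      (U.card : ℝ) * Real.exp (-(m / (16 * q))) := by
    rw [← nsmul_eq_mul]
    refine Finset.sum_le_card_nsmul _ _ _ fun X hX => ?_
    have h1 : (1 + p * (a - 1)) ^ X.card ≤ Real.exp (m / q * (15 / 16)) := by
      calc (1 + p * (a - 1)) ^ X.card ≤ (Real.exp (p * (a - 1))) ^ X.card := by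
            have h2 : 0 ≤ p * (a - 1) := mul_nonneg hp0.le (by linarith)
            refine pow_le_pow_left₀ (by linarith) ?_ _
            have := Real.add_one_le_exp (p * (a - 1))
            linarith
        _ = Real.exp (X.card * (p * (a - 1))) := by rw [← Real.exp_nat_mul]
        _ ≤ Real.exp (m / q * (15 / 16)) := by
            apply Real.exp_le_exp.2
            have h3 : (X.card : ℝ) * (p * (a - 1)) ≤ m * (p * (15 / 16)) := by
              apply mul_le_mul (hU X hX) _ (mul_nonneg hp0.le (by linarith)) hm.le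
              exact mul_le_mul_of_nonneg_left (by linarith) hp0.le
            refine h3.trans (le_of_eq ?_)
            rw [hp]
            ring
    calc Real.exp (-(m / q)) * (1 + p * (a - 1)) ^ X.card ≤
          Real.exp (-(m / q)) * Real.exp (m / q * (15 / 16)) :=
          mul_le_mul_of_nonneg_left h1 (Real.exp_pos _).le
      _ = Real.exp (-(m / (16 * q))) := by
          rw [← Real.exp_add]
          congr 1
          field_simp
          ring
  have hL' : ∑ X ∈ L, Real.exp (t / (4 * q)) * (1 + p * (a⁻¹ - 1)) ^ X.card ≤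
      (L.card : ℝ) * Real.exp (-(t / (16 * q))) := by
    rw [← nsmul_eq_mul]
    refine Finset.sum_le_card_nsmul _ _ _ fun X hX => ?_
    have hainv0 : 0 < a⁻¹ := inv_pos.2 ha0
    have h1 : (1 + p * (a⁻¹ - 1)) ^ X.card ≤ Real.exp (-(t / q * (5 / 16))) := by
      calc (1 + p * (a⁻¹ - 1)) ^ X.card ≤ (Real.exp (p * (a⁻¹ - 1))) ^ X.card := by
            refine pow_le_pow_left₀ ?_ ?_ _
            · nlinarith
            · have := Real.add_one_le_exp (p * (a⁻¹ - 1))
              linarith
        _ = Real.exp (X.card * (p * (a⁻¹ - 1))) := by rw [← Real.exp_nat_mul]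
        _ ≤ Real.exp (-(t / q * (5 / 16))) := by
            apply Real.exp_le_exp.2
            have h3 : t * (p * (5 / 16)) ≤ (X.card : ℝ) * (p * (1 - a⁻¹)) := by
              apply mul_le_mul (hL X hX) _ (by positivity) (by positivity)
              exact mul_le_mul_of_nonneg_left (by linarith) hp0.le
            have h4 : t * (p * (5 / 16)) = t / q * (5 / 16) := by
              rw [hp]
              ring
            rw [h4] at h3
            linarith
    calc Real.exp (t / (4 * q)) * (1 + p * (a⁻¹ - 1)) ^ X.card ≤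
          Real.exp (t / (4 * q)) * Real.exp (-(t / q * (5 / 16))) :=
          mul_le_mul_of_nonneg_left h1 (Real.exp_pos _).le
      _ = Real.exp (-(t / (16 * q))) := by
          rw [← Real.exp_add]
          congr 1
          field_simp
          ring
  linarith

end PHP
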