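import Mathlib
import Pool.Agent.PHP.AsymSub

/-!
# Colouring a part of the elements with `κ` colours, for the cells of depth `3κ` in this part
-/

namespace PHP

open Finset

theorem Sys.Circ.clos_sub {ι : Type} [Fintype ι] [DecidableEq ι] {S : Sys ι} {F : ι → Bool}
    {l : List (ι × Bool)} (h : S.Circ F l) (Z : Finset ι) (κ : ℕ) (hκ : 1 ≤ κ) :
    ∃ c : ι → Fin κ, ∀ X ∈ S.T, 3 * κ ≤ hit Z X → ∀ j, ∃ i ∈ Z, c i = j ∧ X i = true := by
  rcases Nat.lt_or_ge κ 2 with hκ2 | hκ2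
  · obtain rfl : κ = 1 := by omega
    refine ⟨fun _ => 0, fun X _ hm j => ?_⟩
    obtain ⟨i, hi, hXi⟩ := main_exists_of_hit (R := Z) (X := X) (by omega)
    exact ⟨i, hi, Subsingleton.elim _ _, hXi⟩
  · obtain ⟨S'', l'', h'', hT'', -⟩ :=
      h.comap (Function.Embedding.subtype (fun i => i ∈ Z))
    obtain ⟨c, hc⟩ := h''.split κ hκ2
      ((fun X : ι → Bool => X ∘ (Function.Embedding.subtype (fun i => i ∈ Z))) ''
        {X | X ∈ S.T ∧ 3 * κ ≤ hit Z X})
      (by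
        rintro _ ⟨X, hX, rfl⟩
        rw [hT'']
        exact ⟨X, hX.1, rfl⟩)
      (by
        rintro _ ⟨X, hX, rfl⟩
        simp only
        rw [asym_dep_sub]
        have := hX.2
        omega)
    obtain ⟨c', hc'⟩ := asym_extend (by omega) Z {X | X ∈ S.T ∧ 3 * κ ≤ hit Z X} c hc
    exact ⟨c', fun X hX hm => hc' X ⟨hX, hm⟩⟩

end PHP
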