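import Mathlib
import Pool.Agent.PHP.ClosLevel
import Pool.Agent.PHP.ClosSub
import Pool.Agent.PHP.ClosRes

/-!
# The colouring: levels and the reserve
-/

set_option linter.unusedSectionVars false

namespace PHP

open Finset

variable {ι : Type} [Fintype ι] [DecidableEq ι]

/-- iterated closures -/
noncomputable def Sweep.cl (W : Sweep ι) (F : ι → Bool) (c : ℕ) (O : Finset ι) : ℕ → Finset ι
  | 0 => O
  | j + 1 => W.clo F c (Sweep.cl W F c O j)

theorem Sweep.cl_mono (W : Sweep ι) (F : ι → Bool) (c : ℕ) (O : Finset ι) {i j : ℕ} (h : i ≤ j) :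
    W.cl F c O i ⊆ W.cl F c O j := by
  induction h with
  | refl => exact Subset.refl _
  | step _ ih => exact ih.trans (W.subset_clo F c _)

theorem Sweep.card_cl (W : Sweep ι) (F : ι → Bool) (c : ℕ) (O : Finset ι) (j : ℕ) :
    (W.cl F c O j).card ≤ (2 * c + 1) ^ j * O.card := by
  induction j with
  | zero => simp [Sweep.cl]
  | succ j ih =>
    calc (W.cl F c O (j+1)).card ≤ (2 * c + 1) * (W.cl F c O j).card := W.card_clo F c _
      _ ≤ (2 * c + 1) * ((2 * c + 1) ^ j * O.card) := Nat.mul_le_mul_left _ ih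
      _ = _ := by ring

/-- the numbering of disjoint sets -/
theorem exists_idx {l : List (Finset ι)} (h : l.Pairwise Disjoint) :
    ∃ g : ι → ℕ, ∀ i (hi : i < l.length), ∀ v ∈ l[i], g v = i := by
  classical
  have hex : ∀ v : ι, ∃ a : ℕ, ∀ i (hi : i < l.length), v ∈ l[i] → a = i := by
    intro v
    by_cases hv : ∃ i, ∃ hi : i < l.length, v ∈ l[i]
    · obtain ⟨i, hi, hvi⟩ := hv
      refine ⟨i, fun j hj hvj => ?_⟩
      rw [List.pairwise_iff_getElem] at h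
      by_contra hne
      rcases Nat.lt_or_gt_of_ne hne with h1 | h1
      · exact disjoint_left.1 (h i j hi hj h1) hvi hvj
      · exact disjoint_left.1 (h j i hj hi h1) hvj hvi
    · exact ⟨0, fun j hj hvj => absurd ⟨j, hj, hvj⟩ hv⟩
  choose g hg using hex
  exact ⟨g, fun i hi v hv => hg v i hi hv⟩

/-- all levels -/
theorem Sweep.levels (W : Sweep ι) (F : ι → Bool) {O : Finset ι} (hO : W.Cel F O) {m r t k J : ℕ}
    (ht : 1 ≤ t) (hk : 1 ≤ k) {e N Wd x0 : ℝ} (he0 : 0 < e) (he1 : e ≤ 1 / 2) {μ : ℕ → ℕ}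
    (hμm : ∀ j, μ j ≤ m)
    (hN : ∀ j < J, 2 * (((W.cl F (2 * m) O (j+1)).card : ℝ) + 1) ^ 2 ≤ N)
    (hW2 : 2 ≤ Wd) (hWd : 20 * ((m : ℝ) / k) ^ 3 ≤ Wd)
    (h4 : Real.log N / (e / Wd) + 1 ≤ e * x0) (h5 : 2 * (t : ℝ) + 8 * k ≤ e * ((1 - e) * x0))
    (h6 : ∀ j < J, x0 + 2 * (1 + e) / (1 - e) ^ 3 * r ≤ μ j)
    (h7 : ∀ j < J, (μ (j+1) : ℝ) ≤
      μ j - 2 * (1 + e) / (1 - e) ^ 3 * r - Real.log N / (e / Wd))
    {V1 : Finset ι}
    (hA : ∀ X, W.Cel F X → X.card = m → μ 0 ≤ (X ∩ V1).card)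
    (hB : ∀ X, W.Cel F X → m ≤ (X ∩ W.cl F (2 * m) O 1).card →
      μ 0 ≤ (X ∩ W.cl F (2 * m) O 1 ∩ V1).card) :
    ∀ n ≤ J, ∃ (V : Finset ι) (f : ι → ℕ), V ⊆ V1 ∧
      (∀ j < n, ∀ i < r, ∀ X, W.Cel F X → X.card = m →
        (X ∩ (W.cl F (2 * m) O (j+2) \ W.cl F (2 * m) O (j+1))).card < t →
        (X ∩ (W.cl F (2 * m) O (j+3) \ W.cl F (2 * m) O (j+2))).card < t →
        ∃ v ∈ X, v ∈ V1 ∧ v ∉ V ∧ f v = j * r + i) ∧
      (∀ j < n, ∀ i < r, ∀ X, W.Cel F X → m ≤ (X ∩ W.cl F (2 * m) O 1).card →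
        ∃ v ∈ X, v ∈ V1 ∧ v ∉ V ∧ f v = j * r + i) ∧
      (∀ X, W.Cel F X → X.card = m → μ n ≤ (X ∩ V).card) ∧
      (∀ X, W.Cel F X → m ≤ (X ∩ W.cl F (2 * m) O 1).card →
        μ n ≤ (X ∩ W.cl F (2 * m) O (n+1) ∩ V).card) := by
  classical
  intro n
  induction n with
  | zero =>
    intro _
    exact ⟨V1, fun _ => 0, Subset.refl _, fun j hj => absurd hj (Nat.not_lt_zero _),
      fun j hj => absurd hj (Nat.not_lt_zero _), hA, hB⟩
  | succ n ih =>
    intro hn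
    obtain ⟨V, f, hV, h1, h2, h3, h8⟩ := ih (by omega)
    obtain ⟨l, V', l1, l2, l3, l4, l5, l6⟩ := W.level F (O := O) (S := W.cl F (2 * m) O (n+1))
      (S1 := W.cl F (2 * m) O (n+2)) (S2 := W.cl F (2 * m) O (n+3)) (V0 := V) (m := m) hO
      (W.cl_mono F (2 * m) O (Nat.zero_le (n+1))) rfl rfl (μ := μ n) (μ' := μ (n+1)) (r := r)
      (hμm n) ht hk he0 he1 (hN n (by omega)) hW2 hWd h4 h5 (h6 n (by omega)) (h7 n (by omega)) h3
      (B := fun X => W.Cel F X ∧ m ≤ (X ∩ W.cl F (2 * m) O 1).card)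
      (fun X hX => ⟨hX.1, h8 X hX.1 hX.2⟩)
    obtain ⟨g, hg⟩ := exists_idx l2
    refine ⟨V', fun v => if v ∈ V then n * r + g v else f v, l3.trans hV, ?_, ?_, l5, ?_⟩
    · intro j hj i hi X hX hXm hX1 hX2
      rcases Nat.lt_succ_iff_lt_or_eq.1 hj with hj' | rfl
      · obtain ⟨v, hv1, hv2, hv3, hv4⟩ := h1 j hj' i hi X hX hXm hX1 hX2
        exact ⟨v, hv1, hv2, fun h => hv3 (l3 h), by simp [hv3, hv4]⟩
      · have hi' : i < l.length := by omega
        obtain ⟨hH1, hH2, hH3, hH4⟩ := l4 l[i] (List.getElem_mem hi')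
        obtain ⟨v, hv⟩ := hH3 X hX hXm ⟨(card_le_card inter_subset_left).trans_lt hX1,
          (card_le_card inter_subset_left).trans_lt hX2⟩
        rw [mem_inter] at hv
        refine ⟨v, hv.1, hV (hH1 hv.2), disjoint_left.1 hH2 hv.2, ?_⟩
        simp [hH1 hv.2, hg i hi' v hv.2]
    · intro j hj i hi X hX hXm
      rcases Nat.lt_succ_iff_lt_or_eq.1 hj with hj' | rfl
      · obtain ⟨v, hv1, hv2, hv3, hv4⟩ := h2 j hj' i hi X hX hXm
        exact ⟨v, hv1, hv2, fun h => hv3 (l3 h), by simp [hv3, hv4]⟩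
      · have hi' : i < l.length := by omega
        obtain ⟨hH1, hH2, hH3, hH4⟩ := l4 l[i] (List.getElem_mem hi')
        obtain ⟨v, hv⟩ := hH4 X ⟨hX, hXm⟩
        rw [mem_inter] at hv
        refine ⟨v, hv.1, hV (hH1 hv.2), disjoint_left.1 hH2 hv.2, ?_⟩
        simp [hH1 hv.2, hg i hi' v hv.2]
    · intro X hX hXm
      refine (l6 X ⟨hX, hXm⟩).trans (card_le_card ?_)
      exact inter_subset_inter_right (inter_subset_inter_left
        (W.cl_mono F (2 * m) O (Nat.le_succ _)))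

/-- the core of the argument: the colours `0, …, J r - 1` all occur in every cell of depth `m` -/
theorem Sweep.clos_core (W : Sweep ι) (F : ι → Bool)
    (hsub : ∀ (Z : Finset ι) (κ : ℕ), 1 ≤ κ → ∃ c : ι → Fin κ, ∀ X, W.Cel F X →
      3 * κ ≤ (X ∩ Z).card → ∀ j, ∃ i ∈ X ∩ Z, c i = j)
    {O : Finset ι} (hO : W.Cel F O) {m r t k J q : ℕ}
    (hr : 1 ≤ r) (ht : 1 ≤ t) (hk : 1 ≤ k) (hm : 1 ≤ m) (hq : 2 ≤ q) {e N Wd x0 : ℝ} (he0 : 0 < e)
    (he1 : e ≤ 1 / 2)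
    {μ : ℕ → ℕ} (hμm : ∀ j, μ j ≤ m) (hμ0 : (μ 0 : ℝ) ≤ m - 2 * m / q)
    (hN : ∀ j < J, 2 * (((W.cl F (2 * m) O (j+1)).card : ℝ) + 1) ^ 2 ≤ N)
    (hW2 : 2 ≤ Wd) (hWd : 20 * ((m : ℝ) / k) ^ 3 ≤ Wd)
    (h4 : Real.log N / (e / Wd) + 1 ≤ e * x0) (h5 : 2 * (t : ℝ) + 8 * k ≤ e * ((1 - e) * x0))
    (h6 : ∀ j < J, x0 + 2 * (1 + e) / (1 - e) ^ 3 * r ≤ μ j)
    (h7 : ∀ j < J, (μ (j+1) : ℝ) ≤
      μ j - 2 * (1 + e) / (1 - e) ^ 3 * r - Real.log N / (e / Wd))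
    (hres : (((W.cl F (2 * m) O (J+2)).card : ℝ) + 1) ^ 2 * Real.exp (-((m : ℝ) / (16 * q))) +
      ((J : ℝ) + 1) * (((W.cl F (2 * m) O (J+2)).card : ℝ) + 1) ^ 2 *
        Real.exp (-((t : ℝ) / (16 * q))) < 1)
    (htq : 12 * r * q ≤ t) :
    ∃ f : ι → ℕ, ∀ a < J * r, ∀ X, W.Cel F X → m ≤ X.card → ∃ v ∈ X, f v = a := by
  classical
  set cl : ℕ → Finset ι := W.cl F (2 * m) O with hcl
  have hmono : ∀ {i j : ℕ}, i ≤ j → cl i ⊆ cl j := fun h => W.cl_mono F (2 * m) O h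
  set L : Finset ι := cl (J+2) \ cl 1 with hL
  have hLc : L.card ≤ (cl (J+2)).card := card_le_card sdiff_subset
  -- the reserve
  set U : Finset (Finset ι) := univ.filter (fun T => ∃ X, W.Cel F X ∧ X.card = m ∧ T = X ∩ L)
    with hU
  set Lw : ℕ → Finset (Finset ι) := fun w => univ.filter (fun T => ∃ X, W.Cel F X ∧
    t ≤ (X ∩ (cl (w+2) \ cl (w+1))).card ∧ T = X ∩ (cl (w+2) \ cl (w+1))) with hLw
  have hUc : U.card ≤ ((cl (J+2)).card + 1) ^ 2 := by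
    refine (W.card_trace F L U ?_).trans (Nat.pow_le_pow_left (by omega) 2)
    intro T hT
    rw [hU, mem_filter] at hT
    obtain ⟨-, X, h1, -, h3⟩ := hT
    exact ⟨X, h1, h3⟩
  have hLwc : ∀ w ≤ J, (Lw w).card ≤ ((cl (J+2)).card + 1) ^ 2 := by
    intro w hw
    have h1 : (cl (w+2) \ cl (w+1)).card ≤ (cl (J+2)).card :=
      card_le_card (sdiff_subset.trans (hmono (by omega)))
    refine (W.card_trace F (cl (w+2) \ cl (w+1)) (Lw w) ?_).trans
      (Nat.pow_le_pow_left (by omega) 2)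
    intro T hT
    rw [hLw, mem_filter] at hT
    obtain ⟨-, X, h1, -, h3⟩ := hT
    exact ⟨X, h1, h3⟩
  set LL : Finset (Finset ι) := (range (J+1)).biUnion Lw with hLL
  have hLLc : LL.card ≤ (J + 1) * ((cl (J+2)).card + 1) ^ 2 := by
    have h1 := card_biUnion_le_card_mul (range (J+1)) Lw (((cl (J+2)).card + 1) ^ 2)
      (fun w hw => hLwc w (by rw [mem_range] at hw; omega))
    rwa [card_range] at h1
  have hm0 : (0 : ℝ) < m := by exact_mod_cast hm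
  have ht0 : (0 : ℝ) < t := by exact_mod_cast ht
  have hq0 : (0 : ℝ) < q := by
    have : 0 < q := by omega
    exact_mod_cast this
  obtain ⟨R0, hR1, hR2⟩ := clos_reserve q hq U LL m t
    (by
      intro T hT
      rw [hU, mem_filter] at hT
      obtain ⟨-, X, h1, h2, h3⟩ := hT
      have h4 : T.card ≤ m := by
        rw [h3, ← h2]
        exact card_le_card inter_subset_left
      exact_mod_cast h4)
    (by
      intro T hT
      rw [hLL, mem_biUnion] at hT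
      obtain ⟨w, -, hT⟩ := hT
      rw [hLw, mem_filter] at hT
      obtain ⟨-, X, h1, h2, h3⟩ := hT
      rw [h3]
      exact_mod_cast h2)
    (by
      refine lt_of_le_of_lt (add_le_add ?_ ?_) hres
      · apply mul_le_mul_of_nonneg_right _ (Real.exp_nonneg _)
        exact_mod_cast hUc
      · apply mul_le_mul_of_nonneg_right _ (Real.exp_nonneg _)
        exact_mod_cast hLLc) hm0 ht0
  set Res : Finset ι := R0 ∩ L with hRes
  set V1 : Finset ι := univ \ Res with hV1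
  -- the colouring of the reserve
  have hex : ∀ w : ℕ, ∃ c : ι → Fin (2 * r), ∀ X, W.Cel F X → 3 * (2 * r) ≤
      (X ∩ (R0 ∩ (cl (w+2) \ cl (w+1)))).card →
      ∀ j, ∃ i ∈ X ∩ (R0 ∩ (cl (w+2) \ cl (w+1))), c i = j :=
    fun w => hsub _ _ (by omega)
  choose c hc using hex
  have hwin : ∀ w ≤ J, ∀ X, W.Cel F X → t ≤ (X ∩ (cl (w+2) \ cl (w+1))).card →
      3 * (2 * r) ≤ (X ∩ (R0 ∩ (cl (w+2) \ cl (w+1)))).card := by
    intro w hw X hX hXt
    have h1 := hR2 (X ∩ (cl (w+2) \ cl (w+1))) (by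
      rw [hLL, mem_biUnion]
      refine ⟨w, by rw [mem_range]; omega, ?_⟩
      rw [hLw, mem_filter]
      exact ⟨mem_univ _, X, hX, hXt, rfl⟩)
    have h2 : X ∩ (cl (w+2) \ cl (w+1)) ∩ R0 = X ∩ (R0 ∩ (cl (w+2) \ cl (w+1))) := by
      rw [inter_assoc, inter_comm R0]
    rw [h2, div_le_iff₀ (by positivity)] at h1
    have h3 : (12 * r * q : ℝ) ≤ t := by exact_mod_cast htq
    have h4 : ((3 * (2 * r) : ℕ) : ℝ) * (2 * q) ≤
        ((X ∩ (R0 ∩ (cl (w+2) \ cl (w+1)))).card : ℝ) * (2 * q) := by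
      push_cast
      linarith
    have h5 := le_of_mul_le_mul_right h4 (by positivity)
    exact_mod_cast h5
  -- the number of the level of an element
  have hlv : ∀ v : ι, ∃ a : ℕ, ∀ w ≤ J, v ∈ cl (w+2) \ cl (w+1) → a = w := by
    intro v
    by_cases hv : ∃ w, w ≤ J ∧ v ∈ cl (w+2) \ cl (w+1)
    · obtain ⟨w, hw, hvw⟩ := hv
      refine ⟨w, fun w' hw' hvw' => ?_⟩
      rw [mem_sdiff] at hvw hvw'
      by_contra hne
      rcases Nat.lt_or_gt_of_ne hne with h1 | h1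
      · exact hvw'.2 (hmono (by omega) hvw.1)
      · exact hvw.2 (hmono (by omega) hvw'.1)
    · exact ⟨0, fun w hw hvw => absurd ⟨w, hw, hvw⟩ hv⟩
  choose lv hlv using hlv
  -- the levels
  have hA : ∀ X, W.Cel F X → X.card = m → μ 0 ≤ (X ∩ V1).card := by
    intro X hX hXm
    have h1 := hR1 (X ∩ L) (by
      rw [hU, mem_filter]
      exact ⟨mem_univ _, X, hX, hXm, rfl⟩)
    have h2 : X ∩ L ∩ R0 = X ∩ Res := by
      rw [hRes, inter_assoc, inter_comm L]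
    rw [h2] at h1
    have h3 : (X ∩ V1).card + (X ∩ Res).card = m := by
      have h6 : X ∩ V1 = X \ Res := by
        ext v
        simp [hV1]
      rw [← hXm, h6, card_sdiff_add_card_inter]
    have h4 : ((X ∩ V1).card : ℝ) + (X ∩ Res).card = m := by exact_mod_cast h3
    have h5 : (μ 0 : ℝ) ≤ (X ∩ V1).card := by linarith
    exact_mod_cast h5
  have hB : ∀ X, W.Cel F X → m ≤ (X ∩ cl 1).card → μ 0 ≤ (X ∩ cl 1 ∩ V1).card := by
    intro X hX hXm
    have h1 : X ∩ cl 1 ∩ V1 = X ∩ cl 1 := by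
      rw [inter_eq_left]
      intro v hv
      rw [mem_inter] at hv
      rw [hV1, mem_sdiff, hRes, mem_inter, hL, mem_sdiff]
      exact ⟨mem_univ _, fun h => h.2.2 hv.2⟩
    rw [h1]
    exact (hμm 0).trans hXm
  obtain ⟨V, f, hV, g1, g2, -, -⟩ := W.levels F hO ht hk he0 he1 hμm hN hW2 hWd h4 h5 h6 h7
    (V1 := V1) hA hB J le_rfl
  -- the colouring
  refine ⟨fun v => if v ∈ Res then (lv v + 2) * r + (c (lv v) v).val - 3 * r else f v, ?_⟩
  intro a ha X hX hXm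
  obtain ⟨Y, hY, hYX, hY2⟩ := W.reduce F (c := 2 * m) (m := m) (by omega) hO _ X rfl hX hXm
  obtain ⟨j, i, hj, hi, rfl⟩ : ∃ j i, j < J ∧ i < r ∧ a = j * r + i := by
    refine ⟨a / r, a % r, ?_, Nat.mod_lt _ hr, ?_⟩
    · rw [Nat.div_lt_iff_lt_mul hr]
      exact ha
    · have := Nat.div_add_mod a r
      rw [mul_comm r] at this
      exact this.symm
  suffices h : ∃ v ∈ Y, (if v ∈ Res then (lv v + 2) * r + (c (lv v) v).val - 3 * r else f v) =
      j * r + i by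
    obtain ⟨v, hv, h⟩ := h
    exact ⟨v, hYX hv, h⟩
  have hout : (∃ v ∈ Y, v ∈ V1 ∧ v ∉ V ∧ f v = j * r + i) →
      ∃ v ∈ Y, (if v ∈ Res then (lv v + 2) * r + (c (lv v) v).val - 3 * r else f v) =
      j * r + i := by
    rintro ⟨v, hv, hv1, -, hv3⟩
    refine ⟨v, hv, ?_⟩
    rw [hV1, mem_sdiff] at hv1
    rw [if_neg hv1.2, hv3]
  have hin : ∀ w ≤ J, t ≤ (Y ∩ (cl (w+2) \ cl (w+1))).card → ∀ b : Fin (2 * r),
      (w + 2) * r + b.val - 3 * r = j * r + i →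
      ∃ v ∈ Y, (if v ∈ Res then (lv v + 2) * r + (c (lv v) v).val - 3 * r else f v) =
      j * r + i := by
    intro w hw hYt b hb
    obtain ⟨v, hv, hcv⟩ := hc w Y hY (hwin w hw Y hY hYt) b
    rw [mem_inter, mem_inter] at hv
    have h1 : v ∈ Res := by
      rw [hRes, mem_inter, hL, mem_sdiff]
      have h2 := hv.2.2
      rw [mem_sdiff] at h2
      exact ⟨hv.2.1, hmono (by omega) h2.1, fun h3 => h2.2 (hmono (by omega) h3)⟩
    refine ⟨v, hv.1, ?_⟩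
    rw [if_pos h1, hlv v w hw hv.2.2, hcv]
    exact hb
  rcases hY2 with hYm | hYm
  · by_cases hb1 : (Y ∩ (cl (j+2) \ cl (j+1))).card < t
    · by_cases hb2 : (Y ∩ (cl (j+3) \ cl (j+2))).card < t
      · exact hout (g1 j hj i hi Y hY hYm hb1 hb2)
      · refine hin (j+1) (by omega) (by rw [not_lt] at hb2; exact hb2) ⟨i, by omega⟩ ?_
        simp only
        have h1 : (j + 1 + 2) * r = j * r + 3 * r := by ring
        rw [h1]
        omega
    · refine hin j (by omega) (by rw [not_lt] at hb1; exact hb1) ⟨r + i, by omega⟩ ?_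
      simp only
      have h1 : (j + 2) * r = j * r + 2 * r := by ring
      rw [h1]
      omega
  · exact hout (g2 j hj i hi Y hY hYm)

end PHP
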