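import Mathlib
import Pool.Agent.PHP.ClosMain

/-!
# The choice of the parameters
-/

set_option linter.unusedSectionVars false

namespace PHP

open Finset

theorem clos_z {u : ℝ} (hu : 64 ≤ u) {m : ℕ} (hm : (12 * u) ^ 15 ≤ 6 * (m : ℝ)) :
    ∃ z : ℝ, 12 * u ≤ z ∧ (12 : ℝ) ^ 14 / 6 * z * u ^ 14 ≤ m ∧ Real.log (6 * m) ≤ 15 * z := by
  have hm0 : (0 : ℝ) < 6 * m := lt_of_lt_of_le (by positivity) hm
  have h15 : (((6 * (m : ℝ)) ^ ((1 : ℝ) / 15)) ^ 15) = 6 * m := by
    rw [← Real.rpow_natCast, ← Real.rpow_mul hm0.le]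
    norm_num
  have hz0 : 0 < (6 * (m : ℝ)) ^ ((1 : ℝ) / 15) := Real.rpow_pos_of_pos hm0 _
  set z : ℝ := (6 * (m : ℝ)) ^ ((1 : ℝ) / 15) with hz
  have h1 : 12 * u ≤ z := by
    rw [← h15] at hm
    exact le_of_pow_le_pow_left₀ (by norm_num) hz0.le hm
  refine ⟨z, h1, ?_, ?_⟩
  · have h2 : (12 * u) ^ 14 ≤ z ^ 14 := pow_le_pow_left₀ (by linarith) h1 14
    have h3 : (12 * u) ^ 14 * z ≤ z ^ 14 * z := mul_le_mul_of_nonneg_right h2 hz0.le
    have h4 : z ^ 14 * z = 6 * m := by
      rw [← h15]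
      ring
    rw [h4] at h3
    have h5 : (12 * u) ^ 14 * z = 6 * ((12 : ℝ) ^ 14 / 6 * z * u ^ 14) := by ring
    rw [h5] at h3
    linarith
  · rw [← h15, Real.log_pow]
    have := Real.log_le_sub_one_of_pos hz0
    push_cast
    linarith

theorem floor_half {x : ℝ} (hx : 1 ≤ x) : x / 2 ≤ (⌊x⌋₊ : ℝ) := by
  have h1 : x < ⌊x⌋₊ + 1 := Nat.lt_floor_add_one x
  have h2 : (1 : ℝ) ≤ ⌊x⌋₊ := by
    have : 1 ≤ ⌊x⌋₊ := Nat.le_floor (by exact_mod_cast hx)
    exact_mod_cast this
  linarith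

theorem clos_alpha {e : ℝ} (he0 : 0 < e) (he64 : e ≤ 1 / 64) :
    2 * (1 + e) / (1 - e) ^ 3 ≤ 2 + 10 * e := by
  have h1e : 0 < 1 - e := by linarith
  rw [div_le_iff₀ (by positivity)]
  have h1 : 1 - 3 * e ≤ (1 - e) ^ 3 := by nlinarith [sq_nonneg e, pow_pos he0 3]
  have h2 : (2 + 10 * e) * (1 - 3 * e) ≤ (2 + 10 * e) * (1 - e) ^ 3 :=
    mul_le_mul_of_nonneg_left h1 (by positivity)
  nlinarith

theorem clos_beta {e : ℝ} (he0 : 0 < e) (he64 : e ≤ 1 / 64) :
    2 + 10 * e ≤ (1 - 4 * e) * (2 + 64 * e) := by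
  nlinarith

variable {ι : Type} [Fintype ι] [DecidableEq ι]

theorem Sweep.clos_thm (W : Sweep ι) (F : ι → Bool)
    (hsub : ∀ (Z : Finset ι) (κ : ℕ), 1 ≤ κ → ∃ c : ι → Fin κ, ∀ X, W.Cel F X →
      3 * κ ≤ (X ∩ Z).card → ∀ j, ∃ i ∈ X ∩ Z, c i = j)
    {O : Finset ι} (hO : W.Cel F O) {u : ℝ} (hu : 64 ≤ u) {m k : ℕ} (hOm : O.card ≤ 2 * m)
    (hk : 1 ≤ k) (hmk : (2 + 64 / u) * k ≤ m) (hm : (12 * u) ^ 15 ≤ 6 * (m : ℝ)) :
    ∃ f : ι → ℕ, ∀ a < k, ∀ X, W.Cel F X → m ≤ X.card → ∃ v ∈ X, f v = a := by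
  obtain ⟨z, hz1, hz2, hz3⟩ := clos_z hu hm
  have hu0 : 0 < u := by linarith
  have hz0 : 0 < z := by linarith
  have hu1 : ∀ n : ℕ, 1 ≤ u ^ n := fun n => one_le_pow₀ (by linarith)
  have hz4 : 1 ≤ z := by linarith
  -- consequences of `hz2`
  have hmz : ∀ (c : ℝ) (n : ℕ), n ≤ 14 → 0 ≤ c → c ≤ (12 : ℝ) ^ 14 / 6 → c * z * u ^ n ≤ m := by
    intro c n hn hc hc2
    have h1 : u ^ n ≤ u ^ 14 := pow_le_pow_right₀ (by linarith) hn
    calc c * z * u ^ n ≤ (12 : ℝ) ^ 14 / 6 * z * u ^ 14 := by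
          apply mul_le_mul (mul_le_mul_of_nonneg_right hc2 hz0.le) h1 (by positivity)
            (by positivity)
      _ ≤ m := hz2
  have hmc : ∀ (c : ℝ) (n : ℕ), n ≤ 14 → 0 ≤ c → c ≤ (12 : ℝ) ^ 14 / 6 → c * u ^ n ≤ m := by
    intro c n hn hc hc2
    refine le_trans ?_ (hmz c n hn hc hc2)
    exact mul_le_mul_of_nonneg_right (le_mul_of_one_le_right hc hz4) (by positivity)
  have hm1 : (1 : ℝ) ≤ m := by
    have := hmc 1 0 (by norm_num) (by norm_num) (by norm_num)
    simpa using this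
  have hm1' : 1 ≤ m := by exact_mod_cast hm1
  have hk1 : (1 : ℝ) ≤ k := by exact_mod_cast hk
  have hkm : 2 * (k : ℝ) ≤ m := by
    have h1 : 0 ≤ 64 / u * k := by positivity
    have h2 : (2 + 64 / u) * (k : ℝ) = 2 * k + 64 / u * k := by ring
    linarith
  set e : ℝ := 1 / u with he
  have he0 : 0 < e := by positivity
  have heu : e * u = 1 := by rw [he]; field_simp
  have he64 : e ≤ 1 / 64 := by
    rw [he]
    exact one_div_le_one_div_of_le (by norm_num) hu
  -- `q`
  set q : ℕ := ⌈u⌉₊ with hq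
  have hq1 : u ≤ q := Nat.le_ceil u
  have hq2 : (q : ℝ) ≤ 2 * u := by
    have := Nat.ceil_lt_add_one hu0.le
    rw [← hq] at this
    linarith
  have hq3 : 2 ≤ q := by
    have : (2 : ℝ) ≤ q := by linarith
    exact_mod_cast this
  have hq0 : (0 : ℝ) < q := by linarith
  -- `t` and the margin
  have hem : (64 : ℝ) ≤ m / u ^ 2 := by
    rw [le_div_iff₀ (by positivity)]
    exact hmc 64 2 (by norm_num) (by norm_num) (by norm_num)
  set t : ℕ := ⌊(m : ℝ) / u ^ 2 / 8⌋₊ with ht
  set κ : ℕ := ⌊(m : ℝ) / u ^ 2 / 32⌋₊ with hκ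
  have ht1 : (m : ℝ) / u ^ 2 / 8 / 2 ≤ t := floor_half (by linarith)
  have ht2 : (t : ℝ) ≤ m / u ^ 2 / 8 := Nat.floor_le (by positivity)
  have hκ1 : (m : ℝ) / u ^ 2 / 32 / 2 ≤ κ := floor_half (by linarith)
  have hκ2 : (κ : ℝ) ≤ m / u ^ 2 / 32 := Nat.floor_le (by positivity)
  have ht3 : 1 ≤ t := by
    have : (1 : ℝ) ≤ t := by linarith
    exact_mod_cast this
  have hκ3 : (1 : ℝ) ≤ κ := by linarith
  have hκ3' : 1 ≤ κ := by exact_mod_cast hκ3
  -- the width
  set Wd : ℝ := 5242880 * u ^ 6 with hWd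
  have hWd1 : 20 * ((m : ℝ) / κ) ^ 3 ≤ Wd := by
    have h1 : (m : ℝ) / κ ≤ 64 * u ^ 2 := by
      rw [div_le_iff₀ (by linarith)]
      have h2 : (m : ℝ) / u ^ 2 / 32 / 2 * (64 * u ^ 2) ≤ κ * (64 * u ^ 2) :=
        mul_le_mul_of_nonneg_right hκ1 (by positivity)
      have h3 : (m : ℝ) / u ^ 2 / 32 / 2 * (64 * u ^ 2) = m := by
        field_simp
        norm_num
      rw [h3] at h2
      linarith
    have h2 : ((m : ℝ) / κ) ^ 3 ≤ (64 * u ^ 2) ^ 3 := pow_le_pow_left₀ (by positivity) h1 3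
    have h3 : (64 * u ^ 2) ^ 3 = 262144 * u ^ 6 := by ring
    rw [h3] at h2
    rw [hWd]
    linarith
  have hWd2 : 2 ≤ Wd := by
    have := hu1 6
    rw [hWd]
    linarith
  -- `J` and `r`
  set J : ℕ := ⌈384 * u ^ 3⌉₊ with hJ
  have hJ1 : 384 * u ^ 3 ≤ J := Nat.le_ceil _
  have hJ2 : (J : ℝ) ≤ 385 * u ^ 3 := by
    have := Nat.ceil_lt_add_one (a := 384 * u ^ 3) (by positivity)
    rw [← hJ] at this
    have := hu1 3
    linarith
  have hJ0 : (0 : ℝ) < J := lt_of_lt_of_le (by positivity) hJ1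
  have hJ0' : 0 < J := by exact_mod_cast hJ0
  set r : ℕ := k / J + 1 with hr
  have hr1 : k < J * r := by
    rw [hr]
    exact Nat.lt_mul_div_succ k hJ0'
  have hr2 : (J : ℝ) * r ≤ k + J := by
    have h1 : J * (k / J) ≤ k := Nat.mul_div_le k J
    have h2 : J * r ≤ k + J := by
      rw [hr, mul_add, mul_one]
      omega
    exact_mod_cast h2
  have htq : 12 * r * q ≤ t := by
    have h1 : (12 * r * q : ℝ) ≤ t := by
      refine le_trans ?_ ht1
      rw [div_div, div_div, le_div_iff₀ (by positivity)]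
      have h2 : (384 * u ^ 3) * r ≤ k + J := (mul_le_mul_of_nonneg_right hJ1 (by positivity)).trans hr2
      have h3 : (J : ℝ) ≤ m / 2 := by
        have := hmc 770 3 (by norm_num) (by norm_num) (by norm_num)
        linarith
      calc (12 * r * q : ℝ) * (u ^ 2 * (8 * 2)) ≤ (12 * r * (2 * u)) * (u ^ 2 * (8 * 2)) := by
            apply mul_le_mul_of_nonneg_right _ (by positivity)
            apply mul_le_mul_of_nonneg_left hq2 (by positivity)
        _ = (384 * u ^ 3) * r := by ring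
        _ ≤ m := by linarith
    exact_mod_cast h1
  -- `N`
  set N : ℝ := (6 * (m : ℝ)) ^ (2 * J + 8) with hN
  have h6m : 1 ≤ 6 * (m : ℝ) := by linarith
  have hNlog0 : 0 ≤ Real.log N := Real.log_nonneg (one_le_pow₀ h6m)
  have hNlog : Real.log N ≤ 12000 * z * u ^ 3 := by
    rw [hN, Real.log_pow]
    push_cast
    have h1 : 2 * (J : ℝ) + 8 ≤ 800 * u ^ 3 := by
      have := hu1 3
      linarith
    calc (2 * (J : ℝ) + 8) * Real.log (6 * m) ≤ (2 * (J : ℝ) + 8) * (15 * z) :=
          mul_le_mul_of_nonneg_left hz3 (by positivity)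
      _ ≤ (800 * u ^ 3) * (15 * z) := mul_le_mul_of_nonneg_right h1 (by positivity)
      _ = 12000 * z * u ^ 3 := by ring
  set Λ : ℝ := Real.log N / (e / Wd) with hΛ
  have hΛ0 : 0 ≤ Λ := by positivity
  have hΛ1 : Λ ≤ 62914560000 * z * u ^ 10 := by
    have h1 : Λ = Real.log N * (5242880 * u ^ 7) := by
      rw [hΛ, hWd, he]
      field_simp
    rw [h1]
    calc Real.log N * (5242880 * u ^ 7) ≤ (12000 * z * u ^ 3) * (5242880 * u ^ 7) :=
          mul_le_mul_of_nonneg_right hNlog (by positivity)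
      _ = 62914560000 * z * u ^ 10 := by ring
  have hJΛ : (J : ℝ) * Λ ≤ 24222105600000 * z * u ^ 13 := by
    calc (J : ℝ) * Λ ≤ (385 * u ^ 3) * (62914560000 * z * u ^ 10) :=
          mul_le_mul hJ2 hΛ1 hΛ0 (by positivity)
      _ = 24222105600000 * z * u ^ 13 := by ring
  -- closures
  have hcl : ∀ j, (((W.cl F (2 * m) O j).card : ℝ) + 1) ≤ (5 * (m : ℝ)) ^ (j + 1) := by
    intro j
    have h1 : ((W.cl F (2 * m) O j).card : ℝ) ≤ (2 * (2 * (m : ℝ)) + 1) ^ j * O.card := by
      exact_mod_cast W.card_cl F (2 * m) O j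
    have h2 : (O.card : ℝ) ≤ 2 * m := by exact_mod_cast hOm
    have h3 : (2 * (2 * (m : ℝ)) + 1) ^ j ≤ (5 * m) ^ j :=
      pow_le_pow_left₀ (by positivity) (by linarith) j
    have h4 : 1 ≤ (5 * (m : ℝ)) ^ j := one_le_pow₀ (by linarith)
    calc ((W.cl F (2 * m) O j).card : ℝ) + 1 ≤ (2 * (2 * (m : ℝ)) + 1) ^ j * O.card + 1 := by
          linarith
      _ ≤ (5 * m) ^ j * (2 * m) + (5 * m) ^ j := by
          apply add_le_add _ h4
          exact mul_le_mul h3 h2 (by positivity) (by positivity)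
      _ ≤ (5 * (m : ℝ)) ^ (j + 1) := by
          have h5 : (5 * (m : ℝ)) ^ j * (2 * m + 1) ≤ (5 * (m : ℝ)) ^ j * (5 * m) :=
            mul_le_mul_of_nonneg_left (by linarith) (by positivity)
          rw [pow_succ]
          linarith
  have hN1 : ∀ j < J, 2 * (((W.cl F (2 * m) O (j+1)).card : ℝ) + 1) ^ 2 ≤ N := by
    intro j hj
    calc 2 * (((W.cl F (2 * m) O (j+1)).card : ℝ) + 1) ^ 2 ≤ 2 * ((5 * (m : ℝ)) ^ (j + 1 + 1)) ^ 2 := by
          have := pow_le_pow_left₀ (by positivity) (hcl (j+1)) 2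
          linarith
      _ = 2 * (5 * (m : ℝ)) ^ (2 * j + 4) := by
          rw [← pow_mul]
          congr 2
          ring
      _ ≤ (6 * (m : ℝ)) * (6 * (m : ℝ)) ^ (2 * j + 4) := by
          apply mul_le_mul (by linarith) (pow_le_pow_left₀ (by positivity) (by linarith) _)
            (by positivity) (by positivity)
      _ = (6 * (m : ℝ)) ^ (2 * j + 5) := by ring
      _ ≤ N := by
          rw [hN]
          exact pow_le_pow_right₀ h6m (by omega)
  have hN2 : ((J : ℝ) + 2) * (((W.cl F (2 * m) O (J+2)).card : ℝ) + 1) ^ 2 ≤ N := by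
    have h0 : (J : ℝ) + 2 ≤ 6 * m := by
      have := hmc 385 3 (by norm_num) (by norm_num) (by norm_num)
      linarith
    calc ((J : ℝ) + 2) * (((W.cl F (2 * m) O (J+2)).card : ℝ) + 1) ^ 2
        ≤ (6 * m) * ((5 * (m : ℝ)) ^ (J + 2 + 1)) ^ 2 := by
          apply mul_le_mul h0 (pow_le_pow_left₀ (by positivity) (hcl (J+2)) 2) (by positivity)
            (by positivity)
      _ = (6 * m) * (5 * (m : ℝ)) ^ (2 * J + 6) := by
          rw [← pow_mul]
          congr 2
          ring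
      _ ≤ (6 * (m : ℝ)) * (6 * (m : ℝ)) ^ (2 * J + 6) := by
          apply mul_le_mul le_rfl (pow_le_pow_left₀ (by positivity) (by linarith) _)
            (by positivity) (by positivity)
      _ = (6 * (m : ℝ)) ^ (2 * J + 7) := by ring
      _ ≤ N := by
          rw [hN]
          exact pow_le_pow_right₀ h6m (by omega)
  -- the factor
  set α : ℝ := 2 * (1 + e) / (1 - e) ^ 3 with hα
  have h1e : 0 < 1 - e := by linarith
  have hα0 : 0 < α := by positivity
  have hα1 : α ≤ 2 + 10 * e := clos_alpha he0 he64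
  -- the sequence
  set y : ℕ := ⌈α * r + Λ⌉₊ with hy
  have hy1 : α * r + Λ ≤ y := Nat.le_ceil _
  have hy2 : (y : ℝ) ≤ α * r + Λ + 1 := (Nat.ceil_lt_add_one (by positivity)).le
  set μ0 : ℕ := ⌊(1 - 2 * e) * m⌋₊ with hμ0
  have hμ1 : (μ0 : ℝ) ≤ (1 - 2 * e) * m :=
    Nat.floor_le (mul_nonneg (by linarith) (by linarith))
  have hμ2 : (1 - 2 * e) * m < μ0 + 1 := Nat.lt_floor_add_one _
  have hmain : e * m + J * y ≤ μ0 := by
    have h1 : (J : ℝ) * y ≤ α * (k + J) + J * Λ + J := by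
      calc (J : ℝ) * y ≤ J * (α * r + Λ + 1) := mul_le_mul_of_nonneg_left hy2 hJ0.le
        _ = α * (J * r) + J * Λ + J := by ring
        _ ≤ α * (k + J) + J * Λ + J := by
            have := mul_le_mul_of_nonneg_left hr2 hα0.le
            linarith
    have h2 : α * k ≤ (1 - 4 * e) * m := by
      have h64 : 64 / u = 64 * e := by rw [he]; ring
      rw [h64] at hmk
      calc α * k ≤ (2 + 10 * e) * k := mul_le_mul_of_nonneg_right hα1 (by positivity)
        _ ≤ ((1 - 4 * e) * (2 + 64 * e)) * k := by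
            exact mul_le_mul_of_nonneg_right (clos_beta he0 he64) (by positivity)
        _ = (1 - 4 * e) * ((2 + 64 * e) * k) := by ring
        _ ≤ (1 - 4 * e) * m := mul_le_mul_of_nonneg_left hmk (by linarith)
    have h3 : α * J + J * Λ + J + 1 ≤ e * m := by
      have h4 : α * J ≤ 3 * (385 * u ^ 3) := by
        apply mul_le_mul (by linarith) hJ2 hJ0.le (by norm_num)
      have h5 : u ^ 3 ≤ z * u ^ 13 := by
        have h6 : u ^ 3 ≤ u ^ 13 := pow_le_pow_right₀ (by linarith) (by norm_num)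
        exact h6.trans (le_mul_of_one_le_left (by positivity) hz4)
      have h6 : (1 : ℝ) ≤ u ^ 3 := hu1 3
      have h7 : 24300000000000 * z * u ^ 13 ≤ e * m := by
        have h8 := hmz 24300000000000 14 (by norm_num) (by norm_num) (by norm_num)
        have h9 : e * (24300000000000 * z * u ^ 14) ≤ e * m := mul_le_mul_of_nonneg_left h8 he0.le
        have h10 : e * (24300000000000 * z * u ^ 14) = (e * u) * (24300000000000 * z * u ^ 13) := by
          ring
        rw [h10, heu, one_mul] at h9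
        exact h9
      linarith
    have h4 : α * (k + J) = α * k + α * J := by ring
    rw [h4] at h1
    linarith
  have hμj : ∀ j ≤ J, ((μ0 - j * y : ℕ) : ℝ) = μ0 - j * y := by
    intro j hj
    have h1 : J * y ≤ μ0 := by
      have : (J : ℝ) * y ≤ μ0 := by
        have : 0 ≤ e * m := by positivity
        linarith
      exact_mod_cast this
    have h2 : j * y ≤ μ0 := (Nat.mul_le_mul_right y hj).trans h1
    rw [Nat.cast_sub h2]
    push_cast
    ring
  obtain ⟨f, hf⟩ := W.clos_core F hsub hO (m := m) (r := r) (t := t) (k := κ) (J := J) (q := q)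
    (Nat.succ_pos _) ht3 hκ3' hm1' hq3 (e := e) (N := N) (Wd := Wd) (x0 := e * m) he0 (by linarith)
    (μ := fun j => μ0 - j * y)
    (by
      intro j
      have h1 : μ0 ≤ m := by
        have : (μ0 : ℝ) ≤ m := by
          have : 0 ≤ e * m := by positivity
          linarith
        exact_mod_cast this
      exact (Nat.sub_le _ _).trans h1)
    (by
      have h1 : ((μ0 - 0 * y : ℕ) : ℝ) = μ0 := by simp
      rw [h1]
      have h2 : 2 * (m : ℝ) / q ≤ 2 * e * m := by
        rw [div_le_iff₀ hq0]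
        have h3 : (2 * e * m) * u ≤ (2 * e * m) * q := mul_le_mul_of_nonneg_left hq1 (by positivity)
        have h4 : (2 * e * m) * u = (e * u) * (2 * m) := by ring
        rw [h4, heu] at h3
        linarith
      linarith)
    hN1 hWd2 hWd1
    (by
      rw [← hΛ]
      have h1 : (384 : ℝ) * Λ ≤ J * Λ := by
        apply mul_le_mul_of_nonneg_right _ hΛ0
        have := hu1 3
        linarith
      have h3 := hmz 64000000000 12 (by norm_num) (by norm_num) (by norm_num)
      have h4 : e * (e * m) = m / u ^ 2 := by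
        rw [he]
        field_simp
      rw [h4, le_div_iff₀ (by positivity)]
      have h5 : (Λ + 1) * u ^ 2 ≤ (62914560000 * z * u ^ 10 + z * u ^ 10) * u ^ 2 := by
        apply mul_le_mul_of_nonneg_right _ (by positivity)
        have h6 : 1 ≤ z * u ^ 10 := (hu1 10).trans (le_mul_of_one_le_left (by positivity) hz4)
        linarith
      have h6 : 0 < z * u ^ 12 := by positivity
      have h7 : (62914560000 * z * u ^ 10 + z * u ^ 10) * u ^ 2 =
          62914560001 * (z * u ^ 12) := by ring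
      rw [h7] at h5
      linarith)
    (by
      have h1 : e * ((1 - e) * (e * m)) = (1 - e) * (m / u ^ 2) := by
        rw [he]
        field_simp
      rw [h1]
      have h2 : 1 / 2 * ((m : ℝ) / u ^ 2) ≤ (1 - e) * (m / u ^ 2) :=
        mul_le_mul_of_nonneg_right (by linarith) (by linarith)
      linarith)
    (by
      intro j hj
      rw [hμj j hj.le]
      have h1 : ((j : ℝ) + 1) * y ≤ J * y := by
        apply mul_le_mul_of_nonneg_right _ (by positivity)
        exact_mod_cast hj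
      rw [← hα]
      linarith)
    (by
      intro j hj
      rw [hμj j hj.le, hμj (j+1) hj]
      push_cast
      rw [← hα, ← hΛ]
      linarith)
    (by
      set A : ℝ := (((W.cl F (2 * m) O (J+2)).card : ℝ) + 1) ^ 2 with hA
      have hA0 : 0 < A := by positivity
      have h1 : (t : ℝ) ≤ m := by
        have h2 : (m : ℝ) / u ^ 2 ≤ m := div_le_self (by linarith) (hu1 2)
        have h3 : (0 : ℝ) ≤ m / u ^ 2 := by positivity
        linarith
      have h2 : Real.exp (-((m : ℝ) / (16 * q))) ≤ Real.exp (-((t : ℝ) / (16 * q))) := by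
        apply Real.exp_le_exp.2
        apply neg_le_neg
        exact div_le_div_of_nonneg_right h1 (by positivity)
      have h3 : A * Real.exp (-((m : ℝ) / (16 * q))) +
          ((J : ℝ) + 1) * A * Real.exp (-((t : ℝ) / (16 * q))) ≤
          N * Real.exp (-((t : ℝ) / (16 * q))) := by
        calc A * Real.exp (-((m : ℝ) / (16 * q))) +
            ((J : ℝ) + 1) * A * Real.exp (-((t : ℝ) / (16 * q)))
            ≤ A * Real.exp (-((t : ℝ) / (16 * q))) +
              ((J : ℝ) + 1) * A * Real.exp (-((t : ℝ) / (16 * q))) := by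
              have := mul_le_mul_of_nonneg_left h2 hA0.le
              linarith
          _ = (((J : ℝ) + 2) * A) * Real.exp (-((t : ℝ) / (16 * q))) := by ring
          _ ≤ N * Real.exp (-((t : ℝ) / (16 * q))) :=
              mul_le_mul_of_nonneg_right hN2 (Real.exp_nonneg _)
      refine lt_of_le_of_lt h3 ?_
      have hN0 : 0 < N := by positivity
      have h4 : Real.log N < t / (16 * q) := by
        rw [lt_div_iff₀ (by positivity)]
        have h5 : Real.log N * (16 * q) ≤ (12000 * z * u ^ 3) * (16 * (2 * u)) := by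
          apply mul_le_mul hNlog (by linarith) (by positivity) (by positivity)
        refine lt_of_le_of_lt h5 (lt_of_lt_of_le ?_ ht1)
        rw [div_div, div_div, lt_div_iff₀ (by positivity)]
        have h6 := hmz 7000000 6 (by norm_num) (by norm_num) (by norm_num)
        have h7 : (12000 * z * u ^ 3) * (16 * (2 * u)) * (u ^ 2 * (8 * 2)) =
            6144000 * z * u ^ 6 := by ring
        rw [h7]
        have h8 : 0 < z * u ^ 6 := by positivity
        linarith
      calc N * Real.exp (-((t : ℝ) / (16 * q))) =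
            Real.exp (Real.log N) * Real.exp (-((t : ℝ) / (16 * q))) := by rw [Real.exp_log hN0]
        _ = Real.exp (Real.log N - t / (16 * q)) := by rw [← Real.exp_add]; ring_nf
        _ < 1 := by
            rw [← Real.exp_zero]
            exact Real.exp_lt_exp.2 (by linarith))
    htq
  exact ⟨f, fun a ha X hX hXm => hf a (ha.trans hr1) X hX hXm⟩

end PHP
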