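import Mathlib
import Pool.Agent.PHP.Defs

/-!
# Complete systems through their vertices (problem MP_1180db_co)

`World ι` records, for a complete system of lines: the cells `T`; for every line `s` the type `ty s x` (is the
beginning of `s` inside `x`) and the place `pos s x` of the crossing with `x`; and `vt i j k`, the sign of `k` at the
crossing of `i` and `j`.
-/

namespace PHP

open Finset

/-- the sign at the place `p` of a line of type `t` which is crossed at the place `q` -/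
def sg (t : Bool) (p q : ℤ) : Bool := if p < q then t else !t

structure World (ι : Type) where
  T : Set (ι → Bool)
  ty : ι → ι → Bool
  pos : ι → ι → ℤ
  vt : ι → ι → ι → Bool
  pos_ne : ∀ {s x y}, x ≠ s → y ≠ s → x ≠ y → pos s x ≠ pos s y
  vt_comm : ∀ i j k, vt i j k = vt j i k
  vt_eq : ∀ {s x y}, x ≠ s → y ≠ s → x ≠ y → vt s x y = sg (ty s y) (pos s x) (pos s y)
  miss : ∀ {i j k}, i ≠ j → j ≠ k → i ≠ k → ∀ X ∈ T,
    ¬ (X i = !(vt j k i) ∧ X j = !(vt i k j) ∧ X k = !(vt i j k))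
  vertex : ∀ {i j}, i ≠ j → ∀ X : ι → Bool, (∀ k, k ≠ i → k ≠ j → X k = vt i j k) → X ∈ T

variable {ι : Type}

namespace World

variable (W : World ι)

/-- the mirror image -/
def mirror : World ι where
  T := W.T
  ty := fun s x => !(W.ty s x)
  pos := fun s x => - W.pos s x
  vt := W.vt
  pos_ne := by
    intro s x y hx hy hxy h
    have := W.pos_ne hx hy hxy
    omega
  vt_comm := W.vt_comm
  vt_eq := by
    intro s x y hx hy hxy
    have h1 := W.pos_ne hx hy hxy
    rw [W.vt_eq hx hy hxy]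
    unfold sg
    by_cases h : W.pos s x < W.pos s y
    · rw [if_pos h, if_neg (by omega)]
      simp
    · rw [if_neg h, if_pos (by omega)]
  miss := W.miss
  vertex := W.vertex

/-- the triple covers everything -/
def Cov (a b c : ι) : Prop :=
  a ≠ b ∧ b ≠ c ∧ a ≠ c ∧ W.vt a b c = true ∧ W.vt b c a = true ∧ W.vt a c b = true

variable {W}

theorem Cov.swap {a b c : ι} (h : W.Cov a b c) : W.Cov b a c :=
  ⟨h.1.symm, h.2.2.1, h.2.1, by rw [W.vt_comm]; exact h.2.2.2.1, h.2.2.2.2.2, h.2.2.2.2.1⟩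

theorem Cov.swap' {a b c : ι} (h : W.Cov a b c) : W.Cov a c b :=
  ⟨h.2.2.1, h.2.1.symm, h.1, h.2.2.2.2.2, by rw [W.vt_comm]; exact h.2.2.2.2.1, h.2.2.2.1⟩

theorem Cov.rot {a b c : ι} (h : W.Cov a b c) : W.Cov b c a := h.swap.swap'

theorem Cov.mirror {a b c : ι} (h : W.Cov a b c) : W.mirror.Cov a b c := h

theorem Cov.covers {a b c : ι} (h : W.Cov a b c) {X : ι → Bool} (hX : X ∈ W.T) :
    X a = true ∨ X b = true ∨ X c = true := by
  obtain ⟨h1, h2, h3, h4, h5, h6⟩ := h
  have := W.miss h1 h2 h3 X hX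
  rw [h4, h5, h6] at this
  cases hXa : X a <;> cases hXb : X b <;> cases hXc : X c <;> simp_all

theorem cov_of_covers {a b c : ι} (h1 : a ≠ b) (h2 : b ≠ c) (h3 : a ≠ c)
    (h : ∀ X ∈ W.T, X a = true ∨ X b = true ∨ X c = true) : W.Cov a b c := by
  classical
  have key : ∀ i j k : ι, i ≠ j → k ≠ i → k ≠ j →
      (∀ X ∈ W.T, X i = true ∨ X j = true ∨ X k = true) → W.vt i j k = true := by
    intro i j k hij hki hkj h
    have h4 := h (fun l => if l = i then false else if l = j then false else W.vt i j l)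
      (W.vertex hij _ (by intro l hl1 hl2; simp [hl1, hl2]))
    simpa [hki, hkj] using h4
  refine ⟨h1, h2, h3, key a b c h1 h3.symm h2.symm h, key b c a h2 h1 h3 ?_,
    key a c b h3 h1.symm h2 ?_⟩
  · intro X hX
    have := h X hX
    tauto
  · intro X hX
    have := h X hX
    tauto

/-- the signs at the crossings of one line with three others -/
theorem line3 (W : World ι) {s x y z : ι} (hx : x ≠ s) (hy : y ≠ s) (hz : z ≠ s) (hxy : x ≠ y)
    (hxz : x ≠ z) (hyz : y ≠ z) :
    (W.pos s x ≠ W.pos s y ∧ W.pos s x ≠ W.pos s z ∧ W.pos s y ≠ W.pos s z) ∧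
    W.vt s x y = sg (W.ty s y) (W.pos s x) (W.pos s y) ∧
    W.vt s y x = sg (W.ty s x) (W.pos s y) (W.pos s x) ∧
    W.vt s x z = sg (W.ty s z) (W.pos s x) (W.pos s z) ∧
    W.vt s z x = sg (W.ty s x) (W.pos s z) (W.pos s x) ∧
    W.vt s y z = sg (W.ty s z) (W.pos s y) (W.pos s z) ∧
    W.vt s z y = sg (W.ty s y) (W.pos s z) (W.pos s y) :=
  ⟨⟨W.pos_ne hx hy hxy, W.pos_ne hx hz hxz, W.pos_ne hy hz hyz⟩, W.vt_eq hx hy hxy,
    W.vt_eq hy hx hxy.symm, W.vt_eq hx hz hxz, W.vt_eq hz hx hxz.symm, W.vt_eq hy hz hyz,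
    W.vt_eq hz hy hyz.symm⟩

end World

end PHP
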