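import Mathlib
import Pool.Agent.PHP.ExWorld

/-!
# Covering triples and a fourth line (problem MP_1180db_co)
-/

set_option linter.unusedVariables false

namespace PHP
namespace World

/-! ## one line -/

section Line

theorem lineA (tb tc tm : Bool) (pb pc pm : ℤ) (β : Bool) (h : pb ≠ pc ∧ pb ≠ pm ∧ pc ≠ pm)
    (g1 : sg tc pb pc = true) (g2 : sg tb pc pb = true) (g3 : sg tm pb pm = β) (g4 : sg tm pc pm = β) :
    sg tb pm pb = !(sg tc pm pc) := by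
  unfold sg at *
  grind

theorem lineB (ta tb tc : Bool) (pa pb pc : ℤ) (h : pa ≠ pb ∧ pa ≠ pc ∧ pb ≠ pc)
    (g1 : sg tb pa pb = true) (g2 : sg tc pa pc = false) (g3 : sg ta pb pa = false)
    (g4 : sg tc pb pc = true) (g5 : sg ta pc pa = true) (g6 : sg tb pc pb = false) : False := by
  unfold sg at *
  grind

theorem lineC (tb tc tm : Bool) (pb pc pm : ℤ) (h : pb ≠ pc ∧ pb ≠ pm ∧ pc ≠ pm)
    (g1 : sg tc pb pc = true) (g2 : sg tb pc pb = true) (g3 : sg tm pb pm = true)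
    (g4 : sg tm pc pm = false) : sg tb pm pb = true ∧ sg tc pm pc = true := by
  unfold sg at *
  grind

end Line

theorem boolA : ∀ p q r p' q' r' β : Bool, p = !p' → q = !q' → r = !r' →
    ¬ (true = !q ∧ true = !p ∧ (!β) = !β) → ¬ (true = !r ∧ true = !p' ∧ (!β) = !β) →
    ¬ (true = !r' ∧ true = !q' ∧ (!β) = !β) →
    (p = true ∧ p' = false ∧ q = false ∧ q' = true ∧ r = true ∧ r' = false) ∨
      (p = false ∧ p' = true ∧ q = true ∧ q' = false ∧ r = false ∧ r' = true) := by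
  intro p q r p' q' r' β h1 h2 h3
  subst h1 h2 h3
  cases p' <;> cases q' <;> cases r' <;> simp

variable {ι : Type} {W : World ι}

/-- a fourth line on the same side of the three corners of a covering triple -/
theorem Cov.all_eq {a b c m : ι} (h : W.Cov a b c) (ha : m ≠ a) (hb : m ≠ b) (hc : m ≠ c) {β : Bool}
    (h1 : W.vt a b m = β) (h2 : W.vt b c m = β) (h3 : W.vt a c m = β) {X : ι → Bool} (hX : X ∈ W.T)
    (hXa : X a = true) (hXb : X b = true) (hXc : X c = true) : X m = β := by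
  obtain ⟨hab, hbc, hac, g1, g2, g3⟩ := h
  by_contra hXm
  have hXm' : X m = !β := by cases h : X m <;> cases β <;> simp_all
  have m1 := W.miss hab hb.symm ha.symm X hX
  have m2 := W.miss hac hc.symm ha.symm X hX
  have m3 := W.miss hbc hc.symm hb.symm X hX
  obtain ⟨la0, la1, la2, la3, la4, la5, la6⟩ :=
    W.line3 (s := a) hab.symm hac.symm ha hbc hb.symm hc.symm
  obtain ⟨lb0, lb1, lb2, lb3, lb4, lb5, lb6⟩ :=
    W.line3 (s := b) hab hbc.symm hb hac ha.symm hc.symm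
  obtain ⟨lc0, lc1, lc2, lc3, lc4, lc5, lc6⟩ :=
    W.line3 (s := c) hac hbc hc hab ha.symm hb.symm
  obtain ⟨lm0, lm1, lm2, lm3, lm4, lm5, lm6⟩ :=
    W.line3 (s := m) ha.symm hb.symm hc.symm hab hac hbc
  rw [W.vt_comm] at lb1 lb3
  rw [W.vt_comm] at lc1 lc3 lc2 lc5
  have ea : W.vt a m b = !(W.vt a m c) := by
    rw [la4, la6]
    exact lineA _ _ _ _ _ _ β la0 (la1 ▸ g1) (la2 ▸ g3) (la3 ▸ h1) (la5 ▸ h3)
  have eb : W.vt b m a = !(W.vt b m c) := by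
    rw [lb4, lb6]
    exact lineA _ _ _ _ _ _ β lb0 (lb1 ▸ g1) (lb2 ▸ g2) (lb3 ▸ h1) (lb5 ▸ h2)
  have ec : W.vt c m a = !(W.vt c m b) := by
    rw [lc4, lc6]
    exact lineA _ _ _ _ _ _ β lc0 (lc1 ▸ g3) (lc2 ▸ g2) (lc3 ▸ h3) (lc5 ▸ h2)
  rw [W.vt_comm m a] at lm1 lm3
  rw [W.vt_comm m b] at lm2 lm5
  rw [W.vt_comm m c] at lm4 lm6
  rw [hXa, hXb, hXm', h1] at m1
  rw [hXa, hXc, hXm', h3] at m2
  rw [hXb, hXc, hXm', h2] at m3
  have key : (W.vt a m b = true ∧ W.vt a m c = false ∧ W.vt b m a = false ∧ W.vt b m c = true ∧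
      W.vt c m a = true ∧ W.vt c m b = false) ∨
      (W.vt a m b = false ∧ W.vt a m c = true ∧ W.vt b m a = true ∧ W.vt b m c = false ∧
      W.vt c m a = false ∧ W.vt c m b = true) := boolA _ _ _ _ _ _ β ea eb ec m1 m2 m3
  rcases key with ⟨k1, k2, k3, k4, k5, k6⟩ | ⟨k1, k2, k3, k4, k5, k6⟩
  · exact lineB _ _ _ _ _ _ lm0 (lm1 ▸ k1) (lm3 ▸ k2) (lm2 ▸ k3) (lm5 ▸ k4) (lm4 ▸ k5)
      (lm6 ▸ k6)
  · exact lineB _ _ _ _ _ _ ⟨lm0.2.1, lm0.1, fun h => lm0.2.2 h.symm⟩ (lm3 ▸ k2) (lm1 ▸ k1)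
      (lm4 ▸ k5) (lm6 ▸ k6) (lm2 ▸ k3) (lm5 ▸ k4)

end World
end PHP
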