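import Mathlib
import Pool.Agent.PHP.ExFour

/-!
# Worlds in which no line contains the triangle of a covering triple (problem MP_1180db_co)

`NT W`: no line contains the region `D(T)` of a covering triple `T`. Consequences: a fourth line meets an even number
of corners of `T`; on a line `s` of a covering triple the last left `l` and the first right `r` form a covering triple
with `s` (`Base W s l r`).
-/

set_option linter.unusedVariables false

namespace PHP
namespace World

open Finset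

variable {ι : Type} {W : World ι}

/-- no line contains the triangle of a covering triple -/
def NT (W : World ι) : Prop := ∀ a b c m, W.Cov a b c → m ≠ a → m ≠ b → m ≠ c →
  ∃ X ∈ W.T, X a = true ∧ X b = true ∧ X c = true ∧ X m = false

theorem NT.mirror (h : W.NT) : W.mirror.NT := h

theorem NT.not_all (hN : W.NT) {a b c m : ι} (h : W.Cov a b c) (ha : m ≠ a) (hb : m ≠ b)
    (hc : m ≠ c) : ¬ (W.vt a b m = true ∧ W.vt b c m = true ∧ W.vt a c m = true) := by
  rintro ⟨h1, h2, h3⟩
  obtain ⟨X, hX, hXa, hXb, hXc, hXm⟩ := hN a b c m h ha hb hc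
  rw [h.all_eq ha hb hc h1 h2 h3 hX hXa hXb hXc] at hXm
  exact absurd hXm (by simp)

theorem NT.not_one (hN : W.NT) {a b c m : ι} (h : W.Cov a b c) (ha : m ≠ a) (hb : m ≠ b)
    (hc : m ≠ c) : ¬ (W.vt a b m = true ∧ W.vt b c m = false ∧ W.vt a c m = false) := by
  rintro ⟨h1, h2, h3⟩
  obtain ⟨hab, hbc, hac, g1, g2, g3⟩ := h
  obtain ⟨la0, la1, la2, la3, la4, la5, la6⟩ :=
    W.line3 (s := a) hab.symm hac.symm ha hbc hb.symm hc.symm
  obtain ⟨lb0, lb1, lb2, lb3, lb4, lb5, lb6⟩ :=
    W.line3 (s := b) hab hbc.symm hb hac ha.symm hc.symm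
  rw [W.vt_comm] at lb1 lb3
  have ea := lineC _ _ _ _ _ _ la0 (la1 ▸ g1) (la2 ▸ g3) (la3 ▸ h1) (la5 ▸ h3)
  have eb := lineC _ _ _ _ _ _ lb0 (lb1 ▸ g1) (lb2 ▸ g2) (lb3 ▸ h1) (lb5 ▸ h2)
  rw [← la4, ← la6] at ea
  rw [← lb4, ← lb6] at eb
  have hcov : W.Cov a b m := ⟨hab, hb.symm, ha.symm, h1, eb.1, ea.1⟩
  exact hN.not_all hcov hac.symm hbc.symm hc.symm ⟨g1, eb.2, ea.2⟩

/-- a fourth line contains none or exactly two of the corners -/
theorem NT.rule (hN : W.NT) {a b c m : ι} (h : W.Cov a b c) (ha : m ≠ a) (hb : m ≠ b)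
    (hc : m ≠ c) : (W.vt a b m = false ∧ W.vt b c m = false ∧ W.vt a c m = false) ∨
      (W.vt a b m = false ∧ W.vt b c m = true ∧ W.vt a c m = true) ∨
      (W.vt a b m = true ∧ W.vt b c m = false ∧ W.vt a c m = true) ∨
      (W.vt a b m = true ∧ W.vt b c m = true ∧ W.vt a c m = false) := by
  have h0 := hN.not_all h ha hb hc
  have h1 := hN.not_one h ha hb hc
  have h2 := hN.not_one h.rot hb hc ha
  have h3 := hN.not_one h.swap' ha hc hb
  rw [W.vt_comm c a, W.vt_comm b a] at h2
  rw [W.vt_comm c b] at h3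
  cases q1 : W.vt a b m <;> cases q2 : W.vt b c m <;> cases q3 : W.vt a c m <;> simp_all

/-- a line which cuts the corner `l, r` of the covering triple `s, l, r` -/
theorem Cov.cut {s l r m : ι} (h : W.Cov s l r) (hs : m ≠ s) (hl : m ≠ l) (hr : m ≠ r)
    (h1 : W.vt l r m = false) (h2 : W.vt s l m = true) (h3 : W.vt s r m = true) :
    (W.vt s m r = true ∧ W.Cov s m r) ∨ (W.vt s m l = true ∧ W.Cov s l m) := by
  obtain ⟨hsl, hlr, hsr, g1, g2, g3⟩ := h
  obtain ⟨la0, la1, la2, la3, la4, la5, la6⟩ :=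
    W.line3 (s := s) hsl.symm hsr.symm hs hlr hl.symm hr.symm
  obtain ⟨lb0, lb1, lb2, lb3, lb4, lb5, lb6⟩ :=
    W.line3 (s := l) hsl hlr.symm hl hsr hs.symm hr.symm
  obtain ⟨lc0, lc1, lc2, lc3, lc4, lc5, lc6⟩ :=
    W.line3 (s := r) hsr hlr hr hsl hs.symm hl.symm
  rw [W.vt_comm] at lb1 lb3
  rw [W.vt_comm] at lc1 lc3 lc2 lc5
  have ea := lineA _ _ _ _ _ _ true la0 (la1 ▸ g1) (la2 ▸ g3) (la3 ▸ h2) (la5 ▸ h3)
  have eb := lineC _ _ _ _ _ _ lb0 (lb1 ▸ g1) (lb2 ▸ g2) (lb3 ▸ h2) (lb5 ▸ h1)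
  have ec := lineC _ _ _ _ _ _ lc0 (lc1 ▸ g3) (lc2 ▸ g2) (lc3 ▸ h3) (lc5 ▸ h1)
  rw [← la4, ← la6] at ea
  rw [← lb4, ← lb6] at eb
  rw [← lc4, ← lc6] at ec
  by_cases h4 : W.vt s m r = true
  · exact Or.inl ⟨h4, hs.symm, hr, hsr, h4, by rw [W.vt_comm]; exact ec.1, h3⟩
  · right
    have h5 : W.vt s m l = true := by
      rw [ea]
      simpa using h4
    exact ⟨h5, hsl, hl.symm, hs.symm, h2, eb.1, h5⟩

/-- the type and the order on a line of a covering triple -/
theorem Cov.types {s l r : ι} (h : W.Cov s l r) :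
    (W.ty s l = true ∧ W.ty s r = false ∧ W.pos s r < W.pos s l) ∨
      (W.ty s l = false ∧ W.ty s r = true ∧ W.pos s l < W.pos s r) := by
  obtain ⟨hsl, hlr, hsr, g1, g2, g3⟩ := h
  have h1 := W.pos_ne hsl.symm hsr.symm hlr
  rw [W.vt_eq hsl.symm hsr.symm hlr] at g1
  rw [W.vt_eq hsr.symm hsl.symm hlr.symm] at g3
  unfold sg at *
  grind

/-- `l` is the last left and `r` the first right of `s`, and the three lines cover -/
structure Base (W : World ι) (s l r : ι) : Prop where
  cov : W.Cov s l r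
  tl : W.ty s l = true
  tr : W.ty s r = false
  last : ∀ x, x ≠ s → W.ty s x = true → W.pos s x ≤ W.pos s l
  first : ∀ x, x ≠ s → W.ty s x = false → W.pos s r ≤ W.pos s x

theorem Base.lt {s l r : ι} (h : W.Base s l r) : W.pos s r < W.pos s l := by
  rcases h.cov.types with h1 | h1
  · exact h1.2.2
  · rw [h.tl] at h1
    exact absurd h1.1 (by simp)

theorem Base.mirror {s l r : ι} (h : W.Base s l r) : W.mirror.Base s r l where
  cov := h.cov.swap'
  tl := by show (!(W.ty s r)) = true; rw [h.tr]; rfl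
  tr := by show (!(W.ty s l)) = false; rw [h.tl]; rfl
  last x hx hx' := by
    have h1 : (!(W.ty s x)) = true := hx'
    have := h.first x hx (by simpa using h1)
    show - W.pos s x ≤ - W.pos s r
    omega
  first x hx hx' := by
    have h1 : (!(W.ty s x)) = false := hx'
    have := h.last x hx (by simpa using h1)
    show - W.pos s l ≤ - W.pos s x
    omega

theorem NT.exists_base [Fintype ι] [DecidableEq ι] (hN : W.NT) {s a b : ι} (h : W.Cov s a b) :
    ∃ l r, W.Base s l r := by
  classical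
  -- the last left in a covering triple
  set A : Finset ι := univ.filter (fun l => W.ty s l = true ∧ ∃ r, W.Cov s l r) with hA
  have hAne : A.Nonempty := by
    rcases h.types with h1 | h1
    · exact ⟨a, by rw [hA, mem_filter]; exact ⟨mem_univ _, h1.1, b, h⟩⟩
    · exact ⟨b, by rw [hA, mem_filter]; exact ⟨mem_univ _, h1.2.1, a, h.swap'⟩⟩
  obtain ⟨l, hl, hlmax⟩ := exists_max_image A (W.pos s) hAne
  rw [hA, mem_filter] at hl
  obtain ⟨-, htl, r0, hr0⟩ := hl
  set B : Finset ι := univ.filter (fun r => W.Cov s l r) with hB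
  have hBne : B.Nonempty := ⟨r0, by rw [hB, mem_filter]; exact ⟨mem_univ _, hr0⟩⟩
  obtain ⟨r, hr, hrmin⟩ := exists_min_image B (W.pos s) hBne
  rw [hB, mem_filter] at hr
  have hcov := hr.2
  have htr : W.ty s r = false ∧ W.pos s r < W.pos s l := by
    rcases hcov.types with h1 | h1
    · exact h1.2
    · rw [htl] at h1
      exact absurd h1.1 (by simp)
  obtain ⟨hsl, hlr, hsr, g1, g2, g3⟩ := hcov
  have hcov : W.Cov s l r := ⟨hsl, hlr, hsr, g1, g2, g3⟩
  refine ⟨l, r, hcov, htl, htr.1, ?_, ?_⟩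
  · intro m hm htm
    by_contra hlt
    rw [not_le] at hlt
    have hml : m ≠ l := fun h => by rw [h] at hlt; omega
    have hmr : m ≠ r := fun h => by rw [h, htr.1] at htm; exact absurd htm (by simp)
    have e1 : W.vt s l m = true := by
      rw [W.vt_eq hsl.symm hm hml.symm]; unfold sg; rw [if_pos hlt]; exact htm
    have e2 : W.vt s r m = true := by
      rw [W.vt_eq hsr.symm hm hmr.symm]; unfold sg; rw [if_pos (by omega)]; exact htm
    have e3 : W.vt l r m = false := by
      have := hN.not_all hcov hm hml hmr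
      cases h5 : W.vt l r m
      · rfl
      · exact absurd ⟨e1, h5, e2⟩ this
    rcases hcov.cut hm hml hmr e3 e1 e2 with ⟨-, h6⟩ | ⟨h6, -⟩
    · have := hlmax m (by rw [hA, mem_filter]; exact ⟨mem_univ _, htm, r, h6⟩)
      omega
    · rw [W.vt_eq hm hsl.symm hml] at h6
      unfold sg at h6
      rw [if_neg (by omega), htl] at h6
      exact absurd h6 (by simp)
  · intro m hm htm
    by_contra hlt
    rw [not_le] at hlt
    have hmr : m ≠ r := fun h => by rw [h] at hlt; omega
    have hml : m ≠ l := fun h => by rw [h, htl] at htm; exact absurd htm (by simp)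
    have e1 : W.vt s l m = true := by
      rw [W.vt_eq hsl.symm hm hml.symm]; unfold sg; rw [if_neg (by omega), htm]; rfl
    have e2 : W.vt s r m = true := by
      rw [W.vt_eq hsr.symm hm hmr.symm]; unfold sg; rw [if_neg (by omega), htm]; rfl
    have e3 : W.vt l r m = false := by
      have := hN.not_all hcov hm hml hmr
      cases h5 : W.vt l r m
      · rfl
      · exact absurd ⟨e1, h5, e2⟩ this
    rcases hcov.cut hm hml hmr e3 e1 e2 with ⟨h6, -⟩ | ⟨-, h6⟩
    · rw [W.vt_eq hm hsr.symm hmr] at h6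
      unfold sg at h6
      rw [if_pos hlt, htr.1] at h6
      exact absurd h6 (by simp)
    · have := hrmin m (by rw [hB, mem_filter]; exact ⟨mem_univ _, h6⟩)
      omega

end World
end PHP
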