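import Mathlib

/-!
# Counting with Radon partitions (problem MP_1180db_co, k = 3)

`radon_count`: a family `P` of sets with three elements such that every member has a private element and for any
four members there are at least three elements which lie in at least two of them. Then the union has at most ten
elements (and `P` at most six members).
-/

namespace PHP

namespace N3

open Finset

/-- the number of 4-sets with at least two elements in `τ` -/
def cnt (k : ℕ) (τ : Finset (Fin k)) : ℕ :=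
  ((powersetCard 4 (univ : Finset (Fin k))).filter (fun Q => 2 ≤ (Q ∩ τ).card)).card

theorem cnt4 : ∀ τ : Finset (Fin 4), cnt 4 τ ≤ τ.card - 1 := by
  decide +kernel

theorem cnt5 : ∀ τ : Finset (Fin 5), cnt 5 τ ≤ 3 * (τ.card - 1) := by
  decide +kernel

theorem cnt6 : ∀ τ : Finset (Fin 6), cnt 6 τ ≤ 6 * (τ.card - 1) := by
  decide +kernel

theorem cnt7 : ∀ τ : Finset (Fin 7), τ.card ≤ 3 →
    3 * cnt 7 τ ≤ 22 * (if 2 ≤ τ.card then τ.card else 0) := by
  decide +kernel

variable {ι : Type} [DecidableEq ι] {k : ℕ} {p : Fin k → Finset ι}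

/-- the members which contain `v` -/
def tau (p : Fin k → Finset ι) (v : ι) : Finset (Fin k) := univ.filter (fun j => v ∈ p j)

/-- the union -/
def un (p : Fin k → Finset ι) : Finset ι := univ.biUnion p

theorem mem_tau {v : ι} {j : Fin k} : j ∈ tau p v ↔ v ∈ p j := by
  unfold tau
  rw [mem_filter]
  simp

theorem mem_un {v : ι} : v ∈ un p ↔ ∃ j, v ∈ p j := by
  unfold un
  rw [mem_biUnion]
  simp

theorem sum_tau (p : Fin k → Finset ι) : ∑ v ∈ un p, (tau p v).card = ∑ j, (p j).card := by
  have h1 : ∀ v, (tau p v).card = ∑ j, if v ∈ p j then 1 else 0 := by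
    intro v
    unfold tau
    rw [card_filter]
  rw [sum_congr rfl (fun v _ => h1 v), sum_comm]
  refine sum_congr rfl fun j _ => ?_
  rw [← card_filter]
  congr 1
  ext v
  rw [mem_filter, mem_un]
  exact ⟨fun h => h.2, fun h => ⟨⟨j, h⟩, h⟩⟩

theorem sum_cnt (p : Fin k → Finset ι) :
    ∑ Q ∈ powersetCard 4 (univ : Finset (Fin k)),
      ((un p).filter (fun v => 2 ≤ (Q ∩ tau p v).card)).card = ∑ v ∈ un p, cnt k (tau p v) := by
  have h1 : ∀ Q : Finset (Fin k), ((un p).filter (fun v => 2 ≤ (Q ∩ tau p v).card)).card =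
      ∑ v ∈ un p, if 2 ≤ (Q ∩ tau p v).card then 1 else 0 := by
    intro Q
    rw [card_filter]
  rw [sum_congr rfl (fun Q _ => h1 Q), sum_comm]
  refine sum_congr rfl fun v _ => ?_
  unfold cnt
  rw [card_filter]

/-- the hypothesis on four members -/
def Rad (p : Fin k → Finset ι) : Prop :=
  ∀ Q : Finset (Fin k), Q.card = 4 →
    3 ≤ ((un p).filter (fun v => 2 ≤ (Q ∩ tau p v).card)).card

theorem Rad.sum_le (hR : Rad p) :
    (powersetCard 4 (univ : Finset (Fin k))).card * 3 ≤ ∑ v ∈ un p, cnt k (tau p v) := by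
  rw [← sum_cnt, ← smul_eq_mul]
  exact card_nsmul_le_sum _ _ _ (fun Q hQ => hR Q (mem_powersetCard.1 hQ).2)

theorem sum_pred (h3 : ∀ j, (p j).card = 3) :
    ∑ v ∈ un p, ((tau p v).card - 1) + (un p).card = 3 * k := by
  have h1 := sum_tau p
  rw [sum_congr rfl (fun j _ => h3 j), sum_const, card_univ, Fintype.card_fin, smul_eq_mul] at h1
  rw [mul_comm 3 k, ← h1, card_eq_sum_ones, ← sum_add_distrib]
  refine sum_congr rfl fun v hv => ?_
  obtain ⟨j, hj⟩ := mem_un.1 hv
  have : 0 < (tau p v).card := card_pos.2 ⟨j, mem_tau.2 hj⟩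
  omega

theorem card_un_le {m c : ℕ} (hR : Rad p) (h3 : ∀ j, (p j).card = 3)
    (hc : ∀ τ : Finset (Fin k), cnt k τ ≤ c * (τ.card - 1))
    (hm : c * (3 * k - m) < (powersetCard 4 (univ : Finset (Fin k))).card * 3 + c) :
    (un p).card ≤ m := by
  have h1 := hR.sum_le
  have h2 : ∑ v ∈ un p, cnt k (tau p v) ≤ c * ∑ v ∈ un p, ((tau p v).card - 1) := by
    rw [mul_sum]
    exact sum_le_sum fun v _ => hc _
  have h4 := sum_pred h3
  by_contra hlt
  rw [not_le] at hlt
  have h5 : ∑ v ∈ un p, ((tau p v).card - 1) + 1 ≤ 3 * k - m := by omega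
  have h6 : c * (∑ v ∈ un p, ((tau p v).card - 1) + 1) ≤ c * (3 * k - m) :=
    Nat.mul_le_mul_left _ h5
  rw [mul_add, mul_one] at h6
  omega

/-- an element of a member with a private element: at most two elements of a member lie in two members -/
theorem long_le (h3 : ∀ j, (p j).card = 3) (hpriv : ∀ j, ∃ v ∈ p j, ∀ i, v ∈ p i → i = j)
    (j : Fin k) : ((p j).filter (fun v => 2 ≤ (tau p v).card)).card ≤ 2 := by
  obtain ⟨v, hv, h1⟩ := hpriv j
  have h2 : (p j).filter (fun v => 2 ≤ (tau p v).card) ⊆ (p j).erase v := by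
    intro w hw
    rw [mem_filter] at hw
    rw [mem_erase]
    refine ⟨?_, hw.1⟩
    rintro rfl
    have h4 : (tau p w).card ≤ 1 := by
      rw [card_le_one]
      intro a ha b hb
      rw [h1 a (mem_tau.1 ha), h1 b (mem_tau.1 hb)]
    omega
  have h4 := card_le_card h2
  rw [card_erase_of_mem hv, h3] at h4
  exact h4

theorem sum_long (h3 : ∀ j, (p j).card = 3) (hpriv : ∀ j, ∃ v ∈ p j, ∀ i, v ∈ p i → i = j) :
    ∑ v ∈ un p, (if 2 ≤ (tau p v).card then (tau p v).card else 0) ≤ 2 * k := by
  have h1 : ∀ v, (if 2 ≤ (tau p v).card then (tau p v).card else 0) =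
      ∑ j, if v ∈ p j ∧ 2 ≤ (tau p v).card then 1 else 0 := by
    intro v
    by_cases h : 2 ≤ (tau p v).card
    · rw [if_pos h]
      conv_lhs => rw [tau, card_filter]
      refine sum_congr rfl fun j _ => ?_
      simp [h]
    · rw [if_neg h]
      symm
      apply sum_eq_zero
      intro j _
      simp [h]
  rw [sum_congr rfl (fun v _ => h1 v), sum_comm]
  calc ∑ j : Fin k, ∑ v ∈ un p, (if v ∈ p j ∧ 2 ≤ (tau p v).card then 1 else 0)
      ≤ ∑ _j : Fin k, 2 := by
        refine sum_le_sum fun j _ => ?_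
        rw [← card_filter]
        refine le_trans (card_le_card ?_) (long_le h3 hpriv j)
        intro v hv
        rw [mem_filter] at hv ⊢
        exact hv.2
    _ = 2 * k := by
        rw [sum_const, card_univ, Fintype.card_fin, smul_eq_mul, mul_comm]

/-- seven members are impossible -/
theorem no_seven {p : Fin 7 → Finset ι} (hR : Rad p) (h3 : ∀ j, (p j).card = 3)
    (hpriv : ∀ j, ∃ v ∈ p j, ∀ i, v ∈ p i → i = j) : False := by
  by_cases hbig : ∃ v ∈ un p, 4 ≤ (tau p v).card
  swap
  · push Not at hbig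
    have h1 := hR.sum_le
    have h2 : ∑ v ∈ un p, 3 * cnt 7 (tau p v) ≤
        ∑ v ∈ un p, 22 * (if 2 ≤ (tau p v).card then (tau p v).card else 0) :=
      sum_le_sum fun v hv => cnt7 _ (by have := hbig v hv; omega)
    rw [← mul_sum, ← mul_sum] at h2
    have h4 := sum_long h3 hpriv
    have h5 : (powersetCard 4 (univ : Finset (Fin 7))).card = 35 := by
      rw [card_powersetCard, card_univ, Fintype.card_fin]
      rfl
    rw [h5] at h1
    omega
  -- a letter `a` in four members
  obtain ⟨a, -, ha⟩ := hbig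
  obtain ⟨Q, hQa, hQ4⟩ := exists_subset_card_eq ha
  have inQ : ∀ j ∈ Q, a ∈ p j := fun j hj => mem_tau.1 (hQa hj)
  -- the letters of `p j`
  choose e he hepriv using hpriv
  have priv_long : ∀ j v, v ∈ p j → 2 ≤ (tau p v).card → v ≠ e j := by
    rintro j v - hv rfl
    have h4 : (tau p (e j)).card ≤ 1 := by
      rw [card_le_one]
      intro a ha b hb
      rw [hepriv j a (mem_tau.1 ha), hepriv j b (mem_tau.1 hb)]
    omega
  have two_of : ∀ (R : Finset (Fin 7)) (v : ι), 2 ≤ (R ∩ tau p v).card → 2 ≤ (tau p v).card :=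
    fun R v h => h.trans (card_le_card inter_subset_right)
  -- at most two long letters in a member
  have atmost : ∀ j u v w, u ∈ p j → v ∈ p j → w ∈ p j → 2 ≤ (tau p u).card →
      2 ≤ (tau p v).card → 2 ≤ (tau p w).card → u ≠ v → u ≠ w → v ≠ w → False := by
    intro j u v w hu hv hw h1 h2 h4 n1 n2 n3
    have h5 : ({u, v, w} : Finset ι) ⊆ (p j).filter (fun v => 2 ≤ (tau p v).card) := by
      intro z hz
      rw [mem_insert, mem_insert, mem_singleton] at hz
      rw [mem_filter]
      rcases hz with rfl | rfl | rfl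
      · exact ⟨hu, h1⟩
      · exact ⟨hv, h2⟩
      · exact ⟨hw, h4⟩
    have h6 := card_le_card h5
    have h7 : ({u, v, w} : Finset ι).card = 3 := card_eq_three.2 ⟨u, v, w, n1, n2, n3, rfl⟩
    have h8 := long_le h3 (fun j => ⟨e j, he j, hepriv j⟩) j
    omega
  have hla : 2 ≤ (tau p a).card := by omega
  -- the other letters `b, c` of the four members
  have hQR := hR Q hQ4
  obtain ⟨b, hb, hba⟩ : ∃ b ∈ (un p).filter (fun v => 2 ≤ (Q ∩ tau p v).card), b ≠ a := by
    obtain ⟨b, hb, hb'⟩ := exists_mem_ne (by omega : 1 < ((un p).filter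
      (fun v => 2 ≤ (Q ∩ tau p v).card)).card) a
    exact ⟨b, hb, hb'⟩
  obtain ⟨c, hc, hca, hcb⟩ : ∃ c ∈ (un p).filter (fun v => 2 ≤ (Q ∩ tau p v).card), c ≠ a ∧ c ≠ b := by
    by_contra hcon
    push Not at hcon
    have h5 : (un p).filter (fun v => 2 ≤ (Q ∩ tau p v).card) ⊆ {a, b} := by
      intro z hz
      rw [mem_insert, mem_singleton]
      by_cases hza : z = a
      · exact Or.inl hza
      · exact Or.inr (hcon z hz hza)
    have h6 := (card_le_card h5).trans card_le_two
    omega
  rw [mem_filter] at hb hc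
  have hlb := two_of Q b hb.2
  have hlc := two_of Q c hc.2
  -- the two halves of `Q` are disjoint
  have hdis : Disjoint (Q ∩ tau p b) (Q ∩ tau p c) := by
    rw [disjoint_left]
    intro j hj1 hj2
    rw [mem_inter] at hj1 hj2
    exact atmost j a b c (inQ j hj1.1) (mem_tau.1 hj1.2) (mem_tau.1 hj2.2) hla hlb hlc hba.symm
      hca.symm hcb.symm
  have hcard : (Q ∩ tau p b).card + (Q ∩ tau p c).card ≤ 4 := by
    rw [← card_union_of_disjoint hdis, ← hQ4]
    exact card_le_card (union_subset inter_subset_left inter_subset_left)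
  have hb2 : (Q ∩ tau p b).card = 2 := by omega
  have hc2 : (Q ∩ tau p c).card = 2 := by omega
  have hcovQ : ∀ j ∈ Q, j ∈ Q ∩ tau p b ∨ j ∈ Q ∩ tau p c := by
    intro j hj
    have h5 : (Q ∩ tau p b) ∪ (Q ∩ tau p c) = Q := by
      apply eq_of_subset_of_card_le (union_subset inter_subset_left inter_subset_left)
      rw [card_union_of_disjoint hdis]
      omega
    rw [← h5] at hj
    exact mem_union.1 hj
  obtain ⟨j1, hj1⟩ := card_pos.1 (by omega : 0 < (Q ∩ tau p b).card)
  obtain ⟨j2, hj2⟩ := card_pos.1 (by omega : 0 < (Q ∩ tau p c).card)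
  have key : ∀ (b c : ι) (j2 : Fin 7), b ≠ a → c ≠ a → c ≠ b → 2 ≤ (tau p b).card →
      2 ≤ (tau p c).card → Disjoint (Q ∩ tau p b) (Q ∩ tau p c) → (Q ∩ tau p c).card = 2 →
      (∀ j ∈ Q, j ∈ Q ∩ tau p b ∨ j ∈ Q ∩ tau p c) → j2 ∈ Q ∩ tau p c →
      ∀ i, i ∉ Q → c ∈ p i := by
    intro b c j2 hba hca hcb hlb hlc hdis hc2 hcovQ hj2 i hi
    have hj2' := mem_inter.1 hj2
    have h5 : (insert i (Q.erase j2)).card = 4 := by
      rw [card_insert_of_notMem (fun h => hi (mem_of_mem_erase h)), card_erase_of_mem hj2'.1, hQ4]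
    have h6 := hR _ h5
    by_contra hci
    have h7 : (un p).filter (fun v => 2 ≤ (insert i (Q.erase j2) ∩ tau p v).card) ⊆ {a, b} := by
      intro v hv
      rw [mem_filter] at hv
      rw [mem_insert, mem_singleton]
      by_contra hcon
      push Not at hcon
      have hlv := two_of _ v hv.2
      -- `v` is in some member of `Q.erase j2`
      obtain ⟨j, hj, hji⟩ := exists_mem_ne (by omega : 1 <
        (insert i (Q.erase j2) ∩ tau p v).card) i
      rw [mem_inter, mem_insert, mem_erase] at hj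
      have hjQ : j ≠ j2 ∧ j ∈ Q := hj.1.resolve_left hji
      rcases hcovQ j hjQ.2 with h8 | h8
      · exact atmost j a b v (inQ j hjQ.2) (mem_tau.1 (mem_inter.1 h8).2) (mem_tau.1 hj.2) hla hlb
          hlv hba.symm hcon.1.symm hcon.2.symm
      · by_cases hvc : v = c
        · -- the only member of `Q.erase j2` with `c` is `j`
          subst hvc
          have h9 : insert i (Q.erase j2) ∩ tau p v ⊆ (Q ∩ tau p v).erase j2 := by
            intro z hz
            rw [mem_inter, mem_insert, mem_erase] at hz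
            rw [mem_erase, mem_inter]
            rcases hz.1 with h10 | h10
            · exact absurd (h10 ▸ mem_tau.1 hz.2) hci
            · exact ⟨h10.1, h10.2, hz.2⟩
          have h10 := card_le_card h9
          rw [card_erase_of_mem hj2, hc2] at h10
          omega
        · exact atmost j a c v (inQ j hjQ.2) (mem_tau.1 (mem_inter.1 h8).2) (mem_tau.1 hj.2) hla hlc
            hlv hca.symm hcon.1.symm (fun h => hvc h.symm)
    have h8 := (card_le_card h7).trans card_le_two
    omega
  have inc : ∀ i, i ∉ Q → c ∈ p i := key b c j2 hba hca hcb hlb hlc hdis hc2 hcovQ hj2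
  have inb : ∀ i, i ∉ Q → b ∈ p i := key c b j1 hca hba hcb.symm hlc hlb hdis.symm hb2
    (fun j hj => (hcovQ j hj).symm) hj1
  -- the three other members and `j1`
  have h5 : (insert j1 (univ \ Q)).card = 4 := by
    rw [card_insert_of_notMem, card_sdiff_of_subset (subset_univ _), card_univ, Fintype.card_fin, hQ4]
    rw [mem_sdiff]
    exact fun h => h.2 (mem_inter.1 hj1).1
  have h6 := hR _ h5
  have h7 : (un p).filter (fun v => 2 ≤ (insert j1 (univ \ Q) ∩ tau p v).card) ⊆ {b, c} := by
    intro v hv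
    rw [mem_filter] at hv
    rw [mem_insert, mem_singleton]
    by_contra hcon
    push Not at hcon
    have hlv := two_of _ v hv.2
    obtain ⟨j, hj, hji⟩ := exists_mem_ne (by omega : 1 <
      (insert j1 (univ \ Q) ∩ tau p v).card) j1
    rw [mem_inter, mem_insert, mem_sdiff] at hj
    have hjQ := (hj.1.resolve_left hji).2
    exact atmost j b c v (inb j hjQ) (inc j hjQ) (mem_tau.1 hj.2) hlb hlc hlv hcb.symm
      hcon.1.symm hcon.2.symm
  have h8 := (card_le_card h7).trans card_le_two
  omega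

/-- at most six members, at most ten elements -/
theorem card_le (hR : Rad p) (h3 : ∀ j, (p j).card = 3)
    (hpriv : ∀ j, ∃ v ∈ p j, ∀ i, v ∈ p i → i = j) (hk : k ≤ 6) : (un p).card ≤ 10 := by
  have h0 : (un p).card ≤ 3 * k := by
    have := sum_pred h3
    omega
  interval_cases k
  · omega
  · omega
  · omega
  · omega
  · exact (card_un_le (m := 9) (c := 1) hR h3 (fun τ => by rw [one_mul]; exact cnt4 τ) (by
      rw [card_powersetCard, card_univ, Fintype.card_fin]
      decide)).trans (by norm_num)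
  · exact card_un_le (m := 10) (c := 3) hR h3 cnt5 (by
      rw [card_powersetCard, card_univ, Fintype.card_fin]
      decide)
  · exact card_un_le (m := 10) (c := 6) hR h3 cnt6 (by
      rw [card_powersetCard, card_univ, Fintype.card_fin]
      decide)

end N3

open Finset N3

variable {ι : Type} [DecidableEq ι]

/-- the counting part of `N(3) ≤ 10` -/
theorem radon_count {P : Finset (Finset ι)} (h3 : ∀ p ∈ P, p.card = 3)
    (hpriv : ∀ p ∈ P, ∃ v ∈ p, ∀ q ∈ P, v ∈ q → q = p)
    (hR : ∀ Q ⊆ P, Q.card = 4 →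
      3 ≤ ((P.biUnion id).filter (fun v => 2 ≤ (Q.filter (fun p => v ∈ p)).card)).card) :
    P.card ≤ 6 ∧ (P.biUnion id).card ≤ 10 := by
  -- the indexed form for a subfamily
  have key : ∀ (k : ℕ) (f : Fin k ↪ Finset ι), (∀ j, f j ∈ P) → Rad (fun j => f j) ∧
      (∀ j, (f j).card = 3) ∧ ∀ j, ∃ v ∈ f j, ∀ i, v ∈ f i → i = j := by
    intro k f hf
    refine ⟨fun Q hQ => ?_, fun j => h3 _ (hf j), fun j => ?_⟩
    · have h1 := hR (Q.map f) (by
        intro q hq
        obtain ⟨j, -, rfl⟩ := mem_map.1 hq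
        exact hf j) (by rw [card_map, hQ])
      refine h1.trans (card_le_card ?_)
      intro v hv
      rw [mem_filter] at hv ⊢
      have h2 : (Q.map f).filter (fun p => v ∈ p) = (Q ∩ tau (fun j => f j) v).map f := by
        ext q
        rw [mem_filter, mem_map, mem_map]
        constructor
        · rintro ⟨⟨j, hj, rfl⟩, hv⟩
          exact ⟨j, mem_inter.2 ⟨hj, mem_tau.2 hv⟩, rfl⟩
        · rintro ⟨j, hj, rfl⟩
          rw [mem_inter, mem_tau] at hj
          exact ⟨⟨j, hj.1, rfl⟩, hj.2⟩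
      rw [h2, card_map] at hv
      refine ⟨?_, hv.2⟩
      obtain ⟨j, hj⟩ := card_pos.1 (by omega : 0 < (Q ∩ tau (fun j => f j) v).card)
      exact mem_un.2 ⟨j, mem_tau.1 (mem_inter.1 hj).2⟩
    · obtain ⟨v, hv, h1⟩ := hpriv _ (hf j)
      exact ⟨v, hv, fun i hi => f.injective (h1 _ (hf i) hi)⟩
  have h6 : P.card ≤ 6 := by
    by_contra hlt
    rw [not_le] at hlt
    obtain ⟨P', hP', hcard⟩ := exists_subset_card_eq (by omega : 7 ≤ P.card)
    let f : Fin 7 ↪ Finset ι := (P'.equivFinOfCardEq hcard).symm.toEmbedding.trans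
      (Function.Embedding.subtype _)
    obtain ⟨k1, k2, k3⟩ := key 7 f (fun j => hP' ((P'.equivFinOfCardEq hcard).symm j).2)
    exact no_seven k1 k2 k3
  refine ⟨h6, ?_⟩
  let f : Fin P.card ↪ Finset ι := (P.equivFin).symm.toEmbedding.trans
    (Function.Embedding.subtype _)
  obtain ⟨k1, k2, k3⟩ := key P.card f (fun j => (P.equivFin.symm j).2)
  have h7 := N3.card_le k1 k2 k3 h6
  have h8 : P.biUnion id = un (fun j => f j) := by
    ext v
    rw [mem_un, mem_biUnion]
    constructor
    · rintro ⟨q, hq, hv⟩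
      refine ⟨P.equivFin ⟨q, hq⟩, ?_⟩
      show v ∈ ((P.equivFin.symm (P.equivFin ⟨q, hq⟩)) : Finset ι)
      rw [Equiv.symm_apply_apply]
      exact hv
    · rintro ⟨j, hj⟩
      exact ⟨_, (P.equivFin.symm j).2, hj⟩
  rw [h8]
  exact h7

end PHP
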