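import Mathlib
import Pool.Agent.PHP.ExWorld
import Pool.Agent.PHP.N3Count

/-!
# Critical subfamilies have at most ten lines (problem MP_1180db_co, k = 3)

`World.Radon`: four cells with private lines have a Radon cell. `exists_ten`: if all cells have at least three
members, there is a subfamily `R` of at most ten lines such that every cell has at least three members in `R` and every
member of `R` is in a cell with exactly three members in `R`.
-/

namespace PHP

open Finset

variable {ι : Type}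

/-- four cells with private lines: some cell has only members which are in at least two of the four -/
def World.Radon (W : World ι) : Prop :=
  ∀ (X : Fin 4 → ι → Bool) (l : Fin 4 → ι), (∀ j, X j ∈ W.T) →
    (∀ j k, X j (l k) = true ↔ j = k) →
    ∃ Y ∈ W.T, ∀ i, Y i = true → 2 ≤ (univ.filter (fun j => X j i = true)).card

variable [Fintype ι] [DecidableEq ι]

/-- a critical subfamily -/
theorem exists_critical (T : Set (ι → Bool)) (hd : ∀ X ∈ T, 3 ≤ dep X) :
    ∃ R : Finset ι, (∀ X ∈ T, 3 ≤ hit R X) ∧ ∀ r ∈ R, ∃ X ∈ T, X r = true ∧ hit R X = 3 := by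
  classical
  set SS : Finset (Finset ι) := univ.filter (fun R => ∀ X ∈ T, 3 ≤ hit R X) with hSS
  have hne : SS.Nonempty := by
    refine ⟨univ, ?_⟩
    rw [hSS, mem_filter]
    exact ⟨mem_univ _, fun X hX => hd X hX⟩
  obtain ⟨R, hR, hmin⟩ := exists_min_image SS card hne
  rw [hSS, mem_filter] at hR
  refine ⟨R, hR.2, fun r hr => ?_⟩
  by_contra hcon
  push Not at hcon
  have h1 : R.erase r ∈ SS := by
    rw [hSS, mem_filter]
    refine ⟨mem_univ _, fun X hX => ?_⟩
    have h2 := hR.2 X hX
    have h3 := hcon X hX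
    unfold hit at h2 h3 ⊢
    by_cases hXr : X r = true
    · have h4 := h3 hXr
      have h5 : (R.filter (fun i => X i = true)).erase r ⊆
          (R.erase r).filter (fun i => X i = true) := by
        intro i hi
        rw [mem_erase, mem_filter] at hi
        rw [mem_filter, mem_erase]
        exact ⟨⟨hi.1, hi.2.1⟩, hi.2.2⟩
      have h6 := card_le_card h5
      rw [card_erase_of_mem (mem_filter.2 ⟨hr, hXr⟩)] at h6
      omega
    · refine h2.trans (card_le_card ?_)
      intro i hi
      rw [mem_filter] at hi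
      rw [mem_filter, mem_erase]
      refine ⟨⟨?_, hi.1⟩, hi.2⟩
      rintro rfl
      exact hXr hi.2
  have h2 := hmin _ h1
  rw [card_erase_of_mem hr] at h2
  have := card_pos.2 ⟨r, hr⟩
  omega

/-- a minimal subfamily with the same union -/
theorem exists_min_union (PP : Finset (Finset ι)) :
    ∃ P ⊆ PP, P.biUnion id = PP.biUnion id ∧ ∀ p ∈ P, ∃ v ∈ p, ∀ q ∈ P, v ∈ q → q = p := by
  classical
  set SS : Finset (Finset (Finset ι)) :=
    PP.powerset.filter (fun P => P.biUnion id = PP.biUnion id) with hSS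
  obtain ⟨P, hP, hmin⟩ := exists_min_image SS card ⟨PP, by
    rw [hSS, mem_filter, mem_powerset]
    exact ⟨Subset.refl _, rfl⟩⟩
  rw [hSS, mem_filter, mem_powerset] at hP
  refine ⟨P, hP.1, hP.2, fun p hp => ?_⟩
  by_contra hcon
  push Not at hcon
  have h1 : P.erase p ∈ SS := by
    rw [hSS, mem_filter, mem_powerset]
    refine ⟨(erase_subset _ _).trans hP.1, ?_⟩
    rw [← hP.2]
    ext v
    rw [mem_biUnion, mem_biUnion]
    constructor
    · rintro ⟨q, hq, hv⟩
      exact ⟨q, mem_of_mem_erase hq, hv⟩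
    · rintro ⟨q, hq, hv⟩
      by_cases hqp : q = p
      · rw [hqp] at hv
        obtain ⟨q', hq', h3, h4⟩ := hcon v hv
        exact ⟨q', mem_erase.2 ⟨h4, hq'⟩, h3⟩
      · exact ⟨q, mem_erase.2 ⟨hqp, hq⟩, hv⟩
  have h2 := hmin _ h1
  rw [card_erase_of_mem hp] at h2
  have := card_pos.2 ⟨p, hp⟩
  omega

/-- `N(3) ≤ 10` -/
theorem World.Radon.exists_ten {W : World ι} (hW : W.Radon) (hd : ∀ X ∈ W.T, 3 ≤ dep X) :
    ∃ R : Finset ι, R.card ≤ 10 ∧ (∀ X ∈ W.T, 3 ≤ hit R X) ∧
      ∀ r ∈ R, ∃ X ∈ W.T, X r = true ∧ hit R X = 3 := by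
  classical
  obtain ⟨R, hR1, hR2⟩ := exists_critical W.T hd
  refine ⟨R, ?_, hR1, hR2⟩
  set PP : Finset (Finset ι) :=
    R.powerset.filter (fun p => p.card = 3 ∧ ∃ X ∈ W.T, R.filter (fun i => X i = true) = p) with hPP
  have hun : PP.biUnion id = R := by
    ext v
    rw [mem_biUnion]
    constructor
    · rintro ⟨q, hq, hv⟩
      rw [hPP, mem_filter, mem_powerset] at hq
      exact hq.1 hv
    · intro hv
      obtain ⟨X, hX, hXv, h3⟩ := hR2 v hv
      refine ⟨R.filter (fun i => X i = true), ?_, mem_filter.2 ⟨hv, hXv⟩⟩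
      rw [hPP, mem_filter, mem_powerset]
      exact ⟨filter_subset _ _, h3, X, hX, rfl⟩
  obtain ⟨P, hP, hPun, hpriv⟩ := exists_min_union PP
  have hPR : P.biUnion id = R := hPun.trans hun
  rw [← hPR]
  have hP2 : ∀ p ∈ P, p.card = 3 ∧ ∃ X ∈ W.T, R.filter (fun i => X i = true) = p := fun p hp =>
    (mem_filter.1 (hP hp)).2
  refine (radon_count (fun p hp => (hP2 p hp).1) hpriv ?_).2
  intro Q hQ hQ4
  let f : Fin 4 ≃ Q := (Q.equivFinOfCardEq hQ4).symm
  have hfP : ∀ j, (f j : Finset ι) ∈ P := fun j => hQ (f j).2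
  choose X hXT hX using fun j => (hP2 (f j) (hfP j)).2
  choose l hl hlp using fun j => hpriv (f j) (hfP j)
  have hmem : ∀ j i, i ∈ R → (X j i = true ↔ i ∈ (f j : Finset ι)) := by
    intro j i hi
    rw [← hX j, mem_filter]
    exact ⟨fun h => ⟨hi, h⟩, fun h => h.2⟩
  have hlR : ∀ j, l j ∈ R := by
    intro j
    rw [← hPR, mem_biUnion]
    exact ⟨f j, hfP j, hl j⟩
  obtain ⟨Y, hY, hY2⟩ := hW X l hXT (by
    intro j k
    rw [hmem j (l k) (hlR k)]
    constructor
    · intro h
      have h1 := hlp k (f j) (hfP j) h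
      exact f.injective (Subtype.ext h1)
    · rintro rfl
      exact hl _)
  refine (hR1 Y hY).trans (card_le_card ?_)
  intro i hi
  rw [mem_filter] at hi
  rw [mem_filter, hPR]
  refine ⟨hi.1, ?_⟩
  have h1 := hY2 i hi.2
  have h2 : (univ.filter (fun j => X j i = true)).map
      (f.toEmbedding.trans (Function.Embedding.subtype _)) ⊆ Q.filter (fun p => i ∈ p) := by
    intro q hq
    obtain ⟨j, hj, rfl⟩ := mem_map.1 hq
    rw [mem_filter] at hj
    rw [mem_filter]
    exact ⟨(f j).2, (hmem j i hi.1).1 hj.2⟩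
  have h3 := card_le_card h2
  rw [card_map] at h3
  omega

end PHP
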