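import Mathlib
import Pool.Agent.PHP.N3Crit

/-!
# Helly and Radon for worlds (problem MP_1180db_co, k = 3)

`World.helly`: lines any three of which are missed by some cell are all missed by some cell. `World.radon`: four cells
with private lines have a Radon cell. `World.exists_ten`: `N(3) ≤ 10`.
-/

namespace PHP

open Finset

variable {ι : Type}

/-- Helly: if any three of the lines of `D` are missed by a cell then some cell misses all of them -/
theorem World.helly (W : World ι) (hne : W.T.Nonempty) (D : Finset ι)
    (h : ∀ i ∈ D, ∀ j ∈ D, ∀ k ∈ D, ∃ X ∈ W.T, X i = false ∧ X j = false ∧ X k = false) :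
    ∃ Y ∈ W.T, ∀ i ∈ D, Y i = false := by
  classical
  induction D using Finset.induction_on with
  | empty =>
    obtain ⟨X, hX⟩ := hne
    exact ⟨X, hX, by simp⟩
  | insert s D hs ih =>
    by_cases hcase : ∃ x ∈ D, ∃ y ∈ D, W.ty s x = true ∧ W.ty s y = false ∧
        W.pos s y < W.pos s x
    · obtain ⟨x, hx, y, hy, tx, ty, hlt⟩ := hcase
      have hxs : x ≠ s := fun h => hs (h ▸ hx)
      have hys : y ≠ s := fun h => hs (h ▸ hy)
      have hxy : x ≠ y := fun h => by rw [h, ty] at tx; exact absurd tx (by simp)
      have e1 : W.vt s x y = true := by
        rw [W.vt_eq hxs hys hxy, ty]; unfold sg; rw [if_neg (by omega)]; rfl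
      have e2 : W.vt s y x = true := by
        rw [W.vt_eq hys hxs hxy.symm, tx]; unfold sg; rw [if_pos hlt]
      obtain ⟨X, hX, x1, x2, x3⟩ := h s (mem_insert_self _ _) x (mem_insert_of_mem hx) y
        (mem_insert_of_mem hy)
      have m1 := W.miss hxs.symm hxy hys.symm X hX
      rw [e1, e2, x1, x2, x3] at m1
      have e3 : W.vt x y s = false := by
        cases hv : W.vt x y s
        · rfl
        · rw [hv] at m1
          exact absurd ⟨rfl, rfl, rfl⟩ m1
      obtain ⟨Y, hY, hYD⟩ := ih fun i hi j hj k hk =>
        h i (mem_insert_of_mem hi) j (mem_insert_of_mem hj) k (mem_insert_of_mem hk)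
      refine ⟨Y, hY, fun i hi => ?_⟩
      rcases mem_insert.1 hi with rfl | hi
      · have m2 := W.miss hxs.symm hxy hys.symm Y hY
        rw [e1, e2, e3, hYD x hx, hYD y hy] at m2
        cases hv : Y i
        · rfl
        · rw [hv] at m2
          exact absurd ⟨rfl, rfl, rfl⟩ m2
      · exact hYD i hi
    · push Not at hcase
      by_cases hL : (D.filter (fun x => W.ty s x = true)).Nonempty
      · obtain ⟨x, hx, hmax⟩ := exists_max_image _ (W.pos s) hL
        rw [mem_filter] at hx
        have hxs : x ≠ s := fun h => hs (h ▸ hx.1)
        refine ⟨fun k => if k = s then false else if k = x then false else W.vt s x k,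
          W.vertex hxs.symm _ (by intro k h1 h2; simp [h1, h2]), fun i hi => ?_⟩
        by_cases h1 : i = s
        · simp [h1]
        by_cases h2 : i = x
        · simp [h2]
        have hiD : i ∈ D := by
          rcases mem_insert.1 hi with h | h
          · exact absurd h h1
          · exact h
        show (if i = s then false else if i = x then false else W.vt s x i) = false
        rw [if_neg h1, if_neg h2, W.vt_eq hxs h1 (fun h => h2 h.symm)]
        have hp := W.pos_ne hxs h1 (fun h => h2 h.symm)
        unfold sg
        cases ht : W.ty s i
        · have := hcase x hx.1 i hiD hx.2 ht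
          rw [if_pos (by omega)]
        · have := hmax i (mem_filter.2 ⟨hiD, ht⟩)
          rw [if_neg (by omega)]
          rfl
      · by_cases hR : D.Nonempty
        · obtain ⟨x, hx, hmin⟩ := exists_min_image _ (W.pos s) hR
          have hxs : x ≠ s := fun h => hs (h ▸ hx)
          refine ⟨fun k => if k = s then false else if k = x then false else W.vt s x k,
            W.vertex hxs.symm _ (by intro k h1 h2; simp [h1, h2]), fun i hi => ?_⟩
          by_cases h1 : i = s
          · simp [h1]
          by_cases h2 : i = x
          · simp [h2]
          have hiD : i ∈ D := by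
            rcases mem_insert.1 hi with h | h
            · exact absurd h h1
            · exact h
          show (if i = s then false else if i = x then false else W.vt s x i) = false
          rw [if_neg h1, if_neg h2, W.vt_eq hxs h1 (fun h => h2 h.symm)]
          have hp := W.pos_ne hxs h1 (fun h => h2 h.symm)
          unfold sg
          cases ht : W.ty s i
          · have := hmin i hiD
            rw [if_pos (by omega)]
          · exact absurd ⟨i, mem_filter.2 ⟨hiD, ht⟩⟩ hL
        · rw [not_nonempty_iff_eq_empty] at hR
          subst hR
          obtain ⟨X, hX, x1, -, -⟩ := h s (by simp) s (by simp) s (by simp)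
          refine ⟨X, hX, fun i hi => ?_⟩
          rw [mem_insert] at hi
          rcases hi with rfl | hi
          · exact x1
          · simp at hi

variable [Fintype ι]

/-- Radon for worlds -/
theorem World.radon (W : World ι) : W.Radon := by
  classical
  intro X l hX hl
  obtain ⟨Y, hY, hY2⟩ := W.helly ⟨X 0, hX 0⟩
    (univ.filter (fun i => (univ.filter (fun j => X j i = true)).card ≤ 1)) (by
      intro i hi j hj k hk
      rw [mem_filter] at hi hj hk
      by_contra hcon
      push Not at hcon
      have h1 : (univ : Finset (Fin 4)) ⊆ (univ.filter (fun m => X m i = true)) ∪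
          ((univ.filter (fun m => X m j = true)) ∪ (univ.filter (fun m => X m k = true))) := by
        intro m _
        have h2 := hcon (X m) (hX m)
        rw [mem_union, mem_union, mem_filter, mem_filter, mem_filter]
        cases h3 : X m i
        · cases h4 : X m j
          · have h5 := h2 h3 h4
            right; right
            exact ⟨mem_univ _, by simpa using h5⟩
          · exact Or.inr (Or.inl ⟨mem_univ _, rfl⟩)
        · exact Or.inl ⟨mem_univ _, rfl⟩
      have h2 := card_le_card h1
      have h3 := card_union_le (univ.filter (fun m => X m i = true))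
        ((univ.filter (fun m => X m j = true)) ∪ (univ.filter (fun m => X m k = true)))
      have h4 := card_union_le (univ.filter (fun m => X m j = true))
        (univ.filter (fun m => X m k = true))
      have h5 : (univ : Finset (Fin 4)).card = 4 := by simp
      have := hi.2
      have := hj.2
      have := hk.2
      omega)
  refine ⟨Y, hY, fun i hi => ?_⟩
  by_contra hcon
  have := hY2 i (by rw [mem_filter]; exact ⟨mem_univ _, by omega⟩)
  rw [hi] at this
  exact absurd this (by simp)

/-- `N(3) ≤ 10` -/
theorem World.exists_ten [DecidableEq ι] (W : World ι) (hd : ∀ X ∈ W.T, 3 ≤ dep X) :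
    ∃ R : Finset ι, R.card ≤ 10 ∧ (∀ X ∈ W.T, 3 ≤ hit R X) ∧
      ∀ r ∈ R, ∃ X ∈ W.T, X r = true ∧ hit R X = 3 :=
  W.radon.exists_ten hd

end PHP
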