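import Mathlib
import Pool.Agent.PHP.N3Radon

/-!
# At least seven lines (problem MP_1180db_co, k = 3)
-/

namespace PHP

open Finset

variable {ι : Type} [DecidableEq ι]

/-- if every cell has at least three members in `R` then `R` has at least seven lines -/
theorem World.seven_le_card (W : World ι) {R : Finset ι} (hne : W.T.Nonempty)
    (hR : ∀ X ∈ W.T, 3 ≤ hit R X) : 7 ≤ R.card := by
  classical
  obtain ⟨X0, hX0⟩ := hne
  have h3 : 3 ≤ R.card := (hR X0 hX0).trans (card_filter_le _ _)
  obtain ⟨s, hs⟩ := card_pos.1 (show 0 < R.card by omega)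
  have hc : (R.erase s).card = R.card - 1 := card_erase_of_mem hs
  have hD : (R.erase s).Nonempty := card_pos.1 (by omega)
  have key : ∀ (y : ι) (β : Bool), y ∈ R.erase s →
      (∀ k ∈ R.erase s, k ≠ y → W.vt s y k = (β == W.ty s k)) →
      3 ≤ ((R.erase s).filter (fun x => W.ty s x = β)).card := by
    intro y β hy h
    have hys := (mem_erase.1 hy).1
    have h1 := hR (fun k => if k = s then false else if k = y then (β == W.ty s y) else W.vt s y k)
      (W.vertex hys.symm _ (by intro k h1 h2; simp [h1, h2]))
    unfold hit at h1
    refine h1.trans (card_le_card ?_)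
    intro i hi
    rw [mem_filter] at hi
    obtain ⟨hiR, hi2⟩ := hi
    rw [mem_filter]
    by_cases hs' : i = s
    · simp [hs'] at hi2
    have hiD : i ∈ R.erase s := mem_erase.2 ⟨hs', hiR⟩
    refine ⟨hiD, ?_⟩
    have hi2 : (if i = s then false else if i = y then (β == W.ty s y) else W.vt s y i) = true := hi2
    rw [if_neg hs'] at hi2
    by_cases hiy : i = y
    · rw [if_pos hiy] at hi2
      rw [hiy]
      have := eq_of_beq hi2
      exact this.symm
    · rw [if_neg hiy, h i hiD hiy] at hi2
      have := eq_of_beq hi2
      exact this.symm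
  have k1 : 3 ≤ ((R.erase s).filter (fun x => W.ty s x = true)).card := by
    obtain ⟨y, hy, hmin⟩ := exists_min_image _ (W.pos s) hD
    refine key y true hy fun k hk hky => ?_
    have hks := (mem_erase.1 hk).1
    have hys := (mem_erase.1 hy).1
    have h1 := W.pos_ne hys hks hky.symm
    have h2 := hmin k hk
    rw [W.vt_eq hys hks hky.symm]
    unfold sg
    rw [if_pos (by omega)]
    cases W.ty s k <;> rfl
  have k2 : 3 ≤ ((R.erase s).filter (fun x => W.ty s x = false)).card := by
    obtain ⟨y, hy, hmax⟩ := exists_max_image _ (W.pos s) hD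
    refine key y false hy fun k hk hky => ?_
    have hks := (mem_erase.1 hk).1
    have hys := (mem_erase.1 hy).1
    have h1 := W.pos_ne hys hks hky.symm
    have h2 := hmax k hk
    rw [W.vt_eq hys hks hky.symm]
    unfold sg
    rw [if_neg (by omega)]
    cases W.ty s k <;> rfl
  have h4 := card_filter_add_card_filter_not (s := R.erase s) (fun x => W.ty s x = true)
  have h5 : (R.erase s).filter (fun x => ¬ W.ty s x = true) =
      (R.erase s).filter (fun x => W.ty s x = false) := by
    apply filter_congr
    intro x _
    simp
  rw [h5] at h4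
  omega

end PHP
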