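import Mathlib
import Pool.Agent.PHP.ExBase

/-!
# All covering triples have the same lines around them (problem MP_1180db_co)

`W.Near a b c x`: `x` is one of `a`, `b`, `c` or contains a corner of the covering triple. In a world in which no line
contains the triangle of a covering triple, this set does not depend on the triple.
-/

set_option linter.unusedVariables false

namespace PHP
namespace World

open Finset

/-! ## one line, four others -/

theorem lineE (ts tl tr ty : Bool) (ps pl pr py : ℤ)
    (h : ps ≠ pl ∧ ps ≠ pr ∧ ps ≠ py ∧ pl ≠ pr ∧ pl ≠ py ∧ pr ≠ py)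
    (g1 : sg tl ps pl = true) (g2 : sg ts pl ps = true) (g3 : sg tr ps pr = false)
    (g4 : sg tr pl pr = true) (g5 : sg ty ps py = true) (g6 : sg ty pl py = true) :
    sg ty pr py = true := by
  unfold sg at *
  grind

theorem lineF (ts tr tm tl : Bool) (ps pr pm pl : ℤ)
    (h : ps ≠ pr ∧ ps ≠ pm ∧ ps ≠ pl ∧ pr ≠ pm ∧ pr ≠ pl ∧ pm ≠ pl)
    (g1 : sg tm ps pm = false) (g2 : sg tm pr pm = true) (g3 : sg tl ps pl = true)
    (g4 : sg tl pr pl = true) (g5 : sg ts pl ps = true) (g6 : sg ts pr ps = true)
    (g7 : sg tr ps pr = true) : sg tm pl pm = true := by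
  unfold sg at *
  grind

variable {ι : Type} {W : World ι}

theorem vt_left {s x y : ι} (hx : x ≠ s) (hy : y ≠ s) (hxy : x ≠ y) (h : W.ty s y = true) :
    W.vt s x y = true ↔ W.pos s x < W.pos s y := by
  rw [W.vt_eq hx hy hxy, h]
  unfold sg
  split_ifs with h1 <;> simp [h1]

theorem vt_right {s x y : ι} (hx : x ≠ s) (hy : y ≠ s) (hxy : x ≠ y) (h : W.ty s y = false) :
    W.vt s x y = true ↔ W.pos s y < W.pos s x := by
  have := W.pos_ne hx hy hxy
  rw [W.vt_eq hx hy hxy, h]
  unfold sg
  split_ifs with h1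
  · simp; omega
  · simp; omega

/-- the lines which meet the triangle of a covering triple -/
def Near (W : World ι) (a b c x : ι) : Prop :=
  x = a ∨ x = b ∨ x = c ∨ W.vt a b x = true ∨ W.vt b c x = true ∨ W.vt a c x = true

theorem near_swap {a b c x : ι} : W.Near a b c x ↔ W.Near b a c x := by
  unfold Near
  rw [W.vt_comm b a]
  tauto

theorem near_swap' {a b c x : ι} : W.Near a b c x ↔ W.Near a c b x := by
  unfold Near
  rw [W.vt_comm c b]
  tauto

theorem near_mirror {a b c x : ι} : W.mirror.Near a b c x ↔ W.Near a b c x := Iff.rfl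

/-- the lines of the core, seen from the line `s` -/
def From (W : World ι) (s l r x : ι) : Prop :=
  x = s ∨ (x ≠ s ∧ W.ty s x = true ∧ W.pos s r < W.pos s x) ∨
    (x ≠ s ∧ W.ty s x = false ∧ W.pos s x < W.pos s l)

theorem from_mirror {s l r x : ι} : W.mirror.From s r l x ↔ W.From s l r x := by
  have e1 : W.mirror.ty s x = !(W.ty s x) := rfl
  have e2 : ∀ y, W.mirror.pos s y = - W.pos s y := fun _ => rfl
  unfold From
  rw [e1, e2, e2, e2]
  cases W.ty s x
  · simp
  · simp

/-- a left of `s` after the first right is near every covering triple of `s` -/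
theorem Base.near_left (hN : W.NT) {s la rho l r x : ι} (hb : W.Base s la rho) (h : W.Cov s l r)
    (htl : W.ty s l = true) (hxs : x ≠ s) (htx : W.ty s x = true) (hx : W.pos s rho < W.pos s x) :
    W.Near s l r x := by
  by_contra hne
  unfold Near at hne
  push Not at hne
  obtain ⟨-, hxl, hxr, n1, n2, n3⟩ := hne
  rcases h.types with h1 | h1
  swap
  · rw [htl] at h1
    exact absurd h1.1 (by simp)
  obtain ⟨-, htr, hrl⟩ := h1
  obtain ⟨hsl, hlr, hsr, g1, g2, g3⟩ := h
  have hcb := hb.cov
  obtain ⟨ksl, klr, ksr, k1, k2, k3⟩ := hb.cov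
  -- places on `s`
  have p1 : W.pos s x < W.pos s r := by
    have := W.pos_ne hxs hsr.symm hxr
    have h2 := (vt_left (W := W) hsr.symm hxs hxr.symm htx).not.1 (by simpa using n3)
    omega
  have p2 := hb.last l hsl.symm htl
  have hxla : x ≠ la := fun h => by rw [h] at p1; omega
  have hxrho : x ≠ rho := fun h => by rw [h] at hx; omega
  have hrrho : r ≠ rho := fun h => by rw [h] at p1; omega
  have hrla : r ≠ la := fun h => by rw [h, hb.tl] at htr; exact absurd htr (by simp)
  have hlrho : l ≠ rho := fun h => by rw [h, hb.tr] at htl; exact absurd htl (by simp)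
  -- `x` and the base triple
  have x1 : W.vt s rho x = true := (vt_left ksr.symm hxs hxrho.symm htx).2 hx
  have x2 : W.vt s la x = false := by
    have := (vt_left (W := W) ksl.symm hxs hxla.symm htx).not.2 (by omega)
    simpa using this
  have x3 : W.vt la rho x = true := by
    rcases hN.rule hcb hxs hxla hxrho with h5 | h5 | h5 | h5
    · rw [x1] at h5; exact absurd h5.2.2 (by simp)
    · exact h5.2.1
    · rw [x2] at h5; exact absurd h5.1 (by simp)
    · rw [x2] at h5; exact absurd h5.1 (by simp)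
  -- `r` and the base triple
  have r1 : W.vt s la r = true := (vt_right ksl.symm hsr.symm hrla.symm htr).2 (by omega)
  have r2 : W.vt s rho r = false := by
    have := (vt_right (W := W) ksr.symm hsr.symm hrrho.symm htr).not.2 (by
      have := hb.first r hsr.symm htr
      omega)
    simpa using this
  have r3 : W.vt la rho r = true := by
    rcases hN.rule hcb hsr.symm hrla hrrho with h5 | h5 | h5 | h5
    · rw [r1] at h5; exact absurd h5.1 (by simp)
    · exact h5.2.1
    · rw [r2] at h5; exact absurd h5.2.2 (by simp)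
    · exact h5.2.1
  -- the line `rho`
  obtain ⟨c0, c1, c2, c3, c4, c5, c6⟩ :=
    W.line3 (s := rho) ksr klr hrrho ksl hsr hrla.symm
  obtain ⟨d0, d1, d2, d3, d4, d5, d6⟩ :=
    W.line3 (s := rho) ksr klr hxrho ksl hxs.symm hxla.symm
  obtain ⟨e0, e1, e2, e3, e4, e5, e6⟩ :=
    W.line3 (s := rho) ksr hrrho hxrho hsr hxs.symm hxr.symm
  have f1 : W.vt rho s la = true := by rw [W.vt_comm]; exact k3
  have f2 : W.vt rho la s = true := by rw [W.vt_comm]; exact k2
  have f3 : W.vt rho s r = false := by rw [W.vt_comm]; exact r2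
  have f4 : W.vt rho la r = true := by rw [W.vt_comm]; exact r3
  have f5 : W.vt rho s x = true := by rw [W.vt_comm]; exact x1
  have f6 : W.vt rho la x = true := by rw [W.vt_comm]; exact x3
  have hrx : W.vt rho r x = true := by
    rw [e5]
    exact lineE _ _ _ _ _ _ _ _ ⟨c0.1, c0.2.1, d0.2.1, c0.2.2, d0.2.2, e0.2.2⟩ (c1 ▸ f1) (c2 ▸ f2)
      (c3 ▸ f3) (c5 ▸ f4) (d3 ▸ f5) (d5 ▸ f6)
  have hrs : W.vt rho r la = true ∧ W.vt rho r s = true := by
    have := lineC _ _ _ _ _ _ ⟨fun h => c0.1 h.symm, c0.2.2, c0.2.1⟩ (c2 ▸ f2) (c1 ▸ f1) (c5 ▸ f4)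
      (c3 ▸ f3)
    rw [← c4, ← c6] at this
    exact this
  have hrl2 : W.vt rho r l = true := by
    by_cases hll : l = la
    · rw [hll]; exact hrs.1
    have l1 : W.vt s rho l = true := (vt_left ksr.symm hsl.symm hlrho.symm htl).2 (by omega)
    have l2 : W.vt s la l = false := by
      have := (vt_left (W := W) ksl.symm hsl.symm (fun h => hll h.symm) htl).not.2 (by omega)
      simpa using this
    have l3 : W.vt la rho l = true := by
      rcases hN.rule hcb hsl.symm hll hlrho with h5 | h5 | h5 | h5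
      · rw [l1] at h5; exact absurd h5.2.2 (by simp)
      · exact h5.2.1
      · rw [l2] at h5; exact absurd h5.1 (by simp)
      · rw [l2] at h5; exact absurd h5.1 (by simp)
    obtain ⟨d0', d1', d2', d3', d4', d5', d6'⟩ :=
      W.line3 (s := rho) ksr klr hlrho ksl hsl (fun h => hll h.symm)
    obtain ⟨e0', e1', e2', e3', e4', e5', e6'⟩ :=
      W.line3 (s := rho) ksr hrrho hlrho hsr hsl hlr.symm
    have f5' : W.vt rho s l = true := by rw [W.vt_comm]; exact l1
    have f6' : W.vt rho la l = true := by rw [W.vt_comm]; exact l3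
    rw [e5']
    exact lineE _ _ _ _ _ _ _ _ ⟨c0.1, c0.2.1, d0'.2.1, c0.2.2, d0'.2.2, e0'.2.2⟩ (c1 ▸ f1)
      (c2 ▸ f2) (c3 ▸ f3) (c5 ▸ f4) (d3' ▸ f5') (d5' ▸ f6')
  -- the line `r`
  obtain ⟨a0, a1, a2, a3, a4, a5, a6⟩ :=
    W.line3 (s := r) hsr hrrho.symm hxr ksr hxs.symm hxrho.symm
  obtain ⟨b0, b1, b2, b3, b4, b5, b6⟩ :=
    W.line3 (s := r) hsr hrrho.symm hlr ksr hsl hlrho.symm
  obtain ⟨i0, i1, i2, i3, i4, i5, i6⟩ :=
    W.line3 (s := r) hsr hxr hlr hxs.symm hsl hxl
  have z1 : W.vt r s x = false := by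
    rw [W.vt_comm]
    simpa using n3
  have z2 : W.vt r rho x = true := by rw [W.vt_comm]; exact hrx
  have z3 : W.vt r s l = true := by rw [W.vt_comm]; exact g3
  have z4 : W.vt r rho l = true := by rw [W.vt_comm]; exact hrl2
  have z5 : W.vt r l s = true := by rw [W.vt_comm]; exact g2
  have z6 : W.vt r rho s = true := by rw [W.vt_comm]; exact hrs.2
  have z7 : W.vt r s rho = true := by
    rw [W.vt_comm]
    exact (vt_right hsr.symm ksr.symm hrrho hb.tr).2 (by omega)
  have z8 : W.vt r l x = true := by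
    rw [i6]
    exact lineF _ _ _ _ _ _ _ _ ⟨a0.1, a0.2.1, b0.2.1, a0.2.2, b0.2.2, i0.2.2⟩ (a3 ▸ z1)
      (a5 ▸ z2) (b3 ▸ z3) (b5 ▸ z4) (b4 ▸ z5) (a2 ▸ z6) (a1 ▸ z7)
  rw [W.vt_comm] at z8
  exact n2 z8

theorem Base.near_iff (hN : W.NT) {s la rho l r : ι} (hb : W.Base s la rho) (h : W.Cov s l r)
    (x : ι) : W.Near s l r x ↔ W.From s la rho x := by
  wlog htl : W.ty s l = true generalizing l r
  · rcases h.types with h1 | h1
    · exact absurd h1.1 htl
    · rw [near_swap']
      exact this h.swap' h1.2.1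
  constructor
  · intro hx
    have h1 : W.ty s r = false ∧ W.pos s r < W.pos s l := by
      rcases h.types with h1 | h1
      · exact h1.2
      · rw [htl] at h1
        exact absurd h1.1 (by simp)
    obtain ⟨hsl, hlr, hsr, g1, g2, g3⟩ := h
    have h : W.Cov s l r := ⟨hsl, hlr, hsr, g1, g2, g3⟩
    have p1 := hb.last l hsl.symm htl
    have p2 := hb.first r hsr.symm h1.1
    by_cases hxs : x = s
    · exact Or.inl hxs
    by_cases hxl : x = l
    · rw [hxl]
      exact Or.inr (Or.inl ⟨hsl.symm, htl, by omega⟩)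
    by_cases hxr : x = r
    · rw [hxr]
      exact Or.inr (Or.inr ⟨hsr.symm, h1.1, by omega⟩)
    have key : W.vt s l x = true ∨ W.vt s r x = true := by
      unfold Near at hx
      rcases hN.rule h hxs hxl hxr with h5 | h5 | h5 | h5
      · rw [h5.1, h5.2.1, h5.2.2] at hx
        simp [hxs, hxl, hxr] at hx
      · exact Or.inr h5.2.2
      · exact Or.inl h5.1
      · exact Or.inl h5.1
    cases htx : W.ty s x
    · right; right
      refine ⟨hxs, htx, ?_⟩
      rcases key with k | k
      · have := (vt_right hsl.symm hxs (fun h => hxl h.symm) htx).1 k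
        omega
      · have := (vt_right hsr.symm hxs (fun h => hxr h.symm) htx).1 k
        omega
    · right; left
      refine ⟨hxs, htx, ?_⟩
      rcases key with k | k
      · have := (vt_left hsl.symm hxs (fun h => hxl h.symm) htx).1 k
        omega
      · have := (vt_left hsr.symm hxs (fun h => hxr h.symm) htx).1 k
        omega
  · rintro (rfl | ⟨hxs, htx, hx⟩ | ⟨hxs, htx, hx⟩)
    · exact Or.inl rfl
    · exact hb.near_left hN h htl hxs htx hx
    · have h2 : W.mirror.Near s r l x := by
        refine hb.mirror.near_left hN.mirror h.mirror.swap' ?_ hxs ?_ ?_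
        · show (!(W.ty s r)) = true
          rcases h.types with h1 | h1
          · rw [h1.2.1]; rfl
          · rw [htl] at h1
            exact absurd h1.1 (by simp)
        · show (!(W.ty s x)) = true
          rw [htx]; rfl
        · show - W.pos s la < - W.pos s x
          omega
      rw [near_mirror, near_swap'] at h2
      exact h2

end World
end PHP
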