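import Mathlib
import Pool.Agent.PHP.ExWorld

/-!
# The world of a complete system (problem MP_1180db_co)
-/

set_option linter.unusedVariables false
set_option linter.unusedSectionVars false

namespace PHP

open Finset

variable {ι : Type} [Fintype ι] [DecidableEq ι]

theorem exs_after (S : Sys ι) (i j : ι) :
    ∃ t, S.τ i j < t ∧ ∀ k, S.τ i j < S.τ i k → t ≤ S.τ i k := by
  classical
  by_cases h : (univ.filter (fun k => S.τ i j < S.τ i k)).Nonempty
  · obtain ⟨k, hk, hmin⟩ := exists_min_image _ (S.τ i) h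
    rw [mem_filter] at hk
    exact ⟨S.τ i k, hk.2, fun k' hk' => hmin k' (by rw [mem_filter]; exact ⟨mem_univ _, hk'⟩)⟩
  · refine ⟨S.τ i j + 1, by linarith, fun k hk => ?_⟩
    exact absurd ⟨k, by rw [mem_filter]; exact ⟨mem_univ _, hk⟩⟩ h

/-- all four cells at the crossing of `i` and `j` -/
theorem exs_vertex {S : Sys ι} (hc : S.Complete) {i j : ι} (hij : i ≠ j) (X : ι → Bool)
    (hX : ∀ k, k ≠ i → k ≠ j → X k = S.vec i (S.τ i j) k) : X ∈ S.T := by
  classical
  by_cases h : X j = S.v i false j
  · refine S.edge i (S.τ i j) X fun k hk => ?_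
    by_cases hkj : k = j
    · subst hkj
      rw [h]
      unfold vecOf
      rw [if_neg]
      simp
    · exact hX k hk hkj
  · obtain ⟨t, ht, ht2⟩ := exs_after S i j
    refine S.edge i t X fun k hk => ?_
    by_cases hkj : k = j
    · subst hkj
      unfold vecOf
      rw [if_pos ⟨hc _ _ hij, ht⟩, S.v_cr (hc _ _ hij)]
      cases h1 : X k <;> cases h2 : S.v i false k <;> simp_all
    · rw [hX k hk hkj]
      unfold Sys.vec vecOf
      have hik : S.cr i k := hc _ _ (fun h => hk h.symm)
      by_cases h3 : S.τ i k < S.τ i j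
      · rw [if_pos ⟨hik, h3⟩, if_pos ⟨hik, by linarith⟩]
      · rw [if_neg (fun h => h3 h.2), if_neg]
        rintro ⟨-, h4⟩
        rcases lt_or_eq_of_le (not_lt.1 h3) with h5 | h5
        · have := ht2 k h5
          linarith
        · exact hkj (S.τ_inj (hc _ _ hij) hik h5).symm

theorem exs_comm {S : Sys ι} (hc : S.Complete) {i j k : ι} (hij : i ≠ j) (hik : k ≠ i)
    (hjk : k ≠ j) : S.vec i (S.τ i j) k = S.vec j (S.τ j i) k := by
  classical
  by_contra hne
  obtain ⟨p, q, r, h⟩ := S.triple hij hjk.symm hik.symm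
  by_cases hr : r = S.vec i (S.τ i j) k
  · refine h (fun l => if l = i then p else if l = j then q else S.vec i (S.τ i j) l)
      (exs_vertex hc hij _ (by intro l h1 h2; simp [h1, h2])) ⟨by simp, by simp [hij.symm], ?_⟩
    simp [hik, hjk, hr]
  · have hr2 : r = S.vec j (S.τ j i) k := by
      cases h1 : r <;> cases h2 : S.vec i (S.τ i j) k <;> cases h3 : S.vec j (S.τ j i) k <;>
        simp_all
    refine h (fun l => if l = i then p else if l = j then q else S.vec j (S.τ j i) l)
      (exs_vertex hc hij.symm _ (by intro l h1 h2; simp [h1, h2]))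
      ⟨by simp, by simp [hij.symm], ?_⟩
    simp [hik, hjk, hr2]

open Classical in
/-- the world of a complete system -/
noncomputable def Sys.world (S : Sys ι) (hc : S.Complete) : World ι where
  T := S.T
  ty := fun s x => S.v s false x
  pos := fun s x => ((univ.filter (fun y => y ≠ s ∧ S.τ s y < S.τ s x)).card : ℤ)
  vt := fun i j k => if k = i ∨ k = j ∨ i = j then false else S.vec i (S.τ i j) k
  pos_ne := by
    intro s x y hx hy hxy
    have hne : S.τ s x ≠ S.τ s y := fun h => hxy (S.τ_inj (hc _ _ hx.symm) (hc _ _ hy.symm) h)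
    have key : ∀ x y, x ≠ s → S.τ s x < S.τ s y →
        (univ.filter (fun z => z ≠ s ∧ S.τ s z < S.τ s x)).card <
          (univ.filter (fun z => z ≠ s ∧ S.τ s z < S.τ s y)).card := by
      intro x y hx h
      apply card_lt_card
      rw [ssubset_iff_of_subset]
      · refine ⟨x, by simp [hx, h], by simp⟩
      · intro z hz
        rw [mem_filter] at hz ⊢
        exact ⟨hz.1, hz.2.1, hz.2.2.trans h⟩
    rcases lt_or_gt_of_ne hne with h | h
    · have := key x y hx h
      omega
    · have := key y x hy h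
      omega
  vt_comm := by
    intro i j k
    by_cases h : k = i ∨ k = j ∨ i = j
    · rw [if_pos h, if_pos (by tauto)]
    · rw [if_neg h, if_neg (by tauto)]
      push Not at h
      exact exs_comm hc h.2.2 h.1 h.2.1
  vt_eq := by
    intro s x y hx hy hxy
    have hne : S.τ s x ≠ S.τ s y := fun h => hxy (S.τ_inj (hc _ _ hx.symm) (hc _ _ hy.symm) h)
    have key : ∀ x y, x ≠ s → S.τ s x < S.τ s y →
        (univ.filter (fun z => z ≠ s ∧ S.τ s z < S.τ s x)).card <
          (univ.filter (fun z => z ≠ s ∧ S.τ s z < S.τ s y)).card := by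
      intro x y hx h
      apply card_lt_card
      rw [ssubset_iff_of_subset]
      · refine ⟨x, by simp [hx, h], by simp⟩
      · intro z hz
        rw [mem_filter] at hz ⊢
        exact ⟨hz.1, hz.2.1, hz.2.2.trans h⟩
    rw [if_neg (by push Not; exact ⟨hy, fun h => hxy h.symm, fun h => hx h.symm⟩)]
    unfold Sys.vec vecOf sg
    have hsy : S.cr s y := hc _ _ hy.symm
    rcases lt_or_gt_of_ne hne with h | h
    · have := key x y hx h
      rw [if_neg (fun h2 => by linarith [h2.2]), if_pos (by omega)]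
    · have := key y x hy h
      rw [if_pos ⟨hsy, h⟩, if_neg (by omega), S.v_cr hsy]
  miss := by
    intro i j k hij hjk hik X hX
    obtain ⟨p, q, r, h⟩ := S.triple hij hjk hik
    have h1 : ∀ a b c : ι, a ≠ b → c ≠ a → c ≠ b → ∀ p q : Bool, ∃ Y ∈ S.T, Y a = p ∧ Y b = q ∧
        Y c = S.vec a (S.τ a b) c := by
      intro a b c hab hca hcb p q
      exact ⟨fun l => if l = a then p else if l = b then q else S.vec a (S.τ a b) l,
        exs_vertex hc hab _ (by intro l h1 h2; simp [h1, h2]), by simp, by simp [hab.symm],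
        by simp [hca, hcb]⟩
    rw [if_neg (by push Not; exact ⟨hij, hik, hjk⟩), if_neg (by push Not; exact ⟨hij.symm, hjk, hik⟩),
      if_neg (by push Not; exact ⟨hik.symm, hjk.symm, hij⟩)]
    have e1 : p = !(S.vec j (S.τ j k) i) := by
      by_contra hne
      obtain ⟨Y, hY, y1, y2, y3⟩ := h1 j k i hjk hij hik q r
      refine h Y hY ⟨?_, y1, y2⟩
      rw [y3]
      cases h2 : p <;> cases h3 : S.vec j (S.τ j k) i <;> simp_all
    have e2 : q = !(S.vec i (S.τ i k) j) := by
      by_contra hne
      obtain ⟨Y, hY, y1, y2, y3⟩ := h1 i k j hik hij.symm hjk p r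
      refine h Y hY ⟨y1, ?_, y2⟩
      rw [y3]
      cases h2 : q <;> cases h3 : S.vec i (S.τ i k) j <;> simp_all
    have e3 : r = !(S.vec i (S.τ i j) k) := by
      by_contra hne
      obtain ⟨Y, hY, y1, y2, y3⟩ := h1 i j k hij hik.symm hjk.symm p q
      refine h Y hY ⟨y1, y2, ?_⟩
      rw [y3]
      cases h2 : r <;> cases h3 : S.vec i (S.τ i j) k <;> simp_all
    rintro ⟨k1, k2, k3⟩
    exact h X hX ⟨by rw [k1, e1], by rw [k2, e2], by rw [k3, e3]⟩
  vertex := by
    intro i j hij X hX
    refine exs_vertex hc hij X fun k hk1 hk2 => ?_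
    rw [hX k hk1 hk2, if_neg (by push Not; exact ⟨hk1, hk2, hij⟩)]

theorem Sys.world_T (S : Sys ι) (hc : S.Complete) : (S.world hc).T = S.T := rfl

end PHP
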