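import Mathlib
import Pool.Agent.PHP.BipDefs

/-!
# Covering triples with two common letters: the cap language (problem MP_1180db_co, k = 3)

The pole is the cell `O = {B, D, f}`; `{A, B, D}` is a covering triple and every cell which contains it contains `f`
and `g`. `Hvy O H`: the cell of the cap `H` has at least five members. `Inz O H i`: the letter `i` is in the cell of
the cap `H`. `Col C O`: three colours for the heavy cells.
-/

namespace PHP

open Finset

namespace CapSys

variable {ι : Type} [DecidableEq ι]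

/-- the letter `i` is in the cell of the cap `H` -/
def Inz (O H : Finset ι) (i : ι) : Prop := ¬ (i ∈ H ↔ i ∈ O)

/-- the cell of the cap `H` has at least five members (`O` has three) -/
def Hvy (O H : Finset ι) : Prop := (H ∩ O).card + 2 ≤ (H \ O).card

/-- three colours for the heavy cells -/
def Col (C : CapSys ι) (O : Finset ι) : Prop :=
  ∃ c : ι → Fin 3, ∀ H ∈ C.caps, Hvy O H → ∀ j, ∃ i, c i = j ∧ Inz O H i

/-- no triple is good -/
def Free (C : CapSys ι) (O : Finset ι) : Prop :=
  ∀ a b c : ι, a ≠ b → b ≠ c → a ≠ c → ∃ H ∈ C.caps,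
    (Hvy O H ∧ ¬ Inz O H a ∧ ¬ Inz O H b ∧ ¬ Inz O H c) ∨
    ((H ∩ O).card + 2 = (H \ O).card ∧ Inz O H a ∧ Inz O H b ∧ Inz O H c)

structure Pole (C : CapSys ι) (A B D f g : ι) : Prop where
  nd : [A, B, D, f, g].Nodup
  dep : ∀ H ∈ C.caps, (H ∩ {B, D, f}).card ≤ (H \ {B, D, f}).card
  cov : ∀ H ∈ C.caps, B ∈ H → D ∈ H → A ∈ H
  q : ∀ H ∈ C.caps, A ∈ H → B ∉ H → D ∉ H → g ∈ H ∧ f ∉ H
  Ag : {A, g} ∈ C.caps

/-- the cap `{A, g, x, y | B, f}` which blocks the first colouring -/
structure Stk (C : CapSys ι) (A B D f g x y : ι) : Prop extends Pole C A B D f g where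
  hx : {x} ∈ C.caps
  hy : {y} ∈ C.caps
  yg : C.lt y g
  gx : C.lt g x
  H0 : ∃ H ∈ C.caps, ∀ i, i ∈ H ↔ i = A ∨ i = g ∨ i = x ∨ i = y ∨ i = B ∨ i = f

/-- the second colouring is blocked too, `f` is right of `x` -/
structure Fail (C : CapSys ι) (A B D f g x y : ι) : Prop extends Stk C A B D f g x y where
  xf : C.lt x f

variable {C : CapSys ι}

theorem inz_red {O H : Finset ι} {i : ι} (h : i ∉ O) : Inz O H i ↔ i ∈ H := by
  unfold Inz
  tauto

theorem inz_blue {O H : Finset ι} {i : ι} (h : i ∈ O) : Inz O H i ↔ i ∉ H := by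
  unfold Inz
  tauto

/-- a single letter which is a cap is a hull letter of every set which contains it -/
theorem hull_of_cap {p : ι} (h : {p} ∈ C.caps) {Q : Finset ι} (hp : p ∈ Q) : C.Hull Q p :=
  ⟨{p}, h, by
    ext i
    rw [mem_inter, mem_singleton]
    constructor
    · exact fun h1 => h1.1
    · rintro rfl
      exact ⟨rfl, hp⟩⟩

/-- (L1) a hull letter between two letters of a cap is in the cap -/
theorem cap_between {p : ι} (h : {p} ∈ C.caps) {H : Finset ι} (hH : H ∈ C.caps) {u v : ι}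
    (hu : u ∈ H) (hv : v ∈ H) (h1 : C.lt u p) (h2 : C.lt p v) (h3 : C.lt u v) : p ∈ H := by
  by_contra hp
  exact btw hH h hu (by rw [mem_singleton]; exact lt_ne h1) (mem_singleton_self p) hp hv
    (by rw [mem_singleton]; exact (lt_ne h2).symm) h1 h2 h3

/-- a nonempty cap contains a hull letter -/
theorem exists_single [Fintype ι] {H : Finset ι} (hH : H ∈ C.caps) (hne : H.Nonempty) :
    ∃ p ∈ H, {p} ∈ C.caps := by
  obtain ⟨p, hp, P, hP, h1⟩ := C.step univ hH (by rwa [inter_univ])
  rw [inter_univ] at h1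
  subst h1
  exact ⟨p, hp, hP⟩

theorem exists_red {O H F : Finset ι} (h : F.card < (H \ O).card) :
    ∃ y ∈ H, y ∉ O ∧ y ∉ F := by
  by_contra hcon
  push Not at hcon
  have h1 : H \ O ⊆ F := by
    intro y hy
    rw [mem_sdiff] at hy
    exact hcon y hy.1 hy.2
  have := card_le_card h1
  omega

/-- two letters of a cap are compared -/
theorem lt_or {a b : ι} (h : a ≠ b) : C.lt a b ∨ C.lt b a := lt_total h

/-- half turns at infinity: a letter inside `[a, a + pi)` -/
theorem exists_half_from (a : ι) : ∃ P ∈ C.caps, a ∈ P ∧ ∀ i, i ≠ a → (i ∈ P ↔ C.lt a i) := by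
  have ha := C.lt_ang a
  obtain ⟨P, hP, h1⟩ := C.half (C.ang a) ha
  refine ⟨P, hP, ?_, fun i hi => ?_⟩
  · rw [h1]
    unfold inHalf
    omega
  · rw [h1]
    have hi2 := C.lt_ang i
    have h3 := C.inj hi
    unfold inHalf lt
    omega

/-- half turns at infinity: `(a - pi, a]` -/
theorem exists_half_to (a : ι) : ∃ P ∈ C.caps, a ∈ P ∧ ∀ i, i ≠ a → (i ∈ P ↔ C.lt i a) := by
  have ha := C.lt_ang a
  by_cases h : C.ang a + 1 < C.n
  · obtain ⟨P, hP, h1⟩ := C.half (C.ang a + 1 + C.n) (by omega)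
    refine ⟨P, hP, ?_, fun i hi => ?_⟩
    · rw [h1]
      unfold inHalf
      omega
    · rw [h1]
      have hi2 := C.lt_ang i
      have h3 := C.inj hi
      unfold inHalf lt
      omega
  · obtain ⟨P, hP, h1⟩ := C.half (C.ang a + 1 - C.n) (by omega)
    refine ⟨P, hP, ?_, fun i hi => ?_⟩
    · rw [h1]
      unfold inHalf
      omega
    · rw [h1]
      have hi2 := C.lt_ang i
      have h3 := C.inj hi
      unfold inHalf lt
      omega

/-- half turns at infinity: the open half turn `(a, a + pi)` -/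
theorem exists_half_after (a : ι) : ∃ P ∈ C.caps, a ∉ P ∧ ∀ i, i ≠ a → (i ∈ P ↔ C.lt a i) := by
  have ha := C.lt_ang a
  by_cases h : C.ang a + 1 < 2 * C.n
  · obtain ⟨P, hP, h1⟩ := C.half (C.ang a + 1) h
    refine ⟨P, hP, ?_, fun i hi => ?_⟩
    · rw [h1]
      unfold inHalf
      omega
    · rw [h1]
      have hi2 := C.lt_ang i
      have h3 := C.inj hi
      unfold inHalf lt
      omega
  · obtain ⟨P, hP, h1⟩ := C.half 0 (by omega)
    refine ⟨P, hP, ?_, fun i hi => ?_⟩
    · rw [h1]
      unfold inHalf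
      omega
    · rw [h1]
      have hi2 := C.lt_ang i
      have h3 := C.inj hi
      unfold inHalf lt
      omega

theorem exists_half_before (a : ι) : ∃ P ∈ C.caps, a ∉ P ∧ ∀ i, i ≠ a → (i ∈ P ↔ C.lt i a) := by
  have ha := C.lt_ang a
  rcases le_or_gt C.n (C.ang a) with h | h
  · obtain ⟨P, hP, h1⟩ := C.half (C.ang a - C.n) (by omega)
    refine ⟨P, hP, ?_, fun i hi => ?_⟩
    · rw [h1]
      unfold inHalf
      omega
    · rw [h1]
      have hi2 := C.lt_ang i
      have h3 := C.inj hi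
      unfold inHalf lt
      omega
  · obtain ⟨P, hP, h1⟩ := C.half (C.ang a + C.n) (by omega)
    refine ⟨P, hP, ?_, fun i hi => ?_⟩
    · rw [h1]
      unfold inHalf
      omega
    · rw [h1]
      have hi2 := C.lt_ang i
      have h3 := C.inj hi
      unfold inHalf lt
      omega

end CapSys

end PHP
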