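import Mathlib
import Pool.Agent.PHP.Q2Defs

/-!
# Outputs of the cap part of THEOREM Q2 (problem MP_1180db_co, k = 3)

`Out1`: a covering triple `{p, q, r}` with common letters `u, w` such that `{p, q, u, w}` and `{p, r, u, w}` are cells.
`Out2`: a covering triple `{p, q, r}` with common letters `u, w` to which Theorem E applies.
`Side`: adjacent covering triples of the cells with three members.
`CaseB`: the failing situation with `x < B`, and the hull letter `v` right of `x`.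
-/

namespace PHP

open Finset

namespace CapSys

variable {ι : Type} [DecidableEq ι]

/-- a covering triple `{p, q, r}` with the common letters `u, w` -/
structure Two (C : CapSys ι) (O : Finset ι) (p q r u w : ι) : Prop where
  nd : [p, q, r, u, w].Nodup
  cov : ∀ H ∈ C.caps, Inz O H p ∨ Inz O H q ∨ Inz O H r
  com : ∀ H ∈ C.caps, Inz O H p → Inz O H q → Inz O H r → Inz O H u ∧ Inz O H w

/-- `T + u + w - q` and `T + u + w - r` are cells -/
def Out1 (C : CapSys ι) (O : Finset ι) : Prop :=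
  ∃ p q r u w : ι, Two C O p q r u w ∧
    (∃ H ∈ C.caps, ∀ i, Inz O H i ↔ i = p ∨ i = q ∨ i = u ∨ i = w) ∧
    (∃ H ∈ C.caps, ∀ i, Inz O H i ↔ i = p ∨ i = r ∨ i = u ∨ i = w)

/-- Theorem E applies: every cell inside `T + u + w` contains `u` and `w` -/
def Out2 (C : CapSys ι) (O : Finset ι) : Prop :=
  ∃ p q r u w : ι, Two C O p q r u w ∧
    ∀ H ∈ C.caps, (∀ i, Inz O H i → i = p ∨ i = q ∨ i = r ∨ i = u ∨ i = w) →
      Inz O H u ∧ Inz O H w

/-- adjacent covering triples: `G` is the cap of a cell with three members, `b` one of them -/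
def Side (C : CapSys ι) (O : Finset ι) : Prop :=
  ∀ G ∈ C.caps, (G ∩ O).card = (G \ O).card → ∀ b, Inz O G b → ∃ p q : ι, p ≠ q ∧
    ¬ Inz O G p ∧ ¬ Inz O G q ∧ (∀ H ∈ C.caps, Inz O H b ∨ Inz O H p ∨ Inz O H q) ∧
    (∃ H ∈ C.caps, ∀ i, Inz O H i ↔ Inz O G i ∨ i = p) ∧
    (∃ H ∈ C.caps, ∀ i, Inz O H i ↔ Inz O G i ∨ i = q)

/-- case (b): `B` is right of `x`; `v` is the next hull letter right of `x` -/
structure CaseB (C : CapSys ι) (A B D f g x y v : ι) : Prop extends Fail C A B D f g x y where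
  free : Free C {B, D, f}
  hv : {v} ∈ C.caps
  nd' : [A, B, D, f, g, x, y, v].Nodup
  gap : ∀ r, {r} ∈ C.caps → C.lt x r → C.lt r v → False
  xv : C.lt x v
  fv : C.lt f v
  xB : C.lt x B
  Bv : C.lt B v
  Tf : ∀ H ∈ C.caps, f ∈ H → x ∈ H ∨ v ∈ H
  TB : ∀ H ∈ C.caps, B ∈ H → x ∈ H ∨ v ∈ H
  yx : C.lt y x
  yA : C.lt y A
  Ax : C.lt A x
  AB : C.lt A B
  DA : C.lt D A
  DB : C.lt D B
  Dx : C.lt D x

end CapSys

end PHP
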