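import Mathlib
import Pool.Agent.PHP.Q2Struct

/-!
# THEOREM Q2, case (b1) (problem MP_1180db_co, k = 3)

`CaseB.b1`: if `{x, b1}` is a cap, `b1` one of `B`, `f`, and `b2` the other one, then the adjacent triple `{b2, p, q}` of
the cell `{b2, D, x}` has the common letters `x` and `D`.
-/

namespace PHP

open Finset

namespace CapSys

variable {ι : Type} [DecidableEq ι] {C : CapSys ι} {A B D f g x y v : ι}

/-- case (b1) -/
theorem CaseB.b1 [Fintype ι] (h : CaseB C A B D f g x y v) (hS : Side C {B, D, f})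
    {b1 b2 : ι} (hb : (b1 = B ∧ b2 = f) ∨ (b1 = f ∧ b2 = B)) (hc : {x, b1} ∈ C.caps)
    {H : Finset ι} (hH : H ∈ C.caps) (hx : x ∈ H) (hv : v ∈ H) (hb2 : b2 ∈ H) (hb1 : b1 ∉ H) :
    Out1 C {B, D, f} := by
  classical
  have hnd := h.nd'
  simp only [List.nodup_cons, List.mem_cons, List.not_mem_nil, or_false, not_or,
    List.nodup_nil, and_true, not_false_eq_true] at hnd
  obtain ⟨⟨hAB, hAD, hAf, hAg, hAx, hAy, hAv⟩, ⟨hBD, hBf, hBg, hBx, hBy, hBv⟩,
    ⟨hDf, hDg, hDx, hDy, hDv⟩, ⟨hfg, hfx, hfy, hfv⟩, ⟨hgx, hgy, hgv⟩, ⟨hxy, hxv⟩, hyv⟩ := hnd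
  obtain ⟨H0, hH0, hm0⟩ := h.H0
  set O : Finset ι := {B, D, f} with hO
  have hOm : ∀ i, i ∈ O ↔ i = b1 ∨ i = b2 ∨ i = D := by
    intro i
    rw [hO, mem_insert, mem_insert, mem_singleton]
    rcases hb with ⟨rfl, rfl⟩ | ⟨rfl, rfl⟩ <;> tauto
  have hb12 : b1 ≠ b2 := by
    rcases hb with ⟨rfl, rfl⟩ | ⟨rfl, rfl⟩
    · exact hBf
    · exact Ne.symm hBf
  have hb1D : b1 ≠ D := by
    rcases hb with ⟨rfl, rfl⟩ | ⟨rfl, rfl⟩
    · exact hBD
    · exact Ne.symm hDf
  have hb2D : b2 ≠ D := by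
    rcases hb with ⟨rfl, rfl⟩ | ⟨rfl, rfl⟩
    · exact Ne.symm hDf
    · exact hBD
  have hxb1 : x ≠ b1 := by
    rcases hb with ⟨rfl, rfl⟩ | ⟨rfl, rfl⟩
    · exact Ne.symm hBx
    · exact Ne.symm hfx
  have hxb2 : x ≠ b2 := by
    rcases hb with ⟨rfl, rfl⟩ | ⟨rfl, rfl⟩
    · exact Ne.symm hfx
    · exact Ne.symm hBx
  have hgb1 : g ≠ b1 := by
    rcases hb with ⟨rfl, rfl⟩ | ⟨rfl, rfl⟩
    · exact Ne.symm hBg
    · exact Ne.symm hfg
  have hvb1 : v ≠ b1 := by
    rcases hb with ⟨rfl, rfl⟩ | ⟨rfl, rfl⟩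
    · exact Ne.symm hBv
    · exact Ne.symm hfv
  have hxlt1 : C.lt x b1 := by
    rcases hb with ⟨rfl, rfl⟩ | ⟨rfl, rfl⟩
    · exact h.xB
    · exact h.xf
  have hxlt2 : C.lt x b2 := by
    rcases hb with ⟨rfl, rfl⟩ | ⟨rfl, rfl⟩
    · exact h.xf
    · exact h.xB
  have h1ltv : C.lt b1 v := by
    rcases hb with ⟨rfl, rfl⟩ | ⟨rfl, rfl⟩
    · exact h.Bv
    · exact h.fv
  have h2ltv : C.lt b2 v := by
    rcases hb with ⟨rfl, rfl⟩ | ⟨rfl, rfl⟩
    · exact h.fv
    · exact h.Bv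
  have hH0c : ∀ i, i ∈ H0 ↔ i = A ∨ i = g ∨ i = x ∨ i = y ∨ i = b1 ∨ i = b2 := by
    intro i
    rw [hm0]
    rcases hb with ⟨rfl, rfl⟩ | ⟨rfl, rfl⟩ <;> tauto
  have hAH0 : A ∈ H0 := (hm0 A).2 (by simp)
  have hgH0 : g ∈ H0 := (hm0 g).2 (by simp)
  have hxH0 : x ∈ H0 := (hm0 x).2 (by simp)
  have hyH0 : y ∈ H0 := (hm0 y).2 (by simp)
  have h1H0 : b1 ∈ H0 := (hH0c b1).2 (by simp)
  have h2H0 : b2 ∈ H0 := (hH0c b2).2 (by simp)
  have hDH0 : D ∉ H0 := by
    rw [hH0c]
    rintro (h1 | h1 | h1 | h1 | h1 | h1)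
    · exact hAD h1.symm
    · exact hDg h1
    · exact hDx h1
    · exact hDy h1
    · exact hb1D h1.symm
    · exact hb2D h1.symm
  -- the red letters of `H0` other than `x` are left of `x`
  have hleft : ∀ i ∈ H0, i ≠ x → i ≠ b1 → i ≠ b2 → C.lt i x := by
    intro i hi h1 h2 h3
    rcases (hH0c i).1 hi with h4 | h4 | h4 | h4 | h4 | h4
    · rw [h4]
      exact h.Ax
    · rw [h4]
      exact h.gx
    · exact absurd h4 h1
    · rw [h4]
      exact h.yx
    · exact absurd h4 h2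
    · exact absurd h4 h3
  -- `b1` is left of `b2`
  have h12 : C.lt b1 b2 := by
    rcases lt_total (C := C) hb12 with h1 | h1
    · exact h1
    · exfalso
      refine btw hH hc hb2 ?_ (by simp) hb1 hv ?_ h1 h1ltv h2ltv
      · rw [mem_insert, mem_singleton]
        rintro (h2 | h2)
        · exact hxb2 h2.symm
        · exact hb12 h2.symm
      · rw [mem_insert, mem_singleton]
        rintro (h2 | h2)
        · exact hxv h2.symm
        · exact hvb1 h2
  have h1O : b1 ∈ O := (hOm b1).2 (Or.inl rfl)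
  have h2O : b2 ∈ O := (hOm b2).2 (Or.inr (Or.inl rfl))
  have hDO : D ∈ O := (hOm D).2 (Or.inr (Or.inr rfl))
  have hxO : x ∉ O := by
    rw [hOm]
    rintro (h1 | h1 | h1)
    · exact hxb1 h1
    · exact hxb2 h1
    · exact hDx h1.symm
  -- the cell of the cap `{x, b1}`
  have hG : ∀ i, Inz O {x, b1} i ↔ i = x ∨ i = b2 ∨ i = D := by
    intro i
    by_cases hi : i ∈ O
    · rw [inz_blue hi, mem_insert, mem_singleton]
      rcases (hOm i).1 hi with h1 | h1 | h1
      · rw [h1]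
        constructor
        · intro h2
          exact absurd (Or.inr rfl) h2
        · rintro (h2 | h2 | h2)
          · exact absurd h2.symm hxb1
          · exact absurd h2 hb12
          · exact absurd h2 hb1D
      · rw [h1]
        constructor
        · intro _
          exact Or.inr (Or.inl rfl)
        · intro _ h2
          rcases h2 with h2 | h2
          · exact hxb2 h2.symm
          · exact hb12 h2.symm
      · rw [h1]
        constructor
        · intro _
          exact Or.inr (Or.inr rfl)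
        · intro _ h2
          rcases h2 with h2 | h2
          · exact hDx h2
          · exact hb1D h2.symm
    · rw [inz_red hi, mem_insert, mem_singleton]
      constructor
      · rintro (h1 | h1)
        · exact Or.inl h1
        · rw [h1] at hi
          exact absurd h1O hi
      · rintro (h1 | h1 | h1)
        · exact Or.inl h1
        · rw [h1] at hi
          exact absurd h2O hi
        · rw [h1] at hi
          exact absurd hDO hi
  have hcard : (({x, b1} : Finset ι) ∩ O).card = (({x, b1} : Finset ι) \ O).card := by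
    have e1 : (({x, b1} : Finset ι) ∩ O) = {b1} := by
      ext i
      rw [mem_inter, mem_insert, mem_singleton]
      constructor
      · rintro ⟨h1 | h1, h2⟩
        · rw [h1] at h2
          exact absurd h2 hxO
        · exact h1
      · rintro rfl
        exact ⟨Or.inr rfl, h1O⟩
    have e2 : (({x, b1} : Finset ι) \ O) = {x} := by
      ext i
      rw [mem_sdiff, mem_insert, mem_singleton, mem_singleton]
      constructor
      · rintro ⟨h1 | h1, h2⟩
        · exact h1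
        · rw [h1] at h2
          exact absurd h1O h2
      · rintro rfl
        exact ⟨Or.inl rfl, hxO⟩
    rw [e1, e2, card_singleton, card_singleton]
  obtain ⟨p, q, hpq, hp, hq, hcov, hKp, hKq⟩ := hS _ hc hcard b2 ((hG b2).2 (Or.inr (Or.inl rfl)))
  rw [hG] at hp hq
  push Not at hp hq
  obtain ⟨hpx, hpb2, hpD⟩ := hp
  obtain ⟨hqx, hqb2, hqD⟩ := hq
  -- neither of the two letters is `b1`
  have hnb1 : ∀ r, r ≠ x → r ≠ b1 → r ≠ b2 → r ≠ D →
      (∀ K ∈ C.caps, b1 ∈ K → b2 ∈ K → r ∈ K) → False := by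
    intro r h1 h2 h3 h4 h5
    obtain ⟨P, hP, hP1, hP2⟩ := exists_half_from (C := C) b1
    have h6 := h5 P hP hP1 ((hP2 b2 (Ne.symm hb12)).2 h12)
    have h7 := (hP2 r h2).1 h6
    have h8 := h5 H0 hH0 h1H0 h2H0
    have h9 := hleft r h8 h1 h2 h3
    exact lt_asymm h7 (trans hH0 h8 hxH0 h1H0 h9 hxlt1)
  have hp1 : p ≠ b1 := by
    intro h1
    have hq1 : q ≠ b1 := fun h2 => hpq (h1.trans h2.symm)
    have hqO : q ∉ O := by
      rw [hOm]
      rintro (h2 | h2 | h2)
      · exact hq1 h2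
      · exact hqb2 h2
      · exact hqD h2
    refine hnb1 q hqx hq1 hqb2 hqD (fun K hK h2 h3 => ?_)
    have h4 := hcov K hK
    rw [h1, inz_blue h2O, inz_blue h1O, inz_red hqO] at h4
    rcases h4 with h4 | h4 | h4
    · exact absurd h3 h4
    · exact absurd h2 h4
    · exact h4
  have hq1 : q ≠ b1 := by
    intro h1
    have hpO : p ∉ O := by
      rw [hOm]
      rintro (h2 | h2 | h2)
      · exact hp1 h2
      · exact hpb2 h2
      · exact hpD h2
    refine hnb1 p hpx hp1 hpb2 hpD (fun K hK h2 h3 => ?_)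
    have h4 := hcov K hK
    rw [h1, inz_blue h2O, inz_blue h1O, inz_red hpO] at h4
    rcases h4 with h4 | h4 | h4
    · exact absurd h3 h4
    · exact h4
    · exact absurd h2 h4
  have hpO : p ∉ O := by
    rw [hOm]
    rintro (h2 | h2 | h2)
    · exact hp1 h2
    · exact hpb2 h2
    · exact hpD h2
  have hqO : q ∉ O := by
    rw [hOm]
    rintro (h2 | h2 | h2)
    · exact hq1 h2
    · exact hqb2 h2
    · exact hqD h2
  have hcov' : ∀ K ∈ C.caps, b2 ∈ K → p ∈ K ∨ q ∈ K := by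
    intro K hK h1
    have h4 := hcov K hK
    rw [inz_blue h2O, inz_red hpO, inz_red hqO] at h4
    rcases h4 with h4 | h4
    · exact absurd h1 h4
    · exact h4
  -- the main part, `p` left and `q` right of `b2`
  have main : ∀ p q : ι, p ≠ q → p ≠ x → p ≠ b2 → p ≠ D → p ≠ b1 → q ≠ x → q ≠ b2 → q ≠ D →
      q ≠ b1 → p ∉ O → q ∉ O → (∀ K ∈ C.caps, b2 ∈ K → p ∈ K ∨ q ∈ K) →
      (∃ K ∈ C.caps, ∀ i, Inz O K i ↔ Inz O {x, b1} i ∨ i = p) →
      (∃ K ∈ C.caps, ∀ i, Inz O K i ↔ Inz O {x, b1} i ∨ i = q) →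
      C.lt p b2 → C.lt b2 q → Out1 C O := by
    clear hpq hpx hpb2 hpD hqx hqb2 hqD hp1 hq1 hpO hqO hcov hcov' hKp hKq
    clear p q
    intro p q hpq hpx hpb2 hpD hp1 hqx hqb2 hqD hq1 hpO hqO hcov hKp hKq hlt1 hlt2
    have hpltq : C.lt p q := by
      obtain ⟨P, hP, hP1, hP2⟩ := exists_half_before (C := C) q
      rcases hcov P hP ((hP2 b2 (Ne.symm hqb2)).2 hlt2) with h1 | h1
      · exact (hP2 p hpq).1 h1
      · exact absurd h1 hP1
    obtain ⟨Kp, hKp, hKpm⟩ := hKp
    -- `p` is left of `x`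
    have hpltx : C.lt p x := by
      rcases lt_total (C := C) hpx with h1 | h1
      · exact h1
      exfalso
      have hp0 : p ∉ H0 := fun h2 => lt_asymm h1 (hleft p h2 hpx hp1 hpb2)
      have hgb2 : C.lt g b2 := trans hH0 hgH0 hxH0 h2H0 h.gx hxlt2
      have hgp : C.lt g p := lt_mid_right h.gx hxlt2 hgb2 h1 hlt1
      have hgO : g ∉ O := by
        rw [hOm]
        rintro (h2 | h2 | h2)
        · exact hgb1 h2
        · exact lt_ne hgb2 h2
        · exact hDg h2.symm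
      have hg1 : g ∉ Kp := by
        intro h2
        have h3 := (hKpm g).1 ((inz_red hgO).2 h2)
        rw [hG] at h3
        rcases h3 with (h3 | h3 | h3) | h3
        · exact hgx h3
        · exact lt_ne hgb2 h3
        · exact hDg h3.symm
        · exact lt_ne hgp h3
      have hb2K : b2 ∉ Kp := (inz_blue h2O).1 ((hKpm b2).2 (Or.inl ((hG b2).2 (by simp))))
      have hpK : p ∈ Kp := (inz_red hpO).1 ((hKpm p).2 (Or.inr rfl))
      exact btw hH0 hKp hgH0 hg1 hpK hp0 h2H0 hb2K hgp hlt1 hgb2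
    have hxltq : C.lt x q := lt_mid_left hlt1 hlt2 hpltq hpltx hxlt2
    have hq0 : q ∉ H0 := fun h2 => lt_asymm hxltq (hleft q h2 hqx hq1 hqb2)
    refine ⟨b2, p, q, x, D, ⟨?_, ?_, ?_⟩, ⟨Kp, hKp, fun i => ?_⟩, ?_⟩
    · simp only [List.nodup_cons, List.mem_cons, List.not_mem_nil, or_false, not_or,
        List.nodup_nil, and_true, not_false_eq_true]
      exact ⟨⟨Ne.symm hpb2, Ne.symm hqb2, Ne.symm hxb2, hb2D⟩, ⟨hpq, hpx, hpD⟩, ⟨hqx, hqD⟩,
        Ne.symm hDx⟩
    · intro K hK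
      rw [inz_blue h2O, inz_red hpO, inz_red hqO]
      by_cases h1 : b2 ∈ K
      · exact Or.inr (hcov K hK h1)
      · exact Or.inl h1
    · intro K hK h1 h2 h3
      rw [inz_blue h2O] at h1
      rw [inz_red hpO] at h2
      rw [inz_red hqO] at h3
      rw [inz_red hxO, inz_blue hDO]
      have h4 : x ∈ K := cap_between h.hx hK h2 h3 hpltx hxltq hpltq
      refine ⟨h4, fun h5 => ?_⟩
      have h6 : C.lt D q := trans hK h5 h4 h3 h.Dx hxltq
      have h7 : C.lt D b2 := lt_mid_right h.Dx hxltq h6 hxlt2 hlt2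
      exact btw hK hH0 h5 hDH0 h2H0 h1 h3 hq0 h7 hlt2 h6
    · rw [hKpm, hG]
      clear * -
      tauto
    · obtain ⟨Kq, hKq, hKqm⟩ := hKq
      refine ⟨Kq, hKq, fun i => ?_⟩
      rw [hKqm, hG]
      clear * -
      tauto
  -- one letter on each side of `b2`
  have hR : C.lt b2 p ∨ C.lt b2 q := by
    obtain ⟨P, hP, hP1, hP2⟩ := exists_half_from (C := C) b2
    rcases hcov' P hP hP1 with h1 | h1
    · exact Or.inl ((hP2 p hpb2).1 h1)
    · exact Or.inr ((hP2 q hqb2).1 h1)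
  have hL : C.lt p b2 ∨ C.lt q b2 := by
    obtain ⟨P, hP, hP1, hP2⟩ := exists_half_to (C := C) b2
    rcases hcov' P hP hP1 with h1 | h1
    · exact Or.inl ((hP2 p hpb2).1 h1)
    · exact Or.inr ((hP2 q hqb2).1 h1)
  rcases hR with h1 | h1
  · have h2 : C.lt q b2 := by
      rcases hL with h3 | h3
      · exact absurd h1 (lt_asymm h3)
      · exact h3
    exact main q p (Ne.symm hpq) hqx hqb2 hqD hq1 hpx hpb2 hpD hp1 hqO hpO
      (fun K hK h3 => (hcov' K hK h3).symm) hKq hKp h2 h1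
  · have h2 : C.lt p b2 := by
      rcases hL with h3 | h3
      · exact h3
      · exact absurd h1 (lt_asymm h3)
    exact main p q hpq hpx hpb2 hpD hp1 hqx hqb2 hqD hq1 hpO hqO hcov' hKp hKq h2 h1

end CapSys

end PHP
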