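import Mathlib
import Pool.Agent.PHP.Q2Struct

/-!
# THEOREM Q2, case (b2) (problem MP_1180db_co, k = 3)

`CaseB.b2`: if neither `{x, B}` nor `{x, f}` is a cap then for one of `b = B`, `b = f` the hull edge `(g, w)` of the
letters other than `x` around `b` gives a covering triple `{b, g, w}` with the common letters `x`, `D` to which
Theorem E applies.
-/

namespace PHP

open Finset

namespace CapSys

variable {ι : Type} [DecidableEq ι] {C : CapSys ι} {A B D f g x y v : ι}

/-- a letter of the pole is not a cap -/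
theorem Pole.not_blue (h : Pole C A B D f g) {b : ι} (hb : b ∈ ({B, D, f} : Finset ι)) :
    {b} ∉ C.caps := by
  intro h1
  have h2 := h.dep _ h1
  have h5 : ({b} : Finset ι) ⊆ {B, D, f} := singleton_subset_iff.2 hb
  have h3 : ({b} ∩ {B, D, f} : Finset ι) = {b} := inter_eq_left.2 h5
  have h4 : ({b} \ {B, D, f} : Finset ι) = ∅ := sdiff_eq_empty_iff_subset.2 h5
  rw [h3, h4] at h2
  simp at h2

/-- hull letters of the letters other than `x`, `b` -/
theorem hull_pair [Fintype ι] {x b r : ι} (hxb : x ≠ b) (h1 : {b} ∉ C.caps)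
    (h2 : {x, b} ∉ C.caps) (hr : C.Hull (univ.filter (fun i => i ≠ x ∧ i ≠ b)) r) :
    {r} ∈ C.caps ∨ {r, x} ∈ C.caps := by
  have hrS := hr.mem
  rw [mem_filter] at hrS
  obtain ⟨P, hP, hPS⟩ := hr
  have hrP : r ∈ P ∩ univ.filter (fun i => i ≠ x ∧ i ≠ b) := by
    rw [hPS]
    exact mem_singleton_self r
  obtain ⟨p, hp, P', hP', h3⟩ := C.step (univ.erase x) hP
    ⟨r, mem_inter.2 ⟨(mem_inter.1 hrP).1, mem_erase.2 ⟨hrS.2.1, mem_univ r⟩⟩⟩
  have h4 : ∀ i, i ∈ P' → i ≠ x → i = p := by
    intro i hi hix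
    have h5 : i ∈ P' ∩ univ.erase x := mem_inter.2 ⟨hi, mem_erase.2 ⟨hix, mem_univ i⟩⟩
    rw [h3, mem_singleton] at h5
    exact h5
  have hpP' : p ∈ P' ∩ univ.erase x := by
    rw [h3]
    exact mem_singleton_self p
  rw [mem_inter, mem_erase] at hpP'
  have h5 : P' = {p} ∨ P' = {p, x} := by
    by_cases hx : x ∈ P'
    · right
      ext i
      rw [mem_insert, mem_singleton]
      constructor
      · intro hi
        by_cases hix : i = x
        · exact Or.inr hix
        · exact Or.inl (h4 i hi hix)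
      · rintro (rfl | rfl)
        · exact hpP'.1
        · exact hx
    · left
      ext i
      rw [mem_singleton]
      constructor
      · intro hi
        exact h4 i hi (fun h6 => hx (h6 ▸ hi))
      · rintro rfl
        exact hpP'.1
  have h6 : p = r := by
    by_cases hpb : p = b
    · exfalso
      rw [hpb] at h5
      rcases h5 with h6 | h6
      · rw [h6] at hP'
        exact h1 hP'
      · rw [h6, pair_comm] at hP'
        exact h2 hP'
    · have h7 : p ∈ P ∩ univ.filter (fun i => i ≠ x ∧ i ≠ b) :=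
        mem_inter.2 ⟨hp, mem_filter.2 ⟨mem_univ p, hpP'.2.1, hpb⟩⟩
      rw [hPS, mem_singleton] at h7
      exact h7
  rw [h6] at h5
  rcases h5 with h7 | h7
  · left
    rwa [h7] at hP'
  · right
    rwa [h7] at hP'

theorem CaseB.b2_aux [Fintype ι] (h : CaseB C A B D f g x y v) (hnB : {x, B} ∉ C.caps)
    (hnf : {x, f} ∉ C.caps) {b b' : ι} (hb : (b = B ∧ b' = f) ∨ (b = f ∧ b' = B)) :
    Out2 C {B, D, f} ∨ {v, b'} ∈ C.caps := by
  classical
  have hnd := h.nd'
  simp only [List.nodup_cons, List.mem_cons, List.not_mem_nil, or_false, not_or,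
    List.nodup_nil, and_true, not_false_eq_true] at hnd
  obtain ⟨⟨hAB, hAD, hAf, hAg, hAx, hAy, hAv⟩, ⟨hBD, hBf, hBg, hBx, hBy, hBv⟩,
    ⟨hDf, hDg, hDx, hDy, hDv⟩, ⟨hfg, hfx, hfy, hfv⟩, ⟨hgx, hgy, hgv⟩, ⟨hxy, hxv⟩, hyv⟩ := hnd
  obtain ⟨H0, hH0, hm0⟩ := h.H0
  set O : Finset ι := {B, D, f} with hO
  have hOm : ∀ i, i ∈ O ↔ i = b ∨ i = b' ∨ i = D := by
    intro i
    rw [hO, mem_insert, mem_insert, mem_singleton]
    rcases hb with ⟨rfl, rfl⟩ | ⟨rfl, rfl⟩ <;> tauto
  have hbb' : b ≠ b' := by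
    rcases hb with ⟨rfl, rfl⟩ | ⟨rfl, rfl⟩
    · exact hBf
    · exact Ne.symm hBf
  have hbD : b ≠ D := by
    rcases hb with ⟨rfl, rfl⟩ | ⟨rfl, rfl⟩
    · exact hBD
    · exact Ne.symm hDf
  have hb'D : b' ≠ D := by
    rcases hb with ⟨rfl, rfl⟩ | ⟨rfl, rfl⟩
    · exact Ne.symm hDf
    · exact hBD
  have hxb : x ≠ b := by
    rcases hb with ⟨rfl, rfl⟩ | ⟨rfl, rfl⟩
    · exact Ne.symm hBx
    · exact Ne.symm hfx
  have hxb' : x ≠ b' := by
    rcases hb with ⟨rfl, rfl⟩ | ⟨rfl, rfl⟩
    · exact Ne.symm hfx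
    · exact Ne.symm hBx
  have hgb : g ≠ b := by
    rcases hb with ⟨rfl, rfl⟩ | ⟨rfl, rfl⟩
    · exact Ne.symm hBg
    · exact Ne.symm hfg
  have hgb' : g ≠ b' := by
    rcases hb with ⟨rfl, rfl⟩ | ⟨rfl, rfl⟩
    · exact Ne.symm hfg
    · exact Ne.symm hBg
  have hAb : A ≠ b := by
    rcases hb with ⟨rfl, rfl⟩ | ⟨rfl, rfl⟩ <;> assumption
  have hAb' : A ≠ b' := by
    rcases hb with ⟨rfl, rfl⟩ | ⟨rfl, rfl⟩ <;> assumption
  have hvb' : v ≠ b' := by
    rcases hb with ⟨rfl, rfl⟩ | ⟨rfl, rfl⟩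
    · exact Ne.symm hfv
    · exact Ne.symm hBv
  have hxltb : C.lt x b := by
    rcases hb with ⟨rfl, rfl⟩ | ⟨rfl, rfl⟩
    · exact h.xB
    · exact h.xf
  have hxltb' : C.lt x b' := by
    rcases hb with ⟨rfl, rfl⟩ | ⟨rfl, rfl⟩
    · exact h.xf
    · exact h.xB
  have hnb1 : {x, b} ∉ C.caps := by
    rcases hb with ⟨rfl, rfl⟩ | ⟨rfl, rfl⟩ <;> assumption
  have hnb2 : {x, b'} ∉ C.caps := by
    rcases hb with ⟨rfl, rfl⟩ | ⟨rfl, rfl⟩ <;> assumption
  have hT : ∀ H ∈ C.caps, b' ∈ H → x ∈ H ∨ v ∈ H := by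
    rcases hb with ⟨rfl, rfl⟩ | ⟨rfl, rfl⟩
    · exact h.Tf
    · exact h.TB
  have hbH0 : b ∈ H0 := by
    rw [hm0]
    rcases hb with ⟨rfl, rfl⟩ | ⟨rfl, rfl⟩ <;> simp
  have hb'H0 : b' ∈ H0 := by
    rw [hm0]
    rcases hb with ⟨rfl, rfl⟩ | ⟨rfl, rfl⟩ <;> simp
  have hgH0 : g ∈ H0 := (hm0 g).2 (by simp)
  have hxH0 : x ∈ H0 := (hm0 x).2 (by simp)
  have hH0c : ∀ i, i ∈ H0 → i = A ∨ i = g ∨ i = x ∨ i = y ∨ i = b ∨ i = b' := by
    intro i hi
    rw [hm0] at hi
    rcases hb with ⟨rfl, rfl⟩ | ⟨rfl, rfl⟩ <;> tauto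
  have hnb : {b} ∉ C.caps := h.toPole.not_blue ((hOm b).2 (Or.inl rfl))
  have hnb' : {b'} ∉ C.caps := h.toPole.not_blue ((hOm b').2 (Or.inr (Or.inl rfl)))
  have hnD : {D} ∉ C.caps := h.toPole.not_blue ((hOm D).2 (Or.inr (Or.inr rfl)))
  have hg : {g} ∈ C.caps := by
    obtain ⟨p, hp, h1⟩ := exists_single h.Ag ⟨A, by simp⟩
    rw [mem_insert, mem_singleton] at hp
    rcases hp with rfl | rfl
    · exfalso
      have h2 := (h.q _ h1 (mem_singleton_self p) (by rw [mem_singleton]; exact Ne.symm hAB)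
        (by rw [mem_singleton]; exact Ne.symm hAD)).1
      rw [mem_singleton] at h2
      exact hAg h2.symm
    · exact h1
  -- no cap `{A}`, `{A, x}`, `{D, x}`
  have hnA : {A} ∉ C.caps := by
    intro h1
    have h2 := (h.q _ h1 (mem_singleton_self A) (by rw [mem_singleton]; exact Ne.symm hAB)
      (by rw [mem_singleton]; exact Ne.symm hAD)).1
    rw [mem_singleton] at h2
    exact hAg h2.symm
  have hnAx : {A, x} ∉ C.caps := by
    intro h1
    have h2 := (h.q _ h1 (by simp) (by
      rw [mem_insert, mem_singleton]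
      rintro (h3 | h3)
      · exact hAB h3.symm
      · exact hBx h3) (by
      rw [mem_insert, mem_singleton]
      rintro (h3 | h3)
      · exact hAD h3.symm
      · exact hDx h3)).1
    rw [mem_insert, mem_singleton] at h2
    rcases h2 with h3 | h3
    · exact hAg h3.symm
    · exact hgx h3
  -- `A` between `D` and `x`
  have hDxA : ∀ H ∈ C.caps, D ∈ H → x ∈ H → A ∈ H := by
    intro H hH hD hx
    by_contra hA
    refine btw hH h.Ag hD ?_ (by simp) hA hx ?_ h.DA h.Ax h.Dx
    · rw [mem_insert, mem_singleton]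
      rintro (h3 | h3)
      · exact hAD h3.symm
      · exact hDg h3
    · rw [mem_insert, mem_singleton]
      rintro (h3 | h3)
      · exact hAx h3.symm
      · exact hgx h3.symm
  have hnDx : {D, x} ∉ C.caps := by
    intro h1
    have h2 := hDxA _ h1 (by simp) (by simp)
    rw [mem_insert, mem_singleton] at h2
    rcases h2 with h3 | h3
    · exact hAD h3
    · exact hAx h3
  have hgltb : C.lt g b := trans hH0 hgH0 hxH0 hbH0 h.gx hxltb
  have hgltb' : C.lt g b' := trans hH0 hgH0 hxH0 hb'H0 h.gx hxltb'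
  -- the edge
  set Q : Finset ι := univ.filter (fun i => i ≠ x ∧ i ≠ b) with hQ
  have hQm : ∀ i, i ∈ Q ↔ i ≠ x ∧ i ≠ b := fun i => by
    rw [hQ, mem_filter]
    simp
  have hbQ : b ∉ Q := fun h1 => ((hQm b).1 h1).2 rfl
  have hJ : ∀ H ∈ C.caps, b ∈ H → (H ∩ Q).Nonempty := by
    intro H hH hbH
    by_contra hemp
    have h1 : ∀ i ∈ H, i = x ∨ i = b := by
      intro i hi
      by_contra h2
      push Not at h2
      exact hemp ⟨i, mem_inter.2 ⟨hi, (hQm i).2 h2⟩⟩
    by_cases hx : x ∈ H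
    · have h2 : H = {x, b} := by
        ext i
        rw [mem_insert, mem_singleton]
        constructor
        · exact h1 i
        · rintro (rfl | rfl) <;> assumption
      rw [h2] at hH
      exact hnb1 hH
    · have h2 : H = {b} := by
        ext i
        rw [mem_singleton]
        constructor
        · intro hi
          rcases h1 i hi with h3 | h3
          · rw [h3] at hi
            exact absurd hi hx
          · exact h3
        · rintro rfl
          exact hbH
      rw [h2] at hH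
      exact hnb hH
  obtain ⟨u, w, he⟩ := exists_edge hbQ hJ
  have hhull : ∀ r, C.Hull Q r → {r} ∈ C.caps ∨ {r, x} ∈ C.caps := fun r hr =>
    hull_pair hxb hnb hnb1 hr
  -- no hull letter between `g` and `b`
  have hno : ∀ r, C.Hull Q r → C.lt g r → C.lt r b → False := by
    intro r hr h1 h2
    have hrQ := (hQm r).1 hr.mem
    have hr0 : r ∉ H0 := by
      intro h3
      rcases hH0c r h3 with h4 | h4 | h4 | h4 | h4 | h4
      · rw [h4] at hr
        rcases hhull A hr with h5 | h5
        · exact hnA h5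
        · exact hnAx h5
      · rw [h4] at h1
        exact lt_irrefl h1
      · exact hrQ.1 h4
      · rw [h4] at h1
        exact lt_asymm h1 h.yg
      · exact hrQ.2 h4
      · rw [h4] at hr
        rcases hhull b' hr with h5 | h5
        · exact hnb' h5
        · rw [pair_comm] at h5
          exact hnb2 h5
    rcases hhull r hr with h3 | h3
    · exact hr0 (cap_between h3 hH0 hgH0 hbH0 h1 h2 hgltb)
    · refine btw hH0 h3 hgH0 ?_ (by simp) hr0 hbH0 ?_ h1 h2 hgltb
      · rw [mem_insert, mem_singleton]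
        rintro (h4 | h4)
        · exact lt_ne h1 h4
        · exact hgx h4
      · rw [mem_insert, mem_singleton]
        rintro (h4 | h4)
        · exact lt_ne h2 h4.symm
        · exact hxb h4.symm
  have hug : u = g := by
    by_contra hne
    rcases lt_total (C := C) hne with h1 | h1
    · exact he.nearp g (hull_of_cap hg ((hQm g).2 ⟨hgx, hgb⟩)) h1 hgltb
    · exact hno u he.hullp h1 he.pb
  rw [hug] at he
  have hwQ := (hQm w).1 he.hullq.mem
  have hxw : C.lt x w := lt_mid_left hgltb he.bq he.pq h.gx hxltb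
  have hwO : w ∉ O := by
    intro h1
    rcases (hOm w).1 h1 with h2 | h2 | h2
    · exact hwQ.2 h2
    · rcases hhull w he.hullq with h3 | h3
      · rw [h2] at h3
        exact hnb' h3
      · rw [h2, pair_comm] at h3
        exact hnb2 h3
    · rcases hhull w he.hullq with h3 | h3
      · rw [h2] at h3
        exact hnD h3
      · rw [h2] at h3
        exact hnDx h3
  have hwA : w ≠ A := by
    intro h2
    rcases hhull w he.hullq with h3 | h3
    · rw [h2] at h3
      exact hnA h3
    · rw [h2] at h3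
      exact hnAx h3
  have hw0 : w ∉ H0 := by
    intro h1
    rcases hH0c w h1 with h2 | h2 | h2 | h2 | h2 | h2
    · exact hwA h2
    · exact lt_ne he.pq h2.symm
    · exact hwQ.1 h2
    · have h3 := he.pq
      rw [h2] at h3
      exact lt_asymm h3 h.yg
    · exact hwQ.2 h2
    · exact hwO ((hOm w).2 (Or.inr (Or.inl h2)))
  have hD0 : D ∉ H0 := by
    intro h1
    rcases hH0c D h1 with h2 | h2 | h2 | h2 | h2 | h2
    · exact hAD h2.symm
    · exact hDg h2
    · exact hDx h2
    · exact hDy h2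
    · exact hbD h2.symm
    · exact hb'D h2.symm
  -- common letters
  have hx : ∀ H ∈ C.caps, g ∈ H → w ∈ H → x ∈ H := fun H hH h1 h2 =>
    cap_between h.hx hH h1 h2 h.gx hxw he.pq
  have hDn : ∀ H ∈ C.caps, b ∉ H → x ∈ H → w ∈ H → D ∉ H := by
    intro H hH h1 h2 h3 h4
    have h5 : C.lt D w := trans hH h4 h2 h3 h.Dx hxw
    have h6 : C.lt D b := lt_mid_right h.Dx hxw h5 hxltb he.bq
    exact btw hH hH0 h4 hD0 hbH0 h1 h3 hw0 h6 he.bq h5
  have hbO : b ∈ O := (hOm b).2 (Or.inl rfl)
  have hb'O : b' ∈ O := (hOm b').2 (Or.inr (Or.inl rfl))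
  have hDO : D ∈ O := (hOm D).2 (Or.inr (Or.inr rfl))
  have hgO : g ∉ O := by
    rw [hOm]
    rintro (h1 | h1 | h1)
    · exact hgb h1
    · exact hgb' h1
    · exact hDg h1.symm
  have hxO : x ∉ O := by
    rw [hOm]
    rintro (h1 | h1 | h1)
    · exact hxb h1
    · exact hxb' h1
    · exact hDx h1.symm
  by_cases hbad : {w, b'} ∈ C.caps
  · right
    have h1 := hT _ hbad (by simp)
    rw [mem_insert, mem_singleton, mem_insert, mem_singleton] at h1
    have h2 : v = w := by
      rcases h1 with (h2 | h2) | (h2 | h2)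
      · exact absurd h2.symm hwQ.1
      · exact absurd h2 hxb'
      · exact h2
      · exact absurd h2 hvb'
    rw [h2]
    exact hbad
  left
  refine ⟨b, g, w, x, D, ⟨?_, ?_, ?_⟩, ?_⟩
  · simp only [List.nodup_cons, List.mem_cons, List.not_mem_nil, or_false, not_or,
      List.nodup_nil, and_true, not_false_eq_true]
    exact ⟨⟨Ne.symm hgb, Ne.symm hwQ.2, Ne.symm hxb, hbD⟩, ⟨lt_ne he.pq, hgx, Ne.symm hDg⟩,
      ⟨hwQ.1, fun h1 => hwO (h1 ▸ hDO)⟩, Ne.symm hDx⟩
  · intro H hH
    rw [inz_blue hbO, inz_red hgO, inz_red hwO]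
    by_cases h1 : b ∈ H
    · exact Or.inr (he.hit H hH h1)
    · exact Or.inl h1
  · intro H hH h1 h2 h3
    rw [inz_blue hbO] at h1
    rw [inz_red hgO] at h2
    rw [inz_red hwO] at h3
    rw [inz_red hxO, inz_blue hDO]
    have h4 := hx H hH h2 h3
    exact ⟨h4, hDn H hH h1 h4 h3⟩
  · intro H hH hin
    rw [inz_red hxO, inz_blue hDO]
    have hred : ∀ i, i ∉ O → i ∈ H → i = g ∨ i = w ∨ i = x := by
      intro i h1 h2
      rcases hin i ((inz_red h1).2 h2) with h3 | h3 | h3 | h3 | h3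
      · exact absurd (h3 ▸ hbO) h1
      · exact Or.inl h3
      · exact Or.inr (Or.inl h3)
      · exact Or.inr (Or.inr h3)
      · exact absurd (h3 ▸ hDO) h1
    have hb'H : b' ∈ H := by
      by_contra h1
      rcases hin b' ((inz_blue hb'O).2 h1) with h3 | h3 | h3 | h3 | h3
      · exact hbb' h3.symm
      · exact hgb' h3.symm
      · exact hwO (h3 ▸ hb'O)
      · exact hxb' h3.symm
      · exact hb'D h3
    have hAH : A ∉ H := by
      intro h1
      have hAO : A ∉ O := by
        rw [hOm]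
        rintro (h2 | h2 | h2)
        · exact hAb h2
        · exact hAb' h2
        · exact hAD h2
      rcases hred A hAO h1 with h2 | h2 | h2
      · exact hAg h2
      · exact hwA h2.symm
      · exact hAx h2
    have hdep := h.dep H hH
    rw [← hO] at hdep
    -- `x` is in `H`
    have hxH : x ∈ H := by
      by_contra hxH
      by_cases hgH : g ∈ H
      · exact hxH (cap_between h.hx hH hgH hb'H h.gx hxltb' hgltb')
      -- so the red letters of `H` are among `w`
      have h1 : H \ O ⊆ {w} := by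
        intro i hi
        rw [mem_sdiff] at hi
        rw [mem_singleton]
        rcases hred i hi.2 hi.1 with h2 | h2 | h2
        · rw [h2] at hi
          exact absurd hi.1 hgH
        · exact h2
        · rw [h2] at hi
          exact absurd hi.1 hxH
      have h2 := card_le_card h1
      rw [card_singleton] at h2
      have h3 : ∀ i ∈ H, i ∈ O → i = b' := by
        intro i hi hiO
        by_contra hne
        have h4 : ({i, b'} : Finset ι) ⊆ H ∩ O := by
          intro j hj
          rw [mem_insert, mem_singleton] at hj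
          rcases hj with rfl | rfl
          · exact mem_inter.2 ⟨hi, hiO⟩
          · exact mem_inter.2 ⟨hb'H, hb'O⟩
        have h5 := card_le_card h4
        rw [card_pair hne] at h5
        omega
      have h4 : w ∈ H := by
        by_contra hwH
        have h5 : H \ O ⊆ ∅ := by
          intro i hi
          have h6 := h1 hi
          rw [mem_singleton] at h6
          rw [mem_sdiff, h6] at hi
          exact absurd hi.1 hwH
        have h6 := card_le_card h5
        have h7 : 0 < (H ∩ O).card := card_pos.2 ⟨b', mem_inter.2 ⟨hb'H, hb'O⟩⟩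
        rw [card_empty] at h6
        omega
      apply hbad
      have h5 : H = {w, b'} := by
        ext i
        rw [mem_insert, mem_singleton]
        constructor
        · intro hi
          by_cases hiO : i ∈ O
          · exact Or.inr (h3 i hi hiO)
          · have h6 := h1 (mem_sdiff.2 ⟨hi, hiO⟩)
            rw [mem_singleton] at h6
            exact Or.inl h6
        · rintro (rfl | rfl) <;> assumption
      rw [← h5]
      exact hH
    exact ⟨hxH, fun hD => hAH (hDxA H hH hD hxH)⟩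

/-- case (b2) -/
theorem CaseB.b2 [Fintype ι] {C : CapSys ι} {A B D f g x y v : ι}
    (h : CaseB C A B D f g x y v) (hnB : {x, B} ∉ C.caps) (hnf : {x, f} ∉ C.caps)
    {H1 H2 : Finset ι} (h1 : H1 ∈ C.caps) (h1x : x ∈ H1) (h1v : v ∈ H1) (h1f : f ∈ H1)
    (h1B : B ∉ H1) (h2 : H2 ∈ C.caps) (h2x : x ∈ H2) (h2v : v ∈ H2) (h2B : B ∈ H2)
    (h2f : f ∉ H2) : Out2 C {B, D, f} := by
  have hnd := h.nd'
  simp only [List.nodup_cons, List.mem_cons, List.not_mem_nil, or_false, not_or,
    List.nodup_nil, and_true, not_false_eq_true] at hnd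
  obtain ⟨⟨hAB, hAD, hAf, hAg, hAx, hAy, hAv⟩, ⟨hBD, hBf, hBg, hBx, hBy, hBv⟩,
    ⟨hDf, hDg, hDx, hDy, hDv⟩, ⟨hfg, hfx, hfy, hfv⟩, ⟨hgx, hgy, hgv⟩, ⟨hxy, hxv⟩, hyv⟩ := hnd
  rcases h.b2_aux hnB hnf (b := B) (b' := f) (Or.inl ⟨rfl, rfl⟩) with h3 | h3
  · exact h3
  rcases h.b2_aux hnB hnf (b := f) (b' := B) (Or.inr ⟨rfl, rfl⟩) with h4 | h4
  · exact h4
  exfalso
  rcases lt_total (C := C) hBf with h5 | h5
  · -- `B` between `x` and `f`
    refine btw h1 h4 h1x ?_ (by simp) h1B h1f ?_ h.xB h5 h.xf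
    · rw [mem_insert, mem_singleton]
      rintro (h6 | h6)
      · exact hxv h6
      · exact hBx h6.symm
    · rw [mem_insert, mem_singleton]
      rintro (h6 | h6)
      · exact hfv h6
      · exact hBf h6.symm
  · refine btw h2 h3 h2x ?_ (by simp) h2f h2B ?_ h.xf h5 h.xB
    · rw [mem_insert, mem_singleton]
      rintro (h6 | h6)
      · exact hxv h6
      · exact hfx h6.symm
    · rw [mem_insert, mem_singleton]
      rintro (h6 | h6)
      · exact hBv h6
      · exact hBf h6

end CapSys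

end PHP
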