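import Mathlib
import Pool.Agent.PHP.Q2Struct

/-!
# THEOREM Q2: the two small facts (problem MP_1180db_co, k = 3)
-/

namespace PHP

open Finset

namespace CapSys

variable {ι : Type} [DecidableEq ι] {C : CapSys ι} {A B D f g x y : ι}

/-- distinctness facts from the list -/
theorem Pole.ne (h : Pole C A B D f g) : A ≠ B ∧ A ≠ D ∧ A ≠ f ∧ A ≠ g ∧ B ≠ D ∧ B ≠ f ∧ B ≠ g ∧
    D ≠ f ∧ D ≠ g ∧ f ≠ g := by
  have h1 := h.nd
  simp only [List.nodup_cons, List.mem_cons, not_or, List.not_mem_nil, not_false_eq_true,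
    List.nodup_nil, and_true] at h1
  obtain ⟨⟨a1, a2, a3, a4⟩, ⟨b1, b2, b3⟩, ⟨c1, c2⟩, d1⟩ := h1
  exact ⟨a1, a2, a3, a4, b1, b2, b3, c1, c2, d1⟩

/-- a single cap is red -/
theorem Pole.single (h : Pole C A B D f g) {p : ι} (hp : {p} ∈ C.caps) :
    p ≠ B ∧ p ≠ D ∧ p ≠ f := by
  have h1 := h.dep _ hp
  by_contra hcon
  have h2 : p ∈ ({B, D, f} : Finset ι) := by
    simp only [mem_insert, mem_singleton]
    tauto
  have h3 : ({p} : Finset ι) ∩ {B, D, f} = {p} := by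
    ext i
    simp only [mem_inter, mem_singleton]
    constructor
    · exact fun h => h.1
    · rintro rfl
      exact ⟨rfl, h2⟩
  have h4 : ({p} : Finset ι) \ {B, D, f} = ∅ := by
    ext i
    simp only [mem_sdiff, mem_singleton, notMem_empty, iff_false]
    rintro ⟨rfl, h5⟩
    exact h5 h2
  rw [h3, h4] at h1
  simp at h1

theorem Pole.hg [Fintype ι] (h : Pole C A B D f g) : {g} ∈ C.caps := by
  obtain ⟨n1, n2, n3, n4, n5, n6, n7, n8, n9, n10⟩ := h.ne
  obtain ⟨p, hp, h1⟩ := exists_single (C := C) h.Ag ⟨A, by simp⟩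
  rw [mem_insert, mem_singleton] at hp
  rcases hp with rfl | rfl
  · have := (h.q _ h1 (mem_singleton_self _) (by rw [mem_singleton]; exact n1.symm)
      (by rw [mem_singleton]; exact n2.symm)).1
    rw [mem_singleton] at this
    exact absurd this.symm n4
  · exact h1

theorem Pole.notA (h : Pole C A B D f g) : {A} ∉ C.caps := by
  intro h1
  obtain ⟨n1, n2, n3, n4, n5, n6, n7, n8, n9, n10⟩ := h.ne
  have := (h.q _ h1 (mem_singleton_self _) (by rw [mem_singleton]; exact n1.symm)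
    (by rw [mem_singleton]; exact n2.symm)).1
  rw [mem_singleton] at this
  exact absurd this.symm n4

/-- (L1') -/
theorem Pole.memA (h : Pole C A B D f g) {H : Finset ι} (hH : H ∈ C.caps) {u v : ι} (hu : u ∈ H)
    (hv : v ∈ H) (hug : u ≠ g) (hvg : v ≠ g) (h1 : C.lt u A) (h2 : C.lt A v) (h3 : C.lt u v) :
    A ∈ H := by
  by_contra hA
  refine btw hH h.Ag hu ?_ (by simp) hA hv ?_ h1 h2 h3
  · simp only [mem_insert, mem_singleton, not_or]
    exact ⟨lt_ne h1, hug⟩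
  · simp only [mem_insert, mem_singleton, not_or]
    exact ⟨(lt_ne h2).symm, hvg⟩

/-- `A` lies between `B` and `D` -/
theorem Pole.posA (h : Pole C A B D f g) : (C.lt B A ∧ C.lt A D ∧ C.lt B D) ∨
    (C.lt D A ∧ C.lt A B ∧ C.lt D B) := by
  obtain ⟨n1, n2, n3, n4, n5, n6, n7, n8, n9, n10⟩ := h.ne
  obtain ⟨P1, hP1, a1, a2⟩ := exists_half_from (C := C) B
  obtain ⟨P2, hP2, b1, b2⟩ := exists_half_to (C := C) D
  obtain ⟨P3, hP3, c1, c2⟩ := exists_half_from (C := C) D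
  obtain ⟨P4, hP4, d1, d2⟩ := exists_half_to (C := C) B
  rcases lt_or (C := C) n5 with h1 | h1
  · left
    have k1 := h.cov _ hP1 a1 ((a2 D n5.symm).2 h1)
    have k2 := h.cov _ hP2 ((b2 B n5).2 h1) b1
    exact ⟨(a2 A n1).1 k1, (b2 A n2).1 k2, h1⟩
  · right
    have k1 := h.cov _ hP3 ((c2 B n5).2 h1) c1
    have k2 := h.cov _ hP4 d1 ((d2 D n5.symm).2 h1)
    exact ⟨(c2 A n2).1 k1, (d2 A n1).1 k2, h1⟩

theorem Stk.ne (h : Stk C A B D f g x y) : x ≠ y ∧ x ≠ g ∧ y ≠ g ∧ x ≠ A ∧ y ≠ A ∧ x ≠ B ∧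
    x ≠ D ∧ x ≠ f ∧ y ≠ B ∧ y ≠ D ∧ y ≠ f := by
  obtain ⟨a1, a2, a3⟩ := h.toPole.single h.hx
  obtain ⟨b1, b2, b3⟩ := h.toPole.single h.hy
  refine ⟨?_, (lt_ne h.gx).symm, lt_ne h.yg, ?_, ?_, a1, a2, a3, b1, b2, b3⟩
  · rintro rfl
    exact lt_asymm h.yg h.gx
  · rintro rfl
    exact h.toPole.notA h.hx
  · rintro rfl
    exact h.toPole.notA h.hy

theorem Stk.yx (h : Stk C A B D f g x y) : C.lt y x := by
  obtain ⟨H, hH, h1⟩ := h.H0
  exact trans hH ((h1 y).2 (by tauto)) ((h1 g).2 (by tauto)) ((h1 x).2 (by tauto)) h.yg h.gx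

theorem Stk.Ax (h : Stk C A B D f g x y) : C.lt A x := by
  obtain ⟨n1, n2, n3, n4, n5, -⟩ := h.ne
  obtain ⟨H, hH, h1⟩ := h.H0
  rcases lt_or (C := C) n4 with h2 | h2
  · exfalso
    have h3 := trans hH ((h1 g).2 (by tauto)) ((h1 x).2 (by tauto)) ((h1 A).2 (by tauto)) h.gx h2
    have h4 := cap_between h.hx h.Ag (u := g) (v := A) (by simp) (by simp) h.gx h2 h3
    simp only [mem_insert, mem_singleton] at h4
    tauto
  · exact h2

theorem Stk.yA (h : Stk C A B D f g x y) : C.lt y A := by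
  obtain ⟨n1, n2, n3, n4, n5, -⟩ := h.ne
  obtain ⟨H, hH, h1⟩ := h.H0
  rcases lt_or (C := C) n5 with h2 | h2
  · exact h2
  · exfalso
    have h3 := trans hH ((h1 A).2 (by tauto)) ((h1 y).2 (by tauto)) ((h1 g).2 (by tauto)) h2 h.yg
    have h4 := cap_between h.hy h.Ag (u := A) (v := g) (by simp) (by simp) h2 h.yg h3
    simp only [mem_insert, mem_singleton] at h4
    tauto

/-- a cap without `x`, `y` has no letter `t` between `y` and `x` and a letter outside `H0` -/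
theorem Stk.apart (h : Stk C A B D f g x y) {K : Finset ι} (hK : K ∈ C.caps) (hxK : x ∉ K)
    (hyK : y ∉ K) {t z : ι} (ht : t ∈ K) (hz : z ∈ K)
    (hz0 : ¬ (z = A ∨ z = g ∨ z = x ∨ z = y ∨ z = B ∨ z = f)) (h1 : C.lt y t) (h2 : C.lt t x) :
    False := by
  obtain ⟨H, hH, hm⟩ := h.H0
  have hxH := (hm x).2 (by tauto)
  have hyH := (hm y).2 (by tauto)
  have hzH : z ∉ H := fun hh => hz0 ((hm z).1 hh)
  have hzx : z ≠ x := fun hh => hz0 (by tauto)
  have hzy : z ≠ y := fun hh => hz0 (by tauto)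
  have hyx := h.yx
  by_cases hzt : z = t
  · subst hzt
    exact btw hH hK hyH hyK hz hzH hxH hxK h1 h2 hyx
  rcases lt_or (C := C) hzt with h3 | h3
  · -- `z < t`
    rcases lt_or (C := C) hzy with h4 | h4
    · exact hyK (cap_between h.hy hK hz ht h4 h1 h3)
    · exact btw hH hK hyH hyK hz hzH hxH hxK h4 (lt_mid_left h1 h2 hyx h4 h3) hyx
  · rcases lt_or (C := C) hzx with h4 | h4
    · exact btw hH hK hyH hyK hz hzH hxH hxK (lt_mid_right h1 h2 hyx h3 h4) h4 hyx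
    · exact hxK (cap_between h.hx hK ht hz h2 h4 h3)

/-- a heavy cap which contains a blue letter has a red letter outside a given pair -/
theorem exists_third {O K : Finset ι} (hK : Hvy O K) {b : ι} (hb : b ∈ K) (hbO : b ∈ O)
    (u v : ι) : ∃ z ∈ K, z ∉ O ∧ z ≠ u ∧ z ≠ v := by
  have h1 : 1 ≤ (K ∩ O).card := card_pos.2 ⟨b, mem_inter.2 ⟨hb, hbO⟩⟩
  unfold Hvy at hK
  obtain ⟨z, h2, h3, h4⟩ := exists_red (O := O) (H := K) (F := {u, v}) (by
    have := card_le_two (a := u) (b := v)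
    omega)
  rw [mem_insert, mem_singleton, not_or] at h4
  exact ⟨z, h2, h3, h4.1, h4.2⟩

/-- STEP 3 -/
theorem Stk.fail_or (h : Stk C A B D f g x y) {K : Finset ι} (hK : K ∈ C.caps)
    (hKh : Hvy {B, D, f} K) (hf : f ∈ K) (hx : x ∉ K) (hy : y ∉ K) :
    Fail C A B D f g x y ∨ Fail C.mirror A B D f g y x := by
  obtain ⟨m1, m2, m3, m4, m5, m6, m7, m8, m9, m10, m11⟩ := h.ne
  obtain ⟨z, hz, hzO, hzA, hzg⟩ := exists_third hKh hf (by simp) A g
  simp only [mem_insert, mem_singleton, not_or] at hzO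
  have hzx : z ≠ x := fun hh => hx (hh ▸ hz)
  have hzy : z ≠ y := fun hh => hy (hh ▸ hz)
  rcases lt_or (C := C) m8 with h1 | h1
  · exact Or.inl ⟨h, h1⟩
  rcases lt_or (C := C) m11 with h2 | h2
  · exact absurd (h.apart hK hx hy hf hz (by tauto) h2 h1) id
  · right
    refine ⟨⟨⟨h.nd, h.dep, h.cov, h.q, h.Ag⟩, h.hy, h.hx, mirror_lt.2 h.gx, mirror_lt.2 h.yg, ?_⟩,
      mirror_lt.2 h2⟩
    obtain ⟨H, hH, hm⟩ := h.H0
    refine ⟨H, hH, fun i => ?_⟩
    rw [hm]
    tauto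

/-- FACT 0 -/
theorem Stk.HB [Fintype ι] (h : Stk C A B D f g x y) (hF : Free C {B, D, f}) (h1 : C.lt y B)
    (h2 : C.lt B x) :
    ∃ H ∈ C.caps, ∀ i, i ∈ H ↔ i = A ∨ i = g ∨ i = x ∨ i = y ∨ i = D ∨ i = f := by
  obtain ⟨m1, m2, m3, m4, m5, m6, m7, m8, m9, m10, m11⟩ := h.ne
  obtain ⟨n1, n2, n3, n4, n5, n6, n7, n8, n9, n10⟩ := h.toPole.ne
  obtain ⟨H, hH, ⟨hh, hB, hx, hy⟩ | ⟨hh, hB, hx, hy⟩⟩ := hF B x y m6.symm m1 m9.symm
  · exfalso
    rw [inz_blue (by simp)] at hB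
    rw [inz_red (by simp [m6, m7, m8])] at hx
    rw [inz_red (by simp [m9, m10, m11])] at hy
    push Not at hB
    obtain ⟨z, hz, hzO, hzA, hzg⟩ := exists_third hh hB (by simp) A g
    simp only [mem_insert, mem_singleton, not_or] at hzO
    have hzx : z ≠ x := fun hh => hx (hh ▸ hz)
    have hzy : z ≠ y := fun hh => hy (hh ▸ hz)
    exact h.apart hH hx hy hB hz (by tauto) h1 h2
  · rw [inz_blue (by simp)] at hB
    rw [inz_red (by simp [m6, m7, m8])] at hx
    rw [inz_red (by simp [m9, m10, m11])] at hy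
    have hg : g ∈ H := cap_between h.toPole.hg hH hy hx h.yg h.gx h.yx
    have hA : A ∈ H := h.toPole.memA hH hy hx m3 m2 h.yA h.Ax h.yx
    have hsub : ({A, g, x, y} : Finset ι) ⊆ H \ {B, D, f} := by
      intro i hi
      simp only [mem_insert, mem_singleton] at hi
      simp only [mem_sdiff, mem_insert, mem_singleton, not_or]
      rcases hi with rfl | rfl | rfl | rfl
      · exact ⟨hA, n1, n2, n3⟩
      · exact ⟨hg, n7.symm, n9.symm, n10.symm⟩
      · exact ⟨hx, m6, m7, m8⟩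
      · exact ⟨hy, m9, m10, m11⟩
    have hc4 : ({A, g, x, y} : Finset ι).card = 4 := by
      rw [card_insert_of_notMem, card_insert_of_notMem, card_pair m1]
      · simp only [mem_insert, mem_singleton, not_or]
        exact ⟨m2.symm, m3.symm⟩
      · simp only [mem_insert, mem_singleton, not_or]
        exact ⟨n4, m4.symm, m5.symm⟩
    have h5 : H ∩ {B, D, f} ⊆ {D, f} := by
      intro i hi
      simp only [mem_inter, mem_insert, mem_singleton] at hi ⊢
      rcases hi.2 with rfl | h6 | h6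
      · exact absurd hi.1 hB
      · exact Or.inl h6
      · exact Or.inr h6
    have h6 := card_le_card hsub
    have h7 := card_le_card h5
    rw [card_pair n8] at h7
    have h8 : H ∩ {B, D, f} = {D, f} := eq_of_subset_of_card_le h5 (by rw [card_pair n8]; omega)
    have h9 : ({A, g, x, y} : Finset ι) = H \ {B, D, f} :=
      eq_of_subset_of_card_le hsub (by omega)
    refine ⟨H, hH, fun i => ?_⟩
    have k1 : i ∈ H ∩ {B, D, f} ↔ i = D ∨ i = f := by rw [h8, mem_insert, mem_singleton]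
    have k2 : i ∈ H \ {B, D, f} ↔ i = A ∨ i = g ∨ i = x ∨ i = y := by
      rw [← h9]
      simp only [mem_insert, mem_singleton]
    rw [mem_inter] at k1
    rw [mem_sdiff] at k2
    constructor
    · intro hi
      by_cases hiO : i ∈ ({B, D, f} : Finset ι)
      · rcases k1.1 ⟨hi, hiO⟩ with h | h
        · exact Or.inr (Or.inr (Or.inr (Or.inr (Or.inl h))))
        · exact Or.inr (Or.inr (Or.inr (Or.inr (Or.inr h))))
      · rcases k2.1 ⟨hi, hiO⟩ with h | h | h | h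
        · exact Or.inl h
        · exact Or.inr (Or.inl h)
        · exact Or.inr (Or.inr (Or.inl h))
        · exact Or.inr (Or.inr (Or.inr (Or.inl h)))
    · rintro (h | h | h | h | h | h)
      · exact (k2.2 (Or.inl h)).1
      · exact (k2.2 (Or.inr (Or.inl h))).1
      · exact (k2.2 (Or.inr (Or.inr (Or.inl h)))).1
      · exact (k2.2 (Or.inr (Or.inr (Or.inr h)))).1
      · exact (k1.2 (Or.inl h)).1
      · exact (k1.2 (Or.inr h)).1

/-- FACT 1, first half -/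
theorem Stk.notD (h : Stk C A B D f g x y) : ({A, g, D} : Finset ι) ∉ C.caps := by
  intro hG
  obtain ⟨m1, m2, m3, m4, m5, m6, m7, m8, m9, m10, m11⟩ := h.ne
  obtain ⟨n1, n2, n3, n4, n5, n6, n7, n8, n9, n10⟩ := h.toPole.ne
  obtain ⟨H, hH, hm⟩ := h.H0
  have hxG : x ∉ ({A, g, D} : Finset ι) := by simp [m4, m2, m7]
  have hyG : y ∉ ({A, g, D} : Finset ι) := by simp [m5, m3, m10]
  have hDH : D ∉ H := by
    rw [hm]
    tauto
  have key : C.lt y D → C.lt D x → False := fun h1 h2 =>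
    btw hH hG ((hm y).2 (by tauto)) hyG (by simp) hDH ((hm x).2 (by tauto)) hxG h1 h2 h.yx
  rcases lt_or (C := C) n2 with h1 | h1
  · rcases lt_or (C := C) m7 with h2 | h2
    · exact hxG (cap_between h.hx hG (by simp) (by simp) h.Ax h2 h1)
    · exact key (lt_mid_right h.yA h.Ax h.yx h1 h2) h2
  · rcases lt_or (C := C) m10 with h2 | h2
    · exact key h2 (lt_mid_left h.yA h.Ax h.yx h2 h1)
    · exact hyG (cap_between h.hy hG (by simp) (by simp) h2 h.yA h1)

/-- FACT 1, second half -/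
theorem Stk.notB [Fintype ι] (h : Stk C A B D f g x y) (hF : Free C {B, D, f}) :
    ({A, g, B} : Finset ι) ∉ C.caps := by
  intro hG
  obtain ⟨m1, m2, m3, m4, m5, m6, m7, m8, m9, m10, m11⟩ := h.ne
  obtain ⟨n1, n2, n3, n4, n5, n6, n7, n8, n9, n10⟩ := h.toPole.ne
  obtain ⟨H, hH, hm⟩ := h.H0
  have hxG : x ∉ ({A, g, B} : Finset ι) := by simp [m4, m2, m6]
  have hyG : y ∉ ({A, g, B} : Finset ι) := by simp [m5, m3, m9]
  have hBH := (hm B).2 (by tauto)
  have hAH := (hm A).2 (by tauto)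
  have hxH := (hm x).2 (by tauto)
  have hyH := (hm y).2 (by tauto)
  rcases lt_or (C := C) m6 with h1 | h1
  · exact hxG (cap_between h.hx hG (by simp) (by simp) h.Ax h1 (trans hH hAH hxH hBH h.Ax h1))
  rcases lt_or (C := C) m9 with h2 | h2
  · obtain ⟨K, hK, hk⟩ := h.HB hF h2 h1
    have hBK : B ∉ K := by
      rw [hk]
      tauto
    exact btw hK hG ((hk y).2 (by tauto)) hyG (by simp) hBK ((hk x).2 (by tauto)) hxG h2 h1 h.yx
  · exact hyG (cap_between h.hy hG (by simp) (by simp) h2 h.yA (trans hH hBH hyH hAH h2 h.yA))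

/-- exchange of `B` and `D` -/
theorem Fail.swap [Fintype ι] (h : Fail C A B D f g x y) (hF : Free C {B, D, f}) (h1 : C.lt y B)
    (h2 : C.lt B x) : Fail C A D B f g x y := by
  obtain ⟨n1, n2, n3, n4, n5, n6, n7, n8, n9, n10⟩ := h.toPole.ne
  have hO : ({D, B, f} : Finset ι) = {B, D, f} := Finset.insert_comm _ _ _
  refine ⟨⟨⟨?_, ?_, fun H hH hD hB => h.cov H hH hB hD, fun H hH hA hD hB => h.q H hH hA hB hD,
    h.Ag⟩, h.hx, h.hy, h.yg, h.gx, h.toStk.HB hF h1 h2⟩, h.xf⟩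
  · simp only [List.nodup_cons, List.mem_cons, not_or, List.not_mem_nil, not_false_eq_true,
      List.nodup_nil, and_true]
    exact ⟨⟨n2, n1, n3, n4⟩, ⟨n5.symm, n8, n9⟩, ⟨n6, n7⟩, n10⟩
  · rw [hO]
    exact h.dep

end CapSys

end PHP
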