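import Mathlib
import Pool.Agent.PHP.Q2Step

/-!
# THEOREM Q2: the cases `B` left of `y` and `B`, `D` between `y` and `x` (problem MP_1180db_co, k = 3)
-/

namespace PHP

open Finset

namespace CapSys

variable {ι : Type} [DecidableEq ι] {C : CapSys ι} {A B D f g x y : ι}

theorem inz_single {O : Finset ι} {p i : ι} (hp : p ∉ O) : Inz O {p} i ↔ i ∈ O ∨ i = p := by
  unfold Inz
  rw [mem_singleton]
  constructor
  · intro h
    by_cases h1 : i ∈ O
    · exact Or.inl h1
    · exact Or.inr (by tauto)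
  · rintro (h | rfl)
    · have : i ≠ p := fun hh => hp (hh ▸ h)
      tauto
    · tauto

/-- the hull edge around the blue letter `b` -/
structure Adj (C : CapSys ι) (b p q : ι) : Prop where
  hp : {p} ∈ C.caps
  hq : {q} ∈ C.caps
  pb : C.lt p b
  bq : C.lt b q
  pq : C.lt p q
  gapl : ∀ r, {r} ∈ C.caps → C.lt p r → C.lt r b → False
  gapr : ∀ r, {r} ∈ C.caps → C.lt b r → C.lt r q → False
  hit : ∀ H ∈ C.caps, b ∈ H → p ∈ H ∨ q ∈ H

theorem Pole.single_of_hull [Fintype ι] (h : Pole C A B D f g) {p : ι}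
    (hp : C.Hull (univ \ {B, D, f}) p) : {p} ∈ C.caps := by
  obtain ⟨P, hP, hPQ⟩ := hp
  have h1 : ∀ z, z ∈ P ∩ (univ \ {B, D, f}) ↔ z = p := fun z => by rw [hPQ, mem_singleton]
  obtain ⟨r, hr, hrc⟩ := exists_single hP ⟨p, (mem_inter.1 ((h1 p).2 rfl)).1⟩
  have h2 := h.single hrc
  have h3 : r = p := (h1 r).1 (mem_inter.2 ⟨hr, by
    rw [mem_sdiff]
    refine ⟨mem_univ _, ?_⟩
    simp only [mem_insert, mem_singleton]
    tauto⟩)
  rwa [h3] at hrc

theorem Pole.exists_adj [Fintype ι] (h : Pole C A B D f g) {b : ι}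
    (hb : b ∈ ({B, D, f} : Finset ι)) : ∃ p q, Adj C b p q := by
  have hull : ∀ r, {r} ∈ C.caps → C.Hull (univ \ {B, D, f}) r := by
    intro r hr
    have h2 := h.single hr
    refine hull_of_cap hr ?_
    rw [mem_sdiff]
    refine ⟨mem_univ _, ?_⟩
    simp only [mem_insert, mem_singleton]
    tauto
  obtain ⟨p, q, e⟩ := exists_edge (C := C) (S := univ \ {B, D, f}) (b := b)
    (by simp only [mem_sdiff, mem_univ, true_and, not_not]; exact hb)
    (by
      intro H hH hbH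
      have h1 := h.dep H hH
      have h2 : 1 ≤ (H ∩ {B, D, f}).card := card_pos.2 ⟨b, mem_inter.2 ⟨hbH, hb⟩⟩
      obtain ⟨z, hz⟩ := card_pos.1 (show 0 < (H \ {B, D, f}).card by omega)
      rw [mem_sdiff] at hz
      exact ⟨z, mem_inter.2 ⟨hz.1, mem_sdiff.2 ⟨mem_univ _, hz.2⟩⟩⟩)
  exact ⟨p, q, h.single_of_hull e.hullp, h.single_of_hull e.hullq, e.pb, e.bq, e.pq,
    fun r hr => e.nearp r (hull r hr), fun r hr => e.nearq r (hull r hr), e.hit⟩

/-- the next hull letter `v` right of `x` -/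
structure Nxt (C : CapSys ι) (A B D f g x y v : ι) : Prop where
  hv : {v} ∈ C.caps
  v0 : v ≠ A ∧ v ≠ B ∧ v ≠ D ∧ v ≠ f ∧ v ≠ g ∧ v ≠ x ∧ v ≠ y
  gap : ∀ r, {r} ∈ C.caps → C.lt x r → C.lt r v → False
  xv : C.lt x v
  fv : C.lt f v
  Tf : ∀ H ∈ C.caps, f ∈ H → x ∈ H ∨ v ∈ H

theorem Fail.exists_nxt [Fintype ι] (h : Fail C A B D f g x y) : ∃ v, Nxt C A B D f g x y v := by
  obtain ⟨m1, m2, m3, m4, m5, m6, m7, m8, m9, m10, m11⟩ := h.toStk.ne
  obtain ⟨H, hH, hm⟩ := h.H0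
  have hA := (hm A).2 (by tauto)
  have hg := (hm g).2 (by tauto)
  have hx := (hm x).2 (by tauto)
  have hy := (hm y).2 (by tauto)
  have hf := (hm f).2 (by tauto)
  have Af : C.lt A f := trans hH hA hx hf h.toStk.Ax h.xf
  have gf : C.lt g f := trans hH hg hx hf h.gx h.xf
  have yf : C.lt y f := trans hH hy hx hf h.toStk.yx h.xf
  obtain ⟨p, q, e⟩ := h.toPole.exists_adj (b := f) (by simp)
  -- `p = x`
  have hpx : p = x := by
    by_contra hne
    rcases lt_or (C := C) hne with h1 | h1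
    · exact e.gapl x h.hx h1 h.xf
    · have h2 := cap_between e.hp hH hx hf h1 e.pb h.xf
      have h3 := h.toPole.single e.hp
      have h4 : p = A ∨ p = g ∨ p = y := by
        have := (hm p).1 h2
        tauto
      rcases h4 with rfl | rfl | rfl
      · exact lt_asymm h1 h.toStk.Ax
      · exact lt_asymm h1 h.gx
      · exact lt_asymm h1 h.toStk.yx
  subst hpx
  have hq3 := h.toPole.single e.hq
  refine ⟨q, e.hq, ⟨?_, hq3.1, hq3.2.1, hq3.2.2, ?_, (lt_ne e.pq).symm, ?_⟩, ?_, e.pq, e.bq, e.hit⟩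
  · rintro rfl
    exact lt_asymm e.bq Af
  · rintro rfl
    exact lt_asymm e.bq gf
  · rintro rfl
    exact lt_asymm e.bq yf
  · intro r hr h1 h2
    have hrf : r ≠ f := (h.toPole.single hr).2.2
    rcases lt_or (C := C) hrf with h3 | h3
    · exact e.gapl r hr h1 h3
    · exact e.gapr r hr h3 h2

/-- (q) at the adjacent triple `{f, x, v}`: a letter `z < x` outside a cap which contains `f` and does not contain
`v` is in no cap with `x`, `v` and without `f` -/
theorem notz {K H : Finset ι} (hK : K ∈ C.caps) (hH : H ∈ C.caps) {b v z : ι} (hbK : b ∈ K)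
    (hvK : v ∉ K) (hzK : z ∉ K) (hx : x ∈ H) (hv : v ∈ H) (hb : b ∉ H) (hz : z ∈ H)
    (zx : C.lt z x) (xb : C.lt x b) (bv : C.lt b v) (xv : C.lt x v) : False := by
  have zv := trans hH hz hx hv zx xv
  exact btw hH hK hz hzK hbK hb hv hvK (lt_mid_right zx xv zv xb bv) bv zv

/-- case (d) -/
theorem Fail.caseD [Fintype ι] (h : Fail C A B D f g x y) (hF : Free C {B, D, f})
    (h1 : C.lt y B) (h2 : C.lt B x) (h3 : C.lt D x) : Out1 C {B, D, f} := by
  obtain ⟨m1, m2, m3, m4, m5, m6, m7, m8, m9, m10, m11⟩ := h.toStk.ne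
  obtain ⟨n1, n2, n3, n4, n5, n6, n7, n8, n9, n10⟩ := h.toPole.ne
  obtain ⟨v, hv⟩ := h.exists_nxt
  obtain ⟨v1, v2, v3, v4, v5, v6, v7⟩ := hv.v0
  obtain ⟨H0, hH0, hm0⟩ := h.H0
  obtain ⟨HB, hHB, hmB⟩ := h.toStk.HB hF h1 h2
  have hxO : x ∉ ({B, D, f} : Finset ι) := by simp [m6, m7, m8]
  have hvO : v ∉ ({B, D, f} : Finset ι) := by simp [v2, v3, v4]
  have hfO : f ∈ ({B, D, f} : Finset ι) := by simp
  have hBO : B ∈ ({B, D, f} : Finset ι) := by simp
  have hDO : D ∈ ({B, D, f} : Finset ι) := by simp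
  refine ⟨f, x, v, B, D, ⟨?_, ?_, ?_⟩, ⟨{x}, h.hx, fun i => ?_⟩, ⟨{v}, hv.hv, fun i => ?_⟩⟩
  · simp only [List.nodup_cons, List.mem_cons, not_or, List.not_mem_nil, not_false_eq_true,
      List.nodup_nil, and_true]
    exact ⟨⟨m8.symm, v4.symm, n6.symm, n8.symm⟩, ⟨v6.symm, m6, m7⟩, ⟨v2, v3⟩, n5⟩
  · intro H hH
    rw [inz_blue hfO, inz_red hxO, inz_red hvO]
    by_cases hf : f ∈ H
    · exact Or.inr (hv.Tf H hH hf)
    · exact Or.inl hf
  · intro H hH
    rw [inz_blue hfO, inz_red hxO, inz_red hvO, inz_blue hBO, inz_blue hDO]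
    intro hf hx hvH
    refine ⟨fun hz => ?_, fun hz => ?_⟩
    · refine notz hHB hH (b := f) (v := v) (z := B) ?_ ?_ ?_ hx hvH hf hz h2 h.xf hv.fv hv.xv
      · exact (hmB f).2 (by tauto)
      · rw [hmB]
        tauto
      · rw [hmB]
        have := m6.symm
        have := m9.symm
        tauto
    · refine notz hH0 hH (b := f) (v := v) (z := D) ?_ ?_ ?_ hx hvH hf hz h3 h.xf hv.fv hv.xv
      · exact (hm0 f).2 (by tauto)
      · rw [hm0]
        tauto
      · rw [hm0]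
        have := n2.symm
        have := m7.symm
        have := m10.symm
        have := n5.symm
        tauto
  · rw [inz_single hxO]
    simp only [mem_insert, mem_singleton]
    clear * -
    tauto
  · rw [inz_single hvO]
    simp only [mem_insert, mem_singleton]
    clear * -
    tauto

/-- case (a) -/
theorem Fail.caseA [Fintype ι] (h : Fail C A B D f g x y) (h1 : C.lt B y) :
    Out1 C {B, D, f} := by
  obtain ⟨m1, m2, m3, m4, m5, m6, m7, m8, m9, m10, m11⟩ := h.toStk.ne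
  obtain ⟨n1, n2, n3, n4, n5, n6, n7, n8, n9, n10⟩ := h.toPole.ne
  obtain ⟨H0, hH0, hm0⟩ := h.H0
  have hA := (hm0 A).2 (by tauto)
  have hg := (hm0 g).2 (by tauto)
  have hx := (hm0 x).2 (by tauto)
  have hy := (hm0 y).2 (by tauto)
  have hf := (hm0 f).2 (by tauto)
  have hB := (hm0 B).2 (by tauto)
  have yx := h.toStk.yx
  have yA := h.toStk.yA
  have Ax := h.toStk.Ax
  have BA : C.lt B A := trans hH0 hB hy hA h1 yA
  have Bg : C.lt B g := trans hH0 hB hy hg h1 h.yg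
  have Bx : C.lt B x := trans hH0 hB hy hx h1 yx
  have Af : C.lt A f := trans hH0 hA hx hf Ax h.xf
  have yf : C.lt y f := trans hH0 hy hx hf yx h.xf
  have pos : C.lt B A ∧ C.lt A D ∧ C.lt B D := by
    rcases h.toPole.posA with h2 | h2
    · exact h2
    · exact absurd BA (lt_asymm h2.2.1)
  have yD : C.lt y D := lt_mid_left pos.1 pos.2.1 pos.2.2 h1 yA
  obtain ⟨p, q, e⟩ := h.toPole.exists_adj (b := B) (by simp)
  -- `q = y`
  have hqy : q = y := by
    by_contra hne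
    rcases lt_or (C := C) hne with h2 | h2
    · have h3 := cap_between e.hq hH0 hB hy e.bq h2 h1
      have h4 := h.toPole.single e.hq
      have h5 : q = A ∨ q = g ∨ q = x := by
        have := (hm0 q).1 h3
        tauto
      rcases h5 with rfl | rfl | rfl
      · exact lt_asymm h2 yA
      · exact lt_asymm h2 h.yg
      · exact lt_asymm h2 yx
    · exact e.gapr y h.hy h1 h2
  subst hqy
  obtain ⟨p1, p2, p3⟩ := h.toPole.single e.hp
  have hp0 : p ∉ H0 := by
    rw [hm0]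
    rintro (rfl | rfl | rfl | rfl | rfl | rfl)
    · exact lt_asymm e.pb BA
    · exact lt_asymm e.pb Bg
    · exact lt_asymm e.pb Bx
    · exact lt_irrefl e.pq
    · exact lt_irrefl e.pb
    · exact p3 rfl
  have hD0 : D ∉ H0 := by
    rw [hm0]
    have := n2.symm
    have := m7.symm
    have := m10.symm
    have := n5.symm
    tauto
  have hyO : q ∉ ({B, D, f} : Finset ι) := by simp [m9, m10, m11]
  have hpO : p ∉ ({B, D, f} : Finset ι) := by simp [p1, p2, p3]
  have hfO : f ∈ ({B, D, f} : Finset ι) := by simp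
  have hBO : B ∈ ({B, D, f} : Finset ι) := by simp
  have hDO : D ∈ ({B, D, f} : Finset ι) := by simp
  refine ⟨B, p, q, D, f, ⟨?_, ?_, ?_⟩, ⟨{p}, e.hp, fun i => ?_⟩, ⟨{q}, h.hy, fun i => ?_⟩⟩
  · simp only [List.nodup_cons, List.mem_cons, not_or, List.not_mem_nil, not_false_eq_true,
      List.nodup_nil, and_true]
    exact ⟨⟨p1.symm, m9.symm, n5, n6⟩, ⟨lt_ne e.pq, p2, p3⟩, ⟨m10, m11⟩, n8⟩
  · intro H hH
    rw [inz_blue hBO, inz_red hpO, inz_red hyO]
    by_cases hf : B ∈ H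
    · exact Or.inr (e.hit H hH hf)
    · exact Or.inl hf
  · intro H hH
    rw [inz_blue hBO, inz_red hpO, inz_red hyO, inz_blue hDO, inz_blue hfO]
    intro hBH hpH hyH
    have hDH : D ∉ H := by
      intro hDH
      have pD := trans hH hpH hyH hDH e.pq yD
      exact btw hH hH0 hpH hp0 hB hBH hDH hD0 e.pb pos.2.2 pD
    refine ⟨hDH, fun hfH => ?_⟩
    have hAH := h.toPole.memA hH hyH hfH m3 n10 yA Af yf
    exact (h.q H hH hAH hBH hDH).2 hfH
  · rw [inz_single hpO]
    simp only [mem_insert, mem_singleton]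
    clear * -
    tauto
  · rw [inz_single hyO]
    simp only [mem_insert, mem_singleton]
    clear * -
    tauto

/-- case (b): the data -/
theorem Fail.caseB [Fintype ι] (h : Fail C A B D f g x y) (hF : Free C {B, D, f})
    (xB : C.lt x B) : ∃ v, CaseB C A B D f g x y v := by
  obtain ⟨m1, m2, m3, m4, m5, m6, m7, m8, m9, m10, m11⟩ := h.toStk.ne
  obtain ⟨n1, n2, n3, n4, n5, n6, n7, n8, n9, n10⟩ := h.toPole.ne
  obtain ⟨H0, hH0, hm0⟩ := h.H0
  have hA := (hm0 A).2 (by tauto)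
  have hx := (hm0 x).2 (by tauto)
  have hy := (hm0 y).2 (by tauto)
  have hB := (hm0 B).2 (by tauto)
  obtain ⟨v, hv⟩ := h.exists_nxt
  obtain ⟨v1, v2, v3, v4, v5, v6, v7⟩ := hv.v0
  have hv0 : v ∉ H0 := by
    rw [hm0]
    tauto
  have Ax := h.toStk.Ax
  have AB := trans hH0 hA hx hB Ax xB
  have pos : C.lt D A ∧ C.lt A B ∧ C.lt D B := by
    rcases h.toPole.posA with h2 | h2
    · exact absurd AB (lt_asymm h2.1)
    · exact h2
  have Bv : C.lt B v := by
    rcases lt_or (C := C) v2 with h1 | h1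
    · exact absurd (cap_between hv.hv hH0 hx hB hv.xv h1 xB) hv0
    · exact h1
  refine ⟨v, h, hF, hv.hv, ?_, hv.gap, hv.xv, hv.fv, xB, Bv, hv.Tf, ?_, h.toStk.yx, h.toStk.yA, Ax,
    AB, pos.1, pos.2.2, lt_mid_right pos.1 pos.2.1 pos.2.2 Ax xB⟩
  · simp only [List.nodup_cons, List.mem_cons, not_or, List.not_mem_nil, not_false_eq_true,
      List.nodup_nil, and_true]
    exact ⟨⟨n1, n2, n3, n4, m4.symm, m5.symm, v1.symm⟩, ⟨n5, n6, n7, m6.symm, m9.symm, v2.symm⟩,
      ⟨n8, n9, m7.symm, m10.symm, v3.symm⟩, ⟨n10, m8.symm, m11.symm, v4.symm⟩,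
      ⟨m2.symm, m3.symm, v5.symm⟩, ⟨m1, v6.symm⟩, v7.symm⟩
  · -- `{B, x, v}` covers
    intro H hH hBH
    obtain ⟨p, q, e⟩ := h.toPole.exists_adj (b := B) (by simp)
    rcases e.hit H hH hBH with h1 | h1
    · left
      by_cases hpx : p = x
      · exact hpx ▸ h1
      rcases lt_or (C := C) hpx with h2 | h2
      · exact absurd (e.gapl x h.hx h2 xB) id
      · exact absurd (hv.gap p e.hp h2 (lt_mid_left xB Bv hv.xv h2 e.pb)) id
    · right
      by_cases hqv : q = v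
      · exact hqv ▸ h1
      rcases lt_or (C := C) hqv with h2 | h2
      · exact absurd (hv.gap q e.hq (lt_mid_right xB Bv hv.xv e.bq h2) h2) id
      · exact absurd (e.gapr v hv.hv Bv h2) id

end CapSys

end PHP
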