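import Mathlib
import Pool.Agent.PHP.Q2Case
import Pool.Agent.PHP.Q2B1
import Pool.Agent.PHP.Q2B2

/-!
# THEOREM Q2: the cap part (problem MP_1180db_co, k = 3)

`Fail.out`: in the failing situation, if no triple is good, there is an adjacent covering triple with two common
letters (`Out1`), or a covering triple with two common letters to which Theorem E applies (`Out2`).
-/

namespace PHP

open Finset

namespace CapSys

variable {ι : Type} [DecidableEq ι] {C : CapSys ι} {A B D f g x y v : ι}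

/-- an adjacent triple of the pole with two common letters -/
theorem out1_of {O : Finset ι} {b p q u w : ι} (nd : [b, p, q, u, w].Nodup)
    (hO : ∀ i, i ∈ O ↔ i = b ∨ i = u ∨ i = w) (hp : {p} ∈ C.caps) (hq : {q} ∈ C.caps)
    (hit : ∀ H ∈ C.caps, b ∈ H → p ∈ H ∨ q ∈ H)
    (hcom : ∀ H ∈ C.caps, p ∈ H → q ∈ H → b ∉ H → u ∉ H ∧ w ∉ H) : Out1 C O := by
  have h1 := nd
  simp only [List.nodup_cons, List.mem_cons, not_or, List.not_mem_nil, not_false_eq_true,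
    List.nodup_nil, and_true] at h1
  obtain ⟨⟨a1, a2, a3, a4⟩, ⟨b1, b2, b3⟩, ⟨c1, c2⟩, d1⟩ := h1
  have hbO : b ∈ O := (hO b).2 (Or.inl rfl)
  have huO : u ∈ O := (hO u).2 (Or.inr (Or.inl rfl))
  have hwO : w ∈ O := (hO w).2 (Or.inr (Or.inr rfl))
  have hpO : p ∉ O := fun hh => by
    rcases (hO p).1 hh with h | h | h
    · exact a1 h.symm
    · exact b2 h
    · exact b3 h
  have hqO : q ∉ O := fun hh => by
    rcases (hO q).1 hh with h | h | h
    · exact a2 h.symm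
    · exact c1 h
    · exact c2 h
  refine ⟨b, p, q, u, w, ⟨nd, ?_, ?_⟩, ⟨{p}, hp, fun i => ?_⟩, ⟨{q}, hq, fun i => ?_⟩⟩
  · intro H hH
    rw [inz_blue hbO, inz_red hpO, inz_red hqO]
    by_cases hb : b ∈ H
    · exact Or.inr (hit H hH hb)
    · exact Or.inl hb
  · intro H hH
    rw [inz_blue hbO, inz_red hpO, inz_red hqO, inz_blue huO, inz_blue hwO]
    exact fun hb hp hq => hcom H hH hp hq hb
  · rw [inz_single hpO, hO]
    clear * -
    tauto
  · rw [inz_single hqO, hO]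
    clear * -
    tauto

/-- case (b) -/
theorem CaseB.out [Fintype ι] (h : CaseB C A B D f g x y v) (hS : Side C {B, D, f}) :
    Out1 C {B, D, f} ∨ Out2 C {B, D, f} := by
  have hnd := h.nd'
  simp only [List.nodup_cons, List.mem_cons, not_or, List.not_mem_nil, not_false_eq_true,
    List.nodup_nil, and_true] at hnd
  obtain ⟨⟨n1, n2, n3, n4, m4, m5, v1⟩, ⟨n5, n6, n7, m6, m9, v2⟩, ⟨n8, n9, m7, m10, v3⟩,
    ⟨n10, m8, m11, v4⟩, ⟨m2, m3, v5⟩, ⟨m1, v6⟩, v7⟩ := hnd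
  obtain ⟨H0, hH0, hm0⟩ := h.H0
  have hf0 := (hm0 f).2 (by tauto)
  have hB0 := (hm0 B).2 (by tauto)
  have hv0 : v ∉ H0 := by
    rw [hm0]
    rintro (hh | hh | hh | hh | hh | hh)
    · exact v1 hh.symm
    · exact v5 hh.symm
    · exact v6 hh.symm
    · exact v7 hh.symm
    · exact v2 hh.symm
    · exact v4 hh.symm
  have hD0 : D ∉ H0 := by
    rw [hm0]
    rintro (hh | hh | hh | hh | hh | hh)
    · exact n2 hh.symm
    · exact n9 hh
    · exact m7 hh
    · exact m10 hh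
    · exact n5 hh.symm
    · exact n8 hh
  by_cases h1 : ∃ H ∈ C.caps, x ∈ H ∧ v ∈ H ∧ f ∈ H ∧ B ∉ H
  swap
  · left
    refine out1_of (b := B) (p := x) (q := v) (u := D) (w := f) ?_ (fun i => ?_) h.hx h.hv h.TB ?_
    · simp only [List.nodup_cons, List.mem_cons, not_or, List.not_mem_nil, not_false_eq_true,
        List.nodup_nil, and_true]
      exact ⟨⟨m6, v2, n5, n6⟩, ⟨v6, Ne.symm m7, Ne.symm m8⟩, ⟨Ne.symm v3, Ne.symm v4⟩, n8⟩
    · simp only [mem_insert, mem_singleton]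
    · intro H hH hxH hvH hBH
      refine ⟨fun hD => ?_, fun hf => h1 ⟨H, hH, hxH, hvH, hf, hBH⟩⟩
      exact notz hH0 hH hB0 hv0 hD0 hxH hvH hBH hD h.Dx h.xB h.Bv h.xv
  by_cases h2 : ∃ H ∈ C.caps, x ∈ H ∧ v ∈ H ∧ B ∈ H ∧ f ∉ H
  swap
  · left
    refine out1_of (b := f) (p := x) (q := v) (u := B) (w := D) ?_ (fun i => ?_) h.hx h.hv h.Tf ?_
    · simp only [List.nodup_cons, List.mem_cons, not_or, List.not_mem_nil, not_false_eq_true,
        List.nodup_nil, and_true]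
      exact ⟨⟨m8, v4, Ne.symm n6, Ne.symm n8⟩, ⟨v6, Ne.symm m6, Ne.symm m7⟩,
        ⟨Ne.symm v2, Ne.symm v3⟩, n5⟩
    · simp only [mem_insert, mem_singleton]
      clear * -
      tauto
    · intro H hH hxH hvH hfH
      refine ⟨fun hB => h2 ⟨H, hH, hxH, hvH, hB, hfH⟩, fun hD => ?_⟩
      exact notz hH0 hH hf0 hv0 hD0 hxH hvH hfH hD h.Dx h.xf h.fv h.xv
  obtain ⟨H1, k1, k2, k3, k4, k5⟩ := h1
  obtain ⟨H2, l1, l2, l3, l4, l5⟩ := h2
  by_cases hB : {x, B} ∈ C.caps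
  · exact Or.inl (h.b1 hS (Or.inl ⟨rfl, rfl⟩) hB k1 k2 k3 k4 k5)
  by_cases hf : {x, f} ∈ C.caps
  · exact Or.inl (h.b1 hS (Or.inr ⟨rfl, rfl⟩) hf l1 l2 l3 l4 l5)
  · exact Or.inr (h.b2 hB hf k1 k2 k3 k4 k5 l1 l2 l3 l4 l5)

theorem Fail.out [Fintype ι] (h : Fail C A B D f g x y) (hF : Free C {B, D, f})
    (hS : Side C {B, D, f}) : Out1 C {B, D, f} ∨ Out2 C {B, D, f} := by
  obtain ⟨m1, m2, m3, m4, m5, m6, m7, m8, m9, m10, m11⟩ := h.toStk.ne
  rcases lt_or (C := C) m9 with h1 | h1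
  swap
  · exact Or.inl (h.caseA h1)
  rcases lt_or (C := C) m6 with h2 | h2
  · obtain ⟨v, hv⟩ := h.caseB hF h2
    exact hv.out hS
  rcases lt_or (C := C) m7 with h3 | h3
  swap
  · exact Or.inl (h.caseD hF h1 h2 h3)
  · have hO : ({D, B, f} : Finset ι) = {B, D, f} := Finset.insert_comm _ _ _
    have h4 := h.swap hF h1 h2
    obtain ⟨v, hv⟩ := h4.caseB (by rw [hO]; exact hF) h3
    have h5 := hv.out (by rw [hO]; exact hS)
    rwa [hO] at h5

end CapSys

end PHP
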