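import Mathlib
import Pool.Agent.PHP.CapPeel

/-!
# Two lines through the triangle, one small cell (problem MP_1180db_co)

`JTri C a b c f g`: the cap system `C` of a cell with the three members `b, c, f`; `a, b, c` cover everything, all
cells with the members `a, b, c` have the members `f` and `g`, and `{a, b, c, f, g}` is a cell (its cap is `{g, a}`).

`JTri.shape`: if the class `{a, b, c}` cannot be completed to three colours and no three letters are good, then up to
`b, c` there is the picture `JShape`.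
-/

namespace PHP

open Finset

variable {ι : Type} [DecidableEq ι]

namespace CapSys

/-- the cell of the cap `H` has at least five members (`O` has three) -/
def JHeavy (C : CapSys ι) (O H : Finset ι) : Prop :=
  H ∈ C.caps ∧ (H ∩ O).card + 2 ≤ (H \ O).card

structure JTri (C : CapSys ι) (a b c f g : ι) : Prop where
  ab : a ≠ b
  ac : a ≠ c
  af : a ≠ f
  ag : a ≠ g
  bc : b ≠ c
  bf : b ≠ f
  bg : b ≠ g
  cf : c ≠ f
  cg : c ≠ g
  fg : f ≠ g
  depth : ∀ H ∈ C.caps, (H ∩ {b, c, f}).card ≤ (H \ {b, c, f}).card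
  cov : ∀ H ∈ C.caps, b ∈ H → c ∈ H → a ∈ H
  two : ∀ H ∈ C.caps, a ∈ H → b ∉ H → c ∉ H → g ∈ H ∧ f ∉ H
  z1 : ({g, a} : Finset ι) ∈ C.caps

/-- the stuck picture, `x, g, y` consecutive sides -/
structure JStuck (C : CapSys ι) (a b c f g x y : ι) : Prop where
  hx : ({x} : Finset ι) ∈ C.caps
  hg : ({g} : Finset ι) ∈ C.caps
  hy : ({y} : Finset ι) ∈ C.caps
  xg : C.lt x g
  gy : C.lt g y
  xy : C.lt x y
  xa : C.lt x a
  ay : C.lt a y
  h0 : ({f, b, a, x, g, y} : Finset ι) ∈ C.caps
  x_ne : x ≠ a ∧ x ≠ b ∧ x ≠ c ∧ x ≠ f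
  y_ne : y ≠ a ∧ y ≠ b ∧ y ≠ c ∧ y ≠ f

/-- the stuck picture in which `g` is the only letter outside the triangle -/
structure JShape (C : CapSys ι) (a b c f g x y : ι) : Prop extends C.JStuck a b c f g x y where
  wedge : ∀ K ∈ C.caps, g ∈ K → x ∉ K → y ∉ K → K ⊆ {a, g}
  far : ∃ K, C.JHeavy {b, c, f} K ∧ f ∈ K ∧ g ∉ K ∧ x ∉ K ∧ y ∉ K

variable {C : CapSys ι}

/-- hull letters of the whole system between two letters of a cap -/
theorem between_sing {p : ι} (hp : ({p} : Finset ι) ∈ C.caps) {H : Finset ι} (hH : H ∈ C.caps)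
    {x y : ι} (hx : x ∈ H) (hy : y ∈ H) (h1 : C.lt x p) (h2 : C.lt p y) (h3 : C.lt x y) : p ∈ H := by
  classical
  have hull : C.Hull ({x, y, p} : Finset ι) p := ⟨{p}, hp, by
    ext z
    simp only [mem_inter, mem_singleton, mem_insert]
    constructor
    · exact fun h => h.1
    · exact fun h => ⟨h, Or.inr (Or.inr h)⟩⟩
  exact hull.between hH hx hy (by simp) (by simp) h1 h2 h3

namespace JTri

variable {a b c f g : ι}

theorem swap (h : C.JTri a b c f g) : C.JTri a c b f g where
  ab := h.ac
  ac := h.ab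
  af := h.af
  ag := h.ag
  bc := h.bc.symm
  bf := h.cf
  bg := h.cg
  cf := h.bf
  cg := h.bg
  fg := h.fg
  depth := by
    have : ({c, b, f} : Finset ι) = {b, c, f} := by
      ext z
      simp only [mem_insert, mem_singleton]
      tauto
    rw [this]
    exact h.depth
  cov := fun H hH h1 h2 => h.cov H hH h2 h1
  two := fun H hH h1 h2 h3 => h.two H hH h1 h3 h2
  z1 := h.z1

/-- every nonempty cap contains a hull letter other than `a, b, c, f` -/
theorem sing [Fintype ι] (h : C.JTri a b c f g) {P : Finset ι} (hP : P ∈ C.caps)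
    (hne : P.Nonempty) :
    ∃ p ∈ P, p ≠ a ∧ p ≠ b ∧ p ≠ c ∧ p ≠ f ∧ ({p} : Finset ι) ∈ C.caps := by
  obtain ⟨p, hp, P', hP', hP2⟩ := C.step univ hP (by simpa using hne)
  rw [inter_univ] at hP2
  rw [hP2] at hP'
  have hd := h.depth _ hP'
  have hO : p ∉ ({b, c, f} : Finset ι) := by
    intro hO
    rw [singleton_inter_of_mem hO, card_singleton, sdiff_eq_empty_iff_subset.2 (by simpa using hO)]
      at hd
    simp at hd
  rw [mem_insert, mem_insert, mem_singleton] at hO
  push Not at hO
  refine ⟨p, hp, ?_, hO.1, hO.2.1, hO.2.2, hP'⟩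
  rintro rfl
  have := (h.two _ hP' (mem_singleton_self _) (by simpa using h.ab.symm)
    (by simpa using h.ac.symm)).1
  rw [mem_singleton] at this
  exact h.ag this.symm

theorem reds {H : Finset ι} (S : Finset ι)
    (hS : ∀ x, x ∉ ({a, b, c, f} : Finset ι) → x ∈ S) :
    (H \ {b, c, f}).card ≤ (H ∩ S).card + 1 ∧
    (a ∉ H → (H \ {b, c, f}).card ≤ (H ∩ S).card) := by
  have h1 : H \ {b, c, f} ⊆ insert a (H ∩ S) := by
    intro x hx
    rw [mem_sdiff, mem_insert, mem_insert, mem_singleton] at hx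
    rw [mem_insert, mem_inter]
    by_cases hxa : x = a
    · exact Or.inl hxa
    · refine Or.inr ⟨hx.1, hS x ?_⟩
      rw [mem_insert, mem_insert, mem_insert, mem_singleton]
      tauto
  constructor
  · exact (card_le_card h1).trans (card_insert_le _ _)
  · intro ha
    refine card_le_card fun x hx => ?_
    rcases mem_insert.1 (h1 hx) with h2 | h2
    · exact absurd (h2 ▸ (mem_sdiff.1 hx).1) ha
    · exact h2

/-- the letters `x, y` and the big cap -/
theorem stuck [Fintype ι] (h : C.JTri a b c f g)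
    (hno : ∀ N : Finset ι, N ⊆ univ \ {a, b, c, f} → ¬ ∀ H, C.JHeavy {b, c, f} H →
      (H ∩ N).Nonempty ∧ (f ∈ H → (H ∩ ((univ \ {a, b, c, f}) \ N)).Nonempty)) :
    ∃ x y, C.JStuck a b c f g x y ∨ C.JStuck a c b f g x y := by
  set S : Finset ι := univ \ {a, b, c, f} with hS
  have hSm : ∀ x, x ∈ S ↔ x ∉ ({a, b, c, f} : Finset ι) := fun x => by
    rw [hS, mem_sdiff]
    simp
  have hgS : g ∈ S := by
    rw [hSm]
    simp only [mem_insert, mem_singleton]
    have := h.ag
    have := h.bg
    have := h.cg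
    have := h.fg
    tauto
  have count : ∀ H : Finset ι, (H \ {b, c, f}).card ≤ (H ∩ S).card + 1 ∧
      (a ∉ H → (H \ {b, c, f}).card ≤ (H ∩ S).card) := fun H =>
    reds S (fun x hx => (hSm x).2 hx)
  have hsub : {H | C.JHeavy {b, c, f} H} ⊆ C.caps := fun H hH => hH.1
  obtain ⟨N, hNS, hull, hcov, hmin⟩ := exists_hull_cover (Q := S) hsub (by
    intro H hH
    have h1 := hH.2
    have h2 := (count H).1
    exact card_pos.1 (by omega))
  -- the bad cap
  have h1 := hno N hNS
  push Not at h1
  obtain ⟨H, hH, h2⟩ := h1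
  obtain ⟨hfH, h3⟩ := h2 (hcov H hH)
  have hHN : H ∩ S ⊆ N := by
    intro x hx
    rw [mem_inter] at hx
    by_contra hxN
    have : x ∈ H ∩ (S \ N) := mem_inter.2 ⟨hx.1, mem_sdiff.2 ⟨hx.2, hxN⟩⟩
    rw [h3] at this
    simp at this
  have hHN2 : H ∩ N = H ∩ S := by
    ext x
    rw [mem_inter, mem_inter]
    exact ⟨fun hx => ⟨hx.1, hNS hx.2⟩, fun hx => ⟨hx.1, hHN (mem_inter.2 hx)⟩⟩
  have hfO : f ∈ H ∩ ({b, c, f} : Finset ι) := mem_inter.2 ⟨hfH, by simp⟩
  have hO1 : 1 ≤ (H ∩ ({b, c, f} : Finset ι)).card := card_pos.2 ⟨f, hfO⟩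
  have hO2 : ∀ β, β ∈ H → β ∈ ({b, c, f} : Finset ι) → β ≠ f →
      2 ≤ (H ∩ ({b, c, f} : Finset ι)).card := by
    intro β hβ hβO hβf
    have : ({β, f} : Finset ι) ⊆ H ∩ {b, c, f} := by
      intro z hz
      rw [mem_insert, mem_singleton] at hz
      rcases hz with rfl | rfl
      · exact mem_inter.2 ⟨hβ, hβO⟩
      · exact hfO
    calc 2 = ({β, f} : Finset ι).card := (card_pair hβf).symm
      _ ≤ _ := card_le_card this
  have h3' : 3 ≤ (H ∩ N).card := by
    rw [hHN2]
    have h5 := hH.2
    by_cases ha : a ∈ H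
    · have h6 : b ∈ H ∨ c ∈ H := by
        by_contra h7
        push Not at h7
        exact (h.two H hH.1 ha h7.1 h7.2).2 hfH
      have h7 : 2 ≤ (H ∩ ({b, c, f} : Finset ι)).card := by
        rcases h6 with h6 | h6
        · exact hO2 b h6 (by simp) h.bf
        · exact hO2 c h6 (by simp) h.cf
      have h8 := (count H).1
      omega
    · have h8 := (count H).2 ha
      omega
  -- a middle letter is `g`
  have hmid : ∀ u ∈ H ∩ N, ∀ m ∈ H ∩ N, ∀ v ∈ H ∩ N, C.lt u m → C.lt m v → C.lt u v → m = g := by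
    intro u hu m hm v hv l1 l2 l3
    rw [mem_inter] at hu hm hv
    obtain ⟨G, hG, hGN⟩ := hmin m hm.2
    obtain ⟨k1, -, -⟩ := priv' hNS hull hH.1 hG.1 hu.2 hm.2 hv.2 hu.1 hv.1 l1 l2 l3 hGN
    have hGS : G ∩ S ⊆ {m} := by
      intro r hr
      rw [mem_inter] at hr
      have h5 := (k1 r hr.1 hr.2).1
      have h6 := hHN (mem_inter.2 ⟨h5, hr.2⟩)
      rw [← hGN]
      exact mem_inter.2 ⟨hr.1, h6⟩
    have h5 : (G ∩ S).card ≤ 1 := by
      have := card_le_card hGS
      rwa [card_singleton] at this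
    have h6 := hG.2
    have h7 := (count G).1
    have haG : a ∈ G := by
      by_contra ha
      have := (count G).2 ha
      omega
    have h8 : (G ∩ ({b, c, f} : Finset ι)).card = 0 := by omega
    rw [card_eq_zero] at h8
    have hbG : b ∉ G := fun hb => by
      have : b ∈ G ∩ ({b, c, f} : Finset ι) := mem_inter.2 ⟨hb, by simp⟩
      rw [h8] at this
      simp at this
    have hcG : c ∉ G := fun hb => by
      have : c ∈ G ∩ ({b, c, f} : Finset ι) := mem_inter.2 ⟨hb, by simp⟩
      rw [h8] at this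
      simp at this
    have h9 := (h.two G hG.1 haG hbG hcG).1
    exact (mem_singleton.1 (hGS (mem_inter.2 ⟨h9, hgS⟩))).symm
  -- the first and the last letter
  obtain ⟨k, hk⟩ := exists_key hH.1
  have hinj : ∀ x ∈ H, ∀ y ∈ H, x ≠ y → k x ≠ k y := by
    intro x hx y hy hxy heq
    rcases lt_total (C := C) hxy with h5 | h5
    · rw [hk x hx y hy] at h5
      omega
    · rw [hk y hy x hx] at h5
      omega
  obtain ⟨x, hx, hxmin⟩ := exists_min_image (H ∩ N) k (card_pos.1 (by omega))
  obtain ⟨y, hy, hymax⟩ := exists_max_image (H ∩ N) k (card_pos.1 (by omega))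
  have hx' := mem_inter.1 hx
  have hy' := mem_inter.1 hy
  have hsub3 : H ∩ N ⊆ {x, g, y} := by
    intro m hm
    rw [mem_insert, mem_insert, mem_singleton]
    by_cases hmx : m = x
    · exact Or.inl hmx
    by_cases hmy : m = y
    · exact Or.inr (Or.inr hmy)
    have hm' := mem_inter.1 hm
    have e1 := hxmin m hm
    have e2 := hymax m hm
    have e3 := hinj m hm'.1 x hx'.1 hmx
    have e4 := hinj m hm'.1 y hy'.1 hmy
    exact Or.inr (Or.inl (hmid x hx m hm y hy ((hk _ hx'.1 _ hm'.1).2 (by omega))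
      ((hk _ hm'.1 _ hy'.1).2 (by omega)) ((hk _ hx'.1 _ hy'.1).2 (by omega))))
  have hc3 : ({x, g, y} : Finset ι).card ≤ 3 := card_le_three
  have heq3 : H ∩ N = {x, g, y} := eq_of_subset_of_card_le hsub3 (by omega)
  have hcard3 : ({x, g, y} : Finset ι).card = 3 := by
    have := card_le_card hsub3
    omega
  have hxg : x ≠ g := by
    rintro rfl
    have : ({x, x, y} : Finset ι).card ≤ 2 := by
      rw [insert_eq_of_mem (mem_insert_self _ _)]
      exact card_le_two
    omega
  have hgy : g ≠ y := by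
    rintro rfl
    have : ({x, g, g} : Finset ι).card ≤ 2 := by
      rw [insert_eq_of_mem (mem_singleton_self g)]
      exact card_le_two
    omega
  have hxy : x ≠ y := by
    rintro rfl
    have : ({x, g, x} : Finset ι).card ≤ 2 := by
      have h5 : ({x, g, x} : Finset ι) = {x, g} := by
        ext z
        simp only [mem_insert, mem_singleton]
        tauto
      rw [h5]
      exact card_le_two
    omega
  have hg : g ∈ H ∩ N := by
    rw [heq3]
    simp
  have hg' := mem_inter.1 hg
  have lxg : C.lt x g := by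
    have e1 := hxmin g hg
    have e3 := hinj g hg'.1 x hx'.1 hxg.symm
    exact (hk _ hx'.1 _ hg'.1).2 (by omega)
  have lgy : C.lt g y := by
    have e1 := hymax g hg
    have e3 := hinj g hg'.1 y hy'.1 hgy
    exact (hk _ hg'.1 _ hy'.1).2 (by omega)
  have lxy : C.lt x y := trans hH.1 hx'.1 hg'.1 hy'.1 lxg lgy
  -- hull letters of everything
  have full : ∀ p ∈ N, ({p} : Finset ι) ∈ C.caps := by
    intro p hp
    obtain ⟨P, hP, hPS⟩ := hull p hp
    have h5 : ∀ z, z ∈ P ∩ S ↔ z = p := fun z => by rw [hPS, mem_singleton]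
    obtain ⟨q, hq, q1, q2, q3, q4, hqc⟩ := h.sing hP ⟨p, (mem_inter.1 ((h5 p).2 rfl)).1⟩
    have : q ∈ S := by
      rw [hSm]
      simp only [mem_insert, mem_singleton]
      tauto
    have := (h5 q).1 (mem_inter.2 ⟨hq, this⟩)
    rwa [this] at hqc
  have sx := full x hx'.2
  have sg := full g hg'.2
  have sy := full y hy'.2
  have neS : ∀ p ∈ N, p ≠ a ∧ p ≠ b ∧ p ≠ c ∧ p ≠ f := by
    intro p hp
    have := (hSm p).1 (hNS hp)
    simp only [mem_insert, mem_singleton] at this
    tauto
  have nx := neS x hx'.2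
  have ny := neS y hy'.2
  -- `a` is between `x` and `y`
  have hxa : x ≠ a := nx.1
  have hya : y ≠ a := ny.1
  have lay : C.lt x a ∧ C.lt a y := by
    rcases lt_total (C := C) h.ag with h5 | h5
    · -- a before g
      have h6 : C.lt x a := by
        rcases lt_total (C := C) hxa with h7 | h7
        · exact h7
        · have := between_sing sx h.z1 (x := a) (y := g) (by simp) (by simp) h7 lxg h5
          rw [mem_insert, mem_singleton] at this
          rcases this with h8 | h8
          · exact absurd h8 hxg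
          · exact absurd h8 hxa
      refine ⟨h6, ?_⟩
      have g1 := C.lt_ang a
      have g2 := C.lt_ang g
      have g3 := C.lt_ang x
      have g4 := C.lt_ang y
      have g5 := C.inj hxa
      unfold lt at *
      omega
    · have h6 : C.lt a y := by
        rcases lt_total (C := C) hya with h7 | h7
        · have := between_sing sy h.z1 (x := g) (y := a) (by simp) (by simp) lgy h7 h5
          rw [mem_insert, mem_singleton] at this
          rcases this with h8 | h8
          · exact absurd h8.symm hgy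
          · exact absurd h8 hya
        · exact h7
      refine ⟨?_, h6⟩
      have g1 := C.lt_ang a
      have g2 := C.lt_ang g
      have g3 := C.lt_ang x
      have g4 := C.lt_ang y
      have g5 := C.inj hxa
      unfold lt at *
      omega
  -- `a` is in the big cap
  have haH : a ∈ H := by
    by_contra ha
    have hxG : x ∉ ({g, a} : Finset ι) := by
      rw [mem_insert, mem_singleton]
      tauto
    have hyG : y ∉ ({g, a} : Finset ι) := by
      rw [mem_insert, mem_singleton]
      rintro (h5 | h5)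
      · exact hgy h5.symm
      · exact hya h5
    exact btw hH.1 h.z1 hx'.1 hxG (b := a) (by simp) ha hy'.1 hyG lay.1 lay.2 lxy
  have h6 : b ∈ H ∨ c ∈ H := by
    by_contra h7
    push Not at h7
    exact (h.two H hH.1 haH h7.1 h7.2).2 hfH
  have hHS : ∀ z, z ∈ H → z ∈ S → z = x ∨ z = g ∨ z = y := by
    intro z hz hzS
    have : z ∈ H ∩ N := by
      rw [hHN2]
      exact mem_inter.2 ⟨hz, hzS⟩
    rw [heq3] at this
    simpa using this
  have h7 : ¬ (b ∈ H ∧ c ∈ H) := by
    rintro ⟨hb, hc⟩
    have h8 : ({b, c, f} : Finset ι) ⊆ H ∩ {b, c, f} := by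
      intro z hz
      refine mem_inter.2 ⟨?_, hz⟩
      rw [mem_insert, mem_insert, mem_singleton] at hz
      rcases hz with rfl | rfl | rfl
      · exact hb
      · exact hc
      · exact hfH
    have h9 : ({b, c, f} : Finset ι).card = 3 := by
      rw [card_insert_of_notMem, card_pair h.cf]
      rw [mem_insert, mem_singleton]
      have := h.bc
      have := h.bf
      tauto
    have h10 := card_le_card h8
    have h11 := hH.2
    have h12 := (count H).1
    rw [← hHN2, heq3] at h12
    omega
  refine ⟨x, y, ?_⟩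
  rcases h6 with hb | hc
  · left
    have hc : c ∉ H := fun hc => h7 ⟨hb, hc⟩
    refine ⟨sx, sg, sy, lxg, lgy, lxy, lay.1, lay.2, ?_, nx, ny⟩
    have : ({f, b, a, x, g, y} : Finset ι) = H := by
      ext z
      simp only [mem_insert, mem_singleton]
      constructor
      · rintro (rfl | rfl | rfl | rfl | rfl | rfl)
        · exact hfH
        · exact hb
        · exact haH
        · exact hx'.1
        · exact hg'.1
        · exact hy'.1
      · intro hz
        by_cases hzS : z ∈ S
        · have := hHS z hz hzS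
          tauto
        · have h8 := (hSm z).not.1 hzS
          rw [not_not] at h8
          simp only [mem_insert, mem_singleton] at h8
          have : z ≠ c := fun h9 => hc (h9 ▸ hz)
          tauto
    rw [this]
    exact hH.1
  · right
    have hb : b ∉ H := fun hb => h7 ⟨hb, hc⟩
    refine ⟨sx, sg, sy, lxg, lgy, lxy, lay.1, lay.2, ?_, ⟨nx.1, nx.2.2.1, nx.2.1, nx.2.2.2⟩,
      ⟨ny.1, ny.2.2.1, ny.2.1, ny.2.2.2⟩⟩
    have : ({f, c, a, x, g, y} : Finset ι) = H := by
      ext z
      simp only [mem_insert, mem_singleton]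
      constructor
      · rintro (rfl | rfl | rfl | rfl | rfl | rfl)
        · exact hfH
        · exact hc
        · exact haH
        · exact hx'.1
        · exact hg'.1
        · exact hy'.1
      · intro hz
        by_cases hzS : z ∈ S
        · have := hHS z hz hzS
          tauto
        · have h8 := (hSm z).not.1 hzS
          rw [not_not] at h8
          simp only [mem_insert, mem_singleton] at h8
          have : z ≠ b := fun h9 => hb (h9 ▸ hz)
          tauto
    rw [this]
    exact hH.1

end JTri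

namespace JStuck

variable {a b c f g x y : ι}

/-- the other letters of a cap around `g` without `x` and `y` are between `x` and `y` -/
theorem mid_of (st : C.JStuck a b c f g x y) {K : Finset ι} (hK : K ∈ C.caps) (hg : g ∈ K)
    (hx : x ∉ K) (hy : y ∉ K) {p : ι} (hp : p ∈ K) : C.lt x p ∧ C.lt p y := by
  by_cases hpg : p = g
  · rw [hpg]
    exact ⟨st.xg, st.gy⟩
  have hxp : x ≠ p := fun h => hx (h ▸ hp)
  have hyp : y ≠ p := fun h => hy (h ▸ hp)
  have l1 := st.xg
  have l2 := st.gy
  have l3 := st.xy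
  have g1 := C.lt_ang p
  have g2 := C.lt_ang g
  have g3 := C.lt_ang x
  have g4 := C.lt_ang y
  have g5 := C.inj hxp
  have g6 := C.inj hyp
  rcases lt_total (C := C) hpg with h5 | h5
  · have h6 : C.lt x p := by
      rcases lt_total (C := C) hxp with h7 | h7
      · exact h7
      · exact absurd (between_sing st.hx hK hp hg h7 l1 h5) hx
    refine ⟨h6, ?_⟩
    unfold lt at *
    omega
  · have h6 : C.lt p y := by
      rcases lt_total (C := C) hyp with h7 | h7
      · exact absurd (between_sing st.hy hK hg hp l2 h7 h5) hy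
      · exact h7
    refine ⟨?_, h6⟩
    unfold lt at *
    omega

theorem sub_of (st : C.JStuck a b c f g x y) {K : Finset ι} (hK : K ∈ C.caps) (hg : g ∈ K)
    (hx : x ∉ K) (hy : y ∉ K) : K ⊆ {f, b, a, g} := by
  intro p hp
  have hm := st.mid_of hK hg hx hy hp
  have hp0 : p ∈ ({f, b, a, x, g, y} : Finset ι) := by
    by_contra h5
    exact btw st.h0 hK (by simp) hx hp h5 (by simp) hy hm.1 hm.2 st.xy
  have hxp : p ≠ x := fun h => hx (h ▸ hp)
  have hyp : p ≠ y := fun h => hy (h ▸ hp)
  simp only [mem_insert, mem_singleton] at hp0 ⊢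
  tauto

theorem g_mem (st : C.JStuck a b c f g x y) {K : Finset ι} (hK : K ∈ C.caps) (hx : x ∈ K)
    (hy : y ∈ K) : g ∈ K := between_sing st.hg hK hx hy st.xg st.gy st.xy

/-- a cap with a letter between `x` and `y` contains `x`, `g` or `y` -/
theorem hit [Fintype ι] (h : C.JTri a b c f g) (st : C.JStuck a b c f g x y) {K : Finset ι}
    (hK : K ∈ C.caps) {p : ι} (hp : p ∈ K) (hx : x ∉ K) (hg : g ∉ K) (hy : y ∉ K) (h1 : C.lt x p)
    (h2 : C.lt p y) : False := by
  obtain ⟨q, hq, q1, q2, q3, q4, hqc⟩ := h.sing hK ⟨p, hp⟩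
  have hqx : x ≠ q := fun h => hx (h ▸ hq)
  have hqy : y ≠ q := fun h => hy (h ▸ hq)
  have hqg : q ≠ g := fun h => hg (h ▸ hq)
  have hout : ¬ (C.lt x q ∧ C.lt q y) := by
    rintro ⟨l1, l2⟩
    have := between_sing hqc st.h0 (x := x) (y := y) (by simp) (by simp) l1 l2 st.xy
    simp only [mem_insert, mem_singleton] at this
    have := hqx.symm
    have := hqy.symm
    tauto
  have l3 := st.xy
  have g1 := C.lt_ang p
  have g2 := C.lt_ang q
  have g3 := C.lt_ang x
  have g4 := C.lt_ang y
  have g5 := C.inj hqx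
  have g6 := C.inj hqy
  by_cases hpq : p = q
  · rw [← hpq] at hout
    exact hout ⟨h1, h2⟩
  have g7 := C.inj hpq
  rcases lt_total (C := C) hpq with h5 | h5
  · have h6 : C.lt y q := by
      unfold lt at *
      omega
    exact hy (between_sing st.hy hK hp hq h2 h6 h5)
  · have h6 : C.lt q x := by
      unfold lt at *
      omega
    exact hx (between_sing st.hx hK hq hp h6 h1 h5)

/-- the picture `JShape` -/
theorem shape [Fintype ι] (h : C.JTri a b c f g) (st : C.JStuck a b c f g x y)
    (hno : ∀ N : Finset ι, N ⊆ univ \ {a, b, c, f} → ¬ ∀ H, C.JHeavy {b, c, f} H →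
      (H ∩ N).Nonempty ∧ (f ∈ H → (H ∩ ((univ \ {a, b, c, f}) \ N)).Nonempty))
    (hgood : ∀ p q, p ∉ ({b, c, f} : Finset ι) → q ∉ ({b, c, f} : Finset ι) → p ≠ q →
      (∀ K, C.JHeavy {b, c, f} K → b ∈ K → p ∉ K → q ∉ K → False) →
      (∀ K, K ∈ C.caps → b ∉ K → p ∈ K → q ∈ K → False) → False) :
    C.JShape a b c f g x y := by
  set S : Finset ι := univ \ {a, b, c, f} with hS
  have hSm : ∀ x, x ∈ S ↔ x ∉ ({a, b, c, f} : Finset ι) := fun x => by
    rw [hS, mem_sdiff]
    simp
  have count : ∀ H : Finset ι, (H \ {b, c, f}).card ≤ (H ∩ S).card + 1 ∧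
      (a ∉ H → (H \ {b, c, f}).card ≤ (H ∩ S).card) := fun H =>
    JTri.reds S (fun x hx => (hSm x).2 hx)
  -- a heavy cap around `g` without `x` and `y` has none of `b, f`
  have small : ∀ K, C.JHeavy {b, c, f} K → g ∈ K → x ∉ K → y ∉ K → (f ∈ K ∨ b ∈ K) → False := by
    intro K hK hg hx hy hfb
    have h1 := st.sub_of hK.1 hg hx hy
    have h2 : K \ {b, c, f} ⊆ {a, g} := by
      intro z hz
      rw [mem_sdiff] at hz
      have h3 := h1 hz.1
      have h4 := hz.2
      simp only [mem_insert, mem_singleton] at h3 h4 ⊢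
      tauto
    have h3 := (card_le_card h2).trans card_le_two
    have h4 : 1 ≤ (K ∩ ({b, c, f} : Finset ι)).card := by
      rcases hfb with h5 | h5
      · exact card_pos.2 ⟨f, mem_inter.2 ⟨h5, by simp⟩⟩
      · exact card_pos.2 ⟨b, mem_inter.2 ⟨h5, by simp⟩⟩
    have := hK.2
    omega
  -- the class `S \ {x, y}` meets all heavy caps
  have hN : ∀ K, C.JHeavy {b, c, f} K → (K ∩ (S \ {x, y})).Nonempty := by
    intro K hK
    by_contra hemp
    rw [not_nonempty_iff_eq_empty] at hemp
    have h1 : ∀ z, z ∈ K → z ∈ S → z = x ∨ z = y := by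
      intro z hz hzS
      by_contra h2
      push Not at h2
      have : z ∈ K ∩ (S \ {x, y}) := mem_inter.2 ⟨hz, mem_sdiff.2 ⟨hzS, by
        rw [mem_insert, mem_singleton]
        tauto⟩⟩
      rw [hemp] at this
      simp at this
    have hgS : g ∈ S := by
      rw [hSm]
      simp only [mem_insert, mem_singleton]
      have := h.ag
      have := h.bg
      have := h.cg
      have := h.fg
      tauto
    have hg : g ∉ K := by
      intro hg
      rcases h1 g hg hgS with h2 | h2
      · exact lt_ne st.xg h2.symm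
      · exact lt_ne st.gy h2
    have h2 : (K ∩ S).card ≤ 1 := by
      rw [card_le_one]
      intro u hu v hv
      rw [mem_inter] at hu hv
      by_contra huv
      have e1 := h1 u hu.1 hu.2
      have e2 := h1 v hv.1 hv.2
      refine hg (st.g_mem hK.1 ?_ ?_)
      · rcases e1 with e1 | e1
        · exact e1 ▸ hu.1
        · rcases e2 with e2 | e2
          · exact e2 ▸ hv.1
          · exact absurd (e1.trans e2.symm) huv
      · rcases e1 with e1 | e1
        · rcases e2 with e2 | e2
          · exact absurd (e1.trans e2.symm) huv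
          · exact e2 ▸ hv.1
        · exact e1 ▸ hu.1
    have h3 := hK.2
    have h4 := (count K).1
    have haK : a ∈ K := by
      by_contra ha
      have := (count K).2 ha
      omega
    have h8 : (K ∩ ({b, c, f} : Finset ι)).card = 0 := by omega
    rw [card_eq_zero] at h8
    have hbK : b ∉ K := fun hb => by
      have : b ∈ K ∩ ({b, c, f} : Finset ι) := mem_inter.2 ⟨hb, by simp⟩
      rw [h8] at this
      simp at this
    have hcK : c ∉ K := fun hb => by
      have : c ∈ K ∩ ({b, c, f} : Finset ι) := mem_inter.2 ⟨hb, by simp⟩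
      rw [h8] at this
      simp at this
    exact hg (h.two K hK.1 haK hbK hcK).1
  have hxS : x ∈ S := by
    rw [hSm]
    simp only [mem_insert, mem_singleton]
    have := st.x_ne
    tauto
  have hyS : y ∈ S := by
    rw [hSm]
    simp only [mem_insert, mem_singleton]
    have := st.y_ne
    tauto
  have hrest : ∀ K : Finset ι, (K ∩ (S \ (S \ {x, y}))).Nonempty ↔ x ∈ K ∨ y ∈ K := by
    intro K
    constructor
    · rintro ⟨z, hz⟩
      rw [mem_inter, mem_sdiff] at hz
      have h1 : z ∈ ({x, y} : Finset ι) := by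
        by_contra h2
        exact hz.2.2 (mem_sdiff.2 ⟨hz.2.1, h2⟩)
      rw [mem_insert, mem_singleton] at h1
      rcases h1 with rfl | rfl
      · exact Or.inl hz.1
      · exact Or.inr hz.1
    · rintro (h1 | h1)
      · exact ⟨x, mem_inter.2 ⟨h1, mem_sdiff.2 ⟨hxS, fun h2 => (mem_sdiff.1 h2).2 (by simp)⟩⟩⟩
      · exact ⟨y, mem_inter.2 ⟨h1, mem_sdiff.2 ⟨hyS, fun h2 => (mem_sdiff.1 h2).2 (by simp)⟩⟩⟩
  obtain ⟨K1, hK1, hfK, hxK, hyK⟩ : ∃ K, C.JHeavy {b, c, f} K ∧ f ∈ K ∧ x ∉ K ∧ y ∉ K := by
    by_contra hcon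
    push Not at hcon
    refine hno (S \ {x, y}) sdiff_subset fun K hK => ⟨hN K hK, fun hf => ?_⟩
    rw [hrest]
    by_contra h1
    push Not at h1
    exact h1.2 (hcon K hK hf h1.1)
  have hgK : g ∉ K1 := fun hg => small K1 hK1 hg hxK hyK (Or.inl hfK)
  -- `f` is not near `g`
  have hf1 : ∀ K ∈ C.caps, g ∈ K → x ∉ K → y ∉ K → f ∉ K := by
    intro K hK hg hx hy hf
    have hm := st.mid_of hK hg hx hy hf
    exact st.hit h hK1.1 hfK hxK hgK hyK hm.1 hm.2
  have hb1 : ∀ K ∈ C.caps, g ∈ K → x ∉ K → y ∉ K → b ∉ K := by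
    intro K0 hK0 hg0 hx0 hy0 hb0
    have hm := st.mid_of hK0 hg0 hx0 hy0 hb0
    have hxO : x ∉ ({b, c, f} : Finset ι) := by
      simp only [mem_insert, mem_singleton]
      have := st.x_ne
      tauto
    have hyO : y ∉ ({b, c, f} : Finset ι) := by
      simp only [mem_insert, mem_singleton]
      have := st.y_ne
      tauto
    refine hgood x y hxO hyO (lt_ne st.xy) (fun K hK hb hx hy => ?_) (fun K hK hb hx hy => ?_)
    · by_cases hg : g ∈ K
      · exact small K hK hg hx hy (Or.inr hb)
      · exact st.hit h hK.1 hb hx hg hy hm.1 hm.2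
    · exact btw hK hK0 hx hx0 hb0 hb hy hy0 hm.1 hm.2 st.xy
  refine ⟨st, fun K hK hg hx hy => ?_, K1, hK1, hfK, hgK, hxK, hyK⟩
  intro z hz
  have h1 := st.sub_of hK hg hx hy hz
  have h2 : z ≠ f := fun h => hf1 K hK hg hx hy (h ▸ hz)
  have h3 : z ≠ b := fun h => hb1 K hK hg hx hy (h ▸ hz)
  simp only [mem_insert, mem_singleton] at h1 ⊢
  tauto

end JStuck

end CapSys

end PHP
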