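import Mathlib
import Pool.Agent.PHP.RtwoA
import Pool.Agent.PHP.ThmE
import Pool.Agent.PHP.StarPlus

/-!
# Two lines through the triangle: the picture `JShape` for systems (problem MP_1180db_co)

`Sys.Three`: three colours split all cells with at least five members. `three_of_set`: a set which meets all these
cells and leaves three members in each of them. `exists_shape`: `a, b, c` covers, the triangle is inside `f` and `g`;
then there are three colours or the picture `JShape` for a suitable order of the letters.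
-/

namespace PHP

open Finset

variable {ι : Type} [Fintype ι] [DecidableEq ι]

/-- three colours split all cells with at least five members -/
def Sys.Three (S : Sys ι) : Prop :=
  ∃ c : ι → Fin 3, ∀ X ∈ S.T, 5 ≤ dep X → ∀ j, ∃ i, X i = true ∧ c i = j

/-- a good set -/
theorem Sys.Circ.three_of_set {S : Sys ι} {F : ι → Bool} {l : List (ι × Bool)} (h : S.Circ F l)
    (R : Finset ι) (hR : ∀ X ∈ S.T, 5 ≤ dep X → 1 ≤ hit R X ∧ hit R X + 3 ≤ dep X) : S.Three := by
  classical
  obtain ⟨S', l', h', hT', -⟩ := h.comap (Function.Embedding.subtype (fun i => i ∉ R))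
  obtain ⟨c, hc⟩ := splitW_two h'
    ((fun X : ι → Bool => X ∘ (Function.Embedding.subtype (fun i => i ∉ R))) ''
      {X | X ∈ S.T ∧ 5 ≤ dep X})
    (by
      rintro _ ⟨X, hX, rfl⟩
      rw [hT']
      exact ⟨X, hX.1, rfl⟩)
    (by
      rintro _ ⟨X, hX, rfl⟩
      have h1 := hR X hX.1 hX.2
      have h4 := main_dep_compl R X
      simp only
      omega)
  obtain ⟨c', hc'⟩ := mainD_colour R {X | X ∈ S.T ∧ 5 ≤ dep X} (fun X hX => (hR X hX.1 hX.2).1) c hc
  refine ⟨c', fun X hX h5 j => ?_⟩
  obtain ⟨i, hi, hXi⟩ := hc' X ⟨hX, h5⟩ j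
  exact ⟨i, hXi, hi⟩

/-- a good triple: it meets all cells with at least five members, and the cells which contain it do not have five -/
theorem Sys.Circ.three_of_triple {S : Sys ι} {F : ι → Bool} {l : List (ι × Bool)} (h : S.Circ F l)
    (a b c : ι) (h1 : ∀ X ∈ S.T, 5 ≤ dep X → X a = true ∨ X b = true ∨ X c = true)
    (h2 : ∀ X ∈ S.T, X a = true → X b = true → X c = true → dep X ≠ 5) : S.Three := by
  refine h.three_of_set {a, b, c} fun X hX h5 => ⟨?_, ?_⟩
  · rcases h1 X hX h5 with h3 | h3 | h3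
    · exact main_one_le_hit (by simp) h3
    · exact main_one_le_hit (by simp) h3
    · exact main_one_le_hit (by simp) h3
  · by_cases hall : X a = true ∧ X b = true ∧ X c = true
    · have h3 := h2 X hX hall.1 hall.2.1 hall.2.2
      have h4 := main_hit_le_three X a b c
      omega
    · have := main_hit_three hall
      omega

/-- the number of members of a cell from its cap -/
theorem dep_cap {O X : ι → Bool} {Of H : Finset ι} (hO : ∀ i, O i = true ↔ i ∈ Of)
    (hH : ∀ i, i ∈ H ↔ X i ≠ O i) : dep X + (H ∩ Of).card = Of.card + (H \ Of).card := by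
  have h1 : (univ.filter (fun i => X i = true)) = (Of \ H) ∪ (H \ Of) := by
    ext i
    rw [mem_filter, mem_union, mem_sdiff, mem_sdiff, hH, ← hO]
    cases h1 : X i <;> cases h2 : O i <;> simp
  have h2 : Disjoint (Of \ H) (H \ Of) := by
    rw [disjoint_left]
    intro i h2 h3
    exact (mem_sdiff.1 h2).2 (mem_sdiff.1 h3).1
  have h3 : (Of \ H).card + (H ∩ Of).card = Of.card := by
    rw [inter_comm]
    exact card_sdiff_add_card_inter Of H
  unfold dep
  rw [h1, card_union_of_disjoint h2]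
  omega

section core

variable {S : Sys ι} {C : CapSys ι} {O : ι → Bool} {a b c f g : ι}

/-- what the absence of three colours says about the caps -/
theorem noN (hno : ¬ S.Three) (hC : ∀ H : Finset ι, H ∈ C.caps ↔ ∃ X ∈ S.T, ∀ i, i ∈ H ↔ X i ≠ O i)
    (hO : ∀ i, O i = true ↔ i ∈ ({b, c, f} : Finset ι)) (haf : a ≠ f)
    (hbf : b ≠ f) (hcf : c ≠ f)
    (hcov : ∀ X ∈ S.T, X a = true ∨ X b = true ∨ X c = true) :
    ∀ N : Finset ι, N ⊆ univ \ {a, b, c, f} → ¬ ∀ H, C.JHeavy {b, c, f} H →
      (H ∩ N).Nonempty ∧ (f ∈ H → (H ∩ ((univ \ {a, b, c, f}) \ N)).Nonempty) := by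
  intro N hN hcon
  have hNm : ∀ z ∈ N, z ≠ a ∧ z ≠ b ∧ z ≠ c ∧ z ≠ f := by
    intro z hz
    have := hN hz
    rw [mem_sdiff] at this
    simp only [mem_insert, mem_singleton] at this
    tauto
  refine hno ⟨fun i => if i = a ∨ i = b ∨ i = c then 0 else if i ∈ N then 1 else 2,
    fun X hX h5 j => ?_⟩
  set H : Finset ι := univ.filter (fun i => X i ≠ O i) with hH
  have hHm : ∀ i, i ∈ H ↔ X i ≠ O i := fun i => by rw [hH, mem_filter]; simp
  clear_value H
  have hHc : H ∈ C.caps := (hC H).2 ⟨X, hX, hHm⟩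
  have hdep := dep_cap hO hHm
  have hc3 : ({b, c, f} : Finset ι).card ≤ 3 := card_le_three
  have hheavy : C.JHeavy {b, c, f} H := ⟨hHc, by omega⟩
  obtain ⟨h1, h2⟩ := hcon H hheavy
  have red : ∀ z, z ≠ b → z ≠ c → z ≠ f → z ∈ H → X z = true := by
    intro z z1 z2 z3 hz
    have h3 : O z = false := by
      by_contra h4
      have h5 := (hO z).1 (by simpa using h4)
      simp only [mem_insert, mem_singleton] at h5
      tauto
    have h4 := (hHm z).1 hz
    rw [h3] at h4
    simpa using h4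
  have hj : j = 0 ∨ j = 1 ∨ j = 2 := by
    fin_cases j <;> simp
  rcases hj with rfl | rfl | rfl
  · rcases hcov X hX with h3 | h3 | h3
    · exact ⟨a, h3, by simp⟩
    · exact ⟨b, h3, by simp⟩
    · exact ⟨c, h3, by simp⟩
  · obtain ⟨z, hz⟩ := h1
    rw [mem_inter] at hz
    obtain ⟨z1, z2, z3, z4⟩ := hNm z hz.2
    exact ⟨z, red z z2 z3 z4 hz.1, by simp [z1, z2, z3, hz.2]⟩
  · by_cases hf : f ∈ H
    · obtain ⟨z, hz⟩ := h2 hf
      rw [mem_inter, mem_sdiff, mem_sdiff] at hz
      have h3 := hz.2.1.2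
      simp only [mem_insert, mem_singleton] at h3
      push Not at h3
      exact ⟨z, red z h3.2.1 h3.2.2.1 h3.2.2.2 hz.1, by simp [h3.1, h3.2.1, h3.2.2.1, hz.2.2]⟩
    · refine ⟨f, ?_, ?_⟩
      · have h3 : O f = true := (hO f).2 (by simp)
        by_contra h4
        apply hf
        rw [hHm, h3]
        exact h4
      · have h3 : f ∉ N := fun h4 => (hNm f h4).2.2.2 rfl
        simp [haf.symm, hbf.symm, hcf.symm, h3]

/-- what the absence of good triples says about the caps -/
theorem noGood {F : ι → Bool} {l : List (ι × Bool)} (h : S.Circ F l) (hno : ¬ S.Three)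
    (hC : ∀ H : Finset ι, H ∈ C.caps ↔ ∃ X ∈ S.T, ∀ i, i ∈ H ↔ X i ≠ O i) {Of : Finset ι}
    (hO : ∀ i, O i = true ↔ i ∈ Of) (hc3 : Of.card = 3) (β p q : ι) (hβ : β ∈ Of)
    (hp : p ∉ Of) (hq : q ∉ Of)
    (h1 : ∀ K, C.JHeavy Of K → β ∈ K → p ∉ K → q ∉ K → False)
    (h2 : ∀ K, K ∈ C.caps → β ∉ K → p ∈ K → q ∈ K → (K ∩ Of).card + 2 ≠ (K \ Of).card) :
    False := by
  have fa : ∀ z, z ∉ Of → O z = false := by
    intro z hz
    by_contra h4
    exact hz ((hO z).1 (by simpa using h4))
  refine hno (h.three_of_triple β p q (fun X hX h5 => ?_) (fun X hX x1 x2 x3 h5 => ?_))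
  · set H : Finset ι := univ.filter (fun i => X i ≠ O i) with hH
    have hHm : ∀ i, i ∈ H ↔ X i ≠ O i := fun i => by rw [hH, mem_filter]; simp
    clear_value H
    have hHc : H ∈ C.caps := (hC H).2 ⟨X, hX, hHm⟩
    have hdep := dep_cap hO hHm
    by_contra hcon
    push Not at hcon
    refine h1 H ⟨hHc, by omega⟩ ((hHm β).2 ?_) (fun h6 => ?_) (fun h6 => ?_)
    · rw [(hO β).2 hβ]
      exact hcon.1
    · have := (hHm p).1 h6
      rw [fa p hp] at this
      exact hcon.2.1 (by simpa using this)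
    · have := (hHm q).1 h6
      rw [fa q hq] at this
      exact hcon.2.2 (by simpa using this)
  · set H : Finset ι := univ.filter (fun i => X i ≠ O i) with hH
    have hHm : ∀ i, i ∈ H ↔ X i ≠ O i := fun i => by rw [hH, mem_filter]; simp
    clear_value H
    have hHc : H ∈ C.caps := (hC H).2 ⟨X, hX, hHm⟩
    have hdep := dep_cap hO hHm
    refine h2 H hHc (fun h6 => ?_) ((hHm p).2 ?_) ((hHm q).2 ?_) (by omega)
    · have := (hHm β).1 h6
      rw [(hO β).2 hβ, x1] at this
      exact this rfl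
    · rw [fa p hp, x2]
      simp
    · rw [fa q hq, x3]
      simp

/-- the frame at the cell `{b, c, f}` -/
theorem exists_jtri {F : ι → Bool} {l : List (ι × Bool)} (h : S.Circ F l) (hc : S.Complete)
    (hd : ∀ X ∈ S.T, 3 ≤ dep X) (hab : a ≠ b) (hac : a ≠ c) (haf : a ≠ f) (hag : a ≠ g)
    (hbc : b ≠ c) (hbf : b ≠ f) (hbg : b ≠ g) (hcf : c ≠ f) (hcg : c ≠ g) (hfg : f ≠ g)
    (hcov : ∀ X ∈ S.T, X a = true ∨ X b = true ∨ X c = true)
    (hT : ∀ X ∈ S.T, X a = true → X b = true → X c = true → X f = true ∧ X g = true)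
    {Z : ι → Bool} (hZ : Z ∈ S.T) (hZm : ∀ i, Z i = true ↔ i = a ∨ i = b ∨ i = c ∨ i = f ∨ i = g)
    (hOT : O ∈ S.T) (hO : ∀ i, O i = true ↔ i ∈ ({b, c, f} : Finset ι)) :
    ∃ C : CapSys ι, (∀ H : Finset ι, H ∈ C.caps ↔ ∃ X ∈ S.T, ∀ i, i ∈ H ↔ X i ≠ O i) ∧
      C.JTri a b c f g := by
  obtain ⟨C, hC⟩ := h.exists_capSys hc ⟨a⟩ hOT
  refine ⟨C, hC, ?_⟩
  have hc3 : ({b, c, f} : Finset ι).card = 3 := by
    rw [card_insert_of_notMem, card_pair hcf]
    rw [mem_insert, mem_singleton]
    tauto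
  have Oa : O a = false := by
    by_contra h4
    have h5 := (hO a).1 (by simpa using h4)
    simp only [mem_insert, mem_singleton] at h5
    tauto
  have Og : O g = false := by
    by_contra h4
    have h5 := (hO g).1 (by simpa using h4)
    simp only [mem_insert, mem_singleton] at h5
    rcases h5 with h5 | h5 | h5
    · exact hbg h5.symm
    · exact hcg h5.symm
    · exact hfg h5.symm
  have Ob : O b = true := (hO b).2 (by simp)
  have Oc : O c = true := (hO c).2 (by simp)
  have Of' : O f = true := (hO f).2 (by simp)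
  refine ⟨hab, hac, haf, hag, hbc, hbf, hbg, hcf, hcg, hfg, ?_, ?_, ?_, ?_⟩
  · intro H hH
    obtain ⟨X, hX, hHX⟩ := (hC H).1 hH
    have h1 := dep_cap hO hHX
    have h2 := hd X hX
    omega
  · intro H hH hb hc'
    obtain ⟨X, hX, hHX⟩ := (hC H).1 hH
    have h1 := (hHX b).1 hb
    have h2 := (hHX c).1 hc'
    rw [Ob] at h1
    rw [Oc] at h2
    rw [hHX, Oa]
    rcases hcov X hX with h3 | h3 | h3
    · simp [h3]
    · exact absurd h3 h1
    · exact absurd h3 h2
  · intro H hH ha hb hc'
    obtain ⟨X, hX, hHX⟩ := (hC H).1 hH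
    have h1 := (hHX a).1 ha
    have h2 := (hHX b).not.1 hb
    have h3 := (hHX c).not.1 hc'
    rw [Oa] at h1
    rw [not_not, Ob] at h2
    rw [not_not, Oc] at h3
    have h4 := hT X hX (by simpa using h1) h2 h3
    rw [hHX, hHX, Og, Of', h4.1, h4.2]
    simp
  · rw [hC]
    refine ⟨Z, hZ, fun i => ?_⟩
    rw [mem_insert, mem_singleton]
    by_cases hi : i ∈ ({b, c, f} : Finset ι)
    · rw [(hO i).2 hi]
      simp only [mem_insert, mem_singleton] at hi
      have h1 : Z i = true := (hZm i).2 (by tauto)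
      rw [h1]
      constructor
      · rintro (rfl | rfl)
        · rcases hi with hi | hi | hi
          · exact absurd hi.symm hbg
          · exact absurd hi.symm hcg
          · exact absurd hi.symm hfg
        · rcases hi with hi | hi | hi
          · exact absurd hi hab
          · exact absurd hi hac
          · exact absurd hi haf
      · exact fun h => absurd rfl h
    · have h2 : O i = false := by
        by_contra h4
        exact hi ((hO i).1 (by simpa using h4))
      simp only [mem_insert, mem_singleton] at hi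
      have h3 := hZm i
      rw [h2]
      constructor
      · intro h4
        rw [h3.2 (by tauto)]
        simp
      · intro h4
        have h5 := h3.1 (by simpa using h4)
        tauto

end core

/-- the picture for the small cell `{b, c, f}` -/
theorem Sys.Circ.shape_of_cell {S : Sys ι} {F : ι → Bool} {l : List (ι × Bool)} (h : S.Circ F l)
    (hc : S.Complete) (hd : ∀ X ∈ S.T, 3 ≤ dep X) (hno : ¬ S.Three) {a b c f g : ι}
    (hab : a ≠ b) (hac : a ≠ c) (haf : a ≠ f) (hag : a ≠ g)
    (hbc : b ≠ c) (hbf : b ≠ f) (hbg : b ≠ g) (hcf : c ≠ f) (hcg : c ≠ g) (hfg : f ≠ g)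
    (hcov : ∀ X ∈ S.T, X a = true ∨ X b = true ∨ X c = true)
    (hT : ∀ X ∈ S.T, X a = true → X b = true → X c = true → X f = true ∧ X g = true)
    {Z : ι → Bool} (hZ : Z ∈ S.T) (hZm : ∀ i, Z i = true ↔ i = a ∨ i = b ∨ i = c ∨ i = f ∨ i = g)
    {O : ι → Bool} (hOT : O ∈ S.T) (hO : ∀ i, O i = true ↔ i ∈ ({b, c, f} : Finset ι)) :
    ∃ C : CapSys ι, (∀ H : Finset ι, H ∈ C.caps ↔ ∃ X ∈ S.T, ∀ i, i ∈ H ↔ X i ≠ O i) ∧
      C.JTri a b c f g ∧ ∃ x y, C.JShape a b c f g x y ∨ C.JShape a c b f g x y := by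
  obtain ⟨C, hC, hJ⟩ := exists_jtri h hc hd hab hac haf hag hbc hbf hbg hcf hcg hfg hcov hT hZ hZm
    hOT hO
  refine ⟨C, hC, hJ, ?_⟩
  have hc3 : ({b, c, f} : Finset ι).card = 3 := by
    rw [card_insert_of_notMem, card_pair hcf]
    rw [mem_insert, mem_singleton]
    tauto
  have hO' : ∀ i, O i = true ↔ i ∈ ({c, b, f} : Finset ι) := by
    intro i
    rw [hO]
    simp only [mem_insert, mem_singleton]
    tauto
  have hc3' : ({c, b, f} : Finset ι).card = 3 := by
    rw [card_insert_of_notMem, card_pair hbf]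
    rw [mem_insert, mem_singleton]
    have := hbc.symm
    tauto
  obtain ⟨x, y, hst | hst⟩ := hJ.stuck (noN hno hC hO haf hbf hcf hcov)
  · refine ⟨x, y, Or.inl (hst.shape hJ (noN hno hC hO haf hbf hcf hcov) ?_)⟩
    intro p q hp hq hpq h1 h2
    exact noGood h hno hC hO hc3 b p q (by simp) hp hq h1 (fun K hK k1 k2 k3 => (h2 K hK k1 k2 k3).elim)
  · refine ⟨x, y, Or.inr (hst.shape hJ.swap (noN hno hC hO' haf hcf hbf
      (fun X hX => by have := hcov X hX; tauto)) ?_)⟩
    intro p q hp hq hpq h1 h2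
    exact noGood h hno hC hO' hc3' c p q (by simp) hp hq h1
      (fun K hK k1 k2 k3 => (h2 K hK k1 k2 k3).elim)

/-- the picture for a covering triple whose triangle is inside two further lines -/
theorem Sys.Circ.exists_shape {S : Sys ι} {F : ι → Bool} {l : List (ι × Bool)} (h : S.Circ F l)
    (hc : S.Complete) (hd : ∀ X ∈ S.T, 3 ≤ dep X) (hno : ¬ S.Three) {a b c f g : ι}
    (hab : a ≠ b) (hac : a ≠ c) (haf : a ≠ f) (hag : a ≠ g)
    (hbc : b ≠ c) (hbf : b ≠ f) (hbg : b ≠ g) (hcf : c ≠ f) (hcg : c ≠ g) (hfg : f ≠ g)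
    (hcov : ∀ X ∈ S.T, X a = true ∨ X b = true ∨ X c = true)
    (hT : ∀ X ∈ S.T, X a = true → X b = true → X c = true → X f = true ∧ X g = true) :
    ∃ a' b' c' f' g' : ι, ({a', b', c'} : Finset ι) = {a, b, c} ∧
      ({f', g'} : Finset ι) = {f, g} ∧ ∃ O ∈ S.T, (∀ i, O i = true ↔ i ∈ ({b', c', f'} : Finset ι)) ∧
      ∃ C : CapSys ι, (∀ H : Finset ι, H ∈ C.caps ↔ ∃ X ∈ S.T, ∀ i, i ∈ H ↔ X i ≠ O i) ∧
        C.JTri a' b' c' f' g' ∧ ∃ x y, C.JShape a' b' c' f' g' x y := by
  classical
  -- the exact cell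
  obtain ⟨Z, hZ, za, zb, zc, hZ5⟩ : ∃ Z ∈ S.T, Z a = true ∧ Z b = true ∧ Z c = true ∧ dep Z = 5 := by
    by_contra hcon
    push Not at hcon
    exact hno (h.three_of_triple a b c (fun X hX _ => hcov X hX) hcon)
  obtain ⟨zf, zg⟩ := hT Z hZ za zb zc
  have hc5 : ({a, b, c, f, g} : Finset ι).card = 5 := by
    rw [card_insert_of_notMem, card_insert_of_notMem, card_insert_of_notMem, card_pair hfg]
    · simp only [mem_insert, mem_singleton]
      tauto
    · simp only [mem_insert, mem_singleton]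
      tauto
    · simp only [mem_insert, mem_singleton]
      tauto
  have hZm : ∀ i, Z i = true ↔ i = a ∨ i = b ∨ i = c ∨ i = f ∨ i = g := by
    have h1 : ({a, b, c, f, g} : Finset ι) = univ.filter (fun i => Z i = true) := by
      refine eq_of_subset_of_card_le (fun i hi => ?_) ?_
      · rw [mem_filter]
        refine ⟨mem_univ _, ?_⟩
        simp only [mem_insert, mem_singleton] at hi
        rcases hi with rfl | rfl | rfl | rfl | rfl <;> assumption
      · rw [hc5]
        unfold dep at hZ5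
        omega
    intro i
    have h2 : i ∈ univ.filter (fun i => Z i = true) ↔ i ∈ ({a, b, c, f, g} : Finset ι) := by
      rw [h1]
    rw [mem_filter] at h2
    simp only [mem_univ, true_and, mem_insert, mem_singleton] at h2
    exact h2
  -- a small cell
  obtain ⟨Y, hY, hYm, hYn⟩ : ∃ Y ∈ S.T, (∀ i, i ∉ ({a, b, c} : Finset ι) → Y i = true → i = f ∨ i = g) ∧
      ¬ (Y f = true ∧ Y g = true) := by
    by_contra hcon
    push Not at hcon
    obtain ⟨col, hcol⟩ := h.split_of_pair hc {a, b, c} hfg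
      (by simp only [mem_insert, mem_singleton]; tauto)
      (by simp only [mem_insert, mem_singleton]; tauto) hZ
      (by
        intro i hi
        simp only [mem_insert, mem_singleton] at hi
        rw [hZm]
        tauto)
      (fun X hX hXi => hcon X hX hXi) {X | X ∈ S.T ∧ 5 ≤ dep X} (fun X hX => hX.1)
      (by
        intro X hX
        rcases hcov X hX.1 with h3 | h3 | h3
        · exact main_one_le_hit (by simp) h3
        · exact main_one_le_hit (by simp) h3
        · exact main_one_le_hit (by simp) h3)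
      (by
        intro X hX
        by_cases hall : X a = true ∧ X b = true ∧ X c = true
        · exact Or.inr (hT X hX.1 hall.1 hall.2.1 hall.2.2)
        · left
          have := main_hit_three hall
          have := hX.2
          omega)
    exact hno ⟨col, fun X hX h5 j => by
      obtain ⟨i, hi, hXi⟩ := hcol X ⟨hX, h5⟩ j
      exact ⟨i, hXi, hi⟩⟩
  have hYabc : ¬ (Y a = true ∧ Y b = true ∧ Y c = true) := fun h1 =>
    hYn (hT Y hY h1.1 h1.2.1 h1.2.2)
  have hYsub : ∀ i, Y i = true → i = a ∨ i = b ∨ i = c ∨ i = f ∨ i = g := by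
    intro i hi
    by_cases h1 : i ∈ ({a, b, c} : Finset ι)
    · simp only [mem_insert, mem_singleton] at h1
      tauto
    · have := hYm i h1 hi
      tauto
  have hYd := hd Y hY
  -- the small cell has three members `p, q, r`
  have key : ∀ p q r s t : ι, (∀ i, Y i = true → i = p ∨ i = q ∨ i = r ∨ i = s ∨ i = t) →
      Y s ≠ true → Y t ≠ true → ∀ i, Y i = true ↔ i ∈ ({p, q, r} : Finset ι) := by
    intro p q r s t h1 h2 h3
    have h4 : univ.filter (fun i => Y i = true) ⊆ {p, q, r} := by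
      intro i hi
      rw [mem_filter] at hi
      simp only [mem_insert, mem_singleton]
      rcases h1 i hi.2 with h5 | h5 | h5 | h5 | h5
      · exact Or.inl h5
      · exact Or.inr (Or.inl h5)
      · exact Or.inr (Or.inr h5)
      · exact absurd (h5 ▸ hi.2) h2
      · exact absurd (h5 ▸ hi.2) h3
    have h5 : univ.filter (fun i => Y i = true) = {p, q, r} :=
      eq_of_subset_of_card_le h4 (card_le_three.trans (by unfold dep at hYd; exact hYd))
    intro i
    rw [← h5, mem_filter]
    simp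
  have hf3 : Y f ≠ true ∨ Y g ≠ true := by
    clear * - hYn
    tauto
  have hab3 : Y a ≠ true ∨ Y b ≠ true ∨ Y c ≠ true := by
    clear * - hYabc
    tauto
  -- all cases
  have fin : ∀ a' b' c' f' g' : ι, a' ≠ b' → a' ≠ c' → a' ≠ f' → a' ≠ g' → b' ≠ c' → b' ≠ f' →
      b' ≠ g' → c' ≠ f' → c' ≠ g' → f' ≠ g' → ({a', b', c'} : Finset ι) = {a, b, c} →
      ({f', g'} : Finset ι) = {f, g} →
      (∀ i, (i = a' ∨ i = b' ∨ i = c' ∨ i = f' ∨ i = g') ↔ (i = a ∨ i = b ∨ i = c ∨ i = f ∨ i = g)) →
      (∀ X : ι → Bool, (X a = true ∨ X b = true ∨ X c = true) →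
        (X a' = true ∨ X b' = true ∨ X c' = true)) →
      (∀ X : ι → Bool, X a' = true → X b' = true → X c' = true →
        (X a = true ∧ X b = true ∧ X c = true)) →
      (∀ X : ι → Bool, (X f = true ∧ X g = true) → (X f' = true ∧ X g' = true)) →
      (∀ i, Y i = true ↔ i ∈ ({b', c', f'} : Finset ι)) →
      ∃ a' b' c' f' g' : ι, ({a', b', c'} : Finset ι) = {a, b, c} ∧
      ({f', g'} : Finset ι) = {f, g} ∧ ∃ O ∈ S.T, (∀ i, O i = true ↔ i ∈ ({b', c', f'} : Finset ι)) ∧
      ∃ C : CapSys ι, (∀ H : Finset ι, H ∈ C.caps ↔ ∃ X ∈ S.T, ∀ i, i ∈ H ↔ X i ≠ O i) ∧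
        C.JTri a' b' c' f' g' ∧ ∃ x y, C.JShape a' b' c' f' g' x y := by
    intro a' b' c' f' g' n1 n2 n3 n4 n5 n6 n7 n8 n9 n10 e1 e2 e3 e4 e5 e6 hYO
    obtain ⟨C, hC, hJ, x, y, hsh | hsh⟩ := h.shape_of_cell hc hd hno n1 n2 n3 n4 n5 n6 n7 n8 n9 n10
      (fun X hX => e4 X (hcov X hX))
      (fun X hX x1 x2 x3 => by
        obtain ⟨y1, y2, y3⟩ := e5 X x1 x2 x3
        exact e6 X (hT X hX y1 y2 y3)) hZ (fun i => by rw [hZm, e3]) hY hYO
    · exact ⟨a', b', c', f', g', e1, e2, Y, hY, hYO, C, hC, hJ, x, y, hsh⟩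
    · refine ⟨a', c', b', f', g', ?_, e2, Y, hY, ?_, C, hC, hJ.swap, x, y, hsh⟩
      · rw [← e1]
        ext z
        simp only [mem_insert, mem_singleton]
        clear * -
        tauto
      · intro i
        rw [hYO]
        simp only [mem_insert, mem_singleton]
        clear * -
        tauto
  rcases hf3 with h1 | h1
  · -- `g` is the member
    rcases hab3 with h2 | h2 | h2
    · refine fin a b c g f hab hac hag haf hbc hbg hbf hcg hcf hfg.symm rfl (pair_comm _ _)
        (fun i => by clear * -; tauto) (fun X hX => by clear * - hX; tauto) (fun X x1 x2 x3 => ⟨x1, x2, x3⟩)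
        (fun X hX => ⟨hX.2, hX.1⟩) (key b c g a f (fun i hi => by have := hYsub i hi; clear * - this; tauto) h2 h1)
    · refine fin b a c g f hab.symm hbc hbg hbf hac hag haf hcg hcf hfg.symm ?_ (pair_comm _ _)
        (fun i => by clear * -; tauto) (fun X hX => by clear * - hX; tauto) (fun X x1 x2 x3 => ⟨x2, x1, x3⟩)
        (fun X hX => ⟨hX.2, hX.1⟩) (key a c g b f (fun i hi => by have := hYsub i hi; clear * - this; tauto) h2 h1)
      ext z
      simp only [mem_insert, mem_singleton]
      clear * -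
      tauto
    · refine fin c a b g f hac.symm hbc.symm hcg hcf hab hag haf hbg hbf hfg.symm ?_ (pair_comm _ _)
        (fun i => by clear * -; tauto) (fun X hX => by clear * - hX; tauto) (fun X x1 x2 x3 => ⟨x2, x3, x1⟩)
        (fun X hX => ⟨hX.2, hX.1⟩) (key a b g c f (fun i hi => by have := hYsub i hi; clear * - this; tauto) h2 h1)
      ext z
      simp only [mem_insert, mem_singleton]
      clear * -
      tauto
  · rcases hab3 with h2 | h2 | h2
    · refine fin a b c f g hab hac haf hag hbc hbf hbg hcf hcg hfg rfl rfl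
        (fun i => by clear * -; tauto) (fun X hX => by clear * - hX; tauto) (fun X x1 x2 x3 => ⟨x1, x2, x3⟩)
        (fun X hX => hX) (key b c f a g (fun i hi => by have := hYsub i hi; clear * - this; tauto) h2 h1)
    · refine fin b a c f g hab.symm hbc hbf hbg hac haf hag hcf hcg hfg ?_ rfl
        (fun i => by clear * -; tauto) (fun X hX => by clear * - hX; tauto) (fun X x1 x2 x3 => ⟨x2, x1, x3⟩)
        (fun X hX => hX) (key a c f b g (fun i hi => by have := hYsub i hi; clear * - this; tauto) h2 h1)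
      ext z
      simp only [mem_insert, mem_singleton]
      clear * -
      tauto
    · refine fin c a b f g hac.symm hbc.symm hcf hcg hab haf hag hbf hbg hfg ?_ rfl
        (fun i => by clear * -; tauto) (fun X hX => by clear * - hX; tauto) (fun X x1 x2 x3 => ⟨x2, x3, x1⟩)
        (fun X hX => hX) (key a b f c g (fun i hi => by have := hYsub i hi; clear * - this; tauto) h2 h1)
      ext z
      simp only [mem_insert, mem_singleton]
      clear * -
      tauto

end PHP
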