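import Mathlib
import Pool.Agent.PHP.RtwoB

/-!
# Adjacent triples (problem MP_1180db_co)

`Sys.Adj S b u v s t`: `{b, u, v}` is a cell, `s, t` are sides of it, `b, s, t` covers, and all cells with the members
`b, s, t` have the members `u, v`. Then three colours split all cells with at least five members (`three_of_adj`).
-/

namespace PHP

open Finset

variable {ι : Type}

/-- `{b, u, v}` is a cell, `{b, u, v, s}`, `{b, u, v, t}` are cells, `b, s, t` covers, every cell containing `b, s, t`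
contains `u, v` -/
structure Sys.Adj (S : Sys ι) (b u v s t : ι) : Prop where
  nd : [b, u, v, s, t].Nodup
  h0 : ∃ X ∈ S.T, ∀ i, X i = true ↔ i = b ∨ i = u ∨ i = v
  hs : ∃ X ∈ S.T, ∀ i, X i = true ↔ i = b ∨ i = u ∨ i = v ∨ i = s
  ht : ∃ X ∈ S.T, ∀ i, X i = true ↔ i = b ∨ i = u ∨ i = v ∨ i = t
  cov : ∀ X ∈ S.T, X b = true ∨ X s = true ∨ X t = true
  q : ∀ X ∈ S.T, X b = true → X s = true → X t = true → X u = true ∧ X v = true

variable [Fintype ι] [DecidableEq ι]

omit [Fintype ι] in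
/-- in the picture `JShape`, the cell `z1 - τ` is not a cell for `τ ∈ {b, c}` -/
theorem CapSys.JShape.no_inner {C : CapSys ι} {a b c f g x y τ : ι} (h : C.JTri a b c f g)
    (hs : C.JShape a b c f g x y) (hτ : τ = b ∨ τ = c) : ({a, g, τ} : Finset ι) ∉ C.caps := by
  intro hK
  have h1 := hs.x_ne
  have h2 := hs.y_ne
  have h3 := CapSys.lt_ne hs.xg
  have h4 := CapSys.lt_ne hs.gy
  have hx : x ∉ ({a, g, τ} : Finset ι) := by
    simp only [mem_insert, mem_singleton]
    rintro (h5 | h5 | h5)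
    · exact h1.1 h5
    · exact h3 h5
    · rcases hτ with h6 | h6
      · exact h1.2.1 (h5.trans h6)
      · exact h1.2.2.1 (h5.trans h6)
  have hy : y ∉ ({a, g, τ} : Finset ι) := by
    simp only [mem_insert, mem_singleton]
    rintro (h5 | h5 | h5)
    · exact h2.1 h5
    · exact h4 h5.symm
    · rcases hτ with h6 | h6
      · exact h2.2.1 (h5.trans h6)
      · exact h2.2.2.1 (h5.trans h6)
  have h5 := hs.wedge _ hK (by simp) hx hy (show τ ∈ ({a, g, τ} : Finset ι) by simp)
  simp only [mem_insert, mem_singleton] at h5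
  rcases hτ with rfl | rfl
  · rcases h5 with h6 | h6
    · exact h.ab h6.symm
    · exact h.bg h6
  · rcases h5 with h6 | h6
    · exact h.ac h6.symm
    · exact h.cg h6

/-- a covering triple with two common letters and two inner sides -/
theorem Sys.Circ.three_of_inner {S : Sys ι} {F : ι → Bool} {l : List (ι × Bool)} (h : S.Circ F l)
    (hc : S.Complete) (hd : ∀ X ∈ S.T, 3 ≤ dep X) {b u v s t : ι} (hnd : [b, u, v, s, t].Nodup)
    (hs : ∃ X ∈ S.T, ∀ i, X i = true ↔ i = b ∨ i = u ∨ i = v ∨ i = s)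
    (ht : ∃ X ∈ S.T, ∀ i, X i = true ↔ i = b ∨ i = u ∨ i = v ∨ i = t)
    (hcov : ∀ X ∈ S.T, X b = true ∨ X s = true ∨ X t = true)
    (hq : ∀ X ∈ S.T, X b = true → X s = true → X t = true → X u = true ∧ X v = true) :
    S.Three := by
  by_contra hno
  simp only [List.nodup_cons, List.mem_cons, List.not_mem_nil, or_false, not_or,
    List.nodup_nil, not_false_eq_true, and_true] at hnd
  obtain ⟨⟨nbu, nbv, nbs, nbt⟩, ⟨nuv, nus, nut⟩, ⟨nvs, nvt⟩, nst⟩ := hnd
  obtain ⟨a', b', c', f', g', e1, e2, O, hO, hOm, C, hC, hJ, x, y, hsh⟩ :=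
    h.exists_shape hc hd hno (a := b) (b := s) (c := t) (f := u) (g := v) nbs nbt nbu nbv nst
      (Ne.symm nus) (Ne.symm nvs) (Ne.symm nut) (Ne.symm nvt) nuv hcov hq
  have m1 : ∀ i, (i = a' ∨ i = b' ∨ i = c') ↔ (i = b ∨ i = s ∨ i = t) := by
    intro i
    have : i ∈ ({a', b', c'} : Finset ι) ↔ i ∈ ({b, s, t} : Finset ι) := by rw [e1]
    simpa only [mem_insert, mem_singleton] using this
  have m2 : ∀ i, (i = f' ∨ i = g') ↔ (i = u ∨ i = v) := by
    intro i
    have : i ∈ ({f', g'} : Finset ι) ↔ i ∈ ({u, v} : Finset ι) := by rw [e2]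
    simpa only [mem_insert, mem_singleton] using this
  -- the main case
  have main : ∀ τ : ι, τ = b' ∨ τ = c' →
      (∃ X ∈ S.T, ∀ i, X i = true ↔ (i = b ∨ i = s ∨ i = t ∨ i = u ∨ i = v) ∧ i ≠ τ) → False := by
    rintro τ hτ ⟨X, hX, hXm⟩
    refine hsh.no_inner hJ hτ ((hC _).2 ⟨X, hX, fun i => ?_⟩)
    have h1 := hXm i
    have h2 := hOm i
    have h3 := m1 i
    have h4 := m2 i
    have nab := hJ.ab
    have nac := hJ.ac
    have naf := hJ.af
    have nag := hJ.ag
    have nbc := hJ.bc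
    have nbf := hJ.bf
    have nbg := hJ.bg
    have ncf := hJ.cf
    have ncg := hJ.cg
    have nfg := hJ.fg
    simp only [mem_insert, mem_singleton] at h2 ⊢
    have h5 : X i ≠ O i ↔ ¬ (X i = true ↔ O i = true) := by
      cases X i <;> cases O i <;> simp
    rw [h5, h1, h2]
    have h6 : (i = b ∨ i = s ∨ i = t ∨ i = u ∨ i = v) ↔
        (i = a' ∨ i = b' ∨ i = c' ∨ i = f' ∨ i = g') := by
      clear * - h3 h4
      tauto
    rw [h6]
    clear h1 h2 h3 h4 h5 h6 hXm m1 m2 e1 e2 hC hOm hcov hq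
    by_cases i1 : i = a'
    · subst i1
      have n1 : i ≠ τ := by
        rcases hτ with rfl | rfl
        · exact nab
        · exact nac
      simp [nab, nac, naf, n1]
    by_cases i2 : i = g'
    · subst i2
      have n1 : i ≠ τ := by
        rcases hτ with rfl | rfl
        · exact nbg.symm
        · exact ncg.symm
      simp [nbg.symm, ncg.symm, nfg.symm, n1]
    by_cases i3 : i = τ
    · subst i3
      rcases hτ with h7 | h7
      · simp [h7]
      · simp [h7]
    simp only [i1, i2, i3, false_or, or_false]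
    tauto
  have ht' : t = b' ∨ t = c' → False := by
    intro hτ
    obtain ⟨X, hX, hXm⟩ := hs
    refine main t hτ ⟨X, hX, fun i => ?_⟩
    rw [hXm]
    constructor
    · rintro (rfl | rfl | rfl | rfl)
      · exact ⟨Or.inl rfl, nbt⟩
      · exact ⟨by simp, nut⟩
      · exact ⟨by simp, nvt⟩
      · exact ⟨by simp, nst⟩
    · rintro ⟨rfl | rfl | rfl | rfl | rfl, hi⟩
      · exact Or.inl rfl
      · simp
      · exact absurd rfl hi
      · simp
      · simp
  have hs' : s = b' ∨ s = c' → False := by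
    intro hτ
    obtain ⟨X, hX, hXm⟩ := ht
    refine main s hτ ⟨X, hX, fun i => ?_⟩
    rw [hXm]
    constructor
    · rintro (rfl | rfl | rfl | rfl)
      · exact ⟨Or.inl rfl, nbs⟩
      · exact ⟨by simp, nus⟩
      · exact ⟨by simp, nvs⟩
      · exact ⟨by simp, Ne.symm nst⟩
    · rintro ⟨rfl | rfl | rfl | rfl | rfl, hi⟩
      · exact Or.inl rfl
      · exact absurd rfl hi
      · simp
      · simp
      · simp
  have h1 := (m1 s).2 (Or.inr (Or.inl rfl))
  have h2 := (m1 t).2 (Or.inr (Or.inr rfl))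
  rcases h1 with h1 | h1
  · rcases h2 with h2 | h2
    · exact nst (h1.trans h2.symm)
    · exact ht' h2
  · exact hs' h1

theorem Sys.Circ.three_of_adj {S : Sys ι} {F : ι → Bool} {l : List (ι × Bool)} (h : S.Circ F l)
    (hc : S.Complete) (hd : ∀ X ∈ S.T, 3 ≤ dep X) {b u v s t : ι} (ha : S.Adj b u v s t) :
    S.Three :=
  h.three_of_inner hc hd ha.nd ha.hs ha.ht ha.cov ha.q

end PHP
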