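import Mathlib
import Pool.Agent.PHP.Q2Struct
import Pool.Agent.PHP.Q2R1

/-!
# THEOREM Q2: from systems to caps and back (problem MP_1180db_co, k = 3)

`Frame S C O Of`: `C` is the cap system of the cell `O` of `S` with the three members `Of`. `exists_fail`: the failing
situation. `Frame.free`, `Frame.three_of_out1`, `Frame.three_of_out2`: the properties of the cap part.
-/

namespace PHP

open Finset CapSys

variable {ι : Type} [Fintype ι] [DecidableEq ι]

/-- the caps of `C` are the differences of the cells of `S` and the cell `O` with the three members `Of` -/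
structure Frame (S : Sys ι) (C : CapSys ι) (O : ι → Bool) (Of : Finset ι) : Prop where
  caps : ∀ H : Finset ι, H ∈ C.caps ↔ ∃ X ∈ S.T, ∀ i, i ∈ H ↔ X i ≠ O i
  mem : ∀ i, O i = true ↔ i ∈ Of
  card : Of.card = 3

namespace Frame

variable {S : Sys ι} {C : CapSys ι} {O : ι → Bool} {Of : Finset ι}

omit [Fintype ι] in
theorem inz (h : Frame S C O Of) {H : Finset ι} {X : ι → Bool} (hX : ∀ i, i ∈ H ↔ X i ≠ O i)
    (i : ι) : Inz Of H i ↔ X i = true := by
  unfold Inz
  rw [hX, ← h.mem]
  cases X i <;> cases O i <;> simp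

theorem heavy (h : Frame S C O Of) {H : Finset ι} {X : ι → Bool} (hX : ∀ i, i ∈ H ↔ X i ≠ O i) :
    Hvy Of H ↔ 5 ≤ dep X := by
  have h1 := dep_cap h.mem hX
  have h2 := h.card
  unfold Hvy
  omega

theorem exact (h : Frame S C O Of) {H : Finset ι} {X : ι → Bool} (hX : ∀ i, i ∈ H ↔ X i ≠ O i) :
    (H ∩ Of).card + 2 = (H \ Of).card ↔ dep X = 5 := by
  have h1 := dep_cap h.mem hX
  have h2 := h.card
  omega

theorem exists_cap (h : Frame S C O Of) {X : ι → Bool} (hX : X ∈ S.T) :
    ∃ H ∈ C.caps, ∀ i, i ∈ H ↔ X i ≠ O i :=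
  ⟨univ.filter (fun i => X i ≠ O i), (h.caps _).2 ⟨X, hX, fun i => by simp⟩, fun i => by simp⟩

omit [Fintype ι] in
theorem mirror (h : Frame S C O Of) : Frame S C.mirror O Of := ⟨h.caps, h.mem, h.card⟩

theorem free (h : Frame S C O Of) {F : ι → Bool} {l : List (ι × Bool)} (hS : S.Circ F l)
    (hno : ¬ S.Three) : Free C Of := by
  intro a b c _ _ _
  by_cases h1 : ∀ X ∈ S.T, 5 ≤ dep X → X a = true ∨ X b = true ∨ X c = true
  · by_cases h2 : ∀ X ∈ S.T, X a = true → X b = true → X c = true → dep X ≠ 5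
    · exact absurd (hS.three_of_triple a b c h1 h2) hno
    · push Not at h2
      obtain ⟨X, hX, x1, x2, x3, x4⟩ := h2
      obtain ⟨H, hH, hHX⟩ := h.exists_cap hX
      exact ⟨H, hH, Or.inr ⟨(h.exact hHX).2 x4, (h.inz hHX a).2 x1, (h.inz hHX b).2 x2,
        (h.inz hHX c).2 x3⟩⟩
  · push Not at h1
    obtain ⟨X, hX, x4, x1, x2, x3⟩ := h1
    obtain ⟨H, hH, hHX⟩ := h.exists_cap hX
    exact ⟨H, hH, Or.inl ⟨(h.heavy hHX).2 x4, fun h5 => x1 ((h.inz hHX a).1 h5),
      fun h5 => x2 ((h.inz hHX b).1 h5), fun h5 => x3 ((h.inz hHX c).1 h5)⟩⟩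

theorem cell_of (h : Frame S C O Of) {P : ι → Prop} (hP : ∃ H ∈ C.caps, ∀ i, Inz Of H i ↔ P i) :
    ∃ X ∈ S.T, ∀ i, X i = true ↔ P i := by
  obtain ⟨H, hH, h1⟩ := hP
  obtain ⟨X, hX, hHX⟩ := (h.caps H).1 hH
  exact ⟨X, hX, fun i => by rw [← h1, h.inz hHX]⟩

theorem two_cov (h : Frame S C O Of) {p q r u w : ι} (ht : Two C Of p q r u w) :
    (∀ X ∈ S.T, X p = true ∨ X q = true ∨ X r = true) ∧
    (∀ X ∈ S.T, X p = true → X q = true → X r = true → X u = true ∧ X w = true) := by
  constructor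
  · intro X hX
    obtain ⟨H, hH, hHX⟩ := h.exists_cap hX
    rw [← h.inz hHX, ← h.inz hHX, ← h.inz hHX]
    exact ht.cov H hH
  · intro X hX
    obtain ⟨H, hH, hHX⟩ := h.exists_cap hX
    rw [← h.inz hHX, ← h.inz hHX, ← h.inz hHX, ← h.inz hHX, ← h.inz hHX]
    exact ht.com H hH

theorem three_of_out1 (h : Frame S C O Of) {F : ι → Bool} {l : List (ι × Bool)} (hS : S.Circ F l)
    (hc : S.Complete) (hd : ∀ X ∈ S.T, 3 ≤ dep X) (ho : Out1 C Of) : S.Three := by
  obtain ⟨p, q, r, u, w, ht, h1, h2⟩ := ho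
  obtain ⟨g1, g2⟩ := h.two_cov ht
  obtain ⟨X1, hX1, k1⟩ := h.cell_of h1
  obtain ⟨X2, hX2, k2⟩ := h.cell_of h2
  have hnd := ht.nd
  simp only [List.nodup_cons, List.mem_cons, List.not_mem_nil, or_false, not_or,
    List.nodup_nil, not_false_eq_true, and_true] at hnd
  obtain ⟨⟨npq, npr, npu, npw⟩, ⟨nqr, nqu, nqw⟩, ⟨nru, nrw⟩, nuw⟩ := hnd
  refine hS.three_of_inner hc hd (b := p) (u := u) (v := w) (s := q) (t := r) ?_
    ⟨X1, hX1, fun i => ?_⟩ ⟨X2, hX2, fun i => ?_⟩ g1 g2
  · simp only [List.nodup_cons, List.mem_cons, List.not_mem_nil, or_false, not_or,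
      List.nodup_nil, not_false_eq_true, and_true]
    exact ⟨⟨npu, npw, npq, npr⟩, ⟨nuw, Ne.symm nqu, Ne.symm nru⟩, ⟨Ne.symm nqw, Ne.symm nrw⟩, nqr⟩
  · rw [k1]
    clear * -
    tauto
  · rw [k2]
    clear * -
    tauto

theorem three_of_out2 (h : Frame S C O Of) {F : ι → Bool} {l : List (ι × Bool)} (hS : S.Circ F l)
    (hc : S.Complete) (ho : Out2 C Of) : S.Three := by
  obtain ⟨p, q, r, u, w, ht, h1⟩ := ho
  obtain ⟨g1, g2⟩ := h.two_cov ht
  have hnd := ht.nd
  simp only [List.nodup_cons, List.mem_cons, List.not_mem_nil, or_false, not_or,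
    List.nodup_nil, not_false_eq_true, and_true] at hnd
  obtain ⟨⟨npq, npr, npu, npw⟩, ⟨nqr, nqu, nqw⟩, ⟨nru, nrw⟩, nuw⟩ := hnd
  by_contra hno
  obtain ⟨Z, hZ, za, zb, zc, hZ5⟩ : ∃ Z ∈ S.T, Z p = true ∧ Z q = true ∧ Z r = true ∧ dep Z = 5 := by
    by_contra hcon
    push Not at hcon
    exact hno (hS.three_of_triple p q r (fun X hX _ => g1 X hX) hcon)
  obtain ⟨zf, zg⟩ := g2 Z hZ za zb zc
  have hc5 : ({p, q, r, u, w} : Finset ι).card = 5 := by
    rw [card_insert_of_notMem, card_insert_of_notMem, card_insert_of_notMem, card_pair nuw]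
    · simp only [mem_insert, mem_singleton]
      tauto
    · simp only [mem_insert, mem_singleton]
      tauto
    · simp only [mem_insert, mem_singleton]
      tauto
  have hZm : ∀ i, Z i = true ↔ i = p ∨ i = q ∨ i = r ∨ i = u ∨ i = w := by
    have h1 : ({p, q, r, u, w} : Finset ι) = univ.filter (fun i => Z i = true) := by
      refine eq_of_subset_of_card_le (fun i hi => ?_) ?_
      · rw [mem_filter]
        refine ⟨mem_univ _, ?_⟩
        simp only [mem_insert, mem_singleton] at hi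
        rcases hi with rfl | rfl | rfl | rfl | rfl <;> assumption
      · rw [hc5]
        unfold dep at hZ5
        omega
    intro i
    have h2 : i ∈ univ.filter (fun i => Z i = true) ↔ i ∈ ({p, q, r, u, w} : Finset ι) := by
      rw [h1]
    rw [mem_filter] at h2
    simp only [mem_univ, true_and, mem_insert, mem_singleton] at h2
    exact h2
  obtain ⟨col, hcol⟩ := hS.split_of_pair hc {p, q, r} nuw
    (by simp only [mem_insert, mem_singleton]; tauto)
    (by simp only [mem_insert, mem_singleton]; tauto) hZ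
    (by
      intro i hi
      simp only [mem_insert, mem_singleton] at hi
      rw [hZm]
      tauto)
    (fun X hX hXi => by
      obtain ⟨H, hH, hHX⟩ := h.exists_cap hX
      have h3 := h1 H hH (fun i hi => by
        rw [h.inz hHX] at hi
        by_cases h4 : i ∈ ({p, q, r} : Finset ι)
        · simp only [mem_insert, mem_singleton] at h4
          clear * - h4
          tauto
        · have := hXi i h4 hi
          clear * - this
          tauto)
      rw [h.inz hHX, h.inz hHX] at h3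
      exact h3) {X | X ∈ S.T ∧ 5 ≤ dep X} (fun X hX => hX.1)
    (by
      intro X hX
      rcases g1 X hX.1 with h3 | h3 | h3
      · exact main_one_le_hit (by simp) h3
      · exact main_one_le_hit (by simp) h3
      · exact main_one_le_hit (by simp) h3)
    (by
      intro X hX
      by_cases hall : X p = true ∧ X q = true ∧ X r = true
      · exact Or.inr (g2 X hX.1 hall.1 hall.2.1 hall.2.2)
      · left
        have := main_hit_three hall
        have := hX.2
        omega)
  exact hno ⟨col, fun X hX h5 j => by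
    obtain ⟨i, hi, hXi⟩ := hcol X ⟨hX, h5⟩ j
    exact ⟨i, hXi, hi⟩⟩

end Frame

/-- from the picture `JShape` to the failing situation -/
theorem CapSys.JShape.fail {C : CapSys ι} {a b c f g x y : ι} (h : C.JTri a b c f g)
    (hs : C.JShape a b c f g x y) : Fail C a b c f g y x ∨ Fail C.mirror a b c f g x y := by
  have nxf : x ≠ f := hs.x_ne.2.2.2
  have nyf : y ≠ f := hs.y_ne.2.2.2
  obtain ⟨K, hK, hfK, hgK, hxK, hyK⟩ := hs.far
  have hnd : [a, b, c, f, g].Nodup := by
    simp only [List.nodup_cons, List.mem_cons, List.not_mem_nil, or_false, not_or,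
      List.nodup_nil, not_false_eq_true, and_true]
    exact ⟨⟨h.ab, h.ac, h.af, h.ag⟩, ⟨h.bc, h.bf, h.bg⟩, ⟨h.cf, h.cg⟩, h.fg⟩
  have hAg : ({a, g} : Finset ι) ∈ C.caps := by
    rw [pair_comm]
    exact h.z1
  by_cases h1 : C.lt x f
  · left
    have h2 : C.lt y f := by
      rcases CapSys.lt_total (C := C) nyf with h3 | h3
      · exact h3
      · exact (hs.toJStuck.hit h hK.1 hfK hxK hgK hyK h1 h3).elim
    exact
      { nd := hnd
        dep := h.depth
        cov := h.cov
        q := h.two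
        Ag := hAg
        hx := hs.hy
        hy := hs.hx
        yg := hs.xg
        gx := hs.gy
        H0 := ⟨_, hs.h0, fun i => by
          simp only [mem_insert, mem_singleton]
          clear * -
          tauto⟩
        xf := h2 }
  · right
    have h2 : C.lt f x := (CapSys.lt_total (C := C) nxf).resolve_left h1
    exact
      { nd := hnd
        dep := h.depth
        cov := h.cov
        q := h.two
        Ag := hAg
        hx := hs.hx
        hy := hs.hy
        yg := CapSys.mirror_lt.2 hs.gy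
        gx := CapSys.mirror_lt.2 hs.xg
        H0 := ⟨_, hs.h0, fun i => by
          simp only [mem_insert, mem_singleton]
          clear * -
          tauto⟩
        xf := CapSys.mirror_lt.2 h2 }

/-- the failing situation -/
theorem Sys.Circ.exists_fail {S : Sys ι} {F : ι → Bool} {l : List (ι × Bool)} (h : S.Circ F l)
    (hc : S.Complete) (hd : ∀ X ∈ S.T, 3 ≤ dep X) (hno : ¬ S.Three) {a b c f g : ι}
    (hab : a ≠ b) (hac : a ≠ c) (haf : a ≠ f) (hag : a ≠ g)
    (hbc : b ≠ c) (hbf : b ≠ f) (hbg : b ≠ g) (hcf : c ≠ f) (hcg : c ≠ g) (hfg : f ≠ g)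
    (hcov : ∀ X ∈ S.T, X a = true ∨ X b = true ∨ X c = true)
    (hT : ∀ X ∈ S.T, X a = true → X b = true → X c = true → X f = true ∧ X g = true) :
    ∃ (a' b' c' f' g' x y : ι) (O : ι → Bool) (C : CapSys ι),
      O ∈ S.T ∧ Frame S C O {b', c', f'} ∧ Fail C a' b' c' f' g' x y ∧
      ∃ K ∈ C.caps, Hvy {b', c', f'} K ∧ f' ∈ K ∧ g' ∉ K ∧ x ∉ K ∧ y ∉ K := by
  obtain ⟨a', b', c', f', g', -, -, O, hO, hOm, C, hC, hJ, x, y, hsh⟩ :=
    h.exists_shape hc hd hno hab hac haf hag hbc hbf hbg hcf hcg hfg hcov hT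
  have hc3 : ({b', c', f'} : Finset ι).card = 3 := by
    rw [card_insert_of_notMem, card_pair hJ.cf]
    rw [mem_insert, mem_singleton]
    have := hJ.bc
    have := hJ.bf
    tauto
  have hfr : Frame S C O {b', c', f'} := ⟨hC, hOm, hc3⟩
  obtain ⟨K, hK, hfK, hgK, hxK, hyK⟩ := hsh.far
  rcases hsh.fail hJ with h1 | h1
  · exact ⟨a', b', c', f', g', y, x, O, C, hO, hfr, h1, K, hK.1, hK.2, hfK, hgK, hyK, hxK⟩
  · exact ⟨a', b', c', f', g', x, y, O, C.mirror, hO, hfr.mirror, h1, K, hK.1, hK.2, hfK, hgK, hxK,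
      hyK⟩

end PHP
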