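import Mathlib
import Pool.Agent.PHP.CapEdge
import Pool.Agent.PHP.Q2Sys

/-!
# Adjacent triples (problem MP_1180db_co, k = 3)

`Sys.Circ.exists_sides`: at a cell `{b, u, v}` of a system with all cells of size at least three there are `s`, `t` such
that `{b, u, v, s}` and `{b, u, v, t}` are cells and `{b, s, t}` covers. `Frame.side`: the property `Side`.
-/

namespace PHP

open Finset

variable {ι : Type} [Fintype ι] [DecidableEq ι]

theorem Sys.Circ.exists_sides {S : Sys ι} {F : ι → Bool} {l : List (ι × Bool)} (h : S.Circ F l)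
    (hc : S.Complete) (hd : ∀ X ∈ S.T, 3 ≤ dep X) {b u v : ι} (hnd : [b, u, v].Nodup)
    {O : ι → Bool} (hO : O ∈ S.T) (hO' : ∀ i, O i = true ↔ i = b ∨ i = u ∨ i = v) :
    ∃ s t, [b, u, v, s, t].Nodup ∧
      (∃ X ∈ S.T, ∀ i, X i = true ↔ i = b ∨ i = u ∨ i = v ∨ i = s) ∧
      (∃ X ∈ S.T, ∀ i, X i = true ↔ i = b ∨ i = u ∨ i = v ∨ i = t) ∧
      (∀ X ∈ S.T, X b = true ∨ X s = true ∨ X t = true) := by
  classical
  obtain ⟨C, hC⟩ := h.exists_capSys hc ⟨b⟩ hO
  simp only [List.nodup_cons, List.mem_cons, List.not_mem_nil, or_false, not_or,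
    List.nodup_nil, and_true, not_false_eq_true] at hnd
  obtain ⟨⟨hbu, hbv⟩, huv⟩ := hnd
  set R : Finset ι := univ.filter (fun i => i ≠ b ∧ i ≠ u ∧ i ≠ v) with hR
  have hRm : ∀ i, i ∈ R ↔ i ≠ b ∧ i ≠ u ∧ i ≠ v := fun i => by
    rw [hR, mem_filter]
    simp
  have hO1 : O b = true := (hO' b).2 (Or.inl rfl)
  have hO2 : O u = true := (hO' u).2 (Or.inr (Or.inl rfl))
  have hO3 : O v = true := (hO' v).2 (Or.inr (Or.inr rfl))
  have hOS : ∀ i ∈ R, O i = false := by
    intro i hi
    rw [hRm] at hi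
    by_contra h3
    rcases (hO' i).1 (by simpa using h3) with h4 | h4 | h4
    · exact hi.1 h4
    · exact hi.2.1 h4
    · exact hi.2.2 h4
  -- a cell whose members are among two letters does not exist
  have hsmall : ∀ X ∈ S.T, ∀ a c : ι, (∀ i, X i = true → i = a ∨ i = c) → False := by
    intro X hX a c h1
    have h2 := hd X hX
    have h3 : univ.filter (fun i => X i = true) ⊆ {a, c} := by
      intro i hi
      rw [mem_filter] at hi
      rw [mem_insert, mem_singleton]
      exact h1 i hi.2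
    have h4 := card_le_card h3
    have h5 := card_le_two (a := a) (b := c)
    unfold dep at h2
    omega
  have hJ : ∀ H ∈ C.caps, b ∈ H → (H ∩ R).Nonempty := by
    intro H hH hbH
    obtain ⟨X, hX, hHX⟩ := (hC H).1 hH
    by_contra hemp
    refine hsmall X hX u v (fun i hi => ?_)
    by_contra h2
    push Not at h2
    by_cases hib : i = b
    · subst hib
      rw [hHX, hO1, hi] at hbH
      exact hbH rfl
    · have h3 : i ∈ R := (hRm i).2 ⟨hib, h2.1, h2.2⟩
      exact hemp ⟨i, mem_inter.2 ⟨(hHX i).2 (by rw [hOS i h3, hi]; simp), h3⟩⟩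
  -- hull letters of `R` are caps
  have hsing : ∀ p, C.Hull R p → {p} ∈ C.caps := by
    rintro p ⟨P, hP, hPR⟩
    have hpP : p ∈ P ∩ R := by rw [hPR]; exact mem_singleton_self p
    obtain ⟨r, hr, h1⟩ := CapSys.exists_single hP ⟨p, (mem_inter.1 hpP).1⟩
    have hrR : r ∈ R := by
      by_contra hrR
      obtain ⟨X, hX, hHX⟩ := (hC {r}).1 h1
      have h2 : ∀ i, i ≠ r → X i = O i := by
        intro i hi
        by_contra h3
        exact hi (mem_singleton.1 ((hHX i).2 h3))
      have h3 : X r ≠ O r := (hHX r).1 (mem_singleton_self r)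
      rw [hRm] at hrR
      have h4 : O r = true := by
        rw [hO']
        tauto
      have h5 : X r = false := by
        rw [h4] at h3
        simpa using h3
      have h6 : ∀ i, X i = true → (i = b ∨ i = u ∨ i = v) ∧ i ≠ r := by
        intro i hi
        have h7 : i ≠ r := by
          rintro rfl
          rw [h5] at hi
          exact absurd hi (by simp)
        rw [h2 i h7] at hi
        exact ⟨(hO' i).1 hi, h7⟩
      have h7 : r = b ∨ r = u ∨ r = v := (hO' r).1 h4
      rcases h7 with rfl | rfl | rfl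
      · exact hsmall X hX u v (fun i hi => by have := h6 i hi; tauto)
      · exact hsmall X hX b v (fun i hi => by have := h6 i hi; tauto)
      · exact hsmall X hX b u (fun i hi => by have := h6 i hi; tauto)
    have h2 : r ∈ P ∩ R := mem_inter.2 ⟨hr, hrR⟩
    rw [hPR, mem_singleton] at h2
    rwa [h2] at h1
  have hcell : ∀ p ∈ R, {p} ∈ C.caps →
      ∃ X ∈ S.T, ∀ i, X i = true ↔ i = b ∨ i = u ∨ i = v ∨ i = p := by
    intro p hp h1
    obtain ⟨X, hX, hHX⟩ := (hC {p}).1 h1
    refine ⟨X, hX, fun i => ?_⟩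
    by_cases hi : i = p
    · subst hi
      have h2 := (hHX i).1 (mem_singleton_self i)
      rw [hOS i hp] at h2
      constructor
      · intro _
        tauto
      · intro _
        simpa using h2
    · have h2 : X i = O i := by
        by_contra h3
        exact hi (mem_singleton.1 ((hHX i).2 h3))
      rw [h2, hO']
      tauto
  have hbR : b ∉ R := fun h1 => ((hRm b).1 h1).1 rfl
  obtain ⟨p, q, he⟩ := CapSys.exists_edge hbR hJ
  have hp := (hRm p).1 he.hullp.mem
  have hq := (hRm q).1 he.hullq.mem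
  refine ⟨p, q, ?_, hcell p he.hullp.mem (hsing p he.hullp),
    hcell q he.hullq.mem (hsing q he.hullq), ?_⟩
  · have h1 := CapSys.lt_ne he.pq
    simp only [List.nodup_cons, List.mem_cons, List.not_mem_nil, or_false, not_or,
      List.nodup_nil, and_true, not_false_eq_true]
    exact ⟨⟨hbu, hbv, hp.1.symm, hq.1.symm⟩, ⟨huv, hp.2.1.symm, hq.2.1.symm⟩,
      ⟨hp.2.2.symm, hq.2.2.symm⟩, h1⟩
  · intro X hX
    by_contra hcon
    push Not at hcon
    obtain ⟨h1, h2, h3⟩ := hcon
    have h4 : (univ.filter (fun i => X i ≠ O i)) ∈ C.caps := (hC _).2 ⟨X, hX, fun i => by simp⟩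
    have h5 : ∀ i, i ∈ univ.filter (fun i => X i ≠ O i) ↔ X i ≠ O i := fun i => by simp
    rcases he.hit _ h4 ((h5 b).2 (by rw [hO1]; exact h1)) with h6 | h6
    · rw [h5, hOS p he.hullp.mem] at h6
      exact h2 (by simpa using h6)
    · rw [h5, hOS q he.hullq.mem] at h6
      exact h3 (by simpa using h6)

/-- the members of a cell with three members, one of them given -/
theorem exists_three_members {X : ι → Bool} (h : dep X = 3) {b : ι} (hb : X b = true) :
    ∃ u v, [b, u, v].Nodup ∧ ∀ i, X i = true ↔ i = b ∨ i = u ∨ i = v := by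
  unfold dep at h
  have h1 : b ∈ univ.filter (fun i => X i = true) := mem_filter.2 ⟨mem_univ _, hb⟩
  have h2 : ((univ.filter (fun i => X i = true)).erase b).card = 2 := by
    rw [card_erase_of_mem h1, h]
  obtain ⟨u, v, huv, h3⟩ := card_eq_two.1 h2
  have h4 : ∀ i, (i ≠ b ∧ X i = true) ↔ i = u ∨ i = v := by
    intro i
    have h5 : i ∈ (univ.filter (fun i => X i = true)).erase b ↔ i ∈ ({u, v} : Finset ι) := by
      rw [h3]
    rw [mem_erase, mem_filter, mem_insert, mem_singleton] at h5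
    simpa using h5
  have hu := (h4 u).2 (Or.inl rfl)
  have hv := (h4 v).2 (Or.inr rfl)
  refine ⟨u, v, ?_, fun i => ?_⟩
  · simp only [List.nodup_cons, List.mem_cons, List.not_mem_nil, or_false, not_or,
      List.nodup_nil, and_true, not_false_eq_true]
    exact ⟨⟨hu.1.symm, hv.1.symm⟩, huv⟩
  · have h5 := h4 i
    by_cases hib : i = b
    · rw [hib]
      simp [hb]
    · have h6 : X i = true ↔ i = u ∨ i = v := by
        rw [← h5]
        exact ⟨fun h => ⟨hib, h⟩, fun h => h.2⟩
      rw [h6]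
      simp [hib]

theorem Frame.side {S : Sys ι} {C : CapSys ι} {O : ι → Bool} {Of : Finset ι}
    (hf : Frame S C O Of) {F : ι → Bool} {l : List (ι × Bool)} (h : S.Circ F l)
    (hc : S.Complete) (hd : ∀ X ∈ S.T, 3 ≤ dep X) : CapSys.Side C Of := by
  intro G hG hcard b hb
  obtain ⟨X, hX, hGX⟩ := (hf.caps G).1 hG
  have hdep : dep X = 3 := by
    have h1 := dep_cap hf.mem hGX
    have h2 := hf.card
    omega
  have hXb := (hf.inz hGX b).1 hb
  obtain ⟨u, v, hnd, hXm⟩ := exists_three_members hdep hXb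
  obtain ⟨s, t, hnd2, ⟨Y, hY, hYm⟩, ⟨Z, hZ, hZm⟩, hcov⟩ := h.exists_sides hc hd hnd hX hXm
  simp only [List.nodup_cons, List.mem_cons, List.not_mem_nil, or_false, not_or,
    List.nodup_nil, and_true, not_false_eq_true] at hnd2
  obtain ⟨⟨hbu, hbv, hbs, hbt⟩, ⟨huv, hus, hut⟩, ⟨hvs, hvt⟩, hst⟩ := hnd2
  have hs : X s ≠ true := by
    intro h1
    rcases (hXm s).1 h1 with h2 | h2 | h2
    · exact hbs h2.symm
    · exact hus h2.symm
    · exact hvs h2.symm
  have ht : X t ≠ true := by
    intro h1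
    rcases (hXm t).1 h1 with h2 | h2 | h2
    · exact hbt h2.symm
    · exact hut h2.symm
    · exact hvt h2.symm
  refine ⟨s, t, hst, fun h1 => hs ((hf.inz hGX s).1 h1), fun h1 => ht ((hf.inz hGX t).1 h1), ?_, ?_,
    ?_⟩
  · intro H hH
    obtain ⟨W, hW, hHW⟩ := (hf.caps H).1 hH
    rw [hf.inz hHW, hf.inz hHW, hf.inz hHW]
    exact hcov W hW
  · obtain ⟨H, hH, hHY⟩ := hf.exists_cap hY
    refine ⟨H, hH, fun i => ?_⟩
    rw [hf.inz hHY, hf.inz hGX, hYm, hXm]
    clear * -
    tauto
  · obtain ⟨H, hH, hHZ⟩ := hf.exists_cap hZ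
    refine ⟨H, hH, fun i => ?_⟩
    rw [hf.inz hHZ, hf.inz hGX, hZm, hXm]
    clear * -
    tauto

end PHP
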