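import Mathlib
import Pool.Agent.PHP.Q2Out
import Pool.Agent.PHP.Q2Side

/-!
# THEOREM Q2 (problem MP_1180db_co, k = 3)

`Sys.Circ.three_of_two`: in a complete system with all cells of size at least three, let `{a, b, c}` be a covering triple
such that all cells with the members `a, b, c` have two further members `f, g` in common. Then three colours split all
cells with at least five members.
-/

namespace PHP

open Finset CapSys

variable {ι : Type} [Fintype ι] [DecidableEq ι]

theorem Sys.Circ.three_of_two {S : Sys ι} {F : ι → Bool} {l : List (ι × Bool)} (h : S.Circ F l)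
    (hc : S.Complete) (hd : ∀ X ∈ S.T, 3 ≤ dep X) {a b c f g : ι}
    (hab : a ≠ b) (hac : a ≠ c) (haf : a ≠ f) (hag : a ≠ g)
    (hbc : b ≠ c) (hbf : b ≠ f) (hbg : b ≠ g) (hcf : c ≠ f) (hcg : c ≠ g) (hfg : f ≠ g)
    (hcov : ∀ X ∈ S.T, X a = true ∨ X b = true ∨ X c = true)
    (hT : ∀ X ∈ S.T, X a = true → X b = true → X c = true → X f = true ∧ X g = true) :
    S.Three := by
  by_contra hno
  obtain ⟨a', b', c', f', g', x, y, O, C, -, hfr, hfail, -⟩ :=
    h.exists_fail hc hd hno hab hac haf hag hbc hbf hbg hcf hcg hfg hcov hT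
  rcases hfail.out (hfr.free h hno) (hfr.side h hc hd) with h1 | h1
  · exact hno (hfr.three_of_out1 h hc hd h1)
  · exact hno (hfr.three_of_out2 h hc h1)

end PHP
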