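import Pool.Agent.PHP.RtwoB

/-!
# Two disjoint covering triples (problem MP_1180db_co, k = 3)

`Sys.three_of_D`: if `{a, b, c}` and `{a', b', c'}` are disjoint covering triples and every cell with at least five
members has a member outside both, then three colours split all these cells.
-/

namespace PHP

open Finset

variable {ι : Type} [Fintype ι] [DecidableEq ι]

theorem Sys.three_of_D {S : Sys ι} {a b c a' b' c' : ι}
    (hdis : ∀ i, (i = a ∨ i = b ∨ i = c) → (i = a' ∨ i = b' ∨ i = c') → False)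
    (hcov : ∀ X ∈ S.T, X a = true ∨ X b = true ∨ X c = true)
    (hcov' : ∀ X ∈ S.T, X a' = true ∨ X b' = true ∨ X c' = true)
    (hout : ∀ X ∈ S.T, 5 ≤ dep X → ∃ i, X i = true ∧ i ≠ a ∧ i ≠ b ∧ i ≠ c ∧ i ≠ a' ∧ i ≠ b' ∧
      i ≠ c') : S.Three := by
  classical
  refine ⟨fun i => if i = a ∨ i = b ∨ i = c then 0 else if i = a' ∨ i = b' ∨ i = c' then 1 else 2,
    fun X hX h5 j => ?_⟩
  fin_cases j
  · rcases hcov X hX with h1 | h1 | h1
    · exact ⟨a, h1, by simp⟩
    · exact ⟨b, h1, by simp⟩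
    · exact ⟨c, h1, by simp⟩
  · have key : ∀ i, (i = a' ∨ i = b' ∨ i = c') → ¬ (i = a ∨ i = b ∨ i = c) :=
      fun i h1 h2 => hdis i h2 h1
    rcases hcov' X hX with h1 | h1 | h1
    · refine ⟨a', h1, ?_⟩
      simp [key a' (Or.inl rfl)]
    · refine ⟨b', h1, ?_⟩
      simp [key b' (Or.inr (Or.inl rfl))]
    · refine ⟨c', h1, ?_⟩
      simp [key c' (Or.inr (Or.inr rfl))]
  · obtain ⟨i, h1, h2⟩ := hout X hX h5
    refine ⟨i, h1, ?_⟩
    simp [h2]

end PHP
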