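import Mathlib
import Pool.Agent.PHP.Q2Main
import Pool.Agent.PHP.RtwoD
import Pool.Agent.PHP.ExSys
import Pool.Agent.PHP.ExFour

/-!
# A system without three colours: no two lines through a triangle, no (D) pair (problem MP_1180db_co, k = 3)

`World.HQ`: no covering triple has two further lines through its triangle. `World.HND`: two disjoint covering triples
have a cell with at least five members inside their union. Both hold if there are no three colours.
-/

namespace PHP

open Finset

/-- no two further lines contain the triangle of a covering triple -/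
def World.HQ {ι : Type} (W : World ι) : Prop :=
  ∀ a b c f g, W.Cov a b c → f ≠ g → f ≠ a → f ≠ b → f ≠ c → g ≠ a → g ≠ b → g ≠ c →
    ¬ (W.vt a b f = true ∧ W.vt b c f = true ∧ W.vt a c f = true ∧ W.vt a b g = true ∧
      W.vt b c g = true ∧ W.vt a c g = true)

/-- there is no (D) pair -/
def World.HND {ι : Type} [Fintype ι] [DecidableEq ι] (W : World ι) : Prop :=
  ∀ a b c a' b' c', W.Cov a b c → W.Cov a' b' c' → a' ≠ a → a' ≠ b → a' ≠ c → b' ≠ a → b' ≠ b →
    b' ≠ c → c' ≠ a → c' ≠ b → c' ≠ c →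
    ∃ X ∈ W.T, 5 ≤ dep X ∧ ∀ i, X i = true → i = a ∨ i = b ∨ i = c ∨ i = a' ∨ i = b' ∨ i = c'

variable {ι : Type} [Fintype ι] [DecidableEq ι]

theorem Sys.Circ.world_HQ {S : Sys ι} {F : ι → Bool} {l : List (ι × Bool)} (h : S.Circ F l)
    (hc : S.Complete) (hd : ∀ X ∈ S.T, 3 ≤ dep X) (hno : ¬ S.Three) : (S.world hc).HQ := by
  intro a b c f g hcov nfg nfa nfb nfc nga ngb ngc hall
  obtain ⟨f1, f2, f3, g1, g2, g3⟩ := hall
  refine hno (h.three_of_two hc hd (a := a) (b := b) (c := c) (f := f) (g := g) hcov.1 hcov.2.2.1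
    nfa.symm nga.symm hcov.2.1 nfb.symm ngb.symm nfc.symm ngc.symm nfg ?_ ?_)
  · intro X hX
    exact hcov.covers (by rw [S.world_T hc]; exact hX)
  · intro X hX x1 x2 x3
    have hX' : X ∈ (S.world hc).T := by rw [S.world_T hc]; exact hX
    exact ⟨hcov.all_eq nfa nfb nfc f1 f2 f3 hX' x1 x2 x3,
      hcov.all_eq nga ngb ngc g1 g2 g3 hX' x1 x2 x3⟩

theorem Sys.world_HND {S : Sys ι} (hc : S.Complete) (hno : ¬ S.Three) : (S.world hc).HND := by
  intro a b c a' b' c' hcov hcov' n1 n2 n3 n4 n5 n6 n7 n8 n9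
  by_contra hcon
  push Not at hcon
  refine hno (S.three_of_D (a := a) (b := b) (c := c) (a' := a') (b' := b') (c' := c') ?_
    (fun X hX => hcov.covers (by rw [S.world_T hc]; exact hX))
    (fun X hX => hcov'.covers (by rw [S.world_T hc]; exact hX)) ?_)
  · rintro i h1 (rfl | rfl | rfl)
    · rcases h1 with h1 | h1 | h1
      · exact n1 h1
      · exact n2 h1
      · exact n3 h1
    · rcases h1 with h1 | h1 | h1
      · exact n4 h1
      · exact n5 h1
      · exact n6 h1
    · rcases h1 with h1 | h1 | h1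
      · exact n7 h1
      · exact n8 h1
      · exact n9 h1
  · intro X hX h5
    obtain ⟨i, hi, h6⟩ := hcon X (by rw [S.world_T hc]; exact hX) h5
    exact ⟨i, hi, h6⟩

end PHP
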