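import Mathlib
import Pool.Agent.PHP.CapDefs

/-!
# Three colours around a heptagon (problem MP_1180db_co)

`Hept C O`: the lines of `O` are hull letters, and each of them has exactly three successors and three predecessors
in `O`. Then the cells with at least five members are split by three colours.
-/

set_option linter.unusedVariables false
set_option linter.unusedSectionVars false

namespace PHP

open Finset

variable {ι : Type} [DecidableEq ι] {C : CapSys ι}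

namespace CapSys

theorem capG {H G : Finset ι} (hH : H ∈ C.caps) (hG : G ∈ C.caps) {a1 a3 a5 g g' y : ι}
    (h1 : a1 ∈ H) (h2 : a3 ∈ H) (h3 : g ∈ H) (h4 : g' ∈ H) (k1 : a3 ∈ G) (k2 : a5 ∈ G) (k3 : g' ∈ G)
    (k4 : y ∈ G) (m1 : a1 ∉ G) (m2 : g ∉ G) (m3 : a5 ∉ H) (m4 : y ∉ H) (l1 : C.lt a1 a3)
    (l2 : C.lt a3 a5) (l3 : C.lt a5 a1) (l4 : C.lt g' g) (l5 : C.lt y g') : False := by
  obtain ⟨c1, hc1, w1, -⟩ := C.cp hH C.empty_mem
  obtain ⟨c2, hc2, w2, -⟩ := C.cp hG C.empty_mem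
  obtain ⟨c0, hc0, w3, w4⟩ := C.cp hH hG
  have x1 := w1 a1 h1 (by simp)
  have x2 := w1 a3 h2 (by simp)
  have x3 := w1 g h3 (by simp)
  have x4 := w1 g' h4 (by simp)
  have y1 := w2 a3 k1 (by simp)
  have y2 := w2 a5 k2 (by simp)
  have y3 := w2 g' k3 (by simp)
  have y4 := w2 y k4 (by simp)
  have z1 := w3 a1 h1 m1
  have z2 := w3 g h3 m2
  have z3 := w4 a5 k2 m3
  have z4 := w4 y k4 m4
  have b1 := C.lt_ang a1
  have b2 := C.lt_ang a3
  have b3 := C.lt_ang a5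
  have b4 := C.lt_ang g
  have b5 := C.lt_ang g'
  have b6 := C.lt_ang y
  clear w1 w2 w3 w4
  unfold inHalf CapSys.lt at *
  omega

/-- a nonempty part of a cap has a last letter -/
theorem exists_last {H : Finset ι} (hH : H ∈ C.caps) {A : Finset ι} (hA : A ⊆ H)
    (hne : A.Nonempty) : ∃ p ∈ A, ∀ y ∈ A, y ≠ p → C.lt y p := by
  obtain ⟨c, hc, w, -⟩ := C.cp hH C.empty_mem
  obtain ⟨p, hp, hmax⟩ := exists_max_image A
    (fun i => if c ≤ C.ang i then C.ang i - c else C.ang i + 2 * C.n - c) hne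
  refine ⟨p, hp, fun y hy hyp => ?_⟩
  have h1 := hmax y hy
  have h2 := w y (hA hy) (by simp)
  have h3 := w p (hA hp) (by simp)
  have h4 := C.lt_ang y
  have h5 := C.lt_ang p
  have h6 := C.inj hyp
  unfold inHalf at h2 h3
  unfold CapSys.lt
  split_ifs at h1 <;> omega

theorem exists_first {H : Finset ι} (hH : H ∈ C.caps) {A : Finset ι} (hA : A ⊆ H)
    (hne : A.Nonempty) : ∃ p ∈ A, ∀ y ∈ A, y ≠ p → C.lt p y := by
  obtain ⟨c, hc, w, -⟩ := C.cp hH C.empty_mem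
  obtain ⟨p, hp, hmin⟩ := exists_min_image A
    (fun i => if c ≤ C.ang i then C.ang i - c else C.ang i + 2 * C.n - c) hne
  refine ⟨p, hp, fun y hy hyp => ?_⟩
  have h1 := hmin y hy
  have h2 := w y (hA hy) (by simp)
  have h3 := w p (hA hp) (by simp)
  have h4 := C.lt_ang y
  have h5 := C.lt_ang p
  have h6 := C.inj hyp
  unfold inHalf at h2 h3
  unfold CapSys.lt
  split_ifs at h1 <;> omega

open Classical in
/-- every letter of `O` is a hull letter with three successors and three predecessors in `O` -/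
structure Hept (C : CapSys ι) (O : Finset ι) : Prop where
  hull : ∀ s ∈ O, C.Hull O s
  succ : ∀ s ∈ O, (O.filter (fun x => C.lt s x)).card = 3
  pred : ∀ s ∈ O, (O.filter (fun x => C.lt x s)).card = 3

theorem Hept.not_succ {O : Finset ι} (h : Hept C O) {s a b c y : ι} (hs : s ∈ O) (ha : a ∈ O)
    (hb : b ∈ O) (hc : c ∈ O) (hab : a ≠ b) (hac : a ≠ c) (hbc : b ≠ c) (l1 : C.lt s a)
    (l2 : C.lt s b) (l3 : C.lt s c) (hy : y ∈ O) (hya : y ≠ a) (hyb : y ≠ b) (hyc : y ≠ c)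
    (hys : y ≠ s) : C.lt y s := by
  classical
  rcases C.lt_total hys with h1 | h1
  · exact h1
  exfalso
  have h2 : ({a, b, c, y} : Finset ι) ⊆ O.filter (fun x => C.lt s x) := by
    intro i hi
    rw [mem_filter]
    simp only [mem_insert, mem_singleton] at hi
    rcases hi with rfl | rfl | rfl | rfl
    · exact ⟨ha, l1⟩
    · exact ⟨hb, l2⟩
    · exact ⟨hc, l3⟩
    · exact ⟨hy, h1⟩
  have h3 := card_le_card h2
  have h4 : ({a, b, c, y} : Finset ι).card = 4 := by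
    rw [card_insert_of_notMem, card_insert_of_notMem, card_insert_of_notMem, card_singleton]
    · simpa using hyc.symm
    · simp [hbc, hyb.symm]
    · simp [hab, hac, hya.symm]
  have h5 := h.succ s hs
  rw [h4] at h3
  omega

theorem Hept.not_pred {O : Finset ι} (h : Hept C O) {s a b c y : ι} (hs : s ∈ O) (ha : a ∈ O)
    (hb : b ∈ O) (hc : c ∈ O) (hab : a ≠ b) (hac : a ≠ c) (hbc : b ≠ c) (l1 : C.lt a s)
    (l2 : C.lt b s) (l3 : C.lt c s) (hy : y ∈ O) (hya : y ≠ a) (hyb : y ≠ b) (hyc : y ≠ c)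
    (hys : y ≠ s) : C.lt s y := by
  classical
  rcases C.lt_total hys with h1 | h1
  swap
  · exact h1
  exfalso
  have h2 : ({a, b, c, y} : Finset ι) ⊆ O.filter (fun x => C.lt x s) := by
    intro i hi
    rw [mem_filter]
    simp only [mem_insert, mem_singleton] at hi
    rcases hi with rfl | rfl | rfl | rfl
    · exact ⟨ha, l1⟩
    · exact ⟨hb, l2⟩
    · exact ⟨hc, l3⟩
    · exact ⟨hy, h1⟩
  have h3 := card_le_card h2
  have h4 : ({a, b, c, y} : Finset ι).card = 4 := by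
    rw [card_insert_of_notMem, card_insert_of_notMem, card_insert_of_notMem, card_singleton]
    · simpa using hyc.symm
    · simp [hbc, hyb.symm]
    · simp [hab, hac, hya.symm]
  have h5 := h.pred s hs
  rw [h4] at h3
  omega

theorem sort_three {P : ι → Prop} {x y z : ι} (hx : P x) (hy : P y) (hz : P z) (hxy : x ≠ y)
    (hxz : x ≠ z) (hyz : y ≠ z)
    (htr : ∀ a b c, P a → P b → P c → C.lt a b → C.lt b c → C.lt a c) :
    ∃ a b c, P a ∧ P b ∧ P c ∧ C.lt a b ∧ C.lt b c ∧ C.lt a c := by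
  rcases C.lt_total hxy with h1 | h1 <;> rcases C.lt_total hxz with h2 | h2 <;>
    rcases C.lt_total hyz with h3 | h3
  · exact ⟨x, y, z, hx, hy, hz, h1, h3, h2⟩
  · exact ⟨x, z, y, hx, hz, hy, h2, h3, h1⟩
  · exact absurd (htr _ _ _ hx hy hz h1 h3) (lt_asymm h2)
  · exact ⟨z, x, y, hz, hx, hy, h2, h1, h3⟩
  · exact ⟨y, x, z, hy, hx, hz, h1, h2, h3⟩
  · exact absurd (htr _ _ _ hy hx hz h1 h2) (lt_asymm h3)
  · exact ⟨y, z, x, hy, hz, hx, h3, h2, h1⟩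
  · exact ⟨z, y, x, hz, hy, hx, h3, h1, h2⟩

/-- labels -/
theorem Hept.labels {O : Finset ι} (h : Hept C O) (hne : O.Nonempty) :
    ∃ a1 a2 a3 a4 a5 a6 a7, (a1 ∈ O ∧ a2 ∈ O ∧ a3 ∈ O ∧ a4 ∈ O ∧ a5 ∈ O ∧ a6 ∈ O ∧ a7 ∈ O) ∧
      (C.lt a1 a2 ∧ C.lt a1 a3 ∧ C.lt a1 a4) ∧ (C.lt a2 a3 ∧ C.lt a2 a4 ∧ C.lt a2 a5) ∧
      (C.lt a3 a4 ∧ C.lt a3 a5 ∧ C.lt a3 a6) ∧ (C.lt a4 a5 ∧ C.lt a4 a6 ∧ C.lt a4 a7) ∧
      (C.lt a5 a6 ∧ C.lt a5 a7 ∧ C.lt a5 a1) ∧ (C.lt a6 a7 ∧ C.lt a6 a1 ∧ C.lt a6 a2) ∧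
      (C.lt a7 a1 ∧ C.lt a7 a2 ∧ C.lt a7 a3) ∧ O.card = 7 := by
  classical
  obtain ⟨s, hs⟩ := hne
  obtain ⟨x, y, z, hxy, hxz, hyz, hxyz⟩ := card_eq_three.1 (h.succ s hs)
  obtain ⟨x', y', z', hxy', hxz', hyz', hxyz'⟩ := card_eq_three.1 (h.pred s hs)
  have m1 : ∀ w ∈ ({x, y, z} : Finset ι), w ∈ O ∧ C.lt s w := by
    intro w hw
    rw [← hxyz, mem_filter] at hw
    exact hw
  have m2 : ∀ w ∈ ({x', y', z'} : Finset ι), w ∈ O ∧ C.lt w s := by
    intro w hw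
    rw [← hxyz', mem_filter] at hw
    exact hw
  obtain ⟨a1, a2, a3, p1, p2, p3, q12, q23, q13⟩ := sort_three (C := C)
    (P := fun w => w ∈ O ∧ C.lt s w) (m1 x (by simp)) (m1 y (by simp)) (m1 z (by simp)) hxy hxz hyz
    (fun a b c ha hb hc h1 h2 => lt_out ha.2 hb.2 hc.2 h1 h2)
  obtain ⟨a4, a5, a6, p4, p5, p6, q45, q56, q46⟩ := sort_three (C := C)
    (P := fun w => w ∈ O ∧ C.lt w s) (m2 x' (by simp)) (m2 y' (by simp)) (m2 z' (by simp)) hxy'
    hxz' hyz' (fun a b c ha hb hc h1 h2 => lt_in ha.2 hb.2 hc.2 h1 h2)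
  -- distinctness
  have ne : ∀ {u v : ι}, C.lt s u → C.lt v s → u ≠ v := by
    rintro u v h1 h2 rfl
    exact lt_asymm h1 h2
  have n14 := ne p1.2 p4.2
  have n15 := ne p1.2 p5.2
  have n16 := ne p1.2 p6.2
  have n24 := ne p2.2 p4.2
  have n25 := ne p2.2 p5.2
  have n26 := ne p2.2 p6.2
  have n34 := ne p3.2 p4.2
  have n35 := ne p3.2 p5.2
  have n36 := ne p3.2 p6.2
  have d12 := lt_ne q12
  have d13 := lt_ne q13
  have d23 := lt_ne q23
  have d45 := lt_ne q45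
  have d46 := lt_ne q46
  have d56 := lt_ne q56
  have s1 := lt_ne p1.2
  have s2 := lt_ne p2.2
  have s3 := lt_ne p3.2
  have s4 := lt_ne p4.2
  have s5 := lt_ne p5.2
  have s6 := lt_ne p6.2
  -- successors of `a3`
  have e34 := h.not_pred p3.1 p1.1 p2.1 hs d12 s1.symm s2.symm q13 q23 p3.2 p4.1 n14.symm n24.symm
    s4 n34.symm
  have e35 := h.not_pred p3.1 p1.1 p2.1 hs d12 s1.symm s2.symm q13 q23 p3.2 p5.1 n15.symm n25.symm
    s5 n35.symm
  have e36 := h.not_pred p3.1 p1.1 p2.1 hs d12 s1.symm s2.symm q13 q23 p3.2 p6.1 n16.symm n26.symm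
    s6 n36.symm
  -- successors of `a4` are `a5, a6, s`
  have e14 := h.not_succ p4.1 p5.1 p6.1 hs d56 s5 s6 q45 q46 p4.2 p1.1 n15 n16 s1.symm n14
  have e24 := h.not_succ p4.1 p5.1 p6.1 hs d56 s5 s6 q45 q46 p4.2 p2.1 n25 n26 s2.symm n24
  -- successors of `a1` are `a2, a3, a4`
  have e51 := h.not_succ p1.1 p2.1 p3.1 p4.1 d23 n24 n34 q12 q13 e14 p5.1 n25.symm n35.symm d45.symm
    n15.symm
  have e61 := h.not_succ p1.1 p2.1 p3.1 p4.1 d23 n24 n34 q12 q13 e14 p6.1 n26.symm n36.symm d46.symm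
    n16.symm
  -- successors of `a5` are `a6, s, a1`
  have e25 := h.not_succ p5.1 p6.1 hs p1.1 s6 n16.symm s1 q56 p5.2 e51 p2.1 n26 s2.symm
    d12.symm n25
  -- successors of `a2` are `a3, a4, a5`
  have e62 := h.not_succ p2.1 p3.1 p4.1 p5.1 n34 n35 d45 q23 e24 e25 p6.1 n36.symm d46.symm
    d56.symm n26.symm
  refine ⟨a1, a2, a3, a4, a5, a6, s, ⟨p1.1, p2.1, p3.1, p4.1, p5.1, p6.1, hs⟩, ⟨q12, q13, e14⟩,
    ⟨q23, e24, e25⟩, ⟨e34, e35, e36⟩, ⟨q45, q46, p4.2⟩, ⟨q56, p5.2, e51⟩, ⟨p6.2, e61, e62⟩,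
    ⟨p1.2, p2.2, p3.2⟩, ?_⟩
  have h1 : O = insert s (O.filter (fun x => C.lt s x) ∪ O.filter (fun x => C.lt x s)) := by
    ext w
    rw [mem_insert, mem_union, mem_filter, mem_filter]
    constructor
    · intro hw
      by_cases hws : w = s
      · exact Or.inl hws
      · rcases C.lt_total hws with h2 | h2
        · exact Or.inr (Or.inr ⟨hw, h2⟩)
        · exact Or.inr (Or.inl ⟨hw, h2⟩)
    · rintro (rfl | h2 | h2)
      · exact hs
      · exact h2.1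
      · exact h2.1
  rw [h1, card_insert_of_notMem, card_union_of_disjoint, h.succ s hs, h.pred s hs]
  · rw [disjoint_left]
    intro w hw hw'
    rw [mem_filter] at hw hw'
    exact lt_asymm hw.2 hw'.2
  · rw [mem_union, mem_filter, mem_filter]
    rintro (h2 | h2)
    · exact lt_irrefl h2.2
    · exact lt_irrefl h2.2

/-- the members of the cell with the cap `H` are `O \ H` and `H \ O` -/
theorem Hept.colour {O : Finset ι} (h : Hept C O) (hne : O.Nonempty) :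
    ∃ c : ι → Fin 3, ∀ H ∈ C.caps, 5 ≤ (O \ H).card + (H \ O).card →
      ∀ j, ∃ i, c i = j ∧ ((i ∈ O ∧ i ∉ H) ∨ (i ∉ O ∧ i ∈ H)) := by
  classical
  obtain ⟨a1, a2, a3, a4, a5, a6, a7, ⟨m1, m2, m3, m4, m5, m6, m7⟩, ⟨l12, l13, l14⟩,
    ⟨l23, l24, l25⟩, ⟨l34, l35, l36⟩, ⟨l45, l46, l47⟩, ⟨l56, l57, l51⟩, ⟨l67, l61, l62⟩,
    ⟨l71, l72, l73⟩, hcard⟩ := h.labels hne
  set K : ι → Prop := fun p => p ∉ O ∧ ∃ H ∈ C.caps, a3 ∈ H ∧ a5 ∈ H ∧ a1 ∉ H ∧ p ∈ H ∧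
    (∃ y ∈ H \ O, y ≠ p) ∧ ∀ y ∈ H \ O, y ≠ p → C.lt y p with hK
  set c : ι → Fin 3 := fun i => if i = a1 ∨ i = a4 then 0 else if i = a2 ∨ i = a5 then 1 else
    if i ∈ O then 2 else if K i then 1 else 0 with hc
  have c1 : c a1 = 0 := by simp [hc]
  have c4 : c a4 = 0 := by simp [hc]
  have c2 : c a2 = 1 := by
    have e1 := (lt_ne l12).symm
    have e2 := lt_ne l24
    simp [hc, e1, e2]
  have c5 : c a5 = 1 := by
    have e1 := lt_ne l51
    have e2 := (lt_ne l45).symm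
    simp [hc, e1, e2]
  have c3 : c a3 = 2 := by
    have e1 := (lt_ne l13).symm
    have e2 := lt_ne l34
    have e3 := (lt_ne l23).symm
    have e4 := lt_ne l35
    simp [hc, e1, e2, e3, e4, m3]
  have c6 : c a6 = 2 := by
    have e1 := lt_ne l61
    have e2 := (lt_ne l46).symm
    have e3 := lt_ne l62
    have e4 := (lt_ne l56).symm
    simp [hc, e1, e2, e3, e4, m6]
  have c7 : c a7 = 2 := by
    have e1 := lt_ne l71
    have e2 := (lt_ne l47).symm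
    have e3 := lt_ne l72
    have e4 := (lt_ne l57).symm
    simp [hc, e1, e2, e3, e4, m7]
  have cU : ∀ i, i ∉ O → (K i → c i = 1) ∧ (¬ K i → c i = 0) := by
    intro i hi
    have e1 : i ≠ a1 := fun h => hi (h ▸ m1)
    have e2 : i ≠ a4 := fun h => hi (h ▸ m4)
    have e3 : i ≠ a2 := fun h => hi (h ▸ m2)
    have e4 : i ≠ a5 := fun h => hi (h ▸ m5)
    constructor
    · intro hKi
      simp [hc, e1, e2, e3, e4, hi, hKi]
    · intro hKi
      simp [hc, e1, e2, e3, e4, hi, hKi]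
  refine ⟨c, ?_⟩
  intro H hH hdep j
  -- at least two letters outside `O` if four letters of `O` are missing
  have two : ∀ p q r t : ι, p ∈ O → q ∈ O → r ∈ O → t ∈ O → p ∈ H → q ∈ H → r ∈ H → t ∈ H →
      p ≠ q → p ≠ r → p ≠ t → q ≠ r → q ≠ t → r ≠ t → 2 ≤ (H \ O).card := by
    intro p q r t h1 h2 h3 h4 h5 h6 h7 h8 h9 h10 h11 h12 h13 h14
    have k1 : ({p, q, r, t} : Finset ι) ⊆ O ∩ H := by
      intro i hi
      rw [mem_inter]
      simp only [mem_insert, mem_singleton] at hi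
      rcases hi with rfl | rfl | rfl | rfl
      · exact ⟨h1, h5⟩
      · exact ⟨h2, h6⟩
      · exact ⟨h3, h7⟩
      · exact ⟨h4, h8⟩
    have k2 := card_le_card k1
    have k3 : ({p, q, r, t} : Finset ι).card = 4 := by
      rw [card_insert_of_notMem, card_insert_of_notMem, card_insert_of_notMem, card_singleton]
      · simpa using h14
      · simp [h12, h13]
      · simp [h9, h10, h11]
    have k4 := card_sdiff_add_card_inter O H
    omega
  have hj : j = 0 ∨ j = 1 ∨ j = 2 := by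
    fin_cases j <;> simp
  rcases hj with rfl | rfl | rfl
  · -- the colour of `a1, a4`
    by_cases h1 : a1 ∈ H
    swap
    · exact ⟨a1, c1, Or.inl ⟨m1, h1⟩⟩
    by_cases h4 : a4 ∈ H
    swap
    · exact ⟨a4, c4, Or.inl ⟨m4, h4⟩⟩
    have h2 : a2 ∈ H := (h.hull a2 m2).between hH h1 h4 m1 m4 l12 l24 l14
    have h3 : a3 ∈ H := (h.hull a3 m3).between hH h1 h4 m1 m4 l13 l34 l14
    have h5 : a5 ∉ H := fun h5 => lt_asymm l51 (CapSys.trans hH h1 h4 h5 l14 l45)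
    have hU := two a1 a2 a3 a4 m1 m2 m3 m4 h1 h2 h3 h4 (lt_ne l12) (lt_ne l13) (lt_ne l14)
      (lt_ne l23) (lt_ne l24) (lt_ne l34)
    obtain ⟨g', hg', hmin⟩ := exists_first hH (A := H \ O) sdiff_subset (card_pos.1 (by omega))
    obtain ⟨g, hg, hgg⟩ := exists_mem_ne (s := H \ O) (by omega) g'
    have hg'2 := mem_sdiff.1 hg'
    have hg2 := mem_sdiff.1 hg
    refine ⟨g', (cU g' hg'2.2).2 ?_, Or.inr ⟨hg'2.2, hg'2.1⟩⟩
    rintro ⟨-, G, hG, k3, k5, k1, kg, ⟨y, hy, hyg⟩, kmax⟩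
    have l1 := hmin g hg hgg
    have l2 := kmax y hy hyg
    have hy2 := mem_sdiff.1 hy
    refine capG hH hG h1 h3 hg2.1 hg'2.1 k3 k5 kg hy2.1 k1 ?_ h5 ?_ l13 l35 l51 l1 l2
    · intro hgG
      exact lt_asymm l1 (kmax g (mem_sdiff.2 ⟨hgG, hg2.2⟩) hgg)
    · intro hyH
      exact lt_asymm l2 (hmin y (mem_sdiff.2 ⟨hyH, hy2.2⟩) hyg)
  · by_cases h2 : a2 ∈ H
    swap
    · exact ⟨a2, c2, Or.inl ⟨m2, h2⟩⟩
    by_cases h5 : a5 ∈ H
    swap
    · exact ⟨a5, c5, Or.inl ⟨m5, h5⟩⟩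
    have h3 : a3 ∈ H := (h.hull a3 m3).between hH h2 h5 m2 m5 l23 l35 l25
    have h4 : a4 ∈ H := (h.hull a4 m4).between hH h2 h5 m2 m5 l24 l45 l25
    have h1 : a1 ∉ H := fun h1 => lt_asymm l12 (CapSys.trans hH h2 h5 h1 l25 l51)
    have hU := two a2 a3 a4 a5 m2 m3 m4 m5 h2 h3 h4 h5 (lt_ne l23) (lt_ne l24) (lt_ne l25)
      (lt_ne l34) (lt_ne l35) (lt_ne l45)
    obtain ⟨p, hp, hmax⟩ := exists_last hH (A := H \ O) sdiff_subset (card_pos.1 (by omega))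
    obtain ⟨g, hg, hgg⟩ := exists_mem_ne (s := H \ O) (by omega) p
    have hp2 := mem_sdiff.1 hp
    refine ⟨p, (cU p hp2.2).1 ⟨hp2.2, H, hH, h3, h5, h1, hp2.1, ⟨g, hg, hgg⟩, hmax⟩,
      Or.inr ⟨hp2.2, hp2.1⟩⟩
  · by_cases h3 : a3 ∈ H
    swap
    · exact ⟨a3, c3, Or.inl ⟨m3, h3⟩⟩
    by_cases h6 : a6 ∈ H
    swap
    · exact ⟨a6, c6, Or.inl ⟨m6, h6⟩⟩
    refine ⟨a7, c7, Or.inl ⟨m7, fun h7 => ?_⟩⟩
    exact lt_asymm l73 (CapSys.trans hH h3 h6 h7 l36 l67)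

end CapSys

end PHP
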