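import Mathlib
import Pool.Agent.PHP.ExCore

/-!
# The core of a world in which no line contains the triangle of a covering triple (problem MP_1180db_co)

`Core W O`: all covering triples are in `O`, every line of `O` is in one, and the lines of `O` are exactly the lines
near any covering triple.
-/

set_option linter.unusedVariables false

namespace PHP
namespace World

open Finset

variable {ι : Type} {W : World ι}

/-- a line near a covering triple is in a covering triple with the same near lines -/
theorem NT.near_cov [Fintype ι] [DecidableEq ι] (hN : W.NT) {a b c x : ι} (h : W.Cov a b c)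
    (hx : W.Near a b c x) : ∃ u v, W.Cov x u v ∧ ∀ y, W.Near x u v y ↔ W.Near a b c y := by
  -- it is enough to find a covering triple through `x` which shares a line with `a, b, c`
  have share : ∀ s l r l' r' : ι, W.Cov s l r → W.Cov s l' r' → ∀ y, W.Near s l r y ↔
      W.Near s l' r' y := by
    intro s l r l' r' h1 h2 y
    obtain ⟨la, rho, hb⟩ := hN.exists_base h1
    rw [hb.near_iff hN h1, hb.near_iff hN h2]
  by_cases hxa : x = a
  · exact ⟨b, c, hxa ▸ h, fun y => by rw [hxa]⟩
  by_cases hxb : x = b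
  · refine ⟨a, c, hxb ▸ h.swap, fun y => ?_⟩
    rw [hxb]
    exact near_swap
  by_cases hxc : x = c
  · refine ⟨a, b, hxc ▸ h.rot.rot, fun y => ?_⟩
    rw [hxc, near_swap, near_swap']
  -- one corner is missed
  have cutcase : ∀ s l r : ι, W.Cov s l r → x ≠ s → x ≠ l → x ≠ r → W.vt l r x = false →
      W.vt s l x = true → W.vt s r x = true → (∀ y, W.Near s l r y ↔ W.Near a b c y) →
      ∃ u v, W.Cov x u v ∧ ∀ y, W.Near x u v y ↔ W.Near a b c y := by
    intro s l r h1 k1 k2 k3 k4 k5 k6 k7
    rcases h1.cut k1 k2 k3 k4 k5 k6 with ⟨-, h2⟩ | ⟨-, h2⟩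
    · refine ⟨s, r, h2.swap, fun y => ?_⟩
      rw [near_swap, share s x r l r h2 h1 y]
      exact k7 y
    · refine ⟨s, l, h2.rot.rot, fun y => ?_⟩
      rw [near_swap, near_swap', share s l x l r h2 h1 y]
      exact k7 y
  rcases hN.rule h hxa hxb hxc with h5 | h5 | h5 | h5
  · exfalso
    unfold Near at hx
    rw [h5.1, h5.2.1, h5.2.2] at hx
    simp [hxa, hxb, hxc] at hx
  · exact cutcase c a b h.rot.rot hxc hxa hxb h5.1 (by rw [W.vt_comm]; exact h5.2.2)
      (by rw [W.vt_comm]; exact h5.2.1) (fun y => by rw [near_swap, near_swap'])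
  · exact cutcase a b c h hxa hxb hxc h5.2.1 h5.1 h5.2.2 (fun y => Iff.rfl)
  · exact cutcase b a c h.swap hxb hxa hxc h5.2.2 (by rw [W.vt_comm]; exact h5.1) h5.2.1
      (fun y => near_swap)

/-- all covering triples have the same near lines -/
theorem NT.near_eq [Fintype ι] [DecidableEq ι] (hN : W.NT) {a b c a' b' c' : ι}
    (h : W.Cov a b c) (h' : W.Cov a' b' c') (y : ι) : W.Near a b c y ↔ W.Near a' b' c' y := by
  classical
  have share : ∀ s l r l' r' : ι, W.Cov s l r → W.Cov s l' r' → ∀ y, W.Near s l r y ↔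
      W.Near s l' r' y := by
    intro s l r l' r' h1 h2 y
    obtain ⟨la, rho, hb⟩ := hN.exists_base h1
    rw [hb.near_iff hN h1, hb.near_iff hN h2]
  -- some line of the second triple is near the first
  have key : ∃ x, (x = a' ∨ x = b' ∨ x = c') ∧ W.Near a b c x := by
    set X : ι → Bool := fun k => if k = a then false else if k = b then false else W.vt a b k with hX
    have hXT : X ∈ W.T := W.vertex h.1 X (by intro k hk1 hk2; simp [hX, hk1, hk2])
    have hnear : ∀ x, X x = true → W.Near a b c x := by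
      intro x hx
      by_cases hxa : x = a
      · exact Or.inl hxa
      by_cases hxb : x = b
      · exact Or.inr (Or.inl hxb)
      right; right; right; left
      simpa [hX, hxa, hxb] using hx
    rcases h'.covers hXT with h1 | h1 | h1
    · exact ⟨a', Or.inl rfl, hnear a' h1⟩
    · exact ⟨b', Or.inr (Or.inl rfl), hnear b' h1⟩
    · exact ⟨c', Or.inr (Or.inr rfl), hnear c' h1⟩
  obtain ⟨x, hx, hxn⟩ := key
  obtain ⟨u, v, h1, h2⟩ := hN.near_cov h hxn
  rw [← h2 y]
  rcases hx with rfl | rfl | rfl
  · exact share _ _ _ _ _ h1 h' y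
  · rw [share _ _ _ _ _ h1 h'.swap y, near_swap]
  · rw [share _ _ _ _ _ h1 h'.rot.rot y, near_swap, near_swap']

structure Core (W : World ι) (O : Finset ι) : Prop where
  nt : W.NT
  act : ∀ x ∈ O, ∃ a b, W.Cov x a b
  near : ∀ {a b c}, W.Cov a b c → ∀ x, x ∈ O ↔ W.Near a b c x

theorem Core.mirror {O : Finset ι} (h : W.Core O) : W.mirror.Core O := ⟨h.nt, h.act, h.near⟩

theorem NT.exists_core [Fintype ι] [DecidableEq ι] (hN : W.NT) {a b c : ι} (h : W.Cov a b c) :
    ∃ O : Finset ι, W.Core O ∧ a ∈ O := by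
  classical
  refine ⟨univ.filter (fun x => W.Near a b c x), ⟨hN, ?_, ?_⟩, ?_⟩
  · intro x hx
    rw [mem_filter] at hx
    obtain ⟨u, v, h1, -⟩ := hN.near_cov h hx.2
    exact ⟨u, v, h1⟩
  · intro a' b' c' h' x
    rw [mem_filter, ← hN.near_eq h h' x]
    simp
  · rw [mem_filter]
    exact ⟨mem_univ _, Or.inl rfl⟩

end World
end PHP
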