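import Mathlib
import Pool.Agent.PHP.ExOne

/-!
# Depth three: the order of the core lines on a core line (problem MP_1180db_co)
-/

set_option linter.unusedVariables false
set_option linter.unusedSectionVars false

namespace PHP
namespace World

open Finset

theorem lineG (ts tr tx : Bool) (ps pr px : ℤ) (h : ps ≠ pr ∧ ps ≠ px ∧ pr ≠ px)
    (g1 : sg tr ps pr = true) (g2 : sg ts pr ps = true) (g3 : sg tx ps px = false)
    (g4 : sg tx pr px = true) : tx = !tr := by
  unfold sg at *
  grind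

theorem lineH (ts tr tx : Bool) (ps pr px : ℤ) (h : ps ≠ pr ∧ ps ≠ px ∧ pr ≠ px)
    (g1 : sg tr ps pr = true) (g2 : sg ts pr ps = true) (g3 : sg tx ps px = true)
    (g4 : sg tx pr px = true) (g5 : tx = tr) : sg ts px ps = true := by
  unfold sg at *
  grind

variable {ι : Type} [Fintype ι] [DecidableEq ι] {W : World ι} {O : Finset ι}

/-- the core lines which are lefts of `s` -/
def lef (W : World ι) (O : Finset ι) (s : ι) : Finset ι :=
  O.filter (fun x => x ≠ s ∧ W.ty s x = true)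

/-- the core lines which are rights of `s` -/
def rig (W : World ι) (O : Finset ι) (s : ι) : Finset ι :=
  O.filter (fun x => x ≠ s ∧ W.ty s x = false)

theorem mem_lef {s x : ι} : x ∈ W.lef O s ↔ x ∈ O ∧ x ≠ s ∧ W.ty s x = true := by
  unfold lef
  rw [mem_filter]

theorem mem_rig {s x : ι} : x ∈ W.rig O s ↔ x ∈ O ∧ x ≠ s ∧ W.ty s x = false := by
  unfold rig
  rw [mem_filter]

theorem lef_mirror {s : ι} : W.mirror.lef O s = W.rig O s := by
  ext x
  rw [mem_lef, mem_rig]
  show x ∈ O ∧ x ≠ s ∧ (!(W.ty s x)) = true ↔ _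
  simp

theorem rig_mirror {s : ι} : W.mirror.rig O s = W.lef O s := by
  ext x
  rw [mem_lef, mem_rig]
  show x ∈ O ∧ x ≠ s ∧ (!(W.ty s x)) = false ↔ _
  simp

theorem Core.mem_left (hC : W.Core O) {s l r x : ι} (hb : W.Base s l r) (hx : x ≠ s)
    (ht : W.ty s x = true) : x ∈ O ↔ W.pos s r < W.pos s x := by
  rw [hC.near hb.cov, hb.near_iff hC.nt hb.cov]
  unfold From
  simp [hx, ht]

theorem Core.mem_right (hC : W.Core O) {s l r x : ι} (hb : W.Base s l r) (hx : x ≠ s)
    (ht : W.ty s x = false) : x ∈ O ↔ W.pos s x < W.pos s l := by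
  rw [hC.near hb.cov, hb.near_iff hC.nt hb.cov]
  unfold From
  simp [hx, ht]

theorem Core.base_mem (hC : W.Core O) {s l r : ι} (hb : W.Base s l r) : s ∈ O ∧ l ∈ O ∧ r ∈ O := by
  refine ⟨(hC.near hb.cov s).2 (Or.inl rfl), (hC.near hb.cov l).2 (Or.inr (Or.inl rfl)),
    (hC.near hb.cov r).2 (Or.inr (Or.inr (Or.inl rfl)))⟩

theorem Core.card_left (hC : W.Core O) (hd : ∀ X ∈ W.T, 3 ≤ dep X) {s l r : ι}
    (hb : W.Base s l r) : 3 ≤ (W.lef O s).card := by
  classical
  obtain ⟨hsl, hlr, hsr, g1, g2, g3⟩ := hb.cov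
  set X : ι → Bool := fun k => if k = s then false else if k = r then false else W.vt s r k with hX
  have hXT : X ∈ W.T := W.vertex hsr X (by intro k hk1 hk2; simp [hX, hk1, hk2])
  refine (hd X hXT).trans ?_
  unfold dep
  apply card_le_card
  intro x hx
  rw [mem_filter] at hx
  have h1 := hx.2
  have hxs : x ≠ s := by rintro rfl; simp [hX] at h1
  have hxr : x ≠ r := by rintro rfl; simp [hX] at h1
  have h2 : W.vt s r x = true := by simpa [hX, hxs, hxr] using h1
  cases ht : W.ty s x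
  · have h3 := (vt_right hsr.symm hxs (fun h => hxr h.symm) ht).1 h2
    have h4 := hb.first x hxs ht
    omega
  · have h3 := (vt_left hsr.symm hxs (fun h => hxr h.symm) ht).1 h2
    rw [mem_lef]
    exact ⟨(hC.mem_left hb hxs ht).2 h3, hxs, ht⟩

theorem Core.card_right (hC : W.Core O) (hd : ∀ X ∈ W.T, 3 ≤ dep X) {s l r : ι}
    (hb : W.Base s l r) : 3 ≤ (W.rig O s).card := by
  have := hC.mirror.card_left (W := W.mirror) hd hb.mirror
  rwa [lef_mirror] at this

/-- the rights which cover together with the last left -/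
def zr (W : World ι) (O : Finset ι) (s l : ι) : Finset ι :=
  O.filter (fun b => b ≠ s ∧ W.ty s b = false ∧ W.vt s l b = true ∧ W.vt l b s = true ∧
    W.vt s b l = true ∧ b ≠ l)

/-- the lefts which cover together with the first right -/
def zl (W : World ι) (O : Finset ι) (s r : ι) : Finset ι :=
  O.filter (fun b => b ≠ s ∧ W.ty s b = true ∧ W.vt s r b = true ∧ W.vt r b s = true ∧
    W.vt s b r = true ∧ b ≠ r)

theorem zr_mirror {s r : ι} : W.mirror.zr O s r = W.zl O s r := by
  ext x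
  unfold zr zl
  rw [mem_filter, mem_filter]
  show x ∈ O ∧ x ≠ s ∧ (!(W.ty s x)) = false ∧ W.vt s r x = true ∧ W.vt r x s = true ∧
    W.vt s x r = true ∧ x ≠ r ↔ _
  simp

theorem Base.mem_zr {s l r b : ι} (hb : W.Base s l r) : b ∈ W.zr O s l ↔
    b ∈ W.rig O s ∧ W.Cov s l b := by
  unfold zr Cov
  rw [mem_filter, mem_rig]
  have h1 := hb.cov.1
  constructor
  · rintro ⟨k0, k1, k2, k3, k4, k5, k6⟩
    exact ⟨⟨k0, k1, k2⟩, h1, k6.symm, k1.symm, k3, k4, k5⟩
  · rintro ⟨⟨k0, k1, k2⟩, -, k6, -, k3, k4, k5⟩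
    exact ⟨k0, k1, k2, k3, k4, k5, k6.symm⟩

theorem Base.mem_zl {s l r b : ι} (hb : W.Base s l r) : b ∈ W.zl O s r ↔
    b ∈ W.lef O s ∧ W.Cov s b r := by
  have h := hb.mirror.mem_zr (O := O) (b := b)
  rw [zr_mirror, rig_mirror] at h
  rw [h]
  constructor
  · rintro ⟨h1, h2⟩
    exact ⟨h1, Cov.swap' (W := W) h2⟩
  · rintro ⟨h1, h2⟩
    exact ⟨h1, Cov.swap' (W := W) h2⟩

theorem Core.card_zr (hC : W.Core O) (hd : ∀ X ∈ W.T, 3 ≤ dep X) {s l r : ι}
    (hb : W.Base s l r) : 3 ≤ (W.zr O s l).card := by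
  classical
  obtain ⟨hsl, hlr, hsr, g1, g2, g3⟩ := hb.cov
  have hc2 : W.Cov l s r := hb.cov.swap
  obtain ⟨l', r', hb'⟩ := hC.nt.exists_base hc2
  have hcard : 3 ≤ (O.filter (fun x => x ≠ l ∧ W.ty l x = W.ty l r)).card := by
    cases ht : W.ty l r
    · exact hC.card_right hd hb'
    · exact hC.card_left hd hb'
  refine hcard.trans (card_le_card ?_)
  intro x hx
  rw [mem_filter] at hx
  obtain ⟨hxO, hxl, hxt⟩ := hx
  rw [hb.mem_zr, mem_rig]
  have hts : W.ty l s = !(W.ty l r) := by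
    rcases hc2.types with h | h
    · rw [h.1, h.2.1]; rfl
    · rw [h.1, h.2.1]; rfl
  have hxs : x ≠ s := by
    rintro rfl
    rw [hts] at hxt
    cases h : W.ty l r <;> simp [h] at hxt
  by_cases hxr : x = r
  · rw [hxr]
    exact ⟨⟨(hC.base_mem hb).2.2, hsr.symm, hb.tr⟩, hb.cov⟩
  have hnear := (hC.near hb.cov x).1 hxO
  have hrule := hC.nt.rule hb.cov hxs hxl hxr
  -- the line `l`
  obtain ⟨a0, a1, a2, a3, a4, a5, a6⟩ :=
    W.line3 (s := l) hsl hlr.symm hxl hsr hxs.symm (fun h => hxr h.symm)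
  have f1 : W.vt l s r = true := by rw [W.vt_comm]; exact g1
  have f2 : W.vt l r s = true := g2
  have x3 : W.vt l r x = true := by
    rcases hrule with h5 | h5 | h5 | h5
    · exfalso
      unfold Near at hnear
      rw [h5.1, h5.2.1, h5.2.2] at hnear
      simp [hxs, hxl, hxr] at hnear
    · exact h5.2.1
    · exfalso
      -- contains both base corners
      cases ht : W.ty s x
      · have h6 := (vt_right hsr.symm hxs (fun h => hxr h.symm) ht).1 h5.2.2
        have h7 := hb.first x hxs ht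
        omega
      · have h6 := (vt_left hsl.symm hxs (fun h => hxl h.symm) ht).1 h5.1
        have h7 := hb.last x hxs ht
        omega
    · exact h5.2.1
  have x1 : W.vt s l x = true := by
    by_contra h6
    have h7 : W.vt l s x = false := by rw [W.vt_comm]; simpa using h6
    have := lineG _ _ _ _ _ _ a0 (a1 ▸ f1) (a2 ▸ f2) (a3 ▸ h7) (a5 ▸ x3)
    rw [hxt] at this
    cases h : W.ty l r <;> simp [h] at this
  have x2 : W.vt s r x = false := by
    rcases hrule with h5 | h5 | h5 | h5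
    · rw [x1] at h5; exact absurd h5.1 (by simp)
    · rw [x1] at h5; exact absurd h5.1 (by simp)
    · rw [x3] at h5; exact absurd h5.2.1 (by simp)
    · exact h5.2.2
  have hts' : W.ty s x = false := by
    by_contra ht
    have ht : W.ty s x = true := by simpa using ht
    have h6 := (vt_left hsl.symm hxs (fun h => hxl h.symm) ht).1 x1
    have h7 := hb.last x hxs ht
    omega
  have h8 := (vt_right hsl.symm hxs (fun h => hxl h.symm) hts').1 x1
  refine ⟨⟨hxO, hxs, hts'⟩, hsl, fun h => hxl h.symm, fun h => hxs h.symm, x1, ?_, ?_⟩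
  · rw [a4]
    exact lineH _ _ _ _ _ _ a0 (a1 ▸ f1) (a2 ▸ f2) (a3 ▸ (by rw [W.vt_comm]; exact x1))
      (a5 ▸ x3) hxt
  · exact (vt_left hxs hsl.symm hxl hb.tl).2 h8

theorem Core.card_zl (hC : W.Core O) (hd : ∀ X ∈ W.T, 3 ≤ dep X) {s l r : ι}
    (hb : W.Base s l r) : 3 ≤ (W.zl O s r).card := by
  have := hC.mirror.card_zr (W := W.mirror) hd hb.mirror
  rwa [zr_mirror] at this

/-- the rights of `zr` are before all core lefts -/
theorem Core.zr_before (hC : W.Core O) {s l r a b : ι} (hb : W.Base s l r) (h1 : b ∈ W.zr O s l)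
    (h2 : a ∈ W.lef O s) : W.pos s b < W.pos s a := by
  rw [hb.mem_zr] at h1
  obtain ⟨h1, h3⟩ := h1
  rw [mem_rig] at h1
  rw [mem_lef] at h2
  by_cases hal : a = l
  · rw [hal]
    rcases h3.types with h4 | h4
    · exact h4.2.2
    · rw [hb.tl] at h4
      exact absurd h4.1 (by simp)
  have hab : a ≠ b := by
    rintro rfl
    rw [h1.2.2] at h2
    exact absurd h2.2.2 (by simp)
  have hnear := (hC.near h3 a).1 h2.1
  have hsl := hb.cov.1
  have k1 : W.vt s l a = false := by
    have h5 := hb.last a h2.2.1 h2.2.2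
    have := (vt_left (W := W) hsl.symm h2.2.1 (fun h => hal h.symm) h2.2.2).not.2 (by omega)
    simpa using this
  have k2 : W.vt s b a = true := by
    rcases hC.nt.rule h3 h2.2.1 hal hab with h5 | h5 | h5 | h5
    · exfalso
      unfold Near at hnear
      rw [h5.1, h5.2.1, h5.2.2] at hnear
      simp [h2.2.1, hal, hab] at hnear
    · exact h5.2.2
    · exact h5.2.2
    · rw [k1] at h5
      exact absurd h5.1 (by simp)
  exact (vt_left h1.2.1 h2.2.1 hab.symm h2.2.2).1 k2

theorem Core.zl_after (hC : W.Core O) {s l r a b : ι} (hb : W.Base s l r) (h1 : a ∈ W.zl O s r)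
    (h2 : b ∈ W.rig O s) : W.pos s b < W.pos s a := by
  have h := hC.mirror.zr_before (W := W.mirror) (a := b) (b := a) hb.mirror
    (by rw [zr_mirror]; exact h1) (by rw [lef_mirror]; exact h2)
  have h' : - W.pos s a < - W.pos s b := h
  omega

end World
end PHP
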