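import Mathlib
import Pool.Agent.PHP.ExTwo

/-!
# Without good covering triples the core has seven lines (problem MP_1180db_co)
-/

set_option linter.unusedVariables false
set_option linter.unusedSectionVars false

namespace PHP
namespace World

open Finset

variable {ι : Type} [Fintype ι] [DecidableEq ι] {W : World ι} {O : Finset ι}

/-- (5a): `x` cuts the corner `c, u`, `y` cuts the corner `c, v` of the covering triple; if a cell of the triangle misses
both, then `y` does not contain the crossing of `c` and `x`. -/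
theorem NT.apart (hN : W.NT) {c u v x y : ι} (h : W.Cov c u v) (hxc : x ≠ c) (hxu : x ≠ u)
    (hxv : x ≠ v) (hyc : y ≠ c) (hyu : y ≠ u) (hyv : y ≠ v) (hxy : x ≠ y)
    (x1 : W.vt c u x = false) (x2 : W.vt c v x = true) (y1 : W.vt c v y = false)
    (y2 : W.vt c u y = true) {z : ι → Bool} (hz : z ∈ W.T) (hzc : z c = true) (hzu : z u = true)
    (hzv : z v = true) (hzx : z x = false) (hzy : z y = false) : W.vt c x y = false := by
  by_contra hcon
  have hcon : W.vt c x y = true := by simpa using hcon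
  obtain ⟨hcu, huv, hcv, g1, g2, g3⟩ := h
  -- the line `c`
  have key : W.vt c y x = true ∧ W.vt c x u = true ∧ W.vt c y u = true ∧ W.vt c x v = true ∧
      W.vt c y v = true := by
    have e1 := W.pos_ne hcu.symm hcv.symm huv
    have e2 := W.pos_ne hcu.symm hxc (fun h => hxu h.symm)
    have e3 := W.pos_ne hcu.symm hyc (fun h => hyu h.symm)
    have e4 := W.pos_ne hcv.symm hxc (fun h => hxv h.symm)
    have e5 := W.pos_ne hcv.symm hyc (fun h => hyv h.symm)
    have e6 := W.pos_ne hxc hyc hxy
    rw [W.vt_eq hcu.symm hcv.symm huv] at g1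
    rw [W.vt_eq hcv.symm hcu.symm huv.symm] at g3
    rw [W.vt_eq hcu.symm hxc (fun h => hxu h.symm)] at x1
    rw [W.vt_eq hcv.symm hxc (fun h => hxv h.symm)] at x2
    rw [W.vt_eq hcv.symm hyc (fun h => hyv h.symm)] at y1
    rw [W.vt_eq hcu.symm hyc (fun h => hyu h.symm)] at y2
    rw [W.vt_eq hxc hyc hxy] at hcon
    rw [W.vt_eq hyc hxc hxy.symm, W.vt_eq hxc hcu.symm hxu, W.vt_eq hyc hcu.symm hyu,
      W.vt_eq hxc hcv.symm hxv, W.vt_eq hyc hcv.symm hyv]
    clear hzc hzu hzv hzx hzy hz
    unfold sg at *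
    refine ⟨?_, ?_, ?_, ?_, ?_⟩ <;> grind
  obtain ⟨k1, k2, k3, k4, k5⟩ := key
  -- `c, x, y` cover
  have hcovxy : W.Cov c x y := by
    refine ⟨hxc.symm, hxy, hyc.symm, hcon, ?_, k1⟩
    have := W.miss hxc.symm hxy hyc.symm z hz
    rw [hzc, hzx, hzy, hcon, k1] at this
    simpa using this
  have key2 : ∀ w, w ≠ c → w ≠ x → w ≠ y → W.vt c x w = true → W.vt c y w = true → z w = true →
      False := by
    intro w hwc hwx hwy w1 w2 hzw
    have w3 : W.vt x y w = false := by
      rcases hN.rule hcovxy hwc hwx hwy with h5 | h5 | h5 | h5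
      · exact h5.2.1
      · rw [w1] at h5; exact absurd h5.1 (by simp)
      · exact h5.2.1
      · rw [w2] at h5; exact absurd h5.2.2 (by simp)
    obtain ⟨-, -, -, q1, q2, q3⟩ := hcovxy
    obtain ⟨lx0, lx1, lx2, lx3, lx4, lx5, lx6⟩ :=
      W.line3 (s := x) hxc.symm hxy.symm hwx hyc.symm hwc.symm hwy.symm
    obtain ⟨ly0, ly1, ly2, ly3, ly4, ly5, ly6⟩ :=
      W.line3 (s := y) hyc.symm hxy hwy hxc.symm hwc.symm hwx.symm
    have b1 : W.vt x c y = true := by rw [W.vt_comm]; exact q1
    have b2 : W.vt x c w = true := by rw [W.vt_comm]; exact w1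
    have b3 : W.vt y c x = true := by rw [W.vt_comm]; exact q3
    have b4 : W.vt y x c = true := by rw [W.vt_comm]; exact q2
    have b5 : W.vt y c w = true := by rw [W.vt_comm]; exact w2
    have b6 : W.vt y x w = false := by rw [W.vt_comm]; exact w3
    have ex := lineC _ _ _ _ _ _ lx0 (lx1 ▸ b1) (lx2 ▸ q2) (lx3 ▸ b2) (lx5 ▸ w3)
    have ey := lineC _ _ _ _ _ _ ly0 (ly1 ▸ b3) (ly2 ▸ b4) (ly3 ▸ b5) (ly5 ▸ b6)
    rw [← lx4, ← lx6] at ex
    rw [← ly4, ← ly6] at ey
    have := W.miss hxy hwy.symm hwx.symm z hz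
    rw [hzx, hzy, hzw, w3, ex.2, ey.2] at this
    simp at this
  exact key2 u hcu.symm (fun h => hxu h.symm) (fun h => hyu h.symm) k2 k3 hzu

/-- outside the core nothing meets the triangle of a covering triple -/
theorem Core.out (hC : W.Core O) {a b c m : ι} (h : W.Cov a b c) (hm : m ∉ O) {z : ι → Bool}
    (hz : z ∈ W.T) (ha : z a = true) (hb : z b = true) (hc : z c = true) : z m = false := by
  rw [hC.near h] at hm
  unfold Near at hm
  push Not at hm
  exact h.all_eq hm.1 hm.2.1 hm.2.2.1 (by simpa using hm.2.2.2.1) (by simpa using hm.2.2.2.2.1)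
    (by simpa using hm.2.2.2.2.2) hz ha hb hc

/-- (5b): a cell of the triangle of `c, u, v` which misses a cutter of the corner `c, u` and one of the corner `c, v`
but none of the corner `u, v` has at least seven members. -/
theorem Core.mixed (hC : W.Core O) (hd : ∀ X ∈ W.T, 3 ≤ dep X) {c u v x y : ι}
    (h : W.Cov c u v) (htu : W.ty c u = true) (hx : x ∈ W.lef O c) (hy : y ∈ W.rig O c)
    {z : ι → Bool} (hz : z ∈ W.T) (hzc : z c = true) (hzu : z u = true) (hzv : z v = true)
    (hzx : z x = false) (hzy : z y = false) (x2 : W.vt c v x = true) (y2 : W.vt c u y = true)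
    (hall : ∀ w ∈ O, w ≠ c → w ≠ u → w ≠ v → W.vt u v w = false → z w = true) : 7 ≤ dep z := by
  classical
  obtain ⟨l, r, hb⟩ := hC.nt.exists_base h
  rw [mem_lef] at hx
  rw [mem_rig] at hy
  obtain ⟨hcu, huv, hcv, g1, g2, g3⟩ := h
  have h : W.Cov c u v := ⟨hcu, huv, hcv, g1, g2, g3⟩
  have ht : W.ty c v = false ∧ W.pos c v < W.pos c u := by
    rcases h.types with h4 | h4
    · exact h4.2
    · rw [htu] at h4
      exact absurd h4.1 (by simp)
  have hxu : x ≠ u := by rintro rfl; rw [hzx] at hzu; exact absurd hzu (by simp)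
  have hxv : x ≠ v := by rintro rfl; rw [hzx] at hzv; exact absurd hzv (by simp)
  have hyu : y ≠ u := by rintro rfl; rw [hzy] at hzu; exact absurd hzu (by simp)
  have hyv : y ≠ v := by rintro rfl; rw [hzy] at hzv; exact absurd hzv (by simp)
  have px := (vt_left hcv.symm hx.2.1 (fun h => hxv h.symm) hx.2.2).1 x2
  have py := (vt_right hcu.symm hy.2.1 (fun h => hyu h.symm) hy.2.2).1 y2
  -- corners of a left or a right which is missed
  have near2 : ∀ w, w ∈ O → w ≠ c → w ≠ u → w ≠ v → z w = false →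
      W.vt u v w = true ∧ ((W.vt c u w = true ∧ W.vt c v w = false) ∨
        (W.vt c u w = false ∧ W.vt c v w = true)) := by
    intro w hw k1 k2 k3 k4
    have hnear := (hC.near h w).1 hw
    rcases hC.nt.rule h k1 k2 k3 with h5 | h5 | h5 | h5
    · exfalso
      unfold Near at hnear
      rw [h5.1, h5.2.1, h5.2.2] at hnear
      simp [k1, k2, k3] at hnear
    · exact ⟨h5.2.1, Or.inr ⟨h5.1, h5.2.2⟩⟩
    · have := hall w hw k1 k2 k3 h5.2.1
      rw [k4] at this
      exact absurd this (by simp)
    · exact ⟨h5.2.1, Or.inl ⟨h5.1, h5.2.2⟩⟩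
  have hxc := near2 x hx.1 hx.2.1 hxu hxv hzx
  have hyc := near2 y hy.1 hy.2.1 hyu hyv hzy
  have x1 : W.vt c u x = false := by
    rcases hxc.2 with h5 | h5
    · rw [x2] at h5; exact absurd h5.2 (by simp)
    · exact h5.1
  have y1 : W.vt c v y = false := by
    rcases hyc.2 with h5 | h5
    · exact h5.2
    · rw [y2] at h5; exact absurd h5.1 (by simp)
  -- all lefts of `zl` are in `z`
  have hL : ∀ a ∈ W.zl O c r, z a = true := by
    intro a ha
    by_contra hza
    have hza : z a = false := by simpa using hza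
    have ha2 := ha
    rw [hb.mem_zl, mem_lef] at ha2
    have hau : a ≠ u := by rintro rfl; rw [hza] at hzu; exact absurd hzu (by simp)
    have hav : a ≠ v := by rintro rfl; rw [hza] at hzv; exact absurd hzv (by simp)
    have hay : a ≠ y := by
      rintro rfl
      rw [ha2.1.2.2] at hy
      exact absurd hy.2.2 (by simp)
    have hpos := hC.zl_after hb ha (mem_rig.2 hy)
    have h6 := near2 a ha2.1.1 ha2.1.2.1 hau hav hza
    rcases h6.2 with h7 | h7
    · have q1 := (vt_left hcu.symm ha2.1.2.1 (fun h => hau h.symm) ha2.1.2.2).1 h7.1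
      have q2 : W.vt c v a = true :=
        (vt_left hcv.symm ha2.1.2.1 (fun h => hav h.symm) ha2.1.2.2).2 (by omega)
      rw [q2] at h7
      exact absurd h7.2 (by simp)
    · have h8 := hC.nt.apart h ha2.1.2.1 hau hav hy.2.1 hyu hyv hay h7.1 h7.2 y1 y2 hz hzc hzu hzv
        hza hzy
      have h9 := (vt_right (W := W) ha2.1.2.1 hy.2.1 hay hy.2.2).2 hpos
      rw [h8] at h9
      exact absurd h9 (by simp)
  have hR : ∀ a ∈ W.zr O c l, z a = true := by
    intro a ha
    by_contra hza
    have hza : z a = false := by simpa using hza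
    have ha2 := ha
    rw [hb.mem_zr, mem_rig] at ha2
    have hau : a ≠ u := by rintro rfl; rw [hza] at hzu; exact absurd hzu (by simp)
    have hav : a ≠ v := by rintro rfl; rw [hza] at hzv; exact absurd hzv (by simp)
    have hax : x ≠ a := by
      rintro rfl
      rw [ha2.1.2.2] at hx
      exact absurd hx.2.2 (by simp)
    have hpos := hC.zr_before hb ha (mem_lef.2 hx)
    have h6 := near2 a ha2.1.1 ha2.1.2.1 hau hav hza
    rcases h6.2 with h7 | h7
    · have h8 := hC.nt.apart h hx.2.1 hxu hxv ha2.1.2.1 hau hav hax x1 x2 h7.2 h7.1 hz hzc hzu hzv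
        hzx hza
      have h9 := (vt_right (W := W) hx.2.1 ha2.1.2.1 hax ha2.1.2.2).2 hpos
      rw [h8] at h9
      exact absurd h9 (by simp)
    · have q1 := (vt_right hcv.symm ha2.1.2.1 (fun h => hav h.symm) ha2.1.2.2).1 h7.2
      have q2 : W.vt c u a = true :=
        (vt_right hcu.symm ha2.1.2.1 (fun h => hau h.symm) ha2.1.2.2).2 (by omega)
      rw [q2] at h7
      exact absurd h7.1 (by simp)
  -- count
  have c1 := hC.card_zr hd hb
  have c2 := hC.card_zl hd hb
  have hdisj : Disjoint (W.zl O c r) (W.zr O c l) := by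
    rw [disjoint_left]
    intro a ha ha'
    rw [hb.mem_zl, mem_lef] at ha
    rw [hb.mem_zr, mem_rig] at ha'
    rw [ha.1.2.2] at ha'
    exact absurd ha'.1.2.2 (by simp)
  have hcn : c ∉ W.zl O c r ∪ W.zr O c l := by
    intro hh
    rcases mem_union.1 hh with hh | hh
    · rw [hb.mem_zl, mem_lef] at hh
      exact hh.1.2.1 rfl
    · rw [hb.mem_zr, mem_rig] at hh
      exact hh.1.2.1 rfl
  have hsub : insert c (W.zl O c r ∪ W.zr O c l) ⊆ univ.filter (fun i => z i = true) := by
    intro i hi
    rw [mem_filter]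
    refine ⟨mem_univ _, ?_⟩
    rcases mem_insert.1 hi with rfl | hi
    · exact hzc
    rcases mem_union.1 hi with hi | hi
    · exact hL i hi
    · exact hR i hi
  have := card_le_card hsub
  rw [card_insert_of_notMem hcn, card_union_of_disjoint hdisj] at this
  unfold dep
  omega

end World
end PHP
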