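import Mathlib
import Pool.Agent.PHP.ExThree

/-!
# A core line has at most three core rights (problem MP_1180db_co)

`W.Free`: the triangle of every covering triple has a cell with exactly five members.
-/

set_option linter.unusedVariables false
set_option linter.unusedSectionVars false

namespace PHP
namespace World

open Finset

theorem lineI (tu tv tx : Bool) (pu pv px : ℤ) (h : pu ≠ pv ∧ pu ≠ px ∧ pv ≠ px)
    (g1 : sg tv pu pv = true) (g2 : sg tu pv pu = true) (g3 : sg tx pu px = false)
    (g4 : sg tx pv px = true) : tx = tu := by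
  unfold sg at *
  grind

variable {ι : Type} [Fintype ι] [DecidableEq ι] {W : World ι} {O : Finset ι}

/-- the triangle of every covering triple has a cell with exactly five members -/
def Free (W : World ι) : Prop := ∀ a b c, W.Cov a b c → ∃ X ∈ W.T, X a = true ∧ X b = true ∧
  X c = true ∧ dep X = 5

theorem six_le_dep {z : ι → Bool} {A : Finset ι} {p q r : ι} (hA : 3 ≤ A.card) (hp : p ∉ A)
    (hq : q ∉ A) (hr : r ∉ A) (hpq : p ≠ q) (hpr : p ≠ r) (hqr : q ≠ r) (hzp : z p = true)
    (hzq : z q = true) (hzr : z r = true) (hz : ∀ a ∈ A, z a = true) : 6 ≤ dep z := by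
  classical
  have hsub : insert p (insert q (insert r A)) ⊆ univ.filter (fun i => z i = true) := by
    intro i hi
    rw [mem_filter]
    refine ⟨mem_univ _, ?_⟩
    rcases mem_insert.1 hi with rfl | hi
    · exact hzp
    rcases mem_insert.1 hi with rfl | hi
    · exact hzq
    rcases mem_insert.1 hi with rfl | hi
    · exact hzr
    exact hz i hi
  have := card_le_card hsub
  rw [card_insert_of_notMem (by simp [hpq, hpr, hp]), card_insert_of_notMem (by simp [hqr, hq]),
    card_insert_of_notMem hr] at this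
  unfold dep
  omega

theorem Core.card_rig_le (hC : W.Core O) (hd : ∀ X ∈ W.T, 3 ≤ dep X) (hf : W.Free) {s l r : ι}
    (hb : W.Base s l r) : (W.rig O s).card ≤ 3 := by
  classical
  by_contra hcard
  rw [not_le] at hcard
  obtain ⟨hsl, hlr, hsr, g1, g2, g3⟩ := hb.cov
  have hcb := hb.cov
  have hzr := hC.card_zr hd hb
  have hlef := hC.card_left hd hb
  -- the last right
  obtain ⟨y0, hy0, hy0max⟩ := exists_max_image (W.rig O s) (W.pos s)
    (card_pos.1 (by omega))
  -- the middle right
  obtain ⟨m, hm⟩ : ∃ m, m ∈ (W.zr O s l \ {r, y0}) := by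
    apply card_pos.1
    have h1 := card_le_card (s := W.zr O s l) (t := (W.zr O s l \ {r, y0}) ∪ {r, y0}) (by
      intro i hi
      by_cases h2 : i ∈ ({r, y0} : Finset ι)
      · exact mem_union_right _ h2
      · exact mem_union_left _ (mem_sdiff.2 ⟨hi, h2⟩))
    have h2 := card_union_le (W.zr O s l \ {r, y0}) {r, y0}
    have h3 : ({r, y0} : Finset ι).card ≤ 2 := card_le_two
    omega
  rw [mem_sdiff] at hm
  simp only [mem_insert, mem_singleton, not_or] at hm
  obtain ⟨hmz, hmr, hmy0⟩ := hm
  have hmz2 := hmz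
  rw [hb.mem_zr, mem_rig] at hmz2
  obtain ⟨⟨hmO, hms, htm⟩, hcov⟩ := hmz2
  obtain ⟨-, hlm, -, m1, m2, m3⟩ := hcov
  have hcov : W.Cov s l m := ⟨hsl, hlm, hms.symm, m1, m2, m3⟩
  rw [mem_rig] at hy0
  have py0 : W.pos s m < W.pos s y0 := by
    have h1 := hy0max m (mem_rig.2 ⟨hmO, hms, htm⟩)
    have h2 := W.pos_ne hms hy0.2.1 hmy0
    omega
  have pr : W.pos s r < W.pos s m := by
    have h1 := hb.first m hms htm
    have h2 := W.pos_ne hsr.symm hms (fun h => hmr h.symm)
    omega
  obtain ⟨z, hz, hzs, hzl, hzm, hz5⟩ := hf s l m hcov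
  -- corners of the lefts
  have lefs : ∀ a ∈ W.lef O s, a ≠ l → a ≠ m ∧ a ≠ r ∧ W.vt s l a = false ∧ W.vt l m a = true ∧
      W.vt s m a = true ∧ W.vt l r a = true ∧ W.vt s r a = true := by
    intro a ha hal
    rw [mem_lef] at ha
    have ham : a ≠ m := by rintro rfl; rw [htm] at ha; exact absurd ha.2.2 (by simp)
    have har : a ≠ r := by rintro rfl; rw [hb.tr] at ha; exact absurd ha.2.2 (by simp)
    have k1 : W.vt s l a = false := by
      have h5 := hb.last a ha.2.1 ha.2.2
      have := (vt_left (W := W) hsl.symm ha.2.1 (fun h => hal h.symm) ha.2.2).not.2 (by omega)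
      simpa using this
    have k2 : W.vt s m a = true := by
      have h5 := hC.zr_before hb hmz (mem_lef.2 ha)
      exact (vt_left hms ha.2.1 (fun h => ham h.symm) ha.2.2).2 h5
    have k3 : W.vt s r a = true := by
      have h5 := (hC.mem_left hb ha.2.1 ha.2.2).1 ha.1
      exact (vt_left hsr.symm ha.2.1 (fun h => har h.symm) ha.2.2).2 h5
    refine ⟨ham, har, k1, ?_, k2, ?_, k3⟩
    · rcases hC.nt.rule hcov ha.2.1 hal ham with h5 | h5 | h5 | h5
      · rw [k2] at h5; exact absurd h5.2.2 (by simp)
      · exact h5.2.1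
      · rw [k1] at h5; exact absurd h5.1 (by simp)
      · rw [k1] at h5; exact absurd h5.1 (by simp)
    · rcases hC.nt.rule hcb ha.2.1 hal har with h5 | h5 | h5 | h5
      · rw [k3] at h5; exact absurd h5.2.2 (by simp)
      · exact h5.2.1
      · rw [k1] at h5; exact absurd h5.1 (by simp)
      · rw [k1] at h5; exact absurd h5.1 (by simp)
  -- corners of the rights
  have rigs : ∀ w ∈ W.rig O s, w ≠ l ∧ W.vt s l w = true := by
    intro w hw
    rw [mem_rig] at hw
    have hwl : w ≠ l := by rintro rfl; rw [hb.tl] at hw; exact absurd hw.2.2 (by simp)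
    refine ⟨hwl, ?_⟩
    have h5 := (hC.mem_right hb hw.2.1 hw.2.2).1 hw.1
    exact (vt_right hsl.symm hw.2.1 (fun h => hwl h.symm) hw.2.2).2 h5
  have before : ∀ w ∈ W.rig O s, W.pos s w < W.pos s m → w ≠ m ∧ W.vt s m w = true ∧
      W.vt l m w = false := by
    intro w hw hp
    have h1 := rigs w hw
    rw [mem_rig] at hw
    have hwm : w ≠ m := by rintro rfl; omega
    have k2 : W.vt s m w = true := (vt_right hms hw.2.1 (fun h => hwm h.symm) hw.2.2).2 hp
    refine ⟨hwm, k2, ?_⟩
    rcases hC.nt.rule hcov hw.2.1 h1.1 hwm with h5 | h5 | h5 | h5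
    · exact h5.2.1
    · rw [h1.2] at h5; exact absurd h5.1 (by simp)
    · exact h5.2.1
    · rw [k2] at h5; exact absurd h5.2.2 (by simp)
  have after : ∀ w ∈ W.rig O s, W.pos s m < W.pos s w → w ≠ m ∧ W.vt s m w = false ∧
      W.vt l m w = true := by
    intro w hw hp
    have h1 := rigs w hw
    rw [mem_rig] at hw
    have hwm : w ≠ m := by rintro rfl; omega
    have k2 : W.vt s m w = false := by
      have := (vt_right (W := W) hms hw.2.1 (fun h => hwm h.symm) hw.2.2).not.2 (by omega)
      simpa using this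
    refine ⟨hwm, k2, ?_⟩
    rcases hC.nt.rule hcov hw.2.1 h1.1 hwm with h5 | h5 | h5 | h5
    · rw [h1.2] at h5; exact absurd h5.1 (by simp)
    · rw [h1.2] at h5; exact absurd h5.1 (by simp)
    · rw [k2] at h5; exact absurd h5.2.2 (by simp)
    · exact h5.2.1
  -- (1) a left and an early right are not both missed
  have no1 : ∀ a ∈ W.lef O s, ∀ w ∈ W.rig O s, W.pos s w < W.pos s m → z a = false →
      z w = true := by
    intro a ha w hw hp hza
    by_contra hzw
    have hzw : z w = false := by simpa using hzw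
    have hal : a ≠ l := by rintro rfl; rw [hza] at hzl; exact absurd hzl (by simp)
    obtain ⟨ham, har, a1, a2, a3, a4, a5⟩ := lefs a ha hal
    obtain ⟨hwl, w1⟩ := rigs w hw
    obtain ⟨hwm, w2, w3⟩ := before w hw hp
    rw [mem_lef] at ha
    rw [mem_rig] at hw
    have haw : a ≠ w := by rintro rfl; rw [hw.2.2] at ha; exact absurd ha.2.2 (by simp)
    have h1 := hC.nt.apart hcov.swap hal ha.2.1 ham hwl hw.2.1 hwm haw
      (by rw [W.vt_comm]; exact a1) a2 w3 (by rw [W.vt_comm]; exact w1) hz hzl hzs hzm hza hzw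
    obtain ⟨c0, c1, c2, c3, c4, c5, c6⟩ :=
      W.line3 (s := l) hsl hlr.symm hal hsr ha.2.1.symm (fun h => har h.symm)
    have f1 : W.vt l s r = true := by rw [W.vt_comm]; exact g1
    have f3 : W.vt l s a = false := by rw [W.vt_comm]; exact a1
    have h2 : W.vt l a w = true := by
      by_cases hwr : w = r
      · rw [hwr]
        have := lineC _ _ _ _ _ _ ⟨fun h => c0.1 h.symm, c0.2.2, c0.2.1⟩ (c2 ▸ g2) (c1 ▸ f1)
          (c5 ▸ a4) (c3 ▸ f3)
        rw [← c6] at this
        exact this.1
      have w4 : W.vt l r w = true := by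
        have k1 : W.vt s r w = false := by
          have h5 := hb.first w hw.2.1 hw.2.2
          have := (vt_right (W := W) hsr.symm hw.2.1 (fun h => hwr h.symm) hw.2.2).not.2 (by omega)
          simpa using this
        rcases hC.nt.rule hcb hw.2.1 hwl hwr with h5 | h5 | h5 | h5
        · rw [w1] at h5; exact absurd h5.1 (by simp)
        · rw [w1] at h5; exact absurd h5.1 (by simp)
        · rw [k1] at h5; exact absurd h5.2.2 (by simp)
        · exact h5.2.1
      obtain ⟨d0, d1, d2, d3, d4, d5, d6⟩ :=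
        W.line3 (s := l) hsl hlr.symm hwl hsr hw.2.1.symm (fun h => hwr h.symm)
      obtain ⟨e0, e1, e2, e3, e4, e5, e6⟩ :=
        W.line3 (s := l) hsl hal hwl ha.2.1.symm hw.2.1.symm haw
      have f5 : W.vt l s w = true := by rw [W.vt_comm]; exact w1
      rw [e5]
      exact lineE _ _ _ _ _ _ _ _ ⟨c0.1, c0.2.1, d0.2.1, c0.2.2, d0.2.2, e0.2.2⟩ (c1 ▸ f1)
        (c2 ▸ g2) (c3 ▸ f3) (c5 ▸ a4) (d3 ▸ f5) (d5 ▸ w4)
    rw [h1] at h2
    exact absurd h2 (by simp)
  have notinl : ∀ a ∈ W.rig O s, a ∉ W.lef O s := by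
    intro a h1 h2
    rw [mem_rig] at h1
    rw [mem_lef] at h2
    rw [h1.2.2] at h2
    exact absurd h2.2.2 (by simp)
  have hmrig : m ∈ W.rig O s := mem_rig.2 ⟨hmO, hms, htm⟩
  have hrrig : r ∈ W.rig O s := mem_rig.2 ⟨(hC.base_mem hb).2.2, hsr.symm, hb.tr⟩
  have hy0rig : y0 ∈ W.rig O s := mem_rig.2 hy0
  have hsl' : s ∉ W.lef O s := fun h => (mem_lef.1 h).2.1 rfl
  -- (2) a left and a late right are not both missed
  have no2 : ∀ a ∈ W.lef O s, ∀ w ∈ W.rig O s, W.pos s m < W.pos s w → z a = false →
      z w = true := by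
    intro a ha w hw hp hza
    by_contra hzw
    have hzw : z w = false := by simpa using hzw
    have hal : a ≠ l := by rintro rfl; rw [hza] at hzl; exact absurd hzl (by simp)
    have h7 := hC.mixed hd hcov hb.tl ha hw hz hzs hzl hzm hza hzw (lefs a ha hal).2.2.2.2.1
      (rigs w hw).2 (by
        intro x hx k1 k2 k3 k4
        cases htx : W.ty s x
        · have hxr : x ∈ W.rig O s := mem_rig.2 ⟨hx, k1, htx⟩
          refine no1 a ha x hxr ?_ hza
          by_contra h8
          have h9 := W.pos_ne k1 hms k3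
          have := (after x hxr (by omega)).2.2
          rw [k4] at this
          exact absurd this (by simp)
        · have := (lefs x (mem_lef.2 ⟨hx, k1, htx⟩) k2).2.2.2.1
          rw [k4] at this
          exact absurd this (by simp))
    omega
  by_cases hA : ∃ a ∈ W.lef O s, z a = false
  · -- all rights are in `z`
    obtain ⟨a, ha, hza⟩ := hA
    have hall : ∀ w ∈ W.rig O s, z w = true := by
      intro w hw
      by_cases hwm : w = m
      · rw [hwm]; exact hzm
      have := W.pos_ne (mem_rig.1 hw).2.1 hms hwm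
      rcases lt_or_gt_of_ne this with h | h
      · exact no1 a ha w hw h hza
      · exact no2 a ha w hw h hza
    have hsub : insert s (insert l (W.rig O s)) ⊆ univ.filter (fun i => z i = true) := by
      intro i hi
      rw [mem_filter]
      refine ⟨mem_univ _, ?_⟩
      rcases mem_insert.1 hi with rfl | hi
      · exact hzs
      rcases mem_insert.1 hi with rfl | hi
      · exact hzl
      exact hall i hi
    have h1 := card_le_card hsub
    have h2 : l ∉ W.rig O s := fun h => (rigs l h).1 rfl
    have h3 : s ∉ insert l (W.rig O s) := by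
      intro h
      rcases mem_insert.1 h with h | h
      · exact hsl h
      · exact (mem_rig.1 h).2.1 rfl
    rw [card_insert_of_notMem h3, card_insert_of_notMem h2] at h1
    unfold dep at hz5
    omega
  · push Not at hA
    have hA : ∀ a ∈ W.lef O s, z a = true := fun a ha => by simpa using hA a ha
    by_cases hB : ∃ y ∈ W.rig O s, W.pos s m < W.pos s y ∧ z y = false
    · obtain ⟨y, hy, hpy, hzy⟩ := hB
      -- the first right is in `z`
      have hzr' : z r = true := by
        by_contra hzr'
        have hzr' : z r = false := by simpa using hzr'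
        have hB1 := before r hrrig pr
        have hy1 := after y hy hpy
        have hr1 := rigs r hrrig
        have hy2 := rigs y hy
        rw [mem_rig] at hy
        have e1 : W.vt m s y = false := by rw [W.vt_comm]; exact hy1.2.1
        have e2 : W.vt m l y = true := by rw [W.vt_comm]; exact hy1.2.2
        have e3 : W.vt m l r = false := by rw [W.vt_comm]; exact hB1.2.2
        have e4 : W.vt m s r = true := by rw [W.vt_comm]; exact hB1.2.1
        have f1 : W.vt m s l = true := by rw [W.vt_comm]; exact m3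
        have f2 : W.vt m l s = true := by rw [W.vt_comm]; exact m2
        obtain ⟨c0, c1, c2, c3, c4, c5, c6⟩ :=
          W.line3 (s := m) hms.symm hlm hy1.1 hsl hy.2.1.symm (fun h => hy2.1 h.symm)
        obtain ⟨d0, d1, d2, d3, d4, d5, d6⟩ :=
          W.line3 (s := m) hms.symm hlm (fun h => hmr h.symm) hsl hsr hlr
        have ty1 := lineI _ _ _ _ _ _ c0 (c1 ▸ f1) (c2 ▸ f2) (c3 ▸ e1) (c5 ▸ e2)
        have ty2 := lineI _ _ _ _ _ _ ⟨fun h => d0.1 h.symm, d0.2.2, d0.2.1⟩ (d2 ▸ f2) (d1 ▸ f1)
          (d5 ▸ e3) (d3 ▸ e4)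
        have hall : ∀ w ∈ O, w ≠ m → w ≠ s → w ≠ l → W.vt s l w = false → z w = true := by
          intro w hw k1 k2 k3 k4
          cases htw : W.ty s w
          · have := (rigs w (mem_rig.2 ⟨hw, k2, htw⟩)).2
            rw [k4] at this
            exact absurd this (by simp)
          · exact hA w (mem_lef.2 ⟨hw, k2, htw⟩)
        rcases hcov.rot.rot.types with h5 | h5
        · have h7 := hC.mixed hd hcov.rot.rot h5.1 (x := y) (y := r)
            (mem_lef.2 ⟨hy.1, hy1.1, by rw [ty1]; exact h5.1⟩)
            (mem_rig.2 ⟨(mem_rig.1 hrrig).1, fun h => hmr h.symm, by rw [ty2]; exact h5.2.1⟩)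
            hz hzm hzs hzl hzy hzr' e2 e4 hall
          omega
        · have h7 := hC.mixed hd hcov.rot.rot.swap' h5.2.1 (x := r) (y := y)
            (mem_lef.2 ⟨(mem_rig.1 hrrig).1, fun h => hmr h.symm, by rw [ty2]; exact h5.2.1⟩)
            (mem_rig.2 ⟨hy.1, hy1.1, by rw [ty1]; exact h5.1⟩)
            hz hzm hzl hzs hzr' hzy e4 e2 (fun w hw k1 k2 k3 k4 =>
              hall w hw k1 k3 k2 (by rw [W.vt_comm]; exact k4))
          omega
      have := six_le_dep (A := W.lef O s) (p := s) (q := m) (r := r) hlef hsl' (notinl m hmrig)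
        (notinl r hrrig) hms.symm hsr hmr hzs hzm hzr' hA
      omega
    · push Not at hB
      have hzy0 : z y0 = true := by simpa using hB y0 hy0rig py0
      have := six_le_dep (A := W.lef O s) (p := s) (q := m) (r := y0) hlef hsl' (notinl m hmrig)
        (notinl y0 hy0rig) hms.symm hy0.2.1.symm hmy0 hzs hzm hzy0 hA
      omega

theorem Free.mirror (hf : W.Free) : W.mirror.Free := hf

theorem Core.card_lef_le (hC : W.Core O) (hd : ∀ X ∈ W.T, 3 ≤ dep X) (hf : W.Free) {s l r : ι}
    (hb : W.Base s l r) : (W.lef O s).card ≤ 3 := by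
  have := hC.mirror.card_rig_le (W := W.mirror) hd hf.mirror hb.mirror
  rwa [rig_mirror] at this

/-- On a core line there are exactly three core rights and, after them, three core lefts. -/
theorem Core.three (hC : W.Core O) (hd : ∀ X ∈ W.T, 3 ≤ dep X) (hf : W.Free) {s l r : ι}
    (hb : W.Base s l r) : (W.lef O s).card = 3 ∧ (W.rig O s).card = 3 ∧
      ∀ a ∈ W.lef O s, ∀ b ∈ W.rig O s, W.pos s b < W.pos s a := by
  classical
  have h1 := hC.card_left hd hb
  have h2 := hC.card_right hd hb
  have h3 := hC.card_lef_le hd hf hb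
  have h4 := hC.card_rig_le hd hf hb
  refine ⟨by omega, by omega, ?_⟩
  intro a ha b hb'
  have h5 : W.zr O s l ⊆ W.rig O s := by
    intro x hx
    rw [hb.mem_zr] at hx
    exact hx.1
  have h6 := eq_of_subset_of_card_le h5 (by have := hC.card_zr hd hb; omega)
  exact hC.zr_before hb (by rw [h6]; exact hb') ha

end World
end PHP
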