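import Mathlib
import Pool.Agent.PHP.ExSeven
import Pool.Agent.PHP.ExSys
import Pool.Agent.PHP.ExHept
import Pool.Agent.PHP.CapBridge
import Pool.Agent.PHP.SideTriple

/-!
# Existence of a covering triple whose triangle is inside a fourth line (problem MP_1180db_co)

`Sys.Circ.split_or_through`: let all cells of a complete system have at least three members. Then three colours split
all cells with at least five members, or the triangle of some covering triple has no cell with exactly five members, or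
some other line contains the triangle of a covering triple.
-/

set_option linter.unusedVariables false
set_option linter.unusedSectionVars false

namespace PHP

open Finset

variable {ι : Type} [Fintype ι] [DecidableEq ι]

namespace World

variable {W : World ι} {O : Finset ι}

/-- the cell with the members `O` -/
theorem Core.center (hC : W.Core O) {s l r : ι} (hb : W.Base s l r) :
    (fun i => decide (i ∈ O)) ∈ W.T := by
  obtain ⟨hsl, hlr, hsr, g1, g2, g3⟩ := hb.cov
  refine W.vertex hlr _ fun k hkl hkr => ?_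
  by_cases hks : k = s
  · rw [hks, g2]
    simpa using (hC.base_mem hb).1
  have hrule := hC.nt.rule hb.cov hks hkl hkr
  have hnear := hC.near hb.cov k
  unfold Near at hnear
  rcases hrule with h5 | h5 | h5 | h5
  · have : k ∉ O := by
      rw [hnear, h5.1, h5.2.1, h5.2.2]
      simp [hks, hkl, hkr]
    rw [h5.2.1]
    simpa using this
  · rw [h5.2.1]
    simpa using hnear.2 (by tauto)
  · exfalso
    cases ht : W.ty s k
    · have h6 := (vt_right hsr.symm hks (fun h => hkr h.symm) ht).1 h5.2.2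
      have h7 := hb.first k hks ht
      omega
    · have h6 := (vt_left hsl.symm hks (fun h => hkl h.symm) ht).1 h5.1
      have h7 := hb.last k hks ht
      omega
  · rw [h5.2.1]
    simpa using hnear.2 (by tauto)

theorem Core.mem_or (hC : W.Core O) {s x : ι} (hx : x ∈ O) (hxs : x ≠ s) :
    x ∈ W.lef O s ∨ x ∈ W.rig O s := by
  rw [mem_lef, mem_rig]
  cases W.ty s x
  · exact Or.inr ⟨hx, hxs, rfl⟩
  · exact Or.inl ⟨hx, hxs, rfl⟩

/-- the end of the line `s` where the lefts are: the cells there miss exactly the rights (and possibly `s`) -/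
theorem Core.end_cell (hC : W.Core O) {s l r : ι} (hb : W.Base s l r) (b : Bool) :
    ∃ X ∈ W.T, X s = b ∧ (∀ x ∈ W.lef O s, X x = true) ∧ ∀ x ∈ W.rig O s, X x = false := by
  classical
  obtain ⟨hsl, hlr, hsr, g1, g2, g3⟩ := hb.cov
  refine ⟨fun k => if k = s then b else if k = r then false else W.vt s r k,
    W.vertex hsr _ (by intro k h1 h2; simp [h1, h2]), by simp, ?_, ?_⟩
  · intro x hx
    have hx2 := mem_lef.1 hx
    have hxr : x ≠ r := by rintro rfl; rw [hb.tr] at hx2; exact absurd hx2.2.2 (by simp)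
    have h1 := (hC.mem_left hb hx2.2.1 hx2.2.2).1 hx2.1
    have h2 := (vt_left (W := W) hsr.symm hx2.2.1 hxr.symm hx2.2.2).2 h1
    simp [hx2.2.1, hxr, h2]
  · intro x hx
    have hx2 := mem_rig.1 hx
    by_cases hxr : x = r
    · simp [hxr, hsr.symm]
    have h1 := hb.first x hx2.2.1 hx2.2.2
    have h2 := (vt_right (W := W) hsr.symm hx2.2.1 (fun h => hxr h.symm) hx2.2.2).not.2 (by omega)
    simpa [hx2.2.1, hxr] using h2

theorem Core.end_cell' (hC : W.Core O) {s l r : ι} (hb : W.Base s l r) (b : Bool) :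
    ∃ X ∈ W.T, X s = b ∧ (∀ x ∈ W.rig O s, X x = true) ∧ ∀ x ∈ W.lef O s, X x = false := by
  have := hC.mirror.end_cell (W := W.mirror) hb.mirror b
  rwa [lef_mirror, rig_mirror] at this

/-- between the rights and the lefts: the cell just outside `s` misses only `s` -/
theorem Core.mid_cell (hC : W.Core O) (hd : ∀ X ∈ W.T, 3 ≤ dep X) (hf : W.Free) {s l r : ι}
    (hb : W.Base s l r) : ∃ X ∈ W.T, X s = false ∧ ∀ x ∈ O, x ≠ s → X x = true := by
  classical
  obtain ⟨t1, t2, t3⟩ := hC.three hd hf hb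
  obtain ⟨a, ha, hamin⟩ := exists_min_image (W.lef O s) (W.pos s) (card_pos.1 (by omega))
  have ha2 := mem_lef.1 ha
  refine ⟨fun k => if k = s then false else if k = a then true else W.vt s a k,
    W.vertex ha2.2.1.symm _ (by intro k h1 h2; simp [h1, h2]), by simp, ?_⟩
  intro x hx hxs
  by_cases hxa : x = a
  · simp [hxa, ha2.2.1]
  simp only [hxs, if_false, hxa]
  rcases hC.mem_or hx hxs with h1 | h1
  · have h2 := hamin x h1
    have h3 := W.pos_ne ha2.2.1 hxs (fun h => hxa h.symm)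
    exact (vt_left ha2.2.1 hxs (fun h => hxa h.symm) (mem_lef.1 h1).2.2).2 (by omega)
  · have h2 := t3 a ha x h1
    exact (vt_right ha2.2.1 hxs (fun h => hxa h.symm) (mem_rig.1 h1).2.2).2 h2

end World

open Classical in
/-- the lines of the core form a heptagon -/
theorem World.Core.hept {W : World ι} {O : Finset ι} (hC : W.Core O) (hd : ∀ X ∈ W.T, 3 ≤ dep X)
    (hf : W.Free) {C : CapSys ι}
    (hCaps : ∀ H : Finset ι, H ∈ C.caps ↔ ∃ X ∈ W.T, ∀ i, i ∈ H ↔ X i ≠ decide (i ∈ O)) :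
    CapSys.Hept C O := by
  -- caps of cells
  have cap : ∀ X ∈ W.T, ∃ H ∈ C.caps, ∀ i, i ∈ H ↔ X i ≠ decide (i ∈ O) := by
    intro X hX
    refine ⟨univ.filter (fun i => X i ≠ decide (i ∈ O)), (hCaps _).2 ⟨X, hX, fun i => by simp⟩,
      fun i => by simp⟩
  have hbase : ∀ s ∈ O, ∃ l r, W.Base s l r := by
    intro s hs
    obtain ⟨a, b, h⟩ := hC.act s hs
    exact hC.nt.exists_base h
  have hmem : ∀ {X : ι → Bool} {i : ι}, i ∈ O → (X i ≠ decide (i ∈ O) ↔ X i = false) := by
    intro X i hi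
    simp [hi]
  have hull : ∀ s ∈ O, ∃ P ∈ C.caps, s ∈ P ∧ ∀ x ∈ O, x ≠ s → x ∉ P := by
    intro s hs
    obtain ⟨l, r, hb⟩ := hbase s hs
    obtain ⟨X, hX, h1, h2⟩ := hC.mid_cell hd hf hb
    obtain ⟨P, hP, hPX⟩ := cap X hX
    refine ⟨P, hP, (hPX s).2 ((hmem hs).2 h1), fun x hx hxs hxP => ?_⟩
    have := (hmem hx).1 ((hPX x).1 hxP)
    rw [h2 x hx hxs] at this
    exact absurd this (by simp)
  -- the letters of one side are all successors or all predecessors
  have side : ∀ s ∈ O, ∀ A : Finset ι, A ⊆ O → s ∉ A →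
      (∀ b : Bool, ∃ X ∈ W.T, X s = b ∧ ∀ x ∈ A, X x = false) →
      (∀ a ∈ A, C.lt s a) ∨ (∀ a ∈ A, C.lt a s) := by
    intro s hs A hA hsA hX
    by_contra hcon
    push Not at hcon
    obtain ⟨⟨a, ha, ha'⟩, ⟨b, hb, hb'⟩⟩ := hcon
    have has : a ≠ s := fun h => hsA (h ▸ ha)
    have hbs : b ≠ s := fun h => hsA (h ▸ hb)
    have l1 : C.lt a s := (C.lt_total has).resolve_right ha'
    have l2 : C.lt s b := (C.lt_total hbs).resolve_left hb'
    obtain ⟨X, hXT, x1, x2⟩ := hX false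
    obtain ⟨Y, hYT, y1, y2⟩ := hX true
    obtain ⟨H, hH, hHX⟩ := cap X hXT
    obtain ⟨G, hG, hGY⟩ := cap Y hYT
    obtain ⟨P, hP, hPs, hPO⟩ := hull s hs
    have l3 : C.lt a b := CapSys.trans hH ((hHX a).2 ((hmem (hA ha)).2 (x2 a ha)))
      ((hHX s).2 ((hmem hs).2 x1)) ((hHX b).2 ((hmem (hA hb)).2 (x2 b hb))) l1 l2
    refine CapSys.btw hG hP ((hGY a).2 ((hmem (hA ha)).2 (y2 a ha))) (hPO a (hA ha) has) hPs ?_
      ((hGY b).2 ((hmem (hA hb)).2 (y2 b hb))) (hPO b (hA hb) hbs) l1 l2 l3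
    intro hsG
    have := (hmem hs).1 ((hGY s).1 hsG)
    rw [y1] at this
    exact absurd this (by simp)
  have cover : ∀ X ∈ W.T, ∀ s ∈ O, ∃ i ∈ O, X i = true := by
    intro X hX s hs
    obtain ⟨l, r, hb⟩ := hbase s hs
    obtain ⟨m1, m2, m3⟩ := hC.base_mem hb
    rcases hb.cov.covers hX with h | h | h
    · exact ⟨_, m1, h⟩
    · exact ⟨_, m2, h⟩
    · exact ⟨_, m3, h⟩
  have key : ∀ s ∈ O, ((∀ x ∈ O, C.lt s x ↔ x ∈ W.lef O s) ∧ (∀ x ∈ O, C.lt x s ↔ x ∈ W.rig O s)) ∨
      ((∀ x ∈ O, C.lt s x ↔ x ∈ W.rig O s) ∧ (∀ x ∈ O, C.lt x s ↔ x ∈ W.lef O s)) := by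
    intro s hs
    obtain ⟨l, r, hb⟩ := hbase s hs
    have hsr : s ∉ W.rig O s := fun h => (World.mem_rig.1 h).2.1 rfl
    have hsl : s ∉ W.lef O s := fun h => (World.mem_lef.1 h).2.1 rfl
    have hdis : ∀ x, x ∈ W.lef O s → x ∉ W.rig O s := by
      intro x h1 h2
      rw [World.mem_lef] at h1
      rw [World.mem_rig] at h2
      rw [h1.2.2] at h2
      exact absurd h2.2.2 (by simp)
    have hR := side s hs (W.rig O s) (fun x hx => (World.mem_rig.1 hx).1) hsr (fun b => by
      obtain ⟨X, hX, h1, h2, h3⟩ := hC.end_cell hb b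
      exact ⟨X, hX, h1, h3⟩)
    have hL := side s hs (W.lef O s) (fun x hx => (World.mem_lef.1 hx).1) hsl (fun b => by
      obtain ⟨X, hX, h1, h2, h3⟩ := hC.end_cell' hb b
      exact ⟨X, hX, h1, h3⟩)
    have all_false : ∀ c, c < 2 * C.n → (∀ x ∈ O, inHalf C.n c (C.ang x)) → False := by
      intro c hc hall
      obtain ⟨P, hP, hPc⟩ := C.half c hc
      obtain ⟨X, hX, hPX⟩ := (hCaps P).1 hP
      obtain ⟨i, hi, hXi⟩ := cover X hX s hs
      have := (hmem hi).1 ((hPX i).1 ((hPc i).2 (hall i hi)))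
      rw [hXi] at this
      exact absurd this (by simp)
    have hang := C.lt_ang s
    rcases hR with hR | hR <;> rcases hL with hL | hL
    · exfalso
      refine all_false (C.ang s) hang fun x hx => ?_
      by_cases hxs : x = s
      · rw [hxs]; left; constructor
        · exact le_rfl
        · omega
      have h1 : C.lt s x := by
        rcases hC.mem_or hx hxs with h | h
        · exact hL x h
        · exact hR x h
      unfold CapSys.lt at h1
      unfold inHalf
      omega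
    · right
      refine ⟨fun x hx => ⟨fun h1 => ?_, fun h1 => hR x h1⟩, fun x hx => ⟨fun h1 => ?_,
        fun h1 => hL x h1⟩⟩
      · rcases hC.mem_or hx (CapSys.lt_ne h1).symm with h | h
        · exact absurd h1 (CapSys.lt_asymm (hL x h))
        · exact h
      · rcases hC.mem_or hx (CapSys.lt_ne h1) with h | h
        · exact h
        · exact absurd h1 (CapSys.lt_asymm (hR x h))
    · left
      refine ⟨fun x hx => ⟨fun h1 => ?_, fun h1 => hL x h1⟩, fun x hx => ⟨fun h1 => ?_,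
        fun h1 => hR x h1⟩⟩
      · rcases hC.mem_or hx (CapSys.lt_ne h1).symm with h | h
        · exact h
        · exact absurd h1 (CapSys.lt_asymm (hR x h))
      · rcases hC.mem_or hx (CapSys.lt_ne h1) with h | h
        · exact absurd h1 (CapSys.lt_asymm (hL x h))
        · exact h
    · exfalso
      refine all_false (if C.ang s + C.n + 1 < 2 * C.n then C.ang s + C.n + 1 else
        C.ang s + 1 - C.n) (by split_ifs <;> omega) fun x hx => ?_
      by_cases hxs : x = s
      · rw [hxs]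
        unfold inHalf
        split_ifs <;> omega
      have h1 : C.lt x s := by
        rcases hC.mem_or hx hxs with h | h
        · exact hL x h
        · exact hR x h
      have h2 := C.lt_ang x
      unfold CapSys.lt at h1
      unfold inHalf
      split_ifs <;> omega
  have cards : ∀ s ∈ O, (W.rig O s).card = 3 ∧ (W.lef O s).card = 3 := by
    intro s hs
    obtain ⟨l, r, hb⟩ := hbase s hs
    obtain ⟨t1, t2, t3⟩ := hC.three hd hf hb
    exact ⟨by omega, by omega⟩
  have fil : ∀ (p : ι → Prop) (A : Finset ι), A ⊆ O → (∀ x ∈ O, p x ↔ x ∈ A) →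
      O.filter p = A := by
    intro p A hA h
    ext x
    rw [mem_filter]
    exact ⟨fun h1 => (h x h1.1).1 h1.2, fun h1 => ⟨hA h1, (h x (hA h1)).2 h1⟩⟩
  have subR : ∀ s, W.rig O s ⊆ O := fun s x hx => (World.mem_rig.1 hx).1
  have subL : ∀ s, W.lef O s ⊆ O := fun s x hx => (World.mem_lef.1 hx).1
  refine ⟨fun s hs => ?_, fun s hs => ?_, fun s hs => ?_⟩
  · obtain ⟨P, hP, hPs, hPO⟩ := hull s hs
    refine ⟨P, hP, ?_⟩
    ext x
    rw [mem_inter, mem_singleton]
    constructor
    · intro h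
      by_contra hxs
      exact hPO x h.2 hxs h.1
    · rintro rfl
      exact ⟨hPs, hs⟩
  · rcases key s hs with ⟨h1, h2⟩ | ⟨h1, h2⟩
    · rw [fil _ _ (subL s) h1]
      exact (cards s hs).2
    · rw [fil _ _ (subR s) h1]
      exact (cards s hs).1
  · rcases key s hs with ⟨h1, h2⟩ | ⟨h1, h2⟩
    · rw [fil _ _ (subR s) h2]
      exact (cards s hs).1
    · rw [fil _ _ (subL s) h2]
      exact (cards s hs).2

/-- EX: if the triangle of every covering triple has a cell with exactly five members and no line contains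
the triangle of a covering triple of other lines, then three colours split all cells with at least five members. -/
theorem Sys.Circ.split_of_free {S : Sys ι} {F : ι → Bool} {l : List (ι × Bool)} (h : S.Circ F l)
    (hc : S.Complete) (hd : ∀ X ∈ S.T, 3 ≤ dep X)
    (hfree : ∀ a b c : ι, a ≠ b → b ≠ c → a ≠ c →
      (∀ X ∈ S.T, X a = true ∨ X b = true ∨ X c = true) →
      ∃ X ∈ S.T, X a = true ∧ X b = true ∧ X c = true ∧ dep X = 5)
    (hthr : ∀ a b c m : ι, a ≠ b → b ≠ c → a ≠ c →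
      (∀ X ∈ S.T, X a = true ∨ X b = true ∨ X c = true) → m ≠ a → m ≠ b → m ≠ c →
      ∃ X ∈ S.T, X a = true ∧ X b = true ∧ X c = true ∧ X m = false) :
    ∃ c : ι → Fin 3, ∀ X ∈ S.T, 5 ≤ dep X → ∀ j, ∃ i, X i = true ∧ c i = j := by
  classical
  by_cases hT : ∃ X, X ∈ S.T
  swap
  · exact ⟨fun _ => 0, fun X hX => absurd ⟨X, hX⟩ hT⟩
  -- a cell of minimal depth
  obtain ⟨z, hz, hzmin⟩ : ∃ z ∈ S.T, ∀ X ∈ S.T, dep z ≤ dep X := by
    obtain ⟨X, hX⟩ := hT
    obtain ⟨z, hz, hmin⟩ := exists_min_image (univ.filter (fun X : ι → Bool => X ∈ S.T)) dep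
      ⟨X, by rw [mem_filter]; exact ⟨mem_univ _, hX⟩⟩
    rw [mem_filter] at hz
    exact ⟨z, hz.2, fun Y hY => hmin Y (by rw [mem_filter]; exact ⟨mem_univ _, hY⟩)⟩
  obtain ⟨s, hs⟩ : ∃ s, z s = true := by
    have h1 := hd z hz
    unfold dep at h1
    obtain ⟨s, hs⟩ := card_pos.1 (show 0 < (univ.filter (fun i => z i = true)).card by omega)
    exact ⟨s, (mem_filter.1 hs).2⟩
  obtain ⟨p, q, hpq, hps, hqs, hcov, -, -⟩ := h.exists_side hc (s := s) (d := dep z)
    (fun X hX _ _ => hzmin X hX) hz le_rfl hs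
  set W : World ι := S.world hc with hW
  have hWT : W.T = S.T := S.world_T hc
  have hcov2 : W.Cov s p q := World.cov_of_covers hps.symm hpq hqs.symm (by rw [hWT]; exact hcov)
  have hN : W.NT := by
    intro a b c m habc h1 h2 h3
    have := hthr a b c m habc.1 habc.2.1 habc.2.2.1 (fun X hX => habc.covers (by rw [hWT]; exact hX))
      h1 h2 h3
    rwa [hWT]
  have hf : W.Free := by
    intro a b c habc
    have := hfree a b c habc.1 habc.2.1 habc.2.2.1 (fun X hX => habc.covers (by rw [hWT]; exact hX))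
    rwa [hWT]
  have hd' : ∀ X ∈ W.T, 3 ≤ dep X := by rw [hWT]; exact hd
  obtain ⟨O, hC, hsO⟩ := hN.exists_core hcov2
  obtain ⟨l', r', hb⟩ := hN.exists_base hcov2
  have hcen := hC.center hb
  obtain ⟨C, hCaps⟩ := h.exists_capSys hc ⟨s⟩ (O := fun i => decide (i ∈ O)) (by rw [← hWT]; exact hcen)
  have hH : CapSys.Hept C O := hC.hept hd' hf (by rw [hWT]; exact hCaps)
  obtain ⟨c, hcol⟩ := hH.colour ⟨s, hsO⟩
  refine ⟨c, fun X hX h5 j => ?_⟩
  set H : Finset ι := univ.filter (fun i => X i ≠ decide (i ∈ O)) with hHdef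
  have hmem : ∀ i, i ∈ H ↔ X i ≠ decide (i ∈ O) := by
    intro i
    rw [hHdef, mem_filter]
    exact ⟨fun h => h.2, fun h => ⟨mem_univ _, h⟩⟩
  clear_value H
  have hXi : ∀ i, X i = true ↔ ((i ∈ O ∧ i ∉ H) ∨ (i ∉ O ∧ i ∈ H)) := by
    intro i
    rw [hmem]
    by_cases hiO : i ∈ O <;> cases hx : X i <;> simp [hiO]
  have hcard : (O \ H).card + (H \ O).card = dep X := by
    unfold dep
    rw [← card_union_of_disjoint]
    · congr 1
      ext i
      rw [mem_union, mem_sdiff, mem_sdiff, mem_filter]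
      have h1 := hXi i
      have h2 := mem_univ i
      tauto
    · rw [disjoint_left]
      intro i h1 h2
      exact (mem_sdiff.1 h2).2 (mem_sdiff.1 h1).1
  obtain ⟨i, hi, hi2⟩ := hcol H ((hCaps H).2 ⟨X, hX, hmem⟩) (by omega) j
  exact ⟨i, (hXi i).2 hi2, hi⟩

/-- EX as an existence statement -/
theorem Sys.Circ.split_or_through {S : Sys ι} {F : ι → Bool} {l : List (ι × Bool)}
    (h : S.Circ F l) (hc : S.Complete) (hd : ∀ X ∈ S.T, 3 ≤ dep X) :
    (∃ c : ι → Fin 3, ∀ X ∈ S.T, 5 ≤ dep X → ∀ j, ∃ i, X i = true ∧ c i = j) ∨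
    (∃ a b c : ι, a ≠ b ∧ b ≠ c ∧ a ≠ c ∧ (∀ X ∈ S.T, X a = true ∨ X b = true ∨ X c = true) ∧
      ∀ X ∈ S.T, X a = true → X b = true → X c = true → dep X ≠ 5) ∨
    (∃ a b c m : ι, a ≠ b ∧ b ≠ c ∧ a ≠ c ∧ (∀ X ∈ S.T, X a = true ∨ X b = true ∨ X c = true) ∧
      m ≠ a ∧ m ≠ b ∧ m ≠ c ∧ ∀ X ∈ S.T, X a = true → X b = true → X c = true → X m = true) := by
  by_contra hcon
  push Not at hcon
  obtain ⟨h1, h2, h3⟩ := hcon
  obtain ⟨c, hc2⟩ := h.split_of_free hc hd h2 (by
    intro a b c m hab hbc hac hcov hma hmb hmc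
    obtain ⟨X, hX, x1, x2, x3, x4⟩ := h3 a b c m hab hbc hac hcov hma hmb hmc
    exact ⟨X, hX, x1, x2, x3, by simpa using x4⟩)
  obtain ⟨X, hX, h5, j, hj⟩ := h1 c
  obtain ⟨i, hi1, hi2⟩ := hc2 X hX h5 j
  exact hj i hi1 hi2

end PHP
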