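import Mathlib
import Pool.Agent.PHP.N3Radon
import Pool.Agent.PHP.ExBase

/-!
# A smallest covering triple (problem MP_1180db_co, k = 3)

`World.exists_min_cov`: if every cell has at least three members in `R` then `R` has a covering triple such that no
further line of `R` contains exactly one of its corners.
-/

namespace PHP

open Finset

variable {ι : Type} [Fintype ι] [DecidableEq ι]

/-- `R` contains a covering triple -/
theorem World.exists_cov (W : World ι) {R : Finset ι} (hne : W.T.Nonempty)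
    (hR : ∀ X ∈ W.T, 3 ≤ hit R X) : ∃ a ∈ R, ∃ b ∈ R, ∃ c ∈ R, W.Cov a b c := by
  classical
  by_contra hcon
  push Not at hcon
  have hcard : ∀ X ∈ W.T, 3 ≤ R.card := fun X hX => (hR X hX).trans (card_filter_le _ _)
  obtain ⟨X0, hX0⟩ := hne
  have h3 := hcard X0 hX0
  -- a cell which misses two given lines
  have miss2 : ∀ i j, i ≠ j → ∃ X ∈ W.T, X i = false ∧ X j = false := by
    intro i j hij
    exact ⟨fun k => if k = i then false else if k = j then false else W.vt i j k,
      W.vertex hij _ (by intro k h1 h2; simp [h1, h2]), by simp, by simp⟩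
  have miss1 : ∀ i ∈ R, ∃ X ∈ W.T, X i = false := by
    intro i hi
    obtain ⟨j, hj, hji⟩ := exists_mem_ne (show 1 < R.card by omega) i
    obtain ⟨X, hX, h1, -⟩ := miss2 i j hji.symm
    exact ⟨X, hX, h1⟩
  obtain ⟨Y, hY, hY2⟩ := W.helly ⟨X0, hX0⟩ R (by
    intro i hi j hj k hk
    by_cases hij : i = j
    · subst hij
      by_cases hik : i = k
      · subst hik
        obtain ⟨X, hX, h1⟩ := miss1 i hi
        exact ⟨X, hX, h1, h1, h1⟩
      · obtain ⟨X, hX, h1, h2⟩ := miss2 i k hik
        exact ⟨X, hX, h1, h1, h2⟩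
    · by_cases hik : i = k
      · subst hik
        obtain ⟨X, hX, h1, h2⟩ := miss2 i j hij
        exact ⟨X, hX, h1, h2, h1⟩
      · by_cases hjk : j = k
        · subst hjk
          obtain ⟨X, hX, h1, h2⟩ := miss2 i j hij
          exact ⟨X, hX, h1, h2, h2⟩
        · by_contra hno
          push Not at hno
          refine hcon i hi j hj k hk (World.cov_of_covers hij hjk hik fun X hX => ?_)
          have := hno X hX
          cases h1 : X i
          · cases h2 : X j
            · right; right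
              simpa using this h1 h2
            · exact Or.inr (Or.inl rfl)
          · exact Or.inl rfl)
  have h4 := hR Y hY
  unfold hit at h4
  rw [filter_eq_empty_iff.2 (fun i hi => by rw [hY2 i hi]; simp), card_empty] at h4
  omega

omit [Fintype ι] in
/-- if `x` contains exactly the corner `a, b` then `a, b, x` is a covering triple with a smaller triangle -/
theorem World.Cov.smaller {W : World ι} {a b c m : ι} (h : W.Cov a b c) (ha : m ≠ a) (hb : m ≠ b)
    (hc : m ≠ c) (h1 : W.vt a b m = true) (h2 : W.vt b c m = false) (h3 : W.vt a c m = false) :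
    W.Cov a b m ∧ (∀ X ∈ W.T, X a = true → X b = true → X m = true → X c = true) ∧
      ∃ X ∈ W.T, X a = true ∧ X b = true ∧ X c = true ∧ X m = false := by
  obtain ⟨hab, hbc, hac, g1, g2, g3⟩ := h
  obtain ⟨la0, la1, la2, la3, la4, la5, la6⟩ :=
    W.line3 (s := a) hab.symm hac.symm ha hbc hb.symm hc.symm
  obtain ⟨lb0, lb1, lb2, lb3, lb4, lb5, lb6⟩ :=
    W.line3 (s := b) hab hbc.symm hb hac ha.symm hc.symm
  rw [W.vt_comm] at lb1 lb3
  have ea := World.lineC _ _ _ _ _ _ la0 (la1 ▸ g1) (la2 ▸ g3) (la3 ▸ h1) (la5 ▸ h3)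
  have eb := World.lineC _ _ _ _ _ _ lb0 (lb1 ▸ g1) (lb2 ▸ g2) (lb3 ▸ h1) (lb5 ▸ h2)
  rw [← la4, ← la6] at ea
  rw [← lb4, ← lb6] at eb
  have hcov : W.Cov a b m := ⟨hab, hb.symm, ha.symm, h1, eb.1, ea.1⟩
  refine ⟨hcov, fun X hX x1 x2 x3 => hcov.all_eq hac.symm hbc.symm hc.symm g1 eb.2 ea.2 hX x1 x2 x3,
    fun k => if k = b then true else if k = c then true else W.vt b c k,
    W.vertex hbc _ (by intro k k1 k2; simp [k1, k2]), ?_, by simp, by simp [hbc.symm], ?_⟩
  · simp [hab, hac, g2]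
  · simp [hb, hc, h2]

/-- a covering triple such that no further line of `R` contains exactly one corner -/
theorem World.exists_min_cov (W : World ι) {R : Finset ι} (hne : W.T.Nonempty)
    (hR : ∀ X ∈ W.T, 3 ≤ hit R X) : ∃ a ∈ R, ∃ b ∈ R, ∃ c ∈ R, W.Cov a b c ∧ W.ty a b = true ∧
      W.ty a c = false ∧ ∀ x ∈ R, x ≠ a → x ≠ b → x ≠ c →
        ¬ (W.vt a b x = true ∧ W.vt b c x = false ∧ W.vt a c x = false) ∧
        ¬ (W.vt a b x = false ∧ W.vt b c x = true ∧ W.vt a c x = false) ∧
        ¬ (W.vt a b x = false ∧ W.vt b c x = false ∧ W.vt a c x = true) := by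
  classical
  obtain ⟨a0, ha0, b0, hb0, c0, hc0, h0⟩ := W.exists_cov hne hR
  set N : ι × ι × ι → ℕ := fun p =>
    (univ.filter (fun X : ι → Bool => X ∈ W.T ∧ X p.1 = true ∧ X p.2.1 = true ∧
      X p.2.2 = true)).card with hN
  set P : Finset (ι × ι × ι) := univ.filter (fun p => p.1 ∈ R ∧ p.2.1 ∈ R ∧ p.2.2 ∈ R ∧
    W.Cov p.1 p.2.1 p.2.2) with hP
  obtain ⟨⟨a, b, c⟩, habc, hmin⟩ := exists_min_image P N
    ⟨(a0, b0, c0), by rw [hP, mem_filter]; exact ⟨mem_univ _, ha0, hb0, hc0, h0⟩⟩
  rw [hP, mem_filter] at habc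
  obtain ⟨-, ha, hb, hc, hcov⟩ := habc
  simp only at ha hb hc hcov
  -- the order of the three lines does not matter
  have key : ∀ i j k : ι, i ∈ R → j ∈ R → W.Cov i j k →
      (∀ X : ι → Bool, (X i = true ∧ X j = true ∧ X k = true) ↔
        (X a = true ∧ X b = true ∧ X c = true)) → ∀ x ∈ R, x ≠ i → x ≠ j → x ≠ k →
      ¬ (W.vt i j x = true ∧ W.vt j k x = false ∧ W.vt i k x = false) := by
    intro i j k hi hj hk hX x hx x1 x2 x3 hall
    obtain ⟨hc1, hc2, Y, hY, y1, y2, y3, y4⟩ := hk.smaller x1 x2 x3 hall.1 hall.2.1 hall.2.2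
    have h1 := hmin (i, j, x) (by rw [hP, mem_filter]; exact ⟨mem_univ _, hi, hj, hx, hc1⟩)
    have h2 : N (i, j, x) < N (a, b, c) := by
      rw [hN]
      apply card_lt_card
      rw [ssubset_iff_of_subset]
      · refine ⟨Y, ?_, ?_⟩
        · rw [mem_filter]
          exact ⟨mem_univ _, hY, (hX Y).1 ⟨y1, y2, y3⟩⟩
        · rw [mem_filter]
          rintro ⟨-, -, -, -, h5⟩
          rw [y4] at h5
          exact absurd h5 (by simp)
      · intro X hXm
        rw [mem_filter] at hXm ⊢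
        obtain ⟨-, h5, h6, h7, h8⟩ := hXm
        exact ⟨mem_univ _, h5, (hX X).1 ⟨h6, h7, hc2 X h5 h6 h7 h8⟩⟩
    omega
  have main : ∀ i j k : ι, i ∈ R → j ∈ R → k ∈ R → W.Cov i j k →
      (∀ X : ι → Bool, (X i = true ∧ X j = true ∧ X k = true) ↔
        (X a = true ∧ X b = true ∧ X c = true)) → ∀ x ∈ R, x ≠ i → x ≠ j → x ≠ k →
        ¬ (W.vt i j x = true ∧ W.vt j k x = false ∧ W.vt i k x = false) ∧
        ¬ (W.vt i j x = false ∧ W.vt j k x = true ∧ W.vt i k x = false) ∧
        ¬ (W.vt i j x = false ∧ W.vt j k x = false ∧ W.vt i k x = true) := by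
    intro i j k hi hj hk hcv hX x hx x1 x2 x3
    refine ⟨key i j k hi hj hcv hX x hx x1 x2 x3, ?_, ?_⟩
    · rintro ⟨h1, h2, h3⟩
      refine key j k i hj hk hcv.rot (fun X => ?_) x hx x2 x3 x1 ⟨h2, ?_, ?_⟩
      · rw [← hX X]; tauto
      · rw [W.vt_comm]; exact h3
      · rw [W.vt_comm]; exact h1
    · rintro ⟨h1, h2, h3⟩
      refine key i k j hi hk hcv.swap' (fun X => ?_) x hx x1 x3 x2 ⟨h3, ?_, h1⟩
      · rw [← hX X]; tauto
      · rw [W.vt_comm]; exact h2
  rcases hcov.types with h1 | h1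
  · exact ⟨a, ha, b, hb, c, hc, hcov, h1.1, h1.2.1,
      main a b c ha hb hc hcov (fun X => Iff.rfl)⟩
  · exact ⟨a, ha, c, hc, b, hb, hcov.swap', h1.2.1, h1.1,
      main a c b ha hc hb hcov.swap' (fun X => by tauto)⟩

omit [Fintype ι] in
/-- the lines of `R`: first `a`, `b`, `c`, then the others in their order along `a` -/
theorem World.exists_enum (W : World ι) {R : Finset ι} {a b c : ι} (ha : a ∈ R) (hb : b ∈ R)
    (hc : c ∈ R) (hab : a ≠ b) (hbc : b ≠ c) (hac : a ≠ c) :
    ∃ e : ℕ → ι, e 0 = a ∧ e 1 = b ∧ e 2 = c ∧ (∀ i, i < R.card → e i ∈ R) ∧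
      (∀ r ∈ R, ∃ i, i < R.card ∧ e i = r) ∧
      (∀ i j, i < R.card → j < R.card → e i = e j → i = j) ∧
      ∀ i j, 3 ≤ i → i < j → j < R.card → W.pos a (e i) < W.pos a (e j) := by
  classical
  set D : Finset ι := ((R.erase a).erase b).erase c with hD
  have hbD : b ∈ R.erase a := mem_erase.2 ⟨hab.symm, hb⟩
  have hcD : c ∈ (R.erase a).erase b := mem_erase.2 ⟨hbc.symm, mem_erase.2 ⟨hac.symm, hc⟩⟩
  have hDcard : D.card + 3 = R.card := by
    have h1 := card_erase_of_mem hcD
    have h2 := card_erase_of_mem hbD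
    have h3 := card_erase_of_mem ha
    have h4 := card_pos.2 ⟨c, hcD⟩
    have h5 := card_pos.2 ⟨b, hbD⟩
    have h6 := card_pos.2 ⟨a, ha⟩
    rw [hD]
    omega
  have hDm : ∀ x, x ∈ D ↔ x ≠ c ∧ x ≠ b ∧ x ≠ a ∧ x ∈ R := by
    intro x
    rw [hD, mem_erase, mem_erase, mem_erase]
  have hinj : Set.InjOn (W.pos a) D := by
    intro x hx y hy hxy
    by_contra hne
    have hx := (hDm x).1 hx
    have hy := (hDm y).1 hy
    exact W.pos_ne hx.2.2.1 hy.2.2.1 hne hxy
  have hI : (D.image (W.pos a)).card = D.card := card_image_of_injOn hinj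
  have hg : ∀ i : Fin D.card, ∃ d ∈ D, W.pos a d = (D.image (W.pos a)).orderEmbOfFin hI i := by
    intro i
    have := orderEmbOfFin_mem (D.image (W.pos a)) hI i
    rw [mem_image] at this
    exact this
  choose d hd hdg using hg
  have hdm : ∀ i j, i < j → W.pos a (d i) < W.pos a (d j) := by
    intro i j hij
    rw [hdg, hdg]
    exact (OrderEmbedding.lt_iff_lt _).2 hij
  have hds : ∀ x ∈ D, ∃ i, d i = x := by
    intro x hx
    have h1 : W.pos a x ∈ D.image (W.pos a) := mem_image_of_mem _ hx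
    have h2 := range_orderEmbOfFin (D.image (W.pos a)) hI
    have h3 : W.pos a x ∈ Set.range ((D.image (W.pos a)).orderEmbOfFin hI) := by
      rw [h2]
      exact h1
    obtain ⟨i, hi⟩ := h3
    exact ⟨i, hinj (hd i) hx (by rw [hdg, hi])⟩
  let e : ℕ → ι := fun i => if i = 0 then a else if i = 1 then b else if i = 2 then c else
    if h : i - 3 < D.card then d ⟨i - 3, h⟩ else a
  have e3 : ∀ i (h3 : 3 ≤ i) (h : i < R.card), e i = d ⟨i - 3, by omega⟩ := by
    intro i h3 h
    show (if i = 0 then a else if i = 1 then b else if i = 2 then c else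
      if h : i - 3 < D.card then d ⟨i - 3, h⟩ else a) = _
    rw [if_neg (by omega), if_neg (by omega), if_neg (by omega), dif_pos (by omega)]
  have e0 : e 0 = a := rfl
  have e1 : e 1 = b := rfl
  have e2 : e 2 = c := rfl
  have hcase : ∀ i, i = 0 ∨ i = 1 ∨ i = 2 ∨ 3 ≤ i := by intro i; omega
  have hmem : ∀ i, i < R.card → e i ∈ R := by
    intro i hi
    rcases hcase i with rfl | rfl | rfl | h
    · exact ha
    · exact hb
    · exact hc
    · rw [e3 i h hi]
      exact ((hDm _).1 (hd _)).2.2.2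
  have hlt : ∀ i j, 3 ≤ i → i < j → j < R.card → W.pos a (e i) < W.pos a (e j) := by
    intro i j h1 h2 h3
    rw [e3 i h1 (by omega), e3 j (by omega) h3]
    exact hdm _ _ (by rw [Fin.lt_def]; show i - 3 < j - 3; omega)
  have hne : ∀ i, 3 ≤ i → i < R.card → e i ≠ a ∧ e i ≠ b ∧ e i ≠ c := by
    intro i h1 h2
    rw [e3 i h1 h2]
    have := (hDm _).1 (hd ⟨i - 3, by omega⟩)
    exact ⟨this.2.2.1, this.2.1, this.1⟩
  refine ⟨e, e0, e1, e2, hmem, ?_, ?_, hlt⟩
  · intro r hr
    by_cases h1 : r = a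
    · exact ⟨0, by omega, h1.symm⟩
    by_cases h2 : r = b
    · exact ⟨1, by omega, h2.symm⟩
    by_cases h3 : r = c
    · exact ⟨2, by omega, h3.symm⟩
    obtain ⟨i, hi⟩ := hds r ((hDm r).2 ⟨h3, h2, h1, hr⟩)
    have h4 := i.2
    refine ⟨i + 3, by omega, ?_⟩
    rw [e3 _ (by omega) (by omega), ← hi]
    rfl
  · have hlt' : ∀ i j, i < j → i < R.card → j < R.card → e i ≠ e j := by
      intro i j hij hi hj heq
      rcases hcase i with rfl | rfl | rfl | h
      · rcases hcase j with rfl | rfl | rfl | h'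
        · omega
        · exact hab heq
        · exact hac heq
        · exact (hne j h' hj).1 heq.symm
      · rcases hcase j with rfl | rfl | rfl | h'
        · omega
        · omega
        · exact hbc heq
        · exact (hne j h' hj).2.1 heq.symm
      · rcases hcase j with rfl | rfl | rfl | h'
        · omega
        · omega
        · omega
        · exact (hne j h' hj).2.2 heq.symm
      · have := hlt i j h hij hj
        rw [heq] at this
        omega
    intro i j hi hj heq
    rcases lt_trichotomy i j with h | h | h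
    · exact absurd heq (hlt' i j h hi hj)
    · exact h
    · exact absurd heq.symm (hlt' j i h hj hi)

end PHP
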