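import Mathlib
import Pool.Agent.PHP.ExWorld

/-!
# Seven lines in circular order in a world (problem MP_1180db_co, k = 3)

`World.Seven W R a`: the seven lines `a i` of `R` in circular order at infinity: on the line `a i` the lines
`a (i+1), a (i+2), a (i+3)` have one type and `a (i+4), a (i+5), a (i+6)` have the other type.
`World.Corner W R x y`: all other lines of `R` contain the crossing of the lines `x` and `y` of `R`.
-/

namespace PHP

open Finset

variable {ι : Type}

/-- seven lines in circular order at infinity -/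
structure World.Seven (W : World ι) (R : Finset ι) (a : Fin 7 → ι) : Prop where
  inj : Function.Injective a
  mem : ∀ x, x ∈ R ↔ ∃ i, x = a i
  t2 : ∀ i, W.ty (a i) (a (i + 2)) = W.ty (a i) (a (i + 1))
  t3 : ∀ i, W.ty (a i) (a (i + 3)) = W.ty (a i) (a (i + 1))
  t4 : ∀ i, W.ty (a i) (a (i + 4)) = !W.ty (a i) (a (i + 1))
  t5 : ∀ i, W.ty (a i) (a (i + 5)) = !W.ty (a i) (a (i + 1))
  t6 : ∀ i, W.ty (a i) (a (i + 6)) = !W.ty (a i) (a (i + 1))

/-- all other lines of `R` contain the crossing of `x` and `y` -/
def World.Corner (W : World ι) (R : Finset ι) (x y : ι) : Prop :=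
  x ∈ R ∧ y ∈ R ∧ x ≠ y ∧ ∀ k ∈ R, k ≠ x → k ≠ y → W.vt x y k = true

theorem World.Corner.symm {W : World ι} {R : Finset ι} {x y : ι} (h : W.Corner R x y) :
    W.Corner R y x :=
  ⟨h.2.1, h.1, h.2.2.1.symm, fun k hk h1 h2 => by
    rw [W.vt_comm]
    exact h.2.2.2 k hk h2 h1⟩

/-- rotation -/
theorem World.Seven.rot {W : World ι} {R : Finset ι} {a : Fin 7 → ι} (h : W.Seven R a)
    (t : Fin 7) : W.Seven R (fun i => a (i + t)) where
  inj := by
    intro i j hij
    have := h.inj hij
    simpa using this
  mem := by
    intro x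
    rw [h.mem]
    constructor
    · rintro ⟨i, rfl⟩
      exact ⟨i - t, by rw [sub_add_cancel]⟩
    · rintro ⟨i, rfl⟩
      exact ⟨i + t, rfl⟩
  t2 := by
    intro i
    have := h.t2 (i + t)
    rwa [add_right_comm, add_right_comm i t 1] at this
  t3 := by
    intro i
    have := h.t3 (i + t)
    rwa [add_right_comm, add_right_comm i t 1] at this
  t4 := by
    intro i
    have := h.t4 (i + t)
    rwa [add_right_comm, add_right_comm i t 1] at this
  t5 := by
    intro i
    have := h.t5 (i + t)
    rwa [add_right_comm, add_right_comm i t 1] at this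
  t6 := by
    intro i
    have := h.t6 (i + t)
    rwa [add_right_comm, add_right_comm i t 1] at this

end PHP
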