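import Mathlib

/-!
# A small checker for refutations of clause lists (problem MP_1180db_co, k = 3)

A literal is a natural number `l`: the variable `l / 2`, negated if `l` is odd. A clause is a list of literals. A
certificate is a list of pairs (clause, hints); the hints are the places of earlier clauses (the newest clause has the
place `0`) which give the clause by unit propagation. `check_sound`: no assignment satisfies all clauses.
-/

namespace PHP

namespace Rup

/-- the value of a literal -/
def lit (σ : ℕ → Bool) (l : ℕ) : Bool := σ (l / 2) == (l % 2 == 0)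

/-- the clause `c` is satisfied -/
def Sat (σ : ℕ → Bool) (c : List ℕ) : Prop := ∃ l ∈ c, lit σ l = true

/-- the opposite literal -/
def neg (l : ℕ) : ℕ := if l % 2 = 0 then l + 1 else l - 1

theorem lit_neg (σ : ℕ → Bool) (l : ℕ) : lit σ (neg l) = !lit σ l := by
  unfold lit neg
  rcases Nat.mod_two_eq_zero_or_one l with h | h
  · rw [if_pos h]
    have h1 : (l + 1) / 2 = l / 2 := by omega
    have h2 : (l + 1) % 2 = 1 := by omega
    rw [h1, h2, h]
    cases σ (l / 2) <;> rfl
  · rw [if_neg (by omega)]
    have h1 : (l - 1) / 2 = l / 2 := by omega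
    have h2 : (l - 1) % 2 = 0 := by omega
    rw [h1, h2, h]
    cases σ (l / 2) <;> rfl

/-- the clause at the place `n` -/
def nth : List (List ℕ) → ℕ → List ℕ
  | [], _ => [0, 1]
  | c :: _, 0 => c
  | _ :: cs, n + 1 => nth cs n

theorem sat_taut (σ : ℕ → Bool) : Sat σ [0, 1] := by
  unfold Sat lit
  cases h : σ 0
  · exact ⟨1, by simp, by simp [h]⟩
  · exact ⟨0, by simp, by simp [h]⟩

theorem sat_nth {σ : ℕ → Bool} : ∀ (db : List (List ℕ)) (n : ℕ), (∀ c ∈ db, Sat σ c) →
    Sat σ (nth db n)
  | [], _, _ => sat_taut σ
  | c :: _, 0, h => h c (by simp)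
  | _ :: cs, n + 1, h => sat_nth cs n (fun c hc => h c (by simp [hc]))

/-- unit propagation along the hints; `F` is the list of the false literals -/
def run (db : List (List ℕ)) : List ℕ → List ℕ → Bool
  | _, [] => false
  | F, h :: hs =>
    match (nth db h).filter (fun l => !(F.contains l)) with
    | [] => true
    | [l] => run db (neg l :: F) hs
    | _ :: _ :: _ => false

theorem run_sound {σ : ℕ → Bool} {db : List (List ℕ)} (hdb : ∀ c ∈ db, Sat σ c) :
    ∀ (hs F : List ℕ), (∀ l ∈ F, lit σ l = false) → run db F hs = true → False
  | [], F, _, h => by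
    unfold run at h
    exact absurd h (by simp)
  | n :: hs, F, hF, h => by
    unfold run at h
    obtain ⟨l, hl, hl'⟩ := sat_nth db n hdb
    have h1 : l ∈ (nth db n).filter (fun l => !(F.contains l)) := by
      rw [List.mem_filter]
      refine ⟨hl, ?_⟩
      rw [Bool.not_eq_true', ← Bool.not_eq_true, List.contains_iff_mem]
      intro h2
      rw [hF l h2] at hl'
      exact absurd hl' (by simp)
    split at h
    · rename_i h2
      rw [h2] at h1
      exact absurd h1 (by simp)
    · rename_i m h2
      rw [h2, List.mem_singleton] at h1
      subst h1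
      refine run_sound hdb hs (neg l :: F) ?_ h
      intro k hk
      rw [List.mem_cons] at hk
      rcases hk with rfl | hk
      · rw [lit_neg, hl']
        rfl
      · exact hF k hk
    · exact absurd h (by simp)

/-- the certificate ends with the empty clause -/
def check : List (List ℕ) → List (List ℕ × List ℕ) → Bool
  | _, [] => false
  | db, (c, hs) :: rest => run db c hs && (c.isEmpty || check (c :: db) rest)

theorem check_sound {σ : ℕ → Bool} : ∀ (cert : List (List ℕ × List ℕ)) (db : List (List ℕ)),
    (∀ c ∈ db, Sat σ c) → check db cert = true → False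
  | [], db, _, h => by
    unfold check at h
    exact absurd h (by simp)
  | (c, hs) :: rest, db, hdb, h => by
    unfold check at h
    rw [Bool.and_eq_true, Bool.or_eq_true] at h
    obtain ⟨h1, h2⟩ := h
    have h3 : Sat σ c := by
      by_contra hcon
      refine run_sound hdb hs c (fun l hl => ?_) h1
      by_contra h4
      exact hcon ⟨l, hl, by simpa using h4⟩
    rcases h2 with h2 | h2
    · rw [List.isEmpty_iff] at h2
      subst h2
      obtain ⟨l, hl, -⟩ := h3
      exact absurd hl (by simp)
    · refine check_sound (σ := σ) rest (c :: db) ?_ h2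
      intro d hd
      rw [List.mem_cons] at hd
      rcases hd with rfl | hd
      · exact h3
      · exact hdb d hd

/-- the literal: the variable `v` has the value `b` -/
def L (v : ℕ) (b : Bool) : ℕ := 2 * v + (if b then 0 else 1)

theorem lit_L (σ : ℕ → Bool) (v : ℕ) (b : Bool) : lit σ (L v b) = (σ v == b) := by
  unfold lit L
  cases b
  · have h1 : (2 * v + 1) / 2 = v := by omega
    have h2 : (2 * v + 1) % 2 = 1 := by omega
    simp [h1, h2]
  · have h1 : (2 * v) / 2 = v := by omega
    have h2 : (2 * v) % 2 = 0 := by omega
    simp [h1, h2]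

end Rup

end PHP
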