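import Mathlib
import Pool.Agent.PHP.Rup
import Pool.Agent.PHP.HepDefs
import Pool.Agent.PHP.ExGlue

/-!
# Facts about seven (and an eighth) lines as clauses (problem MP_1180db_co, k = 3)

`Fact`: the facts; `Fact.clause`: the clause; `Ctx.sat`: the clauses hold. The lines are `A 0, ..., A 6` in circular
order, `A 7` is one more line. Variables: `V i j k` (the crossing of `i, j` is inside `k`), `U s` (the type of the line
`7` on `s`, relative to that of `s + 1`), `WV x` (the type of `x` on the line `7`), `O x y` (the line `x` crosses `7`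
before `y`), `Z m x` (the cell `X m` is inside `x`).
-/

namespace PHP

open Finset Rup

namespace Hep

/-- the type of `x` on `s` is not that of `s + 1` -/
def far (s x : ℕ) : Bool := decide (4 ≤ (x + 7 - s) % 7)

def V (i j k : ℕ) : ℕ := if i < j then 64 * i + 8 * j + k else 64 * j + 8 * i + k
def U (s : ℕ) : ℕ := 512 + s
def WV (x : ℕ) : ℕ := 520 + x
def O (x y : ℕ) : ℕ := 528 + 8 * x + y
def Z (m x : ℕ) : ℕ := 600 + 8 * m + x
def NC (p : ℕ) : ℕ := 700 + p

/-- `x` crosses `7` before `y` has the value `b` -/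
def OL (x y : ℕ) (b : Bool) : ℕ := if x < y then L (O x y) b else L (O y x) (!b)

inductive Fact
  | eq (s x y : ℕ) (b : Bool)
  | tr (s x y z : ℕ) (b : Bool)
  | d3 (i j k l m : ℕ)
  | hq (a b c f g : ℕ)
  | ex (s x y : ℕ) (b : Bool)
  | xu (s x : ℕ) (b b' : Bool)
  | oo (x y : ℕ) (b b' : Bool)
  | ot (x y z : ℕ) (b : Bool)
  | d4 (i k l m n : ℕ)
  | ms (m i j k : ℕ) (b b' b'' : Bool)
  | zf (m x : ℕ)
  | z2 (m x y : ℕ)

def Fact.clause : Fact → List ℕ
  | .eq s x y b => [L (V s x y) b, L (V s y x) (!(xor b (far s x == far s y)))]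
  | .tr s x y z b => [L (V s x y) (xor (!b) (far s y)), L (V s y z) (xor (!b) (far s z)),
      L (V s z x) (xor (!b) (far s x))]
  | .d3 i j k l m => [L (V i j k) true, L (V i j l) true, L (V i j m) true]
  | .hq a b c f g => [L (V a b c) false, L (V b c a) false, L (V a c b) false,
      L (V a b f) false, L (V b c f) false, L (V a c f) false,
      L (V a b g) false, L (V b c g) false, L (V a c g) false]
  | .ex s x y b => [L (V s 7 x) (xor (!b) (far s x)), L (V s x y) (xor (!b) (far s y)),
      L (V s 7 y) (xor b (far s y))]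
  | .xu s x b b' => [L (U s) (!b), L (V s 7 x) (!b'), L (V s x 7) (xor b (!(xor b' (far s x))))]
  | .oo x y b b' => [OL x y (!b), L (WV y) (!b'), L (V 7 x y) (!(xor b b'))]
  | .ot x y z b => [OL x y (!b), OL y z (!b), OL z x (!b)]
  | .d4 i k l m n => [L (V i 7 k) true, L (V i 7 l) true, L (V i 7 m) true, L (V i 7 n) true]
  | .ms m i j k b b' b'' => [L (Z m i) (!b), L (Z m j) (!b'), L (Z m k) (!b''),
      L (V j k i) b, L (V i k j) b', L (V i j k) b'']
  | .zf m x => [L (Z m x) false]
  | .z2 m x y => [L (Z m x) true, L (Z m y) true]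

/-- distinct numbers less than `n` -/
def dis (n : ℕ) (l : List ℕ) : Bool := l.all (fun i => decide (i < n)) && decide l.Nodup

/-- side conditions; `N` is the number of lines, 7 or 8 -/
def Fact.ok (N : ℕ) : Fact → Bool
  | .eq s x y _ => dis 7 [s, x, y]
  | .tr s x y z _ => dis 7 [s, x, y, z]
  | .d3 i j k l m => dis 7 [i, j, k, l, m]
  | .hq a b c f g => dis N [a, b, c, f, g]
  | .ex s x y _ => decide (N = 8) && dis 7 [s, x, y]
  | .xu s x _ _ => decide (N = 8) && dis 7 [s, x]
  | .oo x y _ _ => decide (N = 8) && dis 7 [x, y]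
  | .ot x y z _ => decide (N = 8) && dis 7 [x, y, z]
  | .d4 i k l m n => decide (N = 8) && dis 7 [i, k, l, m, n]
  | .ms m i j k _ _ _ => decide (N = 8) && decide (m < 7) && dis 8 [i, j, k]
  | .zf m x => decide (N = 8) && decide (m < 7) && decide (x = m ∨ x = 7)
  | .z2 m x y => decide (N = 8) && dis 7 [m, x, y]

variable {ι : Type}

/-- the values of the variables -/
noncomputable def sig (W : World ι) (A : ℕ → ι) (X : ℕ → ι → Bool) (nc : ℕ → Bool) (n : ℕ) :
    Bool :=
  if n < 512 then W.vt (A (n / 64)) (A (n / 8 % 8)) (A (n % 8))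
  else if n < 520 then
    xor (W.ty (A (n - 512)) (A 7)) (W.ty (A (n - 512)) (A ((n - 512 + 1) % 7)))
  else if n < 528 then W.ty (A 7) (A (n - 520))
  else if n < 592 then
    decide (W.pos (A 7) (A ((n - 528) / 8)) < W.pos (A 7) (A ((n - 528) % 8)))
  else if n < 664 then X ((n - 600) / 8) (A ((n - 600) % 8))
  else nc (n - 700)

variable {W : World ι} {A : ℕ → ι} {X : ℕ → ι → Bool} {nc : ℕ → Bool}

theorem sig_V {i j k : ℕ} (hi : i < 8) (hj : j < 8) (hk : k < 8) :
    sig W A X nc (V i j k) = W.vt (A i) (A j) (A k) := by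
  unfold sig V
  by_cases h : i < j
  · rw [if_pos h, if_pos (by omega)]
    have h1 : (64 * i + 8 * j + k) / 64 = i := by omega
    have h2 : (64 * i + 8 * j + k) / 8 % 8 = j := by omega
    have h3 : (64 * i + 8 * j + k) % 8 = k := by omega
    rw [h1, h2, h3]
  · rw [if_neg h, if_pos (by omega)]
    have h1 : (64 * j + 8 * i + k) / 64 = j := by omega
    have h2 : (64 * j + 8 * i + k) / 8 % 8 = i := by omega
    have h3 : (64 * j + 8 * i + k) % 8 = k := by omega
    rw [h1, h2, h3, W.vt_comm]

theorem sig_U {s : ℕ} (hs : s < 7) : sig W A X nc (U s) =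
    xor (W.ty (A s) (A 7)) (W.ty (A s) (A ((s + 1) % 7))) := by
  unfold sig U
  rw [if_neg (by omega), if_pos (by omega)]
  have h1 : 512 + s - 512 = s := by omega
  rw [h1]

theorem sig_WV {x : ℕ} (hx : x < 7) : sig W A X nc (WV x) = W.ty (A 7) (A x) := by
  unfold sig WV
  rw [if_neg (by omega), if_neg (by omega), if_pos (by omega)]
  have h1 : 520 + x - 520 = x := by omega
  rw [h1]

theorem sig_O {x y : ℕ} (hx : x < 7) (hy : y < 7) : sig W A X nc (O x y) =
    decide (W.pos (A 7) (A x) < W.pos (A 7) (A y)) := by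
  unfold sig O
  rw [if_neg (by omega), if_neg (by omega), if_neg (by omega), if_pos (by omega)]
  have h1 : (528 + 8 * x + y - 528) / 8 = x := by omega
  have h2 : (528 + 8 * x + y - 528) % 8 = y := by omega
  rw [h1, h2]

theorem sig_Z {m x : ℕ} (hm : m < 7) (hx : x < 8) : sig W A X nc (Z m x) = X m (A x) := by
  unfold sig Z
  rw [if_neg (by omega), if_neg (by omega), if_neg (by omega), if_neg (by omega),
    if_pos (by omega)]
  have h1 : (600 + 8 * m + x - 600) / 8 = m := by omega
  have h2 : (600 + 8 * m + x - 600) % 8 = x := by omega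
  rw [h1, h2]

theorem sig_NC {p : ℕ} : sig W A X nc (NC p) = nc p := by
  unfold sig NC
  rw [if_neg (by omega), if_neg (by omega), if_neg (by omega), if_neg (by omega),
    if_neg (by omega)]
  have h1 : 700 + p - 700 = p := by omega
  rw [h1]

/-- the properties of the lines -/
structure Ctx (W : World ι) (A : ℕ → ι) (N : ℕ) (X : ℕ → ι → Bool) : Prop where
  le : 7 ≤ N ∧ N ≤ 8
  inj : ∀ i j, i < N → j < N → A i = A j → i = j
  ty : ∀ s x, s < 7 → x < 7 → s ≠ x →
    W.ty (A s) (A x) = xor (W.ty (A s) (A ((s + 1) % 7))) (far s x)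
  d3 : ∀ i j k l m, i < 7 → j < 7 → k < 7 → l < 7 → m < 7 → [i, j, k, l, m].Nodup →
    W.vt (A i) (A j) (A k) = true ∨ W.vt (A i) (A j) (A l) = true ∨ W.vt (A i) (A j) (A m) = true
  hq : W.HQ
  d4 : N = 8 → ∀ i k l m n, i < 7 → k < 7 → l < 7 → m < 7 → n < 7 → [i, k, l, m, n].Nodup →
    W.vt (A i) (A 7) (A k) = true ∨ W.vt (A i) (A 7) (A l) = true ∨
      W.vt (A i) (A 7) (A m) = true ∨ W.vt (A i) (A 7) (A n) = true
  mem : N = 8 → ∀ m, m < 7 → X m ∈ W.T
  zf : N = 8 → ∀ m, m < 7 → X m (A m) = false ∧ X m (A 7) = false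
  z2 : N = 8 → ∀ m x y, m < 7 → x < 7 → y < 7 → [m, x, y].Nodup →
    X m (A x) = true ∨ X m (A y) = true

namespace Ctx

variable {N : ℕ}

/-- the crossings in terms of the order on the line `s` -/
theorem vt_ord (W : World ι) {s x y : ι} (hx : x ≠ s) (hy : y ≠ s) (hxy : x ≠ y) :
    W.vt s x y = !(xor (decide (W.pos s x < W.pos s y)) (W.ty s y)) := by
  rw [W.vt_eq hx hy hxy]
  unfold sg
  by_cases h : W.pos s x < W.pos s y
  · rw [if_pos h, decide_eq_true h]
    cases W.ty s y <;> rfl
  · rw [if_neg h, decide_eq_false h]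
    cases W.ty s y <;> rfl

theorem ord_symm (W : World ι) {s x y : ι} (hx : x ≠ s) (hy : y ≠ s) (hxy : x ≠ y) :
    decide (W.pos s y < W.pos s x) = !decide (W.pos s x < W.pos s y) := by
  have h := W.pos_ne hx hy hxy
  by_cases h1 : W.pos s x < W.pos s y
  · rw [decide_eq_true h1, decide_eq_false (by omega)]
    rfl
  · rw [decide_eq_false h1, decide_eq_true (by omega)]
    rfl

theorem ord_cyc (W : World ι) {s x y z : ι} (hx : x ≠ s) (hy : y ≠ s) (hz : z ≠ s) (hxy : x ≠ y)
    (hyz : y ≠ z) (hxz : x ≠ z) {b : Bool} (h1 : decide (W.pos s x < W.pos s y) = b)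
    (h2 : decide (W.pos s y < W.pos s z) = b) (h3 : decide (W.pos s z < W.pos s x) = b) :
    False := by
  have g1 := W.pos_ne hx hy hxy
  have g2 := W.pos_ne hy hz hyz
  have g3 := W.pos_ne hx hz hxz
  cases b
  · rw [decide_eq_false_iff_not] at h1 h2 h3
    omega
  · rw [decide_eq_true_iff] at h1 h2 h3
    omega

theorem ne (c : Ctx W A N X) {i j : ℕ} (hi : i < N) (hj : j < N) (h : i ≠ j) : A i ≠ A j :=
  fun h1 => h (c.inj i j hi hj h1)

theorem sat_of {σ : ℕ → Bool} {c : List ℕ} (h : ¬ ∀ l ∈ c, lit σ l = false) : Sat σ c := by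
  push Not at h
  obtain ⟨l, h1, h2⟩ := h
  exact ⟨l, h1, by simpa using h2⟩

theorem lit_false {σ : ℕ → Bool} {v : ℕ} {b : Bool} (h : lit σ (L v b) = false) : σ v = !b := by
  rw [lit_L] at h
  cases hv : σ v <;> cases b <;> simp_all

theorem dis_iff {n : ℕ} {l : List ℕ} : dis n l = true ↔ (∀ i ∈ l, i < n) ∧ l.Nodup := by
  unfold dis
  rw [Bool.and_eq_true, List.all_eq_true]
  simp

theorem OL_false (W : World ι) (c : Ctx W A N X) (hN : N = 8) {x y : ℕ} (hx : x < 7)
    (hy : y < 7) (hxy : x ≠ y) {b : Bool} (h : lit (sig W A X nc) (OL x y b) = false) :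
    decide (W.pos (A 7) (A x) < W.pos (A 7) (A y)) = !b := by
  unfold OL at h
  by_cases h1 : x < y
  · rw [if_pos h1] at h
    have h2 := lit_false h
    rwa [sig_O hx hy] at h2
  · rw [if_neg h1] at h
    have h2 := lit_false h
    rw [sig_O hy hx] at h2
    rw [ord_symm W (c.ne (by omega) (by omega) (by omega)) (c.ne (by omega) (by omega) (by omega))
      (c.ne (by omega) (by omega) (by omega)), h2]
    cases b <;> rfl

/-- the clauses hold -/
theorem sat (c : Ctx W A N X) (f : Fact) (hf : f.ok N = true) :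
    Sat (sig W A X nc) f.clause := by
  have hN := c.le
  apply sat_of
  intro hall
  cases f with
  | eq s x y b =>
    simp only [Fact.ok, dis_iff, List.mem_cons, List.not_mem_nil, or_false, forall_eq_or_imp,
      forall_eq, List.nodup_cons, List.nodup_nil, and_true, not_or, not_false_eq_true] at hf
    obtain ⟨⟨h1, h2, h3⟩, ⟨h4, h5⟩, h6⟩ := hf
    simp only [Fact.clause, List.mem_cons, List.not_mem_nil, or_false, forall_eq_or_imp,
      forall_eq] at hall
    obtain ⟨g1, g2⟩ := hall
    have e1 := lit_false g1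
    have e2 := lit_false g2
    rw [sig_V (by omega) (by omega) (by omega)] at e1 e2
    have n1 : A x ≠ A s := c.ne (by omega) (by omega) (Ne.symm h4)
    have n2 : A y ≠ A s := c.ne (by omega) (by omega) (Ne.symm h5)
    have n3 : A x ≠ A y := c.ne (by omega) (by omega) h6
    rw [vt_ord W n1 n2 n3, c.ty s y h1 h3 h5] at e1
    rw [vt_ord W n2 n1 (Ne.symm n3), c.ty s x h1 h2 h4, ord_symm W n1 n2 n3] at e2
    clear g1 g2
    revert e1 e2
    generalize decide (W.pos (A s) (A x) < W.pos (A s) (A y)) = p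
    generalize W.ty (A s) (A ((s + 1) % 7)) = t
    generalize far s x = q
    generalize far s y = r
    revert p t q r b
    decide
  | tr s x y z b =>
    simp only [Fact.ok, dis_iff, List.mem_cons, List.not_mem_nil, or_false, forall_eq_or_imp,
      forall_eq, List.nodup_cons, List.nodup_nil, and_true, not_or, not_false_eq_true] at hf
    obtain ⟨⟨h1, h2, h3, h4⟩, ⟨h5, h6, h7⟩, ⟨h8, h9⟩, h10⟩ := hf
    simp only [Fact.clause, List.mem_cons, List.not_mem_nil, or_false, forall_eq_or_imp,
      forall_eq] at hall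
    obtain ⟨g1, g2, g3⟩ := hall
    have e1 := lit_false g1
    have e2 := lit_false g2
    have e3 := lit_false g3
    rw [sig_V (by omega) (by omega) (by omega)] at e1 e2 e3
    have n1 : A x ≠ A s := c.ne (by omega) (by omega) (Ne.symm h5)
    have n2 : A y ≠ A s := c.ne (by omega) (by omega) (Ne.symm h6)
    have n3 : A z ≠ A s := c.ne (by omega) (by omega) (Ne.symm h7)
    have n4 : A x ≠ A y := c.ne (by omega) (by omega) h8
    have n5 : A x ≠ A z := c.ne (by omega) (by omega) h9
    have n6 : A y ≠ A z := c.ne (by omega) (by omega) h10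
    rw [vt_ord W n1 n2 n4, c.ty s y h1 h3 h6] at e1
    rw [vt_ord W n2 n3 n6, c.ty s z h1 h4 h7] at e2
    rw [vt_ord W n3 n1 (Ne.symm n5), c.ty s x h1 h2 h5] at e3
    have key : ∀ p t q r : Bool, (!(xor p (xor t q))) = (!(xor (!r) q)) → p = xor t (!r) := by
      decide
    exact ord_cyc W n1 n2 n3 n4 n6 n5 (key _ _ _ _ e1) (key _ _ _ _ e2) (key _ _ _ _ e3)
  | d3 i j k l m =>
    simp only [Fact.ok, dis_iff] at hf
    obtain ⟨hf1, hf2⟩ := hf
    simp only [List.mem_cons, List.not_mem_nil, or_false, forall_eq_or_imp, forall_eq] at hf1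
    obtain ⟨h1, h2, h3, h4, h5⟩ := hf1
    simp only [Fact.clause, List.mem_cons, List.not_mem_nil, or_false, forall_eq_or_imp,
      forall_eq] at hall
    obtain ⟨g1, g2, g3⟩ := hall
    have e1 := lit_false g1
    have e2 := lit_false g2
    have e3 := lit_false g3
    rw [sig_V (by omega) (by omega) (by omega)] at e1 e2 e3
    rcases c.d3 i j k l m h1 h2 h3 h4 h5 hf2 with h | h | h
    · rw [h] at e1
      exact absurd e1 (by decide)
    · rw [h] at e2
      exact absurd e2 (by decide)
    · rw [h] at e3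
      exact absurd e3 (by decide)
  | hq a b c' f g =>
    simp only [Fact.ok, dis_iff, List.mem_cons, List.not_mem_nil, or_false, forall_eq_or_imp,
      forall_eq, List.nodup_cons, List.nodup_nil, and_true, not_or, not_false_eq_true] at hf
    obtain ⟨⟨h1, h2, h3, h4, h5⟩, ⟨k1, k2, k3, k4⟩, ⟨k5, k6, k7⟩, ⟨k8, k9⟩, k10⟩ := hf
    simp only [Fact.clause, List.mem_cons, List.not_mem_nil, or_false, forall_eq_or_imp,
      forall_eq] at hall
    obtain ⟨g1, g2, g3, g4, g5, g6, g7, g8, g9⟩ := hall
    have e1 := lit_false g1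
    have e2 := lit_false g2
    have e3 := lit_false g3
    have e4 := lit_false g4
    have e5 := lit_false g5
    have e6 := lit_false g6
    have e7 := lit_false g7
    have e8 := lit_false g8
    have e9 := lit_false g9
    rw [sig_V (by omega) (by omega) (by omega), Bool.not_false] at e1 e2 e3 e4 e5 e6 e7 e8 e9
    exact c.hq (A a) (A b) (A c') (A f) (A g)
      ⟨c.ne h1 h2 k1, c.ne h2 h3 k5, c.ne h1 h3 k2, e1, e2, e3⟩
      (c.ne h4 h5 k10) (c.ne h4 h1 (Ne.symm k3)) (c.ne h4 h2 (Ne.symm k6))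
      (c.ne h4 h3 (Ne.symm k8)) (c.ne h5 h1 (Ne.symm k4)) (c.ne h5 h2 (Ne.symm k7))
      (c.ne h5 h3 (Ne.symm k9)) ⟨e4, e5, e6, e7, e8, e9⟩
  | ex s x y b =>
    simp only [Fact.ok, Bool.and_eq_true, decide_eq_true_eq, dis_iff, List.mem_cons,
      List.not_mem_nil, or_false, forall_eq_or_imp, forall_eq, List.nodup_cons, List.nodup_nil,
      and_true, not_or, not_false_eq_true] at hf
    obtain ⟨h0, ⟨h1, h2, h3⟩, ⟨h4, h5⟩, h6⟩ := hf
    simp only [Fact.clause, List.mem_cons, List.not_mem_nil, or_false, forall_eq_or_imp,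
      forall_eq] at hall
    obtain ⟨g1, g2, g3⟩ := hall
    have e1 := lit_false g1
    have e2 := lit_false g2
    have e3 := lit_false g3
    rw [sig_V (by omega) (by omega) (by omega)] at e1 e2 e3
    have n1 : A x ≠ A s := c.ne (by omega) (by omega) (Ne.symm h4)
    have n2 : A y ≠ A s := c.ne (by omega) (by omega) (Ne.symm h5)
    have n3 : A x ≠ A y := c.ne (by omega) (by omega) h6
    have n4 : A 7 ≠ A s := c.ne (by omega) (by omega) (by omega)
    have n5 : A 7 ≠ A x := c.ne (by omega) (by omega) (by omega)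
    have n6 : A 7 ≠ A y := c.ne (by omega) (by omega) (by omega)
    rw [vt_ord W n4 n1 n5, c.ty s x h1 h2 h4] at e1
    rw [vt_ord W n1 n2 n3, c.ty s y h1 h3 h5] at e2
    rw [vt_ord W n4 n2 n6, c.ty s y h1 h3 h5] at e3
    have key : ∀ p t q r : Bool, (!(xor p (xor t q))) = (!(xor (!r) q)) → p = xor t (!r) := by
      decide
    have key2 : ∀ p t q r : Bool, (!(xor p (xor t q))) = (!(xor r q)) → (!p) = xor t (!r) := by
      decide
    refine ord_cyc W n4 n1 n2 n5 n3 n6 (key _ _ _ _ e1) (key _ _ _ _ e2) ?_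
    rw [ord_symm W n4 n2 n6]
    exact key2 _ _ _ _ e3
  | xu s x b b' =>
    simp only [Fact.ok, Bool.and_eq_true, decide_eq_true_eq, dis_iff, List.mem_cons,
      List.not_mem_nil, or_false, forall_eq_or_imp, forall_eq, List.nodup_cons, List.nodup_nil,
      and_true, not_or, not_false_eq_true] at hf
    obtain ⟨h0, ⟨h1, h2⟩, h4⟩ := hf
    simp only [Fact.clause, List.mem_cons, List.not_mem_nil, or_false, forall_eq_or_imp,
      forall_eq] at hall
    obtain ⟨g1, g2, g3⟩ := hall
    have e1 := lit_false g1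
    have e2 := lit_false g2
    have e3 := lit_false g3
    rw [sig_U h1] at e1
    rw [sig_V (by omega) (by omega) (by omega)] at e2 e3
    have n1 : A x ≠ A s := c.ne (by omega) (by omega) (Ne.symm h4)
    have n4 : A 7 ≠ A s := c.ne (by omega) (by omega) (by omega)
    have n5 : A 7 ≠ A x := c.ne (by omega) (by omega) (by omega)
    rw [vt_ord W n4 n1 n5, c.ty s x h1 h2 h4] at e2
    rw [vt_ord W n1 n4 (Ne.symm n5), ord_symm W n4 n1 n5] at e3
    clear g1 g2 g3
    revert e1 e2 e3
    generalize decide (W.pos (A s) (A 7) < W.pos (A s) (A x)) = p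
    generalize W.ty (A s) (A ((s + 1) % 7)) = t
    generalize W.ty (A s) (A 7) = v
    generalize far s x = q
    revert p t q v b b'
    decide
  | oo x y b b' =>
    simp only [Fact.ok, Bool.and_eq_true, decide_eq_true_eq, dis_iff, List.mem_cons,
      List.not_mem_nil, or_false, forall_eq_or_imp, forall_eq, List.nodup_cons, List.nodup_nil,
      and_true, not_or, not_false_eq_true] at hf
    obtain ⟨h0, ⟨h1, h2⟩, h4⟩ := hf
    simp only [Fact.clause, List.mem_cons, List.not_mem_nil, or_false, forall_eq_or_imp,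
      forall_eq] at hall
    obtain ⟨g1, g2, g3⟩ := hall
    have e1 := OL_false W c h0 h1 h2 h4 g1
    have e2 := lit_false g2
    have e3 := lit_false g3
    rw [sig_WV h2] at e2
    rw [sig_V (by omega) (by omega) (by omega)] at e3
    have n1 : A x ≠ A y := c.ne (by omega) (by omega) h4
    have n4 : A x ≠ A 7 := c.ne (by omega) (by omega) (by omega)
    have n5 : A y ≠ A 7 := c.ne (by omega) (by omega) (by omega)
    rw [vt_ord W n4 n5 n1, e1, e2] at e3
    clear g1 g2 g3 e1 e2
    revert e3
    revert b b'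
    decide
  | ot x y z b =>
    simp only [Fact.ok, Bool.and_eq_true, decide_eq_true_eq, dis_iff, List.mem_cons,
      List.not_mem_nil, or_false, forall_eq_or_imp, forall_eq, List.nodup_cons, List.nodup_nil,
      and_true, not_or, not_false_eq_true] at hf
    obtain ⟨h0, ⟨h1, h2, h3⟩, ⟨h4, h5⟩, h6⟩ := hf
    simp only [Fact.clause, List.mem_cons, List.not_mem_nil, or_false, forall_eq_or_imp,
      forall_eq] at hall
    obtain ⟨g1, g2, g3⟩ := hall
    have e1 := OL_false W c h0 h1 h2 h4 g1
    have e2 := OL_false W c h0 h2 h3 h6 g2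
    have e3 := OL_false W c h0 h3 h1 (Ne.symm h5) g3
    exact ord_cyc W (c.ne (by omega) (by omega) (by omega)) (c.ne (by omega) (by omega) (by omega))
      (c.ne (by omega) (by omega) (by omega)) (c.ne (by omega) (by omega) h4)
      (c.ne (by omega) (by omega) h6) (c.ne (by omega) (by omega) h5) e1 e2 e3
  | d4 i k l m n =>
    simp only [Fact.ok, Bool.and_eq_true, decide_eq_true_eq, dis_iff] at hf
    obtain ⟨h0, hf1, hf2⟩ := hf
    simp only [List.mem_cons, List.not_mem_nil, or_false, forall_eq_or_imp, forall_eq] at hf1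
    obtain ⟨h1, h2, h3, h4, h5⟩ := hf1
    simp only [Fact.clause, List.mem_cons, List.not_mem_nil, or_false, forall_eq_or_imp,
      forall_eq] at hall
    obtain ⟨g1, g2, g3, g4⟩ := hall
    have e1 := lit_false g1
    have e2 := lit_false g2
    have e3 := lit_false g3
    have e4 := lit_false g4
    rw [sig_V (by omega) (by omega) (by omega)] at e1 e2 e3 e4
    rcases c.d4 h0 i k l m n h1 h2 h3 h4 h5 hf2 with h | h | h | h
    · rw [h] at e1
      exact absurd e1 (by decide)
    · rw [h] at e2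
      exact absurd e2 (by decide)
    · rw [h] at e3
      exact absurd e3 (by decide)
    · rw [h] at e4
      exact absurd e4 (by decide)
  | ms m i j k b b' b'' =>
    simp only [Fact.ok, Bool.and_eq_true, decide_eq_true_eq, dis_iff, List.mem_cons,
      List.not_mem_nil, or_false, forall_eq_or_imp, forall_eq, List.nodup_cons, List.nodup_nil,
      and_true, not_or, not_false_eq_true] at hf
    obtain ⟨⟨h0, hm⟩, ⟨h1, h2, h3⟩, ⟨h4, h5⟩, h6⟩ := hf
    simp only [Fact.clause, List.mem_cons, List.not_mem_nil, or_false, forall_eq_or_imp,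
      forall_eq] at hall
    obtain ⟨g1, g2, g3, g4, g5, g6⟩ := hall
    have e1 := lit_false g1
    have e2 := lit_false g2
    have e3 := lit_false g3
    have e4 := lit_false g4
    have e5 := lit_false g5
    have e6 := lit_false g6
    rw [sig_Z hm h1] at e1
    rw [sig_Z hm h2] at e2
    rw [sig_Z hm h3] at e3
    rw [sig_V h2 h3 h1] at e4
    rw [sig_V h1 h3 h2] at e5
    rw [sig_V h1 h2 h3] at e6
    refine W.miss (c.ne (by omega) (by omega) h4) (c.ne (by omega) (by omega) h6)
      (c.ne (by omega) (by omega) h5) (X m) (c.mem h0 m hm) ⟨?_, ?_, ?_⟩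
    · rw [e1, e4]
    · rw [e2, e5]
    · rw [e3, e6]
  | zf m x =>
    simp only [Fact.ok, Bool.and_eq_true, decide_eq_true_eq] at hf
    obtain ⟨⟨h0, hm⟩, hx⟩ := hf
    simp only [Fact.clause, List.mem_cons, List.not_mem_nil, or_false, forall_eq] at hall
    have e1 := lit_false hall
    obtain ⟨k1, k2⟩ := c.zf h0 m hm
    rcases hx with rfl | rfl
    · rw [sig_Z hm (by omega), k1] at e1
      exact absurd e1 (by decide)
    · rw [sig_Z hm (by omega), k2] at e1
      exact absurd e1 (by decide)
  | z2 m x y =>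
    simp only [Fact.ok, Bool.and_eq_true, decide_eq_true_eq, dis_iff] at hf
    obtain ⟨h0, hf1, hf2⟩ := hf
    simp only [List.mem_cons, List.not_mem_nil, or_false, forall_eq_or_imp, forall_eq] at hf1
    obtain ⟨h1, h2, h3⟩ := hf1
    simp only [Fact.clause, List.mem_cons, List.not_mem_nil, or_false, forall_eq_or_imp,
      forall_eq] at hall
    obtain ⟨g1, g2⟩ := hall
    have e1 := lit_false g1
    have e2 := lit_false g2
    rw [sig_Z h1 (by omega)] at e1 e2
    rcases c.z2 h0 m x y h1 h2 h3 hf2 with h | h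
    · rw [h] at e1
      exact absurd e1 (by decide)
    · rw [h] at e2
      exact absurd e2 (by decide)

/-- a certificate for facts and further clauses -/
theorem refute (c : Ctx W A N X) (fs : List Fact) (cs : List (List ℕ))
    (cert : List (List ℕ × List ℕ)) (hf : fs.all (Fact.ok N) = true)
    (hcs : ∀ d ∈ cs, Sat (sig W A X nc) d)
    (h : check (fs.map Fact.clause ++ cs) cert = true) : False := by
  refine check_sound (σ := sig W A X nc) cert _ ?_ h
  intro d hd
  rw [List.mem_append, List.mem_map] at hd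
  rcases hd with ⟨f, h1, rfl⟩ | hd
  · exact c.sat f (List.all_eq_true.1 hf f h1)
  · exact hcs d hd

end Ctx

end Hep

end PHP
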