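import Mathlib
import Pool.Agent.PHP.HepFact

/-!
# Certificates for seven and eight lines (problem MP_1180db_co, k = 3)

Facts, further clauses and certificates (lists of learned clauses with hints) for the four statements of the file
`HepCert`. All are checked by the kernel.
-/

namespace PHP

open Rup

namespace Hep

/-- some line other than `i, j` does not contain their crossing -/
def nonc (i j : ℕ) : List ℕ :=
  ((List.range 7).filter (fun k => decide (k ≠ i ∧ k ≠ j))).map (fun k => L (V i j k) false)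

def pairs : List (ℕ × ℕ) :=
  (List.range 7).flatMap (fun p => ((List.range 7).filter (fun s => decide (s ≠ p))).map
    (fun s => (p, s)))

def fives : List (List ℕ) := [
    [0, 1, 2, 3, 4], [0, 1, 2, 3, 5], [0, 1, 2, 3, 6], [0, 1, 2, 4, 5], [0, 1, 2, 4, 6],
    [0, 1, 2, 5, 6], [0, 1, 3, 4, 5], [0, 1, 3, 4, 6], [0, 1, 3, 5, 6], [0, 1, 4, 5, 6],
    [0, 2, 3, 4, 5], [0, 2, 3, 4, 6], [0, 2, 3, 5, 6], [0, 2, 4, 5, 6], [0, 3, 4, 5, 6],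
    [1, 2, 3, 4, 5], [1, 2, 3, 4, 6], [1, 2, 3, 5, 6], [1, 2, 4, 5, 6], [1, 3, 4, 5, 6],
    [2, 3, 4, 5, 6]]

/-- facts of the refutation A -/
def factsA : List Fact := [
    .eq 0 1 3 false, .eq 0 1 4 false, .tr 0 1 3 2 true, .eq 1 0 4 false, .hq 0 1 4 5 6,
    .eq 0 3 4 true, .tr 0 2 4 6 true, .tr 0 2 5 4 false, .eq 1 0 5 false, .eq 1 0 6 false,
    .tr 1 0 4 5 true, .eq 4 0 3 false, .d3 0 2 4 5 6, .d3 0 3 1 2 5, .eq 0 2 5 false,
    .eq 0 2 6 false, .eq 0 3 4 false, .tr 0 2 4 5 true, .tr 0 2 6 4 false, .tr 0 3 5 4 true,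
    .tr 1 0 4 2 true, .tr 1 0 4 6 true, .tr 1 0 6 4 false, .eq 2 5 6 false, .tr 2 0 6 3 false,
    .eq 3 0 2 true, .tr 4 0 3 1 false, .tr 4 0 3 2 false, .eq 5 0 4 true, .tr 5 0 2 4 true,
    .tr 5 0 6 4 true, .eq 6 1 4 false, .d3 0 3 1 2 4, .d3 0 3 1 2 6, .d3 0 4 1 2 5, .d3 0 4 1 2 6,
    .d3 1 4 2 3 6, .d3 3 4 1 2 5, .d3 3 4 1 2 6, .hq 0 3 4 5 6, .hq 2 5 6 3 4, .eq 0 1 2 true,
    .eq 0 1 2 false, .eq 0 1 3 true, .eq 0 1 4 true, .eq 0 1 5 true, .eq 0 1 5 false,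
    .eq 0 1 6 true, .eq 0 2 4 true, .eq 0 2 5 true, .eq 0 3 5 false, .eq 0 4 6 true,
    .eq 0 5 6 true, .tr 0 1 2 3 false, .tr 0 1 2 4 true, .tr 0 1 2 5 false, .tr 0 1 4 6 false,
    .tr 0 1 5 2 true, .tr 0 1 5 4 true, .tr 0 1 6 4 true, .tr 0 2 3 6 true, .tr 0 2 6 5 false,
    .tr 0 3 6 4 true, .tr 0 4 6 5 true, .eq 1 0 2 true, .eq 1 0 3 true, .eq 1 0 4 true,
    .eq 1 0 5 true, .eq 1 0 6 true, .eq 1 4 6 false, .tr 1 0 4 3 true, .tr 1 0 6 5 true,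
    .tr 1 0 6 5 false, .eq 2 0 4 true, .eq 2 0 5 true, .eq 2 0 5 false, .eq 2 0 6 false,
    .eq 2 5 6 true, .tr 2 0 3 4 true, .tr 2 0 3 5 true, .tr 2 0 4 3 false, .tr 2 0 5 1 true,
    .tr 2 0 5 3 false, .tr 2 0 5 4 true, .eq 3 0 4 false, .eq 3 0 5 false, .eq 3 0 6 false,
    .eq 3 2 6 false, .tr 3 2 4 6 false, .eq 4 0 1 true, .eq 4 0 5 true, .eq 4 1 3 true,
    .eq 4 1 6 false, .eq 4 5 6 true, .tr 4 0 2 1 true, .tr 4 0 2 5 true, .tr 4 0 3 5 false,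
    .tr 4 0 5 6 true, .tr 4 0 6 2 false, .tr 4 0 6 5 true, .tr 4 0 6 5 false, .eq 5 0 2 true,
    .eq 5 0 4 false, .eq 5 0 6 false, .eq 5 2 6 false, .tr 5 0 2 1 true, .tr 5 0 2 3 true,
    .tr 5 0 6 1 true, .tr 5 0 6 3 true, .eq 6 0 4 true, .eq 6 0 4 false, .eq 6 2 4 true,
    .eq 6 2 5 false, .tr 6 0 2 1 false, .tr 6 0 4 2 false, .tr 6 0 4 3 true, .tr 6 0 4 5 false,
    .tr 6 0 5 1 false, .tr 6 0 5 3 true, .tr 6 1 2 4 true, .d3 0 1 2 3 4, .d3 0 1 2 3 5,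
    .d3 0 1 2 3 6, .d3 0 1 2 5 6, .d3 0 2 1 4 5, .d3 0 2 1 4 6, .d3 0 2 3 4 5, .d3 0 4 1 2 3,
    .d3 0 4 2 3 5, .d3 0 4 2 3 6, .d3 0 4 2 5 6, .d3 0 5 1 2 6, .d3 1 4 2 3 5, .d3 1 6 0 2 5,
    .d3 2 3 4 5 6, .d3 2 4 0 5 6, .d3 2 5 0 1 6, .d3 2 5 3 4 6, .d3 2 6 0 1 5, .d3 4 6 0 2 5,
    .d3 5 6 0 1 2, .hq 0 1 4 3 5, .hq 0 2 5 1 3, .hq 0 3 4 1 5, .hq 0 3 4 1 6, .hq 1 4 6 0 5,
    .hq 2 4 6 1 3, .hq 2 5 6 0 1]

/-- the further clauses of the refutation A -/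
def extraA : List (List ℕ) := [[L (V 0 2 4) false]]

/-- the certificate of the refutation A -/
def certA : List (List ℕ × List ℕ) := [
    ([69], [148, 48]), ([321], [149, 74]),
    ([21], [150, 1, 0, 44, 56, 126, 127, 91, 129, 36, 37, 9, 20, 7, 21, 64, 13, 28, 29, 39, 40, 41]),
    ([34], [0, 44]), ([161], [1, 68]),
    ([43, 29, 27, 25, 23], [2, 4, 0, 1, 153, 3, 14, 26, 13, 15, 51, 8, 6, 5, 7, 18, 55, 58, 19, 12, 80, 86, 88, 22, 147, 33, 9, 142, 56, 11, 68, 103, 105, 28, 109, 119, 121, 118, 122, 152]),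
    ([29, 27, 25, 23], [2, 154, 5, 4, 14, 16, 9, 100, 7, 6, 8, 39, 92, 31, 86, 15, 28, 27, 37, 0, 55, 88, 18, 67, 21, 24, 82, 30, 58, 124, 12, 115, 121, 10, 96, 105, 36, 101, 35, 145, 141, 117, 152, 144, 83, 118, 46]),
    ([27, 25, 23], [3, 2, 6, 27, 10, 8, 9, 7, 39, 23, 15, 17, 0, 54, 66, 75, 78, 63, 117, 137, 104, 148, 100, 43, 76, 99, 152]),
    ([25, 23], [4, 5, 156, 8, 10, 21, 93, 33, 9, 11, 0, 53, 65, 66, 75, 131, 63, 109, 114, 139, 110, 80, 113, 115, 17, 30, 20, 111, 116, 38, 37, 141, 144, 148, 39, 32, 127, 31, 48]),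
    ([23], [5, 7, 8, 9, 11, 41, 22, 42, 25, 93, 36, 0, 53, 75, 43, 44, 35, 46, 47, 48]),
    ([50], [0, 53]), ([177], [1, 76]), ([24], [2, 9, 132]), ([26], [3, 10, 134]),
    ([28], [4, 11, 136]), ([66], [2, 16]), ([192], [3, 19]), ([197], [4, 12, 37]),
    ([199], [5, 6, 88]), ([450], [0, 110]), ([202], [1, 2, 152]), ([204], [2, 3, 57]),
    ([43], [170, 1, 0, 8, 5, 9, 7, 21, 2, 6, 11, 36, 29, 39, 50, 26, 151, 27, 41, 33, 118, 165]),
    ([337], [0, 97]), ([44], [1, 172, 36]), ([38], [2, 173, 151]), ([315], [2, 0, 105]),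
    ([100], [2, 42]), ([313], [2, 26, 106]), ([316], [2, 0, 163]), ([76], [2, 178, 36]),
    ([60], [3, 5, 91]), ([484], [2, 119]), ([75], [2, 18, 17, 20, 16, 19, 11, 12, 37]),
    ([460], [1, 5, 122]), ([70], [1, 34, 163]), ([56], [0, 41]), ([448], [1, 48]),
    ([], [1, 2, 27, 22, 6, 7, 0, 18, 3, 182])]

theorem factsA_ok : factsA.all (Fact.ok 7) = true := by decide +kernel

theorem certA_ok : Rup.check (factsA.map Fact.clause ++ extraA) certA = true := by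
  decide +kernel

/-- facts of the refutation B -/
def factsB : List Fact := [
    .eq 0 1 2 false, .eq 1 4 5 false, .eq 1 0 2 false, .eq 1 0 4 false, .eq 0 1 3 true,
    .eq 0 1 4 false, .eq 1 2 4 true, .eq 4 0 2 false, .tr 0 1 2 3 true, .eq 1 0 5 false,
    .eq 4 1 2 true, .eq 5 1 2 false, .eq 0 1 5 false, .eq 4 0 3 false, .eq 4 1 5 false,
    .eq 0 1 3 false, .eq 1 0 5 true, .eq 1 2 4 false, .eq 1 2 5 false, .eq 3 0 2 false,
    .eq 4 1 2 false, .d3 0 2 1 3 6, .eq 0 1 5 true, .eq 0 2 4 true, .eq 0 3 4 true,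
    .tr 0 1 3 2 false, .eq 1 0 3 true, .eq 1 0 3 false, .eq 1 2 5 true, .eq 5 0 4 false,
    .eq 5 1 3 false, .eq 6 1 5 false, .eq 0 2 4 false, .tr 0 1 4 2 false, .tr 0 1 4 3 false,
    .tr 0 1 6 4 true, .tr 1 0 2 3 true, .eq 2 0 6 false, .eq 2 3 4 true, .tr 2 0 1 6 true,
    .eq 3 1 4 false, .eq 6 1 2 true, .eq 6 2 5 false, .d3 0 2 1 3 5, .eq 0 3 6 false,
    .eq 0 4 5 false, .eq 1 2 6 true, .eq 1 3 5 true, .eq 1 4 5 true, .tr 1 0 3 2 false,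
    .tr 1 0 3 5 true, .tr 1 0 5 2 false, .tr 1 0 5 3 false, .tr 1 0 5 4 false, .eq 2 3 6 true,
    .eq 2 4 6 true, .eq 3 0 6 false, .eq 4 2 5 false, .eq 5 2 6 false, .d3 1 2 3 4 5,
    .d3 2 6 3 4 5, .hq 0 2 4 1 3, .hq 1 3 5 2 4, .eq 0 2 3 true, .eq 0 2 5 false, .eq 0 2 6 false,
    .eq 0 3 5 true, .eq 0 4 6 true, .tr 0 1 3 4 true, .eq 1 2 3 false, .eq 1 2 6 false,
    .tr 1 0 4 5 true, .tr 1 2 3 4 false, .tr 1 2 4 3 false, .tr 1 2 4 6 true, .tr 1 2 6 4 false,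
    .eq 2 0 5 false, .eq 2 1 6 false, .eq 2 3 5 true, .eq 2 4 6 false, .tr 2 0 5 3 true,
    .tr 2 0 6 1 false, .tr 2 3 5 4 false, .eq 3 0 2 true, .eq 3 1 2 false, .eq 3 2 6 false,
    .eq 4 0 5 true, .eq 4 2 6 false, .eq 5 0 2 false, .eq 5 0 3 false, .eq 5 1 2 true,
    .eq 5 2 3 true, .tr 5 1 2 4 true, .eq 6 0 4 false, .eq 6 1 4 false, .tr 6 0 1 5 false,
    .d3 0 2 1 3 4, .d3 0 3 1 2 6, .d3 0 4 3 5 6, .d3 0 5 1 3 6, .d3 1 2 0 5 6, .d3 1 4 2 3 5,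
    .d3 2 3 0 1 6, .d3 2 4 1 3 5, .d3 2 5 3 4 6, .hq 0 1 4 2 3, .hq 0 1 4 5 6, .hq 1 2 5 3 4,
    .hq 2 5 6 0 1, .hq 2 5 6 3 4, .eq 0 1 4 true, .eq 0 1 6 true, .tr 0 1 3 5 true,
    .tr 0 1 4 5 true, .tr 0 1 5 2 false, .tr 0 1 5 3 false, .tr 0 1 5 4 true, .tr 0 2 6 4 false,
    .tr 0 3 6 4 true, .tr 0 4 5 6 false, .eq 1 0 4 true, .eq 1 0 6 true, .eq 1 3 4 true,
    .eq 1 3 5 false, .eq 1 5 6 true, .eq 1 5 6 false, .tr 1 0 2 4 true, .tr 1 0 2 5 true,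
    .tr 1 0 3 2 true, .tr 1 0 3 4 true, .tr 1 0 3 4 false, .tr 1 0 6 5 true, .tr 1 2 4 3 true,
    .tr 1 2 4 5 true, .tr 1 4 6 5 true, .eq 2 0 3 false, .eq 2 1 3 false, .eq 2 1 5 false,
    .eq 2 1 6 true, .eq 2 4 5 false, .eq 2 5 6 false, .tr 2 0 3 4 true, .tr 2 0 3 6 true,
    .tr 2 0 4 3 true, .tr 2 0 4 5 true, .tr 2 0 4 6 true, .tr 2 1 4 6 true, .tr 2 1 5 6 true,
    .tr 2 1 6 3 false, .tr 2 1 6 4 false, .eq 3 1 2 true, .eq 3 4 5 true, .tr 3 1 5 2 true,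
    .eq 4 0 2 true, .eq 4 0 6 true, .eq 4 1 3 true, .eq 4 1 3 false, .eq 4 1 6 false,
    .eq 4 2 6 true, .eq 4 5 6 true, .tr 4 0 2 5 true, .tr 4 0 3 2 false, .tr 4 1 2 6 true,
    .eq 5 1 6 true, .eq 5 2 6 true, .tr 5 0 1 2 true, .tr 5 0 6 1 true, .tr 5 1 2 3 true,
    .tr 5 1 4 6 false, .tr 5 1 6 3 true, .tr 5 1 6 4 true, .tr 5 3 4 6 true, .eq 6 0 1 false,
    .eq 6 1 2 false, .eq 6 2 3 false, .eq 6 4 5 true, .tr 6 0 2 1 false, .tr 6 1 2 3 false,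
    .tr 6 1 5 2 false, .d3 0 1 2 3 4, .d3 0 2 4 5 6, .d3 0 4 2 3 5, .d3 0 4 2 5 6, .d3 0 5 2 4 6,
    .d3 0 5 3 4 6, .d3 1 3 0 5 6, .d3 1 4 0 5 6, .d3 1 4 2 3 6, .d3 1 5 0 2 6, .d3 1 5 0 3 6,
    .d3 1 5 2 3 4, .d3 2 4 0 5 6, .d3 2 4 3 5 6, .d3 2 5 0 1 6, .d3 3 6 0 4 5, .hq 0 2 4 1 5,
    .hq 0 2 4 1 6, .hq 0 2 5 3 4, .hq 0 3 4 1 2, .hq 0 3 4 1 6, .hq 0 3 6 1 2, .hq 0 3 6 4 5,
    .hq 1 2 5 0 6, .hq 1 4 5 2 3, .hq 1 4 6 0 5, .hq 2 3 6 0 1, .eq 0 1 2 true, .eq 0 1 6 false,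
    .eq 0 2 3 false, .eq 0 2 5 true, .eq 0 2 6 true, .eq 0 3 5 false, .eq 0 4 5 true,
    .tr 0 1 2 3 false, .tr 0 1 2 4 true, .tr 0 1 3 2 true, .tr 0 1 4 2 true, .tr 0 1 4 3 true,
    .tr 0 1 4 5 false, .tr 0 1 5 2 true, .tr 0 1 5 3 true, .tr 0 1 5 6 false, .tr 0 1 6 4 false,
    .tr 0 1 6 5 true, .tr 0 2 3 6 true, .tr 0 2 4 6 true, .tr 0 2 5 4 true, .tr 0 2 5 4 false,
    .tr 0 2 5 6 false, .tr 0 2 6 3 false, .tr 0 3 4 5 true, .eq 1 0 2 true, .eq 1 0 6 false,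
    .eq 1 2 3 true, .eq 1 3 6 false, .eq 1 4 6 false, .tr 1 0 2 3 false, .tr 1 0 2 4 false,
    .tr 1 0 2 5 false, .tr 1 0 2 6 true, .tr 1 0 2 6 false, .tr 1 0 4 2 true, .tr 1 0 4 2 false,
    .tr 1 0 4 3 true, .tr 1 0 4 3 false, .tr 1 0 5 6 true, .tr 1 0 5 6 false, .tr 1 0 6 2 true,
    .tr 1 0 6 2 false, .tr 1 0 6 4 false, .tr 1 0 6 5 false, .tr 1 2 3 5 true, .tr 1 2 3 5 false,
    .tr 1 2 3 6 false, .tr 1 2 4 5 false, .tr 1 2 4 6 false, .tr 1 2 5 3 false, .tr 1 2 5 6 false,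
    .tr 1 2 6 5 true, .tr 1 3 4 5 false, .tr 1 3 4 6 false, .tr 1 3 6 4 true, .tr 1 4 5 6 true,
    .tr 1 4 6 5 false, .eq 2 0 3 true, .eq 2 0 4 false, .eq 2 0 6 true, .eq 2 1 3 true,
    .eq 2 3 4 false, .eq 2 3 6 false, .eq 2 4 5 true, .eq 2 5 6 true, .tr 2 0 1 4 false,
    .tr 2 0 1 5 true, .tr 2 0 3 1 false, .tr 2 0 3 4 false, .tr 2 0 3 5 false, .tr 2 0 4 3 false,
    .tr 2 0 5 6 true, .tr 2 0 6 1 true, .tr 2 0 6 4 false, .tr 2 0 6 5 false, .tr 2 1 3 5 true,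
    .tr 2 1 3 6 true, .tr 2 1 5 3 true, .tr 2 1 6 3 true, .tr 2 1 6 5 false, .tr 2 3 4 5 true,
    .tr 2 3 4 5 false, .tr 2 3 4 6 true, .tr 2 3 4 6 false, .tr 2 3 5 6 false, .eq 3 0 4 false,
    .eq 3 0 6 true, .eq 3 1 5 false, .eq 3 1 6 false, .eq 3 4 6 true, .eq 3 5 6 false,
    .tr 3 0 2 1 true, .tr 3 0 2 6 true, .tr 3 0 4 2 true, .tr 3 0 4 5 true, .tr 3 0 6 4 false,
    .tr 3 0 6 5 false, .tr 3 1 4 2 true, .tr 3 1 4 2 false, .tr 3 1 5 6 true, .tr 3 1 6 5 true,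
    .tr 3 2 6 4 false, .tr 3 4 5 6 true, .tr 3 4 6 5 false, .eq 4 1 5 true, .eq 4 2 3 true,
    .eq 4 2 5 true, .eq 4 3 5 true, .tr 4 0 1 2 true, .tr 4 0 1 5 true, .tr 4 0 2 3 true,
    .tr 4 0 2 5 false, .tr 4 0 2 6 true, .tr 4 0 3 1 false, .tr 4 0 3 5 false, .tr 4 0 3 6 false,
    .tr 4 0 5 6 true, .tr 4 0 6 2 true, .tr 4 1 2 3 false, .tr 4 1 3 2 true, .tr 4 1 5 2 true,
    .tr 4 1 5 2 false, .tr 4 1 5 3 true, .tr 4 1 5 6 false, .tr 4 1 6 2 true, .tr 4 1 6 3 true,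
    .tr 4 2 3 6 false, .tr 4 2 5 3 true, .tr 4 2 5 6 true, .tr 4 2 6 3 true, .tr 4 2 6 5 false,
    .eq 5 0 3 true, .eq 5 0 4 true, .eq 5 1 3 true, .eq 5 1 6 false, .eq 5 2 4 true,
    .eq 5 3 4 true, .tr 5 0 1 3 false, .tr 5 0 1 4 false, .tr 5 0 2 6 true, .tr 5 0 3 4 true,
    .tr 5 0 4 3 false, .tr 5 0 4 6 false, .tr 5 1 2 6 true, .tr 5 1 3 4 false, .tr 5 1 3 6 false,
    .tr 5 1 4 6 true, .tr 5 2 3 4 true, .tr 5 2 6 3 true, .eq 6 0 1 true, .eq 6 0 3 true,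
    .eq 6 0 3 false, .eq 6 0 5 false, .eq 6 1 5 true, .eq 6 2 5 true, .eq 6 3 5 true,
    .tr 6 0 1 2 true, .tr 6 0 1 4 false, .tr 6 0 2 1 true, .tr 6 0 2 3 true, .tr 6 0 2 4 false,
    .tr 6 0 2 5 false, .tr 6 0 3 4 false, .tr 6 0 4 1 true, .tr 6 0 4 2 false, .tr 6 0 4 5 false,
    .tr 6 0 5 1 true, .tr 6 0 5 3 true, .tr 6 0 5 4 true, .tr 6 1 2 4 true, .tr 6 3 4 5 true,
    .d3 0 1 2 3 5, .d3 0 1 2 3 6, .d3 0 1 2 4 5, .d3 0 1 2 4 6, .d3 0 1 3 5 6, .d3 0 2 1 5 6,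
    .d3 0 2 3 4 5, .d3 0 3 4 5 6, .d3 0 4 1 2 3, .d3 0 4 1 2 6, .d3 0 4 1 3 6, .d3 0 4 2 3 6,
    .d3 0 5 1 2 3, .d3 0 5 1 2 4, .d3 0 6 1 2 3, .d3 0 6 1 2 5, .d3 1 2 0 3 4, .d3 1 2 0 3 6,
    .d3 1 2 0 4 5, .d3 1 2 3 4 6, .d3 1 4 0 2 5, .d3 1 4 3 5 6, .d3 1 5 0 2 3, .d3 1 6 0 2 5,
    .d3 2 4 0 1 5, .d3 2 4 0 3 5, .d3 2 5 1 3 6, .d3 2 6 0 1 3, .d3 3 4 1 2 6, .d3 3 5 0 4 6,
    .d3 4 5 0 2 6, .d3 4 5 0 3 6, .hq 0 1 4 2 5, .hq 0 1 4 3 5, .hq 0 2 4 5 6, .hq 0 2 5 1 3,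
    .hq 0 3 4 1 5, .hq 0 3 4 5 6, .hq 0 3 5 1 2, .hq 0 3 5 2 4, .hq 1 2 5 0 4, .hq 1 3 5 0 6,
    .hq 1 3 6 2 4, .hq 1 4 5 0 2, .hq 1 4 5 0 6, .hq 1 4 5 2 6, .hq 1 4 6 2 3, .hq 2 3 6 4 5,
    .hq 2 4 6 0 1, .hq 2 4 6 1 3]

/-- the further clauses of the refutation B -/
def extraB : List (List ℕ) := (List.range 7).map (fun i => nonc i ((i + 1) % 7))

/-- the certificate of the refutation B -/
def certB : List (List ℕ × List ℕ) := [

    ([196, 173, 229, 333, 741, 609, 737, 235, 225, 203, 187, 171, 217, 215, 213, 193, 161], [31, 30, 6, 75, 162, 74, 429, 204, 233, 72, 267, 159, 175, 152, 433, 62, 171]),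
    ([197, 61, 27, 25, 23, 21], [57, 45, 13, 429, 224, 6, 36, 28, 53, 31, 10, 51, 113, 4, 54, 3, 52, 16, 35, 14, 69, 1, 34, 18, 21, 106, 74, 123, 156, 327, 85, 153, 63, 152, 432, 297, 311, 202]),
    ([173, 196, 609, 737, 235, 225, 203, 187, 171, 217, 215, 213, 193, 161], [8, 72, 79, 180, 148, 1]),
    ([333, 353, 355, 196, 609, 321], [13, 82, 90, 165, 429]),
    ([741, 353, 355, 739, 737, 337, 339], [168, 365, 112]),
    ([39, 27, 25, 23, 21], [14, 433, 136, 36, 10, 40, 98, 116, 100, 126, 5, 119, 93, 7, 56, 16, 76, 55, 132, 8, 58, 32, 57, 38, 12, 20, 213, 140, 102, 61, 3, 2, 51, 143, 44, 1, 60, 0, 47, 65, 59, 179, 290, 182, 210]),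
    ([27, 25, 23, 21], [21, 40, 19, 6, 39, 13, 9, 11, 33, 8, 15, 57, 58, 59, 120, 121, 434, 133, 56, 77, 94, 95, 117, 41, 127, 137, 101, 99, 0, 270, 280, 27, 281, 282, 108, 43, 286, 287, 275, 91, 45, 3, 4, 308, 309, 431]),
    ([235, 225, 203, 205, 233, 354, 209, 89, 82, 57, 193, 50], [179, 371, 101, 377, 38, 185, 102, 211, 173, 380, 171, 353, 166, 182, 106, 440, 73, 96, 369, 178, 384, 362, 424, 104, 51, 63, 208]),
    ([234, 203, 205, 593, 209, 193], [22, 9, 132, 368, 430, 176]),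
    ([203, 205, 233, 354, 89, 26, 57, 193, 50], [38, 25, 31, 0, 134, 1, 254]),
    ([196, 173, 89, 26, 57, 193, 23], [87, 80, 26, 32, 37, 25, 16, 85, 84, 104, 0, 58, 143, 272, 340, 111, 363, 200, 271, 57, 40, 354, 362, 429]),
    ([203, 597, 213, 197, 593, 209, 193], [12, 25, 432]),
    ([173, 25, 23, 21], [17, 5, 128, 41, 28, 80, 15, 27, 46, 12, 45, 14, 89, 1, 29, 32, 117, 85, 167, 81, 337, 71, 115, 30, 149, 285, 159, 69, 214, 136, 0, 60, 411, 275]),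
    ([213, 739, 217, 360, 169, 481, 737, 337, 305, 353, 355, 228, 209, 161], [41, 24, 431, 8, 71, 55, 117, 73, 297, 67, 187, 190, 218]),
    ([739, 203, 360, 169, 481, 87, 737, 43, 39, 353, 355, 228, 209, 89, 41, 161], [28, 15, 90, 78, 149, 0, 104, 106, 364, 211, 418]),
    ([203, 360, 169, 481, 87, 737, 43, 39, 353, 355, 228, 209, 89, 41, 193, 161], [44, 16, 0, 46, 149, 6]),
    ([196, 481, 87, 737, 609, 43, 39, 353, 355, 228, 209, 89, 321, 41, 193, 161], [92, 80, 22, 26, 12, 71, 0, 64, 149, 327, 344, 206, 367, 358, 370, 213]),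
    ([25, 23, 21], [32, 19, 17, 22, 50, 51, 20, 231, 24, 10, 39, 133, 33, 4, 63, 256, 155, 56, 265, 189, 98, 382, 52, 38, 400, 410, 245, 409, 110, 376, 116, 375, 0, 34, 122, 90, 414, 86]),
    ([203, 599, 597, 215, 213, 199, 197], [19, 32, 221]),
    ([205, 184, 168, 199, 197], [175, 39, 254, 176, 350, 279, 351, 443, 274]),
    ([23, 21], [22, 47, 2, 140, 262, 264, 146, 149, 40, 176, 0, 206, 21, 274, 34, 347, 279, 349, 223]),
    ([87, 467, 83, 21], [21, 0, 25, 29, 64, 46, 40, 101, 112, 85, 87, 110, 437]),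
    ([215, 27, 196, 21], [24, 73, 34, 1, 71, 28, 154, 123, 23, 48, 58, 94, 106, 22, 47, 41, 124, 107, 26, 30, 65, 102, 113, 43, 87, 69, 52, 84, 173, 365, 0, 233, 360, 370, 429, 323, 206, 319, 328, 331, 407, 243, 216, 66, 222]),
    ([27, 196, 21], [2, 49, 59, 95, 23, 27, 31, 44, 60, 62, 98, 25, 104, 64, 72, 107, 48, 42, 125, 108, 88, 32, 0, 146, 363, 212, 208, 269, 257, 318, 330, 379, 443, 217, 316, 380, 223]),
    ([196, 21], [26, 24, 3, 28, 32, 45, 105, 65, 73, 30, 150, 98, 156, 125, 25, 0, 46, 40, 406, 369, 274, 15]),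
    ([215, 593, 185, 217, 83, 21], [4, 51, 61, 0, 42, 84, 43, 25, 29, 33, 68, 50, 44, 105, 116, 27, 74, 72, 55, 87, 3, 372]),
    ([221, 203, 21], [40, 27, 26, 5, 30, 34, 122, 51, 45, 169, 1, 46, 129, 83, 52, 62, 43, 85, 44, 151, 367, 160, 194, 449]),
    ([25, 203, 27, 21], [36, 0, 216, 28, 39, 2, 27, 6, 31, 35, 123, 59, 32, 30, 437, 157, 113, 1]),
    ([24, 83, 21], [28, 7, 32, 36, 124, 53, 47, 171, 3, 48, 131, 49, 65, 173, 293, 60, 71, 138, 245, 141, 416, 440]),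
    ([27, 21], [41, 38, 0, 100, 1]),
    ([21], [30, 32, 9, 34, 56, 38, 66, 73, 51, 106, 67, 308, 69, 5, 47, 89, 48, 167, 0, 52, 250, 46, 129, 232, 196, 193]),
    ([34], [0, 237]), ([161], [1, 263]),
    ([306, 71, 69, 185, 176, 51, 67], [46, 57, 73, 331, 337, 231]),
    ([53, 71, 69, 451, 51, 67], [47, 58, 53, 232, 334]),
    ([69, 74, 359, 741, 101, 333, 349, 45, 363, 361, 99, 185, 176, 51, 67, 323], [3, 89, 75, 58, 42, 231, 102, 189, 133, 1, 0, 98, 118, 264, 334, 96, 469, 73, 409, 410, 465, 113, 117, 144]),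
    ([74, 359, 741, 101, 333, 349, 45, 363, 361, 99, 185, 176, 51, 67, 323], [76, 0, 218, 355, 153, 217, 358, 154, 60, 49, 235]),
    ([45, 333, 69, 74, 167, 213, 215, 451, 51, 67, 217, 196], [5, 44, 60, 173, 48, 65, 47, 43, 74, 233, 135, 2, 100, 120, 98, 179, 75, 467, 115, 119, 144]),
    ([333, 69, 74, 228, 213, 215, 451, 51, 67, 217, 196], [5, 45, 108, 433, 79, 117, 0, 248, 304, 405, 34]),
    ([69, 89, 228, 739, 213, 215, 451, 51, 67, 217, 196], [7, 84, 80, 50, 49, 62, 46, 0, 94, 197, 184, 363, 137, 4, 102, 100, 77, 231, 328, 178, 183, 326, 374, 99, 143, 388, 81, 147]),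
    ([89, 228, 739, 213, 215, 451, 51, 67, 217, 196], [85, 69, 0, 72, 193, 200, 267, 222, 221, 231, 443, 220, 424, 64, 53, 127, 373, 105, 264, 239]),
    ([69, 331, 43, 75, 67, 323], [9, 64, 48, 236]),
    ([88, 205, 451, 29, 51, 25, 203, 323, 27], [45, 47, 254, 381, 148, 109, 196, 161, 365, 226, 225, 451, 450, 108, 251, 356, 355, 0, 431, 66, 55, 456]),
    ([229, 213, 74, 611, 224, 99, 185, 176, 51, 67, 196], [10, 54, 71, 53, 49, 89, 216, 406, 419, 329, 322, 190, 189, 219, 448, 85, 6]),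
    ([213, 215, 89, 611, 224, 99, 185, 176, 51, 67, 217, 196], [89, 84, 0, 445, 3, 75]),
    ([215, 89, 611, 224, 99, 185, 176, 51, 67, 203, 196, 27], [12, 59, 46, 55, 54, 57, 92, 75, 0, 63, 135, 210, 137, 233, 297, 212, 145, 238, 215, 214, 327, 194, 185, 103, 154, 336]),
    ([22, 25, 203, 196, 27], [15, 49, 51, 56, 55, 50, 72, 425, 176, 289, 253, 278, 295, 86, 233, 140, 3, 91, 0, 169, 446, 297, 231, 2, 299]),
    ([326, 317, 213, 307, 215, 167, 305, 217, 169], [58, 75, 85, 477, 125, 129, 154]),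
    ([69, 327, 71, 39, 67, 323], [16, 71, 55, 109]),
    ([327, 213, 593, 215, 167, 71, 39, 67, 217, 196], [60, 77, 59, 55, 317, 0, 209, 319, 337, 156]),
    ([213, 593, 481, 103, 307, 215, 167, 305, 71, 39, 67, 217, 196], [56, 61, 0, 88, 362, 327, 2, 191, 104, 192, 333, 358, 416, 198, 419, 308, 46, 81, 105, 242, 110, 194, 321, 92, 418, 158]),
    ([212, 23, 595, 323, 27], [18, 60, 101, 345, 179, 201, 63, 69, 141, 216, 143, 239, 218, 151, 244, 221, 220, 200, 199, 191, 109, 160]),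
    ([69, 592, 67, 323], [20, 81, 138, 75, 59, 278, 370, 247]),
    ([229, 40, 205, 75, 25, 203, 27], [20, 22, 56, 58, 99, 226, 300, 293, 229, 159, 278]),
    ([333, 355, 452, 312, 327, 611, 323], [133, 141, 344, 390, 481]),
    ([105, 619, 344, 612, 739, 355, 68, 88, 75, 339, 87, 39, 83], [23, 87, 174, 172, 426, 427, 238, 235, 143, 468, 50, 159, 113]),
    ([25, 203, 196, 27], [24, 23, 25, 70, 57, 66, 68, 61, 59, 9, 71, 271, 83, 184, 124, 269, 171, 90, 139, 153, 292, 108, 206, 348, 100, 112, 4, 84, 67, 5, 142, 85, 467, 243, 213, 3, 88, 209, 373, 197, 217, 2, 97, 313, 219, 1, 214, 247, 195, 113, 393, 0, 123, 91, 162]),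
    ([203, 196, 27], [25, 26, 69, 0, 167, 273, 177, 438, 236, 170, 372, 373, 279, 443, 444, 169, 218, 378, 175, 81, 70, 377, 472, 463]),
    ([196, 27], [0, 106, 456, 111]),
    ([197], [27, 26, 28, 76, 79, 300, 296, 331, 455, 453, 238, 188, 461, 77, 128, 195, 181, 39, 364, 116, 393, 315, 245, 40]),
    ([27], [0, 1]), ([83], [0, 83]), ([85], [1, 30, 281]), ([208], [2, 79]), ([22], [3, 33, 442]),
    ([24], [4, 34, 445]), ([75], [4, 0, 284]), ([86], [4, 5, 457]), ([88], [5, 6, 459]),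
    ([171], [5, 38, 307]), ([192], [4, 73]), ([56], [3, 4, 301]), ([172], [2, 39, 172]),
    ([], [1, 0, 4, 13, 12, 2, 8, 62])]

theorem factsB_ok : factsB.all (Fact.ok 7) = true := by decide +kernel

theorem certB_ok : Rup.check (factsB.map Fact.clause ++ extraB) certB = true := by
  decide +kernel

/-- facts of the refutation H -/
def factsH : List Fact := [
    .eq 6 0 3 true, .eq 3 0 6 true, .eq 0 3 5 false, .eq 3 0 2 true, .eq 3 2 5 false,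
    .eq 2 3 5 false, .eq 3 0 5 false, .eq 3 0 6 false, .eq 3 4 5 true, .eq 0 5 6 true,
    .eq 1 4 5 true, .eq 1 4 6 false, .eq 0 1 6 false, .eq 2 1 6 true, .eq 3 1 2 true,
    .eq 4 3 5 true, .eq 5 1 4 false, .tr 5 0 2 3 true, .eq 6 4 5 true, .eq 0 1 3 true,
    .eq 0 5 6 false, .eq 2 3 6 true, .eq 3 4 6 true, .tr 3 4 6 5 false, .eq 5 1 2 false,
    .eq 6 0 5 true, .eq 6 0 5 false, .eq 6 1 2 true, .eq 6 4 5 false, .eq 0 2 3 false,
    .eq 1 0 4 true, .eq 1 0 6 true, .eq 2 4 6 true, .eq 4 0 1 true, .eq 4 1 6 true,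
    .eq 6 0 1 true, .eq 0 1 5 false, .eq 0 4 5 true, .eq 1 0 6 false, .eq 1 2 3 true,
    .eq 1 4 6 true, .eq 3 0 2 false, .eq 3 0 5 true, .tr 3 0 1 5 true, .tr 3 0 4 5 false,
    .eq 5 3 6 true, .tr 5 0 4 3 true, .eq 6 2 3 false, .eq 6 2 4 true, .tr 6 0 2 1 false,
    .d3 1 5 0 2 6, .hq 0 3 5 2 4, .hq 0 3 6 4 5, .eq 0 1 2 true, .eq 0 2 3 true, .eq 0 3 5 true,
    .eq 0 3 6 false, .tr 0 2 3 6 false, .eq 1 0 5 true, .eq 1 3 5 true, .eq 2 1 6 false,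
    .tr 2 1 6 3 false, .eq 3 1 4 false, .eq 3 1 5 false, .tr 3 0 1 2 false, .tr 3 0 6 2 true,
    .tr 3 4 5 6 true, .eq 4 1 6 false, .tr 4 0 5 3 true, .eq 5 1 4 true, .eq 6 2 4 false,
    .eq 6 3 5 false, .tr 6 1 3 5 true, .hq 0 3 5 4 6, .eq 0 2 6 true, .eq 0 3 4 false,
    .tr 0 1 6 4 true, .eq 1 0 5 false, .eq 1 2 3 false, .eq 1 3 4 true, .eq 1 3 4 false,
    .tr 1 2 3 5 false, .eq 2 1 5 true, .eq 2 3 5 true, .eq 2 3 6 false, .eq 3 0 4 true,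
    .eq 3 0 4 false, .eq 3 4 6 false, .eq 3 5 6 true, .tr 3 0 1 5 false, .tr 3 0 5 2 false,
    .tr 3 1 5 2 true, .tr 3 1 6 4 false, .tr 3 2 5 4 true, .eq 4 2 3 false, .eq 4 3 6 true,
    .eq 4 3 6 false, .tr 4 0 5 3 false, .eq 5 0 1 false, .eq 5 0 3 true, .eq 5 1 6 true,
    .tr 5 0 1 3 true, .eq 6 0 1 false, .eq 6 0 3 false, .eq 6 0 4 true, .eq 6 1 2 false,
    .eq 6 1 3 false, .eq 6 2 5 true, .eq 6 3 5 true, .tr 6 0 3 1 false, .tr 6 0 3 5 false,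
    .tr 6 1 5 2 false, .d3 0 3 1 2 6, .d3 0 4 2 5 6, .d3 3 6 2 4 5, .hq 0 1 4 5 6, .hq 1 3 5 0 2,
    .eq 0 1 4 false, .eq 0 1 6 true, .eq 0 2 4 true, .eq 0 2 5 true, .eq 0 3 4 true,
    .eq 0 4 6 true, .tr 0 1 5 6 true, .tr 0 1 6 5 false, .tr 0 2 3 5 false, .tr 0 3 6 5 false,
    .eq 1 0 2 false, .eq 1 0 4 false, .eq 1 2 4 true, .eq 1 2 5 true, .eq 1 3 5 false,
    .tr 1 0 5 6 true, .tr 1 2 3 4 true, .tr 1 4 5 6 false, .eq 2 0 6 false, .eq 2 5 6 true,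
    .tr 2 0 1 3 false, .eq 3 0 1 true, .eq 3 1 2 false, .eq 3 1 5 true, .eq 3 1 6 true,
    .tr 3 0 2 1 true, .tr 3 0 2 5 true, .tr 3 0 5 4 true, .tr 3 2 6 4 false, .eq 4 0 1 false,
    .eq 4 0 6 true, .eq 4 1 2 true, .eq 4 1 2 false, .tr 4 1 5 6 true, .tr 4 1 6 5 false,
    .eq 5 0 1 true, .eq 5 1 2 true, .eq 5 2 6 true, .tr 5 0 2 4 true, .tr 5 0 3 4 true,
    .tr 5 0 4 6 false, .tr 5 0 6 4 false, .eq 6 0 2 false, .eq 6 1 3 true, .eq 6 1 5 false,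
    .eq 6 2 3 true, .eq 6 2 5 false, .tr 6 0 1 3 true, .tr 6 0 1 4 false, .tr 6 0 4 3 true,
    .tr 6 0 5 1 false, .tr 6 0 5 3 true, .tr 6 1 2 4 true, .tr 6 1 5 4 true, .tr 6 2 3 5 true,
    .d3 0 1 4 5 6, .d3 0 3 1 2 5, .d3 0 3 1 4 5, .d3 0 3 4 5 6, .d3 0 5 1 2 3, .d3 0 6 1 4 5,
    .d3 2 6 0 1 3, .d3 2 6 3 4 5, .d3 3 6 1 4 5, .d3 4 5 0 2 6, .hq 0 3 4 1 2, .hq 0 3 6 1 2,
    .hq 0 3 6 2 4, .hq 1 4 5 0 6, .hq 2 3 6 0 1, .hq 2 3 6 4 5, .hq 2 4 6 1 3, .hq 2 5 6 3 4,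
    .eq 0 1 3 false, .tr 0 1 2 3 false, .tr 0 1 3 2 true, .tr 0 1 3 5 true, .tr 0 1 6 3 false,
    .tr 0 1 6 4 false, .tr 0 1 6 5 true, .tr 0 2 4 5 true, .tr 0 2 5 4 true, .tr 0 2 5 6 true,
    .tr 0 3 4 6 false, .tr 0 3 5 4 true, .tr 0 4 5 6 true, .eq 1 2 4 false, .eq 1 3 6 true,
    .eq 1 4 5 false, .eq 1 5 6 true, .tr 1 0 2 4 false, .tr 1 0 4 5 false, .tr 1 0 5 4 true,
    .tr 1 2 4 3 true, .tr 1 2 4 3 false, .tr 1 2 6 4 true, .tr 1 4 5 6 true, .tr 1 4 6 5 true,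
    .eq 2 0 1 true, .eq 2 0 3 false, .eq 2 0 6 true, .eq 2 1 5 false, .eq 2 3 4 true,
    .eq 2 4 5 false, .eq 2 4 6 false, .tr 2 0 1 6 true, .tr 2 0 6 3 true, .tr 2 1 3 5 false,
    .tr 2 1 6 4 true, .tr 2 1 6 5 false, .tr 2 3 5 4 false, .tr 2 3 6 4 false, .eq 3 0 1 false,
    .eq 3 1 6 false, .eq 3 2 6 true, .tr 3 0 1 2 true, .tr 3 0 1 4 true, .tr 3 0 1 6 false,
    .tr 3 0 2 1 false, .tr 3 0 2 6 true, .tr 3 0 4 2 false, .tr 3 0 4 6 true, .tr 3 0 5 1 true,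
    .tr 3 0 5 6 false, .tr 3 0 6 4 true, .tr 3 0 6 5 true, .tr 3 1 2 5 true, .tr 3 1 4 2 true,
    .tr 3 1 4 5 false, .tr 3 1 4 6 true, .tr 3 1 5 4 true, .tr 3 1 5 6 true, .tr 3 2 4 5 false,
    .tr 3 2 4 6 true, .tr 3 2 4 6 false, .tr 3 2 5 6 false, .tr 3 2 6 5 false, .eq 4 0 3 true,
    .eq 4 0 5 true, .eq 4 0 6 false, .eq 4 1 3 true, .eq 4 1 3 false, .eq 4 1 5 true,
    .eq 4 1 5 false, .eq 4 2 3 true, .eq 4 2 5 true, .tr 4 0 1 5 true, .tr 4 0 2 1 true,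
    .tr 4 0 2 6 false, .tr 4 0 3 5 true, .tr 4 0 3 5 false, .tr 4 0 3 6 false, .tr 4 0 5 1 false,
    .tr 4 0 5 6 false, .tr 4 0 6 1 true, .tr 4 1 2 6 true, .tr 4 1 6 5 true, .eq 5 0 2 false,
    .eq 5 0 6 true, .eq 5 0 6 false, .eq 5 1 6 false, .eq 5 4 6 true, .eq 5 4 6 false,
    .tr 5 0 1 4 true, .tr 5 0 3 6 false, .tr 5 0 4 3 false, .tr 5 0 6 1 false, .tr 5 0 6 2 false,
    .tr 5 0 6 4 true, .tr 5 1 2 3 true, .tr 5 1 3 6 false, .tr 5 1 4 3 true, .tr 5 2 3 4 true,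
    .tr 5 2 3 4 false, .tr 5 3 4 6 true, .eq 6 0 2 true, .eq 6 1 4 true, .eq 6 1 5 true,
    .tr 6 0 1 2 true, .tr 6 0 1 2 false, .tr 6 0 1 3 false, .tr 6 0 1 5 true, .tr 6 0 3 2 false,
    .tr 6 0 3 4 true, .tr 6 0 4 2 false, .tr 6 0 4 5 true, .tr 6 0 4 5 false, .tr 6 1 2 4 false,
    .tr 6 1 3 4 true, .tr 6 1 4 3 false, .tr 6 1 5 3 false, .tr 6 2 4 5 true, .tr 6 2 5 4 false,
    .tr 6 3 4 5 true, .tr 6 3 5 4 true, .d3 0 3 1 5 6, .d3 0 3 2 5 6, .d3 0 4 1 2 3,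
    .d3 0 6 1 2 3, .d3 1 4 0 2 3, .d3 1 4 0 2 6, .d3 1 4 0 3 6, .d3 1 4 2 3 6, .d3 1 5 0 3 6,
    .d3 1 5 2 3 4, .d3 1 6 2 3 4, .d3 2 3 0 1 6, .d3 3 4 2 5 6, .d3 3 6 0 1 2, .d3 3 6 0 4 5,
    .d3 4 5 0 3 6, .d3 4 5 1 2 3, .d3 4 5 2 3 6, .d3 4 6 0 2 5, .d3 5 6 2 3 4, .hq 0 1 4 2 3,
    .hq 0 2 4 5 6, .hq 0 3 5 1 4, .hq 0 3 5 2 6, .hq 1 2 5 0 6, .hq 1 2 5 3 4, .hq 1 3 5 2 4,
    .hq 1 3 5 4 6, .hq 1 3 6 4 5, .hq 1 4 5 2 3, .hq 1 4 6 3 5, .hq 2 4 6 1 5, .eq 0 1 2 false,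
    .eq 0 2 4 false, .eq 0 2 5 false, .eq 0 3 6 true, .eq 0 4 5 false, .tr 0 1 2 5 false,
    .tr 0 1 2 6 false, .tr 0 1 3 2 false, .tr 0 1 3 4 true, .tr 0 1 3 5 false, .tr 0 1 3 6 true,
    .tr 0 1 3 6 false, .tr 0 1 4 6 false, .tr 0 1 5 2 false, .tr 0 1 5 4 true, .tr 0 1 5 4 false,
    .tr 0 2 3 4 false, .tr 0 2 3 5 true, .tr 0 2 5 3 false, .tr 0 2 6 3 true, .tr 0 2 6 4 true,
    .tr 0 2 6 4 false, .tr 0 2 6 5 false, .tr 0 3 4 5 false, .tr 0 3 4 6 true, .tr 0 3 5 6 true,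
    .tr 0 3 6 4 true, .tr 0 3 6 4 false, .tr 0 3 6 5 true, .tr 0 4 5 6 false, .tr 0 4 6 5 true,
    .tr 0 4 6 5 false, .eq 1 0 2 true, .eq 1 2 5 false, .eq 1 2 6 false, .eq 1 5 6 false,
    .tr 1 0 2 6 true, .tr 1 0 3 4 false, .tr 1 0 3 5 true, .tr 1 0 3 5 false, .tr 1 0 3 6 true,
    .tr 1 0 4 3 true, .tr 1 0 4 5 true, .tr 1 0 4 6 false, .tr 1 0 5 2 true, .tr 1 0 5 4 false,
    .tr 1 0 6 3 true, .tr 1 0 6 4 true, .tr 1 0 6 4 false, .tr 1 0 6 5 true, .tr 1 2 3 4 false,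
    .tr 1 2 3 6 false, .tr 1 2 4 5 true, .tr 1 2 4 6 true, .tr 1 2 4 6 false, .tr 1 2 5 3 true,
    .tr 1 2 5 4 true, .tr 1 2 5 6 true, .tr 1 2 6 3 true, .tr 1 2 6 4 false, .tr 1 2 6 5 true,
    .tr 1 3 4 6 true, .tr 1 3 4 6 false, .tr 1 3 5 6 true, .tr 1 3 6 4 true, .tr 1 3 6 4 false,
    .tr 1 4 6 5 false, .eq 2 0 4 false, .eq 2 0 5 true, .eq 2 1 3 false, .eq 2 4 5 true,
    .eq 2 5 6 false, .tr 2 0 3 6 true, .tr 2 0 3 6 false, .tr 2 0 5 3 false, .tr 2 0 5 6 true,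
    .tr 2 0 6 1 true, .tr 2 0 6 3 false, .tr 2 0 6 4 true, .tr 2 0 6 5 false, .tr 2 1 3 6 true,
    .tr 2 1 3 6 false, .tr 2 1 4 5 false, .tr 2 1 5 3 true, .tr 2 1 5 6 true, .tr 2 1 6 3 true,
    .tr 2 3 4 6 false, .tr 2 3 5 6 true, .tr 2 3 6 5 false, .tr 2 4 6 5 false, .eq 3 2 4 true,
    .eq 3 2 4 false, .eq 3 2 5 true, .eq 3 4 5 false, .eq 3 5 6 false, .tr 3 0 1 4 false,
    .tr 3 0 2 5 false, .tr 3 0 2 6 false, .tr 3 0 4 2 true, .tr 3 0 4 6 false, .tr 3 0 5 1 false,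
    .tr 3 0 5 4 false, .tr 3 0 5 6 true, .tr 3 0 6 1 true, .tr 3 0 6 1 false, .tr 3 1 2 4 false,
    .tr 3 1 4 2 false, .tr 3 1 5 2 false, .tr 3 1 6 4 true, .tr 3 1 6 5 false, .tr 3 2 5 4 false,
    .tr 3 2 5 6 true, .tr 3 2 6 4 true, .tr 3 4 5 6 false, .tr 3 4 6 5 true, .eq 4 0 2 false,
    .eq 4 0 3 false, .eq 4 0 5 false, .eq 4 2 6 true, .eq 4 3 5 false, .eq 4 5 6 true,
    .eq 4 5 6 false, .tr 4 0 1 6 true, .tr 4 0 2 5 false, .tr 4 0 3 1 true, .tr 4 0 5 1 true,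
    .tr 4 0 6 1 false, .tr 4 0 6 2 false, .tr 4 0 6 5 true, .tr 4 0 6 5 false, .tr 4 1 2 3 false,
    .tr 4 1 2 6 false, .tr 4 1 3 5 true, .tr 4 1 3 6 false, .tr 4 1 5 3 false, .tr 4 1 5 6 false,
    .tr 4 1 6 3 true, .tr 4 1 6 3 false, .tr 4 2 3 5 true, .tr 4 2 3 6 true, .tr 4 2 3 6 false,
    .tr 4 2 5 3 false, .tr 4 2 5 6 false, .tr 4 2 6 3 false, .tr 4 3 5 6 true, .tr 4 3 6 5 true,
    .tr 4 3 6 5 false, .eq 5 0 2 true, .eq 5 0 3 false, .eq 5 0 4 false, .eq 5 1 3 true,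
    .eq 5 1 3 false, .eq 5 2 3 false, .eq 5 2 4 true, .eq 5 2 6 false, .eq 5 3 4 false,
    .eq 5 3 6 false, .tr 5 0 1 2 false, .tr 5 0 1 3 false, .tr 5 0 1 4 false, .tr 5 0 1 6 true,
    .tr 5 0 2 1 false, .tr 5 0 2 4 false, .tr 5 0 2 6 true, .tr 5 0 2 6 false, .tr 5 0 3 4 false,
    .tr 5 0 3 6 true, .tr 5 0 6 3 true, .tr 5 1 2 6 true, .tr 5 1 3 2 true, .tr 5 1 3 2 false,
    .tr 5 1 3 4 true, .tr 5 1 3 4 false, .tr 5 1 4 2 true, .tr 5 1 4 2 false, .tr 5 1 4 3 false,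
    .tr 5 1 4 6 false, .tr 5 1 6 3 true, .tr 5 1 6 3 false, .tr 5 2 3 6 true, .tr 5 2 4 3 true,
    .tr 5 2 4 6 false, .tr 5 2 6 3 true, .tr 5 2 6 4 true, .tr 5 2 6 4 false, .tr 5 3 6 4 false,
    .eq 6 0 4 false, .eq 6 3 4 true, .tr 6 0 1 4 true, .tr 6 0 2 1 true, .tr 6 0 2 4 true,
    .tr 6 0 2 4 false, .tr 6 0 2 5 true, .tr 6 0 2 5 false, .tr 6 0 3 1 true, .tr 6 0 4 1 true,
    .tr 6 0 4 2 true, .tr 6 0 4 3 false, .tr 6 0 5 1 true, .tr 6 0 5 2 true, .tr 6 0 5 2 false,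
    .tr 6 1 2 3 true, .tr 6 1 2 5 true, .tr 6 1 4 2 false, .tr 6 2 3 4 true, .tr 6 2 5 3 false,
    .tr 6 3 5 4 false, .d3 0 1 3 5 6, .d3 0 2 1 3 4, .d3 0 3 1 2 4, .d3 0 3 2 4 5, .d3 0 3 2 4 6,
    .d3 0 4 1 5 6, .d3 0 4 3 5 6, .d3 0 6 1 3 5, .d3 0 6 2 4 5, .d3 0 6 3 4 5, .d3 1 3 0 2 5,
    .d3 1 3 2 4 5, .d3 1 3 4 5 6, .d3 1 4 0 2 5, .d3 1 4 0 3 5, .d3 1 4 0 5 6, .d3 1 4 2 3 5,
    .d3 1 4 2 5 6, .d3 1 4 3 5 6, .d3 1 5 0 3 4, .d3 1 5 2 3 6, .d3 1 6 0 2 3, .d3 1 6 0 2 5,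
    .d3 1 6 0 3 5, .d3 2 3 0 1 5, .d3 2 4 1 3 6, .d3 2 5 0 1 6, .d3 2 5 0 3 6, .d3 2 5 1 3 4,
    .d3 2 6 0 1 5, .d3 2 6 0 4 5, .d3 2 6 1 4 5, .d3 3 4 0 5 6, .d3 3 4 1 5 6, .d3 3 5 0 1 2,
    .d3 3 5 0 1 6, .d3 3 5 0 4 6, .d3 3 5 2 4 6, .d3 3 6 0 1 5, .d3 4 5 0 1 3, .d3 4 6 0 1 2,
    .d3 4 6 0 2 3, .d3 4 6 0 3 5, .d3 4 6 1 2 3, .d3 4 6 1 2 5, .d3 4 6 2 3 5, .hq 0 1 4 3 6,
    .hq 0 2 4 1 3, .hq 0 2 5 1 3, .hq 0 2 5 1 6, .hq 0 2 5 3 4, .hq 0 2 5 4 6, .hq 0 3 4 2 6,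
    .hq 0 3 4 5 6, .hq 0 3 5 1 2, .hq 0 3 5 1 6, .hq 1 3 5 0 4, .hq 1 3 5 0 6, .hq 1 3 6 0 2,
    .hq 1 3 6 0 4, .hq 1 4 5 0 3, .hq 1 4 5 3 6, .hq 1 4 6 0 3, .hq 1 4 6 0 5, .hq 1 4 6 2 3,
    .hq 2 3 6 0 4, .hq 2 3 6 1 4, .hq 2 3 6 1 5, .hq 2 4 6 0 1, .hq 2 4 6 3 5, .hq 2 5 6 0 1]

/-- the further clauses of the refutation H -/
def extraH : List (List ℕ) := 
  (pairs.map (fun q => L (NC q.1) false :: nonc q.1 q.2)) ++
    (fives.map (fun l => l.map (fun p => L (NC p) true)))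

/-- the certificate of the refutation H -/
def certH : List (List ℕ × List ℕ) := [

    ([599, 593, 595, 741, 743, 745, 1409], [71, 171, 28, 308, 107, 154, 278, 499, 650, 497, 289, 189]),
    ([480, 45, 106, 317, 743], [72, 46, 8, 104, 590, 327, 447, 237, 449, 561, 142, 161, 88, 67, 457, 453, 313, 176, 391, 196, 366, 584, 76, 183]),
    ([314, 326, 741, 743, 745], [73, 173, 30, 310, 109, 156, 85, 229, 191]),
    ([460, 736, 741, 743, 745], [74, 174, 24, 29, 110, 540, 77, 1, 3, 4, 278, 312, 552, 48, 31, 25, 26, 98, 493, 487, 446, 244, 169, 71, 187, 40, 6, 0, 7, 146, 93, 102, 76]),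
    ([87, 304, 469, 61, 93, 477], [7, 220, 59, 496, 129, 339]),
    ([75, 86, 53, 483, 481, 101, 106, 93, 485], [7, 5, 6, 378, 372, 182, 179, 188]),
    ([51, 53, 483, 481, 101, 485], [6, 7, 196, 189, 361]),
    ([85, 209, 161, 74, 342, 45, 93, 173, 221, 349], [44, 127, 281, 204, 609, 586, 89, 160, 343]),
    ([304, 315, 483, 481, 101, 106, 93, 173, 221, 485, 349, 477], [12, 13, 9, 82, 224, 11, 3, 10, 107, 2, 1, 27, 199, 51, 201, 135, 390, 0, 184]),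
    ([160, 339, 337, 43, 45, 93, 349], [355, 136, 224, 358, 609]),
    ([339, 161, 337, 209, 173, 221, 349], [92, 163, 346]),
    ([337, 41, 39, 87, 89, 343, 345], [423, 502, 612]),
    ([339, 596, 468, 343, 345], [17, 232, 94, 165, 525, 529, 236, 438, 349]),
    ([354, 358, 469, 741, 57, 105, 489, 491], [175, 97, 26, 40, 191, 74, 558, 172, 556, 308, 336, 338, 328, 103, 14, 65]),
    ([355, 361, 331, 363, 619], [84, 46, 74, 119, 239, 318, 357]),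
    ([358, 491, 354, 613, 333, 741], [169, 86, 541, 28, 99, 563, 445, 193, 76, 450, 555, 338, 252, 1]),
    ([489, 359, 315, 491, 361, 363], [63, 37, 103, 203, 267]),
    ([608, 360, 744], [65, 238, 35, 296, 164, 547, 608, 609, 287, 51, 310, 496, 187, 556, 186, 492, 396, 48, 149, 589, 359, 333, 47, 50, 132]),
    ([360, 745], [46, 66, 327, 348, 613, 614, 599, 600, 197, 122, 311, 559, 324, 153, 78, 39, 65, 447, 241, 204]),
    ([353, 355, 361], [124, 323, 79, 244, 89, 51, 154, 178, 441, 554, 638]),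
    ([362, 215, 217, 167, 171, 45, 169, 333], [238, 397, 435, 453, 443, 357, 598]),
    ([742, 363, 359, 745], [68, 2, 49, 521, 129, 331, 273, 4]),
    ([460, 217, 205, 196, 738, 743, 741, 745], [38, 32, 3, 54, 294, 122, 300, 499, 18, 338, 298, 180, 305, 207]),
    ([209, 217, 205, 221, 605], [39, 33, 100, 121, 232, 526, 208]),
    ([315, 473, 89, 93, 483, 481, 221, 477, 349, 485, 101, 173], [44, 25, 29, 28, 117, 15, 65, 442, 114, 261, 167, 386, 97]),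
    ([193, 77, 75, 29, 27, 203, 205], [55, 58, 140]),
    ([458, 216, 221, 349, 173], [95, 34, 41, 542, 616, 596, 347, 306, 103, 50, 414, 527, 15]),
    ([738, 205, 217, 193, 92, 593, 605], [43, 37, 127, 310, 212]),
    ([204, 216], [97, 233, 68, 62, 596, 594, 597, 231, 177, 58, 61, 497, 299, 420, 235, 292, 417, 585, 579, 360]),
    ([738, 28, 205, 217], [129, 190, 549, 5, 422]),
    ([363, 355, 92, 744, 339, 739, 105], [48, 333, 166, 193, 557, 314, 292, 651, 15, 331, 78]),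
    ([77, 204, 217], [41, 65, 181, 71, 165, 47, 182, 302, 503, 159, 348, 349, 212, 358, 239, 81, 351, 372]),
    ([192, 204, 217], [42, 66, 182, 72, 166, 48, 160, 178, 349, 350, 240, 295, 82, 352, 213, 359, 373]),
    ([199, 197, 193], [182, 297, 236, 240, 66, 63, 113, 291, 414, 501, 365]),
    ([197, 339, 193, 744, 235, 204], [195, 68, 74, 183, 0, 113, 443, 291, 439, 167, 175, 515, 508, 126, 106, 356, 258, 341, 628, 610, 139, 580, 365, 82, 18, 17]),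
    ([339, 193, 92, 98, 105, 744, 235, 204], [196, 69, 75, 0, 164, 438, 307, 354, 432, 48, 67, 245, 357, 331, 4, 214, 49, 141, 332, 170, 56, 82, 258, 221]),
    ([204, 217], [52, 46, 76, 70, 187, 250, 170, 186, 64, 4, 158, 183, 339, 568, 312, 3, 0, 254, 60, 554, 436, 86, 607, 217, 365, 355, 647]),
    ([619, 199, 217], [0, 295, 517, 117, 443, 104, 48, 47, 65, 379, 207]),
    ([225, 235, 619, 193, 217], [1, 105, 49, 48, 140, 652, 203]),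
    ([608, 27, 29, 604, 193, 217], [72, 69, 2, 49, 186, 309, 154]),
    ([41, 45, 331, 333, 88, 75, 77], [385, 451, 373, 238]),
    ([71, 88, 75, 592, 608, 104, 77], [162, 501, 309, 308, 242, 411, 645]),
    ([217, 608, 104, 77, 192], [188, 52, 58, 251, 305, 311, 401, 0, 356, 161, 501, 406, 307, 240, 509, 375]),
    ([192, 205], [110, 54, 171, 434, 189, 513, 430, 238, 509, 0, 248, 112, 453, 607, 608, 316, 617, 616, 636, 373, 658]),
    ([196, 594, 205], [0, 74, 304, 430, 142, 55, 257, 321, 60, 173, 611, 440, 124, 254, 452, 429, 365, 606, 539, 331, 546, 652]),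
    ([594, 205], [1, 56, 305, 61, 318, 258, 63, 0, 257, 11, 302, 521, 523, 18, 373, 573]),
    ([460, 231, 187, 472, 185, 235, 233], [152, 250, 68, 69, 386]),
    ([75, 106, 27, 29, 205], [1, 306, 3, 395, 21, 421]),
    ([98, 480, 185, 217, 187], [151, 11, 59, 60, 83, 213, 345, 606, 363, 18, 586, 348, 120, 74, 207, 581, 582, 584, 296, 294, 373, 226, 300, 279, 299, 235]),
    ([448, 60, 473], [135, 193, 224]),
    ([480, 187, 458], [65, 113, 338, 13, 6, 83, 295, 58, 297, 57, 153, 1, 168, 404, 244, 433, 202, 0, 135, 304, 118, 250, 288, 87, 163, 374, 232, 363, 52, 56, 384]),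
    ([51, 59, 89, 57, 467, 473], [57, 53, 241, 385, 404]),
    ([359, 361, 99, 196, 307, 315, 305, 313, 105, 460, 59, 89, 57, 103, 61, 217, 467, 473], [154, 161, 56, 57, 147, 74, 58, 54, 15, 73, 99, 483, 669, 484, 694, 688, 239, 550, 101, 140, 160, 363, 707, 125, 29, 48, 61, 715, 679, 728]),
    ([358, 189, 483, 231, 307, 213, 469, 489, 233, 185, 187], [137, 114, 306, 457, 393]),
    ([99, 315, 305, 326, 313, 460, 59, 89, 57, 481, 185, 217, 187, 473], [117, 59, 340, 185, 58, 392, 93, 187, 68, 149, 220, 76, 2, 73, 54, 55, 17, 65, 156, 218, 163, 438, 0, 75, 1, 282]),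
    ([98, 460, 83, 177, 59, 57, 481, 185, 217, 187], [150, 221, 77, 55, 56, 18, 66, 118, 67, 90, 25, 251, 107, 143, 127, 508, 303, 665]),
    ([460, 185, 217, 481, 187, 313, 315, 89, 57, 59, 473], [119, 62, 187, 4, 194, 663, 208, 61, 73, 58, 60, 107, 59, 149, 150, 0, 1]),
    ([99, 1401, 105, 107, 361, 103], [159, 684, 349, 106, 37]),
    ([187, 315, 59, 458], [66, 64, 102, 73, 104, 63, 75, 60, 62, 109, 61, 151, 152, 307, 202, 126, 189, 121, 305, 7, 346, 303, 344, 396, 59, 58, 21, 72, 69, 125, 1, 145, 547, 541, 363, 150, 515, 368, 203, 76, 106, 581, 713, 397, 131, 702, 694, 264, 158, 67, 333, 260, 721, 734, 739, 0, 93, 691, 85, 354, 38]),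
    ([355, 361, 34], [119, 39, 281]), ([483, 485, 229, 225, 481, 177, 181], [201, 220, 669]),
    ([352, 354, 107, 98, 315, 59, 458], [88, 74, 73, 67, 2, 120, 162, 97, 233, 178, 137, 96, 69, 105, 76, 107, 66, 78, 63, 65, 112, 150, 173, 68, 117, 201, 300, 304, 181, 360, 480, 0, 291, 167, 624, 123, 153, 113, 169, 133, 583, 368, 34, 275, 31]),
    ([489, 353, 361, 107, 105, 61, 305, 313, 315, 57, 59], [69, 118, 66, 114, 150, 315, 517, 146, 678]),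
    ([361, 107, 98, 315, 59, 458], [75, 69, 4, 122, 164, 99, 235, 180, 139, 98, 71, 107, 78, 109, 68, 80, 65, 67, 114, 66, 514, 476, 200, 152, 175, 70, 203, 302, 306, 312, 3, 90, 1, 0, 85, 521, 313, 243, 2]),
    ([107, 98, 315, 59, 458], [76, 70, 5, 123, 165, 100, 236, 181, 140, 72, 108, 79, 110, 69, 81, 66, 68, 115, 153, 176, 71, 120, 157, 158, 0, 285, 45, 292, 551, 375, 209, 116]),
    ([106, 61, 89, 57, 59, 473], [71, 67, 74, 90, 138, 346]),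
    ([315, 59, 458], [81, 72, 112, 110, 68, 74, 71, 70, 83, 117, 7, 125, 155, 167, 178, 102, 0, 86, 1, 189]),
    ([107, 29, 212], [93, 191, 571, 165, 117]), ([106, 89, 57, 59, 473], [70, 440, 2]),
    ([59, 458], [84, 77, 71, 75, 213, 578, 113, 115, 137, 2, 152, 505, 509, 359, 593, 123, 398, 397, 56, 534, 138, 338, 220, 93, 0, 89, 444, 41, 182, 581, 188, 646, 57]),
    ([107, 458], [0, 112, 125, 96, 196, 580, 71, 656, 19, 210]),
    ([60, 458], [1, 86, 79, 418, 72, 21, 383, 384, 246, 271, 309, 325, 139, 184, 627, 655, 395, 253]),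
    ([483, 53, 89, 458], [0, 113, 137, 101, 129, 2, 79, 312, 1, 97, 81, 114, 127, 80, 232, 65, 91, 210, 115, 304, 265, 307, 479, 474, 248, 647, 47, 580]),
    ([53, 57, 458], [3, 148, 274, 115, 1, 315, 80, 129, 2, 102, 114, 130, 138, 0, 179, 253, 237, 257, 250]),
    ([57, 458], [4, 2, 81, 314, 116, 129, 82, 149, 160, 341, 0, 128, 77, 217, 247, 435, 164, 138, 157, 303, 513, 308, 229, 250, 659, 364, 635, 61, 172, 354, 568, 98, 413, 124]),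
    ([458], [5, 117, 4, 3, 131, 82, 317, 0, 196, 160, 629, 249, 446, 316, 634, 252, 189, 255, 258]),
    ([473], [0, 513]), ([598], [1, 540]),
    ([58, 56, 53, 481], [0, 163, 175, 79, 119, 143, 107, 135, 78, 133, 447, 252, 204, 72, 312, 308]),
    ([51, 53, 481], [80, 120, 144, 108, 136, 308, 72, 526]),
    ([56, 53, 481], [4, 2, 109, 0, 99, 272, 632, 80, 443, 201, 448, 165, 346, 336, 177, 573, 1, 205, 586, 494, 432, 394, 345, 39]),
    ([77, 453, 69, 57, 53, 61], [167, 156, 337, 684, 349]), ([204], [53, 45]), ([232], [0, 94]),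
    ([610], [1, 151]), ([192], [2, 41]), ([594], [3, 40]), ([24], [1, 117]), ([66], [2, 121]),
    ([202], [2, 348]), ([216], [3, 159]), ([214], [4, 14, 606]), ([466], [1, 14, 611]),
    ([186], [1, 152]), ([106, 469, 59, 465, 53, 61], [123, 219, 193, 103, 119, 429, 375]),
    ([184, 166], [9, 174, 489, 61]),
    ([53, 481], [3, 4, 11, 12, 8, 2, 20, 96, 97, 125, 137, 537, 16, 15, 153, 161, 513, 115, 234, 287, 328, 139, 182, 456, 538, 288, 331, 540, 174, 14, 318, 187, 177, 218, 474, 212, 280, 154, 118, 627, 401, 402, 300, 35, 127, 131, 718, 724, 1, 754, 0, 158, 737, 745, 767]),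
    ([461, 105, 107, 181, 481], [5, 4, 21, 3, 9, 175, 1, 159, 546, 236, 188, 0, 239, 100, 161, 140, 178, 213, 155, 341, 330, 234, 150, 116, 97, 184, 343, 740, 746, 347, 242, 189, 522, 492, 727, 36, 128, 132, 146, 719, 755, 768]),
    ([105, 107, 181, 481], [21, 1, 101, 162, 271, 651, 98, 99, 0, 120, 121, 150]),
    ([107, 181, 481], [7, 6, 5, 9, 10, 13, 11, 16, 238, 190, 2, 241, 102, 163, 142, 177, 180, 215, 157, 119, 0, 221, 301, 175, 214]),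
    ([181, 481], [7, 8, 6, 12, 17, 23, 24, 3, 103, 100, 178, 239, 164, 499, 237, 181, 4, 242, 191, 119, 273, 143, 527, 153, 216, 162, 333, 344, 102, 117, 158, 252, 0, 109, 125, 296, 210, 722, 728, 52, 123, 137, 743, 749, 752, 770]),
    ([453, 451, 449, 593, 89, 83, 106, 481], [24, 25, 23, 14, 257, 126, 258, 101, 211, 269, 146, 167, 215, 332, 124, 110, 0, 115, 4, 104, 535, 195, 586, 555, 744, 750, 737, 583, 321, 757, 256, 775, 727]),
    ([84, 363, 745, 465, 593, 359, 743], [265, 238, 83, 119, 257, 291]),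
    ([185, 27, 29, 106, 481], [27, 26, 20, 18, 25, 16, 112, 55, 358, 388, 84, 173, 135, 259, 140, 385, 200, 180, 139, 141, 115, 103, 128, 213, 271, 148, 169, 217, 265, 126, 199, 2, 142, 183, 165, 236, 314, 251, 1, 364, 291, 116, 130, 152, 398, 177, 683, 239, 266, 102, 0, 223, 377, 608, 755, 729, 93, 185, 738, 732, 770]),
    ([27, 29, 106, 481], [28, 27, 11, 12, 13, 14, 21, 18, 19, 15, 26, 17, 16, 104, 129, 214, 272, 149, 170, 218, 266, 127, 200, 113, 3, 118, 143, 7, 158, 105, 140, 181, 56, 141, 359, 201, 386, 261, 370, 260, 389, 549, 85, 710, 136, 174, 123, 0, 183, 554, 70, 716, 701, 365, 233, 252, 310, 154, 217, 575, 292, 215, 234, 223, 702, 117, 103, 157, 319, 461, 726, 732, 739, 756, 771]),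
    ([29, 106, 481], [16, 14, 22, 130, 143, 0, 463, 163, 237, 262, 81]),
    ([106, 481], [15, 23, 0, 137, 76, 648]),
    ([21, 28, 481], [19, 30, 24, 21, 16, 31, 22, 23, 29, 20, 6, 138, 77, 401, 68, 571, 595, 225, 272, 125, 657, 179, 720, 318, 88, 398, 463, 580, 384, 0, 133, 146, 451, 234, 47, 120, 134, 218, 508, 740, 766, 106, 764, 742, 789]),
    ([28, 481], [25, 17, 22, 226, 139, 78, 402, 69, 126, 89, 0, 484, 458, 325, 528, 88]),
    ([361, 355, 481], [26, 25, 17, 18, 32, 24, 31, 22, 0, 147, 169, 489, 162, 321, 257, 214, 507, 2, 41, 133, 239, 276, 109, 218, 233, 121, 110, 235, 135, 129, 8, 123, 148, 12, 112, 163, 141, 179, 89, 326, 401, 408, 525, 653, 530, 475, 88, 308, 393, 708, 192, 398, 727, 371, 217, 132, 452, 205, 127, 411, 297, 267, 108, 772, 766, 51, 328, 787, 751]),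
    ([355, 481], [3, 1, 42, 134, 148, 277, 110, 219, 130, 9, 124, 13, 113, 0, 158, 91, 92, 214, 79, 411, 289, 131, 157, 296]),
    ([744, 481], [25, 20, 27, 34, 17, 26, 0, 658, 573, 138, 280, 4, 2, 43, 135, 124, 337, 10, 125, 172, 137, 123, 409, 222, 149, 160, 150, 535, 275, 131, 234, 14, 114, 111, 390, 129, 71, 597, 636, 73, 215, 190, 53, 769, 64, 207, 731, 762, 330, 338, 753, 747, 786]),
    ([481], [27, 34, 25, 24, 112, 15, 166, 11, 126, 5, 132, 138, 3, 124, 150, 44, 235, 410, 279, 242, 136, 1, 125, 139, 161, 223, 540, 173, 338, 281, 186, 311, 619, 0, 140, 270, 90, 111, 775, 769, 414, 573, 54, 309, 785, 789, 746, 165, 463, 740]),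
    ([61], [0, 120]), ([103], [1, 217]), ([477], [39, 2, 553, 181, 441]), ([490], [0, 204]),
    ([743], [1, 162]), ([745], [2, 40, 647]), ([468], [3, 42, 707]), ([464], [4, 43, 707]),
    ([738], [5, 29, 408]), ([605], [4, 45, 413]), ([221], [5, 30, 644]), ([93], [6, 3, 635]),
    ([740], [7, 6, 456]), ([618], [7, 144]), ([234], [8, 42, 297]), ([343], [8, 624]),
    ([338], [9, 37, 643]), ([58], [9, 172]), ([86], [10, 230]), ([106], [7, 141]),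
    ([225], [5, 6, 47, 42, 94]), ([84], [5, 13, 151]), ([28], [1, 166]), ([26], [2, 12, 268]),
    ([82], [1, 4, 261]), ([50], [2, 23, 332]), ([608], [3, 16, 2, 53, 48, 99]),
    ([53], [1, 5, 20, 47, 2, 19, 9, 8, 745]), ([104], [1, 245]), ([488], [2, 27, 442]),
    ([362], [17, 250]), ([56], [3, 30, 699]), ([317], [4, 32, 381]),
    ([355], [4, 2, 21, 16, 24, 27, 115]), ([358], [4, 27, 30, 21, 5, 2, 0, 133]),
    ([], [2, 0, 169])]

theorem factsH_ok : factsH.all (Fact.ok 7) = true := by decide +kernel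

theorem certH_ok : Rup.check (factsH.map Fact.clause ++ extraH) certH = true := by
  decide +kernel

/-- facts of the refutation E -/
def factsE : List Fact := [
    .zf 0 0, .zf 0 7, .zf 1 7, .zf 2 2, .zf 2 7, .zf 1 1, .zf 6 7, .xu 0 1 true false,
    .xu 0 1 false true, .zf 3 7, .zf 6 6, .xu 0 6 true false, .zf 3 3, .ex 0 1 4 false,
    .ex 0 1 6 false, .xu 1 0 false false, .ex 2 0 6 false, .ex 6 0 2 true, .xu 6 0 false true,
    .ms 0 0 1 2 false true false, .ms 0 0 2 7 false true false, .z2 3 1 2, .eq 0 2 3 false,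
    .eq 2 0 3 false, .hq 0 1 4 6 7, .hq 0 2 7 4 6, .ex 0 1 2 true, .ex 0 1 3 true,
    .xu 0 2 true true, .xu 0 2 true false, .xu 0 2 false true, .xu 0 2 false false,
    .xu 0 3 true true, .xu 0 4 true false, .xu 0 5 true false, .xu 0 6 true true,
    .xu 0 6 false true, .ex 1 0 2 true, .ex 1 0 4 true, .xu 1 0 true true, .xu 1 2 true true,
    .xu 1 2 false false, .xu 1 3 false false, .ex 2 0 1 true, .xu 2 0 true true,
    .xu 2 3 true true, .ms 0 0 1 3 false true false, .ms 0 0 1 7 false true false,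
    .ms 0 0 1 7 false false false, .ms 0 0 2 3 false true false, .ms 0 0 3 7 false true false,
    .ms 0 1 2 7 true true false, .ms 0 1 3 7 true true false, .z2 0 1 4, .z2 0 1 6,
    .ms 1 0 1 7 true false false, .ms 1 1 2 7 false true false, .ms 1 1 3 7 false true false,
    .z2 1 0 2, .z2 1 0 4, .z2 1 2 3, .ms 2 0 2 7 true false false, .z2 2 0 1, .z2 2 3 4,
    .ms 3 0 1 7 true true false, .ms 3 2 3 7 true false false, .zf 4 4, .zf 4 7,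
    .ms 6 0 2 6 true false false, .ms 6 0 2 7 true true false, .ms 6 0 6 7 true false false,
    .z2 6 3 4, .eq 0 1 2 false, .eq 0 1 3 false, .eq 0 1 4 false, .eq 0 1 5 false,
    .eq 0 1 6 false, .eq 0 2 3 true, .eq 0 4 6 true, .tr 0 1 2 4 true, .tr 0 1 2 6 true,
    .tr 0 1 3 5 true, .tr 0 1 3 6 true, .tr 0 1 4 2 false, .tr 0 1 4 3 false, .tr 0 1 5 2 false,
    .tr 0 1 5 3 false, .tr 0 1 6 2 false, .tr 0 1 6 3 false, .eq 1 0 2 false, .eq 1 0 3 false,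
    .eq 1 0 4 false, .eq 1 0 5 false, .eq 1 0 6 false, .eq 1 2 4 true, .eq 1 3 4 true,
    .tr 1 0 3 6 true, .tr 1 0 4 6 true, .tr 1 0 6 2 false, .tr 1 0 6 3 false, .tr 1 0 6 4 false,
    .eq 2 0 3 true, .tr 2 0 1 3 true, .tr 2 0 3 1 false, .tr 3 0 1 2 true, .tr 3 0 5 2 true,
    .eq 5 0 3 false, .eq 5 3 6 true, .tr 5 0 6 3 true, .eq 6 0 2 false, .eq 6 1 2 false,
    .eq 6 1 4 false, .tr 6 0 3 1 false, .tr 6 0 3 2 false, .tr 6 1 4 2 false, .hq 0 1 4 2 7,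
    .hq 0 1 4 3 7, .hq 0 1 7 2 5, .hq 0 1 7 2 6, .hq 0 1 7 3 5, .hq 0 1 7 3 6, .hq 0 2 7 3 6,
    .hq 0 3 5 2 7, .hq 0 3 7 2 6, .hq 0 6 7 2 3, .hq 0 6 7 2 4, .hq 1 3 6 2 7, .hq 4 6 7 1 2,
    .ex 0 2 3 true, .ex 0 4 6 true, .ex 0 5 6 true, .xu 0 3 true false, .xu 0 3 false true,
    .xu 0 3 false false, .xu 0 4 false true, .xu 0 5 true true, .ex 1 0 3 true, .ex 1 0 5 false,
    .ex 1 0 6 false, .xu 1 3 true true, .xu 1 4 true true, .ex 2 0 3 true, .ex 2 1 4 true,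
    .ex 2 4 3 true, .xu 2 0 true false, .xu 2 0 false true, .xu 2 0 false false,
    .xu 2 1 true true, .xu 2 1 false false, .xu 2 3 true false, .xu 2 3 false false,
    .xu 2 4 true true, .xu 2 4 false false, .xu 2 6 true true, .ex 3 0 2 true, .ex 3 0 2 false,
    .ex 3 1 2 true, .ex 3 1 4 true, .ex 3 1 6 true, .ex 3 5 6 true, .xu 3 0 true true,
    .xu 3 1 false false, .xu 3 2 true true, .xu 3 2 true false, .xu 3 4 true true,
    .xu 3 5 false false, .xu 3 6 true true, .ex 4 1 2 true, .ex 4 2 3 true, .ex 6 0 4 true,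
    .ex 6 0 4 false, .xu 6 0 true false, .xu 6 1 false false, .xu 6 2 true true,
    .xu 6 2 false false, .xu 6 3 true false, .xu 6 4 true false, .xu 6 4 false true,
    .ms 0 0 5 7 false true false, .ms 0 0 6 7 false true false, .ms 0 3 6 7 true true false,
    .ms 0 4 6 7 true true false, .z2 0 1 2, .z2 0 1 3, .z2 0 5 6, .ms 1 0 1 5 true false false,
    .ms 1 0 1 6 true false false, .ms 1 0 1 7 false false false, .ms 1 0 4 7 false true false,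
    .ms 1 0 5 7 true true false, .ms 1 0 6 7 true true false, .ms 1 0 6 7 false true false,
    .ms 1 2 3 7 true true false, .ms 1 2 4 7 true true false, .z2 1 0 3, .z2 1 0 6,
    .ms 2 0 1 2 false true false, .ms 2 0 1 7 true true false, .ms 2 0 2 3 true false true,
    .ms 2 0 2 6 true false false, .ms 2 0 2 7 false false false, .ms 2 0 3 7 true false false,
    .ms 2 0 4 7 true true false, .ms 2 0 6 7 true true false, .ms 2 1 2 3 true false true,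
    .ms 2 1 2 7 true false false, .ms 2 2 3 7 false true false, .ms 2 2 4 7 false true false,
    .z2 2 1 3, .ms 3 0 1 3 false true false, .ms 3 0 2 7 true true false,
    .ms 3 1 3 7 false false false, .z2 3 0 1, .z2 3 0 2, .ms 4 0 1 7 true true false,
    .ms 4 1 4 7 false false false, .ms 4 2 4 7 true false false, .ms 4 3 4 7 true false false,
    .ms 4 4 6 7 false true false, .z2 4 0 6, .z2 4 2 3, .ms 6 0 1 7 false true false,
    .ms 6 0 3 7 true true false, .ms 6 3 6 7 true false false, .ms 6 4 6 7 true false false,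
    .z2 6 0 1]

/-- the further clauses of the refutation E -/
def extraE : List (List ℕ) := [2, 3, 4, 5, 6, 7].map (fun k => [L (V 0 1 k) true])

/-- the certificate of the refutation E -/
def certE : List (List ℕ × List ℕ) := [
    ([35], [226, 72]), ([160], [227, 90]), ([51], [229, 75]), ([176], [230, 93]),
    ([66], [232, 78]), ([68], [233, 4, 88]), ([70], [234, 3, 90]), ([192], [235, 98]),
    ([40], [3, 234, 87]), ([82], [238, 84]), ([84], [239, 9, 95]), ([86], [240, 8, 97]),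
    ([209], [241, 104]), ([58], [3, 240, 94]), ([464], [2, 120]), ([98], [245, 91]),
    ([100], [246, 15, 103]), ([102], [247, 14, 105]), ([225], [248, 111]),
    ([228], [249, 17, 117]), ([230], [250, 16, 119]), ([232], [251, 13, 121]),
    ([44], [6, 248, 102]), ([60], [7, 250, 105]), ([353], [7, 133]), ([482], [6, 7, 137]),
    ([188], [7, 253, 122]), ([204], [8, 255, 124]), ([355], [8, 138]), ([610], [7, 140]),
    ([484], [5, 12, 143]), ([612], [2, 9, 145]),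
    ([1217, 1025, 111, 95], [22, 261, 19, 16, 37, 262, 13, 34, 33, 32, 67, 167, 217, 218, 221, 222, 210, 211, 216]),
    ([240, 206], [261, 264, 71, 48, 173]), ([115, 111, 95, 241], [36, 39, 265, 42, 221, 1]),
    ([241, 123, 119, 117, 115], [266, 264, 34, 261, 33, 32, 262, 35, 31, 36, 37, 40, 172, 74, 83, 152, 154, 54, 81, 76, 77, 87, 86, 92, 91, 95]),
    ([368, 175, 245, 117, 47], [35, 40, 39, 79, 97, 241, 98]),
    ([111, 1233, 1216, 1025], [12, 20, 40, 14, 41, 39, 236, 232, 72, 240, 228]),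
    ([376, 1241, 1028, 1225, 1221], [40, 42, 41, 190, 231, 245]),
    ([240, 119, 1025, 47, 39], [265, 44, 41, 43, 42, 16, 30, 11, 31, 270, 269, 34, 267, 68, 46, 76, 54, 94, 5, 79, 97, 233, 98, 2, 55, 83, 239, 1, 50, 160, 189, 231, 245, 102, 0, 64, 168, 72, 63]),
    ([1025, 63, 47, 39], [39, 38, 37, 40, 36, 266, 271, 270, 267, 41, 42, 45, 47, 69, 171, 0, 178, 79, 88, 4, 59, 86, 74, 5, 51, 158, 160, 81, 82, 92, 91, 97, 96, 100]),
    ([1204], [40, 267, 41, 39, 223, 60]), ([881, 366, 111], [25, 59, 60, 215]),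
    ([1296, 241, 114], [49, 274, 268, 264]),
    ([63, 47, 39], [2, 45, 44, 56, 53, 275, 54, 21, 27, 19, 50, 66, 67, 93, 3, 52, 74, 176, 64, 94, 185, 190, 198, 89, 109, 257, 65, 108, 0, 112, 113]),
    ([1297, 116, 47], [45, 3, 46, 55, 22, 28, 20, 51, 65, 113, 114]),
    ([1251, 240, 114], [58, 43, 273, 42, 55, 277, 255, 110]),
    ([1024, 47], [278, 48, 5, 47, 56, 55, 77, 67, 1, 3, 0, 259, 68, 257]),
    ([47, 39], [275, 279, 3, 0, 55, 80, 75]),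
    ([888, 1305, 1037, 1213, 1209], [50, 55, 59, 225, 230, 273]),
    ([889, 881, 885, 111, 121, 117, 125], [33, 175, 219]),
    ([241, 111, 119, 117, 114, 1207], [279, 281, 51, 282, 33, 34, 52, 57, 61, 65, 64, 98, 7, 104, 105, 121, 68, 69, 175, 226, 231, 274, 122, 1, 0]),
    ([368, 175, 46], [51, 95, 196, 200]), ([319, 1029, 1031, 1253], [62, 65, 202, 215, 118]),
    ([629, 883, 885, 623, 889, 196, 240, 114], [282, 22, 24, 120, 121, 285, 20, 92, 221, 181, 269, 272, 268, 273]),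
    ([1024, 39], [13, 55, 49, 281, 48, 282, 27, 47, 286, 285, 50, 283, 64, 67, 32, 24, 29, 34, 35, 28, 122, 121, 6, 77, 78, 104, 63, 86, 68, 69, 183, 189, 91, 3, 92, 191, 70, 21, 8, 95, 194, 170, 171, 79, 76, 266, 149, 150, 133, 212, 213, 216, 219, 221, 2, 71, 200, 202, 208, 197, 12, 206, 225, 226, 232, 229, 1, 100, 218, 198, 211, 181, 227, 0, 223, 271, 272, 275]),
    ([39], [287, 282, 7, 0, 63, 84, 82]), ([52], [0, 134]), ([305], [1, 159]),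
    ([307], [2, 57, 162]), ([468], [1, 46, 165]), ([167], [2, 60, 163]), ([180], [3, 59, 166]),
    ([1234], [4, 66, 6, 5, 125, 271, 261]), ([1232], [0, 62, 290, 63, 67, 260]),
    ([1239], [1, 5, 3, 68, 2, 269]), ([1240], [0, 129]),
    ([1024], [295, 297, 71, 3, 2, 298, 77, 50, 68, 67, 73, 75, 19, 80, 81, 98, 103, 264, 114, 23, 250, 120, 121, 137, 15, 84, 85, 16, 200, 117, 17, 289, 138]),
    ([114], [0, 299, 75]), ([116], [0, 295, 95]), ([118], [1, 297, 97]), ([46], [1, 3, 99]),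
    ([62], [1, 4, 104]), ([496], [2, 0, 7, 8, 77, 274]), ([368], [2, 9, 4, 77, 78, 135]),
    ([500], [1, 17, 230]), ([1031], [2, 3, 236]), ([380], [2, 54, 93]), ([1029], [3, 6, 122]),
    ([120, 1225, 79, 1216], [12, 14, 83, 81, 267, 281]),
    ([1216], [15, 1, 13, 2, 10, 5, 8, 57, 71, 12, 138, 139, 42, 41, 91, 105, 113, 0]),
    ([240], [0, 312, 12, 86, 83, 136]), ([123], [0, 11, 12, 13, 46]), ([94], [0, 15, 117]),
    ([111], [0, 15, 2, 49]), ([479], [1, 71, 74, 73, 27, 70, 24, 12, 207]), ([124], [1, 18, 97]),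
    ([506], [1, 10, 252]), ([509], [1, 64, 30, 18, 17, 14, 15, 12, 211]), ([92], [2, 6, 219]),
    ([477], [2, 1, 249]), ([742], [1, 76, 199]), ([], [1, 0, 199])]

theorem factsE_ok : factsE.all (Fact.ok 8) = true := by decide +kernel

theorem certE_ok : Rup.check (factsE.map Fact.clause ++ extraE) certE = true := by
  decide +kernel

end Hep

end PHP
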