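import Mathlib
import Pool.Agent.PHP.HepData

/-!
# Seven lines in circular order: covering triples and corners (problem MP_1180db_co, k = 3)

For seven lines `R` in circular order (`World.Seven`) such that every cell is inside at least three of them, in a world
without covering triples which have two further lines through the triangle (`World.HQ`):
`Seven.cov` (`a i, a (i+2), a (i+4)` covers), `Seven.exists_corner` (some crossing `a i, a (i+1)` is inside all other
lines of `R`), `Seven.corner_of_three` (one of any three lines of `R` has such a crossing), `Seven.corner_out` (no further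
line contains such a crossing of `a i, a (i+1)`, if for every `m ∈ R` there is a cell with at least five members, all in
`R` and without `m`).
-/

namespace PHP

open Finset Rup

namespace Hep

variable {ι : Type}

/-- the lines with numbers -/
def line (a : Fin 7 → ι) (e : ι) (n : ℕ) : ι :=
  if n = 7 then e else a ⟨n % 7, Nat.mod_lt _ (by norm_num)⟩

theorem line_lt {a : Fin 7 → ι} {e : ι} {n : ℕ} (h : n < 7) : line a e n = a ⟨n, h⟩ := by
  unfold line
  rw [if_neg (by omega)]
  congr 1
  exact Fin.ext (Nat.mod_eq_of_lt h)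

theorem line_seven {a : Fin 7 → ι} {e : ι} : line a e 7 = e := by
  unfold line
  rw [if_pos rfl]

theorem far_eq {i k : Fin 7} : far i.val (i + k).val = decide (4 ≤ k.val) := by
  unfold far
  have h1 : (i + k).val = (i.val + k.val) % 7 := Fin.val_add i k
  have h2 := i.isLt
  have h3 := k.isLt
  rw [h1]
  congr 1
  have h4 : ((i.val + k.val) % 7 + 7 - i.val) % 7 = k.val := by omega
  rw [h4]

theorem types {W : World ι} {R : Finset ι} {a : Fin 7 → ι} (h : W.Seven R a) {i k : Fin 7}
    (hk : k ≠ 0) :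
    W.ty (a i) (a (i + k)) = xor (W.ty (a i) (a (i + 1))) (decide (4 ≤ k.val)) := by
  have h2 := h.t2 i
  have h3 := h.t3 i
  have h4 := h.t4 i
  have h5 := h.t5 i
  have h6 := h.t6 i
  fin_cases k
  · exact absurd rfl hk
  · change W.ty (a i) (a (i + 1)) = xor _ false
    rw [Bool.xor_false]
  · change W.ty (a i) (a (i + 2)) = xor _ false
    rw [Bool.xor_false, h2]
  · change W.ty (a i) (a (i + 3)) = xor _ false
    rw [Bool.xor_false, h3]
  · change W.ty (a i) (a (i + 4)) = xor _ true
    rw [Bool.xor_true, h4]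
  · change W.ty (a i) (a (i + 5)) = xor _ true
    rw [Bool.xor_true, h5]
  · change W.ty (a i) (a (i + 6)) = xor _ true
    rw [Bool.xor_true, h6]

theorem line_ty {W : World ι} {R : Finset ι} {a : Fin 7 → ι} (h : W.Seven R a) {e : ι}
    {s x : ℕ} (hs : s < 7) (hx : x < 7) (hsx : s ≠ x) :
    W.ty (line a e s) (line a e x) =
      xor (W.ty (line a e s) (line a e ((s + 1) % 7))) (far s x) := by
  rw [line_lt hs, line_lt hx, line_lt (Nat.mod_lt _ (by norm_num))]
  set i : Fin 7 := ⟨s, hs⟩ with hi
  set k : Fin 7 := ⟨x, hx⟩ - i with hk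
  have h1 : (⟨x, hx⟩ : Fin 7) = i + k := by rw [hk, add_sub_cancel]
  have h2 : k ≠ 0 := by
    intro h3
    rw [hk, sub_eq_zero, hi] at h3
    exact hsx (Fin.mk.inj h3).symm
  have h3 : (⟨(s + 1) % 7, Nat.mod_lt _ (by norm_num)⟩ : Fin 7) = i + 1 := Fin.ext (by
    rw [Fin.val_add]
    rfl)
  have h4 : far s x = decide (4 ≤ k.val) := by
    have h5 : far i.val (i + k).val = decide (4 ≤ k.val) := far_eq
    rw [← h1] at h5
    exact h5
  rw [h1, h3, h4]
  exact types h h2

theorem seven_card {W : World ι} {R : Finset ι} {a : Fin 7 → ι} (h : W.Seven R a) :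
    R.card = 7 := by
  classical
  have h1 : R = univ.image a := by
    ext x
    rw [h.mem, mem_image]
    constructor
    · rintro ⟨i, rfl⟩
      exact ⟨i, mem_univ i, rfl⟩
    · rintro ⟨i, -, rfl⟩
      exact ⟨i, rfl⟩
  rw [h1, card_image_of_injective _ h.inj]
  rfl

/-- three of the other lines contain a crossing -/
theorem exists_true [DecidableEq ι] {W : World ι} {R : Finset ι} (hR : R.card = 7)
    (hd : ∀ X ∈ W.T, 3 ≤ (R.filter (fun i => X i = true)).card) {x y : ι} (hxy : x ≠ y)
    {Q : Finset ι} (hQ : Q ⊆ R) (h5 : Q.card = 5) (hx : x ∈ R → x ∈ Q) (hy : y ∈ R → y ∈ Q) :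
    ∃ k ∈ Q, k ≠ x ∧ k ≠ y ∧ W.vt x y k = true := by
  by_contra hcon
  push Not at hcon
  have h1 := hd (fun k => if k = x ∨ k = y then false else W.vt x y k)
    (W.vertex hxy _ (fun k h2 h3 => by rw [if_neg (by tauto)]))
  have h2 : R.filter (fun i => (if i = x ∨ i = y then false else W.vt x y i) = true) ⊆
      R \ Q := by
    intro k hk
    rw [mem_filter] at hk
    rw [mem_sdiff]
    refine ⟨hk.1, fun hkQ => ?_⟩
    by_cases h3 : k = x ∨ k = y
    · rw [if_pos h3] at hk
      exact absurd hk.2 (by simp)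
    · rw [if_neg h3] at hk
      push Not at h3
      exact hcon k hkQ h3.1 h3.2 hk.2
  have h3 := card_le_card h2
  rw [card_sdiff_of_subset hQ, h5, hR] at h3
  omega

theorem line_mem {W : World ι} {R : Finset ι} {a : Fin 7 → ι} (h : W.Seven R a) {e : ι}
    {n : ℕ} (hn : n < 7) : line a e n ∈ R := by
  rw [line_lt hn, h.mem]
  exact ⟨_, rfl⟩

theorem line_inj {W : World ι} {R : Finset ι} {a : Fin 7 → ι} (h : W.Seven R a) {e : ι}
    {i j : ℕ} (hi : i < 7) (hj : j < 7) (hij : line a e i = line a e j) : i = j := by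
  rw [line_lt hi, line_lt hj] at hij
  exact Fin.mk.inj (h.inj hij)

theorem image_card [DecidableEq ι] {W : World ι} {R : Finset ι} {a : Fin 7 → ι}
    (h : W.Seven R a) {e : ι} {l : List ℕ} (hl : l.Nodup) (h7 : ∀ i ∈ l, i < 7) :
    (l.toFinset.image (line a e)).card = l.length := by
  rw [card_image_of_injOn, List.toFinset_card_of_nodup hl]
  intro i hi j hj hij
  exact line_inj h (h7 i (by simpa using hi)) (h7 j (by simpa using hj)) hij

theorem line_d3 {W : World ι} {R : Finset ι} {a : Fin 7 → ι} (h : W.Seven R a)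
    (hd : ∀ X ∈ W.T, 3 ≤ (R.filter (fun i => X i = true)).card) {e : ι} (i j k l m : ℕ)
    (hi : i < 7) (hj : j < 7) (hk : k < 7) (hl : l < 7) (hm : m < 7)
    (hn : [i, j, k, l, m].Nodup) :
    W.vt (line a e i) (line a e j) (line a e k) = true ∨
      W.vt (line a e i) (line a e j) (line a e l) = true ∨
      W.vt (line a e i) (line a e j) (line a e m) = true := by
  classical
  have hij : i ≠ j := by
    rintro rfl
    simp at hn
  have h7 : ∀ n ∈ [i, j, k, l, m], n < 7 := by
    simp [hi, hj, hk, hl, hm]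
  obtain ⟨t, ht, h1, h2, h3⟩ := exists_true (seven_card h) hd
    (x := line a e i) (y := line a e j) (fun h1 => hij (line_inj h hi hj h1))
    (Q := [i, j, k, l, m].toFinset.image (line a e))
    (by
      intro x hx
      rw [mem_image] at hx
      obtain ⟨n, hn', rfl⟩ := hx
      exact line_mem h (h7 n (by simpa using hn')))
    (by rw [image_card h hn h7]; rfl)
    (fun _ => mem_image.2 ⟨i, by simp, rfl⟩) (fun _ => mem_image.2 ⟨j, by simp, rfl⟩)
  rw [mem_image] at ht
  obtain ⟨n, hn', rfl⟩ := ht
  simp only [List.mem_toFinset, List.mem_cons, List.not_mem_nil, or_false] at hn'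
  rcases hn' with rfl | rfl | rfl | rfl | rfl
  · exact absurd rfl h1
  · exact absurd rfl h2
  · exact Or.inl h3
  · exact Or.inr (Or.inl h3)
  · exact Or.inr (Or.inr h3)

theorem line_d4 {W : World ι} {R : Finset ι} {a : Fin 7 → ι} (h : W.Seven R a)
    (hd : ∀ X ∈ W.T, 3 ≤ (R.filter (fun i => X i = true)).card) {e : ι} (he : e ∉ R)
    (i k l m n : ℕ) (hi : i < 7) (hk : k < 7) (hl : l < 7) (hm : m < 7) (hn : n < 7)
    (hno : [i, k, l, m, n].Nodup) :
    W.vt (line a e i) e (line a e k) = true ∨ W.vt (line a e i) e (line a e l) = true ∨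
      W.vt (line a e i) e (line a e m) = true ∨ W.vt (line a e i) e (line a e n) = true := by
  classical
  have h7 : ∀ t ∈ [i, k, l, m, n], t < 7 := by
    simp [hi, hk, hl, hm, hn]
  have hne : line a e i ≠ e := fun h1 => he (h1 ▸ line_mem h hi)
  obtain ⟨t, ht, h1, h2, h3⟩ := exists_true (seven_card h) hd
    (x := line a e i) (y := e) hne
    (Q := [i, k, l, m, n].toFinset.image (line a e))
    (by
      intro x hx
      rw [mem_image] at hx
      obtain ⟨n, hn', rfl⟩ := hx
      exact line_mem h (h7 n (by simpa using hn')))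
    (by rw [image_card h hno h7]; rfl)
    (fun _ => mem_image.2 ⟨i, by simp, rfl⟩) (fun h1 => absurd h1 he)
  rw [mem_image] at ht
  obtain ⟨t, ht', rfl⟩ := ht
  simp only [List.mem_toFinset, List.mem_cons, List.not_mem_nil, or_false] at ht'
  rcases ht' with rfl | rfl | rfl | rfl | rfl
  · exact absurd rfl h1
  · exact Or.inl h3
  · exact Or.inr (Or.inl h3)
  · exact Or.inr (Or.inr (Or.inl h3))
  · exact Or.inr (Or.inr (Or.inr h3))

/-- the context for seven lines -/
theorem ctx7 {W : World ι} {R : Finset ι} {a : Fin 7 → ι} (h : W.Seven R a)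
    (hd : ∀ X ∈ W.T, 3 ≤ (R.filter (fun i => X i = true)).card) (hQ : W.HQ) (e : ι)
    (X : ℕ → ι → Bool) : Ctx W (line a e) 7 X where
  le := by omega
  inj := fun i j hi hj => line_inj h hi hj
  ty := fun s x hs hx hsx => line_ty h hs hx hsx
  d3 := line_d3 h hd
  hq := hQ
  d4 := fun h1 => absurd h1 (by norm_num)
  mem := fun h1 => absurd h1 (by norm_num)
  zf := fun h1 => absurd h1 (by norm_num)
  z2 := fun h1 => absurd h1 (by norm_num)

/-- the other crossing on a line -/
theorem vt_flip {W : World ι} {A : ℕ → ι} {N : ℕ} {X : ℕ → ι → Bool} (c : Ctx W A N X)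
    {s x y : ℕ} (hs : s < 7) (hx : x < 7) (hy : y < 7) (hsx : s ≠ x) (hsy : s ≠ y)
    (hxy : x ≠ y) : W.vt (A s) (A x) (A y) =
      xor (W.vt (A s) (A y) (A x)) (far s x == far s y) := by
  have hN := c.le
  have n1 : A x ≠ A s := c.ne (by omega) (by omega) (Ne.symm hsx)
  have n2 : A y ≠ A s := c.ne (by omega) (by omega) (Ne.symm hsy)
  have n3 : A x ≠ A y := c.ne (by omega) (by omega) hxy
  rw [Ctx.vt_ord W n1 n2 n3, c.ty s y hs hy hsy, Ctx.vt_ord W n2 n1 (Ne.symm n3),
    c.ty s x hs hx hsx, Ctx.ord_symm W n1 n2 n3]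
  generalize decide (W.pos (A s) (A x) < W.pos (A s) (A y)) = p
  generalize W.ty (A s) (A ((s + 1) % 7)) = t
  generalize far s x = q
  generalize far s y = r
  revert p t q r
  decide

theorem sat_single {σ : ℕ → Bool} {v : ℕ} {b : Bool} (h : σ v = b) : Sat σ [L v b] :=
  ⟨L v b, by simp, by rw [lit_L, h]; cases b <;> rfl⟩

theorem sat_mem {σ : ℕ → Bool} {v : ℕ} {b : Bool} {c : List ℕ} (hm : L v b ∈ c)
    (h : σ v = b) : Sat σ c :=
  ⟨L v b, hm, by rw [lit_L, h]; cases b <;> rfl⟩

/-- not a corner -/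
theorem sat_nonc {W : World ι} {R : Finset ι} {a : Fin 7 → ι} (h : W.Seven R a) {e : ι}
    {X : ℕ → ι → Bool} {nc : ℕ → Bool} {p s : ℕ} (hp : p < 7) (hs : s < 7) (hps : p ≠ s)
    (hno : ¬ W.Corner R (line a e p) (line a e s)) :
    ∃ l ∈ nonc p s, lit (sig W (line a e) X nc) l = true := by
  have h1 : ∃ k ∈ R, k ≠ line a e p ∧ k ≠ line a e s ∧
      W.vt (line a e p) (line a e s) k = false := by
    by_contra hcon
    push Not at hcon
    refine hno ⟨line_mem h hp, line_mem h hs, fun h1 => hps (line_inj h hp hs h1),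
      fun k h1 h2 h3 => ?_⟩
    have h4 := hcon k h1 h2 h3
    simpa using h4
  obtain ⟨k, hk, h2, h3, h4⟩ := h1
  obtain ⟨i, rfl⟩ := (h.mem k).1 hk
  have h5 : line a e i.val = a i := line_lt i.isLt
  rw [← h5] at h2 h3 h4
  refine ⟨L (V p s i.val) false, ?_, ?_⟩
  · unfold nonc
    rw [List.mem_map]
    refine ⟨i.val, ?_, rfl⟩
    rw [List.mem_filter, List.mem_range]
    refine ⟨i.isLt, ?_⟩
    rw [decide_eq_true_iff]
    exact ⟨fun h6 => h2 (by rw [h6]), fun h6 => h3 (by rw [h6])⟩
  · have h6 := i.isLt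
    rw [lit_L, sig_V (by omega) (by omega) (by omega), h4]
    rfl

end Hep

open Hep

variable {ι : Type} {W : World ι} {R : Finset ι} {a : Fin 7 → ι}

private theorem cov_zero (h : W.Seven R a)
    (hd : ∀ X ∈ W.T, 3 ≤ (R.filter (fun i => X i = true)).card) (hQ : W.HQ) :
    W.Cov (a 0) (a 2) (a 4) := by
  have c := ctx7 h hd hQ (a 0) (fun _ _ => false)
  have e0 : line a (a 0) 0 = a 0 := line_lt (by norm_num)
  have e2 : line a (a 0) 2 = a 2 := line_lt (by norm_num)
  have e4 : line a (a 0) 4 = a 4 := line_lt (by norm_num)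
  have h1 : W.vt (line a (a 0) 0) (line a (a 0) 2) (line a (a 0) 4) = true := by
    by_contra hcon
    refine c.refute (nc := fun _ => false) factsA extraA certA factsA_ok ?_ certA_ok
    intro d hd'
    unfold extraA at hd'
    rw [List.mem_singleton] at hd'
    subst hd'
    refine sat_single ?_
    rw [sig_V (by norm_num) (by norm_num) (by norm_num)]
    simpa using hcon
  have h2 : W.vt (line a (a 0) 0) (line a (a 0) 4) (line a (a 0) 2) = true := by
    rw [vt_flip c (by norm_num) (by norm_num) (by norm_num) (by norm_num) (by norm_num)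
      (by norm_num), h1]
    decide
  have h3 : W.vt (line a (a 0) 2) (line a (a 0) 4) (line a (a 0) 0) = true := by
    rw [vt_flip c (by norm_num) (by norm_num) (by norm_num) (by norm_num) (by norm_num)
      (by norm_num), W.vt_comm, h1]
    decide
  rw [e0, e2, e4] at h1 h2 h3
  exact ⟨fun h4 => absurd (h.inj h4) (by decide), fun h4 => absurd (h.inj h4) (by decide),
    fun h4 => absurd (h.inj h4) (by decide), h1, h3, h2⟩

theorem World.Seven.cov (h : W.Seven R a)
    (hd : ∀ X ∈ W.T, 3 ≤ (R.filter (fun i => X i = true)).card) (hQ : W.HQ) (i : Fin 7) :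
    W.Cov (a i) (a (i + 2)) (a (i + 4)) := by
  have h1 := cov_zero (h.rot i) hd hQ
  simp only [zero_add] at h1
  rw [add_comm i 2, add_comm i 4]
  exact h1

theorem World.Seven.exists_corner (h : W.Seven R a)
    (hd : ∀ X ∈ W.T, 3 ≤ (R.filter (fun i => X i = true)).card) (hQ : W.HQ) :
    ∃ i, W.Corner R (a i) (a (i + 1)) := by
  by_contra hcon
  push Not at hcon
  have c := ctx7 h hd hQ (a 0) (fun _ _ => false)
  refine c.refute (nc := fun _ => false) factsB extraB certB factsB_ok ?_ certB_ok
  intro d hd'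
  unfold extraB at hd'
  rw [List.mem_map] at hd'
  obtain ⟨i, hi, rfl⟩ := hd'
  rw [List.mem_range] at hi
  refine sat_nonc h hi (Nat.mod_lt _ (by norm_num)) (by omega) ?_
  have h1 := hcon ⟨i, hi⟩
  rw [line_lt hi, line_lt (Nat.mod_lt _ (by norm_num))]
  have h2 : (⟨(i + 1) % 7, Nat.mod_lt _ (by norm_num)⟩ : Fin 7) = ⟨i, hi⟩ + 1 := Fin.ext (by
    rw [Fin.val_add]
    rfl)
  rw [h2]
  exact h1

theorem World.Seven.corner_of_three (h : W.Seven R a)
    (hd : ∀ X ∈ W.T, 3 ≤ (R.filter (fun i => X i = true)).card) (hQ : W.HQ) {p q r : ι}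
    (hp : p ∈ R) (hq : q ∈ R) (hr : r ∈ R) (hpq : p ≠ q) (hpr : p ≠ r) (hqr : q ≠ r) :
    ∃ s, W.Corner R p s ∨ W.Corner R q s ∨ W.Corner R r s := by
  classical
  by_contra hcon
  push Not at hcon
  obtain ⟨i, rfl⟩ := (h.mem p).1 hp
  obtain ⟨j, rfl⟩ := (h.mem q).1 hq
  obtain ⟨k, rfl⟩ := (h.mem r).1 hr
  have hij : i ≠ j := fun h1 => hpq (by rw [h1])
  have hik : i ≠ k := fun h1 => hpr (by rw [h1])
  have hjk : j ≠ k := fun h1 => hqr (by rw [h1])
  have c := ctx7 h hd hQ (a 0) (fun _ _ => false)
  refine c.refute (nc := fun n => decide (∀ s, ¬ W.Corner R (line a (a 0) n) s)) factsH extraH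
    certH factsH_ok ?_ certH_ok
  intro d hd'
  unfold extraH at hd'
  rw [List.mem_append, List.mem_map, List.mem_map] at hd'
  rcases hd' with ⟨⟨u, v⟩, huv, rfl⟩ | ⟨l, hl, rfl⟩
  · have h1 : u < 7 ∧ v < 7 ∧ v ≠ u := by
      unfold pairs at huv
      rw [List.mem_flatMap] at huv
      obtain ⟨w, hw, h2⟩ := huv
      rw [List.mem_map] at h2
      obtain ⟨t, ht, h3⟩ := h2
      rw [List.mem_filter, List.mem_range, decide_eq_true_iff] at ht
      rw [List.mem_range] at hw
      obtain ⟨rfl, rfl⟩ := Prod.mk.inj h3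
      exact ⟨hw, ht.1, ht.2⟩
    obtain ⟨h2, h3, h4⟩ := h1
    by_cases h5 : ∀ s, ¬ W.Corner R (line a (a 0) u) s
    · obtain ⟨t, ht, ht'⟩ := sat_nonc (nc := fun n => decide (∀ s, ¬ W.Corner R
        (line a (a 0) n) s)) (X := fun _ _ => false) h h2 h3 (Ne.symm h4) (h5 _)
      exact ⟨t, List.mem_cons_of_mem _ ht, ht'⟩
    · refine sat_mem (v := NC u) (b := false) (by simp) ?_
      rw [sig_NC]
      exact decide_eq_false h5
  · have key : ∀ l ∈ fives, ∀ i j k : Fin 7, i ≠ j → i ≠ k → j ≠ k →
        i.val ∈ l ∨ j.val ∈ l ∨ k.val ∈ l := by decide +kernel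
    have h1 : ∀ t : Fin 7, (∀ s, ¬ W.Corner R (a t) s) → t.val ∈ l →
        Sat (sig W (line a (a 0)) (fun _ _ => false)
          (fun n => decide (∀ s, ¬ W.Corner R (line a (a 0) n) s)))
          (l.map (fun p => L (NC p) true)) := by
      intro t ht htl
      refine sat_mem (v := NC t.val) (b := true) (List.mem_map.2 ⟨t.val, htl, rfl⟩) ?_
      rw [sig_NC, line_lt t.isLt]
      exact decide_eq_true ht
    rcases key l hl i j k hij hik hjk with h2 | h2 | h2
    · exact h1 i (fun s => (hcon s).1) h2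
    · exact h1 j (fun s => (hcon s).2.1) h2
    · exact h1 k (fun s => (hcon s).2.2) h2

private theorem corner_zero [Fintype ι] (h : W.Seven R a)
    (hd : ∀ X ∈ W.T, 3 ≤ (R.filter (fun i => X i = true)).card) (hQ : W.HQ)
    (hz : ∀ m ∈ R, ∃ X ∈ W.T, X m = false ∧ (∀ i, X i = true → i ∈ R) ∧ 5 ≤ dep X)
    (hc : W.Corner R (a 0) (a 1)) {x : ι} (hx : x ∉ R) : W.vt (a 0) (a 1) x = false := by
  classical
  by_contra hcon
  have hcon' : W.vt (a 0) (a 1) x = true := by simpa using hcon
  have hz' : ∀ m : ℕ, ∃ X : ι → Bool, m < 7 → X ∈ W.T ∧ X (line a x m) = false ∧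
      (∀ i, X i = true → i ∈ R) ∧ 5 ≤ dep X := by
    intro m
    by_cases hm : m < 7
    · obtain ⟨X, h1, h2⟩ := hz _ (line_mem (e := x) h hm)
      exact ⟨X, fun _ => ⟨h1, h2⟩⟩
    · exact ⟨fun _ => false, fun h1 => absurd h1 hm⟩
  choose X hX using hz'
  have hinj : ∀ i j, i < 8 → j < 8 → line a x i = line a x j → i = j := by
    intro i j hi hj hij
    by_cases h1 : i < 7
    · by_cases h2 : j < 7
      · exact line_inj h h1 h2 hij
      · have h3 : j = 7 := by omega
        rw [h3, line_seven] at hij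
        exact absurd (hij ▸ line_mem h h1) hx
    · have h3 : i = 7 := by omega
      by_cases h2 : j < 7
      · rw [h3, line_seven] at hij
        exact absurd (hij ▸ line_mem h h2) hx
      · omega
  have c : Ctx W (line a x) 8 X :=
    { le := by omega
      inj := hinj
      ty := fun s y hs hy hsy => line_ty h hs hy hsy
      d3 := line_d3 h hd
      hq := hQ
      d4 := by
        intro _ i k l m n hi hk hl hm hn hno
        rw [line_seven]
        exact line_d4 h hd hx i k l m n hi hk hl hm hn hno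
      mem := fun _ m hm => (hX m hm).1
      zf := by
        intro _ m hm
        refine ⟨(hX m hm).2.1, ?_⟩
        rw [line_seven]
        by_contra h1
        exact hx ((hX m hm).2.2.1 x (by simpa using h1))
      z2 := by
        intro _ m u v hm hu hv hno
        by_contra h1
        push Not at h1
        obtain ⟨h2, h3⟩ := h1
        have h4 : univ.filter (fun i => X m i = true) ⊆
            R \ ([m, u, v].toFinset.image (line a x)) := by
          intro i hi
          rw [mem_filter] at hi
          rw [mem_sdiff]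
          refine ⟨(hX m hm).2.2.1 i hi.2, fun h5 => ?_⟩
          rw [mem_image] at h5
          obtain ⟨n, hn, rfl⟩ := h5
          simp only [List.mem_toFinset, List.mem_cons, List.not_mem_nil, or_false] at hn
          rcases hn with rfl | rfl | rfl
          · rw [(hX n hm).2.1] at hi
            exact absurd hi.2 (by simp)
          · exact h2 hi.2
          · exact h3 hi.2
        have h5 := card_le_card h4
        rw [card_sdiff_of_subset, seven_card h, image_card h hno (by simp [hm, hu, hv])] at h5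
        · have h6 := (hX m hm).2.2.2
          unfold dep at h6
          simp only [List.length_cons, List.length_nil] at h5
          omega
        · intro i hi
          rw [mem_image] at hi
          obtain ⟨n, hn, rfl⟩ := hi
          simp only [List.mem_toFinset, List.mem_cons, List.not_mem_nil, or_false] at hn
          rcases hn with rfl | rfl | rfl
          · exact line_mem h hm
          · exact line_mem h hu
          · exact line_mem h hv }
  have e0 : line a x 0 = a 0 := line_lt (by norm_num)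
  have e1 : line a x 1 = a 1 := line_lt (by norm_num)
  refine c.refute (nc := fun _ => false) factsE extraE certE factsE_ok ?_ certE_ok
  intro d hd'
  unfold extraE at hd'
  rw [List.mem_map] at hd'
  obtain ⟨k, hk, rfl⟩ := hd'
  simp only [List.mem_cons, List.not_mem_nil, or_false] at hk
  refine sat_single ?_
  rw [sig_V (by norm_num) (by norm_num) (by omega), e0, e1]
  by_cases h7 : k = 7
  · rw [h7, line_seven]
    exact hcon'
  · have hk7 : k < 7 := by omega
    refine hc.2.2.2 _ (line_mem h hk7) (fun h1 => ?_) (fun h1 => ?_)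
    · rw [← e0] at h1
      have := line_inj h hk7 (by norm_num) h1
      omega
    · rw [← e1] at h1
      have := line_inj h hk7 (by norm_num) h1
      omega

theorem World.Seven.corner_out [Fintype ι] (h : W.Seven R a)
    (hd : ∀ X ∈ W.T, 3 ≤ (R.filter (fun i => X i = true)).card) (hQ : W.HQ)
    (hz : ∀ m ∈ R, ∃ X ∈ W.T, X m = false ∧ (∀ i, X i = true → i ∈ R) ∧ 5 ≤ dep X) {i : Fin 7}
    (hc : W.Corner R (a i) (a (i + 1))) {x : ι} (hx : x ∉ R) :
    W.vt (a i) (a (i + 1)) x = false := by
  have h1 := corner_zero (h.rot i) hd hQ hz (x := x)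
  simp only [zero_add] at h1
  rw [add_comm i 1] at hc ⊢
  exact h1 hc hx

end PHP
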