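import Mathlib
import Pool.Agent.PHP.ExHept

/-!
# Seven points in circular order (problem MP_1180db_co)

`Loc r`: a locally transitive tournament. If every member of `O` has three successors and three predecessors in `O`,
then `O` has seven members in circular order: `Loc.labels`. `Seven7 C O` and `colour_of_three`: if three consecutive
ones of them are hull letters of `O` in a cap system, then the cells with at least five members are split by three
colours.
-/

set_option linter.unusedVariables false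
set_option linter.unusedSectionVars false

namespace PHP

open Finset

variable {ι : Type} [DecidableEq ι]

/-- a locally transitive tournament -/
structure Loc (r : ι → ι → Prop) : Prop where
  total : ∀ {x y}, x ≠ y → r x y ∨ r y x
  asymm : ∀ {x y}, r x y → ¬ r y x
  out : ∀ {s a b c}, r s a → r s b → r s c → r a b → r b c → r a c
  inn : ∀ {s a b c}, r a s → r b s → r c s → r a b → r b c → r a c

namespace Loc

variable {r : ι → ι → Prop}

theorem irrefl (h : Loc r) {x : ι} : ¬ r x x := fun h1 => h.asymm h1 h1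

theorem ne (h : Loc r) {x y : ι} (h1 : r x y) : x ≠ y := by
  rintro rfl
  exact h.irrefl h1

open Classical in
theorem not_succ (hr : Loc r) {O : Finset ι} (h : ∀ s ∈ O, (O.filter (fun x => r s x)).card = 3)
    {s a b c y : ι} (hs : s ∈ O) (ha : a ∈ O)
    (hb : b ∈ O) (hc : c ∈ O) (hab : a ≠ b) (hac : a ≠ c) (hbc : b ≠ c) (l1 : r s a)
    (l2 : r s b) (l3 : r s c) (hy : y ∈ O) (hya : y ≠ a) (hyb : y ≠ b) (hyc : y ≠ c)
    (hys : y ≠ s) : r y s := by
  rcases hr.total hys with h1 | h1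
  · exact h1
  exfalso
  have h2 : ({a, b, c, y} : Finset ι) ⊆ O.filter (fun x => r s x) := by
    intro i hi
    rw [mem_filter]
    simp only [mem_insert, mem_singleton] at hi
    rcases hi with rfl | rfl | rfl | rfl
    · exact ⟨ha, l1⟩
    · exact ⟨hb, l2⟩
    · exact ⟨hc, l3⟩
    · exact ⟨hy, h1⟩
  have h3 := card_le_card h2
  have h4 : ({a, b, c, y} : Finset ι).card = 4 := by
    rw [card_insert_of_notMem, card_insert_of_notMem, card_insert_of_notMem, card_singleton]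
    · simpa using hyc.symm
    · simp [hbc, hyb.symm]
    · simp [hab, hac, hya.symm]
  have h5 := h s hs
  rw [h4] at h3
  omega

open Classical in
theorem not_pred (hr : Loc r) {O : Finset ι} (h : ∀ s ∈ O, (O.filter (fun x => r x s)).card = 3)
    {s a b c y : ι} (hs : s ∈ O) (ha : a ∈ O)
    (hb : b ∈ O) (hc : c ∈ O) (hab : a ≠ b) (hac : a ≠ c) (hbc : b ≠ c) (l1 : r a s)
    (l2 : r b s) (l3 : r c s) (hy : y ∈ O) (hya : y ≠ a) (hyb : y ≠ b) (hyc : y ≠ c)
    (hys : y ≠ s) : r s y := by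
  rcases hr.total hys with h1 | h1
  swap
  · exact h1
  exfalso
  have h2 : ({a, b, c, y} : Finset ι) ⊆ O.filter (fun x => r x s) := by
    intro i hi
    rw [mem_filter]
    simp only [mem_insert, mem_singleton] at hi
    rcases hi with rfl | rfl | rfl | rfl
    · exact ⟨ha, l1⟩
    · exact ⟨hb, l2⟩
    · exact ⟨hc, l3⟩
    · exact ⟨hy, h1⟩
  have h3 := card_le_card h2
  have h4 : ({a, b, c, y} : Finset ι).card = 4 := by
    rw [card_insert_of_notMem, card_insert_of_notMem, card_insert_of_notMem, card_singleton]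
    · simpa using hyc.symm
    · simp [hbc, hyb.symm]
    · simp [hab, hac, hya.symm]
  have h5 := h s hs
  rw [h4] at h3
  omega

theorem sort_three (hr : Loc r) {P : ι → Prop} {x y z : ι} (hx : P x) (hy : P y) (hz : P z)
    (hxy : x ≠ y) (hxz : x ≠ z) (hyz : y ≠ z)
    (htr : ∀ a b c, P a → P b → P c → r a b → r b c → r a c) :
    ∃ a b c, P a ∧ P b ∧ P c ∧ r a b ∧ r b c ∧ r a c := by
  rcases hr.total hxy with h1 | h1 <;> rcases hr.total hxz with h2 | h2 <;>
    rcases hr.total hyz with h3 | h3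
  · exact ⟨x, y, z, hx, hy, hz, h1, h3, h2⟩
  · exact ⟨x, z, y, hx, hz, hy, h2, h3, h1⟩
  · exact absurd (htr _ _ _ hx hy hz h1 h3) (hr.asymm h2)
  · exact ⟨z, x, y, hz, hx, hy, h2, h1, h3⟩
  · exact ⟨y, x, z, hy, hx, hz, h1, h2, h3⟩
  · exact absurd (htr _ _ _ hy hx hz h1 h2) (hr.asymm h3)
  · exact ⟨y, z, x, hy, hz, hx, h3, h2, h1⟩
  · exact ⟨z, y, x, hz, hy, hx, h3, h1, h2⟩

end Loc

/-- seven members in circular order -/
structure Lab (r : ι → ι → Prop) (O : Finset ι) (a : Fin 7 → ι) : Prop where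
  mem : ∀ x, x ∈ O ↔ ∃ i, x = a i
  card : O.card = 7
  l1 : ∀ i, r (a i) (a (i + 1))
  l2 : ∀ i, r (a i) (a (i + 2))
  l3 : ∀ i, r (a i) (a (i + 3))

theorem Lab.inj {r : ι → ι → Prop} {O : Finset ι} {a : Fin 7 → ι} (h : Lab r O a) :
    Function.Injective a := by
  have h1 : (univ : Finset (Fin 7)).image a = O := by
    ext x
    rw [mem_image, h.mem]
    constructor
    · rintro ⟨i, -, rfl⟩
      exact ⟨i, rfl⟩
    · rintro ⟨i, rfl⟩
      exact ⟨i, mem_univ _, rfl⟩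
  have h2 := card_image_iff (s := (univ : Finset (Fin 7))) (f := a)
  rw [h1, h.card] at h2
  have h3 := h2.1 (by simp)
  intro i j hij
  exact h3 (by simp) (by simp) hij

theorem Lab.mem_a {r : ι → ι → Prop} {O : Finset ι} {a : Fin 7 → ι} (h : Lab r O a) (i : Fin 7) :
    a i ∈ O := (h.mem _).2 ⟨i, rfl⟩

/-- rotation -/
theorem Lab.rot {r : ι → ι → Prop} {O : Finset ι} {a : Fin 7 → ι} (h : Lab r O a) (t : Fin 7) :
    Lab r O (fun i => a (i + t)) where
  mem := by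
    intro x
    rw [h.mem]
    constructor
    · rintro ⟨i, rfl⟩
      exact ⟨i - t, by rw [sub_add_cancel]⟩
    · rintro ⟨i, rfl⟩
      exact ⟨i + t, rfl⟩
  card := h.card
  l1 := by
    intro i
    have := h.l1 (i + t)
    rwa [add_right_comm] at this
  l2 := by
    intro i
    have := h.l2 (i + t)
    rwa [add_right_comm] at this
  l3 := by
    intro i
    have := h.l3 (i + t)
    rwa [add_right_comm] at this

open Classical in
/-- labels -/
theorem Loc.labels {r : ι → ι → Prop} (hr : Loc r) {O : Finset ι} (hne : O.Nonempty)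
    (hsucc : ∀ s ∈ O, (O.filter (fun x => r s x)).card = 3)
    (hpred : ∀ s ∈ O, (O.filter (fun x => r x s)).card = 3) :
    ∃ a : Fin 7 → ι, Lab r O a := by
  obtain ⟨s, hs⟩ := hne
  obtain ⟨x, y, z, hxy, hxz, hyz, hxyz⟩ := card_eq_three.1 (hsucc s hs)
  obtain ⟨x', y', z', hxy', hxz', hyz', hxyz'⟩ := card_eq_three.1 (hpred s hs)
  have m1 : ∀ w ∈ ({x, y, z} : Finset ι), w ∈ O ∧ r s w := by
    intro w hw
    rw [← hxyz, mem_filter] at hw
    exact hw
  have m2 : ∀ w ∈ ({x', y', z'} : Finset ι), w ∈ O ∧ r w s := by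
    intro w hw
    rw [← hxyz', mem_filter] at hw
    exact hw
  obtain ⟨a1, a2, a3, p1, p2, p3, q12, q23, q13⟩ := hr.sort_three
    (P := fun w => w ∈ O ∧ r s w) (m1 x (by simp)) (m1 y (by simp)) (m1 z (by simp)) hxy hxz hyz
    (fun a b c ha hb hc h1 h2 => hr.out ha.2 hb.2 hc.2 h1 h2)
  obtain ⟨a4, a5, a6, p4, p5, p6, q45, q56, q46⟩ := hr.sort_three
    (P := fun w => w ∈ O ∧ r w s) (m2 x' (by simp)) (m2 y' (by simp)) (m2 z' (by simp)) hxy'
    hxz' hyz' (fun a b c ha hb hc h1 h2 => hr.inn ha.2 hb.2 hc.2 h1 h2)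
  -- distinctness
  have ne : ∀ {u v : ι}, r s u → r v s → u ≠ v := by
    rintro u v h1 h2 rfl
    exact hr.asymm h1 h2
  have n14 := ne p1.2 p4.2
  have n15 := ne p1.2 p5.2
  have n16 := ne p1.2 p6.2
  have n24 := ne p2.2 p4.2
  have n25 := ne p2.2 p5.2
  have n26 := ne p2.2 p6.2
  have n34 := ne p3.2 p4.2
  have n35 := ne p3.2 p5.2
  have n36 := ne p3.2 p6.2
  have d12 := hr.ne q12
  have d13 := hr.ne q13
  have d23 := hr.ne q23
  have d45 := hr.ne q45
  have d46 := hr.ne q46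
  have d56 := hr.ne q56
  have s1 := hr.ne p1.2
  have s2 := hr.ne p2.2
  have s3 := hr.ne p3.2
  have s4 := hr.ne p4.2
  have s5 := hr.ne p5.2
  have s6 := hr.ne p6.2
  -- successors of `a3`
  have e34 := hr.not_pred hpred p3.1 p1.1 p2.1 hs d12 s1.symm s2.symm q13 q23 p3.2 p4.1 n14.symm n24.symm
    s4 n34.symm
  have e35 := hr.not_pred hpred p3.1 p1.1 p2.1 hs d12 s1.symm s2.symm q13 q23 p3.2 p5.1 n15.symm n25.symm
    s5 n35.symm
  have e36 := hr.not_pred hpred p3.1 p1.1 p2.1 hs d12 s1.symm s2.symm q13 q23 p3.2 p6.1 n16.symm n26.symm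
    s6 n36.symm
  -- successors of `a4` are `a5, a6, s`
  have e14 := hr.not_succ hsucc p4.1 p5.1 p6.1 hs d56 s5 s6 q45 q46 p4.2 p1.1 n15 n16 s1.symm n14
  have e24 := hr.not_succ hsucc p4.1 p5.1 p6.1 hs d56 s5 s6 q45 q46 p4.2 p2.1 n25 n26 s2.symm n24
  -- successors of `a1` are `a2, a3, a4`
  have e51 := hr.not_succ hsucc p1.1 p2.1 p3.1 p4.1 d23 n24 n34 q12 q13 e14 p5.1 n25.symm n35.symm d45.symm
    n15.symm
  have e61 := hr.not_succ hsucc p1.1 p2.1 p3.1 p4.1 d23 n24 n34 q12 q13 e14 p6.1 n26.symm n36.symm d46.symm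
    n16.symm
  -- successors of `a5` are `a6, s, a1`
  have e25 := hr.not_succ hsucc p5.1 p6.1 hs p1.1 s6 n16.symm s1 q56 p5.2 e51 p2.1 n26 s2.symm
    d12.symm n25
  -- successors of `a2` are `a3, a4, a5`
  have e62 := hr.not_succ hsucc p2.1 p3.1 p4.1 p5.1 n34 n35 d45 q23 e24 e25 p6.1 n36.symm d46.symm
    d56.symm n26.symm
  -- all members
  have hO : ∀ w ∈ O, w = a1 ∨ w = a2 ∨ w = a3 ∨ w = a4 ∨ w = a5 ∨ w = a6 ∨ w = s := by
    have two : ∀ (A : Finset ι) (u v w : ι), A.card = 3 → u ∈ A → v ∈ A → w ∈ A → u ≠ v →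
        u ≠ w → v ≠ w → ∀ t ∈ A, t = u ∨ t = v ∨ t = w := by
      intro A u v w hA hu hv hw huv huw hvw t ht
      have h1 : ({u, v, w} : Finset ι) ⊆ A := by
        intro i hi
        simp only [mem_insert, mem_singleton] at hi
        rcases hi with rfl | rfl | rfl <;> assumption
      have h2 : ({u, v, w} : Finset ι).card = 3 := by
        rw [card_insert_of_notMem, card_insert_of_notMem, card_singleton]
        · simpa using hvw
        · simp [huv, huw]
      have h3 := eq_of_subset_of_card_le h1 (by omega)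
      rw [← h3] at ht
      simpa using ht
    intro w hw
    by_cases hws : w = s
    · tauto
    rcases hr.total hws with h2 | h2
    · have h3 := two (O.filter (fun x => r x s)) a4 a5 a6 (hpred s hs) (mem_filter.2 p4)
        (mem_filter.2 p5) (mem_filter.2 p6) d45 d46 d56 w (mem_filter.2 ⟨hw, h2⟩)
      tauto
    · have h3 := two (O.filter (fun x => r s x)) a1 a2 a3 (hsucc s hs) (mem_filter.2 p1)
        (mem_filter.2 p2) (mem_filter.2 p3) d12 d13 d23 w (mem_filter.2 ⟨hw, h2⟩)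
      tauto
  refine ⟨![a1, a2, a3, a4, a5, a6, s], ⟨fun w => ⟨fun hw => ?_, ?_⟩, ?_, fun i => ?_, fun i => ?_,
    fun i => ?_⟩⟩
  · rcases hO w hw with h | h | h | h | h | h | h
    · exact ⟨0, h⟩
    · exact ⟨1, h⟩
    · exact ⟨2, h⟩
    · exact ⟨3, h⟩
    · exact ⟨4, h⟩
    · exact ⟨5, h⟩
    · exact ⟨6, h⟩
  · rintro ⟨i, rfl⟩
    fin_cases i
    · exact p1.1
    · exact p2.1
    · exact p3.1
    · exact p4.1
    · exact p5.1
    · exact p6.1
    · exact hs
  rotate_left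
  · fin_cases i
    · exact q12
    · exact q23
    · exact e34
    · exact q45
    · exact q56
    · exact p6.2
    · exact p1.2
  · fin_cases i
    · exact q13
    · exact e24
    · exact e35
    · exact q46
    · exact p5.2
    · exact e61
    · exact p2.2
  · fin_cases i
    · exact e14
    · exact e25
    · exact e36
    · exact p4.2
    · exact e51
    · exact e62
    · exact p3.2
  have h1 : O = insert s (O.filter (fun x => r s x) ∪ O.filter (fun x => r x s)) := by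
    ext w
    rw [mem_insert, mem_union, mem_filter, mem_filter]
    constructor
    · intro hw
      by_cases hws : w = s
      · exact Or.inl hws
      · rcases hr.total hws with h2 | h2
        · exact Or.inr (Or.inr ⟨hw, h2⟩)
        · exact Or.inr (Or.inl ⟨hw, h2⟩)
    · rintro (rfl | h2 | h2)
      · exact hs
      · exact h2.1
      · exact h2.1
  rw [h1, card_insert_of_notMem, card_union_of_disjoint, hsucc s hs, hpred s hs]
  · rw [disjoint_left]
    intro w hw hw'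
    rw [mem_filter] at hw hw'
    exact hr.asymm hw.2 hw'.2
  · rw [mem_union, mem_filter, mem_filter]
    rintro (h2 | h2)
    · exact hr.irrefl h2.2
    · exact hr.irrefl h2.2

namespace CapSys

variable {C : CapSys ι}

theorem loc : Loc C.lt where
  total := fun h => C.lt_total h
  asymm := fun h => lt_asymm h
  out := fun h1 h2 h3 h4 h5 => lt_out h1 h2 h3 h4 h5
  inn := fun h1 h2 h3 h4 h5 => lt_in h1 h2 h3 h4 h5

/-- the members of the cell with the cap `H` are `O \ H` and `H \ O` -/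
theorem colour_lab {O : Finset ι} {a : Fin 7 → ι}
    (h : Lab C.lt O a) (u2 : C.Hull O (a 1)) (u3 : C.Hull O (a 2)) (u4 : C.Hull O (a 3)) :
    ∃ c : ι → Fin 3, ∀ H ∈ C.caps, 5 ≤ (O \ H).card + (H \ O).card →
      ∀ j, ∃ i, c i = j ∧ ((i ∈ O ∧ i ∉ H) ∨ (i ∉ O ∧ i ∈ H)) := by
  classical
  obtain ⟨a1, e1⟩ : ∃ x, x = a 0 := ⟨_, rfl⟩
  obtain ⟨a2, e2⟩ : ∃ x, x = a 1 := ⟨_, rfl⟩
  obtain ⟨a3, e3⟩ : ∃ x, x = a 2 := ⟨_, rfl⟩
  obtain ⟨a4, e4⟩ : ∃ x, x = a 3 := ⟨_, rfl⟩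
  obtain ⟨a5, e5⟩ : ∃ x, x = a 4 := ⟨_, rfl⟩
  obtain ⟨a6, e6⟩ : ∃ x, x = a 5 := ⟨_, rfl⟩
  obtain ⟨a7, e7⟩ : ∃ x, x = a 6 := ⟨_, rfl⟩
  have m1 : a1 ∈ O := by rw [e1]; exact h.mem_a 0
  have m2 : a2 ∈ O := by rw [e2]; exact h.mem_a 1
  have m3 : a3 ∈ O := by rw [e3]; exact h.mem_a 2
  have m4 : a4 ∈ O := by rw [e4]; exact h.mem_a 3
  have m5 : a5 ∈ O := by rw [e5]; exact h.mem_a 4
  have m6 : a6 ∈ O := by rw [e6]; exact h.mem_a 5
  have m7 : a7 ∈ O := by rw [e7]; exact h.mem_a 6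
  have l12 : C.lt a1 a2 := by rw [e1, e2]; exact h.l1 0
  have l23 : C.lt a2 a3 := by rw [e2, e3]; exact h.l1 1
  have l34 : C.lt a3 a4 := by rw [e3, e4]; exact h.l1 2
  have l45 : C.lt a4 a5 := by rw [e4, e5]; exact h.l1 3
  have l56 : C.lt a5 a6 := by rw [e5, e6]; exact h.l1 4
  have l67 : C.lt a6 a7 := by rw [e6, e7]; exact h.l1 5
  have l71 : C.lt a7 a1 := by rw [e7, e1]; exact h.l1 6
  have l13 : C.lt a1 a3 := by rw [e1, e3]; exact h.l2 0
  have l24 : C.lt a2 a4 := by rw [e2, e4]; exact h.l2 1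
  have l35 : C.lt a3 a5 := by rw [e3, e5]; exact h.l2 2
  have l46 : C.lt a4 a6 := by rw [e4, e6]; exact h.l2 3
  have l57 : C.lt a5 a7 := by rw [e5, e7]; exact h.l2 4
  have l61 : C.lt a6 a1 := by rw [e6, e1]; exact h.l2 5
  have l72 : C.lt a7 a2 := by rw [e7, e2]; exact h.l2 6
  have l14 : C.lt a1 a4 := by rw [e1, e4]; exact h.l3 0
  have l25 : C.lt a2 a5 := by rw [e2, e5]; exact h.l3 1
  have l36 : C.lt a3 a6 := by rw [e3, e6]; exact h.l3 2
  have l47 : C.lt a4 a7 := by rw [e4, e7]; exact h.l3 3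
  have l51 : C.lt a5 a1 := by rw [e5, e1]; exact h.l3 4
  have l62 : C.lt a6 a2 := by rw [e6, e2]; exact h.l3 5
  have l73 : C.lt a7 a3 := by rw [e7, e3]; exact h.l3 6
  have hcard := h.card
  rw [← e2] at u2
  rw [← e3] at u3
  rw [← e4] at u4
  clear e1 e2 e3 e4 e5 e6 e7 h
  set K : ι → Prop := fun p => p ∉ O ∧ ∃ H ∈ C.caps, a3 ∈ H ∧ a5 ∈ H ∧ a1 ∉ H ∧ p ∈ H ∧
    (∃ y ∈ H \ O, y ≠ p) ∧ ∀ y ∈ H \ O, y ≠ p → C.lt y p with hK
  set c : ι → Fin 3 := fun i => if i = a1 ∨ i = a4 then 0 else if i = a2 ∨ i = a5 then 1 else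
    if i ∈ O then 2 else if K i then 1 else 0 with hc
  have c1 : c a1 = 0 := by simp [hc]
  have c4 : c a4 = 0 := by simp [hc]
  have c2 : c a2 = 1 := by
    have e1 := (lt_ne l12).symm
    have e2 := lt_ne l24
    simp [hc, e1, e2]
  have c5 : c a5 = 1 := by
    have e1 := lt_ne l51
    have e2 := (lt_ne l45).symm
    simp [hc, e1, e2]
  have c3 : c a3 = 2 := by
    have e1 := (lt_ne l13).symm
    have e2 := lt_ne l34
    have e3 := (lt_ne l23).symm
    have e4 := lt_ne l35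
    simp [hc, e1, e2, e3, e4, m3]
  have c6 : c a6 = 2 := by
    have e1 := lt_ne l61
    have e2 := (lt_ne l46).symm
    have e3 := lt_ne l62
    have e4 := (lt_ne l56).symm
    simp [hc, e1, e2, e3, e4, m6]
  have c7 : c a7 = 2 := by
    have e1 := lt_ne l71
    have e2 := (lt_ne l47).symm
    have e3 := lt_ne l72
    have e4 := (lt_ne l57).symm
    simp [hc, e1, e2, e3, e4, m7]
  have cU : ∀ i, i ∉ O → (K i → c i = 1) ∧ (¬ K i → c i = 0) := by
    intro i hi
    have e1 : i ≠ a1 := fun h => hi (h ▸ m1)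
    have e2 : i ≠ a4 := fun h => hi (h ▸ m4)
    have e3 : i ≠ a2 := fun h => hi (h ▸ m2)
    have e4 : i ≠ a5 := fun h => hi (h ▸ m5)
    constructor
    · intro hKi
      simp [hc, e1, e2, e3, e4, hi, hKi]
    · intro hKi
      simp [hc, e1, e2, e3, e4, hi, hKi]
  refine ⟨c, ?_⟩
  intro H hH hdep j
  -- at least two letters outside `O` if four letters of `O` are missing
  have two : ∀ p q r t : ι, p ∈ O → q ∈ O → r ∈ O → t ∈ O → p ∈ H → q ∈ H → r ∈ H → t ∈ H →
      p ≠ q → p ≠ r → p ≠ t → q ≠ r → q ≠ t → r ≠ t → 2 ≤ (H \ O).card := by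
    intro p q r t h1 h2 h3 h4 h5 h6 h7 h8 h9 h10 h11 h12 h13 h14
    have k1 : ({p, q, r, t} : Finset ι) ⊆ O ∩ H := by
      intro i hi
      rw [mem_inter]
      simp only [mem_insert, mem_singleton] at hi
      rcases hi with rfl | rfl | rfl | rfl
      · exact ⟨h1, h5⟩
      · exact ⟨h2, h6⟩
      · exact ⟨h3, h7⟩
      · exact ⟨h4, h8⟩
    have k2 := card_le_card k1
    have k3 : ({p, q, r, t} : Finset ι).card = 4 := by
      rw [card_insert_of_notMem, card_insert_of_notMem, card_insert_of_notMem, card_singleton]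
      · simpa using h14
      · simp [h12, h13]
      · simp [h9, h10, h11]
    have k4 := card_sdiff_add_card_inter O H
    omega
  have hj : j = 0 ∨ j = 1 ∨ j = 2 := by
    fin_cases j <;> simp
  rcases hj with rfl | rfl | rfl
  · -- the colour of `a1, a4`
    by_cases h1 : a1 ∈ H
    swap
    · exact ⟨a1, c1, Or.inl ⟨m1, h1⟩⟩
    by_cases h4 : a4 ∈ H
    swap
    · exact ⟨a4, c4, Or.inl ⟨m4, h4⟩⟩
    have h2 : a2 ∈ H := u2.between hH h1 h4 m1 m4 l12 l24 l14
    have h3 : a3 ∈ H := u3.between hH h1 h4 m1 m4 l13 l34 l14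
    have h5 : a5 ∉ H := fun h5 => lt_asymm l51 (CapSys.trans hH h1 h4 h5 l14 l45)
    have hU := two a1 a2 a3 a4 m1 m2 m3 m4 h1 h2 h3 h4 (lt_ne l12) (lt_ne l13) (lt_ne l14)
      (lt_ne l23) (lt_ne l24) (lt_ne l34)
    obtain ⟨g', hg', hmin⟩ := exists_first hH (A := H \ O) sdiff_subset (card_pos.1 (by omega))
    obtain ⟨g, hg, hgg⟩ := exists_mem_ne (s := H \ O) (by omega) g'
    have hg'2 := mem_sdiff.1 hg'
    have hg2 := mem_sdiff.1 hg
    refine ⟨g', (cU g' hg'2.2).2 ?_, Or.inr ⟨hg'2.2, hg'2.1⟩⟩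
    rintro ⟨-, G, hG, k3, k5, k1, kg, ⟨y, hy, hyg⟩, kmax⟩
    have l1 := hmin g hg hgg
    have l2 := kmax y hy hyg
    have hy2 := mem_sdiff.1 hy
    refine capG hH hG h1 h3 hg2.1 hg'2.1 k3 k5 kg hy2.1 k1 ?_ h5 ?_ l13 l35 l51 l1 l2
    · intro hgG
      exact lt_asymm l1 (kmax g (mem_sdiff.2 ⟨hgG, hg2.2⟩) hgg)
    · intro hyH
      exact lt_asymm l2 (hmin y (mem_sdiff.2 ⟨hyH, hy2.2⟩) hyg)
  · by_cases h2 : a2 ∈ H
    swap
    · exact ⟨a2, c2, Or.inl ⟨m2, h2⟩⟩
    by_cases h5 : a5 ∈ H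
    swap
    · exact ⟨a5, c5, Or.inl ⟨m5, h5⟩⟩
    have h3 : a3 ∈ H := u3.between hH h2 h5 m2 m5 l23 l35 l25
    have h4 : a4 ∈ H := u4.between hH h2 h5 m2 m5 l24 l45 l25
    have h1 : a1 ∉ H := fun h1 => lt_asymm l12 (CapSys.trans hH h2 h5 h1 l25 l51)
    have hU := two a2 a3 a4 a5 m2 m3 m4 m5 h2 h3 h4 h5 (lt_ne l23) (lt_ne l24) (lt_ne l25)
      (lt_ne l34) (lt_ne l35) (lt_ne l45)
    obtain ⟨p, hp, hmax⟩ := exists_last hH (A := H \ O) sdiff_subset (card_pos.1 (by omega))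
    obtain ⟨g, hg, hgg⟩ := exists_mem_ne (s := H \ O) (by omega) p
    have hp2 := mem_sdiff.1 hp
    refine ⟨p, (cU p hp2.2).1 ⟨hp2.2, H, hH, h3, h5, h1, hp2.1, ⟨g, hg, hgg⟩, hmax⟩,
      Or.inr ⟨hp2.2, hp2.1⟩⟩
  · by_cases h3 : a3 ∈ H
    swap
    · exact ⟨a3, c3, Or.inl ⟨m3, h3⟩⟩
    by_cases h6 : a6 ∈ H
    swap
    · exact ⟨a6, c6, Or.inl ⟨m6, h6⟩⟩
    refine ⟨a7, c7, Or.inl ⟨m7, fun h7 => ?_⟩⟩
    exact lt_asymm l73 (CapSys.trans hH h3 h6 h7 l36 l67)

theorem seven_bool : ∀ b : Fin 7 → Bool, (∀ i j k : Fin 7, i < j → j < k →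
    b i = true ∨ b j = true ∨ b k = true) →
    ∃ i : Fin 7, b i = true ∧ b (i + 1) = true ∧ b (i + 2) = true := by
  decide +kernel

/-- at most two of the seven letters are not hull letters -/
theorem colour_of_hull {O : Finset ι} {a : Fin 7 → ι} (h : Lab C.lt O a)
    (hh : ∀ p ∈ O, ∀ q ∈ O, ∀ r ∈ O, p ≠ q → p ≠ r → q ≠ r → C.Hull O p ∨ C.Hull O q ∨ C.Hull O r) :
    ∃ c : ι → Fin 3, ∀ H ∈ C.caps, 5 ≤ (O \ H).card + (H \ O).card →
      ∀ j, ∃ i, c i = j ∧ ((i ∈ O ∧ i ∉ H) ∨ (i ∉ O ∧ i ∈ H)) := by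
  classical
  obtain ⟨i, h1, h2, h3⟩ := seven_bool (fun i => decide (C.Hull O (a i))) (by
    intro i j k hij hjk
    simpa only [decide_eq_true_eq] using hh _ (h.mem_a i) _ (h.mem_a j) _ (h.mem_a k)
      (fun e => hij.ne (h.inj e)) (fun e => (hij.trans hjk).ne (h.inj e))
      (fun e => hjk.ne (h.inj e)))
  have g1 : C.Hull O (a i) := by simpa using h1
  have g2 : C.Hull O (a (i + 1)) := by simpa using h2
  have g3 : C.Hull O (a (i + 2)) := by simpa using h3
  clear h1 h2 h3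
  have e1 : ∀ i : Fin 7, (1 : Fin 7) + (i - 1) = i := by decide
  have e2 : ∀ i : Fin 7, (2 : Fin 7) + (i - 1) = i + 1 := by decide
  have e3 : ∀ i : Fin 7, (3 : Fin 7) + (i - 1) = i + 2 := by decide
  refine colour_lab (h.rot (i - 1)) ?_ ?_ ?_
  · simpa only [e1] using g1
  · simpa only [e2] using g2
  · simpa only [e3] using g3

end CapSys

end PHP
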