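import Mathlib
import Pool.Agent.PHP.HepDefs
import Pool.Agent.PHP.HepLoc

/-!
# Seven lines with at least three of them in every cell are in circular order (problem MP_1180db_co, k = 3)
-/

namespace PHP

open Finset

variable {ι : Type}

namespace World

variable {W : World ι}

theorem vt_of_eq {s x y : ι} (hx : x ≠ s) (hy : y ≠ s) (hxy : x ≠ y) (h : W.ty s x = W.ty s y) :
    W.vt s x y = !(W.vt s y x) := by
  have h1 := W.pos_ne hx hy hxy
  rw [W.vt_eq hx hy hxy, W.vt_eq hy hx hxy.symm, h]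
  unfold sg
  by_cases h2 : W.pos s x < W.pos s y
  · rw [if_pos h2, if_neg (by omega)]
    simp
  · rw [if_neg h2, if_pos (by omega)]

theorem vt_of_ne {s x y : ι} (hx : x ≠ s) (hy : y ≠ s) (hxy : x ≠ y) (h : W.ty s x ≠ W.ty s y) :
    W.vt s x y = W.vt s y x := by
  have h1 := W.pos_ne hx hy hxy
  rw [W.vt_eq hx hy hxy, W.vt_eq hy hx hxy.symm]
  have h3 : W.ty s x = !(W.ty s y) := by
    revert h
    cases W.ty s x <;> cases W.ty s y <;> simp
  rw [h3]
  unfold sg
  by_cases h2 : W.pos s x < W.pos s y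
  · rw [if_pos h2, if_neg (by omega)]
    simp
  · rw [if_neg h2, if_pos (by omega)]

theorem vt_tr {s a b c : ι} (ha : a ≠ s) (hb : b ≠ s) (hc : c ≠ s) (hab : a ≠ b) (hac : a ≠ c)
    (hbc : b ≠ c) (h1 : W.ty s a = W.ty s b) (h2 : W.ty s b = W.ty s c) :
    ¬ (W.vt s a b = W.vt s b c ∧ W.vt s b c = W.vt s c a) := by
  have k1 := W.pos_ne ha hb hab
  have k2 := W.pos_ne hb hc hbc
  have k3 := W.pos_ne ha hc hac
  rw [W.vt_eq ha hb hab, W.vt_eq hb hc hbc, W.vt_eq hc ha hac.symm, h1, h2]
  unfold sg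
  by_cases g1 : W.pos s a < W.pos s b <;> by_cases g2 : W.pos s b < W.pos s c <;>
    by_cases g3 : W.pos s c < W.pos s a
  · omega
  · simp [g1, g2, g3]
  · simp [g1, g2, g3]
  · simp [g1, g2, g3]
  · simp [g1, g2, g3]
  · simp [g1, g2, g3]
  · simp [g1, g2, g3]
  · omega

theorem vt_rule {a s b c : ι} (hs : s ≠ a) (hb : b ≠ a) (hc : c ≠ a) (hsb : s ≠ b) (hsc : s ≠ c)
    (hbc : b ≠ c) (_h1 : W.ty a s = W.ty a c) (h2 : W.ty a b ≠ W.ty a c)
    (h : W.vt a s c = W.vt a s b) : W.vt a c b = W.vt a s b := by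
  have k1 := W.pos_ne hs hb hsb
  have k2 := W.pos_ne hs hc hsc
  have k3 := W.pos_ne hb hc hbc
  have h3 : W.ty a b = !(W.ty a c) := by
    revert h2
    cases W.ty a b <;> cases W.ty a c <;> simp
  rw [W.vt_eq hs hc hsc, W.vt_eq hs hb hsb, h3] at h
  rw [W.vt_eq hc hb hbc.symm, W.vt_eq hs hb hsb, h3]
  unfold sg at h ⊢
  by_cases g1 : W.pos a s < W.pos a c <;> by_cases g2 : W.pos a s < W.pos a b <;>
    by_cases g3 : W.pos a c < W.pos a b
  · simp [g2, g3]
  · simp [g1, g2] at h
  · omega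
  · simp [g2, g3]
  · simp [g2, g3]
  · omega
  · simp [g1, g2] at h
  · simp [g2, g3]

theorem no_cycle {s a b c : ι} (sa : s ≠ a) (sb : s ≠ b) (sc : s ≠ c) (ab : a ≠ b) (ac : a ≠ c)
    (bc : b ≠ c) (h1 : W.ty s a = W.ty s b) (h2 : W.ty s b = W.ty s c)
    (a1 : W.ty a s = W.ty a c) (a2 : W.ty a b ≠ W.ty a c)
    (b1 : W.ty b s = W.ty b a) (b2 : W.ty b c ≠ W.ty b a)
    (c1 : W.ty c s = W.ty c b) (c2 : W.ty c a ≠ W.ty c b) : False := by
  have t := vt_tr sa.symm sb.symm sc.symm ab ac bc h1 h2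
  -- the line `s`
  have s1 := vt_of_eq sa.symm sc.symm ac (h1.trans h2)
  have s2 := vt_of_eq sb.symm sa.symm ab.symm h1.symm
  have s3 := vt_of_eq sc.symm sb.symm bc.symm h2.symm
  -- rules
  have ra := vt_rule sa ab.symm ac.symm sb sc bc a1 a2
  have rb := vt_rule sb bc.symm ab sc sa ac.symm b1 b2
  have rc := vt_rule sc ac bc sa sb ab c1 c2
  -- equalities
  have ea := vt_of_ne ab.symm ac.symm bc a2
  have eb := vt_of_ne bc.symm ab ac.symm b2
  have ec := vt_of_ne ac bc ab c2
  have v1 := W.vt_comm a b c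
  have v2 := W.vt_comm b c a
  have v3 := W.vt_comm a c b
  have v4 := W.vt_comm a s b
  have v5 := W.vt_comm a s c
  have v6 := W.vt_comm b s a
  have v7 := W.vt_comm b s c
  have v8 := W.vt_comm c s a
  have v9 := W.vt_comm c s b
  rw [v4, v5] at ra
  rw [v6, v7] at rb
  rw [v8, v9] at rc
  rw [s1] at ra
  rw [s2] at rb
  rw [s3] at rc
  have e1 : W.vt a c b = W.vt a b c := ea.symm
  have e2 : W.vt b a c = W.vt a b c := v1.symm
  have e3 : W.vt c b a = W.vt a b c := by rw [← v2, eb, e2]
  rw [e1] at ra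
  rw [e2] at rb
  rw [e3] at rc
  revert t ra rb rc
  cases W.vt s a b <;> cases W.vt s b c <;> cases W.vt s c a <;> cases W.vt a b c <;> simp

/-- parity of the types -/
theorem ty_parity {x y z : ι} (xy : x ≠ y) (xz : x ≠ z) (yz : y ≠ z) :
    (xor (xor (W.ty x y) (W.ty x z)) (xor (xor (W.ty y x) (W.ty y z)) (xor (W.ty z x) (W.ty z y))))
      = true := by
  have key : ∀ s u v : ι, u ≠ s → v ≠ s → u ≠ v →
      xor (W.ty s u) (W.ty s v) = !(xor (W.vt s u v) (W.vt s v u)) := by
    intro s u v hu hv huv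
    by_cases h : W.ty s u = W.ty s v
    · rw [vt_of_eq hu hv huv h, h]
      simp
    · rw [vt_of_ne hu hv huv h]
      revert h
      cases W.ty s u <;> cases W.ty s v <;> simp
  rw [key x y z xy.symm xz.symm yz, key y x z xy yz.symm xz, key z x y xz yz xy,
    W.vt_comm y x z, W.vt_comm z x y, W.vt_comm z y x]
  cases W.vt x y z <;> cases W.vt x z y <;> cases W.vt y z x <;> rfl

variable [DecidableEq ι]

/-- the shift of the types -/
def eps (W : World ι) (o s : ι) : Bool := if s = o then false else !(xor (W.ty s o) (W.ty o s))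

/-- the tournament -/
def tour (W : World ι) (o s x : ι) : Prop := s ≠ x ∧ xor (W.ty s x) (W.eps o s) = true

theorem tour_xor (o : ι) {x y : ι} (h : x ≠ y) :
    xor (xor (W.ty x y) (W.eps o x)) (xor (W.ty y x) (W.eps o y)) = true := by
  unfold eps
  by_cases hx : x = o
  · subst hx
    rw [if_pos rfl, if_neg h.symm]
    cases W.ty x y <;> cases W.ty y x <;> rfl
  by_cases hy : y = o
  · subst hy
    rw [if_pos rfl, if_neg hx]
    cases W.ty x y <;> cases W.ty y x <;> rfl
  rw [if_neg hx, if_neg hy]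
  have h1 := ty_parity (W := W) h hx hy
  revert h1
  cases W.ty x y <;> cases W.ty y x <;> cases W.ty x o <;> cases W.ty y o <;> cases W.ty o x <;>
    cases W.ty o y <;> decide

theorem tour_iff (o : ι) {x y : ι} (h : x ≠ y) : W.tour o x y ↔ ¬ W.tour o y x := by
  have h1 := tour_xor (W := W) o h
  unfold tour
  revert h1
  cases xor (W.ty x y) (W.eps o x) <;> cases xor (W.ty y x) (W.eps o y) <;> simp [h, h.symm]

/-- equal types -/
theorem tour_eq {o s a b : ι} (ha : W.tour o s a) (hb : W.tour o s b) : W.ty s a = W.ty s b := by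
  have h1 := ha.2
  have h2 := hb.2
  revert h1 h2
  cases W.ty s a <;> cases W.ty s b <;> cases W.eps o s <;> decide

theorem tour_ne {o s a b : ι} (ha : W.tour o s a) (hb : ¬ W.tour o s b) (hsb : s ≠ b) :
    W.ty s a ≠ W.ty s b := by
  intro h
  apply hb
  refine ⟨hsb, ?_⟩
  rw [← h]
  exact ha.2

theorem tour_eq' {o s a b : ι} (ha : ¬ W.tour o s a) (hb : ¬ W.tour o s b) (hsa : s ≠ a)
    (hsb : s ≠ b) : W.ty s a = W.ty s b := by
  have h1 : ¬ xor (W.ty s a) (W.eps o s) = true := fun h => ha ⟨hsa, h⟩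
  have h2 : ¬ xor (W.ty s b) (W.eps o s) = true := fun h => hb ⟨hsb, h⟩
  revert h1 h2
  cases W.ty s a <;> cases W.ty s b <;> cases W.eps o s <;> decide

theorem tour_loc (W : World ι) (o : ι) : Loc (W.tour o) where
  total := by
    intro x y h
    by_cases h1 : W.tour o x y
    · exact Or.inl h1
    · exact Or.inr ((tour_iff o h.symm).2 h1)
  asymm := fun h => (tour_iff o h.1).1 h
  out := by
    intro s a b c sa sb sc ab bc
    have nab := ab.1
    have nbc := bc.1
    have nac : a ≠ c := by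
      rintro rfl
      exact (tour_iff o nab).1 ab bc
    by_contra hac
    have ca := (tour_iff o nac.symm).2 hac
    have h_sa := (tour_iff o sa.1).1 sa
    have h_sb := (tour_iff o sb.1).1 sb
    have h_sc := (tour_iff o sc.1).1 sc
    have h_ba := (tour_iff o nab).1 ab
    have h_cb := (tour_iff o nbc).1 bc
    exact no_cycle sa.1 sb.1 sc.1 nab nac nbc (tour_eq sa sb) (tour_eq sb sc)
      (tour_eq' h_sa hac sa.1.symm nac) (tour_ne ab hac nac)
      (tour_eq' h_sb h_ba sb.1.symm nab.symm) (tour_ne bc h_ba nab.symm)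
      (tour_eq' h_sc h_cb sc.1.symm nbc.symm) (tour_ne ca h_cb nbc.symm)
  inn := by
    intro s a b c as bs cs ab bc
    have nab := ab.1
    have nbc := bc.1
    have nac : a ≠ c := by
      rintro rfl
      exact (tour_iff o nab).1 ab bc
    by_contra hac
    have ca := (tour_iff o nac.symm).2 hac
    have h_sa := (tour_iff o as.1).1 as
    have h_sb := (tour_iff o bs.1).1 bs
    have h_sc := (tour_iff o cs.1).1 cs
    have h_ba := (tour_iff o nab).1 ab
    have h_cb := (tour_iff o nbc).1 bc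
    have sa := as.1.symm
    have sb := bs.1.symm
    have sc := cs.1.symm
    exact no_cycle sa sc sb nac nab nbc.symm (tour_eq' h_sa h_sc sa sc) (tour_eq' h_sc h_sb sc sb)
      (tour_eq as ab) (tour_ne ab hac nac).symm
      (tour_eq cs ca) (tour_ne ca h_cb nbc.symm).symm
      (tour_eq bs bc) (tour_ne bc h_ba nab.symm).symm

/-- three of the six other lines of each type -/
theorem card_types {R : Finset ι} (hR : R.card = 7)
    (hd : ∀ X ∈ W.T, 3 ≤ (R.filter (fun i => X i = true)).card) {s : ι} (hs : s ∈ R) (b : Bool) :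
    ((R.erase s).filter (fun x => W.ty s x = b)).card = 3 := by
  have hc6 : (R.erase s).card = 6 := by rw [card_erase_of_mem hs, hR]
  have hne : (R.erase s).Nonempty := card_pos.1 (by omega)
  -- at least three of the type `β`
  have key : ∀ (y : ι) (β : Bool), y ∈ R.erase s → (∀ k ∈ R.erase s, k ≠ y → W.vt s y k =
      xor (W.ty s k) β) → 3 ≤ ((R.erase s).filter (fun x => W.ty s x = !β)).card := by
    intro y β hy h
    rw [mem_erase] at hy
    have h1 := hd (fun k => if k = s then false else if k = y then false else W.vt s y k)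
      (W.vertex hy.1.symm _ (by
        intro k h2 h3
        simp [h2, h3]))
    refine h1.trans (card_le_card fun k hk => ?_)
    rw [mem_filter] at hk
    obtain ⟨hk1, hk2⟩ := hk
    have hks : k ≠ s := by
      rintro rfl
      simp at hk2
    have hky : k ≠ y := by
      rintro rfl
      simp at hk2
    simp only [hks, hky, if_false] at hk2
    rw [mem_filter]
    have hk3 : k ∈ R.erase s := mem_erase.2 ⟨hks, hk1⟩
    refine ⟨hk3, ?_⟩
    have h4 := h k hk3 hky
    rw [hk2] at h4
    revert h4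
    cases W.ty s k <;> cases β <;> simp
  obtain ⟨y, hy, hmin⟩ := exists_min_image (R.erase s) (fun x => W.pos s x) hne
  obtain ⟨y', hy', hmax⟩ := exists_max_image (R.erase s) (fun x => W.pos s x) hne
  have k1 := key y false hy (by
    intro k hk hky
    rw [mem_erase] at hk
    have h1 := hmin k (mem_erase.2 hk)
    rw [mem_erase] at hy
    have h2 := W.pos_ne (s := s) hk.1 hy.1 hky
    rw [W.vt_eq hy.1 hk.1 hky.symm]
    unfold sg
    rw [if_pos (by omega)]
    simp)
  have k2 := key y' true hy' (by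
    intro k hk hky
    rw [mem_erase] at hk
    have h1 := hmax k (mem_erase.2 hk)
    rw [mem_erase] at hy'
    have h2 := W.pos_ne (s := s) hk.1 hy'.1 hky
    rw [W.vt_eq hy'.1 hk.1 hky.symm]
    unfold sg
    rw [if_neg (by omega)]
    simp)
  have h3 : ((R.erase s).filter (fun x => W.ty s x = true)).card +
      ((R.erase s).filter (fun x => W.ty s x = false)).card = 6 := by
    rw [← hc6, ← card_union_of_disjoint]
    · congr 1
      ext x
      rw [mem_union, mem_filter, mem_filter]
      cases W.ty s x <;> simp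
    · rw [disjoint_left]
      intro x h1 h2
      rw [mem_filter] at h1 h2
      rw [h1.2] at h2
      exact absurd h2.2 (by simp)
  simp only [Bool.not_false, Bool.not_true] at k1 k2
  cases b <;> omega

theorem exists_seven {R : Finset ι} (hR : R.card = 7)
    (hd : ∀ X ∈ W.T, 3 ≤ (R.filter (fun i => X i = true)).card) :
    ∃ a : Fin 7 → ι, W.Seven R a := by
  classical
  have hne : R.Nonempty := card_pos.1 (by omega)
  obtain ⟨o, ho⟩ := hne
  have hloc := W.tour_loc o
  have hsucc : ∀ s ∈ R, (R.filter (fun x => W.tour o s x)).card = 3 := by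
    intro s hs
    rw [← card_types hR hd hs (!(W.eps o s))]
    congr 1
    ext x
    rw [mem_filter, mem_filter, mem_erase]
    unfold tour
    constructor
    · rintro ⟨h1, h2, h3⟩
      refine ⟨⟨h2.symm, h1⟩, ?_⟩
      revert h3
      cases W.ty s x <;> cases W.eps o s <;> simp
    · rintro ⟨⟨h1, h2⟩, h3⟩
      refine ⟨h2, h1.symm, ?_⟩
      rw [h3]
      cases W.eps o s <;> rfl
  have hpred : ∀ s ∈ R, (R.filter (fun x => W.tour o x s)).card = 3 := by
    intro s hs
    rw [← card_types hR hd hs (W.eps o s)]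
    congr 1
    ext x
    rw [mem_filter, mem_filter, mem_erase]
    constructor
    · rintro ⟨h1, h2⟩
      have h3 := (tour_iff o h2.1).1 h2
      refine ⟨⟨h2.1, h1⟩, ?_⟩
      have h4 : ¬ xor (W.ty s x) (W.eps o s) = true := fun h => h3 ⟨h2.1.symm, h⟩
      revert h4
      cases W.ty s x <;> cases W.eps o s <;> simp
    · rintro ⟨⟨h1, h2⟩, h3⟩
      refine ⟨h2, (tour_iff o h1).2 fun h4 => ?_⟩
      have h5 := h4.2
      rw [h3] at h5
      revert h5
      cases W.eps o s <;> simp
  obtain ⟨a, ha⟩ := hloc.labels ⟨o, ho⟩ hsucc hpred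
  have hinj := ha.inj
  have e4 : ∀ i : Fin 7, i + 4 + 3 = i := by decide
  have e5 : ∀ i : Fin 7, i + 5 + 2 = i := by decide
  have e6 : ∀ i : Fin 7, i + 6 + 1 = i := by decide
  have hnot : ∀ i j : Fin 7, W.tour o (a j) (a i) → W.tour o (a i) (a (i + 1)) →
      W.ty (a i) (a j) = !(W.ty (a i) (a (i + 1))) := by
    intro i j h1 h2
    have h3 := (tour_iff o h1.1).1 h1
    have h4 := tour_ne h2 h3 h1.1.symm
    revert h4
    cases W.ty (a i) (a j) <;> cases W.ty (a i) (a (i + 1)) <;> simp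
  refine ⟨a, hinj, ha.mem, fun i => tour_eq (ha.l2 i) (ha.l1 i), fun i => tour_eq (ha.l3 i) (ha.l1 i),
    fun i => hnot i _ ?_ (ha.l1 i), fun i => hnot i _ ?_ (ha.l1 i), fun i => hnot i _ ?_ (ha.l1 i)⟩
  · have := ha.l3 (i + 4)
    rwa [e4] at this
  · have := ha.l2 (i + 5)
    rwa [e5] at this
  · have := ha.l1 (i + 6)
    rwa [e6] at this

end World

end PHP
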