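import Mathlib
import Pool.Agent.PHP.HepSeven
import Pool.Agent.PHP.HepCert
import Pool.Agent.PHP.HepLoc
import Pool.Agent.PHP.ExGlue
import Pool.Agent.PHP.ExSys
import Pool.Agent.PHP.CapBridge

/-!
# Seven lines with all cells of size at least three give three colours (problem MP_1180db_co, k = 3)

`Sys.Circ.three_of_seven`: let `R` be seven lines such that all cells of the system have at least three members in `R`;
if no covering triple has two further lines through its triangle and if there is no (D) pair, then three colours split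
all cells with at least five members.
-/

set_option linter.unusedVariables false
set_option linter.unusedSectionVars false

namespace PHP

open Finset

variable {ι : Type} [Fintype ι] [DecidableEq ι]

/-- the cells with at least five members inside `R` without a given line of `R` -/
theorem World.Seven.exists_heavy {W : World ι} {R : Finset ι} {a : Fin 7 → ι}
    (h : W.Seven R a) (hd : ∀ X ∈ W.T, 3 ≤ (R.filter (fun i => X i = true)).card) (hQ : W.HQ)
    (hND : W.HND) : ∀ m ∈ R, ∃ X ∈ W.T, X m = false ∧ (∀ i, X i = true → i ∈ R) ∧ 5 ≤ dep X := by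
  intro m hm
  obtain ⟨j, rfl⟩ := (h.mem m).1 hm
  have c1 := h.cov hd hQ (j + 1)
  have c2 := h.cov hd hQ (j + 2)
  have e13 : ∀ j : Fin 7, j + 1 + 2 = j + 3 := by decide
  have e15 : ∀ j : Fin 7, j + 1 + 4 = j + 5 := by decide
  have e24 : ∀ j : Fin 7, j + 2 + 2 = j + 4 := by decide
  have e26 : ∀ j : Fin 7, j + 2 + 4 = j + 6 := by decide
  rw [e13, e15] at c1
  rw [e24, e26] at c2
  have ne : ∀ {u v : Fin 7}, u ≠ v → a (j + u) ≠ a (j + v) :=
    fun huv e => huv (add_left_cancel (h.inj e))
  have ne0 : ∀ {v : Fin 7}, v ≠ 0 → a j ≠ a (j + v) := by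
    intro v hv e
    have h1 := h.inj e
    have h2 : j + 0 = j + v := by rw [add_zero]; exact h1
    exact hv (add_left_cancel h2).symm
  obtain ⟨X, hX, h5, hsub⟩ := hND _ _ _ _ _ _ c1 c2 (ne (by decide))
    (ne (by decide)) (ne (by decide)) (ne (by decide))
    (ne (by decide)) (ne (by decide)) (ne (by decide))
    (ne (by decide)) (ne (by decide))
  refine ⟨X, hX, ?_, fun i hi => ?_, h5⟩
  · by_contra hcon
    have h1 : X (a j) = true := by
      cases hx : X (a j)
      · exact absurd hx hcon
      · rfl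
    rcases hsub _ h1 with e | e | e | e | e | e
    · exact ne0 (by decide) e
    · exact ne0 (by decide) e
    · exact ne0 (by decide) e
    · exact ne0 (by decide) e
    · exact ne0 (by decide) e
    · exact ne0 (by decide) e
  · rw [h.mem]
    rcases hsub _ hi with e | e | e | e | e | e
    · exact ⟨_, e⟩
    · exact ⟨_, e⟩
    · exact ⟨_, e⟩
    · exact ⟨_, e⟩
    · exact ⟨_, e⟩
    · exact ⟨_, e⟩

/-- the cell with the members `R` -/
theorem World.Seven.center {W : World ι} {R : Finset ι} {a : Fin 7 → ι}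
    (h : W.Seven R a) (hd : ∀ X ∈ W.T, 3 ≤ (R.filter (fun i => X i = true)).card) (hQ : W.HQ)
    (hND : W.HND) : (fun i => decide (i ∈ R)) ∈ W.T := by
  obtain ⟨i, hi⟩ := h.exists_corner hd hQ
  refine W.vertex hi.2.2.1 _ fun k hk1 hk2 => ?_
  by_cases hk : k ∈ R
  · rw [hi.2.2.2 k hk hk1 hk2]
    simpa using hk
  · rw [h.corner_out hd hQ (h.exists_heavy hd hQ hND) hi hk]
    simpa using hk

/-- the tournament of directions on seven letters with all cells of size at least three -/
theorem CapSys.lab_of_deep {C : CapSys ι} {R : Finset ι} (hR : R.card = 7)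
    (hdep : ∀ P ∈ C.caps, 3 ≤ (R \ P).card) : ∃ a : Fin 7 → ι, Lab C.lt R a := by
  classical
  have hne : R.Nonempty := card_pos.1 (by omega)
  have key : ∀ s ∈ R, ∀ A : Finset ι, A ⊆ R → s ∉ A → ∀ P ∈ C.caps, s ∈ P → A ⊆ P →
      A.card ≤ 3 := by
    intro s hs A hA hsA P hP hsP hAP
    have h1 := hdep P hP
    have h2 : insert s A ⊆ R ∩ P := by
      intro x hx
      rw [mem_insert] at hx
      rcases hx with rfl | hx
      · exact mem_inter.2 ⟨hs, hsP⟩
      · exact mem_inter.2 ⟨hA hx, hAP hx⟩
    have h3 := card_le_card h2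
    rw [card_insert_of_notMem hsA] at h3
    have h4 := card_sdiff_add_card_inter R P
    omega
  have hA : ∀ s ∈ R, (R.filter (fun x => C.lt s x)).card ≤ 3 := by
    intro s hs
    obtain ⟨P, hP, hPc⟩ := C.half (C.ang s) (C.lt_ang s)
    refine key s hs _ (filter_subset _ _) (by simp [CapSys.lt_irrefl]) P hP ?_ ?_
    · rw [hPc]
      have := C.lt_ang s
      unfold inHalf
      omega
    · intro x hx
      rw [mem_filter] at hx
      rw [hPc]
      have h1 := hx.2
      unfold CapSys.lt at h1
      unfold inHalf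
      omega
  have hB : ∀ s ∈ R, (R.filter (fun x => C.lt x s)).card ≤ 3 := by
    intro s hs
    have hang := C.lt_ang s
    obtain ⟨P, hP, hPc⟩ := C.half (if C.ang s + C.n + 1 < 2 * C.n then C.ang s + C.n + 1 else
        C.ang s + 1 - C.n) (by split_ifs <;> omega)
    refine key s hs _ (filter_subset _ _) (by simp [CapSys.lt_irrefl]) P hP ?_ ?_
    · rw [hPc]
      unfold inHalf
      split_ifs <;> omega
    · intro x hx
      rw [mem_filter] at hx
      rw [hPc]
      have h1 := hx.2
      have h2 := C.lt_ang x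
      unfold CapSys.lt at h1
      unfold inHalf
      split_ifs <;> omega
  have hAB : ∀ s ∈ R, (R.filter (fun x => C.lt s x)).card + (R.filter (fun x => C.lt x s)).card
      = 6 := by
    intro s hs
    have h1 : R = insert s (R.filter (fun x => C.lt s x) ∪ R.filter (fun x => C.lt x s)) := by
      ext w
      rw [mem_insert, mem_union, mem_filter, mem_filter]
      constructor
      · intro hw
        by_cases hws : w = s
        · exact Or.inl hws
        · rcases C.lt_total hws with h2 | h2
          · exact Or.inr (Or.inr ⟨hw, h2⟩)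
          · exact Or.inr (Or.inl ⟨hw, h2⟩)
      · rintro (rfl | h2 | h2)
        · exact hs
        · exact h2.1
        · exact h2.1
    have h3 := hR
    rw [h1, card_insert_of_notMem, card_union_of_disjoint] at h3
    · omega
    · rw [disjoint_left]
      intro w hw hw'
      rw [mem_filter] at hw hw'
      exact CapSys.lt_asymm hw.2 hw'.2
    · rw [mem_union, mem_filter, mem_filter]
      rintro (h2 | h2)
      · exact CapSys.lt_irrefl h2.2
      · exact CapSys.lt_irrefl h2.2
  refine C.loc.labels hne (fun s hs => ?_) (fun s hs => ?_)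
  · have h1 := hA s hs
    have h2 := hB s hs
    have h3 := hAB s hs
    have h4 : (R.filter (fun x => C.lt s x)).card = 3 := by omega
    convert h4
  · have h1 := hA s hs
    have h2 := hB s hs
    have h3 := hAB s hs
    have h4 : (R.filter (fun x => C.lt x s)).card = 3 := by omega
    convert h4

/-- seven lines which are enough for depth three, no (D) pair, no two lines through a covering triple -/
theorem Sys.Circ.three_of_seven {S : Sys ι} {F : ι → Bool} {l : List (ι × Bool)}
    (h : S.Circ F l) (hc : S.Complete) (hQ : (S.world hc).HQ) (hND : (S.world hc).HND)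
    {R : Finset ι} (hR : R.card = 7)
    (hd : ∀ X ∈ S.T, 3 ≤ (R.filter (fun i => X i = true)).card) : S.Three := by
  classical
  obtain ⟨W, hW⟩ : ∃ W, W = S.world hc := ⟨_, rfl⟩
  have hWT : W.T = S.T := by rw [hW]; exact S.world_T hc
  rw [← hW] at hQ hND
  have hdW : ∀ X ∈ W.T, 3 ≤ (R.filter (fun i => X i = true)).card := by rw [hWT]; exact hd
  obtain ⟨a, ha⟩ := World.exists_seven hR hdW
  have hcen := ha.center hdW hQ hND
  obtain ⟨s, hs⟩ : R.Nonempty := card_pos.1 (by omega)
  obtain ⟨C, hCaps⟩ := h.exists_capSys hc ⟨s⟩ (O := fun i => decide (i ∈ R))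
    (by rw [← hWT]; exact hcen)
  -- caps of cells
  have cap : ∀ X ∈ W.T, ∃ H ∈ C.caps, ∀ i, i ∈ H ↔ X i ≠ decide (i ∈ R) := by
    intro X hX
    refine ⟨univ.filter (fun i => X i ≠ decide (i ∈ R)), (hCaps _).2
      ⟨X, by rw [← hWT]; exact hX, fun i => by simp⟩, fun i => by simp⟩
  have hsd : ∀ {X : ι → Bool} {H : Finset ι}, (∀ i, i ∈ H ↔ X i ≠ decide (i ∈ R)) →
      R \ H = R.filter (fun i => X i = true) := by
    intro X H hH
    ext i
    rw [mem_sdiff, mem_filter, hH]
    constructor
    · rintro ⟨h1, h2⟩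
      refine ⟨h1, ?_⟩
      simpa [h1] using h2
    · rintro ⟨h1, h2⟩
      exact ⟨h1, by simp [h1, h2]⟩
  have hdep : ∀ P ∈ C.caps, 3 ≤ (R \ P).card := by
    intro P hP
    obtain ⟨X, hX, hPX⟩ := (hCaps P).1 hP
    rw [hsd hPX]
    exact hd X hX
  obtain ⟨b, hb⟩ := CapSys.lab_of_deep hR hdep
  have hull : ∀ {x y : ι}, W.Corner R x y → C.Hull R x := by
    intro x y hxy
    obtain ⟨hx, hy, hne, hall⟩ := hxy
    obtain ⟨P, hP, hPX⟩ := cap (fun k => if k = x then false else if k = y then true else W.vt x y k)
      (W.vertex hne _ (by intro k h1 h2; simp [h1, h2]))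
    refine ⟨P, hP, ?_⟩
    ext k
    rw [mem_inter, mem_singleton]
    constructor
    · rintro ⟨h1, h2⟩
      by_contra hkx
      have h3 := (hPX k).1 h1
      by_cases hky : k = y
      · simp [hky, hne.symm, hy] at h3
      · simp [hkx, hky, h2, hall k h2 hkx hky] at h3
    · rintro rfl
      exact ⟨(hPX k).2 (by simp [hx]), hx⟩
  obtain ⟨c, hcol⟩ := CapSys.colour_of_hull hb (by
    intro p hp q hq r hr h1 h2 h3
    obtain ⟨t, ht⟩ := ha.corner_of_three hdW hQ hp hq hr h1 h2 h3
    rcases ht with ht | ht | ht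
    · exact Or.inl (hull ht)
    · exact Or.inr (Or.inl (hull ht))
    · exact Or.inr (Or.inr (hull ht)))
  refine ⟨c, fun X hX h5 j => ?_⟩
  obtain ⟨H, hH, hmem⟩ := cap X (by rw [hWT]; exact hX)
  have hXi : ∀ i, X i = true ↔ ((i ∈ R ∧ i ∉ H) ∨ (i ∉ R ∧ i ∈ H)) := by
    intro i
    rw [hmem]
    by_cases hiO : i ∈ R <;> cases hx : X i <;> simp [hiO]
  have hcard : (R \ H).card + (H \ R).card = dep X := by
    unfold dep
    rw [← card_union_of_disjoint]
    · congr 1
      ext i
      rw [mem_union, mem_sdiff, mem_sdiff, mem_filter]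
      have h1 := hXi i
      have h2 := mem_univ i
      tauto
    · rw [disjoint_left]
      intro i h1 h2
      exact (mem_sdiff.1 h2).2 (mem_sdiff.1 h1).1
  obtain ⟨i, hi, hi2⟩ := hcol H hH (by omega) j
  exact ⟨i, (hXi i).2 hi2, hi⟩

end PHP
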