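import Mathlib
import Pool.Agent.PHP.KC8C0

/-! Certificate for 8 lines, generated (problem MP_1180db_co). -/

namespace PHP
namespace KSat

theorem fin8 {σ : ℕ → Bool} (hσ : Hol 8 σ) : False := by
  have h0 : Upto 8 σ T8 0 := Upto.zero
  have h1 := Upto.org h0 hσ to8_0
  have h2 := Upto.org h1 hσ to8_1
  have h3 := Upto.org h2 hσ to8_2
  have h4 := Upto.org h3 hσ to8_3
  have h5 := Upto.org h4 hσ to8_4
  have h6 := Upto.chk h5 fal_zero tu8
  have hB := Upto.units h6 tb8
  have h7 := Upto.chk h6 hB tc8_0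
  have h8 := Upto.chk h7 hB tc8_1
  have h9 := Upto.chk h8 hB tc8_2
  have h10 := Upto.chk h9 hB tc8_3
  exact Upto.false (j := 10339) h10 (by decide) (by decide +kernel)

end KSat
end PHP
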