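import Mathlib
import Pool.Agent.PHP.KC9O0
import Pool.Agent.PHP.KC9O1
import Pool.Agent.PHP.KC9O2
import Pool.Agent.PHP.KC9C0
import Pool.Agent.PHP.KC9C1
import Pool.Agent.PHP.KC9C2
import Pool.Agent.PHP.KC9C3

/-! Certificate for 9 lines, generated (problem MP_1180db_co). -/

namespace PHP
namespace KSat

theorem fin9 {σ : ℕ → Bool} (hσ : Hol 9 σ) : False := by
  have h0 : Upto 9 σ T9 0 := Upto.zero
  have h1 := Upto.org h0 hσ to9_0
  have h2 := Upto.org h1 hσ to9_1
  have h3 := Upto.org h2 hσ to9_2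
  have h4 := Upto.org h3 hσ to9_3
  have h5 := Upto.org h4 hσ to9_4
  have h6 := Upto.org h5 hσ to9_5
  have h7 := Upto.org h6 hσ to9_6
  have h8 := Upto.org h7 hσ to9_7
  have h9 := Upto.org h8 hσ to9_8
  have h10 := Upto.org h9 hσ to9_9
  have h11 := Upto.org h10 hσ to9_10
  have h12 := Upto.org h11 hσ to9_11
  have h13 := Upto.chk h12 fal_zero tu9
  have hB := Upto.units h13 tb9
  have h14 := Upto.chk h13 hB tc9_0
  have h15 := Upto.chk h14 hB tc9_1
  have h16 := Upto.chk h15 hB tc9_2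
  have h17 := Upto.chk h16 hB tc9_3
  have h18 := Upto.chk h17 hB tc9_4
  have h19 := Upto.chk h18 hB tc9_5
  have h20 := Upto.chk h19 hB tc9_6
  have h21 := Upto.chk h20 hB tc9_7
  have h22 := Upto.chk h21 hB tc9_8
  have h23 := Upto.chk h22 hB tc9_9
  have h24 := Upto.chk h23 hB tc9_10
  have h25 := Upto.chk h24 hB tc9_11
  exact Upto.false (j := 32673) h25 (by decide) (by decide +kernel)

end KSat
end PHP
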