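import Mathlib
import Pool.Agent.PHP.KC9T

/-! Certificate for 9 lines, generated (problem MP_1180db_co). -/

set_option maxRecDepth 100000
set_option linter.all false

namespace PHP
namespace KSat

noncomputable def u9 : List ℕ := [0x2d8d1928192a19290004, 0x2d8e1928192a19290004, 0x2d8f1928192a19290004, 0x2d901928192a19290004, 0x2d911928192a19290004, 0x2d921928192a19290004, 0x2d931928192a19290004, 0x2d941928192a19290004, 0x2d951928192a19290004, 0x2d961928192a19290004, 0x2d971928192a19290004, 0x2d981928192a19290004, 0x2d991928192a19290004, 0x2d9a1928192a19290004, 0x2d9b1928192a19290004, 0x2d9c1928192a19290004, 0x2d9d1928192a19290004, 0x2d9e1928192a19290004, 0x2d9f1928192a19290004, 0x2da01928192a19290004, 0x3d2a1928192a19290004, 0x3d2b1928192a19290004, 0x3d2c1928192a19290004, 0x3d2d1928192a19290004, 0x3d2e1928192a19290004, 0x3d2f1928192a19290004, 0x41fa1928192a19290004]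

theorem tu9 : chkE 9 0 T9 u9 16998 17025 = true := by decide +kernel

noncomputable def B9 : ℕ := 0x20000000000000000000202000040404000400000404000004000404000400000400040400000404000400000004000004000404000004040004000000000404000400000004000000000000000000000000000000000000000000000000000000000000000000000000000000000000000000000000000000000000000000000000000000000000000000000000000000000000000000000000000000000000000000000000000000

theorem tb9 : unitE 9 T9 17025 [6440, 6441, 6442, 16998, 16999, 17000, 17001, 17002, 17003, 17004, 17005, 17006, 17007, 17008, 17009, 17010, 17011, 17012, 17013, 17014, 17015, 17016, 17017, 17018, 17019, 17020, 17021, 17022, 17023, 17024] B9 = true := by decide +kernel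

end KSat
end PHP
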