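import Mathlib

/-!
# A refutation checker for clause sets that is fast in the kernel (problem MP_1180db_co)

Variables are `0, ..., N - 1`.  The literal code `v < N` is the variable `v`, the code `N + v` is its
negation.  A clause is a bit mask of literal codes; it is stored packed, in base `2 ^ 16`
(first the number of literals, then the codes), in a binary tree `Tr`.
A clause is checked by unit propagation along a list of hints, which is stored packed in base `2 ^ 16`.
-/

namespace PHP
namespace KSat

/-- the value of the literal with code `l` -/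
def lit (N : ℕ) (σ : ℕ → Bool) (l : ℕ) : Bool :=
  if l < N then σ l else if l < 2 * N then !(σ (l - N)) else false

/-- some literal of the clause is true -/
def Sat (N : ℕ) (σ : ℕ → Bool) (C : ℕ) : Prop := ∃ l, C.testBit l = true ∧ lit N σ l = true

/-- all literals in the mask are false -/
def Fal (N : ℕ) (σ : ℕ → Bool) (A : ℕ) : Prop := ∀ l, A.testBit l = true → lit N σ l = false

/-- evaluate a number first -/
noncomputable def seq {α : Type} (n : ℕ) (k : ℕ → α) : α := Nat.rec (k 0) (fun m _ => k (Nat.succ m)) n

theorem seq_eq {α : Type} (n : ℕ) (k : ℕ → α) : seq n k = k n := by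
  cases n <;> rfl

/-- unpack a clause -/
noncomputable def goMask (k : ℕ) : ℕ → ℕ → ℕ :=
  Nat.rec (fun _ acc => acc)
    (fun _ ih x acc => ih (Nat.shiftRight x 16) (Nat.lor acc (Nat.shiftLeft 1 (Nat.land x 65535)))) k

noncomputable def mask (x : ℕ) : ℕ := goMask (Nat.land x 65535) (Nat.shiftRight x 16) 0

inductive Tr
  | leaf : Tr
  | node : ℕ → Tr → Tr → Tr

/-- the entry with number `i` -/
noncomputable def Tr.get (t : Tr) : ℕ → ℕ :=
  Tr.rec (fun _ => 0) (fun c _ _ gl gr i =>
    Nat.rec c (fun j _ => Bool.rec (gl (Nat.shiftRight j 1)) (gr (Nat.shiftRight j 1))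
      (Nat.beq (Nat.land j 1) 1)) i) t

/-- the clause with number `i` -/
noncomputable def Tr.cl (t : Tr) (i : ℕ) : ℕ := mask (t.get i)

/-- the negation of a single literal, as masks; `P = 2 ^ N` -/
noncomputable def neg (N P R : ℕ) : ℕ :=
  Bool.rec (Nat.shiftRight R N) (Nat.shiftLeft R N) (Nat.blt R P)

/-- unit propagation along the hints -/
noncomputable def prop (N P : ℕ) (t : Tr) (i : ℕ) (k : ℕ) : ℕ → ℕ → Bool :=
  Nat.rec (fun _ _ => false)
    (fun _ ih A h =>
      seq (Nat.land h 65535) fun j =>
        Bool.rec false
          (seq (Nat.xor (t.cl j) (Nat.land (t.cl j) A)) fun R =>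
            Bool.rec
              (Bool.rec false
                (seq (Nat.lor A (neg N P R)) fun A' => ih A' (Nat.shiftRight h 16))
                (Nat.beq (Nat.land R (Nat.sub R 1)) 0))
              true (Nat.beq R 0))
          (Nat.blt j i)) k

/-- check of the clause number `i` with the hints `h`; the literals in `B` are known to be false -/
noncomputable def rup (N P B : ℕ) (t : Tr) (i h : ℕ) : Bool :=
  seq (Nat.lor (t.cl i) B) fun A => prop N P t i (Nat.land h 65535) A (Nat.shiftRight h 16)

/-- check of the clauses number `i`, `i + 1`, ... -/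
noncomputable def chk (N P B : ℕ) (t : Tr) (hs : List ℕ) : ℕ → Bool :=
  List.rec (fun _ => true) (fun h _ ih i => Bool.rec false (ih (Nat.succ i)) (rup N P B t i h)) hs

/-! ## soundness -/

variable {N : ℕ} {σ : ℕ → Bool} {t : Tr}

theorem lit_neg {l : ℕ} (h : lit N σ l = true) :
    ∃ m, neg N (2 ^ N) (2 ^ l) = 2 ^ m ∧ lit N σ m = false := by
  unfold lit at h
  unfold neg
  by_cases h1 : l < N
  · have h2 : Nat.blt (2 ^ l) (2 ^ N) = true := by
      rw [Nat.blt_eq]
      exact Nat.pow_lt_pow_right (by norm_num) h1
    rw [if_pos h1] at h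
    rw [h2]
    refine ⟨l + N, ?_, ?_⟩
    · show (2 ^ l) <<< N = _
      rw [Nat.shiftLeft_eq, pow_add]
    · unfold lit
      rw [if_neg (by omega), if_pos (by omega), Nat.add_sub_cancel, h]
      rfl
  · have h2 : Nat.blt (2 ^ l) (2 ^ N) = false := by
      cases h3 : Nat.blt (2 ^ l) (2 ^ N)
      · rfl
      · rw [Nat.blt_eq] at h3
        have := (Nat.pow_lt_pow_iff_right (by norm_num : 1 < 2)).1 h3
        omega
    rw [if_neg h1] at h
    by_cases h4 : l < 2 * N
    · rw [if_pos h4] at h
      rw [h2]
      refine ⟨l - N, ?_, ?_⟩
      · show (2 ^ l) >>> N = _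
        rw [Nat.shiftRight_eq_div_pow, Nat.pow_div (by omega) (by norm_num)]
      · unfold lit
        rw [if_pos (by omega)]
        simpa using h
    · rw [if_neg h4] at h
      simp at h

/-- a mask with one literal -/
theorem single_of {R m : ℕ} (h0 : Nat.beq (Nat.land R (Nat.sub R 1)) 0 = true)
    (hm : R.testBit m = true) : R = 2 ^ m := by
  have h1 : R &&& (R - 1) = 0 := Nat.eq_of_beq_eq_true h0
  have h2 : R ≠ 0 := by
    intro h
    rw [h, Nat.zero_testBit] at hm
    exact Bool.noConfusion hm
  obtain ⟨k, hk⟩ := (Nat.and_sub_one_eq_zero_iff_isPowerOfTwo h2).1 h1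
  rw [hk, Nat.testBit_two_pow] at hm
  have : k = m := by simpa using hm
  rw [hk, this]

theorem Fal.or {A B : ℕ} (hA : Fal N σ A) (hB : Fal N σ B) : Fal N σ (A ||| B) := by
  intro l hl
  rw [Nat.testBit_or, Bool.or_eq_true] at hl
  rcases hl with h | h
  · exact hA l h
  · exact hB l h

theorem Fal.single {l : ℕ} (h : lit N σ l = false) : Fal N σ (2 ^ l) := by
  intro m hm
  rw [Nat.testBit_two_pow] at hm
  have : l = m := by simpa using hm
  rw [← this]
  exact h

theorem prop_sound {i : ℕ} (hj : ∀ j < i, Sat N σ (t.cl j)) :
    ∀ (k A h : ℕ), Fal N σ A → prop N (2 ^ N) t i k A h = true → False := by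
  intro k
  induction k with
  | zero =>
      intro A h _ hp
      exact Bool.noConfusion (show false = true from hp)
  | succ k ih =>
      intro A h hA hp
      have hp' : (seq (Nat.land h 65535) fun j =>
        Bool.rec (motive := fun _ => Bool) false
          (seq (Nat.xor (t.cl j) (Nat.land (t.cl j) A)) fun R =>
            Bool.rec (motive := fun _ => Bool)
              (Bool.rec (motive := fun _ => Bool) false
                (seq (Nat.lor A (neg N (2 ^ N) R)) fun A' =>
                  prop N (2 ^ N) t i k A' (Nat.shiftRight h 16))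
                (Nat.beq (Nat.land R (Nat.sub R 1)) 0))
              true (Nat.beq R 0))
          (Nat.blt j i)) = true := hp
      simp only [seq_eq] at hp'
      generalize Nat.land h 65535 = j at hp'
      cases hb : Nat.blt j i with
      | false => rw [hb] at hp'; exact Bool.noConfusion (show false = true from hp')
      | true =>
        rw [hb] at hp'
        rw [Nat.blt_eq] at hb
        obtain ⟨m, hm1, hm2⟩ := hj j hb
        have hmA : A.testBit m = false := by
          cases h1 : A.testBit m
          · rfl
          · rw [hA m h1] at hm2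
            exact Bool.noConfusion hm2
        have hR : Nat.testBit (Nat.xor (t.cl j) (Nat.land (t.cl j) A)) m = true := by
          show Nat.testBit ((t.cl j) ^^^ ((t.cl j) &&& A)) m = true
          rw [Nat.testBit_xor, Nat.testBit_and, hm1, hmA]
          rfl
        generalize Nat.xor (t.cl j) (Nat.land (t.cl j) A) = R at hp' hR
        cases hz : Nat.beq R 0 with
        | true =>
          have : R = 0 := Nat.eq_of_beq_eq_true hz
          rw [this, Nat.zero_testBit] at hR
          exact Bool.noConfusion hR
        | false =>
          simp only [hz] at hp'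
          cases hs : Nat.beq (Nat.land R (Nat.sub R 1)) 0 with
          | false => rw [hs] at hp'; exact Bool.noConfusion (show false = true from hp')
          | true =>
            rw [hs] at hp'
            have h1 := single_of hs hR
            obtain ⟨q, hq1, hq2⟩ := lit_neg hm2
            refine ih (Nat.lor A (neg N (2 ^ N) R)) _ ?_ hp'
            refine Fal.or hA ?_
            rw [h1, hq1]
            exact Fal.single hq2

theorem rup_sound {B i h : ℕ} (hB : Fal N σ B) (hj : ∀ j < i, Sat N σ (t.cl j))
    (hr : rup N (2 ^ N) B t i h = true) : Sat N σ (t.cl i) := by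
  by_contra hns
  unfold rup at hr
  rw [seq_eq] at hr
  refine prop_sound hj _ _ _ ?_ hr
  refine Fal.or ?_ hB
  intro l hl
  cases h1 : lit N σ l
  · rfl
  · exact absurd ⟨l, hl, h1⟩ hns

theorem chk_sound {B : ℕ} (hB : Fal N σ B) : ∀ (hs : List ℕ) (i : ℕ), (∀ j < i, Sat N σ (t.cl j)) →
    chk N (2 ^ N) B t hs i = true → ∀ j < i + hs.length, Sat N σ (t.cl j) := by
  intro hs
  induction hs with
  | nil =>
      intro i hi _
      simpa using hi
  | cons h hs ih =>
      intro i hi hc
      have hc' : (Bool.rec (motive := fun _ => Bool) false (chk N (2 ^ N) B t hs (Nat.succ i))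
        (rup N (2 ^ N) B t i h)) = true := hc
      cases hr : rup N (2 ^ N) B t i h with
      | false => rw [hr] at hc'; exact Bool.noConfusion (show false = true from hc')
      | true =>
        rw [hr] at hc'
        have h1 := rup_sound hB hi hr
        have h2 := ih (i + 1) (by
          intro j hj
          rcases Nat.lt_succ_iff_lt_or_eq.1 hj with h | h
          · exact hi j h
          · rw [h]; exact h1) hc'
        intro j hj
        exact h2 j (by rw [List.length_cons] at hj; omega)

theorem not_sat_zero : ¬ Sat N σ 0 := by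
  rintro ⟨l, hl, -⟩
  rw [Nat.zero_testBit] at hl
  exact Bool.noConfusion hl

/-- the set of the codes in a list -/
noncomputable def bset (ls : List ℕ) : ℕ := List.rec 0 (fun l _ acc => Nat.lor (Nat.shiftLeft 1 l) acc) ls

theorem testBit_bset (ls : List ℕ) (m : ℕ) : (bset ls).testBit m = true ↔ m ∈ ls := by
  induction ls with
  | nil =>
      show Nat.testBit 0 m = true ↔ _
      simp
  | cons l ls ih =>
      show Nat.testBit ((1 <<< l) ||| bset ls) m = true ↔ _
      rw [Nat.testBit_or, Bool.or_eq_true, ih, Nat.one_shiftLeft, Nat.testBit_two_pow]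
      simp [eq_comm]

theorem sat_bset {ls : List ℕ} (h : ∃ l ∈ ls, lit N σ l = true) : Sat N σ (bset ls) := by
  obtain ⟨l, h1, h2⟩ := h
  exact ⟨l, (testBit_bset ls l).2 h1, h2⟩

/-- the negations of the unit clauses with the given numbers -/
noncomputable def base (N P : ℕ) (t : Tr) (js : List ℕ) : ℕ :=
  List.rec 0 (fun j _ acc => Nat.lor (neg N P (t.cl j)) acc) js

noncomputable def units (t : Tr) (m : ℕ) (js : List ℕ) : Bool :=
  List.rec true (fun j _ acc => Bool.rec false (Bool.rec false acc (Nat.blt j m))
    (Nat.beq (Nat.land (t.cl j) (Nat.sub (t.cl j) 1)) 0)) js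

theorem base_sound {m : ℕ} (hm : ∀ j < m, Sat N σ (t.cl j)) : ∀ js : List ℕ, units t m js = true →
    Fal N σ (base N (2 ^ N) t js) := by
  intro js
  induction js with
  | nil =>
      intro _ l hl
      have : Nat.testBit 0 l = true := hl
      rw [Nat.zero_testBit] at this
      exact Bool.noConfusion this
  | cons j js ih =>
      intro h
      have h' : (Bool.rec (motive := fun _ => Bool) false
        (Bool.rec (motive := fun _ => Bool) false (units t m js) (Nat.blt j m))
        (Nat.beq (Nat.land (t.cl j) (Nat.sub (t.cl j) 1)) 0)) = true := h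
      cases h1 : Nat.beq (Nat.land (t.cl j) (Nat.sub (t.cl j) 1)) 0 with
      | false => rw [h1] at h'; exact Bool.noConfusion (show false = true from h')
      | true =>
        rw [h1] at h'
        cases h2 : Nat.blt j m with
        | false => rw [h2] at h'; exact Bool.noConfusion (show false = true from h')
        | true =>
          rw [h2] at h'
          rw [Nat.blt_eq] at h2
          obtain ⟨l, hl, hl2⟩ := hm j h2
          have h3 := single_of h1 hl
          obtain ⟨q, hq1, hq2⟩ := lit_neg hl2
          show Fal N σ ((neg N (2 ^ N) (t.cl j)) ||| base N (2 ^ N) t js)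
          refine Fal.or ?_ (ih h')
          rw [h3, hq1]
          exact Fal.single hq2

end KSat
end PHP
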