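import Mathlib
import Pool.Agent.PHP.KSat
import Pool.Agent.PHP.ExGlue

/-!
# The clauses of the certificate (problem MP_1180db_co)

`W.Fr n e`: the letters `e 0, ..., e (n - 1)` are critical in `W` (every cell contains at least three of them,
each of them is in a cell with exactly three of them), `e 0, e 1, e 2` is an innermost covering triple, and the other
letters are sorted along the line `e 0`.

The variables of the clauses are: `vv n i j k` (the sign of `e k` at the crossing of `e i` and `e j`), `tv n x` (the type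
of `e x` on the line `e 0`), `cv n z` (some cell contains exactly the letters `e i`, `i` in the bit mask `z`).
`genC n d` is the clause with the description `d`, and `valid n d` says that the description makes sense.
-/

set_option linter.unusedVariables false

namespace PHP

open Finset

/-- the frame of the certificate -/
structure World.Fr {ι : Type} (W : World ι) (n : ℕ) (e : ℕ → ι) : Prop where
  inj : ∀ i j, i < n → j < n → e i = e j → i = j
  three : 3 ≤ n
  cov : W.Cov (e 0) (e 1) (e 2)
  ty1 : W.ty (e 0) (e 1) = true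
  ty2 : W.ty (e 0) (e 2) = false
  sorted : ∀ i j, 3 ≤ i → i < j → j < n → W.pos (e 0) (e i) < W.pos (e 0) (e j)
  corner : ∀ x, 3 ≤ x → x < n →
    ¬ (W.vt (e 0) (e 1) (e x) = true ∧ W.vt (e 1) (e 2) (e x) = false ∧
      W.vt (e 0) (e 2) (e x) = false) ∧
    ¬ (W.vt (e 0) (e 1) (e x) = false ∧ W.vt (e 1) (e 2) (e x) = true ∧
      W.vt (e 0) (e 2) (e x) = false) ∧
    ¬ (W.vt (e 0) (e 1) (e x) = false ∧ W.vt (e 1) (e 2) (e x) = false ∧
      W.vt (e 0) (e 2) (e x) = true)
  dep : ∀ X ∈ W.T, 3 ≤ ((range n).filter (fun i => X (e i) = true)).card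
  crit : ∀ i < n, ∃ X ∈ W.T, X (e i) = true ∧
    ((range n).filter (fun i => X (e i) = true)).card = 3

namespace KSat

/-- variable: the sign of `k` at the crossing of `i` and `j` -/
def vv (n i j k : ℕ) : ℕ := bif Nat.blt i j then (i * n + j) * n + k else (j * n + i) * n + k

/-- variable: the type of `x` on the line `0` -/
def tv (n x : ℕ) : ℕ := n ^ 3 + x

/-- variable: the letters in the bit mask `z` form a cell -/
def cv (n z : ℕ) : ℕ := n ^ 3 + n + z

/-- number of variables -/
def nP (n : ℕ) : ℕ := n ^ 3 + n + 2 ^ n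

/-- negative literal -/
def ng (n v : ℕ) : ℕ := nP n + v

/-- a literal with a sign -/
def sl (n : ℕ) (b : Bool) (v : ℕ) : ℕ := bif b then v else ng n v

open Classical in
/-- the values of the variables -/
noncomputable def sig {ι : Type} (W : World ι) (n : ℕ) (e : ℕ → ι) (v : ℕ) : Bool :=
  if v < n ^ 3 then W.vt (e (v / n / n)) (e (v / n % n)) (e (v % n))
  else if v < n ^ 3 + n then W.ty (e 0) (e (v - n ^ 3))
  else decide (∃ X ∈ W.T, ∀ i < n, X (e i) = (v - n ^ 3 - n).testBit i)

/-- the forbidden patterns of the six signs at the crossings of a line with three others -/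
def prs : List (List (ℕ × Bool)) :=
  [[(0, false), (1, false), (3, true), (5, true)], [(0, false), (1, true), (3, false), (5, true)],
   [(0, true), (1, false), (3, true), (5, false)], [(0, true), (1, true), (3, false), (5, false)],
   [(0, false), (2, false), (4, true), (5, true)], [(0, false), (2, true), (4, false), (5, true)],
   [(0, true), (2, false), (4, true), (5, false)], [(0, true), (2, true), (4, false), (5, false)],
   [(1, false), (2, false), (3, true), (4, true)], [(1, false), (2, true), (3, true), (4, false)],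
   [(1, true), (2, false), (3, false), (4, true)], [(1, true), (2, true), (3, false), (4, false)],
   [(0, false), (1, false), (2, false), (3, false), (4, false), (5, false)],
   [(0, false), (1, false), (2, true), (3, false), (4, true), (5, false)],
   [(0, false), (1, true), (2, false), (3, true), (4, false), (5, false)],
   [(0, false), (1, true), (2, true), (3, true), (4, true), (5, false)],
   [(0, true), (1, false), (2, false), (3, false), (4, false), (5, true)],
   [(0, true), (1, false), (2, true), (3, false), (4, true), (5, true)],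
   [(0, true), (1, true), (2, false), (3, true), (4, false), (5, true)],
   [(0, true), (1, true), (2, true), (3, true), (4, true), (5, true)]]

def gL (n s x y z t : ℕ) : List ℕ :=
  (prs.getD t []).map fun q =>
    sl n (!q.2) ([vv n s x y, vv n s y x, vv n s x z, vv n s z x, vv n s y z, vv n s z y].getD q.1 0)

/-- `x` does not contain exactly one corner of the triangle `0, 1, 2` -/
def gX (n x t : ℕ) : List ℕ :=
  [sl n (!(Nat.beq t 0)) (vv n 1 2 x), sl n (!(Nat.beq t 1)) (vv n 0 2 x),
    sl n (!(Nat.beq t 2)) (vv n 0 1 x)]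

def gT (n t : ℕ) : List ℕ := [[vv n 0 1 2, vv n 1 2 0, vv n 0 2 1].getD t (vv n 0 1 2)]

def gD (n p q o1 o2 : ℕ) : List ℕ :=
  ((List.range n).filter fun k =>
    !(Nat.beq k p) && !(Nat.beq k q) && !(Nat.beq k o1) && !(Nat.beq k o2)).map fun k => vv n p q k

def gQ (n a b c f g : ℕ) : List ℕ :=
  [ng n (vv n a b c), ng n (vv n b c a), ng n (vv n a c b), ng n (vv n a b f), ng n (vv n b c f),
    ng n (vv n a c f), ng n (vv n a b g), ng n (vv n b c g), ng n (vv n a c g)]

noncomputable def gK (n v : ℕ) : List ℕ :=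
  (List.range n).flatMap fun x => ((List.range x).filter fun y =>
    !(Nat.beq x v) && !(Nat.beq y v)).map fun y => cv n (bset [v, x, y])

noncomputable def gN (n a b c a' b' c' : ℕ) : List ℕ :=
  [ng n (vv n a b c), ng n (vv n b c a), ng n (vv n a c b), ng n (vv n a' b' c'),
    ng n (vv n b' c' a'), ng n (vv n a' c' b'), cv n (bset [a, b, c, a', b', c']),
    cv n (bset [b, c, a', b', c']), cv n (bset [a, c, a', b', c']), cv n (bset [a, b, a', b', c']),
    cv n (bset [a, b, c, b', c']), cv n (bset [a, b, c, a', c']), cv n (bset [a, b, c, a', b'])]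

def gM (n z i j k : ℕ) : List ℕ :=
  [ng n (cv n z), sl n (z.testBit i) (vv n j k i), sl n (z.testBit j) (vv n i k j),
    sl n (z.testBit k) (vv n i j k)]

def gt (n x t : ℕ) : List ℕ :=
  [[ng n (tv n x), vv n 0 1 x, vv n 0 x 1],
   [ng n (tv n x), ng n (vv n 0 1 x), ng n (vv n 0 x 1)],
   [tv n x, ng n (vv n 0 1 x), vv n 0 x 1],
   [tv n x, vv n 0 1 x, ng n (vv n 0 x 1)],
   [tv n x, vv n 0 2 x, vv n 0 x 2],
   [tv n x, ng n (vv n 0 2 x), ng n (vv n 0 x 2)],
   [ng n (tv n x), ng n (vv n 0 2 x), vv n 0 x 2],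
   [ng n (tv n x), vv n 0 2 x, ng n (vv n 0 x 2)]].getD t []

def gs (n x y t : ℕ) : List ℕ :=
  [[ng n (vv n 0 x y), tv n y], [vv n 0 x y, ng n (tv n y)],
   [ng n (vv n 0 y x), ng n (tv n x)], [vv n 0 y x, tv n x]].getD t []

/-- four bits of a description -/
def fd (d k : ℕ) : ℕ := Nat.land (Nat.shiftRight d (4 * k)) 15

/-- all entries are smaller than `n` and different -/
def ds (n : ℕ) (l : List ℕ) : Bool := l.all (fun a => Nat.blt a n) && decide l.Nodup

noncomputable def genC (n d : ℕ) : List ℕ :=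
  match fd d 0 with
  | 0 => gL n (fd d 1) (fd d 2) (fd d 3) (fd d 4) (Nat.shiftRight d 20)
  | 1 => gX n (fd d 1) (fd d 2)
  | 2 => gT n (fd d 1)
  | 3 => gD n (fd d 1) (fd d 2) (fd d 3) (fd d 4)
  | 4 => gQ n (fd d 1) (fd d 2) (fd d 3) (fd d 4) (fd d 5)
  | 5 => gK n (fd d 1)
  | 6 => gN n (fd d 1) (fd d 2) (fd d 3) (fd d 4) (fd d 5) (fd d 6)
  | 7 => gM n (Nat.shiftRight d 16) (fd d 1) (fd d 2) (fd d 3)
  | 8 => gt n (fd d 1) (fd d 2)
  | 9 => gs n (fd d 1) (fd d 2) (fd d 3)
  | _ => []

def valid (n d : ℕ) : Bool :=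
  match fd d 0 with
  | 0 => ds n [fd d 1, fd d 2, fd d 3, fd d 4] && Nat.blt (Nat.shiftRight d 20) 20
  | 1 => Nat.blt 2 (fd d 1) && Nat.blt (fd d 1) n && Nat.blt (fd d 2) 3
  | 2 => Nat.blt (fd d 1) 3
  | 3 => ds n [fd d 1, fd d 2]
  | 4 => ds n [fd d 1, fd d 2, fd d 3, fd d 4, fd d 5]
  | 5 => Nat.blt (fd d 1) n
  | 6 => ds n [fd d 1, fd d 2, fd d 3, fd d 4, fd d 5, fd d 6]
  | 7 => ds n [fd d 1, fd d 2, fd d 3] && Nat.blt (Nat.shiftRight d 16) (2 ^ n)
  | 8 => Nat.blt 2 (fd d 1) && Nat.blt (fd d 1) n && Nat.blt (fd d 2) 8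
  | 9 => Nat.blt 2 (fd d 1) && Nat.blt (fd d 1) (fd d 2) && Nat.blt (fd d 2) n &&
      Nat.blt (fd d 3) 4
  | _ => false

/-- the clause number `i` is the one with the description `d` -/
noncomputable def one (n : ℕ) (t : Tr) (d i : ℕ) : Bool :=
  Bool.rec false (Nat.beq (bset (genC n d)) (t.cl i)) (valid n d)

/-- check of the given clauses number `i`, `i + 1`, ... -/
noncomputable def org (n : ℕ) (t : Tr) (ls : List ℕ) : ℕ → Bool :=
  List.rec (fun _ => true) (fun d _ ih i => Bool.rec false (ih (Nat.succ i)) (one n t d i)) ls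

/-! ## values -/

variable {ι : Type} {W : World ι} {n : ℕ} {e : ℕ → ι}

theorem vv_lt {i j k : ℕ} (hi : i < n) (hj : j < n) (hk : k < n) : vv n i j k < n ^ 3 := by
  unfold vv
  have h1 : i * n + j < n * n := by nlinarith
  have h2 : j * n + i < n * n := by nlinarith
  cases Nat.blt i j
  · show (j * n + i) * n + k < n ^ 3
    nlinarith
  · show (i * n + j) * n + k < n ^ 3
    nlinarith

theorem sig_vv {i j k : ℕ} (hi : i < n) (hj : j < n) (hk : k < n) :
    sig W n e (vv n i j k) = W.vt (e i) (e j) (e k) := by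
  have h := vv_lt hi hj hk
  have key : ∀ a b : ℕ, a < n → b < n → ((a * n + b) * n + k) / n / n = a ∧
      ((a * n + b) * n + k) / n % n = b ∧ ((a * n + b) * n + k) % n = k := by
    intro a b ha hb
    have hn : 0 < n := by omega
    have e1 : ((a * n + b) * n + k) / n = a * n + b := by
      rw [mul_comm, Nat.mul_add_div hn, Nat.div_eq_of_lt hk, add_zero]
    refine ⟨?_, ?_, ?_⟩
    · rw [e1, mul_comm, Nat.mul_add_div hn, Nat.div_eq_of_lt hb, add_zero]
    · rw [e1, mul_comm, Nat.mul_add_mod, Nat.mod_eq_of_lt hb]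
    · rw [mul_comm, Nat.mul_add_mod, Nat.mod_eq_of_lt hk]
  unfold sig
  rw [if_pos h]
  unfold vv
  cases Nat.blt i j
  · obtain ⟨h1, h2, h3⟩ := key j i hj hi
    show W.vt (e (((j * n + i) * n + k) / n / n)) (e (((j * n + i) * n + k) / n % n))
      (e (((j * n + i) * n + k) % n)) = _
    rw [h1, h2, h3, W.vt_comm]
  · obtain ⟨h1, h2, h3⟩ := key i j hi hj
    show W.vt (e (((i * n + j) * n + k) / n / n)) (e (((i * n + j) * n + k) / n % n))
      (e (((i * n + j) * n + k) % n)) = _
    rw [h1, h2, h3]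

theorem sig_tv {x : ℕ} (hx : x < n) : sig W n e (tv n x) = W.ty (e 0) (e x) := by
  unfold sig tv
  rw [if_neg (by omega), if_pos (by omega), Nat.add_sub_cancel_left]

open Classical in
theorem sig_cv (z : ℕ) : sig W n e (cv n z) = decide (∃ X ∈ W.T, ∀ i < n, X (e i) = z.testBit i) := by
  unfold sig cv
  rw [if_neg (by omega), if_neg (by omega)]
  have : n ^ 3 + n + z - n ^ 3 - n = z := by omega
  rw [this]

theorem lit_pos {v : ℕ} (hv : v < nP n) : lit (nP n) (sig W n e) v = sig W n e v := by
  unfold lit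
  rw [if_pos hv]

theorem lit_ng {v : ℕ} (hv : v < nP n) : lit (nP n) (sig W n e) (ng n v) = !(sig W n e v) := by
  unfold lit ng
  rw [if_neg (by omega), if_pos (by omega), Nat.add_sub_cancel_left]

theorem lit_sl {v : ℕ} (b : Bool) (hv : v < nP n) :
    lit (nP n) (sig W n e) (sl n b v) = (sig W n e v == b) := by
  cases b
  · show lit (nP n) (sig W n e) (ng n v) = _
    rw [lit_ng hv]
    cases sig W n e v <;> rfl
  · show lit (nP n) (sig W n e) v = _
    rw [lit_pos hv]
    cases sig W n e v <;> rfl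

theorem vv_lt' {i j k : ℕ} (hi : i < n) (hj : j < n) (hk : k < n) : vv n i j k < nP n := by
  have h1 := vv_lt hi hj hk
  have h2 : 0 < 2 ^ n := by positivity
  unfold nP
  omega

theorem tv_lt {x : ℕ} (hx : x < n) : tv n x < nP n := by
  unfold tv nP
  have : 0 < 2 ^ n := by positivity
  omega

theorem cv_lt {z : ℕ} (hz : z < 2 ^ n) : cv n z < nP n := by
  unfold cv nP
  omega

/-- the literals for the signs at the crossings -/
theorem lit_vv {i j k : ℕ} (hi : i < n) (hj : j < n) (hk : k < n) :
    lit (nP n) (sig W n e) (vv n i j k) = W.vt (e i) (e j) (e k) := by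
  rw [lit_pos (vv_lt' hi hj hk), sig_vv hi hj hk]

theorem lit_nvv {i j k : ℕ} (hi : i < n) (hj : j < n) (hk : k < n) :
    lit (nP n) (sig W n e) (ng n (vv n i j k)) = !(W.vt (e i) (e j) (e k)) := by
  rw [lit_ng (vv_lt' hi hj hk), sig_vv hi hj hk]

theorem lit_svv {i j k : ℕ} (b : Bool) (hi : i < n) (hj : j < n) (hk : k < n) :
    lit (nP n) (sig W n e) (sl n b (vv n i j k)) = (W.vt (e i) (e j) (e k) == b) := by
  rw [lit_sl b (vv_lt' hi hj hk), sig_vv hi hj hk]

end KSat
end PHP
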