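import Mathlib
import Pool.Agent.PHP.KDefs

/-!
# Chunks of the certificate (problem MP_1180db_co)
-/

set_option linter.unusedVariables false

namespace PHP
namespace KSat

variable {n : ℕ} {σ : ℕ → Bool} {t : Tr}

/-- the given clauses hold -/
def Hol (n : ℕ) (σ : ℕ → Bool) : Prop :=
  ∀ d, valid n d = true → ∃ l ∈ genC n d, lit (nP n) σ l = true

/-- all clauses before the number `i` hold -/
def Upto (n : ℕ) (σ : ℕ → Bool) (t : Tr) (i : ℕ) : Prop := ∀ k < i, Sat (nP n) σ (t.cl k)

theorem Upto.zero : Upto n σ t 0 := fun k hk => absurd hk (Nat.not_lt_zero k)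

/-- a chunk of given clauses -/
noncomputable def orgE (n : ℕ) (t : Tr) (ls : List ℕ) (i j : ℕ) : Bool :=
  Bool.rec false (Nat.beq (i + ls.length) j) (org n t ls i)

/-- a chunk of derived clauses -/
noncomputable def chkE (n B : ℕ) (t : Tr) (hs : List ℕ) (i j : ℕ) : Bool :=
  Bool.rec false (Nat.beq (i + hs.length) j)
    (seq (nP n) fun N => seq (2 ^ N) fun P => seq B fun B => chk N P B t hs i)

/-- the mask of known units -/
noncomputable def unitE (n : ℕ) (t : Tr) (m : ℕ) (js : List ℕ) (B : ℕ) : Bool :=
  Bool.rec false (Nat.beq (base (nP n) (2 ^ nP n) t js) B) (units t m js)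

theorem org_sound (hσ : Hol n σ) : ∀ (ls : List ℕ) (i : ℕ), Upto n σ t i → org n t ls i = true →
    Upto n σ t (i + ls.length) := by
  intro ls
  induction ls with
  | nil => intro i hi _; exact hi
  | cons d ls ih =>
      intro i hi hc
      have hc' : (Bool.rec (motive := fun _ => Bool) false (org n t ls (Nat.succ i))
        (one n t d i)) = true := hc
      cases hr : one n t d i with
      | false => rw [hr] at hc'; exact Bool.noConfusion (show false = true from hc')
      | true =>
        rw [hr] at hc'
        have hr' : (Bool.rec (motive := fun _ => Bool) false (Nat.beq (bset (genC n d)) (t.cl i))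
          (valid n d)) = true := hr
        cases hv : valid n d with
        | false => rw [hv] at hr'; exact Bool.noConfusion (show false = true from hr')
        | true =>
          rw [hv] at hr'
          have h1 : bset (genC n d) = t.cl i := Nat.eq_of_beq_eq_true hr'
          have h2 : Sat (nP n) σ (t.cl i) := h1 ▸ sat_bset (hσ d hv)
          have h3 := ih (i + 1) (by
            intro j hj
            rcases Nat.lt_succ_iff_lt_or_eq.1 hj with h | h
            · exact hi j h
            · rw [h]; exact h2) hc'
          intro j hj
          exact h3 j (by rw [List.length_cons] at hj; omega)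

theorem Upto.org {ls : List ℕ} {i j : ℕ} (hi : Upto n σ t i) (hσ : Hol n σ)
    (h : orgE n t ls i j = true) : Upto n σ t j := by
  unfold orgE at h
  cases h1 : KSat.org n t ls i with
  | false => rw [h1] at h; exact Bool.noConfusion (show false = true from h)
  | true =>
    rw [h1] at h
    have h2 : i + ls.length = j := Nat.eq_of_beq_eq_true h
    rw [← h2]
    exact org_sound hσ ls i hi h1

theorem Upto.chk {B : ℕ} {hs : List ℕ} {i j : ℕ} (hi : Upto n σ t i) (hB : Fal (nP n) σ B)
    (h : chkE n B t hs i j = true) : Upto n σ t j := by
  unfold chkE at h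
  simp only [seq_eq] at h
  cases h1 : KSat.chk (nP n) (2 ^ nP n) B t hs i with
  | false => rw [h1] at h; exact Bool.noConfusion (show false = true from h)
  | true =>
    rw [h1] at h
    have h2 : i + hs.length = j := Nat.eq_of_beq_eq_true h
    rw [← h2]
    exact chk_sound hB hs i hi h1

theorem Upto.units {m B : ℕ} {js : List ℕ} (hi : Upto n σ t m) (h : unitE n t m js B = true) :
    Fal (nP n) σ B := by
  unfold unitE at h
  cases h1 : KSat.units t m js with
  | false => rw [h1] at h; exact Bool.noConfusion (show false = true from h)
  | true =>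
    rw [h1] at h
    have h2 : base (nP n) (2 ^ nP n) t js = B := Nat.eq_of_beq_eq_true h
    rw [← h2]
    exact base_sound hi js h1

theorem fal_zero : Fal (nP n) σ 0 := by
  intro l hl
  rw [Nat.zero_testBit] at hl
  exact Bool.noConfusion hl

/-- the end: an empty clause has been derived -/
theorem Upto.false {i j : ℕ} (hi : Upto n σ t i) (hj : Nat.blt j i = true)
    (h : Nat.beq (t.cl j) 0 = true) : False := by
  rw [Nat.blt_eq] at hj
  have h1 := hi j hj
  rw [Nat.eq_of_beq_eq_true h] at h1
  exact not_sat_zero h1

end KSat
end PHP
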