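import Mathlib
import Pool.Agent.PHP.KDefs

/-!
# The clauses of the certificate hold, second part (problem MP_1180db_co, k = 3)

`ok_K`: every letter is in a cell with exactly three letters. `ok_M`: a cell misses no triple. `ok_Q`: no covering triple
has two further lines through its triangle.
-/

namespace PHP

open Finset

namespace KSat

variable {ι : Type} {W : World ι} {n : ℕ} {e : ℕ → ι}

theorem kb_ds {l : List ℕ} : ds n l = true ↔ (∀ a ∈ l, a < n) ∧ l.Nodup := by
  unfold ds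
  rw [Bool.and_eq_true, List.all_eq_true, decide_eq_true_iff]
  simp only [Nat.blt_eq]

theorem kb_bset_lt {l : List ℕ} (h : ∀ a ∈ l, a < n) : bset l < 2 ^ n := by
  refine Nat.lt_pow_two_of_testBit _ fun i hi => ?_
  by_contra h1
  have h2 : (bset l).testBit i = true := by simpa using h1
  rw [testBit_bset] at h2
  have := h i h2
  omega

theorem kb_beq {a b : ℕ} (h : a ≠ b) : (!(Nat.beq a b)) = true := by
  cases h1 : Nat.beq a b
  · rfl
  · exact absurd (Nat.eq_of_beq_eq_true h1) h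

theorem ok_K (h : W.Fr n e) {v : ℕ} (hv : v < n) :
    ∃ l ∈ gK n v, lit (nP n) (sig W n e) l = true := by
  classical
  obtain ⟨X, hX, hXv, hc⟩ := h.crit v hv
  set S := (range n).filter (fun i => X (e i) = true) with hS
  have hm : ∀ i, i ∈ S ↔ i < n ∧ X (e i) = true := fun i => by
    rw [hS, mem_filter, mem_range]
  have hvS : v ∈ S := (hm v).2 ⟨hv, hXv⟩
  have h1 : (S.erase v).card = 2 := by
    rw [card_erase_of_mem hvS, hc]
  obtain ⟨x, y, hxy, hSxy⟩ := card_eq_two.1 h1
  have h2 : ∀ i, i ∈ S ↔ i = v ∨ i = x ∨ i = y := by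
    intro i
    have h3 : i ∈ S.erase v ↔ i = x ∨ i = y := by
      rw [hSxy, mem_insert, mem_singleton]
    rw [mem_erase] at h3
    by_cases hi : i = v
    · rw [hi]
      exact ⟨fun _ => Or.inl rfl, fun _ => hvS⟩
    · constructor
      · intro h4
        exact Or.inr (h3.1 ⟨hi, h4⟩)
      · rintro (h4 | h4)
        · exact absurd h4 hi
        · exact (h3.2 h4).2
  have hx : x ∈ S.erase v := by
    rw [hSxy]
    simp
  have hy : y ∈ S.erase v := by
    rw [hSxy]
    simp
  rw [mem_erase] at hx hy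
  have hxn := ((hm x).1 hx.2).1
  have hyn := ((hm y).1 hy.2).1
  have main : ∀ a b : ℕ, a < n → b < n → b < a → a ≠ v → b ≠ v →
      (∀ i, i ∈ S ↔ i = v ∨ i = a ∨ i = b) →
      ∃ l ∈ gK n v, lit (nP n) (sig W n e) l = true := by
    intro a b ha hb hba hav hbv hSab
    refine ⟨cv n (bset [v, a, b]), ?_, ?_⟩
    · unfold gK
      rw [List.mem_flatMap]
      refine ⟨a, List.mem_range.2 ha, ?_⟩
      rw [List.mem_map]
      refine ⟨b, ?_, rfl⟩
      rw [List.mem_filter, List.mem_range, kb_beq hav, kb_beq hbv]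
      exact ⟨hba, rfl⟩
    · rw [lit_pos (cv_lt (kb_bset_lt (by
        intro i hi
        simp only [List.mem_cons, List.not_mem_nil, or_false] at hi
        omega))), sig_cv, decide_eq_true_iff]
      refine ⟨X, hX, fun i hi => ?_⟩
      have h3 : (bset [v, a, b]).testBit i = true ↔ X (e i) = true := by
        rw [testBit_bset]
        simp only [List.mem_cons, List.not_mem_nil, or_false]
        rw [← hSab, hm]
        exact ⟨fun h4 => h4.2, fun h4 => ⟨hi, h4⟩⟩
      cases h4 : X (e i)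
      · cases h5 : (bset [v, a, b]).testBit i
        · rfl
        · rw [h3.1 h5] at h4
          exact absurd h4 (by simp)
      · rw [h3.2 h4]
  rcases lt_or_gt_of_ne hxy with h3 | h3
  · exact main y x hyn hxn h3 hy.1 hx.1 (fun i => by rw [h2]; tauto)
  · exact main x y hxn hyn h3 hx.1 hy.1 h2

theorem ok_M (h : W.Fr n e) {z i j k : ℕ} (hv : ds n [i, j, k] = true) (hz : z < 2 ^ n) :
    ∃ l ∈ gM n z i j k, lit (nP n) (sig W n e) l = true := by
  classical
  rw [kb_ds] at hv
  obtain ⟨h1, h2⟩ := hv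
  simp only [List.mem_cons, List.not_mem_nil, or_false, forall_eq_or_imp, forall_eq] at h1
  obtain ⟨hi, hj, hk⟩ := h1
  simp only [List.nodup_cons, List.mem_cons, List.not_mem_nil, or_false, not_or,
    List.nodup_nil, and_true, not_false_eq_true] at h2
  obtain ⟨⟨hij, hik⟩, hjk⟩ := h2
  unfold gM
  by_cases hc : ∃ X ∈ W.T, ∀ i < n, X (e i) = z.testBit i
  · obtain ⟨X, hX, hXz⟩ := hc
    have h3 := W.miss (i := e i) (j := e j) (k := e k) (fun h4 => hij (h.inj i j hi hj h4))
      (fun h4 => hjk (h.inj j k hj hk h4)) (fun h4 => hik (h.inj i k hi hk h4)) X hX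
    rw [hXz i hi, hXz j hj, hXz k hk] at h3
    by_cases g1 : W.vt (e j) (e k) (e i) = z.testBit i
    · refine ⟨sl n (z.testBit i) (vv n j k i), by simp, ?_⟩
      rw [lit_svv _ hj hk hi, g1]
      simp
    by_cases g2 : W.vt (e i) (e k) (e j) = z.testBit j
    · refine ⟨sl n (z.testBit j) (vv n i k j), by simp, ?_⟩
      rw [lit_svv _ hi hk hj, g2]
      simp
    by_cases g3 : W.vt (e i) (e j) (e k) = z.testBit k
    · refine ⟨sl n (z.testBit k) (vv n i j k), by simp, ?_⟩
      rw [lit_svv _ hi hj hk, g3]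
      simp
    exfalso
    have key : ∀ a b : Bool, a ≠ b → b = !a := by decide
    exact h3 ⟨key _ _ g1, key _ _ g2, key _ _ g3⟩
  · refine ⟨ng n (cv n z), by simp, ?_⟩
    rw [lit_ng (cv_lt hz), sig_cv, decide_eq_false hc]
    rfl

theorem ok_Q (h : W.Fr n e) (hQ : W.HQ) {a b c f g : ℕ} (hv : ds n [a, b, c, f, g] = true) :
    ∃ l ∈ gQ n a b c f g, lit (nP n) (sig W n e) l = true := by
  rw [kb_ds] at hv
  obtain ⟨h1, h2⟩ := hv
  simp only [List.mem_cons, List.not_mem_nil, or_false, forall_eq_or_imp, forall_eq] at h1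
  obtain ⟨ha, hb, hc, hf, hg⟩ := h1
  simp only [List.nodup_cons, List.mem_cons, List.not_mem_nil, or_false, not_or,
    List.nodup_nil, and_true, not_false_eq_true] at h2
  obtain ⟨⟨k1, k2, k3, k4⟩, ⟨k5, k6, k7⟩, ⟨k8, k9⟩, k10⟩ := h2
  have hne : ∀ {i j : ℕ}, i < n → j < n → i ≠ j → e i ≠ e j := fun hi hj hij h4 =>
    hij (h.inj _ _ hi hj h4)
  by_contra hcon
  push Not at hcon
  unfold gQ at hcon
  simp only [List.mem_cons, List.not_mem_nil, or_false, forall_eq_or_imp, forall_eq] at hcon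
  obtain ⟨e1, e2, e3, e4, e5, e6, e7, e8, e9⟩ := hcon
  rw [lit_nvv ha hb hc] at e1
  rw [lit_nvv hb hc ha] at e2
  rw [lit_nvv ha hc hb] at e3
  rw [lit_nvv ha hb hf] at e4
  rw [lit_nvv hb hc hf] at e5
  rw [lit_nvv ha hc hf] at e6
  rw [lit_nvv ha hb hg] at e7
  rw [lit_nvv hb hc hg] at e8
  rw [lit_nvv ha hc hg] at e9
  have key : ∀ x : Bool, (!x) ≠ true → x = true := by decide
  exact hQ (e a) (e b) (e c) (e f) (e g)
    ⟨hne ha hb k1, hne hb hc k5, hne ha hc k2, key _ e1, key _ e2, key _ e3⟩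
    (hne hf hg k10) (hne hf ha (Ne.symm k3)) (hne hf hb (Ne.symm k6)) (hne hf hc (Ne.symm k8))
    (hne hg ha (Ne.symm k4)) (hne hg hb (Ne.symm k7)) (hne hg hc (Ne.symm k9))
    ⟨key _ e4, key _ e5, key _ e6, key _ e7, key _ e8, key _ e9⟩

end KSat

end PHP
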