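import Mathlib
import Pool.Agent.PHP.KindB

/-!
# The clauses of the certificate hold, first part (problem MP_1180db_co, k = 3)

`ok_N`: two disjoint covering triples have a cell with five or six members inside their union. `ok_D`: the cell at a
crossing that misses both lines has at least three members.
-/

namespace PHP

open Finset

namespace KSat

variable {ι : Type} {W : World ι} {n : ℕ} {e : ℕ → ι}

theorem ka_cell {X : ι → Bool} (hX : X ∈ W.T) {L : List ℕ} (hL : ∀ i ∈ L, i < n)
    (hm : ∀ i < n, (X (e i) = true ↔ i ∈ L)) :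
    lit (nP n) (sig W n e) (cv n (bset L)) = true := by
  classical
  rw [lit_pos (cv_lt (kb_bset_lt hL)), sig_cv, decide_eq_true_iff]
  refine ⟨X, hX, fun i hi => ?_⟩
  have h3 : (bset L).testBit i = true ↔ X (e i) = true := by
    rw [testBit_bset, hm i hi]
  cases h4 : X (e i)
  · cases h5 : (bset L).testBit i
    · rfl
    · rw [h3.1 h5] at h4
      exact absurd h4 (by simp)
  · rw [h3.2 h4]

/-- all but one of the letters of a list -/
theorem ka_erase {X : ι → Bool} (hX : X ∈ W.T) {L L' : List ℕ} {u : ℕ} (hL : ∀ i ∈ L, i < n)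
    (hm : ∀ i < n, X (e i) = true → i ∈ L) (hu : X (e u) = false)
    (hother : ∀ i ∈ L, i ≠ u → X (e i) = true) (hL' : ∀ i, i ∈ L' ↔ i ∈ L ∧ i ≠ u) :
    lit (nP n) (sig W n e) (cv n (bset L')) = true := by
  refine ka_cell hX (fun i hi => hL i ((hL' i).1 hi).1) (fun i hi => ?_)
  rw [hL']
  constructor
  · intro h1
    refine ⟨hm i hi h1, ?_⟩
    rintro rfl
    rw [hu] at h1
    exact absurd h1 (by simp)
  · rintro ⟨h1, h2⟩
    exact hother i h1 h2

theorem ok_N [Fintype ι] [DecidableEq ι] (h : W.Fr n e) (hND : W.HND) {a b c a' b' c' : ℕ}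
    (hv : ds n [a, b, c, a', b', c'] = true) :
    ∃ l ∈ gN n a b c a' b' c', lit (nP n) (sig W n e) l = true := by
  classical
  rw [kb_ds] at hv
  obtain ⟨h1, h2⟩ := hv
  have hlt := h1
  simp only [List.mem_cons, List.not_mem_nil, or_false, forall_eq_or_imp, forall_eq] at h1
  obtain ⟨ha, hb, hc, ha', hb', hc'⟩ := h1
  have hnd := h2
  simp only [List.nodup_cons, List.mem_cons, List.not_mem_nil, or_false, not_or,
    List.nodup_nil, and_true, not_false_eq_true] at h2
  obtain ⟨⟨k1, k2, k3, k4, k5⟩, ⟨k6, k7, k8, k9⟩, ⟨k10, k11, k12⟩, ⟨k13, k14⟩, k15⟩ := h2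
  have hne : ∀ {i j : ℕ}, i < n → j < n → i ≠ j → e i ≠ e j := fun hi hj hij h4 =>
    hij (h.inj _ _ hi hj h4)
  by_contra hcon
  push Not at hcon
  unfold gN at hcon
  simp only [List.mem_cons, List.not_mem_nil, or_false, forall_eq_or_imp, forall_eq] at hcon
  obtain ⟨e1, e2, e3, e4, e5, e6, c0, c1, c2, c3, c4, c5, c6⟩ := hcon
  rw [lit_nvv ha hb hc] at e1
  rw [lit_nvv hb hc ha] at e2
  rw [lit_nvv ha hc hb] at e3
  rw [lit_nvv ha' hb' hc'] at e4
  rw [lit_nvv hb' hc' ha'] at e5
  rw [lit_nvv ha' hc' hb'] at e6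
  have key : ∀ x : Bool, (!x) ≠ true → x = true := by decide
  obtain ⟨X, hX, h5, hin⟩ := hND (e a) (e b) (e c) (e a') (e b') (e c')
    ⟨hne ha hb k1, hne hb hc k6, hne ha hc k2, key _ e1, key _ e2, key _ e3⟩
    ⟨hne ha' hb' k13, hne hb' hc' k15, hne ha' hc' k14, key _ e4, key _ e5, key _ e6⟩
    (hne ha' ha (Ne.symm k3)) (hne ha' hb (Ne.symm k7)) (hne ha' hc (Ne.symm k10))
    (hne hb' ha (Ne.symm k4)) (hne hb' hb (Ne.symm k8)) (hne hb' hc (Ne.symm k11))
    (hne hc' ha (Ne.symm k5)) (hne hc' hb (Ne.symm k9)) (hne hc' hc (Ne.symm k12))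
  set L : List ℕ := [a, b, c, a', b', c'] with hL
  have hm : ∀ i < n, X (e i) = true → i ∈ L := by
    intro i hi hXi
    rcases hin (e i) hXi with h6 | h6 | h6 | h6 | h6 | h6
    · rw [h.inj _ _ hi ha h6, hL]; simp
    · rw [h.inj _ _ hi hb h6, hL]; simp
    · rw [h.inj _ _ hi hc h6, hL]; simp
    · rw [h.inj _ _ hi ha' h6, hL]; simp
    · rw [h.inj _ _ hi hb' h6, hL]; simp
    · rw [h.inj _ _ hi hc' h6, hL]; simp
  -- at least five of the six letters are in the cell
  have hcard : 5 ≤ (L.toFinset.filter (fun i => X (e i) = true)).card := by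
    refine h5.trans ?_
    have hsub : univ.filter (fun i => X i = true) ⊆
        (L.toFinset.filter (fun i => X (e i) = true)).image e := by
      intro i hi
      rw [mem_filter] at hi
      rw [mem_image]
      have h7 := hin i hi.2
      rcases h7 with h6 | h6 | h6 | h6 | h6 | h6
      · exact ⟨a, by rw [mem_filter, List.mem_toFinset, ← h6]; exact ⟨by simp [hL], hi.2⟩, h6.symm⟩
      · exact ⟨b, by rw [mem_filter, List.mem_toFinset, ← h6]; exact ⟨by simp [hL], hi.2⟩, h6.symm⟩
      · exact ⟨c, by rw [mem_filter, List.mem_toFinset, ← h6]; exact ⟨by simp [hL], hi.2⟩, h6.symm⟩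
      · exact ⟨a', by rw [mem_filter, List.mem_toFinset, ← h6]; exact ⟨by simp [hL], hi.2⟩, h6.symm⟩
      · exact ⟨b', by rw [mem_filter, List.mem_toFinset, ← h6]; exact ⟨by simp [hL], hi.2⟩, h6.symm⟩
      · exact ⟨c', by rw [mem_filter, List.mem_toFinset, ← h6]; exact ⟨by simp [hL], hi.2⟩, h6.symm⟩
    exact (card_le_card hsub).trans card_image_le
  have hL6 : L.toFinset.card = 6 := by
    rw [List.toFinset_card_of_nodup hnd]
    rfl
  have hpair : ∀ i ∈ L, ∀ j ∈ L, i ≠ j → X (e i) = false → X (e j) = true := by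
    intro i hi j hj hij hXi
    by_contra hXj
    have hXj' : X (e j) = false := by simpa using hXj
    have hsub : L.toFinset.filter (fun i => X (e i) = true) ⊆ (L.toFinset.erase i).erase j := by
      intro u hu
      rw [mem_filter] at hu
      rw [mem_erase, mem_erase]
      refine ⟨?_, ?_, hu.1⟩
      · rintro rfl
        rw [hXj'] at hu
        exact absurd hu.2 (by simp)
      · rintro rfl
        rw [hXi] at hu
        exact absurd hu.2 (by simp)
    have h8 := card_le_card hsub
    rw [card_erase_of_mem (by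
      rw [mem_erase]
      exact ⟨Ne.symm hij, List.mem_toFinset.2 hj⟩),
      card_erase_of_mem (List.mem_toFinset.2 hi), hL6] at h8
    omega
  have hall : ∀ u ∈ L, X (e u) = true := by
    intro u hu
    by_contra hXu
    have hXu' : X (e u) = false := by simpa using hXu
    have hoth : ∀ i ∈ L, i ≠ u → X (e i) = true := fun i hi hiu =>
      hpair u hu i hi (Ne.symm hiu) hXu'
    have go : ∀ L' : List ℕ, (∀ i, i ∈ L' ↔ i ∈ L ∧ i ≠ u) →
        lit (nP n) (sig W n e) (cv n (bset L')) = true := fun L' hL' =>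
      ka_erase hX hlt hm hXu' hoth hL'
    have hu' := hu
    simp only [hL, List.mem_cons, List.not_mem_nil, or_false] at hu'
    have hmem : ∀ i, i ∈ L ↔ i = a ∨ i = b ∨ i = c ∨ i = a' ∨ i = b' ∨ i = c' := by
      intro i
      rw [hL]
      simp only [List.mem_cons, List.not_mem_nil, or_false]
    have hfive : ∀ x1 x2 x3 x4 x5 i : ℕ, i ∈ [x1, x2, x3, x4, x5] ↔
        i = x1 ∨ i = x2 ∨ i = x3 ∨ i = x4 ∨ i = x5 := by
      intro x1 x2 x3 x4 x5 i
      simp only [List.mem_cons, List.not_mem_nil, or_false]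
    rcases hu' with h9 | h9 | h9 | h9 | h9 | h9 <;> rw [h9] at go
    · refine c1 (go _ fun i => ?_)
      rw [hmem, hfive]
      clear * - k1 k2 k3 k4 k5
      omega
    · refine c2 (go _ fun i => ?_)
      rw [hmem, hfive]
      clear * - k1 k6 k7 k8 k9
      omega
    · refine c3 (go _ fun i => ?_)
      rw [hmem, hfive]
      clear * - k2 k6 k10 k11 k12
      omega
    · refine c4 (go _ fun i => ?_)
      rw [hmem, hfive]
      clear * - k3 k7 k10 k13 k14
      omega
    · refine c5 (go _ fun i => ?_)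
      rw [hmem, hfive]
      clear * - k4 k8 k11 k13 k15
      omega
    · refine c6 (go _ fun i => ?_)
      rw [hmem, hfive]
      clear * - k5 k9 k12 k14 k15
      omega
  have hfin : lit (nP n) (sig W n e) (cv n (bset L)) = true :=
    ka_cell hX hlt (fun i hi => ⟨hm i hi, fun h6 => hall i h6⟩)
  exact c0 hfin

theorem ok_D (h : W.Fr n e) {p q o1 o2 : ℕ} (hv : ds n [p, q] = true) :
    ∃ l ∈ gD n p q o1 o2, lit (nP n) (sig W n e) l = true := by
  classical
  rw [kb_ds] at hv
  obtain ⟨h1, h2⟩ := hv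
  simp only [List.mem_cons, List.not_mem_nil, or_false, forall_eq_or_imp, forall_eq] at h1
  obtain ⟨hp, hq⟩ := h1
  simp only [List.nodup_cons, List.mem_cons, List.not_mem_nil, or_false,
    List.nodup_nil, and_true, not_false_eq_true] at h2
  have hpq : e p ≠ e q := fun h3 => h2 (h.inj _ _ hp hq h3)
  set X : ι → Bool := fun k => if k = e p ∨ k = e q then false else W.vt (e p) (e q) k with hXd
  have hX : X ∈ W.T := by
    refine W.vertex hpq X (fun k h3 h4 => ?_)
    rw [hXd]
    simp [h3, h4]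
  have hd := h.dep X hX
  set S := (range n).filter (fun i => X (e i) = true) with hS
  have h3 : 0 < ((S.erase o1).erase o2).card := by
    have g1 := pred_card_le_card_erase (s := S) (a := o1)
    have g2 := pred_card_le_card_erase (s := S.erase o1) (a := o2)
    omega
  obtain ⟨k, hk⟩ := card_pos.1 h3
  rw [mem_erase, mem_erase, hS, mem_filter, mem_range] at hk
  obtain ⟨hk2, hk1, hkn, hkX⟩ := hk
  have hkp : k ≠ p := by
    rintro rfl
    rw [hXd] at hkX
    simp at hkX
  have hkq : k ≠ q := by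
    rintro rfl
    rw [hXd] at hkX
    simp at hkX
  have hkv : W.vt (e p) (e q) (e k) = true := by
    have g1 : e k ≠ e p := fun h4 => hkp (h.inj _ _ hkn hp h4)
    have g2 : e k ≠ e q := fun h4 => hkq (h.inj _ _ hkn hq h4)
    rw [hXd] at hkX
    simpa [g1, g2] using hkX
  refine ⟨vv n p q k, ?_, ?_⟩
  · unfold gD
    rw [List.mem_map]
    refine ⟨k, ?_, rfl⟩
    rw [List.mem_filter, List.mem_range, kb_beq hkp, kb_beq hkq, kb_beq hk1, kb_beq hk2]
    exact ⟨hkn, rfl⟩
  · rw [lit_vv hp hq hkn, hkv]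

end KSat

end PHP
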