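import Mathlib
import Pool.Agent.PHP.KDefs

/-!
# The clauses of the certificate hold: signs on a line, corners, the covering triple (problem MP_1180db_co)
-/

set_option linter.unusedVariables false

namespace PHP
namespace KSat

open Finset

theorem ds_mem {n : ℕ} {l : List ℕ} (h : ds n l = true) : (∀ a ∈ l, a < n) ∧ l.Nodup := by
  unfold ds at h
  rw [Bool.and_eq_true, List.all_eq_true, decide_eq_true_eq] at h
  exact ⟨fun a ha => by
    have := h.1 a ha
    rwa [Nat.blt_eq] at this, h.2⟩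

theorem prs_ok : ∀ o1 o2 o3 tx ty tz : Bool, ¬ (o1 = true ∧ o3 = true ∧ o2 = false) →
    ¬ (o1 = false ∧ o3 = false ∧ o2 = true) → ∀ t : Fin 20, ∃ q ∈ prs.getD t.val [], q.1 < 6 ∧
      [(ty == o1), (tx == !o1), (tz == o2), (tx == !o2), (tz == o3), (ty == !o3)].getD q.1 false =
        !q.2 := by
  decide

theorem sg_eq {t : Bool} {p q : ℤ} : sg t p q = (t == decide (p < q)) := by
  unfold sg
  by_cases h : p < q
  · rw [if_pos h, decide_eq_true h]; cases t <;> rfl
  · rw [if_neg h, decide_eq_false h]; cases t <;> rfl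

theorem sg_eq' {t : Bool} {p q : ℤ} (hne : p ≠ q) : sg t q p = (t == !(decide (p < q))) := by
  unfold sg
  by_cases h : p < q
  · rw [if_neg (by omega), decide_eq_true h]; cases t <;> rfl
  · rw [if_pos (by omega), decide_eq_false h]; cases t <;> rfl

variable {ι : Type} {W : World ι} {n : ℕ} {e : ℕ → ι}

theorem Fr_ne (h : W.Fr n e) {i j : ℕ} (hi : i < n) (hj : j < n) (hij : i ≠ j) : e i ≠ e j :=
  fun heq => hij (h.inj i j hi hj heq)

theorem ok_L (h : W.Fr n e) {s x y z t : ℕ} (hv : ds n [s, x, y, z] = true) (ht : t < 20) :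
    ∃ l ∈ gL n s x y z t, lit (nP n) (sig W n e) l = true := by
  obtain ⟨hm, hd⟩ := ds_mem hv
  have hs : s < n := hm s (by simp)
  have hx : x < n := hm x (by simp)
  have hy : y < n := hm y (by simp)
  have hz : z < n := hm z (by simp)
  simp only [List.nodup_cons, List.mem_cons, List.not_mem_nil, or_false, not_or, not_false_eq_true,
    List.nodup_nil, and_true] at hd
  obtain ⟨⟨sx, sy, sz⟩, ⟨xy, xz⟩, yz⟩ := hd
  obtain ⟨⟨p1, p2, p3⟩, v1, v2, v3, v4, v5, v6⟩ := W.line3 (s := e s) (x := e x) (y := e y)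
    (z := e z) (Fr_ne h hx hs (Ne.symm sx)) (Fr_ne h hy hs (Ne.symm sy))
    (Fr_ne h hz hs (Ne.symm sz)) (Fr_ne h hx hy xy) (Fr_ne h hx hz xz) (Fr_ne h hy hz yz)
  obtain ⟨q, hq, hq6, hqv⟩ := prs_ok (decide (W.pos (e s) (e x) < W.pos (e s) (e y)))
    (decide (W.pos (e s) (e x) < W.pos (e s) (e z)))
    (decide (W.pos (e s) (e y) < W.pos (e s) (e z))) (W.ty (e s) (e x)) (W.ty (e s) (e y))
    (W.ty (e s) (e z)) (by
      rw [decide_eq_true_eq, decide_eq_true_eq, decide_eq_false_iff_not]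
      omega) (by
      rw [decide_eq_false_iff_not, decide_eq_false_iff_not, decide_eq_true_eq]
      omega) ⟨t, ht⟩
  rw [← sg_eq, ← sg_eq, ← sg_eq, ← sg_eq' p1, ← sg_eq' p2, ← sg_eq' p3, ← v1, ← v2, ← v3, ← v4,
    ← v5, ← v6] at hqv
  refine ⟨sl n (!q.2) ([vv n s x y, vv n s y x, vv n s x z, vv n s z x, vv n s y z,
    vv n s z y].getD q.1 0), ?_, ?_⟩
  · unfold gL
    rw [List.mem_map]
    exact ⟨q, hq, rfl⟩
  · obtain ⟨q1, q2⟩ := q
    simp only at hq6 hqv ⊢
    interval_cases q1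
    all_goals
      simp only [List.getD_cons_zero, List.getD_cons_succ] at hqv ⊢
      rw [lit_svv _ (by assumption) (by assumption) (by assumption), hqv]
      cases q2 <;> rfl

theorem ok_X (h : W.Fr n e) {x t : ℕ} (hx2 : 2 < x) (hx : x < n) (ht : t < 3) :
    ∃ l ∈ gX n x t, lit (nP n) (sig W n e) l = true := by
  have h3 := h.three
  obtain ⟨c1, c2, c3⟩ := h.corner x (by omega) hx
  have e1 : ∀ b, lit (nP n) (sig W n e) (sl n b (vv n 1 2 x)) = (W.vt (e 1) (e 2) (e x) == b) :=
    fun b => lit_svv b (by omega) (by omega) hx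
  have e2 : ∀ b, lit (nP n) (sig W n e) (sl n b (vv n 0 2 x)) = (W.vt (e 0) (e 2) (e x) == b) :=
    fun b => lit_svv b (by omega) (by omega) hx
  have e3 : ∀ b, lit (nP n) (sig W n e) (sl n b (vv n 0 1 x)) = (W.vt (e 0) (e 1) (e x) == b) :=
    fun b => lit_svv b (by omega) (by omega) hx
  have key : ∀ u v w : Bool, ¬ (w = true ∧ u = false ∧ v = false) →
      ¬ (w = false ∧ u = true ∧ v = false) → ¬ (w = false ∧ u = false ∧ v = true) → ∀ t : Fin 3,
      ((u == !(Nat.beq t.val 0)) || (v == !(Nat.beq t.val 1)) || (w == !(Nat.beq t.val 2))) =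
        true := by
    decide
  have h4 := key _ _ _ c1 c2 c3 ⟨t, ht⟩
  simp only [Bool.or_eq_true] at h4
  unfold gX
  rcases h4 with (h4 | h4) | h4
  · exact ⟨_, List.mem_cons_self, by rw [e1]; exact h4⟩
  · exact ⟨_, List.mem_cons_of_mem _ List.mem_cons_self, by rw [e2]; exact h4⟩
  · exact ⟨_, List.mem_cons_of_mem _ (List.mem_cons_of_mem _ List.mem_cons_self), by
      rw [e3]; exact h4⟩

theorem ok_T (h : W.Fr n e) {t : ℕ} (ht : t < 3) :
    ∃ l ∈ gT n t, lit (nP n) (sig W n e) l = true := by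
  have h3 := h.three
  obtain ⟨-, -, -, c1, c2, c3⟩ := h.cov
  unfold gT
  refine ⟨_, List.mem_singleton_self _, ?_⟩
  interval_cases t
  · simp only [List.getD_cons_zero]
    rw [lit_vv (by omega) (by omega) (by omega)]
    exact c1
  · simp only [List.getD_cons_zero, List.getD_cons_succ]
    rw [lit_vv (by omega) (by omega) (by omega)]
    exact c2
  · simp only [List.getD_cons_zero, List.getD_cons_succ]
    rw [lit_vv (by omega) (by omega) (by omega)]
    exact c3

end KSat
end PHP
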