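import Mathlib
import Pool.Agent.PHP.KindC

/-!
# The clauses of the certificate hold: types and order on the first line (problem MP_1180db_co)
-/

set_option linter.unusedVariables false

namespace PHP
namespace KSat

open Finset

variable {ι : Type} {W : World ι} {n : ℕ} {e : ℕ → ι}

theorem lit_tv {x : ℕ} (hx : x < n) :
    lit (nP n) (sig W n e) (tv n x) = W.ty (e 0) (e x) := by
  rw [lit_pos (tv_lt hx), sig_tv hx]

theorem lit_ntv {x : ℕ} (hx : x < n) :
    lit (nP n) (sig W n e) (ng n (tv n x)) = !(W.ty (e 0) (e x)) := by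
  rw [lit_ng (tv_lt hx), sig_tv hx]

theorem ok_t (h : W.Fr n e) {x t : ℕ} (hx2 : 2 < x) (hx : x < n) (ht : t < 8) :
    ∃ l ∈ gt n x t, lit (nP n) (sig W n e) l = true := by
  have h3 := h.three
  have n1 : e 1 ≠ e 0 := Fr_ne h (by omega) (by omega) (by omega)
  have n2 : e 2 ≠ e 0 := Fr_ne h (by omega) (by omega) (by omega)
  have n3 : e x ≠ e 0 := Fr_ne h hx (by omega) (by omega)
  have n4 : e 1 ≠ e x := Fr_ne h (by omega) hx (by omega)
  have n5 : e 2 ≠ e x := Fr_ne h (by omega) hx (by omega)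
  have p1 := W.pos_ne n1 n3 n4
  have p2 := W.pos_ne n2 n3 n5
  obtain ⟨o1, a1, a2⟩ : ∃ o1 : Bool, W.vt (e 0) (e 1) (e x) = (W.ty (e 0) (e x) == o1) ∧
      W.vt (e 0) (e x) (e 1) = (true == !o1) :=
    ⟨_, by rw [W.vt_eq n1 n3 n4, sg_eq], by rw [W.vt_eq n3 n1 n4.symm, sg_eq' p1, h.ty1]⟩
  obtain ⟨o2, a3, a4⟩ : ∃ o2 : Bool, W.vt (e 0) (e 2) (e x) = (W.ty (e 0) (e x) == o2) ∧
      W.vt (e 0) (e x) (e 2) = (false == !o2) :=
    ⟨_, by rw [W.vt_eq n2 n3 n5, sg_eq], by rw [W.vt_eq n3 n2 n5.symm, sg_eq' p2, h.ty2]⟩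
  have t1 : lit (nP n) (sig W n e) (tv n x) = W.ty (e 0) (e x) := lit_tv hx
  have t2 : lit (nP n) (sig W n e) (ng n (tv n x)) = !(W.ty (e 0) (e x)) := lit_ntv hx
  have b1 : lit (nP n) (sig W n e) (vv n 0 1 x) = W.vt (e 0) (e 1) (e x) :=
    lit_vv (by omega) (by omega) hx
  have b2 : lit (nP n) (sig W n e) (ng n (vv n 0 1 x)) = !(W.vt (e 0) (e 1) (e x)) :=
    lit_nvv (by omega) (by omega) hx
  have b3 : lit (nP n) (sig W n e) (vv n 0 x 1) = W.vt (e 0) (e x) (e 1) :=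
    lit_vv (by omega) hx (by omega)
  have b4 : lit (nP n) (sig W n e) (ng n (vv n 0 x 1)) = !(W.vt (e 0) (e x) (e 1)) :=
    lit_nvv (by omega) hx (by omega)
  have b5 : lit (nP n) (sig W n e) (vv n 0 2 x) = W.vt (e 0) (e 2) (e x) :=
    lit_vv (by omega) (by omega) hx
  have b6 : lit (nP n) (sig W n e) (ng n (vv n 0 2 x)) = !(W.vt (e 0) (e 2) (e x)) :=
    lit_nvv (by omega) (by omega) hx
  have b7 : lit (nP n) (sig W n e) (vv n 0 x 2) = W.vt (e 0) (e x) (e 2) :=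
    lit_vv (by omega) hx (by omega)
  have b8 : lit (nP n) (sig W n e) (ng n (vv n 0 x 2)) = !(W.vt (e 0) (e x) (e 2)) :=
    lit_nvv (by omega) hx (by omega)
  unfold gt
  interval_cases t <;>
    simp only [List.getD_cons_zero, List.getD_cons_succ, List.mem_cons, List.not_mem_nil, or_false,
      exists_eq_or_imp, exists_eq_left, t1, t2, b1, b2, b3, b4, b5, b6, b7, b8, a1, a2, a3, a4] <;>
    cases W.ty (e 0) (e x) <;> cases o1 <;> cases o2 <;> simp

theorem ok_s (h : W.Fr n e) {x y t : ℕ} (hx2 : 2 < x) (hxy : x < y) (hy : y < n) (ht : t < 4) :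
    ∃ l ∈ gs n x y t, lit (nP n) (sig W n e) l = true := by
  have n1 : e x ≠ e 0 := Fr_ne h (by omega) (by omega) (by omega)
  have n2 : e y ≠ e 0 := Fr_ne h (by omega) (by omega) (by omega)
  have n3 : e x ≠ e y := Fr_ne h (by omega) hy (by omega)
  have p := h.sorted x y (by omega) hxy hy
  have a1 := W.vt_eq n1 n2 n3
  have a2 := W.vt_eq n2 n1 n3.symm
  unfold sg at a1 a2
  rw [if_pos p] at a1
  rw [if_neg (by omega)] at a2
  have t1 : lit (nP n) (sig W n e) (tv n x) = W.ty (e 0) (e x) := lit_tv (by omega)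
  have t2 : lit (nP n) (sig W n e) (ng n (tv n x)) = !(W.ty (e 0) (e x)) := lit_ntv (by omega)
  have t3 : lit (nP n) (sig W n e) (tv n y) = W.ty (e 0) (e y) := lit_tv hy
  have t4 : lit (nP n) (sig W n e) (ng n (tv n y)) = !(W.ty (e 0) (e y)) := lit_ntv hy
  have b1 : lit (nP n) (sig W n e) (vv n 0 x y) = W.vt (e 0) (e x) (e y) :=
    lit_vv (by omega) (by omega) hy
  have b2 : lit (nP n) (sig W n e) (ng n (vv n 0 x y)) = !(W.vt (e 0) (e x) (e y)) :=
    lit_nvv (by omega) (by omega) hy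
  have b3 : lit (nP n) (sig W n e) (vv n 0 y x) = W.vt (e 0) (e y) (e x) :=
    lit_vv (by omega) hy (by omega)
  have b4 : lit (nP n) (sig W n e) (ng n (vv n 0 y x)) = !(W.vt (e 0) (e y) (e x)) :=
    lit_nvv (by omega) hy (by omega)
  unfold gs
  interval_cases t <;>
    simp only [List.getD_cons_zero, List.getD_cons_succ, List.mem_cons, List.not_mem_nil, or_false,
      exists_eq_or_imp, exists_eq_left, t1, t2, t3, t4, b1, b2, b3, b4, a1, a2] <;>
    cases W.ty (e 0) (e x) <;> cases W.ty (e 0) (e y) <;> simp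

end KSat
end PHP
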