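import Mathlib
import Pool.Agent.PHP.KFin
import Pool.Agent.PHP.KindA
import Pool.Agent.PHP.KindB
import Pool.Agent.PHP.KindD

/-!
# All clauses of the certificate hold (problem MP_1180db_co)
-/

set_option linter.unusedVariables false

namespace PHP
namespace KSat

open Finset

variable {ι : Type} {W : World ι} {n : ℕ} {e : ℕ → ι}

theorem hol [Fintype ι] [DecidableEq ι] (h : W.Fr n e) (hQ : W.HQ) (hND : W.HND) :
    Hol n (sig W n e) := by
  intro d hd
  unfold valid at hd
  unfold genC
  generalize fd d 0 = c at hd ⊢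
  match c with
  | 0 =>
    simp only [Bool.and_eq_true, Nat.blt_eq] at hd
    exact ok_L h hd.1 hd.2
  | 1 =>
    simp only [Bool.and_eq_true, Nat.blt_eq] at hd
    exact ok_X h hd.1.1 hd.1.2 hd.2
  | 2 =>
    simp only [Nat.blt_eq] at hd
    exact ok_T h hd
  | 3 => exact ok_D h hd
  | 4 => exact ok_Q h hQ hd
  | 5 =>
    simp only [Nat.blt_eq] at hd
    exact ok_K h hd
  | 6 => exact ok_N h hND hd
  | 7 =>
    simp only [Bool.and_eq_true, Nat.blt_eq] at hd
    exact ok_M h hd.1 hd.2
  | 8 =>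
    simp only [Bool.and_eq_true, Nat.blt_eq] at hd
    exact ok_t h hd.1.1 hd.1.2 hd.2
  | 9 =>
    simp only [Bool.and_eq_true, Nat.blt_eq] at hd
    exact ok_s h hd.1.1.1 hd.1.1.2 hd.1.2 hd.2
  | (m + 10) => simp at hd

end KSat
end PHP
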