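import Mathlib

/-!
# The structures with ten elements (problem MP_1180db_co, k = 3)

`k` pairs of points of a set with `v` points (as bit masks), such that for any four of them at least three points are in
at least two of the four pairs. For `k = 5`, `v = 5` the pairs form a cycle or a triangle and a double edge, for `k = 6`,
`v = 4` they are all the six pairs.
-/

namespace PHP
namespace N10

/-- number of bits -/
def pc (x : ℕ) : ℕ := ((List.range 5).filter (fun s => x.testBit s)).length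

/-- the points in at least two of four sets -/
def two (a b c d : ℕ) : ℕ :=
  Nat.lor (Nat.land a b) (Nat.lor (Nat.land a c) (Nat.lor (Nat.land a d)
    (Nat.lor (Nat.land b c) (Nat.lor (Nat.land b d) (Nat.land c d)))))

def ok4 (a b c d : ℕ) : Bool := Nat.ble 3 (pc (two a b c d))

/-- the pairs of five points -/
def masks5 : List ℕ := [3, 5, 6, 9, 10, 12, 17, 18, 20, 24]

/-- the pairs of four points -/
def masks4 : List ℕ := [3, 5, 6, 9, 10, 12]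

def bit (s : ℕ) : ℕ := Nat.shiftLeft 1 s

/-- the pairs `M` have the structure `Z` with the orders `js` of the pairs and `ws` of the points -/
def chkZ (k v : ℕ) (M : List ℕ) (Z : List (ℕ × ℕ)) (js ws : List ℕ) : Bool :=
  Nat.beq js.length k && js.all (fun j => Nat.blt j k) && decide js.Nodup &&
  Nat.beq ws.length v && ws.all (fun w => Nat.blt w v) && decide ws.Nodup &&
  (List.range k).all (fun i => Nat.beq (M.getD (js.getD i 0) 0)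
    (Nat.lor (bit (ws.getD (Z.getD i (0, 0)).1 0)) (bit (ws.getD (Z.getD i (0, 0)).2 0))))

def zC5 : List (ℕ × ℕ) := [(4, 0), (0, 1), (1, 2), (2, 3), (3, 4)]
def zC23 : List (ℕ × ℕ) := [(0, 1), (0, 1), (2, 4), (2, 3), (3, 4)]
def zK4 : List (ℕ × ℕ) := [(0, 1), (0, 2), (0, 3), (1, 2), (1, 3), (2, 3)]

/-- small logarithm -/
def lg (x : ℕ) : ℕ := match x with
  | 1 => 0
  | 2 => 1
  | 4 => 2
  | 8 => 3
  | _ => 4

/-- all orders -/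
def perms : List (List ℕ) := [
    [0, 1, 2, 3, 4], [0, 1, 2, 4, 3], [0, 1, 3, 2, 4], [0, 1, 3, 4, 2], [0, 1, 4, 2, 3],
    [0, 1, 4, 3, 2], [0, 2, 1, 3, 4], [0, 2, 1, 4, 3], [0, 2, 3, 1, 4], [0, 2, 3, 4, 1],
    [0, 2, 4, 1, 3], [0, 2, 4, 3, 1], [0, 3, 1, 2, 4], [0, 3, 1, 4, 2], [0, 3, 2, 1, 4],
    [0, 3, 2, 4, 1], [0, 3, 4, 1, 2], [0, 3, 4, 2, 1], [0, 4, 1, 2, 3], [0, 4, 1, 3, 2],
    [0, 4, 2, 1, 3], [0, 4, 2, 3, 1], [0, 4, 3, 1, 2], [0, 4, 3, 2, 1], [1, 0, 2, 3, 4],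
    [1, 0, 2, 4, 3], [1, 0, 3, 2, 4], [1, 0, 3, 4, 2], [1, 0, 4, 2, 3], [1, 0, 4, 3, 2],
    [1, 2, 0, 3, 4], [1, 2, 0, 4, 3], [1, 2, 3, 0, 4], [1, 2, 3, 4, 0], [1, 2, 4, 0, 3],
    [1, 2, 4, 3, 0], [1, 3, 0, 2, 4], [1, 3, 0, 4, 2], [1, 3, 2, 0, 4], [1, 3, 2, 4, 0],
    [1, 3, 4, 0, 2], [1, 3, 4, 2, 0], [1, 4, 0, 2, 3], [1, 4, 0, 3, 2], [1, 4, 2, 0, 3],
    [1, 4, 2, 3, 0], [1, 4, 3, 0, 2], [1, 4, 3, 2, 0], [2, 0, 1, 3, 4], [2, 0, 1, 4, 3],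
    [2, 0, 3, 1, 4], [2, 0, 3, 4, 1], [2, 0, 4, 1, 3], [2, 0, 4, 3, 1], [2, 1, 0, 3, 4],
    [2, 1, 0, 4, 3], [2, 1, 3, 0, 4], [2, 1, 3, 4, 0], [2, 1, 4, 0, 3], [2, 1, 4, 3, 0],
    [2, 3, 0, 1, 4], [2, 3, 0, 4, 1], [2, 3, 1, 0, 4], [2, 3, 1, 4, 0], [2, 3, 4, 0, 1],
    [2, 3, 4, 1, 0], [2, 4, 0, 1, 3], [2, 4, 0, 3, 1], [2, 4, 1, 0, 3], [2, 4, 1, 3, 0],
    [2, 4, 3, 0, 1], [2, 4, 3, 1, 0], [3, 0, 1, 2, 4], [3, 0, 1, 4, 2], [3, 0, 2, 1, 4],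
    [3, 0, 2, 4, 1], [3, 0, 4, 1, 2], [3, 0, 4, 2, 1], [3, 1, 0, 2, 4], [3, 1, 0, 4, 2],
    [3, 1, 2, 0, 4], [3, 1, 2, 4, 0], [3, 1, 4, 0, 2], [3, 1, 4, 2, 0], [3, 2, 0, 1, 4],
    [3, 2, 0, 4, 1], [3, 2, 1, 0, 4], [3, 2, 1, 4, 0], [3, 2, 4, 0, 1], [3, 2, 4, 1, 0],
    [3, 4, 0, 1, 2], [3, 4, 0, 2, 1], [3, 4, 1, 0, 2], [3, 4, 1, 2, 0], [3, 4, 2, 0, 1],
    [3, 4, 2, 1, 0], [4, 0, 1, 2, 3], [4, 0, 1, 3, 2], [4, 0, 2, 1, 3], [4, 0, 2, 3, 1],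
    [4, 0, 3, 1, 2], [4, 0, 3, 2, 1], [4, 1, 0, 2, 3], [4, 1, 0, 3, 2], [4, 1, 2, 0, 3],
    [4, 1, 2, 3, 0], [4, 1, 3, 0, 2], [4, 1, 3, 2, 0], [4, 2, 0, 1, 3], [4, 2, 0, 3, 1],
    [4, 2, 1, 0, 3], [4, 2, 1, 3, 0], [4, 2, 3, 0, 1], [4, 2, 3, 1, 0], [4, 3, 0, 1, 2],
    [4, 3, 0, 2, 1], [4, 3, 1, 0, 2], [4, 3, 1, 2, 0], [4, 3, 2, 0, 1], [4, 3, 2, 1, 0]]

def canC5 (M js : List ℕ) : Bool :=
  let g := fun i => M.getD (js.getD i 0) 0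
  chkZ 5 5 M zC5 js [lg (Nat.land (g 0) (g 1)), lg (Nat.land (g 1) (g 2)), lg (Nat.land (g 2) (g 3)),
    lg (Nat.land (g 3) (g 4)), lg (Nat.land (g 4) (g 0))]

/-- the two points of a pair -/
def fst (x : ℕ) : ℕ := ((List.range 5).filter (fun s => x.testBit s)).getD 0 0
def snd (x : ℕ) : ℕ := ((List.range 5).filter (fun s => x.testBit s)).getD 1 0

def canC23 (M js : List ℕ) : Bool :=
  let g := fun i => M.getD (js.getD i 0) 0
  chkZ 5 5 M zC23 js [fst (g 0), snd (g 0), lg (Nat.land (g 2) (g 3)),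
    lg (Nat.land (g 3) (g 4)), lg (Nat.land (g 4) (g 2))]

def can5 (M : List ℕ) : Bool := perms.any (fun js => canC5 M js || canC23 M js)

def can6 (M : List ℕ) : Bool :=
  chkZ 6 4 M zK4 ([3, 5, 9, 6, 10, 12].map (fun m => M.findIdx (fun x => Nat.beq x m))) [0, 1, 2, 3]

def all5 : Bool :=
  masks5.all fun b => masks5.all fun c => masks5.all fun d => !(ok4 3 b c d) ||
    masks5.all fun e => !(Nat.beq (Nat.lor 3 (Nat.lor b (Nat.lor c (Nat.lor d e)))) 31 &&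
      ok4 3 b c e && ok4 3 b d e && ok4 3 c d e && ok4 b c d e) || can5 [3, b, c, d, e]

def all6 : Bool :=
  masks4.all fun b => masks4.all fun c => masks4.all fun d => !(ok4 3 b c d) ||
    masks4.all fun e => !(ok4 3 b c e && ok4 3 b d e && ok4 3 c d e && ok4 b c d e) ||
      masks4.all fun f => !(Nat.beq (Nat.lor 3 (Nat.lor b (Nat.lor c (Nat.lor d (Nat.lor e f))))) 15 &&
        ok4 3 b c f && ok4 3 b d f && ok4 3 b e f && ok4 3 c d f &&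
        ok4 3 c e f && ok4 3 d e f && ok4 b c d f && ok4 b c e f && ok4 b d e f && ok4 c d e f) ||
        can6 [3, b, c, d, e, f]

theorem all5_true : all5 = true := by decide +kernel

theorem all6_true : all6 = true := by decide +kernel

end N10
end PHP
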