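import Mathlib
import Pool.Agent.PHP.N3Count
import Pool.Agent.PHP.N10Comb
import Pool.Agent.PHP.KSat

/-!
# Critical subfamilies with ten lines have one of three structures (problem MP_1180db_co, k = 3)
-/

set_option linter.unusedVariables false

namespace PHP
namespace N10

open Finset N3

/-! ## masks -/

theorem tb_lor (a b s : ℕ) : (Nat.lor a b).testBit s = (a.testBit s || b.testBit s) :=
  Nat.testBit_or a b s

theorem tb_land (a b s : ℕ) : (Nat.land a b).testBit s = (a.testBit s && b.testBit s) :=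
  Nat.testBit_and a b s

theorem tb_bit (t s : ℕ) : (bit t).testBit s = decide (t = s) := by
  unfold bit
  show (1 <<< t).testBit s = _
  rw [Nat.one_shiftLeft, Nat.testBit_two_pow]

theorem tb_two (a b c d s : ℕ) : (two a b c d).testBit s =
    ((a.testBit s && b.testBit s) || ((a.testBit s && c.testBit s) ||
      ((a.testBit s && d.testBit s) || ((b.testBit s && c.testBit s) ||
        ((b.testBit s && d.testBit s) || (c.testBit s && d.testBit s)))))) := by
  unfold two
  simp only [tb_lor, tb_land]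

theorem pc_eq (x : ℕ) : pc x = ((range 5).filter (fun s => x.testBit s = true)).card := by
  unfold pc
  rw [← List.toFinset_card_of_nodup ((List.nodup_range).filter _)]
  congr 1
  ext s
  simp

theorem pair5 : ∀ s < 5, ∀ t < 5, s ≠ t → Nat.lor (bit s) (bit t) ∈ masks5 := by decide

theorem pair4 : ∀ s < 4, ∀ t < 4, s ≠ t → Nat.lor (bit s) (bit t) ∈ masks4 := by decide

/-! ## enumeration -/

variable {ι : Type} [DecidableEq ι]

theorem exists_enum2 {D : Finset ι} {u w : ι} (hu : u ∈ D) (hw : w ∈ D) (huw : u ≠ w) :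
    ∃ g : ℕ → ι, g 0 = u ∧ g 1 = w ∧ (∀ i, i < D.card → g i ∈ D) ∧
      (∀ d ∈ D, ∃ i, i < D.card ∧ g i = d) ∧
      ∀ i j, i < D.card → j < D.card → g i = g j → i = j := by
  classical
  set L : List ι := u :: w :: ((D.erase u).erase w).toList with hL
  have hwu : w ∈ D.erase u := mem_erase.2 ⟨huw.symm, hw⟩
  have hnd : L.Nodup := by
    rw [hL]
    simp [huw, Finset.nodup_toList]
  have hlen : L.length = D.card := by
    rw [hL]
    simp only [List.length_cons, Finset.length_toList]
    have h1 := card_erase_of_mem hwu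
    have h2 := card_erase_of_mem hu
    have h3 := card_pos.2 ⟨w, hwu⟩
    have h4 := card_pos.2 ⟨u, hu⟩
    omega
  have hmem : ∀ d, d ∈ L ↔ d ∈ D := by
    intro d
    rw [hL]
    simp only [List.mem_cons, Finset.mem_toList, mem_erase]
    constructor
    · rintro (rfl | rfl | h)
      · exact hu
      · exact hw
      · exact h.2.2
    · intro h
      by_cases h1 : d = u
      · exact Or.inl h1
      by_cases h2 : d = w
      · exact Or.inr (Or.inl h2)
      exact Or.inr (Or.inr ⟨h2, h1, h⟩)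
  have hget : ∀ i (hi : i < D.card), L.getD i u = L[i]'(by rw [hlen]; exact hi) := by
    intro i hi
    rw [List.getD_eq_getElem?_getD, List.getElem?_eq_getElem (by rw [hlen]; exact hi)]
    rfl
  refine ⟨fun i => L.getD i u, rfl, rfl, ?_, ?_, ?_⟩
  · intro i hi
    rw [← hmem]
    show L.getD i u ∈ L
    rw [hget i hi]
    exact List.getElem_mem _
  · intro d hd
    obtain ⟨i, hi, h1⟩ := List.mem_iff_getElem.1 ((hmem d).2 hd)
    refine ⟨i, by rw [← hlen]; exact hi, ?_⟩
    show L.getD i u = d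
    rw [hget i (by rw [← hlen]; exact hi), h1]
  · intro i j hi hj hij
    have hij : L.getD i u = L.getD j u := hij
    rw [hget i hi, hget j hj] at hij
    exact (List.Nodup.getElem_inj_iff hnd).1 hij

/-! ## the masks of the sets -/

/-- the mask of a set -/
noncomputable def msk (v : ℕ) (g : ℕ → ι) (q : Finset ι) : ℕ :=
  KSat.bset ((List.range v).filter (fun s => decide (g s ∈ q)))

theorem tb_msk {v : ℕ} {g : ℕ → ι} {q : Finset ι} {s : ℕ} :
    (msk v g q).testBit s = true ↔ s < v ∧ g s ∈ q := by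
  unfold msk
  rw [KSat.testBit_bset, List.mem_filter, List.mem_range, decide_eq_true_eq]

/-- the data: sets with three elements, private elements `x`, an enumeration `g` of the other elements -/
structure Dat (k v : ℕ) (p : Fin k → Finset ι) (x : Fin k → ι) (g : ℕ → ι) : Prop where
  rad : Rad p
  card3 : ∀ j, (p j).card = 3
  xmem : ∀ j, x j ∈ p j
  priv : ∀ i j, x i ∈ p j → i = j
  gx : ∀ s < v, ∀ j, g s ≠ x j
  ginj : ∀ s t, s < v → t < v → g s = g t → s = t
  gsurj : ∀ r ∈ un p, (∀ j, r ≠ x j) → ∃ s, s < v ∧ g s = r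
  gmem : ∀ s < v, g s ∈ un p

variable {k v : ℕ} {p : Fin k → Finset ι} {x : Fin k → ι} {g : ℕ → ι}

theorem Dat.pair (h : Dat k v p x g) (j : Fin k) :
    ∃ s t, s < v ∧ t < v ∧ s ≠ t ∧ msk v g (p j) = Nat.lor (bit s) (bit t) := by
  have h1 : ((p j).erase (x j)).card = 2 := by
    rw [card_erase_of_mem (h.xmem j), h.card3]
  obtain ⟨a, b, hab, h2⟩ := card_eq_two.1 h1
  have hin : ∀ r, r ∈ (p j).erase (x j) → ∃ s, s < v ∧ g s = r := by
    intro r hr
    rw [mem_erase] at hr
    refine h.gsurj r (mem_un.2 ⟨j, hr.2⟩) fun i hi => ?_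
    have h3 : i = j := h.priv i j (hi ▸ hr.2)
    rw [h3] at hi
    exact hr.1 hi
  have ha : a ∈ (p j).erase (x j) := by rw [h2]; simp
  have hb : b ∈ (p j).erase (x j) := by rw [h2]; simp
  obtain ⟨s, hs, hsa⟩ := hin a ha
  obtain ⟨t, ht, htb⟩ := hin b hb
  have hst : s ≠ t := by
    rintro rfl
    exact hab (hsa.symm.trans htb)
  refine ⟨s, t, hs, ht, hst, Nat.eq_of_testBit_eq fun r => ?_⟩
  rw [tb_lor, tb_bit, tb_bit]
  have key : (msk v g (p j)).testBit r = true ↔ (s = r ∨ t = r) := by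
    rw [tb_msk]
    constructor
    · rintro ⟨hr, hgr⟩
      have h3 : g r ∈ (p j).erase (x j) := mem_erase.2 ⟨h.gx r hr j, hgr⟩
      rw [h2, mem_insert, mem_singleton] at h3
      rcases h3 with h3 | h3
      · exact Or.inl (h.ginj s r hs hr (hsa.trans h3.symm))
      · exact Or.inr (h.ginj t r ht hr (htb.trans h3.symm))
    · rintro (rfl | rfl)
      · exact ⟨hs, by rw [hsa]; exact (mem_erase.1 ha).2⟩
      · exact ⟨ht, by rw [htb]; exact (mem_erase.1 hb).2⟩
  cases h4 : (msk v g (p j)).testBit r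
  · rw [h4] at key
    have : ¬ (s = r ∨ t = r) := fun h5 => Bool.noConfusion (key.2 h5)
    push Not at this
    rw [decide_eq_false this.1, decide_eq_false this.2]
    rfl
  · rw [h4] at key
    rcases key.1 rfl with h5 | h5
    · rw [decide_eq_true h5]; rfl
    · rw [decide_eq_true h5, Bool.or_true]

theorem Dat.ok (h : Dat k v p x g) (hv : v ≤ 5) {a b c d : Fin k} (hab : a ≠ b) (hac : a ≠ c)
    (had : a ≠ d) (hbc : b ≠ c) (hbd : b ≠ d) (hcd : c ≠ d) :
    ok4 (msk v g (p a)) (msk v g (p b)) (msk v g (p c)) (msk v g (p d)) = true := by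
  classical
  have hQ : ({a, b, c, d} : Finset (Fin k)).card = 4 := by
    rw [card_insert_of_notMem (by simp [hab, hac, had]),
      card_insert_of_notMem (by simp [hbc, hbd]), card_insert_of_notMem (by simp [hcd]),
      card_singleton]
  have h1 := h.rad _ hQ
  unfold ok4
  rw [Nat.ble_eq, pc_eq]
  refine h1.trans ?_
  have h2 : (un p).filter (fun v => 2 ≤ (({a, b, c, d} : Finset (Fin k)) ∩ tau p v).card) ⊆
      ((range 5).filter (fun s => (two (msk v g (p a)) (msk v g (p b)) (msk v g (p c))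
        (msk v g (p d))).testBit s = true)).image g := by
    intro r hr
    rw [mem_filter] at hr
    obtain ⟨i, hi, j, hj, hij⟩ := one_lt_card.1 (show 1 < (({a, b, c, d} : Finset (Fin k)) ∩
      tau p r).card by omega)
    rw [mem_inter, mem_tau] at hi hj
    have hx : ∀ l, r ≠ x l := by
      intro l hl
      have e1 := h.priv l i (hl ▸ hi.2)
      have e2 := h.priv l j (hl ▸ hj.2)
      exact hij (e1.symm.trans e2)
    obtain ⟨s, hs, hgs⟩ := h.gsurj r hr.1 hx
    rw [mem_image]
    refine ⟨s, ?_, hgs⟩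
    rw [mem_filter, mem_range, tb_two]
    refine ⟨by omega, ?_⟩
    have b1 : (msk v g (p i)).testBit s = true := tb_msk.2 ⟨hs, by rw [hgs]; exact hi.2⟩
    have b2 : (msk v g (p j)).testBit s = true := tb_msk.2 ⟨hs, by rw [hgs]; exact hj.2⟩
    have hi1 := hi.1
    have hj1 := hj.1
    simp only [mem_insert, mem_singleton] at hi1 hj1
    rcases hi1 with rfl | rfl | rfl | rfl <;> rcases hj1 with rfl | rfl | rfl | rfl <;>
      first
        | exact absurd rfl hij
        | simp [b1, b2]
  exact (card_le_card h2).trans card_image_le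

theorem Dat.cover (h : Dat k v p x g) {s : ℕ} (hs : s < v) :
    ∃ j, (msk v g (p j)).testBit s = true := by
  obtain ⟨j, hj⟩ := mem_un.1 (h.gmem s hs)
  exact ⟨j, tb_msk.2 ⟨hs, hj⟩⟩

/-! ## from the check to the labels -/

/-- `Z` describes the sets, up to the labels -/
def Lab (P : Finset (Finset ι)) (k v : ℕ) (Z : List (ℕ × ℕ)) : Prop :=
  ∃ e : ℕ → ι, (∀ i, i < k + v → e i ∈ P.biUnion id) ∧
    (∀ i j, i < k + v → j < k + v → e i = e j → i = j) ∧
    ∀ i < k, ∃ q ∈ P, ∀ t, t < k + v →
      (e t ∈ q ↔ t = i ∨ t = k + (Z.getD i (0, 0)).1 ∨ t = k + (Z.getD i (0, 0)).2)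

theorem Dat.lab (h : Dat k v p x g) {P : Finset (Finset ι)} (hP : ∀ j, p j ∈ P)
    {Z : List (ℕ × ℕ)} (hZ : ∀ i < k, (Z.getD i (0, 0)).1 < v ∧ (Z.getD i (0, 0)).2 < v)
    {M : List ℕ} (hM : ∀ j : Fin k, M.getD j.val 0 = msk v g (p j)) {js ws : List ℕ}
    (hc : chkZ k v M Z js ws = true) : Lab P k v Z := by
  classical
  unfold chkZ at hc
  simp only [Bool.and_eq_true, List.all_eq_true, decide_eq_true_eq, Nat.blt_eq,
    List.mem_range] at hc
  obtain ⟨⟨⟨⟨⟨⟨c1, c2⟩, c3⟩, c4⟩, c5⟩, c6⟩, c7⟩ := hc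
  have c1 : js.length = k := Nat.eq_of_beq_eq_true c1
  have c4 : ws.length = v := Nat.eq_of_beq_eq_true c4
  have hj : ∀ i (hi : i < k), js.getD i 0 = js[i]'(by rw [c1]; exact hi) := by
    intro i hi
    rw [List.getD_eq_getElem?_getD, List.getElem?_eq_getElem (by rw [c1]; exact hi)]
    rfl
  have hw : ∀ i (hi : i < v), ws.getD i 0 = ws[i]'(by rw [c4]; exact hi) := by
    intro i hi
    rw [List.getD_eq_getElem?_getD, List.getElem?_eq_getElem (by rw [c4]; exact hi)]
    rfl
  have hjk : ∀ i (hi : i < k), js.getD i 0 < k := by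
    intro i hi
    rw [hj i hi]
    exact c2 _ (List.getElem_mem _)
  have hwv : ∀ i (hi : i < v), ws.getD i 0 < v := by
    intro i hi
    rw [hw i hi]
    exact c5 _ (List.getElem_mem _)
  have hjinj : ∀ i j, i < k → j < k → js.getD i 0 = js.getD j 0 → i = j := by
    intro i j hi hj' hij
    rw [hj i hi, hj j hj'] at hij
    exact (List.Nodup.getElem_inj_iff c3).1 hij
  have hwinj : ∀ i j, i < v → j < v → ws.getD i 0 = ws.getD j 0 → i = j := by
    intro i j hi hj' hij
    rw [hw i hi, hw j hj'] at hij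
    exact (List.Nodup.getElem_inj_iff c6).1 hij
  by_cases hk0 : k = 0
  · subst hk0
    refine ⟨fun s => g (ws.getD s 0), ?_, ?_, fun i hi => absurd hi (Nat.not_lt_zero i)⟩
    · intro i hi
      obtain ⟨j, -⟩ := mem_un.1 (h.gmem _ (hwv i (by omega)))
      exact j.elim0
    · intro i j hi hj' hij
      exact hwinj i j (by omega) (by omega) (h.ginj _ _ (hwv i (by omega)) (hwv j (by omega)) hij)
  have hkpos : 0 < k := Nat.pos_of_ne_zero hk0
  set e : ℕ → ι := fun t => if ht : t < k then x ⟨js.getD t 0, hjk t ht⟩ else g (ws.getD (t - k) 0)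
    with he
  have e1 : ∀ t (ht : t < k), e t = x ⟨js.getD t 0, hjk t ht⟩ := by
    intro t ht
    rw [he]
    simp only [dif_pos ht]
  have e2 : ∀ s, e (k + s) = g (ws.getD s 0) := by
    intro s
    rw [he]
    simp only
    rw [dif_neg (by omega), Nat.add_sub_cancel_left]
  have split : ∀ t, t < k + v → t < k ∨ ∃ s, s < v ∧ t = k + s := by
    intro t ht
    by_cases h1 : t < k
    · exact Or.inl h1
    · exact Or.inr ⟨t - k, by omega, by omega⟩
  refine ⟨e, ?_, ?_, ?_⟩
  · intro t ht
    rw [mem_biUnion]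
    rcases split t ht with h1 | ⟨s, hs, rfl⟩
    · rw [e1 t h1]
      exact ⟨_, hP _, h.xmem _⟩
    · rw [e2]
      obtain ⟨j, hj2⟩ := mem_un.1 (h.gmem _ (hwv s hs))
      exact ⟨_, hP j, hj2⟩
  · intro t t' ht ht' htt
    rcases split t ht with h1 | ⟨s, hs, rfl⟩ <;> rcases split t' ht' with h1' | ⟨s', hs', rfl⟩
    · rw [e1 t h1, e1 t' h1'] at htt
      have h2 := h.priv ⟨js.getD t 0, hjk t h1⟩ ⟨js.getD t' 0, hjk t' h1'⟩ (by
        rw [htt]; exact h.xmem _)
      exact hjinj t t' h1 h1' (Fin.mk.inj_iff.1 h2)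
    · rw [e1 t h1, e2] at htt
      exact absurd htt.symm (h.gx _ (hwv s' hs') _)
    · rw [e1 t' h1', e2] at htt
      exact absurd htt (h.gx _ (hwv s hs) _)
    · rw [e2, e2] at htt
      rw [hwinj s s' hs hs' (h.ginj _ _ (hwv s hs) (hwv s' hs') htt)]
  · intro i hi
    obtain ⟨z1, z2⟩ := hZ i hi
    have h7 : M.getD (js.getD i 0) 0 = Nat.lor (bit (ws.getD (Z.getD i (0, 0)).1 0))
        (bit (ws.getD (Z.getD i (0, 0)).2 0)) := Nat.eq_of_beq_eq_true (c7 i hi)
    have h8 := hM ⟨js.getD i 0, hjk i hi⟩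
    simp only at h8
    rw [h7] at h8
    refine ⟨p ⟨js.getD i 0, hjk i hi⟩, hP _, fun t ht => ?_⟩
    rcases split t ht with h1 | ⟨s, hs, rfl⟩
    · rw [e1 t h1]
      constructor
      · intro h2
        have h3 := h.priv _ _ h2
        exact Or.inl (hjinj t i h1 hi (Fin.mk.inj_iff.1 h3))
      · rintro (rfl | h2 | h2)
        · exact h.xmem _
        · omega
        · omega
    · rw [e2]
      have h3 : g (ws.getD s 0) ∈ p ⟨js.getD i 0, hjk i hi⟩ ↔
          (msk v g (p ⟨js.getD i 0, hjk i hi⟩)).testBit (ws.getD s 0) = true := by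
        rw [tb_msk]
        exact ⟨fun h4 => ⟨hwv s hs, h4⟩, fun h4 => h4.2⟩
      rw [h3, ← h8, tb_lor, tb_bit, tb_bit, Bool.or_eq_true, decide_eq_true_eq,
        decide_eq_true_eq]
      constructor
      · rintro (h4 | h4)
        · right; left
          rw [hwinj _ _ z1 hs h4]
        · right; right
          rw [hwinj _ _ z2 hs h4]
      · rintro (h4 | h4 | h4)
        · omega
        · left
          have : s = (Z.getD i (0, 0)).1 := by omega
          rw [this]
        · right
          have : s = (Z.getD i (0, 0)).2 := by omega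
          rw [this]

end N10
end PHP
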