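import Mathlib
import Pool.Agent.PHP.N10Str

/-!
# Three structures with ten elements (problem MP_1180db_co, k = 3)
-/

set_option linter.unusedVariables false

namespace PHP
namespace N10

open Finset N3

variable {ι : Type} [DecidableEq ι]

theorem exists_dat {P : Finset (Finset ι)} (h3 : ∀ p ∈ P, p.card = 3)
    (hpriv : ∀ p ∈ P, ∃ v ∈ p, ∀ q ∈ P, v ∈ q → q = p)
    (hR : ∀ Q ⊆ P, Q.card = 4 →
      3 ≤ ((P.biUnion id).filter (fun v => 2 ≤ (Q.filter (fun p => v ∈ p)).card)).card)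
    {k v : ℕ} (hk : P.card = k + 1) (hv : (P.biUnion id).card = (k + 1) + v) :
    ∃ (p : Fin (k + 1) → Finset ι) (x : Fin (k + 1) → ι) (g : ℕ → ι), Dat (k + 1) v p x g ∧
      (∀ j, p j ∈ P) ∧ msk v g (p 0) = 3 ∧ un p = P.biUnion id := by
  classical
  set f : P ≃ Fin (k + 1) := P.equivFinOfCardEq hk with hf
  set p : Fin (k + 1) → Finset ι := fun j => (f.symm j : Finset ι) with hp
  have hpP : ∀ j, p j ∈ P := fun j => (f.symm j).2
  have hpinj : Function.Injective p := by
    intro i j hij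
    exact f.symm.injective (Subtype.ext hij)
  have hpsurj : ∀ q ∈ P, ∃ j, p j = q := by
    intro q hq
    refine ⟨f ⟨q, hq⟩, ?_⟩
    show ((f.symm (f ⟨q, hq⟩) : P) : Finset ι) = q
    rw [Equiv.symm_apply_apply]
  have hun : un p = P.biUnion id := by
    ext r
    rw [mem_un, mem_biUnion]
    constructor
    · rintro ⟨j, hj⟩
      exact ⟨p j, hpP j, hj⟩
    · rintro ⟨q, hq, hr⟩
      obtain ⟨j, rfl⟩ := hpsurj q hq
      exact ⟨j, hr⟩
  have hRad : Rad p := by
    intro Q hQ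
    have h1 := hR (Q.map ⟨p, hpinj⟩) (by
      intro q hq
      obtain ⟨j, -, rfl⟩ := mem_map.1 hq
      exact hpP j) (by rw [card_map, hQ])
    rw [← hun] at h1
    refine h1.trans (card_le_card ?_)
    intro r hr
    rw [mem_filter] at hr ⊢
    have h2 : (Q.map ⟨p, hpinj⟩).filter (fun p => r ∈ p) = (Q ∩ tau p r).map ⟨p, hpinj⟩ := by
      ext q
      rw [mem_filter, mem_map, mem_map]
      constructor
      · rintro ⟨⟨j, hj, rfl⟩, hv⟩
        exact ⟨j, mem_inter.2 ⟨hj, mem_tau.2 hv⟩, rfl⟩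
      · rintro ⟨j, hj, rfl⟩
        rw [mem_inter, mem_tau] at hj
        exact ⟨⟨j, hj.1, rfl⟩, hj.2⟩
    rw [h2, card_map] at hr
    exact hr
  have hpr : ∀ j, ∃ v ∈ p j, ∀ i, v ∈ p i → i = j := by
    intro j
    obtain ⟨w, hw, h1⟩ := hpriv _ (hpP j)
    exact ⟨w, hw, fun i hi => hpinj (h1 _ (hpP i) hi)⟩
  choose x hx hxp using hpr
  have hxinj : Function.Injective x := by
    intro i j hij
    exact (hxp j i (hij ▸ hx i))
  set V : Finset ι := un p \ univ.image x with hV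
  have hVcard : V.card = v := by
    have h1 : univ.image x ⊆ un p := by
      intro r hr
      obtain ⟨j, -, rfl⟩ := mem_image.1 hr
      exact mem_un.2 ⟨j, hx j⟩
    rw [hV, card_sdiff_of_subset h1, hun, hv, card_image_of_injective _ hxinj, card_univ,
      Fintype.card_fin]
    omega
  have hc3 : ∀ j, (p j).card = 3 := fun j => h3 _ (hpP j)
  have h2 : ((p 0).erase (x 0)).card = 2 := by
    rw [card_erase_of_mem (hx 0), hc3]
  obtain ⟨u, w, huw, h4⟩ := card_eq_two.1 h2
  have hin : ∀ r, r ∈ (p 0).erase (x 0) → r ∈ V := by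
    intro r hr
    rw [mem_erase] at hr
    rw [hV, mem_sdiff]
    refine ⟨mem_un.2 ⟨0, hr.2⟩, fun h5 => ?_⟩
    obtain ⟨i, -, hi⟩ := mem_image.1 h5
    have h6 : (0 : Fin (k + 1)) = i := hxp i 0 (hi ▸ hr.2)
    rw [← h6] at hi
    exact hr.1 hi.symm
  have hu : u ∈ V := hin u (by rw [h4]; simp)
  have hw : w ∈ V := hin w (by rw [h4]; simp)
  have hv2 : 2 ≤ v := by
    rw [← hVcard]
    exact one_lt_card.2 ⟨u, hu, w, hw, huw⟩
  obtain ⟨g, g0, g1, gm, gs, gi⟩ := exists_enum2 hu hw huw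
  rw [hVcard] at gm gs gi
  have gx : ∀ s < v, ∀ j, g s ≠ x j := by
    intro s hs j h5
    have h6 := gm s hs
    rw [hV, mem_sdiff] at h6
    exact h6.2 (mem_image.2 ⟨j, mem_univ _, h5.symm⟩)
  refine ⟨p, x, g, ⟨hRad, hc3, hx, fun i j hij => (hxp i j hij).symm, gx,
    fun s t hs ht => gi s t hs ht, ?_, ?_⟩, hpP, ?_, hun⟩
  · intro r hr hrx
    refine gs r ?_
    rw [hV, mem_sdiff]
    refine ⟨hr, fun h5 => ?_⟩
    obtain ⟨i, -, hi⟩ := mem_image.1 h5
    exact hrx i hi.symm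
  · intro s hs
    have h6 := gm s hs
    rw [hV, mem_sdiff] at h6
    exact h6.1
  · show msk v g (p 0) = Nat.lor (bit 0) (bit 1)
    refine Nat.eq_of_testBit_eq fun r => ?_
    rw [tb_lor, tb_bit, tb_bit]
    have key : (msk v g (p 0)).testBit r = true ↔ (0 = r ∨ 1 = r) := by
      rw [tb_msk]
      constructor
      · rintro ⟨hr, hgr⟩
        have h5 : g r ∈ (p 0).erase (x 0) := mem_erase.2 ⟨gx r hr 0, hgr⟩
        rw [h4, mem_insert, mem_singleton] at h5
        rcases h5 with h5 | h5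
        · exact Or.inl (gi 0 r (by omega) hr (g0.trans h5.symm))
        · exact Or.inr (gi 1 r (by omega) hr (g1.trans h5.symm))
      · rintro (rfl | rfl)
        · refine ⟨by omega, ?_⟩
          rw [g0]
          exact (mem_erase.1 (show u ∈ (p 0).erase (x 0) by rw [h4]; simp)).2
        · refine ⟨by omega, ?_⟩
          rw [g1]
          exact (mem_erase.1 (show w ∈ (p 0).erase (x 0) by rw [h4]; simp)).2
    cases h5 : (msk v g (p 0)).testBit r
    · rw [h5] at key
      have : ¬ (0 = r ∨ 1 = r) := fun h6 => Bool.noConfusion (key.2 h6)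
      push Not at this
      rw [decide_eq_false this.1, decide_eq_false this.2]
      rfl
    · rw [h5] at key
      rcases key.1 rfl with h6 | h6
      · rw [decide_eq_true h6]; rfl
      · rw [decide_eq_true h6, Bool.or_true]

theorem Dat.mem5 {k : ℕ} {p : Fin k → Finset ι} {x : Fin k → ι} {g : ℕ → ι}
    (h : Dat k 5 p x g) (j : Fin k) : msk 5 g (p j) ∈ masks5 := by
  obtain ⟨s, t, hs, ht, hst, h1⟩ := h.pair j
  rw [h1]
  exact pair5 s hs t ht hst

theorem Dat.mem4 {k : ℕ} {p : Fin k → Finset ι} {x : Fin k → ι} {g : ℕ → ι}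
    (h : Dat k 4 p x g) (j : Fin k) : msk 4 g (p j) ∈ masks4 := by
  obtain ⟨s, t, hs, ht, hst, h1⟩ := h.pair j
  rw [h1]
  exact pair4 s hs t ht hst

theorem tb_ge {v : ℕ} {g : ℕ → ι} {q : Finset ι} {s : ℕ} (hs : v ≤ s) :
    (msk v g q).testBit s = false := by
  cases h : (msk v g q).testBit s
  · rfl
  · have := (tb_msk.1 h).1
    omega

theorem five {P : Finset (Finset ι)} {p : Fin 5 → Finset ι} {x : Fin 5 → ι} {g : ℕ → ι}
    (h : Dat 5 5 p x g) (hP : ∀ j, p j ∈ P) (h0 : msk 5 g (p 0) = 3) :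
    Lab P 5 5 zC5 ∨ Lab P 5 5 zC23 := by
  have hcov : Nat.lor 3 (Nat.lor (msk 5 g (p 1)) (Nat.lor (msk 5 g (p 2))
      (Nat.lor (msk 5 g (p 3)) (msk 5 g (p 4))))) = 31 := by
    rw [← h0]
    refine Nat.eq_of_testBit_eq fun s => ?_
    rw [tb_lor, tb_lor, tb_lor, tb_lor]
    by_cases hs : s < 5
    · have e1 : Nat.testBit 31 s = true := by interval_cases s <;> rfl
      rw [e1]
      obtain ⟨j, hj⟩ := h.cover hs
      fin_cases j
      · simp at hj; simp [hj]
      · simp at hj; simp [hj]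
      · simp at hj; simp [hj]
      · simp at hj; simp [hj]
      · simp at hj; simp [hj]
    · rw [tb_ge (by omega), tb_ge (by omega), tb_ge (by omega), tb_ge (by omega),
        tb_ge (by omega), Nat.testBit_lt_two_pow]
      · rfl
      · calc 31 < 2 ^ 5 := by norm_num
          _ ≤ 2 ^ s := Nat.pow_le_pow_right (by norm_num) (by omega)
  have ok : ∀ a b c d : Fin 5, a ≠ b → a ≠ c → a ≠ d → b ≠ c → b ≠ d → c ≠ d →
      ok4 (msk 5 g (p a)) (msk 5 g (p b)) (msk 5 g (p c)) (msk 5 g (p d)) = true :=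
    fun a b c d h1 h2 h3 h4 h5 h6 => h.ok le_rfl h1 h2 h3 h4 h5 h6
  have o1 := ok 0 1 2 3 (by decide) (by decide) (by decide) (by decide) (by decide) (by decide)
  have o2 := ok 0 1 2 4 (by decide) (by decide) (by decide) (by decide) (by decide) (by decide)
  have o3 := ok 0 1 3 4 (by decide) (by decide) (by decide) (by decide) (by decide) (by decide)
  have o4 := ok 0 2 3 4 (by decide) (by decide) (by decide) (by decide) (by decide) (by decide)
  have o5 := ok 1 2 3 4 (by decide) (by decide) (by decide) (by decide) (by decide) (by decide)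
  rw [h0] at o1 o2 o3 o4
  have hall := all5_true
  unfold all5 at hall
  have a1 := List.all_eq_true.1 hall _ (h.mem5 1)
  have a2 := List.all_eq_true.1 a1 _ (h.mem5 2)
  have a3 := List.all_eq_true.1 a2 _ (h.mem5 3)
  rw [o1, Bool.not_true, Bool.false_or] at a3
  have a4 := List.all_eq_true.1 a3 _ (h.mem5 4)
  rw [hcov, o2, o3, o4, o5] at a4
  have a5 : can5 [3, msk 5 g (p 1), msk 5 g (p 2), msk 5 g (p 3), msk 5 g (p 4)] = true := by
    simpa using a4
  have hM : ∀ j : Fin 5, [3, msk 5 g (p 1), msk 5 g (p 2), msk 5 g (p 3),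
      msk 5 g (p 4)].getD j.val 0 = msk 5 g (p j) := by
    intro j
    fin_cases j
    · exact h0.symm
    · rfl
    · rfl
    · rfl
    · rfl
  unfold can5 at a5
  obtain ⟨js, -, hjs⟩ := List.any_eq_true.1 a5
  rw [Bool.or_eq_true] at hjs
  rcases hjs with hjs | hjs
  · left
    unfold canC5 at hjs
    exact h.lab hP (by decide) hM hjs
  · right
    unfold canC23 at hjs
    exact h.lab hP (by decide) hM hjs

theorem six {P : Finset (Finset ι)} {p : Fin 6 → Finset ι} {x : Fin 6 → ι} {g : ℕ → ι}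
    (h : Dat 6 4 p x g) (hP : ∀ j, p j ∈ P) (h0 : msk 4 g (p 0) = 3) :
    Lab P 6 4 zK4 := by
  have hcov : Nat.lor 3 (Nat.lor (msk 4 g (p 1)) (Nat.lor (msk 4 g (p 2))
      (Nat.lor (msk 4 g (p 3)) (Nat.lor (msk 4 g (p 4)) (msk 4 g (p 5)))))) = 15 := by
    rw [← h0]
    refine Nat.eq_of_testBit_eq fun s => ?_
    rw [tb_lor, tb_lor, tb_lor, tb_lor, tb_lor]
    by_cases hs : s < 4
    · have e1 : Nat.testBit 15 s = true := by interval_cases s <;> rfl
      rw [e1]
      obtain ⟨j, hj⟩ := h.cover hs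
      fin_cases j
      · simp at hj; simp [hj]
      · simp at hj; simp [hj]
      · simp at hj; simp [hj]
      · simp at hj; simp [hj]
      · simp at hj; simp [hj]
      · simp at hj; simp [hj]
    · rw [tb_ge (by omega), tb_ge (by omega), tb_ge (by omega), tb_ge (by omega),
        tb_ge (by omega), tb_ge (by omega), Nat.testBit_lt_two_pow]
      · rfl
      · calc 15 < 2 ^ 4 := by norm_num
          _ ≤ 2 ^ s := Nat.pow_le_pow_right (by norm_num) (by omega)
  have ok : ∀ a b c d : Fin 6, a ≠ b → a ≠ c → a ≠ d → b ≠ c → b ≠ d → c ≠ d →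
      ok4 (msk 4 g (p a)) (msk 4 g (p b)) (msk 4 g (p c)) (msk 4 g (p d)) = true :=
    fun a b c d h1 h2 h3 h4 h5 h6 => h.ok (by norm_num) h1 h2 h3 h4 h5 h6
  have key : ∀ a b c d : Fin 6, (a ≠ b ∧ a ≠ c ∧ a ≠ d ∧ b ≠ c ∧ b ≠ d ∧ c ≠ d) →
      ok4 (msk 4 g (p a)) (msk 4 g (p b)) (msk 4 g (p c)) (msk 4 g (p d)) = true :=
    fun a b c d h1 => ok a b c d h1.1 h1.2.1 h1.2.2.1 h1.2.2.2.1 h1.2.2.2.2.1 h1.2.2.2.2.2
  have o1 := key 0 1 2 3 (by decide)
  have o2 := key 0 1 2 4 (by decide)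
  have o3 := key 0 1 3 4 (by decide)
  have o4 := key 0 2 3 4 (by decide)
  have o5 := key 1 2 3 4 (by decide)
  have o6 := key 0 1 2 5 (by decide)
  have o7 := key 0 1 3 5 (by decide)
  have o8 := key 0 1 4 5 (by decide)
  have o9 := key 0 2 3 5 (by decide)
  have o10 := key 0 2 4 5 (by decide)
  have o11 := key 0 3 4 5 (by decide)
  have o12 := key 1 2 3 5 (by decide)
  have o13 := key 1 2 4 5 (by decide)
  have o14 := key 1 3 4 5 (by decide)
  have o15 := key 2 3 4 5 (by decide)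
  rw [h0] at o1 o2 o3 o4 o6 o7 o8 o9 o10 o11
  have hall := all6_true
  unfold all6 at hall
  have a1 := List.all_eq_true.1 hall _ (h.mem4 1)
  have a2 := List.all_eq_true.1 a1 _ (h.mem4 2)
  have a3 := List.all_eq_true.1 a2 _ (h.mem4 3)
  rw [o1, Bool.not_true, Bool.false_or] at a3
  have a4 := List.all_eq_true.1 a3 _ (h.mem4 4)
  rw [o2, o3, o4, o5] at a4
  simp only [Bool.and_self, Bool.not_true, Bool.false_or] at a4
  have a5 := List.all_eq_true.1 a4 _ (h.mem4 5)
  rw [hcov, o6, o7, o8, o9, o10, o11, o12, o13, o14, o15] at a5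
  have a6 : can6 [3, msk 4 g (p 1), msk 4 g (p 2), msk 4 g (p 3), msk 4 g (p 4),
      msk 4 g (p 5)] = true := by
    simpa using a5
  have hM : ∀ j : Fin 6, [3, msk 4 g (p 1), msk 4 g (p 2), msk 4 g (p 3),
      msk 4 g (p 4), msk 4 g (p 5)].getD j.val 0 = msk 4 g (p j) := by
    intro j
    fin_cases j
    · exact h0.symm
    · rfl
    · rfl
    · rfl
    · rfl
    · rfl
  unfold can6 at a6
  exact h.lab hP (by decide) hM a6

/-- the three structures -/
theorem struct10 {P : Finset (Finset ι)} (h3 : ∀ p ∈ P, p.card = 3)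
    (hpriv : ∀ p ∈ P, ∃ v ∈ p, ∀ q ∈ P, v ∈ q → q = p)
    (hR : ∀ Q ⊆ P, Q.card = 4 →
      3 ≤ ((P.biUnion id).filter (fun v => 2 ≤ (Q.filter (fun p => v ∈ p)).card)).card)
    (hcard : (P.biUnion id).card = 10) :
    Lab P 5 5 zC5 ∨ Lab P 5 5 zC23 ∨ Lab P 6 4 zK4 := by
  have h6 := (radon_count h3 hpriv hR).1
  have h9 : P.card ≤ 4 → (P.biUnion id).card ≤ 9 := by
    intro h4
    by_cases h5 : P.card ≤ 3
    · have h7 := card_biUnion_le_card_mul P id 3 (fun p hp => (h3 p hp).le)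
      omega
    · have h5 : P.card = 3 + 1 := by omega
      by_contra hlt
      rw [not_le] at hlt
      obtain ⟨p, x, g, hD, -, -, hun⟩ := exists_dat h3 hpriv hR (v := 6) h5 (by omega)
      have h7 := card_un_le (m := 9) (c := 1) hD.rad hD.card3 (fun τ => by
        rw [one_mul]; exact cnt4 τ) (by
        rw [card_powersetCard, card_univ, Fintype.card_fin]
        decide)
      rw [hun] at h7
      omega
  have h5 : P.card = 4 + 1 ∨ P.card = 5 + 1 := by omega
  rcases h5 with h5 | h5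
  · obtain ⟨p, x, g, hD, hP, h0, -⟩ := exists_dat h3 hpriv hR (v := 5) h5 (by omega)
    rcases five hD hP h0 with h | h
    · exact Or.inl h
    · exact Or.inr (Or.inl h)
  · obtain ⟨p, x, g, hD, hP, h0, -⟩ := exists_dat h3 hpriv hR (v := 4) h5 (by omega)
    exact Or.inr (Or.inr (six hD hP h0))

end N10
end PHP
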