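import Mathlib
import Pool.Agent.PHP.KFin
import Pool.Agent.PHP.KindB
import Pool.Agent.PHP.KindC
import Pool.Agent.PHP.N3Radon
import Pool.Agent.PHP.N10Main

/-!
# Ten lines with given cells (problem MP_1180db_co, k = 3)

`W.Fw n e`: the letters `e 0, ..., e (n - 1)` are different and every cell contains at least three of them. With a list
`zs` of cells (bit masks) the clauses of the kinds 0 (line), 3 (depth), 4 (two lines through a triangle), 7 (no cell
misses) and the unit clauses of the cells hold.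
-/

set_option linter.unusedVariables false

namespace PHP

open Finset

structure World.Fw {ι : Type} (W : World ι) (n : ℕ) (e : ℕ → ι) : Prop where
  inj : ∀ i j, i < n → j < n → e i = e j → i = j
  dep : ∀ X ∈ W.T, 3 ≤ ((range n).filter (fun i => X (e i) = true)).card

namespace KSat

variable {ι : Type} {W : World ι} {n : ℕ} {e : ℕ → ι}

theorem Fw_ne (h : W.Fw n e) {i j : ℕ} (hi : i < n) (hj : j < n) (hij : i ≠ j) : e i ≠ e j :=
  fun heq => hij (h.inj i j hi hj heq)

theorem wk_L (h : W.Fw n e) {s x y z t : ℕ} (hv : ds n [s, x, y, z] = true) (ht : t < 20) :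
    ∃ l ∈ gL n s x y z t, lit (nP n) (sig W n e) l = true := by
  obtain ⟨hm, hd⟩ := ds_mem hv
  have hs : s < n := hm s (by simp)
  have hx : x < n := hm x (by simp)
  have hy : y < n := hm y (by simp)
  have hz : z < n := hm z (by simp)
  simp only [List.nodup_cons, List.mem_cons, List.not_mem_nil, or_false, not_or, not_false_eq_true,
    List.nodup_nil, and_true] at hd
  obtain ⟨⟨sx, sy, sz⟩, ⟨xy, xz⟩, yz⟩ := hd
  obtain ⟨⟨p1, p2, p3⟩, v1, v2, v3, v4, v5, v6⟩ := W.line3 (s := e s) (x := e x) (y := e y)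
    (z := e z) (Fw_ne h hx hs (Ne.symm sx)) (Fw_ne h hy hs (Ne.symm sy))
    (Fw_ne h hz hs (Ne.symm sz)) (Fw_ne h hx hy xy) (Fw_ne h hx hz xz) (Fw_ne h hy hz yz)
  obtain ⟨q, hq, hq6, hqv⟩ := prs_ok (decide (W.pos (e s) (e x) < W.pos (e s) (e y)))
    (decide (W.pos (e s) (e x) < W.pos (e s) (e z)))
    (decide (W.pos (e s) (e y) < W.pos (e s) (e z))) (W.ty (e s) (e x)) (W.ty (e s) (e y))
    (W.ty (e s) (e z)) (by
      rw [decide_eq_true_eq, decide_eq_true_eq, decide_eq_false_iff_not]
      omega) (by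
      rw [decide_eq_false_iff_not, decide_eq_false_iff_not, decide_eq_true_eq]
      omega) ⟨t, ht⟩
  rw [← sg_eq, ← sg_eq, ← sg_eq, ← sg_eq' p1, ← sg_eq' p2, ← sg_eq' p3, ← v1, ← v2, ← v3, ← v4,
    ← v5, ← v6] at hqv
  refine ⟨sl n (!q.2) ([vv n s x y, vv n s y x, vv n s x z, vv n s z x, vv n s y z,
    vv n s z y].getD q.1 0), ?_, ?_⟩
  · unfold gL
    rw [List.mem_map]
    exact ⟨q, hq, rfl⟩
  · obtain ⟨q1, q2⟩ := q
    simp only at hq6 hqv ⊢
    interval_cases q1
    all_goals
      simp only [List.getD_cons_zero, List.getD_cons_succ] at hqv ⊢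
      rw [lit_svv _ (by assumption) (by assumption) (by assumption), hqv]
      cases q2 <;> rfl

theorem wk_M (h : W.Fw n e) {z i j k : ℕ} (hv : ds n [i, j, k] = true) (hz : z < 2 ^ n) :
    ∃ l ∈ gM n z i j k, lit (nP n) (sig W n e) l = true := by
  classical
  rw [kb_ds] at hv
  obtain ⟨h1, h2⟩ := hv
  simp only [List.mem_cons, List.not_mem_nil, or_false, forall_eq_or_imp, forall_eq] at h1
  obtain ⟨hi, hj, hk⟩ := h1
  simp only [List.nodup_cons, List.mem_cons, List.not_mem_nil, or_false, not_or,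
    List.nodup_nil, and_true, not_false_eq_true] at h2
  obtain ⟨⟨hij, hik⟩, hjk⟩ := h2
  unfold gM
  by_cases hc : ∃ X ∈ W.T, ∀ i < n, X (e i) = z.testBit i
  · obtain ⟨X, hX, hXz⟩ := hc
    have h3 := W.miss (i := e i) (j := e j) (k := e k) (fun h4 => hij (h.inj i j hi hj h4))
      (fun h4 => hjk (h.inj j k hj hk h4)) (fun h4 => hik (h.inj i k hi hk h4)) X hX
    rw [hXz i hi, hXz j hj, hXz k hk] at h3
    by_cases g1 : W.vt (e j) (e k) (e i) = z.testBit i
    · refine ⟨sl n (z.testBit i) (vv n j k i), by simp, ?_⟩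
      rw [lit_svv _ hj hk hi, g1]
      simp
    by_cases g2 : W.vt (e i) (e k) (e j) = z.testBit j
    · refine ⟨sl n (z.testBit j) (vv n i k j), by simp, ?_⟩
      rw [lit_svv _ hi hk hj, g2]
      simp
    by_cases g3 : W.vt (e i) (e j) (e k) = z.testBit k
    · refine ⟨sl n (z.testBit k) (vv n i j k), by simp, ?_⟩
      rw [lit_svv _ hi hj hk, g3]
      simp
    exfalso
    have key : ∀ a b : Bool, a ≠ b → b = !a := by decide
    exact h3 ⟨key _ _ g1, key _ _ g2, key _ _ g3⟩
  · refine ⟨ng n (cv n z), by simp, ?_⟩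
    rw [lit_ng (cv_lt hz), sig_cv, decide_eq_false hc]
    rfl

theorem wk_Q (h : W.Fw n e) (hQ : W.HQ) {a b c f g : ℕ} (hv : ds n [a, b, c, f, g] = true) :
    ∃ l ∈ gQ n a b c f g, lit (nP n) (sig W n e) l = true := by
  rw [kb_ds] at hv
  obtain ⟨h1, h2⟩ := hv
  simp only [List.mem_cons, List.not_mem_nil, or_false, forall_eq_or_imp, forall_eq] at h1
  obtain ⟨ha, hb, hc, hf, hg⟩ := h1
  simp only [List.nodup_cons, List.mem_cons, List.not_mem_nil, or_false, not_or,
    List.nodup_nil, and_true, not_false_eq_true] at h2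
  obtain ⟨⟨k1, k2, k3, k4⟩, ⟨k5, k6, k7⟩, ⟨k8, k9⟩, k10⟩ := h2
  have hne : ∀ {i j : ℕ}, i < n → j < n → i ≠ j → e i ≠ e j := fun hi hj hij h4 =>
    hij (h.inj _ _ hi hj h4)
  by_contra hcon
  push Not at hcon
  unfold gQ at hcon
  simp only [List.mem_cons, List.not_mem_nil, or_false, forall_eq_or_imp, forall_eq] at hcon
  obtain ⟨e1, e2, e3, e4, e5, e6, e7, e8, e9⟩ := hcon
  rw [lit_nvv ha hb hc] at e1
  rw [lit_nvv hb hc ha] at e2
  rw [lit_nvv ha hc hb] at e3
  rw [lit_nvv ha hb hf] at e4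
  rw [lit_nvv hb hc hf] at e5
  rw [lit_nvv ha hc hf] at e6
  rw [lit_nvv ha hb hg] at e7
  rw [lit_nvv hb hc hg] at e8
  rw [lit_nvv ha hc hg] at e9
  have key : ∀ x : Bool, (!x) ≠ true → x = true := by decide
  exact hQ (e a) (e b) (e c) (e f) (e g)
    ⟨hne ha hb k1, hne hb hc k5, hne ha hc k2, key _ e1, key _ e2, key _ e3⟩
    (hne hf hg k10) (hne hf ha (Ne.symm k3)) (hne hf hb (Ne.symm k6)) (hne hf hc (Ne.symm k8))
    (hne hg ha (Ne.symm k4)) (hne hg hb (Ne.symm k7)) (hne hg hc (Ne.symm k9))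
    ⟨key _ e4, key _ e5, key _ e6, key _ e7, key _ e8, key _ e9⟩

theorem wk_D (h : W.Fw n e) {p q o1 o2 : ℕ} (hv : ds n [p, q] = true) :
    ∃ l ∈ gD n p q o1 o2, lit (nP n) (sig W n e) l = true := by
  classical
  rw [kb_ds] at hv
  obtain ⟨h1, h2⟩ := hv
  simp only [List.mem_cons, List.not_mem_nil, or_false, forall_eq_or_imp, forall_eq] at h1
  obtain ⟨hp, hq⟩ := h1
  simp only [List.nodup_cons, List.mem_cons, List.not_mem_nil, or_false,
    List.nodup_nil, and_true, not_false_eq_true] at h2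
  have hpq : e p ≠ e q := fun h3 => h2 (h.inj _ _ hp hq h3)
  set X : ι → Bool := fun k => if k = e p ∨ k = e q then false else W.vt (e p) (e q) k with hXd
  have hX : X ∈ W.T := by
    refine W.vertex hpq X (fun k h3 h4 => ?_)
    rw [hXd]
    simp [h3, h4]
  have hd := h.dep X hX
  set S := (range n).filter (fun i => X (e i) = true) with hS
  have h3 : 0 < ((S.erase o1).erase o2).card := by
    have g1 := pred_card_le_card_erase (s := S) (a := o1)
    have g2 := pred_card_le_card_erase (s := S.erase o1) (a := o2)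
    omega
  obtain ⟨k, hk⟩ := card_pos.1 h3
  rw [mem_erase, mem_erase, hS, mem_filter, mem_range] at hk
  obtain ⟨hk2, hk1, hkn, hkX⟩ := hk
  have hkp : k ≠ p := by
    rintro rfl
    rw [hXd] at hkX
    simp at hkX
  have hkq : k ≠ q := by
    rintro rfl
    rw [hXd] at hkX
    simp at hkX
  have hkv : W.vt (e p) (e q) (e k) = true := by
    have g1 : e k ≠ e p := fun h4 => hkp (h.inj _ _ hkn hp h4)
    have g2 : e k ≠ e q := fun h4 => hkq (h.inj _ _ hkn hq h4)
    rw [hXd] at hkX
    simpa [g1, g2] using hkX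
  refine ⟨vv n p q k, ?_, ?_⟩
  · unfold gD
    rw [List.mem_map]
    refine ⟨k, ?_, rfl⟩
    rw [List.mem_filter, List.mem_range, kb_beq hkp, kb_beq hkq, kb_beq hk1, kb_beq hk2]
    exact ⟨hkn, rfl⟩
  · rw [lit_vv hp hq hkn, hkv]

/-- the clauses with given cells -/
noncomputable def genW (n d : ℕ) : List ℕ :=
  match fd d 0 with
  | 10 => [cv n (Nat.shiftRight d 16)]
  | _ => genC n d

def validW (n : ℕ) (zs : List ℕ) (d : ℕ) : Bool :=
  match fd d 0 with
  | 0 => valid n d
  | 3 => valid n d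
  | 4 => valid n d
  | 7 => valid n d
  | 10 => zs.any (fun z => Nat.beq z (Nat.shiftRight d 16))
  | _ => false

/-- the given clauses hold -/
def HolW (n : ℕ) (zs : List ℕ) (σ : ℕ → Bool) : Prop :=
  ∀ d, validW n zs d = true → ∃ l ∈ genW n d, lit (nP n) σ l = true

noncomputable def oneW (n : ℕ) (zs : List ℕ) (t : Tr) (d i : ℕ) : Bool :=
  Bool.rec false (Nat.beq (bset (genW n d)) (t.cl i)) (validW n zs d)

noncomputable def orgW (n : ℕ) (zs : List ℕ) (t : Tr) (ls : List ℕ) : ℕ → Bool :=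
  List.rec (fun _ => true) (fun d _ ih i => Bool.rec false (ih (Nat.succ i)) (oneW n zs t d i)) ls

noncomputable def orgWE (n : ℕ) (zs : List ℕ) (t : Tr) (ls : List ℕ) (i j : ℕ) : Bool :=
  Bool.rec false (Nat.beq (i + ls.length) j) (orgW n zs t ls i)

theorem orgW_sound {zs : List ℕ} {σ : ℕ → Bool} {t : Tr} (hσ : HolW n zs σ) :
    ∀ (ls : List ℕ) (i : ℕ), Upto n σ t i → orgW n zs t ls i = true →
    Upto n σ t (i + ls.length) := by
  intro ls
  induction ls with
  | nil => intro i hi _; exact hi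
  | cons d ls ih =>
      intro i hi hc
      have hc' : (Bool.rec (motive := fun _ => Bool) false (orgW n zs t ls (Nat.succ i))
        (oneW n zs t d i)) = true := hc
      cases hr : oneW n zs t d i with
      | false => rw [hr] at hc'; exact Bool.noConfusion (show false = true from hc')
      | true =>
        rw [hr] at hc'
        have hr' : (Bool.rec (motive := fun _ => Bool) false (Nat.beq (bset (genW n d)) (t.cl i))
          (validW n zs d)) = true := hr
        cases hv : validW n zs d with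
        | false => rw [hv] at hr'; exact Bool.noConfusion (show false = true from hr')
        | true =>
          rw [hv] at hr'
          have h1 : bset (genW n d) = t.cl i := Nat.eq_of_beq_eq_true hr'
          have h2 : Sat (nP n) σ (t.cl i) := h1 ▸ sat_bset (hσ d hv)
          have h3 := ih (i + 1) (by
            intro j hj
            rcases Nat.lt_succ_iff_lt_or_eq.1 hj with h | h
            · exact hi j h
            · rw [h]; exact h2) hc'
          intro j hj
          exact h3 j (by rw [List.length_cons] at hj; omega)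

theorem Upto.orgW {zs : List ℕ} {σ : ℕ → Bool} {t : Tr} {ls : List ℕ} {i j : ℕ}
    (hi : Upto n σ t i) (hσ : HolW n zs σ) (h : orgWE n zs t ls i j = true) : Upto n σ t j := by
  unfold orgWE at h
  cases h1 : KSat.orgW n zs t ls i with
  | false => rw [h1] at h; exact Bool.noConfusion (show Bool.false = Bool.true from h)
  | true =>
    rw [h1] at h
    have h2 : i + ls.length = j := Nat.eq_of_beq_eq_true h
    rw [← h2]
    exact orgW_sound hσ ls i hi h1

theorem holW (h : W.Fw n e) (hQ : W.HQ) {zs : List ℕ} (hz : ∀ z ∈ zs, z < 2 ^ n ∧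
    ∃ X ∈ W.T, ∀ i < n, X (e i) = z.testBit i) : HolW n zs (sig W n e) := by
  classical
  intro d hd
  unfold validW at hd
  unfold genW
  generalize hc : fd d 0 = c at hd ⊢
  match c with
  | 0 =>
    simp only at hd ⊢
    unfold valid at hd
    unfold genC
    rw [hc] at hd ⊢
    simp only [Bool.and_eq_true, Nat.blt_eq] at hd
    exact wk_L h hd.1 hd.2
  | 3 =>
    simp only at hd ⊢
    unfold valid at hd
    unfold genC
    rw [hc] at hd ⊢
    exact wk_D h hd
  | 4 =>
    simp only at hd ⊢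
    unfold valid at hd
    unfold genC
    rw [hc] at hd ⊢
    exact wk_Q h hQ hd
  | 7 =>
    simp only at hd ⊢
    unfold valid at hd
    unfold genC
    rw [hc] at hd ⊢
    simp only [Bool.and_eq_true, Nat.blt_eq] at hd
    exact wk_M h hd.1 hd.2
  | 10 =>
    simp only at hd ⊢
    rw [List.any_eq_true] at hd
    obtain ⟨z, hzz, h1⟩ := hd
    have h2 : z = Nat.shiftRight d 16 := Nat.eq_of_beq_eq_true h1
    obtain ⟨h3, h4⟩ := hz z hzz
    refine ⟨_, List.mem_singleton_self _, ?_⟩
    rw [← h2, lit_pos (cv_lt h3), sig_cv]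
    exact decide_eq_true h4
  | 1 => simp at hd
  | 2 => simp at hd
  | 5 => simp at hd
  | 6 => simp at hd
  | 8 => simp at hd
  | 9 => simp at hd
  | (m + 11) => simp at hd

/-- the masks of the cells in a structure -/
noncomputable def zsOf (k : ℕ) (Z : List (ℕ × ℕ)) : List ℕ :=
  (List.range k).map fun i => bset [i, k + (Z.getD i (0, 0)).1, k + (Z.getD i (0, 0)).2]

end KSat

/-- a critical subfamily with ten lines has one of three structures -/
theorem World.ten_cases {ι : Type} [Fintype ι] [DecidableEq ι] (W : World ι) (hQ : W.HQ)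
    {R : Finset ι} (hcard : R.card = 10) (hR1 : ∀ X ∈ W.T, 3 ≤ hit R X)
    (hR2 : ∀ r ∈ R, ∃ X ∈ W.T, X r = true ∧ hit R X = 3) :
    ∃ e : ℕ → ι, KSat.HolW 10 (KSat.zsOf 5 N10.zC5) (KSat.sig W 10 e) ∨
      KSat.HolW 10 (KSat.zsOf 5 N10.zC23) (KSat.sig W 10 e) ∨
      KSat.HolW 10 (KSat.zsOf 6 N10.zK4) (KSat.sig W 10 e) := by
  classical
  set PP : Finset (Finset ι) :=
    R.powerset.filter (fun p => p.card = 3 ∧ ∃ X ∈ W.T, R.filter (fun i => X i = true) = p) with hPP
  have hun : PP.biUnion id = R := by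
    ext v
    rw [mem_biUnion]
    constructor
    · rintro ⟨q, hq, hv⟩
      rw [hPP, mem_filter, mem_powerset] at hq
      exact hq.1 hv
    · intro hv
      obtain ⟨X, hX, hXv, h3⟩ := hR2 v hv
      refine ⟨R.filter (fun i => X i = true), ?_, mem_filter.2 ⟨hv, hXv⟩⟩
      rw [hPP, mem_filter, mem_powerset]
      exact ⟨filter_subset _ _, h3, X, hX, rfl⟩
  obtain ⟨P, hP, hPun, hpriv⟩ := exists_min_union PP
  have hPR : P.biUnion id = R := hPun.trans hun
  have hP2 : ∀ p ∈ P, p.card = 3 ∧ ∃ X ∈ W.T, R.filter (fun i => X i = true) = p := fun p hp =>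
    (mem_filter.1 (hP hp)).2
  have hRad : ∀ Q ⊆ P, Q.card = 4 →
      3 ≤ ((P.biUnion id).filter (fun v => 2 ≤ (Q.filter (fun p => v ∈ p)).card)).card := by
    intro Q hQ hQ4
    let f : Fin 4 ≃ Q := (Q.equivFinOfCardEq hQ4).symm
    have hfP : ∀ j, (f j : Finset ι) ∈ P := fun j => hQ (f j).2
    choose X hXT hX using fun j => (hP2 (f j) (hfP j)).2
    choose l hl hlp using fun j => hpriv (f j) (hfP j)
    have hmem : ∀ j i, i ∈ R → (X j i = true ↔ i ∈ (f j : Finset ι)) := by
      intro j i hi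
      rw [← hX j, mem_filter]
      exact ⟨fun h => ⟨hi, h⟩, fun h => h.2⟩
    have hlR : ∀ j, l j ∈ R := by
      intro j
      rw [← hPR, mem_biUnion]
      exact ⟨f j, hfP j, hl j⟩
    obtain ⟨Y, hY, hY2⟩ := W.radon X l hXT (by
      intro j k
      rw [hmem j (l k) (hlR k)]
      constructor
      · intro h
        have h1 := hlp k (f j) (hfP j) h
        exact f.injective (Subtype.ext h1)
      · rintro rfl
        exact hl _)
    refine (hR1 Y hY).trans (card_le_card ?_)
    intro i hi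
    rw [mem_filter] at hi
    rw [mem_filter, hPR]
    refine ⟨hi.1, ?_⟩
    have h1 := hY2 i hi.2
    have h2 : (univ.filter (fun j => X j i = true)).map
        (f.toEmbedding.trans (Function.Embedding.subtype _)) ⊆ Q.filter (fun p => i ∈ p) := by
      intro q hq
      obtain ⟨j, hj, rfl⟩ := mem_map.1 hq
      rw [mem_filter] at hj
      rw [mem_filter]
      exact ⟨(f j).2, (hmem j i hi.1).1 hj.2⟩
    have h3 := card_le_card h2
    rw [card_map] at h3
    omega
  have main : ∀ (k v : ℕ) (Z : List (ℕ × ℕ)), k + v = 10 →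
      (∀ i < k, (Z.getD i (0, 0)).1 < v ∧ (Z.getD i (0, 0)).2 < v) → N10.Lab P k v Z →
      ∃ e : ℕ → ι, KSat.HolW 10 (KSat.zsOf k Z) (KSat.sig W 10 e) := by
    rintro k v Z hkv hZ ⟨e, he1, he2, he3⟩
    rw [hkv] at he1 he2 he3
    rw [hPR] at he1
    have himg : (range 10).image e = R := by
      apply eq_of_subset_of_card_le
      · intro r hr
        obtain ⟨i, hi, rfl⟩ := mem_image.1 hr
        exact he1 i (mem_range.1 hi)
      · rw [card_image_of_injOn, hcard, card_range]
        intro i hi j hj hij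
        exact he2 i j (mem_range.1 (mem_coe.1 hi)) (mem_range.1 (mem_coe.1 hj)) hij
    refine ⟨e, KSat.holW ⟨he2, fun X hX => ?_⟩ hQ ?_⟩
    · refine (hR1 X hX).trans ?_
      unfold hit
      rw [← himg]
      have h1 : (image e (range 10)).filter (fun i => X i = true) ⊆
          ((range 10).filter (fun i => X (e i) = true)).image e := by
        intro r hr
        rw [mem_filter, mem_image] at hr
        obtain ⟨⟨i, hi, rfl⟩, hXr⟩ := hr
        exact mem_image.2 ⟨i, mem_filter.2 ⟨hi, hXr⟩, rfl⟩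
      exact (card_le_card h1).trans card_image_le
    · intro z hz
      unfold KSat.zsOf at hz
      rw [List.mem_map] at hz
      obtain ⟨i, hi, rfl⟩ := hz
      rw [List.mem_range] at hi
      obtain ⟨z1, z2⟩ := hZ i hi
      refine ⟨KSat.kb_bset_lt (by
        intro a ha
        simp only [List.mem_cons, List.not_mem_nil, or_false] at ha
        omega), ?_⟩
      obtain ⟨q, hq, hqe⟩ := he3 i hi
      obtain ⟨-, X, hX, hXq⟩ := hP2 q hq
      refine ⟨X, hX, fun t ht => ?_⟩
      have h1 := hqe t ht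
      have h2 : X (e t) = true ↔ e t ∈ q := by
        rw [← hXq, mem_filter]
        exact ⟨fun h => ⟨he1 t ht, h⟩, fun h => h.2⟩
      have h3 := KSat.testBit_bset [i, k + (Z.getD i (0, 0)).1, k + (Z.getD i (0, 0)).2] t
      simp only [List.mem_cons, List.not_mem_nil, or_false] at h3
      exact Bool.eq_iff_iff.2 (h2.trans (h1.trans h3.symm))
  rcases N10.struct10 (fun p hp => (hP2 p hp).1) hpriv hRad (by rw [hPR]; exact hcard) with
    h | h | h
  · obtain ⟨e, he⟩ := main 5 5 N10.zC5 rfl (by decide) h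
    exact ⟨e, Or.inl he⟩
  · obtain ⟨e, he⟩ := main 5 5 N10.zC23 rfl (by decide) h
    exact ⟨e, Or.inr (Or.inl he)⟩
  · obtain ⟨e, he⟩ := main 6 4 N10.zK4 rfl (by decide) h
    exact ⟨e, Or.inr (Or.inr he)⟩

end PHP
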