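import Mathlib

/-!
# The choice of the parameters
-/

namespace PHP

theorem nib_numeric {n k : ℕ} {η : ℝ} (hη0 : 0 < η) (hη1 : η ≤ 1) (hk : 1 ≤ k) (hn : 3 ≤ n)
    (hkn : k ≤ n) (hc : 130000 * ((n : ℝ) ^ 2 * Real.log n) ≤ η ^ 8 * (k : ℝ) ^ 3) :
    ∃ m0 B r : ℕ, (m0 : ℝ) ≤ η * k + 1 ∧ 1 ≤ B ∧ 1 ≤ r ∧ 16 * (n : ℝ) ≤ η * m0 * B ∧
      16 * (r : ℝ) * B ≤ η * m0 ∧
      4 * B / η * Real.log (((n : ℝ) + 1) ^ 2 * (1 + r)) + 3 ≤ η * r := by
  have hk' : (1 : ℝ) ≤ k := by exact_mod_cast hk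
  have hn' : (3 : ℝ) ≤ n := by exact_mod_cast hn
  have hkn' : (k : ℝ) ≤ n := by exact_mod_cast hkn
  have hlog1 : 1 ≤ Real.log n := by
    rw [Real.le_log_iff_exp_le (by linarith)]
    have := Real.exp_one_lt_d9
    linarith
  set ell : ℝ := Real.log n with hell
  set m0 : ℕ := ⌈η * k⌉₊ with hm0
  have h1 : η * k ≤ m0 := Nat.le_ceil _
  have h2 : (m0 : ℝ) ≤ η * k + 1 := (Nat.ceil_lt_add_one (by positivity)).le
  have hm0pos : (0 : ℝ) < m0 := lt_of_lt_of_le (by positivity) h1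
  have hηk : η * k ≤ k := by nlinarith
  have hm0n : (m0 : ℝ) ≤ n := by
    have : m0 ≤ k := by
      rw [hm0]
      exact Nat.ceil_le.2 hηk
    have : (m0 : ℝ) ≤ k := by exact_mod_cast this
    linarith
  set B : ℕ := ⌈16 * n / (η * m0)⌉₊ with hB
  have h3 : 16 * n / (η * m0) ≤ B := Nat.le_ceil _
  have h4 : (B : ℝ) ≤ 16 * n / (η * m0) + 1 := (Nat.ceil_lt_add_one (by positivity)).le
  have hB1 : 1 ≤ B := by
    rw [hB, Nat.one_le_ceil_iff]
    positivity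
  have hB' : (1 : ℝ) ≤ B := by exact_mod_cast hB1
  have hη2k : 0 < η ^ 2 * k := by positivity
  have h5 : (B : ℝ) ≤ 17 * n / (η ^ 2 * k) := by
    have e1 : 16 * (n : ℝ) / (η * m0) ≤ 16 * n / (η ^ 2 * k) := by
      apply div_le_div_of_nonneg_left (by positivity) hη2k
      nlinarith
    have e2 : 1 ≤ (n : ℝ) / (η ^ 2 * k) := by
      rw [le_div_iff₀ hη2k]
      have : η ^ 2 ≤ 1 := by nlinarith
      nlinarith
    have e3 : 17 * (n : ℝ) / (η ^ 2 * k) = 16 * n / (η ^ 2 * k) + n / (η ^ 2 * k) := by ring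
    rw [e3]
    linarith
  have h6 : (B : ℝ) * (η ^ 2 * k) ≤ 17 * n := by
    rw [le_div_iff₀ hη2k] at h5
    exact h5
  -- the key inequality `448 B^2 ell ≤ η^4 k`
  have h7 : 448 * (B : ℝ) ^ 2 * ell ≤ η ^ 4 * k := by
    have e1 : ((B : ℝ) * (η ^ 2 * k)) ^ 2 ≤ (17 * n) ^ 2 :=
      pow_le_pow_left₀ (by positivity) h6 2
    have e2 : 448 * ((B : ℝ) * (η ^ 2 * k)) ^ 2 * ell ≤ η ^ 8 * (k : ℝ) ^ 3 := by
      calc 448 * ((B : ℝ) * (η ^ 2 * k)) ^ 2 * ell ≤ 448 * (17 * n) ^ 2 * ell := by gcongr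
        _ = 129472 * ((n : ℝ) ^ 2 * ell) := by ring
        _ ≤ 130000 * ((n : ℝ) ^ 2 * ell) := by
            apply mul_le_mul_of_nonneg_right (by norm_num) (by positivity)
        _ ≤ _ := hc
    have e3 : 0 < η ^ 4 * (k : ℝ) ^ 2 := by positivity
    have e4 : (448 * (B : ℝ) ^ 2 * ell) * (η ^ 4 * (k : ℝ) ^ 2) ≤
        (η ^ 4 * k) * (η ^ 4 * (k : ℝ) ^ 2) := by
      calc (448 * (B : ℝ) ^ 2 * ell) * (η ^ 4 * (k : ℝ) ^ 2)
          = 448 * ((B : ℝ) * (η ^ 2 * k)) ^ 2 * ell := by ring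
        _ ≤ η ^ 8 * (k : ℝ) ^ 3 := e2
        _ = _ := by ring
    exact le_of_mul_le_mul_right e4 e3
  set r : ℕ := ⌊η * m0 / (16 * B)⌋₊ with hr
  have h8 : (r : ℝ) ≤ η * m0 / (16 * B) := Nat.floor_le (by positivity)
  have h9 : η * m0 / (16 * B) < r + 1 := Nat.lt_floor_add_one _
  have h10 : 28 * (B : ℝ) * ell ≤ η * (η * m0 / (16 * B)) * η := by
    have e1 : η * (η * m0 / (16 * B)) * η = η ^ 3 * m0 / (16 * B) := by ring
    rw [e1, le_div_iff₀ (by positivity)]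
    calc 28 * (B : ℝ) * ell * (16 * B) = 448 * (B : ℝ) ^ 2 * ell := by ring
      _ ≤ η ^ 4 * k := h7
      _ = η ^ 3 * (η * k) := by ring
      _ ≤ η ^ 3 * m0 := by gcongr
  have hBl : 1 ≤ (B : ℝ) * ell := by nlinarith
  have h11 : 28 * (B : ℝ) * ell ≤ η * m0 / (16 * B) := by
    have e1 : 0 ≤ η * m0 / (16 * B) := by positivity
    have e2 : η * (η * m0 / (16 * B)) * η ≤ η * m0 / (16 * B) := by
      have : η * η ≤ 1 := by nlinarith
      nlinarith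
    linarith
  have hr1 : 1 ≤ r := by
    rw [hr]
    apply Nat.le_floor
    push_cast
    nlinarith
  have hr' : (1 : ℝ) ≤ r := by exact_mod_cast hr1
  refine ⟨m0, B, r, h2, hB1, hr1, ?_, ?_, ?_⟩
  · rw [div_le_iff₀ (by positivity)] at h3
    linarith
  · rw [le_div_iff₀ (by positivity)] at h8
    linarith
  · have e1 : (1 + (r : ℝ)) ≤ n + 1 := by
      have : η * m0 / (16 * B) ≤ m0 := by
        rw [div_le_iff₀ (by positivity)]
        nlinarith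
      linarith
    have e2 : (n : ℝ) + 1 ≤ n ^ 2 := by nlinarith
    have e3 : ((n : ℝ) + 1) ^ 2 * (1 + r) ≤ (n : ℝ) ^ 6 := by
      calc ((n : ℝ) + 1) ^ 2 * (1 + r) ≤ ((n : ℝ) ^ 2) ^ 2 * (n : ℝ) ^ 2 := by
            apply mul_le_mul _ (by linarith) (by positivity) (by positivity)
            exact pow_le_pow_left₀ (by positivity) e2 2
        _ = (n : ℝ) ^ 6 := by ring
    have e4 : Real.log (((n : ℝ) + 1) ^ 2 * (1 + r)) ≤ 6 * ell := by
      calc Real.log (((n : ℝ) + 1) ^ 2 * (1 + r)) ≤ Real.log ((n : ℝ) ^ 6) :=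
            Real.log_le_log (by positivity) e3
        _ = 6 * ell := by rw [Real.log_pow, hell]; norm_num
    have e5 : 4 * B / η * Real.log (((n : ℝ) + 1) ^ 2 * (1 + r)) ≤ 4 * B / η * (6 * ell) :=
      mul_le_mul_of_nonneg_left e4 (by positivity)
    have e6 : 4 * B / η * (6 * ell) = 24 * B * ell / η := by ring
    have e7 : 24 * B * ell / η + 4 ≤ 28 * (B : ℝ) * ell / η := by
      have : 4 ≤ 4 * ((B : ℝ) * ell) / η := by
        rw [le_div_iff₀ hη0]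
        nlinarith
      have e8 : 28 * (B : ℝ) * ell / η = 24 * B * ell / η + 4 * ((B : ℝ) * ell) / η := by ring
      rw [e8]
      linarith
    have e9 : 28 * (B : ℝ) * ell / η ≤ η * (η * m0 / (16 * B)) := by
      rw [div_le_iff₀ hη0]
      exact h10
    have e10 : η * (η * m0 / (16 * B)) ≤ η * (r + 1) :=
      mul_le_mul_of_nonneg_left h9.le hη0.le
    nlinarith

end PHP
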