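import Mathlib
import Pool.Agent.PHP.ArrDefs

/-!
# The arrangement of tangents of a parabola

The line `i` is the tangent `y = 2 i x - i^2` of the parabola `y = x^2`, its halfplane is the part
above it.
-/

namespace PHP

open Set Filter Topology

/-- signed height of `z` above the tangent at `r` -/
noncomputable def ht (r : ℝ) (z : ℂ) : ℝ := z.im - 2 * r * z.re + r ^ 2

theorem ht_cont (r : ℝ) : Continuous (ht r) := by
  unfold ht
  fun_prop

theorem lin_ht (r : ℝ) : IsLinearMap ℝ (fun z : ℂ => z.im - 2 * r * z.re) := by
  constructor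
  · intro x y
    simp only [Complex.add_im, Complex.add_re]
    ring
  · intro c x
    simp only [Complex.smul_im, Complex.smul_re, smul_eq_mul]
    ring

/-- the point of the tangent at `r` with abscissa `t` -/
noncomputable def gam (r t : ℝ) : ℂ := ⟨t, 2 * r * t - r ^ 2⟩

theorem ht_gam (r s t : ℝ) : ht s (gam r t) = 2 * (r - s) * (t - (r + s) / 2) := by
  unfold ht gam
  simp only
  ring

theorem ht_zero_iff (r : ℝ) (z : ℂ) : ht r z = 0 ↔ z ∈ range (gam r) := by
  constructor
  · intro h
    refine ⟨z.re, ?_⟩
    unfold ht at h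
    apply Complex.ext
    · rfl
    · simp only [gam]
      linarith
  · rintro ⟨t, rfl⟩
    rw [ht_gam]
    ring

noncomputable def tangent (r : ℝ) : TLine where
  γ := gam r
  cont := by
    have h : (gam r) = fun t : ℝ => ((t : ℂ) + ((2 * r * t - r ^ 2 : ℝ) : ℂ) * Complex.I) := by
      funext t
      apply Complex.ext
      · rw [Complex.add_re, Complex.re_ofReal_mul, Complex.ofReal_re, Complex.I_re]
        simp [gam]
      · rw [Complex.add_im, Complex.im_ofReal_mul, Complex.ofReal_im, Complex.I_im]
        simp [gam]
    rw [h]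
    fun_prop
  inj := by
    intro s t h
    have := congrArg Complex.re h
    simpa [gam] using this
  proper := by
    apply tendsto_cocompact_cocompact_of_norm
    intro ε
    refine ⟨ε, fun t ht => ?_⟩
    have h1 : |(gam r t).re| ≤ ‖gam r t‖ := Complex.abs_re_le_norm _
    have h2 : (gam r t).re = t := rfl
    rw [h2] at h1
    rw [Real.norm_eq_abs] at ht
    linarith
  side := fun b => if b then {z | 0 < ht r z} else {z | ht r z < 0}
  side_open := by
    intro b
    cases b
    · simpa using isOpen_lt (ht_cont r) continuous_const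
    · simpa using isOpen_lt continuous_const (ht_cont r)
  side_conn := by
    intro b
    cases b
    · have h : {z : ℂ | ht r z < 0} = {z | (fun z : ℂ => z.im - 2 * r * z.re) z < - r ^ 2} := by
        ext z
        simp only [mem_ofPred_eq, ht]
        constructor <;> intro h <;> linarith
      have hc : Convex ℝ {z : ℂ | ht r z < 0} := by
        rw [h]
        exact convex_halfSpace_lt (lin_ht r) _
      have hn : {z : ℂ | ht r z < 0}.Nonempty := by
        refine ⟨⟨0, - r ^ 2 - 1⟩, ?_⟩
        simp only [mem_ofPred_eq, ht]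
        linarith
      simpa using ⟨hn, hc.isPreconnected⟩
    · have h : {z : ℂ | 0 < ht r z} = {z | - r ^ 2 < (fun z : ℂ => z.im - 2 * r * z.re) z} := by
        ext z
        simp only [mem_ofPred_eq, ht]
        constructor <;> intro h <;> linarith
      have hc : Convex ℝ {z : ℂ | 0 < ht r z} := by
        rw [h]
        exact convex_halfSpace_gt (lin_ht r) _
      have hn : {z : ℂ | 0 < ht r z}.Nonempty := by
        refine ⟨⟨0, - r ^ 2 + 1⟩, ?_⟩
        simp only [mem_ofPred_eq, ht]
        linarith
      simpa using ⟨hn, hc.isPreconnected⟩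
  side_disj := by
    rw [Set.disjoint_left]
    intro z h1 h2
    simp only [if_true, mem_ofPred_eq] at h1
    simp at h2
    linarith
  side_union := by
    ext z
    rw [mem_compl_iff, ← ht_zero_iff]
    simp only [if_true, Bool.false_eq_true, if_false, mem_union, mem_ofPred_eq]
    constructor
    · rintro (h | h) h0
      · linarith
      · linarith
    · intro h
      rcases lt_trichotomy (ht r z) 0 with h1 | h1 | h1
      · exact Or.inr h1
      · exact absurd h1 h
      · exact Or.inl h1

theorem mem_side_true (r : ℝ) (z : ℂ) : z ∈ (tangent r).side true ↔ 0 < ht r z := by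
  simp [tangent]

theorem mem_side_false (r : ℝ) (z : ℂ) : z ∈ (tangent r).side false ↔ ht r z < 0 := by
  simp [tangent]

theorem tangent_half {r s : ℝ} (h : r ≠ s) :
    ∃ c, (∀ u < (r + s) / 2, gam r u ∈ (tangent s).side (!c)) ∧
      (∀ u > (r + s) / 2, gam r u ∈ (tangent s).side c) := by
  rcases lt_or_gt_of_ne h with h1 | h1
  · refine ⟨false, ?_, ?_⟩
    · intro u hu
      rw [Bool.not_false, mem_side_true, ht_gam]
      have : 0 < 2 * (s - r) * ((r + s) / 2 - u) := by
        apply mul_pos
        · linarith
        · linarith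
      linarith
    · intro u hu
      rw [mem_side_false, ht_gam]
      have : 0 < 2 * (s - r) * (u - (r + s) / 2) := by
        apply mul_pos
        · linarith
        · linarith
      linarith
  · refine ⟨true, ?_, ?_⟩
    · intro u hu
      rw [Bool.not_true, mem_side_false, ht_gam]
      have : 0 < 2 * (r - s) * ((r + s) / 2 - u) := by
        apply mul_pos
        · linarith
        · linarith
      linarith
    · intro u hu
      rw [mem_side_true, ht_gam]
      apply mul_pos
      · linarith
      · linarith

theorem tangent_crosses {r s : ℝ} (h : r ≠ s) :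
    (tangent r).Crosses (tangent s) ((r + s) / 2) ((r + s) / 2) := by
  have hg : (tangent r).γ = gam r := rfl
  have hg' : (tangent s).γ = gam s := rfl
  refine ⟨?_, ?_, ?_, ?_⟩
  · rw [hg, hg']
    apply Complex.ext
    · rfl
    · simp only [gam]
      ring
  · intro s' t' h'
    rw [hg, hg'] at h'
    have h1 : s' = t' := by
      have := congrArg Complex.re h'
      simpa [gam] using this
    subst h1
    have h2 := congrArg Complex.im h'
    simp only [gam] at h2
    have h3 : (r - s) * (s' - (r + s) / 2) = 0 := by nlinarith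
    rcases mul_eq_zero.1 h3 with h4 | h4
    · exact absurd (sub_eq_zero.1 h4) h
    · have := sub_eq_zero.1 h4
      exact ⟨this, this⟩
  · rw [hg]
    exact tangent_half h
  · rw [hg']
    have := tangent_half (Ne.symm h)
    rw [add_comm s r] at this
    exact this

/-- the tangents at `0, 1, ..., m` -/
noncomputable def tangents (m : ℕ) : PHArr (Fin (m + 1)) where
  L := fun i => tangent (i.val : ℝ)
  meet := by
    intro i j hij
    right
    exact ⟨_, _, tangent_crosses (fun h => hij (Fin.ext (Nat.cast_injective h)))⟩
  no3 := by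
    intro i j k hij hjk hik
    rw [Set.eq_empty_iff_forall_notMem]
    rintro z ⟨⟨⟨t1, h1⟩, ⟨t2, h2⟩⟩, ⟨t3, h3⟩⟩
    have hij' : (i.val : ℝ) ≠ j.val := fun h => hij (Fin.ext (Nat.cast_injective h))
    have hik' : (i.val : ℝ) ≠ k.val := fun h => hik (Fin.ext (Nat.cast_injective h))
    have e1 := ((tangent_crosses hij').2.1 t1 t2 (h1.trans h2.symm)).1
    have e2 := ((tangent_crosses hik').2.1 t1 t3 (h1.trans h3.symm)).1
    rw [e1] at e2
    have : (j.val : ℝ) = k.val := by linarith
    exact hjk (Fin.ext (Nat.cast_injective this))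

/-- a point below the tangent at `i` only -/
noncomputable def pnt (i : ℕ) : ℂ := ⟨i, (i : ℝ) ^ 2 - 1 / 2⟩

theorem ht_pnt (i j : ℕ) : ht (j : ℝ) (pnt i) = ((i : ℝ) - j) ^ 2 - 1 / 2 := by
  unfold ht pnt
  simp only
  ring

theorem ht_pnt_pos {i j : ℕ} : 0 < ht (j : ℝ) (pnt i) ↔ j ≠ i := by
  rw [ht_pnt]
  constructor
  · rintro h rfl
    norm_num at h
  · intro h
    have h1 : (1 : ℝ) ≤ ((i : ℝ) - j) ^ 2 := by
      have h2 : ((i : ℤ) - j) ≠ 0 := by omega
      have h3 : 1 ≤ ((i : ℤ) - j) ^ 2 := by
        have := Int.one_le_abs h2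
        nlinarith [sq_abs ((i : ℤ) - j)]
      exact_mod_cast h3
    linarith

theorem ht_pnt_ne (i j : ℕ) : ht (j : ℝ) (pnt i) ≠ 0 := by
  by_cases h : j = i
  · subst h
    rw [ht_pnt]
    norm_num
  · exact (ht_pnt_pos.2 h).ne'

end PHP
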