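import Mathlib
import Pool.Agent.PHP.Points
import Pool.Agent.PHP.Frac
import Pool.Agent.PHP.Straight

/-!
# MP_1180db_co: the fractional version of the question

`PHP.TLine` (file `Pool.Agent.PHP.LineDefs`) is a properly embedded line in the plane `ℂ` together
with the two regions into which it divides the plane, `PHP.PHArr` (file `Pool.Agent.PHP.ArrDefs`) is a
pseudohalfplane arrangement; the chosen pseudohalfplane of the curve `i` is `(A.L i).side true`.
-/

namespace Pool.Agent.Results.MP_1180db_co.FractionalSplitting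

open PHP Set

/-- the pseudohalfplanes containing the point `z` -/
def above {ι : Type} (A : PHArr ι) (z : ℂ) : Set ι := {i | z ∈ (A.L i).side true}

/-- `z` lies on none of the curves -/
def Off {ι : Type} (A : PHArr ι) (z : ℂ) : Prop := ∀ i, z ∉ range (A.L i).γ

/-- the members of the family with index in `C` cover `S` -/
def Covers {ι : Type} (A : PHArr ι) (S : Set ℂ) (C : Finset ι) : Prop :=
  ∀ z ∈ S, ∃ i ∈ C, z ∈ (A.L i).side true

/-- `T(m)` coverings, each member in at most `m` of them -/
theorem family (ι : Type) [Fintype ι] (A : PHArr ι) (S : Set ℂ) (m : ℕ)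
    (hS : ∀ z ∈ S, Off A z) (hcov : ∀ z ∈ S, m ≤ (above A z).ncard) :
    ∃ C : Tok m → Finset ι, (∀ a, Covers A S (C a)) ∧ ∀ i, {a | i ∈ C a}.ncard ≤ m := by
  classical
  by_cases hne : Nonempty ι
  · obtain ⟨Sy, F, l, hT, hC⟩ := A.exists_circ
    obtain ⟨S', F', l', h', hTT, hc⟩ := hC.exists_complete
    obtain ⟨W, hW, -⟩ := h'.exists_sweep hc hne
    obtain ⟨R, hR, hcnt⟩ := W.exists_family F' m
    refine ⟨R, fun a z hz => ?_, fun i => ?_⟩
    · have h1 : A.sign z ∈ W.cells F' := by
        rw [hW]
        apply hTT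
        rw [hT]
        exact A.sign_mem (hS z hz)
      have h2 := hR a _ h1 (by
        rw [A.dep_sign]
        exact hcov z hz)
      obtain ⟨i, hi, hX⟩ := main_exists_of_hit h2
      exact ⟨i, hi, (A.sign_true z i).1 hX⟩
    · have h1 := hcnt i
      unfold cnt at h1
      rw [← Set.ncard_coe_finset] at h1
      have h2 : {a | i ∈ R a} = ((Finset.univ.filter (fun a => i ∈ R a) : Finset (Tok m)) :
          Set (Tok m)) := by
        ext a
        simp
      rw [h2]
      exact h1
  · rw [not_nonempty_iff] at hne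
    refine ⟨fun _ => ∅, fun a z hz => ?_, fun i => (hne.false i).elim⟩
    have h1 := hcov z hz
    rw [show above A z = ∅ from Set.eq_empty_of_isEmpty _, Set.ncard_empty] at h1
    have h2 := a.1.1.2
    omega

theorem result :
    (∀ (ι : Type) [Fintype ι] (A : PHArr ι) (S : Set ℂ) (m : ℕ), (∀ z ∈ S, Off A z) →
      (∀ z ∈ S, m ≤ (above A z).ncard) →
      (∃ C : Fin (m * (m + 1) / 2) → Finset ι, (∀ a, Covers A S (C a)) ∧
        ∀ i, {a | i ∈ C a}.ncard ≤ m) ∧
      (1 ≤ m → ∀ c : ι → ℝ, (∀ i, 0 ≤ c i) →
        ∃ D : Finset ι, Covers A S D ∧ (m + 1) * ∑ i ∈ D, c i ≤ 2 * ∑ i, c i)) ∧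
    (∀ m : ℕ, ∃ (A : PHArr (Fin (m + 1))) (S : Set ℂ), S.Finite ∧ (∀ z ∈ S, Off A z) ∧
      (∀ z ∈ S, (above A z).ncard = m) ∧
      ∀ (N M : ℕ) (C : Fin N → Finset (Fin (m + 1))), (∀ a, Covers A S (C a)) →
        (∀ i, {a | i ∈ C a}.ncard ≤ M) → 2 * N ≤ (m + 1) * M) := by
  classical
  constructor
  · intro ι _ A S m hS hcov
    obtain ⟨C, hC, hM⟩ := family ι A S m hS hcov
    have hcard : Fintype.card (Tok m) = Fintype.card (Fin (m * (m + 1) / 2)) := by
      rw [card_tok, Fintype.card_fin]
    constructor
    · let e : Fin (m * (m + 1) / 2) ≃ Tok m := Fintype.equivOfCardEq hcard.symm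
      refine ⟨fun a => C (e a), fun a => hC (e a), fun i => ?_⟩
      have h1 : {a | i ∈ C (e a)} = e ⁻¹' {a | i ∈ C a} := rfl
      rw [h1, Set.ncard_preimage_of_injective_subset_range e.injective]
      · exact hM i
      · intro a _
        exact e.surjective a
    · intro hm c hc
      by_contra hno
      push Not at hno
      have h1 : ∀ a, 2 * ∑ i, c i < (m + 1) * ∑ i ∈ C a, c i := fun a => hno (C a) (hC a)
      have hne : (Finset.univ : Finset (Tok m)).Nonempty := by
        refine ⟨⟨(⟨0, by omega⟩, ⟨0, by omega⟩), ?_⟩, Finset.mem_univ _⟩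
        simpa using (by omega : 0 < m)
      have h2 : ∑ a : Tok m, (2 * ∑ i, c i) < ∑ a : Tok m, ((m : ℝ) + 1) * ∑ i ∈ C a, c i :=
        Finset.sum_lt_sum_of_nonempty hne (fun a _ => h1 a)
      have h3 : ∑ a : Tok m, ∑ i ∈ C a, c i ≤ m * ∑ i, c i := by
        have h4 : ∀ a : Tok m, ∑ i ∈ C a, c i = ∑ i, if i ∈ C a then c i else 0 := by
          intro a
          rw [Finset.sum_ite_mem, Finset.univ_inter]
        rw [Finset.sum_congr rfl (fun a _ => h4 a), Finset.sum_comm, Finset.mul_sum]
        apply Finset.sum_le_sum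
        intro i _
        rw [← Finset.sum_filter, Finset.sum_const, nsmul_eq_mul]
        apply mul_le_mul_of_nonneg_right _ (hc i)
        have h5 := hM i
        have h6 : {a | i ∈ C a} = ((Finset.univ.filter (fun a => i ∈ C a) : Finset (Tok m)) :
            Set (Tok m)) := by
          ext a
          simp
        rw [h6, Set.ncard_coe_finset] at h5
        exact_mod_cast h5
      rw [Finset.sum_const, Finset.card_univ, nsmul_eq_mul, ← Finset.mul_sum] at h2
      have h7 : (2 : ℝ) * (Fintype.card (Tok m) : ℝ) = m * (m + 1) := by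
        exact_mod_cast card_tok_two m
      have h8 : ((m : ℝ) + 1) * ∑ a : Tok m, ∑ i ∈ C a, c i ≤ (m + 1) * (m * ∑ i, c i) :=
        mul_le_mul_of_nonneg_left h3 (by positivity)
      have h9 : (Fintype.card (Tok m) : ℝ) * (2 * ∑ i, c i) = (m + 1) * (m * ∑ i, c i) := by
        rw [show (Fintype.card (Tok m) : ℝ) * (2 * ∑ i, c i) =
          (2 * (Fintype.card (Tok m) : ℝ)) * ∑ i, c i by ring, h7]
        ring
      linarith
  · intro m
    have hcov1 : ∀ i j : Fin (m + 1), pnt i.val ∈ ((tangents m).L j).side true ↔ j ≠ i := by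
      intro i j
      show pnt i.val ∈ (tangent (j.val : ℝ)).side true ↔ j ≠ i
      rw [mem_side_true, ht_pnt_pos]
      exact not_congr Fin.ext_iff.symm
    refine ⟨tangents m, range (fun i : Fin (m + 1) => pnt i.val), finite_range _, ?_, ?_, ?_⟩
    · rintro _ ⟨i, rfl⟩ j hj
      have h1 : pnt i.val ∈ range (gam (j.val : ℝ)) := hj
      rw [← ht_zero_iff] at h1
      exact ht_pnt_ne i.val j.val h1
    · rintro _ ⟨i, rfl⟩
      have h1 : above (tangents m) (pnt i.val) = {i}ᶜ := by
        ext j
        exact hcov1 i j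
      show (above (tangents m) (pnt i.val)).ncard = m
      rw [h1, Set.ncard_compl, Set.ncard_singleton, Nat.card_eq_fintype_card, Fintype.card_fin]
      rfl
    · intro N M C hC hM
      have h2 : ∀ a, 2 ≤ (C a).card := by
        intro a
        by_contra hlt
        rw [not_le] at hlt
        have h3 : (C a).card ≤ 1 := by omega
        obtain ⟨i0, hi0⟩ : ∃ i0 : Fin (m + 1), C a ⊆ {i0} := by
          rcases (C a).eq_empty_or_nonempty with h4 | ⟨i0, h4⟩
          · exact ⟨0, by rw [h4]; exact Finset.empty_subset _⟩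
          · refine ⟨i0, fun j hj => ?_⟩
            rw [Finset.mem_singleton]
            exact Finset.card_le_one.1 h3 j hj i0 h4
        obtain ⟨j, hj, hz⟩ := hC a (pnt i0.val) ⟨i0, rfl⟩
        rw [hcov1] at hz
        exact hz (Finset.mem_singleton.1 (hi0 hj))
      have h3 : ∑ a, (C a).card = ∑ i, (Finset.univ.filter (fun a => i ∈ C a)).card := by
        have h4 : ∀ a, (C a).card = ∑ i, if i ∈ C a then 1 else 0 := by
          intro a
          rw [Finset.sum_ite_mem, Finset.univ_inter, Finset.card_eq_sum_ones]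
        rw [Finset.sum_congr rfl (fun a _ => h4 a), Finset.sum_comm]
        apply Finset.sum_congr rfl
        intro i _
        rw [Finset.card_filter]
      have h4 : ∑ i, (Finset.univ.filter (fun a => i ∈ C a)).card ≤ (m + 1) * M := by
        have h5 : ∀ i ∈ (Finset.univ : Finset (Fin (m + 1))),
            (Finset.univ.filter (fun a => i ∈ C a)).card ≤ M := by
          intro i _
          have h6 := hM i
          have h7 : {a | i ∈ C a} = ((Finset.univ.filter (fun a => i ∈ C a) : Finset (Fin N)) :
              Set (Fin N)) := by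
            ext a
            simp
          rw [h7, Set.ncard_coe_finset] at h6
          exact h6
        have := Finset.sum_le_card_nsmul _ _ _ h5
        rw [Finset.card_univ, Fintype.card_fin, smul_eq_mul] at this
        exact this
      have h5 : N * 2 ≤ ∑ a, (C a).card := by
        have := Finset.card_nsmul_le_sum (Finset.univ : Finset (Fin N)) (fun a => (C a).card) 2
          (fun a _ => h2 a)
        rw [Finset.card_univ, Fintype.card_fin, smul_eq_mul] at this
        exact this
      omega

end Pool.Agent.Results.MP_1180db_co.FractionalSplitting
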