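import Mathlib
import Pool.Agent.PHP.KDefs
import Pool.Agent.PHP.N3Radon
import Pool.Agent.PHP.ExMin
import Pool.Agent.PHP.ExCard

/-!
# Seven lines, given the refutations for eight, nine and ten lines (problem MP_1180db_co, k = 3)
-/

namespace PHP

open Finset

variable {ι : Type} [Fintype ι] [DecidableEq ι]

/-- a critical subfamily has a frame -/
theorem World.exists_fr (W : World ι) {R : Finset ι} (hne : W.T.Nonempty)
    (hR : ∀ X ∈ W.T, 3 ≤ hit R X) (hcrit : ∀ r ∈ R, ∃ X ∈ W.T, X r = true ∧ hit R X = 3) :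
    ∃ e : ℕ → ι, W.Fr R.card e := by
  classical
  have h7 := W.seven_le_card hne hR
  obtain ⟨a, ha, b, hb, c, hc, hcov, t1, t2, hcor⟩ := W.exists_min_cov hne hR
  obtain ⟨e, e0, e1, e2, hmem, hsurj, hinj, hsort⟩ :=
    W.exists_enum ha hb hc hcov.1 hcov.2.1 hcov.2.2.1
  have hcard : ∀ X : ι → Bool,
      ((range R.card).filter (fun i => X (e i) = true)).card = hit R X := by
    intro X
    unfold hit
    refine card_bij (fun i _ => e i) ?_ ?_ ?_
    · intro i hi
      rw [mem_filter, mem_range] at hi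
      exact mem_filter.2 ⟨hmem i hi.1, hi.2⟩
    · intro i hi j hj hij
      rw [mem_filter, mem_range] at hi hj
      exact hinj i j hi.1 hj.1 hij
    · intro r hr
      rw [mem_filter] at hr
      obtain ⟨i, hi, rfl⟩ := hsurj r hr.1
      exact ⟨i, mem_filter.2 ⟨mem_range.2 hi, hr.2⟩, rfl⟩
  refine ⟨e, hinj, by omega, ?_, ?_, ?_, ?_, ?_, ?_, ?_⟩
  · rw [e0, e1, e2]; exact hcov
  · rw [e0, e1]; exact t1
  · rw [e0, e2]; exact t2
  · rw [e0]
    exact hsort
  · intro x hx3 hx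
    rw [e0, e1, e2]
    exact hcor (e x) (hmem x hx)
      (fun h => by have := hinj x 0 hx (by omega) (by rw [e0]; exact h); omega)
      (fun h => by have := hinj x 1 hx (by omega) (by rw [e1]; exact h); omega)
      (fun h => by have := hinj x 2 hx (by omega) (by rw [e2]; exact h); omega)
  · intro X hX
    rw [hcard]
    exact hR X hX
  · intro i hi
    obtain ⟨X, hX, h1, h2⟩ := hcrit (e i) (hmem i hi)
    exact ⟨X, hX, h1, by rw [hcard]; exact h2⟩

/-- seven lines -/
theorem World.seven_of (W : World ι) (hne : W.T.Nonempty) (hd : ∀ X ∈ W.T, 3 ≤ dep X)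
    (h8 : ∀ e : ℕ → ι, ¬ W.Fr 8 e) (h9 : ∀ e : ℕ → ι, ¬ W.Fr 9 e) (h10 : ∀ e : ℕ → ι, ¬ W.Fr 10 e) :
    ∃ R : Finset ι, R.card = 7 ∧ ∀ X ∈ W.T, 3 ≤ (R.filter (fun i => X i = true)).card := by
  obtain ⟨R, h1, h2, h3⟩ := W.exists_ten hd
  have h7 := W.seven_le_card hne h2
  obtain ⟨e, he⟩ := W.exists_fr hne h2 h3
  refine ⟨R, ?_, h2⟩
  by_contra hne7
  have : R.card = 8 ∨ R.card = 9 ∨ R.card = 10 := by omega
  rcases this with h | h | h
  · rw [h] at he; exact h8 e he
  · rw [h] at he; exact h9 e he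
  · rw [h] at he; exact h10 e he

end PHP
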