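import Mathlib
import Pool.Agent.PHP.KGen
import Pool.Agent.PHP.SevenOf
import Pool.Agent.PHP.KC8
import Pool.Agent.PHP.KC9
import Pool.Agent.PHP.N10Cert

/-!
# Seven lines (problem MP_1180db_co, k = 3)

`World.seven`: a world with all cells of size at least three, in which no covering triple has two further lines through
its triangle and there is no (D) pair, has seven lines such that every cell contains at least three of them.
-/

namespace PHP

open Finset

variable {ι : Type} [Fintype ι] [DecidableEq ι]

theorem World.seven (W : World ι) (hne : W.T.Nonempty) (hd : ∀ X ∈ W.T, 3 ≤ dep X) (hQ : W.HQ)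
    (hND : W.HND) :
    ∃ R : Finset ι, R.card = 7 ∧ ∀ X ∈ W.T, 3 ≤ (R.filter (fun i => X i = true)).card := by
  obtain ⟨R, h1, h2, h3⟩ := W.exists_ten hd
  have h7 := W.seven_le_card hne h2
  refine ⟨R, ?_, h2⟩
  by_contra hne7
  have : R.card = 8 ∨ R.card = 9 ∨ R.card = 10 := by omega
  rcases this with h | h | h
  · obtain ⟨e, he⟩ := W.exists_fr hne h2 h3
    rw [h] at he
    exact KSat.fin8 (KSat.hol he hQ hND)
  · obtain ⟨e, he⟩ := W.exists_fr hne h2 h3
    rw [h] at he
    exact KSat.fin9 (KSat.hol he hQ hND)
  · obtain ⟨e, he | he | he⟩ := W.ten_cases hQ h h2 h3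
    · exact KSat.noC5 he
    · exact KSat.noC23 he
    · exact KSat.noK4 he

end PHP
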