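import Mathlib
import Pool.Agent.PHP.MainE
import Pool.Agent.PHP.RtwoB

/-!
# From the systems with all cells of size at least three to all systems (problem MP_1180db_co, k = 3)

`DeepThree`: the theorem for three colours for complete systems with all cells of size at least three. It implies:
`5`-fold coverings split into three coverings, `(3k-4)`-fold coverings into `k` coverings (`k ≥ 3`).
-/

namespace PHP

open Finset

/-- three colours, all cells of size at least three -/
def DeepThree : Prop :=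
  ∀ (ι : Type) [Fintype ι] [DecidableEq ι] (S : Sys ι) (F : ι → Bool) (l : List (ι × Bool)),
    S.Circ F l → S.Complete → (∀ X ∈ S.T, 3 ≤ dep X) → S.Three

theorem three_aux (H : DeepThree) (H2 : SplitTwo) {ι : Type} [Fintype ι] [DecidableEq ι]
    {S : Sys ι} {F : ι → Bool} {l : List (ι × Bool)} (h : S.Circ F l) (T' : Set (ι → Bool))
    (hT : T' ⊆ S.T) (hcov : ∀ X ∈ T', 5 ≤ dep X) :
    ∃ c : ι → Fin 3, ∀ X ∈ T', ∀ j, ∃ i, c i = j ∧ X i = true := by
  obtain ⟨S', F', l', h', hTT, hc⟩ := h.exists_complete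
  by_cases hle : ∃ X ∈ S'.T, dep X ≤ 2
  · obtain ⟨O', hO', hO'd⟩ := hle
    exact mainE_le_two H2 (by omega) h' hc hO' hO'd T' (fun X hX => hTT (hT hX)) (fun X hX => by
      have := hcov X hX
      omega)
  · push Not at hle
    obtain ⟨c, hc3⟩ := H ι S' F' l' h' hc (fun X hX => hle X hX)
    refine ⟨c, fun X hX j => ?_⟩
    obtain ⟨i, hi, hi2⟩ := hc3 X (hTT (hT hX)) (hcov X hX) j
    exact ⟨i, hi2, hi⟩

theorem threek_aux (H : DeepThree) (H2 : SplitTwo) : ∀ (k : ℕ) (_ : 3 ≤ k) (ι : Type) [Fintype ι]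
    [DecidableEq ι] (S : Sys ι) (F : ι → Bool) (l : List (ι × Bool)), S.Circ F l →
    ∀ (T' : Set (ι → Bool)), T' ⊆ S.T → (∀ X ∈ T', 3 * k ≤ dep X + 4) →
    ∃ c : ι → Fin k, ∀ X ∈ T', ∀ j, ∃ i, c i = j ∧ X i = true := by
  intro k hk
  induction k, hk using Nat.le_induction with
  | base =>
    intro ι _ _ S F l h T' hT hcov
    exact three_aux H H2 h T' hT (fun X hX => by
      have := hcov X hX
      omega)
  | succ k hk ih =>
    intro ι _ _ S F l h T' hT hcov
    obtain ⟨R, hR⟩ := h.exists_three_shallow (m := 3 * k - 1) (by omega)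
    obtain ⟨S'', l'', h'', hT'', -⟩ :=
      h.comap (Function.Embedding.subtype (fun i => i ∉ R))
    obtain ⟨c, hc⟩ := ih {i // i ∉ R} S'' _ l'' h''
      ((fun X : ι → Bool => X ∘ (Function.Embedding.subtype (fun i => i ∉ R))) '' T')
      (by
        rintro _ ⟨X, hX, rfl⟩
        rw [hT'']
        exact ⟨X, hT hX, rfl⟩)
      (by
        rintro _ ⟨X, hX, rfl⟩
        have h1 := hcov X hX
        obtain ⟨-, h3⟩ := hR X (hT hX) (by omega)
        have h4 := main_dep_compl R X
        simp only
        omega)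
    exact mainD_colour R T' (fun X hX => (hR X (hT hX) (by
      have := hcov X hX
      omega)).1) c hc

end PHP
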