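import Mathlib
import Pool.Agent.PHP.ThreeMain
import Pool.Agent.PHP.ExGlue
import Pool.Agent.PHP.SevenMain
import Pool.Agent.PHP.HepMain

/-!
# Three colours for systems with all cells of size at least three (problem MP_1180db_co, k = 3)
-/

namespace PHP

open Finset

theorem deepThree : DeepThree := by
  intro ι _ _ S F l h hc hd
  by_contra hno
  have hQ := h.world_HQ hc hd hno
  have hND := Sys.world_HND hc hno
  have hne : (S.world hc).T.Nonempty := by
    rw [Set.nonempty_iff_ne_empty]
    intro hT
    refine hno ⟨fun _ => 0, fun X hX => ?_⟩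
    have : X ∈ (S.world hc).T := hX
    rw [hT] at this
    exact this.elim
  obtain ⟨R, hR, hRd⟩ := (S.world hc).seven hne hd hQ hND
  exact hno (h.three_of_seven hc hQ hND hR hRd)

end PHP
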