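import Mathlib
import Pool.Agent.PHP.Points
import Pool.Agent.PHP.MainE
import Pool.Agent.PHP.MainW
import Pool.Agent.PHP.CapMain
import Pool.Agent.PHP.Straight
import Pool.Agent.PHP.ThreeFinal

/-!
# MP_1180db_co: `m(k) = 2k-1` for all `k` from the lemma `(S_m)`

`SmSweep m` is the lemma for the cells of a sweep: all cells have at least three members, some cell has
at most `m - 2` members. `sm_result` (definitions of the landed hand-ins): if it holds for all odd `m`
at least seven then `2k-1` is the least multiplicity which suffices for `k` coverings, for every `k`.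
-/

namespace PHP

open Finset

/-- The lemma `(S_m)` in its open range: a sweep (complete arrangement), every cell has at least three
members, some cell has at most `m - 2` members, and no two letters cover all cells. -/
def SmSweep (m : ℕ) : Prop :=
  ∀ (ι : Type) [Fintype ι] [DecidableEq ι] (W : Sweep ι) (F : ι → Bool),
    (∀ X ∈ W.cells F, 3 ≤ dep X) → (∃ X ∈ W.cells F, dep X + 2 ≤ m) →
    (∀ i j : ι, ∃ X ∈ W.cells F, X i = false ∧ X j = false) → Good (W.cells F) m

theorem splitTwoS : SplitTwo := by
  intro k hk ι _ _ S F l h hc O hO hd T' hT hcov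
  exact h.split_two hc hk hO hd T' hT (fun X hX => by
    have := hcov X hX
    omega)

/-- two letters which cover all cells are a good set -/
theorem good_of_pair {ι : Type} [Fintype ι] [DecidableEq ι] {T : Set (ι → Bool)} {m : ℕ}
    {i j : ι} (hij : ∀ X ∈ T, X i = false → X j = true) : Good T m := by
  refine ⟨{i, j}, fun X hX hm => ⟨?_, ?_⟩⟩
  · by_cases h1 : X i = false
    · exact main_one_le_hit (i := j) (by simp) (hij X hX h1)
    · exact main_one_le_hit (i := i) (by simp) (by simpa using h1)
  · have h2 : hit {i, j} X ≤ 2 := by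
      unfold hit
      exact (card_filter_le _ _).trans card_le_two
    omega

theorem sm_step {m : ℕ} (H : SmSweep m) {ι : Type} [Fintype ι] [DecidableEq ι] {S : Sys ι}
    {F : ι → Bool} {l : List (ι × Bool)} (h : S.Circ F l) (hc : S.Complete)
    (h3 : ∀ X ∈ S.T, 3 ≤ dep X) (hle : ∃ X ∈ S.T, dep X + 2 ≤ m) : Good S.T m := by
  have hne : Nonempty ι := by
    obtain ⟨X, hX, -⟩ := hle
    by_contra hcon
    rw [not_nonempty_iff] at hcon
    have h1 := h3 X hX
    unfold dep at h1
    rw [Finset.univ_eq_empty, Finset.filter_empty, Finset.card_empty] at h1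
    omega
  obtain ⟨W, hW, -⟩ := h.exists_sweep hc hne
  by_cases hp : ∀ i j : ι, ∃ X ∈ S.T, X i = false ∧ X j = false
  · rw [← hW] at h3 hle hp ⊢
    exact H ι W F h3 hle hp
  · push Not at hp
    obtain ⟨i, j, hij⟩ := hp
    exact good_of_pair (i := i) (j := j) (fun X hX h1 => by simpa using hij X hX h1)

theorem sm_split (H : ∀ m, 7 ≤ m → Odd m → SmSweep m) : ∀ (k : ℕ) (_ : 3 ≤ k) (ι : Type)
    [Fintype ι] [DecidableEq ι] (S : Sys ι) (F : ι → Bool) (l : List (ι × Bool)), S.Circ F l →
    ∀ (T' : Set (ι → Bool)), T' ⊆ S.T → (∀ X ∈ T', 2 * k ≤ dep X + 1) →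
    ∃ c : ι → Fin k, ∀ X ∈ T', ∀ j, ∃ i, c i = j ∧ X i = true := by
  intro k hk
  induction k, hk using Nat.le_induction with
  | base =>
    intro ι _ _ S F l h T' hT hcov
    exact three_aux deepThree splitTwoS h T' hT (fun X hX => by
      have := hcov X hX
      omega)
  | succ k hk ih =>
    intro ι _ _ S F l h T' hT hcov
    obtain ⟨S', F', l', h', hTT, hc⟩ := h.exists_complete
    by_cases hle : ∃ X ∈ S'.T, dep X ≤ 2
    · obtain ⟨O', hO', hO'd⟩ := hle
      exact mainE_le_two splitTwoS (by omega) h' hc hO' hO'd T' (fun X hX => hTT (hT hX)) hcov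
    · push Not at hle
      by_cases hsh : ∃ X ∈ S'.T, dep X + 2 ≤ 2 * k + 1
      · obtain ⟨R, hR⟩ := sm_step (H (2 * k + 1) (by omega) ⟨k, rfl⟩) h' hc
          (fun X hX => hle X hX) hsh
        obtain ⟨S'', l'', h'', hT'', -⟩ :=
          h'.comap (Function.Embedding.subtype (fun i => i ∉ R))
        obtain ⟨cc, hcc⟩ := ih {i // i ∉ R} S'' _ l'' h''
          ((fun X : ι → Bool => X ∘ (Function.Embedding.subtype (fun i => i ∉ R))) '' T')
          (by
            rintro _ ⟨X, hX, rfl⟩
            rw [hT'']
            exact ⟨X, hTT (hT hX), rfl⟩)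
          (by
            rintro _ ⟨X, hX, rfl⟩
            have h1 := hcov X hX
            have h2 := (hR X (hTT (hT hX)) (by omega)).2
            have h4 := main_dep_compl R X
            simp only
            omega)
        exact mainD_colour R T' (fun X hX => (hR X (hTT (hT hX)) (by
          have := hcov X hX
          omega)).1) cc hcc
      · push Not at hsh
        exact mainW_aux (k + 1) (by omega) ι S' F' l' h' (fun X hX => by
          have := hsh X hX
          omega) T' (fun X hX => hTT (hT hX)) hcov

end PHP
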